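import Mathlib

set_option autoImplicit false
open MeasureTheory Filter Topology
open scoped ContDiff InnerProductSpace

namespace Pool.Agent.Helper327_Drum

theorem classical_ode {om : ℝ} (hom : 0 < om) {f f' : ℝ → ℝ}
    (h1 : ∀ t, HasDerivAt f (f' t) t)
    (h2 : ∀ t, HasDerivAt f' (-(om ^ 2) * f t) t) :
    ∀ t, f t = f 0 * Real.cos (om * t) + f (Real.pi / (2 * om)) * Real.sin (om * t) := by
  have hcos : ∀ t : ℝ, HasDerivAt (fun t => Real.cos (om * t)) (-(om * Real.sin (om * t))) t := by
    intro t
    have := (Real.hasDerivAt_cos (om * t)).comp t ((hasDerivAt_id t).const_mul om)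
    refine this.congr_deriv ?_
    simp; ring
  have hsin : ∀ t : ℝ, HasDerivAt (fun t => Real.sin (om * t)) (om * Real.cos (om * t)) t := by
    intro t
    have := (Real.hasDerivAt_sin (om * t)).comp t ((hasDerivAt_id t).const_mul om)
    refine this.congr_deriv ?_
    simp; ring
  have hu : ∀ t, HasDerivAt (fun t => f t * Real.cos (om * t) - f' t * Real.sin (om * t) / om) 0 t := by
    intro t
    have := ((h1 t).mul (hcos t)).sub (((h2 t).mul (hsin t)).div_const om)
    refine this.congr_deriv ?_
    field_simp
    ring
  have hv : ∀ t, HasDerivAt (fun t => f t * Real.sin (om * t) + f' t * Real.cos (om * t) / om) 0 t := by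
    intro t
    have := ((h1 t).mul (hsin t)).add (((h2 t).mul (hcos t)).div_const om)
    refine this.congr_deriv ?_
    field_simp
    ring
  have hu' : ∀ x y, (fun t => f t * Real.cos (om * t) - f' t * Real.sin (om * t) / om) x
      = (fun t => f t * Real.cos (om * t) - f' t * Real.sin (om * t) / om) y :=
    is_const_of_deriv_eq_zero (fun t => (hu t).differentiableAt) (fun t => (hu t).deriv)
  have hv' : ∀ x y, (fun t => f t * Real.sin (om * t) + f' t * Real.cos (om * t) / om) x
      = (fun t => f t * Real.sin (om * t) + f' t * Real.cos (om * t) / om) y :=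
    is_const_of_deriv_eq_zero (fun t => (hv t).differentiableAt) (fun t => (hv t).deriv)
  intro t
  have hp : om * (Real.pi / (2 * om)) = Real.pi / 2 := by field_simp
  have a1 := hu' t 0
  have a2 := hv' t (Real.pi / (2 * om))
  simp only [mul_zero, Real.cos_zero, Real.sin_zero, mul_one, zero_div, sub_zero, hp,
    Real.cos_pi_div_two, Real.sin_pi_div_two, add_zero] at a1 a2
  have hcs := Real.sin_sq_add_cos_sq (om * t)
  rw [← a1, ← a2]
  linear_combination (-f t) * hcs

/-- TARGET: continuous weak solutions of a'' = -om² a are trigonometric. -/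
theorem weak_ode {om : ℝ} (hom : 0 < om) {a : ℝ → ℝ} (ha : Continuous a)
    (hw : ∀ W : ℝ → ℝ, ContDiff ℝ ∞ W → HasCompactSupport W →
      ∫ t, (iteratedDeriv 2 W t + om ^ 2 * W t) * a t = 0) :
    ∀ t, a t = a 0 * Real.cos (om * t) + a (Real.pi / (2 * om)) * Real.sin (om * t) := by
  have key : ∀ ρ : ℝ → ℝ, ContDiff ℝ ∞ ρ → HasCompactSupport ρ →
      ∀ t, (convolution ρ a (ContinuousLinearMap.lsmul ℝ ℝ) volume) t
        = (convolution ρ a (ContinuousLinearMap.lsmul ℝ ℝ) volume) 0 * Real.cos (om * t)
        + (convolution ρ a (ContinuousLinearMap.lsmul ℝ ℝ) volume) (Real.pi / (2 * om)) * Real.sin (om * t) := by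
    intro ρ hρ hc
    have hd1 : ContDiff ℝ ∞ (deriv ρ) := by
      have := (contDiff_infty_iff_deriv (f := ρ)).1 hρ
      exact this.2
    have hal : LocallyIntegrable a volume := ha.locallyIntegrable
    have e1 : ∀ t, HasDerivAt (convolution ρ a (ContinuousLinearMap.lsmul ℝ ℝ) volume)
        ((convolution (deriv ρ) a (ContinuousLinearMap.lsmul ℝ ℝ) volume) t) t := by
      intro t
      exact hc.hasDerivAt_convolution_left _ (hρ.of_le (by exact_mod_cast le_top)) hal t
    have e2 : ∀ t, HasDerivAt (convolution (deriv ρ) a (ContinuousLinearMap.lsmul ℝ ℝ) volume)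
        ((convolution (deriv (deriv ρ)) a (ContinuousLinearMap.lsmul ℝ ℝ) volume) t) t := by
      intro t
      exact hc.deriv.hasDerivAt_convolution_left _ (hd1.of_le (by exact_mod_cast le_top)) hal t
    refine classical_ode hom e1 ?_
    intro t
    refine (e2 t).congr_deriv ?_
    have hk := hw (fun s => ρ (t - s)) (hρ.comp (contDiff_const.sub contDiff_id))
      (hc.comp_homeomorph (Homeomorph.subLeft t))
    have hit : ∀ s, iteratedDeriv 2 (fun s => ρ (t - s)) s = deriv (deriv ρ) (t - s) := by
      intro s
      rw [iteratedDeriv_succ, iteratedDeriv_one]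
      have h1 : deriv (fun s => ρ (t - s)) = fun s => - deriv ρ (t - s) := by
        funext s
        exact deriv_comp_const_sub (f := ρ) t s
      rw [h1]
      rw [deriv.fun_neg, deriv_comp_const_sub (f := deriv ρ) t s]
      simp
    simp only [hit] at hk
    rw [convolution_eq_swap, convolution_eq_swap]
    simp only [ContinuousLinearMap.lsmul_apply, smul_eq_mul]
    have hi1 : Integrable (fun s => deriv (deriv ρ) (t - s) * a s) volume := by
      apply Continuous.integrable_of_hasCompactSupport
      · have : Continuous (deriv (deriv ρ)) := (hd1.continuous_deriv (by exact_mod_cast le_top))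
        fun_prop
      · exact (hc.deriv.deriv.comp_homeomorph (Homeomorph.subLeft t)).mul_right
    have hi2 : Integrable (fun s => ρ (t - s) * a s) volume := by
      apply Continuous.integrable_of_hasCompactSupport
      · have : Continuous ρ := hρ.continuous
        fun_prop
      · exact (hc.comp_homeomorph (Homeomorph.subLeft t)).mul_right
    have hsum : ∫ s, (deriv (deriv ρ) (t - s) + om ^ 2 * ρ (t - s)) * a s
        = (∫ s, deriv (deriv ρ) (t - s) * a s) + om ^ 2 * ∫ s, ρ (t - s) * a s := by
      rw [← integral_const_mul, ← integral_add hi1 (hi2.const_mul _)]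
      congr 1
      funext s
      ring
    rw [hsum] at hk
    linarith
  intro t
  let φ : ℕ → ContDiffBump (0 : ℝ) := fun n =>
    { rIn := 1 / ((n : ℝ) + 2), rOut := 1 / ((n : ℝ) + 1)
      rIn_pos := by positivity
      rIn_lt_rOut := by
        apply one_div_lt_one_div_of_lt
        · positivity
        · linarith }
  have hφ : Tendsto (fun i => (φ i).rOut) atTop (𝓝 0) := tendsto_one_div_add_atTop_nhds_zero_nat
  have hlim : ∀ x, Tendsto (fun i => (convolution (fun x => (φ i).normed volume x) a
      (ContinuousLinearMap.lsmul ℝ ℝ) volume) x) atTop (𝓝 (a x)) := fun x =>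
    ContDiffBump.convolution_tendsto_right_of_continuous hφ ha x
  have h1 := hlim t
  have h2 := ((hlim 0).mul_const (Real.cos (om * t))).add
    ((hlim (Real.pi / (2 * om))).mul_const (Real.sin (om * t)))
  refine tendsto_nhds_unique h1 (h2.congr ?_)
  intro i
  exact (key _ ((φ i).contDiff_normed) ((φ i).hasCompactSupport_normed) t).symm

end Pool.Agent.Helper327_Drum
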