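import Mathlib

set_option autoImplicit false
open MeasureTheory Filter Topology
open scoped ContDiff InnerProductSpace

namespace Pool.Agent.Helper327_Drum

/-
Plain proof. Substitute t = T s (T > 0): the integrals become 2 ∫ θ(s) cos(om T s) cos(om' T s) ds and
2 ∫ θ(s) cos(om T s) sin(om' T s) ds, bounded by 2 ∫ |θ|. Product formulas: 2 cos cos = cos((om-om')Ts) +
cos((om+om')Ts), 2 cos sin = sin((om+om')Ts) + sin((om'-om)Ts). By the Riemann-Lebesgue lemma
(`Real.tendsto_integral_exp_smul_cocompact` or one integration by parts, θ being smooth with compact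
support) ∫ θ(s) cos(κ T s) ds → 0 and ∫ θ(s) sin(κ T s) ds → 0 as T → ∞ whenever κ ≠ 0; for κ = 0
they equal ∫ θ = 1 and 0.
-/

theorem avg_scalar_RL {θ : ℝ → ℝ} (hθ : Continuous θ) (hθc : HasCompactSupport θ) {κ : ℝ}
    (hκ : κ ≠ 0) :
    Tendsto (fun T : ℝ => ∫ s, θ s * Real.cos (κ * T * s)) atTop (𝓝 0) ∧
    Tendsto (fun T : ℝ => ∫ s, θ s * Real.sin (κ * T * s)) atTop (𝓝 0) := by
  have h0 := Real.tendsto_integral_exp_smul_cocompact (fun v : ℝ => (θ v : ℂ))
  have h1 : Tendsto (fun T : ℝ => κ / (2 * Real.pi) * T) atTop (cocompact ℝ) := by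
    rcases lt_or_gt_of_ne hκ with h | h
    · have : κ / (2 * Real.pi) < 0 := div_neg_of_neg_of_pos h (by positivity)
      exact (tendsto_id.const_mul_atTop_of_neg this).mono_right atBot_le_cocompact
    · have : 0 < κ / (2 * Real.pi) := by positivity
      exact (tendsto_id.const_mul_atTop this).mono_right atTop_le_cocompact
  have h2 := h0.comp h1
  have key : ∀ T v : ℝ, (Real.fourierChar (-(v * (κ / (2 * Real.pi) * T))) : ℂ) * (θ v : ℂ) =
      ((θ v * Real.cos (κ * T * v) : ℝ) : ℂ) - ((θ v * Real.sin (κ * T * v) : ℝ) : ℂ) * Complex.I := by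
    intro T v
    rw [Real.fourierChar_apply]
    have : ((2 * Real.pi * -(v * (κ / (2 * Real.pi) * T)) : ℝ) : ℂ) * Complex.I =
        ((-(κ * T * v) : ℝ) : ℂ) * Complex.I := by
      congr 2
      field_simp
    rw [this, Complex.exp_mul_I, ← Complex.ofReal_cos, ← Complex.ofReal_sin, Real.cos_neg,
      Real.sin_neg]
    push_cast
    ring
  have hint : ∀ T : ℝ, Integrable fun v : ℝ =>
      (Real.fourierChar (-(v * (κ / (2 * Real.pi) * T))) : ℂ) * (θ v : ℂ) := by
    intro T
    apply Continuous.integrable_of_hasCompactSupport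
    · simp_rw [key]
      fun_prop
    · apply HasCompactSupport.mul_left
      exact hθc.comp_left (g := fun x : ℝ => (x : ℂ)) (by simp)
  have e : ∀ T : ℝ, ((fun w : ℝ => ∫ v : ℝ, Real.fourierChar (-(v * w)) • ((θ v : ℂ))) ∘
      fun T : ℝ => κ / (2 * Real.pi) * T) T =
      ∫ v : ℝ, (Real.fourierChar (-(v * (κ / (2 * Real.pi) * T))) : ℂ) * (θ v : ℂ) := by
    intro T
    rfl
  constructor
  · have h3 := (Complex.continuous_re.tendsto 0).comp h2
    rw [Complex.zero_re] at h3
    refine h3.congr fun T => ?_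
    rw [Function.comp_apply, e, ← Complex.reCLM_apply, ← Complex.reCLM.integral_comp_comm (hint T)]
    refine integral_congr_ae (Filter.Eventually.of_forall fun v => ?_)
    simp only
    rw [key]
    generalize θ v * Real.cos (κ * T * v) = a
    generalize θ v * Real.sin (κ * T * v) = b
    simp
  · have h3 := ((Complex.continuous_im.tendsto 0).comp h2).neg
    rw [Complex.zero_im, neg_zero] at h3
    refine h3.congr fun T => ?_
    rw [Function.comp_apply, e, ← Complex.imCLM_apply, ← Complex.imCLM.integral_comp_comm (hint T),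
      ← integral_neg]
    refine integral_congr_ae (Filter.Eventually.of_forall fun v => ?_)
    simp only
    rw [key]
    generalize θ v * Real.cos (κ * T * v) = a
    generalize θ v * Real.sin (κ * T * v) = b
    simp

theorem avg_scalar_subst (T : ℝ) (hT : 0 < T) (θ c d : ℝ → ℝ) :
    ∫ t, (2 / T * θ (t / T) * c t) * d t = ∫ s, 2 * θ s * c (T * s) * d (T * s) := by
  have h := Measure.integral_comp_mul_left (fun t => (2 / T * θ (t / T) * c t) * d t) T
  rw [abs_of_pos (inv_pos.2 hT), smul_eq_mul] at h
  have h2 : ∫ t, (2 / T * θ (t / T) * c t) * d t =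
      T * ∫ s, (2 / T * θ ((T * s) / T) * c (T * s)) * d (T * s) := by
    rw [h]; field_simp
  rw [h2, ← integral_const_mul]
  refine integral_congr_ae (Filter.Eventually.of_forall fun s => ?_)
  simp only
  rw [mul_div_cancel_left₀ s hT.ne']
  field_simp

theorem avg_scalar_bound {θ : ℝ → ℝ} (hθ : Continuous θ) (hθc : HasCompactSupport θ)
    (c d : ℝ → ℝ) (hc : ∀ x, |c x| ≤ 1) (hd : ∀ x, |d x| ≤ 1) :
    |∫ s, 2 * θ s * c s * d s| ≤ 2 * ∫ t, |θ t| := by
  rw [← integral_const_mul, ← Real.norm_eq_abs]
  refine norm_integral_le_of_norm_le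
    ((hθ.integrable_of_hasCompactSupport hθc).abs.const_mul 2)
    (Filter.Eventually.of_forall fun s => ?_)
  rw [Real.norm_eq_abs, abs_mul, abs_mul, abs_mul, abs_two]
  calc 2 * |θ s| * |c s| * |d s| ≤ 2 * |θ s| * 1 * 1 := by
        gcongr
        · exact hc s
        · exact hd s
    _ = _ := by ring

/-- TARGET: averages of trigonometric functions. -/
theorem avg_scalar {θ : ℝ → ℝ} (hθ : ContDiff ℝ ∞ θ) (hθc : HasCompactSupport θ)
    (h1 : ∫ t, θ t = 1) {om om' : ℝ} (hom : 0 < om) (hom' : 0 < om') :
    Tendsto (fun T : ℝ => ∫ t, (2 / T * θ (t / T) * Real.cos (om * t)) * Real.cos (om' * t)) atTop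
      (𝓝 (if om' = om then 1 else 0)) ∧
    Tendsto (fun T : ℝ => ∫ t, (2 / T * θ (t / T) * Real.cos (om * t)) * Real.sin (om' * t)) atTop
      (𝓝 0) ∧
    (∀ T : ℝ, 0 < T →
      |∫ t, (2 / T * θ (t / T) * Real.cos (om * t)) * Real.cos (om' * t)| ≤ 2 * ∫ t, |θ t|) ∧
    (∀ T : ℝ, 0 < T →
      |∫ t, (2 / T * θ (t / T) * Real.cos (om * t)) * Real.sin (om' * t)| ≤ 2 * ∫ t, |θ t|) := by
  have hc : Continuous θ := hθ.continuous
  have hint : Integrable θ := hc.integrable_of_hasCompactSupport hθc
  have hmc : ∀ κ : ℝ, Integrable fun s => θ s * Real.cos (κ * s) := fun κ =>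
    (hc.mul (by fun_prop)).integrable_of_hasCompactSupport hθc.mul_right
  have hms : ∀ κ : ℝ, Integrable fun s => θ s * Real.sin (κ * s) := fun κ =>
    (hc.mul (by fun_prop)).integrable_of_hasCompactSupport hθc.mul_right
  refine ⟨?_, ?_, ?_, ?_⟩
  · have e : ∀ᶠ T : ℝ in atTop, (∫ s, θ s * Real.cos ((om - om') * T * s)) +
        (∫ s, θ s * Real.cos ((om + om') * T * s)) =
        ∫ t, (2 / T * θ (t / T) * Real.cos (om * t)) * Real.cos (om' * t) := by
      filter_upwards [eventually_gt_atTop 0] with T hT
      rw [avg_scalar_subst T hT θ (fun t => Real.cos (om * t)) (fun t => Real.cos (om' * t)),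
        ← integral_add (hmc _) (hmc _)]
      refine integral_congr_ae (Filter.Eventually.of_forall fun s => ?_)
      simp only
      rw [show (om - om') * T * s = om * (T * s) - om' * (T * s) by ring,
        show (om + om') * T * s = om * (T * s) + om' * (T * s) by ring, Real.cos_sub, Real.cos_add]
      ring
    refine Tendsto.congr' e ?_
    have h2 := (avg_scalar_RL hc hθc (κ := om + om') (by positivity)).1
    by_cases h : om' = om
    · subst h
      rw [if_pos rfl]
      have h3 : ∀ T : ℝ, ∫ s, θ s * Real.cos ((om' - om') * T * s) = 1 := by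
        intro T
        rw [← h1]
        refine integral_congr_ae (Filter.Eventually.of_forall fun s => ?_)
        simp
      simp_rw [h3]
      simpa using h2.const_add 1
    · rw [if_neg h]
      have h3 := (avg_scalar_RL hc hθc (κ := om - om') (sub_ne_zero.2 (Ne.symm h))).1
      simpa using h3.add h2
  · have e : ∀ᶠ T : ℝ in atTop, (∫ s, θ s * Real.sin ((om + om') * T * s)) +
        (∫ s, θ s * Real.sin ((om' - om) * T * s)) =
        ∫ t, (2 / T * θ (t / T) * Real.cos (om * t)) * Real.sin (om' * t) := by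
      filter_upwards [eventually_gt_atTop 0] with T hT
      rw [avg_scalar_subst T hT θ (fun t => Real.cos (om * t)) (fun t => Real.sin (om' * t)),
        ← integral_add (hms _) (hms _)]
      refine integral_congr_ae (Filter.Eventually.of_forall fun s => ?_)
      simp only
      rw [show (om' - om) * T * s = om' * (T * s) - om * (T * s) by ring,
        show (om + om') * T * s = om * (T * s) + om' * (T * s) by ring, Real.sin_sub, Real.sin_add]
      ring
    refine Tendsto.congr' e ?_
    have h2 := (avg_scalar_RL hc hθc (κ := om + om') (by positivity)).2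
    by_cases h : om' = om
    · subst h
      have h3 : ∀ T : ℝ, ∫ s, θ s * Real.sin ((om' - om') * T * s) = 0 := by
        intro T
        simp
      simp_rw [h3]
      simpa using h2
    · have h3 := (avg_scalar_RL hc hθc (κ := om' - om) (sub_ne_zero.2 h)).2
      simpa using h2.add h3
  · intro T hT
    rw [avg_scalar_subst T hT θ (fun t => Real.cos (om * t)) (fun t => Real.cos (om' * t))]
    exact avg_scalar_bound hc hθc (fun s => Real.cos (om * (T * s)))
      (fun s => Real.cos (om' * (T * s))) (fun _ => Real.abs_cos_le_one _)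
      (fun _ => Real.abs_cos_le_one _)
  · intro T hT
    rw [avg_scalar_subst T hT θ (fun t => Real.cos (om * t)) (fun t => Real.sin (om' * t))]
    exact avg_scalar_bound hc hθc (fun s => Real.cos (om * (T * s)))
      (fun s => Real.sin (om' * (T * s))) (fun _ => Real.abs_cos_le_one _)
      (fun _ => Real.abs_sin_le_one _)

end Pool.Agent.Helper327_Drum
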