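import Pool.Agent.Helper327_Drum.Fin.A1

set_option autoImplicit false
open MeasureTheory Filter Topology
open scoped ContDiff InnerProductSpace

namespace Pool.Agent.Helper327_Drum

variable {H : Type*} [NormedAddCommGroup H] [InnerProductSpace ℝ H] [CompleteSpace H]

/-- A smooth function with compact support and its second derivative: what is used below. -/
theorem w_facts {W : ℝ → ℝ} (h1 : ContDiff ℝ ∞ W) (h2 : HasCompactSupport W) :
    Continuous W ∧ Continuous (iteratedDeriv 2 W) ∧ HasCompactSupport (iteratedDeriv 2 W) := by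
  refine ⟨h1.continuous, (contDiff_infty.1 h1 2).continuous_iteratedDeriv' 2, ?_⟩
  rw [iteratedDeriv_succ, iteratedDeriv_one]
  exact h2.deriv.deriv

/-- The inner product of an eigenvector and a mean of the wave. -/
theorem inner_mean {z : ℝ → H} (hz : Continuous z) {V : ℝ → ℝ} (hV : Continuous V)
    (hV' : HasCompactSupport V) (ψ : H) :
    ⟪ψ, ∫ t, V t • z t⟫_ℝ = ∫ t, V t * ⟪ψ, z t⟫_ℝ := by
  have hi : Integrable (fun t => V t • z t) :=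
    (hV.smul hz).integrable_of_hasCompactSupport hV'.smul_right
  rw [← integral_inner hi ψ]
  refine integral_congr_ae (Eventually.of_forall fun t => ?_)
  exact real_inner_smul_right _ _ _

/-- The eigenvalue equation, tested. -/
theorem eigen_eq (K : H →L[ℝ] H) (hs : (K : H →ₗ[ℝ] H).IsSymmetric)
    {c : ℝ} (z : ℝ → H) (hz : Continuous z)
    (hW : ∀ W : ℝ → ℝ, ContDiff ℝ ∞ W → HasCompactSupport W →
      K ((∫ t, W t • z t) - (c ^ 2)⁻¹ • ∫ t, iteratedDeriv 2 W t • z t) = ∫ t, W t • z t)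
    {μ : ℝ} {ψ : H} (hψ : K ψ = μ • ψ) {W : ℝ → ℝ} (h1 : ContDiff ℝ ∞ W)
    (h2 : HasCompactSupport W) :
    ∫ t, W t * ⟪ψ, z t⟫_ℝ =
      μ * ((∫ t, W t * ⟪ψ, z t⟫_ℝ) - (c ^ 2)⁻¹ * ∫ t, iteratedDeriv 2 W t * ⟪ψ, z t⟫_ℝ) := by
  obtain ⟨c1, c2, c3⟩ := w_facts h1 h2
  have e1 := inner_mean hz c1 h2 ψ
  have e2 := inner_mean hz c2 c3 ψ
  have e3 := hs ψ ((∫ t, W t • z t) - (c ^ 2)⁻¹ • ∫ t, iteratedDeriv 2 W t • z t)
  simp only [ContinuousLinearMap.coe_coe] at e3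
  rw [hW W h1 h2, hψ, real_inner_smul_left, inner_sub_right, real_inner_smul_right, e1, e2] at e3
  exact e3.symm

/-
Plain proof. Put λ = 1/μ - 1 > 0 and om = c √λ. From `K x = μ x`-symmetry: for W smooth with compact
support let Z_W = ∫ W(t) z(t) dt and Z_W'' = ∫ W''(t) z(t) dt (Bochner integrals in H).
⟨ψ, Z_W⟩ = ⟨ψ, K (Z_W - c⁻² Z_W'')⟩ = ⟨K ψ, ...⟩ = μ (⟨ψ, Z_W⟩ - c⁻² ⟨ψ, Z_W''⟩), that is
⟨ψ, Z_W''⟩ = c² (1 - 1/μ) ⟨ψ, Z_W⟩ = -om² ⟨ψ, Z_W⟩. With a(t) = ⟨ψ, z(t)⟩ this is the hypothesis of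
`weak_ode`.
-/

/-- TARGET 1: the coefficient of an eigenvector oscillates with one frequency. -/
theorem coeff (K : H →L[ℝ] H) (hs : (K : H →ₗ[ℝ] H).IsSymmetric)
    {c : ℝ} (hc : 0 < c) (z : ℝ → H) (hz : Continuous z)
    (hW : ∀ W : ℝ → ℝ, ContDiff ℝ ∞ W → HasCompactSupport W →
      K ((∫ t, W t • z t) - (c ^ 2)⁻¹ • ∫ t, iteratedDeriv 2 W t • z t) = ∫ t, W t • z t)
    {μ : ℝ} (h0 : 0 < μ) (h1 : μ < 1) {ψ : H} (hψ : K ψ = μ • ψ) (t : ℝ) :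
    ⟪ψ, z t⟫_ℝ = ⟪ψ, z 0⟫_ℝ * Real.cos (c * √(1 / μ - 1) * t) +
      ⟪ψ, z (Real.pi / (2 * (c * √(1 / μ - 1))))⟫_ℝ * Real.sin (c * √(1 / μ - 1) * t) := by
  have hlam : 0 < 1 / μ - 1 := by
    rw [sub_pos, lt_div_iff₀ h0]; linarith
  have hom : 0 < c * √(1 / μ - 1) := mul_pos hc (Real.sqrt_pos.2 hlam)
  have ha : Continuous fun t => ⟪ψ, z t⟫_ℝ := continuous_const.inner hz
  refine weak_ode hom ha (fun W g1 g2 => ?_) t
  obtain ⟨c1, c2, c3⟩ := w_facts g1 g2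
  have e := eigen_eq K hs z hz hW hψ g1 g2
  have i1 : Integrable (fun t => W t * ⟪ψ, z t⟫_ℝ) :=
    (c1.mul ha).integrable_of_hasCompactSupport g2.mul_right
  have i2 : Integrable (fun t => iteratedDeriv 2 W t * ⟪ψ, z t⟫_ℝ) :=
    (c2.mul ha).integrable_of_hasCompactSupport c3.mul_right
  have e2 : ∫ t, (iteratedDeriv 2 W t + (c * √(1 / μ - 1)) ^ 2 * W t) * ⟪ψ, z t⟫_ℝ =
      (∫ t, iteratedDeriv 2 W t * ⟪ψ, z t⟫_ℝ) +
        (c * √(1 / μ - 1)) ^ 2 * ∫ t, W t * ⟪ψ, z t⟫_ℝ := by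
    rw [← integral_const_mul, ← integral_add i2 (i1.const_mul _)]
    refine integral_congr_ae (Eventually.of_forall fun t => ?_)
    simp only
    ring
  rw [e2, mul_pow, Real.sq_sqrt hlam.le]
  set I := ∫ t, W t * ⟪ψ, z t⟫_ℝ with hI
  set J := ∫ t, iteratedDeriv 2 W t * ⟪ψ, z t⟫_ℝ with hJ
  field_simp at e ⊢
  linear_combination e

/-
Plain proof. If K w = 0 then ⟨w, Z_W⟩ = ⟨w, K (...)⟩ = ⟨K w, ...⟩ = 0 for every W, so ∫ W(t) ⟨w, z(t)⟩
dt = 0 for all test functions W, and the continuous function ⟨w, z(t)⟩ is 0. If in addition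
⟨ψ, z(t)⟩ = 0 for all eigenvectors ψ with eigenvalue in (0,1), then, all eigenvalues being in [0,1) by
hypothesis, z(t) is orthogonal to all eigenspaces, and z(t) = 0 by the spectral theorem
`ContinuousLinearMap.orthogonalComplement_iSup_eigenspaces_eq_bot`.
-/

/-- TARGET 2: a nonzero value has a nonzero component. -/
theorem exists_comp (K : H →L[ℝ] H) (hK : IsCompactOperator K) (hs : (K : H →ₗ[ℝ] H).IsSymmetric)
    (hpos : ∀ (μ : ℝ) (ψ : H), ψ ≠ 0 → K ψ = μ • ψ → 0 ≤ μ ∧ μ < 1)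
    {c : ℝ} (hc : 0 < c) (z : ℝ → H) (hz : Continuous z)
    (hW : ∀ W : ℝ → ℝ, ContDiff ℝ ∞ W → HasCompactSupport W →
      K ((∫ t, W t • z t) - (c ^ 2)⁻¹ • ∫ t, iteratedDeriv 2 W t • z t) = ∫ t, W t • z t)
    (t : ℝ) (ht : z t ≠ 0) :
    ∃ (μ : ℝ) (ψ : H), 0 < μ ∧ μ < 1 ∧ K ψ = μ • ψ ∧ ⟪ψ, z t⟫_ℝ ≠ 0 := by
  by_contra hcon
  push Not at hcon
  apply ht
  have hmem : z t ∈ (⨆ μ, Module.End.eigenspace (K : H →ₗ[ℝ] H) μ)ᗮ := by
    rw [← Submodule.iInf_orthogonal, Submodule.mem_iInf]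
    intro μ
    rw [Submodule.mem_orthogonal]
    intro ψ hψ
    rw [Module.End.mem_eigenspace_iff] at hψ
    have hψ' : K ψ = μ • ψ := hψ
    by_cases hψ0 : ψ = 0
    · rw [hψ0, inner_zero_left]
    obtain ⟨h0, h1⟩ := hpos μ ψ hψ0 hψ'
    rcases h0.lt_or_eq with h0 | h0
    · exact hcon μ ψ h0 h1 hψ'
    · have ha : Continuous fun t => ⟪ψ, z t⟫_ℝ := continuous_const.inner hz
      have hz0 : ∀ᵐ s : ℝ, ⟪ψ, z s⟫_ℝ = 0 := by
        refine ae_eq_zero_of_integral_contDiff_smul_eq_zero ha.locallyIntegrable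
          fun W g1 g2 => ?_
        have e := eigen_eq K hs z hz hW hψ' g1 g2
        rw [← h0, zero_mul] at e
        exact e
      have h2 : (fun s => ⟪ψ, z s⟫_ℝ) = fun _ => 0 :=
        (ha.ae_eq_iff_eq volume continuous_const).1 hz0
      exact congrFun h2 t
  rw [ContinuousLinearMap.orthogonalComplement_iSup_eigenspaces_eq_bot hK hs] at hmem
  exact (Submodule.mem_bot ℝ).1 hmem

end Pool.Agent.Helper327_Drum
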