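import Pool.Agent.Helper327_Drum.Fin.A2
import Pool.Agent.Helper327_Drum.Fin.A3

set_option autoImplicit false
open MeasureTheory Filter Topology
open scoped ContDiff InnerProductSpace

namespace Pool.Agent.Helper327_Drum

variable {H : Type*} [NormedAddCommGroup H] [InnerProductSpace ℝ H] [CompleteSpace H]

/-
Plain proof. Only countably many (the set of eigenvalues μ' of K in (0,1) is discrete away from 0 by
compactness, in particular bounded by some μ* < 1). For each eigenvalue μ' in (0,1) let P' be the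
orthogonal projection to its (finite dimensional) eigenspace, om' = c √(1/μ' - 1) ≥ omin > 0,
A' = P' z(0), B' = P' z(π/(2om')). By `coeff` P' z(t) = A' cos om't + B' sin om't. As in `exists_comp`,
every z(t), and every integral ∫ W z, is orthogonal to ker K, so ‖z(t)‖² = Σ' ‖P' z(t)‖² (spectral
theorem, eigenspaces orthogonal with dense sum). Integrate over [0, L], L = 4/omin:
∫_0^L ‖A' cos om't + B' sin om't‖² dt ≥ (L/2 - 1/om') (‖A'‖² + ‖B'‖²) ≥ (1/omin) (‖A'‖² + ‖B'‖²), so
Σ' (‖A'‖² + ‖B'‖²) ≤ omin ∫_0^L ‖z(t)‖² dt < ∞, and ‖z(t)‖² ≤ 2 Σ' (‖A'‖² + ‖B'‖²) for all t: this is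
the bound M. (It is enough to prove the bounds for finite sums over eigenvalues.)
For the limit take y = P_μ z(0) (y = 0 if μ is not an eigenvalue). Let
Z_T = ∫ (2/T θ(t/T) cos omt) z(t) dt. Then P' Z_T = α_T(om') A' + β_T(om') B' with the scalars α_T, β_T
of `avg_scalar`, bounded by 2∫|θ| uniformly in T and om'; for each om' they tend to the right limits
(note om' = om iff μ' = μ). By dominated convergence for the sum
‖Z_T - y‖² = Σ' ‖P' (Z_T - y)‖² ≤ ... → 0 (`tendsto_tsum_of_dominated_convergence`).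
-/

/-! ### auxiliary lemmas for `avg` -/

theorem avg_aux_basis (K : H →L[ℝ] H) (hK : IsCompactOperator K)
    (hs : (K : H →ₗ[ℝ] H).IsSymmetric) :
    ∃ (w : Set H) (b : HilbertBasis w ℝ H) (m : w → ℝ), ∀ i, K (b i) = m i • b i := by
  classical
  -- a maximal orthonormal set of eigenvectors
  have hcl : ∀ μ : ℝ, IsClosed ((Module.End.eigenspace (K : H →ₗ[ℝ] H) μ : Submodule ℝ H) :
      Set H) := by
    intro μ
    have h1 : ((Module.End.eigenspace (K : H →ₗ[ℝ] H) μ : Submodule ℝ H) : Set H) =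
        {x | K x = μ • x} := by
      ext x
      exact Module.End.mem_eigenspace_iff
    rw [h1]
    exact isClosed_eq K.continuous (continuous_const_smul μ)
  have hcs : ∀ μ : ℝ, CompleteSpace (Module.End.eigenspace (K : H →ₗ[ℝ] H) μ) := fun μ =>
    (hcl μ).completeSpace_coe
  have hex : ∀ μ : ℝ, ∃ u : Set H, Orthonormal ℝ ((↑) : u → H) ∧
      (∀ x ∈ u, K x = μ • x) ∧ ∀ x : H, (∀ y ∈ u, ⟪x, y⟫_ℝ = 0) → ∀ y, K y = μ • y →
        ⟪x, y⟫_ℝ = 0 := by
    intro μ
    obtain ⟨w, b, hb⟩ := exists_hilbertBasis ℝ (Module.End.eigenspace (K : H →ₗ[ℝ] H) μ)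
    refine ⟨((↑) : Module.End.eigenspace (K : H →ₗ[ℝ] H) μ → H) '' w, ?_, ?_, ?_⟩
    · have h1 : Orthonormal ℝ ((↑) : w → Module.End.eigenspace (K : H →ₗ[ℝ] H) μ) := by
        rw [← hb]; exact b.orthonormal
      have h2 : Orthonormal ℝ (fun i : w => ((i : Module.End.eigenspace (K : H →ₗ[ℝ] H) μ) : H)) :=
        h1.comp_linearIsometry (Module.End.eigenspace (K : H →ₗ[ℝ] H) μ).subtypeₗᵢ
      have h3 := h2.toSubtypeRange
      have h4 : Set.range (fun i : w => ((i : Module.End.eigenspace (K : H →ₗ[ℝ] H) μ) : H)) =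
          ((↑) : Module.End.eigenspace (K : H →ₗ[ℝ] H) μ → H) '' w := by
        ext x
        simp only [Set.mem_range, Set.mem_image, Subtype.exists]
        tauto
      rw [h4] at h3
      exact h3
    · rintro _ ⟨x, -, rfl⟩
      exact Module.End.mem_eigenspace_iff.1 x.2
    · intro x hx y hy
      have h1 := (b.hasSum_repr ⟨y, Module.End.mem_eigenspace_iff.2 hy⟩).mapL
        ((innerSL ℝ x).comp (Module.End.eigenspace (K : H →ₗ[ℝ] H) μ).subtypeL)
      have h2 : ∀ j, ((innerSL ℝ x).comp (Module.End.eigenspace (K : H →ₗ[ℝ] H) μ).subtypeL)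
          (b.repr ⟨y, Module.End.mem_eigenspace_iff.2 hy⟩ j • b j) = 0 := by
        intro j
        rw [map_smul]
        have h3 : ⟪x, ((b j : Module.End.eigenspace (K : H →ₗ[ℝ] H) μ) : H)⟫_ℝ = 0 := by
          refine hx _ ⟨b j, ?_, rfl⟩
          rw [hb]
          exact j.2
        have h4 : ((innerSL ℝ x).comp (Module.End.eigenspace (K : H →ₗ[ℝ] H) μ).subtypeL) (b j) =
            ⟪x, ((b j : Module.End.eigenspace (K : H →ₗ[ℝ] H) μ) : H)⟫_ℝ := rfl
        rw [h4, h3, smul_zero]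
      simp only [h2] at h1
      exact h1.unique hasSum_zero
  choose u hu1 hu2 hu3 using hex
  set w : Set H := ⋃ μ, u μ with hw
  have hwe : ∀ x : w, ∃ μ : ℝ, (x : H) ∈ u μ := fun x => Set.mem_iUnion.1 x.2
  choose m hm using hwe
  have hKm : ∀ x : w, K (x : H) = m x • (x : H) := fun x => hu2 _ _ (hm x)
  have hon : Orthonormal ℝ ((↑) : w → H) := by
    refine ⟨fun x => (hu1 (m x)).1 ⟨x, hm x⟩, fun x y hxy => ?_⟩
    by_cases hmm : m x = m y
    · have h1 : (x : H) ∈ u (m y) := hmm ▸ hm x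
      refine (hu1 (m y)).2 (i := ⟨x, h1⟩) (j := ⟨y, hm y⟩) ?_
      intro h
      exact hxy (Subtype.ext (Subtype.mk.inj h))
    · have h1 : ⟪K (x : H), (y : H)⟫_ℝ = ⟪(x : H), K (y : H)⟫_ℝ := hs x y
      rw [hKm x, hKm y, inner_smul_left, inner_smul_right] at h1
      simp only [conj_trivial] at h1
      have h2 : (m x - m y) * ⟪(x : H), (y : H)⟫_ℝ = 0 := by linarith
      rcases mul_eq_zero.1 h2 with h3 | h3
      · exact absurd (sub_eq_zero.1 h3) hmm
      · exact h3
  have hsp : (Submodule.span ℝ (Set.range ((↑) : w → H)))ᗮ = ⊥ := by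
    rw [Submodule.eq_bot_iff]
    intro x hx
    have hx1 : ∀ y ∈ w, ⟪x, y⟫_ℝ = 0 := by
      intro y hy
      rw [real_inner_comm]
      exact (Submodule.mem_orthogonal _ _).1 hx y (Submodule.subset_span ⟨⟨y, hy⟩, rfl⟩)
    have hx2 : x ∈ (⨆ μ, Module.End.eigenspace (K : H →ₗ[ℝ] H) μ)ᗮ := by
      rw [← Submodule.iInf_orthogonal, Submodule.mem_iInf]
      intro μ
      rw [Submodule.mem_orthogonal]
      intro y hy
      rw [real_inner_comm]
      exact hu3 μ x (fun y hy => hx1 y (Set.mem_iUnion.2 ⟨μ, hy⟩)) y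
        (Module.End.mem_eigenspace_iff.1 hy)
    rw [ContinuousLinearMap.orthogonalComplement_iSup_eigenspaces_eq_bot hK hs] at hx2
    exact (Submodule.mem_bot ℝ).1 hx2
  refine ⟨w, HilbertBasis.mkOfOrthogonalEqBot hon hsp, m, fun x => ?_⟩
  rw [HilbertBasis.coe_mkOfOrthogonalEqBot]
  exact hKm x

/-- the eigenvalues are bounded away from one -/
theorem avg_aux_gap (K : H →L[ℝ] H) (hK : IsCompactOperator K)
    (hs : (K : H →ₗ[ℝ] H).IsSymmetric)
    (hpos : ∀ (μ : ℝ) (ψ : H), ψ ≠ 0 → K ψ = μ • ψ → 0 ≤ μ ∧ μ < 1) :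
    ‖K‖ < 1 := by
  by_cases hK0 : K = 0
  · rw [hK0, norm_zero]; exact one_pos
  have h1 := ContinuousLinearMap.spectralRadius_eq_nnnorm (T := K) hs.isSelfAdjoint
  have hne : (spectrum ℝ K).Nonempty := by
    by_contra hcon
    rw [Set.not_nonempty_iff_eq_empty] at hcon
    unfold spectralRadius at h1
    rw [hcon] at h1
    simp at h1
    exact hK0 (nnnorm_eq_zero.1 h1.symm)
  obtain ⟨k, hk, hk2⟩ := spectrum.exists_nnnorm_eq_spectralRadius_of_nonempty hne
  rw [h1] at hk2
  have hk3 : ‖k‖ = ‖K‖ := by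
    have := ENNReal.coe_injective hk2
    exact congrArg NNReal.toReal this
  have hk0 : k ≠ 0 := by
    intro h
    rw [h, norm_zero] at hk3
    exact hK0 (norm_eq_zero.1 hk3.symm)
  have hev := (hK.hasEigenvalue_iff_mem_spectrum hk0).2 hk
  obtain ⟨v, hv⟩ := hev.exists_hasEigenvector
  obtain ⟨h2, h3⟩ := hpos k v hv.2 (Module.End.mem_eigenspace_iff.1 hv.1)
  rw [← hk3, Real.norm_eq_abs, abs_of_nonneg h2]
  exact h3

/-- mean square over a long interval -/
theorem avg_aux_int {om0 om : ℝ} (h0 : 0 < om0) (h : om0 ≤ om) (A B : ℝ) :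
    (A ^ 2 + B ^ 2) / om0 ≤
      ∫ t in (0:ℝ)..(4 / om0), (A * Real.cos (om * t) + B * Real.sin (om * t)) ^ 2 := by
  have hom : 0 < om := h0.trans_le h
  set F : ℝ → ℝ := fun t => (A ^ 2 + B ^ 2) / 2 * t + (A ^ 2 - B ^ 2) / (4 * om) *
    Real.sin (2 * om * t) - A * B / (2 * om) * Real.cos (2 * om * t) with hF
  have hd : ∀ t, HasDerivAt F ((A * Real.cos (om * t) + B * Real.sin (om * t)) ^ 2) t := by
    intro t
    have h1 : HasDerivAt (fun t => 2 * om * t) (2 * om) t := by
      simpa using (hasDerivAt_id t).const_mul (2 * om)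
    have h2 := (((hasDerivAt_id t).const_mul ((A ^ 2 + B ^ 2) / 2)).add
      (h1.sin.const_mul ((A ^ 2 - B ^ 2) / (4 * om)))).sub
      (h1.cos.const_mul (A * B / (2 * om)))
    refine h2.congr_deriv ?_
    have e1 : Real.cos (2 * om * t) = Real.cos (om * t) ^ 2 - Real.sin (om * t) ^ 2 := by
      rw [mul_assoc, Real.cos_two_mul']
    have e2 : Real.sin (2 * om * t) = 2 * Real.sin (om * t) * Real.cos (om * t) := by
      rw [mul_assoc, Real.sin_two_mul]
    rw [e1, e2]
    have e3 := Real.sin_sq_add_cos_sq (om * t)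
    field_simp
    have e4 : Real.sin (om * t) ^ 2 = 1 - Real.cos (om * t) ^ 2 := by linarith
    rw [e4]
    ring_nf
    rw [e4]
    ring
  rw [intervalIntegral.integral_eq_sub_of_hasDerivAt (fun t _ => hd t)
    (Continuous.intervalIntegrable (by fun_prop) _ _)]
  simp only [hF, mul_zero, Real.sin_zero, Real.cos_zero, mul_one, zero_add, add_zero]
  set L := 4 / om0 with hL
  have hs1 := abs_le.1 (Real.abs_sin_le_one (2 * om * L))
  have hc1 := abs_le.1 (Real.abs_cos_le_one (2 * om * L))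
  have hsum : 0 ≤ A ^ 2 + B ^ 2 := by positivity
  -- bounds for the oscillating terms
  have b1 : -((A ^ 2 + B ^ 2) / (4 * om)) ≤
      (A ^ 2 - B ^ 2) / (4 * om) * Real.sin (2 * om * L) := by
    rw [div_mul_eq_mul_div, neg_div', div_le_div_iff_of_pos_right (by positivity)]
    nlinarith [sq_nonneg A, sq_nonneg B]
  have b2 : A * B / (2 * om) * Real.cos (2 * om * L) - A * B / (2 * om) ≤
      (A ^ 2 + B ^ 2) / (2 * om) := by
    have e : A * B / (2 * om) * Real.cos (2 * om * L) - A * B / (2 * om) =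
        (A * B * (Real.cos (2 * om * L) - 1)) / (2 * om) := by ring
    rw [e, div_le_div_iff_of_pos_right (by positivity)]
    nlinarith [sq_nonneg (A + B), sq_nonneg (A - B)]
  have b3 : (A ^ 2 + B ^ 2) / om ≤ (A ^ 2 + B ^ 2) / om0 :=
    div_le_div_of_nonneg_left hsum h0 h
  have b4 : (A ^ 2 + B ^ 2) / (4 * om) + (A ^ 2 + B ^ 2) / (2 * om) ≤ (A ^ 2 + B ^ 2) / om := by
    have e : (A ^ 2 + B ^ 2) / (4 * om) + (A ^ 2 + B ^ 2) / (2 * om) =
        3 / 4 * ((A ^ 2 + B ^ 2) / om) := by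
      field_simp; ring
    rw [e]
    have : 0 ≤ (A ^ 2 + B ^ 2) / om := by positivity
    linarith
  have b5 : (A ^ 2 + B ^ 2) / 2 * L = 2 * ((A ^ 2 + B ^ 2) / om0) := by
    rw [hL]; field_simp; ring
  rw [b5]
  linarith

/-- orthogonality to the kernel -/
theorem avg_aux_ker (K : H →L[ℝ] H) (hs : (K : H →ₗ[ℝ] H).IsSymmetric)
    {c : ℝ} (z : ℝ → H) (hz : Continuous z)
    (hW : ∀ W : ℝ → ℝ, ContDiff ℝ ∞ W → HasCompactSupport W →
      K ((∫ t, W t • z t) - (c ^ 2)⁻¹ • ∫ t, iteratedDeriv 2 W t • z t) = ∫ t, W t • z t)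
    {ψ : H} (hψ : K ψ = 0) (t : ℝ) : ⟪ψ, z t⟫_ℝ = 0 := by
  have hcont : Continuous fun t => ⟪ψ, z t⟫_ℝ := continuous_const.inner hz
  have h1 := ae_eq_zero_of_integral_contDiff_smul_eq_zero (μ := (volume : Measure ℝ))
    (f := fun t => ⟪ψ, z t⟫_ℝ) hcont.locallyIntegrable (fun g hg hgc => by
      have hint : Integrable (fun t => g t • z t) :=
        (hg.continuous.smul hz).integrable_of_hasCompactSupport hgc.smul_right
      have h2 : ∫ t, g t • ⟪ψ, z t⟫_ℝ = ⟪ψ, ∫ t, g t • z t⟫_ℝ := by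
        rw [← integral_inner hint]
        refine integral_congr_ae (Eventually.of_forall fun t => ?_)
        simp only [inner_smul_right, smul_eq_mul]
      rw [h2, ← hW g hg hgc]
      have h3 : ⟪K ψ, (∫ t, g t • z t) - (c ^ 2)⁻¹ • ∫ t, iteratedDeriv 2 g t • z t⟫_ℝ =
          ⟪ψ, K ((∫ t, g t • z t) - (c ^ 2)⁻¹ • ∫ t, iteratedDeriv 2 g t • z t)⟫_ℝ :=
        hs ψ ((∫ t, g t • z t) - (c ^ 2)⁻¹ • ∫ t, iteratedDeriv 2 g t • z t)
      rw [← h3, hψ, inner_zero_left])
  have h2 : (fun t => ⟪ψ, z t⟫_ℝ) = fun _ => (0:ℝ) :=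
    Measure.eq_of_ae_eq h1 hcont continuous_const
  exact congrFun h2 t

/-- TARGET: uniform bound and convergence of the averages to the component. -/
theorem avg (K : H →L[ℝ] H) (hK : IsCompactOperator K) (hs : (K : H →ₗ[ℝ] H).IsSymmetric)
    (hpos : ∀ (μ : ℝ) (ψ : H), ψ ≠ 0 → K ψ = μ • ψ → 0 ≤ μ ∧ μ < 1)
    {c : ℝ} (hc : 0 < c) (z : ℝ → H) (hz : Continuous z)
    (hW : ∀ W : ℝ → ℝ, ContDiff ℝ ∞ W → HasCompactSupport W →
      K ((∫ t, W t • z t) - (c ^ 2)⁻¹ • ∫ t, iteratedDeriv 2 W t • z t) = ∫ t, W t • z t) :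
    (∃ M : ℝ, ∀ t, ‖z t‖ ≤ M) ∧
    ∀ μ : ℝ, 0 < μ → μ < 1 → ∃ y : H, K y = μ • y ∧
      (∀ ψ, K ψ = μ • ψ → ⟪ψ, y⟫_ℝ = ⟪ψ, z 0⟫_ℝ) ∧
      ∀ θ : ℝ → ℝ, ContDiff ℝ ∞ θ → HasCompactSupport θ → ∫ t, θ t = 1 →
        Tendsto (fun T : ℝ => ∫ t, (2 / T * θ (t / T) * Real.cos (c * √(1 / μ - 1) * t)) • z t)
          atTop (𝓝 y) := by
  classical
  obtain ⟨ι, b, m, hm⟩ := avg_aux_basis K hK hs
  have hb0 : ∀ i, b i ≠ 0 := fun i h => by
    have := b.orthonormal.1 i
    rw [h, norm_zero] at this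
    exact zero_ne_one this
  have hm01 : ∀ i, 0 ≤ m i ∧ m i < 1 := fun i => hpos (m i) (b i) (hb0 i) (hm i)
  have hgap := avg_aux_gap K hK hs hpos
  have hmK : ∀ i, m i ≤ ‖K‖ := by
    intro i
    have h1 := K.le_opNorm (b i)
    rw [hm i, norm_smul, b.orthonormal.1 i, mul_one, mul_one, Real.norm_eq_abs,
      abs_of_nonneg (hm01 i).1] at h1
    exact h1
  -- a positive upper bound of the eigenvalues which is less than one
  set κ : ℝ := max ‖K‖ (1 / 2) with hκ
  have hκ0 : 0 < κ := lt_of_lt_of_le (by norm_num) (le_max_right _ _)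
  have hκ1 : κ < 1 := max_lt hgap (by norm_num)
  have hmκ : ∀ i, m i ≤ κ := fun i => (hmK i).trans (le_max_left _ _)
  set om0 : ℝ := c * √(1 / κ - 1) with hom0
  have hom0pos : 0 < om0 := by
    refine mul_pos hc (Real.sqrt_pos.2 ?_)
    rw [sub_pos, lt_div_iff₀ hκ0]; linarith
  set om : ι → ℝ := fun i => c * √(1 / m i - 1) with hom
  have homle : ∀ i, 0 < m i → om0 ≤ om i := by
    intro i hi
    refine mul_le_mul_of_nonneg_left (Real.sqrt_le_sqrt ?_) hc.le
    have := one_div_le_one_div_of_le hi (hmκ i)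
    linarith
  -- the coefficients
  set A : ι → ℝ := fun i => if 0 < m i then ⟪b i, z 0⟫_ℝ else 0 with hA
  set B : ι → ℝ := fun i => if 0 < m i then ⟪b i, z (Real.pi / (2 * om i))⟫_ℝ else 0 with hB
  have hcoef : ∀ i t, ⟪b i, z t⟫_ℝ = A i * Real.cos (om i * t) + B i * Real.sin (om i * t) := by
    intro i t
    by_cases hi : 0 < m i
    · simp only [hA, hB, if_pos hi]
      exact coeff K hs hc z hz hW hi (hm01 i).2 (hm i) t
    · have hi0 : m i = 0 := le_antisymm (not_lt.1 hi) (hm01 i).1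
      simp only [hA, hB, if_neg hi]
      rw [zero_mul, zero_mul, add_zero]
      refine avg_aux_ker K hs z hz hW ?_ t
      rw [hm i, hi0, zero_smul]
  set E : ℝ := om0 * ∫ t in (0:ℝ)..(4 / om0), ‖z t‖ ^ 2 with hE
  have hAB : ∀ s : Finset ι, ∑ i ∈ s, (A i ^ 2 + B i ^ 2) ≤ E := by
    intro s
    have h1 : ∀ i ∈ s, (A i ^ 2 + B i ^ 2) ≤
        om0 * ∫ t in (0:ℝ)..(4 / om0), ⟪b i, z t⟫_ℝ ^ 2 := by
      intro i _
      by_cases hi : 0 < m i
      · have h2 := avg_aux_int hom0pos (homle i hi) (A i) (B i)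
        rw [div_le_iff₀ hom0pos] at h2
        have h3 : ∫ t in (0:ℝ)..(4 / om0), ⟪b i, z t⟫_ℝ ^ 2 =
            ∫ t in (0:ℝ)..(4 / om0), (A i * Real.cos (om i * t) + B i * Real.sin (om i * t)) ^ 2 :=
          intervalIntegral.integral_congr fun t _ => by simp only [hcoef]
        rw [h3, mul_comm]
        exact h2
      · simp only [hA, hB, if_neg hi]
        have : 0 ≤ ∫ t in (0:ℝ)..(4 / om0), ⟪b i, z t⟫_ℝ ^ 2 :=
          intervalIntegral.integral_nonneg (by positivity) fun t _ => by positivity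
        nlinarith
    refine (Finset.sum_le_sum h1).trans ?_
    rw [← Finset.mul_sum, hE]
    refine mul_le_mul_of_nonneg_left ?_ hom0pos.le
    rw [← intervalIntegral.integral_finsetSum]
    · refine intervalIntegral.integral_mono_on (by positivity) ?_ ?_ fun t _ => ?_
      · exact Continuous.intervalIntegrable (continuous_finsetSum _ fun i _ =>
          (continuous_const.inner hz).pow 2) _ _
      · exact (hz.norm.pow 2).intervalIntegrable _ _
      · have h2 := b.orthonormal.sum_inner_products_le (z t) (s := s)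
        refine le_trans (le_of_eq ?_) h2
        refine Finset.sum_congr rfl fun i _ => ?_
        rw [Real.norm_eq_abs, sq_abs]
    · intro i _
      exact ((continuous_const.inner hz).pow 2).intervalIntegrable _ _
  have hABn : ∀ i, 0 ≤ A i ^ 2 + B i ^ 2 := fun i => by positivity
  have hsumm : Summable fun i => A i ^ 2 + B i ^ 2 := summable_of_sum_le hABn hAB
  have hcs : ∀ i t, ⟪b i, z t⟫_ℝ ^ 2 ≤ A i ^ 2 + B i ^ 2 := by
    intro i t
    rw [hcoef i t]
    nlinarith [sq_nonneg (A i * Real.sin (om i * t) - B i * Real.cos (om i * t)),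
      Real.sin_sq_add_cos_sq (om i * t)]
  have hpars : ∀ x : H, HasSum (fun i => ⟪b i, x⟫_ℝ ^ 2) (‖x‖ ^ 2) := by
    intro x
    have h1 := b.hasSum_inner_mul_inner x x
    rw [real_inner_self_eq_norm_sq] at h1
    refine h1.congr_fun ?_
    intro i
    rw [real_inner_comm, sq]
  refine ⟨⟨√(∑' i, (A i ^ 2 + B i ^ 2)), fun t => ?_⟩, fun μ hμ0 hμ1 => ?_⟩
  · refine Real.le_sqrt_of_sq_le ?_
    rw [← (hpars (z t)).tsum_eq]
    exact (hpars (z t)).summable.tsum_le_tsum (hcs · t) hsumm
  -- the component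
  set V : Submodule ℝ H := Module.End.eigenspace (K : H →ₗ[ℝ] H) μ with hV
  have hVmem : ∀ x, x ∈ V ↔ K x = μ • x := fun x => Module.End.mem_eigenspace_iff
  have hVcl : IsClosed (V : Set H) := by
    have h1 : (V : Set H) = {x | K x = μ • x} := by
      ext x
      exact hVmem x
    rw [h1]
    exact isClosed_eq K.continuous (continuous_const_smul μ)
  have : CompleteSpace V := hVcl.completeSpace_coe
  set y : H := V.starProjection (z 0) with hy
  have hyV : y ∈ V := Submodule.starProjection_apply_mem V _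
  have hyin : ∀ ψ, K ψ = μ • ψ → ⟪ψ, y⟫_ℝ = ⟪ψ, z 0⟫_ℝ := by
    intro ψ hψ
    have h1 : z 0 - y ∈ Vᗮ := Submodule.sub_starProjection_mem_orthogonal _
    have h2 := (Submodule.mem_orthogonal V _).1 h1 ψ ((hVmem ψ).2 hψ)
    rw [inner_sub_right] at h2
    linarith
  refine ⟨y, (hVmem y).1 hyV, hyin, fun θ hθ hθc hθ1 => ?_⟩
  set omμ : ℝ := c * √(1 / μ - 1) with homμ
  have homμpos : 0 < omμ := by
    refine mul_pos hc (Real.sqrt_pos.2 ?_)
    rw [sub_pos, lt_div_iff₀ hμ0]; linarith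
  have hompos : ∀ i, 0 < m i → 0 < om i := fun i hi => hom0pos.trans_le (homle i hi)
  -- coefficients of `y`
  have hyc : ∀ i, ⟪b i, y⟫_ℝ = A i * (if om i = omμ then 1 else 0) := by
    intro i
    by_cases hi : 0 < m i
    · by_cases hmi : m i = μ
      · have h1 : om i = omμ := by simp only [hom, homμ, hmi]
        rw [if_pos h1, mul_one, hyin (b i) (by rw [hm i, hmi])]
        simp only [hA, if_pos hi]
      · have h1 : om i ≠ omμ := by
          intro h
          apply hmi
          have h2 : √(1 / m i - 1) = √(1 / μ - 1) := mul_left_cancel₀ hc.ne' h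
          have h3 : 1 / m i - 1 = 1 / μ - 1 := by
            refine (Real.sqrt_inj ?_ ?_).1 h2
            · rw [sub_nonneg, le_div_iff₀ hi]; linarith [(hm01 i).2]
            · rw [sub_nonneg, le_div_iff₀ hμ0]; linarith
          have h4 : 1 / m i = 1 / μ := by linarith
          rw [one_div, one_div] at h4
          exact inv_injective h4
        rw [if_neg h1, mul_zero]
        -- orthogonality of eigenvectors
        have h5 : ⟪K (b i), y⟫_ℝ = ⟪b i, K y⟫_ℝ := hs (b i) y
        rw [hm i, (hVmem y).1 hyV, inner_smul_left, inner_smul_right] at h5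
        have h6 : (m i - μ) * ⟪b i, y⟫_ℝ = 0 := by
          simp only [conj_trivial] at h5
          linarith
        rcases mul_eq_zero.1 h6 with h7 | h7
        · exact absurd (sub_eq_zero.1 h7) hmi
        · exact h7
    · have hi0 : m i = 0 := le_antisymm (not_lt.1 hi) (hm01 i).1
      have h5 : ⟪K (b i), y⟫_ℝ = ⟪b i, K y⟫_ℝ := hs (b i) y
      rw [hm i, (hVmem y).1 hyV, inner_smul_left, inner_smul_right, hi0] at h5
      simp only [conj_trivial, zero_mul] at h5
      have h6 : ⟪b i, y⟫_ℝ = 0 := by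
        rcases mul_eq_zero.1 h5.symm with h7 | h7
        · exact absurd h7 hμ0.ne'
        · exact h7
      rw [h6]
      simp only [hA, if_neg hi, zero_mul]
  -- the averaged vector
  set w : ℝ → ℝ → ℝ := fun T t => 2 / T * θ (t / T) * Real.cos (omμ * t) with hw
  have hwc : ∀ T, Continuous (w T) := by
    intro T
    have := hθ.continuous
    simp only [hw]
    fun_prop
  have hwcs : ∀ T, 0 < T → HasCompactSupport (w T) := by
    intro T hT
    have h1 : HasCompactSupport fun t => θ (t / T) := by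
      have := hθc.comp_homeomorph (Homeomorph.mulRight₀ (T⁻¹) (inv_ne_zero hT.ne'))
      simpa [div_eq_mul_inv, Function.comp_def] using this
    exact (h1.mul_left (f := fun _ => 2 / T)).mul_right
  set Θ : ℝ := 2 * ∫ t, |θ t| with hΘ
  have hΘ0 : 0 ≤ Θ := mul_nonneg (by norm_num) (integral_nonneg fun t => abs_nonneg _)
  have hZc : ∀ T, 0 < T → ∀ i, ⟪b i, ∫ t, w T t • z t⟫_ℝ =
      A i * (∫ t, w T t * Real.cos (om i * t)) + B i * ∫ t, w T t * Real.sin (om i * t) := by
    intro T hT i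
    have hint : Integrable (fun t => w T t • z t) :=
      ((hwc T).smul hz).integrable_of_hasCompactSupport (hwcs T hT).smul_right
    have hi1 : Integrable (fun t => w T t * Real.cos (om i * t)) :=
      ((hwc T).mul (by fun_prop)).integrable_of_hasCompactSupport (hwcs T hT).mul_right
    have hi2 : Integrable (fun t => w T t * Real.sin (om i * t)) :=
      ((hwc T).mul (by fun_prop)).integrable_of_hasCompactSupport (hwcs T hT).mul_right
    rw [← integral_inner hint, ← integral_const_mul, ← integral_const_mul,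
      ← integral_add (hi1.const_mul _) (hi2.const_mul _)]
    refine integral_congr_ae (Eventually.of_forall fun t => ?_)
    simp only [inner_smul_right, hcoef]
    ring
  -- dominated convergence
  have hlim : Tendsto (fun T : ℝ => ∑' i, ⟪b i, (∫ t, w T t • z t) - y⟫_ℝ ^ 2) atTop
      (𝓝 (∑' _i : ι, (0:ℝ))) := by
    refine tendsto_tsum_of_dominated_convergence
      (bound := fun i => 2 * (Θ + 1) ^ 2 * (A i ^ 2 + B i ^ 2)) (hsumm.mul_left _) ?_ ?_
    · intro i
      by_cases hi : 0 < m i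
      · obtain ⟨l1, l2, -, -⟩ := avg_scalar hθ hθc hθ1 homμpos (hompos i hi)
        have l3 := ((l1.const_mul (A i)).add (l2.const_mul (B i))).sub_const (⟪b i, y⟫_ℝ)
        rw [mul_zero, add_zero, hyc i, sub_self] at l3
        have l4 := l3.pow 2
        rw [zero_pow two_ne_zero] at l4
        refine l4.congr' ?_
        filter_upwards [eventually_gt_atTop 0] with T hT
        rw [inner_sub_right, hZc T hT i, hyc i]
      · have hAi : A i = 0 := by simp only [hA, if_neg hi]
        have hBi : B i = 0 := by simp only [hB, if_neg hi]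
        refine tendsto_const_nhds.congr' ?_
        filter_upwards [eventually_gt_atTop 0] with T hT
        rw [inner_sub_right, hZc T hT i, hyc i, hAi, hBi]
        ring
    · filter_upwards [eventually_gt_atTop 0] with T hT
      intro i
      rw [Real.norm_eq_abs, abs_of_nonneg (sq_nonneg _), inner_sub_right, hZc T hT i, hyc i]
      by_cases hi : 0 < m i
      · obtain ⟨-, -, l1, l2⟩ := avg_scalar hθ hθc hθ1 homμpos (hompos i hi)
        have g1 := l1 T hT
        have g2 := l2 T hT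
        set α := ∫ t, w T t * Real.cos (om i * t) with hα
        set β := ∫ t, w T t * Real.sin (om i * t) with hβ
        have g1' : |α| ≤ Θ := g1
        have g2' : |β| ≤ Θ := g2
        have hδ : |α - (if om i = omμ then 1 else 0)| ≤ Θ + 1 := by
          refine (abs_sub _ _).trans ?_
          have : |(if om i = omμ then (1:ℝ) else 0)| ≤ 1 := by split_ifs <;> simp
          linarith
        set δ := α - (if om i = omμ then 1 else 0) with hδdef
        have e : A i * α + B i * β - A i * (if om i = omμ then 1 else 0) =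
            A i * δ + B i * β := by rw [hδdef]; ring
        rw [e]
        have q1 : δ ^ 2 ≤ (Θ + 1) ^ 2 := sq_le_sq' (by linarith [(abs_le.1 hδ).1]) (abs_le.1 hδ).2
        have q2 : β ^ 2 ≤ (Θ + 1) ^ 2 := by
          have := abs_le.1 g2'
          exact sq_le_sq' (by linarith) (by linarith)
        have q3 : (A i * δ + B i * β) ^ 2 ≤ 2 * (A i ^ 2 * δ ^ 2 + B i ^ 2 * β ^ 2) := by
          nlinarith [sq_nonneg (A i * δ - B i * β)]
        have q4 := mul_le_mul_of_nonneg_left q1 (sq_nonneg (A i))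
        have q5 := mul_le_mul_of_nonneg_left q2 (sq_nonneg (B i))
        nlinarith
      · have hAi : A i = 0 := by simp only [hA, if_neg hi]
        have hBi : B i = 0 := by simp only [hB, if_neg hi]
        rw [hAi, hBi]
        simp
  rw [tsum_zero] at hlim
  have hlim2 : Tendsto (fun T : ℝ => ‖(∫ t, w T t • z t) - y‖ ^ 2) atTop (𝓝 0) := by
    refine hlim.congr fun T => ?_
    exact (hpars _).tsum_eq
  rw [tendsto_iff_norm_sub_tendsto_zero]
  have hlim3 := hlim2.sqrt
  rw [Real.sqrt_zero] at hlim3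
  refine hlim3.congr fun T => ?_
  rw [Real.sqrt_sq (norm_nonneg _)]

end Pool.Agent.Helper327_Drum
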