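import Pool.Agent.Helper327_Drum.Defs

set_option autoImplicit false
open MeasureTheory Set Filter Topology

namespace Pool.Agent.Helper327_Drum

/-
Plain proof. If p ∈ R \ γ then γ ⊆ R \ {p}, and R \ {p} is homeomorphic (R is compact, the
parametrisation is a homeomorphism onto R) to the circle minus a point, hence to ℝ. So there is a
continuous injective map from the circle to ℝ, which does not exist (its image would be a compact interval; remove
an interior point of the interval: the circle minus one point is connected, the interval minus an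
interior point is not; or use the intermediate value theorem: g(z) = h(z) - h(-z) has a zero).
-/

theorem drum_coe : Continuous (fun z : Circle => (z : ℂ)) := continuous_subtype_val

theorem drum_no_inj (φ : Circle → ℝ) (hφ : Continuous φ) (hinj : Function.Injective φ) : False := by
  set ψ : ℝ → ℝ := fun t => φ (Circle.exp t) - φ (Circle.exp (t + Real.pi)) with hψ
  have hψc : Continuous ψ := by
    apply Continuous.sub
    · exact hφ.comp Circle.exp.continuous
    · exact hφ.comp (Circle.exp.continuous.comp (continuous_id.add continuous_const))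
  have hneg : ψ Real.pi = - ψ 0 := by
    rw [hψ]
    simp only [zero_add]
    have : Circle.exp (Real.pi + Real.pi) = Circle.exp 0 := by
      rw [← two_mul, Circle.exp_two_pi, Circle.exp_zero]
    rw [this]
    ring
  obtain ⟨t, ht⟩ : ∃ t, ψ t = 0 := by
    have h1 := intermediate_value_uIcc (a := (0 : ℝ)) (b := Real.pi) (hψc.continuousOn)
    have h2 : (0 : ℝ) ∈ Set.uIcc (ψ 0) (ψ Real.pi) := by
      rw [hneg, Set.mem_uIcc]
      rcases le_total 0 (ψ 0) with h | h
      · right; constructor <;> linarith
      · left; constructor <;> linarith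
    obtain ⟨t, -, ht⟩ := h1 h2
    exact ⟨t, ht⟩
  have h3 : φ (Circle.exp t) = φ (Circle.exp (t + Real.pi)) := by
    rw [hψ] at ht
    simp only at ht
    linarith
  have h4 := hinj h3
  rw [Circle.exp_add] at h4
  have h5 : Circle.exp Real.pi = 1 := by
    have := congrArg (fun z => (Circle.exp t)⁻¹ * z) h4
    simpa using this.symm
  have h6 := congrArg (fun z : Circle => (z : ℂ)) h5
  simp only [Circle.coe_exp, Circle.coe_one, Complex.exp_pi_mul_I] at h6
  norm_num at h6

theorem drum_surj (k : Circle → Circle) (hk : Continuous k) (hinj : Function.Injective k) :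
    Function.Surjective k := by
  by_contra hns
  rw [Function.Surjective] at hns
  push Not at hns
  obtain ⟨q, hq⟩ := hns
  set u : Circle → Circle := fun t => Circle.exp Real.pi * (k t * q⁻¹) with hu
  have huc : Continuous u := continuous_const.mul (hk.mul continuous_const)
  have hui : Function.Injective u := by
    intro a b hab
    rw [hu] at hab
    simp only [mul_right_inj, mul_left_inj] at hab
    exact hinj hab
  have hne : ∀ t, (u t : ℂ) ≠ -1 := by
    intro t h
    apply hq t
    have h1 : (u t : ℂ) = -((k t * q⁻¹ : Circle) : ℂ) := by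
      rw [hu]
      simp only [Circle.coe_mul, Circle.coe_exp, Complex.exp_pi_mul_I]
      ring
    rw [h1] at h
    have h2 : ((k t * q⁻¹ : Circle) : ℂ) = ((1 : Circle) : ℂ) := by
      rw [Circle.coe_one]
      linear_combination -h
    have h3 : k t * q⁻¹ = 1 := Circle.ext h2
    exact mul_inv_eq_one.1 h3
  have hslit : ∀ t, (u t : ℂ) ∈ Complex.slitPlane := by
    intro t
    rw [Complex.mem_slitPlane_iff]
    by_contra hcon
    push Not at hcon
    obtain ⟨h1, h2⟩ := hcon
    apply hne t
    have h3 : Complex.normSq (u t : ℂ) = 1 := Circle.normSq_coe (u t)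
    rw [Complex.normSq_apply, h2] at h3
    have h4 : (u t : ℂ).re = -1 := by nlinarith
    exact Complex.ext (by rw [h4]; simp) (by rw [h2]; simp)
  refine drum_no_inj (fun t => Complex.arg (u t)) ?_ ?_
  · rw [continuous_iff_continuousAt]
    intro t
    have h1 : ContinuousAt (fun t => (u t : ℂ)) t := (drum_coe.comp huc).continuousAt
    exact ContinuousAt.comp (f := fun t => (u t : ℂ)) (g := Complex.arg) (x := t)
      (Complex.continuousAt_arg (hslit t)) h1
  · intro a b hab
    exact hui (Circle.injective_arg hab)

/-- TARGET 1: a simple closed curve contained in a simple closed curve is equal to it. -/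
theorem scc_eq {R γ : Set ℂ} (hR : SimpleClosedCurve R) (hγ : SimpleClosedCurve γ) (h : γ ⊆ R) :
    γ = R := by
  obtain ⟨f, hf1, hf2, hf3⟩ := hR
  obtain ⟨g, hg1, hg2, hg3⟩ := hγ
  have hemb : Topology.IsClosedEmbedding f := hf1.isClosedEmbedding hf2
  have hex : ∀ t, ∃ s, f s = g t := by
    intro t
    have : g t ∈ Set.range f := by
      rw [hf3]; apply h; rw [← hg3]; exact ⟨t, rfl⟩
    exact this
  choose k hk using hex
  have hkc : Continuous k := by
    rw [hemb.isInducing.continuous_iff]
    have : f ∘ k = g := funext hk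
    rw [this]; exact hg1
  have hki : Function.Injective k := by
    intro a b hab
    apply hg2
    rw [← hk a, ← hk b, hab]
  have hks := drum_surj k hkc hki
  apply Set.Subset.antisymm h
  rw [← hf3, ← hg3]
  rintro _ ⟨s, rfl⟩
  obtain ⟨t, rfl⟩ := hks s
  exact ⟨t, (hk t).symm⟩

/-- TARGET 2: circles are simple closed curves. -/
theorem scc_sphere (p : ℂ) {r : ℝ} (hr : 0 < r) : SimpleClosedCurve (Metric.sphere p r) := by
  have hr0 : (r : ℂ) ≠ 0 := by exact_mod_cast hr.ne'
  refine ⟨fun z => p + (r : ℂ) * (z : ℂ), ?_, ?_, ?_⟩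
  · exact continuous_const.add (continuous_const.mul drum_coe)
  · intro a b hab
    simp only [add_right_inj, mul_eq_mul_left_iff, hr0, or_false] at hab
    exact Circle.ext hab
  · ext x
    rw [mem_sphere_iff_norm]
    constructor
    · rintro ⟨z, rfl⟩
      simp only [add_sub_cancel_left, norm_mul, Complex.norm_real, Real.norm_eq_abs,
        abs_of_pos hr]
      rw [Circle.norm_coe, mul_one]
    · intro hx
      refine ⟨Circle.exp (Complex.arg (x - p)), ?_⟩
      have h1 := Complex.norm_mul_exp_arg_mul_I (x - p)
      rw [hx] at h1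
      simp only [Circle.coe_exp]
      rw [h1]
      ring

/-
Plain proof. Let B : ℝ → ℝ be a function whose zeros in [0, ∞) are isolated (the set of zeros has no
accumulation point). R is connected and x ↦ ‖x - p‖² maps it into the zero set of B (up to
scaling), which has no connected subsets with more than one point; so R lies on a sphere of radius
r ≥ 0; r > 0 since R is infinite; conclude with `scc_eq`.
-/

/-- TARGET 3: a simple closed curve on which a radial function with isolated zeros vanishes is a
circle. -/
theorem scc_circle {R : Set ℂ} (hR : SimpleClosedCurve R) (p : ℂ) (B : ℝ → ℝ)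
    (hB : ∀ s, 0 ≤ s → ∃ δ > 0, ∀ t, t ≠ s → |t - s| < δ → 0 ≤ t → B t ≠ 0)
    (h : ∀ x ∈ R, B (‖x - p‖ ^ 2) = 0) : ∃ r : ℝ, 0 < r ∧ R = Metric.sphere p r := by
  obtain ⟨f, hf1, hf2, hf3⟩ := id hR
  set N : ℝ → ℝ := fun t => ‖f (Circle.exp t) - p‖ ^ 2 with hN
  have hNc : Continuous N :=
    ((hf1.comp Circle.exp.continuous).sub continuous_const).norm.pow 2
  have hmem : ∀ z, f z ∈ R := fun z => by rw [← hf3]; exact ⟨z, rfl⟩
  have hsurj : ∀ z : Circle, ∃ t : ℝ, Circle.exp t = z := fun z => ⟨Complex.arg z, Circle.exp_arg z⟩
  have hlt : ∀ a b : ℝ, ¬ N a < N b := by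
    intro a b hab
    obtain ⟨δ, hδ, hB'⟩ := hB (N a) (by positivity)
    set t := N a + min δ (N b - N a) / 2 with ht
    have hm : 0 < min δ (N b - N a) := lt_min hδ (by linarith)
    have hm1 := min_le_left δ (N b - N a)
    have hm2 := min_le_right δ (N b - N a)
    have h1 := intermediate_value_uIcc (a := a) (b := b) (hNc.continuousOn)
    have h2 : t ∈ Set.uIcc (N a) (N b) := by
      rw [Set.mem_uIcc]
      left
      constructor <;> linarith
    obtain ⟨s, -, hs⟩ := h1 h2
    have hNa : 0 ≤ N a := by positivity
    apply hB' t (by linarith [hm]) (by rw [ht, add_sub_cancel_left, abs_of_pos (by linarith)]; linarith)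
      (by linarith)
    rw [← hs]
    exact h _ (hmem _)
  have hconst : ∀ a b : ℝ, N a = N b := fun a b =>
    le_antisymm (not_lt.1 (hlt b a)) (not_lt.1 (hlt a b))
  set r : ℝ := ‖f 1 - p‖ with hr
  have hall : ∀ z, ‖f z - p‖ = r := by
    intro z
    obtain ⟨t, rfl⟩ := hsurj z
    have h1 : N t = N 0 := hconst t 0
    rw [hN] at h1
    simp only [Circle.exp_zero] at h1
    rw [hr]
    exact (pow_left_inj₀ (norm_nonneg _) (norm_nonneg _) two_ne_zero).1 h1
  have hr0 : 0 < r := by
    rcases (norm_nonneg (f 1 - p)).lt_or_eq with h1 | h1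
    · exact h1
    · exfalso
      have h2 : ∀ z, f z = p := by
        intro z
        have := hall z
        rw [hr, ← h1] at this
        exact sub_eq_zero.1 (norm_eq_zero.1 this)
      have h3 : Circle.exp Real.pi = 1 := hf2 (by rw [h2, h2])
      have h6 := congrArg (fun z : Circle => (z : ℂ)) h3
      simp only [Circle.coe_exp, Circle.coe_one, Complex.exp_pi_mul_I] at h6
      norm_num at h6
  refine ⟨r, hr0, scc_eq (scc_sphere p hr0) hR ?_⟩
  rw [← hf3]
  rintro _ ⟨z, rfl⟩
  rw [mem_sphere_iff_norm]
  exact hall z

end Pool.Agent.Helper327_Drum
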