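import Pool.Agent.R227.SA13

-- all 3 targets compiled with default heartbeats in 5 s, statements unchanged, axioms propext/choice/Quot.sound; not landed, yours to place
set_option autoImplicit false
open MeasureTheory Set Filter
open scoped Topology ContDiff

namespace Pool.Agent.Helper327_Drum

open Pool.Agent.TH298.Sch (X er dd SC)
open Pool.Agent.R227.SA
open TH259.NS (B J)

/-- `w` is locally a smooth solution of the Helmholtz equation in `D` -/
def LocH (D : Set ℂ) (lam : ℝ) (w : ℂ → ℝ) : Prop :=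
  ∀ x₀ ∈ D, ∃ r > 0, ∃ W : ℂ → ℝ, SC W ∧ Metric.ball x₀ r ⊆ D ∧
    ∀ x ∈ Metric.ball x₀ r, w x = W x ∧ la W x = -(lam * W x)

/-
Plain proof: this is `Pool.Agent.R227.SA.Wat.uc` (R227.SA13), whose proof is purely local; copy it.
-/

/-- TARGET 1: unique continuation in a connected open set. -/
theorem uc_loc {D : Set ℂ} {lam : ℝ} {w : ℂ → ℝ} (h : LocH D lam w) (hlam : 0 < lam)
    (hcon : IsPreconnected D) {a : ℂ} (ha : a ∈ D) (hz : w =ᶠ[𝓝 a] 0) : ∀ x ∈ D, w x = 0 := by
  set Z : Set ℂ := {x | w =ᶠ[𝓝 x] 0} with hZ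
  have hZo : IsOpen Z := by
    rw [isOpen_iff_mem_nhds]
    intro x hx
    exact eventually_eventually_nhds.2 hx
  have hsub : D ⊆ Z := by
    refine hcon.subset_of_closure_inter_subset hZo ⟨a, ha, hz⟩ ?_
    rintro x ⟨hxc, hxΩ⟩
    obtain ⟨r, hr, W, hW, hb, hl⟩ := h x hxΩ
    obtain ⟨y, hy, hyd⟩ := Metric.mem_closure_iff.1 hxc (r / 3) (by positivity)
    have hyb : ∀ z ∈ Metric.ball (0:ℂ) (r / 2), z + y ∈ Metric.ball x r := by
      intro z hz
      rw [mem_ball_zero_iff] at hz
      rw [Metric.mem_ball, dist_eq_norm]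
      rw [dist_comm, dist_eq_norm] at hyd
      have : z + y - x = z + (y - x) := by ring
      rw [this]
      refine (norm_add_le _ _).trans_lt ?_
      linarith
    have hy0 : y + 0 ∈ Metric.ball x r := by
      have := hyb 0 (Metric.mem_ball_self (by positivity))
      rwa [add_comm]
    have hev : (fun z => W (z + y)) =ᶠ[𝓝 0] 0 := by
      have h1 : ∀ᶠ z in 𝓝 y, W z = 0 := by
        have h2 : ∀ᶠ z in 𝓝 y, z ∈ Metric.ball x r := Metric.isOpen_ball.mem_nhds (by simpa using hy0)
        filter_upwards [hy, h2] with z hz1 hz2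
        rw [← (hl z hz2).1]
        exact hz1
      have h3 : Tendsto (fun z : ℂ => z + y) (𝓝 0) (𝓝 y) := by
        have : Continuous fun z : ℂ => z + y := by fun_prop
        have := this.tendsto 0
        rwa [zero_add] at this
      exact h3.eventually h1
    have hst := local_str (W := fun z => W (z + y)) (r0 := r / 2) hlam (trans_sc hW y) (by positivity)
      (fun z hz => by
        rw [la_trans]
        exact (hl _ (hyb z hz)).2) hev.self_of_nhds
    rcases hst with h1 | ⟨m, a', b', C, hm, hab, -, hC⟩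
    · -- vanishes near `x`
      have hxy : x ∈ Metric.ball y (r / 2) := by
        rw [Metric.mem_ball]
        linarith
      have : w =ᶠ[𝓝 x] 0 := by
        filter_upwards [Metric.isOpen_ball.mem_nhds hxy, Metric.ball_mem_nhds x hr] with z hz1 hz2
        have h2 := h1 (z - y) (by
          rw [mem_ball_zero_iff]
          rw [Metric.mem_ball, dist_eq_norm] at hz1
          exact hz1)
        rw [sub_add_cancel] at h2
        rw [(hl z hz2).1, h2]
        rfl
      exact this
    · exact (no_zero hm hab hC hev).elim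
  intro x hx
  exact (hsub hx).self_of_nhds

/-! ### The radial solution -/

theorem B_contDiff (m : ℕ) : ContDiff ℝ ∞ (B m) := by
  rw [contDiff_infty]
  intro n
  induction n generalizing m with
  | zero => exact contDiff_zero.2 (TH259.NS.B_cont m)
  | succ k ih =>
    have h1 : ContDiff ℝ ((k : ℕ∞ω) + 1) (B m) := by
      rw [contDiff_succ_iff_deriv]
      refine ⟨fun s => (TH259.NS.B_deriv m s).differentiableAt, fun h => ?_, ?_⟩
      · exact absurd h (by simp)
      · have e : deriv (B m) = fun s => -B (m + 1) s := funext fun s => (TH259.NS.B_deriv m s).deriv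
        rw [e]
        exact (ih (m + 1)).neg
    exact_mod_cast h1

/-- the quadratic function in the argument of `B` -/
noncomputable def qq (lam : ℝ) (p x : ℂ) : ℝ := lam / 4 * ((x.re - p.re) ^ 2 + (x.im - p.im) ^ 2)

/-- the linear form in the derivative of `qq` -/
noncomputable def ll (h p x : ℂ) : ℝ := (x.re - p.re) * h.re + (x.im - p.im) * h.im

theorem qq_eq (lam : ℝ) (p x : ℂ) : qq lam p x = lam * ‖x - p‖ ^ 2 / 4 := by
  unfold qq
  rw [Complex.sq_norm, Complex.normSq_apply, Complex.sub_re, Complex.sub_im]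
  ring

theorem hre (p x : ℂ) : HasFDerivAt (fun y : ℂ => y.re - p.re) Complex.reCLM x :=
  Complex.reCLM.hasFDerivAt.sub_const p.re

theorem him (p x : ℂ) : HasFDerivAt (fun y : ℂ => y.im - p.im) Complex.imCLM x :=
  Complex.imCLM.hasFDerivAt.sub_const p.im

theorem qq_smooth (lam : ℝ) (p : ℂ) : ContDiff ℝ ∞ (qq lam p) := by
  unfold qq
  have h1 : ContDiff ℝ ∞ (fun x : ℂ => x.re - p.re) := Complex.reCLM.contDiff.sub contDiff_const
  have h2 : ContDiff ℝ ∞ (fun x : ℂ => x.im - p.im) := Complex.imCLM.contDiff.sub contDiff_const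
  exact contDiff_const.mul ((h1.pow 2).add (h2.pow 2))

theorem dd_qq (lam : ℝ) (p h x : ℂ) : dd h (qq lam p) x = lam / 2 * ll h p x := by
  have h1 := (((hre p x).pow 2).add ((him p x).pow 2)).const_mul (lam / 4)
  unfold dd
  have e : qq lam p = fun y : ℂ => lam / 4 * ((fun x : ℂ => (x.re - p.re) ^ 2) +
    fun x : ℂ => (x.im - p.im) ^ 2) y := rfl
  rw [e, h1.fderiv]
  unfold ll
  simp
  ring

theorem qq_diff (lam : ℝ) (p x : ℂ) : DifferentiableAt ℝ (qq lam p) x :=
  ((qq_smooth lam p).differentiable (by simp)) x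

theorem dd_Bq (lam : ℝ) (p : ℂ) (m : ℕ) (h x : ℂ) :
    dd h (fun y => B m (qq lam p y)) x = -B (m + 1) (qq lam p x) * (lam / 2 * ll h p x) := by
  have h1 := (TH259.NS.B_deriv m (qq lam p x)).comp_hasFDerivAt x (qq_diff lam p x).hasFDerivAt
  have e : (fun y => B m (qq lam p y)) = B m ∘ qq lam p := rfl
  have h2 := dd_qq lam p h x
  unfold dd at h2 ⊢
  rw [e, h1.fderiv]
  simp only [smul_apply, smul_eq_mul]
  rw [h2]

theorem Bq_diff (lam : ℝ) (p : ℂ) (m : ℕ) (x : ℂ) :
    DifferentiableAt ℝ (fun y => B m (qq lam p y)) x :=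
  (TH259.NS.B_deriv m (qq lam p x)).differentiableAt.comp x (qq_diff lam p x)

theorem ll_has (h p x : ℂ) :
    HasFDerivAt (fun y : ℂ => ll h p y) (h.re • Complex.reCLM + h.im • Complex.imCLM) x := by
  unfold ll
  exact ((hre p x).mul_const h.re).add ((him p x).mul_const h.im)

theorem dd_dd_Bq (lam : ℝ) (p h x : ℂ) :
    dd h (dd h (fun y => B 0 (qq lam p y))) x =
      B 2 (qq lam p x) * (lam / 2 * ll h p x) ^ 2 -
        B 1 (qq lam p x) * (lam / 2 * (h.re ^ 2 + h.im ^ 2)) := by
  have e : dd h (fun y => B 0 (qq lam p y)) =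
      fun y => (-B 1 (qq lam p y)) * (lam / 2 * ll h p y) := by
    funext y
    rw [dd_Bq]
  rw [e]
  have h1 := (Bq_diff lam p 1 x).hasFDerivAt.neg.mul ((ll_has h p x).const_mul (lam / 2))
  have h3 := dd_Bq lam p 1 h x
  unfold dd at h3 ⊢
  have e2 : (fun y => (-B 1 (qq lam p y)) * (lam / 2 * ll h p y)) =
    (-fun y => B 1 (qq lam p y)) * (fun y => lam / 2 * ll h p y) := rfl
  rw [e2, h1.fderiv]
  simp only [add_apply, smul_apply, smul_eq_mul,
    neg_apply, Complex.reCLM_apply, Complex.imCLM_apply, Pi.neg_apply]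
  rw [h3]
  ring

/-- the radial solution -/
noncomputable def GrI2 (lam c : ℝ) (p x : ℂ) : ℝ := c * B 0 (qq lam p x)

theorem Gr_smooth (lam c : ℝ) (p : ℂ) : ContDiff ℝ ∞ (GrI2 lam c p) :=
  contDiff_const.mul ((B_contDiff 0).comp (qq_smooth lam p))

theorem dd_cmul (c : ℝ) (f : ℂ → ℝ) (h : ℂ) :
    dd h (fun y => c * f y) = fun y => c * dd h f y := by
  funext y
  unfold dd
  have : (fun y => c * f y) = c • f := rfl
  rw [this, fderiv_const_smul_field]
  simp

theorem la_Gr (lam c : ℝ) (p x : ℂ) : la (GrI2 lam c p) x = -(lam * GrI2 lam c p x) := by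
  have e : GrI2 lam c p = fun y => c * (fun y => B 0 (qq lam p y)) y := rfl
  unfold la
  rw [e, dd_cmul, dd_cmul, dd_cmul, dd_cmul]
  simp only
  rw [dd_dd_Bq, dd_dd_Bq]
  have ho := TH259.NS.B_ode 0 (qq lam p x)
  simp only [Nat.cast_zero, zero_add, one_mul] at ho
  unfold ll
  simp only [Complex.one_re, Complex.one_im, Complex.I_re, Complex.I_im]
  have eq : qq lam p x = lam / 4 * ((x.re - p.re) ^ 2 + (x.im - p.im) ^ 2) := rfl
  have h1 : B 0 (qq lam p x) = B 1 (qq lam p x) - qq lam p x * B 2 (qq lam p x) := by linarith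
  rw [h1]
  generalize B 1 (qq lam p x) = b1
  generalize B 2 (qq lam p x) = b2
  rw [eq]
  ring

theorem la_congr {f g : ℂ → ℝ} {x : ℂ} (h : f =ᶠ[𝓝 x] g) : la f x = la g x := by
  have h3 : ∀ {F G : ℂ → ℝ}, F =ᶠ[𝓝 x] G → ∀ h, dd h F =ᶠ[𝓝 x] dd h G := by
    intro F G hG h
    filter_upwards [hG.fderiv (𝕜 := ℝ)] with z hz
    unfold dd
    rw [hz]
  unfold la
  rw [(h3 (h3 h 1) 1).self_of_nhds, (h3 (h3 h Complex.I) Complex.I).self_of_nhds]

theorem la_sub {f g : ℂ → ℝ} (hf : ContDiff ℝ ∞ f) (hg : ContDiff ℝ ∞ g) (x : ℂ) :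
    la (fun y => f y - g y) x = la f x - la g x := by
  have h1 : ∀ {F G : ℂ → ℝ}, ContDiff ℝ ∞ F → ContDiff ℝ ∞ G → ∀ h,
      dd h (fun y => F y - G y) = fun y => dd h F y - dd h G y := by
    intro F G hF hG h
    funext y
    unfold dd
    rw [fderiv_fun_sub ((hF.differentiable (by simp)) y) ((hG.differentiable (by simp)) y)]
    rfl
  have h2 : ∀ {F : ℂ → ℝ}, ContDiff ℝ ∞ F → ∀ h, ContDiff ℝ ∞ (dd h F) := by
    intro F hF h
    exact (hF.fderiv_right (m := ∞) (by simp)).clm_apply contDiff_const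
  unfold la
  rw [h1 hf hg, h1 hf hg, h1 (h2 hf 1) (h2 hg 1), h1 (h2 hf Complex.I) (h2 hg Complex.I)]
  ring

/-
Plain proof. Near p, w = W with W smooth, la W = -lam W on ball p r. The rotational derivative about
p vanishes near p, so W(p + X s θ) does not depend on θ for 0 ≤ s < r (derivative in θ of
W(p + s e^{iθ}) is fderiv W (x) (I (x - p)) = 0). By the mean value property `mean_smooth`
(R227.SA8), 2π W(p + X s θ) = 2π W(p) B 0 (lam s²/4), so w(x) = w(p) B 0 (lam |x-p|²/4) near p. The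
function G(x) = w(p) B 0 (lam |x - p|²/4) is a smooth solution of the Helmholtz equation on the whole plane
(B 0 (κ² |x|²/4) is the Bessel function J_0(κ|x|); in R227.SA3 it is the integral
`ph κ x = ∫ cos(κ ⟨er θ, x⟩) dθ = 2π B 0 (κ² ‖x‖²/4)`, an average of plane waves, which is smooth and
solves la = -κ²; multiply by a smooth cutoff to get SC functions). So w - G satisfies LocH D lam and
vanishes near p: by `uc_loc`, w = G on D.
-/

/-- TARGET 2: a solution which is rotationally symmetric near a point is a Bessel function. -/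
theorem radial_global {D : Set ℂ} {lam : ℝ} {w : ℂ → ℝ} (h : LocH D lam w) (hlam : 0 < lam)
    (hcon : IsPreconnected D) {p : ℂ} (hp : p ∈ D)
    (hrot : ∀ᶠ x in 𝓝 p, fderiv ℝ w x (Complex.I * (x - p)) = 0) :
    ∀ x ∈ D, w x = w p * B 0 (lam * ‖x - p‖ ^ 2 / 4) := by
  have hpi := Real.pi_pos
  -- near `p`
  obtain ⟨r, hr, W, hW, hb, hl⟩ := h p hp
  obtain ⟨δ, hδ, hδr⟩ := Metric.eventually_nhds_iff.1 hrot
  have hwp : w p = W p := (hl p (Metric.mem_ball_self hr)).1
  have hnear : ∀ x, ‖x - p‖ < min r δ → w x = GrI2 lam (w p) p x := by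
    intro x hx
    set s : ℝ := ‖x - p‖ with hs
    have hs0 : 0 ≤ s := norm_nonneg _
    have hsr : s < r := hx.trans_le (min_le_left _ _)
    have hsδ : s < δ := hx.trans_le (min_le_right _ _)
    have hmem : ∀ θ : ℝ, p + X s θ ∈ Metric.ball p r := by
      intro θ
      rw [Metric.mem_ball, dist_eq_norm, add_sub_cancel_left, Pool.Agent.TH298.Sch.norm_X,
        abs_of_nonneg hs0]
      exact hsr
    have hd : ∀ θ : ℝ, HasDerivAt (fun θ : ℝ => W (p + X s θ)) 0 θ := by
      intro θ
      have h1 : HasDerivAt (fun θ : ℝ => p + X s θ) (s * Pool.Agent.TH298.Sch.et θ) θ :=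
        (Pool.Agent.TH298.Sch.X_dt s θ).const_add p
      have h2 := ((hW.diff (p + X s θ)).hasFDerivAt).comp_hasDerivAt θ h1
      refine h2.congr_deriv ?_
      have h3 : w =ᶠ[𝓝 (p + X s θ)] W := by
        filter_upwards [Metric.isOpen_ball.mem_nhds (hmem θ)] with y hy
        exact (hl y hy).1
      have h4 := hδr (y := p + X s θ) (by
        rw [dist_eq_norm, add_sub_cancel_left, Pool.Agent.TH298.Sch.norm_X, abs_of_nonneg hs0]
        exact hsδ)
      rw [h3.fderiv_eq, add_sub_cancel_left] at h4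
      have h5 : Complex.I * X s θ = s * Pool.Agent.TH298.Sch.et θ := by
        rw [Pool.Agent.TH298.Sch.X_eq, ← Pool.Agent.TH298.Sch.I_er]
        ring
      rw [← h5]
      exact h4
    have hconst : ∀ θ : ℝ, W (p + X s θ) = W (p + X s (Complex.arg (x - p))) := fun θ =>
      is_const_of_deriv_eq_zero (fun t => (hd t).differentiableAt) (fun t => (hd t).deriv) _ _
    have hm := mean_smooth hlam hW hr (fun x hx => (hl x hx).2) hs0 hsr.le
    have e1 : ∫ θ in (-Real.pi)..Real.pi, W (p + X s θ) =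
        2 * Real.pi * W (p + X s (Complex.arg (x - p))) := by
      rw [intervalIntegral.integral_congr (g := fun _ => W (p + X s (Complex.arg (x - p))))
        (fun θ _ => hconst θ), intervalIntegral.integral_const, smul_eq_mul]
      ring
    rw [e1] at hm
    have e2 : p + X s (Complex.arg (x - p)) = x := by
      rw [Pool.Agent.TH298.Sch.X_eq, Pool.Agent.TH298.Sch.er_exp, hs, Complex.norm_mul_exp_arg_mul_I]
      ring
    rw [e2] at hm
    have hxr : x ∈ Metric.ball p r := by
      rw [Metric.mem_ball, dist_eq_norm]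
      exact hsr
    rw [(hl x hxr).1]
    unfold GrI2
    rw [qq_eq, hwp]
    have h6 : 2 * Real.pi * W x = 2 * Real.pi * (W p * B 0 (lam * ‖x - p‖ ^ 2 / 4)) := by
      rw [hm]
      ring
    exact mul_left_cancel₀ (by positivity) h6
  -- the difference
  have hG := Gr_smooth lam (w p) p
  have hloc : LocH D lam (fun x => w x - GrI2 lam (w p) p x) := by
    intro x₀ hx₀
    obtain ⟨r', hr', W', hW', hb', hl'⟩ := h x₀ hx₀
    let χ : ContDiffBump x₀ := ⟨r', r' + 1, hr', by linarith⟩
    have hχ1 : ∀ y ∈ Metric.ball x₀ r', χ y = 1 := fun y hy =>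
      χ.one_of_mem_closedBall (Metric.ball_subset_closedBall hy)
    have hprod : SC (fun y => χ y * GrI2 lam (w p) p y) :=
      ⟨χ.contDiff.mul hG, χ.hasCompactSupport.mul_right⟩
    refine ⟨r', hr', fun y => W' y - χ y * GrI2 lam (w p) p y, ⟨hW'.sm.sub hprod.sm, ?_⟩, hb', ?_⟩
    · exact hW'.cs.sub hprod.cs
    · intro x hx
      have h1 : (fun y => W' y - χ y * GrI2 lam (w p) p y) =ᶠ[𝓝 x]
          fun y => W' y - GrI2 lam (w p) p y := by
        filter_upwards [Metric.isOpen_ball.mem_nhds hx] with y hy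
        rw [hχ1 y hy, one_mul]
      refine ⟨?_, ?_⟩
      · simp only
        rw [hχ1 x hx, one_mul, (hl' x hx).1]
      · simp only
        rw [la_congr h1, la_sub hW'.sm hG, (hl' x hx).2, la_Gr, hχ1 x hx, one_mul]
        ring
  have hzero : (fun x => w x - GrI2 lam (w p) p x) =ᶠ[𝓝 p] 0 := by
    filter_upwards [Metric.ball_mem_nhds p (lt_min hr hδ)] with y hy
    rw [Metric.mem_ball, dist_eq_norm] at hy
    rw [hnear y hy, sub_self]
    rfl
  intro x hx
  have := uc_loc hloc hlam hcon hp hzero x hx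
  have h7 : w x = GrI2 lam (w p) p x := by linarith
  rw [h7]
  unfold GrI2
  rw [qq_eq]

/-
Plain proof. B 0 is a nonzero power series; its zeros t ≥ 0 are isolated (real-analytic, not identically 0;
or from the library: zeros of `J 0`, `B 0 (t²/4) = J 0 t`, are simple / discrete).
-/

/-- at a nonnegative zero of `B 0` the derivative does not vanish -/
theorem B_simple {y : ℝ} (hy : 0 ≤ y) (h0 : B 0 y = 0) : B 1 y ≠ 0 := by
  intro h1
  have hd : ∀ t : ℝ, HasDerivAt (fun t => t * B 0 t ^ 2 + t ^ 2 * B 1 t ^ 2) (B 0 t ^ 2) t := by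
    intro t
    have a0 := TH259.NS.B_deriv 0 t
    have a1 := TH259.NS.B_deriv 1 t
    have ho := TH259.NS.B_ode 0 t
    simp only [Nat.cast_zero, zero_add, one_mul] at ho a0
    have a2 : HasDerivAt (B 1) (-B 2 t) t := a1
    have h3 := ((hasDerivAt_id t).mul (a0.pow 2)).add (((hasDerivAt_id t).pow 2).mul (a2.pow 2))
    refine h3.congr_deriv ?_
    simp only [id, Nat.cast_ofNat, Nat.add_one_sub_one, pow_one]
    have h4 : B 0 t = B 1 t - t * B 2 t := by linarith
    simp only [Pi.pow_apply, id]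
    rw [h4]
    ring
  have hmono : Monotone (fun t => t * B 0 t ^ 2 + t ^ 2 * B 1 t ^ 2) :=
    monotone_of_hasDerivAt_nonneg hd (fun t => sq_nonneg _)
  rcases eq_or_lt_of_le hy with hy0 | hy0
  · rw [← hy0, TH259.NS.B_zero] at h0
    norm_num at h0
  · obtain ⟨s1, hs1, b, hb, hbs⟩ := B_small 0 (lam := 4) (by norm_num)
    have hs2 : 0 < min s1 (√y) := lt_min hs1 (Real.sqrt_pos.2 hy0)
    set s := min s1 (√y) with hs
    have h2 := hbs s hs2.le (min_le_left _ _)
    have h3 : s ^ 2 ≤ y := by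
      have : s ≤ √y := min_le_right _ _
      calc s ^ 2 ≤ √y ^ 2 := pow_le_pow_left₀ hs2.le this 2
        _ = y := Real.sq_sqrt hy
    have h4 := hmono h3
    simp only [h0, h1] at h4
    have e : (4 : ℝ) * s ^ 2 / 4 = s ^ 2 := by ring
    rw [e] at h2
    have h5 : 0 < s ^ 2 * B 0 (s ^ 2) ^ 2 := by
      have : 0 < B 0 (s ^ 2) := hb.trans_le h2
      positivity
    have h6 : 0 ≤ (s ^ 2) ^ 2 * B 1 (s ^ 2) ^ 2 := by positivity
    norm_num at h4
    linarith

/-- TARGET 3: the zeros of `t ↦ B 0 (lam t / 4)` on `[0, ∞)` are isolated. -/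
theorem B_isolated {lam : ℝ} (hlam : 0 < lam) (s : ℝ) (hs : 0 ≤ s) :
    ∃ δ > 0, ∀ t, t ≠ s → |t - s| < δ → 0 ≤ t → B 0 (lam * t / 4) ≠ 0 := by
  have hlin : HasDerivAt (fun t : ℝ => lam * t / 4) (lam / 4) s := by
    have := ((hasDerivAt_id s).const_mul lam).div_const 4
    simpa using this
  have hB : HasDerivAt (B 0) (-B 1 (lam * s / 4)) ((fun t : ℝ => lam * t / 4) s) :=
    TH259.NS.B_deriv 0 (lam * s / 4)
  have hf : HasDerivAt (B 0 ∘ fun t => lam * t / 4) (-B 1 (lam * s / 4) * (lam / 4)) s :=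
    HasDerivAt.comp s hB hlin
  have hf : HasDerivAt (fun t => B 0 (lam * t / 4)) (-B 1 (lam * s / 4) * (lam / 4)) s := hf
  have hev : ∀ᶠ t in 𝓝[≠] s, B 0 (lam * t / 4) ≠ 0 := by
    by_cases h0 : B 0 (lam * s / 4) = 0
    · have h1 : -B 1 (lam * s / 4) * (lam / 4) ≠ 0 :=
        mul_ne_zero (neg_ne_zero.2 (B_simple (by positivity) h0)) (by positivity)
      exact hf.eventually_ne h1
    · exact (hf.continuousAt.eventually_ne h0).filter_mono nhdsWithin_le_nhds
  rw [eventually_nhdsWithin_iff, Metric.eventually_nhds_iff] at hev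
  obtain ⟨δ, hδ, hδ2⟩ := hev
  exact ⟨δ, hδ, fun t ht1 ht2 _ => hδ2 (by rw [Real.dist_eq]; exact ht2) ht1⟩

end Pool.Agent.Helper327_Drum
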