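import Pool.Agent.H947R3.Grad2
import Pool.Agent.Helper546.Boundary
import Pool.Agent.R227.SA8

set_option autoImplicit false
open MeasureTheory Set Filter
open scoped Topology ContDiff

namespace Pool.Agent.Helper327_Drum

open Pool.Agent.TH298.Sch (X er dd SC)
open Pool.Agent.R227.SA

theorem pd_comp_symm (g : ℂ → ℝ) (i : Fin 2) :
    Pool.Agent.H947R3.pd (fun y => g (Pool.Agent.Helper546.cV.symm y)) i
      = fun y => dd (Pool.Agent.Helper546.cV.symm (Pool.Agent.H947R3.bv i)) g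
          (Pool.Agent.Helper546.cV.symm y) := by
  funext y
  unfold Pool.Agent.H947R3.pd dd
  have h := (Pool.Agent.Helper546.cV.symm.toContinuousLinearEquiv).comp_right_fderiv (f := g) (x := y)
  have h' : fderiv ℝ (fun y => g (Pool.Agent.Helper546.cV.symm y)) y
      = (fderiv ℝ g (Pool.Agent.Helper546.cV.symm y)).comp
        (Pool.Agent.Helper546.cV.symm.toContinuousLinearEquiv : _ →L[ℝ] ℂ) := h
  rw [h']
  rfl

theorem cVs0 : Pool.Agent.Helper546.cV.symm (Pool.Agent.H947R3.bv 0) = 1 := by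
  rw [LinearIsometryEquiv.symm_apply_eq]
  ext j
  fin_cases j <;> simp [Pool.Agent.Helper546.cV_zero, Pool.Agent.Helper546.cV_one, Pool.Agent.H947R3.bv]

theorem cVs1 : Pool.Agent.Helper546.cV.symm (Pool.Agent.H947R3.bv 1) = Complex.I := by
  rw [LinearIsometryEquiv.symm_apply_eq]
  ext j
  fin_cases j <;> simp [Pool.Agent.Helper546.cV_zero, Pool.Agent.Helper546.cV_one, Pool.Agent.H947R3.bv]

/-- TARGET: interior gradient estimate. -/
theorem grad_bd {x₀ : ℂ} {r M N : ℝ} (hr : 0 < r) {f : ℂ → ℝ}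
    (hf : ContDiffOn ℝ 2 f (Metric.ball x₀ r)) (hM : ∀ x ∈ Metric.ball x₀ r, |f x| ≤ M)
    (hN : ∀ x ∈ Metric.ball x₀ r, |la f x| ≤ N) : ‖fderiv ℝ f x₀‖ ≤ 8 * (M / r + N * r) := by
  have hx0 : x₀ ∈ Metric.ball x₀ r := Metric.mem_ball_self hr
  have hM0 : 0 ≤ M := (abs_nonneg _).trans (hM _ hx0)
  have hN0 : 0 ≤ N := (abs_nonneg _).trans (hN _ hx0)
  set e := Pool.Agent.Helper546.cV with he
  set w : Pool.Agent.H947R3.E 2 → ℝ := fun y => f (e.symm y) with hw
  have hmem : ∀ y : Pool.Agent.H947R3.E 2, y ∈ Metric.ball (e x₀) r → e.symm y ∈ Metric.ball x₀ r := by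
    intro y hy
    rw [Metric.mem_ball] at hy ⊢
    calc dist (e.symm y) x₀ = dist (e.symm y) (e.symm (e x₀)) := by rw [e.symm_apply_apply]
      _ = dist y (e x₀) := e.symm.dist_map _ _
      _ < r := hy
  have hwU : ContDiffOn ℝ 2 w (Metric.ball (e x₀) r) :=
    hf.comp (e.symm.toContinuousLinearEquiv.contDiff.contDiffOn) hmem
  have hQ : Pool.Agent.H947R3.QQ (e x₀) (r / 2) ⊆ Metric.ball (e x₀) r := by
    intro y hy
    rw [Metric.mem_ball, EuclideanSpace.dist_eq, Real.sqrt_lt' hr, Fin.sum_univ_two]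
    have h0 := hy 0
    have h1 := hy 1
    rw [Real.dist_eq, Real.dist_eq]
    have a0 := abs_nonneg (y.ofLp 0 - (e x₀).ofLp 0)
    have a1 := abs_nonneg (y.ofLp 1 - (e x₀).ofLp 1)
    nlinarith
  have hlap : ∀ y ∈ Metric.ball (e x₀) r, Laplacian.laplacian w y = la f (e.symm y) := by
    intro y hy
    rw [Pool.Agent.H947R3.lap_eq (hwU.contDiffAt (Metric.isOpen_ball.mem_nhds hy)), Fin.sum_univ_two]
    rw [hw, pd_comp_symm f 0, pd_comp_symm (dd (e.symm (Pool.Agent.H947R3.bv 0)) f) 0,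
      pd_comp_symm f 1, pd_comp_symm (dd (e.symm (Pool.Agent.H947R3.bv 1)) f) 1, he, cVs0, cVs1]
    rfl
  have hest : ∀ i, |Pool.Agent.H947R3.pd w i (e x₀)| ≤ (2 : ℕ) * M / (r / 2) + N * (r / 2) / 2 := by
    intro i
    refine Pool.Agent.H947R3.grad_est Metric.isOpen_ball hwU (by linarith) hQ ?_ ?_ i
    · intro y hy
      exact hM _ (hmem y (hQ hy))
    · intro y hy
      rw [hlap y (hQ hy)]
      exact hN _ (hmem y (hQ hy))
  have e0 := hest 0
  have e1 := hest 1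
  rw [hw, pd_comp_symm f 0, ← he] at e0
  rw [hw, pd_comp_symm f 1, ← he] at e1
  simp only [e.symm_apply_apply] at e0 e1
  rw [he, cVs0] at e0
  rw [he, cVs1] at e1
  unfold dd at e0 e1
  refine ContinuousLinearMap.opNorm_le_bound _ (by positivity) ?_
  intro z
  have hz : fderiv ℝ f x₀ z = z.re * fderiv ℝ f x₀ 1 + z.im * fderiv ℝ f x₀ Complex.I := by
    have : z = (z.re : ℝ) • (1 : ℂ) + (z.im : ℝ) • Complex.I := by
      simp [Complex.re_add_im]
    conv_lhs => rw [this]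
    rw [map_add, map_smul, map_smul]
    simp
  have b1 : |z.re| ≤ ‖z‖ := Complex.abs_re_le_norm z
  have b2 : |z.im| ≤ ‖z‖ := Complex.abs_im_le_norm z
  have c1 : |z.re| * |fderiv ℝ f x₀ 1| ≤ ‖z‖ * ((2 : ℕ) * M / (r / 2) + N * (r / 2) / 2) :=
    mul_le_mul b1 e0 (abs_nonneg _) (norm_nonneg _)
  have c2 : |z.im| * |fderiv ℝ f x₀ Complex.I| ≤ ‖z‖ * ((2 : ℕ) * M / (r / 2) + N * (r / 2) / 2) :=
    mul_le_mul b2 e1 (abs_nonneg _) (norm_nonneg _)
  rw [hz, Real.norm_eq_abs]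
  calc |z.re * fderiv ℝ f x₀ 1 + z.im * fderiv ℝ f x₀ Complex.I|
      ≤ |z.re| * |fderiv ℝ f x₀ 1| + |z.im| * |fderiv ℝ f x₀ Complex.I| := by
        rw [← abs_mul, ← abs_mul]; exact abs_add_le _ _
    _ ≤ ‖z‖ * ((2 : ℕ) * M / (r / 2) + N * (r / 2) / 2) +
        ‖z‖ * ((2 : ℕ) * M / (r / 2) + N * (r / 2) / 2) := add_le_add c1 c2
    _ = (8 * (M / r) + N * r / 2) * ‖z‖ := by
        push_cast
        field_simp
        ring
    _ ≤ 8 * (M / r + N * r) * ‖z‖ := by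
        apply mul_le_mul_of_nonneg_right _ (norm_nonneg _)
        nlinarith [mul_nonneg hN0 hr.le]

end Pool.Agent.Helper327_Drum
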