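import Pool.Agent.R227.SA13
import Pool.Agent.Helper327_Drum.Fin.C1

set_option autoImplicit false
open MeasureTheory Set Filter
open scoped Topology ContDiff

namespace Pool.Agent.Helper327_Drum

open Pool.Agent.TH298.Sch (X er dd SC)
open Pool.Agent.R227.SA

/-
`SC W`: W is smooth with compact support; `la` is the Laplacian on ℂ, `X s θ = s e^{iθ}`.

Plain proof. Translate x₀ to 0. By `Pool.Agent.R227.SA.local_str` (R227.SA12): W(X s θ) =
s^m (a cos mθ + b sin mθ) + O(s^{m+1}) with (a,b) ≠ 0 and m ≥ 2 because fderiv W x₀ = 0 (the other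
alternative of `local_str` is excluded by hne). Let p(x) = Re((a - i b) x^m), that is p(X s θ) =
s^m (a cos mθ + b sin mθ): a harmonic polynomial with |∇p(x)| = m |x|^{m-1} √(a²+b²). E = W - p
satisfies |E| ≤ C |x|^{m+1} and |la E| = lam |W| ≤ C |x|^m near 0. Apply `grad_bd` to E on the ball
with centre x and radius |x|/2: |∇E(x)| ≤ C' |x|^m. So ∇W(x) ≠ 0 for small x ≠ 0.
-/

/-! auxiliary lemmas -/

/-- the real part of `c z^k` -/
noncomputable def i1_P (c : ℂ) (k : ℕ) (z : ℂ) : ℝ := (c * z ^ k).re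

theorem i1_P_fd (c : ℂ) (k : ℕ) (z : ℂ) :
    HasFDerivAt (i1_P c k) (Complex.reCLM.comp
      ((ContinuousLinearMap.toSpanSingleton ℂ (c * (k * z ^ (k - 1)))).restrictScalars ℝ)) z := by
  have h1 : HasDerivAt (fun z : ℂ => c * z ^ k) (c * (k * z ^ (k - 1))) z :=
    (hasDerivAt_pow k z).const_mul c
  exact Complex.reCLM.hasFDerivAt.comp z (h1.hasFDerivAt.restrictScalars ℝ)

theorem i1_P_cd (c : ℂ) (k : ℕ) : ContDiff ℝ ∞ (i1_P c k) := by
  have h1 : ContDiff ℝ ∞ (fun z : ℂ => c * z ^ k) := by fun_prop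
  exact Complex.reCLM.contDiff.comp h1

theorem i1_P_dd (c : ℂ) (k : ℕ) (v : ℂ) :
    dd v (i1_P c k) = i1_P (c * k * v) (k - 1) := by
  funext z
  unfold dd
  rw [(i1_P_fd c k z).fderiv]
  unfold i1_P
  simp only [ContinuousLinearMap.comp_apply, ContinuousLinearMap.coe_restrictScalars',
    ContinuousLinearMap.toSpanSingleton_apply, Complex.reCLM_apply, smul_eq_mul]
  congr 1
  ring

theorem i1_P_la (c : ℂ) (k : ℕ) (z : ℂ) : la (i1_P c k) z = 0 := by
  unfold la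
  rw [i1_P_dd, i1_P_dd, i1_P_dd, i1_P_dd]
  unfold i1_P
  rw [← Complex.add_re]
  have : c * k * 1 * ((k - 1 : ℕ) : ℂ) * 1 * z ^ (k - 1 - 1) +
      c * k * Complex.I * ((k - 1 : ℕ) : ℂ) * Complex.I * z ^ (k - 1 - 1) = 0 := by
    linear_combination (c * k * ((k - 1 : ℕ) : ℂ) * z ^ (k - 1 - 1)) * Complex.I_mul_I
  rw [this]
  simp

theorem i1_P_low (c : ℂ) (k : ℕ) (z : ℂ) :
    ‖c‖ * (k * ‖z‖ ^ (k - 1)) ≤ ‖fderiv ℝ (i1_P c k) z‖ := by
  rw [(i1_P_fd c k z).fderiv]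
  set d : ℂ := c * (k * z ^ (k - 1)) with hd
  have hn : ‖d‖ = ‖c‖ * (k * ‖z‖ ^ (k - 1)) := by
    rw [hd, norm_mul, norm_mul, norm_pow, Complex.norm_natCast]
  rw [← hn]
  rcases eq_or_ne d 0 with h0 | h0
  · rw [h0, norm_zero]
    exact norm_nonneg _
  · have h1 := (Complex.reCLM.comp ((ContinuousLinearMap.toSpanSingleton ℂ d).restrictScalars
      ℝ)).le_opNorm ((starRingEnd ℂ) d)
    have h2 : (Complex.reCLM.comp ((ContinuousLinearMap.toSpanSingleton ℂ d).restrictScalars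
      ℝ)) ((starRingEnd ℂ) d) = ‖d‖ ^ 2 := by
      simp only [ContinuousLinearMap.comp_apply, ContinuousLinearMap.coe_restrictScalars',
        ContinuousLinearMap.toSpanSingleton_apply, Complex.reCLM_apply, smul_eq_mul]
      rw [Complex.conj_mul']
      norm_cast
    rw [h2, RCLike.norm_conj, Real.norm_eq_abs, abs_of_nonneg (by positivity), sq] at h1
    exact le_of_mul_le_mul_right h1 (norm_pos_iff.2 h0)

theorem i1_P_X (a b : ℝ) (m : ℕ) (s θ : ℝ) :
    i1_P ⟨a, -b⟩ m (X s θ) = s ^ m * (a * Real.cos (m * θ) + b * Real.sin (m * θ)) := by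
  unfold i1_P
  rw [Pool.Agent.TH298.Sch.X_eq, Pool.Agent.TH298.Sch.er_exp, mul_pow, ← Complex.exp_nat_mul]
  have e1 : (m : ℂ) * (θ * Complex.I) = ((m * θ : ℝ) : ℂ) * Complex.I := by
    push_cast
    ring
  rw [e1, Complex.exp_mul_I, ← Complex.ofReal_cos, ← Complex.ofReal_sin, ← Complex.ofReal_pow]
  simp only [Complex.mul_re, Complex.mul_im, Complex.add_re, Complex.add_im, Complex.ofReal_re,
    Complex.ofReal_im, Complex.I_re, Complex.I_im]
  ring

theorem i1_la_sub {f g : ℂ → ℝ} (hf : ContDiff ℝ ∞ f) (hg : ContDiff ℝ ∞ g) (x : ℂ) :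
    la (fun y => f y - g y) x = la f x - la g x := by
  have key : ∀ (v : ℂ) {f g : ℂ → ℝ}, ContDiff ℝ ∞ f → ContDiff ℝ ∞ g →
      dd v (fun y => f y - g y) = fun y => dd v f y - dd v g y := by
    intro v f g hf hg
    funext y
    unfold dd
    rw [fderiv_fun_sub (hf.differentiable (by simp) y) (hg.differentiable (by simp) y)]
    rfl
  have hs : ∀ (v : ℂ) {f : ℂ → ℝ}, ContDiff ℝ ∞ f → ContDiff ℝ ∞ (dd v f) := by
    intro v f hf
    exact (hf.fderiv_right (m := ∞) (by simp)).clm_apply contDiff_const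
  unfold la
  rw [key 1 hf hg, key Complex.I hf hg, key 1 (hs 1 hf) (hs 1 hg),
    key Complex.I (hs Complex.I hf) (hs Complex.I hg)]
  ring

/-- the statement at the origin -/
theorem i1_origin {W : ℂ → ℝ} (hW : SC W) {lam r : ℝ} (hlam : 0 < lam) (hr : 0 < r)
    (hH : ∀ x ∈ Metric.ball (0 : ℂ) r, la W x = -(lam * W x)) (h0 : W 0 = 0)
    (h1 : fderiv ℝ W 0 = 0) (hne : ¬ (W =ᶠ[𝓝 0] 0)) :
    ∃ δ > 0, ∀ x ∈ Metric.ball (0 : ℂ) δ, x ≠ 0 → fderiv ℝ W x ≠ 0 := by
  rcases local_str hlam hW hr hH h0 with hz | ⟨m, a, b, C, hm1, hab, hm2, hC⟩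
  · exfalso
    apply hne
    filter_upwards [Metric.ball_mem_nhds (0 : ℂ) hr] with z hz1
    exact hz z hz1
  have hm : 2 ≤ m := hm2 h1
  set c : ℂ := ⟨a, -b⟩ with hc
  have hc0 : 0 < ‖c‖ := by
    rw [norm_pos_iff]
    intro hcon
    have e1 := congrArg Complex.re hcon
    have e2 := congrArg Complex.im hcon
    simp [hc] at e1 e2
    rcases hab with h | h <;> contradiction
  have hC0 : 0 ≤ C := by
    have := (abs_nonneg _).trans (hC 1 ⟨zero_le_one, le_rfl⟩ 0)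
    simpa using this
  have hpolar : ∀ x : ℂ, X ‖x‖ (Complex.arg x) = x := by
    intro x
    rw [Pool.Agent.TH298.Sch.X_eq, Pool.Agent.TH298.Sch.er_exp]
    exact Complex.norm_mul_exp_arg_mul_I x
  have hE : ∀ x : ℂ, ‖x‖ ≤ 1 → |W x - i1_P c m x| ≤ C * ‖x‖ ^ (m + 1) := by
    intro x hx
    have k1 := hC ‖x‖ ⟨norm_nonneg x, hx⟩ (Complex.arg x)
    rw [← i1_P_X, hpolar] at k1
    exact k1
  have hWb : ∀ x : ℂ, ‖x‖ ≤ 1 → |W x| ≤ (‖c‖ + C) * ‖x‖ ^ m := by
    intro x hx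
    have k1 := hE x hx
    have k2 : |i1_P c m x| ≤ ‖c‖ * ‖x‖ ^ m := by
      unfold i1_P
      refine (Complex.abs_re_le_norm _).trans (le_of_eq ?_)
      rw [norm_mul, norm_pow]
    have k3 : ‖x‖ ^ (m + 1) ≤ ‖x‖ ^ m := pow_le_pow_of_le_one (norm_nonneg x) hx (by omega)
    have k4 := abs_sub_abs_le_abs_sub (W x) (i1_P c m x)
    have k5 := mul_le_mul_of_nonneg_left k3 hC0
    linarith
  set A : ℝ := 8 * (2 * C * (3 / 2) ^ (m + 1) + lam * (‖c‖ + C) * (3 / 2) ^ m) with hA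
  have hA0 : 0 ≤ A := by positivity
  have hmr : (2 : ℝ) ≤ m := by exact_mod_cast hm
  refine ⟨min (min (1 / 2) (r / 2)) (‖c‖ / (A + 1)), by positivity, ?_⟩
  intro x hx hx0 hcon
  rw [mem_ball_zero_iff] at hx
  have hx1 : ‖x‖ < 1 / 2 := hx.trans_le ((min_le_left _ _).trans (min_le_left _ _))
  have hx2 : ‖x‖ < r / 2 := hx.trans_le ((min_le_left _ _).trans (min_le_right _ _))
  have hx3 : ‖x‖ < ‖c‖ / (A + 1) := hx.trans_le (min_le_right _ _)
  have hxp : 0 < ‖x‖ := norm_pos_iff.2 hx0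
  set t : ℝ := ‖x‖ with ht
  have hball : ∀ y ∈ Metric.ball x (t / 2), ‖y‖ ≤ 3 / 2 * t := by
    intro y hy
    rw [Metric.mem_ball, dist_eq_norm] at hy
    have : ‖y‖ ≤ ‖y - x‖ + ‖x‖ := by
      have := norm_add_le (y - x) x
      rwa [sub_add_cancel] at this
    linarith
  have hEcd : ContDiff ℝ ∞ (fun y => W y - i1_P c m y) := hW.sm.sub (i1_P_cd c m)
  have hgb := grad_bd (x₀ := x) (r := t / 2) (M := C * (3 / 2 * t) ^ (m + 1))
    (N := lam * ((‖c‖ + C) * (3 / 2 * t) ^ m)) (by positivity)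
    (f := fun y => W y - i1_P c m y) ((hEcd.of_le (by norm_cast)).contDiffOn) ?_ ?_
  · have hfd : fderiv ℝ (fun y => W y - i1_P c m y) x = -fderiv ℝ (i1_P c m) x := by
      rw [fderiv_fun_sub (hW.diff x) ((i1_P_cd c m).differentiable (by simp) x), hcon, zero_sub]
    rw [hfd, norm_neg] at hgb
    have hlow := i1_P_low c m x
    rw [← ht] at hlow
    have hup : 8 * (C * (3 / 2 * t) ^ (m + 1) / (t / 2) +
        lam * ((‖c‖ + C) * (3 / 2 * t) ^ m) * (t / 2)) ≤ A * t ^ m := by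
      have e1 : C * (3 / 2 * t) ^ (m + 1) / (t / 2) = 2 * C * (3 / 2) ^ (m + 1) * t ^ m := by
        rw [mul_pow, pow_succ t m]
        field_simp
      have e2 : lam * ((‖c‖ + C) * (3 / 2 * t) ^ m) * (t / 2) ≤
          lam * (‖c‖ + C) * (3 / 2) ^ m * t ^ m := by
        have e3 : lam * ((‖c‖ + C) * (3 / 2 * t) ^ m) * (t / 2) =
            lam * (‖c‖ + C) * (3 / 2) ^ m * t ^ m * (t / 2) := by
          rw [mul_pow]
          ring
        rw [e3]
        exact mul_le_of_le_one_right (by positivity) (by linarith)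
      rw [e1, hA]
      have e4 : 8 * (2 * C * (3 / 2) ^ (m + 1) + lam * (‖c‖ + C) * (3 / 2) ^ m) * t ^ m =
          8 * (2 * C * (3 / 2) ^ (m + 1) * t ^ m + lam * (‖c‖ + C) * (3 / 2) ^ m * t ^ m) := by
        ring
      rw [e4]
      linarith
    have hfin := hlow.trans (hgb.trans hup)
    obtain ⟨k, rfl⟩ : ∃ k, m = k + 1 := ⟨m - 1, by omega⟩
    rw [Nat.add_sub_cancel, pow_succ] at hfin
    have htk : 0 < t ^ k := pow_pos hxp k
    have hfin2 : ‖c‖ * ((k + 1 : ℕ) : ℝ) ≤ A * t := by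
      have e5 : ‖c‖ * (((k + 1 : ℕ) : ℝ) * t ^ k) = ‖c‖ * ((k + 1 : ℕ) : ℝ) * t ^ k := by ring
      have e6 : A * (t ^ k * t) = A * t * t ^ k := by ring
      rw [e5, e6] at hfin
      exact le_of_mul_le_mul_right hfin htk
    rw [lt_div_iff₀ (by positivity)] at hx3
    nlinarith
  · intro y hy
    have k1 := hball y hy
    have k2 : ‖y‖ ≤ 1 := by linarith
    refine (hE y k2).trans ?_
    exact mul_le_mul_of_nonneg_left (pow_le_pow_left₀ (norm_nonneg y) k1 _) hC0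
  · intro y hy
    have k1 := hball y hy
    have k2 : ‖y‖ ≤ 1 := by linarith
    have k3 : y ∈ Metric.ball (0 : ℂ) r := by
      rw [mem_ball_zero_iff]
      linarith
    rw [i1_la_sub hW.sm (i1_P_cd c m), i1_P_la, sub_zero, hH y k3, abs_neg, abs_mul,
      abs_of_pos hlam]
    refine mul_le_mul_of_nonneg_left ((hWb y k2).trans ?_) hlam.le
    exact mul_le_mul_of_nonneg_left (pow_le_pow_left₀ (norm_nonneg y) k1 _) (by positivity)

/-- TARGET: zeros that are critical points are isolated critical points. -/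
theorem crit_isolated {W : ℂ → ℝ} (hW : SC W) {lam r : ℝ} (hlam : 0 < lam) (hr : 0 < r) {x₀ : ℂ}
    (hH : ∀ x ∈ Metric.ball x₀ r, la W x = -(lam * W x)) (h0 : W x₀ = 0)
    (h1 : fderiv ℝ W x₀ = 0) (hne : ¬ (W =ᶠ[𝓝 x₀] 0)) :
    ∃ δ > 0, ∀ x ∈ Metric.ball x₀ δ, x ≠ x₀ → fderiv ℝ W x ≠ 0 := by
  have hf : ∀ y, fderiv ℝ (fun y => W (y + x₀)) y = fderiv ℝ W (y + x₀) := fun y =>
    fderiv_comp_add_right x₀
  obtain ⟨δ, hδ, hd⟩ := i1_origin (W := fun y => W (y + x₀)) (trans_sc hW x₀) hlam hr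
    (fun x hx => by
      rw [la_trans]
      refine hH _ ?_
      rw [Metric.mem_ball, dist_eq_norm, add_sub_cancel_right]
      exact mem_ball_zero_iff.1 hx)
    (by simpa using h0) (by rw [hf]; simpa using h1)
    (by
      intro hcon
      apply hne
      have h3 : Tendsto (fun z : ℂ => z - x₀) (𝓝 x₀) (𝓝 0) := by
        have : Continuous fun z : ℂ => z - x₀ := by fun_prop
        have := this.tendsto x₀
        rwa [sub_self] at this
      have h4 := h3.eventually hcon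
      filter_upwards [h4] with z hz
      simpa using hz)
  refine ⟨δ, hδ, fun x hx hne' => ?_⟩
  have h5 := hd (x - x₀) (by
    rw [mem_ball_zero_iff]
    rwa [Metric.mem_ball, dist_eq_norm] at hx) (sub_ne_zero.2 hne')
  rw [hf, sub_add_cancel] at h5
  exact h5

end Pool.Agent.Helper327_Drum
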