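import Pool.Agent.R227.SA13

set_option autoImplicit false
open MeasureTheory Set Filter ComplexConjugate
open scoped Topology ContDiff

namespace Pool.Agent.Helper327_Drum

open Pool.Agent.TH298.Sch (X er dd SC)
open Pool.Agent.R227.SA

lemma aux_I3_norm {w e : ℂ} (he : ‖e‖ = 1) :
    ‖w‖ ≤ |(w * conj e).re| + |(w * conj e).im| := by
  have h1 : ‖w‖ = ‖w * conj e‖ := by
    rw [norm_mul, Complex.norm_conj, he, mul_one]
  rw [h1]
  exact Complex.norm_le_abs_re_add_abs_im _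

lemma aux_I3_dir {f : ℂ → ℝ} {F : ℂ →L[ℝ] ℝ} {x₀ : ℂ} (hf : HasStrictFDerivAt f F x₀)
    (hF : F ≠ 0) : ∃ (e : ℂ) (r : ℝ), ‖e‖ = 1 ∧ 0 < r ∧
      ∀ x ∈ Metric.ball x₀ r, ∀ y ∈ Metric.ball x₀ r, f x = 0 → f y = 0 →
        |((x - y) * conj e).im| ≤ |((x - y) * conj e).re| := by
  set n : ℂ := ⟨F 1, F Complex.I⟩ with hn
  have hFn : ∀ z : ℂ, F z = (z * conj n).re := by
    intro z
    have hz : z = z.re • (1 : ℂ) + z.im • Complex.I := by
      apply Complex.ext <;> simp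
    conv_lhs => rw [hz]
    rw [map_add, map_smul, map_smul]
    simp [hn]
  have hn0 : n ≠ 0 := by
    intro h0
    apply hF
    refine ContinuousLinearMap.ext fun z => ?_
    rw [hFn, h0]; simp
  have hnn : 0 < ‖n‖ := norm_pos_iff.2 hn0
  have hnc : (‖n‖ : ℂ) ≠ 0 := by exact_mod_cast hnn.ne'
  set e : ℂ := -Complex.I * n / ‖n‖ with he
  have he1 : ‖e‖ = 1 := by
    rw [he, norm_div, norm_mul, norm_neg, Complex.norm_I, one_mul, Complex.norm_real,
      norm_norm, div_self hnn.ne']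
  have hce : ∀ w : ℂ, (w * conj e).im = F w / ‖n‖ := by
    intro w
    have h1 : w * conj e = Complex.I * (w * conj n) / ‖n‖ := by
      rw [he, map_div₀, map_mul, map_neg, Complex.conj_I, neg_neg, Complex.conj_ofReal]
      ring
    rw [h1, hFn, Complex.div_ofReal_im]
    congr 1
    simp
  have hev := (hf.isLittleO.def (c := ‖n‖ / 4) (by positivity))
  obtain ⟨r, hr, hrs⟩ := Metric.eventually_nhds_iff_ball.1 hev
  refine ⟨e, r, he1, hr, fun x hx y hy hfx hfy => ?_⟩
  have h1 := hrs (x, y) (by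
    rw [← ball_prod_same]
    exact ⟨hx, hy⟩)
  simp only [hfx, hfy, sub_zero, zero_sub, norm_neg] at h1
  have h2 : |((x - y) * conj e).im| ≤ ‖x - y‖ / 4 := by
    rw [hce, abs_div, abs_of_pos hnn, div_le_iff₀ hnn]
    have h3 : |F (x - y)| = ‖F (x - y)‖ := rfl
    rw [h3]
    linarith
  have h3 := aux_I3_norm (w := x - y) he1
  have h4 := abs_nonneg ((x - y) * conj e).re
  linarith

/-- TARGET: the critical points near a point where the Laplacian is not zero lie in a Lipschitz graph,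
and the function varies quadratically between them. -/
theorem cone {u : ℂ → ℝ} {x₀ : ℂ} (hu : ContDiffAt ℝ 2 u x₀) (hl : la u x₀ ≠ 0) :
    ∃ (e : ℂ) (r C : ℝ), ‖e‖ = 1 ∧ 0 < r ∧ 0 ≤ C ∧
      ∀ x ∈ Metric.ball x₀ r, ∀ y ∈ Metric.ball x₀ r, fderiv ℝ u x = 0 → fderiv ℝ u y = 0 →
        |((x - y) * conj e).im| ≤ |((x - y) * conj e).re| ∧ |u x - u y| ≤ C * ‖x - y‖ ^ 2 := by
  have hfd : ContDiffAt ℝ 1 (fderiv ℝ u) x₀ := hu.fderiv_right (by norm_num)
  have hdd : ∀ h : ℂ, ContDiffAt ℝ 1 (dd h u) x₀ := fun h => hfd.clm_apply contDiffAt_const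
  have hex : ∃ h : ℂ, dd h (dd h u) x₀ ≠ 0 := by
    by_contra hcon
    push Not at hcon
    apply hl
    unfold la
    rw [hcon, hcon, add_zero]
  obtain ⟨h, hh⟩ := hex
  have hstrict : HasStrictFDerivAt (dd h u) (fderiv ℝ (dd h u) x₀) x₀ :=
    (hdd h).hasStrictFDerivAt one_ne_zero
  have hne : fderiv ℝ (dd h u) x₀ ≠ 0 := by
    intro h0
    apply hh
    show fderiv ℝ (dd h u) x₀ h = 0
    rw [h0]
    rfl
  obtain ⟨e, r₁, he, hr₁, H⟩ := aux_I3_dir hstrict hne
  obtain ⟨K, t, ht, hK⟩ := hfd.exists_lipschitzOnWith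
  have hdiff : ∀ᶠ z in 𝓝 x₀, ContDiffAt ℝ 2 u z := hu.eventually (by simp)
  obtain ⟨r₂, hr₂, hr₂s⟩ := Metric.eventually_nhds_iff_ball.1 (hdiff.and ht)
  refine ⟨e, min r₁ r₂, K, he, lt_min hr₁ hr₂, K.2, fun x hx y hy hcx hcy => ⟨?_, ?_⟩⟩
  · refine H x (Metric.ball_subset_ball (min_le_left _ _) hx) y
      (Metric.ball_subset_ball (min_le_left _ _) hy) ?_ ?_
    · show fderiv ℝ u x h = 0
      rw [hcx]; rfl
    · show fderiv ℝ u y h = 0
      rw [hcy]; rfl
  · have hx2 := Metric.ball_subset_ball (min_le_right r₁ r₂) hx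
    have hy2 := Metric.ball_subset_ball (min_le_right r₁ r₂) hy
    have hconv : Convex ℝ (Metric.ball x₀ r₂ ∩ Metric.closedBall y ‖x - y‖) :=
      (convex_ball _ _).inter (convex_closedBall _ _)
    have hb : ∀ z ∈ Metric.ball x₀ r₂ ∩ Metric.closedBall y ‖x - y‖,
        ‖fderiv ℝ u z‖ ≤ K * ‖x - y‖ := by
      rintro z ⟨hz1, hz2⟩
      have h1 := hK.norm_sub_le (hr₂s z hz1).2 (hr₂s y hy2).2
      rw [hcy, sub_zero] at h1
      rw [Metric.mem_closedBall, dist_eq_norm] at hz2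
      exact h1.trans (mul_le_mul_of_nonneg_left hz2 K.2)
    have h2 := hconv.norm_image_sub_le_of_norm_fderiv_le (𝕜 := ℝ)
      (fun z hz => (hr₂s z hz.1).1.differentiableAt (by norm_num)) hb
      ⟨hy2, Metric.mem_closedBall_self (norm_nonneg _)⟩
      ⟨hx2, by rw [Metric.mem_closedBall, dist_eq_norm]⟩
    have h3 : |u x - u y| = ‖u x - u y‖ := rfl
    rw [h3]
    calc ‖u x - u y‖ ≤ K * ‖x - y‖ * ‖x - y‖ := h2
      _ = K * ‖x - y‖ ^ 2 := by ring

/-- TARGET: the function is constant along a curve of such critical points. -/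
theorem const_arc {u : ℂ → ℝ} {c : ℝ → ℂ} {a b C : ℝ} {e : ℂ} (hab : a ≤ b)
    (hc : ContinuousOn c (Icc a b)) (he : ‖e‖ = 1) (hC : 0 ≤ C)
    (h : ∀ s ∈ Icc a b, ∀ t ∈ Icc a b,
      |((c s - c t) * conj e).im| ≤ |((c s - c t) * conj e).re| ∧
        |u (c s) - u (c t)| ≤ C * ‖c s - c t‖ ^ 2) : u (c a) = u (c b) := by
  set σ : ℝ → ℝ := fun t => (c t * conj e).re with hσ
  have hσc : ContinuousOn σ (uIcc a b) := by
    rw [uIcc_of_le hab]
    exact Complex.continuous_re.comp_continuousOn (hc.mul continuousOn_const)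
  have key : ∀ s ∈ Icc a b, ∀ t ∈ Icc a b, |u (c s) - u (c t)| ≤ 4 * C * (σ s - σ t) ^ 2 := by
    intro s hs t ht
    obtain ⟨h1, h2⟩ := h s hs t ht
    have h3 := aux_I3_norm (w := c s - c t) he
    have h4 : ((c s - c t) * conj e).re = σ s - σ t := by
      simp only [hσ]
      rw [sub_mul, Complex.sub_re]
    rw [h4] at h1 h3
    have h5 : ‖c s - c t‖ ≤ 2 * |σ s - σ t| := by linarith
    calc |u (c s) - u (c t)| ≤ C * ‖c s - c t‖ ^ 2 := h2
      _ ≤ C * (2 * |σ s - σ t|) ^ 2 := by gcongr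
      _ = 4 * C * (σ s - σ t) ^ 2 := by rw [mul_pow, sq_abs]; ring
  have hivt := intermediate_value_uIcc hσc
  rw [uIcc_of_le hab] at hivt
  have main : ∀ N : ℕ, 0 < N → |u (c a) - u (c b)| ≤ 4 * C * (σ b - σ a) ^ 2 / N := by
    intro N hN
    have hN' : (0 : ℝ) < N := by exact_mod_cast hN
    have hex : ∀ k : ℕ, k ≤ N → ∃ t ∈ Icc a b, σ t = σ a + k * ((σ b - σ a) / N) := by
      intro k hk
      have hkN : (k : ℝ) ≤ N := by exact_mod_cast hk
      apply hivt
      rw [mem_uIcc]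
      have e1 : (N : ℝ) * ((σ b - σ a) / N) = σ b - σ a := by field_simp
      rcases le_total (σ a) (σ b) with h1 | h1
      · left
        have h2 : 0 ≤ (σ b - σ a) / N := div_nonneg (by linarith) hN'.le
        have h3 : (k : ℝ) * ((σ b - σ a) / N) ≤ N * ((σ b - σ a) / N) :=
          mul_le_mul_of_nonneg_right hkN h2
        have h4 : 0 ≤ (k : ℝ) * ((σ b - σ a) / N) := by positivity
        constructor <;> linarith
      · right
        have h2 : (σ b - σ a) / N ≤ 0 := div_nonpos_of_nonpos_of_nonneg (by linarith) hN'.le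
        have h3 : (N : ℝ) * ((σ b - σ a) / N) ≤ k * ((σ b - σ a) / N) :=
          mul_le_mul_of_nonpos_right hkN h2
        have h4 : (k : ℝ) * ((σ b - σ a) / N) ≤ 0 :=
          mul_nonpos_of_nonneg_of_nonpos (Nat.cast_nonneg k) h2
        constructor <;> linarith
    choose! t ht htσ using hex
    have hind : ∀ k : ℕ, k ≤ N → |u (c (t k)) - u (c a)| ≤ k * (4 * C * ((σ b - σ a) / N) ^ 2) := by
      intro k
      induction k with
      | zero =>
        intro hk
        have h1 := key (t 0) (ht 0 hk) a ⟨le_rfl, hab⟩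
        rw [htσ 0 hk] at h1
        simpa using h1
      | succ k ih =>
        intro hk
        have h1 := ih (by omega)
        have h2 := key (t (k + 1)) (ht _ hk) (t k) (ht _ (by omega))
        rw [htσ _ hk, htσ _ (by omega)] at h2
        have h3 : σ a + ((k + 1 : ℕ) : ℝ) * ((σ b - σ a) / N) - (σ a + k * ((σ b - σ a) / N)) =
            (σ b - σ a) / N := by
          push_cast; ring
        rw [h3] at h2
        have h4 : |u (c (t (k + 1))) - u (c a)| ≤
            |u (c (t (k + 1))) - u (c (t k))| + |u (c (t k)) - u (c a)| := abs_sub_le _ _ _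
        push_cast
        linarith
    have h1 := hind N le_rfl
    have h2 := key (t N) (ht N le_rfl) b ⟨hab, le_rfl⟩
    rw [htσ N le_rfl] at h2
    have h3 : σ a + (N : ℝ) * ((σ b - σ a) / N) - σ b = 0 := by field_simp; ring
    rw [h3] at h2
    have h4 : u (c (t N)) = u (c b) := by
      have : |u (c (t N)) - u (c b)| ≤ 0 := by simpa using h2
      exact sub_eq_zero.1 (abs_nonpos_iff.1 this)
    rw [h4, abs_sub_comm] at h1
    refine h1.trans (le_of_eq ?_)
    field_simp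
  by_contra hne
  have hpos : 0 < |u (c a) - u (c b)| := abs_pos.2 (sub_ne_zero.2 hne)
  obtain ⟨N, hN⟩ := exists_nat_gt (4 * C * (σ b - σ a) ^ 2 / |u (c a) - u (c b)|)
  have hN0 : (0 : ℝ) < ((N + 1 : ℕ) : ℝ) := by positivity
  have h1 := main (N + 1) (Nat.succ_pos N)
  rw [le_div_iff₀ hN0] at h1
  rw [div_lt_iff₀ hpos] at hN
  push_cast at h1
  nlinarith

end Pool.Agent.Helper327_Drum
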