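import Pool.Agent.R227.SA13
import Pool.Agent.Helper327_Drum.Fin.I1
import Pool.Agent.Helper327_Drum.Fin.I3

set_option autoImplicit false
open MeasureTheory Set Filter ComplexConjugate
open scoped Topology ContDiff

namespace Pool.Agent.Helper327_Drum

open Pool.Agent.TH298.Sch (X er dd SC)
open Pool.Agent.R227.SA

/-
`Wat D lam u` (R227.SA10): u is continuous on the plane, 0 off D, and near every point of D equal to a
smooth solution of the Helmholtz equation. `Wat.uc` (R227.SA13): unique continuation.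

Plain proof. Let U = {t : c t ∈ D}, an open subset of ℝ.
(1) If t0 ∈ U and u(c t0) ≠ 0 then u ∘ c is constant near t0: near c t0 u is smooth with la u = -lam u ≠ 0,
use `cone` at c t0 and `const_arc` on small intervals.
(2) If t0 ∈ U and u(c t0) = 0: c t0 is a zero and a critical point of u, u is not identically 0 near
c t0 (by `Wat.uc` and hne), so by `crit_isolated` there is a ball around c t0 in D in which c t0 is the only
critical point of u; but c t for t near t0 are critical points in this ball and are different from c t0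
(local injectivity): contradiction. Hence u(c t) ≠ 0 for all t ∈ U.
(3) So u ∘ c is locally constant and nonzero on the open set U. Suppose U is neither empty nor ℝ; then there are
t1 ∈ U and s ∉ U, say t1 < s (the other case is symmetric); let b = inf {s ≥ t1 : s ∉ U}; [t1, b) ⊆ U, b ∉ U.
u ∘ c is constant ≠ 0 on the interval [t1, b) and continuous, so u(c b) ≠ 0, but c b ∉ D gives u(c b) = 0.
(4) If U = ℝ, u ∘ c is locally constant on ℝ, hence constant.
-/

section i4

variable {D : Set ℂ} {lam : ℝ} {u : ℂ → ℝ}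

/-- local data at a point of the domain -/
theorem i4_loc (hu : Wat D lam u) {x₀ : ℂ} (hx : x₀ ∈ D) : ∃ r > 0, ∃ W : ℂ → ℝ, SC W ∧
    Metric.ball x₀ r ⊆ D ∧ (∀ x ∈ Metric.ball x₀ r, la W x = -(lam * W x)) ∧
    ∀ x ∈ Metric.ball x₀ r, u =ᶠ[𝓝 x] W := by
  obtain ⟨r, hr, W, hW, hb, h⟩ := hu.loc x₀ hx
  refine ⟨r, hr, W, hW, hb, fun x hx => (h x hx).2, fun x hx => ?_⟩
  filter_upwards [Metric.isOpen_ball.mem_nhds hx] with y hy
  exact (h y hy).1

theorem i4_dd {f g : ℂ → ℝ} {x : ℂ} (h : f =ᶠ[𝓝 x] g) (v : ℂ) : dd v f =ᶠ[𝓝 x] dd v g := by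
  filter_upwards [h.eventually_nhds] with y hy
  unfold dd
  rw [(show f =ᶠ[𝓝 y] g from hy).fderiv_eq]

theorem i4_la {f g : ℂ → ℝ} {x : ℂ} (h : f =ᶠ[𝓝 x] g) : la f x = la g x := by
  unfold la
  rw [(i4_dd (i4_dd h 1) 1).self_of_nhds,
    (i4_dd (i4_dd h Complex.I) Complex.I).self_of_nhds]

/-- the value at a critical point of the curve is not zero -/
theorem i4_ne (hDc : IsPreconnected D) (hlam : 0 < lam) (hu : Wat D lam u)
    (hne : ∃ x, u x ≠ 0) {c : ℝ → ℂ} (hc : Continuous c)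
    (hinj : ∀ t, ∃ ε > 0, InjOn c (Ioo (t - ε) (t + ε)))
    (hcr : ∀ t, c t ∈ D → fderiv ℝ u (c t) = 0) {t₀ : ℝ} (ht₀ : c t₀ ∈ D) : u (c t₀) ≠ 0 := by
  intro h0
  obtain ⟨r, hr, W, hW, hb, hl, he⟩ := i4_loc hu ht₀
  have hx₀ : c t₀ ∈ Metric.ball (c t₀) r := Metric.mem_ball_self hr
  have hW0 : W (c t₀) = 0 := by rw [← (he _ hx₀).self_of_nhds]; exact h0
  have hW1 : fderiv ℝ W (c t₀) = 0 := by rw [← (he _ hx₀).fderiv_eq]; exact hcr t₀ ht₀
  have hWne : ¬ (W =ᶠ[𝓝 (c t₀)] 0) := by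
    intro h
    obtain ⟨x, hx⟩ := hne
    exact hx (hu.uc hlam hDc ht₀ ((he _ hx₀).trans h) x)
  obtain ⟨δ, hδ, hcrit⟩ := crit_isolated hW hlam hr hl hW0 hW1 hWne
  obtain ⟨ε, hε, hi⟩ := hinj t₀
  obtain ⟨η, hη, hcη⟩ := Metric.continuous_iff.1 hc t₀ (min δ r) (lt_min hδ hr)
  set t : ℝ := t₀ + min η ε / 2 with ht
  have hm : 0 < min η ε := lt_min hη hε
  have h1 : dist t t₀ < η := by
    rw [Real.dist_eq, ht, add_sub_cancel_left, abs_of_pos (by linarith)]
    linarith [min_le_left η ε]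
  have h2 := hcη t h1
  have h3 : c t ≠ c t₀ := by
    intro h
    have hε' := min_le_right η ε
    have := hi (show t ∈ Ioo (t₀ - ε) (t₀ + ε) from ⟨by linarith, by linarith⟩)
      (show t₀ ∈ Ioo (t₀ - ε) (t₀ + ε) from ⟨by linarith, by linarith⟩) h
    linarith
  have h4 : c t ∈ Metric.ball (c t₀) r := h2.trans_le (min_le_right _ _)
  have h5 : c t ∈ Metric.ball (c t₀) δ := h2.trans_le (min_le_left _ _)
  apply hcrit (c t) h5 h3
  rw [← (he _ h4).fderiv_eq]
  exact hcr t (hb h4)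

/-- the eigenfunction is locally constant along the curve -/
theorem i4_const (hlam : 0 < lam) (hu : Wat D lam u) {c : ℝ → ℂ} (hc : Continuous c)
    (hcr : ∀ t, c t ∈ D → fderiv ℝ u (c t) = 0) {t₀ : ℝ} (ht₀ : c t₀ ∈ D) (h0 : u (c t₀) ≠ 0) :
    ∀ᶠ t in 𝓝 t₀, u (c t) = u (c t₀) := by
  obtain ⟨r, hr, W, hW, hb, hl, he⟩ := i4_loc hu ht₀
  have hx₀ : c t₀ ∈ Metric.ball (c t₀) r := Metric.mem_ball_self hr
  have hcd : ContDiffAt ℝ 2 u (c t₀) :=
    ((contDiff_infty.1 hW.sm 2).contDiffAt).congr_of_eventuallyEq (he _ hx₀)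
  have hla : la u (c t₀) ≠ 0 := by
    rw [i4_la (he _ hx₀), hl _ hx₀, ← (he _ hx₀).self_of_nhds]
    exact neg_ne_zero.2 (mul_ne_zero hlam.ne' h0)
  obtain ⟨e, r', C, he1, hr', hC, hcone⟩ := cone hcd hla
  obtain ⟨η, hη, hcη⟩ := Metric.continuous_iff.1 hc t₀ (min r r') (lt_min hr hr')
  have harc : ∀ a b : ℝ, a ≤ b → |a - t₀| < η → |b - t₀| < η → u (c a) = u (c b) := by
    intro a b hab ha hb'
    refine const_arc (e := e) (C := C) hab hc.continuousOn he1 hC fun s hs t ht => ?_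
    have hI : ∀ s ∈ Icc a b, c s ∈ Metric.ball (c t₀) (min r r') := by
      intro s hs
      apply hcη
      rw [Real.dist_eq, abs_lt]
      rw [abs_lt] at ha hb'
      exact ⟨by linarith [hs.1], by linarith [hs.2]⟩
    have hs1 : c s ∈ Metric.ball (c t₀) r := Metric.ball_subset_ball (min_le_left _ _) (hI s hs)
    have ht1 : c t ∈ Metric.ball (c t₀) r := Metric.ball_subset_ball (min_le_left _ _) (hI t ht)
    exact hcone (c s) (Metric.ball_subset_ball (min_le_right _ _) (hI s hs)) (c t)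
      (Metric.ball_subset_ball (min_le_right _ _) (hI t ht)) (hcr s (hb hs1)) (hcr t (hb ht1))
  filter_upwards [Metric.ball_mem_nhds t₀ hη] with t ht
  rw [Metric.mem_ball, Real.dist_eq] at ht
  rcases le_total t t₀ with h | h
  · exact harc t t₀ h ht (by simpa using hη)
  · exact (harc t₀ t h (by simpa using hη) ht).symm

end i4

/-- TARGET: an eigenfunction is constant, with a nonzero value, along a curve of critical points; the
curve does not touch the boundary. -/
theorem const_on_curve {D : Set ℂ} (hD : IsOpen D) (hDc : IsPreconnected D) {lam : ℝ}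
    (hlam : 0 < lam) {u : ℂ → ℝ} (hu : Wat D lam u) (hne : ∃ x, u x ≠ 0) {c : ℝ → ℂ}
    (hc : Continuous c) (hinj : ∀ t, ∃ ε > 0, InjOn c (Ioo (t - ε) (t + ε)))
    (hcr : ∀ t, c t ∈ D → fderiv ℝ u (c t) = 0) :
    (∀ t, c t ∉ D) ∨ ((∀ t, c t ∈ D ∧ u (c t) = u (c 0)) ∧ u (c 0) ≠ 0) := by
  by_cases hall : ∀ t, c t ∉ D
  · exact Or.inl hall
  right
  push Not at hall
  obtain ⟨t₁, ht₁⟩ := hall
  have h1 : u (c t₁) ≠ 0 := i4_ne hDc hlam hu hne hc hinj hcr ht₁
  have hmem : ∀ t, u (c t) = u (c t₁) → c t ∈ D := by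
    intro t ht
    by_contra hD'
    exact h1 (by rw [← ht, hu.out _ hD'])
  have hclosed : IsClosed {t | u (c t) = u (c t₁)} :=
    isClosed_eq (hu.cont.comp hc) continuous_const
  have hopen : IsOpen {t | u (c t) = u (c t₁)} := by
    rw [isOpen_iff_mem_nhds]
    intro t ht
    have ht' : u (c t) = u (c t₁) := ht
    filter_upwards [i4_const hlam hu hc hcr (hmem t ht') (by rw [ht']; exact h1)] with s hs
    show u (c s) = u (c t₁)
    rw [hs, ht']
  have huniv : {t | u (c t) = u (c t₁)} = univ :=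
    IsClopen.eq_univ ⟨hclosed, hopen⟩ ⟨t₁, rfl⟩
  have hval : ∀ t, u (c t) = u (c t₁) := fun t => by
    have : t ∈ {t | u (c t) = u (c t₁)} := huniv ▸ mem_univ t
    exact this
  exact ⟨fun t => ⟨hmem t (hval t), by rw [hval t, hval 0]⟩, by rw [hval 0]; exact h1⟩

end Pool.Agent.Helper327_Drum
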