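import Pool.Agent.R227.SA8

set_option autoImplicit false
open MeasureTheory Set Filter
open scoped Topology ContDiff

namespace Pool.Agent.Helper327_Drum

open Pool.Agent.TH298.Sch (X er dd SC)
open Pool.Agent.R227.SA Pool.Agent.R227.LP

open Pool.Agent.TH298.Sch in
/-- mollification is uniformly close -/
lemma rep2_close {g : ℂ → ℝ} (hg : Continuous g) (hc : HasCompactSupport g) {δ : ℝ} (hδ : 0 < δ) :
    ∃ ε > 0, ∀ (ε' : ℝ) (ρ : ℂ → ℝ), ε' ≤ ε → Mol ε' ρ → ∀ x, |Mo ρ g x - g x| ≤ δ := by
  have hu : UniformContinuous g := hc.uniformContinuous_of_continuous hg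
  obtain ⟨ε, hε, hu⟩ := Metric.uniformContinuous_iff.1 hu δ hδ
  refine ⟨ε, hε, fun ε' ρ hε' h x => ?_⟩
  have hr := refl_sc h.sc x
  have i1 : Integrable (fun y => g y * ρ (x - y)) :=
    (hg.mul hr.cont).integrable_of_hasCompactSupport hc.mul_right
  have i2 : Integrable (fun y => g x * ρ (x - y)) := hr.int.const_mul _
  have e1 : Mo ρ g x - g x = ∫ y, (g y - g x) * ρ (x - y) := by
    have e2 : g x = ∫ y, g x * ρ (x - y) := by
      rw [integral_const_mul, refl_int h, mul_one]
    have e3 : (fun y => (g y - g x) * ρ (x - y)) = fun y => g y * ρ (x - y) - g x * ρ (x - y) := by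
      funext y; ring
    rw [e3, integral_sub i1 i2, ← e2]
    rfl
  rw [e1]
  have i3 : Integrable (fun y => (g y - g x) * ρ (x - y)) := by
    have e3 : (fun y => (g y - g x) * ρ (x - y)) = fun y => g y * ρ (x - y) - g x * ρ (x - y) := by
      funext y; ring
    rw [e3]
    exact i1.sub i2
  calc |∫ y, (g y - g x) * ρ (x - y)| ≤ ∫ y, |(g y - g x) * ρ (x - y)| :=
        abs_integral_le_integral_abs
    _ ≤ ∫ y, δ * ρ (x - y) := by
        refine integral_mono i3.abs (hr.int.const_mul _) fun y => ?_
        simp only []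
        rw [abs_mul, abs_of_nonneg (h.nn _)]
        by_cases hxy : ε' ≤ ‖x - y‖
        · rw [h.out _ hxy, mul_zero, mul_zero]
        · refine mul_le_mul_of_nonneg_right ?_ (h.nn _)
          have h1 : dist y x < ε := by
            rw [dist_comm, dist_eq_norm]
            linarith [not_le.1 hxy]
          have h2 := hu h1
          rw [Real.dist_eq] at h2
          exact h2.le
    _ = δ := by rw [integral_const_mul, refl_int h, mul_one]

open Pool.Agent.TH298.Sch in
/-- the support of the mollification -/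
lemma rep2_supp {g : ℂ → ℝ} {R ε : ℝ} (hR : ∀ y, R ≤ ‖y‖ → g y = 0) (hε : ε ≤ 1) {ρ : ℂ → ℝ}
    (h : Mol ε ρ) {y : ℂ} (hy : R + 1 ≤ ‖y‖) : Mo ρ g y = 0 := by
  unfold Mo
  have : ∀ z, g z * ρ (y - z) = 0 := by
    intro z
    by_cases hz : R ≤ ‖z‖
    · rw [hR z hz, zero_mul]
    · rw [h.out (y - z) ?_, mul_zero]
      have := norm_sub_norm_le y z
      linarith [not_le.1 hz]
  simp [this]

open Pool.Agent.TH298.Sch in
/-- derivatives of mollifications of `C¹` functions -/
lemma rep2_dd {g : ℂ → ℝ} (hg : ContDiff ℝ 1 g) (hc : HasCompactSupport g) {ε : ℝ} {ρ : ℂ → ℝ}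
    (h : Mol ε ρ) (v x : ℂ) : dd v (Mo ρ g) x = Mo ρ (dd v g) x := by
  rw [dd_Mo h (hg.continuous.integrable_of_hasCompactSupport hc)]
  unfold Mo
  have hr := refl_sc h.sc x
  have hrd : SC (fun y => fderiv ℝ (fun y => ρ (x - y)) y v) := dd_sc hr v
  have hdg : Continuous (dd v g) := (hg.continuous_fderiv (by simp)).clm_apply continuous_const
  have hdc : HasCompactSupport (dd v g) :=
    (hc.fderiv ℝ).comp_left (g := fun T : ℂ →L[ℝ] ℝ => T v) (by simp)
  have j1 : Integrable (fun y => fderiv ℝ g y v * ρ (x - y)) :=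
    (hdg.mul hr.cont).integrable_of_hasCompactSupport hdc.mul_right
  have j2 : Integrable (fun y => g y * fderiv ℝ (fun y => ρ (x - y)) y v) :=
    (hg.continuous.mul hrd.cont).integrable_of_hasCompactSupport hc.mul_right
  have j3 : Integrable (fun y => g y * ρ (x - y)) :=
    (hg.continuous.mul hr.cont).integrable_of_hasCompactSupport hc.mul_right
  have := integral_mul_fderiv_eq_neg_fderiv_mul_of_integrable (f := g) (g := fun y => ρ (x - y))
    (v := v) (μ := volume) j1 j2 j3 (fun y _ => hg.differentiable (by simp) y)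
    (fun y _ => hr.diff y)
  simp only [dd_refl h.sc] at this
  have e : ∫ y, g y * -dd v ρ (x - y) = -∫ y, g y * dd v ρ (x - y) := by
    rw [← integral_neg]
    refine integral_congr_ae (Eventually.of_forall fun y => ?_)
    simp only [mul_neg]
  rw [e] at this
  exact neg_injective this

lemma rep2_radius {g : ℂ → ℝ} (hc : HasCompactSupport g) : ∃ R : ℝ, ∀ y, R ≤ ‖y‖ → g y = 0 := by
  obtain ⟨R, hR⟩ := hc.isCompact.isBounded.exists_norm_le
  refine ⟨R + 1, fun y hy => ?_⟩
  apply image_eq_zero_of_notMem_tsupport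
  intro h
  have := hR y h
  linarith

open Pool.Agent.TH298.Sch in
/-- TARGET: the representation formula for C² functions with compact support. -/
theorem rep2 {f : ℂ → ℝ} (hf : ContDiff ℝ 2 f) (hc : HasCompactSupport f) (x : ℂ) :
    ∫ y, lk x y * -(la f y) = 2 * Real.pi * f x := by
  have hpi := Real.pi_pos
  have cdd : ∀ v, ContDiff ℝ 1 (dd v f) := fun v =>
    (hf.fderiv_right (m := 1) (by norm_num)).clm_apply contDiff_const
  have csd : ∀ (g : ℂ → ℝ) (v : ℂ), HasCompactSupport g → HasCompactSupport (dd v g) :=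
    fun g v hg => (hg.fderiv ℝ).comp_left (g := fun T : ℂ →L[ℝ] ℝ => T v) (by simp)
  have cont2 : ∀ v, Continuous (dd v (dd v f)) := fun v =>
    ((cdd v).continuous_fderiv (by simp)).clm_apply continuous_const
  have cs2 : ∀ v, HasCompactSupport (dd v (dd v f)) := fun v => csd _ v (csd _ v hc)
  obtain ⟨R1, hR1⟩ := rep2_radius (cs2 1)
  obtain ⟨R2, hR2⟩ := rep2_radius (cs2 Complex.I)
  set R := max (max R1 R2) 0 + 1 with hRdef
  have hR : 0 < R := by have := le_max_right (max R1 R2) 0; linarith
  have hRR1 : R1 + 1 ≤ R := by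
    have := le_max_left (max R1 R2) 0
    have := le_max_left R1 R2
    linarith
  have hRR2 : R2 + 1 ≤ R := by
    have := le_max_left (max R1 R2) 0
    have := le_max_right R1 R2
    linarith
  set χ : ℂ → ℝ := (Metric.ball (0 : ℂ) R).indicator fun _ => 1 with hχ
  have hχn : Nice R χ := by
    refine ⟨memLp_indicator_const 2 measurableSet_ball 1 (Or.inr measure_ball_lt_top.ne), ?_⟩
    intro y hy
    rw [hχ, indicator_of_notMem]
    rw [mem_ball_zero_iff]
    linarith
  have hχi := (hχn.int hR x).abs
  set C := ∫ y, |lk x y * χ y| with hC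
  have hC0 : 0 ≤ C := integral_nonneg fun y => abs_nonneg _
  have laf_nice : Nice R (la f) := by
    have c : Continuous (la f) := (cont2 1).add (cont2 Complex.I)
    have s : HasCompactSupport (la f) := (cs2 1).add (cs2 Complex.I)
    refine ⟨c.memLp_of_hasCompactSupport s, fun y hy => ?_⟩
    unfold la
    rw [hR1 y (by linarith), hR2 y (by linarith), add_zero]
  have key : ∀ δ > 0, |(∫ y, lk x y * -(la f y)) - 2 * Real.pi * f x| ≤ δ * (2 * C + 2 * Real.pi) := by
    intro δ hδ
    obtain ⟨ε0, hε0, h0⟩ := rep2_close hf.continuous hc hδ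
    obtain ⟨ε1, hε1, h1⟩ := rep2_close (cont2 1) (cs2 1) hδ
    obtain ⟨ε2, hε2, h2⟩ := rep2_close (cont2 Complex.I) (cs2 Complex.I) hδ
    set ε := min (min ε0 1) (min ε1 ε2) with hε
    have hεp : 0 < ε := by positivity
    obtain ⟨ρ, hρ⟩ := exists_mol hεp
    have l0 : ε ≤ ε0 := (min_le_left _ _).trans (min_le_left _ _)
    have l1 : ε ≤ 1 := (min_le_left _ _).trans (min_le_right _ _)
    have l2 : ε ≤ ε1 := (min_le_right _ _).trans (min_le_left _ _)
    have l3 : ε ≤ ε2 := (min_le_right _ _).trans (min_le_right _ _)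
    have hsc : SC (Mo ρ f) := Mo_sc hρ (hf.continuous.integrable_of_hasCompactSupport hc) hc
    have hla : ∀ y, la (Mo ρ f) y = Mo ρ (dd 1 (dd 1 f)) y + Mo ρ (dd Complex.I (dd Complex.I f)) y := by
      intro y
      unfold la
      have e : ∀ v, dd v (Mo ρ f) = Mo ρ (dd v f) := fun v =>
        funext fun z => rep2_dd (hf.of_le (by norm_num)) hc hρ v z
      rw [e, e, rep2_dd (cdd 1) (csd _ _ hc) hρ, rep2_dd (cdd Complex.I) (csd _ _ hc) hρ]
    have hnice : Nice R (la (Mo ρ f)) := by
      refine ⟨(la_sc hsc).cont.memLp_of_hasCompactSupport (la_sc hsc).cs, fun y hy => ?_⟩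
      rw [hla, rep2_supp hR1 l1 hρ (by linarith), rep2_supp hR2 l1 hρ (by linarith), add_zero]
    have hrep := rep hsc x
    have j1 := laf_nice.int hR x
    have j2 := hnice.int hR x
    have e1 : (∫ y, lk x y * -(la f y)) - 2 * Real.pi * f x =
        (∫ y, lk x y * (la (Mo ρ f) y - la f y)) + 2 * Real.pi * (Mo ρ f x - f x) := by
      have e2 : (fun y => lk x y * (la (Mo ρ f) y - la f y)) =
          fun y => lk x y * la (Mo ρ f) y - lk x y * la f y := by funext y; ring
      have e3 : ∀ g : ℂ → ℝ, ∫ y, lk x y * -(g y) = -∫ y, lk x y * g y := by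
        intro g
        rw [← integral_neg]
        refine integral_congr_ae (Eventually.of_forall fun y => ?_)
        simp only [mul_neg]
      rw [e3] at hrep
      rw [e2, integral_sub j2 j1, e3]
      linarith
    rw [e1]
    have hD : ∀ y, |la (Mo ρ f) y - la f y| ≤ 2 * δ := by
      intro y
      rw [hla]
      unfold la
      have a1 := h1 ε ρ l2 hρ y
      have a2 := h2 ε ρ l3 hρ y
      rw [abs_le] at a1 a2 ⊢
      constructor <;> linarith [a1.1, a1.2, a2.1, a2.2]
    have hint : |∫ y, lk x y * (la (Mo ρ f) y - la f y)| ≤ 2 * δ * C := by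
      calc |∫ y, lk x y * (la (Mo ρ f) y - la f y)|
          ≤ ∫ y, |lk x y * (la (Mo ρ f) y - la f y)| := abs_integral_le_integral_abs
        _ ≤ ∫ y, 2 * δ * |lk x y * χ y| := by
            refine integral_mono ?_ (hχi.const_mul _) fun y => ?_
            · have e2 : (fun y => lk x y * (la (Mo ρ f) y - la f y)) =
                  fun y => lk x y * la (Mo ρ f) y - lk x y * la f y := by funext y; ring
              have : Integrable (fun y => lk x y * (la (Mo ρ f) y - la f y)) := by
                rw [e2]; exact j2.sub j1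
              exact this.abs
            · simp only []
              by_cases hy : R ≤ ‖y‖
              · rw [hnice.van y hy, laf_nice.van y hy, sub_zero, mul_zero, abs_zero]
                positivity
              · have : χ y = 1 := by
                  rw [hχ, indicator_of_mem]
                  rw [mem_ball_zero_iff]
                  exact not_le.1 hy
                rw [this, mul_one, abs_mul, mul_comm]
                exact mul_le_mul_of_nonneg_right (hD y) (abs_nonneg _)
        _ = 2 * δ * C := integral_const_mul _ _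
    have h3 := h0 ε ρ l0 hρ x
    calc |(∫ y, lk x y * (la (Mo ρ f) y - la f y)) + 2 * Real.pi * (Mo ρ f x - f x)|
        ≤ |∫ y, lk x y * (la (Mo ρ f) y - la f y)| + |2 * Real.pi * (Mo ρ f x - f x)| :=
          abs_add_le _ _
      _ ≤ 2 * δ * C + 2 * Real.pi * δ := by
          refine add_le_add hint ?_
          rw [abs_mul, abs_of_pos (by positivity : (0 : ℝ) < 2 * Real.pi)]
          exact mul_le_mul_of_nonneg_left h3 (by positivity)
      _ = δ * (2 * C + 2 * Real.pi) := by ring
  have hz : |(∫ y, lk x y * -(la f y)) - 2 * Real.pi * f x| = 0 := by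
    by_contra hne
    have hpos : 0 < |(∫ y, lk x y * -(la f y)) - 2 * Real.pi * f x| :=
      lt_of_le_of_ne (abs_nonneg _) (Ne.symm hne)
    set A := |(∫ y, lk x y * -(la f y)) - 2 * Real.pi * f x| with hA
    have hK : 0 < 2 * C + 2 * Real.pi := by positivity
    have := key (A / (2 * (2 * C + 2 * Real.pi))) (by positivity)
    have e : A / (2 * (2 * C + 2 * Real.pi)) * (2 * C + 2 * Real.pi) = A / 2 := by
      field_simp
    rw [e] at this
    linarith
  linarith [abs_eq_zero.1 hz]

end Pool.Agent.Helper327_Drum
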