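import Pool.Agent.R227.SA8
import Pool.Agent.Helper327_Drum.Fin.B1

set_option autoImplicit false
open MeasureTheory Set Filter
open scoped Topology ContDiff

namespace Pool.Agent.Helper327_Drum

open Pool.Agent.TH298.Sch (X er dd SC)
open Pool.Agent.R227.SA Pool.Agent.R227.LP

/-
Here `la f = dd 1 (dd 1 f) + dd I (dd I f)` is the Laplacian, `dd h f x = fderiv ℝ f x h`,
`lk x y = -log ‖x - y‖`; `lk_memLp` (R227) says that lk x · is square integrable on balls.

Plain proof. D lies in a disc of diameter L, say |x - y| ≤ L for x, y ∈ D (L ≥ 1). Let f be as in the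
statement, M = max f, and suppose M > 0 (else nothing to prove for the upper bound); it is attained
at some x* ∈ D since f is continuous and vanishes off the bounded set D. Fix 0 < ε < M. Put
F(s) = max(s - ε, 0)^3, a C² function, convex, nondecreasing, F'' ≥ 0, and w = F ∘ f. Since f is
continuous and 0 off D, w vanishes off the compact set {f ≥ ε} ⊆ D, so w is C² on the plane with
compact support inside D, and la w = F'(f) la f + F''(f) |∇f|² ≥ - F'(f) |la f| on D, and la w = 0 off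
{f ≥ ε}. By `rep2`, 2π w(x*) = ∫ lk x* y * -(la w y) dy. Also ∫ la w = 0 (`w` is C² with compact
support), so 2π w(x*) = ∫ (lk x* y + log L) * -(la w y) dy with lk x* y + log L = log (L/|x* - y|) ≥ 0
on D, hence 2π (M - ε)³ ≤ ∫_D log(L/|x* - y|) F'(f) |la f| ≤ 3 (M - ε)² ∫_D log (L/|x*-y|) |la f|
(F'(s) = 3 max(s - ε,0)² ≤ 3 (M-ε)²). Divide by (M-ε)², use Cauchy-Schwarz and let ε → 0:
M ≤ (3/2π) (∫_{|y| ≤ L} log²(L/|y|) dy)^{1/2} (∫_D (la f)²)^{1/2}. Apply this to -f as well.
-/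

section SupEst

lemma mx_deriv (n : ℕ) (s : ℝ) :
    HasDerivAt (fun s : ℝ => (max s 0) ^ (n + 2)) ((n + 2 : ℝ) * (max s 0) ^ (n + 1)) s := by
  rcases lt_trichotomy s 0 with h | h | h
  · have e : (fun s : ℝ => (max s 0) ^ (n + 2)) =ᶠ[𝓝 s] fun _ => 0 := by
      filter_upwards [Iio_mem_nhds h] with t ht
      rw [max_eq_right (le_of_lt ht), zero_pow (by omega)]
    rw [max_eq_right h.le, zero_pow (by omega), mul_zero]
    exact (hasDerivAt_const s (0:ℝ)).congr_of_eventuallyEq e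
  · subst h
    have h1 : HasDerivWithinAt (fun s : ℝ => (max s 0) ^ (n + 2)) 0 (Iic 0) 0 := by
      refine (hasDerivWithinAt_const (0:ℝ) (Iic 0) (0:ℝ)).congr (fun t ht => ?_) ?_
      · rw [max_eq_right ht, zero_pow (by omega)]
      · rw [max_self, zero_pow (by omega)]
    have h2 : HasDerivWithinAt (fun s : ℝ => (max s 0) ^ (n + 2)) 0 (Ici 0) 0 := by
      have h3 := (hasDerivAt_pow (n + 2) (0:ℝ)).hasDerivWithinAt (s := Ici 0)
      rw [show (n + 2 - 1) = n + 1 by omega, zero_pow (by omega), mul_zero] at h3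
      refine h3.congr (fun t ht => ?_) ?_
      · rw [max_eq_left ht]
      · rw [max_self]
    have h4 := h1.union h2
    rw [Iic_union_Ici, hasDerivWithinAt_univ] at h4
    rw [max_self, zero_pow (by omega), mul_zero]
    exact h4
  · have e : (fun s : ℝ => (max s 0) ^ (n + 2)) =ᶠ[𝓝 s] fun t => t ^ (n + 2) := by
      filter_upwards [Ioi_mem_nhds h] with t ht
      rw [max_eq_left (le_of_lt ht)]
    have h3 := hasDerivAt_pow (n + 2) s
    rw [show (n + 2 - 1) = n + 1 by omega] at h3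
    rw [max_eq_left h.le]
    push_cast at h3
    exact h3.congr_of_eventuallyEq e

/-- the truncated cube and its derivatives -/
noncomputable def F0 (ε s : ℝ) : ℝ := (max (s - ε) 0) ^ 3
noncomputable def F1 (ε s : ℝ) : ℝ := 3 * (max (s - ε) 0) ^ 2
noncomputable def F2 (ε s : ℝ) : ℝ := 6 * max (s - ε) 0

lemma F0_deriv (ε s : ℝ) : HasDerivAt (F0 ε) (F1 ε s) s := by
  have h := (mx_deriv 1 (s - ε)).comp s ((hasDerivAt_id s).sub_const ε)
  refine h.congr_deriv ?_
  unfold F1
  norm_num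

lemma F1_deriv (ε s : ℝ) : HasDerivAt (F1 ε) (F2 ε s) s := by
  have h := ((mx_deriv 0 (s - ε)).comp s ((hasDerivAt_id s).sub_const ε)).const_mul 3
  refine h.congr_deriv ?_
  unfold F2
  norm_num
  ring

lemma F2_cont (ε : ℝ) : Continuous (F2 ε) := by
  unfold F2
  fun_prop

lemma F1_contDiff (ε : ℝ) : ContDiff ℝ 1 (F1 ε) := by
  rw [contDiff_one_iff_deriv]
  refine ⟨fun s => (F1_deriv ε s).differentiableAt, ?_⟩
  have : deriv (F1 ε) = F2 ε := funext fun s => (F1_deriv ε s).deriv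
  rw [this]
  exact F2_cont ε

lemma F0_contDiff (ε : ℝ) : ContDiff ℝ 2 (F0 ε) := by
  have h2 : (2 : WithTop ℕ∞) = 1 + 1 := by norm_num
  rw [h2, contDiff_succ_iff_deriv]
  refine ⟨fun s => (F0_deriv ε s).differentiableAt, fun h => by simp at h, ?_⟩
  have : deriv (F0 ε) = F1 ε := funext fun s => (F0_deriv ε s).deriv
  rw [this]
  exact F1_contDiff ε

variable {D : Set ℂ} {f : ℂ → ℝ}

/-- the class of functions of the statement -/
structure Cls (D : Set ℂ) (f : ℂ → ℝ) : Prop where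
  cont : Continuous f
  zero : ∀ x, x ∉ D → f x = 0
  c2 : ContDiffOn ℝ 2 f D
  bdd : ∃ M, ∀ x ∈ D, |la f x| ≤ M

lemma Cls.at (h : Cls D f) (hDo : IsOpen D) {x : ℂ} (hx : x ∈ D) : ContDiffAt ℝ 2 f x :=
  (h.c2 x hx).contDiffAt (hDo.mem_nhds hx)

lemma la_neg (f : ℂ → ℝ) (x : ℂ) : la (fun x => -f x) x = -la f x := by
  have e : ∀ (g : ℂ → ℝ) (v : ℂ), dd v (fun x => -g x) = fun x => -dd v g x := by
    intro g v
    funext y
    unfold dd
    rw [fderiv_fun_neg]
    rfl
  unfold la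
  rw [e, e, e, e]
  ring

lemma Cls.neg (h : Cls D f) : Cls D (fun x => -f x) := by
  obtain ⟨M, hM⟩ := h.bdd
  refine ⟨h.cont.neg, fun x hx => by rw [h.zero x hx, neg_zero], h.c2.neg, M, fun x hx => ?_⟩
  rw [la_neg, abs_neg]
  exact hM x hx

lemma dd_c1 {x : ℂ} (h : ContDiffAt ℝ 2 f x) (v : ℂ) : ContDiffAt ℝ 1 (dd v f) x := by
  have h1 : ContDiffAt ℝ 1 (fderiv ℝ f) x := h.fderiv_right (by norm_num)
  exact h1.clm_apply contDiffAt_const

lemma dd_c0 {g : ℂ → ℝ} {x : ℂ} (h : ContDiffAt ℝ 1 g x) (v : ℂ) : ContinuousAt (dd v g) x := by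
  have h1 : ContDiffAt ℝ 0 (fderiv ℝ g) x := h.fderiv_right (by norm_num)
  exact (h1.clm_apply contDiffAt_const).continuousAt

lemma la_contAt {x : ℂ} (h : ContDiffAt ℝ 2 f x) : ContinuousAt (la f) x :=
  (dd_c0 (dd_c1 h 1) 1).add (dd_c0 (dd_c1 h Complex.I) Complex.I)

lemma w_loc (h : Cls D f) {ε : ℝ} (hε : 0 < ε) {x : ℂ} (hx : x ∉ D) :
    (fun x => F0 ε (f x)) =ᶠ[𝓝 x] fun _ => 0 := by
  have h1 : ∀ᶠ y in 𝓝 x, f y < ε :=
    h.cont.continuousAt.eventually_lt continuousAt_const (by rw [h.zero x hx]; exact hε)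
  filter_upwards [h1] with y hy
  unfold F0
  rw [max_eq_right (by linarith), zero_pow (by norm_num)]

lemma w_c2 (h : Cls D f) (hDo : IsOpen D) {ε : ℝ} (hε : 0 < ε) :
    ContDiff ℝ 2 (fun x => F0 ε (f x)) := by
  rw [contDiff_iff_contDiffAt]
  intro x
  by_cases hx : x ∈ D
  · exact (F0_contDiff ε).contDiffAt.comp x (h.at hDo hx)
  · exact contDiffAt_const.congr_of_eventuallyEq (w_loc h hε hx)

lemma w_zero (h : Cls D f) {ε : ℝ} (hε : 0 < ε) {x : ℂ} (hx : x ∉ D) : F0 ε (f x) = 0 :=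
  (w_loc h hε hx).self_of_nhds

lemma w_cs (h : Cls D f) (hDb : Bornology.IsBounded D) {ε : ℝ} (hε : 0 < ε) :
    HasCompactSupport (fun x => F0 ε (f x)) := by
  refine HasCompactSupport.intro (K := closure D) hDb.isCompact_closure fun x hx => ?_
  exact w_zero h hε fun h' => hx (subset_closure h')

lemma la_w_zero (h : Cls D f) {ε : ℝ} (hε : 0 < ε) {x : ℂ} (hx : x ∉ D) :
    la (fun x => F0 ε (f x)) x = 0 := by
  have h0 := w_loc h hε hx
  have h3 : ∀ {G : ℂ → ℝ}, (G =ᶠ[𝓝 x] fun _ => (0:ℝ)) → ∀ v, dd v G =ᶠ[𝓝 x] fun _ => (0:ℝ) := by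
    intro G hG v
    filter_upwards [hG.fderiv (𝕜 := ℝ)] with z hz
    unfold dd
    rw [hz]
    simp
  unfold la
  rw [(h3 (h3 h0 1) 1).self_of_nhds, (h3 (h3 h0 Complex.I) Complex.I).self_of_nhds, add_zero]

lemma dd_w (h : Cls D f) (hDo : IsOpen D) (ε : ℝ) {x : ℂ} (hx : x ∈ D) (v : ℂ) :
    dd v (fun x => F0 ε (f x)) x = F1 ε (f x) * dd v f x := by
  have h1 : HasFDerivAt f (fderiv ℝ f x) x :=
    ((h.at hDo hx).differentiableAt (by norm_num)).hasFDerivAt
  have h2 : HasFDerivAt (fun x => F0 ε (f x)) (F1 ε (f x) • fderiv ℝ f x) x :=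
    (F0_deriv ε (f x)).comp_hasFDerivAt x h1
  unfold dd
  rw [h2.fderiv]
  simp

lemma dd_dd_w (h : Cls D f) (hDo : IsOpen D) (ε : ℝ) {x : ℂ} (hx : x ∈ D) (v : ℂ) :
    dd v (dd v (fun x => F0 ε (f x))) x =
      F1 ε (f x) * dd v (dd v f) x + F2 ε (f x) * (dd v f x) ^ 2 := by
  have e : dd v (fun x => F0 ε (f x)) =ᶠ[𝓝 x] fun y => F1 ε (f y) * dd v f y := by
    filter_upwards [hDo.mem_nhds hx] with y hy
    exact dd_w h hDo ε hy v
  have h1 : HasFDerivAt f (fderiv ℝ f x) x :=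
    ((h.at hDo hx).differentiableAt (by norm_num)).hasFDerivAt
  have h2 : HasFDerivAt (fun x => F1 ε (f x)) (F2 ε (f x) • fderiv ℝ f x) x :=
    (F1_deriv ε (f x)).comp_hasFDerivAt x h1
  have h3 : HasFDerivAt (dd v f) (fderiv ℝ (dd v f) x) x :=
    ((dd_c1 (h.at hDo hx) v).differentiableAt (by norm_num)).hasFDerivAt
  have h4 := (h2.mul h3).fderiv
  have h5 : dd v (dd v (fun x => F0 ε (f x))) x =
      (fderiv ℝ (fun y => F1 ε (f y) * dd v f y) x) v := by
    show (fderiv ℝ (dd v (fun x => F0 ε (f x))) x) v = _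
    rw [e.fderiv_eq]
  rw [h5]
  have h6 : fderiv ℝ (fun y => F1 ε (f y) * dd v f y) x =
      F1 ε (f x) • fderiv ℝ (dd v f) x + dd v f x • (F2 ε (f x) • fderiv ℝ f x) := h4
  rw [h6]
  show F1 ε (f x) * (fderiv ℝ (dd v f) x v) + dd v f x * (F2 ε (f x) * (fderiv ℝ f x v)) =
    F1 ε (f x) * (fderiv ℝ (dd v f) x v) + F2 ε (f x) * (fderiv ℝ f x v) ^ 2
  have : dd v f x = fderiv ℝ f x v := rfl
  rw [this]
  ring

lemma la_w (h : Cls D f) (hDo : IsOpen D) (ε : ℝ) {x : ℂ} (hx : x ∈ D) :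
    la (fun x => F0 ε (f x)) x = F1 ε (f x) * la f x +
      F2 ε (f x) * ((dd 1 f x) ^ 2 + (dd Complex.I f x) ^ 2) := by
  unfold la
  rw [dd_dd_w h hDo ε hx, dd_dd_w h hDo ε hx]
  ring

lemma int_dd1 {g : ℂ → ℝ} (hg : ContDiff ℝ 1 g) (hc : HasCompactSupport g) (v : ℂ) :
    ∫ x, dd v g x = 0 := by
  have i1 : Integrable (fun x : ℂ => fderiv ℝ (fun _ : ℂ => (1:ℝ)) x v * g x) := by
    simp
  have i2 : Integrable (fun x : ℂ => (fun _ : ℂ => (1:ℝ)) x * fderiv ℝ g x v) := by
    simp only [one_mul]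
    have h1 : Continuous (fun x => fderiv ℝ g x v) :=
      (hg.continuous_fderiv (by norm_num)).clm_apply continuous_const
    exact h1.integrable_of_hasCompactSupport (hc.fderiv_apply (𝕜 := ℝ) v)
  have i3 : Integrable (fun x : ℂ => (fun _ : ℂ => (1:ℝ)) x * g x) := by
    simpa using hg.continuous.integrable_of_hasCompactSupport hc
  have := integral_mul_fderiv_eq_neg_fderiv_mul_of_integrable (f := fun _ : ℂ => (1:ℝ)) (g := g)
    (v := v) i1 i2 i3 (fun x _ => differentiableAt_const _)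
    (fun x _ => hg.differentiable (by norm_num) x)
  simp only [one_mul, fderiv_fun_const, Pi.zero_apply, zero_apply, zero_mul, integral_zero,
    neg_zero] at this
  exact this

lemma dd_cs {g : ℂ → ℝ} (hc : HasCompactSupport g) (v : ℂ) : HasCompactSupport (dd v g) :=
  hc.fderiv_apply (𝕜 := ℝ) v

lemma dd_C1 {g : ℂ → ℝ} (hg : ContDiff ℝ 2 g) (v : ℂ) : ContDiff ℝ 1 (dd v g) :=
  contDiff_iff_contDiffAt.2 fun x => dd_c1 hg.contDiffAt v

lemma la_cont {g : ℂ → ℝ} (hg : ContDiff ℝ 2 g) : Continuous (la g) :=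
  continuous_iff_continuousAt.2 fun x => la_contAt hg.contDiffAt

lemma la_cs {g : ℂ → ℝ} (hc : HasCompactSupport g) : HasCompactSupport (la g) :=
  (dd_cs (dd_cs hc 1) 1).add (dd_cs (dd_cs hc Complex.I) Complex.I)

lemma int_la2 {g : ℂ → ℝ} (hg : ContDiff ℝ 2 g) (hc : HasCompactSupport g) :
    ∫ x, la g x = 0 := by
  have hi : ∀ v, Integrable (dd v (dd v g)) := by
    intro v
    have h1 : Continuous (dd v (dd v g)) :=
      continuous_iff_continuousAt.2 fun x => dd_c0 (dd_C1 hg v).contDiffAt v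
    exact h1.integrable_of_hasCompactSupport (dd_cs (dd_cs hc v) v)
  unfold la
  rw [integral_add (hi 1) (hi Complex.I), int_dd1 (dd_C1 hg 1) (dd_cs hc 1),
    int_dd1 (dd_C1 hg Complex.I) (dd_cs hc Complex.I), add_zero]

/-- the kernel constant -/
noncomputable def KK (R : ℝ) (D : Set ℂ) : ℝ :=
  2 * (2 * Real.pi * (R + R) ^ 2 * R ^ 2 + 16 * Real.pi * (R + R)) +
    2 * (Real.log (2 * R)) ^ 2 * volume.real D

lemma KK_nonneg {R : ℝ} (hR : 0 < R) (D : Set ℂ) : 0 ≤ KK R D := by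
  have := Real.pi_pos
  have h2 : 0 ≤ volume.real D := measureReal_nonneg
  unfold KK
  positivity

lemma ker_memLp {R : ℝ} (hR : 0 < R) (hDo : IsOpen D) (hD : D ⊆ Metric.ball 0 R) (x : ℂ) :
    MemLp (fun y => lk x y + Real.log (2 * R)) 2 (volume.restrict D) := by
  have hfin : volume D < ⊤ := (measure_mono hD).trans_lt measure_ball_lt_top
  haveI : IsFiniteMeasure (volume.restrict D) := ⟨by rwa [Measure.restrict_apply_univ]⟩
  have h1 := (lk_memLp x hR).1.restrict D
  refine MemLp.add ?_ (memLp_const _)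
  refine h1.ae_eq ?_
  filter_upwards [ae_restrict_mem hDo.measurableSet] with y hy
  rw [indicator_of_mem (hD hy)]

lemma ker_int {R : ℝ} (hR : 0 < R) (hDo : IsOpen D) (hD : D ⊆ Metric.ball 0 R) {x : ℂ}
    (hx : x ∈ D) : ∫ y in D, (lk x y + Real.log (2 * R)) ^ 2 ≤ KK R D := by
  have hpi := Real.pi_pos
  have hfin : volume D < ⊤ := (measure_mono hD).trans_lt measure_ball_lt_top
  haveI : IsFiniteMeasure (volume.restrict D) := ⟨by rwa [Measure.restrict_apply_univ]⟩
  have hxR : ‖x‖ ≤ R := by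
    have := hD hx
    rw [Metric.mem_ball, dist_zero_right] at this
    exact this.le
  have hL := lk_memLp x hR
  have i0 : Integrable (fun y => ((Metric.ball (0 : ℂ) R).indicator (fun y => lk x y) y) ^ 2) :=
    (memLp_two_iff_integrable_sq hL.1.1).1 hL.1
  have e1 : ∫ y in D, (lk x y + Real.log (2 * R)) ^ 2 ≤
      ∫ y in D, (2 * ((Metric.ball (0 : ℂ) R).indicator (fun y => lk x y) y) ^ 2 +
        2 * (Real.log (2 * R)) ^ 2) := by
    refine setIntegral_mono_on ((memLp_two_iff_integrable_sq (ker_memLp hR hDo hD x).1).1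
      (ker_memLp hR hDo hD x)) ((i0.integrableOn.const_mul 2).add (integrable_const _))
      hDo.measurableSet fun y hy => ?_
    rw [indicator_of_mem (hD hy)]
    nlinarith [sq_nonneg (lk x y - Real.log (2 * R))]
  refine e1.trans ?_
  rw [integral_add (i0.integrableOn.const_mul 2) (integrable_const _), integral_const_mul,
    setIntegral_const]
  have e2 : ∫ y in D, ((Metric.ball (0 : ℂ) R).indicator (fun y => lk x y) y) ^ 2 ≤
      ∫ y, ((Metric.ball (0 : ℂ) R).indicator (fun y => lk x y) y) ^ 2 :=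
    setIntegral_le_integral i0 (Eventually.of_forall fun y => sq_nonneg _)
  have e3 : 2 * Real.pi * (‖x‖ + R) ^ 2 * R ^ 2 + 16 * Real.pi * (‖x‖ + R) ≤
      2 * Real.pi * (R + R) ^ 2 * R ^ 2 + 16 * Real.pi * (R + R) := by
    have h0 := norm_nonneg x
    gcongr
  unfold KK
  rw [smul_eq_mul]
  have e4 : volume.real D * (2 * (Real.log (2 * R)) ^ 2) =
    2 * (Real.log (2 * R)) ^ 2 * volume.real D := by ring
  rw [e4]
  linarith [hL.2]

lemma ker_nonneg {R : ℝ} (hR : 1 ≤ R) (hD : D ⊆ Metric.ball 0 R) {x y : ℂ}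
    (hx : x ∈ D) (hy : y ∈ D) : 0 ≤ lk x y + Real.log (2 * R) := by
  have h1 := hD hx
  have h2 := hD hy
  rw [Metric.mem_ball, dist_zero_right] at h1 h2
  have h3 : ‖x - y‖ ≤ 2 * R := (norm_sub_le _ _).trans (by linarith)
  unfold lk
  rcases eq_or_lt_of_le (norm_nonneg (x - y)) with h0 | h0
  · rw [← h0, Real.log_zero, neg_zero, zero_add]
    exact Real.log_nonneg (by linarith)
  · have := Real.log_le_log h0 h3
    linarith

/-- Cauchy-Schwarz -/
lemma cs_ineq {R : ℝ} (hR : 1 ≤ R) (hDo : IsOpen D) (hD : D ⊆ Metric.ball 0 R) (h : Cls D f)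
    {x : ℂ} (hx : x ∈ D) :
    IntegrableOn (fun y => (lk x y + Real.log (2 * R)) * |la f y|) D ∧
    ∫ y in D, (lk x y + Real.log (2 * R)) * |la f y| ≤
      Real.sqrt (KK R D) * Real.sqrt (∫ y in D, la f y ^ 2) := by
  have hR0 : 0 < R := by linarith
  have hfin : volume D < ⊤ := (measure_mono hD).trans_lt measure_ball_lt_top
  haveI : IsFiniteMeasure (volume.restrict D) := ⟨by rwa [Measure.restrict_apply_univ]⟩
  have m1 := ker_memLp hR0 hDo hD x
  have hc : ContinuousOn (la f) D := fun y hy => (la_contAt (h.at hDo hy)).continuousWithinAt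
  obtain ⟨M, hM⟩ := h.bdd
  have m2 : MemLp (fun y => |la f y|) 2 (volume.restrict D) := by
    refine MemLp.of_bound (hc.abs.aestronglyMeasurable hDo.measurableSet) M ?_
    filter_upwards [ae_restrict_mem hDo.measurableSet] with y hy
    rw [Real.norm_eq_abs, abs_abs]
    exact hM y hy
  refine ⟨m1.integrable_mul m2, ?_⟩
  have h2 : ENNReal.ofReal 2 = 2 := by norm_num
  have key := integral_mul_le_Lp_mul_Lq_of_nonneg (μ := volume.restrict D) (p := 2) (q := 2)
    (f := fun y => lk x y + Real.log (2 * R)) (g := fun y => |la f y|)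
    (by exact Real.HolderConjugate.two_two) (by
      filter_upwards [ae_restrict_mem hDo.measurableSet] with y hy
      exact ker_nonneg hR hD hx hy) (Eventually.of_forall fun y => abs_nonneg _)
      (by rw [h2]; exact m1) (by rw [h2]; exact m2)
  refine key.trans ?_
  rw [← Real.sqrt_eq_rpow, ← Real.sqrt_eq_rpow]
  refine mul_le_mul ?_ ?_ (Real.sqrt_nonneg _) (Real.sqrt_nonneg _)
  · refine Real.sqrt_le_sqrt ?_
    refine le_trans (le_of_eq ?_) (ker_int hR0 hDo hD hx)
    refine integral_congr_ae (Eventually.of_forall fun y => ?_)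
    exact Real.rpow_two _
  · refine Real.sqrt_le_sqrt (le_of_eq ?_)
    refine integral_congr_ae (Eventually.of_forall fun y => ?_)
    show |la f y| ^ (2:ℝ) = _
    rw [Real.rpow_two, sq_abs]

lemma eps_bound {R : ℝ} (hR : 1 ≤ R) (hDo : IsOpen D) (hD : D ⊆ Metric.ball 0 R) (h : Cls D f)
    {x : ℂ} (hx : x ∈ D) (hmax : ∀ y, f y ≤ f x) {ε : ℝ} (hε : 0 < ε) (hεf : ε < f x) :
    2 * Real.pi * (f x - ε) ≤
      3 * (Real.sqrt (KK R D) * Real.sqrt (∫ y in D, la f y ^ 2)) := by
  have hpi := Real.pi_pos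
  have hR0 : 0 < R := by linarith
  have hDb : Bornology.IsBounded D := Metric.isBounded_ball.subset hD
  have hw2 := w_c2 h hDo hε
  have hwc := w_cs h hDb hε
  have hrep := rep2 hw2 hwc x
  have hlac := la_cont hw2
  have hlas := la_cs hwc
  have hnice : Nice R (la (fun x => F0 ε (f x))) := by
    refine ⟨hlac.memLp_of_hasCompactSupport hlas, fun y hy => la_w_zero h hε fun hyD => ?_⟩
    have := hD hyD
    rw [Metric.mem_ball, dist_zero_right] at this
    linarith
  have i1 := hnice.int hR0 x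
  have i2 : Integrable (la (fun x => F0 ε (f x))) := hnice.integrable
  obtain ⟨i3, hcs⟩ := cs_ineq hR hDo hD h hx
  have hpos : 0 < f x - ε := by linarith
  -- the representation with the shifted kernel
  have e1 : 2 * Real.pi * F0 ε (f x) =
      ∫ y, (lk x y + Real.log (2 * R)) * -(la (fun x => F0 ε (f x)) y) := by
    have e2 : (fun y => (lk x y + Real.log (2 * R)) * -(la (fun x => F0 ε (f x)) y)) =
        fun y => lk x y * -(la (fun x => F0 ε (f x)) y) +
          (-Real.log (2 * R)) * la (fun x => F0 ε (f x)) y := by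
      funext y; ring
    rw [e2, integral_add, integral_const_mul, int_la2 hw2 hwc, mul_zero, add_zero, hrep]
    · refine i1.neg.congr (Eventually.of_forall fun y => ?_)
      simp
    · exact i2.const_mul _
  have e3 : F0 ε (f x) = (f x - ε) ^ 3 := by
    unfold F0
    rw [max_eq_left hpos.le]
  have e4 : ∫ y, (lk x y + Real.log (2 * R)) * -(la (fun x => F0 ε (f x)) y) ≤
      ∫ y, D.indicator (fun y => 3 * (f x - ε) ^ 2 *
        ((lk x y + Real.log (2 * R)) * |la f y|)) y := by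
    refine integral_mono ?_ ?_ fun y => ?_
    · have e2 : (fun y => (lk x y + Real.log (2 * R)) * -(la (fun x => F0 ε (f x)) y)) =
          fun y => -(lk x y * (la (fun x => F0 ε (f x)) y)) +
            (-Real.log (2 * R)) * la (fun x => F0 ε (f x)) y := by
        funext y; ring
      rw [e2]
      exact i1.neg.add (i2.const_mul _)
    · rw [integrable_indicator_iff hDo.measurableSet]
      exact i3.const_mul _
    · by_cases hy : y ∈ D
      · simp only [indicator_of_mem hy]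
        have k0 := ker_nonneg hR hD hx hy
        have k1 : 0 ≤ F1 ε (f y) := by unfold F1; positivity
        have k2 : 0 ≤ F2 ε (f y) := by
          unfold F2
          have : 0 ≤ max (f y - ε) 0 := le_max_right _ _
          positivity
        have k3 : F1 ε (f y) ≤ 3 * (f x - ε) ^ 2 := by
          unfold F1
          have h1 : 0 ≤ max (f y - ε) 0 := le_max_right _ _
          have h2 : max (f y - ε) 0 ≤ f x - ε := max_le (by linarith [hmax y]) hpos.le
          have h3 := pow_le_pow_left₀ h1 h2 2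
          linarith
        have k4 : -(la (fun x => F0 ε (f x)) y) ≤ 3 * (f x - ε) ^ 2 * |la f y| := by
          rw [la_w h hDo ε hy]
          have h4 : 0 ≤ F2 ε (f y) * ((dd 1 f y) ^ 2 + (dd Complex.I f y) ^ 2) := by positivity
          have h5 : -(F1 ε (f y) * la f y) ≤ F1 ε (f y) * |la f y| := by
            rw [← mul_neg]
            exact mul_le_mul_of_nonneg_left (neg_le_abs _) k1
          have h6 : F1 ε (f y) * |la f y| ≤ 3 * (f x - ε) ^ 2 * |la f y| :=
            mul_le_mul_of_nonneg_right k3 (abs_nonneg _)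
          linarith
        have h7 := mul_le_mul_of_nonneg_left k4 k0
        refine h7.trans (le_of_eq ?_)
        ring
      · simp only [indicator_of_notMem hy]
        rw [la_w_zero h hε hy, neg_zero, mul_zero]
  rw [integral_indicator hDo.measurableSet, integral_const_mul] at e4
  rw [e3] at e1
  have e5 : 2 * Real.pi * (f x - ε) ^ 3 ≤ 3 * (f x - ε) ^ 2 *
      (Real.sqrt (KK R D) * Real.sqrt (∫ y in D, la f y ^ 2)) := by
    rw [e1]
    exact e4.trans (mul_le_mul_of_nonneg_left hcs (by positivity))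
  have e6 : (f x - ε) ^ 2 * (2 * Real.pi * (f x - ε)) ≤ (f x - ε) ^ 2 *
      (3 * (Real.sqrt (KK R D) * Real.sqrt (∫ y in D, la f y ^ 2))) := by
    calc (f x - ε) ^ 2 * (2 * Real.pi * (f x - ε)) = 2 * Real.pi * (f x - ε) ^ 3 := by ring
      _ ≤ _ := e5
      _ = _ := by ring
  exact le_of_mul_le_mul_left e6 (by positivity)

lemma one_side {R : ℝ} (hR : 1 ≤ R) (hDo : IsOpen D) (hD : D ⊆ Metric.ball 0 R) (h : Cls D f)
    (z : ℂ) : f z ≤ 3 / (2 * Real.pi) * Real.sqrt (KK R D) *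
      Real.sqrt (∫ y in D, la f y ^ 2) := by
  have hpi := Real.pi_pos
  have hDb : Bornology.IsBounded D := Metric.isBounded_ball.subset hD
  have hfc : HasCompactSupport f := by
    refine HasCompactSupport.intro (K := closure D) hDb.isCompact_closure fun x hx => ?_
    exact h.zero x fun h' => hx (subset_closure h')
  obtain ⟨x, hx⟩ := h.cont.exists_forall_ge_of_hasCompactSupport hfc
  set T := 3 / (2 * Real.pi) * Real.sqrt (KK R D) * Real.sqrt (∫ y in D, la f y ^ 2) with hT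
  have hT0 : 0 ≤ T := by positivity
  refine (hx z).trans ?_
  by_contra hcon
  push Not at hcon
  have hfx : 0 < f x := hT0.trans_lt hcon
  have hxD : x ∈ D := by
    by_contra hxD
    rw [h.zero x hxD] at hfx
    exact lt_irrefl _ hfx
  have h1 := eps_bound hR hDo hD h hxD hx (ε := (f x - T) / 2) (by linarith) (by linarith)
  have h2 : 3 * (Real.sqrt (KK R D) * Real.sqrt (∫ y in D, la f y ^ 2)) =
      2 * Real.pi * T := by
    rw [hT]
    field_simp
  rw [h2] at h1
  have h3 := le_of_mul_le_mul_left h1 (by positivity)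
  linarith

theorem sup_aux (hDo : IsOpen D) (hDb : Bornology.IsBounded D) :
    ∃ C : ℝ, 0 ≤ C ∧ ∀ f : ℂ → ℝ, Continuous f → (∀ x, x ∉ D → f x = 0) → ContDiffOn ℝ 2 f D →
      (∃ M, ∀ x ∈ D, |la f x| ≤ M) →
      ∀ x, |f x| ≤ C * Real.sqrt (∫ y in D, la f y ^ 2) := by
  have hpi := Real.pi_pos
  obtain ⟨R0, hR0⟩ := hDb.subset_ball 0
  have hD : D ⊆ Metric.ball 0 (max R0 1) := hR0.trans (Metric.ball_subset_ball (le_max_left _ _))
  have hR : 1 ≤ max R0 1 := le_max_right _ _
  refine ⟨3 / (2 * Real.pi) * Real.sqrt (KK (max R0 1) D), by positivity, ?_⟩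
  intro f h1 h2 h3 h4 x
  have h : Cls D f := ⟨h1, h2, h3, h4⟩
  have a1 := one_side hR hDo hD h x
  have a2 := one_side hR hDo hD h.neg x
  have e : ∫ y in D, la (fun x => -f x) y ^ 2 = ∫ y in D, la f y ^ 2 := by
    refine integral_congr_ae (Eventually.of_forall fun y => ?_)
    show la (fun x => -f x) y ^ 2 = la f y ^ 2
    rw [la_neg, neg_sq]
  rw [e] at a2
  rw [abs_le]
  constructor <;> linarith

end SupEst

/-- TARGET: functions vanishing on the boundary are bounded by the L² norm of their Laplacian. -/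
theorem sup_est {D : Set ℂ} (hDo : IsOpen D) (hDb : Bornology.IsBounded D) :
    ∃ C : ℝ, 0 ≤ C ∧ ∀ f : ℂ → ℝ, Continuous f → (∀ x, x ∉ D → f x = 0) → ContDiffOn ℝ 2 f D →
      (∃ M, ∀ x ∈ D, |la f x| ≤ M) →
      ∀ x, |f x| ≤ C * Real.sqrt (∫ y in D, la f y ^ 2) := by
  exact sup_aux hDo hDb

end Pool.Agent.Helper327_Drum
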