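import Pool.Agent.TH298.Sch.Rot1
import Pool.Agent.Helper533.StarBox.Rellich
import Pool.Agent.Helper546.Sobolev
import Pool.Agent.TH298.Sch.Moll
import Pool.Agent.Helper327_Drum.OpDefs

set_option autoImplicit false
open MeasureTheory Set Filter Topology
open scoped ContDiff InnerProductSpace

namespace Pool.Agent.Helper327_Drum

open Pool.Agent.TH298.Sch (dd SC)

/-
Plain proof. By Rellich. `K D = io ∘ io†` is compact as soon as `io D` is compact
(`IsCompactOperator.comp_clm`). To see that `io D` maps the unit ball of `V D` to a totally bounded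
set of L²: D lies in a ball; for elements F of `V0 D` (they are classes of C¹ functions φ with compact
support in D: `V0 D` is a span, but sums and multiples of such functions are such functions) use a
Rellich theorem for test functions: `Pool.Agent.Helper533.StarBox.totallyBounded_bddSet` (smooth test
functions on ℂ; pass from C¹ to smooth by mollification), or `Pool.Agent.Helper546.rellich_ineq` and
`totallyBounded_of_finrank` (test functions on the Euclidean plane), or adapt the proof (translation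
estimate ∫|φ(x) - φ(x-y)|² ≤ |y|² ∫|∇φ|² and mollification); then pass to the closure. Bounded sets
with totally bounded images give a compact operator since L² is complete.
-/

/-! ### auxiliary: mollification of `C¹` functions -/

open Pool.Agent.TH298.Sch (Mol Mo Mo_sc Mo_eq dd_Mo refl_sc dd_refl exists_mol int_Mo_sq refl_int)

theorem kc_dd_cont {φ : ℂ → ℝ} (h : ContDiff ℝ 1 φ) (v : ℂ) : Continuous (dd v φ) :=
  (h.continuous_fderiv (by simp)).clm_apply continuous_const

theorem kc_dd_cs {φ : ℂ → ℝ} (h : HasCompactSupport φ) (v : ℂ) : HasCompactSupport (dd v φ) :=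
  (h.fderiv ℝ).comp_left (g := fun T : ℂ →L[ℝ] ℝ => T v) (by simp)

theorem kc_dd_int {φ : ℂ → ℝ} (h : ContDiff ℝ 1 φ) (hc : HasCompactSupport φ) (v : ℂ) :
    Integrable (dd v φ) := (kc_dd_cont h v).integrable_of_hasCompactSupport (kc_dd_cs hc v)

theorem kc_sq_int {f : ℂ → ℝ} (h : Continuous f) (hc : HasCompactSupport f) :
    Integrable (fun x => f x ^ 2) := by
  have : (fun x => f x ^ 2) = fun x => f x * f x := by funext x; ring
  rw [this]
  exact (h.mul h).integrable_of_hasCompactSupport hc.mul_right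

/-- mollification commutes with derivatives, for `C¹` functions -/
theorem kc_dd_Mo {ε : ℝ} {ρ φ : ℂ → ℝ} (h : Mol ε ρ) (hφ : ContDiff ℝ 1 φ)
    (hc : HasCompactSupport φ) (v y : ℂ) : dd v (Mo ρ φ) y = Mo ρ (dd v φ) y := by
  have hint : Integrable φ := hφ.continuous.integrable_of_hasCompactSupport hc
  rw [dd_Mo h hint]
  unfold Mo
  have hr := refl_sc h.sc y
  have hrd : SC (fun x => fderiv ℝ (fun x => ρ (y - x)) x v) := Pool.Agent.TH298.Sch.dd_sc hr v
  have i1 : Integrable (fun x => fderiv ℝ φ x v * ρ (y - x)) :=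
    ((kc_dd_cont hφ v).mul hr.cont).integrable_of_hasCompactSupport (kc_dd_cs hc v).mul_right
  have i2 : Integrable (fun x => φ x * fderiv ℝ (fun x => ρ (y - x)) x v) :=
    (hφ.continuous.mul hrd.cont).integrable_of_hasCompactSupport hc.mul_right
  have i3 : Integrable (fun x => φ x * ρ (y - x)) :=
    (hφ.continuous.mul hr.cont).integrable_of_hasCompactSupport hc.mul_right
  have := integral_mul_fderiv_eq_neg_fderiv_mul_of_integrable (f := φ) (g := fun x => ρ (y - x))
    (v := v) (μ := volume) i1 i2 i3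
    (fun x _ => (hφ.differentiable (by simp)) x) (fun x _ => hr.diff x)
  simp only [dd_refl h.sc] at this
  have e : ∫ x, φ x * -dd v ρ (y - x) = -∫ x, φ x * dd v ρ (y - x) := by
    rw [← integral_neg]
    refine integral_congr_ae (Eventually.of_forall fun x => ?_)
    simp only [mul_neg]
  rw [e] at this
  have h3 := neg_injective this
  exact h3

/-- the mollification is uniformly close -/
theorem kc_close {ε η : ℝ} {ρ φ : ℂ → ℝ} (h : Mol ε ρ) (hφ : Continuous φ)
    (hc : HasCompactSupport φ) (hu : ∀ x y : ℂ, dist x y < ε → |φ x - φ y| ≤ η) (hη : 0 ≤ η) (x : ℂ) :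
    |Mo ρ φ x - φ x| ≤ η := by
  have hr := refl_sc h.sc x
  have i1 : Integrable (fun y => φ y * ρ (x - y)) :=
    (hφ.mul hr.cont).integrable_of_hasCompactSupport hc.mul_right
  have i2 : Integrable (fun y => φ x * ρ (x - y)) := hr.int.const_mul _
  have e : Mo ρ φ x - φ x = ∫ y, (φ y - φ x) * ρ (x - y) := by
    have e1 : φ x = ∫ y, φ x * ρ (x - y) := by rw [integral_const_mul, refl_int h, mul_one]
    have e2 : ∫ y, (φ y - φ x) * ρ (x - y) = ∫ y, (φ y * ρ (x - y) - φ x * ρ (x - y)) := by
      congr 1; funext y; ring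
    rw [e2, integral_sub i1 i2, ← e1]
    rfl
  rw [e, ← Real.norm_eq_abs]
  have hb : ∀ y, ‖(φ y - φ x) * ρ (x - y)‖ ≤ η * ρ (x - y) := by
    intro y
    rw [norm_mul, Real.norm_eq_abs, Real.norm_eq_abs, abs_of_nonneg (h.nn _)]
    by_cases hxy : ε ≤ ‖x - y‖
    · rw [h.out _ hxy]; simp
    · push Not at hxy
      apply mul_le_mul_of_nonneg_right _ (h.nn _)
      apply hu
      rw [dist_comm, dist_eq_norm]; exact hxy
  refine (norm_integral_le_of_norm_le (hr.int.const_mul η) (Eventually.of_forall hb)).trans ?_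
  rw [integral_const_mul, refl_int h, mul_one]

theorem kc_supp {ε R : ℝ} {ρ φ : ℂ → ℝ} (h : Mol ε ρ) (hs : ∀ x : ℂ, R ≤ ‖x‖ → φ x = 0) (x : ℂ)
    (hx : R + ε ≤ ‖x‖) : Mo ρ φ x = 0 := by
  unfold Mo
  have : (fun y => φ y * ρ (x - y)) = fun _ => (0 : ℝ) := by
    funext y
    by_cases hy : R ≤ ‖y‖
    · rw [hs y hy, zero_mul]
    · push Not at hy
      rw [h.out, mul_zero]
      have := norm_sub_norm_le x y
      linarith
  rw [this]; simp

open Pool.Agent.Helper533.StarBox (TF cls bddSet totallyBounded_bddSet En En_self gx gy cls_sub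
  norm_cls_sq cls_eq_of_ae inner_cls) in
/-- `C¹` functions with bounded energy have their class in the closure of the smooth ones -/
theorem kc_mem_closure {R M : ℝ} {φ : ℂ → ℝ} (hR : 0 < R) (hφ : ContDiff ℝ 1 φ)
    (hc : HasCompactSupport φ) (hs : ∀ x : ℂ, R ≤ ‖x‖ → φ x = 0)
    (hM : (∫ x, dd 1 φ x ^ 2) + ∫ x, dd Complex.I φ x ^ 2 ≤ M) :
    cls φ ∈ closure (bddSet (R + 2) M) := by
  rw [Metric.mem_closure_iff]
  intro δ hδ
  -- choose η
  set v := (volume (Metric.closedBall (0 : ℂ) (R + 1))).toReal with hv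
  have hv0 : 0 ≤ v := ENNReal.toReal_nonneg
  obtain ⟨η, hη0, hη1⟩ : ∃ η : ℝ, 0 < η ∧ η ^ 2 * v < δ ^ 2 := by
    refine ⟨δ / (v + 1), by positivity, ?_⟩
    rw [div_pow, div_mul_eq_mul_div, div_lt_iff₀ (by positivity)]
    apply mul_lt_mul_of_pos_left _ (by positivity)
    nlinarith
  have huc := HasCompactSupport.uniformContinuous_of_continuous hc hφ.continuous
  rw [Metric.uniformContinuous_iff] at huc
  obtain ⟨ε', hε', huc⟩ := huc η hη0
  set ε := min ε' 1 with hε
  have hε0 : 0 < ε := lt_min hε' one_pos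
  obtain ⟨ρ, hρ⟩ := exists_mol hε0
  have hint : Integrable φ := hφ.continuous.integrable_of_hasCompactSupport hc
  have hsc := Mo_sc hρ hint hc
  have hclose : ∀ x, |Mo ρ φ x - φ x| ≤ η := by
    apply kc_close hρ hφ.continuous hc _ hη0.le
    intro x y hxy
    have := huc (lt_of_lt_of_le hxy (min_le_left _ _))
    rw [Real.dist_eq] at this
    exact this.le
  have hsupp : ∀ x : ℂ, R + 1 ≤ ‖x‖ → Mo ρ φ x = 0 := by
    intro x hx
    apply kc_supp hρ hs
    have := min_le_right ε' 1
    linarith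
  have hts : tsupport (Mo ρ φ) ⊆ Metric.ball 0 (R + 2) := by
    have h1 : tsupport (Mo ρ φ) ⊆ Metric.closedBall 0 (R + 1) := by
      apply closure_minimal _ Metric.isClosed_closedBall
      intro x hx
      rw [mem_closedBall_zero_iff]
      by_contra hcon
      push Not at hcon
      exact hx (hsupp x hcon.le)
    exact h1.trans (Metric.closedBall_subset_ball (by linarith))
  have hTF : TF (Metric.ball 0 (R + 2)) (Mo ρ φ) := ⟨hsc.sm, hsc.cs, hts⟩
  refine ⟨cls (Mo ρ φ), ⟨Mo ρ φ, hTF, ?_, rfl⟩, ?_⟩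
  · -- energy
    rw [En_self]
    have e1 : ∀ x, gx (Mo ρ φ) x = Mo ρ (dd 1 φ) x := fun x => kc_dd_Mo hρ hφ hc 1 x
    have e2 : ∀ x, gy (Mo ρ φ) x = Mo ρ (dd Complex.I φ) x := fun x => kc_dd_Mo hρ hφ hc Complex.I x
    have j1 : Integrable (fun x => Mo ρ (dd 1 φ) x ^ 2) := by
      have := Mo_sc hρ (kc_dd_int hφ hc 1) (kc_dd_cs hc 1)
      exact kc_sq_int this.cont this.cs
    have j2 : Integrable (fun x => Mo ρ (dd Complex.I φ) x ^ 2) := by
      have := Mo_sc hρ (kc_dd_int hφ hc Complex.I) (kc_dd_cs hc Complex.I)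
      exact kc_sq_int this.cont this.cs
    simp only [e1, e2]
    rw [integral_add j1 j2]
    have k1 := int_Mo_sq hρ (kc_dd_int hφ hc 1) (kc_dd_cs hc 1)
      (kc_sq_int (kc_dd_cont hφ 1) (kc_dd_cs hc 1))
    have k2 := int_Mo_sq hρ (kc_dd_int hφ hc Complex.I) (kc_dd_cs hc Complex.I)
      (kc_sq_int (kc_dd_cont hφ Complex.I) (kc_dd_cs hc Complex.I))
    linarith
  · -- distance
    have m1 : MemLp φ 2 (volume : Measure ℂ) := hφ.continuous.memLp_of_hasCompactSupport hc
    have m2 : MemLp (Mo ρ φ) 2 (volume : Measure ℂ) := hsc.cont.memLp_of_hasCompactSupport hsc.cs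
    rw [dist_eq_norm, ← cls_sub m1 m2]
    have m3 : MemLp (fun z => φ z - Mo ρ φ z) 2 (volume : Measure ℂ) := m1.sub m2
    have e3 : ‖cls (fun z => φ z - Mo ρ φ z)‖ ^ 2 = ∫ z, (φ z - Mo ρ φ z) * (φ z - Mo ρ φ z) := by
      rw [← real_inner_self_eq_norm_sq, inner_cls m3 m3]
    have e4 : ∫ z, (φ z - Mo ρ φ z) * (φ z - Mo ρ φ z) ≤ η ^ 2 * v := by
      have h1 : ∫ z, (φ z - Mo ρ φ z) * (φ z - Mo ρ φ z) =
          ∫ z in Metric.closedBall (0 : ℂ) (R + 1), (φ z - Mo ρ φ z) * (φ z - Mo ρ φ z) := by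
        symm
        apply setIntegral_eq_integral_of_forall_compl_eq_zero
        intro z hz
        rw [mem_closedBall_zero_iff, not_le] at hz
        rw [hs z (by linarith), hsupp z hz.le]; ring
      rw [h1]
      have h2 : ∀ z ∈ Metric.closedBall (0 : ℂ) (R + 1),
          ‖(φ z - Mo ρ φ z) * (φ z - Mo ρ φ z)‖ ≤ η ^ 2 := by
        intro z _
        rw [← sq, norm_pow, Real.norm_eq_abs, abs_sub_comm]
        exact pow_le_pow_left₀ (abs_nonneg _) (hclose z) 2
      have h3 := norm_setIntegral_le_of_norm_le_const (μ := (volume : Measure ℂ))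
        (s := Metric.closedBall (0 : ℂ) (R + 1)) (isCompact_closedBall _ _).measure_lt_top h2
      exact (le_abs_self _).trans h3
    apply lt_of_pow_lt_pow_left₀ 2 hδ.le
    rw [e3]; linarith

/-- elements of the span are classes of test functions -/
theorem kc_span {D : Set ℂ} {F : W3} (hF : F ∈ V0 D) : Gr D F := by
  induction hF using Submodule.span_induction with
  | mem x h => exact h
  | zero =>
    refine ⟨fun _ => 0, ⟨contDiff_const, HasCompactSupport.zero, ?_⟩, ?_, ?_, ?_⟩
    · have : tsupport (fun _ : ℂ => (0 : ℝ)) = ∅ := by simp [tsupport]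
      rw [this]; exact empty_subset _
    · exact Lp.coeFn_zero _ _ _
    · have : dd 1 (fun _ : ℂ => (0 : ℝ)) = fun _ => 0 := by
        funext x; simp [dd]
      rw [this]; exact Lp.coeFn_zero _ _ _
    · have : dd Complex.I (fun _ : ℂ => (0 : ℝ)) = fun _ => 0 := by
        funext x; simp [dd]
      rw [this]; exact Lp.coeFn_zero _ _ _
  | add x y _ _ hx hy =>
    obtain ⟨φ, ⟨h1, h2, h3⟩, a1, a2, a3⟩ := hx
    obtain ⟨ψ, ⟨g1, g2, g3⟩, b1, b2, b3⟩ := hy
    have hd : ∀ v, dd v (fun z => φ z + ψ z) = fun z => dd v φ z + dd v ψ z := by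
      intro v; funext z
      have : fderiv ℝ (fun z => φ z + ψ z) z = fderiv ℝ φ z + fderiv ℝ ψ z :=
        fderiv_add ((h1.differentiable (by simp)) z) ((g1.differentiable (by simp)) z)
      simp only [dd, this]; rfl
    refine ⟨fun z => φ z + ψ z, ⟨h1.add g1, h2.add g2, ?_⟩, ?_, ?_, ?_⟩
    · exact (tsupport_add φ ψ).trans (union_subset h3 g3)
    · have := Lp.coeFn_add (x 0) (y 0)
      filter_upwards [this, a1, b1] with z e1 e2 e3
      show ((x + y) 0 : L2) z = _
      rw [PiLp.add_apply, e1, Pi.add_apply, e2, e3]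
    · have := Lp.coeFn_add (x 1) (y 1)
      filter_upwards [this, a2, b2] with z e1 e2 e3
      rw [PiLp.add_apply, e1, Pi.add_apply, e2, e3, hd]
    · have := Lp.coeFn_add (x 2) (y 2)
      filter_upwards [this, a3, b3] with z e1 e2 e3
      rw [PiLp.add_apply, e1, Pi.add_apply, e2, e3, hd]
  | smul c x _ hx =>
    obtain ⟨φ, ⟨h1, h2, h3⟩, a1, a2, a3⟩ := hx
    have hd : ∀ v, dd v (fun z => c * φ z) = fun z => c * dd v φ z := by
      intro v; funext z
      have : fderiv ℝ (fun z => c * φ z) z = c • fderiv ℝ φ z :=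
        fderiv_const_mul ((h1.differentiable (by simp)) z) c
      simp only [dd, this]; rfl
    refine ⟨fun z => c * φ z, ⟨contDiff_const.mul h1, h2.mul_left, ?_⟩, ?_, ?_, ?_⟩
    · exact (tsupport_mul_subset_right).trans h3
    · have := Lp.coeFn_smul c (x 0)
      filter_upwards [this, a1] with z e1 e2
      rw [PiLp.smul_apply, e1, Pi.smul_apply, e2, smul_eq_mul]
    · have := Lp.coeFn_smul c (x 1)
      filter_upwards [this, a2] with z e1 e2
      rw [PiLp.smul_apply, e1, Pi.smul_apply, e2, smul_eq_mul, hd]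
    · have := Lp.coeFn_smul c (x 2)
      filter_upwards [this, a3] with z e1 e2
      rw [PiLp.smul_apply, e1, Pi.smul_apply, e2, smul_eq_mul, hd]

theorem kc_norm_sq {f : L2} {g : ℂ → ℝ} (h : f =ᵐ[volume] g) : ‖f‖ ^ 2 = ∫ z, g z ^ 2 := by
  rw [← real_inner_self_eq_norm_sq, L2.inner_def]
  apply integral_congr_ae
  filter_upwards [h] with z hz
  rw [hz]; simp [sq]

open Pool.Agent.Helper533.StarBox (cls bddSet totallyBounded_bddSet cls_eq_of_ae) in
/-- TARGET: compactness. -/
theorem K_compact {D : Set ℂ} (hb : Bornology.IsBounded D) : IsCompactOperator (K D) := by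
  obtain ⟨R', hR'⟩ := hb.subset_ball (0 : ℂ)
  set R := max R' 1 with hR
  have hR0 : 0 < R := lt_of_lt_of_le one_pos (le_max_right _ _)
  have hDR : D ⊆ Metric.ball 0 R := hR'.trans (Metric.ball_subset_ball (le_max_left _ _))
  have hio : IsCompactOperator (io D) := by
    have hcomp : IsCompact (closure (bddSet (R + 2) 4)) :=
      (totallyBounded_bddSet (R + 2) 4 (by linarith)).closure.isCompact_of_isClosed isClosed_closure
    refine ⟨closure (bddSet (R + 2) 4), hcomp, ?_⟩
    apply Filter.mem_of_superset (Metric.ball_mem_nhds (0 : V D) one_pos)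
    intro F hF
    rw [Set.mem_preimage]
    rw [mem_ball_zero_iff] at hF
    -- elements of the span
    have key : ∀ G : W3, G ∈ V0 D → ‖G‖ < 1 → G 0 ∈ closure (bddSet (R + 2) 4) := by
      intro G hG hG1
      obtain ⟨φ, ⟨h1, h2, h3⟩, a1, a2, a3⟩ := kc_span hG
      rw [cls_eq_of_ae a1]
      apply kc_mem_closure hR0 h1 h2
      · intro x hx
        apply image_eq_zero_of_notMem_tsupport
        intro hxs
        have := hDR (h3 hxs)
        rw [mem_ball_zero_iff] at this
        linarith
      · rw [← kc_norm_sq a2, ← kc_norm_sq a3]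
        have e := PiLp.norm_sq_eq_of_L2 (fun _ : Fin 3 => L2) G
        rw [Fin.sum_univ_three] at e
        have : ‖G‖ ^ 2 ≤ 1 := by
          have := norm_nonneg G
          nlinarith
        have h0 := sq_nonneg ‖G 0‖
        linarith
    have hFc : (F : W3) ∈ closure (V0 D : Set W3) := by
      have := F.2
      exact this
    have hclosed : (F : W3) ∈ closure ((V0 D : Set W3) ∩ Metric.ball 0 1) := by
      have hFb : (F : W3) ∈ Metric.ball (0 : W3) 1 := by
        rw [mem_ball_zero_iff]; exact hF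
      rw [inter_comm]
      exact Metric.isOpen_ball.inter_closure ⟨hFb, hFc⟩
    have hcont : Continuous (fun G : W3 => G 0) :=
      (PiLp.proj (𝕜 := ℝ) 2 (fun _ : Fin 3 => L2) 0).continuous
    have hmaps : MapsTo (fun G : W3 => G 0) ((V0 D : Set W3) ∩ Metric.ball 0 1)
        (closure (bddSet (R + 2) 4)) := by
      intro G hG
      exact key G hG.1 (by have := hG.2; rwa [mem_ball_zero_iff] at this)
    have := hmaps.closure hcont hclosed
    rw [closure_closure] at this
    exact this
  exact hio.comp_clm (ContinuousLinearMap.adjoint (io D))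

end Pool.Agent.Helper327_Drum
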