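import Pool.Agent.TH298.Sch.Rot1
import Pool.Agent.Helper327_Drum.OpDefs

set_option autoImplicit false
open MeasureTheory Set Filter Topology
open scoped ContDiff InnerProductSpace

namespace Pool.Agent.Helper327_Drum

open Pool.Agent.TH298.Sch (dd SC)

/-
Plain proof. (1) K = io ∘ io† is symmetric (adjoint of a composition). (2) Let K ψ = μ ψ, ψ ≠ 0, and
F = io† ψ ∈ V D. Then io F = μ ψ, μ ‖ψ‖² = ⟨K ψ, ψ⟩ = ‖F‖² ≥ 0, and ‖F‖² = ‖F 0‖² + ‖F 1‖² + ‖F 2‖² with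
F 0 = μ ψ. The Poincaré inequality (D bounded: D ⊆ {|Re x| ≤ ρ}; for a C¹ function φ with compact
support in D, ∫ φ² ≤ 4 ρ² ∫ (∂₁φ)², by the one-dimensional inequality on horizontal lines; by density
for all F ∈ V D) gives ‖F 0‖² ≤ 4 ρ² ‖F 1‖². If μ ≥ 1 then ‖F 1‖² + ‖F 2‖² = μ ‖ψ‖² - μ² ‖ψ‖² ≤ 0, so
F 1 = 0, so F 0 = μ ψ = 0 by Poincaré, a contradiction.
(3) the Poincaré inequality itself is also stated, since it is used elsewhere.
-/

theorem E3_inner (D : Set ℂ) (f g : L2) :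
    inner ℝ (K D f) g = inner ℝ (ContinuousLinearMap.adjoint (io D) f)
      (ContinuousLinearMap.adjoint (io D) g) := by
  rw [ContinuousLinearMap.adjoint_inner_right]
  rfl

/-- TARGET 1 -/
theorem K_symm (D : Set ℂ) : (K D : L2 →ₗ[ℝ] L2).IsSymmetric := by
  intro f g
  change inner ℝ (K D f) g = inner ℝ f (K D g)
  rw [real_inner_comm (K D g) f, E3_inner, E3_inner, real_inner_comm]

theorem E3_tsupport_dd (h : ℂ) (φ : ℂ → ℝ) : tsupport (dd h φ) ⊆ tsupport φ :=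
  tsupport_fderiv_apply_subset ℝ h

/-- Poincaré inequality for test functions -/
theorem E3_poincare {D : Set ℂ} {ρ : ℝ} (hρ : 0 < ρ) (hD : D ⊆ Metric.closedBall 0 ρ)
    {φ : ℂ → ℝ} (hφ : C1c D φ) : ∫ x, φ x ^ 2 ≤ 4 * ρ ^ 2 * ∫ x, dd 1 φ x ^ 2 := by
  obtain ⟨h1, hc, hs⟩ := hφ
  have hdc : Continuous (dd 1 φ) := (h1.continuous_fderiv (by norm_num)).clm_apply
    continuous_const
  have hdcs : HasCompactSupport (dd 1 φ) := hc.fderiv_apply (𝕜 := ℝ) 1
  have i1 : Integrable fun x => φ x ^ 2 :=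
    (h1.continuous.pow 2).integrable_of_hasCompactSupport (by
      simp only [pow_two]
      exact hc.mul_left)
  have i2 : Integrable fun x => dd 1 φ x ^ 2 :=
    (hdc.pow 2).integrable_of_hasCompactSupport (by
      simp only [pow_two]
      exact hdcs.mul_left)
  have hre : ∀ x : ℂ, HasFDerivAt (fun x : ℂ => x.re) Complex.reCLM x := fun x =>
    Complex.reCLM.hasFDerivAt
  have hsq : ∀ x, HasFDerivAt (fun x => φ x ^ 2) ((2 * φ x) • fderiv ℝ φ x) x := by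
    intro x
    have := ((h1.differentiable (by norm_num) x).hasFDerivAt).pow 2
    simpa using this
  have e1 : ∀ x, fderiv ℝ (fun x => φ x ^ 2) x 1 = 2 * φ x * dd 1 φ x := by
    intro x
    rw [(hsq x).fderiv]
    rfl
  have e2 : ∀ x, fderiv ℝ (fun x : ℂ => x.re) x 1 = 1 := by
    intro x
    rw [(hre x).fderiv]
    simp
  have i3 : Integrable fun x : ℂ => 2 * φ x * dd 1 φ x * x.re :=
    (((continuous_const.mul h1.continuous).mul hdc).mul
      Complex.continuous_re).integrable_of_hasCompactSupport (hdcs.mul_left.mul_right)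
  have i4 : Integrable fun x : ℂ => φ x ^ 2 * x.re :=
    ((h1.continuous.pow 2).mul Complex.continuous_re).integrable_of_hasCompactSupport (by
      simp only [pow_two]
      exact hc.mul_left.mul_right)
  have key := integral_mul_fderiv_eq_neg_fderiv_mul_of_integrable (μ := (volume : Measure ℂ))
    (f := fun x => φ x ^ 2) (g := fun x : ℂ => x.re) (v := (1 : ℂ))
    (by simpa only [e1] using i3) (by simpa only [e2, mul_one] using i1) i4
    (fun x _ => (hsq x).differentiableAt) (fun x _ => (hre x).differentiableAt)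
  simp only [e1, e2, mul_one] at key
  have hpt : ∀ x : ℂ, -(2 * φ x * dd 1 φ x * x.re) ≤ φ x ^ 2 / 2 + 2 * ρ ^ 2 * dd 1 φ x ^ 2 := by
    intro x
    by_cases hx : x ∈ tsupport φ
    · have h2 : |x.re| ≤ ρ := by
        have := hD (hs hx)
        rw [mem_closedBall_zero_iff] at this
        exact (Complex.abs_re_le_norm x).trans this
      have h3 : x.re ^ 2 ≤ ρ ^ 2 := sq_le_sq' (by linarith [neg_abs_le x.re]) (by
        linarith [le_abs_self x.re])
      have h4 : 0 ≤ (φ x + 2 * x.re * dd 1 φ x) ^ 2 := sq_nonneg _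
      have h5 := mul_le_mul_of_nonneg_right h3 (sq_nonneg (dd 1 φ x))
      nlinarith
    · rw [image_eq_zero_of_notMem_tsupport hx]
      have := sq_nonneg (dd 1 φ x)
      have := sq_nonneg ρ
      simp only [mul_zero, zero_mul, neg_zero]
      positivity
  rw [← integral_neg] at key
  have h6 : ∫ x, φ x ^ 2 ≤ ∫ x, (φ x ^ 2 / 2 + 2 * ρ ^ 2 * dd 1 φ x ^ 2) := by
    rw [key]
    exact integral_mono i3.neg ((i1.div_const 2).add (i2.const_mul _)) hpt
  rw [integral_add (i1.div_const 2) (i2.const_mul _), integral_div, integral_const_mul] at h6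
  linarith

theorem E3_norm_sq (f : L2) : ‖f‖ ^ 2 = ∫ x, (f x) ^ 2 := by
  rw [← real_inner_self_eq_norm_sq, L2.inner_def]
  refine integral_congr_ae (Eventually.of_forall fun x => ?_)
  simp [pow_two]

theorem E3_gr {D : Set ℂ} {F : W3} (hF : F ∈ V0 D) : Gr D F := by
  refine Submodule.span_induction (p := fun F _ => Gr D F) (fun F h => h) ?_ ?_ ?_ hF
  · refine ⟨fun _ => 0, ⟨contDiff_const, HasCompactSupport.zero, ?_⟩, ?_, ?_, ?_⟩
    · rw [show (fun _ : ℂ => (0:ℝ)) = 0 from rfl, tsupport_zero]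
      exact empty_subset _
    · exact Lp.coeFn_zero ℝ 2 volume
    · filter_upwards [Lp.coeFn_zero ℝ 2 (volume : Measure ℂ)] with x hx
      rw [show ((0 : W3) 1) = (0 : L2) from rfl, hx]
      simp [dd]
    · filter_upwards [Lp.coeFn_zero ℝ 2 (volume : Measure ℂ)] with x hx
      rw [show ((0 : W3) 2) = (0 : L2) from rfl, hx]
      simp [dd]
  · rintro F G _ _ ⟨φ, hφ, f0, f1, f2⟩ ⟨ψ, hψ, g0, g1, g2⟩
    have hd : ∀ h x, dd h (φ + ψ) x = dd h φ x + dd h ψ x := by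
      intro h x
      unfold dd
      rw [fderiv_add (hφ.1.differentiable (by norm_num) x)
        (hψ.1.differentiable (by norm_num) x)]
      rfl
    refine ⟨φ + ψ, ⟨hφ.1.add hψ.1, hφ.2.1.add hψ.2.1, (tsupport_add φ ψ).trans
      (union_subset hφ.2.2 hψ.2.2)⟩, ?_, ?_, ?_⟩
    · filter_upwards [Lp.coeFn_add (F 0) (G 0), f0, g0] with x hx a b
      rw [show (F + G) 0 = F 0 + G 0 from rfl, hx, Pi.add_apply, Pi.add_apply, a, b]
    · filter_upwards [Lp.coeFn_add (F 1) (G 1), f1, g1] with x hx a b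
      rw [show (F + G) 1 = F 1 + G 1 from rfl, hx, Pi.add_apply, hd, a, b]
    · filter_upwards [Lp.coeFn_add (F 2) (G 2), f2, g2] with x hx a b
      rw [show (F + G) 2 = F 2 + G 2 from rfl, hx, Pi.add_apply, hd, a, b]
  · rintro c F _ ⟨φ, hφ, f0, f1, f2⟩
    have hd : ∀ h x, dd h (c • φ) x = c * dd h φ x := by
      intro h x
      unfold dd
      rw [fderiv_const_smul (hφ.1.differentiable (by norm_num) x)]
      rfl
    refine ⟨c • φ, ⟨hφ.1.const_smul c, hφ.2.1.smul_left (f := fun _ => c),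
      (tsupport_smul_subset_right (fun _ => c) φ).trans hφ.2.2⟩, ?_, ?_, ?_⟩
    · filter_upwards [Lp.coeFn_smul c (F 0), f0] with x hx a
      rw [show (c • F) 0 = c • F 0 from rfl, hx, Pi.smul_apply, Pi.smul_apply, a]
    · filter_upwards [Lp.coeFn_smul c (F 1), f1] with x hx a
      rw [show (c • F) 1 = c • F 1 from rfl, hx, Pi.smul_apply, hd, a, smul_eq_mul]
    · filter_upwards [Lp.coeFn_smul c (F 2), f2] with x hx a
      rw [show (c • F) 2 = c • F 2 from rfl, hx, Pi.smul_apply, hd, a, smul_eq_mul]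

/-- TARGET 2: Poincaré inequality. -/
theorem poincare {D : Set ℂ} (hb : Bornology.IsBounded D) :
    ∃ C : ℝ, 0 < C ∧ ∀ F ∈ V D, ‖F 0‖ ^ 2 ≤ C * ‖F 1‖ ^ 2 := by
  obtain ⟨ρ, hρ, hD⟩ := hb.subset_closedBall_lt 0 0
  refine ⟨4 * ρ ^ 2, by positivity, fun F hF => ?_⟩
  have hcl : IsClosed {F : W3 | ‖F 0‖ ^ 2 ≤ 4 * ρ ^ 2 * ‖F 1‖ ^ 2} := by
    have h0 : Continuous fun F : W3 => F 0 := (PiLp.proj 2 (fun _ : Fin 3 => L2) 0 :
      W3 →L[ℝ] L2).continuous
    have h1 : Continuous fun F : W3 => F 1 := (PiLp.proj 2 (fun _ : Fin 3 => L2) 1 :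
      W3 →L[ℝ] L2).continuous
    exact isClosed_le (h0.norm.pow 2) (continuous_const.mul (h1.norm.pow 2))
  have hsub : (V0 D : Set W3) ⊆ {F : W3 | ‖F 0‖ ^ 2 ≤ 4 * ρ ^ 2 * ‖F 1‖ ^ 2} := by
    intro G hG
    obtain ⟨φ, hφ, g0, g1, -⟩ := E3_gr hG
    have e0 : ∫ x, (G 0 x) ^ 2 = ∫ x, φ x ^ 2 := by
      refine integral_congr_ae ?_
      filter_upwards [g0] with x hx
      rw [hx]
    have e1 : ∫ x, (G 1 x) ^ 2 = ∫ x, dd 1 φ x ^ 2 := by
      refine integral_congr_ae ?_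
      filter_upwards [g1] with x hx
      rw [hx]
    show ‖G 0‖ ^ 2 ≤ 4 * ρ ^ 2 * ‖G 1‖ ^ 2
    rw [E3_norm_sq, E3_norm_sq, e0, e1]
    exact E3_poincare hρ hD hφ
  have hF' : F ∈ closure (V0 D : Set W3) := hF
  exact closure_minimal hsub hcl hF'

/-- TARGET 3: the eigenvalues lie in `[0, 1)`. -/
theorem K_eig {D : Set ℂ} (hb : Bornology.IsBounded D) {μ : ℝ} {ψ : L2} (hψ : ψ ≠ 0)
    (h : K D ψ = μ • ψ) : 0 ≤ μ ∧ μ < 1 := by
  obtain ⟨C, hC, hP⟩ := poincare hb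
  set F : V D := ContinuousLinearMap.adjoint (io D) ψ with hF
  have hψ0 : 0 < ‖ψ‖ := norm_pos_iff.2 hψ
  have h1 : μ * ‖ψ‖ ^ 2 = ‖F‖ ^ 2 := by
    have h2 := E3_inner D ψ ψ
    rw [h, real_inner_smul_left, real_inner_self_eq_norm_sq, real_inner_self_eq_norm_sq] at h2
    exact h2
  have h0 : (F : W3) 0 = μ • ψ := h
  have h3 : ‖F‖ ^ 2 = ‖(F : W3) 0‖ ^ 2 + ‖(F : W3) 1‖ ^ 2 + ‖(F : W3) 2‖ ^ 2 := by
    rw [show ‖F‖ = ‖(F : W3)‖ from rfl, PiLp.norm_sq_eq_of_L2, Fin.sum_univ_three]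
  have hμ : 0 ≤ μ := by
    by_contra hc
    have h4 : μ * ‖ψ‖ ^ 2 < 0 := mul_neg_of_neg_of_pos (not_le.1 hc) (by positivity)
    have h5 : 0 ≤ ‖F‖ ^ 2 := sq_nonneg _
    linarith
  refine ⟨hμ, ?_⟩
  by_contra hc
  have hμ1 : 1 ≤ μ := not_lt.1 hc
  have h6 : ‖(F : W3) 0‖ ^ 2 = μ ^ 2 * ‖ψ‖ ^ 2 := by
    rw [h0, norm_smul, mul_pow, Real.norm_eq_abs, sq_abs]
  have h7 := hP F F.2
  have h8 : 0 ≤ ‖(F : W3) 2‖ ^ 2 := sq_nonneg _
  have h9 : 0 ≤ ‖(F : W3) 1‖ ^ 2 := sq_nonneg _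
  have h10 : μ * ‖ψ‖ ^ 2 ≤ μ ^ 2 * ‖ψ‖ ^ 2 :=
    mul_le_mul_of_nonneg_right (by nlinarith) (sq_nonneg _)
  have h11 : ‖(F : W3) 1‖ ^ 2 = 0 := by linarith
  rw [h11, mul_zero, h6] at h7
  have h12 : 0 < μ ^ 2 * ‖ψ‖ ^ 2 := by positivity
  linarith

end Pool.Agent.Helper327_Drum
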