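import Pool.Agent.Helper327_Drum.Defs

set_option autoImplicit false
open MeasureTheory Set Filter Topology

namespace Pool.Agent.Helper327_Drum

theorem cmpBall_conn {r : ℝ} (hr : 0 ≤ r) : IsConnected {z : ℂ | r < ‖z‖} := by
  have h1 : IsConnected (Set.Ioi r ×ˢ (Set.univ : Set Circle)) :=
    isConnected_Ioi.prod isConnected_univ
  have h2 := h1.image (fun p : ℝ × Circle => (p.1 : ℂ) * (p.2 : ℂ)) (by fun_prop)
  convert h2 using 1
  ext z
  simp only [Set.mem_image, Set.mem_prod, Set.mem_Ioi, Set.mem_univ, and_true, Prod.exists]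
  constructor
  · intro hz
    have hz' : r < ‖z‖ := hz
    have hz0 : (‖z‖ : ℂ) ≠ 0 := by
      have : ‖z‖ ≠ 0 := (lt_of_le_of_lt hr hz').ne'
      exact_mod_cast this
    refine ⟨‖z‖, ⟨z / ‖z‖, ?_⟩, hz, ?_⟩
    · refine mem_sphere_zero_iff_norm.2 ?_
      rw [norm_div, Complex.norm_real, norm_norm]
      exact div_self (by exact_mod_cast hz0)
    · change (‖z‖ : ℂ) * (z / ‖z‖) = z
      field_simp
  · rintro ⟨s, u, hs, rfl⟩
    change r < ‖(s : ℂ) * (u : ℂ)‖
    rw [norm_mul, Circle.norm_coe, mul_one, Complex.norm_real, Real.norm_eq_abs]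
    exact lt_of_lt_of_le hs (le_abs_self s)

theorem cmpBall_unb {r : ℝ} (C : Set ℂ) (hC : {z : ℂ | r < ‖z‖} ⊆ C) :
    ¬ Bornology.IsBounded C := by
  intro hb
  have h1 : Bornology.IsBounded (Set.univ : Set ℂ) := by
    refine (hb.union (Metric.isBounded_closedBall (x := (0 : ℂ)) (r := r))).subset fun z _ => ?_
    by_cases hz : r < ‖z‖
    · exact Or.inl (hC hz)
    · right; rw [mem_closedBall_zero_iff]; exact not_lt.1 hz
  exact NormedSpace.unbounded_univ ℝ ℂ h1

theorem exists_radius {R : Set ℂ} (hR : IsCompact R) : ∃ r : ℝ, 0 ≤ r ∧ ∀ z ∈ R, ‖z‖ ≤ r := by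
  obtain ⟨C, hC⟩ := hR.isBounded.exists_norm_le
  exact ⟨max C 0, le_max_right _ _, fun z hz => (hC z hz).trans (le_max_left _ _)⟩

theorem far_subset {R : Set ℂ} {r : ℝ} (hr : 0 ≤ r) (hR : ∀ z ∈ R, ‖z‖ ≤ r) {x : ℂ}
    (hx : r < ‖x‖) : {z : ℂ | r < ‖z‖} ⊆ connectedComponentIn Rᶜ x :=
  (cmpBall_conn hr).isPreconnected.subset_connectedComponentIn hx
    fun z hz hzR => absurd (hR z hzR) (not_le.2 hz)

theorem mem_inside_of_mem {R : Set ℂ} {x y : ℂ} (hx : x ∈ inside R)
    (hy : y ∈ connectedComponentIn Rᶜ x) : y ∈ inside R := by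
  refine ⟨connectedComponentIn_subset _ _ hy, ?_⟩
  rw [← connectedComponentIn_eq hy]
  exact hx.2

/-
Plain proof. Rᶜ is open and ℂ is locally connected, so components of Rᶜ are open and `inside R` is a
union of components. R lies in a ball B; the complement of B is connected (`isConnected_compl_closedBall`
or similar for real rank > 1) and unbounded, so every point off B has an unbounded component, hence
inside R ⊆ B. A frontier point of inside R that is not in R would have a component that is a neighbourhood,
which is either contained in or disjoint from inside R: impossible.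
-/

/-- TARGET 1 -/
theorem inside_basic {R : Set ℂ} (hR : IsCompact R) :
    IsOpen (inside R) ∧ Bornology.IsBounded (inside R) ∧ frontier (inside R) ⊆ R ∧
      closure (inside R) ⊆ inside R ∪ R ∧ Disjoint (inside R) R := by
  have hop : IsOpen (inside R) := by
    rw [isOpen_iff_mem_nhds]
    intro x hx
    have h1 : IsOpen (connectedComponentIn Rᶜ x) := hR.isClosed.isOpen_compl.connectedComponentIn
    exact Filter.mem_of_superset (h1.mem_nhds (mem_connectedComponentIn hx.1))
      fun y hy => mem_inside_of_mem hx hy
  have hfr : frontier (inside R) ⊆ R := by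
    intro y hy
    by_contra hyR
    have h1 : IsOpen (connectedComponentIn Rᶜ y) := hR.isClosed.isOpen_compl.connectedComponentIn
    obtain ⟨z, hz1, hz2⟩ := mem_closure_iff.1 (frontier_subset_closure hy) _ h1
      (mem_connectedComponentIn hyR)
    have h2 : y ∈ inside R := by
      refine mem_inside_of_mem hz2 ?_
      rw [← connectedComponentIn_eq hz1]
      exact mem_connectedComponentIn hyR
    rw [frontier, hop.interior_eq] at hy
    exact hy.2 h2
  refine ⟨hop, ?_, hfr, ?_, ?_⟩
  · obtain ⟨r, hr, hRr⟩ := exists_radius hR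
    refine (Metric.isBounded_closedBall (x := (0 : ℂ)) (r := r)).subset fun x hx => ?_
    rw [mem_closedBall_zero_iff]
    by_contra h
    exact cmpBall_unb _ (far_subset hr hRr (not_le.1 h)) hx.2
  · rw [closure_eq_self_union_frontier]
    exact Set.union_subset_union_right _ hfr
  · rw [Set.disjoint_left]
    exact fun x hx => hx.1

/-
Plain proof. (inside R)ᶜ = R ∪ (union of the unbounded components of Rᶜ); with a ball B ⊇ R there is
exactly one unbounded component U (it contains Bᶜ). U is connected, closure U ⊆ U ∪ R, and closure U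
meets R: otherwise U would be open and closed (R nonempty, so U ≠ ℂ). So R ∪ U = R ∪ closure U is a
union of two connected sets with a common point.
-/

/-- TARGET 2 -/
theorem inside_compl {R : Set ℂ} (hR : IsCompact R) (hc : IsConnected R) :
    IsConnected (inside R)ᶜ ∧ ¬ Bornology.IsBounded (inside R)ᶜ := by
  constructor
  swap
  · intro hb
    have h1 := (inside_basic hR).2.1.union hb
    rw [Set.union_compl_self] at h1
    exact NormedSpace.unbounded_univ ℝ ℂ h1
  obtain ⟨r, hr, hRr⟩ := exists_radius hR
  obtain ⟨p, hp⟩ := (cmpBall_conn hr).nonempty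
  have hpR : p ∈ Rᶜ := fun h => absurd (hRr p h) (not_le.2 hp)
  have hop : ∀ x, IsOpen (connectedComponentIn Rᶜ x) := fun x =>
    hR.isClosed.isOpen_compl.connectedComponentIn
  have hcl : closure (connectedComponentIn Rᶜ p) ⊆ connectedComponentIn Rᶜ p ∪ R := by
    intro y hy
    by_contra h
    have hy1 : y ∉ connectedComponentIn Rᶜ p := fun h' => h (Or.inl h')
    have hy2 : y ∈ Rᶜ := fun h' => h (Or.inr h')
    obtain ⟨z, hz1, hz2⟩ := mem_closure_iff.1 hy _ (hop y) (mem_connectedComponentIn hy2)
    apply hy1
    rw [connectedComponentIn_eq hz2, ← connectedComponentIn_eq hz1]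
    exact mem_connectedComponentIn hy2
  have hmeet : (R ∩ closure (connectedComponentIn Rᶜ p)).Nonempty := by
    rw [Set.nonempty_iff_ne_empty]
    intro he
    have h1 : closure (connectedComponentIn Rᶜ p) ⊆ connectedComponentIn Rᶜ p := by
      intro y hy
      rcases hcl hy with h | h
      · exact h
      · exact absurd (show y ∈ R ∩ closure (connectedComponentIn Rᶜ p) from ⟨h, hy⟩)
          (by rw [he]; exact Set.notMem_empty y)
    have h2 : IsClopen (connectedComponentIn Rᶜ p) :=
      ⟨isClosed_of_closure_subset h1, hop p⟩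
    rcases isClopen_iff.1 h2 with h3 | h3
    · have := mem_connectedComponentIn hpR
      rw [h3] at this
      exact this
    · obtain ⟨q, hq⟩ := hc.nonempty
      have : q ∈ connectedComponentIn Rᶜ p := by rw [h3]; trivial
      exact connectedComponentIn_subset _ _ this hq
  have hUc : IsConnected (closure (connectedComponentIn Rᶜ p)) :=
    (isConnected_connectedComponentIn_iff.2 hpR).closure
  have heq : (inside R)ᶜ = R ∪ closure (connectedComponentIn Rᶜ p) := by
    ext y
    constructor
    · intro hy
      by_cases hyR : y ∈ R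
      · exact Or.inl hyR
      · right
        apply subset_closure
        have h1 : ¬ Bornology.IsBounded (connectedComponentIn Rᶜ y) := fun h => hy ⟨hyR, h⟩
        have h2 : ∃ z ∈ connectedComponentIn Rᶜ y, r < ‖z‖ := by
          by_contra h
          push Not at h
          exact h1 ((Metric.isBounded_closedBall (x := (0 : ℂ)) (r := r)).subset fun x hx => by
            rw [mem_closedBall_zero_iff]; exact h x hx)
        obtain ⟨z, hz1, hz2⟩ := h2
        have h3 : z ∈ connectedComponentIn Rᶜ p := far_subset hr hRr hp hz2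
        rw [connectedComponentIn_eq h3, ← connectedComponentIn_eq hz1]
        exact mem_connectedComponentIn hyR
    · rintro (hy | hy) hin
      · exact hin.1 hy
      · rcases hcl hy with h | h
        · have h1 := hin.2
          rw [← connectedComponentIn_eq h] at h1
          exact cmpBall_unb _ (far_subset hr hRr hp) h1
        · exact hin.1 h
  rw [heq]
  exact hc.union hmeet hUc

/-
Plain proof. Let x ∈ inside γ and suppose x ∉ inside R. The set (inside R)ᶜ is connected and unbounded
(`inside_compl`), does not meet γ ⊆ inside R and contains x, so it is contained in the component of γᶜ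
containing x, which is bounded: contradiction.
-/

/-- TARGET 3 -/
theorem inside_sub {R γ : Set ℂ} (hR : IsCompact R) (hc : IsConnected R) (hγ : γ ⊆ inside R) :
    inside γ ⊆ inside R := by
  intro x hx
  by_contra hxR
  obtain ⟨h1, h2⟩ := inside_compl hR hc
  apply h2
  refine hx.2.subset (h1.isPreconnected.subset_connectedComponentIn hxR fun y hy hyγ => ?_)
  exact hy (hγ hyγ)

/-- TARGET 4 (trivial facts) -/
theorem scc_basic {R : Set ℂ} (hR : SimpleClosedCurve R) :
    IsCompact R ∧ IsConnected R ∧ R.Infinite := by
  obtain ⟨f, hf, hinj, rfl⟩ := hR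
  refine ⟨isCompact_range hf, isConnected_range hf, ?_⟩
  have hinf : Infinite Circle := by
    refine Infinite.of_injective (fun n : ℕ => Circle.exp (1 / ((n : ℝ) + 1))) fun m n hmn => ?_
    have h1 : ∀ n : ℕ, (1 : ℝ) / ((n : ℝ) + 1) ∈ Set.Ioc (-Real.pi) Real.pi := by
      intro n
      have hn : (0 : ℝ) < (n : ℝ) + 1 := by positivity
      constructor
      · have : (0 : ℝ) < 1 / ((n : ℝ) + 1) := by positivity
        linarith [Real.pi_pos]
      · have : 1 / ((n : ℝ) + 1) ≤ 1 := by
          rw [div_le_one hn]
          have : (0 : ℝ) ≤ n := by positivity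
          linarith
        linarith [Real.pi_gt_three]
    have h2 := Circle.injective_arg
    have h3 := congrArg (fun z : Circle => Complex.arg z) hmn
    simp only [Circle.arg_exp (h1 m).1 (h1 m).2, Circle.arg_exp (h1 n).1 (h1 n).2] at h3
    have hm0 : (m : ℝ) + 1 ≠ 0 := by positivity
    have hn0 : (n : ℝ) + 1 ≠ 0 := by positivity
    field_simp at h3
    have : (m : ℝ) = n := by linarith
    exact_mod_cast this
  exact Set.infinite_range_of_injective hinj

end Pool.Agent.Helper327_Drum
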