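import Pool.Agent.R227.SA8

set_option autoImplicit false
open MeasureTheory Set Filter
open scoped Topology ContDiff

namespace Pool.Agent.Helper327_Drum

open Pool.Agent.TH298.Sch (X er dd SC)
open Pool.Agent.R227.SA

section D1

variable {D : Set ℂ} (hD : IsOpen D) {g : ℂ → ℝ → ℝ}
    (hg : ContDiffOn ℝ 1 (fun p : ℂ × ℝ => g p.1 p.2) (D ×ˢ Set.univ))

include hD hg

lemma D1_hasFDerivAt_pair {x : ℂ} (hx : x ∈ D) (t : ℝ) :
    HasFDerivAt (fun p : ℂ × ℝ => g p.1 p.2) (fderiv ℝ (fun p : ℂ × ℝ => g p.1 p.2) (x, t))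
      (x, t) := by
  have h1 : DifferentiableOn ℝ (fun p : ℂ × ℝ => g p.1 p.2) (D ×ˢ Set.univ) :=
    hg.differentiableOn (by norm_num)
  exact (h1.differentiableAt ((hD.prod isOpen_univ).mem_nhds ⟨hx, mem_univ t⟩)).hasFDerivAt

lemma D1_hasFDerivAt_left {x : ℂ} (hx : x ∈ D) (t : ℝ) :
    HasFDerivAt (fun y => g y t)
      ((fderiv ℝ (fun p : ℂ × ℝ => g p.1 p.2) (x, t)).comp (ContinuousLinearMap.inl ℝ ℂ ℝ)) x :=
  HasFDerivAt.comp (g := fun p : ℂ × ℝ => g p.1 p.2) (f := fun y : ℂ => (y, t)) x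
    (D1_hasFDerivAt_pair hD hg hx t) (hasFDerivAt_prodMk_left x t)

lemma D1_fderiv_left {x : ℂ} (hx : x ∈ D) (t : ℝ) :
    fderiv ℝ (fun y => g y t) x =
      (fderiv ℝ (fun p : ℂ × ℝ => g p.1 p.2) (x, t)).comp (ContinuousLinearMap.inl ℝ ℂ ℝ) :=
  (D1_hasFDerivAt_left hD hg hx t).fderiv

lemma D1_cont_left : ContinuousOn (fun p : ℂ × ℝ =>
    (fderiv ℝ (fun p : ℂ × ℝ => g p.1 p.2) p).comp (ContinuousLinearMap.inl ℝ ℂ ℝ))
    (D ×ˢ Set.univ) :=
  (hg.continuousOn_fderiv_of_isOpen (hD.prod isOpen_univ) (by norm_num)).clm_comp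
    continuousOn_const

lemma D1_cont_sl {x : ℂ} (hx : x ∈ D) : Continuous (g x) :=
  hg.continuousOn.comp_continuous (f := fun t : ℝ => (x, t)) (by fun_prop)
    (fun t => ⟨hx, mem_univ t⟩)

lemma D1_cont_fd {x : ℂ} (hx : x ∈ D) : Continuous (fun t => fderiv ℝ (fun y => g y t) x) := by
  have h1 : (fun t => fderiv ℝ (fun y => g y t) x) = fun t =>
      (fderiv ℝ (fun p : ℂ × ℝ => g p.1 p.2) (x, t)).comp (ContinuousLinearMap.inl ℝ ℂ ℝ) :=
    funext fun t => D1_fderiv_left hD hg hx t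
  rw [h1]
  exact (D1_cont_left hD hg).comp_continuous (f := fun t : ℝ => (x, t)) (by fun_prop)
    (fun t => ⟨hx, mem_univ t⟩)

lemma D1_hasFDerivAt {W : ℝ → ℝ} (hW : Continuous W) (hWc : HasCompactSupport W) {x : ℂ}
    (hx : x ∈ D) :
    HasFDerivAt (fun x => ∫ t, W t * g x t) (∫ t, W t • fderiv ℝ (fun y => g y t) x) x := by
  obtain ⟨r, hr, hrD⟩ := Metric.isOpen_iff.mp hD x hx
  have hcb : Metric.closedBall x (r / 2) ⊆ D :=
    (Metric.closedBall_subset_ball (by linarith)).trans hrD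
  have hK : IsCompact (Metric.closedBall x (r / 2) ×ˢ tsupport W) :=
    (isCompact_closedBall x (r / 2)).prod hWc
  obtain ⟨M, hM⟩ := hK.exists_bound_of_continuousOn
    ((D1_cont_left hD hg).mono (prod_mono hcb (subset_univ _)))
  refine hasFDerivAt_integral_of_dominated_of_fderiv_le (bound := fun t => |W t| * M)
    (s := Metric.ball x (r / 2)) (F' := fun x t => W t • fderiv ℝ (fun y => g y t) x)
    (Metric.ball_mem_nhds x (by positivity)) ?_ ?_ ?_ ?_ ?_ ?_
  · filter_upwards [hD.mem_nhds hx] with y hy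
    exact (hW.mul (D1_cont_sl hD hg hy)).aestronglyMeasurable
  · exact (hW.mul (D1_cont_sl hD hg hx)).integrable_of_hasCompactSupport hWc.mul_right
  · exact (hW.smul (D1_cont_fd hD hg hx)).aestronglyMeasurable
  · refine Eventually.of_forall fun t y hy => ?_
    rw [norm_smul, Real.norm_eq_abs]
    have hyc : y ∈ Metric.closedBall x (r / 2) := Metric.ball_subset_closedBall hy
    by_cases ht : W t = 0
    · simp [ht]
    · rw [D1_fderiv_left hD hg (hcb hyc)]
      exact mul_le_mul_of_nonneg_left (hM (y, t) ⟨hyc, subset_tsupport W ht⟩) (abs_nonneg _)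
  · exact ((hW.abs).integrable_of_hasCompactSupport hWc.abs).mul_const M
  · refine Eventually.of_forall fun t y hy => ?_
    have hyD : y ∈ D := hcb (Metric.ball_subset_closedBall hy)
    have h1 := D1_hasFDerivAt_left hD hg hyD t
    rw [← D1_fderiv_left hD hg hyD] at h1
    exact h1.const_mul (W t)

lemma D1_fderiv {W : ℝ → ℝ} (hW : Continuous W) (hWc : HasCompactSupport W) {x : ℂ}
    (hx : x ∈ D) (v : ℂ) :
    fderiv ℝ (fun x => ∫ t, W t * g x t) x v = ∫ t, W t * fderiv ℝ (fun y => g y t) x v := by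
  rw [(D1_hasFDerivAt hD hg hW hWc hx).fderiv, ContinuousLinearMap.integral_apply]
  · rfl
  · exact (hW.smul (D1_cont_fd hD hg hx)).integrable_of_hasCompactSupport hWc.smul_right

end D1

/-- TARGET: superposition in time of a solution of the wave equation. -/
theorem param {D : Set ℂ} (hD : IsOpen D) {c : ℝ} (z : ℂ → ℝ → ℝ)
    (hz : ContDiffOn ℝ 2 (fun p : ℂ × ℝ => z p.1 p.2) (D ×ˢ Set.univ))
    (hw : ∀ x ∈ D, ∀ t, iteratedDeriv 2 (z x) t = c ^ 2 * la (fun y => z y t) x)
    (W : ℝ → ℝ) (hW : ContDiff ℝ ∞ W) (hWc : HasCompactSupport W) :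
    ContDiffOn ℝ 2 (fun x => ∫ t, W t * z x t) D ∧
    (∀ x ∈ D, ∀ v, fderiv ℝ (fun x => ∫ t, W t * z x t) x v =
      ∫ t, W t * fderiv ℝ (fun y => z y t) x v) ∧
    ∀ x ∈ D, c ^ 2 * la (fun x => ∫ t, W t * z x t) x = ∫ t, iteratedDeriv 2 W t * z x t := by
  have hz1 : ContDiffOn ℝ 1 (fun p : ℂ × ℝ => z p.1 p.2) (D ×ˢ Set.univ) :=
    hz.of_le (by norm_num)
  have hfirst : ∀ x ∈ D, ∀ v, fderiv ℝ (fun x => ∫ t, W t * z x t) x v =
      ∫ t, W t * fderiv ℝ (fun y => z y t) x v :=
    fun x hx v => D1_fderiv hD hz1 hW.continuous hWc hx v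
  refine ⟨?_, hfirst, ?_⟩
  · -- smoothness
    have h1 := contDiffOn_convolution_right_with_param_comp (n := 2) (μ := (volume : Measure ℝ))
      (ContinuousLinearMap.mul ℝ ℝ) (s := D) (v := fun _ : ℂ => (0 : ℝ)) contDiffOn_const
      (f := fun _ : ℝ => (1 : ℝ)) (g := fun x t => W (-t) * z x (-t))
      (k := (fun t : ℝ => -t) '' tsupport W) hD ?_ ?_ ?_ ?_
    · refine h1.congr ?_
      intro x _
      rw [MeasureTheory.convolution_def]
      simp
    · exact hWc.isCompact.image continuous_neg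
    · intro p t _ ht
      have : -t ∉ tsupport W := fun hh => ht ⟨-t, hh, by simp⟩
      rw [image_eq_zero_of_notMem_tsupport this, zero_mul]
    · exact locallyIntegrable_const 1
    · have hWn : ContDiff ℝ 2 (fun p : ℂ × ℝ => W (-p.2)) := by
        have : ContDiff ℝ 2 W := by exact_mod_cast contDiff_infty.mp hW 2
        exact this.comp (contDiff_snd.neg)
      have hzn : ContDiffOn ℝ 2 (fun p : ℂ × ℝ => z p.1 (-p.2)) (D ×ˢ Set.univ) := by
        have h2 : ContDiffOn ℝ 2 (fun p : ℂ × ℝ => (p.1, -p.2)) (D ×ˢ Set.univ) :=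
          (contDiff_fst.prodMk contDiff_snd.neg).contDiffOn
        exact hz.comp h2 (fun p hp => ⟨hp.1, mem_univ _⟩)
      exact hWn.contDiffOn.mul hzn
  · intro x hx
    -- second derivatives
    have hg : ∀ h : ℂ, ContDiffOn ℝ 1 (fun p : ℂ × ℝ => fderiv ℝ (fun y => z y p.2) p.1 h)
        (D ×ˢ Set.univ) := by
      intro h
      have h1 : ContDiffOn ℝ 1 (fun p : ℂ × ℝ =>
          fderiv ℝ (fun q : ℂ × ℝ => z q.1 q.2) p (h, 0)) (D ×ˢ Set.univ) :=
        (hz.fderiv_of_isOpen (hD.prod isOpen_univ) (by norm_num)).clm_apply contDiffOn_const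
      refine h1.congr ?_
      rintro ⟨y, t⟩ hy
      simp only
      rw [D1_fderiv_left hD hz1 hy.1]
      simp
    have hdd : ∀ h : ℂ, dd h (dd h (fun x => ∫ t, W t * z x t)) x
        = ∫ t, W t * dd h (dd h (fun y => z y t)) x := by
      intro h
      have h1 : dd h (fun x => ∫ t, W t * z x t) =ᶠ[𝓝 x]
          fun y => ∫ t, W t * fderiv ℝ (fun y => z y t) y h := by
        filter_upwards [hD.mem_nhds hx] with y hy
        exact hfirst y hy h
      unfold dd at h1 ⊢
      rw [h1.fderiv_eq]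
      exact D1_fderiv hD (g := fun y t => fderiv ℝ (fun y => z y t) y h) (hg h)
        hW.continuous hWc hx h
    have hint : ∀ h : ℂ, Integrable (fun t => W t * dd h (dd h (fun y => z y t)) x) := by
      intro h
      apply Continuous.integrable_of_hasCompactSupport _ hWc.mul_right
      apply hW.continuous.mul
      have h2 := D1_cont_fd hD (g := fun y t => fderiv ℝ (fun y => z y t) y h) (hg h) hx
      exact h2.clm_apply continuous_const
    have hla : la (fun x => ∫ t, W t * z x t) x = ∫ t, W t * la (fun y => z y t) x := by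
      unfold la
      rw [hdd, hdd, ← integral_add (hint 1) (hint Complex.I)]
      congr 1
      funext t
      ring
    rw [hla, ← integral_const_mul]
    have h3 : (fun t => c ^ 2 * (W t * la (fun y => z y t) x)) =
        fun t => W t * iteratedDeriv 2 (z x) t := by
      funext t
      rw [hw x hx t]
      ring
    rw [h3]
    -- integration by parts
    have hzx : ContDiff ℝ 2 (z x) := by
      rw [← contDiffOn_univ]
      exact hz.comp (f := fun t : ℝ => (x, t)) (contDiff_prodMk_right x).contDiffOn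
        (fun t _ => ⟨hx, mem_univ t⟩)
    have hW2 : ContDiff ℝ 2 W := by exact_mod_cast contDiff_infty.mp hW 2
    have hit : ∀ f : ℝ → ℝ, iteratedDeriv 2 f = deriv (deriv f) := by
      intro f
      rw [iteratedDeriv_succ, iteratedDeriv_one]
    rw [hit, hit]
    have key : ∀ f : ℝ → ℝ, ContDiff ℝ 2 f → (∀ t, HasDerivAt f (deriv f t) t) ∧
        (∀ t, HasDerivAt (deriv f) (deriv (deriv f) t) t) ∧ Continuous f ∧
        Continuous (deriv f) ∧ Continuous (deriv (deriv f)) := by
      intro f hf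
      have h1 : ContDiff ℝ (1 + 1) f := hf
      rw [contDiff_succ_iff_deriv] at h1
      obtain ⟨h2, -, h3⟩ := h1
      exact ⟨fun t => (h2 t).hasDerivAt, fun t => (h3.differentiable (by norm_num) t).hasDerivAt,
        hf.continuous, h3.continuous, h3.continuous_deriv (by norm_num)⟩
    obtain ⟨a1, a2, a3, a4, a5⟩ := key W hW2
    obtain ⟨b1, b2, b3, b4, b5⟩ := key (z x) hzx
    have c1 : HasCompactSupport (deriv W) := hWc.deriv
    have c2 : HasCompactSupport (deriv (deriv W)) := c1.deriv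
    have e1 := integral_mul_deriv_eq_deriv_mul_of_integrable (u := W) (v := deriv (z x))
      (fun t _ => a1 t) (fun t _ => b2 t)
      ((a3.mul b5).integrable_of_hasCompactSupport hWc.mul_right)
      ((a4.mul b4).integrable_of_hasCompactSupport c1.mul_right)
      ((a3.mul b4).integrable_of_hasCompactSupport hWc.mul_right)
    have e2 := integral_mul_deriv_eq_deriv_mul_of_integrable (u := deriv W) (v := z x)
      (fun t _ => a2 t) (fun t _ => b1 t)
      ((a4.mul b4).integrable_of_hasCompactSupport c1.mul_right)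
      ((a5.mul b3).integrable_of_hasCompactSupport c2.mul_right)
      ((a4.mul b3).integrable_of_hasCompactSupport c1.mul_right)
    rw [e1, e2, neg_neg]

end Pool.Agent.Helper327_Drum
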