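import Pool.Agent.TH298.Sch.Rot1
import Pool.Agent.R227.SA8
import Pool.Agent.Helper327_Drum.Fin.D1
import Pool.Agent.Helper327_Drum.Defs
import Pool.Agent.Helper327_Drum.Fin.G1
import Pool.Agent.Helper327_Drum.MoreDefs
import Pool.Agent.Helper327_Drum.OpDefs

set_option autoImplicit false
open MeasureTheory Set Filter Topology
open scoped ContDiff InnerProductSpace

namespace Pool.Agent.Helper327_Drum

open Pool.Agent.TH298.Sch (dd SC)
open Pool.Agent.R227.SA (la)

/-
Plain proof. (1) D = inside R is open and bounded with closure D ⊆ D ∪ R; z is continuous on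
(D ∪ R) × ℝ and 0 on R × ℝ. At (x,t) with x ∈ D: zx = z near (x,t). With x ∉ closure D: zx = 0 nearby. With
x ∈ frontier D ⊆ R: z → 0 = z x t within D ∪ R, so |zx| ≤ small near (x,t).
(2) zx vanishes for x off the bounded set D, and is uniformly continuous on (ball) × [a,b], so
‖cl (zx · s) - cl (zx · t)‖² = ∫ (zx x s - zx x t)² ≤ |ball| sup² → 0.
(3) Bochner integral in L²: test against an arbitrary element h of L² (`ext_inner_left`/`integral_inner`) and use
Fubini: ⟨h, ∫ W(t) cl(zx t) dt⟩ = ∫ W(t) ∫ h zx(x,t) dx dt = ∫ h(x) ∫ W(t) zx(x,t) dt dx; integrand is integrable on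
ℂ × ℝ since zx is bounded on ball × supp W, h ∈ L² and D is bounded.
-/

/-! #### preparation -/

section Prep

open scoped ENNReal

theorem memLp_of_cont {f : ℂ → ℝ} (hf : Continuous f) {r : ℝ}
    (h0 : ∀ x, x ∉ Metric.closedBall (0 : ℂ) r → f x = 0) : MemLp f 2 (volume : Measure ℂ) :=
  hf.memLp_of_hasCompactSupport (HasCompactSupport.intro (isCompact_closedBall 0 r) h0)

theorem cl_coe {f : ℂ → ℝ} (hf : MemLp f 2 (volume : Measure ℂ)) : (cl f : ℂ → ℝ) =ᵐ[volume] f := by
  unfold cl
  rw [dif_pos hf]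
  exact hf.coeFn_toLp

theorem cl_norm_sub {f g : ℂ → ℝ} (hf : Continuous f) (hg : Continuous g) {r : ℝ}
    (h0 : ∀ x, x ∉ Metric.closedBall (0 : ℂ) r → f x = 0)
    (h1 : ∀ x, x ∉ Metric.closedBall (0 : ℂ) r → g x = 0) {e : ℝ} (he : 0 ≤ e)
    (h : ∀ x ∈ Metric.closedBall (0 : ℂ) r, |f x - g x| ≤ e) :
    ‖cl f - cl g‖ ≤
      ((volume (Metric.closedBall (0 : ℂ) r)) ^ ((2 : ℝ≥0∞).toReal⁻¹)).toReal * e := by
  have hf2 := memLp_of_cont hf h0
  have hg2 := memLp_of_cont hg h1
  have e1 : cl f - cl g = (hf2.sub hg2).toLp (f - g) := by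
    unfold cl
    rw [dif_pos hf2, dif_pos hg2, ← MemLp.toLp_sub]
  rw [e1, Lp.norm_toLp]
  have hsupp : (f - g).support ⊆ Metric.closedBall (0 : ℂ) r := by
    intro x hx
    by_contra hx'
    exact hx (by simp [h0 x hx', h1 x hx'])
  rw [← eLpNorm_restrict_eq_of_support_subset hsupp]
  have key := eLpNorm_le_of_ae_bound (f := f - g) (p := (2 : ℝ≥0∞))
    (μ := (volume : Measure ℂ).restrict (Metric.closedBall (0 : ℂ) r)) (C := e)
    ((ae_restrict_iff' Metric.isClosed_closedBall.measurableSet).2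
      (Eventually.of_forall fun x hx => by simpa using h x hx))
  rw [Measure.restrict_apply_univ] at key
  have hfin : (volume (Metric.closedBall (0 : ℂ) r)) ^ ((2 : ℝ≥0∞).toReal⁻¹) ≠ ⊤ := by
    apply ENNReal.rpow_ne_top_of_nonneg (by positivity)
    exact (isCompact_closedBall (0 : ℂ) r).measure_lt_top.ne
  calc (eLpNorm (f - g) 2 (volume.restrict (Metric.closedBall 0 r))).toReal
      ≤ ((volume (Metric.closedBall (0 : ℂ) r)) ^ ((2 : ℝ≥0∞).toReal⁻¹) * ENNReal.ofReal e).toReal :=
        ENNReal.toReal_mono (ENNReal.mul_ne_top hfin ENNReal.ofReal_ne_top) key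
    _ = _ := by rw [ENNReal.toReal_mul, ENNReal.toReal_ofReal he]

theorem cl_continuous {F : ℂ → ℝ → ℝ} (hF : Continuous (fun p : ℂ × ℝ => F p.1 p.2)) {r : ℝ}
    (h0 : ∀ x, x ∉ Metric.closedBall (0 : ℂ) r → ∀ t, F x t = 0) :
    Continuous (fun t : ℝ => cl (fun x => F x t)) := by
  have hFt : ∀ t, Continuous (fun x => F x t) := fun t =>
    hF.comp (continuous_id.prodMk continuous_const)
  rw [continuous_iff_continuousAt]
  intro t0
  have : CompactSpace (Metric.closedBall (0 : ℂ) r) :=
    isCompact_iff_compactSpace.1 (isCompact_closedBall 0 r)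
  have hu : TendstoUniformly (fun (t : ℝ) (x : Metric.closedBall (0 : ℂ) r) => F x t)
      (fun x => F x t0) (𝓝 t0) := by
    apply Continuous.tendstoUniformly (fun (t : ℝ) (x : Metric.closedBall (0 : ℂ) r) => F x t)
    exact hF.comp ((continuous_subtype_val.comp continuous_snd).prodMk continuous_fst)
  rw [Metric.tendstoUniformly_iff] at hu
  set C := ((volume (Metric.closedBall (0 : ℂ) r)) ^ ((2 : ℝ≥0∞).toReal⁻¹)).toReal with hC
  have hC0 : 0 ≤ C := ENNReal.toReal_nonneg
  rw [ContinuousAt, Metric.tendsto_nhds]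
  intro e he
  have he' : 0 < e / (C + 1) := by positivity
  filter_upwards [hu _ he'] with t ht
  rw [dist_eq_norm]
  have := cl_norm_sub (hFt t) (hFt t0) (r := r) (fun x hx => h0 x hx t) (fun x hx => h0 x hx t0)
    he'.le (fun x hx => by
      have := (ht ⟨x, hx⟩).le
      rwa [Real.dist_eq, abs_sub_comm] at this)
  calc ‖cl (fun x => F x t) - cl (fun x => F x t0)‖ ≤ C * (e / (C + 1)) := this
    _ < e := by
        rw [mul_div_assoc', div_lt_iff₀ (by positivity)]
        nlinarith

theorem pint_continuous {F : ℂ → ℝ → ℝ} (hF : Continuous (fun p : ℂ × ℝ => F p.1 p.2))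
    {W : ℝ → ℝ} (hW : Continuous W) (hWc : HasCompactSupport W) :
    Continuous (fun x => ∫ t, W t * F x t) := by
  have h1 : Continuous (Function.uncurry fun (x : ℂ) (t : ℝ) => W t * F x t) :=
    (hW.comp continuous_snd).mul hF
  have h2 := continuous_parametric_integral_of_continuous (μ := (volume : Measure ℝ)) h1
    (s := tsupport W) hWc
  refine h2.congr fun x => ?_
  apply setIntegral_eq_integral_of_forall_compl_eq_zero
  intro t ht
  rw [image_eq_zero_of_notMem_tsupport ht, zero_mul]

theorem cl_integral {F : ℂ → ℝ → ℝ} (hF : Continuous (fun p : ℂ × ℝ => F p.1 p.2)) {r : ℝ}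
    (h0 : ∀ x, x ∉ Metric.closedBall (0 : ℂ) r → ∀ t, F x t = 0)
    {W : ℝ → ℝ} (hW : Continuous W) (hWc : HasCompactSupport W) :
    (∫ t, W t • cl (fun x => F x t) : L2) = cl (fun x => ∫ t, W t * F x t) := by
  have hFt : ∀ t, Continuous (fun x => F x t) := fun t =>
    hF.comp (continuous_id.prodMk continuous_const)
  have hG := pint_continuous hF hW hWc
  have hG2 : MemLp (fun x => ∫ t, W t * F x t) 2 (volume : Measure ℂ) :=
    memLp_of_cont hG (r := r) (fun x hx => by simp [h0 x hx])
  have hint : Integrable (fun t => W t • cl (fun x => F x t)) volume := by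
    apply Continuous.integrable_of_hasCompactSupport
    · exact hW.smul (cl_continuous hF h0)
    · exact hWc.smul_right
  apply ext_inner_left ℝ
  intro v
  rw [← integral_inner hint]
  have e1 : ∀ t, inner ℝ v (W t • cl (fun x => F x t)) = ∫ x, v x * (W t * F x t) := by
    intro t
    rw [inner_smul_right, L2.inner_def, ← integral_const_mul]
    apply integral_congr_ae
    filter_upwards [cl_coe (memLp_of_cont (hFt t) (r := r) (fun x hx => h0 x hx t))] with x hx
    rw [hx]
    simp
    ring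
  have e2 : inner ℝ v (cl fun x => ∫ t, W t * F x t) = ∫ x, ∫ t, v x * (W t * F x t) := by
    rw [L2.inner_def]
    apply integral_congr_ae
    filter_upwards [cl_coe hG2] with x hx
    rw [hx, integral_const_mul]
    simp [mul_comm]
  rw [e2]
  simp_rw [e1]
  symm
  apply integral_integral_swap
  -- integrability
  obtain ⟨M, hM⟩ : ∃ M, ∀ p : ℂ × ℝ, ‖W p.2 * F p.1 p.2‖ ≤ M := by
    have hc : Continuous (fun p : ℂ × ℝ => W p.2 * F p.1 p.2) := (hW.comp continuous_snd).mul hF
    have hs : HasCompactSupport (fun p : ℂ × ℝ => W p.2 * F p.1 p.2) := by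
      apply HasCompactSupport.intro ((isCompact_closedBall (0 : ℂ) r).prod hWc)
      rintro ⟨x, t⟩ hp
      simp only [mem_prod, not_and_or] at hp
      rcases hp with hp | hp
      · simp [h0 x hp]
      · simp [image_eq_zero_of_notMem_tsupport hp]
    exact hc.bounded_above_of_compact_support hs |>.imp fun M hM => hM
  have hv : Integrable (fun x => (Metric.closedBall (0 : ℂ) r).indicator v x) volume := by
    rw [integrable_indicator_iff Metric.isClosed_closedBall.measurableSet]
    exact integrableOn_Lp_of_measure_ne_top v (by norm_num)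
      (isCompact_closedBall (0 : ℂ) r).measure_lt_top.ne
  have hI : Integrable (fun t => (tsupport W).indicator (fun _ => (1 : ℝ)) t) volume := by
    rw [integrable_indicator_iff (isClosed_tsupport W).measurableSet]
    exact integrableOn_const (IsCompact.measure_lt_top hWc).ne
  have hprod := (hv.mul_prod hI).const_mul M
  refine hprod.mono ?_ ?_
  · have hc : Continuous (fun p : ℂ × ℝ => W p.2 * F p.1 p.2) := (hW.comp continuous_snd).mul hF
    exact ((Lp.aestronglyMeasurable v).comp_fst).mul hc.aestronglyMeasurable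
  · refine Eventually.of_forall fun p => ?_
    obtain ⟨x, t⟩ := p
    have hM0 : 0 ≤ M := (norm_nonneg _).trans (hM (x, t))
    simp only [Function.uncurry_apply_pair]
    by_cases hx : x ∈ Metric.closedBall (0 : ℂ) r
    · by_cases ht : t ∈ tsupport W
      · rw [indicator_of_mem hx, indicator_of_mem ht, mul_one, norm_mul, norm_mul M, mul_comm]
        exact mul_le_mul_of_nonneg_right ((hM (x, t)).trans (le_abs_self M)) (norm_nonneg _)
      · rw [image_eq_zero_of_notMem_tsupport ht]
        simp only [zero_mul, mul_zero, norm_zero]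
        exact norm_nonneg _
    · rw [h0 x hx]
      simp only [mul_zero, norm_zero]
      exact norm_nonneg _

end Prep

/-! #### the targets -/

/-- TARGET 1 -/
theorem zx_cont {R : Set ℂ} {c : ℝ} {z : ℂ → ℝ → ℝ} {g : ℂ → ℝ → ℂ} (hR : IsCompact R)
    (h : DrumSolution R c z g) : Continuous (fun p : ℂ × ℝ => zx R z p.1 p.2) := by
  obtain ⟨hO, hb, hf, hc, hd⟩ := inside_basic hR
  have e : (fun p : ℂ × ℝ => zx R z p.1 p.2) =
      (inside R ×ˢ (univ : Set ℝ)).indicator (fun p : ℂ × ℝ => z p.1 p.2) := by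
    funext p
    unfold zx
    by_cases hp : p.1 ∈ inside R
    · rw [indicator_of_mem hp, indicator_of_mem (by simp [hp])]
    · rw [indicator_of_notMem hp, indicator_of_notMem (by simp [hp])]
  rw [e]
  apply continuous_indicator
  · intro p hp
    rw [frontier_prod_univ_eq] at hp
    exact h.clamped p.1 (hf hp.1) p.2
  · rw [closure_prod_eq, closure_univ]
    exact h.cont.mono (prod_mono hc le_rfl)

theorem exists_ball {R : Set ℂ} (hR : IsCompact R) :
    ∃ r : ℝ, ∀ (z : ℂ → ℝ → ℝ) (x : ℂ), x ∉ Metric.closedBall (0 : ℂ) r → ∀ t, zx R z x t = 0 := by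
  obtain ⟨hO, hb, hf, hc, hd⟩ := inside_basic hR
  obtain ⟨r, hr⟩ := hb.subset_closedBall (0 : ℂ)
  exact ⟨r, fun z x hx t => indicator_of_notMem (fun h => hx (hr h)) _⟩

/-- TARGET 2 -/
theorem zc_cont {R : Set ℂ} {c : ℝ} {z : ℂ → ℝ → ℝ} {g : ℂ → ℝ → ℂ} (hR : IsCompact R)
    (h : DrumSolution R c z g) :
    Continuous (fun t : ℝ => cl (fun x => zx R z x t)) ∧
      ∀ t, (cl (fun x => zx R z x t) : ℂ → ℝ) =ᵐ[volume] fun x => zx R z x t := by
  obtain ⟨r, hr⟩ := exists_ball hR
  have hF := zx_cont hR h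
  refine ⟨cl_continuous hF (hr z), fun t => cl_coe (memLp_of_cont ?_ fun x hx => hr z x hx t)⟩
  exact hF.comp (continuous_id.prodMk continuous_const)

/-- TARGET 3 -/
theorem zc_int {R : Set ℂ} {c : ℝ} {z : ℂ → ℝ → ℝ} {g : ℂ → ℝ → ℂ} (hR : IsCompact R)
    (h : DrumSolution R c z g) {W : ℝ → ℝ} (hW : Continuous W) (hWc : HasCompactSupport W) :
    ((∫ t, W t • cl (fun x => zx R z x t) : L2) : ℂ → ℝ) =ᵐ[volume]
      fun x => ∫ t, W t * zx R z x t := by
  obtain ⟨r, hr⟩ := exists_ball hR
  have hF := zx_cont hR h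
  rw [cl_integral hF (hr z) hW hWc]
  apply cl_coe
  exact memLp_of_cont (pint_continuous hF hW hWc) (r := r) (fun x hx => by simp [hr z x hx])

/-- TARGET 4: superpositions in time, extended by zero. -/
theorem zW_nice {R : Set ℂ} {c : ℝ} {z : ℂ → ℝ → ℝ} {g : ℂ → ℝ → ℂ} (hR : IsCompact R)
    (hc : 0 < c) (h : DrumSolution R c z g) {W : ℝ → ℝ} (hW : ContDiff ℝ ∞ W)
    (hWc : HasCompactSupport W) :
    Continuous (fun x => ∫ t, W t * zx R z x t) ∧
    (∀ x, x ∉ inside R → ∫ t, W t * zx R z x t = 0) ∧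
    ContDiffOn ℝ 2 (fun x => ∫ t, W t * zx R z x t) (inside R) ∧
    (∀ x ∈ inside R, la (fun x => ∫ t, W t * zx R z x t) x =
      (c ^ 2)⁻¹ * ∫ t, iteratedDeriv 2 W t * zx R z x t) ∧
    (∀ x ∈ inside R, ∀ v : ℂ, fderiv ℝ (fun x => ∫ t, W t * zx R z x t) x v =
      ∫ t, W t * (v.re * (g x t).re + v.im * (g x t).im)) ∧
    (∃ M, ∀ x ∈ inside R, |∫ t, W t * zx R z x t| ≤ M) ∧
    (∃ M, ∀ x ∈ inside R, ‖fderiv ℝ (fun x => ∫ t, W t * zx R z x t) x‖ ≤ M) := by
  obtain ⟨hO, hb, hf, hcl, hd⟩ := inside_basic hR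
  obtain ⟨r, hr⟩ := exists_ball hR
  have hF := zx_cont hR h
  have hWcont : Continuous W := hW.continuous
  have hG := pint_continuous hF hWcont hWc
  obtain ⟨p1, p2, p3⟩ := param hO z h.smooth h.wave W hW hWc
  have heq : ∀ x ∈ inside R, (∫ t, W t * zx R z x t) = ∫ t, W t * z x t := by
    intro x hx
    unfold zx
    simp only [indicator_of_mem hx]
  have hevv : ∀ x ∈ inside R, (fun x => ∫ t, W t * zx R z x t) =ᶠ[𝓝 x]
      fun x => ∫ t, W t * z x t := by
    intro x hx
    filter_upwards [hO.mem_nhds hx] with y hy using heq y hy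
  have hder : ∀ x ∈ inside R, ∀ v : ℂ, fderiv ℝ (fun x => ∫ t, W t * zx R z x t) x v =
      ∫ t, W t * (v.re * (g x t).re + v.im * (g x t).im) := by
    intro x hx v
    rw [(hevv x hx).fderiv_eq, p2 x hx v]
    apply integral_congr_ae
    refine Eventually.of_forall fun t => ?_
    dsimp only
    have hg := h.grad x hx t
    have hv : v = v.re • (1 : ℂ) + v.im • Complex.I := by
      apply Complex.ext <;> simp
    have : fderiv ℝ (fun y => z y t) x v = v.re * (g x t).re + v.im * (g x t).im := by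
      conv_lhs => rw [hv]
      rw [map_add, map_smul, map_smul, hg]
      simp
    rw [this]
  refine ⟨hG, ?_, ?_, ?_, hder, ?_, ?_⟩
  · intro x hx
    unfold zx
    simp [indicator_of_notMem hx]
  · exact p1.congr fun x hx => heq x hx
  · intro x hx
    have e1 : la (fun x => ∫ t, W t * zx R z x t) x = la (fun x => ∫ t, W t * z x t) x := by
      unfold la dd
      have h1 : ∀ v : ℂ, (fun y => fderiv ℝ (fun x => ∫ t, W t * zx R z x t) y v) =ᶠ[𝓝 x]
          fun y => fderiv ℝ (fun x => ∫ t, W t * z x t) y v := by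
        intro v
        filter_upwards [hO.mem_nhds hx] with y hy
        rw [(hevv y hy).fderiv_eq]
      rw [(h1 1).fderiv_eq, (h1 Complex.I).fderiv_eq]
    have e2 : (∫ t, iteratedDeriv 2 W t * zx R z x t) = ∫ t, iteratedDeriv 2 W t * z x t := by
      unfold zx
      simp only [indicator_of_mem hx]
    rw [e1, e2, ← p3 x hx]
    field_simp
  · have hs : HasCompactSupport (fun x => ∫ t, W t * zx R z x t) :=
      HasCompactSupport.intro (isCompact_closedBall (0 : ℂ) r) fun x hx => by simp [hr z x hx]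
    obtain ⟨M, hM⟩ := hG.bounded_above_of_compact_support hs
    exact ⟨M, fun x _ => hM x⟩
  · -- the gradient is bounded
    have hK : IsCompact (closure (inside R) ×ˢ tsupport W) :=
      (hb.isCompact_closure).prod hWc
    obtain ⟨Mg, hMg⟩ := hK.exists_bound_of_continuousOn
      (h.grad_cont.mono (prod_mono hcl (subset_univ _)))
    have hMg' : ∀ x ∈ inside R, ∀ t ∈ tsupport W, ‖g x t‖ ≤ Mg := fun x hx t ht =>
      hMg (x, t) ⟨subset_closure hx, ht⟩
    have hWi : Integrable (fun t => |W t|) volume :=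
      (hWcont.integrable_of_hasCompactSupport hWc).abs
    refine ⟨(∫ t, |W t|) * (2 * |Mg|), fun x hx => ?_⟩
    refine ContinuousLinearMap.opNorm_le_bound _ (by positivity) fun v => ?_
    rw [hder x hx v]
    have hbd : ∀ t, ‖W t * (v.re * (g x t).re + v.im * (g x t).im)‖ ≤
        |W t| * (2 * |Mg| * ‖v‖) := by
      intro t
      by_cases ht : t ∈ tsupport W
      · have hgt := (hMg' x hx t ht).trans (le_abs_self Mg)
        rw [norm_mul, Real.norm_eq_abs]
        gcongr
        have a1 : |v.re * (g x t).re| ≤ ‖v‖ * |Mg| := by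
          rw [abs_mul]
          exact mul_le_mul (Complex.abs_re_le_norm v) ((Complex.abs_re_le_norm _).trans hgt)
            (abs_nonneg _) (norm_nonneg _)
        have a2 : |v.im * (g x t).im| ≤ ‖v‖ * |Mg| := by
          rw [abs_mul]
          exact mul_le_mul (Complex.abs_im_le_norm v) ((Complex.abs_im_le_norm _).trans hgt)
            (abs_nonneg _) (norm_nonneg _)
        calc ‖v.re * (g x t).re + v.im * (g x t).im‖ ≤
            |v.re * (g x t).re| + |v.im * (g x t).im| := abs_add_le _ _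
          _ ≤ 2 * |Mg| * ‖v‖ := by linarith
      · rw [image_eq_zero_of_notMem_tsupport ht]
        simp
    calc ‖∫ t, W t * (v.re * (g x t).re + v.im * (g x t).im)‖ ≤ ∫ t, |W t| * (2 * |Mg| * ‖v‖) :=
          norm_integral_le_of_norm_le (hWi.mul_const _) (Eventually.of_forall hbd)
      _ = (∫ t, |W t|) * (2 * |Mg|) * ‖v‖ := by
          rw [integral_mul_const]
          ring

end Pool.Agent.Helper327_Drum
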