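import Pool.Agent.TH298.Sch.Rot1
import Pool.Agent.Helper327_Drum.OpDefs

set_option autoImplicit false
open MeasureTheory Set Filter Topology
open scoped ContDiff InnerProductSpace

namespace Pool.Agent.Helper327_Drum

open Pool.Agent.TH298.Sch (dd SC)

/-
Plain proof. Mollify φ with a smooth bump of radius δ less than the distance of tsupport φ to the
complement of D (e.g. `ContDiffBump` normed, convolution): ψ = ρ_δ * φ is smooth, has compact support
in D, and ψ → φ, ∂ψ = ρ_δ * ∂φ → ∂φ uniformly, with supports in a fixed compact set.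
-/

theorem approx_sc_sq {K : Set ℂ} (hK : IsCompact K) {f : ℂ → ℝ} {c : ℝ} (hf : ∀ x, x ∉ K → f x = 0)
    (hc : ∀ x, |f x| ≤ c) : ∫ x, f x ^ 2 ≤ c ^ 2 * (volume : Measure ℂ).real K := by
  have h1 : ∫ x in K, f x ^ 2 = ∫ x, f x ^ 2 :=
    setIntegral_eq_integral_of_forall_compl_eq_zero fun x hx => by rw [hf x hx]; simp
  rw [← h1]
  refine (le_abs_self _).trans ?_
  rw [← Real.norm_eq_abs]
  refine norm_setIntegral_le_of_norm_le_const hK.measure_lt_top fun x _ => ?_
  rw [Real.norm_eq_abs, abs_pow]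
  exact pow_le_pow_left₀ (abs_nonneg _) (hc x) 2

open scoped Convolution Pointwise in
theorem approx_sc_moll {φ : ℂ → ℝ} (hφ : ContDiff ℝ 1 φ) (hc : HasCompactSupport φ)
    (ρ : ContDiffBump (0 : ℂ)) {ε : ℝ}
    (h1 : ∀ x y, dist x y < ρ.rOut → dist (φ x) (φ y) ≤ ε)
    (h2 : ∀ x y, dist x y < ρ.rOut → dist (fderiv ℝ φ x) (fderiv ℝ φ y) ≤ ε) :
    ∃ ψ : ℂ → ℝ, ContDiff ℝ ∞ ψ ∧ Function.support ψ ⊆ Metric.ball (0 : ℂ) ρ.rOut + tsupport φ ∧
      (∀ x, |φ x - ψ x| ≤ ε) ∧ ∀ h x, |dd h φ x - dd h ψ x| ≤ ε * ‖h‖ := by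
  have hφc : Continuous φ := hφ.continuous
  have hli : LocallyIntegrable (ρ.normed volume) (volume : Measure ℂ) :=
    ρ.continuous_normed.locallyIntegrable
  have hfc : Continuous (fderiv ℝ φ) := hφ.continuous_fderiv (by norm_num)
  refine ⟨ρ.normed volume ⋆[ContinuousLinearMap.lsmul ℝ ℝ, volume] φ, ?_, ?_, ?_, ?_⟩
  · exact ρ.hasCompactSupport_normed.contDiff_convolution_left _ ρ.contDiff_normed
      hφc.locallyIntegrable
  · refine (support_convolution_subset _).trans ?_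
    rw [ρ.support_normed_eq]
    exact Set.add_subset_add_left (subset_tsupport φ)
  · intro x
    rw [abs_sub_comm, ← Real.dist_eq]
    exact ρ.dist_normed_convolution_le hφc.aestronglyMeasurable fun y hy =>
      h1 y x (by simpa using hy)
  · intro h x
    have e := hc.hasFDerivAt_convolution_right (ContinuousLinearMap.lsmul ℝ ℝ) hli hφ x
    have e2 : dd h (ρ.normed volume ⋆[ContinuousLinearMap.lsmul ℝ ℝ, volume] φ) x =
        (ρ.normed volume ⋆[ContinuousLinearMap.lsmul ℝ ℝ, volume] fun a => dd h φ a) x := by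
      unfold dd
      rw [e.fderiv, convolution_precompR_apply _ hli (hc.fderiv ℝ) hfc]
    rw [e2, abs_sub_comm, ← Real.dist_eq]
    refine ρ.dist_normed_convolution_le ?_ fun y hy => ?_
    · exact (hfc.clm_apply continuous_const).aestronglyMeasurable
    · have := h2 y x (by simpa using hy)
      rw [dist_eq_norm] at this
      unfold dd
      rw [Real.dist_eq, ← Real.norm_eq_abs, ← sub_apply]
      exact (ContinuousLinearMap.le_opNorm _ _).trans (by gcongr)

/-- TARGET: approximation of `C¹` test functions by smooth ones. -/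
theorem approx_sc {D : Set ℂ} (hD : IsOpen D) {φ : ℂ → ℝ} (hφ : C1c D φ) {ε : ℝ} (hε : 0 < ε) :
    ∃ ψ : ℂ → ℝ, SC ψ ∧ tsupport ψ ⊆ D ∧ (∀ x, |φ x - ψ x| ≤ ε) ∧
      (∀ h x, |dd h φ x - dd h ψ x| ≤ ε * ‖h‖) ∧ ∫ x, (φ x - ψ x) ^ 2 ≤ ε ∧
      ∫ x, (dd 1 φ x - dd 1 ψ x) ^ 2 ≤ ε ∧ ∫ x, (dd Complex.I φ x - dd Complex.I ψ x) ^ 2 ≤ ε := by
  obtain ⟨h1, h2, h3⟩ := hφ
  obtain ⟨δ₀, hδ₀, hsub⟩ := IsCompact.exists_cthickening_subset_open h2 hD h3
  have hKc : IsCompact (Metric.cthickening δ₀ (tsupport φ)) := IsCompact.cthickening h2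
  set K : Set ℂ := Metric.cthickening δ₀ (tsupport φ) with hK
  -- the accuracy
  obtain ⟨ε', hε', hε'1, hε'2⟩ : ∃ ε' : ℝ, 0 < ε' ∧ ε' ≤ ε ∧
      ε' ^ 2 * (volume : Measure ℂ).real K ≤ ε := by
    have hv : 0 ≤ (volume : Measure ℂ).real K := measureReal_nonneg
    refine ⟨min 1 (ε / ((volume : Measure ℂ).real K + 1)), by positivity, ?_, ?_⟩
    · refine (min_le_right _ _).trans ?_
      exact div_le_self hε.le (by linarith)
    · set m := min 1 (ε / ((volume : Measure ℂ).real K + 1)) with hm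
      have m0 : 0 < m := by positivity
      have m1 : m ≤ 1 := min_le_left _ _
      have m2 : m ≤ ε / ((volume : Measure ℂ).real K + 1) := min_le_right _ _
      rw [le_div_iff₀ (by linarith)] at m2
      have : m ^ 2 ≤ m := by nlinarith
      calc m ^ 2 * (volume : Measure ℂ).real K ≤ m * (volume : Measure ℂ).real K := by gcongr
        _ ≤ ε := by nlinarith
  have hu1 : UniformContinuous φ := h2.uniformContinuous_of_continuous h1.continuous
  have hu2 : UniformContinuous (fderiv ℝ φ) :=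
    (h2.fderiv ℝ).uniformContinuous_of_continuous (h1.continuous_fderiv (by norm_num))
  obtain ⟨δ₁, hδ₁, hd1⟩ := Metric.uniformContinuous_iff.1 hu1 ε' hε'
  obtain ⟨δ₂, hδ₂, hd2⟩ := Metric.uniformContinuous_iff.1 hu2 ε' hε'
  set r := min δ₀ (min δ₁ δ₂) with hr
  have hr0 : 0 < r := by positivity
  have hr1 : r ≤ δ₀ := min_le_left _ _
  have hr2 : r ≤ δ₁ := (min_le_right _ _).trans (min_le_left _ _)
  have hr3 : r ≤ δ₂ := (min_le_right _ _).trans (min_le_right _ _)
  let ρ : ContDiffBump (0 : ℂ) := ⟨r / 2, r, by positivity, by linarith⟩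
  obtain ⟨ψ, s1, s2, s3, s4⟩ := approx_sc_moll (ε := ε') h1 h2 ρ
    (fun x y hxy => (hd1 (lt_of_lt_of_le hxy hr2)).le)
    (fun x y hxy => (hd2 (lt_of_lt_of_le hxy hr3)).le)
  have hsupp : tsupport ψ ⊆ K := by
    refine closure_minimal (s2.trans ?_) Metric.isClosed_cthickening
    rintro _ ⟨a, ha, b, hb, rfl⟩
    refine Metric.mem_cthickening_of_dist_le _ b _ _ hb ?_
    have : ‖a‖ < r := by simpa using ha
    rw [dist_eq_norm, add_sub_cancel_right]
    linarith
  have hφK : tsupport φ ⊆ K := Metric.self_subset_cthickening _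
  have hcs : HasCompactSupport ψ := hKc.of_isClosed_subset (isClosed_tsupport ψ) hsupp
  have z1 : ∀ x, x ∉ K → φ x - ψ x = 0 := by
    intro x hx
    rw [image_eq_zero_of_notMem_tsupport fun h => hx (hφK h),
      image_eq_zero_of_notMem_tsupport fun h => hx (hsupp h), sub_zero]
  have z2 : ∀ h x, x ∉ K → dd h φ x - dd h ψ x = 0 := by
    intro h x hx
    have e1 : fderiv ℝ φ x = 0 := by
      have : x ∉ tsupport (fderiv ℝ φ) := fun h' => hx (hφK (tsupport_fderiv_subset ℝ h'))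
      exact image_eq_zero_of_notMem_tsupport this
    have e2 : fderiv ℝ ψ x = 0 := by
      have : x ∉ tsupport (fderiv ℝ ψ) := fun h' => hx (hsupp (tsupport_fderiv_subset ℝ h'))
      exact image_eq_zero_of_notMem_tsupport this
    unfold dd
    rw [e1, e2]
    simp
  refine ⟨ψ, ⟨s1, hcs⟩, hsupp.trans hsub, fun x => (s3 x).trans hε'1, fun h x => (s4 h x).trans
    (by gcongr), ?_, ?_, ?_⟩
  · exact (approx_sc_sq hKc z1 s3).trans hε'2
  · refine (approx_sc_sq hKc (z2 1) (fun x => ?_)).trans hε'2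
    simpa using s4 1 x
  · refine (approx_sc_sq hKc (z2 Complex.I) (fun x => ?_)).trans hε'2
    simpa using s4 Complex.I x

end Pool.Agent.Helper327_Drum
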