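import Pool.Agent.TH298.Sch.Rot1
import Pool.Agent.R227.SA15
import Pool.Agent.Helper327_Drum.Fin.E0
import Pool.Agent.Helper327_Drum.OpDefs

set_option autoImplicit false
open MeasureTheory Set Filter Topology
open scoped ContDiff InnerProductSpace

namespace Pool.Agent.Helper327_Drum

open Pool.Agent.TH298.Sch (dd SC)

/-! ### auxiliary lemmas -/

open Pool.Agent.R227.SA (hh et' hh_cont hh_nn hh_le hh_zero hh_one et_d et_c1 et_zero et_nn et_le et_ge)

section E4

variable {D : Set ℂ} {f : ℂ → ℝ}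

theorem e4_ddm (h : ℂ) (f : ℂ → ℝ) : Measurable (dd h f) := measurable_fderiv_apply_const ℝ f h

theorem e4_diff (hDo : IsOpen D) (hf1 : ContDiffOn ℝ 1 f D) {x : ℂ} (hx : x ∈ D) :
    DifferentiableAt ℝ f x :=
  (hf1.differentiableOn one_ne_zero).differentiableAt (hDo.mem_nhds hx)

theorem e4_ddc (hDo : IsOpen D) (hf1 : ContDiffOn ℝ 1 f D) (h : ℂ) : ContinuousOn (dd h f) D := by
  have h1 : ContinuousOn (fderiv ℝ f) D := hf1.continuousOn_fderiv_of_isOpen hDo le_rfl
  exact h1.clm_apply continuousOn_const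

/-- product of a function continuous on `D` and of a continuous function supported in `D` -/
theorem e4_prod (hDo : IsOpen D) {u v : ℂ → ℝ} (hu : ContinuousOn u D) (hv : Continuous v)
    (hs : tsupport v ⊆ D) : Continuous (fun x => u x * v x) := by
  apply continuous_of_tsupport
  intro x hx
  have hx' : x ∈ tsupport v := closure_mono (Function.support_mul_subset_right u v) hx
  exact (hu.continuousAt (hDo.mem_nhds (hs hx'))).mul hv.continuousAt

theorem e4_prod_int (hDo : IsOpen D) {u v : ℂ → ℝ} (hu : ContinuousOn u D) (hv : Continuous v)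
    (hc : HasCompactSupport v) (hs : tsupport v ⊆ D) : Integrable (fun x => u x * v x) :=
  (e4_prod hDo hu hv hs).integrable_of_hasCompactSupport hc.mul_left

theorem e4_C1c_dd {φ : ℂ → ℝ} (hφ : C1c D φ) (h : ℂ) : Continuous (dd h φ) ∧
    HasCompactSupport (dd h φ) ∧ tsupport (dd h φ) ⊆ D := by
  have h1 : tsupport (dd h φ) ⊆ tsupport φ := by
    refine (closure_minimal ?_ (isClosed_tsupport φ))
    intro x hx
    by_contra hcon
    apply hx
    show fderiv ℝ φ x h = 0
    rw [fderiv_of_notMem_tsupport (𝕜 := ℝ) hcon]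
    rfl
  refine ⟨(hφ.1.continuous_fderiv one_ne_zero).clm_apply continuous_const, ?_, h1.trans hφ.2.2⟩
  exact hφ.2.1.of_isClosed_subset (isClosed_tsupport _) h1

theorem e4_of_sc {φ : ℂ → ℝ} (h : SC φ) (hs : tsupport φ ⊆ D) : C1c D φ :=
  ⟨h.sm.of_le (by exact_mod_cast le_top), h.cs, hs⟩

/-- Step 0: the weak equation for `C¹` test functions. -/
theorem e4_weak (hDo : IsOpen D) (hf1 : ContDiffOn ℝ 1 f D) {k : ℂ → ℝ}
    (hkm : Measurable k) {M : ℝ} (hkM : ∀ x, |k x| ≤ M)
    (hw : ∀ φ : ℂ → ℝ, SC φ → tsupport φ ⊆ D →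
      ∫ x, (dd 1 f x * dd 1 φ x + dd Complex.I f x * dd Complex.I φ x) = - ∫ x, k x * φ x)
    {φ : ℂ → ℝ} (hφ : C1c D φ) :
    ∫ x, (dd 1 f x * dd 1 φ x + dd Complex.I f x * dd Complex.I φ x) = - ∫ x, k x * φ x := by
  obtain ⟨D', hD'o, hKD', hD'D, hD'c⟩ := exists_open_between_and_isCompact_closure
    hφ.2.1.isCompact hDo hφ.2.2
  have hφ' : C1c D' φ := ⟨hφ.1, hφ.2.1, hKD'⟩
  have hsub : D' ⊆ D := subset_closure.trans hD'D
  have hM0 : 0 ≤ M := (abs_nonneg _).trans (hkM 0)
  obtain ⟨C1, hC1⟩ := hD'c.exists_bound_of_continuousOn ((e4_ddc hDo hf1 1).mono hD'D)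
  obtain ⟨C2, hC2⟩ := hD'c.exists_bound_of_continuousOn ((e4_ddc hDo hf1 Complex.I).mono hD'D)
  set v : ℝ := (volume : Measure ℂ).real (closure D') with hv
  have hv0 : 0 ≤ v := measureReal_nonneg
  set Q : ℝ := (|C1| + |C2| + M) * v with hQ
  have key : ∀ ε : ℝ, 0 < ε →
      |(∫ x, (dd 1 f x * dd 1 φ x + dd Complex.I f x * dd Complex.I φ x)) + ∫ x, k x * φ x| ≤
        Q * ε := by
    intro ε hε
    obtain ⟨ψ, hψ, hψs, h0, h1, -, -, -⟩ := approx_sc hD'o hφ' hε
    have hψ' : C1c D' ψ := e4_of_sc hψ hψs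
    have hψD : C1c D ψ := e4_of_sc hψ (hψs.trans hsub)
    have hwψ := hw ψ hψ (hψs.trans hsub)
    have i1 : ∀ h : ℂ, Integrable (fun x => dd h f x * dd h φ x) := fun h =>
      e4_prod_int hDo (e4_ddc hDo hf1 h) (e4_C1c_dd hφ h).1 (e4_C1c_dd hφ h).2.1 (e4_C1c_dd hφ h).2.2
    have i2 : ∀ h : ℂ, Integrable (fun x => dd h f x * dd h ψ x) := fun h =>
      e4_prod_int hDo (e4_ddc hDo hf1 h) (e4_C1c_dd hψD h).1 (e4_C1c_dd hψD h).2.1
        (e4_C1c_dd hψD h).2.2
    have ik : ∀ g : ℂ → ℝ, Continuous g → HasCompactSupport g → Integrable (fun x => k x * g x) := by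
      intro g hg hgc
      have := (hg.integrable_of_hasCompactSupport hgc (μ := volume)).bdd_mul
        (c := M) hkm.aestronglyMeasurable (Eventually.of_forall hkM)
      exact this
    have i3 := ik φ hφ.1.continuous hφ.2.1
    have i4 := ik ψ hψD.1.continuous hψD.2.1
    have e1 : (∫ x, (dd 1 f x * dd 1 φ x + dd Complex.I f x * dd Complex.I φ x)) + ∫ x, k x * φ x =
        ∫ x, ((dd 1 f x * (dd 1 φ x - dd 1 ψ x) + dd Complex.I f x *
          (dd Complex.I φ x - dd Complex.I ψ x)) + k x * (φ x - ψ x)) := by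
      have e2 : (∫ x, (dd 1 f x * dd 1 ψ x + dd Complex.I f x * dd Complex.I ψ x)) +
          ∫ x, k x * ψ x = 0 := by rw [hwψ]; ring
      have j1 : Integrable (fun x => dd 1 f x * dd 1 φ x + dd Complex.I f x * dd Complex.I φ x) :=
        (i1 1).add (i1 Complex.I)
      have j2 : Integrable (fun x => dd 1 f x * dd 1 ψ x + dd Complex.I f x * dd Complex.I ψ x) :=
        (i2 1).add (i2 Complex.I)
      have j3 : Integrable (fun x => dd 1 f x * dd 1 φ x + dd Complex.I f x * dd Complex.I φ x +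
        k x * φ x) := j1.add i3
      have j4 : Integrable (fun x => dd 1 f x * dd 1 ψ x + dd Complex.I f x * dd Complex.I ψ x +
        k x * ψ x) := j2.add i4
      rw [← sub_zero ((∫ x, (dd 1 f x * dd 1 φ x + dd Complex.I f x * dd Complex.I φ x)) +
        ∫ x, k x * φ x), ← e2, ← integral_add j1 i3, ← integral_add j2 i4, ← integral_sub j3 j4]
      congr 1
      funext x
      ring
    rw [e1]
    have hb : ∀ x, ‖(dd 1 f x * (dd 1 φ x - dd 1 ψ x) + dd Complex.I f x *
          (dd Complex.I φ x - dd Complex.I ψ x)) + k x * (φ x - ψ x)‖ ≤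
        (closure D').indicator (fun _ => (|C1| + |C2| + M) * ε) x := by
      intro x
      by_cases hx : x ∈ closure D'
      · rw [indicator_of_mem hx, Real.norm_eq_abs]
        have b1 : |dd 1 f x| ≤ |C1| := (hC1 x hx).trans (le_abs_self _)
        have b2 : |dd Complex.I f x| ≤ |C2| := (hC2 x hx).trans (le_abs_self _)
        have b3 : |dd 1 φ x - dd 1 ψ x| ≤ ε := by simpa using h1 1 x
        have b4 : |dd Complex.I φ x - dd Complex.I ψ x| ≤ ε := by simpa using h1 Complex.I x
        have c1 : |dd 1 f x * (dd 1 φ x - dd 1 ψ x)| ≤ |C1| * ε := by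
          rw [abs_mul]; exact mul_le_mul b1 b3 (abs_nonneg _) (abs_nonneg _)
        have c2 : |dd Complex.I f x * (dd Complex.I φ x - dd Complex.I ψ x)| ≤ |C2| * ε := by
          rw [abs_mul]; exact mul_le_mul b2 b4 (abs_nonneg _) (abs_nonneg _)
        have c3 : |k x * (φ x - ψ x)| ≤ M * ε := by
          rw [abs_mul]; exact mul_le_mul (hkM x) (h0 x) (abs_nonneg _) hM0
        calc _ ≤ |dd 1 f x * (dd 1 φ x - dd 1 ψ x)| +
              |dd Complex.I f x * (dd Complex.I φ x - dd Complex.I ψ x)| +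
              |k x * (φ x - ψ x)| := (abs_add_le _ _).trans (add_le_add (abs_add_le _ _) le_rfl)
          _ ≤ |C1| * ε + |C2| * ε + M * ε := add_le_add (add_le_add c1 c2) c3
          _ = (|C1| + |C2| + M) * ε := by ring
      · rw [indicator_of_notMem hx]
        have hx1 : x ∉ tsupport φ := fun h => hx (subset_closure (hKD' h))
        have hx2 : x ∉ tsupport ψ := fun h => hx (subset_closure (hψs h))
        have z1 : ∀ h, dd h φ x = 0 := fun h => by
          unfold dd; rw [fderiv_of_notMem_tsupport (𝕜 := ℝ) hx1]; rfl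
        have z2 : ∀ h, dd h ψ x = 0 := fun h => by
          unfold dd; rw [fderiv_of_notMem_tsupport (𝕜 := ℝ) hx2]; rfl
        rw [z1, z2, z1, z2, image_eq_zero_of_notMem_tsupport hx1,
          image_eq_zero_of_notMem_tsupport hx2]
        simp
    have hint : Integrable ((closure D').indicator (fun _ : ℂ => (|C1| + |C2| + M) * ε)) := by
      rw [integrable_indicator_iff isClosed_closure.measurableSet]
      exact integrableOn_const hD'c.measure_lt_top.ne
    have := norm_integral_le_of_norm_le hint (Eventually.of_forall hb)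
    rw [Real.norm_eq_abs] at this
    refine this.trans (le_of_eq ?_)
    rw [integral_indicator isClosed_closure.measurableSet, setIntegral_const, smul_eq_mul, hQ, hv]
    ring
  have h0 : |(∫ x, (dd 1 f x * dd 1 φ x + dd Complex.I f x * dd Complex.I φ x)) +
      ∫ x, k x * φ x| ≤ 0 := by
    refine le_of_forall_pos_le_add fun δ hδ => ?_
    have hQ0 : 0 ≤ Q := by positivity
    refine (key (δ / (Q + 1)) (by positivity)).trans ?_
    rw [zero_add, mul_div_assoc', div_le_iff₀ (by positivity)]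
    nlinarith
  have h1 := abs_nonpos_iff.mp h0
  linarith

/-! #### truncation -/

noncomputable def e4F (ε s : ℝ) : ℝ := et' ε s - et' ε (-s)

noncomputable def e4g (ε s : ℝ) : ℝ := hh ε s + hh ε (-s)

theorem e4F_d (ε s : ℝ) : HasDerivAt (e4F ε) (e4g ε s) s := by
  have h1 := et_d ε s
  have h2 : HasDerivAt (fun s => et' ε (-s)) (-hh ε (-s)) s := by
    have := (et_d ε (-s)).comp s (hasDerivAt_neg s)
    exact this.congr_deriv (by ring)
  have := h1.sub h2
  unfold e4F e4g
  refine this.congr_deriv ?_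
  ring

theorem e4F_c1 (ε : ℝ) : ContDiff ℝ 1 (e4F ε) := by
  unfold e4F
  exact (et_c1 ε).sub ((et_c1 ε).comp contDiff_neg)

theorem e4F_zero {ε s : ℝ} (hε : 0 < ε) (hs : |s| ≤ ε) : e4F ε s = 0 := by
  unfold e4F
  rw [et_zero hε (le_of_abs_le hs), et_zero hε (by linarith [neg_le_of_abs_le hs]), sub_zero]

theorem e4F_abs {ε : ℝ} (hε : 0 < ε) (s : ℝ) : |e4F ε s| ≤ |s| := by
  unfold e4F
  rcases le_total 0 s with h | h
  · rw [et_zero hε (by linarith : -s ≤ ε), sub_zero, abs_of_nonneg (et_nn h), abs_of_nonneg h]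
    exact et_le h
  · have h' : 0 ≤ -s := by linarith
    rw [et_zero hε (by linarith : s ≤ ε), zero_sub, abs_neg, abs_of_nonneg (et_nn h'),
      abs_of_nonpos h]
    exact et_le h'

theorem e4F_sub {ε : ℝ} (hε : 0 < ε) (s : ℝ) : |s - e4F ε s| ≤ 2 * ε := by
  unfold e4F
  rcases le_total 0 s with h | h
  · rw [et_zero hε (by linarith : -s ≤ ε), sub_zero, abs_of_nonneg (by linarith [et_le (ε := ε) h])]
    linarith [et_ge hε h]
  · have h' : 0 ≤ -s := by linarith
    rw [et_zero hε (by linarith : s ≤ ε), zero_sub, sub_neg_eq_add,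
      abs_of_nonpos (by linarith [et_le (ε := ε) h'])]
    linarith [et_ge hε h']

theorem e4g_nn (ε s : ℝ) : 0 ≤ e4g ε s := add_nonneg (hh_nn _ _) (hh_nn _ _)

theorem e4g_le {ε : ℝ} (hε : 0 < ε) (s : ℝ) : e4g ε s ≤ 1 := by
  unfold e4g
  rcases le_total 0 s with h | h
  · rw [hh_zero hε (by linarith : -s ≤ ε), add_zero]; exact hh_le _ _
  · rw [hh_zero hε (by linarith : s ≤ ε), zero_add]; exact hh_le _ _

theorem e4g_zero {ε : ℝ} (hε : 0 < ε) : e4g ε 0 = 0 := by
  unfold e4g
  rw [neg_zero, hh_zero hε hε.le, add_zero]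

theorem e4g_one {ε s : ℝ} (hε : 0 < ε) (hs : 2 * ε ≤ |s|) : e4g ε s = 1 := by
  unfold e4g
  rcases le_total 0 s with h | h
  · rw [abs_of_nonneg h] at hs
    rw [hh_zero hε (by linarith : -s ≤ ε), add_zero, hh_one hε hs]
  · rw [abs_of_nonpos h] at hs
    rw [hh_zero hε (by linarith : s ≤ ε), zero_add, hh_one hε hs]

/-- the truncated function -/
noncomputable def e4f (f : ℂ → ℝ) (ε : ℝ) (x : ℂ) : ℝ := e4F ε (f x)

theorem e4f_ev (hf : Continuous f) {ε : ℝ} (hε : 0 < ε) {x : ℂ} (hx : f x = 0) :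
    e4f f ε =ᶠ[𝓝 x] fun _ => 0 := by
  have ho : IsOpen {y | |f y| < ε} := isOpen_lt hf.abs continuous_const
  have hx' : x ∈ {y | |f y| < ε} := by
    show |f x| < ε
    rw [hx, abs_zero]; exact hε
  filter_upwards [ho.mem_nhds hx'] with y hy
  exact e4F_zero hε (le_of_lt hy)

theorem e4f_dd (hDo : IsOpen D) (hf : Continuous f) (hf0 : ∀ x, x ∉ D → f x = 0)
    (hf1 : ContDiffOn ℝ 1 f D) {ε : ℝ} (hε : 0 < ε) (h x : ℂ) :
    dd h (e4f f ε) x = e4g ε (f x) * dd h f x := by
  by_cases hx : x ∈ D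
  · have h1 : HasFDerivAt (e4f f ε) (e4g ε (f x) • fderiv ℝ f x) x :=
      (e4F_d ε (f x)).comp_hasFDerivAt x (e4_diff hDo hf1 hx).hasFDerivAt
    unfold dd
    rw [h1.fderiv]
    rfl
  · unfold dd
    rw [(e4f_ev hf hε (hf0 x hx)).fderiv_eq, hf0 x hx, e4g_zero hε]
    simp

theorem e4f_C1c (hDo : IsOpen D) (hDb : Bornology.IsBounded D) (hf : Continuous f)
    (hf0 : ∀ x, x ∉ D → f x = 0) (hf1 : ContDiffOn ℝ 1 f D) {ε : ℝ} (hε : 0 < ε) :
    C1c D (e4f f ε) := by
  have hcl : IsClosed {x | ε ≤ |f x|} := isClosed_le continuous_const hf.abs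
  have hsD : {x | ε ≤ |f x|} ⊆ D := by
    intro x hx
    by_contra hcon
    have : ε ≤ |f x| := hx
    rw [hf0 x hcon, abs_zero] at this
    linarith
  have hts : tsupport (e4f f ε) ⊆ {x | ε ≤ |f x|} := by
    refine closure_minimal ?_ hcl
    intro x hx
    by_contra hcon
    apply hx
    have : ¬ ε ≤ |f x| := hcon
    exact e4F_zero hε (by linarith)
  refine ⟨?_, ?_, hts.trans hsD⟩
  · rw [contDiff_iff_contDiffAt]
    intro x
    by_cases hx : x ∈ D
    · exact ((e4F_c1 ε).contDiffAt).comp x (hf1.contDiffAt (hDo.mem_nhds hx))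
    · exact (contDiffAt_const (c := (0:ℝ))).congr_of_eventuallyEq (e4f_ev hf hε (hf0 x hx))
  · exact (Metric.isCompact_of_isClosed_isBounded hcl (hDb.subset hsD)).of_isClosed_subset
      (isClosed_tsupport _) hts

theorem e4_cs (hDb : Bornology.IsBounded D) (hf0 : ∀ x, x ∉ D → f x = 0) : HasCompactSupport f :=
  HasCompactSupport.intro hDb.isCompact_closure fun x hx => hf0 x fun h => hx (subset_closure h)

/-- the square of the gradient -/
noncomputable def e4E (f : ℂ → ℝ) (x : ℂ) : ℝ := dd 1 f x ^ 2 + dd Complex.I f x ^ 2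

theorem e4E_nn (f : ℂ → ℝ) (x : ℂ) : 0 ≤ e4E f x := add_nonneg (sq_nonneg _) (sq_nonneg _)

theorem e4E_m (f : ℂ → ℝ) : Measurable (e4E f) := ((e4_ddm 1 f).pow_const 2).add
  ((e4_ddm Complex.I f).pow_const 2)

theorem e4g_m (hf : Continuous f) (ε : ℝ) : Measurable (fun x => e4g ε (f x)) := by
  unfold e4g
  exact (((hh_cont ε).comp hf).add ((hh_cont ε).comp hf.neg)).measurable

/-- the energy of the truncated functions -/
theorem e4_energy (hDo : IsOpen D) (hDb : Bornology.IsBounded D) (hf : Continuous f)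
    (hf0 : ∀ x, x ∉ D → f x = 0) (hf1 : ContDiffOn ℝ 1 f D) {k : ℂ → ℝ}
    (hkm : Measurable k) {M : ℝ} (hkM : ∀ x, |k x| ≤ M)
    (hw : ∀ φ : ℂ → ℝ, SC φ → tsupport φ ⊆ D →
      ∫ x, (dd 1 f x * dd 1 φ x + dd Complex.I f x * dd Complex.I φ x) = - ∫ x, k x * φ x)
    {ε : ℝ} (hε : 0 < ε) :
    Integrable (fun x => e4g ε (f x) * e4E f x) ∧
      ∫ x, e4g ε (f x) * e4E f x ≤ M * ∫ x, |f x| := by
  have hC := e4f_C1c hDo hDb hf hf0 hf1 hε
  have e1 : (fun x => e4g ε (f x) * e4E f x) = fun x => dd 1 f x * dd 1 (e4f f ε) x +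
      dd Complex.I f x * dd Complex.I (e4f f ε) x := by
    funext x
    rw [e4f_dd hDo hf hf0 hf1 hε, e4f_dd hDo hf hf0 hf1 hε]
    unfold e4E
    ring
  have i1 : ∀ h : ℂ, Integrable (fun x => dd h f x * dd h (e4f f ε) x) := fun h =>
    e4_prod_int hDo (e4_ddc hDo hf1 h) (e4_C1c_dd hC h).1 (e4_C1c_dd hC h).2.1 (e4_C1c_dd hC h).2.2
  have hM0 : 0 ≤ M := (abs_nonneg _).trans (hkM 0)
  have ifa : Integrable (fun x => |f x|) :=
    (hf.integrable_of_hasCompactSupport (e4_cs hDb hf0)).abs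
  refine ⟨?_, ?_⟩
  · rw [e1]
    exact (i1 1).add (i1 Complex.I)
  · rw [e1, e4_weak hDo hf1 hkm hkM hw hC, ← integral_const_mul]
    have h1 := norm_integral_le_of_norm_le (ifa.const_mul M) (f := fun x => k x * e4f f ε x)
      (Eventually.of_forall fun x => by
        rw [Real.norm_eq_abs, abs_mul]
        exact mul_le_mul (hkM x) (e4F_abs hε (f x)) (abs_nonneg _) hM0)
    rw [Real.norm_eq_abs] at h1
    linarith [neg_le_of_abs_le h1]

/-- the truncation parameters -/
noncomputable def e4e (n : ℕ) : ℝ := 1 / ((n : ℝ) + 1)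

theorem e4e_pos (n : ℕ) : 0 < e4e n := by unfold e4e; positivity

theorem e4e_lim : Tendsto e4e atTop (𝓝 0) := tendsto_one_div_add_atTop_nhds_zero_nat

theorem e4g_ev {s : ℝ} (hs : s ≠ 0) : ∀ᶠ n in atTop, e4g (e4e n) s = 1 := by
  have h1 : 0 < |s| / 2 := by positivity
  filter_upwards [e4e_lim.eventually (gt_mem_nhds h1)] with n hn
  exact e4g_one (e4e_pos n) (by linarith)

/-- Step 3: the gradient is square integrable on `f ≠ 0`. -/
theorem e4_sq (hDo : IsOpen D) (hDb : Bornology.IsBounded D) (hf : Continuous f)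
    (hf0 : ∀ x, x ∉ D → f x = 0) (hf1 : ContDiffOn ℝ 1 f D) {k : ℂ → ℝ}
    (hkm : Measurable k) {M : ℝ} (hkM : ∀ x, |k x| ≤ M)
    (hw : ∀ φ : ℂ → ℝ, SC φ → tsupport φ ⊆ D →
      ∫ x, (dd 1 f x * dd 1 φ x + dd Complex.I f x * dd Complex.I φ x) = - ∫ x, k x * φ x) :
    Integrable ({x | f x ≠ 0}.indicator (e4E f)) := by
  have hSm : MeasurableSet {x | f x ≠ 0} := (isOpen_ne_fun hf continuous_const).measurableSet
  have hnn : ∀ x, 0 ≤ {x | f x ≠ 0}.indicator (e4E f) x := fun x =>
    indicator_nonneg (fun _ _ => e4E_nn f _) x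
  refine ⟨((e4E_m f).indicator hSm).aestronglyMeasurable, ?_⟩
  rw [hasFiniteIntegral_iff_ofReal (Eventually.of_forall hnn)]
  have h1 : ∀ x, ENNReal.ofReal ({x | f x ≠ 0}.indicator (e4E f) x) ≤
      liminf (fun n => ENNReal.ofReal (e4g (e4e n) (f x) * e4E f x)) atTop := by
    intro x
    by_cases hx : f x = 0
    · rw [indicator_of_notMem (by simpa using hx)]
      simp
    · rw [indicator_of_mem (by exact hx)]
      have : Tendsto (fun n => ENNReal.ofReal (e4g (e4e n) (f x) * e4E f x)) atTop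
          (𝓝 (ENNReal.ofReal (e4E f x))) := by
        refine tendsto_const_nhds.congr' ?_
        filter_upwards [e4g_ev hx] with n hn
        rw [hn, one_mul]
      rw [this.liminf_eq]
  refine lt_of_le_of_lt (lintegral_mono h1) ?_
  refine lt_of_le_of_lt (lintegral_liminf_le fun n =>
    (((e4g_m hf (e4e n)).mul (e4E_m f)).ennreal_ofReal)) ?_
  have h2 : ∀ n, ∫⁻ x, ENNReal.ofReal (e4g (e4e n) (f x) * e4E f x) ≤
      ENNReal.ofReal (M * ∫ x, |f x|) := by
    intro n
    obtain ⟨a, b⟩ := e4_energy hDo hDb hf hf0 hf1 hkm hkM hw (e4e_pos n)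
    rw [← ofReal_integral_eq_lintegral_ofReal a
      (Eventually.of_forall fun x => mul_nonneg (e4g_nn _ _) (e4E_nn f x))]
    exact ENNReal.ofReal_le_ofReal b
  refine lt_of_le_of_lt (liminf_le_of_frequently_le' (Frequently.of_forall h2)) ENNReal.ofReal_lt_top

/-- the gradient on `f ≠ 0` -/
noncomputable def e4P (f : ℂ → ℝ) (h : ℂ) : ℂ → ℝ := {x | f x ≠ 0}.indicator (dd h f)

theorem e4P_m (hf : Continuous f) (h : ℂ) : Measurable (e4P f h) :=
  (e4_ddm h f).indicator (isOpen_ne_fun hf continuous_const).measurableSet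

theorem e4P_sq (hf : Continuous f) (hE : Integrable ({x | f x ≠ 0}.indicator (e4E f)))
    {h : ℂ} (hh : h = 1 ∨ h = Complex.I) : Integrable (fun x => e4P f h x ^ 2) := by
  refine hE.mono' ((e4P_m hf h).pow_const 2).aestronglyMeasurable (Eventually.of_forall fun x => ?_)
  rw [Real.norm_eq_abs, abs_of_nonneg (sq_nonneg _)]
  unfold e4P
  by_cases hx : f x = 0
  · rw [indicator_of_notMem (by simpa using hx), indicator_of_notMem (by simpa using hx)]
    simp
  · rw [indicator_of_mem (by exact hx), indicator_of_mem (by exact hx)]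
    unfold e4E
    rcases hh with h | h
    · rw [h]; linarith [sq_nonneg (dd Complex.I f x)]
    · rw [h]; linarith [sq_nonneg (dd 1 f x)]

theorem e4P_lim (hDo : IsOpen D) (hf : Continuous f) (hf0 : ∀ x, x ∉ D → f x = 0)
    (hf1 : ContDiffOn ℝ 1 f D) (hE : Integrable ({x | f x ≠ 0}.indicator (e4E f)))
    {h : ℂ} (hh : h = 1 ∨ h = Complex.I) :
    Tendsto (fun n => ∫ x, (e4P f h x - dd h (e4f f (e4e n)) x) ^ 2) atTop (𝓝 0) := by
  have key := tendsto_integral_of_dominated_convergence (μ := volume) (fun x => e4P f h x ^ 2)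
    (F := fun n x => (e4P f h x - dd h (e4f f (e4e n)) x) ^ 2) (f := fun _ => 0)
    (fun n => (((e4P_m hf h).sub (e4_ddm h _)).pow_const 2).aestronglyMeasurable)
    (e4P_sq hf hE hh) ?_ ?_
  · simpa using key
  · intro n
    refine Eventually.of_forall fun x => ?_
    rw [Real.norm_eq_abs, abs_of_nonneg (sq_nonneg _), e4f_dd hDo hf hf0 hf1 (e4e_pos n)]
    unfold e4P
    by_cases hx : f x = 0
    · rw [indicator_of_notMem (by simpa using hx), hx, e4g_zero (e4e_pos n)]
      simp
    · rw [indicator_of_mem (by exact hx)]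
      have e : dd h f x - e4g (e4e n) (f x) * dd h f x = (1 - e4g (e4e n) (f x)) * dd h f x := by
        ring
      rw [e, mul_pow]
      have h1 := e4g_nn (e4e n) (f x)
      have h2 := e4g_le (e4e_pos n) (f x)
      have h3 : (1 - e4g (e4e n) (f x)) ^ 2 ≤ 1 := by nlinarith
      have h4 := sq_nonneg (dd h f x)
      nlinarith
  · refine Eventually.of_forall fun x => ?_
    by_cases hx : f x = 0
    · have : ∀ n, (e4P f h x - dd h (e4f f (e4e n)) x) ^ 2 = 0 := by
        intro n
        rw [e4f_dd hDo hf hf0 hf1 (e4e_pos n)]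
        unfold e4P
        rw [indicator_of_notMem (by simpa using hx), hx, e4g_zero (e4e_pos n)]
        simp
      simp only [this]
      exact tendsto_const_nhds
    · refine tendsto_const_nhds.congr' ?_
      filter_upwards [e4g_ev hx] with n hn
      rw [e4f_dd hDo hf hf0 hf1 (e4e_pos n), hn]
      unfold e4P
      rw [indicator_of_mem (by exact hx)]
      simp

theorem e4f_lim (hDb : Bornology.IsBounded D) (hf : Continuous f) (hf0 : ∀ x, x ∉ D → f x = 0) :
    Tendsto (fun n => ∫ x, (f x - e4f f (e4e n) x) ^ 2) atTop (𝓝 0) := by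
  have hcs := e4_cs hDb hf0
  have hm : ∀ n, Measurable (e4f f (e4e n)) := fun n =>
    ((e4F_c1 (e4e n)).continuous.comp hf).measurable
  have i1 : Integrable (fun x => 4 * f x ^ 2) := by
    apply Continuous.integrable_of_hasCompactSupport (by fun_prop)
    refine HasCompactSupport.mono hcs ?_
    intro x hx hf
    apply hx
    simp only
    rw [hf]; simp
  have key := tendsto_integral_of_dominated_convergence (μ := volume) (fun x => 4 * f x ^ 2)
    (F := fun n x => (f x - e4f f (e4e n) x) ^ 2) (f := fun _ => 0)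
    (fun n => (((hf.measurable).sub (hm n)).pow_const 2).aestronglyMeasurable)
    i1 ?_ ?_
  · simpa using key
  · intro n
    refine Eventually.of_forall fun x => ?_
    rw [Real.norm_eq_abs, abs_of_nonneg (sq_nonneg _)]
    have h1 : |e4f f (e4e n) x| ≤ |f x| := e4F_abs (e4e_pos n) (f x)
    have h2 : |f x - e4f f (e4e n) x| ≤ 2 * |f x| := by
      refine (abs_sub _ _).trans ?_
      linarith
    calc (f x - e4f f (e4e n) x) ^ 2 = |f x - e4f f (e4e n) x| ^ 2 := (sq_abs _).symm
      _ ≤ (2 * |f x|) ^ 2 := pow_le_pow_left₀ (abs_nonneg _) h2 2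
      _ = 4 * f x ^ 2 := by rw [mul_pow, sq_abs]; norm_num
  · refine Eventually.of_forall fun x => ?_
    have h1 : Tendsto (fun n => (2 * e4e n) ^ 2) atTop (𝓝 0) := by
      have := (e4e_lim.const_mul 2).pow 2
      simpa using this
    refine squeeze_zero (fun n => sq_nonneg _) (fun n => ?_) h1
    have h2 : |f x - e4f f (e4e n) x| ≤ 2 * e4e n := e4F_sub (e4e_pos n) (f x)
    calc (f x - e4f f (e4e n) x) ^ 2 = |f x - e4f f (e4e n) x| ^ 2 := (sq_abs _).symm
      _ ≤ (2 * e4e n) ^ 2 := pow_le_pow_left₀ (abs_nonneg _) h2 2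

/-! #### the space `W3` -/

theorem e4_inner {u v : L2} {a b : ℂ → ℝ} (hu : u =ᵐ[volume] a) (hv : v =ᵐ[volume] b) :
    ⟪u, v⟫_ℝ = ∫ x, a x * b x := by
  rw [MeasureTheory.L2.inner_def]
  apply integral_congr_ae
  filter_upwards [hu, hv] with x h1 h2
  rw [h1, h2]
  simp [mul_comm]

theorem e4_norm {u : L2} {a : ℂ → ℝ} (hu : u =ᵐ[volume] a) : ‖u‖ ^ 2 = ∫ x, a x ^ 2 := by
  rw [← real_inner_self_eq_norm_sq, e4_inner hu hu]
  congr 1
  funext x
  ring

theorem e4_W3norm (F G : W3) {a b : Fin 3 → ℂ → ℝ} (hF : ∀ i, F i =ᵐ[volume] a i)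
    (hG : ∀ i, G i =ᵐ[volume] b i) :
    ‖F - G‖ ^ 2 = ∑ i, ∫ x, (a i x - b i x) ^ 2 := by
  rw [PiLp.norm_sq_eq_of_L2]
  apply Finset.sum_congr rfl
  intro i _
  have h1 : (F - G) i =ᵐ[volume] fun x => a i x - b i x := by
    have h2 : (F - G) i = F i - G i := rfl
    rw [h2]
    filter_upwards [Lp.coeFn_sub (F i) (G i), hF i, hG i] with x h3 h4 h5
    rw [h3, Pi.sub_apply, h4, h5]
  rw [e4_norm h1]

/-- every square integrable triple is represented -/
theorem e4_rep {a : Fin 3 → ℂ → ℝ} (ha : ∀ i, MemLp (a i) 2 volume) :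
    ∃ F : W3, ∀ i, F i =ᵐ[volume] a i :=
  ⟨WithLp.toLp 2 (fun i => (ha i).toLp (a i)), fun i => (ha i).coeFn_toLp⟩

/-- Step 4: the triple belongs to the closure. -/
theorem e4_mem (hDo : IsOpen D) (hDb : Bornology.IsBounded D) (hf : Continuous f)
    (hf0 : ∀ x, x ∉ D → f x = 0) (hf1 : ContDiffOn ℝ 1 f D)
    (hE : Integrable ({x | f x ≠ 0}.indicator (e4E f))) :
    ∃ F : W3, F ∈ V D ∧ ∀ i, F i =ᵐ[volume] (![f, e4P f 1, e4P f Complex.I] : Fin 3 → ℂ → ℝ) i := by
  have hm : ∀ i, MemLp ((![f, e4P f 1, e4P f Complex.I] : Fin 3 → ℂ → ℝ) i) 2 volume := by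
    intro i
    fin_cases i
    · exact hf.memLp_of_hasCompactSupport (e4_cs hDb hf0)
    · exact (memLp_two_iff_integrable_sq (e4P_m hf 1).aestronglyMeasurable).mpr
        (e4P_sq hf hE (Or.inl rfl))
    · exact (memLp_two_iff_integrable_sq (e4P_m hf Complex.I).aestronglyMeasurable).mpr
        (e4P_sq hf hE (Or.inr rfl))
  obtain ⟨F, hF⟩ := e4_rep hm
  refine ⟨F, ?_, hF⟩
  show F ∈ ((V0 D).topologicalClosure : Set W3)
  rw [Submodule.topologicalClosure_coe, Metric.mem_closure_iff]
  intro δ hδ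
  have hC := fun n => e4f_C1c hDo hDb hf hf0 hf1 (e4e_pos n)
  have hlim : Tendsto (fun n => (∫ x, (f x - e4f f (e4e n) x) ^ 2) +
      (∫ x, (e4P f 1 x - dd 1 (e4f f (e4e n)) x) ^ 2) +
      ∫ x, (e4P f Complex.I x - dd Complex.I (e4f f (e4e n)) x) ^ 2) atTop (𝓝 0) := by
    have := ((e4f_lim hDb hf hf0).add (e4P_lim hDo hf hf0 hf1 hE (Or.inl rfl))).add
      (e4P_lim hDo hf hf0 hf1 hE (Or.inr rfl))
    simpa using this
  obtain ⟨n, hn⟩ := (hlim.eventually (gt_mem_nhds (by positivity : 0 < δ ^ 2))).exists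
  have hm' : ∀ i, MemLp ((![e4f f (e4e n), dd 1 (e4f f (e4e n)), dd Complex.I (e4f f (e4e n))] :
      Fin 3 → ℂ → ℝ) i) 2 volume := by
    intro i
    fin_cases i
    · exact (hC n).1.continuous.memLp_of_hasCompactSupport (hC n).2.1
    · exact (e4_C1c_dd (hC n) 1).1.memLp_of_hasCompactSupport (e4_C1c_dd (hC n) 1).2.1
    · exact (e4_C1c_dd (hC n) Complex.I).1.memLp_of_hasCompactSupport
        (e4_C1c_dd (hC n) Complex.I).2.1
  obtain ⟨G, hG⟩ := e4_rep hm'
  refine ⟨G, Submodule.subset_span ⟨e4f f (e4e n), hC n, hG 0, hG 1, hG 2⟩, ?_⟩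
  rw [dist_eq_norm]
  have h1 := e4_W3norm F G hF hG
  rw [Fin.sum_univ_three] at h1
  have h2 : ‖F - G‖ ^ 2 < δ ^ 2 := by
    rw [h1]
    exact hn
  exact lt_of_pow_lt_pow_left₀ 2 hδ.le h2

/-- Step 5: the gradient vanishes almost everywhere on `f = 0`. -/
theorem e4_ae (hDo : IsOpen D) (hf : Continuous f)
    (hf0 : ∀ x, x ∉ D → f x = 0) (hf1 : ContDiffOn ℝ 1 f D)
    (hDb : Bornology.IsBounded D)
    (hE : Integrable ({x | f x ≠ 0}.indicator (e4E f)))
    {h : ℂ} (hh : h = 1 ∨ h = Complex.I) : ∀ᵐ x ∂(volume : Measure ℂ), x ∈ D →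
      dd h f x - e4P f h x = 0 := by
  have hcs := e4_cs hDb hf0
  apply IsOpen.ae_eq_zero_of_integral_contDiff_smul_eq_zero hDo
  · apply LocallyIntegrableOn.sub
    · exact (e4_ddc hDo hf1 h).locallyIntegrableOn hDo.measurableSet
    · have h1 : MemLp (e4P f h) 2 volume :=
        (memLp_two_iff_integrable_sq (e4P_m hf h).aestronglyMeasurable).mpr (e4P_sq hf hE hh)
      exact (h1.locallyIntegrable (by norm_num)).locallyIntegrableOn D
  · intro g hg hgc hgs
    have hgd : Differentiable ℝ g := hg.differentiable (by simp)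
    have hgC : C1c D g := ⟨hg.of_le (by exact_mod_cast le_top), hgc, hgs⟩
    obtain ⟨hd1, hd2, hd3⟩ := e4_C1c_dd hgC h
    have i1 : Integrable (fun x => dd h f x * g x) :=
      e4_prod_int hDo (e4_ddc hDo hf1 h) hg.continuous hgc hgs
    have i2 : Integrable (fun x => f x * dd h g x) :=
      (hf.mul hd1).integrable_of_hasCompactSupport hd2.mul_left
    have i3 : Integrable (fun x => f x * g x) :=
      (hf.mul hg.continuous).integrable_of_hasCompactSupport hgc.mul_left
    have e1 : ∫ x, f x * dd h g x = - ∫ x, dd h f x * g x :=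
      integral_mul_fderiv_eq_neg_fderiv_mul_of_integrable (f := f) (g := g) (v := h) i1 i2 i3
        (fun x hx => e4_diff hDo hf1 (hgs hx)) (fun x _ => hgd x)
    -- the truncated functions
    have e2 : ∀ n, ∫ x, e4f f (e4e n) x * dd h g x =
        - ∫ x, (e4g (e4e n) (f x) * dd h f x) * g x := by
      intro n
      have hC := e4f_C1c hDo hDb hf hf0 hf1 (e4e_pos n)
      obtain ⟨c1, c2, c3⟩ := e4_C1c_dd hC h
      have j1 : Integrable (fun x => dd h (e4f f (e4e n)) x * g x) :=
        (c1.mul hg.continuous).integrable_of_hasCompactSupport hgc.mul_left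
      have j2 : Integrable (fun x => e4f f (e4e n) x * dd h g x) :=
        (hC.1.continuous.mul hd1).integrable_of_hasCompactSupport hd2.mul_left
      have j3 : Integrable (fun x => e4f f (e4e n) x * g x) :=
        (hC.1.continuous.mul hg.continuous).integrable_of_hasCompactSupport hgc.mul_left
      have := integral_mul_fderiv_eq_neg_fderiv_mul_of_integrable (f := e4f f (e4e n)) (g := g)
        (v := h) j1 j2 j3 (fun x _ => hC.1.differentiable one_ne_zero x) (fun x _ => hgd x)
      have e3 : ∀ x, dd h (e4f f (e4e n)) x * g x = (e4g (e4e n) (f x) * dd h f x) * g x := by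
        intro x
        rw [e4f_dd hDo hf hf0 hf1 (e4e_pos n)]
      calc ∫ x, e4f f (e4e n) x * dd h g x = - ∫ x, dd h (e4f f (e4e n)) x * g x := this
        _ = _ := by simp only [e3]
    have l1 : Tendsto (fun n => ∫ x, e4f f (e4e n) x * dd h g x) atTop
        (𝓝 (∫ x, f x * dd h g x)) := by
      apply tendsto_integral_of_dominated_convergence (fun x => |f x * dd h g x|)
      · intro n
        exact ((((e4F_c1 (e4e n)).continuous.comp hf).mul hd1).measurable).aestronglyMeasurable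
      · exact i2.abs
      · intro n
        refine Eventually.of_forall fun x => ?_
        rw [Real.norm_eq_abs, abs_mul, abs_mul]
        exact mul_le_mul_of_nonneg_right (e4F_abs (e4e_pos n) (f x)) (abs_nonneg _)
      · refine Eventually.of_forall fun x => ?_
        apply Tendsto.mul_const
        rw [tendsto_iff_norm_sub_tendsto_zero]
        have h1 : Tendsto (fun n => 2 * e4e n) atTop (𝓝 0) := by
          simpa using e4e_lim.const_mul 2
        refine squeeze_zero (fun n => norm_nonneg _) (fun n => ?_) h1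
        rw [Real.norm_eq_abs, abs_sub_comm]
        exact e4F_sub (e4e_pos n) (f x)
    have l2 : Tendsto (fun n => ∫ x, (e4g (e4e n) (f x) * dd h f x) * g x) atTop
        (𝓝 (∫ x, e4P f h x * g x)) := by
      apply tendsto_integral_of_dominated_convergence (fun x => |dd h f x * g x|)
      · intro n
        exact ((((e4g_m hf (e4e n)).mul (e4_ddm h f)).mul
          hg.continuous.measurable)).aestronglyMeasurable
      · exact i1.abs
      · intro n
        refine Eventually.of_forall fun x => ?_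
        rw [Real.norm_eq_abs, mul_assoc, abs_mul, abs_of_nonneg (e4g_nn _ _)]
        exact mul_le_of_le_one_left (abs_nonneg _) (e4g_le (e4e_pos n) _)
      · refine Eventually.of_forall fun x => ?_
        apply Tendsto.mul_const
        by_cases hx : f x = 0
        · have : ∀ n, e4g (e4e n) (f x) * dd h f x = e4P f h x := by
            intro n
            unfold e4P
            rw [indicator_of_notMem (by simpa using hx), hx, e4g_zero (e4e_pos n), zero_mul]
          simp only [this]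
          exact tendsto_const_nhds
        · refine tendsto_const_nhds.congr' ?_
          filter_upwards [e4g_ev hx] with n hn
          unfold e4P
          rw [indicator_of_mem (by exact hx), hn, one_mul]
    have e4 : ∫ x, f x * dd h g x = - ∫ x, e4P f h x * g x := by
      have l3 := l2.neg
      simp only [← e2] at l3
      exact tendsto_nhds_unique l1 l3
    have i4 : Integrable (fun x => e4P f h x * g x) := by
      refine i1.mono ((e4P_m hf h).mul hg.continuous.measurable).aestronglyMeasurable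
        (Eventually.of_forall fun x => ?_)
      rw [Real.norm_eq_abs, Real.norm_eq_abs, abs_mul, abs_mul]
      apply mul_le_mul_of_nonneg_right _ (abs_nonneg _)
      unfold e4P
      by_cases hx : f x = 0
      · rw [indicator_of_notMem (by simpa using hx), abs_zero]
        exact abs_nonneg _
      · rw [indicator_of_mem (by exact hx)]
    have e5 : ∫ x, g x • (dd h f x - e4P f h x) = (∫ x, dd h f x * g x) - ∫ x, e4P f h x * g x := by
      rw [← integral_sub i1 i4]
      congr 1
      funext x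
      rw [smul_eq_mul]
      ring
    show ∫ x, g x • (dd h f x - e4P f h x) = 0
    rw [e5]
    linarith

theorem e4_ind (hDo : IsOpen D) (hf : Continuous f)
    (hf0 : ∀ x, x ∉ D → f x = 0) (hf1 : ContDiffOn ℝ 1 f D)
    (hDb : Bornology.IsBounded D)
    (hE : Integrable ({x | f x ≠ 0}.indicator (e4E f)))
    {h : ℂ} (hh : h = 1 ∨ h = Complex.I) : e4P f h =ᵐ[volume] D.indicator (dd h f) := by
  filter_upwards [e4_ae hDo hf hf0 hf1 hDb hE hh] with x hx
  by_cases hxD : x ∈ D
  · rw [indicator_of_mem hxD]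
    linarith [hx hxD]
  · rw [indicator_of_notMem hxD]
    unfold e4P
    rw [indicator_of_notMem (by simpa using hf0 x hxD)]

end E4

/-- TARGET: functions with zero boundary values and bounded weak Laplacian `k` belong to `H¹₀(D)` and
solve the equation `(1 - Δ) f = f - k` in the sense of the operator `K D`. -/
theorem mem_V {D : Set ℂ} (hDo : IsOpen D) (hDb : Bornology.IsBounded D) {f k : ℂ → ℝ}
    (hf : Continuous f) (hf0 : ∀ x, x ∉ D → f x = 0) (hf1 : ContDiffOn ℝ 1 f D)
    (hkm : Measurable k) (hk0 : ∀ x, x ∉ D → k x = 0) {M : ℝ} (hkM : ∀ x, |k x| ≤ M)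
    (hw : ∀ φ : ℂ → ℝ, SC φ → tsupport φ ⊆ D →
      ∫ x, (dd 1 f x * dd 1 φ x + dd Complex.I f x * dd Complex.I φ x) = - ∫ x, k x * φ x) :
    ∃ F : V D, F.1 0 =ᵐ[volume] f ∧ F.1 1 =ᵐ[volume] D.indicator (dd 1 f) ∧
      F.1 2 =ᵐ[volume] D.indicator (dd Complex.I f) ∧
      (∀ G : V D, ⟪F, G⟫_ℝ = ∫ x, (f x - k x) * (G.1 0) x) ∧
      ∀ h : L2, h =ᵐ[volume] (fun x => f x - k x) → K D h = F.1 0 := by
  have hE := e4_sq hDo hDb hf hf0 hf1 hkm hkM hw
  obtain ⟨F, hFV, hF⟩ := e4_mem hDo hDb hf hf0 hf1 hE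
  have hF0 : F 0 =ᵐ[volume] f := hF 0
  have hF1 : F 1 =ᵐ[volume] D.indicator (dd 1 f) :=
    (hF 1).trans (e4_ind hDo hf hf0 hf1 hDb hE (Or.inl rfl))
  have hF2 : F 2 =ᵐ[volume] D.indicator (dd Complex.I f) :=
    (hF 2).trans (e4_ind hDo hf hf0 hf1 hDb hE (Or.inr rfl))
  have hM0 : 0 ≤ M := (abs_nonneg _).trans (hkM 0)
  -- the right hand side
  have hk2 : MemLp k 2 (volume : Measure ℂ) := by
    rw [memLp_two_iff_integrable_sq hkm.aestronglyMeasurable]
    have hb : Integrable ((closure D).indicator (fun _ : ℂ => M ^ 2)) := by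
      rw [integrable_indicator_iff isClosed_closure.measurableSet]
      exact integrableOn_const hDb.isCompact_closure.measure_lt_top.ne
    refine hb.mono' (hkm.pow_const 2).aestronglyMeasurable (Eventually.of_forall fun x => ?_)
    rw [Real.norm_eq_abs, abs_of_nonneg (sq_nonneg _)]
    by_cases hx : x ∈ D
    · rw [indicator_of_mem (subset_closure hx)]
      calc k x ^ 2 = |k x| ^ 2 := (sq_abs _).symm
        _ ≤ M ^ 2 := pow_le_pow_left₀ (abs_nonneg _) (hkM x) 2
    · rw [hk0 x hx]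
      simp only [ne_eq, OfNat.ofNat_ne_zero, not_false_eq_true, zero_pow]
      exact indicator_nonneg (fun _ _ => sq_nonneg M) x
  have hf2 : MemLp f 2 (volume : Measure ℂ) := hf.memLp_of_hasCompactSupport (e4_cs hDb hf0)
  set h0 : L2 := (hf2.sub hk2).toLp (f - k) with hh0
  have hh0e : h0 =ᵐ[volume] fun x => f x - k x := (hf2.sub hk2).coeFn_toLp
  -- the functional
  set A : W3 →L[ℝ] ℝ := innerSL ℝ F - (innerSL ℝ h0).comp (PiLp.proj 2 (fun _ : Fin 3 => L2) 0)
    with hA
  have hAapp : ∀ G : W3, A G = ⟪F, G⟫_ℝ - ⟪h0, G 0⟫_ℝ := fun G => rfl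
  have hker : V D ≤ LinearMap.ker (A : W3 →ₗ[ℝ] ℝ) := by
    apply Submodule.topologicalClosure_minimal
    · unfold V0
      rw [Submodule.span_le]
      rintro G ⟨φ, hφ, g0, g1, g2⟩
      show A G = 0
      rw [hAapp, PiLp.inner_apply, Fin.sum_univ_three, e4_inner hF0 g0, e4_inner hF1 g1,
        e4_inner hF2 g2, e4_inner hh0e g0]
      have z : ∀ h : ℂ, (fun x => D.indicator (dd h f) x * dd h φ x) =
          fun x => dd h f x * dd h φ x := by
        intro h
        funext x
        by_cases hx : x ∈ D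
        · rw [indicator_of_mem hx]
        · have : dd h φ x = 0 := by
            unfold dd
            rw [fderiv_of_notMem_tsupport (𝕜 := ℝ) (fun hh => hx (hφ.2.2 hh))]
            rfl
          rw [this, mul_zero, mul_zero]
      have i1 : ∀ h : ℂ, Integrable (fun x => dd h f x * dd h φ x) := fun h =>
        e4_prod_int hDo (e4_ddc hDo hf1 h) (e4_C1c_dd hφ h).1 (e4_C1c_dd hφ h).2.1
          (e4_C1c_dd hφ h).2.2
      have i2 : Integrable (fun x => f x * φ x) :=
        (hf.mul hφ.1.continuous).integrable_of_hasCompactSupport hφ.2.1.mul_left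
      have i3 : Integrable (fun x => k x * φ x) :=
        (hφ.1.continuous.integrable_of_hasCompactSupport hφ.2.1 (μ := volume)).bdd_mul
          (c := M) hkm.aestronglyMeasurable (Eventually.of_forall hkM)
      have e1 := e4_weak hDo hf1 hkm hkM hw hφ
      rw [integral_add (i1 1) (i1 Complex.I)] at e1
      have e2 : ∫ x, (f x - k x) * φ x = (∫ x, f x * φ x) - ∫ x, k x * φ x := by
        rw [← integral_sub i2 i3]
        congr 1
        funext x
        ring
      rw [z 1, z Complex.I, e2]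
      linarith
    · exact A.isClosed_ker
  have hform : ∀ G : V D, ⟪F, G.1⟫_ℝ = ∫ x, (f x - k x) * (G.1 0) x := by
    intro G
    have h1 : A G.1 = 0 := hker G.2
    rw [hAapp] at h1
    have h2 := e4_inner hh0e (Filter.EventuallyEq.refl (ae volume) ((G.1 0 : L2) : ℂ → ℝ))
    rw [h2] at h1
    linarith
  refine ⟨⟨F, hFV⟩, hF0, hF1, hF2, fun G => ?_, fun h hh => ?_⟩
  · rw [Submodule.coe_inner]
    exact hform G
  · have h1 : ContinuousLinearMap.adjoint (io D) h = ⟨F, hFV⟩ := by
      apply ext_inner_right ℝ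
      intro G
      rw [ContinuousLinearMap.adjoint_inner_left, Submodule.coe_inner, hform G]
      have h2 : io D G = G.1 0 := rfl
      rw [h2]
      exact e4_inner hh (Filter.EventuallyEq.refl (ae volume) ((G.1 0 : L2) : ℂ → ℝ))
    show io D (ContinuousLinearMap.adjoint (io D) h) = F 0
    rw [h1]
    rfl

end Pool.Agent.Helper327_Drum
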