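import Pool.Agent.TH298.Sch.Rot1
import Pool.Agent.R227.SA15
import Pool.Agent.Helper327_Drum.OpDefs

set_option autoImplicit false
open MeasureTheory Set Filter Topology
open scoped ContDiff InnerProductSpace

namespace Pool.Agent.Helper327_Drum

open Pool.Agent.TH298.Sch (dd SC)

open Pool.Agent.R227.SA (la int_c1)

lemma mul_c {n : WithTop ℕ∞} {D : Set ℂ} (hDo : IsOpen D) {g φ : ℂ → ℝ} (hg : ContDiffOn ℝ n g D)
    (hφ : ContDiff ℝ n φ) (hs : tsupport φ ⊆ D) : ContDiff ℝ n (fun x => g x * φ x) := by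
  rw [contDiff_iff_contDiffAt]
  intro x
  by_cases hx : x ∈ D
  · exact (hg.contDiffAt (hDo.mem_nhds hx)).mul hφ.contDiffAt
  · have hx' : x ∉ tsupport φ := fun h => hx (hs h)
    have h0 : φ =ᶠ[𝓝 x] 0 := notMem_tsupport_iff_eventuallyEq.mp hx'
    have h1 : (fun x => g x * φ x) =ᶠ[𝓝 x] fun _ => (0:ℝ) := by
      filter_upwards [h0] with y hy
      simp [hy]
    exact contDiffAt_const.congr_of_eventuallyEq h1

lemma dd_on {D : Set ℂ} (hDo : IsOpen D) {g : ℂ → ℝ} {m n : WithTop ℕ∞}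
    (hg : ContDiffOn ℝ n g D) (hmn : m + 1 ≤ n) (v : ℂ) : ContDiffOn ℝ m (dd v g) D := by
  unfold dd
  exact (hg.fderiv_of_isOpen hDo hmn).clm_apply contDiffOn_const

lemma dd_c {φ : ℂ → ℝ} (h : ContDiff ℝ 1 φ) (v : ℂ) : ContDiff ℝ 0 (dd v φ) := by
  unfold dd
  exact (h.fderiv_right (m := 0) (by norm_num)).clm_apply contDiff_const

lemma dd_ts (φ : ℂ → ℝ) (v : ℂ) : tsupport (dd v φ) ⊆ tsupport φ := by
  refine (closure_minimal ?_ (isClosed_tsupport φ))
  intro x hx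
  by_contra h
  apply hx
  have h0 : φ =ᶠ[𝓝 x] 0 := notMem_tsupport_iff_eventuallyEq.mp h
  unfold dd
  rw [h0.fderiv_eq]
  simp

lemma int_mul {D : Set ℂ} (hDo : IsOpen D) {g φ : ℂ → ℝ} (hg : ContDiffOn ℝ 0 g D)
    (hφ : ContDiff ℝ 0 φ) (hc : HasCompactSupport φ) (hs : tsupport φ ⊆ D) :
    Integrable (fun x => g x * φ x) :=
  (mul_c hDo hg hφ hs).continuous.integrable_of_hasCompactSupport hc.mul_left

/-- integration by parts against a `C¹` function with compact support in `D` -/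
lemma ibp {D : Set ℂ} (hDo : IsOpen D) {g φ : ℂ → ℝ} (hg : ContDiffOn ℝ 1 g D)
    (hφ : ContDiff ℝ 1 φ) (hc : HasCompactSupport φ) (hs : tsupport φ ⊆ D) (v : ℂ) :
    Integrable (fun x => dd v g x * φ x) ∧ Integrable (fun x => g x * dd v φ x) ∧
      ∫ x, dd v g x * φ x = - ∫ x, g x * dd v φ x := by
  have iA : Integrable (fun x => dd v g x * φ x) :=
    int_mul hDo (dd_on hDo hg (by norm_num) v) (hφ.of_le (by norm_num)) hc hs
  have hcd : HasCompactSupport (dd v φ) :=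
    IsCompact.of_isClosed_subset hc (isClosed_tsupport _) (dd_ts φ v)
  have iB : Integrable (fun x => g x * dd v φ x) :=
    int_mul hDo (hg.of_le (by norm_num)) (dd_c hφ v) hcd ((dd_ts φ v).trans hs)
  refine ⟨iA, iB, ?_⟩
  have h1 := (int_c1 (mul_c hDo hg hφ hs) hc.mul_left v).2
  have h2 : ∀ x, dd v (fun x => g x * φ x) x = dd v g x * φ x + g x * dd v φ x := by
    intro x
    by_cases hx : x ∈ D
    · have dg : DifferentiableAt ℝ g x :=
        (hg.contDiffAt (hDo.mem_nhds hx)).differentiableAt (by norm_num)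
      have dφ : DifferentiableAt ℝ φ x := hφ.contDiffAt.differentiableAt (by norm_num)
      unfold dd
      rw [fderiv_fun_mul dg dφ]
      simp
      ring
    · have hx' : x ∉ tsupport φ := fun h => hx (hs h)
      have h0 : φ =ᶠ[𝓝 x] 0 := notMem_tsupport_iff_eventuallyEq.mp hx'
      have h1 : (fun x => g x * φ x) =ᶠ[𝓝 x] fun _ => (0:ℝ) := by
        filter_upwards [h0] with y hy
        simp [hy]
      have e1 : φ x = 0 := h0.eq_of_nhds
      unfold dd
      rw [h1.fderiv_eq, h0.fderiv_eq, e1]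
      simp
  simp only [h2] at h1
  rw [integral_add iA iB] at h1
  linarith

lemma ind_mul {D : Set ℂ} {g φ : ℂ → ℝ} (hs : tsupport φ ⊆ D) (x : ℂ) :
    D.indicator g x * φ x = g x * φ x := by
  by_cases hx : x ∈ D
  · rw [indicator_of_mem hx]
  · have : φ x = 0 := by
      by_contra h
      exact hx (hs (subset_tsupport _ h))
    rw [this]; ring

/-- TARGET: classical functions satisfy the weak equation with `k = 1_D Δf`. -/
theorem weak_of_classical {D : Set ℂ} (hDo : IsOpen D) {f : ℂ → ℝ} (hf : ContDiffOn ℝ 2 f D)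
    {φ : ℂ → ℝ} (hφ : C1c D φ) :
    ∫ x, (dd 1 f x * dd 1 φ x + dd Complex.I f x * dd Complex.I φ x) =
      - ∫ x, D.indicator (Pool.Agent.R227.SA.la f) x * φ x := by
  obtain ⟨h1, h2, h3⟩ := hφ
  have hd : ∀ v, ContDiffOn ℝ 1 (dd v f) D := fun v => dd_on hDo hf (by norm_num) v
  obtain ⟨a1, a2, a3⟩ := ibp hDo (hd 1) h1 h2 h3 1
  obtain ⟨b1, b2, b3⟩ := ibp hDo (hd Complex.I) h1 h2 h3 Complex.I
  rw [integral_add a2 b2]
  have e : ∀ x, D.indicator (la f) x * φ x =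
      dd 1 (dd 1 f) x * φ x + dd Complex.I (dd Complex.I f) x * φ x := by
    intro x
    rw [ind_mul h3]
    unfold la
    ring
  simp only [e]
  rw [integral_add a1 b1]
  linarith

/-- TARGET: Green's second identity against smooth test functions. -/
theorem green_classical {D : Set ℂ} (hDo : IsOpen D) {f : ℂ → ℝ} (hf : ContDiffOn ℝ 2 f D)
    {φ : ℂ → ℝ} (hφ : SC φ) (hφD : tsupport φ ⊆ D) :
    ∫ x, f x * Pool.Agent.R227.SA.la φ x = ∫ x, D.indicator (Pool.Agent.R227.SA.la f) x * φ x := by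
  have h1 : ContDiff ℝ 1 φ := hφ.sm.of_le (by exact_mod_cast le_top)
  have w := weak_of_classical hDo hf (φ := φ) ⟨h1, hφ.cs, hφD⟩
  have f1 : ContDiffOn ℝ 1 f D := hf.of_le (by norm_num)
  have sc : ∀ v, SC (dd v φ) := fun v => Pool.Agent.TH298.Sch.dd_sc hφ v
  have s1 : ∀ v, ContDiff ℝ 1 (dd v φ) := fun v => (sc v).sm.of_le (by exact_mod_cast le_top)
  obtain ⟨a1, a2, a3⟩ := ibp hDo f1 (s1 1) (sc 1).cs ((dd_ts φ 1).trans hφD) 1
  obtain ⟨b1, b2, b3⟩ := ibp hDo f1 (s1 Complex.I) (sc Complex.I).cs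
    ((dd_ts φ Complex.I).trans hφD) Complex.I
  rw [integral_add a1 b1] at w
  have e : ∀ x, f x * la φ x =
      f x * dd 1 (dd 1 φ) x + f x * dd Complex.I (dd Complex.I φ) x := by
    intro x
    unfold la
    ring
  simp only [e]
  rw [integral_add a2 b2]
  linarith

lemma dd_comm {φ : ℂ → ℝ} (hφ : SC φ) (h v x : ℂ) : dd h (dd v φ) x = dd v (dd h φ) x := by
  have hd1 : ContDiff ℝ (⊤ : ℕ∞) (fderiv ℝ φ) := hφ.sm.fderiv_right (by simp)
  have hv2 : HasFDerivAt (fderiv ℝ φ) (fderiv ℝ (fderiv ℝ φ) x) x :=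
    (hd1.differentiable (by simp) x).hasFDerivAt
  have h3 : ∀ w, HasFDerivAt (dd w φ)
      ((ContinuousLinearMap.apply ℝ ℝ w).comp (fderiv ℝ (fderiv ℝ φ) x)) x := fun w =>
    (ContinuousLinearMap.apply ℝ ℝ w).hasFDerivAt.comp _ hv2
  have sy : IsSymmSndFDerivAt ℝ φ x :=
    hφ.sm.contDiffAt.isSymmSndFDerivAt (by simpa using (WithTop.coe_le_coe.mpr (le_top : (2:ℕ∞) ≤ ⊤)))
  unfold dd at h3 ⊢
  rw [(h3 v).fderiv, (h3 h).fderiv]
  simp only [ContinuousLinearMap.comp_apply, ContinuousLinearMap.apply_apply]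
  exact sy h v

/-- TARGET: the weak Laplacian of a first derivative of a classical function. -/
theorem weak_of_deriv {D : Set ℂ} (hDo : IsOpen D) {f k : ℂ → ℝ} (hf : ContDiffOn ℝ 2 f D)
    (hk : ContDiffOn ℝ 1 k D) (hfk : ∀ x ∈ D, Pool.Agent.R227.SA.la f x = k x) (h : ℂ)
    {φ : ℂ → ℝ} (hφ : SC φ) (hφD : tsupport φ ⊆ D) :
    ∫ x, (dd 1 (dd h f) x * dd 1 φ x + dd Complex.I (dd h f) x * dd Complex.I φ x) =
      - ∫ x, D.indicator (dd h k) x * φ x := by
  have f1 : ContDiffOn ℝ 1 f D := hf.of_le (by norm_num)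
  have hd : ContDiffOn ℝ 1 (dd h f) D := dd_on hDo hf (by norm_num) h
  have sc : ∀ v, SC (dd v φ) := fun v => Pool.Agent.TH298.Sch.dd_sc hφ v
  have sc2 : ∀ v w, SC (dd v (dd w φ)) := fun v w => Pool.Agent.TH298.Sch.dd_sc (sc w) v
  have c1 : ∀ {ψ : ℂ → ℝ}, SC ψ → ContDiff ℝ 1 ψ := fun hψ => hψ.sm.of_le (by exact_mod_cast le_top)
  have t1 : ∀ v, tsupport (dd v φ) ⊆ D := fun v => (dd_ts φ v).trans hφD
  have t2 : ∀ v w, tsupport (dd v (dd w φ)) ⊆ D := fun v w => (dd_ts _ v).trans (t1 w)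
  -- first step
  have S1 : ∀ v, Integrable (fun x => dd v (dd h f) x * dd v φ x) ∧
      ∫ x, dd v (dd h f) x * dd v φ x = ∫ x, f x * dd h (dd v (dd v φ)) x ∧
      Integrable (fun x => f x * dd h (dd v (dd v φ)) x) := by
    intro v
    obtain ⟨a1, a2, a3⟩ := ibp hDo hd (c1 (sc v)) (sc v).cs (t1 v) v
    obtain ⟨b1, b2, b3⟩ := ibp hDo f1 (c1 (sc2 v v)) (sc2 v v).cs (t2 v v) h
    exact ⟨a1, by rw [a3, b3]; ring, b2⟩
  obtain ⟨p1, p2, p3⟩ := S1 1
  obtain ⟨q1, q2, q3⟩ := S1 Complex.I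
  rw [integral_add p1 q1, p2, q2, ← integral_add p3 q3]
  have g := green_classical hDo hf (sc h) (t1 h)
  have e : ∀ x, f x * dd h (dd 1 (dd 1 φ)) x + f x * dd h (dd Complex.I (dd Complex.I φ)) x =
      f x * la (dd h φ) x := by
    intro x
    unfold la
    have r : ∀ v, dd h (dd v (dd v φ)) x = dd v (dd v (dd h φ)) x := by
      intro v
      rw [dd_comm (sc v) h v x]
      have : dd h (dd v φ) = dd v (dd h φ) := funext (fun y => dd_comm hφ h v y)
      rw [this]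
    rw [r 1, r Complex.I]
    ring
  simp only [e]
  rw [g]
  obtain ⟨a1, a2, a3⟩ := ibp hDo hk (c1 hφ) hφ.cs hφD h
  have e2 : ∀ x, D.indicator (la f) x * dd h φ x = k x * dd h φ x := by
    intro x
    by_cases hx : x ∈ D
    · rw [indicator_of_mem hx, hfk x hx]
    · have : dd h φ x = 0 := by
        by_contra h'
        exact hx (t1 h (subset_tsupport _ h'))
      rw [this]; ring
  simp only [e2, ind_mul hφD]
  linarith

end Pool.Agent.Helper327_Drum
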