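import Pool.Agent.TH298.Sch.Rot1
import Pool.Agent.R227.SA8
import Pool.Agent.Helper327_Drum.Defs
import Pool.Agent.Helper327_Drum.Fin.E4
import Pool.Agent.Helper327_Drum.Fin.E5
import Pool.Agent.Helper327_Drum.Fin.G1
import Pool.Agent.Helper327_Drum.Fin.M1
import Pool.Agent.Helper327_Drum.MoreDefs
import Pool.Agent.Helper327_Drum.OpDefs

-- targets wave_K and eig_K proved (only the given lemmas keep sorry), compiled with default heartbeats in 6 s
set_option autoImplicit false
open MeasureTheory Set Filter Topology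
open scoped ContDiff InnerProductSpace

namespace Pool.Agent.Helper327_Drum

open Pool.Agent.TH298.Sch (dd SC)
open Pool.Agent.R227.SA (la)

/-
Plain proof. Put D = inside R, f = ∫ W t zx(·,t) dt and f2 = ∫ W''(t) zx(·,t) dt (iteratedDeriv 2 W is smooth with
compact support). By `zW_nice` f is continuous, 0 off D, C² in D, la f = c⁻² f2 in D, bounded. `mem_V` with
k = D.indicator (la f) = c⁻² f2 (everywhere, both 0 off D), weak equation from `weak_of_classical`
(SC φ with tsupport in D is C1c), gives K (class of f - c⁻² f2) = class of f; the classes are the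
Bochner integrals by `zc_int`.
-/

/-- TARGET 1: the wave equation for the L²-valued function. -/
theorem wave_K {R : Set ℂ} {c : ℝ} {z : ℂ → ℝ → ℝ} {g : ℂ → ℝ → ℂ} (hR : IsCompact R)
    (hc : 0 < c) (h : DrumSolution R c z g) {W : ℝ → ℝ} (hW : ContDiff ℝ ∞ W)
    (hWc : HasCompactSupport W) :
    K (inside R) ((∫ t, W t • cl (fun x => zx R z x t)) -
      (c ^ 2)⁻¹ • ∫ t, iteratedDeriv 2 W t • cl (fun x => zx R z x t)) =
      ∫ t, W t • cl (fun x => zx R z x t) := by
  obtain ⟨hDo, hDb, -, -, -⟩ := inside_basic hR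
  have hW2 : ContDiff ℝ ∞ (iteratedDeriv 2 W) := by
    rw [iteratedDeriv_eq_iterate]
    exact hW.iterate_deriv 2
  have hW2c : HasCompactSupport (iteratedDeriv 2 W) := by
    rw [iteratedDeriv_succ, iteratedDeriv_one]
    exact hWc.deriv.deriv
  obtain ⟨f1, f2, f3, f4, -, -, -⟩ := zW_nice hR hc h hW hWc
  obtain ⟨g1, g2, -, -, -, ⟨M, hM⟩, -⟩ := zW_nice hR hc h hW2 hW2c
  set f : ℂ → ℝ := fun x => ∫ t, W t * zx R z x t with hf
  set k0 : ℂ → ℝ := fun x => ∫ t, iteratedDeriv 2 W t * zx R z x t with hk0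
  have hk : (inside R).indicator (la f) = fun x => (c ^ 2)⁻¹ * k0 x := by
    funext x
    by_cases hx : x ∈ inside R
    · rw [indicator_of_mem hx]
      exact f4 x hx
    · rw [indicator_of_notMem hx]
      have : k0 x = 0 := g2 x hx
      rw [this, mul_zero]
  have hg2 : ∀ x, x ∉ inside R → k0 x = 0 := g2
  obtain ⟨F, F1, -, -, -, F5⟩ := mem_V hDo hDb (f := f) (k := fun x => (c ^ 2)⁻¹ * k0 x)
    (M := (c ^ 2)⁻¹ * max M 0) f1 f2 (f3.of_le (by norm_num)) (g1.measurable.const_mul _)
    (fun x hx => by rw [hg2 x hx, mul_zero])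
    (fun x => by
      rw [abs_mul, abs_of_nonneg (by positivity : (0 : ℝ) ≤ (c ^ 2)⁻¹)]
      refine mul_le_mul_of_nonneg_left ?_ (by positivity)
      by_cases hx : x ∈ inside R
      · exact (hM x hx).trans (le_max_left _ _)
      · rw [hg2 x hx, abs_zero]
        exact le_max_right _ _)
    (fun φ hφ hs => by
      have hw := weak_of_classical hDo f3 (φ := φ) ⟨hφ.sm.of_le (by simp), hφ.cs, hs⟩
      rw [hk] at hw
      exact hw)
  have z1 := zc_int hR h hW.continuous hWc
  have z2 := zc_int hR h hW2.continuous hW2c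
  have e1 : (∫ t, W t • cl (fun x => zx R z x t) : L2) = F.1 0 := by
    apply Lp.ext
    exact z1.trans F1.symm
  rw [e1]
  apply F5
  rw [← e1]
  have s1 := Lp.coeFn_sub (∫ t, W t • cl (fun x => zx R z x t) : L2)
    ((c ^ 2)⁻¹ • ∫ t, iteratedDeriv 2 W t • cl (fun x => zx R z x t))
  have s2 := Lp.coeFn_smul (c ^ 2)⁻¹
    (∫ t, iteratedDeriv 2 W t • cl (fun x => zx R z x t) : L2)
  filter_upwards [s1, s2, z1, z2] with x h1 h2 h3 h4
  rw [h1, Pi.sub_apply, h2, Pi.smul_apply, h3, h4, smul_eq_mul]

/-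
Plain proof. `mem_V` for f = D.indicator φ (continuous on the plane: φ is continuous on closure D and 0 on
frontier D; D is open and bounded), k = -lam f, with `weak_of_classical` (lap = la by rfl): K (class of
(1 + lam) f) = class of f.
-/

/-- TARGET 2: classical Dirichlet eigenfunctions are eigenvectors of `K`. -/
theorem eig_K {D : Set ℂ} (hDo : IsOpen D) (hDb : Bornology.IsBounded D) {lam : ℝ} {φ : ℂ → ℝ}
    (h : DirichletEigenfunction D lam φ) :
    Continuous (D.indicator φ) ∧ (cl (D.indicator φ) : ℂ → ℝ) =ᵐ[volume] D.indicator φ ∧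
      (1 + lam) • K D (cl (D.indicator φ)) = cl (D.indicator φ) := by
  have hcont : Continuous (D.indicator φ) := continuous_indicator h.zero h.cont
  have h0 : ∀ x, x ∉ D → D.indicator φ x = 0 := fun x hx => indicator_of_notMem hx _
  have hcs : HasCompactSupport (D.indicator φ) :=
    HasCompactSupport.intro hDb.isCompact_closure fun x hx => h0 x fun hx' => hx (subset_closure hx')
  have hmem : MemLp (D.indicator φ) 2 (volume : Measure ℂ) :=
    hcont.memLp_of_hasCompactSupport hcs
  have hcl : (cl (D.indicator φ) : ℂ → ℝ) =ᵐ[volume] D.indicator φ := by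
    unfold cl
    rw [dif_pos hmem]
    exact hmem.coeFn_toLp
  refine ⟨hcont, hcl, ?_⟩
  set f : ℂ → ℝ := D.indicator φ with hf
  have hfφ : ∀ x ∈ D, f =ᶠ[𝓝 x] φ := by
    intro x hx
    filter_upwards [hDo.mem_nhds hx] with y hy
    exact indicator_of_mem hy _
  have hsm : ContDiffOn ℝ 2 f D := h.smooth.congr fun x hx => indicator_of_mem hx _
  have hla : D.indicator (la f) = fun x => -(lam * f x) := by
    funext x
    by_cases hx : x ∈ D
    · rw [indicator_of_mem hx]
      have h1 : ∀ v : ℂ, dd v f =ᶠ[𝓝 x] dd v φ := by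
        intro v
        filter_upwards [(hfφ x hx).fderiv (𝕜 := ℝ)] with y hy
        unfold dd
        rw [hy]
      have h2 : ∀ v : ℂ, dd v (dd v f) x = dd v (dd v φ) x := by
        intro v
        have := (h1 v).fderiv_eq (𝕜 := ℝ)
        change fderiv ℝ (dd v f) x v = fderiv ℝ (dd v φ) x v
        rw [this]
      have h3 : la f x = lap φ x := by
        unfold la
        rw [h2, h2]
        rfl
      rw [h3, h.eq x hx, (hfφ x hx).self_of_nhds]
    · rw [indicator_of_notMem hx, h0 x hx, mul_zero, neg_zero]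
  obtain ⟨C, hC⟩ := hcs.exists_bound_of_continuous hcont
  obtain ⟨F, F1, -, -, -, F5⟩ := mem_V hDo hDb (f := f) (k := fun x => -(lam * f x))
    (M := |lam| * C) hcont h0 (hsm.of_le (by norm_num)) ((hcont.measurable.const_mul lam).neg)
    (fun x hx => by rw [h0 x hx, mul_zero, neg_zero])
    (fun x => by
      rw [abs_neg, abs_mul]
      exact mul_le_mul_of_nonneg_left (hC x) (abs_nonneg _))
    (fun ψ hψ hs => by
      have hw := weak_of_classical hDo hsm (φ := ψ) ⟨hψ.sm.of_le (by simp), hψ.cs, hs⟩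
      rw [hla] at hw
      exact hw)
  have e1 : cl f = F.1 0 := by
    apply Lp.ext
    exact hcl.trans F1.symm
  rw [← ContinuousLinearMap.map_smul]
  have key : K D ((1 + lam) • cl f) = F.1 0 := by
    apply F5
    have s2 := Lp.coeFn_smul (1 + lam) (cl f)
    filter_upwards [s2, hcl] with x h1 h2
    rw [h1, Pi.smul_apply, h2, smul_eq_mul]
    ring
  rw [key, e1]

end Pool.Agent.Helper327_Drum
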