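import Pool.Agent.TH298.Sch.Rot1
import Pool.Agent.R227.SA8
import Pool.Agent.Helper327_Drum.Fin.A4
import Pool.Agent.Helper327_Drum.Fin.B2
import Pool.Agent.Helper327_Drum.Defs
import Pool.Agent.Helper327_Drum.Fin.E1
import Pool.Agent.Helper327_Drum.Fin.E3
import Pool.Agent.Helper327_Drum.Fin.G1
import Pool.Agent.Helper327_Drum.Fin.M1
import Pool.Agent.Helper327_Drum.Fin.M2
import Pool.Agent.Helper327_Drum.MoreDefs
import Pool.Agent.Helper327_Drum.OpDefs

set_option autoImplicit false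
open MeasureTheory Set Filter Topology
open scoped ContDiff InnerProductSpace

namespace Pool.Agent.Helper327_Drum

open Pool.Agent.TH298.Sch (dd SC)
open Pool.Agent.R227.SA (la)

/-! #### oscillating weights -/

/-- oscillating weights -/
noncomputable def osc (om t₀ : ℝ) (p : ℝ → ℝ) (φ T t : ℝ) : ℝ :=
  p ((t - t₀) / T) * Real.cos (om * (t - t₀) + φ)

lemma osc_smooth (om t₀ : ℝ) {p : ℝ → ℝ} (hp : ContDiff ℝ ∞ p) (φ T : ℝ) :
    ContDiff ℝ ∞ (osc om t₀ p φ T) := by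
  unfold osc
  have h1 : ContDiff ℝ ∞ (fun t : ℝ => p ((t - t₀) / T)) := hp.comp (by fun_prop)
  have h2 : ContDiff ℝ ∞ (fun t : ℝ => Real.cos (om * (t - t₀) + φ)) :=
    Real.contDiff_cos.comp (by fun_prop)
  exact h1.mul h2

lemma osc_supp (om t₀ : ℝ) {p : ℝ → ℝ} (hp : HasCompactSupport p) (φ : ℝ) {T : ℝ} (hT : 0 < T) :
    HasCompactSupport (osc om t₀ p φ T) := by
  refine HasCompactSupport.intro (K := (fun s : ℝ => t₀ + T * s) '' tsupport p)
    (hp.isCompact.image (by fun_prop)) fun t ht => ?_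
  unfold osc
  have : (t - t₀) / T ∉ tsupport p := by
    intro h
    apply ht
    refine ⟨(t - t₀) / T, h, ?_⟩
    simp only
    field_simp
    ring
  rw [image_eq_zero_of_notMem_tsupport this, zero_mul]

lemma osc_hasDeriv (om t₀ : ℝ) {p : ℝ → ℝ} (hp : ContDiff ℝ ∞ p) (φ T t : ℝ) :
    HasDerivAt (osc om t₀ p φ T)
      ((1 / T) * osc om t₀ (deriv p) φ T t + om * osc om t₀ p (φ + Real.pi / 2) T t) t := by
  have h1 : HasDerivAt (fun t : ℝ => (t - t₀) / T) (1 / T) t :=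
    ((hasDerivAt_id t).sub_const t₀).div_const T
  have h2 : HasDerivAt p (deriv p ((t - t₀) / T)) ((t - t₀) / T) :=
    ((hp.differentiable (by simp)) _).hasDerivAt
  have h3 := h2.comp t h1
  have h4 : HasDerivAt (fun t : ℝ => om * (t - t₀) + φ) (om * 1) t :=
    (((hasDerivAt_id t).sub_const t₀).const_mul om).add_const φ
  have h5 := (Real.hasDerivAt_cos (om * (t - t₀) + φ)).comp t h4
  have h6 := h3.mul h5
  refine h6.congr_deriv ?_
  unfold osc
  simp only [Function.comp_apply]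
  rw [← add_assoc, Real.cos_add_pi_div_two]
  ring

lemma osc_d2 (om t₀ : ℝ) {p : ℝ → ℝ} (hp : ContDiff ℝ ∞ p) (φ T t : ℝ) :
    iteratedDeriv 2 (osc om t₀ p φ T) t =
      (1 / T) ^ 2 * osc om t₀ (deriv (deriv p)) φ T t
      + 2 * om * (1 / T) * osc om t₀ (deriv p) (φ + Real.pi / 2) T t
      - om ^ 2 * osc om t₀ p φ T t := by
  have hp1 : ContDiff ℝ ∞ (deriv p) := (contDiff_infty_iff_deriv.mp hp).2
  rw [show (2 : ℕ) = 1 + 1 from rfl, iteratedDeriv_succ, iteratedDeriv_one]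
  have e1 : deriv (osc om t₀ p φ T) = fun t =>
      (1 / T) * osc om t₀ (deriv p) φ T t + om * osc om t₀ p (φ + Real.pi / 2) T t := by
    funext t
    exact (osc_hasDeriv om t₀ hp φ T t).deriv
  rw [e1]
  have h1 := (osc_hasDeriv om t₀ hp1 φ T t).const_mul (1 / T)
  have h2 := (osc_hasDeriv om t₀ hp (φ + Real.pi / 2) T t).const_mul om
  have h3 : HasDerivAt (fun t => (1 / T) * osc om t₀ (deriv p) φ T t +
      om * osc om t₀ p (φ + Real.pi / 2) T t) _ t := h1.add h2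
  rw [h3.deriv]
  have e2 : osc om t₀ p (φ + Real.pi / 2 + Real.pi / 2) T t = - osc om t₀ p φ T t := by
    unfold osc
    have : om * (t - t₀) + (φ + Real.pi / 2 + Real.pi / 2) = om * (t - t₀) + φ + Real.pi := by ring
    rw [this, Real.cos_add_pi]
    ring
  rw [e2]
  ring

lemma osc_int (om t₀ : ℝ) {p : ℝ → ℝ} (hp : Continuous p) (hc : HasCompactSupport p) (φ : ℝ)
    {T : ℝ} (hT : 0 < T) : ∫ t, |osc om t₀ p φ T t| ≤ T * ∫ t, |p t| := by
  have h1 : ∫ t : ℝ, |p ((t - t₀) / T)| = T * ∫ t, |p t| := by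
    rw [integral_sub_right_eq_self (fun t => |p (t / T)|) t₀,
      Measure.integral_comp_div (fun t => |p t|) T, smul_eq_mul, abs_of_pos hT]
  rw [← h1]
  have hcont : Continuous (fun t : ℝ => p ((t - t₀) / T)) := by fun_prop
  have hcs : HasCompactSupport (fun t : ℝ => p ((t - t₀) / T)) := by
    have := osc_supp 0 t₀ hc 0 hT
    have e : osc 0 t₀ p 0 T = fun t : ℝ => p ((t - t₀) / T) := by
      funext t
      unfold osc
      simp
    rwa [e] at this
  refine integral_mono_of_nonneg (Eventually.of_forall fun t => abs_nonneg _)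
    (hcont.integrable_of_hasCompactSupport hcs).abs (Eventually.of_forall fun t => ?_)
  simp only
  unfold osc
  rw [abs_mul]
  have := Real.abs_cos_le_one (om * (t - t₀) + φ)
  nlinarith [abs_nonneg (p ((t - t₀) / T))]

/-- total variation type constant -/
noncomputable def oc (om : ℝ) (p : ℝ → ℝ) : ℝ :=
  (∫ t, |deriv (deriv p) t|) + 2 * om * (∫ t, |deriv p t|) + om ^ 2 * ∫ t, |p t|

lemma oc_nonneg {om : ℝ} (hom : 0 ≤ om) (p : ℝ → ℝ) : 0 ≤ oc om p := by
  unfold oc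
  have h1 : 0 ≤ ∫ t, |deriv (deriv p) t| := integral_nonneg fun t => abs_nonneg _
  have h2 : 0 ≤ ∫ t, |deriv p t| := integral_nonneg fun t => abs_nonneg _
  have h3 : 0 ≤ ∫ t, |p t| := integral_nonneg fun t => abs_nonneg _
  positivity

lemma osc_int2 {om : ℝ} (hom : 0 ≤ om) (t₀ : ℝ) {p : ℝ → ℝ} (hp : ContDiff ℝ ∞ p)
    (hc : HasCompactSupport p) (φ : ℝ) {T : ℝ} (hT : 1 ≤ T) :
    ∫ t, |iteratedDeriv 2 (osc om t₀ p φ T) t| ≤ T * oc om p := by
  have hT0 : 0 < T := by linarith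
  have hp1 : ContDiff ℝ ∞ (deriv p) := (contDiff_infty_iff_deriv.mp hp).2
  have hp2 : ContDiff ℝ ∞ (deriv (deriv p)) := (contDiff_infty_iff_deriv.mp hp1).2
  have hc1 : HasCompactSupport (deriv p) := hc.deriv
  have hc2 : HasCompactSupport (deriv (deriv p)) := hc1.deriv
  have i0 := osc_int om t₀ hp.continuous hc φ hT0
  have i1 := osc_int om t₀ hp1.continuous hc1 (φ + Real.pi / 2) hT0
  have i2 := osc_int om t₀ hp2.continuous hc2 φ hT0
  have j0 : Integrable (fun t => |osc om t₀ p φ T t|) :=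
    ((osc_smooth om t₀ hp φ T).continuous.integrable_of_hasCompactSupport
      (osc_supp om t₀ hc φ hT0)).abs
  have j1 : Integrable (fun t => |osc om t₀ (deriv p) (φ + Real.pi / 2) T t|) :=
    ((osc_smooth om t₀ hp1 _ T).continuous.integrable_of_hasCompactSupport
      (osc_supp om t₀ hc1 _ hT0)).abs
  have j2 : Integrable (fun t => |osc om t₀ (deriv (deriv p)) φ T t|) :=
    ((osc_smooth om t₀ hp2 _ T).continuous.integrable_of_hasCompactSupport
      (osc_supp om t₀ hc2 _ hT0)).abs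
  calc ∫ t, |iteratedDeriv 2 (osc om t₀ p φ T) t|
      ≤ ∫ t, ((1 / T) ^ 2 * |osc om t₀ (deriv (deriv p)) φ T t|
        + 2 * om * (1 / T) * |osc om t₀ (deriv p) (φ + Real.pi / 2) T t|
        + om ^ 2 * |osc om t₀ p φ T t|) := by
        refine integral_mono_of_nonneg (Eventually.of_forall fun t => abs_nonneg _)
          (((j2.const_mul _).add (j1.const_mul _)).add (j0.const_mul _))
          (Eventually.of_forall fun t => ?_)
        simp only
        rw [osc_d2 om t₀ hp]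
        refine (abs_sub _ _).trans ?_
        refine add_le_add ((abs_add_le _ _).trans (add_le_add ?_ ?_)) ?_
        · rw [abs_mul, abs_of_nonneg (by positivity : (0:ℝ) ≤ (1 / T) ^ 2)]
        · rw [abs_mul, abs_of_nonneg (by positivity : (0:ℝ) ≤ 2 * om * (1 / T))]
        · rw [abs_mul, abs_of_nonneg (by positivity : (0:ℝ) ≤ om ^ 2)]
    _ = (1 / T) ^ 2 * (∫ t, |osc om t₀ (deriv (deriv p)) φ T t|)
        + 2 * om * (1 / T) * (∫ t, |osc om t₀ (deriv p) (φ + Real.pi / 2) T t|)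
        + om ^ 2 * ∫ t, |osc om t₀ p φ T t| := by
        have k2 := j2.const_mul ((1 / T) ^ 2)
        have k1 := j1.const_mul (2 * om * (1 / T))
        have k0 := j0.const_mul (om ^ 2)
        have k21 : Integrable (fun t => (1 / T) ^ 2 * |osc om t₀ (deriv (deriv p)) φ T t|
          + 2 * om * (1 / T) * |osc om t₀ (deriv p) (φ + Real.pi / 2) T t|) := k2.add k1
        rw [integral_add k21 k0, integral_add k2 k1, integral_const_mul, integral_const_mul,
          integral_const_mul]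
    _ ≤ 1 * (T * ∫ t, |deriv (deriv p) t|) + 2 * om * 1 * (T * ∫ t, |deriv p t|)
        + om ^ 2 * (T * ∫ t, |p t|) := by
        have h1 : 1 / T ≤ 1 := by rw [div_le_one hT0]; exact hT
        have h2 : (1 / T) ^ 2 ≤ 1 := pow_le_one₀ (by positivity) h1
        have n1 : 0 ≤ ∫ t, |osc om t₀ (deriv (deriv p)) φ T t| := integral_nonneg fun t => abs_nonneg _
        have n2 : 0 ≤ ∫ t, |osc om t₀ (deriv p) (φ + Real.pi / 2) T t| :=
          integral_nonneg fun t => abs_nonneg _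
        gcongr
    _ = T * oc om p := by unfold oc; ring

/-! #### superpositions in time -/

/-- the solution as a curve in `L²` -/
noncomputable def zt (R : Set ℂ) (z : ℂ → ℝ → ℝ) (t : ℝ) : L2 := cl (fun x => zx R z x t)

/-- superposition in `L²` -/
noncomputable def II (R : Set ℂ) (z : ℂ → ℝ → ℝ) (W : ℝ → ℝ) : L2 := ∫ t, W t • zt R z t

/-- superposition, pointwise -/
noncomputable def Zf (R : Set ℂ) (z : ℂ → ℝ → ℝ) (W : ℝ → ℝ) (x : ℂ) : ℝ := ∫ t, W t * zx R z x t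

section sup

variable {R : Set ℂ} {c : ℝ} {z : ℂ → ℝ → ℝ} {g : ℂ → ℝ → ℂ}

lemma II_integrable (hR : IsCompact R) (h : DrumSolution R c z g) {W : ℝ → ℝ} (hW : Continuous W)
    (hWc : HasCompactSupport W) : Integrable (fun t => W t • zt R z t) := by
  have hz : Continuous (zt R z) := (zc_cont hR h).1
  exact (hW.smul hz).integrable_of_hasCompactSupport hWc.smul_right

lemma II_lin (hR : IsCompact R) (h : DrumSolution R c z g) {V W : ℝ → ℝ} (hV : Continuous V)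
    (hVc : HasCompactSupport V) (hW : Continuous W) (hWc : HasCompactSupport W) (a b : ℝ) :
    II R z (fun t => a * V t + b * W t) = a • II R z V + b • II R z W := by
  unfold II
  have h1 := II_integrable hR h hV hVc
  have h2 := II_integrable hR h hW hWc
  have e : (fun t => (a * V t + b * W t) • zt R z t) = fun t => a • (V t • zt R z t)
      + b • (W t • zt R z t) := by
    funext t
    rw [add_smul, mul_smul, mul_smul]
  have k1 : Integrable (fun t => a • (V t • zt R z t)) := h1.smul a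
  have k2 : Integrable (fun t => b • (W t • zt R z t)) := h2.smul b
  rw [e, integral_add k1 k2, integral_smul, integral_smul]

lemma II_norm {M : ℝ} (hM : ∀ t, ‖zt R z t‖ ≤ M) {W : ℝ → ℝ} (hW : Continuous W)
    (hWc : HasCompactSupport W) : ‖II R z W‖ ≤ M * ∫ t, |W t| := by
  unfold II
  have hi : Integrable (fun t => |W t|) := (hW.integrable_of_hasCompactSupport hWc).abs
  calc ‖∫ t, W t • zt R z t‖ ≤ ∫ t, M * |W t| := by
        refine norm_integral_le_of_norm_le (hi.const_mul M) (Eventually.of_forall fun t => ?_)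
        rw [norm_smul, Real.norm_eq_abs, mul_comm]
        exact mul_le_mul_of_nonneg_right (hM t) (abs_nonneg _)
    _ = M * ∫ t, |W t| := integral_const_mul _ _

lemma L2_norm_sq (f : L2) : ‖f‖ ^ 2 = ∫ x, (f x) ^ 2 := by
  rw [← real_inner_self_eq_norm_sq, MeasureTheory.L2.inner_def]
  refine integral_congr_ae (Eventually.of_forall fun x => ?_)
  simp only [real_inner_self_eq_norm_sq, Real.norm_eq_abs, sq_abs]

lemma II_coe (hR : IsCompact R) (h : DrumSolution R c z g) {W : ℝ → ℝ} (hW : Continuous W)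
    (hWc : HasCompactSupport W) : (II R z W : ℂ → ℝ) =ᵐ[volume] Zf R z W := zc_int hR h hW hWc

lemma Zf_sq (hR : IsCompact R) (h : DrumSolution R c z g) {W : ℝ → ℝ} (hW : Continuous W)
    (hWc : HasCompactSupport W) :
    Real.sqrt (∫ y in inside R, (Zf R z W y) ^ 2) ≤ ‖II R z W‖ := by
  have hae := II_coe hR h hW hWc
  have hint : Integrable (fun x => (II R z W x) ^ 2) := (Lp.memLp (II R z W)).integrable_sq
  have hint' : Integrable (fun x => (Zf R z W x) ^ 2) := by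
    refine hint.congr ?_
    filter_upwards [hae] with x hx
    rw [hx]
  apply Real.sqrt_le_iff.mpr
  refine ⟨norm_nonneg _, ?_⟩
  rw [L2_norm_sq]
  calc ∫ y in inside R, (Zf R z W y) ^ 2 ≤ ∫ y, (Zf R z W y) ^ 2 :=
        setIntegral_le_integral hint' (Eventually.of_forall fun x => sq_nonneg _)
    _ = ∫ x, (II R z W x) ^ 2 := by
        refine integral_congr_ae ?_
        filter_upwards [hae] with x hx
        rw [hx]

lemma smooth_d2 {V : ℝ → ℝ} (hV : ContDiff ℝ ∞ V) (hVc : HasCompactSupport V) :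
    ContDiff ℝ ∞ (iteratedDeriv 2 V) ∧ HasCompactSupport (iteratedDeriv 2 V) := by
  have e : iteratedDeriv 2 V = deriv (deriv V) := by
    rw [show (2 : ℕ) = 1 + 1 from rfl, iteratedDeriv_succ, iteratedDeriv_one]
  have h1 : ContDiff ℝ ∞ (deriv V) := (contDiff_infty_iff_deriv.mp hV).2
  have h2 : ContDiff ℝ ∞ (deriv (deriv V)) := (contDiff_infty_iff_deriv.mp h1).2
  rw [e]
  exact ⟨h2, hVc.deriv.deriv⟩

lemma Zf_sup (hR : IsCompact R) (hc : 0 < c) (h : DrumSolution R c z g) :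
    ∃ C : ℝ, 0 ≤ C ∧ ∀ V : ℝ → ℝ, ContDiff ℝ ∞ V → HasCompactSupport V →
      ∀ x, |Zf R z V x| ≤ C * ‖II R z (iteratedDeriv 2 V)‖ := by
  obtain ⟨hDo, hDb, -⟩ := inside_basic hR
  obtain ⟨C, hC0, hC⟩ := sup_est hDo hDb
  refine ⟨C * (c ^ 2)⁻¹, by positivity, fun V hV hVc x => ?_⟩
  obtain ⟨hV2, hV2c⟩ := smooth_d2 hV hVc
  obtain ⟨n1, n2, n3, n4, -, -, -⟩ := zW_nice hR hc h hV hVc
  obtain ⟨-, -, -, -, -, ⟨M2, m6⟩, -⟩ := zW_nice hR hc h hV2 hV2c
  have hcc : (0 : ℝ) ≤ (c ^ 2)⁻¹ := by positivity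
  have hla : ∀ y ∈ inside R, la (Zf R z V) y = (c ^ 2)⁻¹ * Zf R z (iteratedDeriv 2 V) y := n4
  have hb : ∃ M, ∀ y ∈ inside R, |la (Zf R z V) y| ≤ M := by
    refine ⟨(c ^ 2)⁻¹ * M2, fun y hy => ?_⟩
    rw [hla y hy, abs_mul, abs_of_nonneg hcc]
    exact mul_le_mul_of_nonneg_left (m6 y hy) hcc
  have h1 := hC (Zf R z V) n1 n2 n3 hb x
  refine h1.trans ?_
  have h2 : ∫ y in inside R, la (Zf R z V) y ^ 2
      = ((c ^ 2)⁻¹) ^ 2 * ∫ y in inside R, (Zf R z (iteratedDeriv 2 V) y) ^ 2 := by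
    rw [← integral_const_mul]
    refine setIntegral_congr_fun hDo.measurableSet fun y hy => ?_
    show la (Zf R z V) y ^ 2 = _
    rw [hla y hy]
    ring
  rw [h2, Real.sqrt_mul (by positivity), Real.sqrt_sq hcc, mul_assoc]
  refine mul_le_mul_of_nonneg_left ?_ hC0
  exact mul_le_mul_of_nonneg_left (Zf_sq hR h hV2.continuous hV2c) hcc

lemma avg_shift (hR : IsCompact R) (hc : 0 < c) (h : DrumSolution R c z g) (t₀ : ℝ) :
    (∃ M : ℝ, 0 ≤ M ∧ ∀ t, ‖zt R z t‖ ≤ M) ∧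
    ∀ μ : ℝ, 0 < μ → μ < 1 → ∃ y : L2, K (inside R) y = μ • y ∧
      (∀ ψ, K (inside R) ψ = μ • ψ → ⟪ψ, y⟫_ℝ = ⟪ψ, zt R z t₀⟫_ℝ) ∧
      ∀ θ : ℝ → ℝ, ContDiff ℝ ∞ θ → HasCompactSupport θ → ∫ t, θ t = 1 →
        Tendsto (fun T : ℝ => II R z (fun t => 2 / T * osc (c * √(1 / μ - 1)) t₀ θ 0 T t))
          atTop (𝓝 y) := by
  obtain ⟨hDo, hDb, -⟩ := inside_basic hR
  have hz : Continuous (zt R z) := (zc_cont hR h).1
  have hzs : Continuous (fun t => zt R z (t + t₀)) := hz.comp (by fun_prop)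
  have hshift : ∀ W : ℝ → ℝ, ∫ t, W t • zt R z (t + t₀) = ∫ t, W (t - t₀) • zt R z t := by
    intro W
    rw [← integral_add_right_eq_self (fun t => W (t - t₀) • zt R z t) t₀]
    simp only [add_sub_cancel_right]
  have hWs : ∀ W : ℝ → ℝ, ContDiff ℝ ∞ W → HasCompactSupport W →
      K (inside R) ((∫ t, W t • zt R z (t + t₀)) -
        (c ^ 2)⁻¹ • ∫ t, iteratedDeriv 2 W t • zt R z (t + t₀)) = ∫ t, W t • zt R z (t + t₀) := by
    intro W hW hWc
    have h1 : ContDiff ℝ ∞ (fun t => W (t - t₀)) := hW.comp (by fun_prop)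
    have h2 : HasCompactSupport (fun t => W (t - t₀)) :=
      hWc.comp_homeomorph (Homeomorph.subRight t₀)
    have h3 := wave_K hR hc h h1 h2
    rw [iteratedDeriv_comp_sub_const] at h3
    rw [hshift, hshift]
    exact h3
  obtain ⟨⟨M, hM⟩, havg⟩ := avg (K (inside R)) (K_compact hDb) (K_symm (inside R))
    (fun μ ψ hψ h => K_eig hDb hψ h) hc (fun t => zt R z (t + t₀)) hzs hWs
  refine ⟨⟨M, (norm_nonneg _).trans (hM 0), fun t => ?_⟩, fun μ h0 h1 => ?_⟩
  · have := hM (t - t₀)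
    simpa using this
  · obtain ⟨y, hy1, hy2, hy3⟩ := havg μ h0 h1
    refine ⟨y, hy1, fun ψ hψ => ?_, fun θ hθ hθc hθ1 => ?_⟩
    · have := hy2 ψ hψ
      simpa using this
    · have := hy3 θ hθ hθc hθ1
      refine this.congr fun T => ?_
      rw [hshift]
      unfold II
      congr 1
      funext t
      congr 1
      simp only [osc, add_zero]
      ring

/-- the weights and their wave defects -/
noncomputable def Wn (om t₀ : ℝ) (θ : ℝ → ℝ) (T t : ℝ) : ℝ := 2 / T * osc om t₀ θ 0 T t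

noncomputable def Vn (om t₀ : ℝ) (θ : ℝ → ℝ) (T t : ℝ) : ℝ :=
  2 / T * (1 / T) ^ 2 * osc om t₀ (deriv (deriv θ)) 0 T t
    + 4 * om / T * (1 / T) * osc om t₀ (deriv θ) (0 + Real.pi / 2) T t

lemma Wn_d2 (om t₀ : ℝ) {θ : ℝ → ℝ} (hθ : ContDiff ℝ ∞ θ) (T t : ℝ) :
    iteratedDeriv 2 (Wn om t₀ θ T) t = Vn om t₀ θ T t - om ^ 2 * Wn om t₀ θ T t := by
  have e : Wn om t₀ θ T = fun t => 2 / T * osc om t₀ θ 0 T t := rfl
  rw [e, iteratedDeriv_const_mul_field, osc_d2 om t₀ hθ]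
  unfold Vn
  ring

lemma Vn_d2 (om t₀ : ℝ) {θ : ℝ → ℝ} (hθ : ContDiff ℝ ∞ θ) (T t : ℝ) :
    iteratedDeriv 2 (Vn om t₀ θ T) t =
      2 / T * (1 / T) ^ 2 * iteratedDeriv 2 (osc om t₀ (deriv (deriv θ)) 0 T) t
    + 4 * om / T * (1 / T) * iteratedDeriv 2 (osc om t₀ (deriv θ) (0 + Real.pi / 2) T) t := by
  have hθ1 : ContDiff ℝ ∞ (deriv θ) := (contDiff_infty_iff_deriv.mp hθ).2
  have hθ2 : ContDiff ℝ ∞ (deriv (deriv θ)) := (contDiff_infty_iff_deriv.mp hθ1).2
  have e : Vn om t₀ θ T = fun t => 2 / T * (1 / T) ^ 2 * osc om t₀ (deriv (deriv θ)) 0 T t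
    + 4 * om / T * (1 / T) * osc om t₀ (deriv θ) (0 + Real.pi / 2) T t := rfl
  have c1 : ContDiffAt ℝ 2 (fun t => 2 / T * (1 / T) ^ 2 * osc om t₀ (deriv (deriv θ)) 0 T t) t :=
    (contDiff_infty.mp (contDiff_const.mul (osc_smooth om t₀ hθ2 0 T)) 2).contDiffAt
  have c2 : ContDiffAt ℝ 2
      (fun t => 4 * om / T * (1 / T) * osc om t₀ (deriv θ) (0 + Real.pi / 2) T t) t :=
    (contDiff_infty.mp (contDiff_const.mul (osc_smooth om t₀ hθ1 _ T)) 2).contDiffAt
  rw [e, iteratedDeriv_fun_add c1 c2, iteratedDeriv_const_mul_field, iteratedDeriv_const_mul_field]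

lemma Wn_nice (om t₀ : ℝ) {θ : ℝ → ℝ} (hθ : ContDiff ℝ ∞ θ) (hθc : HasCompactSupport θ) {T : ℝ}
    (hT : 0 < T) : ContDiff ℝ ∞ (Wn om t₀ θ T) ∧ HasCompactSupport (Wn om t₀ θ T) :=
  ⟨contDiff_const.mul (osc_smooth om t₀ hθ 0 T), (osc_supp om t₀ hθc 0 hT).mul_left⟩

lemma Vn_nice (om t₀ : ℝ) {θ : ℝ → ℝ} (hθ : ContDiff ℝ ∞ θ) (hθc : HasCompactSupport θ) {T : ℝ}
    (hT : 0 < T) : ContDiff ℝ ∞ (Vn om t₀ θ T) ∧ HasCompactSupport (Vn om t₀ θ T) := by
  have hθ1 : ContDiff ℝ ∞ (deriv θ) := (contDiff_infty_iff_deriv.mp hθ).2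
  have hθ2 : ContDiff ℝ ∞ (deriv (deriv θ)) := (contDiff_infty_iff_deriv.mp hθ1).2
  refine ⟨(contDiff_const.mul (osc_smooth om t₀ hθ2 0 T)).add
    (contDiff_const.mul (osc_smooth om t₀ hθ1 _ T)), ?_⟩
  have s1 : HasCompactSupport (fun t => 2 / T * (1 / T) ^ 2 * osc om t₀ (deriv (deriv θ)) 0 T t) :=
    (osc_supp om t₀ hθc.deriv.deriv 0 hT).mul_left
  have s2 : HasCompactSupport
      (fun t => 4 * om / T * (1 / T) * osc om t₀ (deriv θ) (0 + Real.pi / 2) T t) :=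
    (osc_supp om t₀ hθc.deriv _ hT).mul_left
  exact s1.add s2

lemma Vn_int {om : ℝ} (hom : 0 ≤ om) (t₀ : ℝ) {θ : ℝ → ℝ} (hθ : ContDiff ℝ ∞ θ)
    (hθc : HasCompactSupport θ) : ∃ B : ℝ, 0 ≤ B ∧ ∀ T : ℝ, 1 ≤ T →
      (∫ t, |Vn om t₀ θ T t|) ≤ B / T ∧ (∫ t, |iteratedDeriv 2 (Vn om t₀ θ T) t|) ≤ B / T := by
  have hθ1 : ContDiff ℝ ∞ (deriv θ) := (contDiff_infty_iff_deriv.mp hθ).2
  have hθ2 : ContDiff ℝ ∞ (deriv (deriv θ)) := (contDiff_infty_iff_deriv.mp hθ1).2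
  have n2 : 0 ≤ ∫ t, |deriv (deriv θ) t| := integral_nonneg fun t => abs_nonneg _
  have n1 : 0 ≤ ∫ t, |deriv θ t| := integral_nonneg fun t => abs_nonneg _
  have m2 := oc_nonneg hom (deriv (deriv θ))
  have m1 := oc_nonneg hom (deriv θ)
  -- general bound
  have gen : ∀ (f1 f2 : ℝ → ℝ) (b1 b2 T : ℝ), 1 ≤ T → Integrable f1 → Integrable f2 → 0 ≤ b1 →
      (∫ t, |f1 t|) ≤ T * b1 → (∫ t, |f2 t|) ≤ T * b2 →
      (∫ t, |2 / T * (1 / T) ^ 2 * f1 t + 4 * om / T * (1 / T) * f2 t|) ≤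
        (2 * b1 + 4 * om * b2) / T := by
    intro f1 f2 b1 b2 T hT i1 i2 hb1 h1 h2
    have hT0 : 0 < T := by linarith
    have k1 := i1.abs.const_mul (2 / T * (1 / T) ^ 2)
    have k2 := i2.abs.const_mul (4 * om / T * (1 / T))
    calc (∫ t, |2 / T * (1 / T) ^ 2 * f1 t + 4 * om / T * (1 / T) * f2 t|)
        ≤ ∫ t, (2 / T * (1 / T) ^ 2 * |f1 t| + 4 * om / T * (1 / T) * |f2 t|) := by
          refine integral_mono_of_nonneg (Eventually.of_forall fun t => abs_nonneg _)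
            (k1.add k2) (Eventually.of_forall fun t => ?_)
          simp only
          refine (abs_add_le _ _).trans (add_le_add ?_ ?_)
          · rw [abs_mul, abs_of_nonneg (by positivity : (0:ℝ) ≤ 2 / T * (1 / T) ^ 2)]
          · rw [abs_mul, abs_of_nonneg (by positivity : (0:ℝ) ≤ 4 * om / T * (1 / T))]
      _ = 2 / T * (1 / T) ^ 2 * (∫ t, |f1 t|) + 4 * om / T * (1 / T) * ∫ t, |f2 t| := by
          rw [integral_add k1 k2, integral_const_mul, integral_const_mul]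
      _ ≤ 2 / T * (1 / T) ^ 2 * (T * b1) + 4 * om / T * (1 / T) * (T * b2) := by gcongr
      _ = (2 * b1 * (1 / T) + 4 * om * b2) / T := by field_simp
      _ ≤ (2 * b1 * 1 + 4 * om * b2) / T := by
          have : 1 / T ≤ 1 := by rw [div_le_one hT0]; exact hT
          gcongr
      _ = _ := by ring
  refine ⟨(2 * (∫ t, |deriv (deriv θ) t|) + 4 * om * ∫ t, |deriv θ t|) +
    (2 * oc om (deriv (deriv θ)) + 4 * om * oc om (deriv θ)), by positivity, fun T hT => ?_⟩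
  have hT0 : 0 < T := by linarith
  constructor
  · have := gen (osc om t₀ (deriv (deriv θ)) 0 T) (osc om t₀ (deriv θ) (0 + Real.pi / 2) T)
      _ _ T hT ((osc_smooth om t₀ hθ2 _ T).continuous.integrable_of_hasCompactSupport
        (osc_supp om t₀ hθc.deriv.deriv _ hT0))
      ((osc_smooth om t₀ hθ1 _ T).continuous.integrable_of_hasCompactSupport
        (osc_supp om t₀ hθc.deriv _ hT0)) n2
      (osc_int om t₀ hθ2.continuous hθc.deriv.deriv _ hT0)
      (osc_int om t₀ hθ1.continuous hθc.deriv _ hT0)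
    refine this.trans (div_le_div_of_nonneg_right ?_ hT0.le)
    have : 0 ≤ 2 * oc om (deriv (deriv θ)) + 4 * om * oc om (deriv θ) := by positivity
    linarith
  · have hs2 := smooth_d2 (osc_smooth om t₀ hθ2 0 T) (osc_supp om t₀ hθc.deriv.deriv 0 hT0)
    have hs1 := smooth_d2 (osc_smooth om t₀ hθ1 (0 + Real.pi / 2) T)
      (osc_supp om t₀ hθc.deriv (0 + Real.pi / 2) hT0)
    have := gen (iteratedDeriv 2 (osc om t₀ (deriv (deriv θ)) 0 T))
      (iteratedDeriv 2 (osc om t₀ (deriv θ) (0 + Real.pi / 2) T))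
      _ _ T hT (hs2.1.continuous.integrable_of_hasCompactSupport hs2.2)
      (hs1.1.continuous.integrable_of_hasCompactSupport hs1.2) m2
      (osc_int2 hom t₀ hθ2 hθc.deriv.deriv _ hT)
      (osc_int2 hom t₀ hθ1 hθc.deriv _ hT)
    have e : (fun t => |iteratedDeriv 2 (Vn om t₀ θ T) t|) = fun t =>
        |2 / T * (1 / T) ^ 2 * iteratedDeriv 2 (osc om t₀ (deriv (deriv θ)) 0 T) t
          + 4 * om / T * (1 / T) * iteratedDeriv 2 (osc om t₀ (deriv θ) (0 + Real.pi / 2) T) t| := by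
      funext t
      rw [Vn_d2 om t₀ hθ]
    rw [e]
    refine this.trans (div_le_div_of_nonneg_right ?_ hT0.le)
    have : 0 ≤ 2 * (∫ t, |deriv (deriv θ) t|) + 4 * om * ∫ t, |deriv θ t| := by positivity
    linarith

lemma Zf_lin (hR : IsCompact R) (h : DrumSolution R c z g) {V W : ℝ → ℝ} (hV : Continuous V)
    (hVc : HasCompactSupport V) (hW : Continuous W) (hWc : HasCompactSupport W) (a b : ℝ) (x : ℂ) :
    Zf R z (fun t => a * V t + b * W t) x = a * Zf R z V x + b * Zf R z W x := by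
  have hzx : Continuous (fun t : ℝ => zx R z x t) :=
    (zx_cont hR h).comp (by fun_prop : Continuous (fun t : ℝ => ((x, t) : ℂ × ℝ)))
  have i1 : Integrable (fun t => V t * zx R z x t) :=
    (hV.mul hzx).integrable_of_hasCompactSupport hVc.mul_right
  have i2 : Integrable (fun t => W t * zx R z x t) :=
    (hW.mul hzx).integrable_of_hasCompactSupport hWc.mul_right
  unfold Zf
  have e : (fun t => (a * V t + b * W t) * zx R z x t) = fun t => a * (V t * zx R z x t)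
      + b * (W t * zx R z x t) := by
    funext t
    ring
  rw [e, integral_add (i1.const_mul a) (i2.const_mul b), integral_const_mul, integral_const_mul]

lemma Wn_d2' (om t₀ : ℝ) {θ : ℝ → ℝ} (hθ : ContDiff ℝ ∞ θ) (T : ℝ) :
    iteratedDeriv 2 (Wn om t₀ θ T) =
      fun t => 1 * Vn om t₀ θ T t + (-om ^ 2) * Wn om t₀ θ T t := by
  funext t
  rw [Wn_d2 om t₀ hθ]
  ring

lemma Wn_diff {C : ℝ} (hC0 : 0 ≤ C) (hC : ∀ V : ℝ → ℝ, ContDiff ℝ ∞ V → HasCompactSupport V →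
      ∀ x, |Zf R z V x| ≤ C * ‖II R z (iteratedDeriv 2 V)‖)
    (hR : IsCompact R) (h : DrumSolution R c z g)
    (om t₀ : ℝ) {θ : ℝ → ℝ} (hθ : ContDiff ℝ ∞ θ) (hθc : HasCompactSupport θ) {T S : ℝ}
    (hT : 0 < T) (hS : 0 < S) (x : ℂ) :
    |Zf R z (Wn om t₀ θ T) x - Zf R z (Wn om t₀ θ S) x| ≤
      C * (‖II R z (Vn om t₀ θ T)‖ + ‖II R z (Vn om t₀ θ S)‖ +
        om ^ 2 * ‖II R z (Wn om t₀ θ T) - II R z (Wn om t₀ θ S)‖) := by
  obtain ⟨w1, w2⟩ := Wn_nice om t₀ hθ hθc hT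
  obtain ⟨w3, w4⟩ := Wn_nice om t₀ hθ hθc hS
  obtain ⟨v1, v2⟩ := Vn_nice om t₀ hθ hθc hT
  obtain ⟨v3, v4⟩ := Vn_nice om t₀ hθ hθc hS
  have hd1 : ContDiff ℝ ∞ (fun t => 1 * Wn om t₀ θ T t + (-1) * Wn om t₀ θ S t) :=
    (contDiff_const.mul w1).add (contDiff_const.mul w3)
  have hd2 : HasCompactSupport (fun t => 1 * Wn om t₀ θ T t + (-1) * Wn om t₀ θ S t) :=
    HasCompactSupport.add (HasCompactSupport.mul_left (f := fun _ => (1:ℝ)) w2)
      (HasCompactSupport.mul_left (f := fun _ => (-1:ℝ)) w4)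
  have h1 := hC _ hd1 hd2 x
  rw [Zf_lin hR h w1.continuous w2 w3.continuous w4 1 (-1) x] at h1
  have e : iteratedDeriv 2 (fun t => 1 * Wn om t₀ θ T t + (-1) * Wn om t₀ θ S t) =
      fun t => 1 * (1 * Vn om t₀ θ T t + (-1) * Vn om t₀ θ S t) +
        (-om ^ 2) * (1 * Wn om t₀ θ T t + (-1) * Wn om t₀ θ S t) := by
    funext t
    have c1 : ContDiffAt ℝ 2 (fun t => 1 * Wn om t₀ θ T t) t :=
      (contDiff_infty.mp (contDiff_const.mul w1) 2).contDiffAt
    have c2 : ContDiffAt ℝ 2 (fun t => (-1) * Wn om t₀ θ S t) t :=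
      (contDiff_infty.mp (contDiff_const.mul w3) 2).contDiffAt
    rw [iteratedDeriv_fun_add c1 c2, iteratedDeriv_const_mul_field, iteratedDeriv_const_mul_field,
      Wn_d2 om t₀ hθ, Wn_d2 om t₀ hθ]
    ring
  have hv1 : ContDiff ℝ ∞ (fun t => 1 * Vn om t₀ θ T t + (-1) * Vn om t₀ θ S t) :=
    (contDiff_const.mul v1).add (contDiff_const.mul v3)
  have hv2 : HasCompactSupport (fun t => 1 * Vn om t₀ θ T t + (-1) * Vn om t₀ θ S t) :=
    HasCompactSupport.add (HasCompactSupport.mul_left (f := fun _ => (1:ℝ)) v2)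
      (HasCompactSupport.mul_left (f := fun _ => (-1:ℝ)) v4)
  rw [e, II_lin hR h hv1.continuous hv2 hd1.continuous hd2, II_lin hR h v1.continuous v2
    v3.continuous v4, II_lin hR h w1.continuous w2 w3.continuous w4] at h1
  have e2 : (1:ℝ) * Zf R z (Wn om t₀ θ T) x + -1 * Zf R z (Wn om t₀ θ S) x =
    Zf R z (Wn om t₀ θ T) x - Zf R z (Wn om t₀ θ S) x := by ring
  rw [e2] at h1
  refine h1.trans (mul_le_mul_of_nonneg_left ?_ hC0)
  simp only [one_smul, neg_smul]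
  refine (norm_add_le _ _).trans (add_le_add ?_ ?_)
  · rw [← sub_eq_add_neg]
    exact norm_sub_le _ _
  · rw [norm_neg, norm_smul, ← sub_eq_add_neg, Real.norm_eq_abs,
      abs_of_nonneg (by positivity : (0:ℝ) ≤ om ^ 2)]

lemma exists_theta : ∃ θ : ℝ → ℝ, ContDiff ℝ ∞ θ ∧ HasCompactSupport θ ∧ ∫ t, θ t = 1 := by
  let f : ContDiffBump (0 : ℝ) := ⟨1, 2, by norm_num, by norm_num⟩
  exact ⟨f.normed volume, f.contDiff_normed, f.hasCompactSupport_normed, f.integral_normed⟩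

end sup

/-
Plain proof. Put D = inside R, lam = 1/μ - 1 > 0, om = c √lam, so om² = c² lam. Replace time t by t + t₀: the
function t ↦ cl (zx · (t + t₀)) satisfies the hypotheses of `avg` by `wave_K` (shift the weights) and `zc_cont`;
so ‖cl(zx · t)‖ ≤ M for all t, and with y from `avg`, ⟨ψ, y⟩ = ⟨ψ, cl (zx · t₀)⟩ ≠ 0.
Fix θ smooth with compact support and integral 1, T_n = n + 1,
W_n(t) = 2/T_n θ((t-t₀)/T_n) cos(om (t-t₀)), Z_n = ∫ W_n zx dt (a function on the plane). The class of Z_n tends to y in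
L² (`zc_int`). Put V_n = W_n'' + om² W_n; computing, V_n(t) = 2/T_n³ θ''(s) cos - 4 om/T_n² θ'(s) sin with
s = (t-t₀)/T_n, and ∫|V_n|, ∫|V_n''| ≤ C/T_n → 0 (each derivative of V_n is a sum of terms T_n^{-k} times smooth
functions of s with compact support times cos or sin, k ≥ 2, and dt = T_n ds).
For a test weight V let Z_V = ∫ V zx dt. ‖class of Z_V‖ ≤ M ∫|V|. `sup_est` and `zW_nice`
(la Z_V = c⁻² Z_{V''}) give sup |Z_V| ≤ C c⁻² ‖Z_{V''}‖ ≤ C c⁻² M ∫|V''|. So sup|Z_{V_n}| → 0. Also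
la Z_n = c⁻² Z_{W_n''} = -lam Z_n + c⁻² Z_{V_n} in D, hence by `sup_est` for Z_n - Z_m
sup|Z_n - Z_m| ≤ C ‖la (Z_n - Z_m)‖_{L²(D)} ≤ C (lam ‖Z_n - Z_m‖ + c⁻² ‖Z_{V_n}‖ + c⁻² ‖Z_{V_m}‖) → 0. So Z_n
is uniformly Cauchy; let u be the uniform limit: continuous, 0 off D, and its class is y since D is bounded.
-/

/-- TARGET: a frequency component as a uniform limit of superpositions in time. -/
theorem mode_limit {R : Set ℂ} {c : ℝ} {z : ℂ → ℝ → ℝ} {g : ℂ → ℝ → ℂ} (hR : IsCompact R)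
    (hc : 0 < c) (h : DrumSolution R c z g) {μ : ℝ} (h0 : 0 < μ) (h1 : μ < 1) {ψ : L2}
    (hψ : K (inside R) ψ = μ • ψ) {t₀ : ℝ} (hne : ⟪ψ, cl (fun x => zx R z x t₀)⟫_ℝ ≠ 0) :
    ∃ u : ℂ → ℝ, Continuous u ∧ (∀ x, x ∉ inside R → u x = 0) ∧
      (cl u : ℂ → ℝ) =ᵐ[volume] u ∧ K (inside R) (cl u) = μ • cl u ∧ ⟪ψ, cl u⟫_ℝ ≠ 0 ∧
      ∃ W : ℕ → ℝ → ℝ, (∀ n, ContDiff ℝ ∞ (W n) ∧ HasCompactSupport (W n)) ∧
        TendstoUniformly (fun n x => ∫ t, W n t * zx R z x t) u atTop ∧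
        TendstoUniformly (fun n x => (c ^ 2)⁻¹ * ∫ t, iteratedDeriv 2 (W n) t * zx R z x t)
          (fun x => -((1 / μ - 1) * u x)) atTop := by
  have hlam : 0 < 1 / μ - 1 := by
    rw [sub_pos, lt_div_iff₀ h0]
    linarith
  obtain ⟨⟨M, hM0, hM⟩, hav⟩ := avg_shift hR hc h t₀
  obtain ⟨y, hy1, hy2, hy3⟩ := hav μ h0 h1
  obtain ⟨θ, hθ, hθc, hθ1⟩ := exists_theta
  obtain ⟨om, hom⟩ : ∃ om, om = c * √(1 / μ - 1) := ⟨_, rfl⟩
  have hom0 : 0 ≤ om := by rw [hom]; positivity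
  have hom2 : om ^ 2 = c ^ 2 * (1 / μ - 1) := by
    rw [hom, mul_pow, Real.sq_sqrt hlam.le]
  obtain ⟨B, hB0, hB⟩ := Vn_int hom0 t₀ hθ hθc
  obtain ⟨C, hC0, hC⟩ := Zf_sup hR hc h
  obtain ⟨hDo, hDb, -⟩ := inside_basic hR
  -- the sequences
  have hpos : ∀ n : ℕ, (0 : ℝ) < (n : ℝ) + 1 := fun n => by positivity
  have hge : ∀ n : ℕ, (1 : ℝ) ≤ (n : ℝ) + 1 := fun n => by
    have : (0 : ℝ) ≤ n := Nat.cast_nonneg n
    linarith
  have hWnice := fun n : ℕ => Wn_nice om t₀ hθ hθc (hpos n)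
  have hVnice := fun n : ℕ => Vn_nice om t₀ hθ hθc (hpos n)
  have hT : Tendsto (fun n : ℕ => (n : ℝ) + 1) atTop atTop :=
    tendsto_atTop_add_const_right _ _ tendsto_natCast_atTop_atTop
  have hlim : Tendsto (fun n : ℕ => II R z (Wn om t₀ θ ((n : ℝ) + 1))) atTop (𝓝 y) := by
    have := (hy3 θ hθ hθc hθ1).comp hT
    rw [← hom] at this
    exact this
  have hsmall : Tendsto (fun n : ℕ => M * (B / ((n : ℝ) + 1))) atTop (𝓝 0) := by
    have := (tendsto_const_nhds (x := B)).div_atTop hT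
    simpa using this.const_mul M
  have hVI : ∀ n : ℕ, ‖II R z (Vn om t₀ θ ((n : ℝ) + 1))‖ ≤ M * (B / ((n : ℝ) + 1)) := fun n =>
    (II_norm hM (hVnice n).1.continuous (hVnice n).2).trans
      (mul_le_mul_of_nonneg_left (hB _ (hge n)).1 hM0)
  have hVz : ∀ (n : ℕ) x, |Zf R z (Vn om t₀ θ ((n : ℝ) + 1)) x| ≤
      C * (M * (B / ((n : ℝ) + 1))) := fun n x => by
    refine (hC _ (hVnice n).1 (hVnice n).2 x).trans (mul_le_mul_of_nonneg_left ?_ hC0)
    obtain ⟨s1, s2⟩ := smooth_d2 (hVnice n).1 (hVnice n).2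
    exact (II_norm hM s1.continuous s2).trans (mul_le_mul_of_nonneg_left (hB _ (hge n)).2 hM0)
  have hdiff : ∀ (n m : ℕ) x, |Zf R z (Wn om t₀ θ ((n : ℝ) + 1)) x -
      Zf R z (Wn om t₀ θ ((m : ℝ) + 1)) x| ≤ C * (M * (B / ((n : ℝ) + 1)) +
        M * (B / ((m : ℝ) + 1)) + om ^ 2 * ‖II R z (Wn om t₀ θ ((n : ℝ) + 1)) -
          II R z (Wn om t₀ θ ((m : ℝ) + 1))‖) := fun n m x => by
    refine (Wn_diff hC0 hC hR h om t₀ hθ hθc (hpos n) (hpos m) x).trans
      (mul_le_mul_of_nonneg_left ?_ hC0)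
    have := hVI n
    have := hVI m
    linarith
  -- uniformly Cauchy
  have hcau : UniformCauchySeqOn (fun (n : ℕ) x => Zf R z (Wn om t₀ θ ((n : ℝ) + 1)) x) atTop
      univ := by
    rw [Metric.uniformCauchySeqOn_iff]
    intro ε hε
    have hε' : 0 < ε / (C * (2 + om ^ 2) + 1) := by positivity
    have hc1 := Metric.cauchySeq_iff.mp hlim.cauchySeq _ hε'
    obtain ⟨N1, hN1⟩ := hc1
    have hc2 := (Metric.tendsto_atTop.mp hsmall) _ hε'
    obtain ⟨N2, hN2⟩ := hc2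
    refine ⟨max N1 N2, fun m hm n hn x _ => ?_⟩
    have a1 := hN1 m (le_of_max_le_left hm) n (le_of_max_le_left hn)
    have a2 := hN2 m (le_of_max_le_right hm)
    have a3 := hN2 n (le_of_max_le_right hn)
    rw [dist_eq_norm] at a1
    rw [Real.dist_eq, sub_zero] at a2 a3
    have a2' := (le_abs_self _).trans a2.le
    have a3' := (le_abs_self _).trans a3.le
    rw [Real.dist_eq]
    refine (hdiff m n x).trans_lt ?_
    set η := ε / (C * (2 + om ^ 2) + 1) with hη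
    calc C * (M * (B / ((m : ℝ) + 1)) + M * (B / ((n : ℝ) + 1)) +
          om ^ 2 * ‖II R z (Wn om t₀ θ ((m : ℝ) + 1)) - II R z (Wn om t₀ θ ((n : ℝ) + 1))‖)
        ≤ C * (η + η + om ^ 2 * η) := by
          gcongr
      _ = (C * (2 + om ^ 2)) * η := by ring
      _ < (C * (2 + om ^ 2) + 1) * η := by
          apply mul_lt_mul_of_pos_right _ hε'
          linarith
      _ = ε := by
          rw [hη]
          field_simp
  have hpt : ∀ x, ∃ a, Tendsto (fun n : ℕ => Zf R z (Wn om t₀ θ ((n : ℝ) + 1)) x) atTop (𝓝 a) :=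
    fun x => cauchySeq_tendsto_of_complete (hcau.cauchySeq (mem_univ x))
  choose u hu using hpt
  have hunif : TendstoUniformly (fun (n : ℕ) x => Zf R z (Wn om t₀ θ ((n : ℝ) + 1)) x) u atTop := by
    rw [← tendstoUniformlyOn_univ]
    exact hcau.tendstoUniformlyOn_of_tendsto fun x _ => hu x
  have hWz := fun n : ℕ => zW_nice hR hc h (hWnice n).1 (hWnice n).2
  have hucont : Continuous u := hunif.continuous (Frequently.of_forall fun n => (hWz n).1)
  have hu0 : ∀ x, x ∉ inside R → u x = 0 := fun x hx => by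
    refine tendsto_nhds_unique (hu x) ?_
    have : (fun n : ℕ => Zf R z (Wn om t₀ θ ((n : ℝ) + 1)) x) = fun _ => 0 := by
      funext n
      exact (hWz n).2.1 x hx
    rw [this]
    exact tendsto_const_nhds
  have hucs : HasCompactSupport u := by
    refine HasCompactSupport.intro (K := closure (inside R)) hDb.isCompact_closure fun x hx => ?_
    exact hu0 x fun h' => hx (subset_closure h')
  have huL : MemLp u 2 (volume : Measure ℂ) := hucont.memLp_of_hasCompactSupport hucs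
  have hclu : (cl u : ℂ → ℝ) =ᵐ[volume] u := by
    unfold cl
    rw [dif_pos huL]
    exact huL.coeFn_toLp
  -- the class of u is y
  have hyu : y = cl u := by
    have h2 := tendstoInMeasure_of_tendsto_Lp hlim
    obtain ⟨ns, hns, hae⟩ := h2.exists_seq_tendsto_ae
    have hall : ∀ᵐ x, ∀ n : ℕ, (II R z (Wn om t₀ θ ((n : ℝ) + 1)) : ℂ → ℝ) x =
        Zf R z (Wn om t₀ θ ((n : ℝ) + 1)) x := by
      rw [ae_all_iff]
      intro n
      exact II_coe hR h (hWnice n).1.continuous (hWnice n).2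
    apply Lp.ext
    filter_upwards [hae, hall, hclu] with x hx1 hx2 hx3
    rw [hx3]
    refine tendsto_nhds_unique hx1 ?_
    have := (hu x).comp hns.tendsto_atTop
    refine this.congr fun i => ?_
    exact (hx2 (ns i)).symm
  refine ⟨u, hucont, hu0, hclu, ?_, ?_, fun n => Wn om t₀ θ ((n : ℝ) + 1), hWnice, hunif, ?_⟩
  · rw [← hyu]
    exact hy1
  · rw [← hyu, hy2 ψ hψ]
    exact hne
  · -- the second limit
    have hcc : (0 : ℝ) < c ^ 2 := by positivity
    have hexp : ∀ (n : ℕ) x, (c ^ 2)⁻¹ * ∫ t, iteratedDeriv 2 (Wn om t₀ θ ((n : ℝ) + 1)) t *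
        zx R z x t = (c ^ 2)⁻¹ * Zf R z (Vn om t₀ θ ((n : ℝ) + 1)) x -
          (1 / μ - 1) * Zf R z (Wn om t₀ θ ((n : ℝ) + 1)) x := by
      intro n x
      have : ∫ t, iteratedDeriv 2 (Wn om t₀ θ ((n : ℝ) + 1)) t * zx R z x t =
          Zf R z (iteratedDeriv 2 (Wn om t₀ θ ((n : ℝ) + 1))) x := rfl
      rw [this, Wn_d2' om t₀ hθ, Zf_lin hR h (hVnice n).1.continuous (hVnice n).2
        (hWnice n).1.continuous (hWnice n).2, hom2]
      field_simp
      ring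
    rw [Metric.tendstoUniformly_iff]
    intro ε hε
    have e1 : 0 < ε / 2 / (1 / μ - 1) := by positivity
    have e2 : 0 < ε / 2 / ((c ^ 2)⁻¹ * C + 1) := by positivity
    filter_upwards [Metric.tendstoUniformly_iff.mp hunif _ e1,
      (Metric.tendsto_nhds.mp hsmall) _ e2] with n hn1 hn2 x
    rw [hexp, Real.dist_eq]
    have b1 := hn1 x
    rw [Real.dist_eq] at b1
    have b2 := hVz n x
    rw [Real.dist_eq, sub_zero] at hn2
    have b3 := (le_abs_self _).trans hn2.le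
    have e3 : -((1 / μ - 1) * u x) - ((c ^ 2)⁻¹ * Zf R z (Vn om t₀ θ ((n : ℝ) + 1)) x -
          (1 / μ - 1) * Zf R z (Wn om t₀ θ ((n : ℝ) + 1)) x) =
        -((1 / μ - 1) * (u x - Zf R z (Wn om t₀ θ ((n : ℝ) + 1)) x)) -
          (c ^ 2)⁻¹ * Zf R z (Vn om t₀ θ ((n : ℝ) + 1)) x := by ring
    rw [e3]
    refine (abs_sub _ _).trans_lt ?_
    rw [abs_neg, abs_mul, abs_mul, abs_of_pos hlam, abs_of_pos (inv_pos.mpr hcc)]
    have f1 : (1 / μ - 1) * |u x - Zf R z (Wn om t₀ θ ((n : ℝ) + 1)) x| < ε / 2 := by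
      rw [lt_div_iff₀ hlam] at b1
      linarith
    have f2 : (c ^ 2)⁻¹ * |Zf R z (Vn om t₀ θ ((n : ℝ) + 1)) x| ≤ ε / 2 := by
      calc (c ^ 2)⁻¹ * |Zf R z (Vn om t₀ θ ((n : ℝ) + 1)) x|
          ≤ (c ^ 2)⁻¹ * (C * (ε / 2 / ((c ^ 2)⁻¹ * C + 1))) := by
            refine mul_le_mul_of_nonneg_left (b2.trans ?_) (inv_pos.mpr hcc).le
            exact mul_le_mul_of_nonneg_left b3 hC0
        _ = ((c ^ 2)⁻¹ * C) * (ε / 2 / ((c ^ 2)⁻¹ * C + 1)) := by ring
        _ ≤ ((c ^ 2)⁻¹ * C + 1) * (ε / 2 / ((c ^ 2)⁻¹ * C + 1)) := by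
            apply mul_le_mul_of_nonneg_right _ e2.le
            linarith
        _ = ε / 2 := by
            field_simp
    linarith

end Pool.Agent.Helper327_Drum
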