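import Pool.Agent.R227.SA13
import Pool.Agent.H18R3.WeylQ
import Pool.Agent.Helper546.Boundary

set_option autoImplicit false
open MeasureTheory Set Filter
open scoped Topology ContDiff

namespace Pool.Agent.Helper327_Drum

open Pool.Agent.TH298.Sch (X er dd SC)
open Pool.Agent.R227.SA

/-
`SC φ`: φ is smooth with compact support; `la` is the Laplacian on ℂ (`la f = dd 1 (dd 1 f) +
dd I (dd I f)`, `dd h f x = fderiv ℝ f x h`).
-/

namespace J507
open Pool.Agent.Helper546 (V cV lap Tst ee)

lemma cV_one' : cV 1 = ee 0 := by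
  ext i; fin_cases i
  · exact (Pool.Agent.Helper546.cV_zero 1).trans (by simp [ee])
  · exact (Pool.Agent.Helper546.cV_one 1).trans (by simp [ee])

lemma cV_I' : cV Complex.I = ee 1 := by
  ext i; fin_cases i
  · exact (Pool.Agent.Helper546.cV_zero Complex.I).trans (by simp [ee])
  · exact (Pool.Agent.Helper546.cV_one Complex.I).trans (by simp [ee])

lemma fderiv_cV (f : V → ℝ) (z h : ℂ) :
    fderiv ℝ (fun z => f (cV z)) z h = fderiv ℝ f (cV z) (cV h) := by
  have := cV.toContinuousLinearEquiv.comp_right_fderiv (f := f) (x := z)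
  have h2 : (fun z => f (cV z)) = f ∘ cV.toContinuousLinearEquiv := rfl
  rw [h2, this]
  rfl

lemma dd_one_cV (f : V → ℝ) : dd 1 (fun z => f (cV z)) = fun z => Pool.Agent.Helper546.dd 0 f (cV z) := by
  funext z
  unfold dd Pool.Agent.Helper546.dd
  rw [fderiv_cV, cV_one']

lemma dd_I_cV (f : V → ℝ) :
    dd Complex.I (fun z => f (cV z)) = fun z => Pool.Agent.Helper546.dd 1 f (cV z) := by
  funext z
  unfold dd Pool.Agent.Helper546.dd
  rw [fderiv_cV, cV_I']

lemma la_cV (f : V → ℝ) (z : ℂ) : la (fun z => f (cV z)) z = lap f (cV z) := by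
  unfold la lap
  rw [dd_one_cV, dd_one_cV, dd_I_cV, dd_I_cV]

lemma la_congr {f g : ℂ → ℝ} {x : ℂ} (h : f =ᶠ[𝓝 x] g) : la f x = la g x := by
  have key : ∀ (v : ℂ) {f g : ℂ → ℝ} {x : ℂ}, f =ᶠ[𝓝 x] g → dd v f =ᶠ[𝓝 x] dd v g := by
    intro v f g x h
    filter_upwards [h.fderiv (𝕜 := ℝ)] with y hy
    unfold dd
    rw [hy]
  unfold la
  rw [(key 1 (key 1 h)).self_of_nhds, (key Complex.I (key Complex.I h)).self_of_nhds]

end J507

open Pool.Agent.Helper546 (V cV lap Tst ee) in
/-- TARGET: continuous weak solutions of the Helmholtz equation are locally smooth solutions. -/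
theorem reg {D : Set ℂ} (hD : IsOpen D) {lam : ℝ} (hlam : 0 < lam) {u : ℂ → ℝ} (hu : Continuous u)
    (hw : ∀ φ : ℂ → ℝ, SC φ → tsupport φ ⊆ D → ∫ x, u x * (la φ x + lam * φ x) = 0) :
    ∀ x₀ ∈ D, ∃ r > 0, ∃ U : ℂ → ℝ, SC U ∧ Metric.ball x₀ r ⊆ D ∧
      ∀ x ∈ Metric.ball x₀ r, u x = U x ∧ la U x = -(lam * U x) := by
  intro x₀ hx₀
  obtain ⟨s, hs, hsub⟩ := Metric.nhds_basis_closedBall.mem_iff.1 (hD.mem_nhds hx₀)
  set p₀ : V := cV x₀ with hp₀
  set uV : V → ℝ := fun y => u (cV.symm y) with huV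
  have huVc : Continuous uV := hu.comp cV.symm.continuous
  set u' : V → ℝ := (Metric.ball p₀ s).indicator uV with hu'
  have hmem : MemLp u' 2 := by
    rw [hu', memLp_indicator_iff_restrict measurableSet_ball]
    obtain ⟨C, hC⟩ := (isCompact_closedBall p₀ s).exists_bound_of_continuousOn huVc.continuousOn
    have : IsFiniteMeasure ((volume : Measure V).restrict (Metric.ball p₀ s)) :=
      ⟨by rw [Measure.restrict_apply_univ]; exact measure_ball_lt_top⟩
    refine MemLp.of_bound huVc.aestronglyMeasurable C ?_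
    filter_upwards [ae_restrict_mem measurableSet_ball] with x hx
    exact hC x (Metric.ball_subset_closedBall hx)
  have hweak : ∀ ψ, Tst (Metric.ball p₀ s) ψ → ∫ x, u' x * (lap ψ x + lam * ψ x) = 0 := by
    intro ψ hψ
    have h1 : ∀ x, u' x * (lap ψ x + lam * ψ x) = uV x * (lap ψ x + lam * ψ x) := by
      intro x
      by_cases hx : x ∈ Metric.ball p₀ s
      · rw [hu', indicator_of_mem hx]
      · have hx' : x ∉ tsupport ψ := fun h => hx (hψ.2.2 h)
        rw [Pool.Agent.H18R3.lap_eq_zero_of_notMem hx', image_eq_zero_of_notMem_tsupport hx',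
          mul_zero, add_zero, mul_zero, mul_zero]
    simp only [h1]
    have h2 : ∫ x, uV x * (lap ψ x + lam * ψ x) =
        ∫ z : ℂ, u z * (la (fun z => ψ (cV z)) z + lam * ψ (cV z)) := by
      rw [← (LinearIsometryEquiv.measurePreserving cV).integral_comp
        cV.toHomeomorph.measurableEmbedding (fun x => uV x * (lap ψ x + lam * ψ x))]
      congr 1
      funext z
      rw [J507.la_cV]
      simp [huV]
    rw [h2]
    refine hw (fun z => ψ (cV z)) ⟨hψ.1.comp cV.toContinuousLinearEquiv.contDiff, ?_⟩ ?_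
    · exact hψ.2.1.comp_homeomorph cV.toHomeomorph
    · have h3 : tsupport (fun z => ψ (cV z)) ⊆ cV ⁻¹' tsupport ψ :=
        closure_minimal (fun z hz => subset_tsupport ψ hz)
          ((isClosed_tsupport ψ).preimage cV.continuous)
      intro z hz
      apply hsub
      apply Metric.ball_subset_closedBall
      have h4 := hψ.2.2 (h3 hz)
      rw [Metric.mem_ball, hp₀, cV.dist_map] at h4
      exact h4
  obtain ⟨v, hv1, hv2, hv3, -⟩ :=
    Pool.Agent.Helper546.weyl Metric.isOpen_ball hlam.le hmem hweak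
  have heq : EqOn v uV (Metric.ball p₀ s) := by
    refine Measure.eqOn_open_of_ae_eq (μ := volume) ?_ Metric.isOpen_ball hv1.continuousOn
      huVc.continuousOn
    rw [Filter.EventuallyEq, ae_restrict_iff' measurableSet_ball]
    filter_upwards [hv2] with x hx hxb
    rw [hx hxb, hu', indicator_of_mem hxb]
  have hmap : ∀ z, z ∈ Metric.ball x₀ s → cV z ∈ Metric.ball p₀ s := by
    intro z hz
    rw [Metric.mem_ball, hp₀, cV.dist_map]
    exact hz
  -- the cutoff
  let χ : ContDiffBump x₀ := ⟨s / 3, s / 2, by positivity, by linarith⟩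
  have hχ1 : ∀ z ∈ Metric.ball x₀ (s / 3), χ z = 1 := fun z hz =>
    χ.one_of_mem_closedBall (Metric.ball_subset_closedBall hz)
  have hχs : tsupport χ = Metric.closedBall x₀ (s / 2) := χ.tsupport_eq
  set U : ℂ → ℝ := fun z => χ z * v (cV z) with hU
  have hUs : ContDiff ℝ ∞ U := by
    rw [contDiff_iff_contDiffAt]
    intro z
    by_cases hz : z ∈ Metric.ball x₀ s
    · refine ContDiffAt.mul χ.contDiff.contDiffAt ?_
      have h1 : ContDiffAt ℝ ∞ v (cV z) := hv1.contDiffAt (Metric.isOpen_ball.mem_nhds (hmap z hz))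
      exact h1.comp z cV.toContinuousLinearEquiv.contDiff.contDiffAt
    · have hz2 : z ∉ tsupport χ := by
        rw [hχs, Metric.mem_closedBall]
        rw [Metric.mem_ball] at hz
        linarith [not_lt.1 hz]
      have h1 : U =ᶠ[𝓝 z] fun _ => 0 := by
        filter_upwards [(isClosed_tsupport χ).isOpen_compl.mem_nhds hz2] with y hy
        rw [hU]
        simp only
        rw [image_eq_zero_of_notMem_tsupport hy, zero_mul]
      exact contDiffAt_const.congr_of_eventuallyEq h1
  have hUc : HasCompactSupport U := χ.hasCompactSupport.mul_right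
  refine ⟨s / 3, by positivity, U, ⟨hUs, hUc⟩, ?_, ?_⟩
  · refine Subset.trans ?_ hsub
    exact (Metric.ball_subset_ball (by linarith)).trans Metric.ball_subset_closedBall
  · intro x hx
    have hxs : x ∈ Metric.ball x₀ s := Metric.ball_subset_ball (by linarith) hx
    have hUx : U x = v (cV x) := by
      rw [hU]; simp only; rw [hχ1 x hx, one_mul]
    have h1 : u x = U x := by
      rw [hUx, heq (hmap x hxs)]
      simp [huV]
    refine ⟨h1, ?_⟩
    have h2 : U =ᶠ[𝓝 x] fun z => v (cV z) := by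
      filter_upwards [Metric.isOpen_ball.mem_nhds hx] with y hy
      rw [hU]; simp only; rw [hχ1 y hy, one_mul]
    rw [J507.la_congr h2, J507.la_cV, hv3 _ (hmap x hxs), hUx]
    ring

end Pool.Agent.Helper327_Drum
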