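import Pool.Agent.TH298.Sch.Rot1
import Pool.Agent.R227.SA13
import Pool.Agent.Helper327_Drum.Fin.C1
import Pool.Agent.Helper327_Drum.Defs
import Pool.Agent.Helper327_Drum.Fin.E5
import Pool.Agent.Helper327_Drum.Fin.F1
import Pool.Agent.Helper327_Drum.Fin.G1
import Pool.Agent.Helper327_Drum.Fin.M1
import Pool.Agent.Helper327_Drum.MoreDefs
import Pool.Agent.Helper327_Drum.OpDefs

set_option autoImplicit false
open MeasureTheory Set Filter Topology
open scoped ContDiff InnerProductSpace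

namespace Pool.Agent.Helper327_Drum

open Pool.Agent.TH298.Sch (dd SC)
open Pool.Agent.R227.SA (la Wat)

/-
Notation: Z_n x = ∫ W n t * zx R z x t dt, D = inside R, lam = 1/μ - 1 is called lam here. `Wat D lam u`
(Pool.Agent.R227.SA10): u continuous, 0 off D, locally in D equal to a smooth solution of la U = -lam U.

Plain proof. (1) For SC φ with support in D: ∫ Z_n la φ = ∫ D.indicator (la Z_n) φ (`green_classical`, `zW_nice`) with
la Z_n = c⁻² ∫ W_n'' zx in D; pass to the limit using uniform convergence and compact support of φ: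
∫ u la φ = -lam ∫ u φ. `reg` gives Wat D lam u.
(2) Let x ∈ D with g x t = 0 for all t. By `zW_nice` fderiv Z_n x = 0. Near x, u = U is smooth; apply `grad_bd` to
Z_n - U on a small ball: |Z_n - U| ≤ sup|Z_n - u| → 0, |la (Z_n - U)| ≤ sup |c⁻² Z_n'' + lam u| → 0. So
fderiv u x = lim fderiv Z_n x = 0.
(3) If Green's identity holds for each superposition and each SC φ (without support condition), the same passage to the
limit gives ∫ u (la φ + lam φ) = 0 for all SC φ.
-/

/-- passing to the limit in an integral against a test function -/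
theorem m3b_lim {f : ℕ → ℂ → ℝ} {f0 : ℂ → ℝ} (h : TendstoUniformly f f0 atTop)
    (hf : ∀ n, Continuous (f n)) (hf0 : Continuous f0) {φ : ℂ → ℝ} (hφ : Continuous φ)
    (hφc : HasCompactSupport φ) :
    Tendsto (fun n => ∫ x, f n x * φ x) atTop (𝓝 (∫ x, f0 x * φ x)) := by
  have hi : Integrable (fun x => |φ x|) := (hφ.integrable_of_hasCompactSupport hφc).abs
  have hi1 : ∀ g : ℂ → ℝ, Continuous g → Integrable (fun x => g x * φ x) := fun g hg =>
    (hg.mul hφ).integrable_of_hasCompactSupport hφc.mul_left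
  set I : ℝ := ∫ x, |φ x| with hI
  have hI0 : 0 ≤ I := integral_nonneg fun x => abs_nonneg _
  rw [Metric.tendsto_atTop]
  intro ε hε
  have hδ : 0 < ε / (I + 1) := by positivity
  obtain ⟨N, hN⟩ := eventually_atTop.1 (Metric.tendstoUniformly_iff.1 h _ hδ)
  refine ⟨N, fun n hn => ?_⟩
  rw [Real.dist_eq, ← integral_sub (hi1 _ (hf n)) (hi1 _ hf0)]
  have h1 : ∀ x, |f n x * φ x - f0 x * φ x| ≤ ε / (I + 1) * |φ x| := by
    intro x
    rw [← sub_mul, abs_mul]
    refine mul_le_mul_of_nonneg_right ?_ (abs_nonneg _)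
    have h2 := hN n hn x
    rw [Real.dist_eq, abs_sub_comm] at h2
    exact h2.le
  calc |∫ x, (f n x * φ x - f0 x * φ x)| ≤ ∫ x, |f n x * φ x - f0 x * φ x| :=
        abs_integral_le_integral_abs
    _ ≤ ∫ x, ε / (I + 1) * |φ x| := by
        refine integral_mono ((hi1 _ (hf n)).sub (hi1 _ hf0)).abs (hi.const_mul _) h1
    _ = ε / (I + 1) * I := by rw [integral_const_mul]
    _ < ε := by
        rw [div_mul_eq_mul_div, div_lt_iff₀ (by positivity)]
        nlinarith

/-- the Laplacian of a difference -/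
theorem m3b_la_sub {s : Set ℂ} (hs : IsOpen s) {f g : ℂ → ℝ} (hf : ContDiffOn ℝ 2 f s)
    (hg : ContDiffOn ℝ 2 g s) {x : ℂ} (hx : x ∈ s) :
    la (fun y => f y - g y) x = la f x - la g x := by
  have hd : ∀ f : ℂ → ℝ, ContDiffOn ℝ 2 f s → ∀ y ∈ s, DifferentiableAt ℝ f y := fun f hf y hy =>
    (hf.differentiableOn (by norm_num) y hy).differentiableAt (hs.mem_nhds hy)
  have hd2 : ∀ f : ℂ → ℝ, ContDiffOn ℝ 2 f s → ∀ v, DifferentiableAt ℝ (dd v f) x := by
    intro f hf v
    have h1 : ContDiffAt ℝ 2 f x := hf.contDiffAt (hs.mem_nhds hx)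
    have h2 : ContDiffAt ℝ 1 (fderiv ℝ f) x := h1.fderiv_right (by norm_num)
    exact (h2.clm_apply contDiffAt_const).differentiableAt (by norm_num)
  have key : ∀ v, dd v (dd v (fun y => f y - g y)) x = dd v (dd v f) x - dd v (dd v g) x := by
    intro v
    have h1 : dd v (fun y => f y - g y) =ᶠ[𝓝 x] fun y => dd v f y - dd v g y := by
      filter_upwards [hs.mem_nhds hx] with y hy
      have := fderiv_fun_sub (hd f hf y hy) (hd g hg y hy)
      change fderiv ℝ (fun y => f y - g y) y v = _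
      rw [this]
      rfl
    have h2 := fderiv_fun_sub (hd2 f hf v) (hd2 g hg v)
    change fderiv ℝ (dd v (fun y => f y - g y)) x v = _
    rw [h1.fderiv_eq, h2]
    rfl
  unfold la
  rw [key, key]
  ring

theorem m3b_iter {W : ℝ → ℝ} (hW : ContDiff ℝ ∞ W) (hWc : HasCompactSupport W) :
    ContDiff ℝ ∞ (iteratedDeriv 2 W) ∧ HasCompactSupport (iteratedDeriv 2 W) := by
  have e : iteratedDeriv 2 W = deriv (deriv W) := by
    rw [iteratedDeriv_succ, iteratedDeriv_one]
  rw [e]
  have h1 : ContDiff ℝ ∞ (deriv W) := (contDiff_infty_iff_deriv.1 hW).2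
  exact ⟨(contDiff_infty_iff_deriv.1 h1).2, hWc.deriv.deriv⟩

/-- the value of a linear combination of limits -/
theorem m3b_limit {u : ℂ → ℝ} (hu : Continuous u) {lam : ℝ} {A B : ℕ → ℂ → ℝ}
    (hA : ∀ n, Continuous (A n)) (hB : ∀ n, Continuous (B n))
    (h1 : TendstoUniformly A u atTop) (h2 : TendstoUniformly B (fun x => -(lam * u x)) atTop)
    {φ : ℂ → ℝ} (hφ : SC φ) (he : ∀ n, ∫ x, A n x * la φ x = ∫ x, B n x * φ x) :
    ∫ x, u x * (la φ x + lam * φ x) = 0 := by
  have hl : SC (la φ) := Pool.Agent.R227.SA.la_sc hφ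
  have k1 := m3b_lim h1 hA hu hl.cont hl.cs
  have k2 := m3b_lim h2 hB (hu.const_mul lam).neg hφ.cont hφ.cs
  simp_rw [he] at k1
  have k3 := tendsto_nhds_unique k1 k2
  have i1 : Integrable (fun x => u x * la φ x) :=
    (hu.mul hl.cont).integrable_of_hasCompactSupport hl.cs.mul_left
  have i2 : Integrable (fun x => u x * (lam * φ x)) :=
    (hu.mul (hφ.cont.const_mul lam)).integrable_of_hasCompactSupport
      (HasCompactSupport.mul_left (f := fun x => u x) (HasCompactSupport.mul_left (f := fun _ => lam) hφ.cs))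
  simp_rw [mul_add]
  rw [integral_add i1 i2, k3, ← integral_add _ i2]
  · rw [integral_eq_zero_of_ae]
    filter_upwards with x
    simp only [Pi.zero_apply]
    ring
  · refine i2.neg.congr ?_
    filter_upwards with x
    simp only [Pi.neg_apply]
    ring

/-- TARGET: properties of the limit. -/
theorem mode_props {R : Set ℂ} {c lam : ℝ} {z : ℂ → ℝ → ℝ} {g : ℂ → ℝ → ℂ} (hR : IsCompact R)
    (hc : 0 < c) (h : DrumSolution R c z g) (hlam : 0 < lam) {u : ℂ → ℝ} (hu : Continuous u)
    (hu0 : ∀ x, x ∉ inside R → u x = 0) {W : ℕ → ℝ → ℝ}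
    (hW : ∀ n, ContDiff ℝ ∞ (W n) ∧ HasCompactSupport (W n))
    (h1 : TendstoUniformly (fun n x => ∫ t, W n t * zx R z x t) u atTop)
    (h2 : TendstoUniformly (fun n x => (c ^ 2)⁻¹ * ∫ t, iteratedDeriv 2 (W n) t * zx R z x t)
          (fun x => -(lam * u x)) atTop) :
    Wat (inside R) lam u ∧ (∀ x ∈ inside R, (∀ t, g x t = 0) → fderiv ℝ u x = 0) ∧
    ((∀ W : ℝ → ℝ, ContDiff ℝ ∞ W → HasCompactSupport W → ∀ φ : ℂ → ℝ, SC φ →
        ∫ x, (∫ t, W t * zx R z x t) * la φ x =
          ∫ x, ((c ^ 2)⁻¹ * ∫ t, iteratedDeriv 2 W t * zx R z x t) * φ x) →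
      ∀ φ : ℂ → ℝ, SC φ → ∫ x, u x * (la φ x + lam * φ x) = 0) := by
  obtain ⟨hDo, hDb, hDf, hDcl, hDR⟩ := inside_basic hR
  set D := inside R with hD
  set Z : ℕ → ℂ → ℝ := fun n x => ∫ t, W n t * zx R z x t with hZ
  set Y : ℕ → ℂ → ℝ := fun n x => (c ^ 2)⁻¹ * ∫ t, iteratedDeriv 2 (W n) t * zx R z x t with hY
  have hnice := fun n => zW_nice hR hc h (hW n).1 (hW n).2
  have hZc : ∀ n, Continuous (Z n) := fun n => (hnice n).1
  have hYc : ∀ n, Continuous (Y n) := fun n => by
    have h3 := m3b_iter (hW n).1 (hW n).2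
    exact (zW_nice hR hc h h3.1 h3.2).1.const_mul _
  have hwat : Wat D lam u := by
    refine ⟨hu, hu0, ?_⟩
    refine reg hDo hlam hu ?_
    intro φ hφ hφD
    refine m3b_limit hu hZc hYc h1 h2 hφ ?_
    intro n
    rw [green_classical hDo (hnice n).2.2.1 hφ hφD]
    refine integral_congr_ae (Eventually.of_forall fun x => ?_)
    simp only
    by_cases hx : x ∈ D
    · rw [Set.indicator_of_mem hx, (hnice n).2.2.2.1 x hx]
    · rw [Set.indicator_of_notMem hx, image_eq_zero_of_notMem_tsupport (fun h' => hx (hφD h'))]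
      ring
  refine ⟨hwat, ?_, ?_⟩
  · intro x₀ hx₀ hg
    obtain ⟨r, hr, U, hU, hball, hUe⟩ := hwat.loc x₀ hx₀
    have hxb : x₀ ∈ Metric.ball x₀ r := Metric.mem_ball_self hr
    have hbn : Metric.ball x₀ r ∈ 𝓝 x₀ := Metric.ball_mem_nhds x₀ hr
    have hfu : fderiv ℝ u x₀ = fderiv ℝ U x₀ := by
      refine Filter.EventuallyEq.fderiv_eq ?_
      filter_upwards [hbn] with y hy
      exact (hUe y hy).1
    have hUd : ContDiffOn ℝ 2 U (Metric.ball x₀ r) := (hU.sm.of_le ENat.LEInfty.out).contDiffOn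
    have hZd : ∀ n, ContDiffOn ℝ 2 (Z n) (Metric.ball x₀ r) := fun n =>
      (hnice n).2.2.1.mono hball
    have hZ0 : ∀ n, fderiv ℝ (Z n) x₀ = 0 := by
      intro n
      ext v
      rw [hZ]
      rw [(hnice n).2.2.2.2.1 x₀ hx₀ v]
      simp [hg]
    have hdiff : ∀ n, fderiv ℝ (fun y => Z n y - U y) x₀ = - fderiv ℝ U x₀ := by
      intro n
      rw [fderiv_fun_sub, hZ0 n, zero_sub]
      · exact ((hZd n).differentiableOn (by norm_num) x₀ hxb).differentiableAt hbn
      · exact hU.diff x₀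
    have hbound : ∀ ε > 0, ‖fderiv ℝ U x₀‖ ≤ 8 * (ε / r + ε * r) := by
      intro ε hε
      obtain ⟨n, hn1, hn2⟩ := ((Metric.tendstoUniformly_iff.1 h1 ε hε).and
        (Metric.tendstoUniformly_iff.1 h2 ε hε)).exists
      have h3 := grad_bd (x₀ := x₀) hr (M := ε) (N := ε) ((hZd n).sub hUd) ?_ ?_
      · rwa [hdiff n, norm_neg] at h3
      · intro x hx
        have h4 := hn1 x
        rw [Real.dist_eq, abs_sub_comm, (hUe x hx).1] at h4
        exact h4.le
      · intro x hx
        have h4 := hn2 x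
        have h5 : la (fun x => Z n x - U x) x = Y n x + lam * u x := by
          rw [m3b_la_sub Metric.isOpen_ball (hZd n) hUd hx, (hUe x hx).2, (hUe x hx).1]
          have h7 : la (Z n) x = Y n x := (hnice n).2.2.2.1 x (hball hx)
          rw [h7]
          ring
        rw [h5]
        rw [Real.dist_eq, abs_sub_comm] at h4
        have h6 : Y n x + lam * u x = Y n x - -(lam * u x) := by ring
        rw [h6]
        exact h4.le
    rw [hfu]
    by_contra hne
    have hpos : 0 < ‖fderiv ℝ U x₀‖ := norm_pos_iff.2 hne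
    set k := ‖fderiv ℝ U x₀‖ with hk
    have hden : 0 < 16 * (1 / r + r) := by positivity
    have h3 := hbound (k / (16 * (1 / r + r))) (by positivity)
    have h4 : 8 * (k / (16 * (1 / r + r)) / r + k / (16 * (1 / r + r)) * r) = k / 2 := by
      field_simp
      ring
    rw [h4] at h3
    linarith
  · intro hgreen φ hφ
    exact m3b_limit hu hZc hYc h1 h2 hφ fun n => hgreen (W n) (hW n).1 (hW n).2 φ hφ

end Pool.Agent.Helper327_Drum
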