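import Pool.Agent.TH298.Sch.Rot1
import Pool.Agent.R227.SA8
import Pool.Agent.Helper327_Drum.Defs
import Pool.Agent.Helper327_Drum.Fin.E4
import Pool.Agent.Helper327_Drum.Fin.E5
import Pool.Agent.Helper327_Drum.Fin.G1
import Pool.Agent.Helper327_Drum.Fin.M1
import Pool.Agent.Helper327_Drum.MoreDefs
import Pool.Agent.Helper327_Drum.OpDefs

set_option autoImplicit false
open MeasureTheory Set Filter Topology
open scoped ContDiff InnerProductSpace

namespace Pool.Agent.Helper327_Drum

open Pool.Agent.TH298.Sch (dd SC)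
open Pool.Agent.R227.SA (la)

/-! ### auxiliary lemmas -/

theorem m4_memLp {φ : ℂ → ℝ} (hφ : SC φ) : MemLp φ 2 (volume : Measure ℂ) :=
  Continuous.memLp_of_hasCompactSupport hφ.sm.continuous hφ.cs

theorem m4_inner {φ : ℂ → ℝ} (hφ : MemLp φ 2 (volume : Measure ℂ)) (u : L2) :
    ⟪hφ.toLp φ, u⟫_ℝ = ∫ x, u x * φ x := by
  rw [L2.inner_def]
  refine integral_congr_ae ?_
  filter_upwards [hφ.coeFn_toLp] with x hx
  rw [hx]
  simp [inner]

theorem m4_ibp {D : Set ℂ} (j : Fin 3) (v : ℂ)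
    (hj : ∀ F, Gr D F → ∃ f, C1c D f ∧ F 0 =ᵐ[volume] f ∧ F j =ᵐ[volume] dd v f)
    (F : V D) {φ : ℂ → ℝ} (hφ : SC φ) :
    ∫ x, (F.1 j) x * φ x = - ∫ x, (F.1 0) x * dd v φ x := by
  have hdφ : SC (dd v φ) := Pool.Agent.TH298.Sch.dd_sc hφ v
  set L : W3 →L[ℝ] ℝ :=
    (innerSL ℝ ((m4_memLp hφ).toLp φ)).comp (PiLp.proj 2 (fun _ : Fin 3 => L2) j) +
    (innerSL ℝ ((m4_memLp hdφ).toLp (dd v φ))).comp (PiLp.proj 2 (fun _ : Fin 3 => L2) 0) with hL
  have hLa : ∀ G : W3, L G = (∫ x, (G j) x * φ x) + ∫ x, (G 0) x * dd v φ x := by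
    intro G
    have h1 : L G = ⟪(m4_memLp hφ).toLp φ, G j⟫_ℝ + ⟪(m4_memLp hdφ).toLp (dd v φ), G 0⟫_ℝ := rfl
    rw [h1, m4_inner, m4_inner]
  have hGr : ∀ G, Gr D G → L G = 0 := by
    intro G hG
    obtain ⟨f, hf, h0, h1⟩ := hj G hG
    rw [hLa]
    have e1 : ∫ x, (G j) x * φ x = ∫ x, dd v f x * φ x := by
      refine integral_congr_ae ?_
      filter_upwards [h1] with x hx
      rw [hx]
    have e2 : ∫ x, (G 0) x * dd v φ x = ∫ x, f x * dd v φ x := by
      refine integral_congr_ae ?_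
      filter_upwards [h0] with x hx
      rw [hx]
    have hfc : Continuous f := hf.1.continuous
    have hdf : Continuous (dd v f) :=
      (hf.1.continuous_fderiv (by simp)).clm_apply continuous_const
    have i1 : Integrable (fun x => fderiv ℝ f x v * φ x) :=
      (hdf.mul hφ.cont).integrable_of_hasCompactSupport hφ.cs.mul_left
    have i2 : Integrable (fun x => f x * fderiv ℝ φ x v) :=
      (hfc.mul hdφ.cont).integrable_of_hasCompactSupport hdφ.cs.mul_left
    have i3 : Integrable (fun x => f x * φ x) :=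
      (hfc.mul hφ.cont).integrable_of_hasCompactSupport hφ.cs.mul_left
    have h3 := integral_mul_fderiv_eq_neg_fderiv_mul_of_integrable (f := f) (g := φ) (v := v)
      i1 i2 i3 (fun x _ => hf.1.differentiable (by simp) x) (fun x _ => hφ.diff x)
    rw [e1, e2]
    unfold dd
    rw [h3]
    ring
  have hV0 : V0 D ≤ LinearMap.ker (L : W3 →ₗ[ℝ] ℝ) := by
    unfold V0
    rw [Submodule.span_le]
    intro G hG
    exact hGr G hG
  have hV : V D ≤ LinearMap.ker (L : W3 →ₗ[ℝ] ℝ) := by
    refine Submodule.topologicalClosure_minimal _ hV0 ?_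
    exact L.isClosed_ker
  have h4 : L F.1 = 0 := hV F.2
  rw [hLa] at h4
  linarith

/-
Plain proof. For F in V0 D (classes of C¹ functions f with compact support in D, their sums and multiples) this is
∫ ∂f φ = -∫ f ∂φ; both sides are continuous in F.
-/

/-- TARGET 1: integration by parts against test functions of the whole plane. -/
theorem V_ibp {D : Set ℂ} (F : V D) {φ : ℂ → ℝ} (hφ : SC φ) :
    ∫ x, (F.1 1) x * φ x = - ∫ x, (F.1 0) x * dd 1 φ x ∧
    ∫ x, (F.1 2) x * φ x = - ∫ x, (F.1 0) x * dd Complex.I φ x := by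
  constructor
  · refine m4_ibp 1 1 (fun G hG => ?_) F hφ
    obtain ⟨f, hf, h0, h1, -⟩ := hG
    exact ⟨f, hf, h0, h1⟩
  · refine m4_ibp 2 Complex.I (fun G hG => ?_) F hφ
    obtain ⟨f, hf, h0, -, h2⟩ := hG
    exact ⟨f, hf, h0, h2⟩

/-- continuity of superpositions of a function extended by zero -/
theorem m4_cont {D R : Set ℂ} (hfr : frontier D ⊆ R) (hcl : closure D ⊆ D ∪ R)
    {u : ℂ × ℝ → ℝ} (hu : ContinuousOn u ((D ∪ R) ×ˢ univ)) (hu0 : ∀ x ∈ R, ∀ t, u (x, t) = 0)
    {W : ℝ → ℝ} (hW : Continuous W) (hWc : HasCompactSupport W) :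
    Continuous (D.indicator fun x => ∫ t, W t * u (x, t)) := by
  have h1 : Continuous ((D ×ˢ (univ : Set ℝ)).indicator u) := by
    refine continuous_indicator ?_ ?_
    · rintro ⟨x, t⟩ hx
      rw [frontier_prod_univ_eq] at hx
      exact hu0 x (hfr hx.1) t
    · refine hu.mono ?_
      rw [closure_prod_eq, closure_univ]
      exact prod_mono hcl le_rfl
  have h2 : Continuous (Function.uncurry fun (x : ℂ) (t : ℝ) =>
      W t * (D ×ˢ (univ : Set ℝ)).indicator u (x, t)) :=
    (hW.comp continuous_snd).mul h1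
  have h3 := continuous_parametric_integral_of_continuous (μ := (volume : Measure ℝ)) h2 hWc
  refine h3.congr fun x => ?_
  have h4 : ∫ t in tsupport W, W t * (D ×ˢ (univ : Set ℝ)).indicator u (x, t) =
      ∫ t, W t * (D ×ˢ (univ : Set ℝ)).indicator u (x, t) := by
    refine setIntegral_eq_integral_of_forall_compl_eq_zero fun t ht => ?_
    rw [image_eq_zero_of_notMem_tsupport ht, zero_mul]
  show ∫ t in tsupport W, W t * (D ×ˢ (univ : Set ℝ)).indicator u (x, t) = _
  rw [h4]
  by_cases hx : x ∈ D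
  · rw [indicator_of_mem hx]
    refine integral_congr_ae (Eventually.of_forall fun t => ?_)
    simp only
    rw [indicator_of_mem (show (x, t) ∈ D ×ˢ (univ : Set ℝ) from ⟨hx, mem_univ _⟩)]
  · rw [indicator_of_notMem hx]
    have h5 : ∀ t, W t * (D ×ˢ (univ : Set ℝ)).indicator u (x, t) = 0 := fun t => by
      rw [indicator_of_notMem (show (x, t) ∉ D ×ˢ (univ : Set ℝ) from fun h => hx h.1), mul_zero]
    simp only [h5, integral_zero]

theorem m4_smooth_dd {D : Set ℂ} (hDo : IsOpen D) {f : ℂ → ℝ} (hf : ContDiffOn ℝ 2 f D) (h : ℂ) :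
    ContDiffOn ℝ 1 (dd h f) D := by
  have h1 : ContDiffOn ℝ 1 (fderiv ℝ f) D := hf.fderiv_of_isOpen hDo (by norm_num)
  exact h1.clm_apply contDiffOn_const

/-
Plain proof. D = inside R, f = ∫ W zx dt, k = c⁻² ∫ W'' zx dt; la f = k in D (`zW_nice`), both C² in D, continuous, 0 off
D. For h = 1, I let f_h = D.indicator (dd h f). By `zW_nice` dd h f x = ∫ W t (re, im part of g x t) for x ∈ D. Since g is
continuous on (D ∪ R) × ℝ and 0 on R × ℝ, f_h is continuous on the plane (same argument as for `zx_cont`) and 0 off D; it is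
C¹ in D. Its weak Laplacian is D.indicator (dd h k), bounded (`zW_nice` for W''), by `weak_of_deriv` (dd 1 f_h = dd 1 (dd h f) on
the open set D). So `mem_V` gives F_h ∈ V D with components (f_h, ∂₁ f_h, ∂₂ f_h), and `mem_V` with `weak_of_classical` gives
F ∈ V D with components (f, f_1, f_I). By `V_ibp`:
∫ f la φ = ∫ f ∂₁∂₁φ + ∫ f ∂₂∂₂φ = -∫ f_1 ∂₁φ - ∫ f_I ∂₂φ = ∫ ∂₁f_1 φ + ∫ ∂₂ f_I φ = ∫_D (la f) φ = ∫ k φ.
-/

/-- TARGET 2: if the gradient vanishes on the boundary, superpositions solve the equation across the boundary. -/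
theorem green_across {R : Set ℂ} {c : ℝ} {z : ℂ → ℝ → ℝ} {g : ℂ → ℝ → ℂ} (hR : IsCompact R)
    (hc : 0 < c) (h : DrumSolution R c z g) (hg : ∀ x ∈ R, ∀ t, g x t = 0)
    (W : ℝ → ℝ) (hW : ContDiff ℝ ∞ W) (hWc : HasCompactSupport W) (φ : ℂ → ℝ) (hφ : SC φ) :
    ∫ x, (∫ t, W t * zx R z x t) * la φ x =
      ∫ x, ((c ^ 2)⁻¹ * ∫ t, iteratedDeriv 2 W t * zx R z x t) * φ x := by
  obtain ⟨hDo, hDb, hfr, hcl, hdj⟩ := inside_basic hR
  have hW2 : ContDiff ℝ ∞ (iteratedDeriv 2 W) := by
    rw [iteratedDeriv_eq_iterate]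
    exact hW.iterate_deriv 2
  have hW2c : HasCompactSupport (iteratedDeriv 2 W) := by
    rw [iteratedDeriv_eq_iterate]
    exact (hWc.deriv).deriv
  obtain ⟨f1, f2, f3, f4, f5, ⟨Mf, f6⟩, ⟨Mf', f7⟩⟩ := zW_nice hR hc h hW hWc
  obtain ⟨k1, k2, k3, k4, k5, ⟨Mk, k6⟩, ⟨Mk', k7⟩⟩ := zW_nice hR hc h hW2 hW2c
  set D := inside R with hD
  set f : ℂ → ℝ := fun x => ∫ t, W t * zx R z x t with hf
  set k0 : ℂ → ℝ := fun x => ∫ t, iteratedDeriv 2 W t * zx R z x t with hk0
  set k : ℂ → ℝ := fun x => (c ^ 2)⁻¹ * k0 x with hk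
  have hkc : Continuous k := continuous_const.mul k1
  have hkz : ∀ x, x ∉ D → k x = 0 := fun x hx => by
    have : k0 x = 0 := k2 x hx
    simp only [hk, this, mul_zero]
  have hk2 : ContDiffOn ℝ 2 k D := contDiffOn_const.mul k3
  have hfk : ∀ x ∈ D, la f x = k x := f4
  have hc2 : 0 ≤ (c ^ 2)⁻¹ := by positivity
  -- the function itself
  have hkM : ∀ x, |k x| ≤ (c ^ 2)⁻¹ * |Mk| := by
    intro x
    by_cases hx : x ∈ D
    · simp only [hk, abs_mul, abs_of_nonneg hc2]
      exact mul_le_mul_of_nonneg_left ((k6 x hx).trans (le_abs_self _)) hc2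
    · rw [hkz x hx, abs_zero]; positivity
  have hfw : ∀ ψ : ℂ → ℝ, SC ψ → tsupport ψ ⊆ D →
      ∫ x, (dd 1 f x * dd 1 ψ x + dd Complex.I f x * dd Complex.I ψ x) = - ∫ x, k x * ψ x := by
    intro ψ hψ hψD
    have h1 : C1c D ψ := ⟨hψ.sm.of_le (by simp), hψ.cs, hψD⟩
    rw [weak_of_classical hDo f3 h1]
    congr 1
    refine integral_congr_ae (Eventually.of_forall fun x => ?_)
    by_cases hx : x ∈ D
    · simp only [indicator_of_mem hx, hfk x hx]
    · simp only [indicator_of_notMem hx, hkz x hx]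
  obtain ⟨F, F0, F1, F2, -, -⟩ := mem_V hDo hDb f1 f2 (f3.of_le (by norm_num)) hkc.measurable
    hkz hkM hfw
  -- the derivatives
  have hder : ∀ (v : ℂ), (v = 1 ∨ v = Complex.I) → ∃ G : V D,
      G.1 0 =ᵐ[volume] D.indicator (dd v f) ∧
      G.1 1 =ᵐ[volume] D.indicator (dd 1 (dd v f)) ∧
      G.1 2 =ᵐ[volume] D.indicator (dd Complex.I (dd v f)) := by
    intro v hv
    have c1 : Continuous (D.indicator (dd v f)) := by
      have hu : ContinuousOn (fun p : ℂ × ℝ => v.re * (g p.1 p.2).re + v.im * (g p.1 p.2).im)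
          ((D ∪ R) ×ˢ univ) := by
        have h1 := h.grad_cont
        exact (continuousOn_const.mul (Complex.continuous_re.comp_continuousOn h1)).add
          (continuousOn_const.mul (Complex.continuous_im.comp_continuousOn h1))
      have h2 := m4_cont hfr hcl hu (fun x hx t => by simp [hg x hx t]) hW.continuous hWc
      refine h2.congr fun x => ?_
      by_cases hx : x ∈ D
      · rw [indicator_of_mem hx, indicator_of_mem hx]
        exact (f5 x hx v).symm
      · rw [indicator_of_notMem hx, indicator_of_notMem hx]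
    have c2 : ∀ x, x ∉ D → D.indicator (dd v f) x = 0 := fun x hx => indicator_of_notMem hx _
    have c3 : ContDiffOn ℝ 1 (D.indicator (dd v f)) D :=
      (m4_smooth_dd hDo f3 v).congr fun x hx => indicator_of_mem hx _
    have c4 : Measurable (D.indicator (dd v k)) :=
      (measurable_fderiv_apply_const ℝ k v).indicator hDo.measurableSet
    have c5 : ∀ x, x ∉ D → D.indicator (dd v k) x = 0 := fun x hx => indicator_of_notMem hx _
    have c6 : ∀ x, |D.indicator (dd v k) x| ≤ (c ^ 2)⁻¹ * (|Mk'| * ‖v‖) := by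
      intro x
      by_cases hx : x ∈ D
      · rw [indicator_of_mem hx]
        have hd : DifferentiableAt ℝ k0 x :=
          (k3.differentiableOn (by norm_num)).differentiableAt (hDo.mem_nhds hx)
        have e1 : dd v k x = (c ^ 2)⁻¹ * fderiv ℝ k0 x v := by
          unfold dd
          rw [hk, fderiv_const_mul hd]
          rfl
        rw [e1, abs_mul, abs_of_nonneg hc2]
        refine mul_le_mul_of_nonneg_left ?_ hc2
        have h1 := (fderiv ℝ k0 x).le_opNorm v
        rw [Real.norm_eq_abs] at h1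
        refine h1.trans (mul_le_mul_of_nonneg_right ((k7 x hx).trans (le_abs_self _))
          (norm_nonneg _))
      · rw [c5 x hx, abs_zero]; positivity
    have hloc : ∀ w : ℂ, ∀ x ∈ D, dd w (D.indicator (dd v f)) x = dd w (dd v f) x := by
      intro w x hx
      unfold dd
      have : D.indicator (fun x => fderiv ℝ f x v) =ᶠ[𝓝 x] fun x => fderiv ℝ f x v := by
        filter_upwards [hDo.mem_nhds hx] with y hy
        exact indicator_of_mem hy _
      rw [this.fderiv_eq]
    have c7 : ∀ ψ : ℂ → ℝ, SC ψ → tsupport ψ ⊆ D →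
        ∫ x, (dd 1 (D.indicator (dd v f)) x * dd 1 ψ x +
          dd Complex.I (D.indicator (dd v f)) x * dd Complex.I ψ x) =
        - ∫ x, D.indicator (dd v k) x * ψ x := by
      intro ψ hψ hψD
      rw [← weak_of_deriv hDo f3 (hk2.of_le (by norm_num)) hfk v hψ hψD]
      refine integral_congr_ae (Eventually.of_forall fun x => ?_)
      by_cases hx : x ∈ D
      · simp only [hloc 1 x hx, hloc Complex.I x hx]
      · have hx' : x ∉ tsupport ψ := fun h' => hx (hψD h')
        have h1 : fderiv ℝ ψ x = 0 := by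
          have := (support_fderiv_subset ℝ (f := ψ))
          by_contra hne
          exact hx' (this hne)
        simp only [dd, h1, zero_apply, mul_zero]
    obtain ⟨G, G0, G1, G2, -, -⟩ := mem_V hDo hDb c1 c2 c3 c4 c5 c6 c7
    refine ⟨G, G0, ?_, ?_⟩
    · refine G1.trans (Eventually.of_forall fun x => ?_)
      by_cases hx : x ∈ D
      · rw [indicator_of_mem hx, indicator_of_mem hx, hloc 1 x hx]
      · rw [indicator_of_notMem hx, indicator_of_notMem hx]
    · refine G2.trans (Eventually.of_forall fun x => ?_)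
      by_cases hx : x ∈ D
      · rw [indicator_of_mem hx, indicator_of_mem hx, hloc Complex.I x hx]
      · rw [indicator_of_notMem hx, indicator_of_notMem hx]
  obtain ⟨G, G0, G1, -⟩ := hder 1 (Or.inl rfl)
  obtain ⟨H, H0, -, H2⟩ := hder Complex.I (Or.inr rfl)
  have hd1 : SC (dd 1 φ) := Pool.Agent.TH298.Sch.dd_sc hφ 1
  have hdI : SC (dd Complex.I φ) := Pool.Agent.TH298.Sch.dd_sc hφ Complex.I
  have hd11 : SC (dd 1 (dd 1 φ)) := Pool.Agent.TH298.Sch.dd_sc hd1 1
  have hdII : SC (dd Complex.I (dd Complex.I φ)) := Pool.Agent.TH298.Sch.dd_sc hdI Complex.I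
  have p1 := (V_ibp F hd1).1
  have p2 := (V_ibp F hdI).2
  have p3 := (V_ibp G hφ).1
  have p4 := (V_ibp H hφ).2
  have q : ∀ {a b : ℂ → ℝ} (ψ : ℂ → ℝ), a =ᵐ[volume] b → ∫ x, a x * ψ x = ∫ x, b x * ψ x := by
    intro a b ψ hab
    refine integral_congr_ae ?_
    filter_upwards [hab] with x hx
    rw [hx]
  rw [q _ F0, q _ F1] at p1
  rw [q _ F0, q _ F2] at p2
  rw [q _ G0, q _ G1] at p3
  rw [q _ H0, q _ H2] at p4
  have i1 : Integrable (fun x => f x * dd 1 (dd 1 φ) x) :=
    (f1.mul hd11.cont).integrable_of_hasCompactSupport hd11.cs.mul_left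
  have i2 : Integrable (fun x => f x * dd Complex.I (dd Complex.I φ) x) :=
    (f1.mul hdII.cont).integrable_of_hasCompactSupport hdII.cs.mul_left
  have e1 : ∫ x, f x * la φ x = (∫ x, f x * dd 1 (dd 1 φ) x) +
      ∫ x, f x * dd Complex.I (dd Complex.I φ) x := by
    rw [← integral_add i1 i2]
    refine integral_congr_ae (Eventually.of_forall fun x => ?_)
    simp only [la, mul_add]
  have jm : ∀ u : L2, Integrable (fun x => u x * φ x) := by
    intro u
    exact (Lp.memLp u).integrable_mul (m4_memLp hφ)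
  have j1 : Integrable (fun x => D.indicator (dd 1 (dd 1 f)) x * φ x) := by
    refine (jm (G.1 1)).congr ?_
    filter_upwards [G1] with x hx
    rw [hx]
  have j2 : Integrable (fun x => D.indicator (dd Complex.I (dd Complex.I f)) x * φ x) := by
    refine (jm (H.1 2)).congr ?_
    filter_upwards [H2] with x hx
    rw [hx]
  have e2 : ∫ x, k x * φ x = (∫ x, D.indicator (dd 1 (dd 1 f)) x * φ x) +
      ∫ x, D.indicator (dd Complex.I (dd Complex.I f)) x * φ x := by
    rw [← integral_add j1 j2]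
    refine integral_congr_ae (Eventually.of_forall fun x => ?_)
    by_cases hx : x ∈ D
    · simp only [indicator_of_mem hx]
      rw [← hfk x hx, la, add_mul]
    · simp only [indicator_of_notMem hx, hkz x hx, zero_mul, add_zero]
  show ∫ x, f x * la φ x = ∫ x, k x * φ x
  rw [e1, e2]
  linarith

end Pool.Agent.Helper327_Drum
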