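import Pool.Agent.Helper327_Drum.Fin.G2
import Pool.Agent.Helper327_Drum.Fin.G4
import Pool.Agent.Helper327_Drum.Fin.I2
import Pool.Agent.Helper327_Drum.Fin.I4
import Pool.Agent.Helper327_Drum.Fin.M3a
import Pool.Agent.Helper327_Drum.Fin.M3b
import Pool.Agent.Helper327_Drum.Fin.M4

/-! From a drum solution to a Dirichlet eigenfunction with the same critical points. -/

set_option autoImplicit false
open MeasureTheory Set Filter Topology ComplexConjugate
open scoped ContDiff InnerProductSpace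

namespace Pool.Agent.Helper327_Drum

open Pool.Agent.TH298.Sch (dd SC)
open Pool.Agent.R227.SA (la Wat Dat)

/-- `u` is a nonzero mode of the drum solution: a Dirichlet eigenfunction whose gradient vanishes wherever
the gradient of the solution vanishes at all times. -/
structure Mode (R : Set ℂ) (g : ℂ → ℝ → ℂ) (lam : ℝ) (u : ℂ → ℝ) : Prop where
  wat : Wat (inside R) lam u
  ne : ∃ x, u x ≠ 0
  crit : ∀ x ∈ inside R, (∀ t, g x t = 0) → fderiv ℝ u x = 0
  bdry : (∀ x ∈ R, ∀ t, g x t = 0) → ∀ φ, SC φ → ∫ x, u x * (la φ x + lam * φ x) = 0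

theorem mode_of_comp {R : Set ℂ} {c : ℝ} {z : ℂ → ℝ → ℝ} {g : ℂ → ℝ → ℂ} (hR : IsCompact R)
    (hc : 0 < c) (h : DrumSolution R c z g) {μ : ℝ} (h0 : 0 < μ) (h1 : μ < 1) {ψ : L2}
    (hψ : K (inside R) ψ = μ • ψ) {t₀ : ℝ} (hne : ⟪ψ, cl (fun x => zx R z x t₀)⟫_ℝ ≠ 0) :
    ∃ u, Mode R g (1 / μ - 1) u := by
  obtain ⟨u, hu, hu0, -, -, hne', W, hW, h1', h2'⟩ := mode_limit hR hc h h0 h1 hψ hne
  have hlam : 0 < 1 / μ - 1 := by
    rw [sub_pos, lt_div_iff₀ h0]
    linarith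
  obtain ⟨a, b, c'⟩ := mode_props hR hc h hlam hu hu0 hW h1' h2'
  refine ⟨u, a, ?_, b, fun hg => c' fun W hW hWc φ hφ => green_across hR hc h hg W hW hWc φ hφ⟩
  by_contra! hz
  apply hne'
  have e : u = fun _ => 0 := funext hz
  have : cl u = 0 := by
    rw [e]
    unfold cl
    split_ifs with hm
    · exact (MemLp.toLp_zero hm)
    · rfl
  rw [this, inner_zero_right]

theorem mode_exists {R : Set ℂ} {c : ℝ} {z : ℂ → ℝ → ℝ} {g : ℂ → ℝ → ℂ} (hR : IsCompact R)
    (hc : 0 < c) (h : DrumSolution R c z g) : ∃ lam > 0, ∃ u, Mode R g lam u := by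
  obtain ⟨hDo, hDb, -, -, -⟩ := inside_basic hR
  obtain ⟨hzc, hze⟩ := zc_cont hR h
  obtain ⟨x₀, hx₀, t₀, ht₀⟩ := h.nontrivial
  have hne : cl (fun x => zx R z x t₀) ≠ 0 := by
    intro hz
    have e1 := hze t₀
    rw [hz] at e1
    have e2 : (fun x => zx R z x t₀) =ᵐ[volume] fun _ => (0:ℝ) := by
      filter_upwards [e1, Lp.coeFn_zero ℝ 2 (volume : Measure ℂ)] with x h1 h2
      rw [← h1, h2]
      rfl
    have hc1 : Continuous (fun x => zx R z x t₀) :=
      (zx_cont hR h).comp (continuous_id.prodMk continuous_const)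
    have e3 : (fun x => zx R z x t₀) = fun _ => (0:ℝ) :=
      (hc1.ae_eq_iff_eq volume continuous_const).1 e2
    have e4 := congrFun e3 x₀
    simp only [zx] at e4
    by_cases hx : x₀ ∈ inside R
    · rw [indicator_of_mem hx] at e4
      exact ht₀ e4
    · rcases hx₀ with hx' | hx'
      · exact hx hx'
      · exact ht₀ (h.clamped x₀ hx' t₀)
  have hpos : ∀ (μ : ℝ) (ψ : L2), ψ ≠ 0 → K (inside R) ψ = μ • ψ → 0 ≤ μ ∧ μ < 1 :=
    fun μ ψ hψ h => K_eig hDb hψ h
  obtain ⟨μ, ψ, h0, h1, hψ, hi⟩ := exists_comp (K (inside R)) (K_compact hDb) (K_symm _) hpos hc _ hzc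
    (fun W hW hWc => wave_K hR hc h hW hWc) t₀ hne
  obtain ⟨u, hu⟩ := mode_of_comp hR hc h h0 h1 hψ hi
  refine ⟨1 / μ - 1, ?_, u, hu⟩
  rw [gt_iff_lt, sub_pos, lt_div_iff₀ h0]
  linarith

theorem mode_of_excites {R : Set ℂ} {c lam : ℝ} {z : ℂ → ℝ → ℝ} {g : ℂ → ℝ → ℂ} (hR : IsCompact R)
    (hc : 0 < c) (h : DrumSolution R c z g) (hE : Excites R z lam) :
    0 < lam ∧ ∃ u, Mode R g lam u := by
  obtain ⟨hDo, hDb, -, -, -⟩ := inside_basic hR
  obtain ⟨φ, hφ, t₀, ht₀⟩ := hE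
  obtain ⟨h1, h2, h3⟩ := eig_K hDo hDb hφ
  obtain ⟨hzc, hze⟩ := zc_cont hR h
  set ψ := cl ((inside R).indicator φ) with hψ
  have hin : ⟪ψ, cl (fun x => zx R z x t₀)⟫_ℝ = ∫ x in inside R, z x t₀ * φ x := by
    rw [L2.inner_def, ← integral_indicator hDo.measurableSet]
    refine integral_congr_ae ?_
    filter_upwards [h2, hze t₀] with x e1 e2
    rw [e1, e2]
    by_cases hx : x ∈ inside R
    · simp [zx, hx, inner]
    · simp [zx, hx]
  have hψ0 : ψ ≠ 0 := by
    intro hz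
    rw [hz, inner_zero_left] at hin
    exact ht₀ hin.symm
  have hl : (1 + lam) ≠ 0 := by
    intro hz
    rw [hz, zero_smul] at h3
    exact hψ0 h3.symm
  have h4 : K (inside R) ψ = (1 / (1 + lam)) • ψ := by
    conv_rhs => rw [← h3]
    rw [smul_smul, one_div, inv_mul_cancel₀ hl, one_smul]
  obtain ⟨h5, h6⟩ := K_eig hDb hψ0 h4
  have h7 : 0 < 1 + lam := by
    rcases lt_or_gt_of_ne hl with h | h
    · have := one_div_neg.2 h
      linarith
    · exact h
  rw [div_lt_one h7] at h6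
  have h8 : 0 < lam := by linarith
  obtain ⟨u, hu⟩ := mode_of_comp hR hc h (one_div_pos.2 h7) ((div_lt_one h7).2 h6) h4
    (by rw [hin]; exact ht₀)
  refine ⟨h8, u, ?_⟩
  have : (1:ℝ) / (1 / (1 + lam)) - 1 = lam := by
    rw [one_div_one_div]
    ring
  rwa [this] at hu

/-- local injectivity of the parametrisation -/
theorem exp_inj (f : Circle → ℂ) (hf : Function.Injective f) (t : ℝ) :
    ∃ ε > 0, InjOn (fun s => f (Circle.exp s)) (Ioo (t - ε) (t + ε)) := by
  refine ⟨1, one_pos, fun x hx y hy hxy => ?_⟩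
  have h1 := hf hxy
  rw [Circle.exp_eq_exp] at h1
  obtain ⟨m, hm⟩ := h1
  have hpi := Real.pi_gt_three
  have h2 : |x - y| < 2 := by
    rw [abs_lt]
    constructor <;> linarith [hx.1, hx.2, hy.1, hy.2]
  have h3 : x - y = m * (2 * Real.pi) := by rw [hm]; ring
  have h4 : m = 0 := by
    by_contra hm0
    have h5 : (1:ℝ) ≤ |(m:ℝ)| := by
      rw [← Int.cast_abs]
      exact_mod_cast Int.one_le_abs hm0
    rw [h3, abs_mul, abs_of_pos (by positivity : (0:ℝ) < 2 * Real.pi)] at h2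
    nlinarith
  rw [h4] at h3
  push_cast at h3
  linarith

/-- A mode is constant with nonzero value on a closed curve of critical points, which lies in `D`. -/
theorem Mode.const_curve {R γ : Set ℂ} {g : ℂ → ℝ → ℂ} {lam : ℝ} {u : ℂ → ℝ}
    (hR : SimpleClosedCurve R) (hm : Mode R g lam u) (hlam : 0 < lam) (hγ : SimpleClosedCurve γ)
    (hsub : γ ⊆ inside R ∪ R) (hg : ∀ x ∈ γ, ∀ t, g x t = 0) :
    γ ⊆ inside R ∧ ∃ k ≠ 0, ∀ x ∈ γ, u x = k := by
  obtain ⟨hRc, hRcon, hRinf⟩ := scc_basic hR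
  obtain ⟨hDo, hDb, hfr, hcl, hdj⟩ := inside_basic hRc
  have hne : (inside R).Nonempty := by
    obtain ⟨x, hx⟩ := hm.ne
    by_contra hE
    rw [not_nonempty_iff_eq_empty] at hE
    exact hx (hm.wat.out x (by rw [hE]; exact notMem_empty x))
  obtain ⟨hDc, hDfr, hDreg⟩ := inside_jordan hR hne
  obtain ⟨f, hfc, hfi, hfr'⟩ := hγ
  have hcc : Continuous (fun s : ℝ => f (Circle.exp s)) := hfc.comp Circle.exp.continuous
  have hmem : ∀ s : ℝ, f (Circle.exp s) ∈ γ := fun s => by rw [← hfr']; exact mem_range_self _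
  have hsurj : ∀ x ∈ γ, ∃ s : ℝ, f (Circle.exp s) = x := by
    intro x hx
    rw [← hfr'] at hx
    obtain ⟨w, rfl⟩ := hx
    obtain ⟨s, rfl⟩ := Circle.exp_surjective w
    exact ⟨s, rfl⟩
  rcases const_on_curve hDo hDc.isPreconnected hlam hm.wat hm.ne hcc (exp_inj f hfi)
    (fun t ht => hm.crit _ ht (hg _ (hmem t))) with h1 | ⟨h1, h2⟩
  · exfalso
    have hγR : γ ⊆ R := by
      intro x hx
      rcases hsub hx with h | h
      · obtain ⟨s, hs⟩ := hsurj x hx
        exact absurd (by rw [hs]; exact h) (h1 s)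
      · exact h
    have hγR' : γ = R := scc_eq hR ⟨f, hfc, hfi, hfr'⟩ hγR
    rw [hγR'] at hg
    have hgr := hm.bdry hg
    have hloc : LocH univ lam u := fun x _ =>
      reg isOpen_univ hlam hm.wat.cont (fun φ hφ _ => hgr φ hφ) x (mem_univ x)
    obtain ⟨x, hx⟩ := hm.ne
    obtain ⟨M, hM⟩ := hDb.subset_closedBall 0
    have hfar : u =ᶠ[𝓝 ((M + |M| + 1 : ℝ) : ℂ)] 0 := by
      have hopen : IsOpen {y : ℂ | M < ‖y‖} := isOpen_lt continuous_const continuous_norm
      have hmem' : ((M + |M| + 1 : ℝ) : ℂ) ∈ {y : ℂ | M < ‖y‖} := by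
        rw [mem_setOf_eq, Complex.norm_real, Real.norm_eq_abs]
        have := le_abs_self (M + |M| + 1)
        have := abs_nonneg M
        linarith
      filter_upwards [hopen.mem_nhds hmem'] with y hy
      refine hm.wat.out y fun hyD => ?_
      have := hM hyD
      rw [Metric.mem_closedBall, dist_zero_right] at this
      exact absurd hy (not_lt.2 this)
    exact hx (uc_loc hloc hlam isPreconnected_univ (mem_univ _) hfar x (mem_univ x))
  · refine ⟨fun x hx => ?_, u (f (Circle.exp 0)), h2, fun x hx => ?_⟩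
    · obtain ⟨s, rfl⟩ := hsurj x hx
      exact (h1 s).1
    · obtain ⟨s, rfl⟩ := hsurj x hx
      exact (h1 s).2

/-- The touching theorem: a closed curve of vanishing gradient does not meet `R`. -/
theorem touching {R γ : Set ℂ} {c : ℝ} {z : ℂ → ℝ → ℝ} {g : ℂ → ℝ → ℂ} (hR : SimpleClosedCurve R)
    (hc : 0 < c) (h : DrumSolution R c z g) (hγ : SimpleClosedCurve γ) (hsub : γ ⊆ inside R ∪ R)
    (hg : ∀ x ∈ γ, ∀ t, g x t = 0) : γ ⊆ inside R := by
  obtain ⟨lam, hlam, u, hu⟩ := mode_exists (scc_basic hR).1 hc h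
  exact (hu.const_curve hR hlam hγ hsub hg).1

end Pool.Agent.Helper327_Drum
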