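import Pool.Agent.W675.SqC
import Pool.Agent.Helper327_Drum.Defs
import Pool.Agent.Helper327_Drum.Fin.G1

set_option autoImplicit false
open MeasureTheory Set Filter Topology

namespace Pool.Agent.Helper327_Drum

/-
Plain proof. Jordan curve theorem facts that are in the starting library:
`Pool.Agent.W675.SqG.frontier_all` (the boundary of a nonempty bounded open set in the complement of a
Jordan curve, with boundary in the curve, is the whole curve; the curve there is a loop `c : ℝ → ℂ` of
period 1, `Loop c`, `Inj c` from Pool.Agent.H763R2.An; take c t = f (Circle.exp (2 π t)); compare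
Pool.Agent.Y535.PEG.Jct), `Pool.Agent.Helper265.JcE` `jordan_one` (there is at most one bounded
component) and `Pool.Agent.Helper265.JcF` `jordan_facts` (for a bounded connected open D with frontier
the curve: the complement of the closure is connected and unbounded and Dᶜ ⊆ closure (closure D)ᶜ).
Let C be the component of γᶜ of a point x of inside γ. C is open, connected, bounded, frontier C ⊆ γ,
so frontier C = γ by `frontier_all`; by `jordan_one` inside γ = C (any other bounded component C' also
has frontier γ). Last item: Dᶜ ⊆ closure ((closure D)ᶜ) says interior (closure D) ⊆ D.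
-/

/-- the loop of period one attached to a simple closed curve -/
theorem loop_facts {f : Circle → ℂ} (hf : Continuous f) (hi : Function.Injective f) :
    Pool.Agent.H763R2.An.Loop (fun t : ℝ => f (Circle.exp (2 * Real.pi * t))) ∧
      Pool.Agent.H763R2.An.Inj (fun t : ℝ => f (Circle.exp (2 * Real.pi * t))) ∧
      Set.range (fun t : ℝ => f (Circle.exp (2 * Real.pi * t))) = Set.range f := by
  have hpi : (0 : ℝ) < 2 * Real.pi := by positivity
  refine ⟨⟨?_, ?_⟩, ?_, ?_⟩
  · exact hf.comp (Circle.exp.continuous.comp (by fun_prop))
  · intro t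
    rw [mul_add, mul_one, Circle.exp_add, Circle.exp_two_pi, mul_one]
  · intro x y hxy hyx he
    have h1 := hi he
    rw [Circle.exp_eq_exp] at h1
    obtain ⟨m, hm⟩ := h1
    have h2 : x = y + m := by
      have : 2 * Real.pi * x = 2 * Real.pi * (y + m) := by linarith
      exact mul_left_cancel₀ hpi.ne' this
    have h3 : (m : ℝ) < 0 := by linarith
    have h4 : (-1 : ℝ) < m := by linarith
    have h5 : m < 0 := by exact_mod_cast h3
    have h6 : -1 < m := by exact_mod_cast h4
    omega
  · apply Set.Subset.antisymm
    · rintro _ ⟨t, rfl⟩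
      exact ⟨_, rfl⟩
    · rintro _ ⟨z, rfl⟩
      refine ⟨Complex.arg (z : ℂ) / (2 * Real.pi), ?_⟩
      change f (Circle.exp (2 * Real.pi * (Complex.arg (z : ℂ) / (2 * Real.pi)))) = f z
      rw [mul_div_cancel₀ _ hpi.ne', Circle.exp_arg]

/-- TARGET: the inside of a simple closed curve. -/
theorem inside_jordan {γ : Set ℂ} (hγ : SimpleClosedCurve γ) (hne : (inside γ).Nonempty) :
    IsConnected (inside γ) ∧ frontier (inside γ) = γ ∧
      interior (closure (inside γ)) = inside γ := by
  obtain ⟨f, hf, hi, rfl⟩ := hγ
  obtain ⟨x, hx⟩ := hne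
  have hcl : IsClosed (Set.range f) := (isCompact_range hf).isClosed
  have hop : ∀ y, IsOpen (connectedComponentIn (Set.range f)ᶜ y) := fun y =>
    hcl.isOpen_compl.connectedComponentIn
  have hxC : x ∈ connectedComponentIn (Set.range f)ᶜ x := mem_connectedComponentIn hx.1
  have hCc : IsConnected (connectedComponentIn (Set.range f)ᶜ x) :=
    isConnected_connectedComponentIn_iff.2 hx.1
  have hCd : Disjoint (connectedComponentIn (Set.range f)ᶜ x) (Set.range f) := by
    rw [Set.disjoint_left]
    intro y hy
    exact connectedComponentIn_subset _ _ hy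
  have heq : inside (Set.range f) = connectedComponentIn (Set.range f)ᶜ x := by
    ext y
    constructor
    · intro hy
      exact Pool.Agent.Helper265.Br.jordan_one hf hi hx.1 hy.1 hx.2 hy.2
    · intro hy
      refine ⟨connectedComponentIn_subset _ _ hy, ?_⟩
      rw [← connectedComponentIn_eq hy]
      exact hx.2
  have hfr : frontier (connectedComponentIn (Set.range f)ᶜ x) ⊆ Set.range f := by
    intro y hy
    by_contra hyR
    obtain ⟨z, hz1, hz2⟩ := mem_closure_iff.1 (frontier_subset_closure hy) _ (hop y)
      (mem_connectedComponentIn hyR)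
    have h2 : y ∈ connectedComponentIn (Set.range f)ᶜ x := by
      rw [connectedComponentIn_eq hz2, ← connectedComponentIn_eq hz1]
      exact mem_connectedComponentIn hyR
    rw [frontier, (hop x).interior_eq] at hy
    exact hy.2 h2
  obtain ⟨hL, hJ, hr⟩ := loop_facts hf hi
  have hfr2 : frontier (connectedComponentIn (Set.range f)ᶜ x) = Set.range f := by
    have h := Pool.Agent.W675.SqG.frontier_all hL hJ (hop x) ⟨x, hxC⟩ hx.2
      (by rw [hr]; exact hCd) (by rw [hr]; exact hfr)
    rw [h, hr]
  rw [heq]
  refine ⟨hCc, hfr2, ?_⟩
  obtain ⟨-, -, h3⟩ := Pool.Agent.Helper265.Br.jordan_facts hf hi (hop x) hCc hx.2 hfr2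
  apply Set.Subset.antisymm
  · rw [closure_compl] at h3
    exact Set.compl_subset_compl.1 h3
  · exact interior_maximal subset_closure (hop x)

end Pool.Agent.Helper327_Drum
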