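import Pool.Agent.Helper327_Drum.Fin.G1
import Pool.Agent.Helper327_Drum.Fin.G2

/-
JOB NC4 (owner helper327, problem MP_d92c84_an). All imports are on origin/main.
-/

set_option autoImplicit false
open MeasureTheory Set Filter Topology ComplexConjugate
open scoped ContDiff InnerProductSpace

namespace Pool.Agent.Helper327_Drum

theorem nc_open_ann (ρ δ : ℝ) : IsOpen {x : ℂ | |‖x‖ - ρ| < δ} :=
  isOpen_lt (by fun_prop) continuous_const

theorem nc_open_V (P : Finset ℂ) (Q : Finset ℝ) (δ : ℝ) (A : ℂ → Prop) (B : ℝ → Prop) :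
    IsOpen {x : ℂ | (∃ p ∈ P, A p ∧ ‖x - p‖ < δ) ∨ ∃ ρ ∈ Q, B ρ ∧ |‖x‖ - ρ| < δ} := by
  have h : {x : ℂ | (∃ p ∈ P, A p ∧ ‖x - p‖ < δ) ∨ ∃ ρ ∈ Q, B ρ ∧ |‖x‖ - ρ| < δ} =
      (⋃ p ∈ {p : ℂ | p ∈ P ∧ A p}, Metric.ball p δ) ∪
        ⋃ ρ ∈ {ρ : ℝ | ρ ∈ Q ∧ B ρ}, {x : ℂ | |‖x‖ - ρ| < δ} := by
    ext x
    simp only [mem_ofPred_eq, mem_union, mem_iUnion, mem_ball_iff_norm, exists_prop]
    constructor
    · rintro (⟨p, hp, hA, hx⟩ | ⟨ρ, hρ, hB, hx⟩)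
      · exact Or.inl ⟨p, ⟨hp, hA⟩, hx⟩
      · exact Or.inr ⟨ρ, ⟨hρ, hB⟩, hx⟩
    · rintro (⟨p, ⟨hp, hA⟩, hx⟩ | ⟨ρ, ⟨hρ, hB⟩, hx⟩)
      · exact Or.inl ⟨p, hp, hA, hx⟩
      · exact Or.inr ⟨ρ, hρ, hB, hx⟩
  rw [h]
  refine IsOpen.union ?_ ?_
  · exact isOpen_biUnion fun p _ => Metric.isOpen_ball
  · exact isOpen_biUnion fun ρ _ => nc_open_ann ρ δ

theorem nc_ev {a : ℝ} (ha : 0 < a) : ∀ᶠ δ in 𝓝[>] (0 : ℝ), 2 * δ ≤ a := by
  have : Iio (a / 2) ∈ 𝓝[>] (0 : ℝ) := mem_nhdsWithin_of_mem_nhds (Iio_mem_nhds (by positivity))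
  filter_upwards [this] with δ hδ
  have : δ < a / 2 := hδ
  linarith

/-- TARGET 1 -/
theorem near_circles (P : Finset ℂ) (Q : Finset ℝ) {η : ℝ} (hη : 0 < η) :
    ∃ δ > 0, ∀ γ : Set ℂ, IsConnected γ →
      (∀ x ∈ γ, (∃ p ∈ P, ‖x - p‖ < δ) ∨ ∃ ρ ∈ Q, |‖x‖ - ρ| < δ) →
      (∃ p, γ ⊆ Metric.ball p η) ∨ ∃ ρ ∈ Q, ∀ x ∈ γ, |‖x‖ - ρ| < η := by
  have e1 : ∀ᶠ δ in 𝓝[>] (0 : ℝ), ∀ p ∈ P, ∀ p' ∈ P, p ≠ p' → 2 * δ ≤ ‖p - p'‖ := by
    rw [Filter.eventually_all_finset]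
    intro p _
    rw [Filter.eventually_all_finset]
    intro p' _
    by_cases h : p = p'
    · exact Eventually.of_forall fun δ h' => absurd h h'
    · filter_upwards [nc_ev (norm_pos_iff.mpr (sub_ne_zero.mpr h))] with δ hδ _
      exact hδ
  have e2 : ∀ᶠ δ in 𝓝[>] (0 : ℝ), ∀ p ∈ P, ∀ ρ ∈ Q, ‖p‖ ≠ ρ → 2 * δ ≤ |‖p‖ - ρ| := by
    rw [Filter.eventually_all_finset]
    intro p _
    rw [Filter.eventually_all_finset]
    intro p' _
    by_cases h : ‖p‖ = p'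
    · exact Eventually.of_forall fun δ h' => absurd h h'
    · filter_upwards [nc_ev (abs_pos.mpr (sub_ne_zero.mpr h))] with δ hδ _
      exact hδ
  have e3 : ∀ᶠ δ in 𝓝[>] (0 : ℝ), ∀ p ∈ Q, ∀ p' ∈ Q, p ≠ p' → 2 * δ ≤ |p - p'| := by
    rw [Filter.eventually_all_finset]
    intro p _
    rw [Filter.eventually_all_finset]
    intro p' _
    by_cases h : p = p'
    · exact Eventually.of_forall fun δ h' => absurd h h'
    · filter_upwards [nc_ev (abs_pos.mpr (sub_ne_zero.mpr h))] with δ hδ _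
      exact hδ
  have e4 : ∀ᶠ δ in 𝓝[>] (0 : ℝ), 2 * δ ≤ η := nc_ev hη
  obtain ⟨δ, h1, h2, h3, h4, h5⟩ := (e1.and (e2.and (e3.and (e4.and self_mem_nhdsWithin)))).exists
  have hδ : 0 < δ := h5
  have hδη : δ ≤ η := by linarith
  refine ⟨δ, hδ, ?_⟩
  intro γ hγ hcov
  -- cover by `P'` and `Q`
  have hcov' : ∀ x ∈ γ, (∃ p ∈ P, ‖p‖ ∉ Q ∧ ‖x - p‖ < δ) ∨ ∃ ρ ∈ Q, |‖x‖ - ρ| < δ := by
    intro x hx
    rcases hcov x hx with ⟨p, hp, hxp⟩ | h
    · by_cases hpQ : ‖p‖ ∈ Q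
      · right
        refine ⟨‖p‖, hpQ, ?_⟩
        exact lt_of_le_of_lt (abs_norm_sub_norm_le x p) hxp
      · exact Or.inl ⟨p, hp, hpQ, hxp⟩
    · exact Or.inr h
  obtain ⟨x0, hx0⟩ := hγ.nonempty
  rcases hcov' x0 hx0 with ⟨p, hp, hpQ, hxp⟩ | ⟨ρ, hρ, hxρ⟩
  · left
    refine ⟨p, ?_⟩
    set V : Set ℂ := {x : ℂ | (∃ p' ∈ P, (‖p'‖ ∉ Q ∧ p' ≠ p) ∧ ‖x - p'‖ < δ) ∨
      ∃ ρ ∈ Q, True ∧ |‖x‖ - ρ| < δ} with hV
    have hVo : IsOpen V := nc_open_V P Q δ (fun p' => ‖p'‖ ∉ Q ∧ p' ≠ p) (fun _ => True)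
    have hdisj : Disjoint (Metric.ball p δ) V := by
      rw [Set.disjoint_left]
      rintro x hx (⟨p', hp', ⟨_, hne⟩, hx'⟩ | ⟨ρ, hρ, _, hx'⟩)
      · rw [mem_ball_iff_norm] at hx
        have h6 := h1 p' hp' p hp hne
        have h7 : ‖p' - p‖ ≤ ‖x - p'‖ + ‖x - p‖ := by
          calc ‖p' - p‖ = ‖(x - p) - (x - p')‖ := by congr 1; ring
            _ ≤ ‖x - p‖ + ‖x - p'‖ := norm_sub_le _ _
            _ = _ := add_comm _ _
        linarith
      · rw [mem_ball_iff_norm] at hx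
        have hne : ‖p‖ ≠ ρ := fun h => hpQ (h ▸ hρ)
        have h6 := h2 p hp ρ hρ hne
        have h7 : |‖p‖ - ρ| ≤ |‖p‖ - ‖x‖| + |‖x‖ - ρ| := abs_sub_le _ _ _
        have h8 : |‖p‖ - ‖x‖| ≤ ‖x - p‖ := by
          rw [norm_sub_rev]; exact abs_norm_sub_norm_le p x
        linarith
    have hsub : γ ⊆ Metric.ball p δ ∪ V := by
      intro x hx
      rcases hcov' x hx with ⟨p', hp', hpQ', hxp'⟩ | ⟨ρ, hρ, hxρ⟩
      · by_cases hpp : p' = p
        · left; rw [mem_ball_iff_norm, ← hpp]; exact hxp'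
        · right; exact Or.inl ⟨p', hp', ⟨hpQ', hpp⟩, hxp'⟩
      · right; exact Or.inr ⟨ρ, hρ, trivial, hxρ⟩
    have hres := IsPreconnected.subset_left_of_subset_union Metric.isOpen_ball hVo hdisj hsub
      ⟨x0, hx0, by rw [mem_ball_iff_norm]; exact hxp⟩ hγ.isPreconnected
    exact hres.trans (Metric.ball_subset_ball hδη)
  · right
    refine ⟨ρ, hρ, ?_⟩
    set V : Set ℂ := {x : ℂ | (∃ p' ∈ P, (‖p'‖ ∉ Q) ∧ ‖x - p'‖ < δ) ∨
      ∃ ρ' ∈ Q, ρ' ≠ ρ ∧ |‖x‖ - ρ'| < δ} with hV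
    have hVo : IsOpen V := nc_open_V P Q δ (fun p' => ‖p'‖ ∉ Q) (fun ρ' => ρ' ≠ ρ)
    have hdisj : Disjoint {x : ℂ | |‖x‖ - ρ| < δ} V := by
      rw [Set.disjoint_left]
      rintro x hx (⟨p, hp, hpQ, hx'⟩ | ⟨ρ', hρ', hne, hx'⟩)
      · have hx1 : |‖x‖ - ρ| < δ := hx
        have hne : ‖p‖ ≠ ρ := fun h => hpQ (h ▸ hρ)
        have h6 := h2 p hp ρ hρ hne
        have h7 : |‖p‖ - ρ| ≤ |‖p‖ - ‖x‖| + |‖x‖ - ρ| := abs_sub_le _ _ _
        have h8 : |‖p‖ - ‖x‖| ≤ ‖x - p‖ := by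
          rw [norm_sub_rev]; exact abs_norm_sub_norm_le p x
        linarith
      · have hx1 : |‖x‖ - ρ| < δ := hx
        have h6 := h3 ρ' hρ' ρ hρ hne
        have h7 : |ρ' - ρ| ≤ |ρ' - ‖x‖| + |‖x‖ - ρ| := abs_sub_le _ _ _
        rw [abs_sub_comm ρ' ‖x‖] at h7
        linarith
    have hsub : γ ⊆ {x : ℂ | |‖x‖ - ρ| < δ} ∪ V := by
      intro x hx
      rcases hcov' x hx with ⟨p', hp', hpQ', hxp'⟩ | ⟨ρ', hρ', hxρ'⟩
      · right; exact Or.inl ⟨p', hp', hpQ', hxp'⟩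
      · by_cases hpp : ρ' = ρ
        · left; rw [← hpp]; exact hxρ'
        · right; exact Or.inr ⟨ρ', hρ', hpp, hxρ'⟩
    have hres := IsPreconnected.subset_left_of_subset_union (nc_open_ann ρ δ) hVo hdisj hsub
      ⟨x0, hx0, hxρ⟩ hγ.isPreconnected
    intro x hx
    exact lt_of_lt_of_le (hres hx) hδη

theorem nc_conn (r : ℝ) (p : ℂ) : IsConnected {z : ℂ | r ≤ ‖z - p‖} := by
  have h1 : IsConnected (Set.Ici (max r 0) ×ˢ (Set.univ : Set Circle)) :=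
    isConnected_Ici.prod isConnected_univ
  have h2 := h1.image (fun q : ℝ × Circle => p + (q.1 : ℂ) * (q.2 : ℂ)) (by fun_prop)
  convert h2 using 1
  ext z
  simp only [Set.mem_image, Set.mem_prod, Set.mem_Ici, Set.mem_univ, and_true, Prod.exists,
    mem_ofPred_eq]
  constructor
  · intro hz
    by_cases hz0 : z - p = 0
    · refine ⟨0, 1, ?_, ?_⟩
      · rw [hz0, norm_zero] at hz
        exact max_le hz le_rfl
      · rw [sub_eq_zero] at hz0
        rw [hz0]; simp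
    · have hzn : (‖z - p‖ : ℂ) ≠ 0 := by
        have : ‖z - p‖ ≠ 0 := norm_ne_zero_iff.mpr hz0
        exact_mod_cast this
      refine ⟨‖z - p‖, ⟨(z - p) / ‖z - p‖, ?_⟩, max_le hz (norm_nonneg _), ?_⟩
      · refine mem_sphere_zero_iff_norm.2 ?_
        rw [norm_div, Complex.norm_real, norm_norm]
        exact div_self (by exact_mod_cast hzn)
      · change p + (‖z - p‖ : ℂ) * ((z - p) / ‖z - p‖) = z
        field_simp
        ring
  · rintro ⟨s, u, hs, rfl⟩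
    rw [add_sub_cancel_left, norm_mul, Circle.norm_coe, mul_one, Complex.norm_real, Real.norm_eq_abs]
    exact ((le_max_left _ _).trans hs).trans (le_abs_self s)

/-- TARGET 2 -/
theorem inside_small {γ : Set ℂ} {p : ℂ} {η : ℝ} (h : γ ⊆ Metric.ball p η) :
    inside γ ⊆ Metric.ball p η := by
  rintro x ⟨hxγ, hxb⟩
  by_contra hx
  rw [mem_ball_iff_norm, not_lt] at hx
  have h1 : {z : ℂ | η ≤ ‖z - p‖} ⊆ connectedComponentIn γᶜ x :=
    (nc_conn η p).isPreconnected.subset_connectedComponentIn hx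
      fun z hz hzγ => absurd (mem_ball_iff_norm.mp (h hzγ)) (not_lt.2 hz)
  have h2 : Bornology.IsBounded (Set.univ : Set ℂ) := by
    refine ((hxb.subset h1).union (Metric.isBounded_ball (x := p) (r := η))).subset fun z _ => ?_
    by_cases hz : η ≤ ‖z - p‖
    · exact Or.inl hz
    · right; rw [mem_ball_iff_norm]; exact not_le.1 hz
  exact NormedSpace.unbounded_univ ℝ ℂ h2

/-- TARGET 3 -/
theorem inside_annulus {γ : Set ℂ} {ρ η : ℝ} (hη : 0 < η) (hρ : η < ρ)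
    (h : ∀ x ∈ γ, |‖x‖ - ρ| < η) (harea : 4 * Real.pi * ρ * η < volume.real (inside γ))
    (hγ : IsCompact γ) :
    inside γ ⊆ Metric.ball 0 (ρ + η) ∧ Metric.ball 0 (ρ - η) ⊆ inside γ := by
  have h0 : γ ⊆ Metric.ball 0 (ρ + η) := by
    intro x hx
    rw [mem_ball_zero_iff]
    have := (abs_lt.mp (h x hx)).2
    linarith
  have h1 := inside_small h0
  refine ⟨h1, ?_⟩
  have hB : Metric.ball (0 : ℂ) (ρ - η) ⊆ γᶜ := by
    intro x hx hxγ
    rw [mem_ball_zero_iff] at hx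
    have := (abs_lt.mp (h x hxγ)).1
    linarith
  by_cases hex : ∃ y ∈ Metric.ball (0 : ℂ) (ρ - η), y ∈ inside γ
  · obtain ⟨y, hyB, hyi⟩ := hex
    intro z hz
    apply mem_inside_of_mem hyi
    exact (convex_ball (0 : ℂ) (ρ - η)).isPreconnected.subset_connectedComponentIn hyB hB hz
  · exfalso
    have h2 : inside γ ⊆ Metric.ball (0 : ℂ) (ρ + η) \ Metric.ball (0 : ℂ) (ρ - η) := by
      intro x hx
      exact ⟨h1 hx, fun hxB => hex ⟨x, hxB, hx⟩⟩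
    have hfin : volume (Metric.ball (0 : ℂ) (ρ + η)) ≠ ⊤ := measure_ball_lt_top.ne
    have h3 : volume.real (inside γ) ≤
        volume.real (Metric.ball (0 : ℂ) (ρ + η) \ Metric.ball (0 : ℂ) (ρ - η)) := by
      exact measureReal_mono h2 (ne_top_of_le_ne_top hfin (measure_mono sdiff_subset))
    have h4 : volume.real (Metric.ball (0 : ℂ) (ρ + η) \ Metric.ball (0 : ℂ) (ρ - η)) =
        volume.real (Metric.ball (0 : ℂ) (ρ + η)) - volume.real (Metric.ball (0 : ℂ) (ρ - η)) := by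
      apply measureReal_sdiff (Metric.ball_subset_ball (by linarith)) measurableSet_ball
    have h5 : ∀ r : ℝ, 0 ≤ r → volume.real (Metric.ball (0 : ℂ) r) = Real.pi * r ^ 2 := by
      intro r hr
      rw [Measure.real, Complex.volume_ball, ENNReal.toReal_mul, ENNReal.toReal_pow,
        ENNReal.toReal_ofReal hr]
      simp [mul_comm]
    rw [h4, h5 _ (by linarith), h5 _ (by linarith)] at h3
    nlinarith [Real.pi_pos]

/-- TARGET 4 -/
theorem scc_aff {R : Set ℂ} (hR : SimpleClosedCurve R) (q : ℂ) {a : ℝ} (ha : 0 < a) :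
    SimpleClosedCurve ((fun x : ℂ => q + a * x) ⁻¹' R) := by
  obtain ⟨f, hf, hi, hr⟩ := hR
  have ha' : (a : ℂ) ≠ 0 := by exact_mod_cast ha.ne'
  refine ⟨fun x => (f x - q) / a, by fun_prop, ?_, ?_⟩
  · intro x y hxy
    simp only at hxy
    rw [div_left_inj' ha'] at hxy
    exact hi (sub_left_injective hxy)
  · ext z
    simp only [mem_range, mem_preimage, ← hr]
    constructor
    · rintro ⟨y, rfl⟩
      exact ⟨y, by field_simp; ring⟩
    · rintro ⟨y, hy⟩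
      exact ⟨y, by rw [hy]; field_simp; ring⟩

/-- TARGET 5 -/
theorem inside_aff (R : Set ℂ) (q : ℂ) {a : ℝ} (ha : 0 < a) :
    inside ((fun x : ℂ => q + a * x) ⁻¹' R) = (fun x : ℂ => q + a * x) ⁻¹' inside R := by
  have ha' : (a : ℂ) ≠ 0 := by exact_mod_cast ha.ne'
  let H : ℂ ≃ₜ ℂ :=
    { toFun := fun x => q + a * x
      invFun := fun x => (x - q) / a
      left_inv := fun x => by simp only; field_simp; ring
      right_inv := fun x => by simp only; field_simp; ring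
      continuous_toFun := by fun_prop
      continuous_invFun := by fun_prop }
  have hH : ∀ x, H x = q + a * x := fun x => rfl
  have hHs : ∀ x, H.symm x = (x - q) / a := fun x => rfl
  have hbd : ∀ s : Set ℂ, Bornology.IsBounded (H '' s) ↔ Bornology.IsBounded s := by
    intro s
    constructor
    · intro hs
      obtain ⟨C, hC⟩ := hs.exists_norm_le
      rw [isBounded_iff_forall_norm_le]
      refine ⟨(C + ‖q‖) / a, fun x hx => ?_⟩
      have h1 := hC (H x) ⟨x, hx, rfl⟩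
      rw [hH] at h1
      have h2 : ‖(a : ℂ) * x‖ ≤ C + ‖q‖ := by
        calc ‖(a : ℂ) * x‖ = ‖(q + a * x) - q‖ := by congr 1; ring
          _ ≤ ‖q + a * x‖ + ‖q‖ := norm_sub_le _ _
          _ ≤ _ := by linarith
      rw [norm_mul, Complex.norm_real, Real.norm_of_nonneg ha.le] at h2
      rw [le_div_iff₀ ha]
      linarith
    · intro hs
      obtain ⟨C, hC⟩ := hs.exists_norm_le
      rw [isBounded_iff_forall_norm_le]
      refine ⟨‖q‖ + a * C, ?_⟩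
      rintro _ ⟨x, hx, rfl⟩
      rw [hH]
      refine (norm_add_le _ _).trans ?_
      rw [norm_mul, Complex.norm_real, Real.norm_of_nonneg ha.le]
      have := mul_le_mul_of_nonneg_left (hC x hx) ha.le
      linarith
  have hcompl : H '' ((fun x : ℂ => q + a * x) ⁻¹' R)ᶜ = Rᶜ := by
    ext z
    simp only [mem_image, mem_compl_iff, mem_preimage]
    constructor
    · rintro ⟨x, hx, rfl⟩
      exact hx
    · intro hz
      refine ⟨H.symm z, ?_, H.apply_symm_apply z⟩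
      have : q + a * H.symm z = z := H.apply_symm_apply z
      rw [this]; exact hz
  ext x
  simp only [inside, mem_ofPred_eq, mem_preimage]
  constructor
  · rintro ⟨h1, h2⟩
    refine ⟨h1, ?_⟩
    have h3 := H.image_connectedComponentIn (s := ((fun x : ℂ => q + a * x) ⁻¹' R)ᶜ) (x := x) h1
    rw [hcompl, hH] at h3
    rw [← h3, hbd]
    exact h2
  · rintro ⟨h1, h2⟩
    refine ⟨h1, ?_⟩
    have h3 := H.image_connectedComponentIn (s := ((fun x : ℂ => q + a * x) ⁻¹' R)ᶜ) (x := x) h1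
    rw [hcompl, hH] at h3
    rw [← h3, hbd] at h2
    exact h2

end Pool.Agent.Helper327_Drum
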