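import Pool.Agent.Helper327_Drum.Fin.M4
import Pool.Agent.Helper327_Drum.Fin.I2
import Pool.Agent.Helper327_Drum.Fin.F1
import Pool.Agent.R227.SA17

set_option autoImplicit false
open MeasureTheory Set Filter Topology ComplexConjugate
open scoped ContDiff InnerProductSpace

namespace Pool.Agent.Helper327_Drum

open Pool.Agent.TH298.Sch (dd SC)
open Pool.Agent.R227.SA (la Wat Dat)

theorem n1_c2 {Ω : Set ℂ} {lam c : ℝ} {v : ℂ → ℝ} (D : Dat Ω lam c v) : ContDiffOn ℝ 2 v Ω := by
  intro x hx
  obtain ⟨r, hr, U, hU, hb, hl⟩ := D.loc x hx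
  have h1 : ContDiffAt ℝ 2 (fun y => U y - c) x :=
    (hU.sm.contDiffAt.of_le (WithTop.coe_le_coe.mpr (le_top : (2:ℕ∞) ≤ ⊤))).sub contDiffAt_const
  refine (h1.congr_of_eventuallyEq ?_).contDiffWithinAt
  filter_upwards [Metric.ball_mem_nhds x hr] with y hy
  linarith [(hl y hy).1]

theorem n1_la {Ω : Set ℂ} {lam c : ℝ} {v : ℂ → ℝ} (D : Dat Ω lam c v) {x : ℂ} (hx : x ∈ Ω) :
    la v x = -(lam * (v x + c)) := by
  obtain ⟨r, hr, U, hU, hb, hl⟩ := D.loc x hx
  have h1 : v =ᶠ[𝓝 x] fun y => U y - c := by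
    filter_upwards [Metric.ball_mem_nhds x hr] with y hy
    linarith [(hl y hy).1]
  have h2 : la v x = la (fun y => U y - c) x := J507.la_congr h1
  have h3 : ∀ w, dd w (fun y => U y - c) = dd w U := by
    intro w
    funext y
    unfold dd
    rw [fderiv_sub_const]
  have h4 : la (fun y => U y - c) x = la U x := by unfold la; rw [h3, h3]
  have hx' := hl x (Metric.mem_ball_self hr)
  rw [h2, h4, hx'.2, ← hx'.1]

/-- TARGET 1: Green's identity for the solution extended by zero. -/
theorem dat_green {Ω : Set ℂ} {lam c : ℝ} {v : ℂ → ℝ} (D : Dat Ω lam c v) (ho : IsOpen Ω)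
    (hb : Bornology.IsBounded Ω) {φ : ℂ → ℝ} (hφ : SC φ) :
    ∫ x, v x * (la φ x + lam * φ x) = -(lam * c * ∫ x in Ω, φ x) := by
  have hv2 := n1_c2 D
  have hvc : Continuous v := D.c1.continuous
  have hvs : HasCompactSupport v := HasCompactSupport.intro hb.isCompact_closure
    (fun x hx => D.out x (fun h => hx (subset_closure h)))
  have hdc : ∀ h : ℂ, Continuous (dd h v) := fun h =>
    (D.c1.continuous_fderiv (by simp)).clm_apply continuous_const
  have hd0 : ∀ h x, x ∉ Ω → dd h v x = 0 := by
    intro h x hx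
    unfold dd
    rw [D.outd x hx]
    rfl
  have hds : ∀ h, HasCompactSupport (dd h v) := fun h =>
    HasCompactSupport.intro hb.isCompact_closure
      (fun x hx => hd0 h x (fun h' => hx (subset_closure h')))
  set k : ℂ → ℝ := fun x => -(lam * (v x + c)) with hk
  have hk1 : ContDiffOn ℝ 1 k Ω :=
    (contDiffOn_const.mul ((hv2.of_le (by norm_num)).add contDiffOn_const)).neg
  have hla : ∀ x ∈ Ω, la v x = k x := fun x hx => n1_la D hx
  have hdk : ∀ h x, dd h k x = -(lam * dd h v x) := by
    intro h x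
    have hvd : DifferentiableAt ℝ v x := D.c1.differentiable (by simp) x
    have e : k = fun y => (-lam) * (v y + c) := by
      funext y
      simp only [hk]
      ring
    unfold dd
    rw [e, fderiv_const_mul (hvd.add_const c), fderiv_add_const]
    show (-lam) * fderiv ℝ v x h = _
    ring
  -- the derivatives
  have hder : ∀ h : ℂ, ∃ G : V Ω, G.1 0 =ᵐ[volume] dd h v ∧
      G.1 1 =ᵐ[volume] Ω.indicator (dd 1 (dd h v)) ∧
      G.1 2 =ᵐ[volume] Ω.indicator (dd Complex.I (dd h v)) := by
    intro h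
    obtain ⟨M, hM⟩ := (hds h).exists_bound_of_continuous (hdc h)
    have c4 : Measurable (Ω.indicator (dd h k)) :=
      (measurable_fderiv_apply_const ℝ k h).indicator ho.measurableSet
    have c6 : ∀ x, |Ω.indicator (dd h k) x| ≤ |lam| * M := by
      intro x
      have hMx := hM x
      rw [Real.norm_eq_abs] at hMx
      by_cases hx : x ∈ Ω
      · rw [indicator_of_mem hx, hdk, abs_neg, abs_mul]
        exact mul_le_mul_of_nonneg_left hMx (abs_nonneg _)
      · rw [indicator_of_notMem hx, abs_zero]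
        exact mul_nonneg (abs_nonneg _) ((abs_nonneg _).trans hMx)
    obtain ⟨G, G0, G1, G2, -, -⟩ := mem_V ho hb (hdc h) (hd0 h) (m4_smooth_dd ho hv2 h) c4
      (fun x hx => indicator_of_notMem hx _) c6
      (fun ψ hψ hψD => weak_of_deriv ho hv2 hk1 hla h hψ hψD)
    exact ⟨G, G0, G1, G2⟩
  obtain ⟨G, G0, G1, -⟩ := hder 1
  obtain ⟨H, H0, -, H2⟩ := hder Complex.I
  have hd1 : ∀ h, SC (dd h φ) := fun h => Pool.Agent.TH298.Sch.dd_sc hφ h
  have hd2 : ∀ h h', SC (dd h (dd h' φ)) := fun h h' => Pool.Agent.TH298.Sch.dd_sc (hd1 h') h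
  have p3 := (V_ibp G hφ).1
  have p4 := (V_ibp H hφ).2
  have q : ∀ {a b : ℂ → ℝ} (ψ : ℂ → ℝ), a =ᵐ[volume] b → ∫ x, a x * ψ x = ∫ x, b x * ψ x := by
    intro a b ψ hab
    refine integral_congr_ae ?_
    filter_upwards [hab] with x hx
    rw [hx]
  rw [q _ G0, q _ G1] at p3
  rw [q _ H0, q _ H2] at p4
  have p1 : ∀ h, ∫ x, v x * dd h (dd h φ) x = - ∫ x, dd h v x * dd h φ x := by
    intro h
    have i1 : Integrable (fun x => fderiv ℝ v x h * dd h φ x) :=
      ((hdc h).mul (hd1 h).cont).integrable_of_hasCompactSupport (hd1 h).cs.mul_left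
    have i2 : Integrable (fun x => v x * fderiv ℝ (dd h φ) x h) :=
      (hvc.mul (hd2 h h).cont).integrable_of_hasCompactSupport (hd2 h h).cs.mul_left
    have i3 : Integrable (fun x => v x * dd h φ x) :=
      (hvc.mul (hd1 h).cont).integrable_of_hasCompactSupport (hd1 h).cs.mul_left
    exact integral_mul_fderiv_eq_neg_fderiv_mul_of_integrable (f := v) (g := dd h φ) (v := h)
      i1 i2 i3 (fun x _ => D.c1.differentiable (by simp) x) (fun x _ => (hd1 h).diff x)
  have i1 : ∀ h, Integrable (fun x => v x * dd h (dd h φ) x) := fun h =>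
    (hvc.mul (hd2 h h).cont).integrable_of_hasCompactSupport (hd2 h h).cs.mul_left
  have i0 : Integrable (fun x => v x * φ x) :=
    (hvc.mul hφ.cont).integrable_of_hasCompactSupport hφ.cs.mul_left
  have e1 : ∫ x, v x * (la φ x + lam * φ x) = (∫ x, v x * dd 1 (dd 1 φ) x) +
      (∫ x, v x * dd Complex.I (dd Complex.I φ) x) + lam * ∫ x, v x * φ x := by
    have i12 : Integrable (fun x => v x * dd 1 (dd 1 φ) x +
        v x * dd Complex.I (dd Complex.I φ) x) := (i1 1).add (i1 Complex.I)
    rw [← integral_const_mul, ← integral_add (i1 1) (i1 Complex.I),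
      ← integral_add i12 (i0.const_mul lam)]
    refine integral_congr_ae (Eventually.of_forall fun x => ?_)
    simp only [la]
    ring
  have jm : ∀ u : L2, Integrable (fun x => u x * φ x) := by
    intro u
    exact (Lp.memLp u).integrable_mul (m4_memLp hφ)
  have j1 : Integrable (fun x => Ω.indicator (dd 1 (dd 1 v)) x * φ x) := by
    refine (jm (G.1 1)).congr ?_
    filter_upwards [G1] with x hx
    rw [hx]
  have j2 : Integrable (fun x => Ω.indicator (dd Complex.I (dd Complex.I v)) x * φ x) := by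
    refine (jm (H.1 2)).congr ?_
    filter_upwards [H2] with x hx
    rw [hx]
  have hφi : Integrable φ := hφ.cont.integrable_of_hasCompactSupport hφ.cs
  have e2 : (∫ x, Ω.indicator (dd 1 (dd 1 v)) x * φ x) +
      ∫ x, Ω.indicator (dd Complex.I (dd Complex.I v)) x * φ x =
      -(lam * ∫ x, v x * φ x) - lam * c * ∫ x in Ω, φ x := by
    have k1 : Integrable (fun x => -(lam * (v x * φ x))) := (i0.const_mul lam).neg
    have k2 : Integrable (fun x => lam * c * Ω.indicator φ x) :=
      (hφi.indicator ho.measurableSet).const_mul _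
    rw [← integral_add j1 j2, ← integral_indicator ho.measurableSet, ← integral_const_mul,
      ← integral_const_mul, ← integral_neg, ← integral_sub k1 k2]
    refine integral_congr_ae (Eventually.of_forall fun x => ?_)
    by_cases hx : x ∈ Ω
    · simp only [indicator_of_mem hx]
      have := hla x hx
      simp only [la, hk] at this
      rw [← add_mul, this]
      ring
    · simp only [indicator_of_notMem hx, D.out x hx]
      ring
  rw [e1, p1 1, p1 Complex.I]
  linarith

/-- TARGET 2: uniqueness. -/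
theorem dat_unique {Ω : Set ℂ} {lam c : ℝ} {v v' : ℂ → ℝ} (D : Dat Ω lam c v) (D' : Dat Ω lam c v')
    (ho : IsOpen Ω) (hb : Bornology.IsBounded Ω) (hlam : 0 < lam) : v = v' := by
  have hvc : Continuous v := D.c1.continuous
  have hvc' : Continuous v' := D'.c1.continuous
  have hw : ∀ φ : ℂ → ℝ, SC φ → tsupport φ ⊆ univ →
      ∫ x, (v x - v' x) * (la φ x + lam * φ x) = 0 := by
    intro φ hφ _
    have hd1 : ∀ h, SC (dd h φ) := fun h => Pool.Agent.TH298.Sch.dd_sc hφ h
    have hd2 : ∀ h h', SC (dd h (dd h' φ)) := fun h h' => Pool.Agent.TH298.Sch.dd_sc (hd1 h') h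
    have i1 : ∀ w : ℂ → ℝ, Continuous w → Integrable (fun x => w x * (la φ x + lam * φ x)) := by
      intro w hw
      have a1 : Integrable (fun x => w x * dd 1 (dd 1 φ) x) :=
        (hw.mul (hd2 1 1).cont).integrable_of_hasCompactSupport (hd2 1 1).cs.mul_left
      have a2 : Integrable (fun x => w x * dd Complex.I (dd Complex.I φ) x) :=
        (hw.mul (hd2 _ _).cont).integrable_of_hasCompactSupport (hd2 _ _).cs.mul_left
      have a3 : Integrable (fun x => w x * φ x) :=
        (hw.mul hφ.cont).integrable_of_hasCompactSupport hφ.cs.mul_left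
      refine ((a1.add a2).add (a3.const_mul lam)).congr (Eventually.of_forall fun x => ?_)
      simp only [la, Pi.add_apply]
      ring
    simp only [sub_mul]
    rw [integral_sub (i1 v hvc) (i1 v' hvc'), dat_green D ho hb hφ, dat_green D' ho hb hφ, sub_self]
  have hL : LocH univ lam (fun x => v x - v' x) := reg isOpen_univ hlam (hvc.sub hvc') hw
  obtain ⟨R, hR⟩ := hb.subset_closedBall (0 : ℂ)
  have hfar : (fun x => v x - v' x) =ᶠ[𝓝 ((|R| + 2 : ℝ) : ℂ)] 0 := by
    filter_upwards [Metric.ball_mem_nhds ((|R| + 2 : ℝ) : ℂ) one_pos] with y hy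
    have hy' : y ∉ Ω := by
      intro h
      have h1 := hR h
      rw [mem_closedBall_zero_iff] at h1
      rw [Metric.mem_ball, dist_comm, dist_eq_norm] at hy
      have h2 : ‖((|R| + 2 : ℝ) : ℂ)‖ = |R| + 2 := by
        rw [Complex.norm_real, Real.norm_of_nonneg (by positivity)]
      have h3 := norm_sub_norm_le ((|R| + 2 : ℝ) : ℂ) y
      have h4 := le_abs_self R
      linarith
    simp only [D.out y hy', D'.out y hy', sub_self, Pi.zero_apply]
  have := uc_loc hL hlam isPreconnected_univ (mem_univ _) hfar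
  funext x
  have h := this x (mem_univ x)
  linarith

end Pool.Agent.Helper327_Drum
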