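import Pool.Agent.Helper327_Drum.Fin.AS2
import Pool.Agent.Helper327_Drum.Fin.N1
import Pool.Agent.Helper327_Drum.Fin.E0
import Pool.Agent.Helper327_Drum.BDefs

/-
JOB NC5 (owner helper327, problem MP_d92c84_an). All imports are on origin/main.
-/

set_option autoImplicit false
open MeasureTheory Set Filter Topology ComplexConjugate
open scoped ContDiff InnerProductSpace

namespace Pool.Agent.Helper327_Drum

open Pool.Agent.TH298.Sch (dd SC Sol)
open Pool.Agent.R227.SA (la Wat Dat)

/-
`Sol Ω lam c u G` (TH298/Sch/Moll.lean): u, G ∈ L²(Ω), ∫_Ω (u - c) fderiv φ x v = -∫_Ω ⟪G x, v⟫ φ and ∫_Ω fderiv φ x (G x) = lam ∫_Ω u φ for all C¹ functions φ with compact support on the plane.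
`Dat Ω lam c v` (R227/SA9.lean): v ∈ C¹(ℂ), v and fderiv v vanish off Ω, v + c is locally in Ω a smooth solution of the Helmholtz equation.
Plain proof. G x = dd 1 v x + dd I v x * I, so that ⟪G x, w⟫ = fderiv v x w and fderiv φ x (G x) = dd 1 φ x dd 1 v x + dd I φ x dd I v x. v is C¹ with compact support, so u = v + c and G are
bounded and continuous. First equation: ∫ v fderiv φ x w = -∫ fderiv v x w φ (integration by parts on the plane, `Pool.Agent.R227.SA.int_c1`), and v, fderiv v vanish off Ω.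
Second equation for φ SC: ∫ ∇φ·∇v = -∫ v la φ = lam ∫ v φ + lam c ∫_Ω φ (`dat_green`, Fin/N1.lean) = lam ∫_Ω (v + c) φ. For φ of class C¹ with compact support approximate by SC functions
(`approx_sc` with D = univ, Fin/E0.lean; uniformly with gradients, L² estimates given there).
Not zero: if v + c = 0 almost everywhere on Ω, then by continuity v = -c on Ω, hence on closure Ω; Ω is nonempty, bounded, so it has a frontier point, where v = 0: c = 0.
-/

theorem dat_sol_green {v φ : ℂ → ℝ} (hv : ContDiff ℝ 1 v) (hvs : HasCompactSupport v)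
    (hφ : ContDiff ℝ 1 φ) (h : ℂ) :
    ∫ x, v x * fderiv ℝ φ x h = - ∫ x, fderiv ℝ v x h * φ x := by
  have hd : Continuous (fun x => fderiv ℝ v x h) := (hv.continuous_fderiv (by simp)).clm_apply continuous_const
  have hd' : Continuous (fun x => fderiv ℝ φ x h) := (hφ.continuous_fderiv (by simp)).clm_apply continuous_const
  have hds : HasCompactSupport (fun x => fderiv ℝ v x h) :=
    (hvs.fderiv ℝ).comp_left (g := fun T : ℂ →L[ℝ] ℝ => T h) (by simp)
  have i1 : Integrable (fun x => fderiv ℝ v x h * φ x) :=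
    (hd.mul hφ.continuous).integrable_of_hasCompactSupport hds.mul_right
  have i2 : Integrable (fun x => v x * fderiv ℝ φ x h) :=
    (hv.continuous.mul hd').integrable_of_hasCompactSupport hvs.mul_right
  have i3 : Integrable (fun x => v x * φ x) :=
    (hv.continuous.mul hφ.continuous).integrable_of_hasCompactSupport hvs.mul_right
  exact integral_mul_fderiv_eq_neg_fderiv_mul_of_integrable (f := v) (g := φ) (v := h)
    i1 i2 i3 (fun x _ => hv.differentiable (by simp) x) (fun x _ => hφ.differentiable (by simp) x)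

/-- the gradient as a complex function -/
noncomputable def dat_sol_G (v : ℂ → ℝ) (x : ℂ) : ℂ := (dd 1 v x : ℂ) + (dd Complex.I v x : ℂ) * Complex.I

theorem dat_sol_G_inner (v : ℂ → ℝ) (x w : ℂ) : inner ℝ (dat_sol_G v x) w = fderiv ℝ v x w := by
  rw [Pool.Agent.TH298.Sch.lin_val (fderiv ℝ v x) w, Complex.inner]
  unfold dat_sol_G dd
  simp
  try ring

theorem dat_sol_G_fderiv (v φ : ℂ → ℝ) (x : ℂ) :
    fderiv ℝ φ x (dat_sol_G v x) = dd 1 v x * dd 1 φ x + dd Complex.I v x * dd Complex.I φ x := by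
  rw [Pool.Agent.TH298.Sch.lin_val (fderiv ℝ φ x) (dat_sol_G v x)]
  unfold dat_sol_G dd
  simp

theorem dat_sol_h2 {Ω : Set ℂ} {lam c : ℝ} {v : ℂ → ℝ} (D : Dat Ω lam c v) (ho : IsOpen Ω)
    (hb : Bornology.IsBounded Ω) {φ : ℂ → ℝ} (hφ : SC φ) :
    ∫ x in Ω, fderiv ℝ φ x (dat_sol_G v x) = lam * ∫ x in Ω, (v x + c) * φ x := by
  have hvc : Continuous v := D.c1.continuous
  have hvs : HasCompactSupport v := HasCompactSupport.intro hb.isCompact_closure
    (fun x hx => D.out x (fun h => hx (subset_closure h)))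
  have hdc : ∀ h : ℂ, Continuous (dd h v) := fun h =>
    (D.c1.continuous_fderiv (by simp)).clm_apply continuous_const
  have hd0 : ∀ h x, x ∉ Ω → dd h v x = 0 := by
    intro h x hx
    unfold dd
    rw [D.outd x hx]
    rfl
  have hd1 : ∀ h, SC (dd h φ) := fun h => Pool.Agent.TH298.Sch.dd_sc hφ h
  have hd2 : ∀ h h', SC (dd h (dd h' φ)) := fun h h' => Pool.Agent.TH298.Sch.dd_sc (hd1 h') h
  have p1 : ∀ h, ∫ x, v x * dd h (dd h φ) x = - ∫ x, dd h v x * dd h φ x := fun h =>
    dat_sol_green D.c1 hvs ((hd1 h).sm.of_le (by simp)) h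
  have i1 : ∀ h, Integrable (fun x => v x * dd h (dd h φ) x) := fun h =>
    (hvc.mul (hd2 h h).cont).integrable_of_hasCompactSupport (hd2 h h).cs.mul_left
  have i0 : Integrable (fun x => v x * φ x) :=
    (hvc.mul hφ.cont).integrable_of_hasCompactSupport hφ.cs.mul_left
  have i2 : ∀ h, Integrable (fun x => dd h v x * dd h φ x) := fun h =>
    ((hdc h).mul (hd1 h).cont).integrable_of_hasCompactSupport (hd1 h).cs.mul_left
  have e1 : ∫ x, v x * (la φ x + lam * φ x) = (∫ x, v x * dd 1 (dd 1 φ) x) +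
      (∫ x, v x * dd Complex.I (dd Complex.I φ) x) + lam * ∫ x, v x * φ x := by
    have i12 : Integrable (fun x => v x * dd 1 (dd 1 φ) x +
        v x * dd Complex.I (dd Complex.I φ) x) := (i1 1).add (i1 Complex.I)
    rw [← integral_const_mul, ← integral_add (i1 1) (i1 Complex.I),
      ← integral_add i12 (i0.const_mul lam)]
    refine integral_congr_ae (Eventually.of_forall fun x => ?_)
    simp only [la]
    ring
  have g := dat_green D ho hb hφ
  rw [e1, p1, p1] at g
  have e2 : ∫ x in Ω, fderiv ℝ φ x (dat_sol_G v x) =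
      (∫ x, dd 1 v x * dd 1 φ x) + ∫ x, dd Complex.I v x * dd Complex.I φ x := by
    rw [setIntegral_eq_integral_of_forall_compl_eq_zero, ← integral_add (i2 1) (i2 Complex.I)]
    · exact integral_congr_ae (Eventually.of_forall fun x => dat_sol_G_fderiv v φ x)
    · intro x hx
      rw [dat_sol_G_fderiv, hd0 1 x hx, hd0 Complex.I x hx]
      ring
  have e3 : ∫ x in Ω, (v x + c) * φ x = (∫ x, v x * φ x) + c * ∫ x in Ω, φ x := by
    have j1 : ∫ x in Ω, v x * φ x = ∫ x, v x * φ x :=
      setIntegral_eq_integral_of_forall_compl_eq_zero fun x hx => by rw [D.out x hx, zero_mul]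
    rw [← j1, ← integral_const_mul, ← integral_add i0.integrableOn (hφ.int.integrableOn.const_mul c)]
    refine integral_congr_ae (Eventually.of_forall fun x => ?_)
    simp only
    ring
  rw [e2, e3]
  linarith

theorem dat_sol_h2' {Ω : Set ℂ} {lam c : ℝ} {v : ℂ → ℝ} (D : Dat Ω lam c v) (ho : IsOpen Ω)
    (hb : Bornology.IsBounded Ω) {φ : ℂ → ℝ} (hφ : ContDiff ℝ 1 φ) (hφc : HasCompactSupport φ) :
    ∫ x in Ω, fderiv ℝ φ x (dat_sol_G v x) = lam * ∫ x in Ω, (v x + c) * φ x := by
  have hvc : Continuous v := D.c1.continuous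
  have hfin : volume Ω < ⊤ := hb.measure_lt_top
  have hdc : ∀ h : ℂ, Continuous (dd h v) := fun h =>
    (D.c1.continuous_fderiv (by simp)).clm_apply continuous_const
  -- continuous functions are integrable on the bounded set
  have hint : ∀ f : ℂ → ℝ, Continuous f → Integrable f (volume.restrict Ω) := fun f hf =>
    (hf.continuousOn.integrableOn_compact hb.isCompact_closure).mono_set subset_closure
  have hGc : ∀ ψ : ℂ → ℝ, ContDiff ℝ 1 ψ → Continuous (fun x => fderiv ℝ ψ x (dat_sol_G v x)) := by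
    intro ψ hψ
    have h1 : ∀ h : ℂ, Continuous (dd h ψ) := fun h =>
      (hψ.continuous_fderiv (by simp)).clm_apply continuous_const
    have h2 : (fun x => fderiv ℝ ψ x (dat_sol_G v x)) =
      fun x => dd 1 v x * dd 1 ψ x + dd Complex.I v x * dd Complex.I ψ x := by
      funext x; exact dat_sol_G_fderiv v ψ x
    rw [h2]
    exact ((hdc 1).mul (h1 1)).add ((hdc Complex.I).mul (h1 Complex.I))
  set C1 : ℝ := ∫ x in Ω, (|dd 1 v x| + |dd Complex.I v x|) with hC1
  set C2 : ℝ := ∫ x in Ω, |v x + c| with hC2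
  have hC1i := hint _ ((hdc 1).abs.add (hdc Complex.I).abs)
  have hC2i := hint _ ((hvc.add (continuous_const (y := c))).abs)
  have key : ∀ ε : ℝ, 0 < ε → |(∫ x in Ω, fderiv ℝ φ x (dat_sol_G v x)) - lam * ∫ x in Ω, (v x + c) * φ x| ≤
      ε * (C1 + |lam| * C2) := by
    intro ε hε
    obtain ⟨ψ, hψ, -, h1, h2, -⟩ := approx_sc isOpen_univ ⟨hφ, hφc, subset_univ _⟩ hε
    have h3 := dat_sol_h2 D ho hb hψ
    have hψ1 : ContDiff ℝ 1 ψ := hψ.sm.of_le (by simp)
    have a1 : |(∫ x in Ω, fderiv ℝ φ x (dat_sol_G v x)) - ∫ x in Ω, fderiv ℝ ψ x (dat_sol_G v x)| ≤ ε * C1 := by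
      rw [← integral_sub (hint _ (hGc φ hφ)) (hint _ (hGc ψ hψ1)), ← Real.norm_eq_abs, hC1, ← integral_const_mul]
      refine norm_integral_le_of_norm_le (hC1i.const_mul ε) (Eventually.of_forall fun x => ?_)
      rw [dat_sol_G_fderiv, dat_sol_G_fderiv, Real.norm_eq_abs]
      have b1 := h2 1 x
      have b2 := h2 Complex.I x
      rw [norm_one, mul_one] at b1
      rw [Complex.norm_I, mul_one] at b2
      calc |dd 1 v x * dd 1 φ x + dd Complex.I v x * dd Complex.I φ x -
            (dd 1 v x * dd 1 ψ x + dd Complex.I v x * dd Complex.I ψ x)|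
          = |dd 1 v x * (dd 1 φ x - dd 1 ψ x) + dd Complex.I v x * (dd Complex.I φ x - dd Complex.I ψ x)| := by
            congr 1; ring
        _ ≤ |dd 1 v x| * |dd 1 φ x - dd 1 ψ x| + |dd Complex.I v x| * |dd Complex.I φ x - dd Complex.I ψ x| := by
            rw [← abs_mul, ← abs_mul]; exact abs_add_le _ _
        _ ≤ |dd 1 v x| * ε + |dd Complex.I v x| * ε :=
            add_le_add (mul_le_mul_of_nonneg_left b1 (abs_nonneg _)) (mul_le_mul_of_nonneg_left b2 (abs_nonneg _))
        _ = ε * (|dd 1 v x| + |dd Complex.I v x|) := by ring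
    have a2 : |(∫ x in Ω, (v x + c) * φ x) - ∫ x in Ω, (v x + c) * ψ x| ≤ ε * C2 := by
      have m1 : Integrable (fun x => (v x + c) * φ x) (volume.restrict Ω) :=
        hint _ ((hvc.add (continuous_const (y := c))).mul hφ.continuous)
      have m2 : Integrable (fun x => (v x + c) * ψ x) (volume.restrict Ω) :=
        hint _ ((hvc.add (continuous_const (y := c))).mul hψ.cont)
      rw [← integral_sub m1 m2, ← Real.norm_eq_abs, hC2, ← integral_const_mul]
      refine norm_integral_le_of_norm_le (hC2i.const_mul ε) (Eventually.of_forall fun x => ?_)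
      rw [Real.norm_eq_abs, ← mul_sub, abs_mul, mul_comm]
      exact mul_le_mul_of_nonneg_right (h1 x) (abs_nonneg _)
    calc |(∫ x in Ω, fderiv ℝ φ x (dat_sol_G v x)) - lam * ∫ x in Ω, (v x + c) * φ x|
        = |((∫ x in Ω, fderiv ℝ φ x (dat_sol_G v x)) - ∫ x in Ω, fderiv ℝ ψ x (dat_sol_G v x)) -
            lam * ((∫ x in Ω, (v x + c) * φ x) - ∫ x in Ω, (v x + c) * ψ x)| := by
          rw [h3]; congr 1; ring
      _ ≤ |(∫ x in Ω, fderiv ℝ φ x (dat_sol_G v x)) - ∫ x in Ω, fderiv ℝ ψ x (dat_sol_G v x)| +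
            |lam * ((∫ x in Ω, (v x + c) * φ x) - ∫ x in Ω, (v x + c) * ψ x)| := abs_sub _ _
      _ ≤ ε * C1 + |lam| * (ε * C2) := by
          rw [abs_mul]
          exact add_le_add a1 (mul_le_mul_of_nonneg_left a2 (abs_nonneg _))
      _ = ε * (C1 + |lam| * C2) := by ring
  have hK : 0 ≤ C1 + |lam| * C2 := by
    have := (abs_nonneg _).trans (key 1 one_pos)
    linarith
  have h0 : |(∫ x in Ω, fderiv ℝ φ x (dat_sol_G v x)) - lam * ∫ x in Ω, (v x + c) * φ x| ≤ 0 := by
    refine le_of_forall_pos_le_add fun ε hε => ?_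
    have h1 := key (ε / (C1 + |lam| * C2 + 1)) (by positivity)
    refine h1.trans ?_
    rw [zero_add, div_mul_eq_mul_div, div_le_iff₀ (by positivity)]
    nlinarith
  exact sub_eq_zero.1 (abs_nonpos_iff.1 h0)

/-- TARGET 1 -/
theorem dat_sol {Ω : Set ℂ} {lam c : ℝ} {v : ℂ → ℝ} (D : Dat Ω lam c v) (ho : IsOpen Ω)
    (hb : Bornology.IsBounded Ω) (hne : Ω.Nonempty) (hc : c ≠ 0) :
    (∃ G : ℂ → ℂ, Sol Ω lam c (fun x => v x + c) G) ∧
      ¬ ((fun x => v x + c) =ᵐ[volume.restrict Ω] 0) := by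
  have hvc : Continuous v := D.c1.continuous
  have hvs : HasCompactSupport v := HasCompactSupport.intro hb.isCompact_closure
    (fun x hx => D.out x (fun h => hx (subset_closure h)))
  have hfin : volume Ω < ⊤ := hb.measure_lt_top
  haveI : IsFiniteMeasure (volume.restrict Ω) := ⟨by rw [Measure.restrict_apply_univ]; exact hfin⟩
  have hdc : ∀ h : ℂ, Continuous (dd h v) := fun h =>
    (D.c1.continuous_fderiv (by simp)).clm_apply continuous_const
  have hd0 : ∀ h x, x ∉ Ω → dd h v x = 0 := by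
    intro h x hx
    unfold dd
    rw [D.outd x hx]
    rfl
  constructor
  · refine ⟨dat_sol_G v, ?_, ?_, ?_, ?_⟩
    · exact ((hvc.memLp_of_hasCompactSupport hvs).restrict Ω).add (memLp_const c)
    · have hGc : Continuous (dat_sol_G v) :=
        (Complex.continuous_ofReal.comp (hdc 1)).add ((Complex.continuous_ofReal.comp (hdc Complex.I)).mul continuous_const)
      have hGs : HasCompactSupport (dat_sol_G v) := HasCompactSupport.intro hb.isCompact_closure
        (fun x hx => by
          unfold dat_sol_G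
          rw [hd0 1 x (fun h => hx (subset_closure h)), hd0 Complex.I x (fun h => hx (subset_closure h))]
          simp)
      exact (hGc.memLp_of_hasCompactSupport hGs).restrict Ω
    · intro φ hφ hφc w
      have h1 : ∫ x in Ω, (v x + c - c) * (fderiv ℝ φ x w) = ∫ x, v x * fderiv ℝ φ x w := by
        rw [setIntegral_eq_integral_of_forall_compl_eq_zero]
        · simp
        · intro x hx
          rw [D.out x hx]; simp
      have h2 : ∫ x in Ω, inner ℝ (dat_sol_G v x) w * φ x = ∫ x, fderiv ℝ v x w * φ x := by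
        rw [setIntegral_eq_integral_of_forall_compl_eq_zero]
        · simp only [dat_sol_G_inner]
        · intro x hx
          rw [dat_sol_G_inner, D.outd x hx]; simp
      rw [h1, h2]
      exact dat_sol_green D.c1 hvs hφ w
    · intro φ hφ hφc
      exact dat_sol_h2' D ho hb hφ hφc
  · intro h
    have h1 : EqOn (fun x => v x + c) 0 Ω :=
      Measure.eqOn_open_of_ae_eq h ho (hvc.add continuous_const).continuousOn continuousOn_const
    have hcl : EqOn (fun x => v x + c) 0 (closure Ω) :=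
      h1.closure (hvc.add continuous_const) continuous_const
    have hne' : Ω ≠ univ := by
      intro hu
      rw [hu] at hb
      exact NormedSpace.unbounded_univ ℝ ℂ hb
    have hfr : (frontier Ω).Nonempty := nonempty_frontier_iff.2 ⟨hne, hne'⟩
    obtain ⟨x, hx⟩ := hfr
    rw [ho.frontier_eq] at hx
    have h2 := hcl hx.1
    simp only [Pi.zero_apply] at h2
    rw [D.out x hx.2, zero_add] at h2
    exact hc h2

/-
`Chart Ω γ q e δ ψ` (BDefs.lean): in the square box q e δ the set γ is the graph of ψ. The graph {q + (t + ψ(t) I) e : |t| < δ} has measure zero: it is the image of {s = ψ t} under the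
isometry (t,s) ↦ q + (t + s I) e, and the graph of a measurable function is a null set (Fubini; or: it is the image of a line segment under the differentiable map q + (t + (s + ψ t) I) e, and
`MeasureTheory.addHaar_image_eq_zero_of_differentiableOn_of_addHaar_eq_zero`). Finitely many squares cover the compact set γ (box is open: `box_open` in Fin/P3.lean).
-/

/-- TARGET 2 -/
theorem null_of_chart {Ω γ : Set ℂ} (hγ : IsCompact γ)
    (h : ∀ q ∈ γ, ∃ (e : ℂ) (δ : ℝ) (ψ : ℝ → ℝ), Chart Ω γ q e δ ψ) : volume γ = 0 := by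
  have hbox : ∀ {q e : ℂ} (_ : ‖e‖ = 1) (δ : ℝ), IsOpen (box q e δ) := by
    intro q e he δ
    have hee : e * conj e = 1 := by
      rw [Complex.mul_conj, Complex.normSq_eq_norm_sq, he]; simp
    have h1 : box q e δ = {x | |((x - q) * conj e).re| < δ} ∩ {x | |((x - q) * conj e).im| < δ} := by
      ext x
      constructor
      · rintro ⟨t, s, ht, hs, rfl⟩
        have h2 : (q + (t + s * Complex.I) * e - q) * conj e = t + s * Complex.I := by
          rw [add_sub_cancel_left, mul_assoc, hee, mul_one]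
        constructor
        · rw [Set.mem_ofPred_eq, h2]; simpa using ht
        · rw [Set.mem_ofPred_eq, h2]; simpa using hs
      · rintro ⟨h2, h3⟩
        refine ⟨((x - q) * conj e).re, ((x - q) * conj e).im, h2, h3, ?_⟩
        rw [Complex.re_add_im, mul_assoc, mul_comm (conj e) e, hee, mul_one]
        ring
    rw [h1]
    exact (isOpen_lt (by fun_prop) continuous_const).inter (isOpen_lt (by fun_prop) continuous_const)
  have hloc : ∀ q ∈ γ, ∃ U ∈ 𝓝 q, volume (γ ∩ U) = 0 := by
    intro q hq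
    obtain ⟨e, δ, ψ, C⟩ := h q hq
    refine ⟨box q e δ, (hbox C.unit δ).mem_nhds ⟨0, 0, by simpa using C.pos, by simpa using C.pos, by simp⟩, ?_⟩
    let L : Submodule ℝ ℂ := LinearMap.ker Complex.imLm
    have hL : volume (L : Set ℂ) = 0 := by
      refine Measure.addHaar_submodule volume L ?_
      intro htop
      have : (Complex.I : ℂ) ∈ L := by rw [htop]; trivial
      rw [LinearMap.mem_ker] at this
      simp at this
    let F : ℂ → ℂ := fun z => q + ((z.re : ℂ) + ((z.im + ψ z.re : ℝ) : ℂ) * Complex.I) * e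
    have hF : Differentiable ℝ F := by
      have hψ : Differentiable ℝ ψ := C.smooth.differentiable (by norm_num)
      have h1 : Differentiable ℝ (fun z : ℂ => z.re) := Complex.reCLM.differentiable
      have h2 : Differentiable ℝ (fun z : ℂ => z.im) := Complex.imCLM.differentiable
      have h3 : Differentiable ℝ (fun z : ℂ => z.im + ψ z.re) := h2.add (hψ.comp h1)
      have h4 : Differentiable ℝ (fun z : ℂ => ((z.re : ℝ) : ℂ)) := Complex.ofRealCLM.differentiable.comp h1
      have h5 : Differentiable ℝ (fun z : ℂ => ((z.im + ψ z.re : ℝ) : ℂ)) := Complex.ofRealCLM.differentiable.comp h3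
      exact ((h4.add (h5.mul_const _)).mul_const _).const_add _
    have h1 := addHaar_image_eq_zero_of_differentiableOn_of_addHaar_eq_zero volume
      (hF.differentiableOn (s := (L : Set ℂ))) hL
    refine measure_mono_null ?_ h1
    rintro x ⟨hx, t, s, ht, hs, rfl⟩
    have h2 := (C.memγ t s ht hs).1 hx
    refine ⟨(t : ℂ), ?_, ?_⟩
    · change Complex.imLm (t : ℂ) = 0
      simp
    · simp [F, h2]
  choose! U hU hU0 using hloc
  obtain ⟨T, hT1, hT2⟩ := hγ.elim_nhds_subcover U hU
  have h2 : γ ⊆ ⋃ x ∈ T, (γ ∩ U x) := by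
    intro x hx
    obtain ⟨y, hy, hxy⟩ := mem_iUnion₂.1 (hT2 hx)
    exact mem_iUnion₂.2 ⟨y, hy, hx, hxy⟩
  refine measure_mono_null h2 ?_
  exact (measure_biUnion_null_iff (I := (T : Set ℂ)) T.countable_toSet).2 fun x hx => hU0 x (hT1 x hx)

/-
Plain proof. Chain rule: for U SC and A x = q + a x, U ∘ A is SC and la (U ∘ A) x = a² la U (A x). Balls: A maps ball x (r/a) onto ball (A x) r.
-/

theorem wat_aff_dd {W : ℂ → ℝ} (hW : Differentiable ℝ W) (q : ℂ) (a : ℝ) (v : ℂ) :
    dd v (fun x : ℂ => W (q + a * x)) = fun x => a * dd v W (q + a * x) := by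
  funext x
  unfold dd
  have h1 : HasFDerivAt (fun x : ℂ => q + (a : ℂ) * x) (a • ContinuousLinearMap.id ℝ ℂ) x := by
    have h2 : HasFDerivAt (fun x : ℂ => q + a • x) (a • ContinuousLinearMap.id ℝ ℂ) x :=
      ((hasFDerivAt_id x).const_smul a).const_add q
    simpa [Complex.real_smul] using h2
  have h3 := (hW (q + a * x)).hasFDerivAt.comp x h1
  have h4 : fderiv ℝ (fun x : ℂ => W (q + a * x)) x = _ := h3.fderiv
  rw [h4]
  simp

theorem wat_aff_sc {W : ℂ → ℝ} (hW : SC W) (q : ℂ) {a : ℝ} (ha : 0 < a) :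
    SC (fun x : ℂ => W (q + a * x)) := by
  have ha' : (a : ℂ) ≠ 0 := by exact_mod_cast ha.ne'
  constructor
  · refine hW.sm.comp ?_
    exact contDiff_const.add (contDiff_const.mul contDiff_id)
  · let e : ℂ ≃ₜ ℂ := (Homeomorph.mulLeft₀ (a : ℂ) ha').trans (Homeomorph.addLeft q)
    exact hW.cs.comp_homeomorph e

theorem wat_aff_la {W : ℂ → ℝ} (hW : SC W) (q : ℂ) (a : ℝ) (x : ℂ) :
    la (fun x : ℂ => W (q + a * x)) x = a ^ 2 * la W (q + a * x) := by
  have key : ∀ v : ℂ, dd v (dd v (fun x : ℂ => W (q + a * x))) x = a ^ 2 * dd v (dd v W) (q + a * x) := by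
    intro v
    rw [wat_aff_dd hW.diff]
    have h1 : dd v (fun x => a * dd v W (q + a * x)) x = a * dd v (fun x : ℂ => dd v W (q + a * x)) x := by
      have h2 : DifferentiableAt ℝ (fun x : ℂ => dd v W (q + a * x)) x := by
        have h3 := (Pool.Agent.TH298.Sch.dd_sc hW v).diff
        have h4 : Differentiable ℝ (fun x : ℂ => q + (a : ℂ) * x) := by fun_prop
        exact (h3.comp h4) x
      unfold dd at h2 ⊢
      rw [fderiv_const_mul h2]
      rfl
    rw [h1, wat_aff_dd (Pool.Agent.TH298.Sch.dd_sc hW v).diff]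
    ring
  unfold la
  rw [key, key]
  ring

/-- TARGET 3 -/
theorem wat_aff {D : Set ℂ} {lam : ℝ} {u : ℂ → ℝ} (hu : Wat D lam u) (q : ℂ) {a : ℝ} (ha : 0 < a) :
    Wat ((fun x : ℂ => q + a * x) ⁻¹' D) (lam * a ^ 2) (fun x => u (q + a * x)) := by
  refine ⟨hu.cont.comp (by fun_prop), fun x hx => hu.out _ hx, fun x₀ hx₀ => ?_⟩
  obtain ⟨r, hr, W, hW, hb, h1⟩ := hu.loc (q + a * x₀) hx₀
  have hmap : ∀ x ∈ Metric.ball x₀ (r / a), q + a * x ∈ Metric.ball (q + a * x₀) r := by
    intro x hx
    rw [Metric.mem_ball, dist_eq_norm] at hx ⊢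
    have h2 : q + a * x - (q + a * x₀) = a * (x - x₀) := by ring
    rw [h2, norm_mul, Complex.norm_real, Real.norm_of_nonneg ha.le]
    rw [lt_div_iff₀ ha] at hx
    linarith
  refine ⟨r / a, div_pos hr ha, fun x => W (q + a * x), wat_aff_sc hW q ha, fun x hx => hb (hmap x hx),
    fun x hx => ⟨(h1 _ (hmap x hx)).1, ?_⟩⟩
  rw [wat_aff_la hW, (h1 _ (hmap x hx)).2]
  ring

/-- TARGET 4 -/
theorem wat_smul {D : Set ℂ} {lam : ℝ} {u : ℂ → ℝ} (hu : Wat D lam u) (s : ℝ) :
    Wat D lam (fun x => s * u x) := by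
  refine ⟨continuous_const.mul hu.cont, fun x hx => by rw [hu.out x hx, mul_zero], fun x₀ hx₀ => ?_⟩
  obtain ⟨r, hr, W, hW, hb, h1⟩ := hu.loc x₀ hx₀
  have e0 : ∀ (φ : ℂ → ℝ), Differentiable ℝ φ → ∀ v, dd v (fun x => s * φ x) = fun x => s * dd v φ x := by
    intro φ hφ v
    funext x
    unfold dd
    rw [fderiv_const_mul (hφ x)]
    rfl
  refine ⟨r, hr, fun x => s * W x, ⟨contDiff_const.mul hW.sm, hW.cs.mul_left⟩, hb, fun x hx =>
    ⟨by rw [(h1 x hx).1], ?_⟩⟩
  have h2 : la (fun x => s * W x) x = s * la W x := by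
    unfold la
    rw [e0 W hW.diff, e0 W hW.diff, e0 _ (Pool.Agent.TH298.Sch.dd_sc hW 1).diff,
      e0 _ (Pool.Agent.TH298.Sch.dd_sc hW Complex.I).diff]
    ring
  rw [h2, (h1 x hx).2]
  ring

/-- TARGET 5 -/
theorem fderiv_aff {u : ℂ → ℝ} (q : ℂ) {a : ℝ} (ha : 0 < a) {x : ℂ}
    (h : fderiv ℝ u (q + a * x) = 0) : fderiv ℝ (fun x : ℂ => u (q + a * x)) x = 0 := by
  by_cases hd : DifferentiableAt ℝ (fun x : ℂ => u (q + a * x)) x
  · have ha' : (a : ℂ) ≠ 0 := by exact_mod_cast ha.ne'
    have hu : DifferentiableAt ℝ u (q + a * x) := by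
      have h1 : (fun y : ℂ => (fun x : ℂ => u (q + a * x)) ((a : ℂ)⁻¹ * (y - q))) = u := by
        funext y
        simp only
        rw [mul_inv_cancel_left₀ ha', add_sub_cancel]
      rw [← h1]
      have h2 : (a : ℂ)⁻¹ * ((q + a * x) - q) = x := by
        rw [add_sub_cancel_left, inv_mul_cancel_left₀ ha']
      have h3 : DifferentiableAt ℝ (fun y : ℂ => (a : ℂ)⁻¹ * (y - q)) (q + a * x) := by fun_prop
      have h4 : DifferentiableAt ℝ (fun x : ℂ => u (q + a * x)) ((fun y : ℂ => (a : ℂ)⁻¹ * (y - q)) (q + a * x)) := by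
        simp only
        rw [h2]; exact hd
      exact DifferentiableAt.comp (g := fun x : ℂ => u (q + a * x)) (q + a * x) h4 h3
    have h5 : HasFDerivAt (fun x : ℂ => q + (a : ℂ) * x) (a • ContinuousLinearMap.id ℝ ℂ) x := by
      have h2 : HasFDerivAt (fun x : ℂ => q + a • x) (a • ContinuousLinearMap.id ℝ ℂ) x :=
        ((hasFDerivAt_id x).const_smul a).const_add q
      simpa [Complex.real_smul] using h2
    have h6 := hu.hasFDerivAt.comp x h5
    have h7 : fderiv ℝ (fun x : ℂ => u (q + a * x)) x = _ := h6.fderiv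
    rw [h7, h, ContinuousLinearMap.zero_comp]
  · exact fderiv_zero_of_not_differentiableAt hd

end Pool.Agent.Helper327_Drum
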