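import Pool.Agent.Y362.LR.Bouj
import Pool.Agent.Y971.LR.Win
import Pool.Agent.Y473.LR.Non
import Pool.Agent.Y473.LR.Fin
import Pool.Agent.Y245.SG.Main

/-! Discs are isolated among the domains with a solution of the overdetermined problem. -/

set_option autoImplicit false
open MeasureTheory Metric Set

namespace Pool.Agent.Helper327_Drum

theorem lrf_sol (T : ℝ) (hT : 0 < T) : ∃ ε : ℝ, 0 < ε ∧ ε < 1 ∧
    ∀ (Ω : Set ℂ) (lam c r : ℝ) (q : ℂ) (u : ℂ → ℝ) (G : ℂ → ℂ), IsOpen Ω →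
      Bornology.IsBounded Ω → IsConnected Ωᶜ →
      interior (closure Ω) = Ω → volume (frontier Ω) = 0 → 0 < lam → 0 < r → √lam * r ≤ T →
      ball q ((1 - ε) * r) ⊆ Ω → Ω ⊆ closedBall q ((1 + ε) * r) →
      Pool.Agent.TH298.Sch.Sol Ω lam c u G → ¬ (u =ᵐ[volume.restrict Ω] 0) →
      ∃ (p : ℂ) (r' : ℝ), 0 < r' ∧ Ω = ball p r' := by
  obtain ⟨ε, h0, h1, h⟩ := Pool.Agent.Y473.LR.lrf Pool.Agent.Y971.LR.win Pool.Agent.Y971.LR.small
    Pool.Agent.Y473.LR.non (Pool.Agent.Y362.LR.bouj Pool.Agent.Y245.SG.bourget) T hT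
  refine ⟨ε, h0, h1, ?_⟩
  intro Ω lam c r q u G hΩ hb hc hi hf hlam hr hT' hin hout hS hu0
  have hne : Ω.Nonempty := (nonempty_ball.2 (mul_pos (by linarith) hr)).mono hin
  obtain ⟨p, r', hr', e, -⟩ := h Ω lam c r q u G hΩ hb hne hc.isPreconnected hi hf hlam hr hT'
    hin hout hS hu0
  exact ⟨p, r', hr', e⟩

end Pool.Agent.Helper327_Drum
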