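import Pool.Agent.Helper327_Drum.Fin.AS2
import Pool.Agent.TH298.AN.ODEM

/-
JOB NB1 (owner helper327, problem MP_d92c84_an). All imports are on origin/main.
-/

set_option autoImplicit false
open MeasureTheory Set Filter Topology ComplexConjugate
open scoped ContDiff InnerProductSpace

namespace Pool.Agent.Helper327_Drum

open Pool.Agent.TH298.Sch (dd SC X)
open Pool.Agent.TH298.AN (mc ms)
open Pool.Agent.R227.SA (la Wat Dat)
open TH259.NS (B J)

namespace NB1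

/-- a function proportional to the regular Bessel solution on each `[0, a]`, `a < 1`, is so on
`[0, 1]` -/
theorem glue {lam : ℝ} (n : ℕ) {c : ℝ → ℝ} (hc : Continuous c)
    (h : ∀ a : ℝ, 0 < a → a < 1 → ∃ α : ℝ, ∀ r ∈ Icc 0 a,
      c r = α * r ^ n * B n (lam * r ^ 2 / 4)) :
    ∃ α : ℝ, ∀ r ∈ Icc (0:ℝ) 1, c r = α * r ^ n * B n (lam * r ^ 2 / 4) := by
  obtain ⟨α, hα⟩ := h (1 / 2) (by norm_num) (by norm_num)
  have hB0 : 0 < B n 0 := by
    rw [TH259.NS.B_zero]; positivity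
  have hcB : Continuous (fun r : ℝ => B n (lam * r ^ 2 / 4)) :=
    (TH259.NS.B_cont n).comp (by fun_prop)
  have h1 : ∀ᶠ r in 𝓝 (0 : ℝ), 0 < B n (lam * r ^ 2 / 4) := by
    refine (hcB.tendsto' 0 (B n 0) (by simp)).eventually ?_
    exact eventually_gt_nhds hB0
  have h2 : ∀ᶠ r in 𝓝[>] (0 : ℝ), 0 < B n (lam * r ^ 2 / 4) ∧ r < 1 / 2 ∧ 0 < r := by
    filter_upwards [nhdsWithin_le_nhds h1, nhdsWithin_le_nhds (eventually_lt_nhds
      (show (0 : ℝ) < 1 / 2 by norm_num)), self_mem_nhdsWithin] with r h3 h4 h5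
    exact ⟨h3, h4, h5⟩
  obtain ⟨r₀, hr1, hr2, hr3⟩ := h2.exists
  have h5 : EqOn c (fun r => α * r ^ n * B n (lam * r ^ 2 / 4)) (Ico 0 1) := by
    intro r hr
    obtain ⟨β, hβ⟩ := h ((1 + r) / 2) (by linarith [hr.1]) (by linarith [hr.2])
    have e1 := hα r₀ ⟨hr3.le, hr2.le⟩
    have e2 := hβ r₀ ⟨hr3.le, by linarith [hr.1]⟩
    have e3 : α = β := by
      have e4 : α * (r₀ ^ n * B n (lam * r₀ ^ 2 / 4)) = β * (r₀ ^ n * B n (lam * r₀ ^ 2 / 4)) := by
        rw [← mul_assoc, ← mul_assoc, ← e1, ← e2]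
      exact mul_right_cancel₀ (mul_pos (pow_pos hr3 n) hr1).ne' e4
    rw [e3]
    exact hβ r ⟨hr.1, by linarith [hr.2]⟩
  refine ⟨α, fun r hr => ?_⟩
  have h6 := h5.closure hc (by fun_prop)
  rw [closure_Ico (by norm_num)] at h6
  exact h6 hr

theorem X_norm {r : ℝ} (hr : 0 ≤ r) (θ : ℝ) : ‖X r θ‖ = r := by
  unfold X
  rw [norm_mul, Complex.norm_real, Real.norm_of_nonneg hr]
  have : ‖(Real.cos θ : ℂ) + Real.sin θ * Complex.I‖ = 1 := by
    rw [Complex.ofReal_cos, Complex.ofReal_sin, ← Complex.exp_mul_I, Complex.norm_exp_ofReal_mul_I]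
  rw [this, mul_one]

theorem X_cont : Continuous (fun p : ℝ × ℝ => X p.1 p.2) := by
  unfold X
  fun_prop

/-- extension of the restriction to a smaller disc -/
theorem ext {lam : ℝ} {u : ℂ → ℝ} (hu : Wat (Metric.ball 0 1) lam u) {a : ℝ}
    (ha : 0 < a) (ha1 : a < 1) : ∃ v : ℂ → ℝ, ContDiff ℝ (⊤ : ℕ∞) v ∧ (∀ x, ‖x‖ ≤ a → v x = u x) ∧
      ∀ x : ℂ, ‖x‖ < a → dd 1 (dd 1 v) x + dd Complex.I (dd Complex.I v) x = -(lam * v x) := by
  let χ : ContDiffBump (0 : ℂ) := ⟨a, (a + 1) / 2, ha, by linarith⟩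
  have hχ1 : ∀ x : ℂ, ‖x‖ ≤ a → χ x = 1 := by
    intro x hx
    exact χ.one_of_mem_closedBall (by simpa using hx)
  have hχ0 : ∀ x : ℂ, (a + 1) / 2 ≤ ‖x‖ → χ x = 0 := by
    intro x hx
    exact χ.zero_of_le_dist (by simpa using hx)
  have hv : ∀ x, ‖x‖ ≤ a → χ x * u x = u x := by
    intro x hx; rw [hχ1 x hx, one_mul]
  refine ⟨fun x => χ x * u x, ?_, hv, ?_⟩
  · rw [contDiff_iff_contDiffAt]
    intro x
    rcases lt_or_ge ‖x‖ 1 with hx | hx
    · have h1 := (wat_smooth hu (x := x) (by simpa using hx)).1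
      have h2 : ContDiffAt ℝ (⊤ : ℕ∞) χ x := χ.contDiff.contDiffAt
      exact h2.mul h1
    · have h1 : (fun x => χ x * u x) =ᶠ[𝓝 x] fun _ => 0 := by
        have h2 : ∀ᶠ y in 𝓝 x, (a + 1) / 2 < ‖y‖ :=
          (continuous_norm.tendsto x).eventually (eventually_gt_nhds (by linarith))
        filter_upwards [h2] with y hy
        rw [hχ0 y hy.le, zero_mul]
      exact contDiffAt_const.congr_of_eventuallyEq h1
  · intro x hx
    have he : (fun x => χ x * u x) =ᶠ[𝓝 x] u := by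
      have h2 : ∀ᶠ y in 𝓝 x, ‖y‖ < a :=
        (continuous_norm.tendsto x).eventually (eventually_lt_nhds hx)
      filter_upwards [h2] with y hy using hv y hy.le
    have e2 : ∀ h, dd h (fun x => χ x * u x) =ᶠ[𝓝 x] dd h u := by
      intro h
      filter_upwards [he.eventuallyEq_nhds] with y hy
      exact congrArg (fun L : ℂ →L[ℝ] ℝ => L h) hy.fderiv_eq
    have e3 : ∀ h, dd h (dd h (fun x => χ x * u x)) x = dd h (dd h u) x := by
      intro h
      exact congrArg (fun L : ℂ →L[ℝ] ℝ => L h) (e2 h).fderiv_eq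
    have e4 := (wat_smooth hu (x := x) (by simp; linarith)).2
    unfold la at e4
    rw [e3, e3, e4]
    show _ = -(lam * (χ x * u x))
    rw [hv x hx.le]

theorem mc_cont {u : ℂ → ℝ} (hu : Continuous u) (n : ℕ) : Continuous (mc u n) := by
  unfold mc
  apply intervalIntegral.continuous_parametric_intervalIntegral_of_continuous'
  exact (hu.comp X_cont).mul (by fun_prop)

theorem ms_cont {u : ℂ → ℝ} (hu : Continuous u) (n : ℕ) : Continuous (ms u n) := by
  unfold ms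
  apply intervalIntegral.continuous_parametric_intervalIntegral_of_continuous'
  exact (hu.comp X_cont).mul (by fun_prop)

end NB1

/-- TARGET: Fourier moments of the eigenfunctions of the unit disc. -/
theorem disc_moments {lam : ℝ} (hlam : 0 < lam) {u : ℂ → ℝ} (hu : Wat (Metric.ball 0 1) lam u)
    (n : ℕ) : ∃ α β : ℝ, ∀ r ∈ Icc (0:ℝ) 1, mc u n r = α * r ^ n * B n (lam * r ^ 2 / 4) ∧
      ms u n r = β * r ^ n * B n (lam * r ^ 2 / 4) := by
  obtain ⟨α, hα⟩ := NB1.glue (lam := lam) n (NB1.mc_cont hu.cont n) (by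
    intro a ha ha1
    obtain ⟨v, hv1, hv2, hv3⟩ := NB1.ext hu ha ha1
    obtain ⟨⟨α, hα⟩, -⟩ := Pool.Agent.TH298.AN.odem a lam v ha hlam hv1 hv3 n
    refine ⟨α, fun r hr => ?_⟩
    rw [← hα r hr]
    unfold mc
    refine intervalIntegral.integral_congr fun θ _ => ?_
    show u (X r θ) * _ = v (X r θ) * _
    rw [hv2 _ (by rw [NB1.X_norm hr.1]; exact hr.2)])
  obtain ⟨β, hβ⟩ := NB1.glue (lam := lam) n (NB1.ms_cont hu.cont n) (by
    intro a ha ha1
    obtain ⟨v, hv1, hv2, hv3⟩ := NB1.ext hu ha ha1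
    obtain ⟨-, ⟨α, hα⟩⟩ := Pool.Agent.TH298.AN.odem a lam v ha hlam hv1 hv3 n
    refine ⟨α, fun r hr => ?_⟩
    rw [← hα r hr]
    unfold ms
    refine intervalIntegral.integral_congr fun θ _ => ?_
    show u (X r θ) * _ = v (X r θ) * _
    rw [hv2 _ (by rw [NB1.X_norm hr.1]; exact hr.2)])
  exact ⟨α, β, fun r hr => ⟨hα r hr, hβ r hr⟩⟩

end Pool.Agent.Helper327_Drum
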