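import Pool.Agent.Y245.SG.Main

/-
JOB SG1 (owner helper327, problem MP_d92c84_an). The import (with its dependencies) is on origin/main.
-/

set_option autoImplicit false

open Complex Polynomial Filter Topology

namespace Pool.Agent.Helper327_Drum

open Pool.Agent.Y245.SG

/-
Plain proof: this is `Pool.Agent.Y986.SG.rank` (Pool/Agent/Y986/SG/Rank.lean), whose hypothesis Bn 1 (exp w) = 0 is only used to single out the coefficient
with index N. In general one of b0 w = Bn 0 (exp w), b1 w = Bn 1 (exp w) is not 0 (`Pool.Agent.Y987.SG.bnc`). Suppose that all derivatives of order k ≤ N²+N+n/s of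
lamG N P b0 b1 vanish at w; they are lamG N (Pk N P k) b0 b1 w (`iter`). As in `rank`: hord, then Cramer's rule for the index i = N if b0 w ≠ 0 (the component b0^N), and for the
index i = 0 if b1 w ≠ 0 (the component b1^N), gives that aeval (exp ω) (Det N P) vanishes to order N² + n/s + 1 at w, and the rest of the proof is the same.
-/

/-- TARGET: some derivative of small order does not vanish. -/
theorem rank2 (N s n : ℕ) (P : ℕ → ℤ[X]) (w : ℂ) (hN : 1 ≤ N) (hs : 1 ≤ s) (hn : 1 ≤ n)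
    (hP : ∀ i, N < i → P i = 0) (hdet : Det N P ≠ 0) (hdeg : ∀ i, (P i).natDegree ≤ n)
    (hdvd : (PowerSeries.X : PowerSeries ℚ) ^ TT N s n ∣ LamF N P) :
    ∃ k ≤ N ^ 2 + N + n / s,
      iteratedDeriv k (lamG N P (fun ω => Bn 0 (exp ω)) (fun ω => Bn 1 (exp ω))) w =
        lamG N (Pk N P k) (fun ω => Bn 0 (exp ω)) (fun ω => Bn 1 (exp ω)) w ∧
      lamG N (Pk N P k) (fun ω => Bn 0 (exp ω)) (fun ω => Bn 1 (exp ω)) w ≠ 0 := by
  have hB : S_BES := Pool.Agent.Y971.SG.bes
  have hBNC : S_BNC := Pool.Agent.Y987.SG.bnc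
  have hSTEP : S_STEP := Pool.Agent.Y468.SG.step_thm
  have hsol := Pool.Agent.Y468.SG.sol1 hB
  set b0 : ℂ → ℂ := fun ω => Bn 0 (exp ω) with hb0
  set b1 : ℂ → ℂ := fun ω => Bn 1 (exp ω) with hb1
  have hit := Pool.Agent.Y986.SG.iter hSTEP N P b0 b1 hP hsol
  have hz : ∀ k i, N < i → Pk N P k i = 0 := fun k => (hit k).1
  -- the index
  obtain ⟨i₀, hi₀⟩ : ∃ i₀ : Fin (N + 1), b0 w ^ (i₀ : ℕ) * b1 w ^ (N - i₀) ≠ 0 := by
    by_cases h0 : b0 w = 0
    · have h1 : b1 w ≠ 0 := fun h1 => hBNC hB 0 (exp w) ⟨h0, by rw [zero_add]; exact h1⟩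
      refine ⟨0, ?_⟩
      simp only [Fin.val_zero, pow_zero, one_mul, Nat.sub_zero]
      exact pow_ne_zero N h1
    · refine ⟨Fin.last N, ?_⟩
      simp only [Fin.val_last, Nat.sub_self, pow_zero, mul_one]
      exact pow_ne_zero N h0
  by_contra hcon
  push Not at hcon
  have hitv : ∀ k ≤ N ^ 2 + N + n / s, lamG N (Pk N P k) b0 b1 w = 0 := by
    intro k hk
    refine hcon k hk ?_
    rw [(hit k).2]
  -- orders
  have hdiff : ∀ k, Differentiable ℂ (lamG N (Pk N P k) b0 b1) := fun k =>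
    Pool.Agent.Y986.SG.lamG_diff hSTEP N (Pk N P k) b0 b1 (hz k) hsol
  have hPkadd : ∀ k j, Pk N (Pk N P k) j = Pk N P (j + k) := by
    intro k j
    rw [Pk, Pk, Pk, Function.iterate_add_apply]
  have hord : ∀ k ≤ N, ((N ^ 2 + n / s + 1 : ℕ) : ℕ∞) ≤ analyticOrderAt (lamG N (Pk N P k) b0 b1) w := by
    intro k hk
    rw [natCast_le_analyticOrderAt_iff_iteratedDeriv_eq_zero ((hdiff k).analyticAt w)]
    intro j hj
    rw [(Pool.Agent.Y986.SG.iter hSTEP N (Pk N P k) b0 b1 (hz k) hsol j).2, hPkadd]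
    exact hitv _ (by omega)
  -- Cramer
  set M : Matrix (Fin (N + 1)) (Fin (N + 1)) ℤ[X] := Matrix.of fun k i : Fin (N + 1) => Pk N P k i with hM
  have hMdet : M.det = Det N P := rfl
  have hcr : ∀ ω, aeval (exp ω) (Det N P) * (b0 ω ^ (i₀ : ℕ) * b1 ω ^ (N - i₀)) =
      ∑ k : Fin (N + 1), aeval (exp ω) (M.adjugate i₀ k) * lamG N (Pk N P k) b0 b1 ω := by
    intro ω
    have h1 := Pool.Agent.Y986.SG.cramer M (aeval (exp ω) : ℤ[X] →ₐ[ℤ] ℂ).toRingHom
      (fun i : Fin (N + 1) => b0 ω ^ (i : ℕ) * b1 ω ^ (N - i)) i₀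
    simp only [AlgHom.toRingHom_eq_coe, RingHom.coe_coe] at h1
    rw [hMdet] at h1
    rw [h1]
    refine Finset.sum_congr rfl fun k _ => ?_
    congr 1
    rw [lamG, ← Pool.Agent.Y986.SG.fin_sum N
      (fun i => aeval (exp ω) (Pk N P k i) * b0 ω ^ i * b1 ω ^ (N - i))]
    refine Finset.sum_congr rfl fun i _ => ?_
    rw [hM, Matrix.of_apply]
    ring
  have hpol : ∀ p : ℤ[X], AnalyticAt ℂ (fun ω : ℂ => aeval (exp ω) p) w := fun p => by
    have h1 : Differentiable ℂ (fun ω : ℂ => aeval (exp ω) p) :=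
      (Polynomial.differentiable_aeval p).comp Complex.differentiable_exp
    exact h1.analyticAt w
  have hb0an : AnalyticAt ℂ b0 w := by
    have h1 : Differentiable ℂ b0 := fun ω => (hsol ω).1.differentiableAt
    exact h1.analyticAt w
  have hb1an : AnalyticAt ℂ b1 w := by
    have h1 : Differentiable ℂ b1 := fun ω => (hsol ω).2.differentiableAt
    exact h1.analyticAt w
  have huan : AnalyticAt ℂ (fun ω => b0 ω ^ (i₀ : ℕ) * b1 ω ^ (N - i₀)) w :=
    (hb0an.pow _).mul (hb1an.pow _)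
  have hord2 : ((N ^ 2 + n / s + 1 : ℕ) : ℕ∞) ≤ analyticOrderAt (fun ω : ℂ => aeval (exp ω) (Det N P)) w := by
    have h1 : ((N ^ 2 + n / s + 1 : ℕ) : ℕ∞) ≤
        analyticOrderAt ((fun ω : ℂ => aeval (exp ω) (Det N P)) *
          (fun ω => b0 ω ^ (i₀ : ℕ) * b1 ω ^ (N - i₀))) w := by
      have e1 : ((fun ω : ℂ => aeval (exp ω) (Det N P)) *
          (fun ω => b0 ω ^ (i₀ : ℕ) * b1 ω ^ (N - i₀))) = ∑ k : Fin (N + 1),
          ((fun ω : ℂ => aeval (exp ω) (M.adjugate i₀ k)) * lamG N (Pk N P k) b0 b1) := by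
        funext ω
        rw [Pi.mul_apply, Finset.sum_apply, hcr ω]
        rfl
      rw [e1]
      refine Pool.Agent.Y986.SG.order_sum _ _ w _ fun k _ => ?_
      rw [analyticOrderAt_mul (hpol _) ((hdiff k).analyticAt w)]
      exact (hord k (by have := k.isLt; omega)).trans le_add_self
    rw [analyticOrderAt_mul (hpol _) huan] at h1
    have h2 : analyticOrderAt (fun ω => b0 ω ^ (i₀ : ℕ) * b1 ω ^ (N - i₀)) w = 0 := by
      rw [AnalyticAt.analyticOrderAt_eq_zero huan]
      exact hi₀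
    rwa [h2, add_zero] at h1
  -- the complex polynomial
  set p : ℂ[X] := (Det N P).map (Int.castRingHom ℂ) with hp
  have hp0 : p ≠ 0 := (Polynomial.map_ne_zero_iff (RingHom.injective_int (Int.castRingHom ℂ))).mpr hdet
  have hpev : ∀ z : ℂ, p.eval z = aeval z (Det N P) := fun z => by
    rw [hp, Polynomial.eval_map, Polynomial.aeval_def]; rfl
  have hord3 : ((N ^ 2 + n / s + 1 : ℕ) : ℕ∞) ≤ analyticOrderAt (fun z => p.eval z) (exp w) := by
    rw [← analyticOrderAt_comp_of_deriv_ne_zero (f := fun z => p.eval z) (g := exp) (z₀ := w)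
      (Complex.differentiable_exp.analyticAt w) (by rw [Complex.deriv_exp]; exact Complex.exp_ne_zero w)]
    have : (fun z => p.eval z) ∘ exp = fun ω : ℂ => aeval (exp ω) (Det N P) := by
      funext ω
      exact hpev _
    rw [this]
    exact hord2
  have hdvd1 := Pool.Agent.Y986.SG.order_poly p hp0 (exp w) _ hord3
  -- divisibility by a power of `X`
  have hdvd2 : (X : ℂ[X]) ^ TT N s n ∣ p := by
    have h1 := Pool.Agent.Y986.SG.cramer M Pool.Agent.Y986.SG.toPS
      (fun i : Fin (N + 1) => bs 0 ^ (i : ℕ) * bs 1 ^ (N - i)) 0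
    simp only [Fin.val_zero, pow_zero, one_mul, Nat.sub_zero] at h1
    rw [hMdet] at h1
    have h2 : (PowerSeries.X : PowerSeries ℚ) ^ TT N s n ∣
        Pool.Agent.Y986.SG.toPS (Det N P) * bs 1 ^ N := by
      rw [h1]
      refine Finset.dvd_sum fun k _ => dvd_mul_of_dvd_right ?_ _
      have e1 : ∑ j : Fin (N + 1), Pool.Agent.Y986.SG.toPS (M k j) *
          (bs 0 ^ (j : ℕ) * bs 1 ^ (N - j)) = LamF N (Pk N P k) := by
        rw [Pool.Agent.Y986.SG.LamF_eq, Finset.sum_range]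
        refine Finset.sum_congr rfl fun j _ => ?_
        rw [hM, Matrix.of_apply]
        ring
      rw [e1]
      exact Pool.Agent.Y986.SG.dvd_LamF N _ P hz hdvd k
    have hunit : IsUnit (bs 1 ^ N) := by
      refine IsUnit.pow N ?_
      rw [PowerSeries.isUnit_iff_constantCoeff, ← PowerSeries.coeff_zero_eq_constantCoeff_apply, bs,
        PowerSeries.coeff_mk]
      simp
    have h3 : (PowerSeries.X : PowerSeries ℚ) ^ TT N s n ∣ Pool.Agent.Y986.SG.toPS (Det N P) :=
      (hunit.dvd_mul_right).mp h2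
    rw [PowerSeries.X_pow_dvd_iff] at h3
    rw [Polynomial.X_pow_dvd_iff]
    intro d hd
    have h4 := h3 d hd
    rw [Pool.Agent.Y986.SG.toPS_apply, Polynomial.coeff_coe, Polynomial.coeff_map] at h4
    have h5 : (Det N P).coeff d = 0 := by
      have : (((Det N P).coeff d : ℤ) : ℚ) = 0 := h4
      exact_mod_cast this
    rw [hp, Polynomial.coeff_map, h5, map_zero]
  have hcop : IsCoprime ((X : ℂ[X]) ^ TT N s n) ((X - C (exp w)) ^ (N ^ 2 + n / s + 1)) := by
    refine IsCoprime.pow ?_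
    have h1 : IsCoprime (X - C (0 : ℂ)) (X - C (exp w)) := by
      refine Polynomial.isCoprime_X_sub_C_of_isUnit_sub ?_
      rw [zero_sub]
      exact (isUnit_iff_ne_zero.mpr (Complex.exp_ne_zero w)).neg
    rwa [map_zero, sub_zero] at h1
  have hdvd3 := hcop.mul_dvd hdvd2 hdvd1
  have hle := Polynomial.natDegree_le_of_dvd hdvd3 hp0
  have hmon1 : ((X : ℂ[X]) ^ TT N s n).Monic := Polynomial.monic_X_pow _
  have hmon2 : ((X - C (exp w)) ^ (N ^ 2 + n / s + 1) : ℂ[X]).Monic := (Polynomial.monic_X_sub_C _).pow _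
  rw [hmon1.natDegree_mul hmon2, Polynomial.natDegree_X_pow, (Polynomial.monic_X_sub_C (exp w)).natDegree_pow,
    Polynomial.natDegree_X_sub_C, mul_one] at hle
  have hle2 : p.natDegree ≤ (N + 1) * (n + N) :=
    (Polynomial.natDegree_map_le).trans (Pool.Agent.Y986.SG.natDegree_Det N P n hdeg)
  have hle3 := hle.trans hle2
  have hns : n / s ≤ n := Nat.div_le_self n s
  have hTT : TT N s n + (n / s + 1) = (N + 1) * (n + 1) := by
    rw [TT]
    refine Nat.sub_add_cancel ?_
    nlinarith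
  nlinarith [hle3, hTT]

end Pool.Agent.Helper327_Drum
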