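import Pool.Agent.Y245.SG.Main
import Pool.Agent.Helper327_Drum.Fin.SG1

/-
JOB SG2 (owner helper327, problem MP_d92c84_an). The import (with its dependencies) is on origin/main.
-/

set_option autoImplicit false

open Complex Polynomial Filter Topology

namespace Pool.Agent.Helper327_Drum

open Pool.Agent.Y245.SG

/-- the sum of the absolute values of the coefficients -/
noncomputable def s2abs (F : ℤ[X]) : ℝ := ∑ j ∈ F.support, (|F.coeff j| : ℝ)

theorem s2abs_nonneg (F : ℤ[X]) : 0 ≤ s2abs F := Finset.sum_nonneg fun _ _ => abs_nonneg _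

/-- coefficients of a product -/
theorem s2coeff_mul (p F : ℤ[X]) (H : ℝ) (hp : ∀ l, (|p.coeff l| : ℝ) ≤ H) (l : ℕ) :
    (|(p * F).coeff l| : ℝ) ≤ H * s2abs F := by
  have hH : 0 ≤ H := (abs_nonneg _).trans (hp 0)
  rw [Polynomial.coeff_mul, Finset.Nat.sum_antidiagonal_eq_sum_range_succ (fun i j => p.coeff i * F.coeff j)]
  push_cast
  calc |∑ k ∈ Finset.range l.succ, (p.coeff k : ℝ) * (F.coeff (l - k) : ℝ)|
      ≤ ∑ k ∈ Finset.range l.succ, |(p.coeff k : ℝ) * (F.coeff (l - k) : ℝ)| :=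
        Finset.abs_sum_le_sum_abs _ _
    _ ≤ ∑ k ∈ Finset.range l.succ, H * |(F.coeff (l - k) : ℝ)| := by
        refine Finset.sum_le_sum fun k _ => ?_
        rw [abs_mul]
        exact mul_le_mul_of_nonneg_right (hp k) (abs_nonneg _)
    _ = H * ∑ k ∈ Finset.range l.succ, |(F.coeff k : ℝ)| := by
        rw [← Finset.mul_sum]
        congr 1
        have := Finset.sum_range_reflect (fun k => |(F.coeff k : ℝ)|) (l + 1)
        rw [← this]
        refine Finset.sum_congr rfl fun k hk => ?_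
        have : l + 1 - 1 - k = l - k := by omega
        rw [this]
    _ ≤ H * s2abs F := by
        refine mul_le_mul_of_nonneg_left ?_ hH
        rw [s2abs]
        calc ∑ k ∈ Finset.range l.succ, |(F.coeff k : ℝ)|
            ≤ ∑ k ∈ Finset.range l.succ ∪ F.support, |(F.coeff k : ℝ)| :=
              Finset.sum_le_sum_of_subset_of_nonneg Finset.subset_union_left
                (fun _ _ _ => abs_nonneg _)
          _ = ∑ k ∈ F.support, |(F.coeff k : ℝ)| := by
              symm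
              refine Finset.sum_subset Finset.subset_union_right fun k _ hk => ?_
              rw [Polynomial.notMem_support_iff.mp hk]
              simp

/-- eliminating the solution -/
theorem s2lam (N : ℕ) (Q : ℕ → ℤ[X]) (A B : ℤ[X]) (w μ : ℂ)
    (hx : Bn 0 (exp w) = μ * aeval (exp w) B) (hy : Bn 1 (exp w) = -(μ * aeval (exp w) A)) :
    lamG N Q (fun ω => Bn 0 (exp ω)) (fun ω => Bn 1 (exp ω)) w =
      μ ^ N * aeval (exp w) (∑ i ∈ Finset.range (N + 1), Q i * (B ^ i * (-A) ^ (N - i))) := by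
  rw [lamG, map_sum, Finset.mul_sum]
  refine Finset.sum_congr rfl fun i hi => ?_
  have hi' : i ≤ N := by have := Finset.mem_range.mp hi; omega
  simp only [map_mul, map_pow, map_neg]
  rw [hx, hy]
  have e : μ ^ N = μ ^ i * μ ^ (N - i) := by rw [← pow_add]; congr 1; omega
  rw [e, mul_pow, show -(μ * aeval (exp w) A) = μ * -(aeval (exp w) A) by ring, mul_pow]
  ring

/-- TARGET: Siegel's theorem, linear independence of `J_0(x)`, `J_1(x)` over the algebraic field generated by `α`. -/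
theorem siegel2 (α : ℂ) (hα : α ≠ 0) (halg : IsAlgebraic ℚ α) (A B : ℤ[X])
    (hAB : aeval α A ≠ 0 ∨ aeval α B ≠ 0) :
    aeval α A * Bn 0 α + aeval α B * Bn 1 α ≠ 0 := by
  intro hzero
  obtain ⟨w, rfl⟩ : ∃ w, Complex.exp w = α := by
    have : α ∈ Set.range Complex.exp := by
      rw [Complex.range_exp]
      simpa using hα
    exact this
  have hDet : ∀ (N : ℕ) (P : ℕ → ℤ[X]), (∀ i, N < i → P i = 0) → (∃ i ≤ N, P i ≠ 0) →
      Det N P ≠ 0 :=
    Pool.Agent.Y986.SG.ze2 Pool.Agent.Y971.SG.bes Pool.Agent.Y987.SG.bnc Pool.Agent.Y987.SG.binf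
      Pool.Agent.Y468.SG.step_thm Pool.Agent.Y468.SG.sol1 Pool.Agent.Y96.SG.sol2
      Pool.Agent.Y302.SG.ode Pool.Agent.Y302.SG.logt Pool.Agent.Y302.SG.ze1
  have hbn := Pool.Agent.Y987.SG.bnc Pool.Agent.Y971.SG.bes 0 (exp w)
  -- the factor μ
  obtain ⟨μ, hx, hy⟩ : ∃ μ : ℂ, Bn 0 (exp w) = μ * aeval (exp w) B ∧
      Bn 1 (exp w) = -(μ * aeval (exp w) A) := by
    by_cases hB : aeval (exp w) B = 0
    · have hA : aeval (exp w) A ≠ 0 := by
        rcases hAB with h | h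
        · exact h
        · exact absurd hB h
      have h0 : Bn 0 (exp w) = 0 := by
        rw [hB, zero_mul, add_zero] at hzero
        rcases mul_eq_zero.mp hzero with h | h
        · exact absurd h hA
        · exact h
      refine ⟨-(Bn 1 (exp w) / aeval (exp w) A), ?_, ?_⟩
      · rw [h0, hB, mul_zero]
      · field_simp
    · refine ⟨Bn 0 (exp w) / aeval (exp w) B, ?_, ?_⟩
      · field_simp
      · field_simp
        linear_combination hzero
  have hμ : μ ≠ 0 := by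
    rintro rfl
    exact hbn ⟨by rw [hx, zero_mul], by rw [hy, zero_mul, neg_zero]⟩
  obtain ⟨d, K2, hd, hK2, hL⟩ := Pool.Agent.Y406.SG.liou _ halg
  obtain ⟨K, hK, hS⟩ := Pool.Agent.Y759.SG.sieg d (d + 2) hd (by omega)
  obtain ⟨K1, hK1, hU⟩ := Pool.Agent.Y542.SG.up Pool.Agent.Y971.SG.bes Pool.Agent.Y376.SG.ps
    d (d + 2) K w hd (by omega) hK
  obtain ⟨K4, hK4, hH⟩ := Pool.Agent.Y514.SG.ht d (d + 2) K hd (by omega) hK
  -- the constants of `B^i (-A)^(d-i)`
  set F : ℕ → ℤ[X] := fun i => B ^ i * (-A) ^ (d - i) with hF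
  set M : ℝ := 1 + ∑ i ∈ Finset.range (d + 1), s2abs (F i) with hM
  set D : ℕ := (Finset.range (d + 1)).sup fun i => (F i).natDegree with hD
  have hM1 : 1 ≤ M := by
    have : 0 ≤ ∑ i ∈ Finset.range (d + 1), s2abs (F i) := Finset.sum_nonneg fun _ _ => s2abs_nonneg _
    linarith
  set K3 : ℝ := M * K4 with hK3def
  have hK3 : 1 ≤ K3 := by
    rw [hK3def]
    nlinarith
  set b : ℝ := ‖μ‖ with hb
  have hb0 : 0 ≤ b := norm_nonneg _
  have hK1' : 0 < K1 := by linarith
  have hK2' : 0 < K2 := by linarith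
  have hK3' : 0 < K3 := by linarith
  have hK4' : 0 < K4 := by linarith
  have key : ∀ n : ℕ, 1 ≤ n →
      b ^ d ≤ ((K2 ^ (d ^ 2 + d + 3 + D) * K3 ^ (d - 1) * K1) / n) ^ n := by
    intro n hn
    have hn0 : (0 : ℝ) < (n : ℝ) := by exact_mod_cast hn
    obtain ⟨P, hP0, hPne, hPdeg, hPc, hPX⟩ := hS n hn
    obtain ⟨k, hk, hk1, hk2⟩ := rank2 d (d + 2) n P w hd (by omega) hn
      hP0 (hDet d P hP0 hPne) hPdeg hPX
    have hu := hU n k P hn hk hPdeg hPc hPX
    rw [hk1, s2lam d (Pk d P k) A B w μ hx hy, norm_mul, norm_pow] at hu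
    rw [s2lam d (Pk d P k) A B w μ hx hy] at hk2
    have hHH := hH n k P hn hk hP0 hPdeg hPc
    set R : ℤ[X] := ∑ i ∈ Finset.range (d + 1), Pk d P k i * (B ^ i * (-A) ^ (d - i)) with hR
    have hRne : aeval (exp w) R ≠ 0 := fun h => hk2 (by rw [h, mul_zero])
    set G : ℝ := (n : ℝ) ^ ((2 + 1 / ((d + 2 : ℕ) : ℝ)) * n) with hG
    have hG0 : 0 ≤ G := by positivity
    set H : ℝ := K3 ^ n * G with hHdef
    have hdeg : R.natDegree ≤ n + k + D := by
      rw [hR]
      refine Polynomial.natDegree_sum_le_of_forall_le _ _ fun i hi => ?_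
      refine Polynomial.natDegree_mul_le.trans ?_
      refine Nat.add_le_add (hHH i).1 ?_
      rw [hD]
      exact Finset.le_sup (f := fun i => (F i).natDegree) hi
    have hco : ∀ l, (|R.coeff l| : ℝ) ≤ H := by
      intro l
      have h1 : (|R.coeff l| : ℝ) ≤ ∑ i ∈ Finset.range (d + 1), (K4 ^ n * G) * s2abs (F i) := by
        rw [hR, Polynomial.finsetSum_coeff]
        push_cast
        refine (Finset.abs_sum_le_sum_abs _ _).trans ?_
        refine Finset.sum_le_sum fun i _ => ?_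
        exact s2coeff_mul (Pk d P k i) (F i) (K4 ^ n * G) (hHH i).2 l
      refine h1.trans ?_
      rw [← Finset.mul_sum, hHdef, hK3def, mul_pow]
      have h2 : ∑ i ∈ Finset.range (d + 1), s2abs (F i) ≤ M := by rw [hM]; linarith
      have h3 : M ≤ M ^ n := le_self_pow₀ hM1 (by omega)
      have h4 : 0 ≤ K4 ^ n * G := by positivity
      calc K4 ^ n * G * ∑ i ∈ Finset.range (d + 1), s2abs (F i) ≤ K4 ^ n * G * M ^ n :=
            mul_le_mul_of_nonneg_left (h2.trans h3) h4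
        _ = M ^ n * K4 ^ n * G := by ring
    have hl := hL R H hRne hco
    set β : ℝ := ‖aeval (Complex.exp w) R‖ with hβ
    have hH0 : 0 ≤ H := by positivity
    have hdeg2 : R.natDegree + 1 ≤ (d ^ 2 + d + 3 + D) * n := by
      have e1 : n / (d + 2) ≤ n := Nat.div_le_self _ _
      have e2 : (d ^ 2 + d) * 1 ≤ (d ^ 2 + d) * n := Nat.mul_le_mul_left _ hn
      have e4 : D * 1 ≤ D * n := Nat.mul_le_mul_left _ hn
      have e3 : (d ^ 2 + d + 3 + D) * n = (d ^ 2 + d) * n + 3 * n + D * n := by ring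
      omega
    have hpw : K2 ^ (R.natDegree + 1) ≤ K2 ^ ((d ^ 2 + d + 3 + D) * n) :=
      pow_le_pow_right₀ hK2 hdeg2
    have hβ0 : 0 ≤ β := norm_nonneg _
    have hbd : 0 ≤ b ^ d := pow_nonneg hb0 _
    have c1 : b ^ d ≤ K2 ^ ((d ^ 2 + d + 3 + D) * n) * H ^ (d - 1) * (b ^ d * β) := by
      have : (1 : ℝ) ≤ K2 ^ ((d ^ 2 + d + 3 + D) * n) * H ^ (d - 1) * β :=
        hl.trans (mul_le_mul_of_nonneg_right (mul_le_mul_of_nonneg_right hpw (pow_nonneg hH0 _)) hβ0)
      nlinarith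
    have c2 : K2 ^ ((d ^ 2 + d + 3 + D) * n) * H ^ (d - 1) * (b ^ d * β) ≤
        K2 ^ ((d ^ 2 + d + 3 + D) * n) * H ^ (d - 1) *
          (K1 ^ n * (n : ℝ) ^ ((3 / ((d + 2 : ℕ) : ℝ) - 2 * (d : ℝ)) * n)) :=
      mul_le_mul_of_nonneg_left hu (mul_nonneg (pow_nonneg hK2'.le _) (pow_nonneg hH0 _))
    have c3 : K2 ^ ((d ^ 2 + d + 3 + D) * n) * H ^ (d - 1) *
          (K1 ^ n * (n : ℝ) ^ ((3 / ((d + 2 : ℕ) : ℝ) - 2 * (d : ℝ)) * n)) =
        ((K2 ^ (d ^ 2 + d + 3 + D) * K3 ^ (d - 1) * K1) / n) ^ n := by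
      have e1 : H ^ (d - 1) = (K3 ^ (d - 1)) ^ n *
          (n : ℝ) ^ (((2 + 1 / ((d + 2 : ℕ) : ℝ)) * n) * ((d - 1 : ℕ) : ℝ)) := by
        rw [Real.rpow_mul hn0.le ((2 + 1 / ((d + 2 : ℕ) : ℝ)) * n) ((d - 1 : ℕ) : ℝ),
          Real.rpow_natCast, hHdef, mul_pow, ← pow_mul, ← pow_mul, mul_comm n (d - 1)]
      have e2 : (n : ℝ) ^ (((2 + 1 / ((d + 2 : ℕ) : ℝ)) * n) * ((d - 1 : ℕ) : ℝ)) *
          (n : ℝ) ^ ((3 / ((d + 2 : ℕ) : ℝ) - 2 * (d : ℝ)) * n) = (1 / (n : ℝ)) ^ n := by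
        rw [← Real.rpow_add hn0]
        have : ((2 + 1 / ((d + 2 : ℕ) : ℝ)) * n) * ((d - 1 : ℕ) : ℝ) +
            (3 / ((d + 2 : ℕ) : ℝ) - 2 * (d : ℝ)) * n = -(n : ℝ) := by
          rw [Nat.cast_sub hd]
          push_cast
          have hd0 : (d : ℝ) + 2 ≠ 0 := by positivity
          have e4 : ∀ D M r : ℝ, D + 2 ≠ 0 → r = 1 / (D + 2) →
              (2 + r) * M * (D - 1) + (3 * r - 2 * D) * M = -M := by
            intro D M r h0 hr
            have h5 : r * (D + 2) = 1 := by rw [hr]; field_simp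
            linear_combination M * h5
          have := e4 (d : ℝ) (n : ℝ) (1 / ((d : ℝ) + 2)) hd0 rfl
          rw [← this]
          ring
        rw [this, Real.rpow_neg hn0.le, Real.rpow_natCast, one_div, inv_pow]
      have e5 : ∀ A x : ℝ, (A / x) ^ n = A ^ n * (1 / x) ^ n := by
        intro A x
        rw [← mul_pow, mul_one_div]
      rw [e1, e5, ← e2, mul_pow, mul_pow, pow_mul]
      ring
    calc b ^ d ≤ _ := c1
      _ ≤ _ := c2
      _ = _ := c3
  have hz := Pool.Agent.Y376.SG.final_zero (b ^ d) _ (pow_nonneg hb0 _) (by positivity) key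
  have hb1 : b = 0 := by
    exact (pow_eq_zero_iff (by omega)).1 hz
  exact hμ (norm_eq_zero.1 hb1)

end Pool.Agent.Helper327_Drum
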