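import Pool.Agent.Y245.SG.Main
import Pool.Agent.Helper327_Drum.Fin.SG2

/-
JOB SG3 (owner helper327, problem MP_d92c84_an). The import (with its dependencies) is on origin/main.
-/

set_option autoImplicit false

open Complex Polynomial Filter Topology

namespace Pool.Agent.Helper327_Drum

open Pool.Agent.Y245.SG

/-- the recursion `x_(k+2) = (k + 2) x_(k+1) - X x_k` with given start -/
noncomputable def recG (a b : ℤ[X]) : ℕ → ℤ[X]
  | 0 => a
  | 1 => b
  | k + 2 => C ((k : ℤ) + 2) * recG a b (k + 1) - X * recG a b k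

theorem recG_det (a b a' b' : ℤ[X]) (k : ℕ) :
    recG a b k * recG a' b' (k + 1) - recG a b (k + 1) * recG a' b' k = X ^ k * (a * b' - b * a') := by
  induction k with
  | zero => simp [recG]
  | succ k ih =>
    change recG a b (k + 1) * (C ((k : ℤ) + 2) * recG a' b' (k + 1) - X * recG a' b' k) -
      (C ((k : ℤ) + 2) * recG a b (k + 1) - X * recG a b k) * recG a' b' (k + 1) = _
    linear_combination X * ih

theorem recG_eq (α : ℂ) (k : ℕ) :
    α ^ k * Bn (k + 1) α = aeval α (recG 0 (-1) k) * Bn 0 α + aeval α (recG 1 1 k) * Bn 1 α ∧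
    α ^ (k + 1) * Bn (k + 2) α =
      aeval α (recG 0 (-1) (k + 1)) * Bn 0 α + aeval α (recG 1 1 (k + 1)) * Bn 1 α := by
  have hB := Pool.Agent.Y971.SG.bes
  induction k with
  | zero =>
    refine ⟨by simp [recG], ?_⟩
    have h2 := (hB 0).2.2.2 α
    push_cast at h2
    simp only [recG, map_neg, map_one, zero_add, pow_one] at h2 ⊢
    linear_combination h2
  | succ k ih =>
    refine ⟨ih.2, ?_⟩
    have h2 := (hB (k + 1)).2.2.2 α
    change α ^ (k + 2) * Bn (k + 1 + 2) α =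
      aeval α (C ((k : ℤ) + 2) * recG 0 (-1) (k + 1) - X * recG 0 (-1) k) * Bn 0 α +
      aeval α (C ((k : ℤ) + 2) * recG 1 1 (k + 1) - X * recG 1 1 k) * Bn 1 α
    have e2 := ih.2
    have e1 := ih.1
    have hC : aeval α (C ((k : ℤ) + 2) : ℤ[X]) = (k : ℂ) + 2 := by
      rw [aeval_C]; simp
    rw [map_sub, map_sub, map_mul, map_mul, map_mul, map_mul, hC, aeval_X]
    change α ^ (k + 1) * Bn (k + 1 + 1) α = _ at e2
    push_cast at h2 ⊢
    linear_combination α ^ (k + 1) * h2 + ((k : ℂ) + 2) * e2 - α * e1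

theorem Bn_ne (α : ℂ) (hα : α ≠ 0) (halg : IsAlgebraic ℚ α) (m : ℕ) : Bn m α ≠ 0 := by
  cases m with
  | zero =>
    have := siegel2 α hα halg 1 0 (Or.inl (by simp))
    simpa using this
  | succ k =>
    intro h0
    have h1 := (recG_eq α k).1
    rw [h0, mul_zero] at h1
    refine siegel2 α hα halg (recG 0 (-1) k) (recG 1 1 k) ?_ h1.symm
    by_contra hcon
    push Not at hcon
    have h2 := congrArg (aeval α) (recG_det 0 (-1) 1 1 k)
    simp only [map_sub, map_mul, map_pow, map_neg, map_one, map_zero, aeval_X, hcon.1, hcon.2] at h2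
    have h3 : α ^ k ≠ 0 := pow_ne_zero _ hα
    apply h3
    linear_combination -h2

/-- the polynomials with `q ^ k Bn (m+1+k) q = Bn (m+1) q * MM m k q` if `Bn m q = 0` -/
noncomputable def MM (m : ℕ) : ℕ → ℤ[X]
  | 0 => 1
  | 1 => C ((m : ℤ) + 1)
  | k + 2 => C ((m : ℤ) + k + 2) * MM m (k + 1) - X * MM m k

theorem MM_coeff (m k : ℕ) : 0 < (MM m k).coeff 0 ∧ 0 < (MM m (k + 1)).coeff 0 := by
  induction k with
  | zero =>
    refine ⟨by simp [MM], ?_⟩
    change 0 < (C ((m : ℤ) + 1)).coeff 0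
    rw [coeff_C_zero]; positivity
  | succ k ih =>
    refine ⟨ih.2, ?_⟩
    change 0 < (C ((m : ℤ) + k + 2) * MM m (k + 1) - X * MM m k).coeff 0
    rw [coeff_sub, coeff_C_mul, coeff_X_mul_zero, sub_zero]
    exact mul_pos (by positivity) ih.2

theorem MM_eq (m : ℕ) {q : ℂ} (h1 : Bn m q = 0) (k : ℕ) :
    q ^ k * Bn (m + 1 + k) q = Bn (m + 1) q * aeval q (MM m k) ∧
    q ^ (k + 1) * Bn (m + 1 + (k + 1)) q = Bn (m + 1) q * aeval q (MM m (k + 1)) := by
  have hB := Pool.Agent.Y971.SG.bes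
  induction k with
  | zero =>
    refine ⟨by simp [MM], ?_⟩
    have h2 := (hB m).2.2.2 q
    rw [h1] at h2
    change q ^ 1 * Bn (m + 2) q = Bn (m + 1) q * aeval q (C ((m : ℤ) + 1))
    rw [aeval_C]
    simp only [algebraMap_int_eq, eq_intCast]
    push_cast
    linear_combination h2
  | succ k ih =>
    refine ⟨ih.2, ?_⟩
    have h2 := (hB (m + 1 + k)).2.2.2 q
    change q ^ (k + 2) * Bn (m + 1 + k + 2) q =
      Bn (m + 1) q * aeval q (C ((m : ℤ) + k + 2) * MM m (k + 1) - X * MM m k)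
    have e2 := ih.2
    have e1 := ih.1
    change q ^ (k + 1) * Bn (m + 1 + k + 1) q = _ at e2
    rw [map_sub, map_mul, map_mul, aeval_C, aeval_X]
    simp only [algebraMap_int_eq, eq_intCast]
    push_cast at h2 ⊢
    linear_combination q ^ (k + 1) * h2 + ((m : ℂ) + k + 2) * e2 - q * e1

/-- TARGET: Bourget's hypothesis for all pairs. -/
theorem bourget_all (m m' : ℕ) (hm : m < m') (q : ℂ) (hq : q ≠ 0) : ¬ (Bn m q = 0 ∧ Bn m' q = 0) := by
  rintro ⟨h1, h2⟩
  have hB := Pool.Agent.Y971.SG.bes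
  obtain ⟨k, rfl⟩ : ∃ k, m' = m + 1 + k := ⟨m' - (m + 1), by omega⟩
  have h3 : Bn (m + 1) q ≠ 0 := fun h => Pool.Agent.Y987.SG.bnc hB m q ⟨h1, h⟩
  have h4 := (MM_eq m h1 k).1
  rw [h2, mul_zero] at h4
  have h5 : aeval q (MM m k) = 0 := (mul_eq_zero.1 h4.symm).resolve_left h3
  have h0 : MM m k ≠ 0 := by
    intro h
    have := (MM_coeff m k).1
    rw [h, coeff_zero] at this
    exact lt_irrefl _ this
  have h6 : IsAlgebraic ℤ q := ⟨MM m k, h0, h5⟩
  exact Bn_ne q hq ((IsFractionRing.isAlgebraic_iff ℤ ℚ ℂ).1 h6) m h1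

end Pool.Agent.Helper327_Drum
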