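import Pool.Agent.Helper327_Drum.Fin.AS2
import Pool.Agent.Helper327_Drum.Fin.SG3
import Pool.Agent.TH298.AN.ODEM
import Pool.Agent.Helper327_Drum.Fin.NB1

-- both targets done (only the given disc_moments keeps its sorry)
/-
JOB NB2 (owner helper327, problem MP_d92c84_an). All imports are on origin/main.
-/

set_option autoImplicit false
open MeasureTheory Set Filter Topology ComplexConjugate
open scoped ContDiff InnerProductSpace

namespace Pool.Agent.Helper327_Drum

open Pool.Agent.TH298.Sch (dd SC X)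
open Pool.Agent.TH298.AN (mc ms)
open Pool.Agent.R227.SA (la Wat Dat)
open TH259.NS (B J)

/-
Plain proof of B_real: B m s = Σ' k, bt m k s (TH259/NS/Bes.lean, bt m k s = (-1)^k s^k/(k! (k+m)!) or similar) and the complex function `Pool.Agent.Y245.SG.Bn m z` is the sum of
(-z)^k/(k! (k+m)!) (`Pool.Agent.Y971.SG.bes`, second component). `bourget_all` (Fin/SG3.lean): for m < m', q ≠ 0, not both Bn m q = 0 and Bn m' q = 0.
-/

theorem Bn_ofReal (m : ℕ) (s : ℝ) : Pool.Agent.Y245.SG.Bn m (s : ℂ) = ((B m s : ℝ) : ℂ) := by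
  unfold Pool.Agent.Y245.SG.Bn B
  rw [Complex.ofReal_tsum]
  refine tsum_congr fun k => ?_
  unfold TH259.NS.bt
  push_cast
  rw [neg_pow]

/-- TARGET 1: two different Bessel functions have no common positive zero. -/
theorem B_real {m m' : ℕ} (hm : m ≠ m') {s : ℝ} (hs : s ≠ 0) : ¬ (B m s = 0 ∧ B m' s = 0) := by
  rintro ⟨h1, h2⟩
  have hs' : (s : ℂ) ≠ 0 := by exact_mod_cast hs
  have e1 : Pool.Agent.Y245.SG.Bn m (s : ℂ) = 0 := by rw [Bn_ofReal, h1, Complex.ofReal_zero]
  have e2 : Pool.Agent.Y245.SG.Bn m' (s : ℂ) = 0 := by rw [Bn_ofReal, h2, Complex.ofReal_zero]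
  rcases lt_or_gt_of_ne hm with h | h
  · exact bourget_all m m' h s hs' ⟨e1, e2⟩
  · exact bourget_all m' m h s hs' ⟨e2, e1⟩

/-
Plain proof. u = 0 on the unit circle, so mc u n 1 = ms u n 1 = 0 for all n: α_n B n (lam/4) = 0 = β_n B n (lam/4). By `B_real` there is at most one m with B m (lam/4) = 0; for all other n
α_n = β_n = 0, so mc u n r = ms u n r = 0 for all r ∈ [0,1]. If there is no such m at all, then u = 0 on the disc by `Pool.Agent.R227.SA.fourier_uniq` (R227/SA11.lean), contradiction. If m ≥ 1: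
`one_mode_fn` (R227/SA11.lean) for θ ↦ u (X r θ) gives u (X r θ) = a_r cos(mθ) + b_r sin(mθ) (its a, b are mc u m r/π, ms u m r/π - if this is not visible from the statement recover it by
integrating, or repeat the proof) = r^m B m (lam r²/4) (α/π cos mθ + β/π sin mθ), first for θ ∈ [-π,π], then for all θ by periodicity. If m = 0: θ ↦ u (X r θ) - mc u 0 r/(2π) has all moments 0
(`fourier_uniq`), so u (X r θ) = B 0 (lam r²/4) α/(2π). α, β are not both 0 because u is not 0 (u = 0 off the disc).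
-/

open Pool.Agent.R227.SA in
theorem mode_rep {f : ℝ → ℝ} (hf : Continuous f) (m : ℕ) (a b : ℝ)
    (ha : ∫ θ in (-Real.pi)..Real.pi, f θ * Real.cos (m * θ) =
      a * ∫ θ in (-Real.pi)..Real.pi, Real.cos (m * θ) * Real.cos (m * θ))
    (hb : ∫ θ in (-Real.pi)..Real.pi, f θ * Real.sin (m * θ) =
      b * ∫ θ in (-Real.pi)..Real.pi, Real.sin (m * θ) * Real.sin (m * θ))
    (hc : ∀ n : ℕ, n ≠ m → ∫ θ in (-Real.pi)..Real.pi, f θ * Real.cos (n * θ) = 0)
    (hs : ∀ n : ℕ, n ≠ m → ∫ θ in (-Real.pi)..Real.pi, f θ * Real.sin (n * θ) = 0) :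
    ∀ θ ∈ Icc (-Real.pi) Real.pi, f θ = a * Real.cos (m * θ) + b * Real.sin (m * θ) := by
  have hcc : ∀ n : ℕ, n ≠ m →
      ∫ θ in (-Real.pi)..Real.pi, Real.cos (m * θ) * Real.cos (n * θ) = 0 := by
    intro n h
    rw [orth_cc, int_cos_int (n + m) (by omega), int_cos_int (n - m) (by omega)]
    simp
  have hss : ∀ n : ℕ, n ≠ m →
      ∫ θ in (-Real.pi)..Real.pi, Real.sin (m * θ) * Real.sin (n * θ) = 0 := by
    intro n h
    rw [orth_ss, int_cos_int (n + m) (by omega), int_cos_int (n - m) (by omega)]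
    simp
  have hsc : ∀ n : ℕ, ∫ θ in (-Real.pi)..Real.pi, Real.sin (m * θ) * Real.cos (n * θ) = 0 := by
    intro n
    have := orth_cs m n
    rw [← this]
    refine intervalIntegral.integral_congr fun θ _ => ?_
    ring
  have hg : Continuous fun θ => f θ - (a * Real.cos (m * θ) + b * Real.sin (m * θ)) := by fun_prop
  have key := fourier_uniq hg (fun n => ?_) (fun n => ?_)
  · intro θ hθ
    have := key θ hθ
    linarith
  · have e : ∀ θ : ℝ, (f θ - (a * Real.cos (m * θ) + b * Real.sin (m * θ))) * Real.cos (n * θ) =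
        f θ * Real.cos (n * θ) - (a * (Real.cos (m * θ) * Real.cos (n * θ)) +
          b * (Real.sin (m * θ) * Real.cos (n * θ))) := fun θ => by ring
    simp only [e]
    rw [intervalIntegral.integral_sub (Continuous.intervalIntegrable (by fun_prop) _ _)
      (Continuous.intervalIntegrable (by fun_prop) _ _),
      intervalIntegral.integral_add (Continuous.intervalIntegrable (by fun_prop) _ _)
      (Continuous.intervalIntegrable (by fun_prop) _ _), intervalIntegral.integral_const_mul,
      intervalIntegral.integral_const_mul, hsc]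
    by_cases h : n = m
    · subst h
      rw [ha]
      ring
    · rw [hcc n h, hc n h]
      ring
  · have e : ∀ θ : ℝ, (f θ - (a * Real.cos (m * θ) + b * Real.sin (m * θ))) * Real.sin (n * θ) =
        f θ * Real.sin (n * θ) - (a * (Real.cos (m * θ) * Real.sin (n * θ)) +
          b * (Real.sin (m * θ) * Real.sin (n * θ))) := fun θ => by ring
    simp only [e]
    rw [intervalIntegral.integral_sub (Continuous.intervalIntegrable (by fun_prop) _ _)
      (Continuous.intervalIntegrable (by fun_prop) _ _),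
      intervalIntegral.integral_add (Continuous.intervalIntegrable (by fun_prop) _ _)
      (Continuous.intervalIntegrable (by fun_prop) _ _), intervalIntegral.integral_const_mul,
      intervalIntegral.integral_const_mul, orth_cs]
    by_cases h : n = m
    · subst h
      rw [hb]
      ring
    · rw [hss n h, hs n h]
      ring

theorem X_polar (x : ℂ) : X ‖x‖ (Complex.arg x) = x := by
  unfold Pool.Agent.TH298.Sch.X
  rw [Complex.ofReal_cos, Complex.ofReal_sin, Complex.norm_mul_cos_add_sin_mul_I]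

/-- TARGET 2: the eigenfunctions of the unit disc. -/
theorem disc_modes {lam : ℝ} (hlam : 0 < lam) {u : ℂ → ℝ} (hu : Wat (Metric.ball 0 1) lam u)
    (hne : ∃ x, u x ≠ 0) : ∃ (m : ℕ) (a b : ℝ), (a ≠ 0 ∨ b ≠ 0) ∧ (m = 0 → a ≠ 0) ∧
      B m (lam / 4) = 0 ∧ ∀ r ∈ Icc (0:ℝ) 1, ∀ θ : ℝ, u (X r θ) =
        r ^ m * B m (lam * r ^ 2 / 4) * (a * Real.cos (m * θ) + b * Real.sin (m * θ)) := by
  have hpi := Real.pi_pos
  have hXc : ∀ r : ℝ, Continuous fun θ => u (X r θ) := fun r => hu.cont.comp (by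
    unfold Pool.Agent.TH298.Sch.X; fun_prop)
  have hout : ∀ x : ℂ, 1 ≤ ‖x‖ → u x = 0 := fun x hx => hu.out x (by
    rw [mem_ball_zero_iff]; exact not_lt.2 hx)
  -- it is enough to vanish on the circles
  have hne' : ¬ ∀ r ∈ Icc (0:ℝ) 1, ∀ θ ∈ Icc (-Real.pi) Real.pi, u (X r θ) = 0 := by
    intro h
    obtain ⟨x, hx⟩ := hne
    apply hx
    rcases le_total 1 ‖x‖ with h1 | h1
    · exact hout x h1
    · rw [← X_polar x]
      exact h _ ⟨norm_nonneg x, h1⟩ _ ⟨(Complex.neg_pi_lt_arg x).le, Complex.arg_le_pi x⟩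
  have hX1 : ∀ θ, u (X 1 θ) = 0 := fun θ => hout _ (by rw [Pool.Agent.TH298.Sch.norm_X]; simp)
  have hmc1 : ∀ n, mc u n 1 = 0 := by
    intro n
    unfold Pool.Agent.TH298.AN.mc
    simp [hX1]
  have hms1 : ∀ n, ms u n 1 = 0 := by
    intro n
    unfold Pool.Agent.TH298.AN.ms
    simp [hX1]
  have hz : ∀ n, B n (lam / 4) ≠ 0 → ∀ r ∈ Icc (0:ℝ) 1, mc u n r = 0 ∧ ms u n r = 0 := by
    intro n hn
    obtain ⟨α, β, h⟩ := disc_moments hlam hu n
    have h1 := h 1 ⟨zero_le_one, le_refl _⟩
    rw [hmc1, hms1, one_pow, one_pow, mul_one, mul_one, mul_one] at h1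
    have hα : α = 0 := (mul_eq_zero.1 h1.1.symm).resolve_right hn
    have hβ : β = 0 := (mul_eq_zero.1 h1.2.symm).resolve_right hn
    intro r hr
    have h2 := h r hr
    rw [hα, hβ] at h2
    simpa using h2
  have hm : ∃ m, B m (lam / 4) = 0 := by
    by_contra hcon
    push Not at hcon
    apply hne'
    intro r hr
    exact Pool.Agent.R227.SA.fourier_uniq (hXc r) (fun n => (hz n (hcon n) r hr).1)
      (fun n => (hz n (hcon n) r hr).2)
  obtain ⟨m, hm⟩ := hm
  have hother : ∀ n, n ≠ m → B n (lam / 4) ≠ 0 := fun n hn h =>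
    B_real hn (by positivity : lam / 4 ≠ 0) ⟨h, hm⟩
  obtain ⟨α, β, hαβ⟩ := disc_moments hlam hu m
  -- the representation from the values on `[-π, π]`
  have key : ∀ a b : ℝ,
      (α = a * ∫ θ in (-Real.pi)..Real.pi, Real.cos (m * θ) * Real.cos (m * θ)) →
      (β = b * ∫ θ in (-Real.pi)..Real.pi, Real.sin (m * θ) * Real.sin (m * θ)) ∨ m = 0 →
      ∀ r ∈ Icc (0:ℝ) 1, ∀ θ : ℝ, u (X r θ) =
        r ^ m * B m (lam * r ^ 2 / 4) * (a * Real.cos (m * θ) + b * Real.sin (m * θ)) := by
    intro a b ha hb r hr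
    set c := r ^ m * B m (lam * r ^ 2 / 4) with hc
    have h1 := mode_rep (hXc r) m (a * c) (b * c) (by
      have := (hαβ r hr).1
      unfold Pool.Agent.TH298.AN.mc at this
      rw [this, ha, hc]; ring) (by
      rcases hb with hb | hb
      · have := (hαβ r hr).2
        unfold Pool.Agent.TH298.AN.ms at this
        rw [this, hb, hc]; ring
      · subst hb
        simp) (fun n hn => (hz n (hother n hn) r hr).1) (fun n hn => (hz n (hother n hn) r hr).2)
    have hper : Function.Periodic (fun θ => u (X r θ) -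
        c * (a * Real.cos (m * θ) + b * Real.sin (m * θ))) (2 * Real.pi) := by
      intro θ
      have e1 : (m : ℝ) * (θ + 2 * Real.pi) = m * θ + m * (2 * Real.pi) := by ring
      have e2 : X r (θ + 2 * Real.pi) = X r θ := by
        unfold Pool.Agent.TH298.Sch.X
        rw [Real.cos_add_two_pi, Real.sin_add_two_pi]
      simp only [e1, e2, Real.cos_add_nat_mul_two_pi, Real.sin_add_nat_mul_two_pi]
    intro θ
    obtain ⟨y, hy, h2⟩ := hper.exists_mem_Ico (by positivity) θ (-Real.pi)
    have h3 := h1 y ⟨hy.1, by have := hy.2; linarith⟩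
    have h4 : u (X r θ) - c * (a * Real.cos (m * θ) + b * Real.sin (m * θ)) =
      u (X r y) - c * (a * Real.cos (m * y) + b * Real.sin (m * y)) := h2
    rw [h3] at h4
    linarith
  rcases Nat.eq_zero_or_pos m with h0 | h0
  · have hk := key (α / (2 * Real.pi)) 0 (by
      subst h0
      simp
      field_simp
      ring) (Or.inr h0)
    have ha : α / (2 * Real.pi) ≠ 0 := by
      intro h
      apply hne'
      intro r hr θ _
      rw [hk r hr θ, h]
      simp
    exact ⟨m, _, _, Or.inl ha, fun _ => ha, hm, hk⟩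
  · have hcc : ∫ θ in (-Real.pi)..Real.pi, Real.cos (m * θ) * Real.cos (m * θ) = Real.pi := by
      rw [Pool.Agent.R227.SA.orth_cc, Pool.Agent.R227.SA.int_cos_int (m + m) (by omega)]
      simp
    have hss : ∫ θ in (-Real.pi)..Real.pi, Real.sin (m * θ) * Real.sin (m * θ) = Real.pi := by
      rw [Pool.Agent.R227.SA.orth_ss, Pool.Agent.R227.SA.int_cos_int (m + m) (by omega)]
      simp
    have hk := key (α / Real.pi) (β / Real.pi) (by rw [hcc]; field_simp)
      (Or.inl (by rw [hss]; field_simp))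
    refine ⟨m, _, _, ?_, fun h => absurd h (by omega), hm, hk⟩
    by_contra hcon
    push Not at hcon
    apply hne'
    intro r hr θ _
    rw [hk r hr θ, hcon.1, hcon.2]
    simp

end Pool.Agent.Helper327_Drum
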