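import Pool.Agent.Helper327_Drum.Fin.AS2
import Pool.Agent.TH298.AN.ODEM
import Pool.Agent.Helper327_Drum.Fin.NB2

/-
JOB NB3 (owner helper327, problem MP_d92c84_an). All imports are on origin/main.
-/

set_option autoImplicit false
open MeasureTheory Set Filter Topology ComplexConjugate
open scoped ContDiff InnerProductSpace

namespace Pool.Agent.Helper327_Drum

open Pool.Agent.TH298.Sch (dd SC X)
open Pool.Agent.R227.SA (la Wat Dat)
open TH259.NS (B J)

/-
`X r θ = r (cos θ + sin θ I)`; `B_deriv : HasDerivAt (B m) (-B (m+1) s) s`. Let f(r) = r^m B m (lam r²/4), real analytic on ℝ (B m is given by a power series; the zeros of B m, B (m+1) on compact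
intervals are finite: there may be a lemma in AS3/N3/K3 or TH298 on isolated zeros of B, used for `scc_circle`; otherwise prove analyticity of B from its power series).
Plain proof. Let x = X r θ, 0 < r < 1, be a critical point. The derivatives of u (X r θ) in r and in θ vanish (chain rule; u is differentiable in the ball, `wat_smooth` in Fin/AS2.lean):
f'(r) T(θ) = 0 and f(r) T'(θ) = 0 with T(θ) = a cos mθ + b sin mθ.
m = 0: T = a ≠ 0 so f'(r) = 0, -B 1 (lam r²/4) lam r/2 = 0. So ‖x‖ = r lies in the finite set Q of zeros of r ↦ B 1 (lam r²/4) in (0,1); P = {0}.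
m ≥ 1: T² + (T'/m)² = a² + b² ≠ 0, so T(θ), T'(θ) are not both 0, and f(r) f'(r) = 0: otherwise (f ≠ 0 and f' ≠ 0) T = T' = 0. If f(r) = 0 then f'(r) ≠ 0 (a zero of B m and B (m+1)
at the same point s ≠ 0 is impossible, by `B_real` of job NB2 or simply because f solves a second order linear equation; or avoid this: see below) so T(θ) = 0. If f(r) ≠ 0 then T'(θ) = 0 and f'(r) = 0.
In both cases r lies in the finite set of zeros of f f' in (0,1) and θ in the finite set of zeros of T T' in [0, 2π). So P = {0} ∪ {X r θ : f(r) f'(r) = 0, r ∈ (0,1), T(θ) T'(θ) = 0, θ ∈ [0,2π)} is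
finite and Q = ∅. (To avoid the remark about common zeros of f and f': f f' = 0 is enough for r ∈ finite set; for θ: if T T' ≠ 0 at θ then f'(r) = 0 and f(r) = 0; exclude it by the recurrence
`B_ode : s B (n+2) s - (n+1) B (n+1) s + B n s = 0`: if B m s = B (m+1) s = 0 with s ≠ 0 then B n s = 0 for all n ≥ m, and B n s → impossible since |n! B n s - 1| → 0; or by the uniqueness theorem.
There is also `Pool.Agent.Y987.SG.bnc` for the complex version.)
-/

open Pool.Agent.TH298.Sch (er et X_dr X_dt norm_X X_eq er_exp)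
open Pool.Agent.TH298.AN.ODEM (ze pe ze_deriv)
open TH259.NS (bt B_deriv B_ode B_zero bt_summable)

theorem dc_an (m : ℕ) : AnalyticOnNhd ℝ (B m) univ := by
  set c : ℕ → ℝ := fun k => (-1) ^ k / ((k.factorial : ℝ) * ((k + m).factorial : ℝ)) with hc
  have hr : (FormalMultilinearSeries.ofScalars ℝ c).radius = ⊤ := by
    apply FormalMultilinearSeries.radius_eq_top_of_summable_norm
    intro r
    refine Summable.of_norm_bounded (Real.summable_pow_div_factorial (r : ℝ)) fun k => ?_
    rw [FormalMultilinearSeries.ofScalars_norm, norm_mul, norm_norm, norm_pow]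
    have h1 : (0 : ℝ) < k.factorial := by positivity
    have h2 : (1 : ℝ) ≤ (k + m).factorial := by
      exact_mod_cast Nat.one_le_iff_ne_zero.2 (Nat.factorial_ne_zero _)
    have h3 : ‖c k‖ ≤ 1 / (k.factorial : ℝ) := by
      rw [hc]
      show ‖(-1 : ℝ) ^ k / ((k.factorial : ℝ) * ((k + m).factorial : ℝ))‖ ≤ _
      rw [norm_div, norm_pow, norm_neg, norm_one, one_pow, Real.norm_eq_abs,
        abs_of_pos (show (0 : ℝ) < (k.factorial : ℝ) * ((k + m).factorial : ℝ) by positivity)]
      apply div_le_div_of_nonneg_left zero_le_one h1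
      nlinarith
    have h4 : ‖(r : ℝ)‖ = r := Real.norm_of_nonneg r.2
    rw [h4]
    calc ‖c k‖ * (r : ℝ) ^ k ≤ 1 / (k.factorial : ℝ) * (r : ℝ) ^ k := by gcongr
      _ = (r : ℝ) ^ k / (k.factorial : ℝ) := by ring
  have h1 := FormalMultilinearSeries.hasFPowerSeriesOnBall (FormalMultilinearSeries.ofScalars ℝ c)
    (by rw [hr]; exact ENNReal.zero_lt_top)
  have h2 : (FormalMultilinearSeries.ofScalars ℝ c).sum = B m := by
    funext s
    have h3 := FormalMultilinearSeries.ofScalars_sum_eq (E := ℝ) c s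
    unfold FormalMultilinearSeries.ofScalarsSum at h3
    rw [h3]
    unfold B
    refine tsum_congr fun k => ?_
    rw [hc]
    unfold bt
    rw [smul_eq_mul]
    ring
  rw [h2, hr] at h1
  have h3 := h1.analyticOnNhd
  intro x _
  exact h3 x (by simp)

theorem dc_fin {f : ℝ → ℝ} (hf : AnalyticOnNhd ℝ f univ) {x₀ : ℝ} (h0 : f x₀ ≠ 0) (a b : ℝ) :
    {x | x ∈ Icc a b ∧ f x = 0}.Finite := by
  by_contra hinf
  have hinf : {x | x ∈ Icc a b ∧ f x = 0}.Infinite := hinf
  obtain ⟨z, _, hz⟩ := hinf.exists_accPt_of_subset_isCompact isCompact_Icc fun x hx => hx.1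
  have h1 : ∃ᶠ x in 𝓝[≠] z, f x = 0 := by
    rw [accPt_iff_frequently_nhdsNE] at hz
    exact hz.mono fun x hx => hx.2
  have h2 := hf.eqOn_zero_of_preconnected_of_frequently_eq_zero isPreconnected_univ
    (mem_univ z) h1
  exact h0 (h2 (mem_univ x₀))

/-- no common zeros -/
theorem dc_simple (m : ℕ) {y : ℝ} (hy : 0 < y) (h0 : B m y = 0) : B (m + 1) y ≠ 0 := by
  intro h1
  set E : ℝ → ℝ := fun t => t ^ (m + 1) * B m t ^ 2 - m * t ^ (m + 1) * B m t * B (m + 1) t +
    t ^ (m + 2) * B (m + 1) t ^ 2 with hE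
  have hd : ∀ t : ℝ, HasDerivAt E (t ^ m * B m t ^ 2) t := by
    intro t
    have a0 := B_deriv m t
    have a1 : HasDerivAt (B (m + 1)) (-B (m + 2) t) t := B_deriv (m + 1) t
    have ho := B_ode m t
    have p1 : HasDerivAt (fun t : ℝ => t ^ (m + 1)) (((m + 1 : ℕ) : ℝ) * t ^ m) t := by
      have := hasDerivAt_pow (m + 1) t
      simpa using this
    have p2 : HasDerivAt (fun t : ℝ => t ^ (m + 2)) (((m + 2 : ℕ) : ℝ) * t ^ (m + 1)) t := by
      have := hasDerivAt_pow (m + 2) t
      simpa using this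
    have h3 := ((p1.mul (a0.pow 2)).sub (((p1.const_mul (m : ℝ)).mul a0).mul a1)).add
      (p2.mul (a1.pow 2))
    refine h3.congr_deriv ?_
    simp only [Pi.pow_apply, Pi.mul_apply]
    push_cast
    have e1 : t ^ (m + 1) = t ^ m * t := pow_succ _ _
    have e2 : t ^ (m + 2) = t ^ m * t * t := by rw [pow_succ, pow_succ]
    rw [e1, e2]
    linear_combination (t ^ m * (m * B m t - 2 * t * B (m + 1) t)) * ho
  have hmono : ∀ t ∈ Icc 0 y, E t = 0 := by
    have hm : MonotoneOn E (Ici 0) := by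
      apply monotoneOn_of_deriv_nonneg (convex_Ici 0)
      · exact fun t _ => (hd t).continuousAt.continuousWithinAt
      · exact fun t _ => (hd t).differentiableAt.differentiableWithinAt
      · intro t ht
        rw [interior_Ici] at ht
        rw [(hd t).deriv]
        have : (0 : ℝ) < t := ht
        positivity
    intro t ht
    have h5 := hm (Set.mem_Ici.2 (le_refl (0 : ℝ))) (show t ∈ Ici 0 from ht.1) ht.1
    have h6 := hm (show t ∈ Ici 0 from ht.1) (show y ∈ Ici 0 from hy.le) ht.2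
    have h7 : E 0 = 0 := by rw [hE]; simp
    have h8 : E y = 0 := by rw [hE]; simp [h0, h1]
    rw [h7] at h5
    rw [h8] at h6
    exact le_antisymm h6 h5
  have hz : ∀ t ∈ Ioo 0 y, B m t = 0 := by
    intro t ht
    have h5 : E =ᶠ[𝓝 t] fun _ => 0 := by
      filter_upwards [Ioo_mem_nhds ht.1 ht.2] with s hs using hmono s ⟨hs.1.le, hs.2.le⟩
    have h6 := (hd t).unique ((hasDerivAt_const t (0 : ℝ)).congr_of_eventuallyEq h5)
    have h7 : t ^ m ≠ 0 := pow_ne_zero _ ht.1.ne'
    have h8 := (mul_eq_zero.1 h6).resolve_left h7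
    exact pow_eq_zero_iff (two_ne_zero) |>.1 h8
  have h9 : B m 0 = 0 := by
    have h10 : Tendsto (B m) (𝓝[>] 0) (𝓝 (B m 0)) :=
      (B_deriv m 0).continuousAt.tendsto.mono_left nhdsWithin_le_nhds
    have h11 : Tendsto (B m) (𝓝[>] 0) (𝓝 0) := by
      refine tendsto_const_nhds.congr' ?_
      filter_upwards [Ioo_mem_nhdsGT hy] with t ht using (hz t ht).symm
    exact tendsto_nhds_unique h10 h11
  rw [B_zero] at h9
  have : (0 : ℝ) < 1 / (m.factorial : ℝ) := by positivity
  exact this.ne' h9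

theorem dc_polar (x : ℂ) : x = X ‖x‖ (Complex.arg x) := by
  rw [X_eq, er_exp, Complex.norm_mul_exp_arg_mul_I]

theorem dc_crit {lam : ℝ} {u : ℂ → ℝ} (hu : Wat (Metric.ball 0 1) lam u) {m : ℕ} {a b : ℝ}
    (h : ∀ r ∈ Icc (0:ℝ) 1, ∀ θ : ℝ, u (X r θ) =
        r ^ m * B m (lam * r ^ 2 / 4) * (a * Real.cos (m * θ) + b * Real.sin (m * θ)))
    {r θ : ℝ} (hr0 : 0 < r) (hr1 : r < 1) (hc : fderiv ℝ u (X r θ) = 0) :
    pe m lam r * (a * Real.cos (m * θ) + b * Real.sin (m * θ)) = 0 ∧
    ze m lam r * (m * (-(a * Real.sin (m * θ)) + b * Real.cos (m * θ))) = 0 := by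
  have hx : X r θ ∈ Metric.ball (0 : ℂ) 1 := by
    rw [mem_ball_zero_iff, norm_X, abs_of_pos hr0]
    exact hr1
  have hd : HasFDerivAt u (0 : ℂ →L[ℝ] ℝ) (X r θ) := by
    have := ((wat_smooth hu hx).1.differentiableAt (by norm_num)).hasFDerivAt
    rwa [hc] at this
  constructor
  · have h1 : HasDerivAt (fun s => u (X s θ)) ((0 : ℂ →L[ℝ] ℝ) (er θ)) r :=
      hd.comp_hasDerivAt r (X_dr r θ)
    have h2 : HasDerivAt (fun s => ze m lam s * (a * Real.cos (m * θ) + b * Real.sin (m * θ)))
        (pe m lam r / r * (a * Real.cos (m * θ) + b * Real.sin (m * θ))) r :=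
      (ze_deriv m lam hr0).mul_const _
    have h3 : (fun s => u (X s θ)) =ᶠ[𝓝 r]
        fun s => ze m lam s * (a * Real.cos (m * θ) + b * Real.sin (m * θ)) := by
      filter_upwards [Ioo_mem_nhds hr0 hr1] with s hs
      exact h s ⟨hs.1.le, hs.2.le⟩ θ
    have h4 := (h1.unique (h2.congr_of_eventuallyEq h3)).symm
    simp only [zero_apply] at h4
    have h5 : pe m lam r * (a * Real.cos (m * θ) + b * Real.sin (m * θ)) =
        r * (pe m lam r / r * (a * Real.cos (m * θ) + b * Real.sin (m * θ))) := by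
      field_simp
    rw [h5, h4, mul_zero]
  · have h1 : HasDerivAt (fun t => u (X r t)) ((0 : ℂ →L[ℝ] ℝ) (r * et θ)) θ :=
      hd.comp_hasDerivAt θ (X_dt r θ)
    have hl : HasDerivAt (fun t : ℝ => (m : ℝ) * t) (m : ℝ) θ := by
      simpa using (hasDerivAt_id θ).const_mul (m : ℝ)
    have h2 : HasDerivAt (fun t => ze m lam r * (a * Real.cos (m * t) + b * Real.sin (m * t)))
        (ze m lam r * (m * (-(a * Real.sin (m * θ)) + b * Real.cos (m * θ)))) θ := by
      have := (((hl.cos.const_mul a).add (hl.sin.const_mul b)).const_mul (ze m lam r))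
      refine this.congr_deriv ?_
      ring
    have h3 : (fun t => u (X r t)) =
        fun t => ze m lam r * (a * Real.cos (m * t) + b * Real.sin (m * t)) := by
      funext t
      exact h r ⟨hr0.le, hr1.le⟩ t
    rw [h3] at h1
    have h4 := (h1.unique h2).symm
    simp only [zero_apply] at h4
    exact h4

/-- TARGET: the critical points of an eigenfunction of the unit disc. -/
theorem disc_crit {lam : ℝ} (hlam : 0 < lam) {u : ℂ → ℝ} (hu : Wat (Metric.ball 0 1) lam u)
    (hne : ∃ x, u x ≠ 0) : ∃ (P : Finset ℂ) (Q : Finset ℝ), (∀ ρ ∈ Q, 0 < ρ ∧ ρ < 1) ∧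
      ∀ x ∈ Metric.ball (0:ℂ) 1, fderiv ℝ u x = 0 → x ∈ P ∨ ‖x‖ ∈ Q := by
  classical
  obtain ⟨m, a, b, hab, hm0, hBz, h⟩ := disc_modes hlam hu hne
  have hBan : ∀ n, AnalyticOnNhd ℝ (fun r : ℝ => B n (lam * r ^ 2 / 4)) univ := by
    intro n
    have h1 : AnalyticOnNhd ℝ (fun r : ℝ => lam * r ^ 2 / 4) univ := by
      intro x _
      fun_prop
    exact (dc_an n).comp h1 (fun _ _ => mem_univ _)
  rcases Nat.eq_zero_or_pos m with hm | hm
  · subst hm
    have hfin := dc_fin (hBan 1) (x₀ := 0) (by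
      show B 1 (lam * 0 ^ 2 / 4) ≠ 0
      rw [show lam * 0 ^ 2 / 4 = 0 by ring, B_zero]
      norm_num) 0 1
    refine ⟨{0}, hfin.toFinset.filter (fun ρ => 0 < ρ ∧ ρ < 1), fun ρ hρ => ?_, ?_⟩
    · exact (Finset.mem_filter.1 hρ).2
    · intro x hx hc
      by_cases hx0 : x = 0
      · left; rw [hx0]; exact Finset.mem_singleton_self _
      · right
        have hr0 : 0 < ‖x‖ := norm_pos_iff.2 hx0
        have hr1 : ‖x‖ < 1 := by simpa using hx
        rw [dc_polar x] at hc
        have h2 := (dc_crit hu h hr0 hr1 hc).1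
        have ha := hm0 rfl
        rw [Finset.mem_filter, Set.Finite.mem_toFinset]
        refine ⟨⟨⟨hr0.le, hr1.le⟩, ?_⟩, hr0, hr1⟩
        unfold pe at h2
        simp only [Nat.cast_zero, zero_mul, Real.cos_zero, mul_one, Real.sin_zero, mul_zero,
          add_zero, pow_zero, one_mul, zero_sub, zero_add] at h2
        have h3 := (mul_eq_zero.1 h2).resolve_right ha
        rw [neg_eq_zero] at h3
        exact (mul_eq_zero.1 h3).resolve_left (by positivity)
  · have hmR : (0 : ℝ) < m := by exact_mod_cast hm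
    -- the radial function
    have hF : AnalyticOnNhd ℝ (fun r : ℝ => B m (lam * r ^ 2 / 4) *
        (m * B m (lam * r ^ 2 / 4) - 2 * (lam * r ^ 2 / 4) * B (m + 1) (lam * r ^ 2 / 4))) univ := by
      have h1 : AnalyticOnNhd ℝ (fun r : ℝ => 2 * (lam * r ^ 2 / 4)) univ := by
        intro x _
        fun_prop
      exact (hBan m).mul ((analyticOnNhd_const.mul (hBan m)).sub (h1.mul (hBan (m + 1))))
    have hfin := dc_fin hF (x₀ := 0) (by
      show B m (lam * 0 ^ 2 / 4) * (m * B m (lam * 0 ^ 2 / 4) -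
        2 * (lam * 0 ^ 2 / 4) * B (m + 1) (lam * 0 ^ 2 / 4)) ≠ 0
      rw [show lam * 0 ^ 2 / 4 = 0 by ring, B_zero]
      simp only [mul_zero, zero_mul, sub_zero]
      positivity) 0 1
    have hT : AnalyticOnNhd ℝ (fun θ : ℝ => (a * Real.cos (m * θ) + b * Real.sin (m * θ)) *
        (-(a * Real.sin (m * θ)) + b * Real.cos (m * θ))) univ := by
      intro x _
      have h1 : AnalyticAt ℝ (fun θ : ℝ => (m : ℝ) * θ) x := by fun_prop
      have hs : AnalyticAt ℝ (fun θ : ℝ => Real.sin (m * θ)) x := by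
        exact AnalyticAt.comp (g := Real.sin) (f := fun θ : ℝ => (m : ℝ) * θ)
          (by fun_prop) h1
      have hcs : AnalyticAt ℝ (fun θ : ℝ => Real.cos (m * θ)) x := by
        exact AnalyticAt.comp (g := Real.cos) (f := fun θ : ℝ => (m : ℝ) * θ)
          (by fun_prop) h1
      exact ((analyticAt_const.mul hcs).add (analyticAt_const.mul hs)).mul
        ((analyticAt_const.mul hs).neg.add (analyticAt_const.mul hcs))
    have hTne : ∃ θ₀ : ℝ, (a * Real.cos (m * θ₀) + b * Real.sin (m * θ₀)) *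
        (-(a * Real.sin (m * θ₀)) + b * Real.cos (m * θ₀)) ≠ 0 := by
      by_contra hcon
      push Not at hcon
      have h1 := hcon 0
      simp only [mul_zero, Real.cos_zero, Real.sin_zero, mul_one, add_zero, neg_zero,
        zero_add] at h1
      have h2 := hcon (Real.pi / 4 / m)
      have h3 : (m : ℝ) * (Real.pi / 4 / m) = Real.pi / 4 := by field_simp
      rw [h3, Real.cos_pi_div_four, Real.sin_pi_div_four] at h2
      have h4 : (b ^ 2 - a ^ 2) / 2 = 0 := by
        have h5 : (a * (√2 / 2) + b * (√2 / 2)) * (-(a * (√2 / 2)) + b * (√2 / 2)) =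
            (b ^ 2 - a ^ 2) / 4 * (√2 ^ 2) := by ring
        rw [h5, Real.sq_sqrt (by norm_num)] at h2
        linarith
      rcases mul_eq_zero.1 h1 with h5 | h5
      · have : b ^ 2 = 0 := by rw [h5] at h4; linarith
        have hb : b = 0 := pow_eq_zero_iff (two_ne_zero) |>.1 this
        rcases hab with h6 | h6
        · exact h6 h5
        · exact h6 hb
      · have : a ^ 2 = 0 := by rw [h5] at h4; linarith
        have ha : a = 0 := pow_eq_zero_iff (two_ne_zero) |>.1 this
        rcases hab with h6 | h6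
        · exact h6 ha
        · exact h6 h5
    obtain ⟨θ₀, hθ₀⟩ := hTne
    have hfinT := dc_fin hT (x₀ := θ₀) hθ₀ (-Real.pi) Real.pi
    refine ⟨insert 0 ((hfin.toFinset ×ˢ hfinT.toFinset).image fun p => X p.1 p.2), ∅,
      fun ρ hρ => absurd hρ (Finset.notMem_empty _), ?_⟩
    intro x hx hc
    left
    by_cases hx0 : x = 0
    · rw [hx0]; exact Finset.mem_insert_self _ _
    · apply Finset.mem_insert_of_mem
      have hr0 : 0 < ‖x‖ := norm_pos_iff.2 hx0
      have hr1 : ‖x‖ < 1 := by simpa using hx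
      have hpol := dc_polar x
      rw [hpol] at hc
      obtain ⟨c1, c2⟩ := dc_crit hu h hr0 hr1 hc
      set r := ‖x‖ with hr
      set θ := Complex.arg x with hθ
      have hs0 : 0 < lam * r ^ 2 / 4 := by positivity
      have hpe : pe m lam r = r ^ m *
        (m * B m (lam * r ^ 2 / 4) - 2 * (lam * r ^ 2 / 4) * B (m + 1) (lam * r ^ 2 / 4)) := rfl
      have hze : ze m lam r = r ^ m * B m (lam * r ^ 2 / 4) := rfl
      have hrm : r ^ m ≠ 0 := pow_ne_zero _ hr0.ne'
      have hno : ¬ (pe m lam r = 0 ∧ ze m lam r = 0) := by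
        rintro ⟨e1, e2⟩
        rw [hze] at e2
        have e3 := (mul_eq_zero.1 e2).resolve_left hrm
        rw [hpe, e3] at e1
        have e4 := (mul_eq_zero.1 e1).resolve_left hrm
        have e5 : 2 * (lam * r ^ 2 / 4) * B (m + 1) (lam * r ^ 2 / 4) = 0 := by linarith
        exact dc_simple m hs0 e3 ((mul_eq_zero.1 e5).resolve_left (by positivity))
      have hTT : ¬ (a * Real.cos (m * θ) + b * Real.sin (m * θ) = 0 ∧
          -(a * Real.sin (m * θ)) + b * Real.cos (m * θ) = 0) := by
        rintro ⟨e1, e2⟩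
        have e3 : a ^ 2 + b ^ 2 = 0 := by
          have e4 := Real.sin_sq_add_cos_sq (m * θ)
          have e5 : (a * Real.cos (m * θ) + b * Real.sin (m * θ)) ^ 2 +
              (-(a * Real.sin (m * θ)) + b * Real.cos (m * θ)) ^ 2 =
              (a ^ 2 + b ^ 2) * (Real.sin (m * θ) ^ 2 + Real.cos (m * θ) ^ 2) := by ring
          rw [e1, e2, e4] at e5
          linarith
        have e4 : a = 0 := by nlinarith [sq_nonneg a, sq_nonneg b]
        have e5 : b = 0 := by nlinarith [sq_nonneg a, sq_nonneg b]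
        rcases hab with h6 | h6
        · exact h6 e4
        · exact h6 e5
      rw [Finset.mem_image]
      refine ⟨(r, θ), ?_, hpol.symm⟩
      rw [Finset.mem_product, Set.Finite.mem_toFinset, Set.Finite.mem_toFinset]
      refine ⟨⟨⟨hr0.le, hr1.le⟩, ?_⟩, ⟨⟨(Complex.neg_pi_lt_arg x).le, Complex.arg_le_pi x⟩, ?_⟩⟩
      · show B m (lam * r ^ 2 / 4) *
          (m * B m (lam * r ^ 2 / 4) - 2 * (lam * r ^ 2 / 4) * B (m + 1) (lam * r ^ 2 / 4)) = 0
        by_contra hcon
        obtain ⟨g1, g2⟩ := mul_ne_zero_iff.1 hcon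
        apply hTT
        constructor
        · refine (mul_eq_zero.1 c1).resolve_left ?_
          rw [hpe]
          exact mul_ne_zero hrm g2
        · have c3 := (mul_eq_zero.1 c2).resolve_left (by rw [hze]; exact mul_ne_zero hrm g1)
          exact (mul_eq_zero.1 c3).resolve_left hmR.ne'
      · show (a * Real.cos (m * θ) + b * Real.sin (m * θ)) *
          (-(a * Real.sin (m * θ)) + b * Real.cos (m * θ)) = 0
        by_contra hcon
        obtain ⟨g1, g2⟩ := mul_ne_zero_iff.1 hcon
        apply hno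
        constructor
        · exact (mul_eq_zero.1 c1).resolve_right g1
        · exact (mul_eq_zero.1 c2).resolve_right (mul_ne_zero hmR.ne' g2)

end Pool.Agent.Helper327_Drum
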