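import Pool.Agent.Helper327_Drum.Fin.C1
import Pool.Agent.Helper327_Drum.Fin.F1
import Pool.Agent.R227.SA13

/-
JOB NC1 (owner helper327, problem MP_d92c84_an). All imports are on origin/main.
-/

set_option autoImplicit false
open MeasureTheory Set Filter Topology ComplexConjugate
open scoped ContDiff InnerProductSpace

namespace Pool.Agent.Helper327_Drum

open Pool.Agent.TH298.Sch (dd SC)
open Pool.Agent.R227.SA (la Wat Dat)

/-! #### local lemmas -/

lemma nc1_ev {D : Set ℂ} {lam : ℝ} {u : ℂ → ℝ} (hu : Wat D lam u) {x : ℂ} (hx : x ∈ D) :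
    ∃ U : ℂ → ℝ, SC U ∧ u =ᶠ[𝓝 x] U ∧ la U x = -(lam * u x) := by
  obtain ⟨r, hr, U, hU, hb, h⟩ := hu.loc x hx
  refine ⟨U, hU, ?_, ?_⟩
  · filter_upwards [Metric.ball_mem_nhds x hr] with y hy using (h y hy).1
  · have := h x (Metric.mem_ball_self hr)
    rw [this.2, this.1]

lemma nc1_la {D : Set ℂ} {lam : ℝ} {u : ℂ → ℝ} (hu : Wat D lam u) {x : ℂ} (hx : x ∈ D) :
    la u x = -(lam * u x) := by
  obtain ⟨U, hU, h1, h2⟩ := nc1_ev hu hx
  rw [J507.la_congr h1, h2]

lemma nc1_cd {D : Set ℂ} {lam : ℝ} {u : ℂ → ℝ} (hu : Wat D lam u) {x : ℂ} (hx : x ∈ D) :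
    ContDiffAt ℝ ∞ u x := by
  obtain ⟨U, hU, h1, -⟩ := nc1_ev hu hx
  exact hU.sm.contDiffAt.congr_of_eventuallyEq h1

lemma nc1_snd {g : ℝ → ℝ} {x : ℝ} (hmin : IsLocalMin g x) (hc : ContinuousAt g x) :
    0 ≤ deriv (deriv g) x := by
  by_contra hneg
  rw [not_le] at hneg
  have hd : deriv g x = 0 := hmin.deriv_eq_zero
  have hmax := isLocalMax_of_deriv_deriv_neg hneg hd hc
  have heq : g =ᶠ[𝓝 x] fun _ => g x := by
    filter_upwards [hmin, hmax] with y h1 h2
    exact le_antisymm h2 h1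
  have h1 : deriv g =ᶠ[𝓝 x] fun _ => 0 := by
    filter_upwards [heq.eventually_nhds] with y hy
    have hy' : g =ᶠ[𝓝 y] fun _ => g x := hy
    rw [hy'.deriv_eq, deriv_const]
  rw [h1.deriv_eq, deriv_const] at hneg
  exact lt_irrefl _ hneg

lemma nc1_dir {U : ℂ → ℝ} (hU : SC U) (x₀ v : ℂ) (t : ℝ) :
    HasDerivAt (fun t : ℝ => U (x₀ + t * v)) (dd v U (x₀ + t * v)) t := by
  have h1 : HasDerivAt (fun t : ℝ => x₀ + (t : ℂ) * v) v t := by
    have := ((Complex.ofRealCLM.hasDerivAt (x := t)).mul_const v).const_add x₀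
    simpa using this
  exact ((hU.diff _).hasFDerivAt).comp_hasDerivAt t h1

lemma nc1_min {U : ℂ → ℝ} (hU : SC U) {x₀ : ℂ} {K R : ℝ}
    (hmin : IsLocalMin (fun x : ℂ => K * (R - ‖x‖ ^ 2) - U x) x₀) : la U x₀ ≤ -(4 * K) := by
  have key : ∀ v : ℂ, ‖v‖ = 1 → dd v (dd v U) x₀ ≤ -(2 * K) := by
    intro v hv
    set c : ℝ := x₀.re * v.re + x₀.im * v.im with hc
    set g : ℝ → ℝ := fun t => K * (R - (‖x₀‖ ^ 2 + 2 * c * t + t ^ 2)) - U (x₀ + t * v) with hg
    have hn : ∀ t : ℝ, ‖x₀ + t * v‖ ^ 2 = ‖x₀‖ ^ 2 + 2 * c * t + t ^ 2 := by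
      intro t
      have hv2 : v.re * v.re + v.im * v.im = 1 := by
        rw [← Complex.normSq_apply, ← Complex.sq_norm, hv, one_pow]
      rw [Complex.sq_norm, Complex.sq_norm, Complex.normSq_apply, Complex.normSq_apply, hc]
      simp only [Complex.add_re, Complex.add_im, Complex.mul_re, Complex.mul_im, Complex.ofReal_re,
        Complex.ofReal_im, zero_mul, sub_zero, add_zero]
      linear_combination t ^ 2 * hv2
    have hline : Continuous fun t : ℝ => x₀ + (t : ℂ) * v := by fun_prop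
    have hmin' : IsLocalMin g 0 := by
      have h0 : IsLocalMin (fun x : ℂ => K * (R - ‖x‖ ^ 2) - U x) (x₀ + ((0 : ℝ) : ℂ) * v) := by
        simpa using hmin
      have h1 := h0.comp_continuous (g := fun t : ℝ => x₀ + (t : ℂ) * v) hline.continuousAt
      have h2 : ((fun x : ℂ => K * (R - ‖x‖ ^ 2) - U x) ∘ fun t : ℝ => x₀ + (t : ℂ) * v) = g := by
        funext t
        simp only [Function.comp_apply, hg, hn]
      rwa [h2] at h1
    have hd : ∀ t : ℝ, HasDerivAt g (K * (-(2 * c + 2 * t)) - dd v U (x₀ + t * v)) t := by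
      intro t
      have a1 : HasDerivAt (fun t : ℝ => ‖x₀‖ ^ 2 + 2 * c * t + t ^ 2) (2 * c + 2 * t) t := by
        have b1 := (((hasDerivAt_id t).const_mul (2 * c)).const_add (‖x₀‖ ^ 2)).add
          (hasDerivAt_pow 2 t)
        refine b1.congr_deriv ?_
        simp
      exact ((a1.const_sub R).const_mul K).sub (nc1_dir hU x₀ v t)
    have hd1 : deriv g = fun t : ℝ => K * (-(2 * c + 2 * t)) - dd v U (x₀ + t * v) :=
      funext fun t => (hd t).deriv
    have hd2 : HasDerivAt (deriv g) (-(2 * K) - dd v (dd v U) (x₀ + ((0 : ℝ) : ℂ) * v)) 0 := by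
      rw [hd1]
      have a1 : HasDerivAt (fun t : ℝ => K * (-(2 * c + 2 * t))) (-(2 * K)) 0 := by
        have b1 := ((((hasDerivAt_id (0 : ℝ)).const_mul 2).const_add (2 * c)).neg).const_mul K
        refine b1.congr_deriv ?_
        ring
      exact a1.sub (nc1_dir (Pool.Agent.TH298.Sch.dd_sc hU v) x₀ v 0)
    have h3 := nc1_snd hmin' (hd 0).continuousAt
    rw [hd2.deriv] at h3
    simp only [Complex.ofReal_zero, zero_mul, add_zero] at h3
    linarith
  have k1 := key 1 (by simp)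
  have k2 := key Complex.I (by simp)
  unfold la
  linarith

lemma nc1_half {D : Set ℂ} (hDo : IsOpen D) {lam ρ : ℝ} (hlam : 0 < lam)
    (hD : D ⊆ Metric.closedBall 0 ρ) {u : ℂ → ℝ} (hu : Wat D lam u) (h1 : ∀ x, u x ≤ 1) :
    ∀ x ∈ D, u x ≤ lam / 4 * (ρ ^ 2 - ‖x‖ ^ 2) := by
  intro x hx
  have hP : ∀ y ∈ Metric.closedBall (0 : ℂ) ρ, 0 ≤ ρ ^ 2 - ‖y‖ ^ 2 := by
    intro y hy
    rw [mem_closedBall_zero_iff] at hy
    have := pow_le_pow_left₀ (norm_nonneg y) hy 2
    linarith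
  have key : ∀ ε : ℝ, 0 < ε → u x ≤ (lam / 4 + ε) * (ρ ^ 2 - ‖x‖ ^ 2) := by
    intro ε hε
    set K := lam / 4 + ε with hK
    have hKpos : 0 < K := by positivity
    have hcl : closure D ⊆ Metric.closedBall 0 ρ := closure_minimal hD Metric.isClosed_closedBall
    have hcomp : IsCompact (closure D) :=
      (isCompact_closedBall 0 ρ).of_isClosed_subset isClosed_closure hcl
    have hcont : Continuous fun y : ℂ => K * (ρ ^ 2 - ‖y‖ ^ 2) - u y := by
      have := hu.cont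
      fun_prop
    obtain ⟨x₀, hx₀, hmin⟩ := hcomp.exists_isMinOn ⟨x, subset_closure hx⟩ hcont.continuousOn
    have hmin2 : ∀ y ∈ D, K * (ρ ^ 2 - ‖x₀‖ ^ 2) - u x₀ ≤ K * (ρ ^ 2 - ‖y‖ ^ 2) - u y :=
      fun y hy => hmin (subset_closure hy)
    have hx0 : 0 ≤ K * (ρ ^ 2 - ‖x₀‖ ^ 2) - u x₀ := by
      by_cases hxD : x₀ ∈ D
      · exfalso
        obtain ⟨U, hU, he, hla⟩ := nc1_ev hu hxD
        have hm1 : IsLocalMin (fun y : ℂ => K * (ρ ^ 2 - ‖y‖ ^ 2) - U y) x₀ := by
          have hev := he.self_of_nhds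
          filter_upwards [hDo.mem_nhds hxD, he] with y hy hyU
          rw [← hyU, ← hev]
          exact hmin2 y hy
        have h2 := nc1_min hU hm1
        rw [hla] at h2
        have h3 := h1 x₀
        have h4 : lam * u x₀ ≤ lam * 1 := mul_le_mul_of_nonneg_left h3 hlam.le
        rw [hK] at h2
        linarith
      · rw [hu.out x₀ hxD, sub_zero]
        exact mul_nonneg hKpos.le (hP x₀ (hcl hx₀))
    linarith [hmin2 x hx]
  have hPx := hP x (hD hx)
  refine le_of_forall_pos_le_add fun δ hδ => ?_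
  have h2 := key (δ / (ρ ^ 2 - ‖x‖ ^ 2 + 1)) (by positivity)
  have h3 : δ / (ρ ^ 2 - ‖x‖ ^ 2 + 1) * (ρ ^ 2 - ‖x‖ ^ 2) ≤ δ := by
    rw [div_mul_eq_mul_div, div_le_iff₀ (by positivity)]
    nlinarith
  linarith [add_mul (lam / 4) (δ / (ρ ^ 2 - ‖x‖ ^ 2 + 1)) (ρ ^ 2 - ‖x‖ ^ 2)]

/-- TARGET 1: a barrier. -/
theorem barrier {D : Set ℂ} (hDo : IsOpen D) {lam ρ : ℝ} (hlam : 0 < lam)
    (hD : D ⊆ Metric.closedBall 0 ρ) {u : ℂ → ℝ} (hu : Wat D lam u) (h1 : ∀ x, |u x| ≤ 1) :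
    ∀ x ∈ D, |u x| ≤ lam / 4 * (ρ ^ 2 - ‖x‖ ^ 2) := by
  intro x hx
  rw [abs_le]
  constructor
  · have := nc1_half hDo hlam hD hu.neg (fun y => (neg_le_abs (u y)).trans (h1 y)) x hx
    linarith
  · exact nc1_half hDo hlam hD hu (fun y => (le_abs_self _).trans (h1 y)) x hx

/-! #### the weak form -/

lemma nc1_ibp1 {f g : ℂ → ℝ} (hf : SC f) (hg : SC g) (v : ℂ) :
    ∫ x, f x * dd v g x = -∫ x, dd v f x * g x :=
  integral_mul_fderiv_eq_neg_fderiv_mul_of_integrable (f := f) (g := g) (v := v)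
    ((Pool.Agent.TH298.Sch.dd_sc hf v).mul hg).int (hf.mul (Pool.Agent.TH298.Sch.dd_sc hg v)).int
    (hf.mul hg).int (fun x _ => hf.diff x) (fun x _ => hg.diff x)

lemma nc1_ibp {f g : ℂ → ℝ} (hf : SC f) (hg : SC g) :
    ∫ x, f x * la g x = ∫ x, la f x * g x := by
  have hd : ∀ {f : ℂ → ℝ} (v : ℂ), SC f → SC (dd v f) := fun v h => Pool.Agent.TH298.Sch.dd_sc h v
  have e : ∀ v, ∫ x, f x * dd v (dd v g) x = ∫ x, dd v (dd v f) x * g x := by
    intro v
    rw [nc1_ibp1 hf (hd v hg) v, nc1_ibp1 (hd v hf) hg v, neg_neg]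
  simp only [la, mul_add, add_mul]
  rw [integral_add (hf.mul (hd 1 (hd 1 hg))).int (hf.mul (hd _ (hd _ hg))).int,
    integral_add ((hd 1 (hd 1 hf)).mul hg).int ((hd _ (hd _ hf)).mul hg).int, e, e]

lemma nc1_la_out {φ : ℂ → ℝ} {x : ℂ} (hx : x ∉ tsupport φ) : la φ x = 0 := by
  have h1 : φ =ᶠ[𝓝 x] fun _ => 0 := notMem_tsupport_iff_eventuallyEq.1 hx
  rw [J507.la_congr h1]
  have h2 : ∀ v : ℂ, dd v (fun _ : ℂ => (0 : ℝ)) = fun _ => 0 := by
    intro v
    funext y
    simp [dd]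
  simp [la, h2]

lemma nc1_weak {D : Set ℂ} {lam : ℝ} {u : ℂ → ℝ} (hu : Wat D lam u) {φ : ℂ → ℝ} (hφ : SC φ)
    {a b : ℝ} (ha : 0 < a) (hab : a < b) (hs : tsupport φ ⊆ Metric.ball 0 a)
    (hb : Metric.closedBall 0 b ⊆ D) : ∫ x, u x * (la φ x + lam * φ x) = 0 := by
  let χ : ContDiffBump (0 : ℂ) := ⟨a, b, ha, hab⟩
  have hχ1 : ∀ z ∈ Metric.ball (0 : ℂ) a, χ z = 1 := fun z hz =>
    χ.one_of_mem_closedBall (Metric.ball_subset_closedBall hz)
  have hχs : tsupport χ = Metric.closedBall 0 b := χ.tsupport_eq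
  set w : ℂ → ℝ := fun x => χ x * u x with hw
  have hwsm : ContDiff ℝ ∞ w := by
    rw [contDiff_iff_contDiffAt]
    intro z
    by_cases hz : z ∈ Metric.closedBall (0 : ℂ) b
    · exact ContDiffAt.mul χ.contDiff.contDiffAt (nc1_cd hu (hb hz))
    · have h1 : w =ᶠ[𝓝 z] fun _ => 0 := by
        rw [← hχs] at hz
        filter_upwards [(isClosed_tsupport χ).isOpen_compl.mem_nhds hz] with y hy
        rw [hw]
        simp only
        rw [image_eq_zero_of_notMem_tsupport hy, zero_mul]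
      exact contDiffAt_const.congr_of_eventuallyEq h1
  have hwsc : SC w := ⟨hwsm, χ.hasCompactSupport.mul_right⟩
  have hwu : ∀ x ∈ tsupport φ, w =ᶠ[𝓝 x] u := by
    intro x hx
    filter_upwards [Metric.isOpen_ball.mem_nhds (hs hx)] with y hy
    rw [hw]
    simp only
    rw [hχ1 y hy, one_mul]
  have hD : ∀ x ∈ tsupport φ, x ∈ D := fun x hx => hb (Metric.closedBall_subset_closedBall hab.le
    (Metric.ball_subset_closedBall (hs hx)))
  have e1 : ∀ x, u x * (la φ x + lam * φ x) = w x * la φ x + lam * (w x * φ x) := by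
    intro x
    by_cases hx : x ∈ tsupport φ
    · rw [(hwu x hx).self_of_nhds]
      ring
    · rw [nc1_la_out hx, image_eq_zero_of_notMem_tsupport hx]
      ring
  have hlaφ : SC (la φ) := Pool.Agent.R227.SA.la_sc hφ
  have hlaw : SC (la w) := Pool.Agent.R227.SA.la_sc hwsc
  simp only [e1]
  rw [integral_add (hwsc.mul hlaφ).int ((hwsc.mul hφ).int.const_mul lam), nc1_ibp hwsc hφ,
    ← integral_add (hlaw.mul hφ).int ((hwsc.mul hφ).int.const_mul lam)]
  rw [← integral_zero ℂ ℝ (μ := volume)]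
  refine integral_congr_ae (Eventually.of_forall fun x => ?_)
  simp only
  by_cases hx : x ∈ tsupport φ
  · rw [J507.la_congr (hwu x hx), nc1_la hu (hD x hx), (hwu x hx).self_of_nhds]
    ring
  · rw [image_eq_zero_of_notMem_tsupport hx]
    ring

/-! #### equicontinuity -/

lemma nc1_up {D : Set ℂ} (hDo : IsOpen D) {lam ε T : ℝ} (hlam : 0 < lam) (hlT : lam ≤ T)
    (hout : D ⊆ Metric.closedBall 0 (1 + ε)) {u : ℂ → ℝ} (hu : Wat D lam u) (h1 : ∀ x, |u x| ≤ 1)
    (x : ℂ) : |u x| ≤ max 0 (T / 4 * ((1 + ε) ^ 2 - ‖x‖ ^ 2)) := by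
  by_cases hx : x ∈ D
  · have h2 := barrier hDo hlam hout hu h1 x hx
    have h3 := hout hx
    rw [mem_closedBall_zero_iff] at h3
    have h4 := pow_le_pow_left₀ (norm_nonneg x) h3 2
    refine (h2.trans ?_).trans (le_max_right _ _)
    exact mul_le_mul_of_nonneg_right (by linarith) (by linarith)
  · rw [hu.out x hx, abs_zero]
    exact le_max_left _ _

lemma nc1_grad {D : Set ℂ} {lam T : ℝ} (hlam : 0 < lam) (hlT : lam ≤ T)
    {u : ℂ → ℝ} (hu : Wat D lam u) (h1 : ∀ x, |u x| ≤ 1) {x : ℂ} {r : ℝ} (hr : 0 < r)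
    (hb : Metric.ball x r ⊆ D) : ‖fderiv ℝ u x‖ ≤ 8 * (1 / r + T * r) := by
  refine grad_bd hr (fun y hy => ((nc1_cd hu (hb hy)).of_le ?_).contDiffWithinAt) (fun y _ => h1 y)
    (fun y hy => ?_)
  · exact WithTop.coe_le_coe.mpr (le_top : (2:ℕ∞) ≤ ⊤)
  · rw [nc1_la hu (hb hy), abs_neg, abs_mul, abs_of_pos hlam]
    calc lam * |u y| ≤ lam * 1 := mul_le_mul_of_nonneg_left (h1 y) hlam.le
      _ ≤ T := by linarith

lemma nc1_equi {D : ℕ → Set ℂ} {lam ε : ℕ → ℝ} {u : ℕ → ℂ → ℝ} {T : ℝ}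
    (hε : Tendsto ε atTop (𝓝 0)) (hDo : ∀ n, IsOpen (D n))
    (hin : ∀ n, Metric.ball 0 (1 - ε n) ⊆ D n) (hout : ∀ n, D n ⊆ Metric.closedBall 0 (1 + ε n))
    (hlam : ∀ n, 0 < lam n ∧ lam n ≤ T) (hu : ∀ n, Wat (D n) (lam n) (u n))
    (h1 : ∀ n x, |u n x| ≤ 1) (x₀ : ℂ) {η : ℝ} (hη : 0 < η) :
    ∀ᶠ x in 𝓝 x₀, ∀ n, |u n x - u n x₀| < η := by
  have hT : 0 < T := (hlam 0).1.trans_le (hlam 0).2
  obtain ⟨N, hN⟩ : ∃ N, ∀ᶠ x in 𝓝 x₀, ∀ n, N ≤ n → |u n x - u n x₀| < η := by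
    rcases lt_or_ge ‖x₀‖ 1 with hx | hx
    · set r := (1 - ‖x₀‖) / 4 with hr
      have hr0 : 0 < r := by rw [hr]; linarith
      obtain ⟨N, hN⟩ := eventually_atTop.1 (hε.eventually (gt_mem_nhds hr0))
      set L := 8 * (1 / r + T * r) with hL
      have hL0 : 0 < L := by positivity
      refine ⟨N, ?_⟩
      filter_upwards [Metric.ball_mem_nhds x₀ (lt_min hr0 (div_pos hη hL0))] with x hxb n hn
      have hxr : x ∈ Metric.ball x₀ r := Metric.ball_subset_ball (min_le_left _ _) hxb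
      have hxL : dist x x₀ < η / L := lt_of_lt_of_le hxb (min_le_right _ _)
      have hball : ∀ y ∈ Metric.ball x₀ r, Metric.ball y r ⊆ D n := by
        intro y hy z hz
        refine hin n ?_
        rw [mem_ball_zero_iff]
        have h2 := hN n hn
        rw [Metric.mem_ball, dist_eq_norm] at hy hz
        have h3 : ‖z‖ ≤ ‖z - y‖ + ‖y - x₀‖ + ‖x₀‖ := by
          have : z = (z - y) + (y - x₀) + x₀ := by ring
          conv_lhs => rw [this]
          exact (norm_add_le _ _).trans (add_le_add (norm_add_le _ _) le_rfl)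
        rw [hr] at *
        linarith
      have h3 := (convex_ball x₀ r).norm_image_sub_le_of_norm_fderiv_le (𝕜 := ℝ) (f := u n) (C := L)
        (fun y hy => (nc1_cd (hu n) (hball y hy (Metric.mem_ball_self hr0))).differentiableAt
          (by simp))
        (fun y hy => nc1_grad (hlam n).1 (hlam n).2 (hu n) (h1 n) hr0 (hball y hy))
        (Metric.mem_ball_self hr0) hxr
      rw [Real.norm_eq_abs, ← dist_eq_norm] at h3
      refine h3.trans_lt ?_
      rw [lt_div_iff₀ hL0] at hxL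
      linarith
    · -- near or outside the unit circle
      have hc : ContinuousAt (fun p : ℝ × ℂ => max 0 (T / 4 * ((1 + p.1) ^ 2 - ‖p.2‖ ^ 2)))
          (0, x₀) := by fun_prop
      have h0 : max 0 (T / 4 * ((1 + (0 : ℝ)) ^ 2 - ‖x₀‖ ^ 2)) < η / 2 := by
        rw [max_eq_left]
        · positivity
        · have : 1 ≤ ‖x₀‖ ^ 2 := one_le_pow₀ hx
          have h5 : (1 + (0 : ℝ)) ^ 2 - ‖x₀‖ ^ 2 ≤ 0 := by linarith
          exact mul_nonpos_of_nonneg_of_nonpos (by positivity) h5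
      have h2 : ∀ᶠ p : ℝ × ℂ in 𝓝 0 ×ˢ 𝓝 x₀,
          max 0 (T / 4 * ((1 + p.1) ^ 2 - ‖p.2‖ ^ 2)) < η / 2 := by
        rw [← nhds_prod_eq]
        exact hc.eventually (gt_mem_nhds h0)
      obtain ⟨P, hP, Q, hQ, hPQ⟩ := eventually_prod_iff.1 h2
      obtain ⟨N, hN⟩ := eventually_atTop.1 (hε.eventually hP)
      refine ⟨N, ?_⟩
      filter_upwards [hQ] with x hx n hn
      have a1 := (nc1_up (hDo n) (hlam n).1 (hlam n).2 (hout n) (hu n) (h1 n) x).trans_lt
        (hPQ (hN n hn) hx)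
      have a2 := (nc1_up (hDo n) (hlam n).1 (hlam n).2 (hout n) (hu n) (h1 n) x₀).trans_lt
        (hPQ (hN n hn) hQ.self_of_nhds)
      have a3 := abs_sub (u n x) (u n x₀)
      linarith
  have h2 : ∀ᶠ x in 𝓝 x₀, ∀ n ∈ Finset.range N, |u n x - u n x₀| < η := by
    rw [Filter.eventually_all_finset]
    intro n _
    have h3 : Tendsto (fun x => |u n x - u n x₀|) (𝓝 x₀) (𝓝 |u n x₀ - u n x₀|) := by
      have := (hu n).cont
      exact (Continuous.tendsto (by fun_prop) x₀)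
    rw [sub_self, abs_zero] at h3
    exact h3.eventually (gt_mem_nhds hη)
  filter_upwards [hN, h2] with x a b n
  by_cases hn : N ≤ n
  · exact a n hn
  · exact b n (Finset.mem_range.2 (not_le.1 hn))

/-- the compactness: a uniformly convergent subsequence -/
lemma nc1_conv {D : ℕ → Set ℂ} {lam ε : ℕ → ℝ} {u : ℕ → ℂ → ℝ} {T : ℝ}
    (hε : Tendsto ε atTop (𝓝 0)) (hε0 : ∀ n, 0 < ε n ∧ ε n < 1) (hDo : ∀ n, IsOpen (D n))
    (hin : ∀ n, Metric.ball 0 (1 - ε n) ⊆ D n) (hout : ∀ n, D n ⊆ Metric.closedBall 0 (1 + ε n))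
    (hlam : ∀ n, 0 < lam n ∧ lam n ≤ T) (hu : ∀ n, Wat (D n) (lam n) (u n))
    (h1 : ∀ n x, |u n x| ≤ 1) :
    ∃ (φ : ℕ → ℕ) (l : ℝ) (v : ℂ → ℝ), StrictMono φ ∧
      Tendsto (fun n => lam (φ n)) atTop (𝓝 l) ∧ TendstoUniformly (fun n => u (φ n)) v atTop := by
  classical
  have : CompactSpace (Metric.closedBall (0 : ℂ) 2) :=
    isCompact_iff_compactSpace.1 (isCompact_closedBall 0 2)
  let F : ℕ → BoundedContinuousFunction (Metric.closedBall (0 : ℂ) 2) ℝ := fun n =>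
    BoundedContinuousFunction.mkOfCompact ⟨fun x => u n x, (hu n).cont.comp continuous_subtype_val⟩
  have hF : ∀ n x, F n x = u n x := fun n x => rfl
  have hcomp : IsCompact (closure (range F)) := by
    refine BoundedContinuousFunction.arzela_ascoli (Metric.closedBall (0 : ℝ) 1)
      (isCompact_closedBall 0 1) (range F) ?_ ?_
    · rintro _ x ⟨n, rfl⟩
      rw [mem_closedBall_zero_iff, Real.norm_eq_abs]
      exact h1 n x
    · intro x₀
      rw [Metric.equicontinuousAt_iff_right]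
      intro η hη
      have h2 := (continuous_subtype_val (p := (· ∈ Metric.closedBall (0 : ℂ) 2))).continuousAt
        (x := x₀) |>.eventually (nc1_equi hε hDo hin hout hlam hu h1 (x₀ : ℂ) hη)
      filter_upwards [h2] with x hx
      rintro ⟨_, n, rfl⟩
      rw [dist_comm, Real.dist_eq]
      exact hx n
  have hprod : IsCompact (Icc (0 : ℝ) T ×ˢ closure (range F)) := isCompact_Icc.prod hcomp
  obtain ⟨⟨l, g⟩, -, φ, hφ, hlim⟩ := hprod.tendsto_subseq (x := fun n => (lam n, F n))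
    (fun n => ⟨⟨(hlam n).1.le, (hlam n).2⟩, subset_closure (mem_range_self n)⟩)
  rw [nhds_prod_eq, tendsto_prod_iff'] at hlim
  obtain ⟨hl1, hl2⟩ := hlim
  set v : ℂ → ℝ := fun x => if h : x ∈ Metric.closedBall (0 : ℂ) 2 then g ⟨x, h⟩ else 0 with hv
  refine ⟨φ, l, v, hφ, hl1, ?_⟩
  rw [Metric.tendstoUniformly_iff]
  intro η hη
  have h3 : ∀ᶠ n in atTop, dist (F (φ n)) g < η := (tendsto_iff_dist_tendsto_zero.1 hl2).eventually (gt_mem_nhds hη)
  filter_upwards [h3] with n hn x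
  by_cases hx : x ∈ Metric.closedBall (0 : ℂ) 2
  · rw [hv]
    simp only [hx, dite_true]
    rw [dist_comm]
    exact (BoundedContinuousFunction.dist_coe_le_dist (f := F (φ n)) (g := g) ⟨x, hx⟩).trans_lt hn
  · rw [hv]
    simp only [hx, dite_false]
    rw [(hu (φ n)).out x, dist_self]
    · exact hη
    · intro h
      refine hx (Metric.closedBall_subset_closedBall ?_ (hout _ h))
      linarith [(hε0 (φ n)).2]

/-- TARGET 2: compactness of the eigenfunctions of domains converging to the unit disc. -/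
theorem compact_modes {D : ℕ → Set ℂ} {lam ε : ℕ → ℝ} {u : ℕ → ℂ → ℝ} {T : ℝ}
    (hε : Tendsto ε atTop (𝓝 0)) (hε0 : ∀ n, 0 < ε n ∧ ε n < 1) (hDo : ∀ n, IsOpen (D n))
    (hin : ∀ n, Metric.ball 0 (1 - ε n) ⊆ D n) (hout : ∀ n, D n ⊆ Metric.closedBall 0 (1 + ε n))
    (hlam : ∀ n, 0 < lam n ∧ lam n ≤ T) (hu : ∀ n, Wat (D n) (lam n) (u n))
    (h1 : ∀ n x, |u n x| ≤ 1) (h2 : ∀ n, ∃ x, |u n x| = 1) :
    ∃ (φ : ℕ → ℕ) (l : ℝ) (v : ℂ → ℝ), StrictMono φ ∧ 0 < l ∧
      Tendsto (fun n => lam (φ n)) atTop (𝓝 l) ∧ Wat (Metric.ball 0 1) l v ∧ (∃ x, v x ≠ 0) ∧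
      ∀ (x : ℕ → ℂ) (x₀ : ℂ), ‖x₀‖ < 1 → Tendsto x atTop (𝓝 x₀) →
        Tendsto (fun n => fderiv ℝ (u (φ n)) (x n)) atTop (𝓝 (fderiv ℝ v x₀)) := by
  obtain ⟨φ, l, v, hφ, hl, hv⟩ := nc1_conv hε hε0 hDo hin hout hlam hu h1
  -- the eigenvalues are at least one
  have hlam1 : ∀ n, 1 ≤ lam n := by
    intro n
    obtain ⟨x, hx⟩ := h2 n
    have hxD : x ∈ D n := by
      by_contra h
      rw [(hu n).out x h, abs_zero] at hx
      exact zero_ne_one hx
    have h3 := barrier (hDo n) (hlam n).1 (hout n) (hu n) (h1 n) x hxD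
    rw [hx] at h3
    have h4 := hε0 n
    have h5 : (1 + ε n) ^ 2 - ‖x‖ ^ 2 ≤ 4 := by nlinarith [sq_nonneg ‖x‖]
    have h6 : lam n / 4 * ((1 + ε n) ^ 2 - ‖x‖ ^ 2) ≤ lam n / 4 * 4 :=
      mul_le_mul_of_nonneg_left h5 (by linarith [(hlam n).1])
    linarith
  have hl1 : 1 ≤ l := ge_of_tendsto' hl fun n => hlam1 (φ n)
  have hl0 : 0 < l := by linarith
  have hptw : ∀ x, Tendsto (fun n => u (φ n) x) atTop (𝓝 (v x)) := fun x => hv.tendsto_at x
  have hvc : Continuous v := hv.continuous (Frequently.of_forall fun n => (hu (φ n)).cont)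
  have hεφ : Tendsto (fun n => ε (φ n)) atTop (𝓝 0) := hε.comp hφ.tendsto_atTop
  have hv0 : ∀ x, x ∉ Metric.ball (0 : ℂ) 1 → v x = 0 := by
    intro x hx
    rw [mem_ball_zero_iff, not_lt] at hx
    have h3 : Tendsto (fun n => |u (φ n) x|) atTop (𝓝 |v x|) := (hptw x).abs
    have h4 : Tendsto (fun n => max 0 (T / 4 * ((1 + ε (φ n)) ^ 2 - ‖x‖ ^ 2))) atTop
        (𝓝 (max 0 (T / 4 * ((1 + 0) ^ 2 - ‖x‖ ^ 2)))) := by
      have hc : Continuous fun e : ℝ => max 0 (T / 4 * ((1 + e) ^ 2 - ‖x‖ ^ 2)) := by fun_prop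
      exact (hc.tendsto 0).comp hεφ
    have h5 := le_of_tendsto_of_tendsto' h3 h4 fun n =>
      nc1_up (hDo _) (hlam _).1 (hlam _).2 (hout _) (hu _) (h1 _) x
    have hT : 0 < T := (hlam 0).1.trans_le (hlam 0).2
    rw [max_eq_left] at h5
    · exact abs_eq_zero.1 (le_antisymm h5 (abs_nonneg _))
    · have : 1 ≤ ‖x‖ ^ 2 := one_le_pow₀ hx
      have h5 : (1 + (0 : ℝ)) ^ 2 - ‖x‖ ^ 2 ≤ 0 := by linarith
      exact mul_nonpos_of_nonneg_of_nonpos (by positivity) h5
  -- the weak form in the limit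
  have hweak : ∀ ψ : ℂ → ℝ, SC ψ → tsupport ψ ⊆ Metric.ball 0 1 →
      ∫ x, v x * (la ψ x + l * ψ x) = 0 := by
    intro ψ hψ hs
    have hlaψ : SC (la ψ) := Pool.Agent.R227.SA.la_sc hψ
    obtain ⟨a, ha0, ha1, haψ⟩ : ∃ a : ℝ, 0 < a ∧ a < 1 ∧ tsupport ψ ⊆ Metric.ball 0 a := by
      rcases (tsupport ψ).eq_empty_or_nonempty with he | hne
      · exact ⟨1 / 2, by norm_num, by norm_num, by rw [he]; exact empty_subset _⟩
      · obtain ⟨z, hz, hzm⟩ := hψ.cs.isCompact.exists_isMaxOn hne continuous_norm.continuousOn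
        have hz1 := hs hz
        rw [mem_ball_zero_iff] at hz1
        refine ⟨(1 + ‖z‖) / 2, by positivity, by linarith, fun y hy => ?_⟩
        rw [mem_ball_zero_iff]
        have : ‖y‖ ≤ ‖z‖ := hzm hy
        linarith
    have hlim : Tendsto (fun n => ∫ x, u (φ n) x * (la ψ x + lam (φ n) * ψ x)) atTop
        (𝓝 (∫ x, v x * (la ψ x + l * ψ x))) := by
      refine tendsto_integral_of_dominated_convergence (fun x => |la ψ x| + T * |ψ x|) ?_ ?_ ?_ ?_
      · intro n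
        have c1 := (hu (φ n)).cont
        have c2 := hlaψ.cont
        have c3 := hψ.cont
        exact (Continuous.aestronglyMeasurable (by fun_prop))
      · exact hlaψ.int.abs.add (hψ.int.abs.const_mul T)
      · intro n
        refine Eventually.of_forall fun x => ?_
        rw [Real.norm_eq_abs, abs_mul]
        have b1 : |la ψ x + lam (φ n) * ψ x| ≤ |la ψ x| + T * |ψ x| := by
          refine (abs_add_le _ _).trans (add_le_add le_rfl ?_)
          rw [abs_mul, abs_of_pos (hlam _).1]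
          exact mul_le_mul_of_nonneg_right (hlam _).2 (abs_nonneg _)
        calc |u (φ n) x| * |la ψ x + lam (φ n) * ψ x| ≤ 1 * |la ψ x + lam (φ n) * ψ x| :=
              mul_le_mul_of_nonneg_right (h1 _ _) (abs_nonneg _)
          _ ≤ _ := by rw [one_mul]; exact b1
      · refine Eventually.of_forall fun x => ?_
        exact (hptw x).mul (tendsto_const_nhds.add (hl.mul_const _))
    have hzero : ∀ᶠ n in atTop, ∫ x, u (φ n) x * (la ψ x + lam (φ n) * ψ x) = 0 := by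
      have h3 : ∀ᶠ n in atTop, ε (φ n) < (1 - a) / 2 :=
        hεφ.eventually (gt_mem_nhds (by linarith))
      filter_upwards [h3] with n hn
      refine nc1_weak (hu (φ n)) hψ ha0 (b := (1 + a) / 2) (by linarith) haψ ?_
      refine Subset.trans (fun y hy => ?_) (hin (φ n))
      rw [mem_closedBall_zero_iff] at hy
      rw [mem_ball_zero_iff]
      linarith
    exact tendsto_nhds_unique hlim ((tendsto_congr' hzero).2 tendsto_const_nhds)
  have hwat : Wat (Metric.ball 0 1) l v :=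
    ⟨hvc, hv0, reg Metric.isOpen_ball hl0 hvc hweak⟩
  have hne : ∃ x, v x ≠ 0 := by
    by_contra hcon
    push Not at hcon
    rw [Metric.tendstoUniformly_iff] at hv
    obtain ⟨n, hn⟩ := (hv 1 one_pos).exists
    obtain ⟨x, hx⟩ := h2 (φ n)
    have := hn x
    rw [hcon x, dist_comm, dist_zero_right, Real.norm_eq_abs, hx] at this
    exact lt_irrefl _ this
  refine ⟨φ, l, v, hφ, hl0, hl, hwat, hne, fun x x₀ hx₀ hx => ?_⟩
  -- gradients
  have hx₀b : x₀ ∈ Metric.ball (0 : ℂ) 1 := by rwa [mem_ball_zero_iff]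
  have hcont : ContinuousAt (fderiv ℝ v) x₀ :=
    ((nc1_cd hwat hx₀b).fderiv_right (m := 0) (by simp)).continuousAt
  have hlimv : Tendsto (fun n => fderiv ℝ v (x n)) atTop (𝓝 (fderiv ℝ v x₀)) :=
    hcont.tendsto.comp hx
  have hdiff : Tendsto (fun n => fderiv ℝ (u (φ n)) (x n) - fderiv ℝ v (x n)) atTop (𝓝 0) := by
    rw [tendsto_zero_iff_norm_tendsto_zero]
    set r := (1 - ‖x₀‖) / 4 with hr
    have hr0 : 0 < r := by rw [hr]; linarith
    have hbd : ∀ η : ℝ, 0 < η → ∀ᶠ n in atTop,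
        ‖fderiv ℝ (u (φ n)) (x n) - fderiv ℝ v (x n)‖ ≤ 8 * (η / r + (η + l * η) * r) := by
      intro η hη
      have e1 : ∀ᶠ n in atTop, ∀ y, dist (v y) (u (φ n) y) < η :=
        (Metric.tendstoUniformly_iff.1 hv) η hη
      have e2 : ∀ᶠ n in atTop, dist (lam (φ n)) l < η :=
        (tendsto_iff_dist_tendsto_zero.1 hl).eventually (gt_mem_nhds hη)
      have e3 : ∀ᶠ n in atTop, ε (φ n) < r := hεφ.eventually (gt_mem_nhds hr0)
      have e4 : ∀ᶠ n in atTop, dist (x n) x₀ < r :=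
        (tendsto_iff_dist_tendsto_zero.1 hx).eventually (gt_mem_nhds hr0)
      filter_upwards [e1, e2, e3, e4] with n g1 g2 g3 g4
      have hb1 : Metric.ball (x n) r ⊆ Metric.ball 0 (1 - ε (φ n)) := by
        intro y hy
        rw [mem_ball_zero_iff]
        rw [Metric.mem_ball, dist_eq_norm] at hy
        rw [dist_eq_norm] at g4
        have h3 : ‖y‖ ≤ ‖y - x n‖ + ‖x n - x₀‖ + ‖x₀‖ := by
          have : y = (y - x n) + (x n - x₀) + x₀ := by ring
          conv_lhs => rw [this]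
          exact (norm_add_le _ _).trans (add_le_add (norm_add_le _ _) le_rfl)
        have : 4 * r = 1 - ‖x₀‖ := by rw [hr]; ring
        linarith
      have hbD : Metric.ball (x n) r ⊆ D (φ n) := hb1.trans (hin _)
      have hbB : Metric.ball (x n) r ⊆ Metric.ball 0 1 :=
        hb1.trans (Metric.ball_subset_ball (by linarith [(hε0 (φ n)).1]))
      have hsm : ∀ y ∈ Metric.ball (x n) r, ContDiffAt ℝ ∞ (fun z => u (φ n) z - v z) y :=
        fun y hy => (nc1_cd (hu _) (hbD hy)).sub (nc1_cd hwat (hbB hy))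
      have hla : ∀ y ∈ Metric.ball (x n) r, la (fun z => u (φ n) z - v z) y
          = -(lam (φ n) * u (φ n) y) + l * v y := by
        intro y hy
        obtain ⟨U, hU, q1, q2⟩ := nc1_ev (hu (φ n)) (hbD hy)
        obtain ⟨V, hV, q3, q4⟩ := nc1_ev hwat (hbB hy)
        have q5 : (fun z => u (φ n) z - v z) =ᶠ[𝓝 y] fun z => U z - V z := q1.sub q3
        rw [J507.la_congr q5]
        have q6 : ∀ (w : ℂ) {f g : ℂ → ℝ}, SC f → SC g →
            dd w (fun z => f z - g z) = fun z => dd w f z - dd w g z := by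
          intro w f g hf hg
          funext z
          unfold dd
          rw [fderiv_fun_sub (hf.diff z) (hg.diff z)]
          rfl
        have hd : ∀ {f : ℂ → ℝ} (v : ℂ), SC f → SC (dd v f) :=
          fun v h => Pool.Agent.TH298.Sch.dd_sc h v
        have q7 : la (fun z => U z - V z) y = la U y - la V y := by
          unfold la
          rw [q6 1 hU hV, q6 _ hU hV, q6 1 (hd 1 hU) (hd 1 hV), q6 _ (hd _ hU) (hd _ hV)]
          ring
        rw [q7, q2, q4]
        ring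
      have hg := grad_bd (x₀ := x n) (r := r) (M := η) (N := η + l * η)
        (f := fun z => u (φ n) z - v z) hr0
        (fun y hy => ((hsm y hy).of_le (WithTop.coe_le_coe.mpr (le_top : (2:ℕ∞) ≤ ⊤))).contDiffWithinAt)
        (fun y _ => by
          have := g1 y
          rw [dist_comm, Real.dist_eq] at this
          exact this.le)
        (fun y hy => by
          rw [hla y hy]
          have k1 : -(lam (φ n) * u (φ n) y) + l * v y =
              -((lam (φ n) - l) * u (φ n) y) + l * (v y - u (φ n) y) := by ring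
          rw [k1]
          refine (abs_add_le _ _).trans (add_le_add ?_ ?_)
          · rw [abs_neg, abs_mul]
            rw [Real.dist_eq] at g2
            calc |lam (φ n) - l| * |u (φ n) y| ≤ |lam (φ n) - l| * 1 :=
                  mul_le_mul_of_nonneg_left (h1 _ _) (abs_nonneg _)
              _ ≤ η := by linarith
          · rw [abs_mul, abs_of_pos hl0]
            have := g1 y
            rw [Real.dist_eq] at this
            exact mul_le_mul_of_nonneg_left this.le hl0.le)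
      have hxD : x n ∈ D (φ n) := hbD (Metric.mem_ball_self hr0)
      have hxB : x n ∈ Metric.ball (0 : ℂ) 1 := hbB (Metric.mem_ball_self hr0)
      rw [fderiv_fun_sub ((nc1_cd (hu _) hxD).differentiableAt (by simp))
        ((nc1_cd hwat hxB).differentiableAt (by simp))] at hg
      exact hg
    rw [Metric.tendsto_nhds]
    intro δ hδ
    have hpos : 0 < 8 * (1 / r + (1 + l) * r) := by positivity
    have := hbd (δ / 2 / (8 * (1 / r + (1 + l) * r))) (by positivity)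
    filter_upwards [this] with n hn
    rw [dist_zero_right, norm_norm]
    refine hn.trans_lt ?_
    have e : 8 * (δ / 2 / (8 * (1 / r + (1 + l) * r)) / r +
        (δ / 2 / (8 * (1 / r + (1 + l) * r)) + l * (δ / 2 / (8 * (1 / r + (1 + l) * r)))) * r)
        = δ / 2 := by
      field_simp
    rw [e]
    linarith
  have := hdiff.add hlimv
  rw [zero_add] at this
  refine this.congr fun n => ?_
  rw [sub_add_cancel]

end Pool.Agent.Helper327_Drum
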