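import Pool.Agent.Helper327_Drum.Fin.M4
import Pool.Agent.Helper327_Drum.Fin.I2
import Pool.Agent.R227.SA18
import Pool.Agent.Helper327_Drum.Fin.N1

/-
JOB N2 (owner helper327, problem MP_d92c84_an). All imports are on origin/main.
-/

set_option autoImplicit false
open MeasureTheory Set Filter Topology ComplexConjugate
open scoped ContDiff InnerProductSpace

namespace Pool.Agent.Helper327_Drum

open Pool.Agent.TH298.Sch (dd SC er)
open Pool.Agent.R227.SA (la Wat Dat)
open TH259.NS (B J)

/-
Plain proof. Translate p to 0 (`Dat.trans`): v'(x) = v(x + p) is Dat on ball 0 r. The rotated function x ↦ v'(er t * x) is again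
Dat on ball 0 r (`Dat.rot` in R227.SA17, `er t = e^{it}`), so by `dat_unique` v'(er t * x) = v' x for all t; differentiate in t at 0:
fderiv v' x (I x) = 0. This is item 1.
Item 2: the function w = v + c satisfies `LocH (ball p r) lam`, so by `radial_global` (Fin/I2.lean)
w x = w p * B 0 (lam ‖x-p‖²/4) on the ball.
Item 3: by continuity of v (v = 0 on the sphere) c = (v p + c) * B 0 (lam r²/4), so v p + c ≠ 0. fderiv v is continuous and 0 on the
sphere; on the ball fderiv v x (x - p) = (v p + c) * (-B 1 (lam ‖x-p‖²/4)) * lam ‖x-p‖²/2 (the derivative of `B 0` is `-B 1`, see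
TH259.NS). Let ‖x - p‖ → r: B 1 (lam r²/4) = 0.
-/

/-- the solution on a disc is invariant under rotations -/
theorem dat_ball_rot {p : ℂ} {r lam c : ℝ} {v : ℂ → ℝ} (D : Dat (Metric.ball p r) lam c v)
    (hlam : 0 < lam) (t : ℝ) (x : ℂ) : v (p + er t * (x - p)) = v x := by
  have hpre : (fun x : ℂ => x + p) ⁻¹' Metric.ball p r = Metric.ball 0 r := by
    ext y
    simp [dist_eq_norm]
  have D1 : Dat (Metric.ball 0 r) lam c (fun x => v (x + p)) := by
    have := D.trans p
    rwa [hpre] at this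
  have hinv : ∀ x : ℂ, x ∈ Metric.ball (0 : ℂ) r ↔ er t * x ∈ Metric.ball (0 : ℂ) r := by
    intro x
    rw [mem_ball_zero_iff, mem_ball_zero_iff, norm_mul, Pool.Agent.TH298.Sch.er_exp,
      Complex.norm_exp_ofReal_mul_I, one_mul]
  have D2 := D1.rot t hinv
  have h := congrFun (dat_unique D1 D2 Metric.isOpen_ball Metric.isBounded_ball hlam) (x - p)
  simp only [sub_add_cancel] at h
  rw [h, add_comm]

theorem er_hasDeriv : HasDerivAt er Complex.I 0 := by
  have h := Pool.Agent.TH298.Sch.X_dt 1 0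
  have e : (fun θ : ℝ => Pool.Agent.TH298.Sch.X 1 θ) = er := by
    funext θ
    rw [Pool.Agent.TH298.Sch.X_eq]
    simp
  rw [e] at h
  refine h.congr_deriv ?_
  simp [Pool.Agent.TH298.Sch.et]

theorem er_zero' : er 0 = 1 := by
  simp [er]

/-- TARGET: the solution on a disc is radial. -/
theorem dat_ball {p : ℂ} {r lam c : ℝ} {v : ℂ → ℝ} (D : Dat (Metric.ball p r) lam c v) (hr : 0 < r)
    (hlam : 0 < lam) (hc : c ≠ 0) :
    (∀ x, fderiv ℝ v x (Complex.I * (x - p)) = 0) ∧
    (∀ x ∈ Metric.ball p r, v x + c = (v p + c) * B 0 (lam * ‖x - p‖ ^ 2 / 4)) ∧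
    B 1 (lam * r ^ 2 / 4) = 0 := by
  have hdiff : Differentiable ℝ v := D.c1.differentiable (by norm_num)
  have h1 : ∀ x, fderiv ℝ v x (Complex.I * (x - p)) = 0 := by
    intro x
    have ha : HasDerivAt (fun t : ℝ => p + er t * (x - p)) (Complex.I * (x - p)) 0 :=
      (er_hasDeriv.mul_const (x - p)).const_add p
    have hx0 : p + er 0 * (x - p) = x := by
      rw [er_zero']
      ring
    have hb : HasFDerivAt v (fderiv ℝ v x) (p + er 0 * (x - p)) := by
      rw [hx0]
      exact (hdiff x).hasFDerivAt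
    have hcd := hb.comp_hasDerivAt 0 ha
    have he : (v ∘ fun t : ℝ => p + er t * (x - p)) = fun _ => v x := by
      funext t
      exact dat_ball_rot D hlam t x
    rw [he] at hcd
    exact (hcd.unique (hasDerivAt_const 0 (v x)))
  have h2 : ∀ x ∈ Metric.ball p r, v x + c = (v p + c) * B 0 (lam * ‖x - p‖ ^ 2 / 4) := by
    have hloc : LocH (Metric.ball p r) lam (fun x => v x + c) := D.loc
    refine radial_global hloc hlam (convex_ball p r).isPreconnected (Metric.mem_ball_self hr) ?_
    refine Filter.Eventually.of_forall fun x => ?_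
    rw [fderiv_add_const]
    exact h1 x
  refine ⟨h1, h2, ?_⟩
  -- along a ray
  have hnorm : ∀ s : ℝ, 0 ≤ s → ‖p + (s : ℂ) - p‖ = s := by
    intro s hs
    rw [add_sub_cancel_left, Complex.norm_real, Real.norm_eq_abs, abs_of_nonneg hs]
  have hout : p + (r : ℂ) ∉ Metric.ball p r := by
    rw [Metric.mem_ball, dist_eq_norm, hnorm r hr.le]
    exact lt_irrefl r
  set f : ℝ → ℝ := fun s => v (p + (s : ℂ)) + c with hf
  set g : ℝ → ℝ := fun s => (v p + c) * B 0 (lam * s ^ 2 / 4) with hg
  have hfd : ∀ s : ℝ, HasDerivAt f (fderiv ℝ v (p + (s : ℂ)) 1) s := by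
    intro s
    have ha : HasDerivAt (fun s : ℝ => p + (s : ℂ)) 1 s :=
      (Complex.ofRealCLM.hasDerivAt (x := s)).const_add p
    exact ((hdiff (p + (s : ℂ))).hasFDerivAt.comp_hasDerivAt s ha).add_const c
  have hgd : ∀ s : ℝ, HasDerivAt g ((v p + c) * (-B 1 (lam * s ^ 2 / 4) * (lam * (2 * s) / 4))) s := by
    intro s
    have ha : HasDerivAt (fun s : ℝ => lam * s ^ 2 / 4) (lam * (2 * s) / 4) s := by
      have := ((hasDerivAt_pow 2 s).const_mul lam).div_const 4
      simpa using this
    have hb : HasDerivAt (B 0) (-B 1 (lam * s ^ 2 / 4)) ((fun s : ℝ => lam * s ^ 2 / 4) s) :=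
      TH259.NS.B_deriv 0 (lam * s ^ 2 / 4)
    exact (HasDerivAt.comp s hb ha).const_mul (v p + c)
  have hfc : Continuous f := continuous_iff_continuousAt.2 fun s => (hfd s).continuousAt
  have hgc : Continuous g := continuous_iff_continuousAt.2 fun s => (hgd s).continuousAt
  have heq : Set.EqOn f g (Set.Ico 0 r) := by
    intro s hs
    have hmem : p + (s : ℂ) ∈ Metric.ball p r := by
      rw [Metric.mem_ball, dist_eq_norm, hnorm s hs.1]
      exact hs.2
    have := h2 _ hmem
    rw [hnorm s hs.1] at this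
    exact this
  have heq2 : Set.EqOn f g (Set.Icc 0 r) := by
    have := heq.closure hfc hgc
    rwa [closure_Ico hr.ne] at this
  have hr1 : r ∈ Set.Icc 0 r := ⟨hr.le, le_rfl⟩
  have hval : c = (v p + c) * B 0 (lam * r ^ 2 / 4) := by
    have := heq2 hr1
    simp only [hf, hg] at this
    rw [D.out _ hout, zero_add] at this
    exact this
  have hne : v p + c ≠ 0 := by
    intro h0
    rw [h0, zero_mul] at hval
    exact hc hval
  have hd1 : HasDerivWithinAt f (fderiv ℝ v (p + (r : ℂ)) 1) (Set.Icc 0 r) r :=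
    (hfd r).hasDerivWithinAt
  have hd2 : HasDerivWithinAt f ((v p + c) * (-B 1 (lam * r ^ 2 / 4) * (lam * (2 * r) / 4)))
      (Set.Icc 0 r) r :=
    (hgd r).hasDerivWithinAt.congr heq2 (heq2 hr1)
  have hu : UniqueDiffWithinAt ℝ (Set.Icc 0 r) r := uniqueDiffOn_Icc hr r hr1
  have hz : fderiv ℝ v (p + (r : ℂ)) 1 =
      (v p + c) * (-B 1 (lam * r ^ 2 / 4) * (lam * (2 * r) / 4)) := by
    rw [← hd1.derivWithin hu, hd2.derivWithin hu]
  rw [D.outd _ hout] at hz
  simp only [zero_apply] at hz
  have hz2 : (v p + c) * (-B 1 (lam * r ^ 2 / 4) * (lam * (2 * r) / 4)) = 0 := hz.symm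
  rcases mul_eq_zero.1 hz2 with h | h
  · exact (hne h).elim
  · rcases mul_eq_zero.1 h with h | h
    · exact neg_eq_zero.1 h
    · have : 0 < lam * (2 * r) / 4 := by positivity
      exact (this.ne' h).elim

end Pool.Agent.Helper327_Drum
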