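import Pool.Agent.Helper327_Drum.Fin.AS2
import Pool.Agent.Helper327_Drum.Fin.N2
import Pool.Agent.R227.SA17

/-
JOB NC3 (owner helper327, problem MP_d92c84_an). All imports are on origin/main.
-/

set_option autoImplicit false
open MeasureTheory Set Filter Topology ComplexConjugate
open scoped ContDiff InnerProductSpace

namespace Pool.Agent.Helper327_Drum

open Pool.Agent.TH298.Sch (dd SC X)
open Pool.Agent.R227.SA (la Wat Dat)
open TH259.NS (B J)

/-
Plain proof. `Dat.crit` (R227/SA9.lean) gives a point p of Ω with fderiv v p = 0; translate it to 0 (`Dat.trans`; see the proof of `main` in R227/SA17.lean). `Dat.dich` with n = 2, j = 1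
(J 0 t ≠ 0 for 0 ≤ t < 1: J 0 t = B 0 (t²/4) and B 0 s > 0 for 0 ≤ s ≤ 1/4): either lam |Ω| ≥ 3 π ≥ 3, or Ω is a ball of radius r, and then B 1 (lam r²/4) = 0 by
`dat_ball` (Fin/N2.lean), and since B 1 s > 0 for 0 ≤ s ≤ 1/4, lam r²/4 > 1/4 and lam |Ω| = lam π r² ≥ π ≥ 3.
-/

/-- positivity of `B 0` and `B 1` near the origin -/
theorem j2814_B_pos {m : ℕ} (hm : m ≤ 1) {s : ℝ} (h0 : 0 ≤ s) (h1 : s ≤ 1 / 4) : 0 < B m s := by
  have hs := TH259.NS.bt_summable m s
  have hzero : TH259.NS.bt m 0 s = 1 := by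
    unfold TH259.NS.bt
    interval_cases m <;> simp
  have e1 : B m s = TH259.NS.bt m 0 s + ∑' k, TH259.NS.bt m (k + 1) s := by
    unfold TH259.NS.B
    exact hs.tsum_eq_zero_add
  have hgeo : HasSum (fun k : ℕ => (1 / 4 : ℝ) ^ (k + 1)) (1 / 3) := by
    have h := (hasSum_geometric_of_lt_one (r := (1 / 4 : ℝ)) (by norm_num) (by norm_num)).mul_left
      (1 / 4 : ℝ)
    convert! h using 1
    · funext k
      rw [pow_succ']
    · norm_num
  have hb : ∀ k : ℕ, ‖TH259.NS.bt m (k + 1) s‖ ≤ (1 / 4 : ℝ) ^ (k + 1) := by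
    intro k
    rw [Real.norm_eq_abs]
    refine (TH259.NS.bt_abs m (k + 1) s).trans ?_
    rw [abs_of_nonneg h0]
    have h2 : (1 : ℝ) ≤ ((k + 1).factorial : ℝ) := by
      exact_mod_cast Nat.one_le_iff_ne_zero.2 (Nat.factorial_ne_zero _)
    refine (div_le_self (by positivity) h2).trans ?_
    exact pow_le_pow_left₀ h0 h1 _
  have h3 : ‖∑' k, TH259.NS.bt m (k + 1) s‖ ≤ 1 / 3 := tsum_of_norm_bounded hgeo hb
  rw [Real.norm_eq_abs, abs_le] at h3
  rw [e1, hzero]
  linarith [h3.1]

/-- TARGET: a lower bound for the area. -/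
theorem dat_area {Ω : Set ℂ} {lam c : ℝ} {v : ℂ → ℝ} (D : Dat Ω lam c v) (ho : IsOpen Ω)
    (hb : Bornology.IsBounded Ω) (hcon : IsConnected Ω) (hreg : interior (closure Ω) = Ω)
    (hlam : 0 < lam) (hc : c ≠ 0) : 3 ≤ lam * volume.real Ω := by
  have hpi := Real.pi_gt_three
  obtain ⟨p, hp, hcr⟩ := D.crit hb hcon.nonempty hlam hc
  have D' := D.trans p
  have hcr' : fderiv ℝ (fun x => v (x + p)) 0 = 0 := by
    rw [fderiv_comp_add_right, zero_add]
    exact hcr
  -- the translated domain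
  set T : ℂ ≃ₜ ℂ := Homeomorph.addRight p with hT
  set Ω' : Set ℂ := (fun x => x + p) ⁻¹' Ω with hΩ'
  have hpre : Ω' = T ⁻¹' Ω := rfl
  have ho' : IsOpen Ω' := ho.preimage (by fun_prop)
  have himg : Ω' = T.symm '' Ω := by
    rw [hpre, Homeomorph.image_symm]
  have hcon' : IsPreconnected Ω' := by
    rw [himg]
    exact hcon.isPreconnected.image _ T.symm.continuous.continuousOn
  have hreg' : interior (closure Ω') = Ω' := by
    rw [hpre, ← T.preimage_closure, ← T.preimage_interior, hreg]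
  have hb' : Bornology.IsBounded Ω' := by
    obtain ⟨C, hC⟩ := hb.exists_norm_le
    rw [isBounded_iff_forall_norm_le]
    refine ⟨C + ‖p‖, fun x hx => ?_⟩
    have h1 := hC (x + p) hx
    have h2 : x = (x + p) - p := by ring
    rw [h2]
    refine (norm_sub_le _ _).trans ?_
    linarith
  have h0' : (0:ℂ) ∈ Ω' := by
    change 0 + p ∈ Ω
    rwa [zero_add]
  have hvol : volume.real Ω' = volume.real Ω := by
    simp only [Measure.real, hΩ']
    rw [measure_preimage_add_right]
  have hJ : ∀ t : ℝ, 0 ≤ t → t < 1 → J 0 t ≠ 0 := by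
    intro t ht ht'
    rw [TH259.NS.J_eq, pow_zero, one_mul]
    have h1 : t ^ 2 / 4 ≤ 1 / 4 := by nlinarith
    exact (j2814_B_pos (by norm_num) (by positivity) h1).ne'
  rcases D'.dich ho' hb' hcon' hreg' hlam hc h0' (le_refl 2) (Or.inl ⟨rfl, hcr'⟩) one_pos hJ with
    ⟨r, hr, hball⟩ | hcount
  · rw [hball] at D'
    have h1 := (dat_ball D' hr hlam hc).2.2
    have h2 : 1 / 4 < lam * r ^ 2 / 4 := by
      by_contra hcon2
      push Not at hcon2
      exact (j2814_B_pos (le_refl 1) (by positivity) hcon2).ne' h1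
    have h3 : volume.real (Metric.ball (0 : ℂ) r) = Real.pi * r ^ 2 := by
      rw [Measure.real, Complex.volume_ball]
      simp only [ENNReal.toReal_mul, ENNReal.toReal_pow]
      rw [ENNReal.toReal_ofReal hr.le]
      simp [mul_comm]
    rw [← hvol, hball, h3]
    nlinarith
  · rw [hvol] at hcount
    norm_num at hcount
    linarith

end Pool.Agent.Helper327_Drum
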