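import Pool.Agent.Helper327_Drum.BDefs
import Pool.Agent.R227.SA13

/-
JOB P2 (owner helper327, problem MP_d92c84_an). All imports are on origin/main.
-/

set_option autoImplicit false
open MeasureTheory Set Filter Topology ComplexConjugate
open scoped ContDiff InnerProductSpace

namespace Pool.Agent.Helper327_Drum

open Pool.Agent.TH298.Sch (dd SC)
open Pool.Agent.R227.SA (la Wat Dat)

/-
`Wat D lam u` (R227.SA10): u continuous on the plane, 0 off D, near each point of D equal to a smooth solution W of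
la W = -lam W (`la W = dd 1 (dd 1 W) + dd I (dd I W)`, `dd h f x = fderiv ℝ f x h`).
Plain proof. Let q ∈ γ. Near q, u = W smooth with la W q = -lam k ≠ 0. The second derivative of W at q is a symmetric bilinear form with
nonzero trace, so it has a unit eigenvector n with nonzero eigenvalue μ (the eigenvector for the eigenvalue of largest absolute
value). Let e = -I n (or I n), f = dd n W: f is smooth, f = 0 on γ near q, fderiv f q = μ ⟨n, ·⟩. By the implicit function theorem, in
coordinates x = q + (t + s I) e (so that s is ± the n-coordinate), for small δ the zero set of f in box q e δ is the graph s = ψ t of a C²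
(even smooth) function ψ with ψ 0 = 0, ψ' 0 = 0; multiply ψ by a cutoff and shrink δ to have ψ globally C², and shrink δ again so that |ψ'| ≤ 1/2
on |t| < δ (then |ψ t| ≤ |t|/2 < δ). (If you prefer a direct construction instead of the implicit function theorem of Mathlib: for fixed t the
function s ↦ f is strictly monotone, with derivative ≠ 0.) So γ ∩ box ⊆ graph.
Conversely: suppose that a point q' of the graph in box q e δ is not in γ (closed). The box minus γ contains the two open parts above and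
below the graph, both connected (each is {(t,s) : |t| < δ, ψ t < s < δ}: connected, for instance star-shaped after a shear or as a union of
vertical segments meeting a horizontal one), and a small ball around q' which meets both; so
U = (box minus graph) ∪ (small ball around q' off γ) is connected and does not meet γ = frontier Ω. So U ⊆ Ω or U ∩ closure Ω = ∅. In the first
case closure Ω ⊇ closure U ⊇ box, so box ⊆ interior (closure Ω) = Ω, but q ∈ frontier Ω is not in the open set Ω. In the second case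
q ∈ closure Ω is in the open set box, in which Ω would be contained in the graph minus U..., but Ω is open and the graph has empty interior and U is
dense in the box: Ω ∩ box nonempty open would meet U. Contradiction. So γ ∩ box = graph ∩ box.
The upper part and the lower part are connected and do not meet γ = frontier Ω, so each is contained in Ω or disjoint from closure Ω. Not
both in Ω (as above, box ⊆ interior (closure Ω) = Ω), and not both disjoint from Ω (q ∈ closure Ω). If Ω is the upper part, this is the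
chart. If Ω is the lower part, replace e by -e and ψ by t ↦ -ψ (-t).
-/

namespace P2

lemma topo {O : Set (ℝ × ℝ)} (hO : IsOpen O) (hreg : interior (closure O) = O) {δ : ℝ}
    (hδ : 0 < δ) {ψ : ℝ → ℝ} (hψ : Continuous ψ) (hb : ∀ t, |t| < δ → |ψ t| < δ)
    (hfr : ∀ t s, |t| < δ → |s| < δ → (t, s) ∈ frontier O → s = ψ t)
    (h00 : ((0 : ℝ), (0 : ℝ)) ∈ frontier O) :
    (∀ t s, |t| < δ → |s| < δ → (((t, s) ∈ O ↔ ψ t < s) ∧ ((t, s) ∈ frontier O ↔ s = ψ t))) ∨
    (∀ t s, |t| < δ → |s| < δ → (((t, s) ∈ O ↔ s < ψ t) ∧ ((t, s) ∈ frontier O ↔ s = ψ t))) := by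
  set Up : Set (ℝ × ℝ) := {v | |v.1| < δ ∧ |v.2| < δ ∧ ψ v.1 < v.2} with hUp
  set Lo : Set (ℝ × ℝ) := {v | |v.1| < δ ∧ |v.2| < δ ∧ v.2 < ψ v.1} with hLo
  have cI : IsPreconnected ((Ioo (-δ) δ) ×ˢ (Ioo (0 : ℝ) 1)) :=
    (isPreconnected_Ioo).prod isPreconnected_Ioo
  have cUp : IsPreconnected Up := by
    have h1 : Up = (fun v : ℝ × ℝ => (v.1, ψ v.1 + v.2 * (δ - ψ v.1))) ''
        ((Ioo (-δ) δ) ×ˢ (Ioo (0 : ℝ) 1)) := by
      ext v
      constructor
      · rintro ⟨h1, h2, h3⟩
        have hp := abs_lt.mp (hb v.1 h1)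
        have h2' := abs_lt.mp h2
        have hd : 0 < δ - ψ v.1 := by linarith [hp.2]
        refine ⟨(v.1, (v.2 - ψ v.1) / (δ - ψ v.1)), ⟨abs_lt.mp h1, ⟨?_, ?_⟩⟩, ?_⟩
        · exact div_pos (by linarith) hd
        · rw [div_lt_one hd]; linarith [h2'.2]
        · ext
          · rfl
          · simp only
            field_simp
            ring
      · rintro ⟨w, ⟨h1, h2⟩, rfl⟩
        have h1' : |w.1| < δ := abs_lt.mpr h1
        have hp := abs_lt.mp (hb w.1 h1')
        have hd : 0 < δ - ψ w.1 := by linarith [hp.2]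
        refine ⟨h1', ?_, ?_⟩
        · simp only
          rw [abs_lt]
          constructor
          · nlinarith [mul_pos h2.1 hd, hp.1]
          · nlinarith [mul_pos (sub_pos.mpr h2.2) hd]
        · simp only
          nlinarith [mul_pos h2.1 hd]
    rw [h1]
    exact cI.image _ (by fun_prop)
  have cLo : IsPreconnected Lo := by
    have h1 : Lo = (fun v : ℝ × ℝ => (v.1, ψ v.1 - v.2 * (δ + ψ v.1))) ''
        ((Ioo (-δ) δ) ×ˢ (Ioo (0 : ℝ) 1)) := by
      ext v
      constructor
      · rintro ⟨h1, h2, h3⟩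
        have hp := abs_lt.mp (hb v.1 h1)
        have h2' := abs_lt.mp h2
        have hd : 0 < δ + ψ v.1 := by linarith [hp.1]
        refine ⟨(v.1, (ψ v.1 - v.2) / (δ + ψ v.1)), ⟨abs_lt.mp h1, ⟨?_, ?_⟩⟩, ?_⟩
        · exact div_pos (by linarith) hd
        · rw [div_lt_one hd]; linarith [h2'.1]
        · ext
          · rfl
          · simp only
            field_simp
            ring
      · rintro ⟨w, ⟨h1, h2⟩, rfl⟩
        have h1' : |w.1| < δ := abs_lt.mpr h1
        have hp := abs_lt.mp (hb w.1 h1')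
        have hd : 0 < δ + ψ w.1 := by linarith [hp.1]
        refine ⟨h1', ?_, ?_⟩
        · simp only
          rw [abs_lt]
          constructor
          · nlinarith [mul_pos (sub_pos.mpr h2.2) hd]
          · nlinarith [mul_pos h2.1 hd, hp.2]
        · simp only
          nlinarith [mul_pos h2.1 hd]
    rw [h1]
    exact cI.image _ (by fun_prop)
  have nUp : ∀ v ∈ Up, v ∉ frontier O := by
    rintro v ⟨h1, h2, h3⟩ h4
    exact absurd (hfr v.1 v.2 h1 h2 h4) h3.ne'
  have nLo : ∀ v ∈ Lo, v ∉ frontier O := by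
    rintro v ⟨h1, h2, h3⟩ h4
    exact absurd (hfr v.1 v.2 h1 h2 h4) h3.ne
  have dich : ∀ S : Set (ℝ × ℝ), IsPreconnected S → (∀ v ∈ S, v ∉ frontier O) →
      S ⊆ O ∨ S ⊆ Oᶜ := by
    intro S hS hn
    by_contra hcon
    push Not at hcon
    obtain ⟨h1, h2⟩ := hcon
    rw [Set.not_subset] at h1 h2
    obtain ⟨a, ha, ha'⟩ := h1
    obtain ⟨b, hb1, hb2⟩ := h2
    have hcov : S ⊆ O ∪ (closure O)ᶜ := by
      intro v hv
      by_cases h : v ∈ closure O
      · left
        by_contra h'
        exact hn v hv (by rw [hO.frontier_eq]; exact ⟨h, h'⟩)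
      · exact Or.inr h
    have ha2 : a ∈ (closure O)ᶜ := (hcov ha).resolve_left ha'
    obtain ⟨c, hc1, hc2, hc3⟩ := hS O (closure O)ᶜ hO isClosed_closure.isOpen_compl hcov
      ⟨b, hb1, not_not.mp hb2⟩ ⟨a, ha, ha2⟩
    exact hc3 (subset_closure hc2)
  -- points above and below points of the graph
  have above : ∀ t, |t| < δ → ∀ ε > 0, ∃ s, (t, s) ∈ Up ∧ dist (t, s) (t, ψ t) < ε := by
    intro t ht ε hε
    have hp := abs_lt.mp (hb t ht)
    refine ⟨ψ t + min (ε / 2) ((δ - ψ t) / 2), ⟨ht, ?_, ?_⟩, ?_⟩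
    · simp only
      have h1 : 0 < min (ε / 2) ((δ - ψ t) / 2) := lt_min (by linarith) (by linarith [hp.2])
      have h2 : min (ε / 2) ((δ - ψ t) / 2) ≤ (δ - ψ t) / 2 := min_le_right _ _
      rw [abs_lt]
      constructor <;> linarith [hp.1, hp.2]
    · simp only
      have h1 : 0 < min (ε / 2) ((δ - ψ t) / 2) := lt_min (by linarith) (by linarith [hp.2])
      linarith
    · have h1 : 0 < min (ε / 2) ((δ - ψ t) / 2) := lt_min (by linarith) (by linarith [hp.2])
      have h2 : min (ε / 2) ((δ - ψ t) / 2) ≤ ε / 2 := min_le_left _ _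
      rw [Prod.dist_eq, dist_self, Real.dist_eq]
      simp only [add_sub_cancel_left]
      rw [abs_of_pos h1]
      exact max_lt hε (by linarith)
  have below : ∀ t, |t| < δ → ∀ ε > 0, ∃ s, (t, s) ∈ Lo ∧ dist (t, s) (t, ψ t) < ε := by
    intro t ht ε hε
    have hp := abs_lt.mp (hb t ht)
    refine ⟨ψ t - min (ε / 2) ((δ + ψ t) / 2), ⟨ht, ?_, ?_⟩, ?_⟩
    · simp only
      have h1 : 0 < min (ε / 2) ((δ + ψ t) / 2) := lt_min (by linarith) (by linarith [hp.1])
      have h2 : min (ε / 2) ((δ + ψ t) / 2) ≤ (δ + ψ t) / 2 := min_le_right _ _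
      rw [abs_lt]
      constructor <;> linarith [hp.1, hp.2]
    · simp only
      have h1 : 0 < min (ε / 2) ((δ + ψ t) / 2) := lt_min (by linarith) (by linarith [hp.1])
      linarith
    · have h1 : 0 < min (ε / 2) ((δ + ψ t) / 2) := lt_min (by linarith) (by linarith [hp.1])
      have h2 : min (ε / 2) ((δ + ψ t) / 2) ≤ ε / 2 := min_le_left _ _
      rw [Prod.dist_eq, dist_self, Real.dist_eq]
      have h3 : ψ t - min (ε / 2) ((δ + ψ t) / 2) - ψ t = -min (ε / 2) ((δ + ψ t) / 2) := by ring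
      simp only [h3]
      rw [abs_neg, abs_of_pos h1]
      exact max_lt hε (by linarith)
  have clUp : ∀ t, |t| < δ → (t, ψ t) ∈ closure Up := by
    intro t ht
    rw [Metric.mem_closure_iff]
    intro ε hε
    obtain ⟨s, h1, h2⟩ := above t ht ε hε
    exact ⟨(t, s), h1, by rwa [dist_comm]⟩
  have clLo : ∀ t, |t| < δ → (t, ψ t) ∈ closure Lo := by
    intro t ht
    rw [Metric.mem_closure_iff]
    intro ε hε
    obtain ⟨s, h1, h2⟩ := below t ht ε hε
    exact ⟨(t, s), h1, by rwa [dist_comm]⟩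
  have hQo : IsOpen {v : ℝ × ℝ | |v.1| < δ ∧ |v.2| < δ} :=
    IsOpen.inter (isOpen_lt (f := fun v : ℝ × ℝ => |v.1|) (by fun_prop) continuous_const)
      (isOpen_lt (f := fun v : ℝ × ℝ => |v.2|) (by fun_prop) continuous_const)
  have h0Q : ((0 : ℝ), (0 : ℝ)) ∈ {v : ℝ × ℝ | |v.1| < δ ∧ |v.2| < δ} := by
    simp [hδ]
  have h0O : ((0 : ℝ), (0 : ℝ)) ∉ O := by
    intro h
    rw [hO.frontier_eq] at h00
    exact h00.2 h
  have h0c : ((0 : ℝ), (0 : ℝ)) ∈ closure O := frontier_subset_closure h00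
  have opO : ∀ v ∈ O, ∃ ε > 0, ∀ w, dist w v < ε → w ∈ O := by
    intro v hv
    obtain ⟨ε, hε, h⟩ := Metric.isOpen_iff.mp hO v hv
    exact ⟨ε, hε, fun w hw => h hw⟩
  rcases dich Up cUp nUp with hU | hU <;> rcases dich Lo cLo nLo with hL | hL
  · exfalso
    apply h0O
    rw [← hreg]
    refine mem_interior.mpr ⟨_, ?_, hQo, h0Q⟩
    rintro ⟨t, s⟩ ⟨ht, hs⟩
    rcases lt_trichotomy (ψ t) s with h | h | h
    · exact subset_closure (hU ⟨ht, hs, h⟩)
    · have := closure_mono hU (clUp t ht)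
      rwa [h] at this
    · exact subset_closure (hL ⟨ht, hs, h⟩)
  · left
    intro t s ht hs
    have key : ∀ t, |t| < δ → (t, ψ t) ∉ O := by
      intro t ht h
      obtain ⟨ε, hε, hh⟩ := opO _ h
      obtain ⟨s, h1, h2⟩ := below t ht ε hε
      exact hL h1 (hh _ h2)
    have iff1 : (t, s) ∈ O ↔ ψ t < s := by
      constructor
      · intro h
        rcases lt_trichotomy (ψ t) s with h1 | h1 | h1
        · exact h1
        · exact absurd (h1 ▸ h) (key t ht)
        · exact absurd h (hL ⟨ht, hs, h1⟩)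
      · intro h
        exact hU ⟨ht, hs, h⟩
    refine ⟨iff1, fun h => hfr t s ht hs h, fun h => ?_⟩
    rw [hO.frontier_eq]
    subst h
    exact ⟨closure_mono hU (clUp t ht), key t ht⟩
  · right
    intro t s ht hs
    have key : ∀ t, |t| < δ → (t, ψ t) ∉ O := by
      intro t ht h
      obtain ⟨ε, hε, hh⟩ := opO _ h
      obtain ⟨s, h1, h2⟩ := above t ht ε hε
      exact hU h1 (hh _ h2)
    have iff1 : (t, s) ∈ O ↔ s < ψ t := by
      constructor
      · intro h
        rcases lt_trichotomy (ψ t) s with h1 | h1 | h1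
        · exact absurd h (hU ⟨ht, hs, h1⟩)
        · exact absurd (h1 ▸ h) (key t ht)
        · exact h1
      · intro h
        exact hL ⟨ht, hs, h⟩
    refine ⟨iff1, fun h => hfr t s ht hs h, fun h => ?_⟩
    rw [hO.frontier_eq]
    subst h
    exact ⟨closure_mono hL (clLo t ht), key t ht⟩
  · exfalso
    obtain ⟨v, hv1, hv2⟩ := mem_closure_iff.mp h0c _ hQo h0Q
    have hg : v.2 = ψ v.1 := by
      rcases lt_trichotomy (ψ v.1) v.2 with h | h | h
      · exact absurd hv2 (hU ⟨hv1.1, hv1.2, h⟩)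
      · exact h.symm
      · exact absurd hv2 (hL ⟨hv1.1, hv1.2, h⟩)
    have hv2' : (v.1, ψ v.1) ∈ O := by rw [← hg]; exact hv2
    obtain ⟨ε, hε, hh⟩ := opO _ hv2'
    obtain ⟨s, h1, h2⟩ := above v.1 hv1.1 ε hε
    exact hU h1 (hh _ h2)

end P2

namespace P2

lemma impl {F : ℝ × ℝ → ℝ} (hF : ContDiff ℝ 2 F) (h0 : F (0, 0) = 0)
    (h1 : fderiv ℝ F (0, 0) (1, 0) = 0) (h2 : fderiv ℝ F (0, 0) (0, 1) ≠ 0) {ε : ℝ} (hε : 0 < ε) :
    ∃ (δ : ℝ) (ψ : ℝ → ℝ), 0 < δ ∧ δ ≤ ε ∧ ContDiff ℝ 2 ψ ∧ ψ 0 = 0 ∧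
      (∀ t, |t| < δ → |deriv ψ t| ≤ 1 / 2) ∧
      (∀ t s, |t| < δ → |s| < δ → F (t, s) = 0 → s = ψ t) := by
  have cdf : ContDiffAt ℝ 2 F (0, 0) := hF.contDiffAt
  have if₂ : (fderiv ℝ F (0, 0) ∘L .inr ℝ ℝ ℝ).IsInvertible := by
    refine ⟨ContinuousLinearEquiv.unitsEquivAut ℝ (Units.mk0 _ h2), ?_⟩
    ext
    simp
  have pn : (2 : WithTop ℕ∞) ≠ 0 := by norm_num
  set ψ0 := cdf.implicitFunction pn if₂ with hψ0
  have e0 : ψ0 0 = 0 := cdf.implicitFunction_apply_self pn if₂
  have ev := cdf.eventually_apply_eq_iff_implicitFunction pn if₂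
  rw [← hψ0, h0] at ev
  have hd := cdf.hasStrictFDerivAt_implicitFunction pn if₂
  have cd : ContDiffAt ℝ 2 ψ0 0 := cdf.contDiffAt_implicitFunction pn if₂
  have d0 : deriv ψ0 0 = 0 := by
    have h3 := hd.hasFDerivAt.hasDerivAt.deriv
    rw [← hψ0] at h3
    rw [h3]
    simp [h1]
  have cd' : ∀ᶠ y in 𝓝 (0 : ℝ), ContDiffAt ℝ 2 ψ0 y := cd.eventually (by simp)
  obtain ⟨ρ, hρ, hρ'⟩ := Metric.eventually_nhds_iff.mp cd'
  let χ : ContDiffBump (0 : ℝ) := ⟨ρ / 4, ρ / 2, by linarith, by linarith⟩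
  set ψ : ℝ → ℝ := fun t => χ t * ψ0 t with hψ
  have cψ : ContDiff ℝ 2 ψ := by
    rw [contDiff_iff_contDiffAt]
    intro x
    by_cases hx1 : x ∈ tsupport χ
    · rw [χ.tsupport_eq, Metric.mem_closedBall] at hx1
      have hx2 : dist x 0 < ρ := lt_of_le_of_lt hx1 (by change ρ / 2 < ρ; linarith)
      exact (χ.contDiff.contDiffAt).mul (hρ' hx2)
    · have h3 : ψ =ᶠ[𝓝 x] fun _ => (0 : ℝ) := by
        have h4 : (tsupport χ)ᶜ ∈ 𝓝 x := (isClosed_tsupport _).isOpen_compl.mem_nhds hx1
        filter_upwards [h4] with y hy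
        have : χ y = 0 := image_eq_zero_of_notMem_tsupport hy
        simp [hψ, this]
      exact contDiffAt_const.congr_of_eventuallyEq h3
  have hin : ∀ t, |t| < ρ / 4 → ψ t = ψ0 t := by
    intro t ht
    have : χ t = 1 := χ.one_of_mem_closedBall (by
      rw [Metric.mem_closedBall, Real.dist_eq, sub_zero]; exact ht.le)
    simp [hψ, this]
  have hz : ψ 0 = 0 := by rw [hin 0 (by simpa using by positivity), e0]
  have hev : ψ =ᶠ[𝓝 0] ψ0 := by
    rw [Filter.EventuallyEq, Metric.eventually_nhds_iff]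
    refine ⟨ρ / 4, by positivity, fun y hy => hin y ?_⟩
    rwa [Real.dist_eq, sub_zero] at hy
  have hdψ : deriv ψ 0 = 0 := by rw [hev.deriv_eq, d0]
  have hcd : Continuous (deriv ψ) := cψ.continuous_deriv (by norm_num)
  have hsl : ∀ᶠ t in 𝓝 (0 : ℝ), |deriv ψ t| < 1 / 2 := by
    have : Tendsto (fun t => |deriv ψ t|) (𝓝 0) (𝓝 |deriv ψ 0|) := (hcd.abs).tendsto 0
    rw [hdψ, abs_zero] at this
    exact this.eventually (gt_mem_nhds (by norm_num))
  obtain ⟨ρ2, hρ2, hρ2'⟩ := Metric.eventually_nhds_iff.mp hsl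
  obtain ⟨ρ3, hρ3, hρ3'⟩ := Metric.eventually_nhds_iff.mp ev
  refine ⟨min (min ε (ρ / 4)) (min ρ2 ρ3), ψ, ?_, ?_, cψ, hz, ?_, ?_⟩
  · exact lt_min (lt_min hε (by linarith)) (lt_min hρ2 hρ3)
  · exact (min_le_left _ _).trans (min_le_left _ _)
  · intro t ht
    apply (hρ2' (y := t) _).le
    rw [Real.dist_eq, sub_zero]
    exact lt_of_lt_of_le ht ((min_le_right _ _).trans (min_le_left _ _))
  · intro t s ht hs hF0
    have h3 : dist (t, s) ((0 : ℝ), (0 : ℝ)) < ρ3 := by
      rw [Prod.dist_eq]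
      simp only [Real.dist_eq, sub_zero]
      exact max_lt (lt_of_lt_of_le ht ((min_le_right _ _).trans (min_le_right _ _)))
        (lt_of_lt_of_le hs ((min_le_right _ _).trans (min_le_right _ _)))
    have h4 := (hρ3' h3).mp hF0
    rw [hin t (lt_of_lt_of_le ht ((min_le_left _ _).trans (min_le_right _ _)))]
    exact h4.symm

end P2

/-- TARGET: the boundary is locally a graph with the region on one side. -/
theorem exists_chart {D Ω γ : Set ℂ} {lam k : ℝ} {u : ℂ → ℝ} (hDo : IsOpen D) (hlam : 0 < lam)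
    (hu : Wat D lam u) (hk : k ≠ 0) (hγD : γ ⊆ D) (huk : ∀ x ∈ γ, u x = k)
    (hcr : ∀ x ∈ γ, fderiv ℝ u x = 0) (hΩo : IsOpen Ω) (hfr : frontier Ω = γ)
    (hreg : interior (closure Ω) = Ω) :
    ∀ q ∈ γ, ∃ (e : ℂ) (δ : ℝ) (ψ : ℝ → ℝ), Chart Ω γ q e δ ψ := by
  intro q hq
  obtain ⟨r, hr, W, hW, hball, hWe⟩ := hu.loc q (hγD hq)
  have hqb := Metric.mem_ball_self (x := q) hr
  have hWk : W q = k := by rw [← (hWe q hqb).1, huk q hq]
  have hla : la W q = -(lam * k) := by rw [(hWe q hqb).2, hWk]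
  have hgr : ∀ x ∈ γ, x ∈ Metric.ball q r → fderiv ℝ W x = 0 := by
    intro x hx hxb
    have h1 : u =ᶠ[𝓝 x] W := by
      filter_upwards [Metric.isOpen_ball.mem_nhds hxb] with y hy
      exact (hWe y hy).1
    rw [← h1.fderiv_eq]
    exact hcr x hx
  have hdir : ∃ n : ℂ, fderiv ℝ (dd n W) q ≠ 0 := by
    by_contra hcon
    push Not at hcon
    have h1 : la W q = 0 := by
      change fderiv ℝ (dd 1 W) q 1 + fderiv ℝ (dd Complex.I W) q Complex.I = 0
      rw [hcon, hcon]
      simp
    rw [hla] at h1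
    exact (mul_ne_zero hlam.ne' hk) (by linarith)
  obtain ⟨n, hn⟩ := hdir
  have hf : ContDiff ℝ ∞ (dd n W) := (Pool.Agent.TH298.Sch.dd_sc hW n).sm
  have hfγ : ∀ x ∈ γ, x ∈ Metric.ball q r → dd n W x = 0 := by
    intro x hx hxb
    change fderiv ℝ W x n = 0
    rw [hgr x hx hxb]
    rfl
  set L := fderiv ℝ (dd n W) q with hL
  have hab : L 1 ≠ 0 ∨ L Complex.I ≠ 0 := by
    by_contra hcon
    push Not at hcon
    apply hn
    ext x
    rw [Pool.Agent.TH298.Sch.lin_val L x, hcon.1, hcon.2]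
    simp
  have hpos : 0 < L 1 ^ 2 + L Complex.I ^ 2 := by
    rcases hab with h | h
    · have := pow_pos (abs_pos.mpr h) 2
      rw [sq_abs] at this
      nlinarith [sq_nonneg (L Complex.I)]
    · have := pow_pos (abs_pos.mpr h) 2
      rw [sq_abs] at this
      nlinarith [sq_nonneg (L 1)]
  set ρ := Real.sqrt (L 1 ^ 2 + L Complex.I ^ 2) with hρ
  have hρpos : 0 < ρ := Real.sqrt_pos.mpr hpos
  have hρsq : ρ ^ 2 = L 1 ^ 2 + L Complex.I ^ 2 := Real.sq_sqrt hpos.le
  set e : ℂ := ⟨L Complex.I / ρ, -(L 1 / ρ)⟩ with he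
  have heu : ‖e‖ = 1 := by
    have h1 : ‖e‖ ^ 2 = 1 := by
      rw [← Complex.normSq_eq_norm_sq, Complex.normSq_apply, he]
      simp only
      field_simp
      linarith
    have h2 : 0 ≤ ‖e‖ := norm_nonneg e
    nlinarith [sq_nonneg (‖e‖ - 1)]
  have he0 : e ≠ 0 := by
    intro h
    rw [h, norm_zero] at heu
    exact zero_ne_one heu
  have hLe : L e = 0 := by
    rw [Pool.Agent.TH298.Sch.lin_val L e, he]
    simp only
    ring
  have hLIe : L (Complex.I * e) = ρ := by
    rw [Pool.Agent.TH298.Sch.lin_val L (Complex.I * e)]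
    have h1 : (Complex.I * e).re = L 1 / ρ := by simp [he]
    have h2 : (Complex.I * e).im = L Complex.I / ρ := by simp [he]
    rw [h1, h2]
    field_simp
    linarith
  -- the frame
  let A : ℝ × ℝ →L[ℝ] ℂ := (ContinuousLinearMap.fst ℝ ℝ ℝ).smulRight e +
    (ContinuousLinearMap.snd ℝ ℝ ℝ).smulRight (Complex.I * e)
  have hA : ∀ t s : ℝ, A (t, s) = (t + s * Complex.I) * e := by
    intro t s
    simp only [A, add_apply, ContinuousLinearMap.smulRight_apply,
      ContinuousLinearMap.coe_fst', ContinuousLinearMap.coe_snd', Complex.real_smul]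
    ring
  let h : ℝ × ℝ ≃ₜ ℂ :=
    { toFun := fun v => q + A v
      invFun := fun x => (((x - q) / e).re, ((x - q) / e).im)
      left_inv := by
        rintro ⟨t, s⟩
        have h1 : (q + A (t, s) - q) / e = t + s * Complex.I := by
          rw [hA]
          field_simp
          ring
        simp only [h1]
        simp
      right_inv := by
        intro x
        have h1 : A (((x - q) / e).re, ((x - q) / e).im) = x - q := by
          rw [hA, Complex.re_add_im]
          field_simp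
        simp only [h1]
        ring
      continuous_toFun := by fun_prop
      continuous_invFun := by
        apply Continuous.prodMk
        · exact Complex.continuous_re.comp ((continuous_id.sub continuous_const).div_const e)
        · exact Complex.continuous_im.comp ((continuous_id.sub continuous_const).div_const e) }
  have hh : ∀ t s : ℝ, h (t, s) = q + (t + s * Complex.I) * e := by
    intro t s
    change q + A (t, s) = _
    rw [hA]
  set F : ℝ × ℝ → ℝ := fun v => dd n W (q + A v) with hF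
  have hFc : ContDiff ℝ 2 F := by
    have h1 : ContDiff ℝ 2 (dd n W) := by exact_mod_cast contDiff_infty.mp hf 2
    exact h1.comp (contDiff_const.add A.contDiff)
  have hFd : HasFDerivAt F (L.comp A) (0, 0) := by
    have h1 : HasFDerivAt (fun v : ℝ × ℝ => q + A v) A (0, 0) := A.hasFDerivAt.const_add q
    have h2 : HasFDerivAt (dd n W) L ((fun v : ℝ × ℝ => q + A v) (0, 0)) := by
      have h3 : (fun v : ℝ × ℝ => q + A v) (0, 0) = q := by
        simp [hA]
      rw [h3]
      exact ((hf.differentiable (by simp)) q).hasFDerivAt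
    exact h2.comp (0, 0) h1
  have hA10 : A (1, 0) = e := by rw [hA]; simp
  have hA01 : A (0, 1) = Complex.I * e := by rw [hA]; simp
  obtain ⟨δ, ψ, hδ, hδr, cψ, ψ0, hslope, hzero⟩ := P2.impl hFc
    (by
      have h1 : A (0, 0) = 0 := by rw [hA]; simp
      simp only [hF, h1, add_zero]
      exact hfγ q hq hqb)
    (by rw [hFd.fderiv, ContinuousLinearMap.comp_apply, hA10, hLe])
    (by rw [hFd.fderiv, ContinuousLinearMap.comp_apply, hA01, hLIe]; exact hρpos.ne')
    (half_pos hr)
  have hbd : ∀ t, |t| < δ → |ψ t| < δ := by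
    intro t ht
    have hd : Differentiable ℝ ψ := cψ.differentiable (by norm_num)
    have h1 := (convex_Ioo (-δ) δ).norm_image_sub_le_of_norm_deriv_le (f := ψ) (C := 1 / 2)
      (x := 0) (y := t) (fun x _ => hd x)
      (fun x hx => by rw [Real.norm_eq_abs]; exact hslope x (abs_lt.mpr hx))
      ⟨by linarith, hδ⟩ (abs_lt.mp ht)
    rw [ψ0, sub_zero, sub_zero, Real.norm_eq_abs, Real.norm_eq_abs] at h1
    linarith [abs_nonneg t]
  have hinb : ∀ t s : ℝ, |t| < δ → |s| < δ → h (t, s) ∈ Metric.ball q r := by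
    intro t s ht hs
    rw [hh, Metric.mem_ball, dist_eq_norm, add_sub_cancel_left, norm_mul, heu, mul_one]
    calc ‖(t : ℂ) + s * Complex.I‖ ≤ ‖(t : ℂ)‖ + ‖(s : ℂ) * Complex.I‖ := norm_add_le _ _
      _ = |t| + |s| := by simp
      _ < r := by linarith
  have hfrO : frontier (h ⁻¹' Ω) = h ⁻¹' γ := by
    rw [← h.preimage_frontier, hfr]
  have hregO : interior (closure (h ⁻¹' Ω)) = h ⁻¹' Ω := by
    rw [← h.preimage_closure, ← h.preimage_interior, hreg]
  have h00 : h (0, 0) = q := by rw [hh]; simp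
  rcases P2.topo (O := h ⁻¹' Ω) (hΩo.preimage h.continuous) hregO hδ cψ.continuous hbd
    (fun t s ht hs hts => by
      rw [hfrO] at hts
      exact hzero t s ht hs (hfγ _ hts (hinb t s ht hs)))
    (by rw [hfrO]; change h (0, 0) ∈ γ; rw [h00]; exact hq) with hcase | hcase
  · refine ⟨e, δ, ψ, heu, hδ, cψ, ψ0, hslope, ?_, ?_⟩
    · intro t s ht hs
      rw [← hh]
      exact (hcase t s ht hs).1
    · intro t s ht hs
      rw [← hh, ← (hcase t s ht hs).2, hfrO]
      rfl
  · have hneg : ∀ t s : ℝ, q + ((t : ℂ) + s * Complex.I) * (-e) = h (-t, -s) := by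
      intro t s
      rw [hh]
      push_cast
      ring
    refine ⟨-e, δ, fun t => -ψ (-t), by rw [norm_neg, heu], hδ, ?_, by simp [ψ0], ?_, ?_, ?_⟩
    · exact (cψ.comp contDiff_neg).neg
    · intro t ht
      have h1 : deriv (fun t => -ψ (-t)) t = deriv ψ (-t) := by
        have hd : Differentiable ℝ ψ := cψ.differentiable (by norm_num)
        have h2 : HasDerivAt (fun t => ψ (-t)) (deriv ψ (-t) * (-1)) t :=
          (hd (-t)).hasDerivAt.comp t (hasDerivAt_neg t)
        have h3 : HasDerivAt (fun t => -ψ (-t)) (-(deriv ψ (-t) * (-1))) t := h2.neg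
        rw [h3.deriv]
        ring
      rw [h1]
      exact hslope (-t) (by rwa [abs_neg])
    · intro t s ht hs
      rw [hneg]
      have h1 := (hcase (-t) (-s) (by rwa [abs_neg]) (by rwa [abs_neg])).1
      change h (-t, -s) ∈ Ω ↔ _ at h1
      rw [h1]
      constructor <;> intro h2 <;> linarith
    · intro t s ht hs
      rw [hneg]
      have h1 := (hcase (-t) (-s) (by rwa [abs_neg]) (by rwa [abs_neg])).2
      rw [hfrO] at h1
      change h (-t, -s) ∈ γ ↔ _ at h1
      rw [h1]
      constructor <;> intro h2 <;> linarith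

end Pool.Agent.Helper327_Drum
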