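import Pool.Agent.Helper327_Drum.Fin.AS2
import Pool.Agent.Helper327_Drum.Fin.P2
import Pool.Agent.Helper327_Drum.BDefs
import Pool.Agent.Helper327_Drum.Fin.LRF
import Pool.Agent.Helper327_Drum.Fin.NB3
import Pool.Agent.Helper327_Drum.Fin.NC1
import Pool.Agent.Helper327_Drum.Fin.NC3
import Pool.Agent.Helper327_Drum.Fin.NC4
import Pool.Agent.Helper327_Drum.Fin.NC5

/-
JOB NC6 (owner helper327, problem MP_d92c84_an). All imports are on origin/main.
-/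

set_option autoImplicit false
open MeasureTheory Set Filter Topology ComplexConjugate
open scoped ContDiff InnerProductSpace

namespace Pool.Agent.Helper327_Drum

open Pool.Agent.TH298.Sch (dd SC Sol)
open Pool.Agent.R227.SA (la Wat Dat)

/-
Other lemmas (see the imports): `crit_dat` (Fin/AS2.lean), `exists_chart` (Fin/P2.lean), `scc_basic`, `inside_basic`, `inside_compl` (Fin/G1.lean), `inside_jordan` (Fin/G2.lean).
Plain proof. Suppose not. With ε n = 1/(n+2) there are R n, γ n, lam n, k n, u n satisfying all hypotheses, inside (γ n) not a ball. u n is continuous with compact support and not 0 (k n ≠ 0), so |u n| attains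
its maximum s n > 0; w n = u n / s n satisfies |w n| ≤ 1, |w n| = 1 somewhere, Wat (`wat_smul`), w n = k n/s n ≠ 0 on γ n, fderiv (w n) = 0 on γ n. Replace u n, k n by w n, k n/s n.
`compact_modes` (D n = inside (R n)) gives φ, l, v; `disc_crit` for v gives P, Q; let Q' = insert 1 Q, so 0 < ρ ≤ 1 for ρ ∈ Q'. Let ε₀ be the constant of `lrf_sol` for √T. Choose η > 0 with
η < ρ and η ≤ ε₀ ρ for all ρ ∈ Q' (finite set), 4 π η T < 3 and π η² T < 3. `near_circles` for P, Q', η gives δ.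
Claim: for all large n every x ∈ γ (φ n) satisfies (∃ p ∈ P, ‖x - p‖ < δ) ∨ ∃ ρ ∈ Q', |‖x‖ - ρ| < δ. Otherwise there are infinitely many n with a bad point x n ∈ γ (φ n) ⊆ closedBall 0 2, so along a
subsequence x n → x₀, ‖x₀‖ ≤ 1 (‖x n‖ ≤ 1 + ε), ‖x₀ - p‖ ≥ δ for p ∈ P, |‖x₀‖ - ρ| ≥ δ for ρ ∈ Q'; in particular ‖x₀‖ < 1. Put x n = x₀ for the other n; then x n → x₀, and by `compact_modes`
fderiv (u (φ n)) (x n) → fderiv v x₀; along the subsequence it is 0, so fderiv v x₀ = 0 and `disc_crit` says x₀ ∈ P or ‖x₀‖ ∈ Q: contradiction.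
Take such a large n and write γ, R, lam, k, u. `crit_dat`: Ω = inside γ is nonempty and Dat Ω lam k (indicator (u - k)). Ω is open, bounded (`inside_basic`), connected, frontier Ω = γ,
interior (closure Ω) = Ω (`inside_jordan`), Ωᶜ connected (`inside_compl`). `dat_area`: 3 ≤ lam |Ω| ≤ T |Ω|. By `near_circles` either γ ⊆ ball p η, then Ω ⊆ ball p η (`inside_small`) and
|Ω| ≤ π η², so 3 ≤ T π η²: contradiction. Or | ‖x‖ - ρ | < η on γ, ρ ∈ Q'; 4 π ρ η ≤ 4 π η < 3/T ≤ |Ω|, so `inside_annulus` gives ball 0 (ρ-η) ⊆ Ω ⊆ ball 0 (ρ+η), hence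
ball 0 ((1-ε₀)ρ) ⊆ Ω ⊆ closedBall 0 ((1+ε₀)ρ). volume (frontier Ω) = volume γ = 0 by `exists_chart` and `null_of_chart`. √lam ρ ≤ √T. `dat_sol` and `lrf_sol` give that Ω is a ball: contradiction.
-/

/-- normalisation -/
theorem nu_norm {R γ : Set ℂ} {lam k ε : ℝ} {u : ℂ → ℝ} (hγ : SimpleClosedCurve γ)
    (hout : inside R ⊆ Metric.closedBall 0 (1 + ε)) (hu : Wat (inside R) lam u)
    (hsub : γ ⊆ inside R) (hk : k ≠ 0) (huk : ∀ x ∈ γ, u x = k)
    (hcr : ∀ x ∈ γ, fderiv ℝ u x = 0) :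
    ∃ (k' : ℝ) (w : ℂ → ℝ), Wat (inside R) lam w ∧ k' ≠ 0 ∧ (∀ x ∈ γ, w x = k') ∧
      (∀ x ∈ γ, fderiv ℝ w x = 0) ∧ (∀ x, |w x| ≤ 1) ∧ ∃ x, |w x| = 1 := by
  obtain ⟨x₀, hx₀⟩ := (scc_basic hγ).2.2.nonempty
  have hcont : Continuous (fun x => |u x|) := hu.cont.abs
  obtain ⟨z, hz, hmax⟩ := (isCompact_closedBall (0 : ℂ) (1 + ε)).exists_isMaxOn
    ⟨x₀, hout (hsub hx₀)⟩ hcont.continuousOn
  have hle : ∀ x, |u x| ≤ |u z| := by
    intro x
    by_cases hx : x ∈ inside R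
    · exact hmax (hout hx)
    · rw [hu.out x hx, abs_zero]; exact abs_nonneg _
  have hs : 0 < |u z| := by
    refine lt_of_lt_of_le ?_ (hle x₀)
    rw [huk x₀ hx₀]
    exact abs_pos.mpr hk
  refine ⟨|u z|⁻¹ * k, fun x => |u z|⁻¹ * u x, wat_smul hu _, mul_ne_zero (inv_ne_zero hs.ne') hk,
    fun x hx => by simp only [huk x hx], ?_, ?_, ?_⟩
  · intro x hx
    have hd : DifferentiableAt ℝ u x := (wat_smooth hu (hsub hx)).1.differentiableAt (by norm_num)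
    have h1 := (hd.hasFDerivAt.const_mul (|u z|⁻¹)).fderiv
    rw [hcr x hx, smul_zero] at h1
    exact h1
  · intro x
    rw [abs_mul, abs_inv, abs_abs, inv_mul_le_iff₀ hs, mul_one]
    exact hle x
  · refine ⟨z, ?_⟩
    rw [abs_mul, abs_inv, abs_abs, inv_mul_cancel₀ hs.ne']

theorem nu_ev {a : ℝ} (ha : 0 < a) : ∀ᶠ η in 𝓝[>] (0 : ℝ), η < a :=
  mem_nhdsWithin_of_mem_nhds (Iio_mem_nhds ha)

theorem nu_tendsto {ψ : ℕ → ℕ} (hψ : StrictMono ψ) {b : ℕ → ℂ} {x₀ : ℂ}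
    (hb : Tendsto b atTop (𝓝 x₀)) :
    ∃ y : ℕ → ℂ, (∀ m, y (ψ m) = b m) ∧ Tendsto y atTop (𝓝 x₀) := by
  refine ⟨Function.extend ψ b (fun _ => x₀), fun m => hψ.injective.extend_apply _ _ _, ?_⟩
  rw [Metric.tendsto_atTop] at hb ⊢
  intro ε hε
  obtain ⟨M, hM⟩ := hb ε hε
  refine ⟨ψ M, fun n hn => ?_⟩
  by_cases h : ∃ m, ψ m = n
  · obtain ⟨m, rfl⟩ := h
    rw [hψ.injective.extend_apply]
    exact hM m (hψ.le_iff_le.mp hn)
  · rw [Function.extend_apply' _ _ _ h, dist_self]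
    exact hε

theorem nu_area (p : ℂ) {η : ℝ} (hη : 0 ≤ η) :
    volume.real (Metric.ball p η) = Real.pi * η ^ 2 := by
  rw [Measure.real, Complex.volume_ball, ENNReal.toReal_mul, ENNReal.toReal_pow,
    ENNReal.toReal_ofReal hη]
  simp [mul_comm]

/-- TARGET: near the unit circle, closed curves of critical points with bounded eigenvalue enclose discs. -/
theorem near_unit (T : ℝ) (hT : 0 < T) : ∃ ε : ℝ, 0 < ε ∧ ε < 1 ∧
    ∀ (R γ : Set ℂ) (lam k : ℝ) (u : ℂ → ℝ), SimpleClosedCurve R → SimpleClosedCurve γ →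
      Metric.ball 0 (1 - ε) ⊆ inside R → inside R ⊆ Metric.closedBall 0 (1 + ε) →
      0 < lam → lam ≤ T → Wat (inside R) lam u → γ ⊆ inside R → k ≠ 0 → (∀ x ∈ γ, u x = k) →
      (∀ x ∈ γ, fderiv ℝ u x = 0) → ∃ (p : ℂ) (r : ℝ), 0 < r ∧ inside γ = Metric.ball p r := by
  by_contra hcon
  have hex : ∀ n : ℕ, ∃ (R γ : Set ℂ) (lam k : ℝ) (u : ℂ → ℝ), SimpleClosedCurve R ∧
      SimpleClosedCurve γ ∧ Metric.ball 0 (1 - 1 / ((n : ℝ) + 2)) ⊆ inside R ∧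
      inside R ⊆ Metric.closedBall 0 (1 + 1 / ((n : ℝ) + 2)) ∧ 0 < lam ∧ lam ≤ T ∧
      Wat (inside R) lam u ∧ γ ⊆ inside R ∧ k ≠ 0 ∧ (∀ x ∈ γ, u x = k) ∧
      (∀ x ∈ γ, fderiv ℝ u x = 0) ∧ (∀ x, |u x| ≤ 1) ∧ (∃ x, |u x| = 1) ∧
      ¬ ∃ (p : ℂ) (r : ℝ), 0 < r ∧ inside γ = Metric.ball p r := by
    intro n
    by_contra hn
    apply hcon
    refine ⟨1 / ((n : ℝ) + 2), by positivity, ?_, ?_⟩
    · rw [div_lt_one (by positivity)]
      have : (0 : ℝ) ≤ n := Nat.cast_nonneg n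
      linarith
    · intro R γ lam k u hR hγ hin hout hlam hlamT hu hsub hk huk hcr
      by_contra hnb
      obtain ⟨k', w, hw, hk', hwk, hwc, hw1, hw2⟩ := nu_norm hγ hout hu hsub hk huk hcr
      exact hn ⟨R, γ, lam, k', w, hR, hγ, hin, hout, hlam, hlamT, hw, hsub, hk', hwk, hwc, hw1,
        hw2, hnb⟩
  choose R γ lam k u hR hγ hin hout hlam hlamT hu hsub hk huk hcr hu1 hu2 hnb using hex
  have hε : Tendsto (fun n : ℕ => 1 / ((n : ℝ) + 2)) atTop (𝓝 0) := by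
    have h1 : Tendsto (fun n : ℕ => ((n : ℝ) + 2)) atTop atTop :=
      tendsto_atTop_add_const_right _ _ tendsto_natCast_atTop_atTop
    refine h1.inv_tendsto_atTop.congr fun n => ?_
    rw [Pi.inv_apply, one_div]
  have hε0 : ∀ n : ℕ, 0 < 1 / ((n : ℝ) + 2) ∧ 1 / ((n : ℝ) + 2) < 1 := by
    intro n
    refine ⟨by positivity, ?_⟩
    rw [div_lt_one (by positivity)]
    have : (0 : ℝ) ≤ n := Nat.cast_nonneg n
    linarith
  have hDo : ∀ n, IsOpen (inside (R n)) := fun n => (inside_basic (scc_basic (hR n)).1).1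
  obtain ⟨φ, l, v, hφ, hl, -, hv, hvne, hconv⟩ := compact_modes (D := fun n => inside (R n))
    (lam := lam) (ε := fun n : ℕ => 1 / ((n : ℝ) + 2)) (u := u) (T := T) hε hε0 hDo hin hout
    (fun n => ⟨hlam n, hlamT n⟩) hu hu1 hu2
  obtain ⟨P, Q, hQ, hPQ⟩ := disc_crit hl hv hvne
  classical
  set Q' : Finset ℝ := insert 1 Q with hQ'
  have hQ'01 : ∀ ρ ∈ Q', 0 < ρ ∧ ρ ≤ 1 := by
    intro ρ hρ
    rw [hQ', Finset.mem_insert] at hρ
    rcases hρ with rfl | hρ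
    · exact ⟨one_pos, le_rfl⟩
    · exact ⟨(hQ ρ hρ).1, (hQ ρ hρ).2.le⟩
  obtain ⟨ε₀, hε₀, hε₀1, hlrf⟩ := lrf_sol (√T) (Real.sqrt_pos.mpr hT)
  have hpi := Real.pi_pos
  -- choice of `η`
  obtain ⟨η, hηQ, hη1, hη2, hη3⟩ : ∃ η : ℝ, (∀ ρ ∈ Q', η < ρ ∧ η ≤ ε₀ * ρ) ∧
      4 * Real.pi * η * T < 3 ∧ Real.pi * η ^ 2 * T < 3 ∧ 0 < η := by
    have e1 : ∀ᶠ η in 𝓝[>] (0 : ℝ), ∀ ρ ∈ Q', η < ρ ∧ η ≤ ε₀ * ρ := by
      rw [Filter.eventually_all_finset]
      intro ρ hρ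
      have hρ0 := (hQ'01 ρ hρ).1
      filter_upwards [nu_ev hρ0, nu_ev (mul_pos hε₀ hρ0)] with η h1 h2
      exact ⟨h1, h2.le⟩
    have e2 : ∀ᶠ η in 𝓝[>] (0 : ℝ), 4 * Real.pi * η * T < 3 := by
      filter_upwards [nu_ev (show 0 < 3 / (4 * Real.pi * T) by positivity)] with η h1
      rw [lt_div_iff₀ (by positivity)] at h1
      linarith
    have e3 : ∀ᶠ η in 𝓝[>] (0 : ℝ), Real.pi * η ^ 2 * T < 3 := by
      filter_upwards [nu_ev (show 0 < 3 / (Real.pi * T) by positivity), nu_ev one_pos,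
        self_mem_nhdsWithin] with η h1 h2 h3
      have h3' : 0 < η := h3
      rw [lt_div_iff₀ (by positivity)] at h1
      have h4 : η ^ 2 ≤ η := by nlinarith
      have h5 : Real.pi * η ^ 2 * T ≤ Real.pi * η * T := by
        apply mul_le_mul_of_nonneg_right _ hT.le
        exact mul_le_mul_of_nonneg_left h4 hpi.le
      linarith
    obtain ⟨η, h1, h2, h3, h4⟩ := (e1.and (e2.and (e3.and self_mem_nhdsWithin))).exists
    exact ⟨η, h1, h2, h3, h4⟩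
  obtain ⟨δ, hδ, hnc⟩ := near_circles P Q' hη3
  -- the claim
  have hclaim : ∀ᶠ n in atTop, ∀ x ∈ γ (φ n), (∃ p ∈ P, ‖x - p‖ < δ) ∨
      ∃ ρ ∈ Q', |‖x‖ - ρ| < δ := by
    by_contra hnot
    rw [Filter.not_eventually] at hnot
    obtain ⟨ψ₀, hψ₀, hbad⟩ := Filter.extraction_of_frequently_atTop hnot
    have hbad' : ∀ m, ∃ x ∈ γ (φ (ψ₀ m)), (∀ p ∈ P, δ ≤ ‖x - p‖) ∧
        ∀ ρ ∈ Q', δ ≤ |‖x‖ - ρ| := by
      intro m
      have h1 := hbad m
      simp only [not_forall] at h1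
      obtain ⟨x, hx, hx2⟩ := h1
      rw [not_or] at hx2
      refine ⟨x, hx, fun p hp => ?_, fun ρ hρ => ?_⟩
      · by_contra h
        exact hx2.1 ⟨p, hp, not_le.mp h⟩
      · by_contra h
        exact hx2.2 ⟨ρ, hρ, not_le.mp h⟩
    choose b hbγ hbP hbQ using hbad'
    have hbn : ∀ m, ‖b m‖ ≤ 1 + 1 / (((φ (ψ₀ m) : ℕ) : ℝ) + 2) := by
      intro m
      have := hout _ (hsub _ (hbγ m))
      rwa [mem_closedBall_zero_iff] at this
    have hb2 : ∀ m, b m ∈ Metric.closedBall (0 : ℂ) 2 := by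
      intro m
      rw [mem_closedBall_zero_iff]
      have := (hε0 (φ (ψ₀ m))).2
      linarith [hbn m]
    obtain ⟨x₀, -, ψ₁, hψ₁, hlim⟩ := (isCompact_closedBall (0 : ℂ) 2).tendsto_subseq hb2
    have hψ : StrictMono (ψ₀ ∘ ψ₁) := hψ₀.comp hψ₁
    have hx1 : ‖x₀‖ ≤ 1 := by
      have h1 : Tendsto (fun m => 1 + 1 / (((φ (ψ₀ (ψ₁ m)) : ℕ) : ℝ) + 2)) atTop (𝓝 (1 + 0)) :=
        (hε.comp ((hφ.comp hψ).tendsto_atTop)).const_add 1
      rw [add_zero] at h1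
      exact le_of_tendsto_of_tendsto' hlim.norm h1 (fun m => hbn (ψ₁ m))
    have hxP : ∀ p ∈ P, δ ≤ ‖x₀ - p‖ := fun p hp =>
      ge_of_tendsto' ((hlim.sub_const p).norm) (fun m => hbP (ψ₁ m) p hp)
    have hxQ : ∀ ρ ∈ Q', δ ≤ |‖x₀‖ - ρ| := fun ρ hρ =>
      ge_of_tendsto' ((hlim.norm.sub_const ρ).abs) (fun m => hbQ (ψ₁ m) ρ hρ)
    have hx1' : ‖x₀‖ < 1 := by
      refine lt_of_le_of_ne hx1 fun h => ?_
      have := hxQ 1 (by rw [hQ']; exact Finset.mem_insert_self _ _)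
      rw [h, sub_self, abs_zero] at this
      linarith
    obtain ⟨y, hy, hylim⟩ := nu_tendsto hψ hlim
    have h2 := (hconv y x₀ hx1' hylim).comp hψ.tendsto_atTop
    have h3 : (fun n => fderiv ℝ (u (φ n)) (y n)) ∘ (ψ₀ ∘ ψ₁) = fun _ => 0 := by
      funext m
      have h4 : y ((ψ₀ ∘ ψ₁) m) = b (ψ₁ m) := hy m
      simp only [Function.comp_apply] at h4 ⊢
      rw [h4]
      exact hcr _ _ (hbγ (ψ₁ m))
    rw [h3] at h2
    have h5 : fderiv ℝ v x₀ = 0 := tendsto_nhds_unique h2 tendsto_const_nhds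
    rcases hPQ x₀ (by rwa [mem_ball_zero_iff]) h5 with h6 | h6
    · have := hxP x₀ h6
      rw [sub_self, norm_zero] at this
      linarith
    · have := hxQ ‖x₀‖ (by rw [hQ']; exact Finset.mem_insert_of_mem h6)
      rw [sub_self, abs_zero] at this
      linarith
  obtain ⟨n₀, hn₀⟩ := hclaim.exists
  set n := φ n₀ with hn
  obtain ⟨hγc, hγcon, -⟩ := scc_basic (hγ n)
  obtain ⟨hΩne, hdat⟩ := crit_dat (hR n) (hγ n) (hlam n) (hu n) (hsub n) (hk n) (huk n) (hcr n)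
  obtain ⟨hΩo, hΩb, -, -, -⟩ := inside_basic hγc
  obtain ⟨hΩcon, hΩfr, hΩreg⟩ := inside_jordan (hγ n) hΩne
  have harea := dat_area hdat hΩo hΩb hΩcon hΩreg (hlam n) (hk n)
  have harea' : 3 ≤ T * volume.real (inside (γ n)) := by
    refine harea.trans ?_
    exact mul_le_mul_of_nonneg_right (hlamT n) measureReal_nonneg
  apply hnb n
  rcases hnc (γ n) hγcon hn₀ with ⟨p, hp⟩ | ⟨ρ, hρ, hρ2⟩
  · exfalso
    have h1 := inside_small hp
    have h2 : volume.real (inside (γ n)) ≤ volume.real (Metric.ball p η) :=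
      measureReal_mono h1 measure_ball_lt_top.ne
    rw [nu_area p hη3.le] at h2
    have h3 := mul_le_mul_of_nonneg_left h2 hT.le
    linarith
  · obtain ⟨hρ0, hρ1⟩ := hQ'01 ρ hρ
    obtain ⟨hηρ, hηε⟩ := hηQ ρ hρ
    have h1 : 4 * Real.pi * ρ * η < volume.real (inside (γ n)) := by
      have h2 : 4 * Real.pi * ρ * η ≤ 4 * Real.pi * η := by
        have : Real.pi * η * ρ ≤ Real.pi * η * 1 :=
          mul_le_mul_of_nonneg_left hρ1 (by positivity)
        linarith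
      have h3 : (4 * Real.pi * η) * T < volume.real (inside (γ n)) * T := by linarith
      have h4 := lt_of_mul_lt_mul_right h3 hT.le
      linarith
    obtain ⟨h2, h3⟩ := inside_annulus hη3 hηρ hρ2 h1 hγc
    obtain ⟨⟨G, hG⟩, hne0⟩ := dat_sol hdat hΩo hΩb hΩne (hk n)
    have hfr0 : volume (frontier (inside (γ n))) = 0 := by
      rw [hΩfr]
      exact null_of_chart hγc (exists_chart (hDo n) (hlam n) (hu n) (hk n) (hsub n) (huk n) (hcr n)
        hΩo hΩfr hΩreg)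
    have hsq : √(lam n) * ρ ≤ √T := by
      have h4 : √(lam n) ≤ √T := Real.sqrt_le_sqrt (hlamT n)
      have h5 : 0 ≤ √(lam n) := Real.sqrt_nonneg _
      nlinarith
    refine hlrf (inside (γ n)) (lam n) (k n) ρ 0 _ G hΩo hΩb (inside_compl hγc hγcon).1 hΩreg hfr0
      (hlam n) hρ0 hsq ?_ ?_ hG hne0
    · refine (Metric.ball_subset_ball ?_).trans h3
      linarith
    · refine h2.trans (Metric.ball_subset_closedBall.trans (Metric.closedBall_subset_closedBall ?_))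
      linarith

end Pool.Agent.Helper327_Drum
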