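import Pool.Agent.Helper327_Drum.Fin.AS7
import Pool.Agent.Helper327_Drum.Fin.NC4
import Pool.Agent.Helper327_Drum.Fin.NC5
import Pool.Agent.Helper327_Drum.Fin.NC6

/-! Drums near a circle. -/

set_option autoImplicit false
open MeasureTheory Set Filter Topology ComplexConjugate
open scoped ContDiff InnerProductSpace

namespace Pool.Agent.Helper327_Drum

open Pool.Agent.TH298.Sch (dd SC)
open Pool.Agent.R227.SA (la Wat Dat)

theorem NotDiscrete.curve {R : Set ℂ} {c : ℝ} {z : ℂ → ℝ → ℝ} {g : ℂ → ℝ → ℂ}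
    (hR : SimpleClosedCurve R) (hc : 0 < c) (h : DrumSolution R c z g) (hS : NotDiscrete R g) :
    ∃ γ : Set ℂ, SimpleClosedCurve γ ∧ γ ⊆ inside R ∧ ∀ x ∈ γ, ∀ t, g x t = 0 := by
  rcases hS with ⟨x₀, hx₀, hacc⟩ | ⟨K, hKS, hK, hnt⟩
  · obtain ⟨γ, h1, -, h3, h4, -⟩ := closed_curve hR hc h hx₀ hacc
    exact ⟨γ, h1, h3, fun x hx => (h4 hx).2⟩
  · obtain ⟨γ, h1, -, h3, h4, -⟩ := closed_curve_of_connected hR hc h hK hKS hnt
    exact ⟨γ, h1, h3, fun x hx => (h4 hx).2⟩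

theorem inside_closedBall {γ : Set ℂ} {p : ℂ} {η : ℝ} (h : ∀ x ∈ γ, ‖x - p‖ ≤ η) :
    inside γ ⊆ Metric.closedBall p η := by
  intro x hx
  rw [Metric.mem_closedBall]
  refine le_of_forall_pos_lt_add fun δ hδ => ?_
  have := inside_small (γ := γ) (p := p) (η := η + δ) (fun y hy => by
    rw [Metric.mem_ball, dist_eq_norm]
    have := h y hy
    linarith) hx
  exact this

theorem ball_inside {γ : Set ℂ} {p : ℂ} {η : ℝ} (hp : p ∈ inside γ) (h : ∀ x ∈ γ, η ≤ ‖x - p‖) :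
    Metric.ball p η ⊆ inside γ := by
  intro x hx
  have hη : 0 < η := lt_of_le_of_lt dist_nonneg (Metric.mem_ball.1 hx)
  have hsub : Metric.ball p η ⊆ γᶜ := by
    intro y hy hyγ
    rw [Metric.mem_ball, dist_eq_norm] at hy
    exact absurd (h y hyγ) (not_le.2 hy)
  refine ⟨hsub hx, ?_⟩
  have h1 : x ∈ connectedComponentIn γᶜ p :=
    (convex_ball p η).isPreconnected.subset_connectedComponentIn (Metric.mem_ball_self hη) hsub hx
  rw [← connectedComponentIn_eq h1]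
  exact hp.2

/-- if one closed curve of still points encloses a disc, all of them are circles with the same centre -/
theorem curves_concentric {R γ γ' : Set ℂ} {c : ℝ} {z : ℂ → ℝ → ℝ} {g : ℂ → ℝ → ℂ}
    (hR : SimpleClosedCurve R) (hc : 0 < c) (h : DrumSolution R c z g) (hγ : SimpleClosedCurve γ)
    (hS : γ ⊆ still R g) {p : ℂ} {r : ℝ} (hr : 0 < r) (hball : inside γ = Metric.ball p r)
    (hγ' : SimpleClosedCurve γ') (hS' : γ' ⊆ still R g) :
    ∃ r' : ℝ, 0 < r' ∧ γ' = Metric.sphere p r' := by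
  obtain ⟨lam, hlam, u, hm⟩ := mode_exists (scc_basic hR).1 hc h
  obtain ⟨hsub, k, hk, huk⟩ := hm.const_curve hR hlam hγ (fun x hx => (hS hx).1)
    fun x hx => (hS hx).2
  obtain ⟨hsub', k', hk', huk'⟩ := hm.const_curve hR hlam hγ' (fun x hx => (hS' hx).1)
    fun x hx => (hS' hx).2
  obtain ⟨r', h1, h2, -⟩ := concentric hR hγ hγ' hlam hm.wat hsub hsub' hk huk
    (fun x hx => hm.crit x (hsub hx) (hS hx).2) hk' huk'
    (fun x hx => hm.crit x (hsub' hx) (hS' hx).2) hr hball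
  exact ⟨r', h1, h2⟩

theorem near_circle (T : ℝ) (hT : 0 < T) : ∃ ε : ℝ, 0 < ε ∧ ε < 1 ∧
    ∀ (R : Set ℂ) (c : ℝ) (z : ℂ → ℝ → ℝ) (g : ℂ → ℝ → ℂ) (q : ℂ) (a lam : ℝ),
      SimpleClosedCurve R → 0 < c → DrumSolution R c z g → 0 < a → q ∈ inside R →
      (∀ x ∈ R, (1 - ε) * a ≤ ‖x - q‖ ∧ ‖x - q‖ ≤ (1 + ε) * a) →
      Excites R z lam → √lam * a ≤ T → NotDiscrete R g →
      ∃ (p : ℂ) (ρ : ℝ), 0 < ρ ∧ R = Metric.sphere p ρ ∧
        (∀ γ : Set ℂ, SimpleClosedCurve γ → γ ⊆ still R g → ∃ r, 0 < r ∧ γ = Metric.sphere p r) ∧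
        ∀ x ∈ Metric.closedBall p ρ, ∀ y ∈ Metric.closedBall p ρ, ‖x - p‖ = ‖y - p‖ →
          ∀ t, z x t = z y t := by
  obtain ⟨ε, hε0, hε1, hN⟩ := near_unit (T ^ 2) (by positivity)
  refine ⟨ε, hε0, hε1, ?_⟩
  intro R c z g q a lam hR hc h ha hq hann hE hlT hS
  obtain ⟨hRc, hRcon, hRinf⟩ := scc_basic hR
  obtain ⟨γ, hγ, hγD, hγg⟩ := hS.curve hR hc h
  obtain ⟨hlam, u, hm⟩ := mode_of_excites hRc hc h hE
  obtain ⟨-, k, hk, huk⟩ := hm.const_curve hR hlam hγ (fun x hx => Or.inl (hγD hx)) hγg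
  have hcr : ∀ x ∈ γ, fderiv ℝ u x = 0 := fun x hx => hm.crit x (hγD hx) (hγg x hx)
  have hinR := inside_aff R q ha
  have hinγ := inside_aff γ q ha
  have h0 : (0:ℂ) ∈ inside ((fun x : ℂ => q + a * x) ⁻¹' R) := by
    rw [hinR]
    simpa using hq
  have hnorm : ∀ x : ℂ, ‖q + a * x - q‖ = a * ‖x‖ := by
    intro x
    rw [add_sub_cancel_left, norm_mul, Complex.norm_real, Real.norm_eq_abs, abs_of_pos ha]
  have hann' : ∀ x ∈ (fun x : ℂ => q + a * x) ⁻¹' R, 1 - ε ≤ ‖x - 0‖ ∧ ‖x - 0‖ ≤ 1 + ε := by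
    intro x hx
    have h1 := hann _ hx
    rw [hnorm] at h1
    rw [sub_zero]
    constructor
    · nlinarith [h1.1]
    · nlinarith [h1.2]
  have hlam' : lam * a ^ 2 ≤ T ^ 2 := by
    have h1 : (√lam * a) ^ 2 ≤ T ^ 2 := pow_le_pow_left₀ (by positivity) hlT 2
    rwa [mul_pow, Real.sq_sqrt hlam.le] at h1
  obtain ⟨p, r, hr, hball⟩ := hN ((fun x : ℂ => q + a * x) ⁻¹' R) ((fun x : ℂ => q + a * x) ⁻¹' γ)
    (lam * a ^ 2) k (fun x => u (q + a * x)) (scc_aff hR q ha) (scc_aff hγ q ha)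
    (ball_inside h0 fun x hx => (hann' x hx).1) (inside_closedBall fun x hx => (hann' x hx).2)
    (by positivity) hlam' (by rw [hinR]; exact wat_aff hm.wat q ha)
    (by rw [hinR]; exact fun x hx => hγD hx) hk (fun x hx => huk _ hx)
    (fun x hx => fderiv_aff q ha (hcr _ hx))
  have hball' : inside γ = Metric.ball (q + a * p) (a * r) := by
    rw [hinγ] at hball
    ext y
    have ha' : (a : ℂ) ≠ 0 := by exact_mod_cast ha.ne'
    have e1 : q + a * ((y - q) / a) = y := by field_simp; ring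
    have h1 : y ∈ inside γ ↔ (y - q) / a ∈ (fun x : ℂ => q + a * x) ⁻¹' inside γ := by
      rw [mem_preimage, e1]
    rw [h1, hball, Metric.mem_ball, Metric.mem_ball, dist_eq_norm, dist_eq_norm]
    have e2 : (y - q) / a - p = (y - (q + a * p)) / a := by field_simp; ring
    rw [e2, norm_div, Complex.norm_real, Real.norm_eq_abs, abs_of_pos ha, div_lt_iff₀ ha, mul_comm r]
  obtain ⟨ρ, h1, h2, -, h4⟩ := radial_conclusion hR hc h hγ (fun x hx => Or.inl (hγD hx)) hγg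
    (mul_pos ha hr) hball'
  exact ⟨q + a * p, ρ, (mul_pos ha hr).trans h1, h2, fun γ' hγ' hS' => curves_concentric hR hc h hγ
    (fun x hx => ⟨Or.inl (hγD hx), hγg x hx⟩) (mul_pos ha hr) hball' hγ' hS', h4⟩

/-- Drum solutions with infinitely many frequencies. -/
theorem infinite_freq_acc {R : Set ℂ} {c : ℝ} {z : ℂ → ℝ → ℝ} {g : ℂ → ℝ → ℂ}
    (hR : SimpleClosedCurve R) (hc : 0 < c) (h : DrumSolution R c z g) (hS : NotDiscrete R g)
    (hinf : {lam | Excites R z lam}.Infinite) :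
    ∃ (p : ℂ) (r ρ : ℝ), 0 < r ∧ r < ρ ∧ R = Metric.sphere p ρ ∧
      (∀ x ∈ Metric.sphere p r, ∀ t, g x t = 0) ∧
      (∀ γ : Set ℂ, SimpleClosedCurve γ → γ ⊆ still R g → ∃ r, 0 < r ∧ γ = Metric.sphere p r) ∧
      ∀ x ∈ Metric.closedBall p ρ, ∀ y ∈ Metric.closedBall p ρ, ‖x - p‖ = ‖y - p‖ →
        ∀ t, z x t = z y t := by
  obtain ⟨γ, hγ, hγD, hγg⟩ := hS.curve hR hc h
  obtain ⟨p, r, ρ, h1, h2, h3, h4, h5⟩ :=
    infinite_freq hR hc h hγ (fun x hx => Or.inl (hγD hx)) hγg hinf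
  refine ⟨p, r, ρ, h1, h2, h3, ?_, fun γ' hγ' hS' => ?_, h5⟩
  · rw [← h4]
    exact hγg
  · refine curves_concentric hR hc h hγ (fun x hx => ⟨Or.inl (hγD hx), hγg x hx⟩) h1 ?_ hγ' hS'
    rw [h4]
    exact inside_sphere p h1

end Pool.Agent.Helper327_Drum
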