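import Pool.Agent.Helper327_Drum.Fin.C1
import Pool.Agent.R227.SA13

/-
JOB ST0 (owner helper327, problem MP_d92c84_an). All imports are on origin/main.
-/

set_option autoImplicit false
open MeasureTheory Set Filter Topology ComplexConjugate
open scoped ContDiff InnerProductSpace

namespace Pool.Agent.Helper327_Drum

open Pool.Agent.TH298.Sch (dd SC)
open Pool.Agent.R227.SA (la Wat Dat)

namespace helm_analytic_aux

open Pool.Agent.TH298.Sch (dd_sc)

/-- iterated directional derivatives -/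
noncomputable def WW (U : ℂ → ℝ) : List ℂ → ℂ → ℝ
  | [] => U
  | h :: l => dd h (WW U l)

theorem WW_sc {U : ℂ → ℝ} (hU : SC U) (l : List ℂ) : SC (WW U l) := by
  induction l with
  | nil => exact hU
  | cons h l ih => exact dd_sc ih h

theorem dd_swap {U : ℂ → ℝ} (hU : SC U) (v w x : ℂ) : dd w (dd v U) x = dd v (dd w U) x := by
  have h2 : ContDiff ℝ (⊤ : ℕ∞) (fderiv ℝ U) := hU.sm.fderiv_right (by simp)
  have h3 : HasFDerivAt (fderiv ℝ U) (fderiv ℝ (fderiv ℝ U) x) x :=
    ((h2.differentiable (by simp)) x).hasFDerivAt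
  have h5 : ∀ v, HasFDerivAt (dd v U) ((fderiv ℝ U x).comp (0 : ℂ →L[ℝ] ℂ) +
      (fderiv ℝ (fderiv ℝ U) x).flip v) x := fun v => h3.clm_apply (hasFDerivAt_const v x)
  have hsym : fderiv ℝ (fderiv ℝ U) x w v = fderiv ℝ (fderiv ℝ U) x v w :=
    second_derivative_symmetric (fun y => (hU.diff y).hasFDerivAt) h3 w v
  have k : ∀ v w, dd w (dd v U) x = fderiv ℝ (fderiv ℝ U) x w v := by
    intro v w
    show fderiv ℝ (dd v U) x w = _
    rw [(h5 v).fderiv]
    simp
  rw [k, k, hsym]

theorem la_dd {U : ℂ → ℝ} (hU : SC U) (v x : ℂ) : la (dd v U) x = dd v (la U) x := by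
  unfold la
  have e : ∀ w, dd w (dd w (dd v U)) x = dd v (dd w (dd w U)) x := by
    intro w
    have h1 : dd w (dd v U) = dd v (dd w U) := funext fun y => dd_swap hU v w y
    rw [h1, dd_swap (dd_sc hU w) v w x]
  rw [e, e]
  have d1 := (dd_sc (dd_sc hU 1) 1).diff x
  have d2 := (dd_sc (dd_sc hU Complex.I) Complex.I).diff x
  show _ = fderiv ℝ (fun x => dd 1 (dd 1 U) x + dd Complex.I (dd Complex.I U) x) x v
  rw [fderiv_fun_add d1 d2]
  rfl

theorem la_WW {U : ℂ → ℝ} (hU : SC U) {lam r : ℝ} {x₀ : ℂ}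
    (hH : ∀ x ∈ Metric.ball x₀ r, la U x = -(lam * U x)) (l : List ℂ) :
    ∀ x ∈ Metric.ball x₀ r, la (WW U l) x = -(lam * WW U l x) := by
  induction l with
  | nil => exact hH
  | cons h l ih =>
    intro x hx
    show la (dd h (WW U l)) x = -(lam * dd h (WW U l) x)
    rw [la_dd (WW_sc hU l)]
    have he : la (WW U l) =ᶠ[𝓝 x] fun y => -(lam * WW U l y) := by
      filter_upwards [Metric.isOpen_ball.mem_nhds hx] with y hy using ih y hy
    unfold dd
    rw [he.fderiv_eq]
    have hd := (WW_sc hU l).diff x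
    rw [fderiv_fun_neg, fderiv_const_mul hd]
    simp

theorem bound_step {U : ℂ → ℝ} (hU : SC U) {lam r : ℝ} (hlam : 0 < lam) {x₀ : ℂ}
    (hH : ∀ x ∈ Metric.ball x₀ r, la U x = -(lam * U x)) {M₀ : ℝ} (hM : ∀ x, |U x| ≤ M₀)
    {ρ : ℝ} (hρ : 0 < ρ) (hρ1 : ρ ≤ 1) (l : List ℂ) :
    ∀ x ∈ Metric.ball x₀ (r - l.length * ρ),
      |WW U l x| ≤ (l.map norm).prod * (8 * (1 + lam) / ρ) ^ l.length * M₀ := by
  have hM0 : 0 ≤ M₀ := (abs_nonneg _).trans (hM 0)
  induction l with
  | nil => intro x _; simpa [WW] using hM x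
  | cons h l ih =>
    intro x hx
    have hx' : dist x x₀ < r - ((l.length : ℝ) + 1) * ρ := by
      have := Metric.mem_ball.1 hx
      simpa using this
    set B : ℝ := (l.map norm).prod * (8 * (1 + lam) / ρ) ^ l.length * M₀ with hB
    have hprod : 0 ≤ (l.map norm).prod := by
      apply List.prod_nonneg
      intro a ha
      obtain ⟨b, _, rfl⟩ := List.mem_map.1 ha
      exact norm_nonneg b
    have hC : 0 ≤ 8 * (1 + lam) / ρ := by positivity
    have hB0 : 0 ≤ B := by positivity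
    have hsub : ∀ y ∈ Metric.ball x ρ, y ∈ Metric.ball x₀ (r - l.length * ρ) := by
      intro y hy
      rw [Metric.mem_ball] at hy ⊢
      have := dist_triangle y x x₀
      nlinarith
    have hsub2 : ∀ y ∈ Metric.ball x ρ, y ∈ Metric.ball x₀ r := by
      intro y hy
      have := Metric.mem_ball.1 (hsub y hy)
      rw [Metric.mem_ball]
      have : 0 ≤ (l.length : ℝ) * ρ := by positivity
      linarith
    have hg := grad_bd (x₀ := x) (r := ρ) (M := B) (N := lam * B) hρ (f := WW U l)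
      (((WW_sc hU l).sm.of_le (m := 2) (by norm_cast)).contDiffOn) (fun y hy => ih y (hsub y hy))
      (by
        intro y hy
        rw [la_WW hU hH l y (hsub2 y hy), abs_neg, abs_mul, abs_of_pos hlam]
        exact mul_le_mul_of_nonneg_left (ih y (hsub y hy)) hlam.le)
    have h1 : |WW U (h :: l) x| ≤ ‖fderiv ℝ (WW U l) x‖ * ‖h‖ := by
      show ‖fderiv ℝ (WW U l) x h‖ ≤ _
      exact ContinuousLinearMap.le_opNorm _ _
    have h2 : 8 * (B / ρ + lam * B * ρ) ≤ 8 * (1 + lam) / ρ * B := by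
      have : lam * B * ρ ≤ lam * B / ρ := by
        rw [le_div_iff₀ hρ]
        have : ρ * ρ ≤ 1 := by nlinarith
        nlinarith [mul_nonneg hlam.le hB0]
      have e : 8 * (1 + lam) / ρ * B = 8 * (B / ρ + lam * B / ρ) := by
        field_simp
      rw [e]
      linarith
    calc |WW U (h :: l) x| ≤ ‖fderiv ℝ (WW U l) x‖ * ‖h‖ := h1
      _ ≤ (8 * (1 + lam) / ρ * B) * ‖h‖ :=
        mul_le_mul_of_nonneg_right (hg.trans h2) (norm_nonneg _)
      _ = _ := by
        rw [hB]
        simp only [List.map_cons, List.prod_cons, List.length_cons, pow_succ]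
        ring

theorem bound_k {U : ℂ → ℝ} (hU : SC U) {lam r : ℝ} (hlam : 0 < lam) (hr : 0 < r) (hr1 : r ≤ 1)
    {x₀ : ℂ} (hH : ∀ x ∈ Metric.ball x₀ r, la U x = -(lam * U x)) {M₀ : ℝ} (hM : ∀ x, |U x| ≤ M₀)
    (l : List ℂ) :
    ∀ x ∈ Metric.ball x₀ (r / 2),
      |WW U l x| ≤ (l.map norm).prod * (16 * (1 + lam) * Real.exp 1 / r) ^ l.length
        * (l.length.factorial : ℝ) * M₀ := by
  have hM0 : 0 ≤ M₀ := (abs_nonneg _).trans (hM 0)
  intro x hx
  rcases Nat.eq_zero_or_pos l.length with h0 | hpos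
  · rw [List.length_eq_zero_iff] at h0
    subst h0
    simpa [WW] using hM x
  set k := l.length with hk
  have hk1 : (1 : ℝ) ≤ k := by exact_mod_cast hpos
  have hkp : (0 : ℝ) < k := by linarith
  set ρ : ℝ := r / (2 * k) with hρ
  have hρ0 : 0 < ρ := by positivity
  have hρ1 : ρ ≤ 1 := by
    rw [hρ, div_le_one (by positivity)]
    nlinarith
  have hb := bound_step hU hlam hH hM hρ0 hρ1 l x (by
    rw [← hk]
    have : r - (k : ℝ) * ρ = r / 2 := by
      rw [hρ]; field_simp; ring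
    rw [this]
    exact hx)
  rw [← hk] at hb
  refine hb.trans ?_
  have hprod : 0 ≤ (l.map norm).prod := by
    apply List.prod_nonneg
    intro a ha
    obtain ⟨b, _, rfl⟩ := List.mem_map.1 ha
    exact norm_nonneg b
  have e1 : (8 * (1 + lam) / ρ) ^ k = (16 * (1 + lam) / r) ^ k * (k : ℝ) ^ k := by
    rw [← mul_pow]
    congr 1
    rw [hρ]
    field_simp
    ring
  have e2 : (k : ℝ) ^ k ≤ Real.exp 1 ^ k * (k.factorial : ℝ) := by
    have := Real.pow_div_factorial_le_exp (x := (k : ℝ)) hkp.le k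
    rw [div_le_iff₀ (by positivity)] at this
    rw [← Real.exp_nat_mul, mul_one]
    exact this
  have e3 : (16 * (1 + lam) * Real.exp 1 / r) ^ k = (16 * (1 + lam) / r) ^ k * Real.exp 1 ^ k := by
    rw [← mul_pow]
    congr 1
    field_simp
  rw [e1, e3]
  have h4 : (16 * (1 + lam) / r) ^ k * (k : ℝ) ^ k
      ≤ (16 * (1 + lam) / r) ^ k * (Real.exp 1 ^ k * (k.factorial : ℝ)) :=
    mul_le_mul_of_nonneg_left e2 (by positivity)
  calc (l.map norm).prod * ((16 * (1 + lam) / r) ^ k * (k : ℝ) ^ k) * M₀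
      ≤ (l.map norm).prod * ((16 * (1 + lam) / r) ^ k * (Real.exp 1 ^ k * (k.factorial : ℝ))) * M₀ :=
        mul_le_mul_of_nonneg_right (mul_le_mul_of_nonneg_left h4 hprod) hM0
    _ = _ := by ring

theorem iter_eq {U : ℂ → ℝ} (hU : SC U) (k : ℕ) :
    ∀ (m : Fin k → ℂ) (x : ℂ), iteratedFDeriv ℝ k U x m = WW U (List.ofFn m) x := by
  induction k with
  | zero => intro m x; simp [WW]
  | succ k ih =>
    intro m x
    have hd : DifferentiableAt ℝ (iteratedFDeriv ℝ k U) x :=
      (hU.sm.differentiable_iteratedFDeriv (by exact_mod_cast ENat.natCast_lt_top k)) x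
    rw [hd.iteratedFDeriv_succ_apply_left']
    have : (fun y => iteratedFDeriv ℝ k U y (Fin.tail m)) = WW U (List.ofFn (Fin.tail m)) :=
      funext fun y => ih _ y
    rw [this, List.ofFn_succ]
    rfl

theorem line_eq {U : ℂ → ℝ} (hU : SC U) (x₀ y : ℂ) (k : ℕ) :
    ∀ t : ℝ, iteratedDeriv k (fun t : ℝ => U (x₀ + t * y)) t
      = WW U (List.replicate k y) (x₀ + t * y) := by
  induction k with
  | zero => intro t; simp [WW]
  | succ k ih =>
    intro t
    rw [iteratedDeriv_succ]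
    have : iteratedDeriv k (fun t : ℝ => U (x₀ + t * y))
        = fun t : ℝ => WW U (List.replicate k y) (x₀ + t * y) := funext ih
    rw [this, List.replicate_succ]
    have hd : HasDerivAt (fun t : ℝ => x₀ + (t : ℂ) * y) y t := by
      have h1 : HasDerivAt (fun t : ℝ => (t : ℂ)) 1 t := Complex.ofRealCLM.hasDerivAt
      simpa using (h1.mul_const y).const_add x₀
    have hW := ((WW_sc hU (List.replicate k y)).diff (x₀ + t * y)).hasFDerivAt
    exact (hW.comp_hasDerivAt t hd).deriv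

end helm_analytic_aux

open helm_analytic_aux in
/-- TARGET: solutions of the Helmholtz equation are real analytic. -/
theorem helm_analytic {U : ℂ → ℝ} (hU : SC U) {lam r : ℝ} (hlam : 0 < lam) (hr : 0 < r) {x₀ : ℂ}
    (hH : ∀ x ∈ Metric.ball x₀ r, la U x = -(lam * U x)) : AnalyticAt ℝ U x₀ := by
  -- reduce to r ≤ 1
  wlog hr1 : r ≤ 1 generalizing r
  · exact this (r := 1) one_pos (fun x hx => hH x (Metric.ball_subset_ball (by linarith) hx)) le_rfl
  obtain ⟨M₀, hM⟩ : ∃ M, ∀ x, |U x| ≤ M := by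
    obtain ⟨C, hC⟩ := hU.cs.exists_bound_of_continuous hU.cont
    exact ⟨C, fun x => by simpa using hC x⟩
  have hM0 : 0 ≤ M₀ := (abs_nonneg _).trans (hM 0)
  set K : ℝ := 16 * (1 + lam) * Real.exp 1 / r with hK
  have hKp : 0 < K := by positivity
  have hbd : ∀ (l : List ℂ), ∀ x ∈ Metric.ball x₀ (r / 2),
      |WW U l x| ≤ (l.map norm).prod * K ^ l.length * (l.length.factorial : ℝ) * M₀ :=
    fun l x hx => bound_k hU hlam hr hr1 hH hM l x hx
  set p : FormalMultilinearSeries ℝ ℂ ℝ :=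
    fun k => ((k.factorial : ℝ)⁻¹) • iteratedFDeriv ℝ k U x₀ with hp
  have hx0 : x₀ ∈ Metric.ball x₀ (r / 2) := Metric.mem_ball_self (by positivity)
  have hpn : ∀ k, ‖p k‖ ≤ K ^ k * M₀ := by
    intro k
    refine ContinuousMultilinearMap.opNorm_le_bound (by positivity) fun m => ?_
    have h1 : p k m = ((k.factorial : ℝ)⁻¹) * WW U (List.ofFn m) x₀ := by
      show ((k.factorial : ℝ)⁻¹) • iteratedFDeriv ℝ k U x₀ m = _
      rw [iter_eq hU, smul_eq_mul]
    have h2 := hbd (List.ofFn m) x₀ hx0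
    have h3 : ((List.ofFn m).map norm).prod = ∏ i, ‖m i‖ := by
      rw [List.map_ofFn, List.prod_ofFn]
      rfl
    rw [List.length_ofFn, h3] at h2
    have hf : (0 : ℝ) < (k.factorial : ℝ) := by positivity
    rw [h1, norm_mul, norm_inv, Real.norm_of_nonneg hf.le, Real.norm_eq_abs, inv_mul_le_iff₀ hf]
    calc _ ≤ _ := h2
      _ = _ := by ring
  set R : ℝ := min (r / 2) (1 / (2 * K)) with hR
  have hRp : 0 < R := by
    rw [hR]
    exact lt_min (by positivity) (by positivity)
  have hR1 : R ≤ r / 2 := min_le_left _ _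
  have hR2 : K * R ≤ 1 / 2 := by
    have : R ≤ 1 / (2 * K) := min_le_right _ _
    calc K * R ≤ K * (1 / (2 * K)) := mul_le_mul_of_nonneg_left this hKp.le
      _ = 1 / 2 := by field_simp
  refine ⟨p, ENNReal.ofReal R, ?_, ?_, ?_⟩
  · have := p.le_radius_of_bound (r := ⟨R, hRp.le⟩) M₀ (fun n => by
      show ‖p n‖ * R ^ n ≤ M₀
      calc ‖p n‖ * R ^ n ≤ (K ^ n * M₀) * R ^ n :=
            mul_le_mul_of_nonneg_right (hpn n) (by positivity)
        _ = (K * R) ^ n * M₀ := by rw [mul_pow]; ring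
        _ ≤ 1 * M₀ := by
            refine mul_le_mul_of_nonneg_right ?_ hM0
            exact pow_le_one₀ (by positivity) (by linarith)
        _ = M₀ := one_mul _)
    have e : ENNReal.ofReal R = ENNReal.ofNNReal ⟨R, hRp.le⟩ := by
      rw [ENNReal.ofReal]
      congr 1
      exact NNReal.eq (Real.coe_toNNReal R hRp.le)
    rw [e]
    exact this
  · simpa using hRp
  · intro y hy
    have hy' : ‖y‖ < R := by
      have : y ∈ Metric.ball (0 : ℂ) R := by
        rw [← Metric.eball_ofReal]; exact hy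
      simpa using this
    have hKy : K * ‖y‖ ≤ 1 / 2 :=
      (mul_le_mul_of_nonneg_left hy'.le hKp.le).trans hR2
    have hsum : Summable fun n => ‖p n fun _ : Fin n => y‖ := by
      refine Summable.of_nonneg_of_le (fun n => norm_nonneg _) (fun n => ?_)
        ((summable_geometric_of_lt_one (r := (1 / 2 : ℝ)) (by norm_num) (by norm_num)).mul_left M₀)
      calc ‖p n fun _ : Fin n => y‖ ≤ ‖p n‖ * ∏ _i : Fin n, ‖y‖ :=
            ContinuousMultilinearMap.le_opNorm _ _
        _ = ‖p n‖ * ‖y‖ ^ n := by simp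
        _ ≤ (K ^ n * M₀) * ‖y‖ ^ n := mul_le_mul_of_nonneg_right (hpn n) (by positivity)
        _ = M₀ * (K * ‖y‖) ^ n := by rw [mul_pow]; ring
        _ ≤ M₀ * (1 / 2) ^ n :=
            mul_le_mul_of_nonneg_left (pow_le_pow_left₀ (by positivity) hKy n) hM0
    rw [hasSum_iff_tendsto_nat_of_summable_norm hsum]
    -- Taylor with remainder
    set g : ℝ → ℝ := fun t => U (x₀ + t * y) with hg
    have hgs : ContDiff ℝ ∞ g := by
      refine hU.sm.comp ?_
      exact contDiff_const.add (Complex.ofRealCLM.contDiff.mul contDiff_const)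
    have hmem : ∀ t ∈ Icc (0 : ℝ) 1, x₀ + (t : ℂ) * y ∈ Metric.ball x₀ (r / 2) := by
      intro t ht
      rw [Metric.mem_ball, dist_eq_norm, add_sub_cancel_left, norm_mul, Complex.norm_real,
        Real.norm_of_nonneg ht.1]
      calc t * ‖y‖ ≤ 1 * ‖y‖ := mul_le_mul_of_nonneg_right ht.2 (norm_nonneg _)
        _ = ‖y‖ := one_mul _
        _ < R := hy'
        _ ≤ r / 2 := hR1
    have hitd : ∀ k, ∀ t ∈ Icc (0 : ℝ) 1, iteratedDerivWithin k g (Icc 0 1) t
        = WW U (List.replicate k y) (x₀ + t * y) := by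
      intro k t ht
      rw [iteratedDerivWithin_eq_iteratedDeriv (uniqueDiffOn_Icc zero_lt_one)
        ((hgs.of_le (by exact_mod_cast le_top)).contDiffAt) ht]
      exact line_eq hU x₀ y k t
    have hpart : ∀ n, ∑ i ∈ Finset.range (n + 1), p i (fun _ : Fin i => y)
        = taylorWithinEval g n (Icc 0 1) 0 1 := by
      intro n
      rw [taylor_within_apply]
      refine Finset.sum_congr rfl fun k _ => ?_
      rw [hitd k 0 ⟨le_rfl, zero_le_one⟩]
      show ((k.factorial : ℝ)⁻¹) • iteratedFDeriv ℝ k U x₀ (fun _ => y) = _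
      rw [iter_eq hU, List.ofFn_const]
      simp
    have herr : ∀ n : ℕ, |U (x₀ + y) - ∑ i ∈ Finset.range (n + 1), p i (fun _ : Fin i => y)|
        ≤ M₀ * (((n : ℝ) + 1) * (1 / 2) ^ (n + 1)) := by
      intro n
      have h1 := taylor_mean_remainder_bound (f := g) (a := 0) (b := 1)
        (C := (K * ‖y‖) ^ (n + 1) * ((n + 1).factorial : ℝ) * M₀) (x := 1) (n := n) zero_le_one
        ((hgs.of_le (by exact_mod_cast le_top)).contDiffOn) ⟨zero_le_one, le_rfl⟩ (by
          intro t ht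
          rw [hitd (n + 1) t ht, Real.norm_eq_abs]
          have := hbd (List.replicate (n + 1) y) _ (hmem t ht)
          rw [List.length_replicate, List.map_replicate, List.prod_replicate] at this
          calc _ ≤ _ := this
            _ = _ := by rw [mul_pow]; ring)
      rw [← hpart n] at h1
      have e1 : g 1 = U (x₀ + y) := by simp [hg]
      rw [e1, Real.norm_eq_abs] at h1
      refine h1.trans ?_
      rw [sub_zero, one_pow, mul_one, div_le_iff₀ (by positivity), Nat.factorial_succ]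
      push_cast
      have h2 : (K * ‖y‖) ^ (n + 1) ≤ (1 / 2) ^ (n + 1) :=
        pow_le_pow_left₀ (by positivity) hKy _
      have h3 : 0 ≤ ((n : ℝ) + 1) * (n.factorial : ℝ) * M₀ := by positivity
      calc (K * ‖y‖) ^ (n + 1) * (((n : ℝ) + 1) * (n.factorial : ℝ)) * M₀
          = (K * ‖y‖) ^ (n + 1) * (((n : ℝ) + 1) * (n.factorial : ℝ) * M₀) := by ring
        _ ≤ (1 / 2) ^ (n + 1) * (((n : ℝ) + 1) * (n.factorial : ℝ) * M₀) :=
            mul_le_mul_of_nonneg_right h2 h3
        _ = _ := by ring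
    rw [← tendsto_add_atTop_iff_nat 1]
    rw [tendsto_iff_norm_sub_tendsto_zero]
    have hlim : Tendsto (fun n : ℕ => M₀ * (((n : ℝ) + 1) * (1 / 2) ^ (n + 1))) atTop (𝓝 0) := by
      have h1 := tendsto_self_mul_const_pow_of_lt_one (r := (1 / 2 : ℝ)) (by norm_num) (by norm_num)
      have h2 := (tendsto_add_atTop_iff_nat 1).2 h1
      have h3 := h2.const_mul M₀
      simpa using h3
    refine squeeze_zero (fun _ => norm_nonneg _) (fun n => ?_) hlim
    rw [norm_sub_rev]
    exact herr n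

end Pool.Agent.Helper327_Drum
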