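import Pool.Agent.Helper327_Drum.BDefs
import Pool.Agent.Helper327_Drum.Fin.I1
import Pool.Agent.R227.SA13
import Pool.Agent.Helper327_Drum.Fin.ST0

set_option autoImplicit false
open MeasureTheory Set Filter Topology ComplexConjugate
open scoped ContDiff InnerProductSpace

namespace Pool.Agent.Helper327_Drum

open Pool.Agent.TH298.Sch (dd SC)
open Pool.Agent.R227.SA (la Wat Dat)

namespace ST1

/-- analytic implicit function with a global C² extension -/
lemma impl {F : ℝ × ℝ → ℝ} (hF : AnalyticAt ℝ F (0, 0)) (h0 : F (0, 0) = 0)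
    (h1 : fderiv ℝ F (0, 0) (1, 0) = 0) (h2 : fderiv ℝ F (0, 0) (0, 1) ≠ 0) {ε : ℝ} (hε : 0 < ε) :
    ∃ (δ : ℝ) (ψ : ℝ → ℝ), 0 < δ ∧ δ ≤ ε ∧ ContDiff ℝ 2 ψ ∧ AnalyticAt ℝ ψ 0 ∧ ψ 0 = 0 ∧
      (∀ t, |t| < δ → |deriv ψ t| ≤ 1 / 2) ∧
      (∀ t s, |t| < δ → |s| < δ → F (t, s) = 0 → s = ψ t) := by
  have cdf : ContDiffAt ℝ ω F (0, 0) := hF.contDiffAt
  have if₂ : (fderiv ℝ F (0, 0) ∘L .inr ℝ ℝ ℝ).IsInvertible := by
    refine ⟨ContinuousLinearEquiv.unitsEquivAut ℝ (Units.mk0 _ h2), ?_⟩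
    ext
    simp
  have pn : (ω : WithTop ℕ∞) ≠ 0 := by simp
  set ψ0 := cdf.implicitFunction pn if₂ with hψ0
  have e0 : ψ0 0 = 0 := cdf.implicitFunction_apply_self pn if₂
  have ev := cdf.eventually_apply_eq_iff_implicitFunction pn if₂
  rw [← hψ0, h0] at ev
  have hd := cdf.hasStrictFDerivAt_implicitFunction pn if₂
  have cd0 : ContDiffAt ℝ ω ψ0 0 := cdf.contDiffAt_implicitFunction pn if₂
  have hAn : AnalyticAt ℝ ψ0 0 := by
    exact cd0.analyticAt
  have cd : ContDiffAt ℝ 2 ψ0 0 := hAn.contDiffAt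
  have d0 : deriv ψ0 0 = 0 := by
    have h3 := hd.hasFDerivAt.hasDerivAt.deriv
    rw [← hψ0] at h3
    rw [h3]
    simp [h1]
  have cd' : ∀ᶠ y in 𝓝 (0 : ℝ), ContDiffAt ℝ 2 ψ0 y := cd.eventually (by simp)
  obtain ⟨ρ, hρ, hρ'⟩ := Metric.eventually_nhds_iff.mp cd'
  let χ : ContDiffBump (0 : ℝ) := ⟨ρ / 4, ρ / 2, by linarith, by linarith⟩
  set ψ : ℝ → ℝ := fun t => χ t * ψ0 t with hψ
  have cψ : ContDiff ℝ 2 ψ := by
    rw [contDiff_iff_contDiffAt]
    intro x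
    by_cases hx1 : x ∈ tsupport χ
    · rw [χ.tsupport_eq, Metric.mem_closedBall] at hx1
      have hx2 : dist x 0 < ρ := lt_of_le_of_lt hx1 (by change ρ / 2 < ρ; linarith)
      exact (χ.contDiff.contDiffAt).mul (hρ' hx2)
    · have h3 : ψ =ᶠ[𝓝 x] fun _ => (0 : ℝ) := by
        have h4 : (tsupport χ)ᶜ ∈ 𝓝 x := (isClosed_tsupport _).isOpen_compl.mem_nhds hx1
        filter_upwards [h4] with y hy
        have : χ y = 0 := image_eq_zero_of_notMem_tsupport hy
        simp [hψ, this]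
      exact contDiffAt_const.congr_of_eventuallyEq h3
  have hin : ∀ t, |t| < ρ / 4 → ψ t = ψ0 t := by
    intro t ht
    have : χ t = 1 := χ.one_of_mem_closedBall (by
      rw [Metric.mem_closedBall, Real.dist_eq, sub_zero]; exact ht.le)
    simp [hψ, this]
  have hz : ψ 0 = 0 := by rw [hin 0 (by simpa using by positivity), e0]
  have hev : ψ =ᶠ[𝓝 0] ψ0 := by
    rw [Filter.EventuallyEq, Metric.eventually_nhds_iff]
    refine ⟨ρ / 4, by positivity, fun y hy => hin y ?_⟩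
    rwa [Real.dist_eq, sub_zero] at hy
  have hdψ : deriv ψ 0 = 0 := by rw [hev.deriv_eq, d0]
  have hcd : Continuous (deriv ψ) := cψ.continuous_deriv (by norm_num)
  have hsl : ∀ᶠ t in 𝓝 (0 : ℝ), |deriv ψ t| < 1 / 2 := by
    have : Tendsto (fun t => |deriv ψ t|) (𝓝 0) (𝓝 |deriv ψ 0|) := (hcd.abs).tendsto 0
    rw [hdψ, abs_zero] at this
    exact this.eventually (gt_mem_nhds (by norm_num))
  obtain ⟨ρ2, hρ2, hρ2'⟩ := Metric.eventually_nhds_iff.mp hsl
  obtain ⟨ρ3, hρ3, hρ3'⟩ := Metric.eventually_nhds_iff.mp ev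
  refine ⟨min (min ε (ρ / 4)) (min ρ2 ρ3), ψ, ?_, ?_, cψ, hAn.congr hev.symm, hz, ?_, ?_⟩
  · exact lt_min (lt_min hε (by linarith)) (lt_min hρ2 hρ3)
  · exact (min_le_left _ _).trans (min_le_left _ _)
  · intro t ht
    apply (hρ2' (y := t) _).le
    rw [Real.dist_eq, sub_zero]
    exact lt_of_lt_of_le ht ((min_le_right _ _).trans (min_le_left _ _))
  · intro t s ht hs hF0
    have h3 : dist (t, s) ((0 : ℝ), (0 : ℝ)) < ρ3 := by
      rw [Prod.dist_eq]
      simp only [Real.dist_eq, sub_zero]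
      exact max_lt (lt_of_lt_of_le ht ((min_le_right _ _).trans (min_le_right _ _)))
        (lt_of_lt_of_le hs ((min_le_right _ _).trans (min_le_right _ _)))
    have h4 := (hρ3' h3).mp hF0
    rw [hin t (lt_of_lt_of_le ht ((min_le_left _ _).trans (min_le_right _ _)))]
    exact h4.symm

lemma grad_curve {W : ℂ → ℝ} {x₀ e : ℂ} (hW : AnalyticAt ℝ W x₀) {ψ : ℝ → ℝ}
    (hψ : AnalyticAt ℝ ψ 0) (hψ0 : ψ 0 = 0)
    (hfr : ∃ᶠ t in 𝓝[≠] (0:ℝ), fderiv ℝ W (cx x₀ e ψ t) = 0) :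
    ∀ᶠ t in 𝓝 (0:ℝ), fderiv ℝ W (cx x₀ e ψ t) = 0 := by
  have hc0 : cx x₀ e ψ 0 = x₀ := by simp [cx, hψ0]
  have h1 : AnalyticAt ℝ (fderiv ℝ W) (cx x₀ e ψ 0) := by rw [hc0]; exact hW.fderiv
  have h2 : AnalyticAt ℝ (cx x₀ e ψ) 0 := by
    unfold cx
    have a1 : AnalyticAt ℝ (fun t : ℝ => (t : ℂ)) 0 := Complex.ofRealCLM.analyticAt 0
    have a2 : AnalyticAt ℝ (fun t : ℝ => ((ψ t : ℝ) : ℂ)) 0 :=
      (Complex.ofRealCLM.analyticAt _).comp hψ
    exact analyticAt_const.add ((a1.add (a2.mul analyticAt_const)).mul analyticAt_const)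
  have h3 : AnalyticAt ℝ (fun t => fderiv ℝ W (cx x₀ e ψ t)) 0 := h1.comp h2
  rcases h3.eventually_eq_zero_or_eventually_ne_zero with h | h
  · exact h
  · exact absurd h hfr

end ST1

/-- TARGET: near an accumulation point the critical points form a graph. -/
theorem crit_graph {D : Set ℂ} (hDo : IsOpen D) (hDc : IsPreconnected D) {lam : ℝ} (hlam : 0 < lam)
    {u : ℂ → ℝ} (hu : Wat D lam u) (hne : ∃ x, u x ≠ 0) {x₀ : ℂ} (hx₀ : x₀ ∈ D)
    (hacc : AccPt x₀ (𝓟 {x | x ∈ D ∧ fderiv ℝ u x = 0})) :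
    u x₀ ≠ 0 ∧ ∃ (e : ℂ) (δ : ℝ) (ψ : ℝ → ℝ), ‖e‖ = 1 ∧ 0 < δ ∧ ContDiff ℝ 2 ψ ∧
      AnalyticAt ℝ ψ 0 ∧ ψ 0 = 0 ∧ (∀ t, |t| < δ → |deriv ψ t| ≤ 1 / 2) ∧ box x₀ e δ ⊆ D ∧
      ∀ t s : ℝ, |t| < δ → |s| < δ →
        (fderiv ℝ u (x₀ + (t + s * Complex.I) * e) = 0 ↔ s = ψ t) := by
  have _hDo := hDo
  obtain ⟨r, hr, W, hW, hball, hWe⟩ := hu.loc x₀ hx₀
  have hqb := Metric.mem_ball_self (x := x₀) hr
  have hWk : W x₀ = u x₀ := (hWe x₀ hqb).1.symm
  have hfd : ∀ x ∈ Metric.ball x₀ r, fderiv ℝ u x = fderiv ℝ W x := by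
    intro x hxb
    have h1 : u =ᶠ[𝓝 x] W := by
      filter_upwards [Metric.isOpen_ball.mem_nhds hxb] with y hy
      exact (hWe y hy).1
    exact h1.fderiv_eq
  have hfreq : ∃ᶠ x in 𝓝[≠] x₀, fderiv ℝ W x = 0 := by
    rw [accPt_iff_frequently_nhdsNE] at hacc
    have hb : ∀ᶠ x in 𝓝[≠] x₀, x ∈ Metric.ball x₀ r :=
      mem_nhdsWithin_of_mem_nhds (Metric.isOpen_ball.mem_nhds hqb)
    refine (hacc.and_eventually hb).mono ?_
    rintro x ⟨⟨-, hx⟩, hxb⟩
    rw [← hfd x hxb]; exact hx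
  have hcW : Continuous (fderiv ℝ W) := hW.sm.continuous_fderiv (by simp)
  have hcr0 : fderiv ℝ W x₀ = 0 := by
    by_contra h
    have h1 : ∀ᶠ x in 𝓝 x₀, fderiv ℝ W x ≠ 0 := hcW.continuousAt.eventually_ne h
    exact hfreq (mem_nhdsWithin_of_mem_nhds h1)
  have hu0 : u x₀ ≠ 0 := by
    intro h0
    have hnz : ¬ (W =ᶠ[𝓝 x₀] 0) := by
      intro hz
      obtain ⟨x, hx⟩ := hne
      apply hx
      refine hu.uc hlam hDc hx₀ ?_ x
      filter_upwards [hz, Metric.isOpen_ball.mem_nhds hqb] with y hy hyb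
      rw [(hWe y hyb).1, hy]
    obtain ⟨δ, hδ, hcrit⟩ := crit_isolated hW hlam hr (fun x hx => (hWe x hx).2)
      (hWk.trans h0) hcr0 hnz
    apply hfreq
    filter_upwards [mem_nhdsWithin_of_mem_nhds (Metric.ball_mem_nhds x₀ hδ),
      self_mem_nhdsWithin] with x hx hx'
    exact hcrit x hx hx'
  refine ⟨hu0, ?_⟩
  have hla : la W x₀ = -(lam * u x₀) := by rw [(hWe x₀ hqb).2, hWk]
  have hdir : ∃ n : ℂ, fderiv ℝ (dd n W) x₀ ≠ 0 := by
    by_contra hcon
    push Not at hcon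
    have h1 : la W x₀ = 0 := by
      change fderiv ℝ (dd 1 W) x₀ 1 + fderiv ℝ (dd Complex.I W) x₀ Complex.I = 0
      rw [hcon, hcon]
      simp
    rw [hla] at h1
    exact (mul_ne_zero hlam.ne' hu0) (by linarith)
  obtain ⟨n, hn⟩ := hdir
  have hf : ContDiff ℝ ∞ (dd n W) := (Pool.Agent.TH298.Sch.dd_sc hW n).sm
  set L := fderiv ℝ (dd n W) x₀ with hL
  have hab : L 1 ≠ 0 ∨ L Complex.I ≠ 0 := by
    by_contra hcon
    push Not at hcon
    apply hn
    ext x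
    rw [Pool.Agent.TH298.Sch.lin_val L x, hcon.1, hcon.2]
    simp
  have hpos : 0 < L 1 ^ 2 + L Complex.I ^ 2 := by
    rcases hab with h | h
    · have := pow_pos (abs_pos.mpr h) 2
      rw [sq_abs] at this
      nlinarith [sq_nonneg (L Complex.I)]
    · have := pow_pos (abs_pos.mpr h) 2
      rw [sq_abs] at this
      nlinarith [sq_nonneg (L 1)]
  set ρ := Real.sqrt (L 1 ^ 2 + L Complex.I ^ 2) with hρ
  have hρpos : 0 < ρ := Real.sqrt_pos.mpr hpos
  have hρsq : ρ ^ 2 = L 1 ^ 2 + L Complex.I ^ 2 := Real.sq_sqrt hpos.le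
  set e : ℂ := ⟨L Complex.I / ρ, -(L 1 / ρ)⟩ with he
  have heu : ‖e‖ = 1 := by
    have h1 : ‖e‖ ^ 2 = 1 := by
      rw [← Complex.normSq_eq_norm_sq, Complex.normSq_apply, he]
      simp only
      field_simp
      linarith
    have h2 : 0 ≤ ‖e‖ := norm_nonneg e
    nlinarith [sq_nonneg (‖e‖ - 1)]
  have he0 : e ≠ 0 := by
    intro h
    rw [h, norm_zero] at heu
    exact zero_ne_one heu
  have hLe : L e = 0 := by
    rw [Pool.Agent.TH298.Sch.lin_val L e, he]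
    simp only
    ring
  have hLIe : L (Complex.I * e) = ρ := by
    rw [Pool.Agent.TH298.Sch.lin_val L (Complex.I * e)]
    have h1 : (Complex.I * e).re = L 1 / ρ := by simp [he]
    have h2 : (Complex.I * e).im = L Complex.I / ρ := by simp [he]
    rw [h1, h2]
    field_simp
    linarith
  -- the frame
  let A : ℝ × ℝ →L[ℝ] ℂ := (ContinuousLinearMap.fst ℝ ℝ ℝ).smulRight e +
    (ContinuousLinearMap.snd ℝ ℝ ℝ).smulRight (Complex.I * e)
  have hA : ∀ t s : ℝ, A (t, s) = (t + s * Complex.I) * e := by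
    intro t s
    simp only [A, add_apply, ContinuousLinearMap.smulRight_apply,
      ContinuousLinearMap.coe_fst', ContinuousLinearMap.coe_snd', Complex.real_smul]
    ring
  have hWa : AnalyticAt ℝ W x₀ := helm_analytic hW hlam hr (fun x hx => (hWe x hx).2)
  set F : ℝ × ℝ → ℝ := fun v => dd n W (x₀ + A v) with hF
  have hA0 : A (0, 0) = 0 := by rw [hA]; simp
  have hda : AnalyticAt ℝ (dd n W) x₀ := by
    have h1 : AnalyticAt ℝ (fderiv ℝ W) x₀ := hWa.fderiv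
    exact ((ContinuousLinearMap.apply ℝ ℝ n).analyticAt _).comp h1
  have hFa : AnalyticAt ℝ F (0, 0) := by
    have h1 : AnalyticAt ℝ (fun v : ℝ × ℝ => x₀ + A v) (0, 0) :=
      analyticAt_const.add (A.analyticAt _)
    have h2 : AnalyticAt ℝ (dd n W) ((fun v : ℝ × ℝ => x₀ + A v) (0, 0)) := by
      simp only [hA0, add_zero]; exact hda
    exact AnalyticAt.comp (g := dd n W) (f := fun v : ℝ × ℝ => x₀ + A v) h2 h1
  have hFd : HasFDerivAt F (L.comp A) (0, 0) := by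
    have h1 : HasFDerivAt (fun v : ℝ × ℝ => x₀ + A v) A (0, 0) := A.hasFDerivAt.const_add x₀
    have h2 : HasFDerivAt (dd n W) L ((fun v : ℝ × ℝ => x₀ + A v) (0, 0)) := by
      have h3 : (fun v : ℝ × ℝ => x₀ + A v) (0, 0) = x₀ := by
        simp only [hA0, add_zero]
      rw [h3]
      exact ((hf.differentiable (by simp)) x₀).hasFDerivAt
    exact h2.comp (0, 0) h1
  have hA10 : A (1, 0) = e := by rw [hA]; simp
  have hA01 : A (0, 1) = Complex.I * e := by rw [hA]; simp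
  obtain ⟨δ, ψ, hδ, hδr, cψ, hψa, ψ0, hslope, hzero⟩ := ST1.impl hFa
    (by
      simp only [hF, hA0, add_zero]
      change fderiv ℝ W x₀ n = 0
      rw [hcr0]; rfl)
    (by rw [hFd.fderiv, ContinuousLinearMap.comp_apply, hA10, hLe])
    (by rw [hFd.fderiv, ContinuousLinearMap.comp_apply, hA01, hLIe]; exact hρpos.ne')
    (half_pos hr)
  -- coordinates
  have hinb : ∀ t s : ℝ, |t| < δ → |s| < δ → x₀ + (t + s * Complex.I) * e ∈ Metric.ball x₀ r := by
    intro t s ht hs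
    rw [Metric.mem_ball, dist_eq_norm, add_sub_cancel_left, norm_mul, heu, mul_one]
    calc ‖(t : ℂ) + s * Complex.I‖ ≤ ‖(t : ℂ)‖ + ‖(s : ℂ) * Complex.I‖ := norm_add_le _ _
      _ = |t| + |s| := by simp
      _ < r := by linarith
  have hcrit_graph : ∀ t s : ℝ, |t| < δ → |s| < δ →
      fderiv ℝ W (x₀ + (t + s * Complex.I) * e) = 0 → s = ψ t := by
    intro t s ht hs h
    apply hzero t s ht hs
    simp only [hF, hA]
    change fderiv ℝ W (x₀ + (t + s * Complex.I) * e) n = 0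
    rw [h]; rfl
  have hfr2 : ∃ᶠ t in 𝓝[≠] (0:ℝ), fderiv ℝ W (cx x₀ e ψ t) = 0 := by
    -- transport along the coordinate t
    have hcoord : ∀ x : ℂ, x₀ + ((((x - x₀) / e).re : ℂ) + (((x - x₀) / e).im : ℂ) * Complex.I) * e
        = x := by
      intro x
      rw [Complex.re_add_im]
      field_simp
      ring
    have hev : ∀ᶠ x in 𝓝 x₀, |((x - x₀) / e).re| < δ ∧ |((x - x₀) / e).im| < δ := by
      have c1 : Continuous fun x : ℂ => |((x - x₀) / e).re| :=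
        (Complex.continuous_re.comp ((continuous_id.sub continuous_const).div_const e)).abs
      have c2 : Continuous fun x : ℂ => |((x - x₀) / e).im| :=
        (Complex.continuous_im.comp ((continuous_id.sub continuous_const).div_const e)).abs
      have e1 : ∀ᶠ x in 𝓝 x₀, |((x - x₀) / e).re| < δ :=
        c1.continuousAt.eventually_lt continuousAt_const (by simpa using hδ)
      have e2 : ∀ᶠ x in 𝓝 x₀, |((x - x₀) / e).im| < δ :=
        c2.continuousAt.eventually_lt continuousAt_const (by simpa using hδ)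
      exact e1.and e2
    intro hno
    rw [eventually_nhdsWithin_iff, Metric.eventually_nhds_iff] at hno
    obtain ⟨η, hη, hno⟩ := hno
    have hev2 : ∀ᶠ x in 𝓝 x₀, |((x - x₀) / e).re| < η := by
      have c1 : Continuous fun x : ℂ => |((x - x₀) / e).re| :=
        (Complex.continuous_re.comp ((continuous_id.sub continuous_const).div_const e)).abs
      exact c1.continuousAt.eventually_lt continuousAt_const (by simpa using hη)
    apply hfreq
    filter_upwards [mem_nhdsWithin_of_mem_nhds (hev.and hev2), self_mem_nhdsWithin] with x hx hxne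
    intro hx0
    obtain ⟨⟨ht, hs⟩, htη⟩ := hx
    have hs' : ((x - x₀) / e).im = ψ ((x - x₀) / e).re := by
      apply hcrit_graph _ _ ht hs
      rw [hcoord]; exact hx0
    have ht0 : ((x - x₀) / e).re ≠ 0 := by
      intro h0
      rw [h0, ψ0] at hs'
      have : (x - x₀) / e = 0 := Complex.ext h0 hs'
      rw [div_eq_zero_iff] at this
      rcases this with h | h
      · exact hxne (sub_eq_zero.1 h)
      · exact he0 h
    have hcx : cx x₀ e ψ ((x - x₀) / e).re = x := by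
      unfold cx
      rw [← hs']
      exact hcoord x
    refine hno (y := ((x - x₀) / e).re) (by rwa [Real.dist_eq, sub_zero]) ht0 ?_
    show fderiv ℝ W (cx x₀ e ψ ((x - x₀) / e).re) = 0
    rw [hcx]; exact hx0
  have hev := ST1.grad_curve hWa hψa ψ0 hfr2
  obtain ⟨δ2, hδ2, hδ2'⟩ := Metric.eventually_nhds_iff.mp hev
  refine ⟨e, min δ δ2, ψ, heu, lt_min hδ hδ2, cψ, hψa, ψ0,
    fun t ht => hslope t (lt_of_lt_of_le ht (min_le_left _ _)), ?_, ?_⟩
  · rintro x ⟨t, s, ht, hs, rfl⟩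
    exact hball (hinb t s (lt_of_lt_of_le ht (min_le_left _ _))
      (lt_of_lt_of_le hs (min_le_left _ _)))
  · intro t s ht hs
    have ht1 := lt_of_lt_of_le ht (min_le_left _ _)
    have hs1 := lt_of_lt_of_le hs (min_le_left _ _)
    rw [hfd _ (hinb t s ht1 hs1)]
    constructor
    · exact hcrit_graph t s ht1 hs1
    · intro h
      subst h
      have := hδ2' (y := t) (by rw [Real.dist_eq, sub_zero]; exact lt_of_lt_of_le ht (min_le_right _ _))
      exact this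

/-- TARGET 2: another eigenfunction with critical points accumulating along the graph. -/
theorem share_graph {D : Set ℂ} {lam : ℝ} (hlam : 0 < lam) {u' : ℂ → ℝ} (hu' : Wat D lam u')
    {x₀ e : ℂ} (hx₀ : x₀ ∈ D) {ψ : ℝ → ℝ} (hψ : AnalyticAt ℝ ψ 0) (hψ0 : ψ 0 = 0)
    (hfr : ∃ᶠ t in 𝓝[≠] (0:ℝ), fderiv ℝ u' (cx x₀ e ψ t) = 0) :
    ∀ᶠ t in 𝓝 (0:ℝ), fderiv ℝ u' (cx x₀ e ψ t) = 0 := by
  obtain ⟨r, hr, W, hW, hball, hWe⟩ := hu'.loc x₀ hx₀
  have hWa : AnalyticAt ℝ W x₀ := helm_analytic hW hlam hr (fun x hx => (hWe x hx).2)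
  have hev : u' =ᶠ[𝓝 x₀] W := by
    filter_upwards [Metric.isOpen_ball.mem_nhds (Metric.mem_ball_self hr)] with y hy
    exact (hWe y hy).1
  exact ST1.grad_curve (hWa.congr hev.symm) hψ hψ0 hfr

end Pool.Agent.Helper327_Drum
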