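import Pool.Agent.Helper327_Drum.BDefs
import Pool.Agent.Helper327_Drum.Fin.I1
import Pool.Agent.R227.SA13
import Pool.Agent.Helper327_Drum.Fin.ST1

/-
JOB ST2 (owner helper327, problem MP_d92c84_an). All imports are on origin/main.
-/

set_option autoImplicit false
open MeasureTheory Set Filter Topology ComplexConjugate
open scoped ContDiff InnerProductSpace

namespace Pool.Agent.Helper327_Drum

open Pool.Agent.TH298.Sch (dd SC)
open Pool.Agent.R227.SA (la Wat Dat)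

/-
Plain proof. Let crit = {x ∈ D : fderiv u x = 0} and A = {x ∈ D : AccPt x (𝓟 crit)}, a subset of crit (continuity of fderiv u on D), relatively closed in D. By `crit_graph` every x ∈ A has a
box ⊆ D in which crit is the graph of ψ; all points of this graph are accumulation points of crit, so A ∩ box = crit ∩ box = graph, which is connected.
u is locally constant on A: along the graph the derivative of t ↦ u(cx x e ψ t) is fderiv u applied to the velocity, which is 0. Let Γ = connectedComponentIn A x₀. Γ is connected, so u is constant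
on Γ, u = k = u x₀ ≠ 0 (`crit_graph`). Γ is closed in A, A is closed in D, so the closure of Γ in the plane is contained in Γ ∪ Dᶜ; on the closure u = k ≠ 0 by continuity, while u = 0 off D: so
Γ is closed, and bounded since u = 0 off the bounded set D. So Γ is compact. Near q ∈ Γ the graph in the box is connected, contained in A and contains q, so it is contained in Γ; so in the box
Γ = graph = crit.
-/

theorem cc_bound {δ : ℝ} {ψ : ℝ → ℝ} (hψ : ContDiff ℝ 2 ψ) (h0 : ψ 0 = 0)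
    (hs : ∀ t, |t| < δ → |deriv ψ t| ≤ 1 / 2) {t : ℝ} (ht : |t| < δ) : |ψ t| ≤ 1 / 2 * |t| := by
  have hd : Differentiable ℝ ψ := hψ.differentiable (by norm_num)
  have h := Convex.norm_image_sub_le_of_norm_deriv_le (𝕜 := ℝ) (f := ψ) (s := Metric.ball 0 δ)
    (C := 1 / 2) (x := 0) (y := t) (fun x _ => hd x) (fun x hx => by
      rw [Real.norm_eq_abs]
      apply hs
      simpa using hx) (convex_ball 0 δ)
    (Metric.mem_ball_self (lt_of_le_of_lt (abs_nonneg _) ht)) (by simpa using ht)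
  rw [h0, sub_zero, sub_zero] at h
  simpa using h

theorem cc_cx_cont (q e : ℂ) {ψ : ℝ → ℝ} (hψ : ContDiff ℝ 2 ψ) : Continuous (cx q e ψ) := by
  have := hψ.continuous
  unfold cx
  fun_prop

theorem cc_cx_deriv (q e : ℂ) {ψ : ℝ → ℝ} (hψ : ContDiff ℝ 2 ψ) (t : ℝ) :
    HasDerivAt (cx q e ψ) (cv e ψ t) t := by
  have hd : HasDerivAt ψ (deriv ψ t) t := (hψ.differentiable (by norm_num) t).hasDerivAt
  unfold cx cv
  have h1 : HasDerivAt (fun t : ℝ => (t : ℂ)) 1 t := Complex.ofRealCLM.hasDerivAt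
  have h2 : HasDerivAt (fun t : ℝ => ((ψ t : ℝ) : ℂ)) ((deriv ψ t : ℝ) : ℂ) t := hd.ofReal_comp
  exact ((h1.add (h2.mul_const Complex.I)).mul_const e).const_add q

/-- coordinates in the frame -/
theorem cc_coord {e : ℂ} (he : ‖e‖ = 1) (q x : ℂ) : ∃ t s : ℝ, x = q + (t + s * Complex.I) * e ∧
    |t| ≤ ‖x - q‖ ∧ |s| ≤ ‖x - q‖ := by
  have he0 : e ≠ 0 := by
    intro h
    rw [h, norm_zero] at he
    exact zero_ne_one he
  have hw : ‖(x - q) / e‖ = ‖x - q‖ := by rw [norm_div, he, div_one]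
  refine ⟨((x - q) / e).re, ((x - q) / e).im, ?_, ?_, ?_⟩
  · rw [Complex.re_add_im, div_mul_cancel₀ _ he0]
    ring
  · rw [← hw]; exact Complex.abs_re_le_norm _
  · rw [← hw]; exact Complex.abs_im_le_norm _

theorem cc_inj {e : ℂ} (he : ‖e‖ = 1) {q : ℂ} {t s t' s' : ℝ}
    (h : q + (t + s * Complex.I) * e = q + (t' + s' * Complex.I) * e) : t = t' ∧ s = s' := by
  have he0 : e ≠ 0 := by
    intro h
    rw [h, norm_zero] at he
    exact zero_ne_one he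
  have h1 : (t + s * Complex.I : ℂ) = t' + s' * Complex.I :=
    mul_right_cancel₀ he0 (add_left_cancel h)
  have h2 := congrArg Complex.re h1
  have h3 := congrArg Complex.im h1
  simp at h2 h3
  exact ⟨h2, h3⟩

/-- local description of an accumulation point -/
structure CC (u : ℂ → ℝ) (D : Set ℂ) (q e : ℂ) (δ : ℝ) (ψ : ℝ → ℝ) : Prop where
  unit : ‖e‖ = 1
  pos : 0 < δ
  smooth : ContDiff ℝ 2 ψ
  an : AnalyticAt ℝ ψ 0
  zero : ψ 0 = 0
  slope : ∀ t, |t| < δ → |deriv ψ t| ≤ 1 / 2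
  sub : box q e δ ⊆ D
  mem : ∀ t s : ℝ, |t| < δ → |s| < δ → (fderiv ℝ u (q + (t + s * Complex.I) * e) = 0 ↔ s = ψ t)

theorem CC.psi_lt {u : ℂ → ℝ} {D : Set ℂ} {q e : ℂ} {δ : ℝ} {ψ : ℝ → ℝ} (h : CC u D q e δ ψ)
    {t : ℝ} (ht : |t| < δ) : |ψ t| < δ := by
  have h1 := cc_bound h.smooth h.zero h.slope ht
  have := abs_nonneg t
  linarith

theorem CC.cx_mem {u : ℂ → ℝ} {D : Set ℂ} {q e : ℂ} {δ : ℝ} {ψ : ℝ → ℝ} (h : CC u D q e δ ψ)
    {t : ℝ} (ht : |t| < δ) : cx q e ψ t ∈ D ∧ fderiv ℝ u (cx q e ψ t) = 0 :=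
  ⟨h.sub ⟨t, ψ t, ht, h.psi_lt ht, rfl⟩, (h.mem t (ψ t) ht (h.psi_lt ht)).2 rfl⟩

theorem CC.cx_acc {u : ℂ → ℝ} {D : Set ℂ} {q e : ℂ} {δ : ℝ} {ψ : ℝ → ℝ} (h : CC u D q e δ ψ)
    {t : ℝ} (ht : |t| < δ) : AccPt (cx q e ψ t) (𝓟 {x | x ∈ D ∧ fderiv ℝ u x = 0}) := by
  rw [accPt_iff_frequently]
  have hc : Tendsto (cx q e ψ) (𝓝[≠] t) (𝓝 (cx q e ψ t)) :=
    (cc_cx_cont q e h.smooth).continuousAt.tendsto.mono_left nhdsWithin_le_nhds
  refine hc.frequently ?_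
  apply Eventually.frequently
  have h1 : ∀ᶠ t' in 𝓝[≠] t, |t'| < δ :=
    (continuous_abs.continuousAt.eventually_lt continuousAt_const ht).filter_mono
      nhdsWithin_le_nhds
  filter_upwards [h1, self_mem_nhdsWithin] with t' ht' hne
  refine ⟨?_, h.cx_mem ht'⟩
  intro heq
  exact hne (cc_inj h.unit heq).1

theorem CC.graph_preconn {u : ℂ → ℝ} {D : Set ℂ} {q e : ℂ} {δ : ℝ} {ψ : ℝ → ℝ}
    (h : CC u D q e δ ψ) : IsPreconnected (cx q e ψ '' {t | |t| < δ}) := by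
  have h1 : {t : ℝ | |t| < δ} = Ioo (-δ) δ := by
    ext t
    simp [abs_lt]
  rw [h1]
  exact isPreconnected_Ioo.image _ (cc_cx_cont q e h.smooth).continuousOn

theorem CC.cx_zero {u : ℂ → ℝ} {D : Set ℂ} {q e : ℂ} {δ : ℝ} {ψ : ℝ → ℝ}
    (h : CC u D q e δ ψ) : cx q e ψ 0 = q := by
  unfold cx
  rw [h.zero]
  simp

theorem cc_diff {D : Set ℂ} {lam : ℝ} {u : ℂ → ℝ} (hu : Wat D lam u) {x : ℂ} (hx : x ∈ D) :
    ContDiffAt ℝ 1 u x := by
  obtain ⟨r, hr, W, hW, _, h1⟩ := hu.loc x hx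
  have h2 : u =ᶠ[𝓝 x] W := by
    filter_upwards [Metric.ball_mem_nhds x hr] with y hy
    exact (h1 y hy).1
  exact ((hW.sm.of_le (by exact_mod_cast le_top)).contDiffAt).congr_of_eventuallyEq h2

/-- `u` is constant on the graph -/
theorem CC.const {D : Set ℂ} {lam : ℝ} {u : ℂ → ℝ} (hu : Wat D lam u) {q e : ℂ} {δ : ℝ}
    {ψ : ℝ → ℝ} (h : CC u D q e δ ψ) {t : ℝ} (ht : |t| < δ) : u (cx q e ψ t) = u q := by
  have hd : ∀ x ∈ Metric.ball (0 : ℝ) δ, HasDerivWithinAt (fun t => u (cx q e ψ t)) 0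
      (Metric.ball (0 : ℝ) δ) x := by
    intro x hx
    have hx' : |x| < δ := by simpa using hx
    obtain ⟨hD, hf⟩ := h.cx_mem hx'
    have h1 : HasFDerivAt u (fderiv ℝ u (cx q e ψ x)) (cx q e ψ x) :=
      ((cc_diff hu hD).differentiableAt (by norm_num)).hasFDerivAt
    rw [hf] at h1
    have h2 : HasDerivAt (fun t => u (cx q e ψ t)) ((0 : ℂ →L[ℝ] ℝ) (cv e ψ x)) x :=
      h1.comp_hasDerivAt x (cc_cx_deriv q e h.smooth x)
    rw [ContinuousLinearMap.zero_apply] at h2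
    exact h2.hasDerivWithinAt
  have h3 := (convex_ball (0 : ℝ) δ).norm_image_sub_le_of_norm_hasDerivWithin_le
    (f' := fun _ => (0 : ℝ)) (C := 0) hd (fun x _ => by simp)
    (Metric.mem_ball_self h.pos) (show t ∈ Metric.ball (0 : ℝ) δ by simpa using ht)
  rw [zero_mul] at h3
  have h4 := norm_le_zero_iff.1 h3
  rw [h.cx_zero] at h4
  exact sub_eq_zero.1 h4

theorem cc_box_nhds {e : ℂ} (he : ‖e‖ = 1) (q : ℂ) {δ : ℝ} {x : ℂ}
    (hx : x ∈ Metric.ball q δ) : ∃ t s : ℝ, |t| < δ ∧ |s| < δ ∧ x = q + (t + s * Complex.I) * e := by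
  obtain ⟨t, s, h1, h2, h3⟩ := cc_coord he q x
  rw [Metric.mem_ball, dist_eq_norm] at hx
  exact ⟨t, s, by linarith, by linarith, h1⟩

/-- TARGET: the component of the set of accumulating critical points is a compact connected set which is locally a graph. -/
theorem crit_component {D : Set ℂ} (hDo : IsOpen D) (hDb : Bornology.IsBounded D)
    (hDc : IsPreconnected D) {lam : ℝ} (hlam : 0 < lam)
    {u : ℂ → ℝ} (hu : Wat D lam u) (hne : ∃ x, u x ≠ 0) {x₀ : ℂ} (hx₀ : x₀ ∈ D)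
    (hacc : AccPt x₀ (𝓟 {x | x ∈ D ∧ fderiv ℝ u x = 0})) :
    ∃ Γ : Set ℂ, IsCompact Γ ∧ IsConnected Γ ∧ x₀ ∈ Γ ∧ Γ ⊆ D ∧ (∀ x ∈ Γ, fderiv ℝ u x = 0) ∧
      (∀ x ∈ Γ, u x = u x₀) ∧
      ∀ q ∈ Γ, ∃ (e : ℂ) (δ : ℝ) (ψ : ℝ → ℝ), ‖e‖ = 1 ∧ 0 < δ ∧ ContDiff ℝ 2 ψ ∧
        AnalyticAt ℝ ψ 0 ∧ ψ 0 = 0 ∧ (∀ t, |t| < δ → |deriv ψ t| ≤ 1 / 2) ∧ box q e δ ⊆ D ∧
        ∀ t s : ℝ, |t| < δ → |s| < δ →
          ((fderiv ℝ u (q + (t + s * Complex.I) * e) = 0 ↔ s = ψ t) ∧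
            (q + (t + s * Complex.I) * e ∈ Γ ↔ s = ψ t)) := by
  set crit : Set ℂ := {x | x ∈ D ∧ fderiv ℝ u x = 0} with hcrit
  set A : Set ℂ := {x | x ∈ D ∧ AccPt x (𝓟 crit)} with hA
  have hAcc : ∀ q ∈ A, u q ≠ 0 ∧ ∃ (e : ℂ) (δ : ℝ) (ψ : ℝ → ℝ), CC u D q e δ ψ := by
    intro q hq
    obtain ⟨h1, e, δ, ψ, h2, h3, h4, h5, h6, h7, h8, h9⟩ :=
      crit_graph hDo hDc hlam hu hne hq.1 hq.2
    exact ⟨h1, e, δ, ψ, ⟨h2, h3, h4, h5, h6, h7, h8, h9⟩⟩
  have hAcrit : ∀ q ∈ A, fderiv ℝ u q = 0 := by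
    intro q hq
    obtain ⟨_, e, δ, ψ, h⟩ := hAcc q hq
    have := (h.cx_mem (t := 0) (by simpa using h.pos)).2
    rwa [h.cx_zero] at this
  have hgraphA : ∀ q ∈ A, ∀ (e : ℂ) (δ : ℝ) (ψ : ℝ → ℝ), CC u D q e δ ψ →
      cx q e ψ '' {t | |t| < δ} ⊆ A := by
    rintro q hq e δ ψ h _ ⟨t, ht, rfl⟩
    exact ⟨(h.cx_mem ht).1, h.cx_acc ht⟩
  have hx₀A : x₀ ∈ A := ⟨hx₀, hacc⟩
  set Γ := connectedComponentIn A x₀ with hΓ
  have hΓA : Γ ⊆ A := connectedComponentIn_subset A x₀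
  have hx₀Γ : x₀ ∈ Γ := mem_connectedComponentIn hx₀A
  have hΓpre : IsPreconnected Γ := isPreconnected_connectedComponentIn
  have hgraphΓ : ∀ q ∈ Γ, ∀ (e : ℂ) (δ : ℝ) (ψ : ℝ → ℝ), CC u D q e δ ψ →
      cx q e ψ '' {t | |t| < δ} ⊆ Γ := by
    intro q hq e δ ψ h
    have h1 : Γ = connectedComponentIn A q := connectedComponentIn_eq hq
    rw [h1]
    exact h.graph_preconn.subset_connectedComponentIn
      ⟨0, by simpa using h.pos, h.cx_zero⟩ (hgraphA q (hΓA hq) e δ ψ h)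
  have hmemΓ : ∀ q ∈ Γ, ∀ (e : ℂ) (δ : ℝ) (ψ : ℝ → ℝ), CC u D q e δ ψ →
      ∀ t s : ℝ, |t| < δ → |s| < δ → (q + (t + s * Complex.I) * e ∈ Γ ↔ s = ψ t) := by
    intro q hq e δ ψ h t s ht hs
    constructor
    · intro hmem
      exact (h.mem t s ht hs).1 (hAcrit _ (hΓA hmem))
    · rintro rfl
      exact hgraphΓ q hq e δ ψ h ⟨t, ht, rfl⟩
  -- `u` is constant on `Γ`
  have hconst : ∀ x ∈ Γ, u x = u x₀ := by
    intro x hx
    have : PreconnectedSpace Γ := Subtype.preconnectedSpace hΓpre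
    have hloc : IsLocallyConstant (fun p : Γ => u p) := by
      rw [IsLocallyConstant.iff_eventually_eq]
      rintro ⟨q, hq⟩
      obtain ⟨_, e, δ, ψ, h⟩ := hAcc q (hΓA hq)
      have h1 : ∀ᶠ y : Γ in 𝓝 (⟨q, hq⟩ : Γ), (y : ℂ) ∈ Metric.ball q δ :=
        continuous_subtype_val.continuousAt.eventually_mem (Metric.ball_mem_nhds q h.pos)
      filter_upwards [h1] with y hy
      obtain ⟨t, s, ht, hs, hy2⟩ := cc_box_nhds h.unit q hy
      have hyΓ : q + (t + s * Complex.I) * e ∈ Γ := by rw [← hy2]; exact y.2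
      have hsψ := (hmemΓ q hq e δ ψ h t s ht hs).1 hyΓ
      subst hsψ
      change u y = u q
      rw [hy2]
      exact h.const hu ht
    exact hloc.apply_eq_of_preconnectedSpace ⟨x, hx⟩ ⟨x₀, hx₀Γ⟩
  have hu0 : u x₀ ≠ 0 := (hAcc x₀ hx₀A).1
  -- `Γ` is closed
  have hclosed : IsClosed Γ := by
    rw [← closure_subset_iff_isClosed]
    intro p hp
    have h1 : u p = u x₀ := by
      have h2 : IsClosed {x | u x = u x₀} := isClosed_eq hu.cont continuous_const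
      exact (closure_minimal (fun x hx => hconst x hx) h2) hp
    have hpD : p ∈ D := by
      by_contra hcon
      rw [hu.out p hcon] at h1
      exact hu0 h1.symm
    have hpA : p ∈ A := by
      refine ⟨hpD, ?_⟩
      rw [accPt_iff_frequently, frequently_iff]
      intro U hU
      obtain ⟨V, hVU, hVo, hpV⟩ := mem_nhds_iff.1 hU
      obtain ⟨a, haV, haΓ⟩ := mem_closure_iff.1 hp V hVo hpV
      have haacc := (hΓA haΓ).2
      rw [accPt_iff_frequently, frequently_iff] at haacc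
      by_cases hap : a = p
      · subst hap
        obtain ⟨y, hyV, hy⟩ := haacc (hVo.mem_nhds haV)
        exact ⟨y, hVU hyV, hy⟩
      · obtain ⟨y, hyV, hy⟩ := haacc ((hVo.inter isOpen_compl_singleton).mem_nhds ⟨haV, hap⟩)
        exact ⟨y, hVU hyV.1, hyV.2, hy.2⟩
    have h3 : IsPreconnected (insert p Γ) :=
      hΓpre.subset_closure (subset_insert _ _) (insert_subset hp subset_closure)
    exact h3.subset_connectedComponentIn (mem_insert_of_mem _ hx₀Γ)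
      (insert_subset hpA hΓA) (mem_insert _ _)
  have hΓD : Γ ⊆ D := fun x hx => (hΓA hx).1
  refine ⟨Γ, Metric.isCompact_of_isClosed_isBounded hclosed (hDb.subset hΓD),
    ⟨⟨x₀, hx₀Γ⟩, hΓpre⟩, hx₀Γ, hΓD, fun x hx => hAcrit x (hΓA hx), hconst, ?_⟩
  intro q hq
  obtain ⟨_, e, δ, ψ, h⟩ := hAcc q (hΓA hq)
  exact ⟨e, δ, ψ, h.unit, h.pos, h.smooth, h.an, h.zero, h.slope, h.sub,
    fun t s ht hs => ⟨h.mem t s ht hs, hmemΓ q hq e δ ψ h t s ht hs⟩⟩

end Pool.Agent.Helper327_Drum
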