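import Pool.Agent.Helper327_Drum.BDefs
import Pool.Agent.Helper327_Drum.Defs

set_option autoImplicit false
open MeasureTheory Set Filter Topology ComplexConjugate
open scoped ContDiff InnerProductSpace

namespace Pool.Agent.Helper327_Drum

namespace SCC

/-- arc length of a graph and its inverse -/
theorem exists_arclen (ψ : ℝ → ℝ) (hψ : ContDiff ℝ 2 ψ) :
    ∃ L lam : ℝ → ℝ, (∀ t, HasDerivAt L (Real.sqrt (1 + deriv ψ t ^ 2)) t) ∧ L 0 = 0 ∧
      lam 0 = 0 ∧ (∀ s, L (lam s) = s) ∧ (∀ t, lam (L t) = t) ∧ Continuous lam ∧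
      (∀ s, HasDerivAt lam (Real.sqrt (1 + deriv ψ (lam s) ^ 2))⁻¹ s) ∧
      ∀ s, |lam s| ≤ |s| := by
  have hd : Continuous (deriv ψ) := hψ.continuous_deriv (by norm_num)
  set f : ℝ → ℝ := fun t => Real.sqrt (1 + deriv ψ t ^ 2) with hf
  have hfc : Continuous f := by fun_prop
  have hf1 : ∀ t, 1 ≤ f t := by
    intro t
    rw [hf]
    refine Real.one_le_sqrt.2 ?_
    nlinarith [sq_nonneg (deriv ψ t)]
  set L : ℝ → ℝ := fun t => ∫ τ in (0 : ℝ)..t, f τ with hL
  have hLd : ∀ t, HasDerivAt L (f t) t := fun t =>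
    (hfc.integral_hasStrictDerivAt 0 t).hasDerivAt
  have hL0 : L 0 = 0 := by simp [hL]
  have hmono : StrictMono L := strictMono_of_deriv_pos fun t => by
    rw [(hLd t).deriv]
    linarith [hf1 t]
  have hmono2 : Monotone fun t => L t - t := by
    refine monotone_of_deriv_nonneg (fun t => ((hLd t).sub (hasDerivAt_id t)).differentiableAt) ?_
    intro t
    have h1 : HasDerivAt (fun t => L t - t) (f t - 1) t := (hLd t).sub (hasDerivAt_id t)
    rw [h1.deriv]
    linarith [hf1 t]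
  have hge : ∀ t, 0 ≤ t → t ≤ L t := by
    intro t ht
    have := hmono2 ht
    simp only [hL0] at this
    linarith
  have hle : ∀ t, t ≤ 0 → L t ≤ t := by
    intro t ht
    have := hmono2 ht
    simp only [hL0] at this
    linarith
  have hLc : Continuous L := continuous_iff_continuousAt.2 fun t => (hLd t).continuousAt
  have hsurj : Function.Surjective L := by
    refine hLc.surjective ?_ ?_
    · exact tendsto_atTop_mono' _ ((eventually_ge_atTop 0).mono hge) tendsto_id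
    · exact tendsto_atBot_mono' _ ((eventually_le_atBot 0).mono hle) tendsto_id
  set iso := hmono.orderIsoOfSurjective L hsurj with hiso
  have hiL : ∀ t, iso t = L t := fun t => rfl
  have h1 : ∀ s, L (iso.symm s) = s := fun s => by
    rw [← hiL]; exact iso.apply_symm_apply s
  have h2 : ∀ t, iso.symm (L t) = t := fun t => by
    rw [← hiL]; exact iso.symm_apply_apply t
  have hc : Continuous fun s => iso.symm s := iso.symm.continuous
  refine ⟨L, fun s => iso.symm s, hLd, hL0, ?_, h1, h2, hc, ?_, ?_⟩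
  · have := h2 0
    rwa [hL0] at this
  · intro s
    exact HasDerivAt.of_local_left_inverse hc.continuousAt (hLd _)
      (by linarith [hf1 (iso.symm s)] : f (iso.symm s) ≠ 0) (Eventually.of_forall h1)
  · intro s
    show |iso.symm s| ≤ |s|
    rcases le_total 0 (iso.symm s) with h | h
    · have h3 := hge _ h
      rw [h1] at h3
      rw [abs_of_nonneg h, abs_of_nonneg (h.trans h3)]
      exact h3
    · have h3 := hle _ h
      rw [h1] at h3
      rw [abs_of_nonpos h, abs_of_nonpos (h3.trans h)]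
      linarith

/-- `c` is near `s` ... at `s` a unit speed curve in `Γ` -/
def Good (Γ : Set ℂ) (c : ℝ → ℂ) (s : ℝ) : Prop :=
  c s ∈ Γ ∧ DifferentiableAt ℝ c s ∧ ContinuousAt (deriv c) s ∧ ‖deriv c s‖ = 1

theorem Good.congr {Γ : Set ℂ} {c d : ℝ → ℂ} {s : ℝ} (h : Good Γ c s) (e : c =ᶠ[𝓝 s] d) :
    Good Γ d s := by
  obtain ⟨h1, h2, h3, h4⟩ := h
  refine ⟨e.eq_of_nhds ▸ h1, h2.congr_of_eventuallyEq e.symm, h3.congr e.deriv, ?_⟩
  rw [← e.deriv_eq]
  exact h4

theorem deriv_aff (c : ℝ → ℂ) (k ε s : ℝ) :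
    deriv (fun u => c (k + ε * u)) s = ε • deriv c (k + ε * s) := by
  have h1 := deriv_comp_mul_left ε (fun x => c (k + x)) s
  have h2 := deriv_comp_const_add c k (ε * s)
  rw [h2] at h1
  exact h1

theorem Good.aff {Γ : Set ℂ} {c : ℝ → ℂ} {k ε s : ℝ} (hε : ε = 1 ∨ ε = -1)
    (h : Good Γ c (k + ε * s)) : Good Γ (fun u => c (k + ε * u)) s := by
  obtain ⟨h1, h2, h3, h4⟩ := h
  have hh : deriv (fun u => c (k + ε * u)) = fun s => ε • deriv c (k + ε * s) :=
    funext fun s => deriv_aff c k ε s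
  refine ⟨h1, ?_, ?_, ?_⟩
  · exact DifferentiableAt.comp s (f := fun u => k + ε * u) h2 (by fun_prop)
  · rw [hh]
    have h5 : ContinuousAt (fun u : ℝ => k + ε * u) s := by fun_prop
    exact (ContinuousAt.comp (f := fun u : ℝ => k + ε * u) h3 h5).const_smul ε
  · rw [hh]
    show ‖ε • deriv c (k + ε * s)‖ = 1
    rw [norm_smul, h4]
    rcases hε with rfl | rfl <;> simp

/-- the local parametrisation by arc length -/
theorem local_param {Γ : Set ℂ} {q e : ℂ} {δ : ℝ} {ψ : ℝ → ℝ} (he : ‖e‖ = 1) (hδ : 0 < δ)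
    (hψ : ContDiff ℝ 2 ψ) (hψ0 : ψ 0 = 0) (hsl : ∀ t, |t| < δ → |deriv ψ t| ≤ 1 / 2)
    (hmem : ∀ t s : ℝ, |t| < δ → |s| < δ → (q + (t + s * Complex.I) * e ∈ Γ ↔ s = ψ t)) :
    ∃ (g : ℝ → ℂ) (δ' ρ : ℝ), 0 < δ' ∧ δ' ≤ 1 ∧ 0 < ρ ∧ g 0 = q ∧
      (∀ s, |s| < δ' → Good Γ g s) ∧
      (∀ w ∈ Γ, ‖w - q‖ < ρ → ∃ σ, |σ| < δ' / 2 ∧ g σ = w) ∧
      ∀ (c : ℝ → ℂ) (s₀ : ℝ), (∀ᶠ s in 𝓝 s₀, Good Γ c s) → c s₀ = q →
        ∃ ε : ℝ, (ε = 1 ∨ ε = -1) ∧ ∀ᶠ s in 𝓝 s₀, c s = g (ε * (s - s₀)) := by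
  obtain ⟨L, lam, hL, hL0, hlam0, hLl, hlL, hlc, hld, hlle⟩ := exists_arclen ψ hψ
  have hψd : ∀ t, HasDerivAt ψ (deriv ψ t) t := fun t =>
    ((hψ.differentiable (by norm_num)) t).hasDerivAt
  have hd : Continuous (deriv ψ) := hψ.continuous_deriv (by norm_num)
  have hsq : ∀ t, 0 < 1 + deriv ψ t ^ 2 := fun t => by positivity
  have hS : ∀ t, 0 < Real.sqrt (1 + deriv ψ t ^ 2) := fun t => Real.sqrt_pos.2 (hsq t)
  have hnc : ∀ t : ℝ, ‖(1 : ℂ) + ((deriv ψ t : ℝ) : ℂ) * Complex.I‖ = Real.sqrt (1 + deriv ψ t ^ 2) := by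
    intro t
    have := Complex.norm_add_mul_I 1 (deriv ψ t)
    simpa using this
  set cv : ℝ → ℂ := fun t => q + ((t : ℂ) + (ψ t : ℂ) * Complex.I) * e with hcv
  have hcvd : ∀ t, HasDerivAt cv (((1 : ℂ) + ((deriv ψ t : ℝ) : ℂ) * Complex.I) * e) t := by
    intro t
    have h1 : HasDerivAt (fun t : ℝ => (t : ℂ)) 1 t := Complex.ofRealCLM.hasDerivAt
    have h2 : HasDerivAt (fun t : ℝ => (ψ t : ℂ)) ((deriv ψ t : ℝ) : ℂ) t := (hψd t).ofReal_comp
    exact ((h1.add (h2.mul_const Complex.I)).mul_const e).const_add q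
  set g : ℝ → ℂ := fun s => cv (lam s) with hg
  have hgd : ∀ s, HasDerivAt g ((Real.sqrt (1 + deriv ψ (lam s) ^ 2))⁻¹ •
      (((1 : ℂ) + ((deriv ψ (lam s) : ℝ) : ℂ) * Complex.I) * e)) s := by
    intro s
    exact (hcvd (lam s)).scomp s (hld s)
  have hgde : deriv g = fun s => (Real.sqrt (1 + deriv ψ (lam s) ^ 2))⁻¹ •
      (((1 : ℂ) + ((deriv ψ (lam s) : ℝ) : ℂ) * Complex.I) * e) := funext fun s => (hgd s).deriv
  have hψb : ∀ t, |t| < δ → |ψ t| ≤ 1 / 2 * |t| := by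
    intro t ht
    have h1 := Convex.norm_image_sub_le_of_norm_hasDerivWithin_le (f := ψ) (f' := deriv ψ)
      (s := Metric.ball (0 : ℝ) δ) (x := 0) (y := t) (C := 1 / 2)
      (fun x _ => (hψd x).hasDerivWithinAt)
      (fun x hx => by
        rw [Real.norm_eq_abs]
        exact hsl x (by simpa using hx)) (convex_ball 0 δ) (by simpa using hδ) (by simpa using ht)
    simpa [hψ0] using h1
  obtain ⟨η, hη, hη2⟩ : ∃ η > 0, ∀ t, |t| < η → |L t| < min δ 1 / 2 := by
    have h1 : ContinuousAt L 0 := (hL 0).continuousAt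
    obtain ⟨η, hη, h2⟩ := Metric.continuousAt_iff.1 h1 (min δ 1 / 2) (by positivity)
    refine ⟨η, hη, fun t ht => ?_⟩
    have := @h2 t (by simpa using ht)
    simpa [hL0] using this
  have hee : e * conj e = 1 := by
    rw [Complex.mul_conj, Complex.normSq_eq_norm_sq, he]
    simp
  have hrep : ∀ w : ℂ, w = q + ((((w - q) * conj e).re : ℂ) +
      (((w - q) * conj e).im : ℂ) * Complex.I) * e := by
    intro w
    rw [Complex.re_add_im, mul_assoc, mul_comm (conj e) e, hee]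
    ring
  have hnr : ∀ w : ℂ, |((w - q) * conj e).re| ≤ ‖w - q‖ := by
    intro w
    refine (Complex.abs_re_le_norm _).trans ?_
    rw [norm_mul, RCLike.norm_conj, he, mul_one]
  have hni : ∀ w : ℂ, |((w - q) * conj e).im| ≤ ‖w - q‖ := by
    intro w
    refine (Complex.abs_im_le_norm _).trans ?_
    rw [norm_mul, RCLike.norm_conj, he, mul_one]
  have hΓ : ∀ w ∈ Γ, ‖w - q‖ < δ →
      ((w - q) * conj e).im = ψ (((w - q) * conj e).re) := by
    intro w hw hwd
    rw [← hmem _ _ ((hnr w).trans_lt hwd) ((hni w).trans_lt hwd), ← hrep w]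
    exact hw
  refine ⟨g, min δ 1, min η δ, by positivity, min_le_right _ _, by positivity, ?_, ?_, ?_, ?_⟩
  · simp [hg, hcv, hlam0, hψ0]
  · intro s hs
    have h1 : |lam s| < δ := (hlle s).trans_lt (hs.trans_le (min_le_left _ _))
    refine ⟨?_, (hgd s).differentiableAt, ?_, ?_⟩
    · show cv (lam s) ∈ Γ
      rw [hcv]
      refine (hmem _ _ h1 ?_).2 rfl
      have := hψb _ h1
      have h3 := abs_nonneg (lam s)
      linarith
    · rw [hgde]
      have h2 : ∀ s, Real.sqrt (1 + deriv ψ (lam s) ^ 2) ≠ 0 := fun s => (hS _).ne'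
      have h3 : Continuous fun s => (Real.sqrt (1 + deriv ψ (lam s) ^ 2))⁻¹ :=
        Continuous.inv₀ (by fun_prop) h2
      exact (h3.smul (by fun_prop)).continuousAt
    · rw [(hgd s).deriv, norm_smul, norm_mul, he, mul_one, hnc, norm_inv, Real.norm_eq_abs,
        abs_of_pos (hS _)]
      exact inv_mul_cancel₀ (hS _).ne'
  · intro w hw hwq
    refine ⟨L (((w - q) * conj e).re), ?_, ?_⟩
    · exact hη2 _ ((hnr w).trans_lt (hwq.trans_le (min_le_left _ _)))
    · show cv (lam (L _)) = w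
      rw [hlL, hcv]
      show q + ((((w - q) * conj e).re : ℂ) +
        (ψ (((w - q) * conj e).re) : ℂ) * Complex.I) * e = w
      rw [← hΓ w hw (hwq.trans_le (min_le_right _ _))]
      exact (hrep w).symm
  · intro c s₀ hc hcq
    set t : ℝ → ℝ := fun s => ((c s - q) * conj e).re with ht
    have hcont : ContinuousAt c s₀ := hc.self_of_nhds.2.1.continuousAt
    have hnear : ∀ᶠ s in 𝓝 s₀, ‖c s - q‖ < δ := by
      have h1 : Tendsto (fun s => ‖c s - q‖) (𝓝 s₀) (𝓝 ‖c s₀ - q‖) :=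
        (hcont.sub_const q).norm
      rw [hcq, sub_self, norm_zero] at h1
      exact h1.eventually_lt_const hδ
    have hrepc : ∀ᶠ s in 𝓝 s₀, c s = cv (t s) := by
      filter_upwards [hc, hnear] with s h1 h2
      rw [hcv]
      show c s = q + ((((c s - q) * conj e).re : ℂ) +
        (ψ (((c s - q) * conj e).re) : ℂ) * Complex.I) * e
      rw [← hΓ _ h1.1 h2]
      exact hrep (c s)
    have htd : ∀ s, Good Γ c s → HasDerivAt t ((deriv c s * conj e).re) s := by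
      intro s hs
      have h1 : HasDerivAt c (deriv c s) s := hs.2.1.hasDerivAt
      have h2 := (h1.sub_const q).mul_const (conj e)
      exact (Complex.reCLM.hasFDerivAt.comp_hasDerivAt s h2)
    have hdc : ∀ᶠ s in 𝓝 s₀, deriv c s =
        (deriv c s * conj e).re • (((1 : ℂ) + ((deriv ψ (t s) : ℝ) : ℂ) * Complex.I) * e) := by
      filter_upwards [hc, hrepc.eventually_nhds] with s h1 h2
      have h3 : HasDerivAt (fun s => cv (t s)) ((deriv c s * conj e).re •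
          (((1 : ℂ) + ((deriv ψ (t s) : ℝ) : ℂ) * Complex.I) * e)) s :=
        (hcvd (t s)).scomp s (htd s h1)
      have h4 : HasDerivAt c ((deriv c s * conj e).re •
          (((1 : ℂ) + ((deriv ψ (t s) : ℝ) : ℂ) * Complex.I) * e)) s :=
        h3.congr_of_eventuallyEq h2
      exact h4.deriv
    have habs : ∀ᶠ s in 𝓝 s₀, |(deriv c s * conj e).re| * Real.sqrt (1 + deriv ψ (t s) ^ 2) = 1 := by
      filter_upwards [hc, hdc] with s h1 h2
      have h3 := h1.2.2.2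
      rw [h2, norm_smul, norm_mul, he, mul_one, hnc, Real.norm_eq_abs] at h3
      exact h3
    have hne : (deriv c s₀ * conj e).re ≠ 0 := by
      intro h
      have := habs.self_of_nhds
      rw [h] at this
      simp at this
    have hct : ContinuousAt (fun s => (deriv c s * conj e).re) s₀ := by
      have h1 : ContinuousAt (fun s => deriv c s * conj e) s₀ :=
        hc.self_of_nhds.2.2.1.mul continuousAt_const
      exact Complex.continuous_re.continuousAt.comp h1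
    obtain ⟨ε, hε, hsign⟩ : ∃ ε : ℝ, (ε = 1 ∨ ε = -1) ∧ ∀ᶠ s in 𝓝 s₀,
        Real.sqrt (1 + deriv ψ (t s) ^ 2) * (deriv c s * conj e).re = ε := by
      rcases lt_or_gt_of_ne hne with h | h
      · refine ⟨-1, Or.inr rfl, ?_⟩
        filter_upwards [habs, hct.eventually_lt continuousAt_const h] with s h1 h2
        rw [abs_of_neg h2] at h1
        linarith
      · refine ⟨1, Or.inl rfl, ?_⟩
        filter_upwards [habs, continuousAt_const.eventually_lt hct h] with s h1 h2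
        rw [abs_of_pos h2] at h1
        linarith
    refine ⟨ε, hε, ?_⟩
    have hMd : ∀ᶠ s in 𝓝 s₀, HasDerivAt (fun s => L (t s) - ε * s) 0 s := by
      filter_upwards [hc, hsign] with s h1 h2
      have h3 : HasDerivAt (fun s => L (t s)) (Real.sqrt (1 + deriv ψ (t s) ^ 2) *
          (deriv c s * conj e).re) s := (hL (t s)).comp s (htd s h1)
      have h4 := h3.sub ((hasDerivAt_id s).const_mul ε)
      rw [h2, mul_one, sub_self] at h4
      exact h4
    obtain ⟨r, hr, hball⟩ := Metric.eventually_nhds_iff_ball.1 (hMd.and hrepc)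
    refine Metric.eventually_nhds_iff_ball.2 ⟨r, hr, fun s hs => ?_⟩
    have h5 := Metric.isOpen_ball.is_const_of_deriv_eq_zero
      (convex_ball s₀ r).isPreconnected
      (f := fun s => L (t s) - ε * s)
      (fun x hx => (hball x hx).1.differentiableAt.differentiableWithinAt)
      (fun x hx => (hball x hx).1.deriv) hs (Metric.mem_ball_self hr)
    have h6 : t s₀ = 0 := by
      show ((c s₀ - q) * conj e).re = 0
      rw [hcq, sub_self, zero_mul, Complex.zero_re]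
    simp only [h6, hL0] at h5
    have h7 : L (t s) = ε * (s - s₀) := by linarith
    rw [(hball s hs).2, hg]
    show cv (t s) = cv (lam (ε * (s - s₀)))
    rw [← h7, hlL]

/-- every point of `Γ` has a local parametrisation -/
def Loc (Γ : Set ℂ) : Prop :=
  ∀ q ∈ Γ, ∃ (g : ℝ → ℂ) (δ' ρ : ℝ), 0 < δ' ∧ δ' ≤ 1 ∧ 0 < ρ ∧ g 0 = q ∧
      (∀ s, |s| < δ' → Good Γ g s) ∧
      (∀ w ∈ Γ, ‖w - q‖ < ρ → ∃ σ, |σ| < δ' / 2 ∧ g σ = w) ∧
      ∀ (c : ℝ → ℂ) (s₀ : ℝ), (∀ᶠ s in 𝓝 s₀, Good Γ c s) → c s₀ = q →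
        ∃ ε : ℝ, (ε = 1 ∨ ε = -1) ∧ ∀ᶠ s in 𝓝 s₀, c s = g (ε * (s - s₀))

theorem deriv_aff' (g : ℝ → ℂ) (ε s₀ : ℝ) :
    deriv (fun s => g (ε * (s - s₀))) s₀ = ε • deriv g 0 := by
  have h := deriv_aff g (-(ε * s₀)) ε s₀
  have h1 : (fun u => g (-(ε * s₀) + ε * u)) = fun s => g (ε * (s - s₀)) := by
    funext u
    congr 1
    ring
  rw [h1] at h
  rw [h]
  congr 2
  ring

/-- two unit speed curves through the same point have the same velocity up to the sign -/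
theorem tangent {Γ : Set ℂ} (hL : Loc Γ) {c d : ℝ → ℂ} {s s' : ℝ}
    (hc : ∀ᶠ u in 𝓝 s, Good Γ c u) (hd : ∀ᶠ u in 𝓝 s', Good Γ d u) (h : c s = d s') :
    ∃ ε : ℝ, (ε = 1 ∨ ε = -1) ∧ deriv c s = ε • deriv d s' := by
  obtain ⟨g, δ, ρ, -, -, -, -, -, -, hloc⟩ := hL (c s) hc.self_of_nhds.1
  obtain ⟨ε, hε, h1⟩ := hloc c s hc rfl
  obtain ⟨ε', hε', h2⟩ := hloc d s' hd h.symm
  have h3 : deriv c s = ε • deriv g 0 := by
    rw [← deriv_aff' g ε s]
    exact EventuallyEq.deriv_eq h1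
  have h4 : deriv d s' = ε' • deriv g 0 := by
    rw [← deriv_aff' g ε' s']
    exact EventuallyEq.deriv_eq h2
  refine ⟨ε * ε', ?_, ?_⟩
  · rcases hε with rfl | rfl <;> rcases hε' with rfl | rfl <;> norm_num
  · rw [h3, h4, smul_smul]
    rcases hε' with rfl | rfl <;> simp

/-- local uniqueness -/
theorem uniq_loc {Γ : Set ℂ} (hL : Loc Γ) {c d : ℝ → ℂ} {s : ℝ}
    (hc : ∀ᶠ u in 𝓝 s, Good Γ c u) (hd : ∀ᶠ u in 𝓝 s, Good Γ d u) (h : c s = d s)
    (h' : deriv c s = deriv d s) : c =ᶠ[𝓝 s] d := by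
  obtain ⟨g, δ, ρ, -, -, -, -, -, -, hloc⟩ := hL (c s) hc.self_of_nhds.1
  obtain ⟨ε, hε, h1⟩ := hloc c s hc rfl
  obtain ⟨ε', hε', h2⟩ := hloc d s hd h.symm
  have h3 : deriv c s = ε • deriv g 0 := by
    rw [← deriv_aff' g ε s]
    exact EventuallyEq.deriv_eq h1
  have h4 : deriv d s = ε' • deriv g 0 := by
    rw [← deriv_aff' g ε' s]
    exact EventuallyEq.deriv_eq h2
  have h5 : ‖deriv c s‖ = 1 := hc.self_of_nhds.2.2.2
  have h6 : deriv g 0 ≠ 0 := by
    intro h0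
    rw [h3, h0, smul_zero, norm_zero] at h5
    exact zero_ne_one h5
  have h7 : ε = ε' := by
    have : ε • deriv g 0 = ε' • deriv g 0 := by rw [← h3, ← h4, h']
    exact smul_left_injective ℝ h6 this
  subst h7
  exact EventuallyEq.trans h1 (EventuallyEq.symm h2)

/-- uniqueness on intervals -/
theorem uniq {Γ : Set ℂ} (hL : Loc Γ) {c d : ℝ → ℂ} {a b s : ℝ}
    (hc : ∀ u ∈ Ioo a b, Good Γ c u) (hd : ∀ u ∈ Ioo a b, Good Γ d u) (hs : s ∈ Ioo a b)
    (h : c s = d s) (h' : deriv c s = deriv d s) : ∀ u ∈ Ioo a b, c u = d u := by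
  have key : Ioo a b ⊆ {u | c =ᶠ[𝓝 u] d} := by
    refine isPreconnected_Ioo.subset_of_closure_inter_subset
      (isOpen_iff_mem_nhds.2 fun u hu => ?_) ?_ ?_
    · exact Filter.Eventually.eventually_nhds hu
    · refine ⟨s, hs, ?_⟩
      exact uniq_loc hL (Filter.eventually_of_mem (isOpen_Ioo.mem_nhds hs) hc)
        (Filter.eventually_of_mem (isOpen_Ioo.mem_nhds hs) hd) h h'
    · rintro u ⟨hu, hu2⟩
      have hcu := hc u hu2
      have hdu := hd u hu2
      have hfr : ∃ᶠ v in 𝓝 u, c =ᶠ[𝓝 v] d := mem_closure_iff_frequently.1 hu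
      have e1 : c u = d u := by
        have h1 : ∃ᶠ v in 𝓝 u, c v - d v = 0 := hfr.mono fun v hv => by
          rw [hv.eq_of_nhds, sub_self]
        have h2 : ContinuousAt (fun v => c v - d v) u :=
          hcu.2.1.continuousAt.sub hdu.2.1.continuousAt
        by_contra hne
        exact h1 (h2.eventually_ne (sub_ne_zero.2 hne))
      have e2 : deriv c u = deriv d u := by
        have h1 : ∃ᶠ v in 𝓝 u, deriv c v - deriv d v = 0 := hfr.mono fun v hv => by
          rw [hv.deriv_eq, sub_self]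
        have h2 : ContinuousAt (fun v => deriv c v - deriv d v) u :=
          hcu.2.2.1.sub hdu.2.2.1
        by_contra hne
        exact h1 (h2.eventually_ne (sub_ne_zero.2 hne))
      exact uniq_loc hL (Filter.eventually_of_mem (isOpen_Ioo.mem_nhds hu2) hc)
        (Filter.eventually_of_mem (isOpen_Ioo.mem_nhds hu2) hd) e1 e2
  exact fun u hu => (key hu).eq_of_nhds

/-- a uniform time of existence -/
theorem uniform {Γ : Set ℂ} (hc : IsCompact Γ) (hL : Loc Γ) :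
    ∃ a : ℝ, 0 < a ∧ ∀ x ∈ Γ, ∃ d : ℝ → ℂ, d 0 = x ∧ ∀ s ∈ Ioo (-a) a, Good Γ d s := by
  have key : ∃ a : ℝ, 0 < a ∧ ∀ x ∈ Γ, x ∈ Γ → ∃ d : ℝ → ℂ, d 0 = x ∧
      ∀ s ∈ Ioo (-a) a, Good Γ d s := by
    refine hc.induction_on (p := fun S => ∃ a : ℝ, 0 < a ∧ ∀ x ∈ S, x ∈ Γ → ∃ d : ℝ → ℂ,
      d 0 = x ∧ ∀ s ∈ Ioo (-a) a, Good Γ d s) ⟨1, one_pos, by simp⟩ ?_ ?_ ?_
    · rintro S T hST ⟨a, ha, h⟩
      exact ⟨a, ha, fun x hx => h x (hST hx)⟩
    · rintro S T ⟨a, ha, h⟩ ⟨b, hb, h'⟩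
      refine ⟨min a b, lt_min ha hb, ?_⟩
      have m1 := min_le_left a b
      have m2 := min_le_right a b
      rintro x (hx | hx) hxΓ
      · obtain ⟨d, hd, hd2⟩ := h x hx hxΓ
        exact ⟨d, hd, fun s hs => hd2 s ⟨by linarith [hs.1], by linarith [hs.2]⟩⟩
      · obtain ⟨d, hd, hd2⟩ := h' x hx hxΓ
        exact ⟨d, hd, fun s hs => hd2 s ⟨by linarith [hs.1], by linarith [hs.2]⟩⟩
    · intro q hq
      obtain ⟨g, δ, ρ, hδ, -, hρ, hg0, hgood, hcov, -⟩ := hL q hq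
      refine ⟨Metric.ball q ρ, mem_nhdsWithin_of_mem_nhds (Metric.ball_mem_nhds q hρ), δ / 2,
        by linarith, ?_⟩
      intro x hx hxΓ
      obtain ⟨σ, hσ, hgσ⟩ := hcov x hxΓ (by rwa [← dist_eq_norm])
      refine ⟨fun u => g (σ + 1 * u), by simpa using hgσ, fun s hs => ?_⟩
      refine Good.aff (Or.inl rfl) (hgood _ ?_)
      have h1 := abs_lt.1 hσ
      rw [abs_lt]
      constructor <;> [linarith [hs.1]; linarith [hs.2]]
  obtain ⟨a, ha, h⟩ := key
  exact ⟨a, ha, fun x hx => h x hx hx⟩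

/-- extension to the right -/
theorem extend_right {Γ : Set ℂ} (hL : Loc Γ) {b : ℝ} (hb : 0 < b)
    (hex : ∀ x ∈ Γ, ∃ d : ℝ → ℂ, d 0 = x ∧ ∀ s ∈ Ioo (-(2 * b)) (2 * b), Good Γ d s)
    {c : ℝ → ℂ} {l r : ℝ} (hlr : l < r) (hc : ∀ s ∈ Ioo l r, Good Γ c s) :
    ∃ c' : ℝ → ℂ, (∀ s ∈ Ioo l (r + b), Good Γ c' s) ∧ ∀ s ∈ Ioo l r, c' s = c s := by
  obtain ⟨s₁, hs₁, hs₁r, hs₁b⟩ : ∃ s₁, l < s₁ ∧ s₁ < r ∧ r - b < s₁ := by
    obtain ⟨s₁, h1, h2⟩ := exists_between (max_lt hlr (sub_lt_self r hb))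
    exact ⟨s₁, (le_max_left _ _).trans_lt h1, h2, (le_max_right _ _).trans_lt h1⟩
  have hcs : ∀ᶠ u in 𝓝 s₁, Good Γ c u :=
    Filter.eventually_of_mem (isOpen_Ioo.mem_nhds ⟨hs₁, hs₁r⟩) hc
  obtain ⟨d, hd0, hd⟩ := hex (c s₁) (hc s₁ ⟨hs₁, hs₁r⟩).1
  have hd' : ∀ᶠ u in 𝓝 0, Good Γ d u :=
    Filter.eventually_of_mem (isOpen_Ioo.mem_nhds ⟨by linarith, by linarith⟩) hd
  obtain ⟨ε, hε, htan⟩ := tangent hL hcs hd' hd0.symm
  set D : ℝ → ℂ := fun s => d (-(ε * s₁) + ε * s) with hD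
  have hDs : D s₁ = c s₁ := by
    rw [hD]
    simp [hd0]
  have hDd : deriv D s₁ = deriv c s₁ := by
    rw [hD, deriv_aff, htan, neg_add_cancel]
  have hDg : ∀ s ∈ Ioo (s₁ - 2 * b) (s₁ + 2 * b), Good Γ D s := by
    intro s hs
    refine Good.aff hε (hd _ ?_)
    rcases hε with rfl | rfl
    · exact ⟨by linarith [hs.1], by linarith [hs.2]⟩
    · exact ⟨by linarith [hs.2], by linarith [hs.1]⟩
  have hagree : ∀ s ∈ Ioo (max l (s₁ - 2 * b)) r, c s = D s := by
    have m1 := le_max_left l (s₁ - 2 * b)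
    have m2 := le_max_right l (s₁ - 2 * b)
    refine uniq hL (s := s₁) ?_ ?_ ⟨max_lt hs₁ (by linarith), hs₁r⟩ hDs.symm hDd.symm
    · exact fun u hu => hc u ⟨by linarith [hu.1], hu.2⟩
    · exact fun u hu => hDg u ⟨by linarith [hu.1], by linarith [hu.2]⟩
  classical
  refine ⟨fun s => if s < r then c s else D s, fun s hs => ?_, fun s hs => if_pos hs.2⟩
  rcases lt_or_ge s r with h | h
  · refine (hc s ⟨hs.1, h⟩).congr ?_
    filter_upwards [Iio_mem_nhds h] with u hu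
    exact (if_pos hu).symm
  · refine (hDg s ⟨by linarith, by linarith [hs.2]⟩).congr ?_
    have hmem : max l (s₁ - 2 * b) < s := max_lt (by linarith) (by linarith)
    filter_upwards [Ioi_mem_nhds hmem] with u hu
    by_cases hur : u < r
    · rw [if_pos hur]
      exact (hagree u ⟨hu, hur⟩).symm
    · rw [if_neg hur]

/-- extension in both directions -/
theorem extend_both {Γ : Set ℂ} (hL : Loc Γ) {b : ℝ} (hb : 0 < b)
    (hex : ∀ x ∈ Γ, ∃ d : ℝ → ℂ, d 0 = x ∧ ∀ s ∈ Ioo (-(2 * b)) (2 * b), Good Γ d s)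
    {c : ℝ → ℂ} {T : ℝ} (hT : 0 < T) (hc : ∀ s ∈ Ioo (-T) T, Good Γ c s) :
    ∃ c' : ℝ → ℂ, (∀ s ∈ Ioo (-(T + b)) (T + b), Good Γ c' s) ∧
      ∀ s ∈ Ioo (-T) T, c' s = c s := by
  obtain ⟨c₁, h1, h2⟩ := extend_right hL hb hex (by linarith) hc
  have h3 : ∀ s ∈ Ioo (-(T + b)) T, Good Γ (fun u => c₁ (0 + (-1) * u)) s := by
    intro s hs
    refine Good.aff (Or.inr rfl) (h1 _ ?_)
    exact ⟨by linarith [hs.2], by linarith [hs.1]⟩
  obtain ⟨c₂, h4, h5⟩ := extend_right hL hb hex (by linarith) h3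
  refine ⟨fun u => c₂ (0 + (-1) * u), fun s hs => ?_, fun s hs => ?_⟩
  · refine Good.aff (Or.inr rfl) (h4 _ ?_)
    exact ⟨by linarith [hs.2], by linarith [hs.1]⟩
  · show c₂ (0 + (-1) * s) = c s
    rw [h5 _ ⟨by linarith [hs.2], by linarith [hs.1]⟩]
    have h6 : (0 : ℝ) + (-1) * (0 + (-1) * s) = s := by ring
    rw [h6]
    exact h2 s hs

/-- a global unit speed curve -/
theorem exists_global {Γ : Set ℂ} (hc : IsCompact Γ) (hne : Γ.Nonempty) (hL : Loc Γ) :
    ∃ c : ℝ → ℂ, ∀ s, Good Γ c s := by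
  obtain ⟨a, ha, hex⟩ := uniform hc hL
  obtain ⟨x₀, hx₀⟩ := hne
  set b := a / 2 with hb
  have hb0 : 0 < b := by rw [hb]; linarith
  have hab : a = 2 * b := by rw [hb]; ring
  rw [hab] at hex
  obtain ⟨d, hd0, hd⟩ := hex x₀ hx₀
  have key : ∀ n : ℕ, ∃ c : ℝ → ℂ, (∀ s ∈ Ioo (-(b + n * b)) (b + n * b), Good Γ c s) ∧
      c =ᶠ[𝓝 0] d := by
    intro n
    induction n with
    | zero =>
      refine ⟨d, fun s hs => hd s ?_, EventuallyEq.rfl⟩
      simp only [Nat.cast_zero, zero_mul, add_zero] at hs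
      exact ⟨by linarith [hs.1], by linarith [hs.2]⟩
    | succ n ih =>
      obtain ⟨c, hc1, hc2⟩ := ih
      have hp : 0 < b + n * b := by positivity
      obtain ⟨c', h1, h2⟩ := extend_both hL hb0 hex hp hc1
      refine ⟨c', ?_, ?_⟩
      · have e : b + ((n + 1 : ℕ) : ℝ) * b = b + n * b + b := by push_cast; ring
        rw [e]
        exact h1
      · refine EventuallyEq.trans ?_ hc2
        exact Filter.eventually_of_mem (isOpen_Ioo.mem_nhds ⟨by linarith, hp⟩) h2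
  have key2 : ∀ T : ℝ, ∃ c : ℝ → ℂ, (∀ s ∈ Ioo (-T) T, Good Γ c s) ∧ c =ᶠ[𝓝 0] d := by
    intro T
    obtain ⟨n, hn⟩ := exists_nat_gt (T / b)
    obtain ⟨c, h1, h2⟩ := key n
    have h3 : T < n * b := by rwa [div_lt_iff₀ hb0] at hn
    exact ⟨c, fun s hs => h1 s ⟨by linarith [hs.1], by linarith [hs.2]⟩, h2⟩
  choose f hf1 hf2 using key2
  have hagree : ∀ T T' : ℝ, T ≤ T' → ∀ s ∈ Ioo (-T) T, f T s = f T' s := by
    intro T T' hT s hs
    have hT0 : 0 < T := by linarith [hs.1, hs.2]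
    have h1 : f T =ᶠ[𝓝 0] f T' := (hf2 T).trans (hf2 T').symm
    exact uniq hL (s := 0) (hf1 T) (fun u hu => hf1 T' u ⟨by linarith [hu.1], by linarith [hu.2]⟩)
      ⟨by linarith, hT0⟩ h1.eq_of_nhds h1.deriv_eq s hs
  refine ⟨fun s => f (|s| + 1) s, fun s => ?_⟩
  have h1 : Good Γ (f (|s| + 3)) s := by
    refine hf1 _ s ?_
    have := neg_abs_le s
    have := le_abs_self s
    exact ⟨by linarith, by linarith⟩
  refine h1.congr ?_
  filter_upwards [Metric.ball_mem_nhds s one_pos] with u hu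
  rw [Metric.mem_ball, Real.dist_eq] at hu
  have h2 : |u| ≤ |s| + 1 := by
    have := abs_sub_abs_le_abs_sub u s
    linarith
  refine (hagree (|u| + 1) (|s| + 3) (by linarith) u ?_).symm
  have := neg_abs_le u
  have := le_abs_self u
  exact ⟨by linarith, by linarith⟩

/-- a global curve follows every local one -/
theorem follow {Γ : Set ℂ} (hL : Loc Γ) {c g : ℝ → ℂ} (hc : ∀ s, Good Γ c s) {δ σ s : ℝ}
    (hg : ∀ u, |u| < δ → Good Γ g u) (hσ : |σ| < δ) (h : c s = g σ) :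
    ∃ ε : ℝ, (ε = 1 ∨ ε = -1) ∧ ∀ τ, |τ| < δ → c (s + ε * (τ - σ)) = g τ := by
  have hg' : ∀ u ∈ Ioo (-δ) δ, Good Γ g u := fun u hu => hg u (abs_lt.2 hu)
  have hσ' : σ ∈ Ioo (-δ) δ := abs_lt.1 hσ
  obtain ⟨ε, hε, htan⟩ := tangent hL (Eventually.of_forall hc)
    (Filter.eventually_of_mem (isOpen_Ioo.mem_nhds hσ') hg') h
  refine ⟨ε, hε, fun τ hτ => ?_⟩
  have h1 := uniq hL (c := fun u => c ((s - ε * σ) + ε * u)) (d := g) (a := -δ) (b := δ) (s := σ)
    (fun u _ => Good.aff hε (hc _)) hg' hσ' ?_ ?_ τ (abs_lt.1 hτ)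
  · rw [← h1]
    congr 1
    ring
  · show c ((s - ε * σ) + ε * σ) = g σ
    rw [sub_add_cancel, h]
  · rw [deriv_aff, sub_add_cancel, htan, smul_smul]
    rcases hε with rfl | rfl <;> simp

/-- near a point of `Γ` the range of a global curve contains everything or nothing -/
theorem range_local {Γ : Set ℂ} (hL : Loc Γ) {c : ℝ → ℂ} (hc : ∀ s, Good Γ c s) :
    ∀ y ∈ Γ, ∃ ρ > 0, ∀ z ∈ Γ, ∀ w ∈ Γ, ‖z - y‖ < ρ → ‖w - y‖ < ρ → z ∈ range c →
      w ∈ range c := by
  intro y hy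
  obtain ⟨g, δ, ρ, hδ, -, hρ, hg0, hgood, hcov, -⟩ := hL y hy
  refine ⟨ρ, hρ, ?_⟩
  rintro z hz w hw hzy hwy ⟨s, rfl⟩
  obtain ⟨σ, hσ, hgσ⟩ := hcov _ hz hzy
  obtain ⟨τ, hτ, hgτ⟩ := hcov _ hw hwy
  obtain ⟨ε, -, h⟩ := follow hL hc hgood (show |σ| < δ by linarith) hgσ.symm
  exact ⟨_, (h τ (by linarith)).trans hgτ⟩

theorem range_eq {Γ : Set ℂ} (hcon : IsConnected Γ) (hL : Loc Γ) {c : ℝ → ℂ}
    (hc : ∀ s, Good Γ c s) : range c = Γ := by
  refine Subset.antisymm (by rintro _ ⟨s, rfl⟩; exact (hc s).1) ?_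
  by_contra hne
  obtain ⟨y₀, hy₀, hy₀c⟩ := not_subset.1 hne
  choose! ρ hρ hloc using range_local hL hc
  set U : Set ℂ := ⋃ y ∈ range c, Metric.ball y (ρ y) with hU
  set V : Set ℂ := ⋃ y ∈ Γ \ range c, Metric.ball y (ρ y) with hV
  have hUo : IsOpen U := isOpen_biUnion fun _ _ => Metric.isOpen_ball
  have hVo : IsOpen V := isOpen_biUnion fun _ _ => Metric.isOpen_ball
  have hcov : Γ ⊆ U ∪ V := by
    intro y hy
    by_cases h : y ∈ range c
    · exact Or.inl (mem_biUnion h (Metric.mem_ball_self (hρ y hy)))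
    · exact Or.inr (mem_biUnion (show y ∈ Γ \ range c from ⟨hy, h⟩)
        (Metric.mem_ball_self (hρ y hy)))
  have hc0 : c 0 ∈ Γ := (hc 0).1
  obtain ⟨z, hz, hzU, hzV⟩ := hcon.isPreconnected U V hUo hVo hcov
    ⟨c 0, hc0, mem_biUnion (mem_range_self 0) (Metric.mem_ball_self (hρ _ hc0))⟩
    ⟨y₀, hy₀, mem_biUnion (show y₀ ∈ Γ \ range c from ⟨hy₀, hy₀c⟩)
      (Metric.mem_ball_self (hρ y₀ hy₀))⟩
  simp only [hU, hV, mem_iUnion, Metric.mem_ball, dist_eq_norm] at hzU hzV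
  obtain ⟨y, hy, hzy⟩ := hzU
  obtain ⟨y', hy', hzy'⟩ := hzV
  have hyΓ : y ∈ Γ := by
    obtain ⟨s, rfl⟩ := hy
    exact (hc s).1
  have h1 : z ∈ range c := hloc y hyΓ y hyΓ z hz (by rw [sub_self, norm_zero]; exact hρ y hyΓ)
    hzy hy
  exact hy'.2 (hloc y' hy'.1 z hz y' hy'.1 hzy' (by rw [sub_self, norm_zero]; exact hρ y' hy'.1)
    h1)

theorem not_inj {Γ : Set ℂ} (hcomp : IsCompact Γ) (hL : Loc Γ) {c : ℝ → ℂ}
    (hc : ∀ s, Good Γ c s) : ∃ s s', s ≠ s' ∧ c s = c s' := by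
  obtain ⟨y, hy, φ, hφ, hlim⟩ := hcomp.tendsto_subseq (x := fun n : ℕ => c (2 * n))
    fun n => (hc _).1
  obtain ⟨g, δ, ρ, hδ, hδ1, hρ, hg0, hgood, hcov, -⟩ := hL y hy
  obtain ⟨N, hN⟩ := Metric.tendsto_atTop.1 hlim ρ hρ
  have key : ∀ n ≥ N, ∃ h : ℝ, |h| < 1 / 2 ∧ c (2 * (φ n : ℝ) + h) = y := by
    intro n hn
    have h1 := hN n hn
    simp only [Function.comp_apply, dist_eq_norm] at h1
    obtain ⟨σ, hσ, hgσ⟩ := hcov _ (hc _).1 h1
    obtain ⟨ε, hε, h⟩ := follow hL hc hgood (show |σ| < δ by linarith) hgσ.symm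
    refine ⟨ε * (0 - σ), ?_, ?_⟩
    · rw [zero_sub, abs_mul, abs_neg]
      rcases hε with rfl | rfl
      · rw [abs_one, one_mul]; linarith
      · rw [abs_neg, abs_one, one_mul]; linarith
    · rw [h 0 (by rw [abs_zero]; exact hδ), hg0]
  obtain ⟨h, hh, e1⟩ := key N le_rfl
  obtain ⟨h', hh', e2⟩ := key (N + 1) (Nat.le_succ N)
  refine ⟨2 * (φ N : ℝ) + h, 2 * (φ (N + 1) : ℝ) + h', ?_, e1.trans e2.symm⟩
  have h3 : (φ N : ℝ) + 1 ≤ φ (N + 1) := by
    exact_mod_cast hφ (Nat.lt_succ_self N)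
  have h4 := abs_lt.1 hh
  have h5 := abs_lt.1 hh'
  intro h6
  linarith [h4.1, h4.2, h5.1, h5.2]

theorem periods {Γ : Set ℂ} (hL : Loc Γ) {c : ℝ → ℂ} (hc : ∀ s, Good Γ c s) {s s' : ℝ}
    (h : c s = c s') : ∀ u, c (u + (s' - s)) = c u := by
  have huniv : ∀ d : ℝ → ℂ, (∀ s, Good Γ d s) → d s = c s → deriv d s = deriv c s →
      ∀ u, d u = c u := by
    intro d hd h1 h2 u
    refine uniq hL (a := -(|s| + |u| + 1)) (b := |s| + |u| + 1) (s := s) (fun u _ => hd u)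
      (fun u _ => hc u) ?_ h1 h2 u ?_
    · have := neg_abs_le s
      have := le_abs_self s
      have := abs_nonneg u
      exact ⟨by linarith, by linarith⟩
    · have := neg_abs_le u
      have := le_abs_self u
      have := abs_nonneg s
      exact ⟨by linarith, by linarith⟩
  obtain ⟨ε, hε, htan⟩ := tangent hL (Eventually.of_forall hc) (Eventually.of_forall hc) h
  rcases hε with rfl | rfl
  · intro u
    have h1 := huniv (fun u => c ((s' - s) + 1 * u)) (fun s => Good.aff (Or.inl rfl) (hc _))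
      (by simp [h]) (by rw [deriv_aff, htan]; simp) u
    rw [← h1]
    congr 1
    ring
  · exfalso
    have h1 := huniv (fun u => c ((s' + s) + (-1) * u)) (fun s => Good.aff (Or.inr rfl) (hc _))
      (by simp [h]) (by rw [deriv_aff, htan]; simp)
    have h2 : deriv (fun u => c ((s' + s) + (-1) * u)) ((s' + s) / 2) =
        deriv c ((s' + s) / 2) := by
      congr 1
      exact funext h1
    rw [deriv_aff] at h2
    have h3 : (s' + s) + (-1) * ((s' + s) / 2) = (s' + s) / 2 := by ring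
    rw [h3, neg_one_smul] at h2
    have h4 := (hc ((s' + s) / 2)).2.2.2
    have h5 : deriv c ((s' + s) / 2) = 0 := self_eq_neg.1 h2.symm
    rw [h5, norm_zero] at h4
    exact zero_ne_one h4

/-- the group of periods -/
def per (c : ℝ → ℂ) : AddSubgroup ℝ where
  carrier := {T | ∀ u, c (u + T) = c u}
  zero_mem' := fun u => by rw [add_zero]
  add_mem' := by
    intro a b ha hb u
    rw [← add_assoc, hb, ha]
  neg_mem' := by
    intro a ha u
    rw [← ha (u + -a), neg_add_cancel_right]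

theorem scc_of_loc {Γ : Set ℂ} (hcomp : IsCompact Γ) (hcon : IsConnected Γ) (hL : Loc Γ) :
    SimpleClosedCurve Γ := by
  obtain ⟨c, hc⟩ := exists_global hcomp hcon.nonempty hL
  have hcc : Continuous c := continuous_iff_continuousAt.2 fun s => (hc s).2.1.continuousAt
  have hclosed : IsClosed (per c : Set ℝ) := by
    have h1 : (per c : Set ℝ) = ⋂ u : ℝ, {T | c (u + T) = c u} := by
      ext T
      simp only [mem_iInter, mem_setOf_eq]
      exact Iff.rfl
    rw [h1]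
    exact isClosed_iInter fun u => isClosed_eq (by fun_prop) continuous_const
  obtain ⟨s, s', hss, hcs⟩ := not_inj hcomp hL hc
  have hper : s' - s ∈ per c := periods hL hc hcs
  rcases AddSubgroup.dense_or_cyclic (per c) with hd | ⟨L, hLL⟩
  · exfalso
    have h1 : (per c : Set ℝ) = univ := by
      rw [← hclosed.closure_eq]
      exact hd.closure_eq
    have h2 : ∀ u, c u = c 0 := fun u => by
      have h3 : u ∈ (per c : Set ℝ) := by rw [h1]; exact mem_univ u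
      have h4 := h3 0
      rwa [zero_add] at h4
    have h5 : c = fun _ => c 0 := funext h2
    have h6 := (hc 0).2.2.2
    rw [h5, deriv_const, norm_zero] at h6
    exact zero_ne_one h6
  · rw [← AddSubgroup.zmultiples_eq_closure] at hLL
    have hL0 : L ≠ 0 := by
      rintro rfl
      rw [hLL, AddSubgroup.zmultiples_zero_eq_bot, AddSubgroup.mem_bot] at hper
      exact hss (by linarith)
    have hLper : Function.Periodic c L := by
      have h1 : L ∈ per c := by rw [hLL]; exact AddSubgroup.mem_zmultiples L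
      exact h1
    have hcont : Continuous (hLper.lift) := by
      refine continuous_quot_lift _ ?_
      exact hcc
    have hinj : Function.Injective hLper.lift := by
      intro a b
      induction a using QuotientAddGroup.induction_on with | _ a
      induction b using QuotientAddGroup.induction_on with | _ b
      intro hab
      have h1 : c a = c b := hab
      have h2 : b - a ∈ per c := periods hL hc h1
      rw [hLL] at h2
      refine QuotientAddGroup.eq.2 ?_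
      rwa [neg_add_eq_sub]
    refine ⟨fun z => hLper.lift ((AddCircle.homeomorphCircle hL0).symm z), ?_, ?_, ?_⟩
    · exact hcont.comp (AddCircle.homeomorphCircle hL0).symm.continuous
    · exact hinj.comp (AddCircle.homeomorphCircle hL0).symm.injective
    · rw [← range_eq hcon hL hc]
      refine Subset.antisymm ?_ ?_
      · rintro _ ⟨z, rfl⟩
        obtain ⟨a, ha⟩ := QuotientAddGroup.mk_surjective ((AddCircle.homeomorphCircle hL0).symm z)
        refine ⟨a, ?_⟩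
        show c a = hLper.lift ((AddCircle.homeomorphCircle hL0).symm z)
        rw [← ha]
        rfl
      · rintro _ ⟨a, rfl⟩
        refine ⟨AddCircle.homeomorphCircle hL0 (a : AddCircle L), ?_⟩
        show hLper.lift ((AddCircle.homeomorphCircle hL0).symm
          (AddCircle.homeomorphCircle hL0 (a : AddCircle L))) = c a
        rw [Homeomorph.symm_apply_apply]
        rfl

end SCC

/-- TARGET: a compact connected set which is locally a graph is a simple closed curve. -/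
theorem scc_of_graph {Γ : Set ℂ} (hc : IsCompact Γ) (hcon : IsConnected Γ)
    (hloc : ∀ q ∈ Γ, ∃ (e : ℂ) (δ : ℝ) (ψ : ℝ → ℝ), ‖e‖ = 1 ∧ 0 < δ ∧ ContDiff ℝ 2 ψ ∧ ψ 0 = 0 ∧
      (∀ t, |t| < δ → |deriv ψ t| ≤ 1 / 2) ∧
      ∀ t s : ℝ, |t| < δ → |s| < δ → (q + (t + s * Complex.I) * e ∈ Γ ↔ s = ψ t)) :
    SimpleClosedCurve Γ := by
  refine SCC.scc_of_loc hc hcon fun q hq => ?_
  obtain ⟨e, δ, ψ, he, hδ, hψ, hψ0, hsl, hmem⟩ := hloc q hq
  exact SCC.local_param he hδ hψ hψ0 hsl hmem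

end Pool.Agent.Helper327_Drum
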