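import Pool.Agent.Helper327_Drum.Fin.AS7
import Pool.Agent.Helper327_Drum.Fin.ST2
import Pool.Agent.Helper327_Drum.Fin.ST3

/-
JOB SY10 (owner helper327, problem MP_d92c84_an). All imports are on origin/main.
-/

set_option autoImplicit false
open MeasureTheory Set Filter Topology ComplexConjugate
open scoped ContDiff InnerProductSpace

namespace Pool.Agent.Helper327_Drum

open Pool.Agent.TH298.Sch (dd SC X er Lr)
open Pool.Agent.R227.SA (la Wat Dat)

/-- Two different closed curves of critical points of an eigenfunction are disjoint. -/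
theorem crit_curves_disjoint {R γ γ' : Set ℂ} {lam : ℝ} {u : ℂ → ℝ} (hR : SimpleClosedCurve R)
    (hγ : SimpleClosedCurve γ) (hγ' : SimpleClosedCurve γ') (hlam : 0 < lam)
    (hu : Wat (inside R) lam u) (hu0 : ∃ x, u x ≠ 0) (hsub : γ ⊆ inside R)
    (hsub' : γ' ⊆ inside R)
    (hcr : ∀ x ∈ γ, fderiv ℝ u x = 0) (hcr' : ∀ x ∈ γ', fderiv ℝ u x = 0) (hne : γ ≠ γ') :
    Disjoint γ γ' := by
  rw [Set.disjoint_iff_inter_eq_empty]
  by_contra hx
  obtain ⟨x₀, hx⟩ := nonempty_iff_ne_empty.2 hx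
  obtain ⟨hRc, hRcon, hRinf⟩ := scc_basic hR
  obtain ⟨hDo, hDb, hfr, hcl, hdj⟩ := inside_basic hRc
  obtain ⟨hDc, -, -⟩ := inside_jordan hR ⟨x₀, hsub hx.1⟩
  obtain ⟨-, hcon, hinf⟩ := scc_basic hγ
  obtain ⟨-, hcon', -⟩ := scc_basic hγ'
  set crit : Set ℂ := {x | x ∈ inside R ∧ fderiv ℝ u x = 0} with hcrit
  have hK : IsPreconnected (γ ∪ γ') :=
    hcon.isPreconnected.union x₀ hx.1 hx.2 hcon'.isPreconnected
  have hKc : γ ∪ γ' ⊆ crit := by
    rintro x (hx | hx)
    · exact ⟨hsub hx, hcr x hx⟩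
    · exact ⟨hsub' hx, hcr' x hx⟩
  have hacc : AccPt x₀ (𝓟 crit) :=
    (hK.preperfect_of_nontrivial (hinf.nontrivial.mono subset_union_left) x₀
      (Or.inl hx.1)).mono (principal_mono.2 hKc)
  obtain ⟨Γ, hΓc, hΓcon, hx₀Γ, hΓD, hΓcr, hΓu, hloc⟩ :=
    crit_component hDo hDb hDc.isPreconnected hlam hu hu0 (hsub hx.1) hacc
  have hscc : SimpleClosedCurve Γ := by
    refine scc_of_graph hΓc hΓcon fun q hq => ?_
    obtain ⟨e, δ, ψ, h1, h2, h3, h4, h5, h6, h7, h8⟩ := hloc q hq
    exact ⟨e, δ, ψ, h1, h2, h3, h5, h6, fun t s ht hs => (h8 t s ht hs).2⟩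
  have hloc' : ∀ q ∈ Γ, ∃ (e : ℂ) (δ : ℝ) (ψ : ℝ → ℝ), ‖e‖ = 1 ∧ 0 < δ ∧
      AnalyticAt ℝ ψ 0 ∧ ψ 0 = 0 ∧ ∀ t s : ℝ, |t| < δ → |s| < δ →
        ((q + (t + s * Complex.I) * e ∈ crit ↔ s = ψ t) ∧
          (q + (t + s * Complex.I) * e ∈ Γ ↔ s = ψ t)) := by
    intro q hq
    obtain ⟨e, δ, ψ, h1, h2, h3, h4, h5, h6, h7, h8⟩ := hloc q hq
    refine ⟨e, δ, ψ, h1, h2, h4, h5, fun t s ht hs => ⟨?_, (h8 t s ht hs).2⟩⟩
    rw [← (h8 t s ht hs).1]
    exact ⟨fun hx => hx.2, fun hx => ⟨h7 ⟨t, s, ht, hs, rfl⟩, hx⟩⟩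
  obtain ⟨O, hO, hΓO, hOe⟩ := component_isolated hloc'
  have hKΓ : γ ∪ γ' ⊆ Γ := by
    intro x hxK
    by_contra hxγ
    obtain ⟨y, hyK, hyO, hyγ⟩ := hK O Γᶜ hO hΓc.isClosed.isOpen_compl
      (fun y _ => (em (y ∈ Γ)).imp (fun h => hΓO h) id) ⟨x₀, Or.inl hx.1, hΓO hx₀Γ⟩
      ⟨x, hxK, hxγ⟩
    exact hyγ (by rw [← hOe]; exact ⟨hKc hyK, hyO⟩)
  exact hne ((scc_eq hscc hγ (subset_union_left.trans hKΓ)).trans
    (scc_eq hscc hγ' (subset_union_right.trans hKΓ)).symm)

/-- TARGET: two closed curves of critical points. -/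
theorem two_curves {R γ γ' : Set ℂ} {lam k k' : ℝ} {u : ℂ → ℝ} (hR : SimpleClosedCurve R)
    (hγ : SimpleClosedCurve γ) (hγ' : SimpleClosedCurve γ') (hlam : 0 < lam)
    (hu : Wat (inside R) lam u) (hu0 : ∃ x, u x ≠ 0) (hsub : γ ⊆ inside R)
    (hsub' : γ' ⊆ inside R) (hk : k ≠ 0) (huk : ∀ x ∈ γ, u x = k)
    (hcr : ∀ x ∈ γ, fderiv ℝ u x = 0) (hk' : k' ≠ 0) (huk' : ∀ x ∈ γ', u x = k')
    (hcr' : ∀ x ∈ γ', fderiv ℝ u x = 0) (hne : γ ≠ γ') :
    dirichletEigenvalue 8 (inside R) < lam := by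
  obtain ⟨hRc, hRcon, hRinf⟩ := scc_basic hR
  obtain ⟨hDo, hDb, hfr, hcl, hdj⟩ := inside_basic hRc
  obtain ⟨hγc, hγcon, hγinf⟩ := scc_basic hγ
  obtain ⟨hγc', hγcon', hγinf'⟩ := scc_basic hγ'
  obtain ⟨-, -, -, -, hγdj⟩ := inside_basic hγc
  obtain ⟨-, -, -, -, hγdj'⟩ := inside_basic hγc'
  have hDne : (inside R).Nonempty := hγinf.nonempty.mono hsub
  obtain ⟨hDc, hDfr, hDreg⟩ := inside_jordan hR hDne
  -- the inner curve
  have hself : ∀ δ : Set ℂ, SimpleClosedCurve δ → ¬ δ ⊆ inside δ := by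
    intro δ hδ h
    obtain ⟨hδc, hδcon, hδinf⟩ := scc_basic hδ
    obtain ⟨-, -, -, -, hδdj⟩ := inside_basic hδc
    obtain ⟨x, hx⟩ := hδinf.nonempty
    first
      | exact disjoint_left.1 hδdj hx (h hx)
      | exact disjoint_left.1 hδdj (h hx) hx
  set γs : Fin 2 → Set ℂ := ![γ, γ'] with hγs
  set ks : Fin 2 → ℝ := ![k, k'] with hks
  have hscc : ∀ i, SimpleClosedCurve (γs i) := by
    intro i; fin_cases i
    · exact hγ
    · exact hγ'
  have hsubs : ∀ i, γs i ⊆ inside R := by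
    intro i; fin_cases i
    · exact hsub
    · exact hsub'
  have hkk : ∀ i, ks i ≠ 0 := by
    intro i; fin_cases i
    · exact hk
    · exact hk'
  have huks : ∀ i, ∀ x ∈ γs i, u x = ks i := by
    intro i; fin_cases i
    · exact huk
    · exact huk'
  have hcrs : ∀ i, ∀ x ∈ γs i, fderiv ℝ u x = 0 := by
    intro i; fin_cases i
    · exact hcr
    · exact hcr'
  have hinj : Function.Injective γs := by
    intro i j hij
    fin_cases i <;> fin_cases j
    · rfl
    · exact absurd hij hne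
    · exact absurd hij.symm hne
    · rfl
  obtain ⟨M, hMc, hM⟩ : ∃ M : Finset (Fin 2), M.card = 1 ∧
      ∀ i ∈ M, ∀ j, ¬ γs j ⊆ inside (γs i) := by
    by_cases hin : γ' ⊆ inside γ
    · refine ⟨{1}, rfl, ?_⟩
      intro i hi j
      rw [Finset.mem_singleton] at hi
      subst hi
      fin_cases j
      · intro h
        exact hself γ hγ (Subset.trans (show γ ⊆ inside γ' from h) (inside_sub hγc hγcon hin))
      · exact hself γ' hγ'
    · refine ⟨{0}, rfl, ?_⟩
      intro i hi j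
      rw [Finset.mem_singleton] at hi
      subst hi
      fin_cases j
      · exact hself γ hγ
      · exact hin
  obtain ⟨i₀, hi₀⟩ : M.Nonempty := by
    rw [← Finset.card_pos, hMc]; norm_num
  have hdat := fun i => crit_dat hR (hscc i) hlam hu (hsubs i) (hkk i) (huks i) (hcrs i)
  have hb := fun i => inside_basic (scc_basic (hscc i)).1
  have hj := fun i => inside_jordan (hscc i) (hdat i).1
  have hl : 1 ≤ 2 := by norm_num
  have goal' : dirichletEigenvalue (3 * 2 + 2 * M.card) (inside R) < lam := by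
    by_cases hdisc : ∃ i, ∃ (p : ℂ) (r : ℝ), 0 < r ∧ inside (γs i) = Metric.ball p r
    · obtain ⟨i, p, r, hr, hball⟩ := hdisc
      obtain ⟨ρ, h2, h3, h4, h5, h6, h7, h8⟩ :=
        disc_case hR (hscc i) hlam hu (hsubs i) (hkk i) (huks i) (hcrs i) hr hball
      have h9 := fun j => concentric hR (hscc i) (hscc j) hlam hu (hsubs i) (hsubs j) (hkk i)
        (huks i) (hcrs i) (hkk j) (huks j) (hcrs j) hr hball
      choose s hs hγsj hBs using h9
      have hsρ : ∀ j, s j < ρ := by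
        intro j
        have e1 : p + (s j : ℂ) ∈ γs j := by
          rw [hγsj, mem_sphere_iff_norm, add_sub_cancel_left, Complex.norm_real, Real.norm_eq_abs,
            abs_of_pos (hs j)]
        have e2 := hsubs j e1
        rw [h4, mem_ball_iff_norm, add_sub_cancel_left, Complex.norm_real, Real.norm_eq_abs,
          abs_of_pos (hs j)] at e2
        exact e2
      have hsinj : Function.Injective s := by
        intro a b hab
        apply hinj
        rw [hγsj a, hγsj b, hab]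
      rw [hMc, h4]
      exact radial_family_index hl s (fun j => ⟨hs j, hsρ j⟩) hsinj hlam h6 hBs
    · push Not at hdisc
      refine family_index hDo hDb hDc.isPreconnected hlam hu hu0 hl (fun i => inside (γs i)) _ ks
        (fun i => (hdat i).2) hkk (fun i => (hb i).1) (fun i => (hj i).1) (fun i => (hj i).2.2)
        (fun i => (inside_compl (scc_basic (hscc i)).1 (scc_basic (hscc i)).2.1).1.isPreconnected)
        ?_ ?_ ?_ ?_ M ?_
      · intro i
        rw [closure_inside (hscc i) (hdat i).1]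
        exact union_subset (inside_sub hRc hRcon (hsubs i)) (hsubs i)
      · intro i j hij
        exact scc_rel (hscc i) (hscc j)
          (crit_curves_disjoint hR (hscc i) (hscc j) hlam hu hu0 (hsubs i) (hsubs j) (hcrs i)
            (hcrs j) (hinj.ne hij)) (hdat i).1 (hdat j).1
      · by_contra hE'
        rw [not_nonempty_iff_eq_empty, sdiff_eq_empty] at hE'
        have hcl' : ∀ i, closure (inside (γs i)) ⊆ inside R := by
          intro i
          rw [closure_inside (hscc i) (hdat i).1]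
          exact union_subset (inside_sub hRc hRcon (hsubs i)) (hsubs i)
        have e1 : inside R = ⋃ i, closure (inside (γs i)) :=
          Subset.antisymm hE' (iUnion_subset hcl')
        have e2 : IsClosed (inside R) := by
          rw [e1]
          exact isClosed_iUnion_of_finite fun i => isClosed_closure
        rcases isClopen_iff.1 ⟨e2, hDo⟩ with e3 | e3
        · exact hDne.ne_empty e3
        · rw [e3] at hDb
          exact (NormedSpace.unbounded_univ ℝ ℂ) hDb
      · rintro i ⟨p, r, hr, hball⟩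
        exact hdisc i p r hr hball
      · intro i hi j hji hsub'
        refine hM i hi j ?_
        refine Subset.trans ?_ hsub'
        rw [closure_inside (hscc j) (hdat j).1]
        exact subset_union_right
  rw [hMc] at goal'
  exact goal'

end Pool.Agent.Helper327_Drum
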