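import Pool.Agent.TH298.Sch.Rot1
import Pool.Agent.R227.SA19
import Pool.Agent.Helper327_Drum.OpDefs

set_option autoImplicit false
open MeasureTheory Set Filter Topology
open scoped ContDiff InnerProductSpace

namespace Pool.Agent.Helper327_Drum

open Pool.Agent.TH298.Sch (dd SC)
open Pool.Agent.R227.SA (la Wat Dat)

open Pool.Agent.TH298.Sch (X er Lr)

/-! #### auxiliary lemmas -/

/-- directional derivatives of smooth functions commute -/
lemma j845_dd_comm {U : ℂ → ℝ} (hU : SC U) (a b : ℂ) (x : ℂ) :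
    dd a (dd b U) x = dd b (dd a U) x := by
  have h2 : ContDiff ℝ (⊤ : ℕ∞) (fderiv ℝ U) := hU.sm.fderiv_right (by simp)
  have h3 : HasFDerivAt (fderiv ℝ U) (fderiv ℝ (fderiv ℝ U) x) x :=
    ((h2.differentiable (by simp)) x).hasFDerivAt
  have h5 : ∀ v, HasFDerivAt (dd v U) ((fderiv ℝ U x).comp (0 : ℂ →L[ℝ] ℂ) +
      (fderiv ℝ (fderiv ℝ U) x).flip v) x := fun v => h3.clm_apply (hasFDerivAt_const v x)
  have hsym : fderiv ℝ (fderiv ℝ U) x a b = fderiv ℝ (fderiv ℝ U) x b a :=
    second_derivative_symmetric (fun y => (hU.diff y).hasFDerivAt) h3 a b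
  have k : ∀ v w, dd w (dd v U) x = fderiv ℝ (fderiv ℝ U) x w v := by
    intro v w
    change fderiv ℝ (dd v U) x w = _
    rw [(h5 v).fderiv]
    simp
  rw [k, k, hsym]

lemma j845_dd_add {f g : ℂ → ℝ} (hf : SC f) (hg : SC g) (v x : ℂ) :
    dd v (fun y => f y + g y) x = dd v f x + dd v g x := by
  unfold dd
  rw [fderiv_fun_add (hf.diff x) (hg.diff x)]
  rfl

lemma j845_dd_smul {g : ℂ → ℝ} (hg : SC g) (b : ℝ) (v x : ℂ) :
    dd v (fun y => b * g y) x = b * dd v g x := by
  unfold dd
  rw [fderiv_const_mul (hg.diff x)]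
  simp

lemma j845_smul_sc {g : ℂ → ℝ} (hg : SC g) (b : ℝ) : SC (fun y => b * g y) :=
  ⟨contDiff_const.mul hg.sm, hg.cs.mul_left⟩

lemma j845_la_add {f g : ℂ → ℝ} (hf : SC f) (hg : SC g) (x : ℂ) :
    la (fun y => f y + g y) x = la f x + la g x := by
  unfold la
  have e : ∀ v, dd v (fun y => f y + g y) = fun y => dd v f y + dd v g y := fun v =>
    funext fun y => j845_dd_add hf hg v y
  rw [e, e, j845_dd_add (Pool.Agent.TH298.Sch.dd_sc hf _) (Pool.Agent.TH298.Sch.dd_sc hg _),
    j845_dd_add (Pool.Agent.TH298.Sch.dd_sc hf _) (Pool.Agent.TH298.Sch.dd_sc hg _)]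
  ring

lemma j845_la_smul {g : ℂ → ℝ} (hg : SC g) (b : ℝ) (x : ℂ) :
    la (fun y => b * g y) x = b * la g x := by
  unfold la
  have e : ∀ v, dd v (fun y => b * g y) = fun y => b * dd v g y := fun v =>
    funext fun y => j845_dd_smul hg b v y
  rw [e, e, j845_dd_smul (Pool.Agent.TH298.Sch.dd_sc hg _),
    j845_dd_smul (Pool.Agent.TH298.Sch.dd_sc hg _)]
  ring

lemma j845_la_dd {U : ℂ → ℝ} (hU : SC U) (a x : ℂ) : la (dd a U) x = dd a (la U) x := by
  have e : ∀ v, dd v (dd v (dd a U)) x = dd a (dd v (dd v U)) x := by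
    intro v
    have e1 : dd v (dd a U) = dd a (dd v U) := funext fun y => j845_dd_comm hU v a y
    rw [e1, j845_dd_comm (Pool.Agent.TH298.Sch.dd_sc hU v)]
  have e2 : dd a (la U) x = dd a (dd 1 (dd 1 U)) x + dd a (dd Complex.I (dd Complex.I U)) x :=
    j845_dd_add (Pool.Agent.TH298.Sch.dd_sc (Pool.Agent.TH298.Sch.dd_sc hU 1) 1)
      (Pool.Agent.TH298.Sch.dd_sc (Pool.Agent.TH298.Sch.dd_sc hU Complex.I) Complex.I) a x
  rw [e2, ← e, ← e]
  rfl

lemma j845_split (T : ℂ →L[ℝ] ℝ) (a : ℂ) (b : ℝ) (x : ℂ) :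
    T (a + b * Complex.I * x) = T a + b * T (Complex.I * x) := by
  rw [map_add]
  have : (b : ℂ) * Complex.I * x = b • (Complex.I * x) := by
    rw [Complex.real_smul]
    ring
  rw [this, map_smul, smul_eq_mul]

/-
`Dat Ω lam c v` (Pool.Agent.R227.SA9), `Wat` (R227.SA10), `Dat.wat`, `Dat.disc`, `Dat.trans`, `Wat.uc` (R227.SA13), `Dat.crit`.
`Lr f x = fderiv ℝ f x (I * x)`.
Plain proof. Each directional or rotational derivative x ↦ fderiv v x (a + b I x) of v is in Wat Ω lam (for the rotational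
one about 0 this is `Dat.wat`; the translations are similar and easier: replace v locally by the smooth U, v + c = U; linear
combinations are fine; another way: `Dat.trans` and the rotation about another point).
-/

/-- TARGET 1: infinitesimal motions of the solution are solutions vanishing on the boundary. -/
theorem kill_wat {Ω : Set ℂ} {lam c : ℝ} {v : ℂ → ℝ} (D : Dat Ω lam c v) (a : ℂ) (b : ℝ) :
    Wat Ω lam (fun x => fderiv ℝ v x (a + b * Complex.I * x)) := by
  refine ⟨?_, fun x hx => ?_, fun x₀ hx₀ => ?_⟩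
  · exact (D.c1.continuous_fderiv (by norm_num)).clm_apply (by fun_prop)
  · rw [D.outd x hx]
    simp
  · obtain ⟨r, hr, U, hU, hb, h⟩ := D.loc x₀ hx₀
    refine ⟨r, hr, fun x => dd a U x + b * Lr U x,
      (Pool.Agent.TH298.Sch.dd_sc hU a).add (j845_smul_sc (Pool.Agent.TH298.Sch.Lr_sc hU) b), hb,
      fun x hx => ?_⟩
    have hn := Metric.isOpen_ball.mem_nhds hx
    constructor
    · have h1 : v =ᶠ[𝓝 x] fun y => U y - c := by
        filter_upwards [hn] with y hy
        rw [← (h y hy).1]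
        ring
      rw [h1.fderiv_eq, fderiv_sub_const, j845_split]
      rfl
    · rw [j845_la_add (Pool.Agent.TH298.Sch.dd_sc hU a)
          (j845_smul_sc (Pool.Agent.TH298.Sch.Lr_sc hU) b),
        j845_la_smul (Pool.Agent.TH298.Sch.Lr_sc hU), j845_la_dd hU,
        Pool.Agent.R227.SA.la_Lr hU]
      have h1 : la U =ᶠ[𝓝 x] fun y => -(lam * U y) := by
        filter_upwards [hn] with y hy
        exact (h y hy).2
      unfold Lr dd
      rw [h1.fderiv_eq]
      have h2 : HasFDerivAt (fun y => -(lam * U y)) (-(lam • fderiv ℝ U x)) x :=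
        (((hU.diff x).hasFDerivAt).const_mul lam).neg
      rw [h2.fderiv]
      simp
      ring

/-- a solution is not locally zero in the domain -/
lemma j845_not_zero {Ω : Set ℂ} {lam c : ℝ} {v : ℂ → ℝ} (D : Dat Ω lam c v) (hlam : 0 < lam)
    (hc : c ≠ 0) {z : ℂ} (hz : z ∈ Ω) (hv0 : v =ᶠ[𝓝 z] fun _ => 0) : False := by
  obtain ⟨r, hr, U, hU, hbU, h⟩ := D.loc z hz
  have h3 : U =ᶠ[𝓝 z] fun _ => c := by
    filter_upwards [Metric.ball_mem_nhds z hr, hv0] with y hy hy0
    rw [← (h y hy).1, hy0, zero_add]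
  have h2 := (h z (Metric.mem_ball_self hr)).2
  have h4 : ∀ v, dd v (dd v U) z = 0 := by
    intro v
    have h5 : dd v U =ᶠ[𝓝 z] fun _ => 0 := by
      filter_upwards [h3.fderiv (𝕜 := ℝ)] with y hy
      unfold dd
      rw [hy]
      simp
    unfold dd at h5 ⊢
    rw [h5.fderiv_eq]
    simp
  unfold la at h2
  rw [h4, h4, h3.self_of_nhds] at h2
  have : lam * c = 0 := by linarith
  rcases mul_eq_zero.1 this with h | h
  · linarith
  · exact hc h

/-- rotationally symmetric data: the function -/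
lemma j845_rad {Ω : Set ℂ} {lam c : ℝ} {v : ℂ → ℝ} (D : Dat Ω lam c v)
    (hw : ∀ x, Lr v x = 0) (ζ x : ℂ) (hζ : ‖ζ‖ = 1) : v (ζ * x) = v x := by
  have hd : ∀ t : ℝ, HasDerivAt (fun t : ℝ => v (Complex.exp (t * Complex.I) * x)) 0 t := by
    intro t
    have h1 : HasDerivAt (fun t : ℝ => Complex.exp (t * Complex.I) * x)
        (Complex.I * (Complex.exp (t * Complex.I) * x)) t := by
      have h2 : HasDerivAt (fun t : ℝ => (t : ℂ) * Complex.I) Complex.I t := by
        simpa using (Complex.ofRealCLM.hasDerivAt (x := t)).mul_const Complex.I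
      refine (h2.cexp.mul_const x).congr_deriv ?_
      ring
    have h3 := ((D.c1.differentiable (by norm_num)) (Complex.exp (t * Complex.I) * x)).hasFDerivAt
    have h4 := h3.comp_hasDerivAt t h1
    refine h4.congr_deriv ?_
    exact hw _
  have h5 := is_const_of_deriv_eq_zero (fun t => (hd t).differentiableAt) (fun t => (hd t).deriv)
    (Complex.arg ζ) 0
  have h6 : Complex.exp (Complex.arg ζ * Complex.I) = ζ := by
    have := Complex.norm_mul_exp_arg_mul_I ζ
    rwa [hζ, Complex.ofReal_one, one_mul] at this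
  simp only [h6, Complex.ofReal_zero, zero_mul, Complex.exp_zero, one_mul] at h5
  exact h5

/-- rotationally symmetric data: the domain -/
lemma j845_inv {Ω : Set ℂ} {lam c : ℝ} {v : ℂ → ℝ} (D : Dat Ω lam c v) (ho : IsOpen Ω)
    (hreg : interior (closure Ω) = Ω) (hlam : 0 < lam) (hc : c ≠ 0)
    (hw : ∀ x, Lr v x = 0) (ζ x : ℂ) (hζ : ‖ζ‖ = 1) (hx : x ∈ Ω) : ζ * x ∈ Ω := by
  by_contra hcon'
  have hζ0 : ζ ≠ 0 := by
    intro h
    rw [h, norm_zero] at hζ
    norm_num at hζ
  have h1 : ζ * x ∈ closure ((closure Ω)ᶜ) := by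
    rw [closure_compl, hreg]
    exact hcon'
  -- points near `ζ x` in the exterior
  have hcont : Continuous fun y : ℂ => ζ⁻¹ * y := by fun_prop
  have hpre : IsOpen ((fun y : ℂ => ζ⁻¹ * y) ⁻¹' Ω) := ho.preimage hcont
  have hmem : ζ * x ∈ (fun y : ℂ => ζ⁻¹ * y) ⁻¹' Ω := by
    change ζ⁻¹ * (ζ * x) ∈ Ω
    rw [inv_mul_cancel_left₀ hζ0]
    exact hx
  obtain ⟨y, hy1, hy2⟩ := mem_closure_iff.1 h1 _ hpre hmem
  set z := ζ⁻¹ * y with hz
  have hzΩ : z ∈ Ω := hy1
  have hζz : ζ * z = y := by rw [hz, mul_inv_cancel_left₀ hζ0]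
  have hEo : IsOpen (closure Ω)ᶜ := isClosed_closure.isOpen_compl
  have hv0 : v =ᶠ[𝓝 z] fun _ => 0 := by
    have hopen : IsOpen ((fun y : ℂ => ζ * y) ⁻¹' (closure Ω)ᶜ) := hEo.preimage (by fun_prop)
    have hzm : z ∈ (fun y : ℂ => ζ * y) ⁻¹' (closure Ω)ᶜ := by
      change ζ * z ∈ (closure Ω)ᶜ
      rw [hζz]
      exact hy2
    filter_upwards [hopen.mem_nhds hzm] with t ht
    rw [← j845_rad D hw ζ t hζ]
    exact D.out _ fun h => (show ζ * t ∉ closure Ω from ht) (subset_closure h)
  exact j845_not_zero D hlam hc hzΩ hv0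

/-
Plain proof. Case b = 0: v has compact support (0 off the bounded set Ω) and is constant along all lines of direction a ≠ 0,
so v = 0; then near a point of Ω U = c is constant with 0 = la U = -lam c ≠ 0, a contradiction.
Case b ≠ 0: with q = a I / b (so that a + b I x = b I (x - q)) v is invariant under rotations about q on the whole plane.
v does not vanish identically on any nonempty open subset of Ω (same contradiction: la U = -lam c). So the closure of {v ≠ 0}
is the closure of Ω and is invariant under rotations about q, and so is Ω = interior (closure Ω). Ω is not empty; let x ∈ Ω;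
the circle about q through x lies in Ω. If q were not in Ω then the connected unbounded set Ωᶜ (unbounded as Ω is bounded)
would contain q and points far away, so it would meet that circle (or q = x): contradiction. So q ∈ Ω, and `Dat.disc` applied to
`Dat.trans q` gives that Ω is a disc.
-/

/-- TARGET 2: only discs have a solution with a symmetry. -/
theorem kill_disc {Ω : Set ℂ} {lam c : ℝ} {v : ℂ → ℝ} (D : Dat Ω lam c v) (ho : IsOpen Ω)
    (hb : Bornology.IsBounded Ω) (hne : Ω.Nonempty) (hcon : IsPreconnected Ω)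
    (hreg : interior (closure Ω) = Ω) (hcc : IsPreconnected Ωᶜ) (hlam : 0 < lam) (hc : c ≠ 0)
    {a : ℂ} {b : ℝ} (hab : a ≠ 0 ∨ b ≠ 0)
    (h : ∀ x, fderiv ℝ v x (a + b * Complex.I * x) = 0) :
    ∃ (p : ℂ) (r : ℝ), 0 < r ∧ Ω = Metric.ball p r := by
  obtain ⟨x0, hx0⟩ := hne
  obtain ⟨C, hC⟩ := hb.exists_norm_le
  have hC0 : 0 ≤ C := (norm_nonneg _).trans (hC x0 hx0)
  by_cases hb0 : b = 0
  · -- translation symmetry
    exfalso
    have ha : a ≠ 0 := by
      rcases hab with h | h
      · exact h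
      · exact (h hb0).elim
    have han : 0 < ‖a‖ := norm_pos_iff.2 ha
    have hz : ∀ x, v x = 0 := by
      intro x
      have hd : ∀ t : ℝ, HasDerivAt (fun t : ℝ => v (x + t * a)) 0 t := by
        intro t
        have h1 : HasDerivAt (fun t : ℝ => x + t * a) a t := by
          have := ((Complex.ofRealCLM.hasDerivAt (x := t)).mul_const a).const_add x
          simpa using this
        have h3 := ((D.c1.differentiable (by norm_num)) (x + t * a)).hasFDerivAt
        have h4 := h3.comp_hasDerivAt t h1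
        refine h4.congr_deriv ?_
        have := h (x + t * a)
        rw [hb0] at this
        simpa using this
      have h5 := is_const_of_deriv_eq_zero (fun t => (hd t).differentiableAt)
        (fun t => (hd t).deriv) 0 ((C + ‖x‖ + 1) / ‖a‖)
      simp only [Complex.ofReal_zero, zero_mul, add_zero] at h5
      rw [h5]
      refine D.out _ fun hin => ?_
      have h6 := hC _ hin
      have h7 : ‖(((C + ‖x‖ + 1) / ‖a‖ : ℝ) : ℂ) * a‖ = C + ‖x‖ + 1 := by
        rw [norm_mul, Complex.norm_real, Real.norm_eq_abs, abs_of_nonneg (by positivity),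
          div_mul_cancel₀ _ han.ne']
      have h8 : ‖(((C + ‖x‖ + 1) / ‖a‖ : ℝ) : ℂ) * a‖ ≤
          ‖x + (((C + ‖x‖ + 1) / ‖a‖ : ℝ) : ℂ) * a‖ + ‖x‖ := by
        have := norm_sub_le (x + (((C + ‖x‖ + 1) / ‖a‖ : ℝ) : ℂ) * a) x
        rwa [add_sub_cancel_left] at this
      linarith
    exact j845_not_zero D hlam hc hx0 (Eventually.of_forall hz)
  · -- rotation symmetry
    set q : ℂ := a * Complex.I / b with hq
    have hbC : (b : ℂ) ≠ 0 := by exact_mod_cast hb0
    have hqe : ∀ y : ℂ, a + b * Complex.I * (y + q) = b * (Complex.I * y) := by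
      intro y
      rw [hq]
      field_simp
      ring_nf
      rw [Complex.I_sq]
      ring
    have D' := D.trans q
    set Ω' : Set ℂ := (fun x => x + q) ⁻¹' Ω with hΩ'
    have hhom : Ω' = (Homeomorph.addRight q) ⁻¹' Ω := rfl
    have hw : ∀ x, Lr (fun x => v (x + q)) x = 0 := by
      intro x
      unfold Lr
      rw [fderiv_comp_add_right]
      have h1 := h (x + q)
      rw [hqe] at h1
      have h2 : (b : ℂ) * (Complex.I * x) = b • (Complex.I * x) := by rw [Complex.real_smul]
      rw [h2, map_smul, smul_eq_mul] at h1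
      rcases mul_eq_zero.1 h1 with h3 | h3
      · exact (hb0 h3).elim
      · exact h3
    have ho' : IsOpen Ω' := ho.preimage (by fun_prop)
    have hb' : Bornology.IsBounded Ω' := by
      rw [isBounded_iff_forall_norm_le]
      refine ⟨C + ‖q‖, fun x hx => ?_⟩
      have h1 := hC _ hx
      have h2 := norm_sub_le (x + q) q
      rw [add_sub_cancel_right] at h2
      linarith
    have hcon' : IsPreconnected Ω' := by
      rw [hhom]
      exact (Homeomorph.addRight q).isPreconnected_preimage.2 hcon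
    have hreg' : interior (closure Ω') = Ω' := by
      rw [hhom, ← (Homeomorph.addRight q).preimage_closure,
        ← (Homeomorph.addRight q).preimage_interior, hreg]
    have hcc' : IsPreconnected Ω'ᶜ := by
      rw [hhom, ← preimage_compl]
      exact (Homeomorph.addRight q).isPreconnected_preimage.2 hcc
    have h0 : (0 : ℂ) ∈ Ω' := by
      by_contra h0
      set x1 : ℂ := x0 - q with hx1
      have hx1Ω : x1 ∈ Ω' := by
        change x0 - q + q ∈ Ω
        rwa [sub_add_cancel]
      have hx1n : x1 ≠ 0 := by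
        intro h
        rw [h] at hx1Ω
        exact h0 hx1Ω
      have hfar : (((C + ‖q‖ + ‖x1‖ + 1 : ℝ)) : ℂ) ∈ Ω'ᶜ := by
        intro hin
        have h1 := hC _ hin
        simp only at h1
        have h2 := norm_sub_le ((((C + ‖q‖ + ‖x1‖ + 1 : ℝ)) : ℂ) + q) q
        rw [add_sub_cancel_right, Complex.norm_real, Real.norm_eq_abs,
          abs_of_nonneg (by positivity)] at h2
        have h3 := norm_nonneg x1
        linarith
      have h1 : IsPreconnected (norm '' Ω'ᶜ) := hcc'.image _ continuous_norm.continuousOn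
      have h2 : ‖x1‖ ∈ norm '' Ω'ᶜ := by
        refine h1.Icc_subset (mem_image_of_mem _ h0) (mem_image_of_mem _ hfar) ⟨by simp, ?_⟩
        rw [Complex.norm_real, Real.norm_eq_abs, abs_of_nonneg (by positivity)]
        have := norm_nonneg q
        linarith
      obtain ⟨z, hz, hzn⟩ := h2
      refine hz ?_
      have h3 : z / x1 * x1 ∈ Ω' := j845_inv D' ho' hreg' hlam hc hw (z / x1) x1 (by
        rw [norm_div, hzn, div_self (norm_ne_zero_iff.2 hx1n)]) hx1Ω
      rwa [div_mul_cancel₀ _ hx1n] at h3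
    obtain ⟨r, hr, hrΩ⟩ := D'.disc ho' hb' hcon' hreg' hlam hc h0 hw
    refine ⟨q, r, hr, ?_⟩
    ext x
    have h1 : x ∈ Ω ↔ x - q ∈ Ω' := by
      change x ∈ Ω ↔ x - q + q ∈ Ω
      rw [sub_add_cancel]
    rw [h1, hrΩ, mem_ball_zero_iff, Metric.mem_ball, dist_eq_norm]

/-
Plain proof. Take a critical point p ∈ Ω of v (`Dat.crit`) and w(x) = fderiv v x (I (x - p)); translate p to 0 (`Dat.trans`):
w' = Lr v'. w' is not identically 0 (hypothesis). By `Dat.wat_loc`, `Wat.rays` (R227.SA13) w' has at 0 alternating rays with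
m ≥ 2 and by `count_set` (R227.SA19) there are at least m + 1 ≥ 3 components of {w' ≠ 0}. Translate back. For a component G of
the open set {w ≠ 0}: G is open, G ⊆ Ω, and w = 0 on the frontier of G (`comp_compl` in R227.SA16), so G.indicator w is
continuous; locally in G it is w. So Wat G lam (G.indicator w). Different components are disjoint.
-/

/-- the restriction of a solution to a nodal domain -/
lemma j845_nodal {Ω : Set ℂ} {lam : ℝ} {w : ℂ → ℝ} (h : Wat Ω lam w) (x : ℂ) :
    Wat (connectedComponentIn {x | w x ≠ 0} x) lam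
      ((connectedComponentIn {x | w x ≠ 0} x).indicator w) := by
  have hF : IsOpen {x | w x ≠ 0} := isOpen_ne_fun h.cont continuous_const
  set G := connectedComponentIn {x | w x ≠ 0} x with hG
  have hGo : IsOpen G := hF.connectedComponentIn
  have hGF : G ⊆ {x | w x ≠ 0} := connectedComponentIn_subset _ _
  have hco : IsOpen ({x | w x ≠ 0} \ G) := Pool.Agent.R227.SA.comp_compl h.cont x
  refine ⟨?_, fun y hy => indicator_of_notMem hy _, fun x₀ hx₀ => ?_⟩
  · refine continuous_iff_continuousAt.2 fun y => ?_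
    by_cases hyG : y ∈ G
    · have : G.indicator w =ᶠ[𝓝 y] w := by
        filter_upwards [hGo.mem_nhds hyG] with z hz
        exact indicator_of_mem hz _
      exact (continuousAt_congr this).2 h.cont.continuousAt
    · by_cases hyF : w y ≠ 0
      · have : G.indicator w =ᶠ[𝓝 y] fun _ => 0 := by
          filter_upwards [hco.mem_nhds ⟨hyF, hyG⟩] with z hz
          exact indicator_of_notMem hz.2 _
        exact (continuousAt_congr this).2 continuousAt_const
      · push Not at hyF
        have h1 : Tendsto w (𝓝 y) (𝓝 0) := by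
          have := h.cont.tendsto y
          rwa [hyF] at this
        have h2 : G.indicator w y = 0 := indicator_of_notMem hyG _
        unfold ContinuousAt
        rw [h2]
        refine squeeze_zero_norm (fun z => ?_) (tendsto_zero_iff_norm_tendsto_zero.1 h1)
        exact norm_indicator_le_norm_self _ _
  · have hx₀Ω : x₀ ∈ Ω := by
      by_contra hn
      exact hGF hx₀ (h.out _ hn)
    obtain ⟨r, hr, W, hW, hb, hl⟩ := h.loc x₀ hx₀Ω
    obtain ⟨r', hr', hb'⟩ := Metric.isOpen_iff.1 hGo x₀ hx₀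
    refine ⟨min r r', lt_min hr hr', W, hW,
      (Metric.ball_subset_ball (min_le_right _ _)).trans hb', fun y hy => ?_⟩
    have hy1 : y ∈ Metric.ball x₀ r := Metric.ball_subset_ball (min_le_left _ _) hy
    have hy2 : y ∈ G := hb' (Metric.ball_subset_ball (min_le_right _ _) hy)
    rw [indicator_of_mem hy2]
    exact hl y hy1

/-- TARGET 3: three nodal domains. -/
theorem three_comps {Ω : Set ℂ} {lam c : ℝ} {v : ℂ → ℝ} (D : Dat Ω lam c v)
    (hb : Bornology.IsBounded Ω) (hne : Ω.Nonempty) (hcon : IsPreconnected Ω) (hlam : 0 < lam)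
    (hc : c ≠ 0)
    (hnr : ∀ (a : ℂ) (b : ℝ), a ≠ 0 ∨ b ≠ 0 → ∃ x, fderiv ℝ v x (a + b * Complex.I * x) ≠ 0) :
    ∃ (p : ℂ) (G : Fin 3 → Set ℂ), (∀ i, IsOpen (G i) ∧ (G i).Nonempty ∧ G i ⊆ Ω) ∧
      (∀ i j, i ≠ j → Disjoint (G i) (G j)) ∧
      ∀ i, Wat (G i) lam ((G i).indicator fun x => fderiv ℝ v x (Complex.I * (x - p))) := by
  obtain ⟨p, hp, hcr⟩ := D.crit hb hne hlam hc
  have D' := D.trans p
  set Ω' : Set ℂ := (fun x => x + p) ⁻¹' Ω with hΩ'
  set v' : ℂ → ℝ := fun x => v (x + p) with hv'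
  have h0 : (0 : ℂ) ∈ Ω' := by
    change 0 + p ∈ Ω
    rwa [zero_add]
  have hcon' : IsPreconnected Ω' :=
    (Homeomorph.addRight p).isPreconnected_preimage.2 hcon
  have hcr' : fderiv ℝ v' 0 = 0 := by
    rw [hv', fderiv_comp_add_right, zero_add]
    exact hcr
  have hww : ∀ x, Lr v' (x - p) = fderiv ℝ v x (Complex.I * (x - p)) := by
    intro x
    unfold Lr
    rw [hv', fderiv_comp_add_right, sub_add_cancel]
  have hwI : ∀ x, fderiv ℝ v x (Complex.I * (x - p)) =
      fderiv ℝ v x (-(Complex.I * p) + (1 : ℝ) * Complex.I * x) := by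
    intro x
    congr 1
    push_cast
    ring
  obtain ⟨y0, hy0⟩ := hnr (-(Complex.I * p)) 1 (Or.inr one_ne_zero)
  have hne' : ∃ x, Lr v' x ≠ 0 := ⟨y0 - p, by rw [hww, hwI]; exact hy0⟩
  obtain ⟨r, hr, W, hW, hl, hW0, hf⟩ := D'.wat_loc h0
  obtain ⟨m, θ₀, ε, hm, hε, hm2, -, hrays⟩ :=
    D'.wat.rays hlam hcon' h0 hne' hr hW hl hW0
  have hm2' : 2 ≤ m := hm2 (hf hcr')
  have h00 : Lr v' 0 = 0 := by simp [Lr]
  obtain ⟨S, hS, hSc⟩ := Pool.Agent.R227.SA.count_set D'.wat hm hε h00 hrays
  have hcard : Fintype.card (Fin 3) ≤ Fintype.card S := by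
    rw [Fintype.card_fin, Fintype.card_coe]
    omega
  obtain ⟨f⟩ := Function.Embedding.nonempty_of_card_le hcard
  have hWat : Wat Ω' lam (Lr v') := D'.wat
  have hFo : IsOpen {x | Lr v' x ≠ 0} := isOpen_ne_fun hWat.cont continuous_const
  refine ⟨p, fun i => (fun x => x - p) ⁻¹' (f i : Set ℂ), fun i => ?_, fun i j hij => ?_,
    fun i => ?_⟩
  · obtain ⟨x, hx, hxe⟩ := hSc _ (f i).2
    refine ⟨?_, ?_, ?_⟩
    · change IsOpen ((fun x => x - p) ⁻¹' (f i : Set ℂ))
      rw [hxe]
      exact hFo.connectedComponentIn.preimage (by fun_prop)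
    · refine ⟨x + p, ?_⟩
      change x + p - p ∈ (f i : Set ℂ)
      rw [add_sub_cancel_right, hxe]
      exact mem_connectedComponentIn hx
    · intro y hy
      have h1 : y - p ∈ (f i : Set ℂ) := hy
      rw [hxe] at h1
      have h2 : Lr v' (y - p) ≠ 0 := connectedComponentIn_subset _ _ h1
      have h3 : y - p ∈ Ω' := by
        by_contra hn
        exact h2 (hWat.out _ hn)
      have h4 : y - p + p ∈ Ω := h3
      rwa [sub_add_cancel] at h4
  · rw [Set.disjoint_left]
    intro y hy hy'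
    have h1 : y - p ∈ (f i : Set ℂ) := hy
    have h2 : y - p ∈ (f j : Set ℂ) := hy'
    obtain ⟨x, hx, hxe⟩ := hSc _ (f i).2
    obtain ⟨x', hx', hxe'⟩ := hSc _ (f j).2
    apply hij
    apply f.injective
    apply Subtype.ext
    rw [hxe] at h1 ⊢
    rw [hxe'] at h2 ⊢
    rw [connectedComponentIn_eq h1, connectedComponentIn_eq h2]
  · obtain ⟨x, hx, hxe⟩ := hSc _ (f i).2
    have hN := j845_nodal hWat x
    rw [← hxe] at hN
    have hind : ((fun x => x - p) ⁻¹' (f i : Set ℂ)).indicator
        (fun x => fderiv ℝ v x (Complex.I * (x - p))) =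
        fun y => (f i : Set ℂ).indicator (Lr v') (y - p) := by
      funext y
      by_cases hy : y - p ∈ (f i : Set ℂ)
      · rw [indicator_of_mem hy, indicator_of_mem (show y ∈ (fun x => x - p) ⁻¹' (f i : Set ℂ) from hy),
          hww]
      · rw [indicator_of_notMem hy,
          indicator_of_notMem (show y ∉ (fun x => x - p) ⁻¹' (f i : Set ℂ) from hy)]
    have hWt : Wat Ω lam (fun x => fderiv ℝ v x (Complex.I * (x - p))) := by
      have := kill_wat D (-(Complex.I * p)) 1
      refine (funext hwI : (fun x => fderiv ℝ v x (Complex.I * (x - p))) = _) ▸ this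
    refine ⟨?_, fun y hy => indicator_of_notMem hy _, fun x₀ hx₀ => ?_⟩
    · rw [hind]
      exact hN.cont.comp (by fun_prop)
    · have hx₀' : x₀ - p ∈ (f i : Set ℂ) := hx₀
      have hGo : IsOpen ((fun x => x - p) ⁻¹' (f i : Set ℂ)) := by
        rw [hxe]
        exact hFo.connectedComponentIn.preimage (by fun_prop)
      have hx₀Ω : x₀ ∈ Ω := by
        by_contra hn
        rw [hxe] at hx₀'
        have h2 : Lr v' (x₀ - p) ≠ 0 := connectedComponentIn_subset _ _ hx₀'
        rw [hww] at h2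
        exact h2 (hWt.out _ hn)
      obtain ⟨r1, hr1, W1, hW1, hb1, hl1⟩ := hWt.loc x₀ hx₀Ω
      obtain ⟨r', hr', hb'⟩ := Metric.isOpen_iff.1 hGo x₀ hx₀
      refine ⟨min r1 r', lt_min hr1 hr', W1, hW1,
        (Metric.ball_subset_ball (min_le_right _ _)).trans hb', fun y hy => ?_⟩
      have hy1 : y ∈ Metric.ball x₀ r1 := Metric.ball_subset_ball (min_le_left _ _) hy
      have hy2 : y ∈ (fun x => x - p) ⁻¹' (f i : Set ℂ) :=
        hb' (Metric.ball_subset_ball (min_le_right _ _) hy)
      rw [indicator_of_mem hy2]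
      exact hl1 y hy1

end Pool.Agent.Helper327_Drum
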