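import Pool.Agent.TH298.Sch.Rot1
import Pool.Agent.R227.SA13
import Pool.Agent.Helper327_Drum.Fin.E1
import Pool.Agent.Helper327_Drum.Fin.E3
import Pool.Agent.Helper327_Drum.OpDefs

set_option autoImplicit false
open MeasureTheory Set Filter Topology
open scoped ContDiff InnerProductSpace

namespace Pool.Agent.Helper327_Drum

open Pool.Agent.TH298.Sch (dd SC)
open Pool.Agent.R227.SA (la Wat Dat)

/-
Plain proof. Write ι = io D, ι† its adjoint, so K = ι ι† and ⟨F, ι† ψ⟩ = ⟨F 0, ψ⟩. Let (ψ_j) be a Hilbert basis of L²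
of eigenvectors of the compact symmetric operator K (spectral theorem; K ψ_j = μ_j ψ_j, μ_j ∈ [0,1)). If μ_j = 0 then
‖ι† ψ_j‖² = ⟨K ψ_j, ψ_j⟩ = 0, so c_j := ⟨F 0, ψ_j⟩ = ⟨F, ι† ψ_j⟩ = 0. The vectors e_j = ι† ψ_j / √μ_j (μ_j > 0) are
orthonormal in V D (⟨ι†ψ_i, ι†ψ_j⟩ = ⟨K ψ_i, ψ_j⟩ = μ_j δ_ij) and ⟨F, e_j⟩ = c_j/√μ_j. By assumption c_j = 0 if μ_j > μ.
Bessel: ‖F‖² ≥ Σ c_j²/μ_j ≥ (1/μ) Σ c_j² = ‖F 0‖²/μ. If equality holds, then Σ c_j² (1/μ_j - 1/μ) = 0, so c_j = 0 unless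
μ_j = μ, and ‖F - Σ ⟨F,e_j⟩ e_j‖² = 0, so F = Σ_{μ_j = μ} (c_j/μ) ι†ψ_j = μ⁻¹ ι† (F 0); hence
⟨F, G⟩ = μ⁻¹ ⟨F 0, G 0⟩.
(To avoid infinite sums one may argue with the orthogonal projections and density instead.)
-/

namespace SpecIneq256

open Module.End

theorem abs_key {H : Type*} [NormedAddCommGroup H] [InnerProductSpace ℝ H] [CompleteSpace H]
    (K : H →L[ℝ] H) (hK : IsCompactOperator K) (hS : (K : H →ₗ[ℝ] H).IsSymmetric)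
    (hpos : ∀ (ν : ℝ) (ψ : H), ψ ≠ 0 → K ψ = ν • ψ → 0 ≤ ν) {μ : ℝ} (hμ : 0 < μ) (x : H)
    (hx : ∀ (ν : ℝ) (ψ : H), μ < ν → K ψ = ν • ψ → ⟪ψ, x⟫_ℝ = 0) :
    ⟪K x, x⟫_ℝ ≤ μ * ‖x‖ ^ 2 := by
  set s : Set H := {ψ | ∃ ν : ℝ, μ < ν ∧ K ψ = ν • ψ} with hs
  set W : Submodule ℝ H := (Submodule.span ℝ s)ᗮ with hW
  have hmem : ∀ y : H, y ∈ W ↔ ∀ ψ ∈ s, ⟪ψ, y⟫_ℝ = 0 := by
    intro y
    rw [hW, Submodule.mem_orthogonal]
    constructor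
    · intro h ψ hψ
      exact h ψ (Submodule.subset_span hψ)
    · intro h u hu
      induction hu using Submodule.span_induction with
      | mem u hu => exact h u hu
      | zero => exact inner_zero_left _
      | add a b _ _ ha hb => rw [inner_add_left, ha, hb, add_zero]
      | smul c a _ ha => rw [inner_smul_left, ha, mul_zero]
  have hxW : x ∈ W := (hmem x).2 (by
    rintro ψ ⟨ν, hν, hψ⟩
    exact hx ν ψ hν hψ)
  have hinv : ∀ y ∈ W, (K : H →ₗ[ℝ] H) y ∈ W := by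
    intro y hy
    rw [hmem] at hy ⊢
    rintro ψ ⟨ν, hν, hψ⟩
    have h1 := hS ψ y
    change ⟪K ψ, y⟫_ℝ = ⟪ψ, K y⟫_ℝ at h1
    change ⟪ψ, K y⟫_ℝ = 0
    rw [← h1, hψ, inner_smul_left, hy ψ ⟨ν, hν, hψ⟩, mul_zero]
  have hcl : IsClosed (W : Set H) := Submodule.isClosed_orthogonal _
  have : CompleteSpace W := hcl.completeSpace_coe
  have hinv' : W ∈ Module.End.invtSubmodule (K : H →ₗ[ℝ] H) := by
    rw [Module.End.mem_invtSubmodule_iff_forall_mem_of_mem]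
    exact hinv
  let T : W →L[ℝ] W := K.restrict hinv'
  have hT : IsCompactOperator T := hK.restrict' hinv'
  have hTS : (T : W →ₗ[ℝ] W).IsSymmetric := hS.restrict_invariant hinv
  have hTc : ∀ w : W, ((T w : W) : H) = K (w : H) := fun _ => rfl
  have hle : ‖T‖ ≤ μ := by
    have h1 := T.spectralRadius_eq_nnnorm hTS.isSelfAdjoint
    have h2 : spectralRadius ℝ T ≤ (μ.toNNReal : ENNReal) := by
      rw [spectralRadius]
      refine iSup₂_le fun ν hν => ?_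
      by_cases h0 : ν = 0
      · simp [h0]
      · have h3 := (hT.hasEigenvalue_iff_mem_spectrum h0).2 hν
        obtain ⟨w, hw⟩ := h3.exists_hasEigenvector
        have hw1 : T w = ν • w := hw.apply_eq_smul
        have hw0 : w ≠ 0 := hw.2
        have hw2 : K (w : H) = ν • (w : H) := by
          rw [← hTc, hw1]
          rfl
        have hw3 : (w : H) ≠ 0 := fun h => hw0 (Subtype.ext h)
        have hν0 : 0 ≤ ν := hpos ν w hw3 hw2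
        have hν1 : ν ≤ μ := by
          by_contra hcon
          push Not at hcon
          have h4 := (hmem w).1 w.2 w ⟨ν, hcon, hw2⟩
          exact hw3 (inner_self_eq_zero.1 h4)
        have h5 : ‖ν‖₊ ≤ μ.toNNReal := by
          rw [← NNReal.coe_le_coe, coe_nnnorm, Real.norm_of_nonneg hν0,
            Real.coe_toNNReal μ hμ.le]
          exact hν1
        exact_mod_cast h5
    rw [h1] at h2
    have h3 : ‖T‖₊ ≤ μ.toNNReal := by exact_mod_cast h2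
    have h4 := NNReal.coe_le_coe.2 h3
    rwa [coe_nnnorm, Real.coe_toNNReal μ hμ.le] at h4
  have h6 : ‖K x‖ ≤ μ * ‖x‖ := by
    have h7 := T.le_opNorm ⟨x, hxW⟩
    have h8 : ‖T ⟨x, hxW⟩‖ = ‖K x‖ := rfl
    have h9 : ‖(⟨x, hxW⟩ : W)‖ = ‖x‖ := rfl
    rw [h8, h9] at h7
    exact h7.trans (mul_le_mul_of_nonneg_right hle (norm_nonneg _))
  calc ⟪K x, x⟫_ℝ ≤ ‖K x‖ * ‖x‖ := real_inner_le_norm _ _
    _ ≤ μ * ‖x‖ * ‖x‖ := mul_le_mul_of_nonneg_right h6 (norm_nonneg _)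
    _ = μ * ‖x‖ ^ 2 := by ring

/-- The abstract inequality. -/
theorem abs_ineq {H V : Type*} [NormedAddCommGroup H] [InnerProductSpace ℝ H] [CompleteSpace H]
    [NormedAddCommGroup V] [InnerProductSpace ℝ V] [CompleteSpace V] (i : V →L[ℝ] H)
    {μ : ℝ} (hμ : 0 < μ) (F : V)
    (hF : ⟪(i.comp (ContinuousLinearMap.adjoint i)) (i F), i F⟫_ℝ ≤ μ * ‖i F‖ ^ 2) :
    ‖F - μ⁻¹ • (ContinuousLinearMap.adjoint i) (i F)‖ ^ 2 ≤ ‖F‖ ^ 2 - μ⁻¹ * ‖i F‖ ^ 2 := by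
  have h1 : ⟪F, (ContinuousLinearMap.adjoint i) (i F)⟫_ℝ = ‖i F‖ ^ 2 := by
    rw [ContinuousLinearMap.adjoint_inner_right, real_inner_self_eq_norm_sq]
  have h2 : ‖(ContinuousLinearMap.adjoint i) (i F)‖ ^ 2 ≤ μ * ‖i F‖ ^ 2 := by
    rw [← real_inner_self_eq_norm_sq, ContinuousLinearMap.adjoint_inner_left, real_inner_comm]
    exact hF
  rw [@norm_sub_sq_real, inner_smul_right, h1, norm_smul, mul_pow, Real.norm_eq_abs, sq_abs]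
  have h3 : (μ⁻¹) ^ 2 * ‖(ContinuousLinearMap.adjoint i) (i F)‖ ^ 2 ≤ μ⁻¹ * ‖i F‖ ^ 2 := by
    calc (μ⁻¹) ^ 2 * ‖(ContinuousLinearMap.adjoint i) (i F)‖ ^ 2
        ≤ (μ⁻¹) ^ 2 * (μ * ‖i F‖ ^ 2) := mul_le_mul_of_nonneg_left h2 (sq_nonneg _)
      _ = μ⁻¹ * ‖i F‖ ^ 2 := by field_simp
  linarith

/-- The abstract conclusion. -/
theorem abs_concl {H V : Type*} [NormedAddCommGroup H] [InnerProductSpace ℝ H] [CompleteSpace H]
    [NormedAddCommGroup V] [InnerProductSpace ℝ V] [CompleteSpace V] (i : V →L[ℝ] H)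
    {μ : ℝ} (hμ : 0 < μ) (F : V)
    (hF : ⟪(i.comp (ContinuousLinearMap.adjoint i)) (i F), i F⟫_ℝ ≤ μ * ‖i F‖ ^ 2) :
    ‖i F‖ ^ 2 ≤ μ * ‖F‖ ^ 2 ∧
      (‖i F‖ ^ 2 = μ * ‖F‖ ^ 2 → ∀ G : V, ⟪F, G⟫_ℝ = μ⁻¹ * ⟪i F, i G⟫_ℝ) := by
  have h1 := abs_ineq i hμ F hF
  have h2 : μ⁻¹ * ‖i F‖ ^ 2 ≤ ‖F‖ ^ 2 := by
    have := sq_nonneg ‖F - μ⁻¹ • (ContinuousLinearMap.adjoint i) (i F)‖
    linarith
  refine ⟨?_, ?_⟩
  · calc ‖i F‖ ^ 2 = μ * (μ⁻¹ * ‖i F‖ ^ 2) := by field_simp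
      _ ≤ μ * ‖F‖ ^ 2 := mul_le_mul_of_nonneg_left h2 hμ.le
  · intro heq G
    have h3 : μ⁻¹ * ‖i F‖ ^ 2 = ‖F‖ ^ 2 := by
      rw [heq]
      field_simp
    rw [h3, sub_self] at h1
    have h4 : F = μ⁻¹ • (ContinuousLinearMap.adjoint i) (i F) := by
      have h5 : ‖F - μ⁻¹ • (ContinuousLinearMap.adjoint i) (i F)‖ = 0 := by
        have h6 := norm_nonneg (F - μ⁻¹ • (ContinuousLinearMap.adjoint i) (i F))
        nlinarith
      exact sub_eq_zero.1 (norm_eq_zero.1 h5)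
    calc ⟪F, G⟫_ℝ = ⟪μ⁻¹ • (ContinuousLinearMap.adjoint i) (i F), G⟫_ℝ := by rw [← h4]
      _ = μ⁻¹ * ⟪i F, i G⟫_ℝ := by
        rw [real_inner_smul_left, ContinuousLinearMap.adjoint_inner_left]

end SpecIneq256

/-- TARGET: the variational inequality. -/
theorem spec_ineq {D : Set ℂ} (hb : Bornology.IsBounded D) {μ : ℝ} (hμ : 0 < μ) (F : V D)
    (hF : ∀ (ν : ℝ) (ψ : L2), μ < ν → K D ψ = ν • ψ → ⟪ψ, F.1 0⟫_ℝ = 0) :
    ‖F.1 0‖ ^ 2 ≤ μ * ‖F‖ ^ 2 ∧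
      (‖F.1 0‖ ^ 2 = μ * ‖F‖ ^ 2 → ∀ G : V D, ⟪F, G⟫_ℝ = μ⁻¹ * ⟪F.1 0, G.1 0⟫_ℝ) := by
  have hK := SpecIneq256.abs_key (K D) (K_compact hb) (K_symm D)
    (fun ν ψ hψ h => (K_eig hb hψ h).1) hμ (F.1 0) hF
  exact SpecIneq256.abs_concl (io D) hμ F hK

end Pool.Agent.Helper327_Drum
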