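import Pool.Agent.TH298.Sch.Rot1
import Pool.Agent.R227.SA13
import Pool.Agent.Helper327_Drum.Fin.E0
import Pool.Agent.Helper327_Drum.Fin.E1
import Pool.Agent.Helper327_Drum.Fin.E3
import Pool.Agent.Helper327_Drum.Fin.K1a
import Pool.Agent.Helper327_Drum.MoreDefs
import Pool.Agent.Helper327_Drum.OpDefs

set_option autoImplicit false
open MeasureTheory Set Filter Topology
open scoped ContDiff InnerProductSpace

namespace Pool.Agent.Helper327_Drum

open Pool.Agent.TH298.Sch (dd SC)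
open Pool.Agent.R227.SA (la Wat Dat)

/-
Plain proof. `SC φ`: smooth with compact support. Let ψ_1..ψ_n be the given orthonormal eigenvectors, K ψ_j = ν_j ψ_j,
ν_j > μ, and F_j = ν_j⁻¹ ι† ψ_j ∈ V D, so F_j 0 = ψ_j, and for a combination F = Σ a_j F_j:
‖F‖² = Σ a_j²/ν_j ≤ (1/ν) Σ a_j² = (1/ν) ‖F 0‖², ν = min ν_j > μ. So ‖F 1‖² + ‖F 2‖² ≤ (1/ν - 1) ‖F 0‖². Approximate each
F_j in W3 by the class of a smooth test function φ_j in D within δ (definition of V D as a closure of V0 D, then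
`approx_sc`); for small δ the classes of the φ_j are still linearly independent and
∫ |∇ Σ a_j φ_j|² ≤ r ∫ (Σ a_j φ_j)² with r < 1/μ - 1 (compactness of the unit sphere of ℝⁿ or a direct estimate:
with Φ = Σ a_j Φ_j, ‖Φ - F‖ ≤ δ √n |a| and ‖F 0‖ = |a|). `‖fderiv ℝ f x‖² = (dd 1 f x)² + (dd I f x)²`. The set in the
definition of `dirichletEigenvalue` is bounded below by 0 for n ≥ 1, so its infimum is ≤ r < 1/μ - 1.
-/

/-! ### the relation between a class and a function -/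

/-- `F` is the class of (φ, ∂₁φ, ∂₂φ) -/
structure Rel (D : Set ℂ) (F : W3) (φ : ℂ → ℝ) : Prop where
  c1 : ContDiff ℝ 1 φ
  cs : HasCompactSupport φ
  ts : tsupport φ ⊆ D
  e0 : F 0 =ᵐ[volume] φ
  e1 : F 1 =ᵐ[volume] dd 1 φ
  e2 : F 2 =ᵐ[volume] dd Complex.I φ

theorem gr_iff {D : Set ℂ} {F : W3} : Gr D F ↔ ∃ φ, Rel D F φ :=
  ⟨fun ⟨φ, ⟨h1, h2, h3⟩, h4, h5, h6⟩ => ⟨φ, h1, h2, h3, h4, h5, h6⟩,
    fun ⟨φ, h1, h2, h3, h4, h5, h6⟩ => ⟨φ, ⟨h1, h2, h3⟩, h4, h5, h6⟩⟩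

theorem dd_add' {φ ψ : ℂ → ℝ} (h : ContDiff ℝ 1 φ) (h' : ContDiff ℝ 1 ψ) (v x : ℂ) :
    dd v (fun y => φ y + ψ y) x = dd v φ x + dd v ψ x := by
  unfold dd
  rw [fderiv_fun_add (h.differentiable (by simp) x) (h'.differentiable (by simp) x)]
  rfl

theorem dd_smul' {φ : ℂ → ℝ} (c : ℝ) (h : ContDiff ℝ 1 φ) (v x : ℂ) :
    dd v (fun y => c * φ y) x = c * dd v φ x := by
  unfold dd
  rw [fderiv_const_mul (h.differentiable (by simp) x)]
  rfl

theorem Rel.zero (D : Set ℂ) : Rel D 0 (fun _ => 0) := by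
  have h0 : ∀ v : ℂ, dd v (fun _ : ℂ => (0 : ℝ)) = fun _ => 0 := by
    intro v
    funext x
    unfold dd
    simp
  refine ⟨contDiff_const, HasCompactSupport.zero, ?_, ?_, ?_, ?_⟩
  · have : tsupport (fun _ : ℂ => (0 : ℝ)) = ∅ := by
      rw [tsupport_eq_empty_iff]
      rfl
    rw [this]
    exact empty_subset _
  · exact Lp.coeFn_zero _ _ _
  · rw [h0]
    exact Lp.coeFn_zero _ _ _
  · rw [h0]
    exact Lp.coeFn_zero _ _ _

theorem Rel.add {D : Set ℂ} {F G : W3} {φ ψ : ℂ → ℝ} (h : Rel D F φ) (h' : Rel D G ψ) :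
    Rel D (F + G) (fun x => φ x + ψ x) := by
  refine ⟨h.c1.add h'.c1, h.cs.add h'.cs, ?_, ?_, ?_, ?_⟩
  · exact (tsupport_add φ ψ).trans (union_subset h.ts h'.ts)
  · change (F 0 + G 0 : L2) =ᵐ[volume] _
    filter_upwards [Lp.coeFn_add (F 0) (G 0), h.e0, h'.e0] with x h1 h2 h3
    rw [h1, Pi.add_apply, h2, h3]
  · change (F 1 + G 1 : L2) =ᵐ[volume] _
    filter_upwards [Lp.coeFn_add (F 1) (G 1), h.e1, h'.e1] with x h1 h2 h3
    rw [h1, Pi.add_apply, h2, h3, dd_add' h.c1 h'.c1]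
  · change (F 2 + G 2 : L2) =ᵐ[volume] _
    filter_upwards [Lp.coeFn_add (F 2) (G 2), h.e2, h'.e2] with x h1 h2 h3
    rw [h1, Pi.add_apply, h2, h3, dd_add' h.c1 h'.c1]

theorem Rel.smul {D : Set ℂ} {F : W3} {φ : ℂ → ℝ} (c : ℝ) (h : Rel D F φ) :
    Rel D (c • F) (fun x => c * φ x) := by
  refine ⟨contDiff_const.mul h.c1, h.cs.mul_left, ?_, ?_, ?_, ?_⟩
  · exact (tsupport_mul_subset_right (f := fun _ => c) (g := φ)).trans h.ts
  · change (c • F 0 : L2) =ᵐ[volume] _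
    filter_upwards [Lp.coeFn_smul c (F 0), h.e0] with x h1 h2
    rw [h1, Pi.smul_apply, h2, smul_eq_mul]
  · change (c • F 1 : L2) =ᵐ[volume] _
    filter_upwards [Lp.coeFn_smul c (F 1), h.e1] with x h1 h2
    rw [h1, Pi.smul_apply, h2, smul_eq_mul, dd_smul' c h.c1]
  · change (c • F 2 : L2) =ᵐ[volume] _
    filter_upwards [Lp.coeFn_smul c (F 2), h.e2] with x h1 h2
    rw [h1, Pi.smul_apply, h2, smul_eq_mul, dd_smul' c h.c1]

theorem Rel.sum {D : Set ℂ} {ι : Type} (s : Finset ι) (a : ι → ℝ) {Φ : ι → W3}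
    {φ : ι → ℂ → ℝ} (h : ∀ i, Rel D (Φ i) (φ i)) :
    Rel D (∑ i ∈ s, a i • Φ i) (fun x => ∑ i ∈ s, a i * φ i x) := by
  classical
  induction s using Finset.induction_on with
  | empty =>
    simp only [Finset.sum_empty]
    exact Rel.zero D
  | insert i s hi ih =>
    simp only [Finset.sum_insert hi]
    exact ((h i).smul (a i)).add ih

theorem gr_of_mem_V0 {D : Set ℂ} {F : W3} (hF : F ∈ V0 D) : Gr D F := by
  unfold V0 at hF
  induction hF using Submodule.span_induction with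
  | mem w hw => exact hw
  | zero => exact gr_iff.2 ⟨_, Rel.zero D⟩
  | add a b _ _ ha hb =>
    obtain ⟨φ, hφ⟩ := gr_iff.1 ha
    obtain ⟨ψ, hψ⟩ := gr_iff.1 hb
    exact gr_iff.2 ⟨_, hφ.add hψ⟩
  | smul c a _ ha =>
    obtain ⟨φ, hφ⟩ := gr_iff.1 ha
    exact gr_iff.2 ⟨_, hφ.smul c⟩

theorem l2_norm_sq {f : L2} {φ : ℂ → ℝ} (h : f =ᵐ[volume] φ) : ‖f‖ ^ 2 = ∫ x, φ x ^ 2 := by
  rw [← real_inner_self_eq_norm_sq, L2.inner_def]
  refine integral_congr_ae ?_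
  filter_upwards [h] with x hx
  rw [real_inner_self_eq_norm_sq, hx, Real.norm_eq_abs, sq_abs]

theorem dual_norm_sq (T : ℂ →L[ℝ] ℝ) : ‖T‖ ^ 2 = T 1 ^ 2 + T Complex.I ^ 2 := by
  set s := √(T 1 ^ 2 + T Complex.I ^ 2) with hs
  have hs0 : 0 ≤ s := Real.sqrt_nonneg _
  have hs2 : s ^ 2 = T 1 ^ 2 + T Complex.I ^ 2 := Real.sq_sqrt (by positivity)
  rw [← hs2]
  have hle : ‖T‖ ≤ s := by
    refine T.opNorm_le_bound hs0 fun z => ?_
    rw [Pool.Agent.TH298.Sch.lin_val, Real.norm_eq_abs]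
    refine abs_le_of_sq_le_sq ?_ (by positivity)
    rw [mul_pow, hs2, ← Complex.normSq_eq_norm_sq, Complex.normSq_apply]
    nlinarith [sq_nonneg (z.re * T Complex.I - z.im * T 1)]
  have hge : s ≤ ‖T‖ := by
    by_cases h0 : s = 0
    · rw [h0]
      exact norm_nonneg _
    have hsp : 0 < s := lt_of_le_of_ne hs0 (Ne.symm h0)
    have h1 := T.le_opNorm (⟨T 1, T Complex.I⟩ : ℂ)
    rw [Pool.Agent.TH298.Sch.lin_val] at h1
    have h2 : ‖(⟨T 1, T Complex.I⟩ : ℂ)‖ = s := by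
      rw [Complex.norm_def, Complex.normSq_apply, hs]
      congr 1
      simp only
      ring
    rw [h2] at h1
    simp only [Real.norm_eq_abs] at h1
    have h3 : T 1 * T 1 + T Complex.I * T Complex.I = s ^ 2 := by
      rw [hs2]
      ring
    rw [h3, abs_of_nonneg (by positivity)] at h1
    nlinarith
  rw [le_antisymm hle hge]

theorem dd_cont' {φ : ℂ → ℝ} (h : ContDiff ℝ 1 φ) (v : ℂ) : Continuous (dd v φ) :=
  (h.continuous_fderiv (by simp)).clm_apply continuous_const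

theorem dd_cs' {φ : ℂ → ℝ} (h : HasCompactSupport φ) (v : ℂ) : HasCompactSupport (dd v φ) :=
  (h.fderiv ℝ).comp_left (g := fun T : ℂ →L[ℝ] ℝ => T v) (by simp)

theorem int_sq' {φ : ℂ → ℝ} (h : Continuous φ) (h' : HasCompactSupport φ) :
    Integrable (fun x => φ x ^ 2) := by
  refine Continuous.integrable_of_hasCompactSupport (by fun_prop) ?_
  exact h'.comp_left (g := fun t : ℝ => t ^ 2) (by simp)

theorem Rel.norm0 {D : Set ℂ} {F : W3} {φ : ℂ → ℝ} (h : Rel D F φ) :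
    ‖F 0‖ ^ 2 = ∫ x, φ x ^ 2 := l2_norm_sq h.e0

theorem Rel.norm12 {D : Set ℂ} {F : W3} {φ : ℂ → ℝ} (h : Rel D F φ) :
    ‖F 1‖ ^ 2 + ‖F 2‖ ^ 2 = ∫ x, ‖fderiv ℝ φ x‖ ^ 2 := by
  rw [l2_norm_sq h.e1, l2_norm_sq h.e2, ← integral_add (int_sq' (dd_cont' h.c1 _) (dd_cs' h.cs _))
    (int_sq' (dd_cont' h.c1 _) (dd_cs' h.cs _))]
  refine integral_congr_ae (Eventually.of_forall fun x => ?_)
  exact (dual_norm_sq (fderiv ℝ φ x)).symm

theorem w3_norm (F : W3) : ‖F‖ ^ 2 = ‖F 0‖ ^ 2 + ‖F 1‖ ^ 2 + ‖F 2‖ ^ 2 := by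
  rw [PiLp.norm_sq_eq_of_L2, Fin.sum_univ_three]

theorem w3_le (F : W3) : ‖F 0‖ ≤ ‖F‖ := by
  refine abs_le_of_sq_le_sq' ?_ (norm_nonneg _) |>.2
  rw [w3_norm]
  nlinarith [sq_nonneg ‖F 1‖, sq_nonneg ‖F 2‖]

/-- the class of a continuously differentiable function with compact support -/
theorem exists_rel {D : Set ℂ} {φ : ℂ → ℝ} (h : ContDiff ℝ 1 φ) (hc : HasCompactSupport φ)
    (ht : tsupport φ ⊆ D) : ∃ F : W3, Rel D F φ := by
  have m0 : MemLp φ 2 (volume : Measure ℂ) := h.continuous.memLp_of_hasCompactSupport hc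
  have m1 : MemLp (dd 1 φ) 2 (volume : Measure ℂ) :=
    (dd_cont' h 1).memLp_of_hasCompactSupport (dd_cs' hc 1)
  have m2 : MemLp (dd Complex.I φ) 2 (volume : Measure ℂ) :=
    (dd_cont' h _).memLp_of_hasCompactSupport (dd_cs' hc _)
  refine ⟨WithLp.toLp 2 ![m0.toLp φ, m1.toLp _, m2.toLp _], h, hc, ht, ?_, ?_, ?_⟩
  · exact m0.coeFn_toLp
  · exact m1.coeFn_toLp
  · exact m2.coeFn_toLp

theorem Rel.sub {D : Set ℂ} {F G : W3} {φ ψ : ℂ → ℝ} (h : Rel D F φ) (h' : Rel D G ψ) :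
    Rel D (F - G) (fun x => φ x - ψ x) := by
  have := h.add (h'.smul (-1))
  have e1 : F + (-1 : ℝ) • G = F - G := by
    rw [neg_one_smul, sub_eq_add_neg]
  rw [e1] at this
  refine ⟨?_, ?_, ?_, ?_, ?_, ?_⟩
  all_goals
    have e2 : (fun x => φ x - ψ x) = fun x => φ x + -1 * ψ x := by
      funext x
      ring
    rw [e2]
  · exact this.c1
  · exact this.cs
  · exact this.ts
  · exact this.e0
  · exact this.e1
  · exact this.e2

/-- smooth test functions are dense -/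
theorem exists_test {D : Set ℂ} (hD : IsOpen D) (F : V D) {ε : ℝ} (hε : 0 < ε) :
    ∃ (Φ : W3) (φ : ℂ → ℝ), IsTest D φ ∧ Rel D Φ φ ∧ ‖Φ - F.1‖ < ε := by
  have hF : (F.1 : W3) ∈ closure (V0 D : Set W3) := F.2
  obtain ⟨G, hG, hFG⟩ := Metric.mem_closure_iff.1 hF (ε / 2) (by positivity)
  obtain ⟨φ, hφ⟩ := gr_iff.1 (gr_of_mem_V0 hG)
  have hη : 0 < ε ^ 2 / 16 := by positivity
  obtain ⟨ψ, s1, s2, -, -, s3, s4, s5⟩ := approx_sc hD ⟨hφ.c1, hφ.cs, hφ.ts⟩ hη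
  obtain ⟨Ψ, hΨ⟩ := exists_rel (D := D) (s1.sm.of_le (by simp)) s1.cs s2
  refine ⟨Ψ, ψ, ⟨s1.sm, s1.cs, s2⟩, hΨ, ?_⟩
  have hsub := hφ.sub hΨ
  have hdd : ∀ v x, dd v (fun y => φ y - ψ y) x = dd v φ x - dd v ψ x := by
    intro v x
    unfold dd
    rw [fderiv_fun_sub (hφ.c1.differentiable (by simp) x) (hΨ.c1.differentiable (by simp) x)]
    rfl
  have n0 : ‖(G - Ψ) 0‖ ^ 2 ≤ ε ^ 2 / 16 := by
    rw [l2_norm_sq hsub.e0]
    exact s3
  have n1 : ‖(G - Ψ) 1‖ ^ 2 ≤ ε ^ 2 / 16 := by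
    rw [l2_norm_sq hsub.e1]
    simp only [hdd]
    exact s4
  have n2 : ‖(G - Ψ) 2‖ ^ 2 ≤ ε ^ 2 / 16 := by
    rw [l2_norm_sq hsub.e2]
    simp only [hdd]
    exact s5
  have n3 : ‖G - Ψ‖ < ε / 2 := by
    have : ‖G - Ψ‖ ^ 2 < (ε / 2) ^ 2 := by
      rw [w3_norm]
      nlinarith
    exact lt_of_pow_lt_pow_left₀ 2 (by positivity) this
  have n4 : Ψ - F.1 = -(G - Ψ) - (F.1 - G) := by abel
  rw [dist_eq_norm] at hFG
  rw [n4]
  calc ‖-(G - Ψ) - (F.1 - G)‖ ≤ ‖-(G - Ψ)‖ + ‖F.1 - G‖ := norm_sub_le _ _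
    _ = ‖G - Ψ‖ + ‖F.1 - G‖ := by rw [norm_neg]
    _ < ε / 2 + ε / 2 := add_lt_add n3 hFG
    _ = ε := by ring

theorem io_apply {D : Set ℂ} (F : V D) : io D F = F.1 0 := rfl

/-- the lift of an eigenvector -/
noncomputable def lift (D : Set ℂ) (ν : ℝ) (ψ : L2) : V D :=
  ν⁻¹ • (ContinuousLinearMap.adjoint (io D)) ψ

theorem lift_zero {D : Set ℂ} {ν : ℝ} {ψ : L2} (hν : ν ≠ 0) (h : K D ψ = ν • ψ) :
    (lift D ν ψ).1 0 = ψ := by
  rw [← io_apply, lift, map_smul]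
  change ν⁻¹ • K D ψ = ψ
  rw [h, smul_smul, inv_mul_cancel₀ hν, one_smul]

theorem V_inner_smul {D : Set ℂ} (F G : V D) (c : ℝ) : ⟪F, c • G⟫_ℝ = c * ⟪F, G⟫_ℝ :=
  real_inner_smul_right F G c

theorem lift_inner {D : Set ℂ} {ν : ℝ} {ψ : L2} (F : V D) :
    ⟪F, lift D ν ψ⟫_ℝ = ν⁻¹ * ⟪F.1 0, ψ⟫_ℝ := by
  rw [lift, V_inner_smul, ContinuousLinearMap.adjoint_inner_right, io_apply]

/-- the set defining the eigenvalue is bounded below by zero -/
theorem ev_bdd {D : Set ℂ} {n : ℕ} (hn : 1 ≤ n) {r : ℝ} {φ : Fin n → ℂ → ℝ}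
    (hφ : ∀ i, IsTest D (φ i)) (hli : LinearIndependent ℝ φ)
    (h : ∀ a : Fin n → ℝ, ∫ x, ‖fderiv ℝ (fun y => ∑ i, a i * φ i y) x‖ ^ 2 ≤
      r * ∫ x, (∑ i, a i * φ i x) ^ 2) : 0 ≤ r := by
  let i0 : Fin n := ⟨0, hn⟩
  have h1 := h (fun i => if i = i0 then 1 else 0)
  simp only [ite_mul, one_mul, zero_mul, Finset.sum_ite_eq', Finset.mem_univ, if_true] at h1
  have h2 : φ i0 ≠ 0 := hli.ne_zero i0
  have h3 : 0 < ∫ x, φ i0 x ^ 2 := by
    obtain ⟨x0, hx0⟩ := Function.ne_iff.1 h2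
    refine Continuous.integral_pos_of_hasCompactSupport_nonneg_nonzero (x := x0) ?_ ?_ ?_ ?_
    · exact (hφ i0).1.continuous.pow 2
    · exact (hφ i0).2.1.comp_left (g := fun t : ℝ => t ^ 2) (by simp)
    · intro x
      exact sq_nonneg _
    · exact pow_ne_zero 2 hx0
  have h4 : 0 ≤ ∫ x, ‖fderiv ℝ (fun y => φ i0 y) x‖ ^ 2 :=
    integral_nonneg fun x => by positivity
  by_contra hr
  push Not at hr
  have h5 : r * ∫ x, φ i0 x ^ 2 < 0 := mul_neg_of_neg_of_pos hr h3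
  linarith

theorem sum_abs_le {n : ℕ} (a : Fin n → ℝ) : ∑ i, |a i| ≤ n * √(∑ i, a i ^ 2) := by
  calc ∑ i, |a i| ≤ ∑ _i : Fin n, √(∑ i, a i ^ 2) := by
        refine Finset.sum_le_sum fun i _ => ?_
        rw [← Real.sqrt_sq_eq_abs]
        exact Real.sqrt_le_sqrt (Finset.single_le_sum (f := fun i => a i ^ 2)
          (fun i _ => sq_nonneg _) (Finset.mem_univ i))
    _ = n * √(∑ i, a i ^ 2) := by simp

/-- TARGET 1: many eigenvectors give a small min-max value. -/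
theorem ev_lt_of_eig {D : Set ℂ} (hDo : IsOpen D) (hb : Bornology.IsBounded D) {μ : ℝ} (hμ : 0 < μ)
    {n : ℕ} (hn : 1 ≤ n) (ψ : Fin n → L2) (ν : Fin n → ℝ) (ho : Orthonormal ℝ ψ)
    (hν : ∀ j, μ < ν j ∧ K D (ψ j) = ν j • ψ j) : dirichletEigenvalue n D < 1 / μ - 1 := by
  classical
  have : Nonempty (Fin n) := ⟨⟨0, hn⟩⟩
  have hνp : ∀ j, 0 < ν j := fun j => hμ.trans (hν j).1
  obtain ⟨j0, -, hj0⟩ := Finset.exists_min_image Finset.univ ν Finset.univ_nonempty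
  set κ : ℝ := √(ν j0)⁻¹ with hκ
  have hκ0 : 0 < κ := Real.sqrt_pos.2 (inv_pos.2 (hνp j0))
  have hκ2 : κ ^ 2 = (ν j0)⁻¹ := Real.sq_sqrt (inv_pos.2 (hνp j0)).le
  have hκ1 : κ < √μ⁻¹ := by
    refine Real.sqrt_lt_sqrt (inv_pos.2 (hνp j0)).le ?_
    exact inv_strictAnti₀ hμ (hν j0).1
  have hκj : ∀ j, (ν j)⁻¹ ≤ κ ^ 2 := by
    intro j
    rw [hκ2]
    exact inv_anti₀ (hνp j0) (hj0 j (Finset.mem_univ j))
  set q : ℝ := (κ + √μ⁻¹) / 2 with hq
  have hq1 : κ < q := by rw [hq]; linarith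
  have hq2 : q < √μ⁻¹ := by rw [hq]; linarith
  have hq0 : 0 < q := hκ0.trans hq1
  set η : ℝ := (q - κ) / (1 + q) with hη
  have hη0 : 0 < η := div_pos (by linarith) (by linarith)
  have hη1 : η * (1 + q) = q - κ := by
    rw [hη]
    field_simp
  have hn0 : (0 : ℝ) < n := by exact_mod_cast hn
  set δ : ℝ := η / n with hδ
  have hδ0 : 0 < δ := by positivity
  have hδn : n * δ = η := by
    rw [hδ]
    field_simp
  let F : Fin n → V D := fun j => lift D (ν j) (ψ j)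
  have hF0 : ∀ j, (F j).1 0 = ψ j := fun j => lift_zero (hνp j).ne' (hν j).2
  choose Φ φ hφt hφr hφn using fun j => exists_test hDo (F j) hδ0
  -- the combinations
  let Fa : (Fin n → ℝ) → V D := fun a => ∑ i, a i • F i
  let Φa : (Fin n → ℝ) → W3 := fun a => ∑ i, a i • Φ i
  have hrel : ∀ a, Rel D (Φa a) (fun x => ∑ i, a i * φ i x) := fun a =>
    Rel.sum Finset.univ a hφr
  have hFa0 : ∀ a, (Fa a).1 0 = ∑ i, a i • ψ i := by
    intro a
    change io D (∑ i, a i • F i) = _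
    rw [map_sum]
    refine Finset.sum_congr rfl fun i _ => ?_
    rw [map_smul, io_apply, hF0]
  have hinner : ∀ (a : Fin n → ℝ) k, ⟪∑ i, a i • ψ i, ψ k⟫_ℝ = a k := by
    intro a k
    rw [real_inner_comm]
    exact ho.inner_right_fintype a k
  have hs0 : ∀ a, ‖(Fa a).1 0‖ ^ 2 = ∑ i, a i ^ 2 := by
    intro a
    rw [hFa0, ← real_inner_self_eq_norm_sq]
    conv_lhs => rw [inner_sum]
    refine Finset.sum_congr rfl fun i _ => ?_
    rw [real_inner_smul_right, hinner]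
    ring
  have hs1 : ∀ a, ‖Fa a‖ ^ 2 ≤ κ ^ 2 * ∑ i, a i ^ 2 := by
    intro a
    rw [← real_inner_self_eq_norm_sq]
    have e1 : ⟪Fa a, Fa a⟫_ℝ = ∑ i, a i ^ 2 * (ν i)⁻¹ := by
      conv_lhs => rw [show Fa a = ∑ i, a i • F i from rfl, inner_sum]
      refine Finset.sum_congr rfl fun i _ => ?_
      rw [V_inner_smul, lift_inner]
      have e2 : ⟪(∑ i, a i • F i : V D).1 0, ψ i⟫_ℝ = a i := by
        rw [show (∑ i, a i • F i : V D).1 0 = ∑ i, a i • ψ i from hFa0 a, hinner]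
      rw [e2]
      ring
    rw [e1, Finset.mul_sum]
    refine Finset.sum_le_sum fun i _ => ?_
    rw [mul_comm]
    exact mul_le_mul_of_nonneg_right (hκj i) (sq_nonneg _)
  have hdiff : ∀ a, ‖Φa a - (Fa a).1‖ ≤ η * √(∑ i, a i ^ 2) := by
    intro a
    have e1 : Φa a - (Fa a).1 = ∑ i, a i • (Φ i - (F i).1) := by
      change ∑ i, a i • Φ i - (∑ i, a i • F i : V D).1 = _
      rw [show ((∑ i, a i • F i : V D).1 : W3) = ∑ i, a i • (F i).1 by
        rw [Submodule.coe_sum]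
        rfl, ← Finset.sum_sub_distrib]
      refine Finset.sum_congr rfl fun i _ => ?_
      rw [smul_sub]
    rw [e1]
    calc ‖∑ i, a i • (Φ i - (F i).1)‖ ≤ ∑ i, ‖a i • (Φ i - (F i).1)‖ := norm_sum_le _ _
      _ ≤ ∑ i, |a i| * δ := by
          refine Finset.sum_le_sum fun i _ => ?_
          rw [norm_smul, Real.norm_eq_abs]
          exact mul_le_mul_of_nonneg_left (hφn i).le (abs_nonneg _)
      _ = (∑ i, |a i|) * δ := by rw [Finset.sum_mul]
      _ ≤ n * √(∑ i, a i ^ 2) * δ := mul_le_mul_of_nonneg_right (sum_abs_le a) hδ0.le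
      _ = η * √(∑ i, a i ^ 2) := by
          rw [← hδn]
          ring
  have hlow : ∀ a, (1 - η) * √(∑ i, a i ^ 2) ≤ ‖(Φa a) 0‖ := by
    intro a
    have e1 : ‖(Fa a).1 0‖ = √(∑ i, a i ^ 2) := by
      rw [← hs0, Real.sqrt_sq (norm_nonneg _)]
    have e2 : ‖(Φa a) 0 - (Fa a).1 0‖ ≤ η * √(∑ i, a i ^ 2) :=
      (w3_le (Φa a - (Fa a).1)).trans (hdiff a)
    have e3 := norm_sub_norm_le ((Fa a).1 0) ((Φa a) 0)
    rw [norm_sub_rev] at e3
    linarith
  have hup : ∀ a, ‖Φa a‖ ≤ (κ + η) * √(∑ i, a i ^ 2) := by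
    intro a
    have e1 : ‖Fa a‖ ≤ κ * √(∑ i, a i ^ 2) := by
      refine abs_le_of_sq_le_sq' ?_ (by positivity) |>.2
      rw [mul_pow, Real.sq_sqrt (Finset.sum_nonneg fun i _ => sq_nonneg _)]
      exact hs1 a
    have e2 := hdiff a
    have e3 : ‖Φa a‖ ≤ ‖Φa a - (Fa a).1‖ + ‖(Fa a).1‖ := by
      have := norm_add_le (Φa a - (Fa a).1) (Fa a).1
      rwa [sub_add_cancel] at this
    have e4 : ‖(Fa a).1‖ = ‖Fa a‖ := rfl
    rw [e4] at e3
    linarith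
  have hkey : ∀ a, ‖Φa a‖ ≤ q * ‖(Φa a) 0‖ := by
    intro a
    refine (hup a).trans ?_
    refine le_trans ?_ (mul_le_mul_of_nonneg_left (hlow a) hq0.le)
    have e1 : κ + η = q * (1 - η) := by linarith
    rw [e1]
    exact (mul_assoc _ _ _).le
  have h1η : 0 < 1 - η := by
    have : η * (1 + q) < 1 * (1 + q) := by
      rw [hη1]
      linarith
    have := lt_of_mul_lt_mul_right this (by linarith)
    linarith
  have hli : LinearIndependent ℝ φ := by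
    rw [Fintype.linearIndependent_iff]
    intro a ha
    have e1 : ∀ x, ∑ i, a i * φ i x = 0 := by
      intro x
      have := congrFun ha x
      simpa using this
    have e2 := (hrel a).norm0
    simp only [e1, ne_eq, OfNat.ofNat_ne_zero, not_false_eq_true, zero_pow, integral_zero] at e2
    have e3 : ‖(Φa a) 0‖ = 0 := by
      have := pow_eq_zero_iff (two_ne_zero) |>.1 e2
      exact this
    have e4 := hlow a
    rw [e3] at e4
    have e5 : √(∑ i, a i ^ 2) ≤ 0 := by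
      by_contra hh
      push Not at hh
      have := mul_pos h1η hh
      linarith
    have e6 : ∑ i, a i ^ 2 = 0 := by
      have e7 : √(∑ i, a i ^ 2) = 0 := le_antisymm e5 (Real.sqrt_nonneg _)
      exact (Real.sqrt_eq_zero (Finset.sum_nonneg fun i _ => sq_nonneg _)).1 e7
    intro i
    have := (Finset.sum_eq_zero_iff_of_nonneg (fun i _ => sq_nonneg (a i))).1 e6 i
      (Finset.mem_univ i)
    exact pow_eq_zero_iff (two_ne_zero) |>.1 this
  have hmem : q ^ 2 - 1 ∈ {r : ℝ | ∃ φ : Fin n → ℂ → ℝ, (∀ i, IsTest D (φ i)) ∧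
      LinearIndependent ℝ φ ∧
      ∀ a : Fin n → ℝ, ∫ x, ‖fderiv ℝ (fun y => ∑ i, a i * φ i y) x‖ ^ 2 ≤
        r * ∫ x, (∑ i, a i * φ i x) ^ 2} := by
    refine ⟨φ, hφt, hli, fun a => ?_⟩
    rw [← (hrel a).norm12, ← (hrel a).norm0]
    have e1 := w3_norm (Φa a)
    have e2 : ‖Φa a‖ ^ 2 ≤ (q * ‖(Φa a) 0‖) ^ 2 :=
      pow_le_pow_left₀ (norm_nonneg _) (hkey a) 2
    rw [mul_pow] at e2
    linarith
  have hbd : BddBelow {r : ℝ | ∃ φ : Fin n → ℂ → ℝ, (∀ i, IsTest D (φ i)) ∧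
      LinearIndependent ℝ φ ∧
      ∀ a : Fin n → ℝ, ∫ x, ‖fderiv ℝ (fun y => ∑ i, a i * φ i y) x‖ ^ 2 ≤
        r * ∫ x, (∑ i, a i * φ i x) ^ 2} :=
    ⟨0, fun r ⟨φ, h1, h2, h3⟩ => ev_bdd hn h1 h2 h3⟩
  refine (csInf_le hbd hmem).trans_lt ?_
  have e1 : q ^ 2 < (√μ⁻¹) ^ 2 := pow_lt_pow_left₀ hq2 hq0.le two_ne_zero
  rw [Real.sq_sqrt (inv_pos.2 hμ).le] at e1
  rw [one_div]
  linarith

/-- a maximal family of eigenvectors with large eigenvalues -/
theorem exists_max {D : Set ℂ} {μ : ℝ} {n : ℕ}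
    (hno : ¬ ∃ (ψ : Fin n → L2) (ν : Fin n → ℝ), Orthonormal ℝ ψ ∧
      ∀ j, μ < ν j ∧ K D (ψ j) = ν j • ψ j) :
    ∃ (m : ℕ) (ψ : Fin m → L2), m < n ∧
      ∀ (ν : ℝ) (χ : L2), μ < ν → K D χ = ν • χ → χ ∈ Submodule.span ℝ (range ψ) := by
  classical
  let P : ℕ → Prop := fun m => ∃ (ψ : Fin m → L2) (ν : Fin m → ℝ), Orthonormal ℝ ψ ∧
      ∀ j, μ < ν j ∧ K D (ψ j) = ν j • ψ j
  have hP0 : P 0 := ⟨Fin.elim0, Fin.elim0, ⟨fun i => i.elim0, fun i => i.elim0⟩, fun i => i.elim0⟩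
  have hex : ∃ m, ¬ P m := ⟨n, hno⟩
  have hfind := Nat.find_spec hex
  have hpos : Nat.find hex ≠ 0 := by
    intro h
    rw [h] at hfind
    exact hfind hP0
  obtain ⟨m, hm⟩ := Nat.exists_eq_succ_of_ne_zero hpos
  have hPm : P m := by
    by_contra h
    have := Nat.find_min' hex h
    omega
  have hPm1 : ¬ P (m + 1) := by
    rw [hm] at hfind
    exact hfind
  have hmn : m < n := by
    have := Nat.find_min' hex hno
    omega
  obtain ⟨ψ, ν, ho, hν⟩ := hPm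
  refine ⟨m, ψ, hmn, fun ν' χ hν' hχ => ?_⟩
  by_contra hmem
  -- the component orthogonal to the family
  set χ' : L2 := χ - ∑ j, ⟪ψ j, χ⟫_ℝ • ψ j with hχ'
  have hχ'0 : χ' ≠ 0 := by
    intro h
    apply hmem
    rw [hχ', sub_eq_zero] at h
    rw [h]
    exact Submodule.sum_mem _ fun j _ => Submodule.smul_mem _ _ (Submodule.subset_span ⟨j, rfl⟩)
  have horth : ∀ j, ⟪ψ j, χ'⟫_ℝ = 0 := by
    intro j
    rw [hχ', inner_sub_right, ho.inner_right_fintype (fun j => ⟪ψ j, χ⟫_ℝ) j, sub_self]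
  have hsym := K_symm D
  have hz : ∀ j, ν j ≠ ν' → ⟪ψ j, χ⟫_ℝ = 0 := by
    intro j hj
    have h1 : ⟪K D (ψ j), χ⟫_ℝ = ⟪ψ j, K D χ⟫_ℝ := hsym (ψ j) χ
    rw [(hν j).2, hχ, real_inner_smul_left, real_inner_smul_right] at h1
    have h2 : (ν j - ν') * ⟪ψ j, χ⟫_ℝ = 0 := by linarith
    rcases mul_eq_zero.1 h2 with h3 | h3
    · exact absurd (sub_eq_zero.1 h3) hj
    · exact h3
  have heig : K D χ' = ν' • χ' := by
    rw [hχ', map_sub, hχ, map_sum, smul_sub, Finset.smul_sum]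
    congr 1
    refine Finset.sum_congr rfl fun j _ => ?_
    rw [map_smul, (hν j).2]
    by_cases hj : ν j = ν'
    · rw [hj, smul_comm]
    · rw [hz j hj, zero_smul, zero_smul, smul_zero]
  apply hPm1
  have hn0 : ‖χ'‖ ≠ 0 := norm_ne_zero_iff.2 hχ'0
  refine ⟨Fin.cons (‖χ'‖⁻¹ • χ') ψ, Fin.cons ν' ν, ?_, ?_⟩
  · constructor
    · intro i
      refine Fin.cases ?_ (fun i => ?_) i
      · rw [Fin.cons_zero, norm_smul, norm_inv, norm_norm, inv_mul_cancel₀ hn0]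
      · rw [Fin.cons_succ]
        exact ho.1 i
    · intro i j
      refine Fin.cases ?_ (fun i => ?_) i <;> refine Fin.cases ?_ (fun j => ?_) j
      · intro h
        exact absurd rfl h
      · intro _
        change ⟪‖χ'‖⁻¹ • χ', ψ j⟫_ℝ = 0
        rw [real_inner_smul_left, real_inner_comm, horth, mul_zero]
      · intro _
        change ⟪ψ i, ‖χ'‖⁻¹ • χ'⟫_ℝ = 0
        rw [real_inner_smul_right, horth, mul_zero]
      · intro h
        exact ho.2 fun hh => h (by rw [show i = j from hh])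
  · intro j
    refine Fin.cases ?_ (fun j => ?_) j
    · refine ⟨hν', ?_⟩
      change K D (‖χ'‖⁻¹ • χ') = ν' • (‖χ'‖⁻¹ • χ')
      rw [map_smul, heig, smul_comm]
    · exact hν j

/-
Plain proof. Put μ = 1/(1+lam). Let E be the span of all eigenvectors of K D with eigenvalue > μ. If there are n orthonormal
such eigenvectors, conclude with `ev_lt_of_eig`. Otherwise E is finite dimensional of dimension m ≤ n - 1 (eigenspaces for
different eigenvalues are orthogonal; choose a maximal orthonormal family of eigenvectors with eigenvalue > μ).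
Consider the linear map from ℝ^{n+1} to ℝ^m, a ↦ (⟨ψ_j, Σ a_i (F i) 0⟩)_j: its kernel has dimension at least 2. For a in the
kernel S = Σ a_i F i satisfies the hypothesis of `spec_ineq`, and ‖S‖² = (1+lam) ‖S 0‖² by hQ, so there is equality, hence
⟨S, G⟩ = (1+lam) ⟨S 0, G 0⟩ for all G, and by hE S is a multiple of F 0. As the F i are linearly independent, the kernel
has dimension at most 1: contradiction.
-/

/-- TARGET 2: a null space of dimension `n+1` containing only one eigenfunction direction. -/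
theorem index_lemma {D : Set ℂ} (hDo : IsOpen D) (hb : Bornology.IsBounded D) {lam : ℝ}
    (hlam : 0 < lam) {n : ℕ} (hn : 1 ≤ n) (F : Fin (n + 1) → V D) (hli : LinearIndependent ℝ F)
    (hQ : ∀ i j, ⟪F i, F j⟫_ℝ = (1 + lam) * ⟪(F i).1 0, (F j).1 0⟫_ℝ)
    (hE : ∀ a : Fin (n + 1) → ℝ,
      (∀ G : V D, ⟪∑ i, a i • F i, G⟫_ℝ = (1 + lam) * ⟪(∑ i, a i • F i).1 0, G.1 0⟫_ℝ) →
      ∃ s : ℝ, ∑ i, a i • F i = s • F 0) :
    dirichletEigenvalue n D < lam := by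
  by_contra hcon
  set μ : ℝ := 1 / (1 + lam) with hμ
  have hμ0 : 0 < μ := by positivity
  have hμi : 1 / μ - 1 = lam := by
    rw [hμ, one_div_one_div]
    ring
  have hμi' : μ⁻¹ = 1 + lam := by
    rw [hμ, one_div, inv_inv]
  have hno : ¬ ∃ (ψ : Fin n → L2) (ν : Fin n → ℝ), Orthonormal ℝ ψ ∧
      ∀ j, μ < ν j ∧ K D (ψ j) = ν j • ψ j := by
    rintro ⟨ψ, ν, ho, hν⟩
    have := ev_lt_of_eig hDo hb hμ0 hn ψ ν ho hν
    rw [hμi] at this
    exact hcon this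
  obtain ⟨m, ψ, hmn, hψ⟩ := exists_max hno
  let T : (Fin (n + 1) → ℝ) →ₗ[ℝ] V D := Fintype.linearCombination ℝ F
  have hT : ∀ a, T a = ∑ i, a i • F i := fun a => Fintype.linearCombination_apply ℝ F a
  have hTinj : Function.Injective T := by
    rw [← LinearMap.ker_eq_bot, LinearMap.ker_eq_bot']
    intro a ha
    rw [hT] at ha
    funext i
    exact (Fintype.linearIndependent_iff.1 hli) a ha i
  let L : (Fin (n + 1) → ℝ) →ₗ[ℝ] (Fin m → ℝ) :=
    LinearMap.pi fun j => ((innerSL ℝ (ψ j)).toLinearMap ∘ₗ (io D).toLinearMap) ∘ₗ T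
  have hL : ∀ a j, L a j = ⟪ψ j, (T a).1 0⟫_ℝ := fun a j => rfl
  have hker : ∀ a, L a = 0 → T a ∈ Submodule.span ℝ {F 0} := by
    intro a ha
    have h0 : ∀ w ∈ Submodule.span ℝ (range ψ), ⟪w, (T a).1 0⟫_ℝ = 0 := by
      intro w hw
      induction hw using Submodule.span_induction with
      | mem w hw =>
        obtain ⟨j, rfl⟩ := hw
        rw [← hL a j, ha]
        rfl
      | zero => rw [inner_zero_left]
      | add u v _ _ hu hv => rw [inner_add_left, hu, hv, add_zero]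
      | smul c u _ hu => rw [real_inner_smul_left, hu, mul_zero]
    have h1 : ∀ (ν : ℝ) (χ : L2), μ < ν → K D χ = ν • χ → ⟪χ, (T a).1 0⟫_ℝ = 0 :=
      fun ν χ h2 h3 => h0 χ (hψ ν χ h2 h3)
    obtain ⟨-, h2⟩ := spec_ineq hb hμ0 (T a) h1
    have hT0 : (T a).1 0 = ∑ i, a i • (F i).1 0 := by
      rw [hT, ← io_apply, map_sum]
      refine Finset.sum_congr rfl fun i _ => ?_
      rw [map_smul, io_apply]
    have h3 : ‖T a‖ ^ 2 = (1 + lam) * ‖(T a).1 0‖ ^ 2 := by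
      rw [← real_inner_self_eq_norm_sq, ← real_inner_self_eq_norm_sq, hT0]
      have e1 : ∀ i, ⟪T a, F i⟫_ℝ = ∑ j, a j * ⟪F j, F i⟫_ℝ := by
        intro i
        rw [hT, sum_inner]
        refine Finset.sum_congr rfl fun j _ => ?_
        exact real_inner_smul_left (F j) (F i) (a j)
      have e2 : ⟪T a, T a⟫_ℝ = ∑ i, a i * ∑ j, a j * ⟪F j, F i⟫_ℝ := by
        conv_lhs =>
          rw [show ⟪T a, T a⟫_ℝ = ⟪T a, ∑ i, a i • F i⟫_ℝ by rw [← hT], inner_sum]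
        refine Finset.sum_congr rfl fun i _ => ?_
        rw [V_inner_smul, e1]
      rw [e2, inner_sum, Finset.mul_sum]
      refine Finset.sum_congr rfl fun i _ => ?_
      have e3 : ∑ j, a j * ⟪F j, F i⟫_ℝ =
          (1 + lam) * ⟪∑ j, a j • (F j).1 0, (F i).1 0⟫_ℝ := by
        rw [sum_inner, Finset.mul_sum]
        refine Finset.sum_congr rfl fun j _ => ?_
        rw [real_inner_smul_left, hQ]
        ring
      rw [e3, real_inner_smul_right]
      ring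
    have h4 : ‖(T a).1 0‖ ^ 2 = μ * ‖T a‖ ^ 2 := by
      rw [h3, hμ]
      field_simp
    have h5 := h2 h4
    rw [hμi'] at h5
    rw [hT] at h5 ⊢
    obtain ⟨s, hs⟩ := hE a h5
    rw [hs]
    exact Submodule.smul_mem _ _ (Submodule.mem_span_singleton_self _)
  -- dimension count
  have h6 : Module.finrank ℝ (LinearMap.ker L) ≤ 1 := by
    let T' : LinearMap.ker L →ₗ[ℝ] Submodule.span ℝ {F 0} :=
      (T.comp (LinearMap.ker L).subtype).codRestrict _ fun a => hker a.1 a.2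
    have hT' : Function.Injective T' := by
      intro a b hab
      have : T a.1 = T b.1 := congrArg Subtype.val hab
      exact Subtype.ext (hTinj this)
    refine (LinearMap.finrank_le_finrank_of_injective hT').trans ?_
    have h9 := finrank_span_le_card (R := ℝ) ({F 0} : Set (V D))
    simpa using h9
  have h7 := L.finrank_range_add_finrank_ker
  rw [Module.finrank_fin_fun] at h7
  have h8 : Module.finrank ℝ (LinearMap.range L) ≤ m := by
    have := (LinearMap.range L).finrank_le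
    rwa [Module.finrank_fin_fun] at this
  omega

end Pool.Agent.Helper327_Drum
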