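import Pool.Agent.TH298.Sch.Rot1
import Pool.Agent.R227.SA13
import Pool.Agent.Helper327_Drum.Fin.E4
import Pool.Agent.Helper327_Drum.Fin.E5
import Pool.Agent.Helper327_Drum.Fin.F1
import Pool.Agent.Helper327_Drum.Fin.K1b
import Pool.Agent.Helper327_Drum.Fin.M4
import Pool.Agent.Helper327_Drum.MoreDefs
import Pool.Agent.Helper327_Drum.OpDefs

set_option autoImplicit false
open MeasureTheory Set Filter Topology
open scoped ContDiff InnerProductSpace

namespace Pool.Agent.Helper327_Drum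

open Pool.Agent.TH298.Sch (dd SC)
open Pool.Agent.R227.SA (la Wat Dat)

theorem gr_mono {G D : Set ℂ} (h : G ⊆ D) {F : W3} (hF : Gr G F) : Gr D F := by
  obtain ⟨φ, hφ, h0, h1, h2⟩ := hF
  exact ⟨φ, ⟨hφ.1, hφ.2.1, hφ.2.2.trans h⟩, h0, h1, h2⟩

/-- TARGET 1 -/
theorem V_mono {G D : Set ℂ} (h : G ⊆ D) : V G ≤ V D :=
  Submodule.topologicalClosure_mono (Submodule.span_mono (fun _ hF => gr_mono h hF))

theorem inner_L2 (a b : L2) : ⟪a, b⟫_ℝ = ∫ x, a x * b x := by
  rw [MeasureTheory.L2.inner_def]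
  congr 1
  funext x
  simp [mul_comm]

theorem dd_congr {f W : ℂ → ℝ} {x : ℂ} (h : f =ᶠ[𝓝 x] W) (v : ℂ) : dd v f =ᶠ[𝓝 x] dd v W := by
  filter_upwards [h.eventuallyEq_nhds] with y hy
  unfold dd
  rw [hy.fderiv_eq]

theorem la_congr {f W : ℂ → ℝ} {x : ℂ} (h : f =ᶠ[𝓝 x] W) : la f x = la W x := by
  unfold la
  rw [(dd_congr (dd_congr h 1) 1).self_of_nhds,
    (dd_congr (dd_congr h Complex.I) Complex.I).self_of_nhds]

theorem wat_ev {G : Set ℂ} {lam : ℝ} {f : ℂ → ℝ} (hf : Wat G lam f) {x : ℂ} (hx : x ∈ G) :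
    ∃ W, SC W ∧ f =ᶠ[𝓝 x] W ∧ ∀ᶠ y in 𝓝 x, la W y = -(lam * W y) := by
  obtain ⟨r, hr, W, hW, -, h1⟩ := hf.loc x hx
  exact ⟨W, hW, by
    filter_upwards [Metric.ball_mem_nhds x hr] with y hy using (h1 y hy).1, by
    filter_upwards [Metric.ball_mem_nhds x hr] with y hy using (h1 y hy).2⟩

theorem wat_la {G : Set ℂ} {lam : ℝ} {f : ℂ → ℝ} (hf : Wat G lam f) {x : ℂ} (hx : x ∈ G) :
    la f x = -(lam * f x) := by
  obtain ⟨W, hW, h1, h2⟩ := wat_ev hf hx
  rw [la_congr h1, h2.self_of_nhds, h1.self_of_nhds]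

theorem wat_cd {G : Set ℂ} {lam : ℝ} {f : ℂ → ℝ} (hf : Wat G lam f) : ContDiffOn ℝ 2 f G := by
  intro x hx
  obtain ⟨W, hW, h1, -⟩ := wat_ev hf hx
  have h2 : ContDiff ℝ 2 W := by exact_mod_cast contDiff_infty.1 hW.sm 2
  have : ContDiffAt ℝ 2 W x := h2.contDiffAt
  exact (this.congr_of_eventuallyEq h1).contDiffWithinAt

theorem wat_bdd {G : Set ℂ} (hb : Bornology.IsBounded G) {lam : ℝ} {f : ℂ → ℝ}
    (hf : Wat G lam f) : ∃ M : ℝ, ∀ x, |f x| ≤ M := by
  have hc : HasCompactSupport f := by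
    refine HasCompactSupport.intro hb.isCompact_closure ?_
    intro x hx
    exact hf.out x (fun h => hx (subset_closure h))
  obtain ⟨M, hM⟩ := hf.cont.bounded_above_of_compact_support hc
  exact ⟨M, fun x => hM x⟩

/-- TARGET 2 -/
theorem helm_V {G : Set ℂ} (hG : IsOpen G) (hb : Bornology.IsBounded G) {lam : ℝ} {f : ℂ → ℝ}
    (hf : Wat G lam f) :
    ∃ F ∈ V G, F 0 =ᵐ[volume] f ∧ ∀ H ∈ V G, ⟪F, H⟫_ℝ = (1 + lam) * ⟪F 0, H 0⟫_ℝ := by
  obtain ⟨M, hM⟩ := wat_bdd hb hf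
  obtain ⟨F, h0, -, -, h3, -⟩ := mem_V hG hb (f := f) (k := fun x => -(lam * f x)) hf.cont hf.out
    ((wat_cd hf).of_le (by norm_num)) (hf.cont.measurable.const_mul lam).neg
    (fun x hx => by rw [hf.out x hx]; simp) (M := |lam| * M)
    (fun x => by
      rw [abs_neg, abs_mul]
      exact mul_le_mul_of_nonneg_left (hM x) (abs_nonneg _)) (by
      intro φ hφ hs
      rw [weak_of_classical hG (wat_cd hf) (φ := φ) ⟨hφ.sm.of_le (by exact_mod_cast le_top), hφ.cs, hs⟩]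
      congr 1
      refine integral_congr_ae (Eventually.of_forall fun x => ?_)
      change G.indicator (la f) x * φ x = -(lam * f x) * φ x
      by_cases hx : x ∈ G
      · rw [indicator_of_mem hx, wat_la hf hx]
      · rw [indicator_of_notMem hx, hf.out x hx]
        simp)
  refine ⟨F.1, F.2, h0, ?_⟩
  intro H hH
  have h4 := h3 ⟨H, hH⟩
  rw [Submodule.coe_inner] at h4
  change ⟪F.1, H⟫_ℝ = ∫ x, (f x - -(lam * f x)) * (H 0) x at h4
  rw [h4, inner_L2, ← integral_const_mul]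
  refine integral_congr_ae ?_
  filter_upwards [h0] with x hx
  rw [hx]
  ring

/-- TARGET 3 -/
theorem io_inj {D : Set ℂ} {F H : W3} (hF : F ∈ V D) (hH : H ∈ V D) (h : F 0 = H 0) : F = H := by
  have hE : F - H ∈ V D := Submodule.sub_mem _ hF hH
  have h0 : (F - H) 0 = 0 := by
    rw [PiLp.sub_apply, h, sub_self]
  have key : ∀ g : L2, (∀ φ, SC φ → ∫ x, g x * φ x = 0) → g = 0 := by
    intro g hg
    have h1 : LocallyIntegrable (g : ℂ → ℝ) volume :=
      (Lp.memLp g).locallyIntegrable (by norm_num)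
    have h2 := ae_eq_zero_of_integral_contDiff_smul_eq_zero h1 (fun φ hφ hc => by
      have := hg φ ⟨hφ, hc⟩
      rw [← this]
      refine integral_congr_ae (Eventually.of_forall fun x => ?_)
      change φ x • g x = g x * φ x
      rw [smul_eq_mul, mul_comm])
    exact (Lp.eq_zero_iff_ae_eq_zero).2 h2
  have hz : ∀ (ψ : ℂ → ℝ), ∫ x, ((F - H) 0) x * ψ x = 0 := by
    intro ψ
    rw [h0]
    have : (fun x => ((0 : L2) : ℂ → ℝ) x * ψ x) =ᵐ[volume] fun _ => (0 : ℝ) := by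
      filter_upwards [Lp.coeFn_zero ℝ 2 (volume : Measure ℂ)] with x hx
      rw [hx]
      simp
    rw [integral_congr_ae this]
    simp
  have h1 : (F - H) 1 = 0 := by
    apply key
    intro φ hφ
    rw [(V_ibp (D := D) ⟨F - H, hE⟩ hφ).1]
    change -∫ x, ((F - H) 0) x * dd 1 φ x = 0
    rw [hz]
    simp
  have h2 : (F - H) 2 = 0 := by
    apply key
    intro φ hφ
    rw [(V_ibp (D := D) ⟨F - H, hE⟩ hφ).2]
    change -∫ x, ((F - H) 0) x * dd Complex.I φ x = 0
    rw [hz]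
    simp
  have h3 : F - H = 0 := by
    ext1 i
    fin_cases i
    · exact h0
    · exact h1
    · exact h2
  exact sub_eq_zero.1 h3

/-- every component of a test triple is a function vanishing off `G` -/
theorem gr_van {G : Set ℂ} {F : W3} (hF : Gr G F) (k : Fin 3) :
    ∃ ψ : ℂ → ℝ, F k =ᵐ[volume] ψ ∧ ∀ x, x ∉ G → ψ x = 0 := by
  obtain ⟨φ, hφ, h0, h1, h2⟩ := hF
  have hv : ∀ v x, x ∉ G → dd v φ x = 0 := by
    intro v x hx
    unfold dd
    have : fderiv ℝ φ x = 0 := by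
      by_contra hne
      exact hx (hφ.2.2 (support_fderiv_subset ℝ (f := φ) hne))
    rw [this]
    rfl
  fin_cases k
  · exact ⟨φ, h0, fun x hx => by
      by_contra hne
      exact hx (hφ.2.2 (subset_tsupport φ hne))⟩
  · exact ⟨_, h1, hv 1⟩
  · exact ⟨_, h2, hv Complex.I⟩

/-- the functional `F ↦ ⟪h, F k⟫` -/
noncomputable def TT (h : L2) (k : Fin 3) : W3 →L[ℝ] ℝ :=
  (innerSL ℝ h).comp (PiLp.proj 2 (fun _ : Fin 3 => L2) k)

theorem TT_apply (h : L2) (k : Fin 3) (F : W3) : TT h k F = ⟪h, F k⟫_ℝ := rfl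

theorem V_le_ker {G : Set ℂ} (T : W3 →L[ℝ] ℝ) (h : ∀ F, Gr G F → T F = 0) {F : W3}
    (hF : F ∈ V G) : T F = 0 := by
  have h1 : V G ≤ LinearMap.ker T.toLinearMap := by
    refine Submodule.topologicalClosure_minimal _ ?_ T.isClosed_ker
    rw [V0, Submodule.span_le]
    intro F hF
    exact h F hF
  exact h1 hF

theorem orth {G G' : Set ℂ} (hd : Disjoint G G') {F H : W3} (hF : F ∈ V G) (hH : H ∈ V G')
    (k : Fin 3) : ⟪F k, H k⟫_ℝ = 0 := by
  have h1 : ∀ F H : W3, Gr G F → Gr G' H → ⟪H k, F k⟫_ℝ = 0 := by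
    intro F H hF hH
    obtain ⟨ψ, h1, h2⟩ := gr_van hF k
    obtain ⟨χ, h3, h4⟩ := gr_van hH k
    rw [inner_L2]
    have : (fun x => H k x * F k x) =ᵐ[volume] fun _ => (0 : ℝ) := by
      filter_upwards [h1, h3] with x e1 e3
      rw [e1, e3]
      by_cases hx : x ∈ G
      · rw [h4 x (fun h => (Set.disjoint_left.1 hd) hx h), zero_mul]
      · rw [h2 x hx, mul_zero]
    rw [integral_congr_ae this]
    simp
  have h2 : ∀ H : W3, Gr G' H → ⟪F k, H k⟫_ℝ = 0 := by
    intro H hH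
    rw [real_inner_comm]
    exact V_le_ker (TT (H k) k) (fun F hF => h1 F H hF hH) hF
  exact V_le_ker (TT (F k) k) h2 hH

theorem inner_W3 (F H : W3) : ⟪F, H⟫_ℝ = ⟪F 0, H 0⟫_ℝ + ⟪F 1, H 1⟫_ℝ + ⟪F 2, H 2⟫_ℝ := by
  rw [PiLp.inner_apply, Fin.sum_univ_three]

theorem dd_sub_smul {f g : ℂ → ℝ} (hf : SC f) (hg : SC g) (c : ℝ) (v : ℂ) :
    dd v (fun x => f x - c * g x) = fun x => dd v f x - c * dd v g x := by
  funext x
  unfold dd
  have h1 : HasFDerivAt (fun x => f x - c * g x) (fderiv ℝ f x - c • fderiv ℝ g x) x :=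
    (hf.diff x).hasFDerivAt.sub ((hg.diff x).hasFDerivAt.const_mul c)
  rw [h1.fderiv]
  simp

theorem sc_sub_smul {f g : ℂ → ℝ} (hf : SC f) (hg : SC g) (c : ℝ) :
    SC (fun x => f x - c * g x) := by
  refine ⟨hf.sm.sub (contDiff_const.mul hg.sm), ?_⟩
  exact hf.cs.sub (hg.cs.mul_left (f := fun _ => c))

theorem wat_sub_smul {D : Set ℂ} {lam : ℝ} {f g : ℂ → ℝ} (hf : Wat D lam f) (hg : Wat D lam g)
    (c : ℝ) : Wat D lam (fun x => f x - c * g x) := by
  refine ⟨hf.cont.sub (continuous_const.mul hg.cont), fun x hx => by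
    rw [hf.out x hx, hg.out x hx]; simp, ?_⟩
  intro x₀ hx₀
  obtain ⟨r, hr, W, hW, hb, h1⟩ := hf.loc x₀ hx₀
  obtain ⟨r', hr', W', hW', hb', h1'⟩ := hg.loc x₀ hx₀
  refine ⟨min r r', lt_min hr hr', fun x => W x - c * W' x, sc_sub_smul hW hW' c,
    (Metric.ball_subset_ball (min_le_left _ _)).trans hb, ?_⟩
  intro x hx
  have h2 := h1 x (Metric.ball_subset_ball (min_le_left _ _) hx)
  have h3 := h1' x (Metric.ball_subset_ball (min_le_right _ _) hx)
  refine ⟨by rw [h2.1, h3.1], ?_⟩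
  have h4 := h2.2
  have h5 := h3.2
  unfold la at h4 h5 ⊢
  rw [dd_sub_smul hW hW', dd_sub_smul hW hW',
    dd_sub_smul (Pool.Agent.TH298.Sch.dd_sc hW 1) (Pool.Agent.TH298.Sch.dd_sc hW' 1),
    dd_sub_smul (Pool.Agent.TH298.Sch.dd_sc hW Complex.I)
      (Pool.Agent.TH298.Sch.dd_sc hW' Complex.I)]
  linear_combination h4 - c * h5

theorem sc_memLp {φ : ℂ → ℝ} (h : SC φ) : MemLp φ 2 (volume : Measure ℂ) :=
  h.cont.memLp_of_hasCompactSupport h.cs

/-- the class of a test function -/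
theorem test_class {D : Set ℂ} {φ : ℂ → ℝ} (h : SC φ) (hs : tsupport φ ⊆ D) :
    ∃ H ∈ V D, H 0 =ᵐ[volume] φ ∧ H 1 =ᵐ[volume] dd 1 φ ∧ H 2 =ᵐ[volume] dd Complex.I φ := by
  have m0 := sc_memLp h
  have m1 := sc_memLp (Pool.Agent.TH298.Sch.dd_sc h 1)
  have m2 := sc_memLp (Pool.Agent.TH298.Sch.dd_sc h Complex.I)
  let H : W3 := WithLp.toLp 2 ![m0.toLp φ, m1.toLp (dd 1 φ), m2.toLp (dd Complex.I φ)]
  have e0 : H 0 =ᵐ[volume] φ := m0.coeFn_toLp
  have e1 : H 1 =ᵐ[volume] dd 1 φ := m1.coeFn_toLp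
  have e2 : H 2 =ᵐ[volume] dd Complex.I φ := m2.coeFn_toLp
  refine ⟨H, ?_, e0, e1, e2⟩
  apply Submodule.le_topologicalClosure
  apply Submodule.subset_span
  exact ⟨φ, ⟨h.sm.of_le (by exact_mod_cast le_top), h.cs, hs⟩, e0, e1, e2⟩

/-- a continuous function representing an element of `V D` which solves the eigenvalue equation
weakly is a local solution -/
theorem wat_of_weak {D : Set ℂ} (hDo : IsOpen D) {lam : ℝ} (hlam : 0 < lam) {S : W3}
    (hS : S ∈ V D) {s : ℂ → ℝ} (hs : Continuous s) (hs0 : ∀ x, x ∉ D → s x = 0)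
    (hSs : S 0 =ᵐ[volume] s)
    (hw : ∀ H ∈ V D, ⟪S, H⟫_ℝ = (1 + lam) * ⟪S 0, H 0⟫_ℝ) : Wat D lam s := by
  refine ⟨hs, hs0, ?_⟩
  refine reg hDo hlam hs ?_
  intro φ hφ hsu
  obtain ⟨H, hH, e0, e1, e2⟩ := test_class hφ hsu
  have h1 := hw H hH
  rw [inner_W3, inner_L2, inner_L2, inner_L2] at h1
  have g1 := (V_ibp (D := D) ⟨S, hS⟩ (Pool.Agent.TH298.Sch.dd_sc hφ 1)).1
  have g2 := (V_ibp (D := D) ⟨S, hS⟩ (Pool.Agent.TH298.Sch.dd_sc hφ Complex.I)).2
  change ∫ x, (S 1) x * dd 1 φ x = - ∫ x, (S 0) x * dd 1 (dd 1 φ) x at g1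
  change ∫ x, (S 2) x * dd Complex.I φ x = - ∫ x, (S 0) x * dd Complex.I (dd Complex.I φ) x at g2
  have k0 : ∫ x, S 0 x * H 0 x = ∫ x, s x * φ x := by
    refine integral_congr_ae ?_
    filter_upwards [hSs, e0] with x h h'
    rw [h, h']
  have k1 : ∫ x, S 1 x * H 1 x = ∫ x, S 1 x * dd 1 φ x := by
    refine integral_congr_ae ?_
    filter_upwards [e1] with x h
    rw [h]
  have k2 : ∫ x, S 2 x * H 2 x = ∫ x, S 2 x * dd Complex.I φ x := by
    refine integral_congr_ae ?_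
    filter_upwards [e2] with x h
    rw [h]
  have k3 : ∀ ψ : ℂ → ℝ, ∫ x, S 0 x * ψ x = ∫ x, s x * ψ x := by
    intro ψ
    refine integral_congr_ae ?_
    filter_upwards [hSs] with x h
    rw [h]
  rw [k0, k1, k2, g1, g2, k3, k3] at h1
  have i1 : Integrable (fun x => s x * dd 1 (dd 1 φ) x) :=
    (hs.mul (Pool.Agent.TH298.Sch.dd_sc (Pool.Agent.TH298.Sch.dd_sc hφ 1) 1).cont).integrable_of_hasCompactSupport
      (Pool.Agent.TH298.Sch.dd_sc (Pool.Agent.TH298.Sch.dd_sc hφ 1) 1).cs.mul_left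
  have i2 : Integrable (fun x => s x * dd Complex.I (dd Complex.I φ) x) :=
    (hs.mul (Pool.Agent.TH298.Sch.dd_sc (Pool.Agent.TH298.Sch.dd_sc hφ Complex.I) Complex.I).cont).integrable_of_hasCompactSupport
      (Pool.Agent.TH298.Sch.dd_sc (Pool.Agent.TH298.Sch.dd_sc hφ Complex.I) Complex.I).cs.mul_left
  have i3 : Integrable (fun x => s x * φ x) :=
    (hs.mul hφ.cont).integrable_of_hasCompactSupport hφ.cs.mul_left
  have e : (fun x => s x * (la φ x + lam * φ x)) = fun x => (s x * dd 1 (dd 1 φ) x +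
      s x * dd Complex.I (dd Complex.I φ) x) + lam * (s x * φ x) := by
    funext x
    unfold la
    ring
  have i12 : Integrable (fun x => s x * dd 1 (dd 1 φ) x +
      s x * dd Complex.I (dd Complex.I φ) x) := i1.add i2
  rw [e, integral_add i12 (i3.const_mul lam), integral_add i1 i2, integral_const_mul]
  linarith

/-- TARGET 4: the counting lemma in terms of solutions on nested or disjoint subdomains. -/
theorem index_family {D : Set ℂ} (hDo : IsOpen D) (hb : Bornology.IsBounded D)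
    (hDc : IsPreconnected D) {lam : ℝ} (hlam : 0 < lam) {n : ℕ} (hn : 1 ≤ n)
    (G : Fin (n + 1) → Set ℂ) (φ : Fin (n + 1) → ℂ → ℝ) (hG : ∀ i, IsOpen (G i) ∧ G i ⊆ D)
    (hφ : ∀ i, Wat (G i) lam (φ i))
    (hnest : ∀ i j, G i ⊆ G j ∨ G j ⊆ G i ∨ Disjoint (G i) (G j)) (h0 : G 0 = D)
    (hex : ∃ a ∈ D, ∀ i, i ≠ 0 → φ i =ᶠ[𝓝 a] 0) (hli : LinearIndependent ℝ φ) :
    dirichletEigenvalue n D < lam := by
  choose F hFV hF0 hFe using fun i => helm_V (hG i).1 (hb.subset (hG i).2) (hφ i)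
  have hFD : ∀ i, F i ∈ V D := fun i => V_mono (hG i).2 (hFV i)
  -- the sums
  have hsum : ∀ a : Fin (n + 1) → ℝ,
      (∑ i, a i • F i) 0 =ᵐ[volume] fun x => ∑ i, a i * φ i x := by
    intro a
    have h1 : (∑ i, a i • F i) 0 = ∑ i, a i • (F i 0) := by
      have := map_sum (PiLp.proj 2 (fun _ : Fin 3 => L2) (0 : Fin 3) : W3 →L[ℝ] L2)
        (fun i => a i • F i) Finset.univ
      exact this
    rw [h1]
    have h2 : ∀ s : Finset (Fin (n + 1)), ((∑ i ∈ s, a i • (F i 0) : L2) : ℂ → ℝ) =ᵐ[volume]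
        fun x => ∑ i ∈ s, a i * φ i x := by
      intro s
      induction s using Finset.induction_on with
      | empty =>
        simp only [Finset.sum_empty]
        exact Lp.coeFn_zero ℝ 2 (volume : Measure ℂ)
      | insert i s hi ih =>
        rw [Finset.sum_insert hi]
        filter_upwards [Lp.coeFn_add (a i • (F i 0)) (∑ i ∈ s, a i • (F i 0)), ih, hF0 i,
          Lp.coeFn_smul (a i) (F i 0)] with x e1 e2 e3 e4
        rw [e1, Pi.add_apply, e2, e4, Pi.smul_apply, e3, smul_eq_mul, Finset.sum_insert hi]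
    exact h2 Finset.univ
  have hcont : ∀ a : Fin (n + 1) → ℝ, Continuous fun x => ∑ i, a i * φ i x := by
    intro a
    exact continuous_finsetSum _ (fun i _ => continuous_const.mul (hφ i).cont)
  refine index_lemma hDo hb hlam hn (fun i => ⟨F i, hFD i⟩) ?_ ?_ ?_
  · -- linear independence
    rw [Fintype.linearIndependent_iff] at hli ⊢
    intro a ha
    apply hli
    have h1 : ∑ i, a i • F i = 0 := by
      have := congrArg Subtype.val ha
      simpa using this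
    have h2 := hsum a
    rw [h1] at h2
    have h3 : (fun x => ∑ i, a i * φ i x) =ᵐ[volume] fun _ => (0 : ℝ) := by
      filter_upwards [h2, Lp.coeFn_zero ℝ 2 (volume : Measure ℂ)] with x e1 e2
      rw [← e1]
      exact e2
    have h4 := (Continuous.ae_eq_iff_eq volume (hcont a) continuous_const).1 h3
    funext x
    have := congrFun h4 x
    simpa using this
  · -- the quadratic form
    intro i j
    change ⟪F i, F j⟫_ℝ = (1 + lam) * ⟪F i 0, F j 0⟫_ℝ
    rcases hnest i j with h | h | h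
    · rw [real_inner_comm, hFe j (F i) (V_mono h (hFV i)), real_inner_comm]
    · exact hFe i (F j) (V_mono h (hFV j))
    · rw [inner_W3, orth h (hFV i) (hFV j) 0, orth h (hFV i) (hFV j) 1,
        orth h (hFV i) (hFV j) 2]
      simp
  · -- the null space
    intro a ha
    refine ⟨a 0, ?_⟩
    set S : W3 := ∑ i, a i • F i with hS
    have hSV : S ∈ V D := Submodule.sum_mem _ (fun i _ => Submodule.smul_mem _ _ (hFD i))
    have hSe : ((∑ i, a i • (⟨F i, hFD i⟩ : V D) : V D) : W3) = S := by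
      simp [hS]
    have hw : ∀ H ∈ V D, ⟪S, H⟫_ℝ = (1 + lam) * ⟪S 0, H 0⟫_ℝ := by
      intro H hH
      have := ha ⟨H, hH⟩
      rw [Submodule.coe_inner, hSe] at this
      exact this
    have hwat : Wat D lam (fun x => ∑ i, a i * φ i x) := by
      refine wat_of_weak hDo hlam hSV (hcont a) ?_ (hsum a) hw
      intro x hx
      refine Finset.sum_eq_zero (fun i _ => ?_)
      rw [(hφ i).out x (fun h => hx ((hG i).2 h)), mul_zero]
    have hw0 : Wat D lam (φ 0) := by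
      have := hφ 0
      rwa [h0] at this
    obtain ⟨p, hp, hpz⟩ := hex
    have huc := (wat_sub_smul hwat hw0 (a 0)).uc hlam hDc hp (by
      have h1 : ∀ᶠ x in 𝓝 p, ∀ i, i ≠ 0 → φ i x = 0 := by
        rw [eventually_all]
        intro i
        by_cases hi : i = 0
        · simp [hi]
        · filter_upwards [hpz i hi] with x hx _ using hx
      filter_upwards [h1] with x hx
      rw [Fin.sum_univ_succ, Finset.sum_eq_zero (fun i _ => by
        rw [hx _ (Fin.succ_ne_zero i), mul_zero])]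
      simp)
    have hfin : S = a 0 • F 0 := by
      refine io_inj hSV (Submodule.smul_mem _ _ (hFD 0)) ?_
      rw [PiLp.smul_apply]
      apply Lp.ext
      filter_upwards [hsum a, hF0 0, Lp.coeFn_smul (a 0) (F 0 0)] with x e1 e2 e3
      rw [e1, e3, Pi.smul_apply, e2, smul_eq_mul]
      have := huc x
      linarith
    apply Subtype.ext
    rw [hSe, hfin]
    rfl

end Pool.Agent.Helper327_Drum
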