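import Pool.Agent.TH298.Sch.Rot1
import Pool.Agent.R227.SA19
import Pool.Agent.Helper327_Drum.Fin.K1d
import Pool.Agent.Helper327_Drum.Fin.K2a
import Pool.Agent.Helper327_Drum.MoreDefs
import Pool.Agent.Helper327_Drum.OpDefs

set_option autoImplicit false
open MeasureTheory Set Filter Topology
open scoped ContDiff InnerProductSpace

namespace Pool.Agent.Helper327_Drum

open Pool.Agent.TH298.Sch (dd SC)
open Pool.Agent.R227.SA (la Wat Dat)

open Pool.Agent.TH298.Sch (X er Lr)

/-
Plain proof. Suppose Ω is not a disc. By `kill_disc` no nontrivial infinitesimal motion annihilates v. Take p and G_1, G_2, G_3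
from `three_comps`, w(x) = fderiv v x (I (x - p)), and apply `index_family` with n = 5 and the six pairs
(D, u), (G_i, G_i.indicator w), i = 1, 2, 3, (Ω, ∂₁v), (Ω, ∂_I v) (`kill_wat`). The sets are nested or disjoint. hex: a point of
D \ closure Ω (hypothesis hout). Linear independence: suppose a u + Σ b_i G_i.indicator w + d_1 ∂₁v + d_2 ∂_I v = 0. On the
nonempty open set D \ closure Ω this says a u = 0, and u does not vanish identically on a nonempty open subset of the
connected set D (`Wat.uc`, hu0), so a = 0. On G_i (nonempty open): b_i w + d_1 ∂₁v + d_2 ∂_I v = 0; this function,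
x ↦ fderiv v x (d_1 + d_2 I + b_i I (x - p)), is in Wat Ω lam (`kill_wat`), so by `Wat.uc` it vanishes everywhere, and by the choice of
Ω (hnr) d_1 + d_2 I - b_i I p = 0 and b_i = 0; so d_1 = d_2 = 0.
-/

/-- TARGET: the index bound in the case without symmetry. -/
theorem nonradial_index {D Ω : Set ℂ} {lam c : ℝ} {u v : ℂ → ℝ} (hDo : IsOpen D)
    (hDb : Bornology.IsBounded D) (hDc : IsPreconnected D) (hu : Wat D lam u) (hu0 : ∃ x, u x ≠ 0)
    (hv : Dat Ω lam c v) (ho : IsOpen Ω) (hne : Ω.Nonempty) (hcon : IsPreconnected Ω)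
    (hreg : interior (closure Ω) = Ω) (hcc : IsPreconnected Ωᶜ) (hΩD : Ω ⊆ D)
    (hout : (D \ closure Ω).Nonempty) (hlam : 0 < lam) (hc : c ≠ 0) :
    dirichletEigenvalue 5 D < lam ∨ ∃ (p : ℂ) (r : ℝ), 0 < r ∧ Ω = Metric.ball p r := by
  classical
  by_cases hd : ∃ (p : ℂ) (r : ℝ), 0 < r ∧ Ω = Metric.ball p r
  · exact Or.inr hd
  left
  have hb : Bornology.IsBounded Ω := hDb.subset hΩD
  have hnr : ∀ (a : ℂ) (b : ℝ), a ≠ 0 ∨ b ≠ 0 →
      ∃ x, fderiv ℝ v x (a + b * Complex.I * x) ≠ 0 := by
    intro a b hab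
    by_contra hcon2
    push Not at hcon2
    exact hd (kill_disc hv ho hb hne hcon hreg hcc hlam hc hab hcon2)
  obtain ⟨p, G, hG, hGd, hGw⟩ := three_comps hv hb hne hcon hlam hc hnr
  set w : ℂ → ℝ := fun x => fderiv ℝ v x (Complex.I * (x - p)) with hw
  have hW1 : Wat Ω lam (fun x => fderiv ℝ v x 1) := by
    have := kill_wat hv 1 0
    simpa using this
  have hWI : Wat Ω lam (fun x => fderiv ℝ v x Complex.I) := by
    have := kill_wat hv Complex.I 0
    simpa using this
  obtain ⟨a, haD, haΩ⟩ := hout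
  have hnear : ∀ᶠ x in 𝓝 a, x ∉ Ω := by
    have h1 : (closure Ω)ᶜ ∈ 𝓝 a := isClosed_closure.isOpen_compl.mem_nhds haΩ
    filter_upwards [h1] with x hx hx2
    exact hx (subset_closure hx2)
  have hz1 : (fun x => fderiv ℝ v x 1) =ᶠ[𝓝 a] 0 := by
    filter_upwards [hnear] with x hx
    exact hW1.out x hx
  have hzI : (fun x => fderiv ℝ v x Complex.I) =ᶠ[𝓝 a] 0 := by
    filter_upwards [hnear] with x hx
    exact hWI.out x hx
  have hzG : ∀ i, (G i).indicator w =ᶠ[𝓝 a] 0 := by
    intro i
    filter_upwards [hnear] with x hx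
    exact (hGw i).out x (fun h => hx ((hG i).2.2 h))
  refine index_family hDo hDb hDc hlam (n := 5) (by norm_num)
    (![D, G 0, G 1, G 2, Ω, Ω])
    (![u, (G 0).indicator w, (G 1).indicator w, (G 2).indicator w,
      fun x => fderiv ℝ v x 1, fun x => fderiv ℝ v x Complex.I]) ?_ ?_ ?_ rfl ⟨a, haD, ?_⟩ ?_
  · intro i
    fin_cases i
    · exact ⟨hDo, subset_rfl⟩
    · exact ⟨(hG 0).1, (hG 0).2.2.trans hΩD⟩
    · exact ⟨(hG 1).1, (hG 1).2.2.trans hΩD⟩
    · exact ⟨(hG 2).1, (hG 2).2.2.trans hΩD⟩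
    · exact ⟨ho, hΩD⟩
    · exact ⟨ho, hΩD⟩
  · intro i
    fin_cases i
    · exact hu
    · exact hGw 0
    · exact hGw 1
    · exact hGw 2
    · exact hW1
    · exact hWI
  · have hs : ∀ i : Fin 3, G i ⊆ Ω := fun i => (hG i).2.2
    have hsD : ∀ i : Fin 3, G i ⊆ D := fun i => (hG i).2.2.trans hΩD
    intro i j
    fin_cases i <;> fin_cases j
    · exact Or.inl subset_rfl
    · exact Or.inr (Or.inl (hsD 0))
    · exact Or.inr (Or.inl (hsD 1))
    · exact Or.inr (Or.inl (hsD 2))
    · exact Or.inr (Or.inl hΩD)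
    · exact Or.inr (Or.inl hΩD)
    · exact Or.inl (hsD 0)
    · exact Or.inl subset_rfl
    · exact Or.inr (Or.inr (hGd 0 1 (by decide)))
    · exact Or.inr (Or.inr (hGd 0 2 (by decide)))
    · exact Or.inl (hs 0)
    · exact Or.inl (hs 0)
    · exact Or.inl (hsD 1)
    · exact Or.inr (Or.inr (hGd 1 0 (by decide)))
    · exact Or.inl subset_rfl
    · exact Or.inr (Or.inr (hGd 1 2 (by decide)))
    · exact Or.inl (hs 1)
    · exact Or.inl (hs 1)
    · exact Or.inl (hsD 2)
    · exact Or.inr (Or.inr (hGd 2 0 (by decide)))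
    · exact Or.inr (Or.inr (hGd 2 1 (by decide)))
    · exact Or.inl subset_rfl
    · exact Or.inl (hs 2)
    · exact Or.inl (hs 2)
    · exact Or.inl hΩD
    · exact Or.inr (Or.inl (hs 0))
    · exact Or.inr (Or.inl (hs 1))
    · exact Or.inr (Or.inl (hs 2))
    · exact Or.inl subset_rfl
    · exact Or.inl subset_rfl
    · exact Or.inl hΩD
    · exact Or.inr (Or.inl (hs 0))
    · exact Or.inr (Or.inl (hs 1))
    · exact Or.inr (Or.inl (hs 2))
    · exact Or.inl subset_rfl
    · exact Or.inl subset_rfl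
  · intro i hi
    fin_cases i
    · exact absurd rfl hi
    · exact hzG 0
    · exact hzG 1
    · exact hzG 2
    · exact hz1
    · exact hzI
  · rw [Fintype.linearIndependent_iff]
    intro g hg
    have hsum : ∀ x, g 0 * u x + g 1 * (G 0).indicator w x + g 2 * (G 1).indicator w x
        + g 3 * (G 2).indicator w x + g 4 * fderiv ℝ v x 1 + g 5 * fderiv ℝ v x Complex.I = 0 := by
      intro x
      have h1 := congrFun hg x
      rw [Finset.sum_apply, Fin.sum_univ_six] at h1
      exact h1
    have hg0 : g 0 = 0 := by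
      by_contra h0
      obtain ⟨y, hy⟩ := hu0
      apply hy
      refine hu.uc hlam hDc haD ?_ y
      filter_upwards [hz1, hzI, hzG 0, hzG 1, hzG 2] with x e1 e2 e3 e4 e5
      have h1 := hsum x
      rw [e3, e4, e5] at h1
      have e1' : fderiv ℝ v x 1 = 0 := e1
      have e2' : fderiv ℝ v x Complex.I = 0 := e2
      rw [e1', e2'] at h1
      simp only [Pi.zero_apply, mul_zero, add_zero] at h1
      exact (mul_eq_zero.1 h1).resolve_left h0
    have key : ∀ (i : Fin 3) (b : ℝ), (∀ x ∈ G i, b * w x + g 4 * fderiv ℝ v x 1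
        + g 5 * fderiv ℝ v x Complex.I = 0) → b = 0 ∧ g 4 = 0 ∧ g 5 = 0 := by
      intro i b hb0
      obtain ⟨q, hq⟩ := (hG i).2.1
      have hform : ∀ x, fderiv ℝ v x ((g 4 + g 5 * Complex.I - b * Complex.I * p)
          + b * Complex.I * x) = b * w x + g 4 * fderiv ℝ v x 1
          + g 5 * fderiv ℝ v x Complex.I := by
        intro x
        have h1 : ((g 4 : ℂ) + g 5 * Complex.I - b * Complex.I * p) + b * Complex.I * x
            = b • (Complex.I * (x - p)) + g 4 • (1 : ℂ) + g 5 • Complex.I := by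
          simp only [Complex.real_smul]
          ring
        rw [h1, map_add, map_add, map_smul, map_smul, map_smul]
        rfl
      have hWk := kill_wat hv ((g 4 : ℂ) + g 5 * Complex.I - b * Complex.I * p) b
      have hall : ∀ x, fderiv ℝ v x ((g 4 + g 5 * Complex.I - b * Complex.I * p)
          + b * Complex.I * x) = 0 := by
        refine hWk.uc hlam hcon ((hG i).2.2 hq) ?_
        filter_upwards [(hG i).1.mem_nhds hq] with x hx
        show fderiv ℝ v x _ = 0
        rw [hform, hb0 x hx]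
      by_contra hne2
      have h2 : ((g 4 : ℂ) + g 5 * Complex.I - b * Complex.I * p) ≠ 0 ∨ b ≠ 0 := by
        by_contra h3
        push Not at h3
        obtain ⟨h4, h5⟩ := h3
        apply hne2
        rw [h5] at h4
        simp only [Complex.ofReal_zero, zero_mul, sub_zero] at h4
        have h6 := congrArg Complex.re h4
        have h7 := congrArg Complex.im h4
        simp at h6 h7
        exact ⟨h5, h6, h7⟩
      obtain ⟨x, hx⟩ := hnr _ _ h2
      exact hx (hall x)
    have hmem : ∀ i : Fin 3, ∀ x ∈ G i, (G i).indicator w x = w x :=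
      fun i x hx => Set.indicator_of_mem hx _
    have hnmem : ∀ i j : Fin 3, i ≠ j → ∀ x ∈ G i, (G j).indicator w x = 0 :=
      fun i j hij x hx => Set.indicator_of_notMem (fun h => (hGd i j hij).le_bot ⟨hx, h⟩) _
    obtain ⟨k1, k4, k5⟩ := key 0 (g 1) (fun x hx => by
      have h1 := hsum x
      rw [hg0, hmem 0 x hx, hnmem 0 1 (by decide) x hx, hnmem 0 2 (by decide) x hx] at h1
      linarith)
    obtain ⟨k2, -, -⟩ := key 1 (g 2) (fun x hx => by
      have h1 := hsum x
      rw [hg0, hmem 1 x hx, hnmem 1 0 (by decide) x hx, hnmem 1 2 (by decide) x hx] at h1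
      linarith)
    obtain ⟨k3, -, -⟩ := key 2 (g 3) (fun x hx => by
      have h1 := hsum x
      rw [hg0, hmem 2 x hx, hnmem 2 0 (by decide) x hx, hnmem 2 1 (by decide) x hx] at h1
      linarith)
    intro i
    fin_cases i
    · exact hg0
    · exact k1
    · exact k2
    · exact k3
    · exact k4
    · exact k5

end Pool.Agent.Helper327_Drum
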