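import Pool.Agent.Helper327_Drum.Fin.K1d
import Pool.Agent.Helper327_Drum.Fin.K2a
import Pool.Agent.Helper327_Drum.Fin.K2b

set_option autoImplicit false
open MeasureTheory Set Filter Topology ComplexConjugate
open scoped ContDiff InnerProductSpace

namespace Pool.Agent.Helper327_Drum

open Pool.Agent.TH298.Sch (dd SC)
open Pool.Agent.R227.SA (la Wat Dat)

theorem sy_low {E : Type*} [NormedAddCommGroup E] [NormedSpace ℝ E] {n : ℕ} {v : Fin n → E}
    (hv : LinearIndependent ℝ v) : ∃ c : ℝ, 0 < c ∧ ∀ a : Fin n → ℝ, c * ∑ i, |a i| ≤ ‖∑ i, a i • v i‖ := by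
  let T : (Fin n → ℝ) →ₗ[ℝ] E := Fintype.linearCombination ℝ v
  have hT : ∀ a, T a = ∑ i, a i • v i := fun a => Fintype.linearCombination_apply ℝ v a
  have hker : LinearMap.ker T = ⊥ := by
    rw [LinearMap.ker_eq_bot']
    intro a ha
    rw [hT] at ha
    funext i
    exact (Fintype.linearIndependent_iff.1 hv) a ha i
  obtain ⟨K, hK, hA⟩ := T.exists_antilipschitzWith hker
  have h1 : ∀ a, ‖a‖ ≤ K * ‖T a‖ := fun a => by
    have := hA.le_mul_dist a 0
    simpa using this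
  have hK' : (0 : ℝ) < K := hK
  refine ⟨((n + 1) * K)⁻¹, by positivity, fun a => ?_⟩
  have h2 : ∑ i, |a i| ≤ (n + 1) * ‖a‖ := by
    calc ∑ i, |a i| ≤ ∑ _i : Fin n, ‖a‖ := Finset.sum_le_sum fun i _ => norm_le_pi_norm a i
      _ = n * ‖a‖ := by simp
      _ ≤ (n + 1) * ‖a‖ := by nlinarith [norm_nonneg a]
  rw [← hT]
  have h3 := h1 a
  rw [inv_mul_le_iff₀ (by positivity)]
  calc ∑ i, |a i| ≤ (n + 1) * ‖a‖ := h2
    _ ≤ (n + 1) * (K * ‖T a‖) := by gcongr
    _ = (n + 1) * K * ‖T a‖ := by ring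

theorem sy_bumps {D : Set ℂ} (hDo : IsOpen D) (hne : D.Nonempty) (l : ℕ) :
    ∃ φ : Fin l → ℂ → ℝ, (∀ i, ContDiff ℝ (⊤ : ℕ∞) (φ i) ∧ HasCompactSupport (φ i) ∧ tsupport (φ i) ⊆ D) ∧ LinearIndependent ℝ φ := by
  obtain ⟨p, hp⟩ := hne
  obtain ⟨ρ, hρ, hball⟩ := Metric.isOpen_iff.1 hDo p hp
  let s : ℝ := ρ / (2 * (l + 1))
  have hs : 0 < s := by positivity
  have hsl : s * (l + 1) = ρ / 2 := by
    show ρ / (2 * (l + 1)) * (l + 1) = ρ / 2
    field_simp
  let q : Fin l → ℂ := fun i => p + ((i : ℝ) * s : ℝ)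
  have hq : ∀ i j, i ≠ j → s ≤ dist (q i) (q j) := by
    intro i j hij
    have h1 : q i - q j = ((((i : ℝ) - (j : ℝ)) * s : ℝ) : ℂ) := by
      simp only [q]
      push_cast
      ring
    rw [dist_eq_norm, h1, Complex.norm_real, Real.norm_eq_abs, abs_mul, abs_of_pos hs]
    have h2 : (1 : ℝ) ≤ |(i : ℝ) - (j : ℝ)| := by
      have h3 : ((i : ℕ) : ℤ) - ((j : ℕ) : ℤ) ≠ 0 := by
        intro h
        exact hij (Fin.ext (by omega))
      have h4 := Int.one_le_abs h3
      have h5 : ((1 : ℤ) : ℝ) ≤ ((|((i : ℕ) : ℤ) - ((j : ℕ) : ℤ)| : ℤ) : ℝ) := by exact_mod_cast h4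
      push_cast at h5
      exact h5
    nlinarith
  let B : ∀ i, ContDiffBump (q i) := fun i => ⟨s / 4, s / 2, by positivity, by linarith⟩
  refine ⟨fun i => B i, fun i => ⟨(B i).contDiff, (B i).hasCompactSupport, ?_⟩, ?_⟩
  · rw [(B i).tsupport_eq]
    intro x hx
    apply hball
    rw [Metric.mem_closedBall] at hx
    rw [Metric.mem_ball]
    have h1 : dist (q i) p = (i : ℝ) * s := by
      rw [dist_eq_norm]
      show ‖p + ((i : ℝ) * s : ℝ) - p‖ = _
      rw [add_sub_cancel_left, Complex.norm_real, Real.norm_eq_abs, abs_of_nonneg (by positivity)]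
    have h2 : (i : ℝ) ≤ l := by exact_mod_cast i.2.le
    have h3 : dist x (q i) ≤ s / 2 := hx
    calc dist x p ≤ dist x (q i) + dist (q i) p := dist_triangle _ _ _
      _ ≤ s / 2 + l * s := by rw [h1]; gcongr
      _ < s * (l + 1) := by nlinarith
      _ < ρ := by rw [hsl]; linarith
  · rw [Fintype.linearIndependent_iff]
    intro a ha j
    have h1 := congrFun ha (q j)
    rw [Finset.sum_apply, Finset.sum_eq_single j] at h1
    · have h2 : (B j) (q j) = 1 := (B j).one_of_mem_closedBall (Metric.mem_closedBall_self (by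
        show 0 ≤ s / 4
        positivity))
      simp only [Pi.smul_apply, smul_eq_mul, h2, mul_one, Pi.zero_apply] at h1
      exact h1
    · intro i _ hij
      have h2 : (B i) (q j) = 0 := (B i).zero_of_le_dist (by
        show s / 2 ≤ dist (q j) (q i)
        have := hq j i (Ne.symm hij)
        linarith)
      simp only [Pi.smul_apply, smul_eq_mul, h2, mul_zero]
    · intro h
      exact absurd (Finset.mem_univ j) h

/-- the set in the definition of the eigenvalue -/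
def EvSet (k : ℕ) (D : Set ℂ) : Set ℝ :=
  {r : ℝ | ∃ φ : Fin k → ℂ → ℝ, (∀ i, IsTest D (φ i)) ∧ LinearIndependent ℝ φ ∧
    ∀ a : Fin k → ℝ, ∫ x, ‖fderiv ℝ (fun y => ∑ i, a i * φ i y) x‖ ^ 2 ≤
      r * ∫ x, (∑ i, a i * φ i x) ^ 2}

theorem ev_eq (k : ℕ) (D : Set ℂ) : dirichletEigenvalue k D = sInf (EvSet k D) := rfl

theorem sy_bdd {D : Set ℂ} {n : ℕ} (hn : 1 ≤ n) : BddBelow (EvSet n D) :=
  ⟨0, fun _ ⟨_, h1, h2, h3⟩ => ev_bdd hn h1 h2 h3⟩

theorem sy_comp0 {n : ℕ} (Φ : Fin n → W3) (a : Fin n → ℝ) :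
    (∑ i, a i • Φ i) 0 = ∑ i, a i • (Φ i 0) := by
  have := map_sum (PiLp.proj 2 (fun _ : Fin 3 => L2) (0 : Fin 3) : W3 →L[ℝ] L2)
    (fun i => a i • Φ i) Finset.univ
  exact this

/-- membership from bounds on the classes -/
theorem sy_mem {D : Set ℂ} {n : ℕ} {Φ : Fin n → W3} {φ : Fin n → ℂ → ℝ}
    (hφt : ∀ i, IsTest D (φ i)) (hφr : ∀ i, Rel D (Φ i) (φ i)) {q : ℝ} (_hq : 0 ≤ q)
    (hli : LinearIndependent ℝ φ)
    (hkey : ∀ a : Fin n → ℝ, ‖∑ i, a i • Φ i‖ ≤ q * ‖(∑ i, a i • Φ i) 0‖) :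
    q ^ 2 - 1 ∈ EvSet n D := by
  refine ⟨φ, hφt, hli, fun a => ?_⟩
  have hrel := Rel.sum Finset.univ a hφr
  rw [← hrel.norm12, ← hrel.norm0]
  have h1 := w3_norm (∑ i, a i • Φ i)
  have h2 := pow_le_pow_left₀ (norm_nonneg _) (hkey a) 2
  rw [h1, mul_pow] at h2
  linarith

/-- linear independence passes to the classes -/
theorem sy_li0 {D : Set ℂ} {n : ℕ} {Φ : Fin n → W3} {φ : Fin n → ℂ → ℝ}
    (hφr : ∀ i, Rel D (Φ i) (φ i)) (hli : LinearIndependent ℝ φ) :
    LinearIndependent ℝ (fun i => (Φ i) 0) := by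
  rw [Fintype.linearIndependent_iff] at hli ⊢
  intro a ha
  apply hli
  have hrel := Rel.sum Finset.univ a hφr
  have h2 := hrel.e0
  rw [sy_comp0, ha] at h2
  have h3 : (fun x => ∑ i, a i * φ i x) =ᵐ[volume] fun _ => (0 : ℝ) := by
    filter_upwards [h2, Lp.coeFn_zero ℝ 2 (volume : Measure ℂ)] with x e1 e2
    rw [← e1]
    exact e2
  have h4 := (Continuous.ae_eq_iff_eq volume hrel.c1.continuous continuous_const).1 h3
  funext x
  have := congrFun h4 x
  simpa using this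

theorem sy_nonempty {D : Set ℂ} (hDo : IsOpen D) (hne : D.Nonempty) (l : ℕ) :
    (EvSet l D).Nonempty := by
  obtain ⟨φ, hφ, hli⟩ := sy_bumps hDo hne l
  choose Φ hΦ using fun i => exists_rel (D := D) ((hφ i).1.of_le (by simp)) (hφ i).2.1 (hφ i).2.2
  obtain ⟨c, hc, hlow⟩ := sy_low (sy_li0 hΦ hli)
  refine ⟨_, sy_mem (q := (∑ i, ‖Φ i‖) / c) hφ hΦ
    (div_nonneg (Finset.sum_nonneg fun i _ => norm_nonneg _) hc.le) hli fun a => ?_⟩
  have h1 : ‖∑ i, a i • Φ i‖ ≤ (∑ i, |a i|) * ∑ i, ‖Φ i‖ := by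
    calc ‖∑ i, a i • Φ i‖ ≤ ∑ i, ‖a i • Φ i‖ := norm_sum_le _ _
      _ ≤ ∑ i, |a i| * ∑ j, ‖Φ j‖ := by
          refine Finset.sum_le_sum fun i _ => ?_
          rw [norm_smul, Real.norm_eq_abs]
          exact mul_le_mul_of_nonneg_left
            (Finset.single_le_sum (f := fun j => ‖Φ j‖) (fun j _ => norm_nonneg _)
              (Finset.mem_univ i)) (abs_nonneg _)
      _ = (∑ i, |a i|) * ∑ i, ‖Φ i‖ := by rw [Finset.sum_mul]
  have h2 := hlow a
  rw [← sy_comp0] at h2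
  have h3 : ∑ i, |a i| ≤ ‖(∑ i, a i • Φ i) 0‖ / c := by
    rw [le_div_iff₀ hc]
    linarith
  calc ‖∑ i, a i • Φ i‖ ≤ (∑ i, |a i|) * ∑ i, ‖Φ i‖ := h1
    _ ≤ ‖(∑ i, a i • Φ i) 0‖ / c * ∑ i, ‖Φ i‖ :=
        mul_le_mul_of_nonneg_right h3 (Finset.sum_nonneg fun i _ => norm_nonneg _)
    _ = (∑ i, ‖Φ i‖) / c * ‖(∑ i, a i • Φ i) 0‖ := by ring

/-- TARGET 1 -/
theorem ev_mono {D : Set ℂ} (hDo : IsOpen D) (hne : D.Nonempty) {k l : ℕ} (hk : 1 ≤ k)
    (hkl : k ≤ l) : dirichletEigenvalue k D ≤ dirichletEigenvalue l D := by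
  rw [ev_eq, ev_eq]
  refine csInf_le_csInf (sy_bdd hk) (sy_nonempty hDo hne l) ?_
  rintro r ⟨φ, h1, h2, h3⟩
  refine ⟨fun i => φ (Fin.castLE hkl i), fun i => h1 _,
    h2.comp _ (Fin.castLE_injective hkl), fun a => ?_⟩
  classical
  have key : ∀ y, ∑ i : Fin k, a i * φ (Fin.castLE hkl i) y =
      ∑ j : Fin l, (Function.extend (Fin.castLE hkl) a 0) j * φ j y := by
    intro y
    refine Finset.sum_of_injOn (Fin.castLE hkl) ((Fin.castLE_injective hkl).injOn)
      (fun _ _ => Finset.mem_coe.2 (Finset.mem_univ _)) ?_ ?_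
    · intro j _ hj
      rw [Function.extend_apply', Pi.zero_apply, zero_mul]
      rintro ⟨i, hi⟩
      exact hj ⟨i, Finset.mem_coe.2 (Finset.mem_univ i), hi⟩
    · intro i _
      rw [(Fin.castLE_injective hkl).extend_apply]
  simp only [key]
  exact h3 _

theorem sy_null {D : Set ℂ} (hDo : IsOpen D) {lam : ℝ} (hlam : 0 < lam) {n : ℕ} (hn : 1 ≤ n)
    (F : Fin n → W3) (hFD : ∀ i, F i ∈ V D) (hli : LinearIndependent ℝ (fun i => (F i) 0))
    (hQ : ∀ i j, ⟪F i, F j⟫_ℝ = (1 + lam) * ⟪F i 0, F j 0⟫_ℝ) :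
    dirichletEigenvalue n D ≤ lam := by
  refine le_of_forall_pos_le_add fun δ hδ => ?_
  rw [ev_eq]
  refine csInf_le (sy_bdd hn) ?_
  obtain ⟨c, hc, hlow⟩ := sy_low hli
  obtain ⟨κ, hκ0, hκ2⟩ : ∃ κ : ℝ, 0 ≤ κ ∧ κ ^ 2 = 1 + lam :=
    ⟨√(1 + lam), Real.sqrt_nonneg _, Real.sq_sqrt (by positivity)⟩
  obtain ⟨q, hq0, hq2⟩ : ∃ q : ℝ, 0 ≤ q ∧ q ^ 2 = 1 + lam + δ :=
    ⟨√(1 + lam + δ), Real.sqrt_nonneg _, Real.sq_sqrt (by positivity)⟩
  have hκq : κ < q := by
    refine lt_of_pow_lt_pow_left₀ 2 hq0 ?_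
    rw [hκ2, hq2]
    linarith
  obtain ⟨η, hη0, hη1, hη2⟩ : ∃ η : ℝ, 0 < η ∧ η < 1 ∧ κ + η = q * (1 - η) := by
    refine ⟨(q - κ) / (1 + q), div_pos (by linarith) (by linarith), ?_, ?_⟩
    · rw [div_lt_one (by linarith)]
      linarith
    · have : (1 + q) ≠ 0 := by linarith
      field_simp
      ring
  choose Φ φ hφt hφr hφn using fun j => exists_test hDo ⟨F j, hFD j⟩ (mul_pos hc hη0)
  have hsq : ∀ a : Fin n → ℝ, ‖∑ i, a i • F i‖ = κ * ‖(∑ i, a i • F i) 0‖ := by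
    intro a
    have h3 : ‖∑ i, a i • F i‖ ^ 2 = (κ * ‖(∑ i, a i • F i) 0‖) ^ 2 := by
      rw [mul_pow, hκ2, sy_comp0, ← real_inner_self_eq_norm_sq, ← real_inner_self_eq_norm_sq,
        sum_inner, sum_inner, Finset.mul_sum]
      refine Finset.sum_congr rfl fun i _ => ?_
      rw [inner_sum, inner_sum, Finset.mul_sum]
      refine Finset.sum_congr rfl fun j _ => ?_
      rw [real_inner_smul_left, real_inner_smul_right, real_inner_smul_left,
        real_inner_smul_right, hQ]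
      ring
    exact (pow_left_inj₀ (norm_nonneg _) (mul_nonneg hκ0 (norm_nonneg _)) two_ne_zero).1 h3
  have hdiff : ∀ a : Fin n → ℝ, ‖∑ i, a i • Φ i - ∑ i, a i • F i‖ ≤
      η * ‖(∑ i, a i • F i) 0‖ := by
    intro a
    have e1 : ∑ i, a i • Φ i - ∑ i, a i • F i = ∑ i, a i • (Φ i - F i) := by
      rw [← Finset.sum_sub_distrib]
      refine Finset.sum_congr rfl fun i _ => ?_
      rw [smul_sub]
    have h2 := hlow a
    rw [← sy_comp0] at h2
    rw [e1]
    calc ‖∑ i, a i • (Φ i - F i)‖ ≤ ∑ i, ‖a i • (Φ i - F i)‖ := norm_sum_le _ _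
      _ ≤ ∑ i, |a i| * (c * η) := by
          refine Finset.sum_le_sum fun i _ => ?_
          rw [norm_smul, Real.norm_eq_abs]
          exact mul_le_mul_of_nonneg_left (hφn i).le (abs_nonneg _)
      _ = η * (c * ∑ i, |a i|) := by
          rw [← Finset.sum_mul]
          ring
      _ ≤ η * ‖(∑ i, a i • F i) 0‖ := mul_le_mul_of_nonneg_left h2 hη0.le
  have hlow2 : ∀ a : Fin n → ℝ, (1 - η) * ‖(∑ i, a i • F i) 0‖ ≤ ‖(∑ i, a i • Φ i) 0‖ := by
    intro a
    have e2 : ‖(∑ i, a i • Φ i) 0 - (∑ i, a i • F i) 0‖ ≤ η * ‖(∑ i, a i • F i) 0‖ :=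
      (w3_le (∑ i, a i • Φ i - ∑ i, a i • F i)).trans (hdiff a)
    have e3 := norm_sub_norm_le ((∑ i, a i • F i) 0) ((∑ i, a i • Φ i) 0)
    rw [norm_sub_rev] at e3
    linarith
  have hkey : ∀ a : Fin n → ℝ, ‖∑ i, a i • Φ i‖ ≤ q * ‖(∑ i, a i • Φ i) 0‖ := by
    intro a
    have e1 := norm_add_le (∑ i, a i • Φ i - ∑ i, a i • F i) (∑ i, a i • F i)
    rw [sub_add_cancel, hsq] at e1
    have e2 := hdiff a
    have e3 := mul_le_mul_of_nonneg_left (hlow2 a) hq0
    have e4 : (κ + η) * ‖(∑ i, a i • F i) 0‖ = q * ((1 - η) * ‖(∑ i, a i • F i) 0‖) := by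
      rw [hη2]
      ring
    linarith
  have hmem := sy_mem hφt hφr hq0 (?_ : LinearIndependent ℝ φ) hkey
  · have e : q ^ 2 - 1 = lam + δ := by
      rw [hq2]
      ring
    rwa [e] at hmem
  · rw [Fintype.linearIndependent_iff] at hli ⊢
    intro a ha
    apply hli
    have hrel := Rel.sum Finset.univ a hφr
    have e1 : ∀ x, ∑ i, a i * φ i x = 0 := by
      intro x
      have := congrFun ha x
      simpa using this
    have e2 := hrel.norm0
    simp only [e1, ne_eq, OfNat.ofNat_ne_zero, not_false_eq_true, zero_pow, integral_zero] at e2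
    have e3 : ‖(∑ i, a i • Φ i) 0‖ = 0 := (pow_eq_zero_iff two_ne_zero).1 e2
    have e4 := hlow2 a
    rw [e3] at e4
    have e5 : ‖(∑ i, a i • F i) 0‖ ≤ 0 := by
      by_contra hh
      push Not at hh
      have := mul_pos (sub_pos.2 hη1) hh
      linarith
    have e6 := norm_le_zero_iff.1 e5
    rwa [sy_comp0] at e6

/-- TARGET 2: the weak counting lemma. -/
theorem index_le {D : Set ℂ} (hDo : IsOpen D) (hb : Bornology.IsBounded D) {lam : ℝ}
    (hlam : 0 < lam) {n : ℕ} (hn : 1 ≤ n) (G : Fin n → Set ℂ) (φ : Fin n → ℂ → ℝ)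
    (hG : ∀ i, IsOpen (G i) ∧ G i ⊆ D) (hφ : ∀ i, Wat (G i) lam (φ i))
    (hnest : ∀ i j, G i ⊆ G j ∨ G j ⊆ G i ∨ Disjoint (G i) (G j))
    (hli : LinearIndependent ℝ φ) : dirichletEigenvalue n D ≤ lam := by
  choose F hFV hF0 hFe using fun i => helm_V (hG i).1 (hb.subset (hG i).2) (hφ i)
  have hFD : ∀ i, F i ∈ V D := fun i => V_mono (hG i).2 (hFV i)
  refine sy_null hDo hlam hn F hFD ?_ ?_
  · rw [Fintype.linearIndependent_iff] at hli ⊢
    intro a ha
    apply hli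
    have hsum : ∀ s : Finset (Fin n), ((∑ i ∈ s, a i • (F i 0) : L2) : ℂ → ℝ) =ᵐ[volume]
        fun x => ∑ i ∈ s, a i * φ i x := by
      intro s
      induction s using Finset.induction_on with
      | empty =>
        simp only [Finset.sum_empty]
        exact Lp.coeFn_zero ℝ 2 (volume : Measure ℂ)
      | insert i s hi ih =>
        rw [Finset.sum_insert hi]
        filter_upwards [Lp.coeFn_add (a i • (F i 0)) (∑ i ∈ s, a i • (F i 0)), ih, hF0 i,
          Lp.coeFn_smul (a i) (F i 0)] with x e1 e2 e3 e4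
        rw [e1, Pi.add_apply, e2, e4, Pi.smul_apply, e3, smul_eq_mul, Finset.sum_insert hi]
    have hcont : Continuous fun x => ∑ i, a i * φ i x :=
      continuous_finsetSum _ (fun i _ => continuous_const.mul (hφ i).cont)
    have h2 := hsum Finset.univ
    rw [ha] at h2
    have h3 : (fun x => ∑ i, a i * φ i x) =ᵐ[volume] fun _ => (0 : ℝ) := by
      filter_upwards [h2, Lp.coeFn_zero ℝ 2 (volume : Measure ℂ)] with x e1 e2
      rw [← e1]
      exact e2
    have h4 := (Continuous.ae_eq_iff_eq volume hcont continuous_const).1 h3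
    funext x
    have := congrFun h4 x
    simpa using this
  · intro i j
    rcases hnest i j with h | h | h
    · rw [real_inner_comm, hFe j (F i) (V_mono h (hFV i)), real_inner_comm]
    · exact hFe i (F j) (V_mono h (hFV j))
    · rw [inner_W3, orth h (hFV i) (hFV j) 0, orth h (hFV i) (hFV j) 1,
        orth h (hFV i) (hFV j) 2]
      simp

/-- TARGET 3: the weak index bound if the eigenvalue is multiple. -/
theorem seven_le {D Ω : Set ℂ} {lam c : ℝ} {u₁ u₂ v : ℂ → ℝ} (hDo : IsOpen D)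
    (hDb : Bornology.IsBounded D) (hDc : IsPreconnected D) (hu₁ : Wat D lam u₁)
    (hu₂ : Wat D lam u₂) (hli : LinearIndependent ℝ ![u₁, u₂])
    (hv : Dat Ω lam c v) (ho : IsOpen Ω) (hne : Ω.Nonempty) (hcon : IsPreconnected Ω)
    (hreg : interior (closure Ω) = Ω) (hcc : IsPreconnected Ωᶜ) (hΩD : Ω ⊆ D)
    (hout : (D \ closure Ω).Nonempty) (hlam : 0 < lam) (hc : c ≠ 0) :
    dirichletEigenvalue 7 D ≤ lam ∨ ∃ (p : ℂ) (r : ℝ), 0 < r ∧ Ω = Metric.ball p r := by
  classical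
  by_cases hd : ∃ (p : ℂ) (r : ℝ), 0 < r ∧ Ω = Metric.ball p r
  · exact Or.inr hd
  left
  have hb : Bornology.IsBounded Ω := hDb.subset hΩD
  have hnr : ∀ (a : ℂ) (b : ℝ), a ≠ 0 ∨ b ≠ 0 →
      ∃ x, fderiv ℝ v x (a + b * Complex.I * x) ≠ 0 := by
    intro a b hab
    by_contra hcon2
    push Not at hcon2
    exact hd (kill_disc hv ho hb hne hcon hreg hcc hlam hc hab hcon2)
  obtain ⟨p, G, hG, hGd, hGw⟩ := three_comps hv hb hne hcon hlam hc hnr
  set w : ℂ → ℝ := fun x => fderiv ℝ v x (Complex.I * (x - p)) with hw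
  have hW1 : Wat Ω lam (fun x => fderiv ℝ v x 1) := by
    have := kill_wat hv 1 0
    simpa using this
  have hWI : Wat Ω lam (fun x => fderiv ℝ v x Complex.I) := by
    have := kill_wat hv Complex.I 0
    simpa using this
  obtain ⟨a, haD, haΩ⟩ := hout
  have hnear : ∀ᶠ x in 𝓝 a, x ∉ Ω := by
    have h1 : (closure Ω)ᶜ ∈ 𝓝 a := isClosed_closure.isOpen_compl.mem_nhds haΩ
    filter_upwards [h1] with x hx hx2
    exact hx (subset_closure hx2)
  have hz1 : (fun x => fderiv ℝ v x 1) =ᶠ[𝓝 a] 0 := by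
    filter_upwards [hnear] with x hx
    exact hW1.out x hx
  have hzI : (fun x => fderiv ℝ v x Complex.I) =ᶠ[𝓝 a] 0 := by
    filter_upwards [hnear] with x hx
    exact hWI.out x hx
  have hzG : ∀ i, (G i).indicator w =ᶠ[𝓝 a] 0 := by
    intro i
    filter_upwards [hnear] with x hx
    exact (hGw i).out x (fun h => hx ((hG i).2.2 h))
  refine index_le hDo hDb hlam (n := 7) (by norm_num)
    (![D, D, G 0, G 1, G 2, Ω, Ω])
    (![u₁, u₂, (G 0).indicator w, (G 1).indicator w, (G 2).indicator w,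
      fun x => fderiv ℝ v x 1, fun x => fderiv ℝ v x Complex.I]) ?_ ?_ ?_ ?_
  · intro i
    fin_cases i
    · exact ⟨hDo, subset_rfl⟩
    · exact ⟨hDo, subset_rfl⟩
    · exact ⟨(hG 0).1, (hG 0).2.2.trans hΩD⟩
    · exact ⟨(hG 1).1, (hG 1).2.2.trans hΩD⟩
    · exact ⟨(hG 2).1, (hG 2).2.2.trans hΩD⟩
    · exact ⟨ho, hΩD⟩
    · exact ⟨ho, hΩD⟩
  · intro i
    fin_cases i
    · exact hu₁
    · exact hu₂
    · exact hGw 0
    · exact hGw 1
    · exact hGw 2
    · exact hW1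
    · exact hWI
  · have hs0 : G 0 ⊆ Ω := (hG 0).2.2
    have hs1 : G 1 ⊆ Ω := (hG 1).2.2
    have hs2 : G 2 ⊆ Ω := (hG 2).2.2
    have hd0 : G 0 ⊆ D := hs0.trans hΩD
    have hd1 : G 1 ⊆ D := hs1.trans hΩD
    have hd2 : G 2 ⊆ D := hs2.trans hΩD
    have h01 : Disjoint (G 0) (G 1) := hGd 0 1 (by decide)
    have h02 : Disjoint (G 0) (G 2) := hGd 0 2 (by decide)
    have h12 : Disjoint (G 1) (G 2) := hGd 1 2 (by decide)
    have key : ∀ A ∈ ({D, G 0, G 1, G 2, Ω} : Set (Set ℂ)), ∀ B ∈ ({D, G 0, G 1, G 2, Ω} : Set (Set ℂ)),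
        A ⊆ B ∨ B ⊆ A ∨ Disjoint A B := by
      intro A hA B hB
      simp only [Set.mem_insert_iff, Set.mem_singleton_iff] at hA hB
      rcases hA with rfl | rfl | rfl | rfl | rfl <;> rcases hB with rfl | rfl | rfl | rfl | rfl <;>
        first
          | exact Or.inl subset_rfl
          | exact Or.inl hΩD
          | exact Or.inl hs0
          | exact Or.inl hs1
          | exact Or.inl hs2
          | exact Or.inl hd0
          | exact Or.inl hd1
          | exact Or.inl hd2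
          | exact Or.inr (Or.inl hΩD)
          | exact Or.inr (Or.inl hs0)
          | exact Or.inr (Or.inl hs1)
          | exact Or.inr (Or.inl hs2)
          | exact Or.inr (Or.inl hd0)
          | exact Or.inr (Or.inl hd1)
          | exact Or.inr (Or.inl hd2)
          | exact Or.inr (Or.inr h01)
          | exact Or.inr (Or.inr h02)
          | exact Or.inr (Or.inr h12)
          | exact Or.inr (Or.inr h01.symm)
          | exact Or.inr (Or.inr h02.symm)
          | exact Or.inr (Or.inr h12.symm)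
    have hmem : ∀ i : Fin 7, (![D, D, G 0, G 1, G 2, Ω, Ω] : Fin 7 → Set ℂ) i ∈
        ({D, G 0, G 1, G 2, Ω} : Set (Set ℂ)) := by
      intro i
      fin_cases i <;> simp
    intro i j
    exact key _ (hmem i) _ (hmem j)
  · rw [Fintype.linearIndependent_iff]
    intro g hg
    have hsum : ∀ x, g 0 * u₁ x + g 1 * u₂ x + g 2 * (G 0).indicator w x
        + g 3 * (G 1).indicator w x
        + g 4 * (G 2).indicator w x + g 5 * fderiv ℝ v x 1 + g 6 * fderiv ℝ v x Complex.I = 0 := by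
      intro x
      have h1 := congrFun hg x
      rw [Finset.sum_apply, Fin.sum_univ_seven] at h1
      exact h1
    have hg01 : g 0 = 0 ∧ g 1 = 0 := by
      have hWu := wat_sub_smul (wat_sub_smul (wat_sub_smul hu₁ hu₁ 1) hu₁ (-(g 0))) hu₂ (-(g 1))
      have hall := hWu.uc hlam hDc haD (by
        filter_upwards [hz1, hzI, hzG 0, hzG 1, hzG 2] with x e1 e2 e3 e4 e5
        have h1 := hsum x
        rw [e3, e4, e5] at h1
        have e1' : fderiv ℝ v x 1 = 0 := e1
        have e2' : fderiv ℝ v x Complex.I = 0 := e2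
        rw [e1', e2'] at h1
        simp only [Pi.zero_apply, mul_zero, add_zero] at h1
        linarith)
      have h2 := Fintype.linearIndependent_iff.1 hli ![g 0, g 1] (by
        funext x
        rw [Finset.sum_apply, Fin.sum_univ_two]
        have := hall x
        simp only [Matrix.cons_val_zero, Matrix.cons_val_one, Pi.smul_apply, smul_eq_mul,
          Pi.zero_apply]
        linarith)
      exact ⟨h2 0, h2 1⟩
    have hg0 := hg01.1
    have hg1 := hg01.2
    have key : ∀ (i : Fin 3) (b : ℝ), (∀ x ∈ G i, b * w x + g 5 * fderiv ℝ v x 1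
        + g 6 * fderiv ℝ v x Complex.I = 0) → b = 0 ∧ g 5 = 0 ∧ g 6 = 0 := by
      intro i b hb0
      obtain ⟨q, hq⟩ := (hG i).2.1
      have hform : ∀ x, fderiv ℝ v x ((g 5 + g 6 * Complex.I - b * Complex.I * p)
          + b * Complex.I * x) = b * w x + g 5 * fderiv ℝ v x 1
          + g 6 * fderiv ℝ v x Complex.I := by
        intro x
        have h1 : ((g 5 : ℂ) + g 6 * Complex.I - b * Complex.I * p) + b * Complex.I * x
            = b • (Complex.I * (x - p)) + g 5 • (1 : ℂ) + g 6 • Complex.I := by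
          simp only [Complex.real_smul]
          ring
        rw [h1, map_add, map_add, map_smul, map_smul, map_smul]
        rfl
      have hWk := kill_wat hv ((g 5 : ℂ) + g 6 * Complex.I - b * Complex.I * p) b
      have hall : ∀ x, fderiv ℝ v x ((g 5 + g 6 * Complex.I - b * Complex.I * p)
          + b * Complex.I * x) = 0 := by
        refine hWk.uc hlam hcon ((hG i).2.2 hq) ?_
        filter_upwards [(hG i).1.mem_nhds hq] with x hx
        show fderiv ℝ v x _ = 0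
        rw [hform, hb0 x hx]
      by_contra hne2
      have h2 : ((g 5 : ℂ) + g 6 * Complex.I - b * Complex.I * p) ≠ 0 ∨ b ≠ 0 := by
        by_contra h3
        push Not at h3
        obtain ⟨h4, h5⟩ := h3
        apply hne2
        rw [h5] at h4
        simp only [Complex.ofReal_zero, zero_mul, sub_zero] at h4
        have h6 := congrArg Complex.re h4
        have h7 := congrArg Complex.im h4
        simp at h6 h7
        exact ⟨h5, h6, h7⟩
      obtain ⟨x, hx⟩ := hnr _ _ h2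
      exact hx (hall x)
    have hmem : ∀ i : Fin 3, ∀ x ∈ G i, (G i).indicator w x = w x :=
      fun i x hx => Set.indicator_of_mem hx _
    have hnmem : ∀ i j : Fin 3, i ≠ j → ∀ x ∈ G i, (G j).indicator w x = 0 :=
      fun i j hij x hx => Set.indicator_of_notMem (fun h => (hGd i j hij).le_bot ⟨hx, h⟩) _
    obtain ⟨k1, k4, k5⟩ := key 0 (g 2) (fun x hx => by
      have h1 := hsum x
      rw [hg0, hg1, hmem 0 x hx, hnmem 0 1 (by decide) x hx, hnmem 0 2 (by decide) x hx] at h1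
      linarith)
    obtain ⟨k2, -, -⟩ := key 1 (g 3) (fun x hx => by
      have h1 := hsum x
      rw [hg0, hg1, hmem 1 x hx, hnmem 1 0 (by decide) x hx, hnmem 1 2 (by decide) x hx] at h1
      linarith)
    obtain ⟨k3, -, -⟩ := key 2 (g 4) (fun x hx => by
      have h1 := hsum x
      rw [hg0, hg1, hmem 2 x hx, hnmem 2 0 (by decide) x hx, hnmem 2 1 (by decide) x hx] at h1
      linarith)
    intro i
    fin_cases i
    · exact hg0
    · exact hg1
    · exact k1
    · exact k2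
    · exact k3
    · exact k4
    · exact k5

end Pool.Agent.Helper327_Drum
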