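import Pool.Agent.Helper327_Drum.Fin.AS2
import Pool.Agent.Helper327_Drum.Fin.K1d
import Pool.Agent.R227.SA11
import Pool.Agent.R227.SA17

/-
JOB T5a (owner helper327, problem MP_d92c84_an). All imports are on origin/main.
-/

set_option autoImplicit false
open MeasureTheory Set Filter Topology ComplexConjugate
open scoped ContDiff InnerProductSpace

namespace Pool.Agent.Helper327_Drum

open Pool.Agent.TH298.Sch (dd SC)
open Pool.Agent.R227.SA (la Wat Dat)

/-- the open rectangle (0,a) × (0,b) -/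
def rect (a b : ℝ) : Set ℂ := {x | 0 < x.re ∧ x.re < a ∧ 0 < x.im ∧ x.im < b}

/-- TARGET 1: completeness of the sines. -/
theorem sine_uniq {a : ℝ} (ha : 0 < a) {f : ℝ → ℝ} (hf : Continuous f) (h0 : f 0 = 0) (h1 : f a = 0)
    (h : ∀ n : ℕ, 1 ≤ n → ∫ t in (0:ℝ)..a, f t * Real.sin (Real.pi * n / a * t) = 0) :
    ∀ t ∈ Icc (0:ℝ) a, f t = 0 := by
  have hpi := Real.pi_pos
  let P : ℝ → ℝ := fun θ => f (max (a / Real.pi * θ) 0)
  have hP : Continuous P := by
    show Continuous (fun θ => f (max (a / Real.pi * θ) 0))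
    fun_prop
  have hPneg : ∀ θ ≤ 0, P θ = 0 := by
    intro θ hθ
    show f (max (a / Real.pi * θ) 0) = 0
    rw [max_eq_right (mul_nonpos_of_nonneg_of_nonpos (by positivity) hθ), h0]
  have hPpos : ∀ θ, 0 ≤ θ → P θ = f (a / Real.pi * θ) := by
    intro θ hθ
    show f (max (a / Real.pi * θ) 0) = _
    rw [max_eq_left (by positivity)]
  let G : ℝ → ℝ := fun θ => P θ - P (-θ)
  have hG : Continuous G := hP.sub (hP.comp continuous_neg)
  have hodd : ∀ θ, G (-θ) = - G θ := by
    intro θ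
    show P (-θ) - P (- -θ) = -(P θ - P (-θ))
    rw [neg_neg]; ring
  have key := Pool.Agent.R227.SA.fourier_uniq hG (fun n => ?_) (fun n => ?_)
  · intro t ht
    have h2 := key (Real.pi / a * t) ⟨by
      have : 0 ≤ Real.pi / a * t := mul_nonneg (by positivity) ht.1
      linarith, by
      have := ht.2
      calc Real.pi / a * t ≤ Real.pi / a * a := mul_le_mul_of_nonneg_left this (by positivity)
        _ = Real.pi := by field_simp⟩
    have h3 : 0 ≤ Real.pi / a * t := mul_nonneg (by positivity) ht.1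
    have h4 : G (Real.pi / a * t) = P (Real.pi / a * t) - P (-(Real.pi / a * t)) := rfl
    rw [h4, hPneg (-(Real.pi / a * t)) (by linarith), hPpos _ h3, sub_zero] at h2
    have h5 : a / Real.pi * (Real.pi / a * t) = t := by field_simp
    rwa [h5] at h2
  · -- cosine moments
    have h2 := intervalIntegral.integral_comp_neg (a := -Real.pi) (b := Real.pi)
      (fun θ => G θ * Real.cos (n * θ))
    rw [neg_neg] at h2
    have h3 : (fun θ : ℝ => G (-θ) * Real.cos (n * (-θ))) = fun θ => -(G θ * Real.cos (n * θ)) := by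
      funext θ
      rw [hodd, mul_neg, Real.cos_neg]; ring
    have h4 : ∫ θ in (-Real.pi)..Real.pi, G (-θ) * Real.cos (n * (-θ)) =
        ∫ θ in (-Real.pi)..Real.pi, G θ * Real.cos (n * θ) := h2
    rw [h3, intervalIntegral.integral_neg] at h4
    linarith
  · -- sine moments
    have h2 := intervalIntegral.integral_comp_neg (a := -Real.pi) (b := Real.pi)
      (fun θ => P θ * Real.sin (n * θ))
    rw [neg_neg] at h2
    have h3 : (fun θ : ℝ => P (-θ) * Real.sin (n * (-θ))) = fun θ => -(P (-θ) * Real.sin (n * θ)) := by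
      funext θ
      rw [mul_neg, Real.sin_neg]; ring
    have h4 : ∫ θ in (-Real.pi)..Real.pi, P (-θ) * Real.sin (n * (-θ)) =
        ∫ θ in (-Real.pi)..Real.pi, P θ * Real.sin (n * θ) := h2
    rw [h3, intervalIntegral.integral_neg] at h4
    have h5 : (fun θ => G θ * Real.sin (n * θ)) = fun θ => P θ * Real.sin (n * θ) - P (-θ) * Real.sin (n * θ) := by
      funext θ
      show (P θ - P (-θ)) * Real.sin (n * θ) = _
      ring
    rw [h5, intervalIntegral.integral_sub (Continuous.intervalIntegrable (by fun_prop) _ _)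
      (Continuous.intervalIntegrable (by fun_prop) _ _)]
    have h6 : ∫ θ in (-Real.pi)..Real.pi, P θ * Real.sin (n * θ) = 0 := by
      rw [← intervalIntegral.integral_add_adjacent_intervals (b := 0)
        (Continuous.intervalIntegrable (by fun_prop) _ _)
        (Continuous.intervalIntegrable (by fun_prop) _ _)]
      have e1 : ∫ θ in (-Real.pi)..0, P θ * Real.sin (n * θ) = 0 := by
        rw [intervalIntegral.integral_congr (g := fun _ => (0 : ℝ))]
        · simp
        · intro θ hθ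
          rw [uIcc_of_le (by linarith)] at hθ
          show P θ * Real.sin (n * θ) = 0
          rw [hPneg θ hθ.2, zero_mul]
      have e2 : ∫ θ in (0:ℝ)..Real.pi, P θ * Real.sin (n * θ) = 0 := by
        have e3 : ∫ θ in (0:ℝ)..Real.pi, P θ * Real.sin (n * θ) =
            ∫ θ in (0:ℝ)..Real.pi, (fun t => f t * Real.sin (Real.pi * n / a * t)) (a / Real.pi * θ) := by
          apply intervalIntegral.integral_congr
          intro θ hθ
          rw [uIcc_of_le (by linarith)] at hθ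
          show P θ * Real.sin (n * θ) = f (a / Real.pi * θ) * Real.sin (Real.pi * n / a * (a / Real.pi * θ))
          rw [hPpos θ hθ.1]
          congr 2
          field_simp
        have e5 := intervalIntegral.integral_comp_mul_left (a := 0) (b := Real.pi)
          (fun t => f t * Real.sin (Real.pi * n / a * t)) (c := a / Real.pi) (by positivity)
        have e4 : a / Real.pi * Real.pi = a := by field_simp
        rw [mul_zero, e4] at e5
        rw [e3, e5]
        rcases Nat.eq_zero_or_pos n with hn | hn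
        · subst hn
          simp
        · rw [h n hn, smul_zero]
      rw [e1, e2, add_zero]
    rw [h6] at h4 ⊢
    linarith

theorem t5a_pairing {G : Set ℂ} (hG : IsOpen G) (hb : Bornology.IsBounded G) {lam Lam : ℝ} {f g : ℂ → ℝ}
    (hf : Wat G lam f) (hg : Wat G Lam g) : (lam - Lam) * ∫ x, f x * g x = 0 := by
  obtain ⟨F, hF, hF0, hF1⟩ := helm_V hG hb hf
  obtain ⟨H, hH, hH0, hH1⟩ := helm_V hG hb hg
  have e1 := hF1 H hH
  have e2 := hH1 F hF
  rw [real_inner_comm] at e2
  rw [real_inner_comm (F 0) (H 0)] at e2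
  have e3 : ⟪F 0, H 0⟫_ℝ = ∫ x, f x * g x := by
    rw [inner_L2]
    apply integral_congr_ae
    filter_upwards [hF0, hH0] with x h1 h2
    rw [h1, h2]
  rw [← e3]
  linarith

lemma t5a_rect_open (a b : ℝ) : IsOpen (rect a b) := by
  have h1 : IsOpen {x : ℂ | 0 < x.re} := isOpen_lt continuous_const Complex.continuous_re
  have h2 : IsOpen {x : ℂ | x.re < a} := isOpen_lt Complex.continuous_re continuous_const
  have h3 : IsOpen {x : ℂ | 0 < x.im} := isOpen_lt continuous_const Complex.continuous_im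
  have h4 : IsOpen {x : ℂ | x.im < b} := isOpen_lt Complex.continuous_im continuous_const
  have h : rect a b = {x : ℂ | 0 < x.re} ∩ ({x : ℂ | x.re < a} ∩ ({x : ℂ | 0 < x.im} ∩ {x : ℂ | x.im < b})) := by
    ext x; rfl
  rw [h]
  exact h1.inter (h2.inter (h3.inter h4))

lemma t5a_rect_bdd (a b : ℝ) : Bornology.IsBounded (rect a b) := by
  rw [isBounded_iff_forall_norm_le]
  refine ⟨a + b, ?_⟩
  intro x hx
  obtain ⟨h1, h2, h3, h4⟩ := hx
  have h5 := Complex.norm_le_abs_re_add_abs_im x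
  rw [abs_of_pos h1, abs_of_pos h3] at h5
  linarith

lemma t5a_dd_prod_one {A A' B : ℝ → ℝ} (hA : ∀ s, HasDerivAt A (A' s) s) {B' : ℝ → ℝ} (hB : ∀ s, HasDerivAt B (B' s) s) :
    dd 1 (fun x : ℂ => A x.re * B x.im) = fun x => A' x.re * B x.im := by
  funext x
  have h1 : HasFDerivAt (fun x : ℂ => A x.re) (A' x.re • Complex.reCLM) x :=
    (hA x.re).comp_hasFDerivAt x Complex.reCLM.hasFDerivAt
  have h2 : HasFDerivAt (fun x : ℂ => B x.im) (B' x.im • Complex.imCLM) x :=
    (hB x.im).comp_hasFDerivAt x Complex.imCLM.hasFDerivAt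
  have h3 : fderiv ℝ (fun x : ℂ => A x.re * B x.im) x =
      A x.re • (B' x.im • Complex.imCLM) + B x.im • (A' x.re • Complex.reCLM) := (h1.mul h2).fderiv
  unfold dd
  rw [h3]
  simp
  ring

lemma t5a_dd_prod_I {A A' B : ℝ → ℝ} (hA : ∀ s, HasDerivAt A (A' s) s) {B' : ℝ → ℝ} (hB : ∀ s, HasDerivAt B (B' s) s) :
    dd Complex.I (fun x : ℂ => A x.re * B x.im) = fun x => A x.re * B' x.im := by
  funext x
  have h1 : HasFDerivAt (fun x : ℂ => A x.re) (A' x.re • Complex.reCLM) x :=
    (hA x.re).comp_hasFDerivAt x Complex.reCLM.hasFDerivAt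
  have h2 : HasFDerivAt (fun x : ℂ => B x.im) (B' x.im • Complex.imCLM) x :=
    (hB x.im).comp_hasFDerivAt x Complex.imCLM.hasFDerivAt
  have h3 : fderiv ℝ (fun x : ℂ => A x.re * B x.im) x =
      A x.re • (B' x.im • Complex.imCLM) + B x.im • (A' x.re • Complex.reCLM) := (h1.mul h2).fderiv
  unfold dd
  rw [h3]
  simp

lemma t5a_hd_sin (p s : ℝ) : HasDerivAt (fun s : ℝ => Real.sin (p * s)) (p * Real.cos (p * s)) s := by
  have h1 : HasDerivAt (fun s : ℝ => p * s) p s := by simpa using (hasDerivAt_id s).const_mul p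
  exact h1.sin.congr_deriv (by ring)

lemma t5a_hd_cos (p s : ℝ) : HasDerivAt (fun s : ℝ => p * Real.cos (p * s)) (-(p ^ 2 * Real.sin (p * s))) s := by
  have h1 : HasDerivAt (fun s : ℝ => p * s) p s := by simpa using (hasDerivAt_id s).const_mul p
  exact (h1.cos.const_mul p).congr_deriv (by ring)

lemma t5a_la_phi (p q : ℝ) (x : ℂ) : la (fun x : ℂ => Real.sin (p * x.re) * Real.sin (q * x.im)) x
    = -((p ^ 2 + q ^ 2) * (Real.sin (p * x.re) * Real.sin (q * x.im))) := by
  unfold la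
  rw [t5a_dd_prod_one (A := fun s => Real.sin (p * s)) (B := fun s => Real.sin (q * s)) (t5a_hd_sin p) (t5a_hd_sin q),
    t5a_dd_prod_I (A := fun s => Real.sin (p * s)) (B := fun s => Real.sin (q * s)) (t5a_hd_sin p) (t5a_hd_sin q),
    t5a_dd_prod_one (A := fun s => p * Real.cos (p * s)) (B := fun s => Real.sin (q * s)) (t5a_hd_cos p) (t5a_hd_sin q),
    t5a_dd_prod_I (A := fun s => Real.sin (p * s)) (B := fun s => q * Real.cos (q * s)) (t5a_hd_sin p) (t5a_hd_cos q)]
  ring

lemma t5a_la_congr {W φ : ℂ → ℝ} {x : ℂ} (h : W =ᶠ[𝓝 x] φ) : la W x = la φ x := by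
  have h1 : ∀ v, dd v W =ᶠ[𝓝 x] dd v φ := by
    intro v
    filter_upwards [h.fderiv (𝕜 := ℝ)] with y hy
    unfold dd
    rw [hy]
  unfold la
  have h2 : ∀ v, dd v (dd v W) x = dd v (dd v φ) x := by
    intro v
    have := (h1 v).fderiv_eq (𝕜 := ℝ)
    unfold dd at this ⊢
    rw [this]
  rw [h2, h2]

/-- clamping -/
noncomputable def t5a_cl (a s : ℝ) : ℝ := max 0 (min s a)

lemma t5a_cl_cont (a : ℝ) : Continuous (t5a_cl a) := by unfold t5a_cl; fun_prop

lemma t5a_cl_in {a s : ℝ} (h0 : 0 ≤ s) (h1 : s ≤ a) : t5a_cl a s = s := by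
  unfold t5a_cl; rw [min_eq_left h1, max_eq_right h0]

lemma t5a_cl_out {a : ℝ} (ha : 0 < a) {s : ℝ} (h : ¬ (0 < s ∧ s < a)) : t5a_cl a s = 0 ∨ t5a_cl a s = a := by
  unfold t5a_cl
  by_cases h0 : 0 < s
  · right
    have h1 : a ≤ s := by
      by_contra hh; exact h ⟨h0, not_le.mp hh⟩
    rw [min_eq_right h1, max_eq_right ha.le]
  · left
    push Not at h0
    exact max_eq_left ((min_le_left _ _).trans h0)

lemma t5a_sin_end {a : ℝ} (ha : 0 < a) (m : ℕ) {s : ℝ} (h : s = 0 ∨ s = a) : Real.sin (Real.pi * m / a * s) = 0 := by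
  rcases h with h | h
  · rw [h, mul_zero, Real.sin_zero]
  · rw [h]
    have : Real.pi * m / a * a = m * Real.pi := by field_simp
    rw [this, Real.sin_nat_mul_pi]

/-- extended mode -/
noncomputable def t5a_md (a b : ℝ) (m n : ℕ) (x : ℂ) : ℝ :=
  Real.sin (Real.pi * m / a * t5a_cl a x.re) * Real.sin (Real.pi * n / b * t5a_cl b x.im)

lemma t5a_md_cont (a b : ℝ) (m n : ℕ) : Continuous (t5a_md a b m n) := by
  unfold t5a_md
  have h1 := (t5a_cl_cont a).comp Complex.continuous_re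
  have h2 := (t5a_cl_cont b).comp Complex.continuous_im
  have h3 : Continuous (fun x : ℂ => t5a_cl a x.re) := h1
  have h4 : Continuous (fun x : ℂ => t5a_cl b x.im) := h2
  fun_prop

lemma t5a_md_in {a b : ℝ} (m n : ℕ) {x : ℂ} (hx : x ∈ rect a b) : t5a_md a b m n x =
    Real.sin (Real.pi * m / a * x.re) * Real.sin (Real.pi * n / b * x.im) := by
  obtain ⟨h1, h2, h3, h4⟩ := hx
  unfold t5a_md
  rw [t5a_cl_in h1.le h2.le, t5a_cl_in h3.le h4.le]

lemma t5a_md_out {a b : ℝ} (ha : 0 < a) (hb : 0 < b) (m n : ℕ) {x : ℂ} (hx : x ∉ rect a b) :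
    t5a_md a b m n x = 0 := by
  unfold t5a_md
  by_cases h1 : 0 < x.re ∧ x.re < a
  · have h2 : ¬ (0 < x.im ∧ x.im < b) := fun h => hx ⟨h1.1, h1.2, h.1, h.2⟩
    rw [t5a_sin_end hb n (t5a_cl_out hb h2), mul_zero]
  · rw [t5a_sin_end ha m (t5a_cl_out ha h1), zero_mul]

lemma t5a_md_wat {a b : ℝ} (ha : 0 < a) (hb : 0 < b) (m n : ℕ) :
    Wat (rect a b) ((Real.pi * m / a) ^ 2 + (Real.pi * n / b) ^ 2) (t5a_md a b m n) := by
  refine ⟨t5a_md_cont a b m n, fun x hx => t5a_md_out ha hb m n hx, ?_⟩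
  intro x₀ hx₀
  obtain ⟨r, hr, hball⟩ := Metric.isOpen_iff.mp (t5a_rect_open a b) x₀ hx₀
  let φ : ℂ → ℝ := fun x => Real.sin (Real.pi * m / a * x.re) * Real.sin (Real.pi * n / b * x.im)
  have hφ : ContDiff ℝ ∞ φ := by
    have h1 : ContDiff ℝ ∞ (fun x : ℂ => x.re) := Complex.reCLM.contDiff
    have h2 : ContDiff ℝ ∞ (fun x : ℂ => x.im) := Complex.imCLM.contDiff
    exact (Real.contDiff_sin.comp (contDiff_const.mul h1)).mul (Real.contDiff_sin.comp (contDiff_const.mul h2))
  let χ : ContDiffBump x₀ := ⟨r / 2, r, by positivity, by linarith⟩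
  refine ⟨r / 2, by positivity, fun x => χ x * φ x, ⟨χ.contDiff.mul hφ, χ.hasCompactSupport.mul_right⟩,
    (Metric.ball_subset_ball (by linarith)).trans hball, ?_⟩
  intro x hx
  have hev : (fun x => χ x * φ x) =ᶠ[𝓝 x] φ := by
    filter_upwards [Metric.isOpen_ball.mem_nhds hx] with y hy
    rw [χ.one_of_mem_closedBall (Metric.ball_subset_closedBall hy), one_mul]
  have hx1 : χ x * φ x = φ x := hev.eq_of_nhds
  have hxr : x ∈ rect a b := hball (Metric.ball_subset_ball (by linarith) hx)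
  constructor
  · rw [t5a_md_in m n hxr]
    exact hx1.symm
  · have e := t5a_la_phi (Real.pi * m / a) (Real.pi * n / b) x
    show la (fun x => χ x * φ x) x = -(((Real.pi * m / a) ^ 2 + (Real.pi * n / b) ^ 2) * (χ x * φ x))
    rw [t5a_la_congr hev, hx1]
    exact e

/-- the iterated integral -/
noncomputable def t5a_II (a b : ℝ) (f : ℂ → ℝ) (m n : ℕ) : ℝ :=
  ∫ s in (0:ℝ)..a, (∫ t in (0:ℝ)..b, f ⟨s, t⟩ * Real.sin (Real.pi * n / b * t)) * Real.sin (Real.pi * m / a * s)

lemma t5a_int_eq_II {a b : ℝ} (ha : 0 < a) (hb : 0 < b) (m n : ℕ) {f : ℂ → ℝ} (hf : Continuous f)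
    (hout : ∀ x, x ∉ rect a b → f x = 0) : ∫ x, f x * t5a_md a b m n x = t5a_II a b f m n := by
  have hmdc := t5a_md_cont a b m n
  have hcont : Continuous (fun x => f x * t5a_md a b m n x) := hf.mul hmdc
  have hcs : HasCompactSupport (fun x => f x * t5a_md a b m n x) := by
    refine HasCompactSupport.intro (t5a_rect_bdd a b).isCompact_closure ?_
    intro x hx
    rw [hout x (fun h => hx (subset_closure h)), zero_mul]
  have hint : Integrable (fun x => f x * t5a_md a b m n x) := hcont.integrable_of_hasCompactSupport hcs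
  have h1 : ∫ x, f x * t5a_md a b m n x = ∫ p : ℝ × ℝ, f ⟨p.1, p.2⟩ * t5a_md a b m n ⟨p.1, p.2⟩ := by
    have := (Complex.volume_preserving_equiv_real_prod.symm).integral_comp'
      (fun x => f x * t5a_md a b m n x)
    rw [← this]
    rfl
  have hint2 : Integrable (fun p : ℝ × ℝ => f ⟨p.1, p.2⟩ * t5a_md a b m n ⟨p.1, p.2⟩) := by
    have := (Complex.volume_preserving_equiv_real_prod.symm).integrable_comp_emb
      Complex.measurableEquivRealProd.symm.measurableEmbedding (g := fun x => f x * t5a_md a b m n x)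
    exact this.mpr hint
  rw [h1, Measure.volume_eq_prod, integral_prod _ (by rw [← Measure.volume_eq_prod]; exact hint2)]
  unfold t5a_II
  rw [intervalIntegral.integral_of_le ha.le]
  rw [← setIntegral_eq_integral_of_forall_compl_eq_zero (s := Ioc 0 a)]
  · apply setIntegral_congr_fun measurableSet_Ioc
    intro s hs
    show ∫ t : ℝ, f ⟨s, t⟩ * t5a_md a b m n ⟨s, t⟩ = (∫ t in (0:ℝ)..b, f ⟨s, t⟩ * Real.sin (Real.pi * n / b * t)) * Real.sin (Real.pi * m / a * s)
    rw [intervalIntegral.integral_of_le hb.le, ← integral_mul_const]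
    rw [← setIntegral_eq_integral_of_forall_compl_eq_zero (s := Ioc 0 b)]
    · apply setIntegral_congr_fun measurableSet_Ioc
      intro t ht
      show f ⟨s, t⟩ * t5a_md a b m n ⟨s, t⟩ = f ⟨s, t⟩ * Real.sin (Real.pi * n / b * t) * Real.sin (Real.pi * m / a * s)
      unfold t5a_md
      rw [t5a_cl_in (a := a) hs.1.le hs.2, t5a_cl_in (a := b) ht.1.le ht.2]
      ring
    · intro t ht
      rw [hout, zero_mul]
      intro hh
      exact ht ⟨hh.2.2.1, hh.2.2.2.le⟩
  · intro s hs
    have : ∀ t : ℝ, f ⟨s, t⟩ * t5a_md a b m n ⟨s, t⟩ = 0 := by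
      intro t
      rw [hout, zero_mul]
      intro hh
      exact hs ⟨hh.1, hh.2.1.le⟩
    simp [this]

/-- orthogonality of the sines -/
lemma t5a_sin_orth {a : ℝ} (ha : 0 < a) (m n : ℕ) (hm : 1 ≤ m) (hn : 1 ≤ n) :
    ∫ s in (0:ℝ)..a, Real.sin (Real.pi * m / a * s) * Real.sin (Real.pi * n / a * s) =
      if m = n then a / 2 else 0 := by
  have hpi := Real.pi_pos
  have hprod : ∀ s : ℝ, Real.sin (Real.pi * m / a * s) * Real.sin (Real.pi * n / a * s) =
      (Real.cos (Real.pi * ((m : ℝ) - n) / a * s) - Real.cos (Real.pi * ((m : ℝ) + n) / a * s)) / 2 := by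
    intro s
    have e1 : Real.pi * ((m : ℝ) - n) / a * s = Real.pi * m / a * s - Real.pi * n / a * s := by ring
    have e2 : Real.pi * ((m : ℝ) + n) / a * s = Real.pi * m / a * s + Real.pi * n / a * s := by ring
    rw [e1, e2, Real.cos_sub, Real.cos_add]
    ring
  have hcosint : ∀ k : ℤ, k ≠ 0 → ∫ s in (0:ℝ)..a, Real.cos (Real.pi * (k : ℝ) / a * s) = 0 := by
    intro k hk
    have hk' : (k : ℝ) ≠ 0 := by exact_mod_cast hk
    have hc : Real.pi * (k : ℝ) / a ≠ 0 := by positivity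
    rw [intervalIntegral.integral_comp_mul_left (fun y => Real.cos y) hc, integral_cos]
    have : Real.pi * (k : ℝ) / a * a = k * Real.pi := by field_simp
    rw [this, Real.sin_int_mul_pi, mul_zero, Real.sin_zero]
    simp
  simp_rw [hprod]
  rw [intervalIntegral.integral_div, intervalIntegral.integral_sub
    (Continuous.intervalIntegrable (by fun_prop) _ _) (Continuous.intervalIntegrable (by fun_prop) _ _)]
  have h2 : ∫ s in (0:ℝ)..a, Real.cos (Real.pi * ((m : ℝ) + n) / a * s) = 0 := by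
    have := hcosint ((m : ℤ) + n) (by omega)
    push_cast at this
    exact this
  rw [h2]
  by_cases hmn : m = n
  · subst hmn
    simp
  · rw [if_neg hmn]
    have := hcosint ((m : ℤ) - n) (by omega)
    push_cast at this
    rw [this]
    simp

lemma t5a_cont_mk {f : ℂ → ℝ} (hf : Continuous f) : Continuous (fun p : ℝ × ℝ => f ⟨p.1, p.2⟩) :=
  hf.comp Complex.equivRealProdCLM.symm.continuous

/-- TARGET 2: the eigenfunctions of a rectangle are finite sums of products of sines. -/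
theorem rect_modes {a b lam : ℝ} (ha : 0 < a) (hb : 0 < b) (hlam : 0 < lam) {u : ℂ → ℝ}
    (hu : Wat (rect a b) lam u) :
    ∃ (S : Finset (ℕ × ℕ)) (A : ℕ × ℕ → ℝ), (∀ p ∈ S, 1 ≤ p.1 ∧ 1 ≤ p.2) ∧
      (∀ p ∈ S, (Real.pi * p.1 / a) ^ 2 + (Real.pi * p.2 / b) ^ 2 = lam) ∧
      ∀ x ∈ rect a b, u x = ∑ p ∈ S, A p * (Real.sin (Real.pi * p.1 / a * x.re) *
        Real.sin (Real.pi * p.2 / b * x.im)) := by
  classical
  have hpi := Real.pi_pos
  have bound : ∀ (a : ℝ), 0 < a → ∀ m : ℕ, (Real.pi * m / a) ^ 2 ≤ lam → m ≤ ⌈lam * a ^ 2 / Real.pi ^ 2⌉₊ := by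
    intro a ha m h
    have h1 : (m : ℝ) ^ 2 ≤ lam * a ^ 2 / Real.pi ^ 2 := by
      rw [le_div_iff₀ (by positivity)]
      rw [div_pow, mul_pow, div_le_iff₀ (by positivity)] at h
      linarith
    have h2 : (m : ℝ) ≤ (m : ℝ) ^ 2 := by
      have : m ≤ m ^ 2 := Nat.le_self_pow (by norm_num) m
      exact_mod_cast this
    have h3 : (m : ℝ) ≤ (⌈lam * a ^ 2 / Real.pi ^ 2⌉₊ : ℝ) := h2.trans (h1.trans (Nat.le_ceil _))
    exact_mod_cast h3
  let M : ℕ := ⌈lam * a ^ 2 / Real.pi ^ 2⌉₊ + ⌈lam * b ^ 2 / Real.pi ^ 2⌉₊ + 1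
  let S : Finset (ℕ × ℕ) := ((Finset.range M) ×ˢ (Finset.range M)).filter
    (fun p => (1 ≤ p.1 ∧ 1 ≤ p.2) ∧ (Real.pi * p.1 / a) ^ 2 + (Real.pi * p.2 / b) ^ 2 = lam)
  have hS : ∀ p : ℕ × ℕ, p ∈ S ↔ (1 ≤ p.1 ∧ 1 ≤ p.2) ∧
      (Real.pi * p.1 / a) ^ 2 + (Real.pi * p.2 / b) ^ 2 = lam := by
    intro p
    simp only [S, Finset.mem_filter, Finset.mem_product, Finset.mem_range]
    constructor
    · exact fun h => h.2
    · intro h
      refine ⟨⟨?_, ?_⟩, h⟩
      · have := bound a ha p.1 (by have := sq_nonneg (Real.pi * p.2 / b); linarith [h.2])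
        show p.1 < ⌈lam * a ^ 2 / Real.pi ^ 2⌉₊ + ⌈lam * b ^ 2 / Real.pi ^ 2⌉₊ + 1
        omega
      · have := bound b hb p.2 (by have := sq_nonneg (Real.pi * p.1 / a); linarith [h.2])
        show p.2 < ⌈lam * a ^ 2 / Real.pi ^ 2⌉₊ + ⌈lam * b ^ 2 / Real.pi ^ 2⌉₊ + 1
        omega
  let A : ℕ × ℕ → ℝ := fun p => 4 / (a * b) * t5a_II a b u p.1 p.2
  let f : ℂ → ℝ := fun x => u x - ∑ p ∈ S, A p * (Real.sin (Real.pi * p.1 / a * x.re) *
    Real.sin (Real.pi * p.2 / b * x.im))
  have hsum : Continuous (fun x : ℂ => ∑ p ∈ S, A p * (Real.sin (Real.pi * p.1 / a * x.re) *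
    Real.sin (Real.pi * p.2 / b * x.im))) := by
    refine continuous_finsetSum _ (fun p _ => ?_)
    have h1 := Complex.continuous_re
    have h2 := Complex.continuous_im
    fun_prop
  have hf : Continuous f := hu.cont.sub hsum
  have hu2 := t5a_cont_mk hu.cont
  have hf2 := t5a_cont_mk hf
  have hinner : ∀ n : ℕ, 1 ≤ n → ∀ s : ℝ, ∫ t in (0:ℝ)..b, f ⟨s, t⟩ * Real.sin (Real.pi * n / b * t) =
      (∫ t in (0:ℝ)..b, u ⟨s, t⟩ * Real.sin (Real.pi * n / b * t)) -
        ∑ p ∈ S, A p * (if p.2 = n then b / 2 else 0) * Real.sin (Real.pi * p.1 / a * s) := by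
    intro n hn s
    have e1 : ∀ t : ℝ, f ⟨s, t⟩ * Real.sin (Real.pi * n / b * t) = u ⟨s, t⟩ * Real.sin (Real.pi * n / b * t) -
        ∑ p ∈ S, (A p * Real.sin (Real.pi * p.1 / a * s)) *
          (Real.sin (Real.pi * p.2 / b * t) * Real.sin (Real.pi * n / b * t)) := by
      intro t
      show (u ⟨s, t⟩ - ∑ p ∈ S, A p * (Real.sin (Real.pi * p.1 / a * s) *
        Real.sin (Real.pi * p.2 / b * t))) * Real.sin (Real.pi * n / b * t) = _
      rw [sub_mul, Finset.sum_mul]
      congr 1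
      apply Finset.sum_congr rfl
      intro p _
      ring
    simp_rw [e1]
    have hc1 : Continuous fun t : ℝ => u ⟨s, t⟩ * Real.sin (Real.pi * n / b * t) := by
      have : Continuous fun t : ℝ => u ⟨s, t⟩ := hu2.comp (by fun_prop : Continuous fun t : ℝ => (s, t))
      exact this.mul (by fun_prop)
    rw [intervalIntegral.integral_sub (hc1.intervalIntegrable _ _)
      (Continuous.intervalIntegrable (by fun_prop) _ _), intervalIntegral.integral_finsetSum
      (fun p _ => Continuous.intervalIntegrable (by fun_prop) _ _)]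
    congr 1
    apply Finset.sum_congr rfl
    intro p hp
    rw [intervalIntegral.integral_const_mul, t5a_sin_orth hb p.2 n ((hS p).mp hp).1.2 hn]
    ring
  have hGu : ∀ n : ℕ, Continuous fun s : ℝ => ∫ t in (0:ℝ)..b, u ⟨s, t⟩ * Real.sin (Real.pi * n / b * t) := by
    intro n
    apply intervalIntegral.continuous_parametric_intervalIntegral_of_continuous'
    have h1 : Continuous (fun p : ℝ × ℝ => u ⟨p.1, p.2⟩ * Real.sin (Real.pi * n / b * p.2)) :=
      hu2.mul (by fun_prop)
    exact h1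
  have hGf : ∀ n : ℕ, Continuous fun s : ℝ => ∫ t in (0:ℝ)..b, f ⟨s, t⟩ * Real.sin (Real.pi * n / b * t) := by
    intro n
    apply intervalIntegral.continuous_parametric_intervalIntegral_of_continuous'
    have h1 : Continuous (fun p : ℝ × ℝ => f ⟨p.1, p.2⟩ * Real.sin (Real.pi * n / b * p.2)) :=
      hf2.mul (by fun_prop)
    exact h1
  have hII : ∀ m n : ℕ, 1 ≤ m → 1 ≤ n → t5a_II a b f m n = 0 := by
    intro m n hm hn
    have e1 : t5a_II a b f m n = t5a_II a b u m n - ∑ p ∈ S, A p * (if p.2 = n then b / 2 else 0) *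
        (if p.1 = m then a / 2 else 0) := by
      unfold t5a_II
      simp_rw [hinner n hn, sub_mul, Finset.sum_mul]
      have hc1 := hGu n
      rw [intervalIntegral.integral_sub (Continuous.intervalIntegrable (by fun_prop) _ _)
        (Continuous.intervalIntegrable (by fun_prop) _ _), intervalIntegral.integral_finsetSum
        (fun p _ => Continuous.intervalIntegrable (by fun_prop) _ _)]
      congr 1
      apply Finset.sum_congr rfl
      intro p hp
      simp_rw [mul_assoc]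
      rw [intervalIntegral.integral_const_mul, intervalIntegral.integral_const_mul,
        t5a_sin_orth ha p.1 m ((hS p).mp hp).1.1 hm]
    rw [e1]
    by_cases hmn : (m, n) ∈ S
    · rw [Finset.sum_eq_single (m, n)]
      · simp only [if_true]
        show t5a_II a b u m n - 4 / (a * b) * t5a_II a b u m n * (b / 2) * (a / 2) = 0
        field_simp
        ring
      · intro p _ hp
        by_cases h1 : p.2 = n
        · by_cases h2 : p.1 = m
          · exact absurd (Prod.ext h2 h1) hp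
          · rw [if_neg h2, mul_zero]
        · rw [if_neg h1, mul_zero, zero_mul]
      · intro h; exact absurd hmn h
    · have hz : ∑ p ∈ S, A p * (if p.2 = n then b / 2 else 0) * (if p.1 = m then a / 2 else 0) = 0 := by
        apply Finset.sum_eq_zero
        intro p hp
        by_cases h1 : p.2 = n
        · by_cases h2 : p.1 = m
          · exfalso
            apply hmn
            have : p = (m, n) := Prod.ext h2 h1
            rwa [← this]
          · rw [if_neg h2, mul_zero]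
        · rw [if_neg h1, mul_zero, zero_mul]
      rw [hz, sub_zero]
      have hne : lam - ((Real.pi * m / a) ^ 2 + (Real.pi * n / b) ^ 2) ≠ 0 := by
        intro h
        apply hmn
        rw [hS]
        exact ⟨⟨hm, hn⟩, by linarith⟩
      have hp := t5a_pairing (t5a_rect_open a b) (t5a_rect_bdd a b) hu (t5a_md_wat ha hb m n)
      rw [t5a_int_eq_II ha hb m n hu.cont hu.out] at hp
      exact (mul_eq_zero.mp hp).resolve_left hne
  -- boundary values of f
  have hfb : ∀ s t : ℝ, (s = 0 ∨ s = a ∨ t = 0 ∨ t = b) → f ⟨s, t⟩ = 0 := by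
    intro s t h
    have h1 : u ⟨s, t⟩ = 0 := by
      apply hu.out
      rintro ⟨g1, g2, g3, g4⟩
      simp only at g1 g2 g3 g4
      rcases h with h | h | h | h <;> linarith
    show u ⟨s, t⟩ - ∑ p ∈ S, A p * (Real.sin (Real.pi * p.1 / a * s) *
        Real.sin (Real.pi * p.2 / b * t)) = 0
    rw [h1, zero_sub, neg_eq_zero]
    apply Finset.sum_eq_zero
    intro p _
    rcases h with h | h | h | h
    · rw [t5a_sin_end ha p.1 (Or.inl h)]; ring
    · rw [t5a_sin_end ha p.1 (Or.inr h)]; ring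
    · rw [t5a_sin_end hb p.2 (Or.inl h)]; ring
    · rw [t5a_sin_end hb p.2 (Or.inr h)]; ring
  have hG0 : ∀ n : ℕ, 1 ≤ n → ∀ s ∈ Icc (0:ℝ) a, ∫ t in (0:ℝ)..b, f ⟨s, t⟩ * Real.sin (Real.pi * n / b * t) = 0 := by
    intro n hn
    apply sine_uniq ha (hGf n)
    · have : ∀ t : ℝ, f ⟨0, t⟩ * Real.sin (Real.pi * n / b * t) = 0 := by
        intro t; rw [hfb 0 t (Or.inl rfl), zero_mul]
      simp [this]
    · have : ∀ t : ℝ, f ⟨a, t⟩ * Real.sin (Real.pi * n / b * t) = 0 := by
        intro t; rw [hfb a t (Or.inr (Or.inl rfl)), zero_mul]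
      simp [this]
    · intro m hm
      exact hII m n hm hn
  refine ⟨S, A, fun p hp => ((hS p).mp hp).1, fun p hp => ((hS p).mp hp).2, ?_⟩
  intro x hx
  obtain ⟨x1, x2, x3, x4⟩ := hx
  have hfin : ∀ t ∈ Icc (0:ℝ) b, f ⟨x.re, t⟩ = 0 := by
    apply sine_uniq hb (hf2.comp (by fun_prop : Continuous fun t : ℝ => (x.re, t)))
    · exact hfb _ _ (Or.inr (Or.inr (Or.inl rfl)))
    · exact hfb _ _ (Or.inr (Or.inr (Or.inr rfl)))
    · intro n hn
      exact hG0 n hn x.re ⟨x1.le, x2.le⟩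
  have h := hfin x.im ⟨x3.le, x4.le⟩
  have h' : u x - ∑ p ∈ S, A p * (Real.sin (Real.pi * p.1 / a * x.re) *
        Real.sin (Real.pi * p.2 / b * x.im)) = 0 := h
  linarith

lemma t5a_la_trans (U : ℂ → ℝ) (q x : ℂ) : la (fun y => U (q + y)) x = la U (q + x) := by
  have e1 : ∀ (φ : ℂ → ℝ) (v : ℂ), dd v (fun y => φ (q + y)) = fun y => dd v φ (q + y) := by
    intro φ v
    funext y
    unfold dd
    rw [fderiv_comp_add_left]
  unfold la
  rw [e1 U 1, e1 U Complex.I, e1, e1]

lemma t5a_exists_er {e : ℂ} (he : ‖e‖ = 1) : ∃ t : ℝ, Pool.Agent.TH298.Sch.er t = e := by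
  refine ⟨Complex.arg e, ?_⟩
  have h := Complex.norm_mul_exp_arg_mul_I e
  rw [he, Complex.ofReal_one, one_mul, Complex.exp_mul_I] at h
  unfold Pool.Agent.TH298.Sch.er
  rw [Complex.ofReal_cos, Complex.ofReal_sin]
  exact h

/-- TARGET 3 -/
theorem wat_rot {D : Set ℂ} {lam : ℝ} {u : ℂ → ℝ} (hu : Wat D lam u) (q e : ℂ) (he : ‖e‖ = 1) :
    Wat ((fun x : ℂ => q + e * x) ⁻¹' D) lam (fun x => u (q + e * x)) := by
  refine ⟨hu.cont.comp (by fun_prop), fun x hx => hu.out _ hx, fun x₀ hx₀ => ?_⟩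
  obtain ⟨r, hr, U, hU, hb, h⟩ := hu.loc (q + e * x₀) hx₀
  have hball : ∀ x ∈ Metric.ball x₀ r, q + e * x ∈ Metric.ball (q + e * x₀) r := by
    intro x hx
    rw [Metric.mem_ball, dist_eq_norm] at hx ⊢
    have : q + e * x - (q + e * x₀) = e * (x - x₀) := by ring
    rw [this, norm_mul, he, one_mul]
    exact hx
  obtain ⟨t, ht⟩ := t5a_exists_er he
  have hU1 : SC (fun z => U (q + z)) := by
    refine ⟨hU.sm.comp (contDiff_const.add contDiff_id), ?_⟩
    exact hU.cs.comp_homeomorph (Homeomorph.addLeft q)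
  have hU2 : SC (fun z => U (q + Pool.Agent.TH298.Sch.er t * z)) := Pool.Agent.R227.SA.rot_sc hU1 t
  rw [ht] at hU2
  refine ⟨r, hr, fun x => U (q + e * x), hU2, fun x hx => hb (hball x hx),
    fun x hx => ⟨(h _ (hball x hx)).1, ?_⟩⟩
  have h1 := Pool.Agent.R227.SA.la_rot hU1 t x
  rw [ht] at h1
  have h2 : la (fun y => U (q + e * y)) x = la U (q + e * x) := h1.trans (t5a_la_trans U q (e * x))
  rw [h2, (h _ (hball x hx)).2]

end Pool.Agent.Helper327_Drum
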