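import Pool.Agent.Helper327_Drum.Fin.K2a
import Pool.Agent.Helper327_Drum.Fin.T5a
import Pool.Agent.R227.SA18
import Pool.Agent.R227.SA19

/-
JOB SY2 (owner helper327, problem MP_d92c84_an). All imports are on origin/main.
-/

set_option autoImplicit false
open MeasureTheory Set Filter Topology ComplexConjugate
open scoped ContDiff InnerProductSpace

namespace Pool.Agent.Helper327_Drum

open Pool.Agent.TH298.Sch (dd SC X er Lr)
open Pool.Agent.R227.SA (la Wat Dat)

/-- a sign piece of a solution which vanishes on the real axis -/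
lemma sy2_piece {Ω : Set ℂ} {lam : ℝ} {w : ℂ → ℝ} (h : Wat Ω lam w)
    (hreal : ∀ x : ℂ, x.im = 0 → w x = 0) {σ τ : ℝ} (hσ : σ * σ = 1) (hτ : τ * τ = 1) :
    IsOpen {x : ℂ | 0 < σ * x.im ∧ 0 < τ * w x} ∧ {x : ℂ | 0 < σ * x.im ∧ 0 < τ * w x} ⊆ Ω ∧
    Wat {x : ℂ | 0 < σ * x.im ∧ 0 < τ * w x} lam
      (({x : ℂ | 0 < σ * x.im ∧ 0 < τ * w x}).indicator w) := by
  set G : Set ℂ := {x : ℂ | 0 < σ * x.im ∧ 0 < τ * w x} with hG
  have hσ0 : σ ≠ 0 := by
    rintro rfl
    norm_num at hσ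
  have hGo : IsOpen G := by
    have h1 : IsOpen {x : ℂ | 0 < σ * x.im} :=
      isOpen_lt continuous_const (continuous_const.mul Complex.continuous_im)
    have h2 : IsOpen {x : ℂ | 0 < τ * w x} := isOpen_lt continuous_const (continuous_const.mul h.cont)
    exact h1.inter h2
  have hGΩ : G ⊆ Ω := by
    intro x hx
    by_contra hn
    have := hx.2
    rw [h.out x hn, mul_zero] at this
    exact lt_irrefl _ this
  refine ⟨hGo, hGΩ, ?_, fun y hy => indicator_of_notMem hy _, fun x₀ hx₀ => ?_⟩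
  · have hF : Continuous fun x : ℂ => if 0 ≤ σ * x.im then τ * max (τ * w x) 0 else 0 := by
      refine Continuous.if_le ?_ continuous_const continuous_const
        (continuous_const.mul Complex.continuous_im) ?_
      · exact continuous_const.mul ((continuous_const.mul h.cont).max continuous_const)
      · intro x hx
        have hw : w x = 0 := by
          rcases mul_eq_zero.1 hx.symm with h1 | h1
          · exact absurd h1 hσ0
          · exact hreal x h1
        rw [hw]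
        simp
    convert hF using 1
    funext x
    by_cases hx : x ∈ G
    · rw [indicator_of_mem hx, if_pos hx.1.le, max_eq_left hx.2.le, ← mul_assoc, hτ, one_mul]
    · rw [indicator_of_notMem hx]
      split_ifs with h1
      · rcases h1.eq_or_lt with h2 | h2
        · have hw : w x = 0 := by
            rcases mul_eq_zero.1 h2.symm with h1 | h1
            · exact absurd h1 hσ0
            · exact hreal x h1
          rw [hw]
          simp
        · have h3 : τ * w x ≤ 0 := by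
            by_contra h4
            push Not at h4
            exact hx ⟨h2, h4⟩
          rw [max_eq_right h3, mul_zero]
      · rfl
  · obtain ⟨r, hr, W, hW, hb, hl⟩ := h.loc x₀ (hGΩ hx₀)
    obtain ⟨r', hr', hb'⟩ := Metric.isOpen_iff.1 hGo x₀ hx₀
    refine ⟨min r r', lt_min hr hr', W, hW,
      (Metric.ball_subset_ball (min_le_right _ _)).trans hb', fun y hy => ?_⟩
    have hy1 : y ∈ Metric.ball x₀ r := Metric.ball_subset_ball (min_le_left _ _) hy
    have hy2 : y ∈ G := hb' (Metric.ball_subset_ball (min_le_right _ _) hy)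
    rw [indicator_of_mem hy2]
    exact hl y hy1

/-- two consecutive rays in the open upper half plane -/
lemma sy2_angles (θ₀ : ℝ) {m : ℕ} (hm : 2 ≤ m)
    (h : ∀ i : ℕ, Real.sin (θ₀ + Real.pi * i / m) ≠ 0) :
    ∃ i : ℕ, 0 < Real.sin (θ₀ + Real.pi * i / m) ∧
      0 < Real.sin (θ₀ + Real.pi * (i + 1 : ℕ) / m) := by
  have hpi := Real.pi_pos
  have hm' : (2 : ℝ) ≤ m := by exact_mod_cast hm
  set δ : ℝ := Real.pi / m with hδ
  have hδ0 : 0 < δ := by positivity
  have hδ2 : 2 * δ ≤ Real.pi := by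
    rw [hδ]
    have : Real.pi / m ≤ Real.pi / 2 := div_le_div_of_nonneg_left hpi.le (by norm_num) hm'
    linarith
  have e : ∀ i : ℕ, θ₀ + Real.pi * i / m = θ₀ + δ * i := by
    intro i
    rw [hδ]
    ring
  obtain ⟨N, hN⟩ := exists_nat_gt (θ₀ / (2 * Real.pi))
  have hN' : θ₀ < N * (2 * Real.pi) := by
    rw [div_lt_iff₀ (by positivity)] at hN
    exact hN
  set t : ℝ := (N * (2 * Real.pi) - θ₀) / δ with ht
  have ht0 : 0 < t := div_pos (by linarith) hδ0
  have htδ : δ * t = N * (2 * Real.pi) - θ₀ := by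
    rw [ht]
    field_simp
  have h1 := Nat.lt_floor_add_one t
  have h2 := Nat.floor_le ht0.le
  set i : ℕ := ⌊t⌋₊ + 1 with hi
  have hi1 : (i : ℝ) = ⌊t⌋₊ + 1 := by
    rw [hi]
    push_cast
    ring
  have key : ∀ k : ℕ, N * (2 * Real.pi) < θ₀ + δ * k → θ₀ + δ * k ≤ N * (2 * Real.pi) + Real.pi →
      0 < Real.sin (θ₀ + Real.pi * k / m) := by
    intro k hk1 hk2
    have hne := h k
    rw [e] at hne ⊢
    have e2 : Real.sin (θ₀ + δ * k) = Real.sin (θ₀ + δ * k - N * (2 * Real.pi)) := by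
      rw [Real.sin_sub_nat_mul_two_pi]
    rw [e2] at hne ⊢
    rcases (Real.sin_nonneg_of_nonneg_of_le_pi (x := θ₀ + δ * k - N * (2 * Real.pi))
      (by linarith) (by linarith)).eq_or_lt with h3 | h3
    · exact absurd h3.symm hne
    · exact h3
  have hδi : δ * t < δ * i := by
    rw [hi1]
    exact mul_lt_mul_of_pos_left h1 hδ0
  have hδi2 : δ * i ≤ δ * t + δ := by
    rw [hi1, mul_add, mul_one]
    have := mul_le_mul_of_nonneg_left h2 hδ0.le
    linarith
  refine ⟨i, key i (by linarith) (by linarith), key (i + 1) ?_ ?_⟩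
  · push_cast
    nlinarith
  · push_cast
    nlinarith

/-- TARGET 1: four nodal pieces of the rotation derivative for a domain symmetric about the real axis. -/
theorem mirror_pieces {Ω : Set ℂ} {lam c : ℝ} {v : ℂ → ℝ} (D : Dat Ω lam c v) (ho : IsOpen Ω)
    (hb : Bornology.IsBounded Ω) (hne : Ω.Nonempty) (hcon : IsPreconnected Ω) (hlam : 0 < lam)
    (hinv : ∀ x, x ∈ Ω → conj x ∈ Ω) (hconj : ∀ x, v (conj x) = v x)
    (hnr : ∀ (a : ℂ) (b : ℝ), a ≠ 0 ∨ b ≠ 0 → ∃ x, fderiv ℝ v x (a + b * Complex.I * x) ≠ 0) :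
    ∃ (p : ℂ) (G : Fin 4 → Set ℂ), (∀ i, IsOpen (G i) ∧ (G i).Nonempty ∧ G i ⊆ Ω) ∧
      (∀ i j, i ≠ j → Disjoint (G i) (G j)) ∧
      ∀ i, Wat (G i) lam ((G i).indicator fun x => fderiv ℝ v x (Complex.I * (x - p))) := by
  obtain ⟨q, hq, hcr⟩ := D.critR hb hne hcon hinv hconj
  have D' := D.trans (q : ℂ)
  set Ω' : Set ℂ := (fun x => x + (q : ℂ)) ⁻¹' Ω with hΩ'
  set v' : ℂ → ℝ := fun x => v (x + (q : ℂ)) with hv'
  have h0 : (0 : ℂ) ∈ Ω' := by
    change 0 + (q : ℂ) ∈ Ω
    rwa [zero_add]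
  have hcon' : IsPreconnected Ω' :=
    (Homeomorph.addRight (q : ℂ)).isPreconnected_preimage.2 hcon
  have hcr' : fderiv ℝ v' 0 = 0 := by
    rw [hv', fderiv_comp_add_right, zero_add]
    exact hcr
  have hww : ∀ x, Lr v' (x - q) = fderiv ℝ v x (Complex.I * (x - q)) := by
    intro x
    unfold Lr
    rw [hv', fderiv_comp_add_right, sub_add_cancel]
  have hwI : ∀ x, fderiv ℝ v x (Complex.I * (x - q)) =
      fderiv ℝ v x (-(Complex.I * q) + (1 : ℝ) * Complex.I * x) := by
    intro x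
    congr 1
    push_cast
    ring
  obtain ⟨y0, hy0⟩ := hnr (-(Complex.I * q)) 1 (Or.inr one_ne_zero)
  have hne' : ∃ x, Lr v' x ≠ 0 := ⟨y0 - q, by rw [hww, hwI]; exact hy0⟩
  obtain ⟨r, hr, W, hW, hl, hW0, hf⟩ := D'.wat_loc h0
  obtain ⟨m, θ₀, ε, hm, hε, hm2, -, hrays⟩ :=
    D'.wat.rays hlam hcon' h0 hne' hr hW hl hW0
  have hm2' : 2 ≤ m := hm2 (hf hcr')
  have hconj' : ∀ x, v' (conj x) = v' x := by
    intro x
    have e1 : conj x + (q : ℂ) = conj (x + q) := by
      rw [map_add, Complex.conj_ofReal]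
    change v (conj x + q) = v (x + q)
    rw [e1, hconj]
  have hodd : ∀ x, Lr v' (conj x) = -Lr v' x := Pool.Agent.R227.SA.Lr_conj D'.c1 hconj'
  have hreal' : ∀ x : ℂ, x.im = 0 → Lr v' x = 0 := by
    intro x hx
    have e1 : conj x = x := Complex.conj_eq_iff_im.2 hx
    have := hodd x
    rw [e1] at this
    linarith
  set w : ℂ → ℝ := fun x => fderiv ℝ v x (Complex.I * (x - q)) with hwdef
  have hw' : ∀ x, w x = Lr v' (x - q) := fun x => (hww x).symm
  have hWt : Wat Ω lam w := by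
    have := kill_wat D (-(Complex.I * q)) 1
    rw [← funext hwI] at this
    exact this
  have hwreal : ∀ x : ℂ, x.im = 0 → w x = 0 := by
    intro x hx
    rw [hw']
    apply hreal'
    simp [hx]
  have hwodd : ∀ x, w (conj x) = -w x := by
    intro x
    rw [hw', hw', ← hodd]
    congr 1
    rw [map_sub, Complex.conj_ofReal]
  -- the two points
  have hXim : ∀ s θ : ℝ, (X s θ).im = s * Real.sin θ := by
    intro s θ
    unfold X
    simp only [Complex.add_im, Complex.mul_im, Complex.ofReal_re, Complex.ofReal_im, Complex.cos_ofReal_im, Complex.sin_ofReal_re, Complex.I_re, Complex.I_im]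
    try simp
    try ring
  have hsin : ∀ i : ℕ, Real.sin (θ₀ + Real.pi * i / m) ≠ 0 := by
    intro i hi
    have h1 := hrays i ε hε le_rfl
    rw [hreal' _ (by rw [hXim, hi, mul_zero]), mul_zero] at h1
    exact lt_irrefl _ h1
  obtain ⟨i, hi1, hi2⟩ := sy2_angles θ₀ hm2' hsin
  have k1 := hrays i ε hε le_rfl
  have k2 := hrays (i + 1) ε hε le_rfl
  rw [pow_succ] at k2
  set x1 : ℂ := X ε (θ₀ + Real.pi * i / m) + q with hx1
  set x2 : ℂ := X ε (θ₀ + Real.pi * (i + 1 : ℕ) / m) + q with hx2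
  have hwx1 : w x1 = Lr v' (X ε (θ₀ + Real.pi * i / m)) := by
    rw [hw', hx1, add_sub_cancel_right]
  have hwx2 : w x2 = Lr v' (X ε (θ₀ + Real.pi * (i + 1 : ℕ) / m)) := by
    rw [hw', hx2, add_sub_cancel_right]
  rw [← hwx1] at k1
  rw [← hwx2] at k2
  have him1 : 0 < x1.im := by
    rw [hx1, Complex.add_im, hXim, Complex.ofReal_im, add_zero]
    exact mul_pos hε hi1
  have him2 : 0 < x2.im := by
    rw [hx2, Complex.add_im, hXim, Complex.ofReal_im, add_zero]
    exact mul_pos hε hi2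
  obtain ⟨yp, ym, hyp, hyp', hym, hym'⟩ : ∃ yp ym : ℂ, 0 < yp.im ∧ 0 < w yp ∧ 0 < ym.im ∧
      w ym < 0 := by
    rcases neg_one_pow_eq_or ℝ i with h3 | h3
    · rw [h3] at k1 k2
      exact ⟨x1, x2, him1, by linarith, him2, by linarith⟩
    · rw [h3] at k1 k2
      exact ⟨x2, x1, him2, by linarith, him1, by linarith⟩
  let σ : Fin 4 → ℝ := ![1, 1, -1, -1]
  let τ : Fin 4 → ℝ := ![1, -1, 1, -1]
  have hσ : ∀ i, σ i * σ i = 1 := by
    intro i
    fin_cases i <;> simp [σ]
  have hτ : ∀ i, τ i * τ i = 1 := by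
    intro i
    fin_cases i <;> simp [τ]
  refine ⟨q, fun i => {x : ℂ | 0 < σ i * x.im ∧ 0 < τ i * w x}, fun i => ⟨?_, ?_, ?_⟩,
    fun i j hij => ?_, fun i => ?_⟩
  · exact (sy2_piece hWt hwreal (hσ i) (hτ i)).1
  · fin_cases i
    · exact ⟨yp, by simp [σ, τ, hyp, hyp']⟩
    · exact ⟨ym, by simp [σ, τ, hym, hym']⟩
    · exact ⟨conj ym, by simp [σ, τ, hwodd, hym, hym']⟩
    · exact ⟨conj yp, by simp [σ, τ, hwodd, hyp, hyp']⟩
  · exact (sy2_piece hWt hwreal (hσ i) (hτ i)).2.1
  · rw [Set.disjoint_left]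
    rintro x ⟨h1, h2⟩ ⟨h3, h4⟩
    apply hij
    fin_cases i <;> fin_cases j <;> simp [σ, τ] at h1 h2 h3 h4 ⊢ <;> linarith
  · exact (sy2_piece hWt hwreal (hσ i) (hτ i)).2.2

/-- TARGET 2: the same for a domain symmetric about an arbitrary line. -/
theorem mirror_pieces_line {Ω : Set ℂ} {lam c : ℝ} {v : ℂ → ℝ} (D : Dat Ω lam c v) (ho : IsOpen Ω)
    (hb : Bornology.IsBounded Ω) (hne : Ω.Nonempty) (hcon : IsPreconnected Ω) (hlam : 0 < lam)
    {q e : ℂ} (he : ‖e‖ = 1) (hinv : ∀ x, x ∈ Ω → q + e * conj (x - q) ∈ Ω)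
    (hsym : ∀ x, v (q + e * conj (x - q)) = v x)
    (hnr : ∀ (a : ℂ) (b : ℝ), a ≠ 0 ∨ b ≠ 0 → ∃ x, fderiv ℝ v x (a + b * Complex.I * x) ≠ 0) :
    ∃ (p : ℂ) (G : Fin 4 → Set ℂ), (∀ i, IsOpen (G i) ∧ (G i).Nonempty ∧ G i ⊆ Ω) ∧
      (∀ i j, i ≠ j → Disjoint (G i) (G j)) ∧
      ∀ i, Wat (G i) lam ((G i).indicator fun x => fderiv ℝ v x (Complex.I * (x - p))) := by
  obtain ⟨t, ht⟩ := t5a_exists_er he
  set f : ℂ := er (t / 2) with hf
  have hff : f * f = e := by
    rw [hf, ← Pool.Agent.R227.SA.er_add, add_halves, ht]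
  have hfn : ‖f‖ = 1 := Pool.Agent.R227.SA.norm_er _
  have hf0 : f ≠ 0 := by
    intro h
    rw [h, norm_zero] at hfn
    norm_num at hfn
  have hfc : f * conj f = 1 := by
    rw [Complex.mul_conj, Complex.normSq_eq_norm_sq, hfn]
    simp
  have D2 := (D.trans q).rotG (t / 2)
  set Ω' : Set ℂ := (fun x => er (t / 2) * x) ⁻¹' ((fun x => x + q) ⁻¹' Ω) with hΩ'
  set v' : ℂ → ℝ := fun x => v (er (t / 2) * x + q) with hv'
  have hv'x : ∀ x, v' x = v (f * x + q) := fun x => rfl
  have hΩ'x : ∀ x, x ∈ Ω' ↔ f * x + q ∈ Ω := fun x => Iff.rfl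
  have hcontT : Continuous fun x : ℂ => f * x + q := by fun_prop
  have hfd : ∀ x h, fderiv ℝ v' x h = fderiv ℝ v (f * x + q) (f * h) := by
    intro x h
    have h1 : HasFDerivAt (fun y : ℂ => f * y + q) (f • (ContinuousLinearMap.id ℝ ℂ)) x :=
      ((hasFDerivAt_id (𝕜 := ℝ) x).const_mul f).add_const q
    have h2 : HasFDerivAt (fun y => v (f * y + q))
        ((fderiv ℝ v (f * x + q)).comp (f • (ContinuousLinearMap.id ℝ ℂ))) x :=
      ((D.c1.differentiable (by norm_num)) (f * x + q)).hasFDerivAt.comp x h1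
    have h3 : fderiv ℝ v' x = (fderiv ℝ v (f * x + q)).comp (f • (ContinuousLinearMap.id ℝ ℂ)) :=
      h2.fderiv
    rw [h3]
    rfl
  have ho' : IsOpen Ω' := ho.preimage hcontT
  have hTS : ∀ y : ℂ, f * (conj f * (y - q)) + q = y := by
    intro y
    rw [← mul_assoc, hfc]
    ring
  have hb' : Bornology.IsBounded Ω' := by
    obtain ⟨C, hC⟩ := hb.exists_norm_le
    rw [isBounded_iff_forall_norm_le]
    refine ⟨C + ‖q‖, fun x hx => ?_⟩
    have h1 := hC _ ((hΩ'x x).1 hx)
    have h2 := norm_sub_le (f * x + q) q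
    rw [add_sub_cancel_right, norm_mul, hfn, one_mul] at h2
    linarith
  have hne' : Ω'.Nonempty := by
    obtain ⟨y, hy⟩ := hne
    exact ⟨conj f * (y - q), by rw [hΩ'x, hTS]; exact hy⟩
  have himg : Ω' = (fun y => conj f * (y - q)) '' Ω := by
    ext x
    constructor
    · intro hx
      refine ⟨f * x + q, (hΩ'x x).1 hx, ?_⟩
      simp only [add_sub_cancel_right]
      rw [← mul_assoc, mul_comm (conj f) f, hfc, one_mul]
    · rintro ⟨y, hy, rfl⟩
      rw [hΩ'x, hTS]
      exact hy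
  have hcon' : IsPreconnected Ω' := by
    rw [himg]
    exact hcon.image _ (by fun_prop)
  have hrefl : ∀ x, f * conj x + q = q + e * conj (f * x + q - q) := by
    intro x
    rw [add_sub_cancel_right, map_mul, ← hff]
    have : f * f * (conj f * conj x) = (f * conj f) * (f * conj x) := by ring
    rw [this, hfc]
    ring
  have hinv' : ∀ x, x ∈ Ω' → conj x ∈ Ω' := by
    intro x hx
    rw [hΩ'x, hrefl]
    exact hinv _ ((hΩ'x x).1 hx)
  have hconj' : ∀ x, v' (conj x) = v' x := by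
    intro x
    rw [hv'x, hv'x, hrefl, hsym]
  have hnr' : ∀ (a : ℂ) (b : ℝ), a ≠ 0 ∨ b ≠ 0 →
      ∃ x, fderiv ℝ v' x (a + b * Complex.I * x) ≠ 0 := by
    intro a b hab
    obtain ⟨y, hy⟩ := hnr (f * a - b * Complex.I * q) b (by
      by_cases hb0 : b = 0
      · left
        rcases hab with h | h
        · rw [hb0]
          simpa using ⟨hf0, h⟩
        · exact absurd hb0 h
      · exact Or.inr hb0)
    refine ⟨conj f * (y - q), ?_⟩
    rw [hfd, hTS]
    have e1 : f * (a + b * Complex.I * (conj f * (y - q)))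
        = f * a + b * Complex.I * ((f * conj f) * (y - q)) := by ring
    rw [e1, hfc]
    have e2 : f * a + b * Complex.I * (1 * (y - q)) = f * a - b * Complex.I * q + b * Complex.I * y := by
      ring
    rw [e2]
    exact hy
  obtain ⟨p, G, hG1, hG2, hG3⟩ :=
    mirror_pieces D2 ho' hb' hne' hcon' hlam hinv' hconj' hnr'
  have hS : ∀ y : ℂ, -(conj f * q) + conj f * y = conj f * (y - q) := by
    intro y
    ring
  have hcf : ‖conj f‖ = 1 := by rw [Complex.norm_conj, hfn]
  refine ⟨f * p + q, fun i => (fun y => -(conj f * q) + conj f * y) ⁻¹' (G i), fun i => ⟨?_, ?_, ?_⟩,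
    fun i j hij => (hG2 i j hij).preimage _, fun i => ?_⟩
  · exact (hG1 i).1.preimage (by fun_prop)
  · obtain ⟨x, hx⟩ := (hG1 i).2.1
    refine ⟨f * x + q, ?_⟩
    change -(conj f * q) + conj f * (f * x + q) ∈ G i
    have : -(conj f * q) + conj f * (f * x + q) = (f * conj f) * x := by ring
    rw [this, hfc, one_mul]
    exact hx
  · intro y hy
    have h1 : -(conj f * q) + conj f * y ∈ G i := hy
    rw [hS] at h1
    have h2 := (hG1 i).2.2 h1
    rw [hΩ'x, hTS] at h2
    exact h2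
  · have h1 := wat_rot (hG3 i) (-(conj f * q)) (conj f) hcf
    convert h1 using 1
    funext y
    by_cases hy : -(conj f * q) + conj f * y ∈ G i
    · rw [indicator_of_mem (show y ∈ (fun y => -(conj f * q) + conj f * y) ⁻¹' (G i) from hy),
        indicator_of_mem hy, hS, hfd, hTS]
      congr 1
      have : f * (Complex.I * (conj f * (y - q) - p)) = Complex.I * ((f * conj f) * (y - q) - f * p) := by
        ring
      rw [this, hfc]
      ring
    · rw [indicator_of_notMem (show y ∉ (fun y => -(conj f * q) + conj f * y) ⁻¹' (G i) from hy),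
        indicator_of_notMem hy]

end Pool.Agent.Helper327_Drum
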