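import Mathlib

set_option autoImplicit false
open Set Filter Topology

namespace Pool.Agent.Helper327_Drum

/-- TARGET: an open connected set invariant under a rotation of finite order separates 0 from infinity. -/
theorem no_log {F V : Set ℂ} (hF : IsClosed F) (hFc : IsPreconnected F) (h0 : (0:ℂ) ∈ F) {r : ℝ}
    (hr : ∀ x : ℂ, r ≤ ‖x‖ → x ∈ F) (hV : IsOpen V) (hVc : IsPreconnected V) (hne : V.Nonempty)
    (hd : Disjoint F V) {e : ℂ} {n : ℕ} (hn : 1 ≤ n) (he : e ≠ 1) (hen : e ^ n = 1)
    (hinv : ∀ x ∈ V, e * x ∈ V) : False := by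
  classical
  obtain ⟨x, hx⟩ := hne
  have hpc : IsPathConnected V := (hV.isConnected_iff_isPathConnected).1 ⟨⟨x, hx⟩, hVc⟩
  have hJ : JoinedIn V x (e * x) := hpc.joinedIn x hx (e * x) (hinv x hx)
  obtain ⟨γ, hγ⟩ := hJ
  set C₁ : Set ℂ := range γ with hC₁
  have hC₁c : IsCompact C₁ := isCompact_range γ.continuous
  have hC₁p : IsPreconnected C₁ := isPreconnected_range γ.continuous
  have hC₁V : C₁ ⊆ V := by
    rintro _ ⟨t, rfl⟩
    exact hγ t
  have hxC₁ : x ∈ C₁ := ⟨0, by simp⟩
  have hexC₁ : e * x ∈ C₁ := ⟨1, by simp⟩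
  have hpow : ∀ (i : ℕ) (z : ℂ), z ∈ V → e ^ i * z ∈ V := by
    intro i
    induction i with
    | zero => intro z hz; simpa using hz
    | succ i ih =>
      intro z hz
      have := hinv _ (ih z hz)
      rwa [← mul_assoc, ← pow_succ'] at this
  let s : ℕ → Set ℂ := fun i => (fun z => e ^ i * z) '' C₁
  set C : Set ℂ := ⋃ i, s i with hC
  have hCp : IsPreconnected C := by
    apply IsPreconnected.iUnion_of_chain
    · intro i
      exact hC₁p.image _ (by fun_prop)
    · intro i
      refine ⟨e ^ (i + 1) * x, ⟨e * x, hexC₁, ?_⟩, ⟨x, hxC₁, rfl⟩⟩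
      simp only
      rw [pow_succ, mul_assoc]
  have hCfin : C = ⋃ i ∈ Finset.range n, s i := by
    apply Subset.antisymm
    · rintro z hz
      obtain ⟨i, hi⟩ := mem_iUnion.1 hz
      refine mem_iUnion₂.2 ⟨i % n, Finset.mem_range.2 (Nat.mod_lt _ (by omega)), ?_⟩
      obtain ⟨w, hw, rfl⟩ := hi
      refine ⟨w, hw, ?_⟩
      simp only
      congr 1
      conv_rhs => rw [← Nat.div_add_mod i n, pow_add, pow_mul, hen, one_pow, one_mul]
    · intro z hz
      obtain ⟨i, _, hi⟩ := mem_iUnion₂.1 hz
      exact mem_iUnion.2 ⟨i, hi⟩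
  have hCc : IsCompact C := by
    rw [hCfin]
    exact (Finset.range n).isCompact_biUnion (fun i _ => hC₁c.image (by fun_prop))
  have hCV : C ⊆ V := by
    intro z hz
    obtain ⟨i, w, hw, rfl⟩ := mem_iUnion.1 hz
    exact hpow i w (hC₁V hw)
  have heC : ∀ z ∈ C, e * z ∈ C := by
    intro z hz
    obtain ⟨i, w, hw, rfl⟩ := mem_iUnion.1 hz
    refine mem_iUnion.2 ⟨i + 1, w, hw, ?_⟩
    simp only
    rw [pow_succ']
    ring
  have hxC : x ∈ C := mem_iUnion.2 ⟨0, x, hxC₁, by simp⟩
  -- the distance
  have hsub : C ⊆ Fᶜ := fun z hz hzF => Set.disjoint_left.1 hd hzF (hCV hz)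
  obtain ⟨δ, hδ, hthick⟩ := hCc.exists_thickening_subset_open hF.isOpen_compl hsub
  have hdist : ∀ a ∈ F, ∀ z ∈ C, δ ≤ ‖z - a‖ := by
    intro a ha z hz
    by_contra hcon
    push Not at hcon
    have : a ∈ Metric.thickening δ C := by
      rw [Metric.mem_thickening_iff]
      exact ⟨z, hz, by rw [dist_comm, dist_eq_norm]; exact hcon⟩
    exact hthick this ha
  -- the predicate
  let P : ℂ → Prop := fun a => ∃ f : ℂ → ℂ, ContinuousOn f C ∧ ∀ z ∈ C, Complex.exp (f z) = z - a
  have hstep : ∀ a ∈ F, ∀ b ∈ F, ‖b - a‖ < δ → P a → P b := by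
    rintro a ha b hb hab ⟨f, hf, hfe⟩
    have hza : ∀ z ∈ C, z - a ≠ 0 := by
      intro z hz h
      have := hdist a ha z hz
      rw [h, norm_zero] at this
      linarith
    have hzb : ∀ z ∈ C, z - b ≠ 0 := by
      intro z hz h
      have := hdist b hb z hz
      rw [h, norm_zero] at this
      linarith
    have hslit : ∀ z ∈ C, (z - b) / (z - a) ∈ Complex.slitPlane := by
      intro z hz
      have h1 : (z - b) / (z - a) = 1 - (b - a) / (z - a) := by
        have := hza z hz
        field_simp
        ring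
      have h2 : ‖(b - a) / (z - a)‖ < 1 := by
        rw [norm_div, div_lt_one (norm_pos_iff.2 (hza z hz))]
        exact lt_of_lt_of_le hab (hdist a ha z hz)
      rw [Complex.mem_slitPlane_iff]
      left
      rw [h1, Complex.sub_re, Complex.one_re]
      have := (Complex.abs_re_le_norm ((b - a) / (z - a)))
      have := (abs_lt.1 (lt_of_le_of_lt this h2)).2
      linarith
    refine ⟨fun z => f z + Complex.log ((z - b) / (z - a)), ?_, ?_⟩
    · apply hf.add
      apply ContinuousOn.clog
      · apply ContinuousOn.div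
        · fun_prop
        · fun_prop
        · exact hza
      · exact hslit
    · intro z hz
      rw [Complex.exp_add, hfe z hz, Complex.exp_log (div_ne_zero (hzb z hz) (hza z hz))]
      have := hza z hz
      field_simp
  -- a far point
  obtain ⟨B, hB⟩ := hCc.isBounded.exists_norm_le
  let M : ℝ := |r| + |B| + 1
  have hMpos : 0 < M := by positivity
  have hMF : (M : ℂ) ∈ F := by
    apply hr
    rw [Complex.norm_real, Real.norm_eq_abs, abs_of_pos hMpos]
    have := le_abs_self r
    have := abs_nonneg B
    simp only [M]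
    linarith
  have hPM : P (M : ℂ) := by
    refine ⟨fun z => Complex.log (1 - z / M) + Complex.log (-(M : ℂ)), ?_, ?_⟩
    · apply ContinuousOn.add _ continuousOn_const
      apply ContinuousOn.clog
      · fun_prop
      · intro z hz
        rw [Complex.mem_slitPlane_iff]
        left
        rw [Complex.sub_re, Complex.one_re]
        have h2 : ‖z / (M : ℂ)‖ < 1 := by
          rw [norm_div, Complex.norm_real, Real.norm_eq_abs, abs_of_pos hMpos, div_lt_one hMpos]
          have := hB z hz
          have := le_abs_self B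
          have := abs_nonneg r
          simp only [M]
          linarith
        have := (Complex.abs_re_le_norm (z / (M : ℂ)))
        have := (abs_lt.1 (lt_of_le_of_lt this h2)).2
        linarith
    · intro z hz
      have hM0 : (M : ℂ) ≠ 0 := by exact_mod_cast hMpos.ne'
      have h3 : (1 : ℂ) - z / M ≠ 0 := by
        intro h
        have h4 : z = M := by
          field_simp at h
          linear_combination -h
        exact hsub hz (h4 ▸ hMF)
      rw [Complex.exp_add, Complex.exp_log h3, Complex.exp_log (neg_ne_zero.2 hM0)]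
      field_simp
      ring
  have hP0 : P 0 := by
    have key : (P (M : ℂ) → P 0) := by
      refine hFc.induction₂' (fun a b => (P a → P b)) ?_ ?_ hMF h0
      · intro a ha
        have : ∀ᶠ b in 𝓝[F] a, b ∈ F ∧ ‖b - a‖ < δ := by
          refine (eventually_mem_nhdsWithin).and ?_
          apply nhdsWithin_le_nhds
          have : Metric.ball a δ ∈ 𝓝 a := Metric.ball_mem_nhds a hδ
          filter_upwards [this] with b hb
          rwa [Metric.mem_ball, dist_eq_norm] at hb
        filter_upwards [this] with b hb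
        refine ⟨hstep a ha b hb.1 hb.2, hstep b hb.1 a ha ?_⟩
        rw [norm_sub_rev]
        exact hb.2
      · intro a b c _ _ _ h1 h2 h3
        exact h2 (h1 h3)
    exact key hPM
  obtain ⟨f, hf, hfe⟩ := hP0
  have hz0 : ∀ z ∈ C, z ≠ 0 := by
    intro z hz h
    exact hsub hz (h ▸ h0)
  have hkc : ContinuousOn (fun z => f (e * z) - f z) C := by
    apply ContinuousOn.sub _ hf
    exact hf.comp (by fun_prop) heC
  have hke : ∀ z ∈ C, Complex.exp (f (e * z) - f z) = e := by
    intro z hz
    rw [Complex.exp_sub, hfe _ (heC z hz), hfe z hz]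
    simp only [sub_zero]
    have := hz0 z hz
    field_simp
  have hconst : ∀ z ∈ C, f (e * z) - f z = f (e * x) - f x := by
    intro z hz
    refine hCp.induction₂' (fun a b => f (e * a) - f a = f (e * b) - f b) ?_ ?_ hz hxC
    · intro a ha
      have h1 := hkc a ha
      have h2 : ∀ᶠ b in 𝓝[C] a, dist (f (e * b) - f b) (f (e * a) - f a) < 1 :=
        h1.eventually (Metric.ball_mem_nhds _ one_pos)
      have h3 : ∀ᶠ b in 𝓝[C] a, b ∈ C := eventually_mem_nhdsWithin
      filter_upwards [h2, h3] with b hb hbC
      have h4 : Complex.exp ((f (e * b) - f b) - (f (e * a) - f a)) = 1 := by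
        rw [Complex.exp_sub, hke b hbC, hke a ha]
        have : e ≠ 0 := by
          rintro rfl
          rw [zero_pow (by omega)] at hen
          exact zero_ne_one hen
        exact div_self this
      obtain ⟨m, hm⟩ := Complex.exp_eq_one_iff.1 h4
      have h5 : (m : ℝ) = 0 ∨ True := Or.inr trivial
      have h6 : m = 0 := by
        by_contra hm0
        rw [dist_eq_norm, hm, norm_mul] at hb
        have h7 : (1 : ℝ) ≤ ‖(m : ℂ)‖ := by
          rw [Complex.norm_intCast]
          exact_mod_cast Int.one_le_abs hm0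
        have h8 : (1 : ℝ) ≤ ‖(2 * (Real.pi : ℂ) * Complex.I)‖ := by
          simp only [norm_mul, Complex.norm_I, mul_one, Complex.norm_real, Complex.norm_ofNat,
            Real.norm_eq_abs, abs_of_pos Real.pi_pos]
          have := Real.pi_gt_three
          linarith
        nlinarith
      rw [h6] at hm
      simp only [Int.cast_zero, zero_mul] at hm
      have h9 := sub_eq_zero.1 hm
      exact ⟨h9.symm, h9⟩
    · intro a b c _ _ _ h1 h2
      exact h1.trans h2
  set κ := f (e * x) - f x with hκ
  have hit : ∀ i : ℕ, e ^ i * x ∈ C ∧ f (e ^ i * x) = f x + i * κ := by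
    intro i
    induction i with
    | zero => simp [hxC]
    | succ i ih =>
      have h1 : e ^ (i + 1) * x = e * (e ^ i * x) := by rw [pow_succ']; ring
      refine ⟨h1 ▸ heC _ ih.1, ?_⟩
      have h2 := hconst _ ih.1
      rw [h1]
      push_cast
      linear_combination h2 + ih.2
  have h1 := (hit n).2
  rw [hen, one_mul] at h1
  have h2 : (n : ℂ) * κ = 0 := by linear_combination -h1
  have h3 : (n : ℂ) ≠ 0 := by exact_mod_cast (by omega : n ≠ 0)
  have h4 : κ = 0 := by
    rcases mul_eq_zero.1 h2 with h | h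
    · exact absurd h h3
    · exact h
  have h5 := hke x hxC
  rw [← hκ, h4, Complex.exp_zero] at h5
  exact he h5.symm

end Pool.Agent.Helper327_Drum
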