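import Pool.Agent.Helper327_Drum.Fin.SY3

set_option autoImplicit false
open Set Filter Topology

namespace Pool.Agent.Helper327_Drum

/-- the closed exterior of a disc is connected -/
lemma ext_conn (ρ : ℝ) : IsPreconnected {x : ℂ | ρ ≤ ‖x‖} := by
  have h1 : {x : ℂ | ρ ≤ ‖x‖} =
      (fun p : ℝ × ℝ => (p.1 : ℂ) * Complex.exp (p.2 * Complex.I)) '' (Ici ρ ×ˢ univ) := by
    ext x
    constructor
    · intro hx
      exact ⟨(‖x‖, Complex.arg x), ⟨hx, mem_univ _⟩, Complex.norm_mul_exp_arg_mul_I x⟩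
    · rintro ⟨p, ⟨hp, -⟩, rfl⟩
      simp only [mem_ofPred_eq, norm_mul, Complex.norm_real, Real.norm_eq_abs,
        Complex.norm_exp_ofReal_mul_I, mul_one]
      exact (mem_Ici.1 hp).trans (le_abs_self _)
  rw [h1]
  refine (isPreconnected_Ici.prod isPreconnected_univ).image _ ?_
  exact (by fun_prop : Continuous
    (fun p : ℝ × ℝ => (p.1 : ℂ) * Complex.exp (p.2 * Complex.I))).continuousOn

/-- points of an open set not containing zero can be pushed outwards -/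
lemma push_out {V : Set ℂ} (hV : IsOpen V) (h0 : (0:ℂ) ∉ V) {y : ℂ} (hy : y ∈ V) :
    (∃ z ∈ V, ‖y‖ < ‖z‖) ∧ ∃ z ∈ V, ‖z‖ < ‖y‖ := by
  have hy0 : y ≠ 0 := fun h => h0 (h ▸ hy)
  have hn : 0 < ‖y‖ := norm_pos_iff.2 hy0
  have hc : Continuous (fun t : ℝ => (t : ℂ) * y) := by fun_prop
  have hpre : (fun t : ℝ => (t : ℂ) * y) ⁻¹' V ∈ 𝓝 (1:ℝ) :=
    hc.continuousAt.preimage_mem_nhds (by simpa using hV.mem_nhds hy)
  obtain ⟨ε, hε, hball⟩ := Metric.mem_nhds_iff.1 hpre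
  constructor
  · refine ⟨((1 + ε / 2 : ℝ) : ℂ) * y, hball ?_, ?_⟩
    · simp [abs_of_pos hε]
      linarith
    · rw [norm_mul, Complex.norm_real, Real.norm_eq_abs, abs_of_pos (by linarith)]
      nlinarith
  · have hm : 0 < min ε 1 := lt_min hε one_pos
    refine ⟨((1 - min ε 1 / 2 : ℝ) : ℂ) * y, hball ?_, ?_⟩
    · simp only [Metric.mem_ball, Real.dist_eq]
      rw [show (1 - min ε 1 / 2 - 1 : ℝ) = -(min ε 1 / 2) by ring, abs_neg,
        abs_of_pos (by linarith)]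
      have := min_le_left ε 1
      linarith
    · have h1 := min_le_right ε 1
      rw [norm_mul, Complex.norm_real, Real.norm_eq_abs, abs_of_pos (by linarith)]
      nlinarith

/-- data of a component, abstractly -/
structure Cm (U : Set ℂ) (D : Set ℂ) : Prop where
  op : IsOpen D
  pc : IsPreconnected D
  ne : D.Nonempty
  sub : D ⊆ U

/-- both accumulate at zero: one of them is not invariant -/
lemma both0 {Ω P M : Set ℂ} (hb : Bornology.IsBounded Ω)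
    {U : Set ℂ} (hU : U ⊆ Ω) (h0U : (0:ℂ) ∉ U)
    (hP : Cm U P) (hM : Cm U M) (hd : Disjoint P M) (h0P : (0:ℂ) ∈ closure P)
    (h0M : (0:ℂ) ∈ closure M) {e₁ e₂ : ℂ} {n : ℕ} (hn : 1 ≤ n)
    (he₁ : e₁ ≠ 1) (hen₁ : e₁ ^ n = 1) (he₂ : e₂ ≠ 1) (hen₂ : e₂ ^ n = 1)
    (hinv₁ : ∀ x ∈ P, e₁ * x ∈ P) (hinv₂ : ∀ x ∈ M, e₂ * x ∈ M) : False := by
  have key : ∀ (P M : Set ℂ), Cm U P → Cm U M → Disjoint P M → (0:ℂ) ∈ closure P →
      ∀ e : ℂ, e ≠ 1 → e ^ n = 1 → (∀ x ∈ M, e * x ∈ M) →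
      ∀ p ∈ closure P, ∀ m ∈ closure M, (∀ y ∈ closure M, ‖y‖ ≤ ‖m‖) → ‖m‖ ≤ ‖p‖ → False := by
    intro P M hP hM hd h0P e he hen hinv p hp m hm hmax hmp
    refine no_log (F := closure P ∪ {x | ‖p‖ ≤ ‖x‖}) (V := M) (r := ‖p‖) ?_ ?_ (Or.inl h0P) ?_ hM.op
      hM.pc hM.ne ?_ hn he hen hinv
    · exact isClosed_closure.union (isClosed_le continuous_const continuous_norm)
    · exact IsPreconnected.union p hp (by simp) hP.pc.closure (ext_conn _)
    · intro x hx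
      exact Or.inr hx
    · rw [Set.disjoint_left]
      rintro y (hy | hy) hyM
      · have : Disjoint (closure P) M := hd.closure_left hM.op
        exact Set.disjoint_left.1 this hy hyM
      · obtain ⟨z, hz, hyz⟩ := (push_out hM.op (fun h => h0U (hM.sub h)) hyM).1
        have h1 := hmax z (subset_closure hz)
        have h2 : ‖p‖ ≤ ‖y‖ := hy
        linarith
  have cpt : ∀ D : Set ℂ, Cm U D → ∃ p ∈ closure D, ∀ y ∈ closure D, ‖y‖ ≤ ‖p‖ := by
    intro D hD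
    have hbD : Bornology.IsBounded (closure D) := (hb.subset (hD.sub.trans hU)).closure
    have hc : IsCompact (closure D) := Metric.isCompact_of_isClosed_isBounded isClosed_closure hbD
    obtain ⟨p, hp, hmax⟩ := hc.exists_isMaxOn hD.ne.closure continuous_norm.continuousOn
    exact ⟨p, hp, fun y hy => hmax hy⟩
  obtain ⟨p, hp, hpm⟩ := cpt P hP
  obtain ⟨m, hm, hmm⟩ := cpt M hM
  rcases le_total ‖m‖ ‖p‖ with h | h
  · exact key P M hP hM hd h0P e₂ he₂ hen₂ hinv₂ p hp m hm hmm h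
  · exact key M P hM hP hd.symm h0M e₁ he₁ hen₁ hinv₁ m hm p hp hpm h

/-- both accumulate at the boundary: one of them is not invariant -/
lemma both1 {Ω P M : Set ℂ} (ho : IsOpen Ω) (hb : Bornology.IsBounded Ω)
    (hcc : IsPreconnected Ωᶜ)
    {U : Set ℂ} (hU : U ⊆ Ω) (h0U : (0:ℂ) ∉ U)
    (hP : Cm U P) (hM : Cm U M) (hd : Disjoint P M) (h0P : (closure P ∩ Ωᶜ).Nonempty)
    (h0M : (closure M ∩ Ωᶜ).Nonempty) {e₁ e₂ : ℂ} {n : ℕ} (hn : 1 ≤ n)
    (he₁ : e₁ ≠ 1) (hen₁ : e₁ ^ n = 1) (he₂ : e₂ ≠ 1) (hen₂ : e₂ ^ n = 1)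
    (hinv₁ : ∀ x ∈ P, e₁ * x ∈ P) (hinv₂ : ∀ x ∈ M, e₂ * x ∈ M) : False := by
  obtain ⟨R, hR⟩ := hb.exists_norm_le
  have key : ∀ (P M : Set ℂ), Cm U P → Cm U M → Disjoint P M → (closure P ∩ Ωᶜ).Nonempty →
      ∀ e : ℂ, e ≠ 1 → e ^ n = 1 → (∀ x ∈ M, e * x ∈ M) →
      ∀ p ∈ closure P, ∀ m ∈ closure M, (∀ y ∈ closure M, ‖m‖ ≤ ‖y‖) → ‖p‖ ≤ ‖m‖ → False := by
    intro P M hP hM hd h1P e he hen hinv p hp m hm hmin hpm
    obtain ⟨q, hq1, hq2⟩ := h1P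
    refine no_log (F := (closure P ∪ Metric.closedBall 0 ‖p‖) ∪ Ωᶜ) (V := M) (r := R + 1) ?_ ?_
      (Or.inl (Or.inr ?_)) ?_ hM.op hM.pc hM.ne ?_ hn he hen hinv
    · exact (isClosed_closure.union Metric.isClosed_closedBall).union ho.isClosed_compl
    · refine IsPreconnected.union q (Or.inl hq1) hq2 ?_ hcc
      exact IsPreconnected.union p hp (by simp) hP.pc.closure
        (convex_closedBall (0:ℂ) ‖p‖).isPreconnected
    · simp
    · intro x hx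
      refine Or.inr fun hxΩ => ?_
      have := hR x hxΩ
      linarith
    · rw [Set.disjoint_left]
      rintro y ((hy | hy) | hy) hyM
      · have : Disjoint (closure P) M := hd.closure_left hM.op
        exact Set.disjoint_left.1 this hy hyM
      · obtain ⟨z, hz, hyz⟩ := (push_out hM.op (fun h => h0U (hM.sub h)) hyM).2
        have h1 := hmin z (subset_closure hz)
        have h2 : ‖y‖ ≤ ‖p‖ := by simpa using hy
        linarith
      · exact hy (hU (hM.sub hyM))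
  have cpt : ∀ D : Set ℂ, Cm U D → ∃ p ∈ closure D, ∀ y ∈ closure D, ‖p‖ ≤ ‖y‖ := by
    intro D hD
    have hbD : Bornology.IsBounded (closure D) := (hb.subset (hD.sub.trans hU)).closure
    have hc : IsCompact (closure D) := Metric.isCompact_of_isClosed_isBounded isClosed_closure hbD
    obtain ⟨p, hp, hmax⟩ := hc.exists_isMinOn hD.ne.closure continuous_norm.continuousOn
    exact ⟨p, hp, fun y hy => hmax hy⟩
  obtain ⟨p, hp, hpm⟩ := cpt P hP
  obtain ⟨m, hm, hmm⟩ := cpt M hM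
  rcases le_total ‖p‖ ‖m‖ with h | h
  · exact key P M hP hM hd h0P e₂ he₂ hen₂ hinv₂ p hp m hm hmm h
  · exact key M P hM hP hd.symm h0M e₁ he₁ hen₁ hinv₁ m hm p hp hpm h

/-- a component joining zero to the boundary forces every other one to be not invariant -/
lemma join {Ω V W : Set ℂ} (ho : IsOpen Ω) (hb : Bornology.IsBounded Ω)
    (hcc : IsPreconnected Ωᶜ) {U : Set ℂ} (hU : U ⊆ Ω)
    (hV : Cm U V) (hW : Cm U W) (hd : Disjoint V W) (h0 : (0:ℂ) ∈ closure V)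
    (h1 : (closure V ∩ Ωᶜ).Nonempty) {e : ℂ} {n : ℕ} (hn : 1 ≤ n)
    (he : e ≠ 1) (hen : e ^ n = 1) (hinv : ∀ x ∈ W, e * x ∈ W) : False := by
  obtain ⟨R, hR⟩ := hb.exists_norm_le
  obtain ⟨q, hq1, hq2⟩ := h1
  refine no_log (F := closure V ∪ Ωᶜ) (V := W) (r := R + 1) ?_ ?_
      (Or.inl h0) ?_ hW.op hW.pc hW.ne ?_ hn he hen hinv
  · exact isClosed_closure.union ho.isClosed_compl
  · exact IsPreconnected.union q hq1 hq2 hV.pc.closure hcc
  · intro x hx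
    refine Or.inr fun hxΩ => ?_
    have := hR x hxΩ
    linarith
  · rw [Set.disjoint_left]
    rintro y (hy | hy) hyM
    · have : Disjoint (closure V) W := hd.closure_left hW.op
      exact Set.disjoint_left.1 this hy hyM
    · exact hy (hU (hW.sub hyM))

/-- the components of the nonzero set -/
def Vs (w : ℂ → ℝ) : Set (Set ℂ) :=
  {D | ∃ x, w x ≠ 0 ∧ D = connectedComponentIn {x | w x ≠ 0} x}

/-- rotation of a set by the `k`-th power -/
def Rk (e : ℂ) (k : ℕ) (D : Set ℂ) : Set ℂ := (fun y => e ^ k * y) '' D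

lemma Rk_Rk (e : ℂ) (k l : ℕ) (D : Set ℂ) : Rk e k (Rk e l D) = Rk e (k + l) D := by
  unfold Rk
  rw [image_image]
  refine image_congr fun y _ => ?_
  rw [pow_add, mul_assoc]

lemma Rk_N {e : ℂ} {N : ℕ} (he : e ^ N = 1) (D : Set ℂ) : Rk e N D = D := by
  unfold Rk
  simp [he]

/-- a component with trivial stabiliser -/
def Free (e : ℂ) (N : ℕ) (D : Set ℂ) : Prop := ∀ k, 0 < k → k < N → Rk e k D ≠ D

lemma Vs_cm {w : ℂ → ℝ} (hw : Continuous w) {D : Set ℂ} (hD : D ∈ Vs w) :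
    Cm {x | w x ≠ 0} D := by
  obtain ⟨x, hx, rfl⟩ := hD
  have hF : IsOpen {x | w x ≠ 0} := isOpen_ne_fun hw continuous_const
  exact ⟨hF.connectedComponentIn, isPreconnected_connectedComponentIn,
    ⟨x, mem_connectedComponentIn hx⟩, connectedComponentIn_subset _ _⟩

lemma Vs_disj {w : ℂ → ℝ} {D E : Set ℂ} (hD : D ∈ Vs w) (hE : E ∈ Vs w) (hne : D ≠ E) :
    Disjoint D E := by
  obtain ⟨x, hx, rfl⟩ := hD
  obtain ⟨y, hy, rfl⟩ := hE
  refine Set.disjoint_left.2 fun z hz hz' => hne ?_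
  rw [connectedComponentIn_eq hz, connectedComponentIn_eq hz']

lemma Vs_rk {w : ℂ → ℝ} {e : ℂ} (he : e ≠ 0) (hrot : ∀ x, w (e * x) = w x) (k : ℕ) {D : Set ℂ}
    (hD : D ∈ Vs w) : Rk e k D ∈ Vs w := by
  obtain ⟨x, hx, rfl⟩ := hD
  have hk : ∀ x, w (e ^ k * x) = w x := by
    induction k with
    | zero => simp
    | succ k ih => intro x; rw [pow_succ, mul_assoc, ih, hrot]
  have hek : e ^ k ≠ 0 := pow_ne_zero _ he
  refine ⟨e ^ k * x, by rw [hk]; exact hx, ?_⟩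
  have h1 := (Homeomorph.mulLeft₀ (e ^ k) hek).image_connectedComponentIn
    (s := {x | w x ≠ 0}) (x := x) hx
  have h2 : (Homeomorph.mulLeft₀ (e ^ k) hek) '' {x | w x ≠ 0} = {x | w x ≠ 0} := by
    ext y
    constructor
    · rintro ⟨z, hz, rfl⟩
      simpa [hk] using hz
    · intro hy
      refine ⟨(e ^ k)⁻¹ * y, ?_, ?_⟩
      · have h3 := hk ((e ^ k)⁻¹ * y)
        rw [← mul_assoc, mul_inv_cancel₀ hek, one_mul] at h3
        rw [mem_ofPred_eq, ← h3]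
        exact hy
      · simp [← mul_assoc, mul_inv_cancel₀ hek]
  rw [h2] at h1
  exact h1

lemma not_free {e : ℂ} {N : ℕ} (he : IsPrimitiveRoot e N) {D : Set ℂ} (h : ¬ Free e N D) :
    ∃ f : ℂ, f ≠ 1 ∧ f ^ N = 1 ∧ ∀ x ∈ D, f * x ∈ D := by
  unfold Free at h
  push Not at h
  obtain ⟨k, hk, hkN, hD⟩ := h
  refine ⟨e ^ k, he.pow_ne_one_of_pos_of_lt hk.ne' hkN, ?_, fun x hx => ?_⟩
  · rw [← pow_mul, mul_comm, pow_mul, he.pow_eq_one, one_pow]
  · have : (fun y => e ^ k * y) x ∈ Rk e k D := mem_image_of_mem _ hx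
    rwa [hD] at this

/-- two free components in different orbits give `2 N` components -/
lemma two_orb {w : ℂ → ℝ} {e : ℂ} {N : ℕ} (he0 : e ≠ 0) (heN : e ^ N = 1)
    (hrot : ∀ x, w (e * x) = w x) {D E : Set ℂ} (hD : D ∈ Vs w) (hE : E ∈ Vs w)
    (hDf : Free e N D) (hEf : Free e N E) (hne : ∀ k, E ≠ Rk e k D) :
    ∃ S : Finset (Set ℂ), 2 * N ≤ S.card ∧ ∀ D ∈ S, D ∈ Vs w := by
  classical
  have hcard : ∀ D : Set ℂ, Free e N D →
      ((Finset.range N).image (fun k => Rk e k D)).card = N := by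
    intro D hDf
    rw [Finset.card_image_of_injOn, Finset.card_range]
    have key : ∀ i j : ℕ, i < j → j < N → Rk e i D ≠ Rk e j D := by
      intro i j hij hj h
      have h1 : Rk e (N - i) (Rk e i D) = Rk e (N - i) (Rk e j D) := by rw [h]
      rw [Rk_Rk, Rk_Rk, show N - i + i = N by omega, show N - i + j = (j - i) + N by omega,
        ← Rk_Rk e (j - i) N, Rk_N heN] at h1
      exact hDf (j - i) (by omega) (by omega) h1.symm
    intro i hi j hj h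
    simp only [Finset.coe_range, mem_Iio] at hi hj
    rcases lt_trichotomy i j with hlt | heq | hgt
    · exact absurd h (key i j hlt hj)
    · exact heq
    · exact absurd h.symm (key j i hgt hi)
  have hdis : Disjoint ((Finset.range N).image (fun k => Rk e k D))
      ((Finset.range N).image (fun k => Rk e k E)) := by
    rw [Finset.disjoint_left]
    intro A hA hA'
    obtain ⟨i, hi, rfl⟩ := Finset.mem_image.1 hA
    obtain ⟨j, hj, hij⟩ := Finset.mem_image.1 hA'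
    rw [Finset.mem_range] at hi hj
    have h1 : Rk e (N - j) (Rk e j E) = Rk e (N - j) (Rk e i D) := by rw [hij]
    have h2 : Rk e (N - j + j) E = Rk e (N - j + i) D := by
      rw [← Rk_Rk, ← Rk_Rk]
      exact h1
    rw [show N - j + j = N by omega, Rk_N heN] at h2
    exact hne _ h2
  refine ⟨(Finset.range N).image (fun k => Rk e k D) ∪
    (Finset.range N).image (fun k => Rk e k E), ?_, ?_⟩
  · rw [Finset.card_union_of_disjoint hdis, hcard D hDf, hcard E hEf]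
    omega
  · intro A hA
    rcases Finset.mem_union.1 hA with h | h
    · obtain ⟨i, -, rfl⟩ := Finset.mem_image.1 h
      exact Vs_rk he0 hrot i hD
    · obtain ⟨i, -, rfl⟩ := Finset.mem_image.1 h
      exact Vs_rk he0 hrot i hE

lemma Rk_closure {e : ℂ} (k : ℕ) {D : Set ℂ} (h : (0:ℂ) ∈ closure D) :
    (0:ℂ) ∈ closure (Rk e k D) := by
  have hc : Continuous (fun y : ℂ => e ^ k * y) := by fun_prop
  have := image_closure_subset_closure_image hc (mem_image_of_mem _ h)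
  rw [mul_zero] at this
  exact this

/-- the half of the count in which the component `P₀` is not free -/
lemma half {Ω : Set ℂ} {w : ℂ → ℝ} (hw : Continuous w) (hΩ : {x | w x ≠ 0} ⊆ Ω)
    (ho : IsOpen Ω) (hb : Bornology.IsBounded Ω) (hcc : IsPreconnected Ωᶜ) (h00 : w 0 = 0) {N : ℕ}
    (hN : 2 ≤ N) {e : ℂ} (he : IsPrimitiveRoot e N) (hrot : ∀ x, w (e * x) = w x)
    {P₀ M₀ P₁ M₁ : Set ℂ} (hP₀ : P₀ ∈ Vs w) (hM₀ : M₀ ∈ Vs w) (hP₁ : P₁ ∈ Vs w) (hM₁ : M₁ ∈ Vs w)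
    (cM₀ : (0:ℂ) ∈ closure M₀)
    (cP₁ : (closure P₁ ∩ Ωᶜ).Nonempty) (cM₁ : (closure M₁ ∩ Ωᶜ).Nonempty)
    (s01 : P₀ ≠ M₁) (s11 : P₁ ≠ M₁) (s10 : ∀ k, M₀ ≠ Rk e k P₁)
    (hfP : ¬ Free e N P₀) (hfM : Free e N M₀) :
    ∃ S : Finset (Set ℂ), 2 * N ≤ S.card ∧ ∀ D ∈ S, D ∈ Vs w := by
  have he0 : e ≠ 0 := he.ne_zero (by omega)
  have heN : e ^ N = 1 := he.pow_eq_one
  have h0U : (0:ℂ) ∉ {x | w x ≠ 0} := fun h => h h00
  by_cases hf1 : Free e N P₁
  · exact two_orb he0 heN hrot hP₁ hM₀ hf1 hfM s10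
  have hf2 : Free e N M₁ := by
    by_contra hf2
    obtain ⟨f, hf, hfN, hfi⟩ := not_free he hf1
    obtain ⟨g, hg, hgN, hgi⟩ := not_free he hf2
    exact both1 ho hb hcc hΩ h0U (Vs_cm hw hP₁) (Vs_cm hw hM₁) (Vs_disj hP₁ hM₁ s11) cP₁ cM₁
      (n := N) (by omega) hf hfN hg hgN hfi hgi
  by_cases hk : ∃ k, M₁ = Rk e k M₀
  · exfalso
    obtain ⟨k, hk⟩ := hk
    have c0 : (0:ℂ) ∈ closure M₁ := by
      rw [hk]
      exact Rk_closure k cM₀
    obtain ⟨f, hf, hfN, hfi⟩ := not_free he hfP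
    exact join ho hb hcc hΩ (Vs_cm hw hM₁) (Vs_cm hw hP₀) (Vs_disj hM₁ hP₀ s01.symm) c0 cM₁
      (n := N) (by omega) hf hfN hfi
  · push Not at hk
    exact two_orb he0 heN hrot hM₀ hM₁ hfM hf2 hk

/-- the sign of `w` is constant on a component -/
lemma sgn {w : ℂ → ℝ} (hw : Continuous w) {x : ℂ} {σ : ℝ} (hx : 0 < σ * w x) :
    ∀ y ∈ connectedComponentIn {x | w x ≠ 0} x, 0 < σ * w y := by
  intro y hy
  by_contra hcon
  push Not at hcon
  have hσ : σ ≠ 0 := by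
    intro h
    rw [h, zero_mul] at hx
    exact lt_irrefl _ hx
  have hxF : w x ≠ 0 := by
    intro h
    rw [h, mul_zero] at hx
    exact lt_irrefl _ hx
  have hp := isPreconnected_connectedComponentIn (x := x) (F := {x | w x ≠ 0})
  have hc : ContinuousOn (fun z => σ * w z) (connectedComponentIn {x | w x ≠ 0} x) :=
    (continuous_const.mul hw).continuousOn
  have h1 := hp.intermediate_value hy (mem_connectedComponentIn hxF) hc
  obtain ⟨z, hz, hz0⟩ := h1 ⟨hcon, hx.le⟩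
  have h2 : w z ≠ 0 := connectedComponentIn_subset _ _ hz
  rcases mul_eq_zero.1 hz0 with h | h
  · exact hσ h
  · exact h2 h

/-- a component of given sign accumulating at zero -/
lemma ex0 {w : ℂ → ℝ} (hw : Continuous w) (hfin : (Vs w).Finite) {σ : ℝ}
    (h0 : ∀ ε > 0, ∃ x, ‖x‖ < ε ∧ 0 < σ * w x) :
    ∃ D ∈ Vs w, (∀ y ∈ D, 0 < σ * w y) ∧ (0:ℂ) ∈ closure D := by
  have hfin' : {D | D ∈ Vs w ∧ ∀ y ∈ D, 0 < σ * w y}.Finite := hfin.subset fun D hD => hD.1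
  have h1 : (0:ℂ) ∈ closure {x | 0 < σ * w x} := by
    rw [Metric.mem_closure_iff]
    intro ε hε
    obtain ⟨x, hx, hx'⟩ := h0 ε hε
    exact ⟨x, hx', by simpa using hx⟩
  have h2 : {x | 0 < σ * w x} ⊆ ⋃ D ∈ {D | D ∈ Vs w ∧ ∀ y ∈ D, 0 < σ * w y}, D := by
    intro x hx
    have hx' : w x ≠ 0 := by
      intro h
      have : 0 < σ * w x := hx
      rw [h, mul_zero] at this
      exact lt_irrefl _ this
    simp only [mem_iUnion]
    exact ⟨_, ⟨⟨x, hx', rfl⟩, sgn hw hx⟩, mem_connectedComponentIn hx'⟩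
  have h3 := closure_mono h2 h1
  rw [hfin'.closure_biUnion] at h3
  simp only [mem_iUnion] at h3
  obtain ⟨D, hD, h⟩ := h3
  exact ⟨D, hD.1, hD.2, h⟩

/-- a component of given sign accumulating at the boundary -/
lemma ex1 {Ω : Set ℂ} {w : ℂ → ℝ} (hw : Continuous w) (hΩ : {x | w x ≠ 0} ⊆ Ω)
    (ho : IsOpen Ω) (hb : Bornology.IsBounded Ω) (hfin : (Vs w).Finite) {σ : ℝ}
    (h1 : ∀ ε > 0, ∃ x, 0 < σ * w x ∧ ∃ y, y ∉ Ω ∧ ‖x - y‖ < ε) :
    ∃ D ∈ Vs w, (∀ y ∈ D, 0 < σ * w y) ∧ (closure D ∩ Ωᶜ).Nonempty := by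
  have hfin' : {D | D ∈ Vs w ∧ ∀ y ∈ D, 0 < σ * w y}.Finite := hfin.subset fun D hD => hD.1
  by_contra hcon
  push Not at hcon
  have hw0 : ∀ x, 0 < σ * w x → w x ≠ 0 := by
    intro x hx h
    rw [h, mul_zero] at hx
    exact lt_irrefl _ hx
  have hsub : {x | 0 < σ * w x} ⊆ ⋃ D ∈ {D | D ∈ Vs w ∧ ∀ y ∈ D, 0 < σ * w y}, D := by
    intro x hx
    simp only [mem_iUnion]
    exact ⟨_, ⟨⟨x, hw0 x hx, rfl⟩, sgn hw hx⟩, mem_connectedComponentIn (hw0 x hx)⟩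
  have hcl : closure {x | 0 < σ * w x} ⊆ Ω := by
    intro z hz
    have h3 := closure_mono hsub hz
    rw [hfin'.closure_biUnion] at h3
    simp only [mem_iUnion] at h3
    obtain ⟨D, hD, h⟩ := h3
    by_contra hzΩ
    have h4 := hcon D hD.1 hD.2
    have : z ∈ closure D ∩ Ωᶜ := ⟨h, hzΩ⟩
    rw [h4] at this
    exact this
  have hbd : Bornology.IsBounded {x | 0 < σ * w x} :=
    hb.subset fun x hx => hΩ (hw0 x hx)
  have hcpt : IsCompact (closure {x | 0 < σ * w x}) :=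
    Metric.isCompact_of_isClosed_isBounded isClosed_closure hbd.closure
  obtain ⟨δ, hδ, hth⟩ := hcpt.exists_thickening_subset_open ho hcl
  obtain ⟨x, hx, y, hy, hxy⟩ := h1 δ hδ
  refine hy (hth ?_)
  rw [Metric.mem_thickening_iff]
  exact ⟨x, subset_closure hx, by rwa [dist_comm, dist_eq_norm]⟩

/-- TARGET: a function invariant under the rotation by 2π/N with both signs near 0 and near the boundary has 2N nodal domains. -/
theorem rot_comps {Ω : Set ℂ} {w : ℂ → ℝ} (hw : Continuous w) (hout : ∀ x, x ∉ Ω → w x = 0)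
    (ho : IsOpen Ω) (hb : Bornology.IsBounded Ω) (hcc : IsPreconnected Ωᶜ) (h00 : w 0 = 0) {N : ℕ}
    (hN : 2 ≤ N) {e : ℂ} (he : IsPrimitiveRoot e N) (hrot : ∀ x, w (e * x) = w x)
    (h0p : ∀ ε > 0, ∃ x, ‖x‖ < ε ∧ 0 < w x) (h0n : ∀ ε > 0, ∃ x, ‖x‖ < ε ∧ w x < 0)
    (h1p : ∀ ε > 0, ∃ x, 0 < w x ∧ ∃ y, y ∉ Ω ∧ ‖x - y‖ < ε)
    (h1n : ∀ ε > 0, ∃ x, w x < 0 ∧ ∃ y, y ∉ Ω ∧ ‖x - y‖ < ε) :
    ∃ S : Finset (Set ℂ), 2 * N ≤ S.card ∧
      ∀ D ∈ S, ∃ x, w x ≠ 0 ∧ D = connectedComponentIn {x | w x ≠ 0} x := by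
  suffices h : ∃ S : Finset (Set ℂ), 2 * N ≤ S.card ∧ ∀ D ∈ S, D ∈ Vs w from h
  by_cases hfin : (Vs w).Finite
  swap
  · obtain ⟨S, hS, hc⟩ := Set.Infinite.exists_subset_card_eq hfin (2 * N)
    exact ⟨S, hc.ge, fun D hD => hS hD⟩
  have hΩ : {x | w x ≠ 0} ⊆ Ω := by
    intro x hx
    by_contra hcon
    exact hx (hout x hcon)
  have he0 : e ≠ 0 := he.ne_zero (by omega)
  have heN : e ^ N = 1 := he.pow_eq_one
  have h0U : (0:ℂ) ∉ {x | w x ≠ 0} := fun h => h h00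
  obtain ⟨P₀, hP₀, sP₀, cP₀⟩ := ex0 hw hfin (σ := 1) (by simpa using h0p)
  obtain ⟨M₀, hM₀, sM₀, cM₀⟩ := ex0 hw hfin (σ := -1) (by simpa using h0n)
  obtain ⟨P₁, hP₁, sP₁, cP₁⟩ := ex1 hw hΩ ho hb hfin (σ := 1) (by simpa using h1p)
  obtain ⟨M₁, hM₁, sM₁, cM₁⟩ := ex1 hw hΩ ho hb hfin (σ := -1) (by simpa using h1n)
  have hk : ∀ k x, w (e ^ k * x) = w x := by
    intro k
    induction k with
    | zero => simp
    | succ k ih => intro x; rw [pow_succ, mul_assoc, ih, hrot]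
  -- opposite signs: different orbits
  have sep : ∀ P M : Set ℂ, P.Nonempty → M.Nonempty → (∀ y ∈ P, 0 < 1 * w y) →
      (∀ y ∈ M, 0 < -1 * w y) → (∀ k, M ≠ Rk e k P) ∧ (∀ k, P ≠ Rk e k M) := by
    intro P M hP hM hp hm
    constructor
    · intro k h
      obtain ⟨y, hy⟩ := hP
      have h1 : e ^ k * y ∈ M := by
        rw [h]
        exact mem_image_of_mem _ hy
      have h2 := hm _ h1
      have h3 := hp _ hy
      rw [hk] at h2
      linarith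
    · intro k h
      obtain ⟨y, hy⟩ := hM
      have h1 : e ^ k * y ∈ P := by
        rw [h]
        exact mem_image_of_mem _ hy
      have h2 := hp _ h1
      have h3 := hm _ hy
      rw [hk] at h2
      linarith
  have nP₀ := (Vs_cm hw hP₀).ne
  have nP₁ := (Vs_cm hw hP₁).ne
  have nM₀ := (Vs_cm hw hM₀).ne
  have nM₁ := (Vs_cm hw hM₁).ne
  have ne_of : ∀ P M : Set ℂ, P.Nonempty → M.Nonempty → (∀ y ∈ P, 0 < 1 * w y) →
      (∀ y ∈ M, 0 < -1 * w y) → P ≠ M := by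
    intro P M hP hM hp hm h
    obtain ⟨y, hy⟩ := hP
    have h1 := hp y hy
    have h2 := hm y (h ▸ hy)
    linarith
  by_cases hfP : Free e N P₀
  · by_cases hfM : Free e N M₀
    · exact two_orb he0 heN hrot hP₀ hM₀ hfP hfM (sep P₀ M₀ nP₀ nM₀ sP₀ sM₀).1
    · exact half hw hΩ ho hb hcc h00 hN he hrot hM₀ hP₀ hM₁ hP₁ cP₀ cM₁ cP₁
        (ne_of P₁ M₀ nP₁ nM₀ sP₁ sM₀).symm (ne_of P₁ M₁ nP₁ nM₁ sP₁ sM₁).symm
        (sep P₀ M₁ nP₀ nM₁ sP₀ sM₁).2 hfM hfP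
  · by_cases hfM : Free e N M₀
    · exact half hw hΩ ho hb hcc h00 hN he hrot hP₀ hM₀ hP₁ hM₁ cM₀ cP₁ cM₁
        (ne_of P₀ M₁ nP₀ nM₁ sP₀ sM₁) (ne_of P₁ M₁ nP₁ nM₁ sP₁ sM₁)
        (sep P₁ M₀ nP₁ nM₀ sP₁ sM₀).1 hfP hfM
    · exfalso
      obtain ⟨f, hf, hfN, hfi⟩ := not_free he hfP
      obtain ⟨g, hg, hgN, hgi⟩ := not_free he hfM
      exact both0 hb hΩ h0U (Vs_cm hw hP₀) (Vs_cm hw hM₀)
        (Vs_disj hP₀ hM₀ (ne_of P₀ M₀ nP₀ nM₀ sP₀ sM₀)) cP₀ cM₀ (n := N) (by omega)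
        hf hfN hg hgN hfi hgi

end Pool.Agent.Helper327_Drum
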