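import Pool.Agent.Helper327_Drum.Fin.K2a
import Pool.Agent.R227.SA19
import Pool.Agent.Helper327_Drum.Fin.SY3
import Pool.Agent.Helper327_Drum.Fin.SY4

/-
JOB SY5 (owner helper327, problem MP_d92c84_an). All imports are on origin/main.
-/

set_option autoImplicit false
open MeasureTheory Set Filter Topology ComplexConjugate
open scoped ContDiff InnerProductSpace

namespace Pool.Agent.Helper327_Drum

open Pool.Agent.TH298.Sch (dd SC X er Lr)
open Pool.Agent.R227.SA (la Wat Dat)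

/-
`Dat`: Pool/Agent/R227/SA9.lean (v is C¹, 0 off Ω). `Wat`: SA10, `Dat.wat`, `Dat.disc`: SA10. `Wat.uc`, `Wat.rays`: SA13. `Dat.wat_loc`, `Lr_inv`: SA17 (stated there for er t; the chain rule is easy). `Dat.trans`: SA9.
`kill_wat`: Fin/K2a.lean. The nodal pieces: see the private lemma `j845_nodal` in Fin/K2a.lean (for a component G of {w ≠ 0}: Wat G lam (G.indicator w)) and the end of the proof of `three_comps`.
Plain proof. Translate q to 0 (`Dat.trans`; the pieces are transported as in `three_comps`). w = Lr v, Wat Ω lam w, w 0 = 0, w (e x) = w x since v (e x) = v x. w is not identically 0 (hnr with a = 0, b = 1).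
0 ∈ Ω: otherwise `no_log` with F = Ωᶜ (closed, connected, contains 0 and all points of large norm), V = Ω.
Both signs near 0: `Wat.rays` with `Dat.wat_loc`: alternating signs on rays at 0 with m ≥ 1.
Both signs near the boundary: let ρ = sup of ‖x‖ on Ω; Ω is open, so ‖x‖ < ρ on Ω. Suppose for some ε > 0 there is no x with w x < 0 at distance < ε from a point off Ω (the case w x > 0 is symmetric). Let
ρ - ε < s < ρ, s > 0: for every x with ‖x‖ = s the point (ρ/s) x has norm ρ, is not in Ω and has distance ρ - s < ε from x: so w x ≥ 0. Now w (X s θ) = d/dθ v (X s θ) and v (X s θ) is 2π-periodic in θ, so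
∫_0^{2π} w (X s θ) dθ = 0 and w is continuous and ≥ 0 on the circle: w = 0 on the circle. So w = 0 on {ρ - ε < ‖x‖ < ρ} which contains a point of the open set Ω with a neighbourhood; `Wat.uc`: w = 0 everywhere, contradiction.
`rot_comps` gives 2N components of {w ≠ 0}; take them as pieces.
-/

/-! #### auxiliary lemmas for `rot_pieces` -/

lemma sy5_et (s θ : ℝ) : (s : ℂ) * Pool.Agent.TH298.Sch.et θ = Complex.I * X s θ := by
  unfold Pool.Agent.TH298.Sch.et X
  have h := Complex.I_mul_I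
  linear_combination (-(s : ℂ) * Real.sin θ) * h

lemma sy5_deriv {v : ℂ → ℝ} (hv : ContDiff ℝ 1 v) (s θ : ℝ) :
    HasDerivAt (fun θ : ℝ => v (X s θ)) (Lr v (X s θ)) θ := by
  have h1 : HasFDerivAt v (fderiv ℝ v (X s θ)) (X s θ) :=
    ((hv.differentiable (by norm_num)) (X s θ)).hasFDerivAt
  have h2 := h1.comp_hasDerivAt θ (Pool.Agent.TH298.Sch.X_dt s θ)
  rw [sy5_et] at h2
  exact h2

lemma sy5_int {v : ℂ → ℝ} (hv : ContDiff ℝ 1 v) (hc : Continuous (Lr v)) (s : ℝ) :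
    ∫ θ in (-Real.pi)..Real.pi, Lr v (X s θ) = 0 := by
  have hX : Continuous fun θ : ℝ => X s θ :=
    Pool.Agent.TH298.Sch.X_cont.comp (continuous_const.prodMk continuous_id)
  rw [intervalIntegral.integral_eq_sub_of_hasDerivAt (f := fun θ : ℝ => v (X s θ))
    (fun θ _ => sy5_deriv hv s θ) ((hc.comp hX).intervalIntegrable _ _)]
  have : X s Real.pi = X s (-Real.pi) := by
    unfold X
    simp
  rw [this, sub_self]

lemma sy5_arg {x : ℂ} {s : ℝ} (hx : ‖x‖ = s) : X s (Complex.arg x) = x := by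
  rw [Pool.Agent.TH298.Sch.X_eq, Pool.Agent.TH298.Sch.er_exp, ← hx]
  exact Complex.norm_mul_exp_arg_mul_I x

/-- a function with one sign on a circle vanishes there -/
lemma sy5_circ {v : ℂ → ℝ} (hv : ContDiff ℝ 1 v) (hc : Continuous (Lr v)) {s σ : ℝ} (hσ : σ ≠ 0)
    (h : ∀ x : ℂ, ‖x‖ = s → σ * Lr v x ≤ 0) {x : ℂ} (hx : ‖x‖ = s) : Lr v x = 0 := by
  by_contra hne
  have hs : 0 ≤ s := hx ▸ norm_nonneg x
  have hX : Continuous fun θ : ℝ => X s θ :=
    Pool.Agent.TH298.Sch.X_cont.comp (continuous_const.prodMk continuous_id)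
  have hnorm : ∀ θ, ‖X s θ‖ = s := fun θ => by
    rw [Pool.Agent.TH298.Sch.norm_X, abs_of_nonneg hs]
  have hpos : 0 < ∫ θ in (-Real.pi)..Real.pi, -(σ * Lr v (X s θ)) := by
    refine intervalIntegral.integral_pos (by linarith [Real.pi_pos])
      ((continuous_const.mul (hc.comp hX)).neg).continuousOn (fun θ _ => ?_)
      ⟨Complex.arg x, ⟨(Complex.neg_pi_lt_arg x).le, Complex.arg_le_pi x⟩, ?_⟩
    · have := h (X s θ) (hnorm θ)
      linarith
    · rw [sy5_arg hx]
      have h1 := h x hx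
      have h2 : σ * Lr v x ≠ 0 := mul_ne_zero hσ hne
      have h3 : σ * Lr v x < 0 := lt_of_le_of_ne h1 h2
      linarith
  have h0 : ∫ θ in (-Real.pi)..Real.pi, -(σ * Lr v (X s θ)) = 0 := by
    rw [intervalIntegral.integral_neg, intervalIntegral.integral_const_mul, sy5_int hv hc, mul_zero,
      neg_zero]
  linarith

/-- both signs occur near the boundary -/
lemma sy5_bdry {Ω : Set ℂ} {lam c : ℝ} {v : ℂ → ℝ} (D : Dat Ω lam c v) (ho : IsOpen Ω)
    (hb : Bornology.IsBounded Ω) (hne : Ω.Nonempty) (hcon : IsPreconnected Ω) (hlam : 0 < lam)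
    (hw : ∃ x, Lr v x ≠ 0) {σ : ℝ} (hσ : σ ≠ 0) :
    ∀ ε > 0, ∃ x, 0 < σ * Lr v x ∧ ∃ y, y ∉ Ω ∧ ‖x - y‖ < ε := by
  have hW : Wat Ω lam (Lr v) := D.wat
  intro ε hε
  by_contra hcon1
  push Not at hcon1
  -- the outer radius
  obtain ⟨x0, hx0⟩ := hne
  obtain ⟨R, hR⟩ := hb.exists_norm_le
  set A : Set ℝ := (fun x : ℂ => ‖x‖) '' Ω with hA
  have hAne : A.Nonempty := ⟨‖x0‖, x0, hx0, rfl⟩
  have hAb : BddAbove A := ⟨R, by rintro _ ⟨x, hx, rfl⟩; exact hR x hx⟩
  set ρ : ℝ := sSup A with hρ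
  have hle : ∀ x ∈ Ω, ‖x‖ ≤ ρ := fun x hx => le_csSup hAb ⟨x, hx, rfl⟩
  have hlt : ∀ x ∈ Ω, ‖x‖ < ρ := by
    intro x hx
    obtain ⟨δ, hδ, hball⟩ := Metric.isOpen_iff.1 ho x hx
    -- a unit vector
    obtain ⟨u, hu1, hu2⟩ : ∃ u : ℂ, ‖u‖ = 1 ∧ x = ‖x‖ * u := by
      by_cases hx0 : x = 0
      · exact ⟨1, by simp, by simp [hx0]⟩
      · have hn : (‖x‖ : ℂ) ≠ 0 := by
          exact_mod_cast norm_ne_zero_iff.2 hx0
        refine ⟨x / ‖x‖, ?_, ?_⟩
        · rw [norm_div, Complex.norm_real, norm_norm, div_self (norm_ne_zero_iff.2 hx0)]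
        · rw [mul_div_cancel₀ _ hn]
    have h1 : x + (δ / 2 : ℝ) * u ∈ Ω := by
      apply hball
      rw [Metric.mem_ball, dist_eq_norm, add_sub_cancel_left, norm_mul, hu1, mul_one,
        Complex.norm_real, Real.norm_eq_abs, abs_of_pos (by positivity)]
      linarith
    have h2 := hle _ h1
    have h3 : x + (δ / 2 : ℝ) * u = ((‖x‖ + δ / 2 : ℝ) : ℂ) * u := by
      conv_lhs => rw [hu2]
      push_cast
      ring
    rw [h3, norm_mul, hu1, mul_one, Complex.norm_real, Real.norm_eq_abs,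
      abs_of_nonneg (by positivity)] at h2
    linarith
  have hρ0 : 0 < ρ := lt_of_le_of_lt (norm_nonneg _) (hlt x0 hx0)
  have hout : ∀ y : ℂ, ρ ≤ ‖y‖ → y ∉ Ω := fun y hy hy' => absurd (hlt y hy') (not_lt.2 hy)
  -- zero on the annulus
  have hzero : ∀ x : ℂ, max (ρ - ε) 0 < ‖x‖ → ‖x‖ < ρ → Lr v x = 0 := by
    intro x hx1 hx2
    refine sy5_circ D.c1 hW.cont hσ (fun y hy => ?_) rfl
    have hyp : 0 < ‖y‖ := by rw [hy]; exact lt_of_le_of_lt (le_max_right _ _) hx1
    by_contra hpos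
    push Not at hpos
    have h1 := hcon1 y hpos ((ρ / ‖y‖ : ℝ) * y) (hout _ ?_)
    · have h2 : y - (ρ / ‖y‖ : ℝ) * y = ((1 - ρ / ‖y‖ : ℝ) : ℂ) * y := by
        push_cast; ring
      rw [h2, norm_mul, Complex.norm_real, Real.norm_eq_abs] at h1
      have h3 : 1 - ρ / ‖y‖ ≤ 0 := by
        rw [sub_nonpos, le_div_iff₀ hyp, one_mul, hy]
        exact hx2.le
      rw [abs_of_nonpos h3] at h1
      have h4 : -(1 - ρ / ‖y‖) * ‖y‖ = ρ - ‖y‖ := by
        field_simp
        ring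
      rw [h4, hy] at h1
      have h5 := lt_of_le_of_lt (le_max_left _ _) hx1
      linarith
    · rw [norm_mul, Complex.norm_real, Real.norm_eq_abs, abs_of_nonneg (by positivity),
        div_mul_cancel₀ _ hyp.ne']
  -- a point of the annulus in Ω
  obtain ⟨_, ⟨x1, hx1, rfl⟩, hx1'⟩ := exists_lt_of_lt_csSup hAne
    (show max (ρ - ε) 0 < sSup A from max_lt (by linarith) hρ0)
  obtain ⟨y, hy⟩ := hw
  apply hy
  refine hW.uc hlam hcon hx1 ?_ y
  have hopen : IsOpen {x : ℂ | max (ρ - ε) 0 < ‖x‖ ∧ ‖x‖ < ρ} :=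
    (isOpen_lt continuous_const continuous_norm).inter (isOpen_lt continuous_norm continuous_const)
  filter_upwards [hopen.mem_nhds ⟨hx1', hlt x1 hx1⟩] with x hx
  exact hzero x hx.1 hx.2

/-- the rotation derivative of an invariant function is invariant -/
lemma sy5_inv {v : ℂ → ℝ} (hv : ContDiff ℝ 1 v) {e : ℂ} (h : ∀ x, v (e * x) = v x) (x : ℂ) :
    Lr v (e * x) = Lr v x := by
  have h1 : HasFDerivAt v (fderiv ℝ v (e * x)) (e * x) :=
    ((hv.differentiable (by norm_num)) (e * x)).hasFDerivAt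
  have h2 : HasFDerivAt (fun y : ℂ => e * y) (ContinuousLinearMap.mul ℝ ℂ e) x :=
    (ContinuousLinearMap.mul ℝ ℂ e).hasFDerivAt
  have h3 : HasFDerivAt (fun y => v (e * y)) ((fderiv ℝ v (e * x)).comp (ContinuousLinearMap.mul ℝ ℂ e)) x :=
    HasFDerivAt.comp x h1 h2
  have h4 : (fun y => v (e * y)) = v := funext h
  rw [h4] at h3
  have h5 := h3.fderiv
  unfold Lr
  rw [h5]
  show fderiv ℝ v (e * x) (Complex.I * (e * x)) = fderiv ℝ v (e * x) (e * (Complex.I * x))
  congr 1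
  ring

/-- TARGET: 2N nodal pieces of the rotation derivative for a domain with a symmetry of order N. -/
theorem rot_pieces {Ω : Set ℂ} {lam c : ℝ} {v : ℂ → ℝ} (D : Dat Ω lam c v) (ho : IsOpen Ω)
    (hb : Bornology.IsBounded Ω) (hne : Ω.Nonempty) (hcon : IsPreconnected Ω)
    (hcc : IsPreconnected Ωᶜ) (hlam : 0 < lam) {N : ℕ} (hN : 2 ≤ N) {q e : ℂ}
    (he : IsPrimitiveRoot e N) (hinv : ∀ x, x ∈ Ω → q + e * (x - q) ∈ Ω)
    (hsym : ∀ x, v (q + e * (x - q)) = v x)
    (hnr : ∀ (a : ℂ) (b : ℝ), a ≠ 0 ∨ b ≠ 0 → ∃ x, fderiv ℝ v x (a + b * Complex.I * x) ≠ 0) :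
    ∃ (p : ℂ) (G : Fin (2 * N) → Set ℂ), (∀ i, IsOpen (G i) ∧ (G i).Nonempty ∧ G i ⊆ Ω) ∧
      (∀ i j, i ≠ j → Disjoint (G i) (G j)) ∧
      ∀ i, Wat (G i) lam ((G i).indicator fun x => fderiv ℝ v x (Complex.I * (x - p))) := by
  have D' := D.trans q
  set Ω' : Set ℂ := (fun x => x + q) ⁻¹' Ω with hΩ'
  set v' : ℂ → ℝ := fun x => v (x + q) with hv'
  have hcon' : IsPreconnected Ω' :=
    (Homeomorph.addRight q).isPreconnected_preimage.2 hcon
  have hcc' : IsPreconnected Ω'ᶜ :=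
    (Homeomorph.addRight q).isPreconnected_preimage.2 hcc
  have ho' : IsOpen Ω' := ho.preimage (by fun_prop)
  have hne' : Ω'.Nonempty := by
    obtain ⟨x, hx⟩ := hne
    exact ⟨x - q, by change x - q + q ∈ Ω; rwa [sub_add_cancel]⟩
  obtain ⟨R, hR⟩ := hb.exists_norm_le
  have hR' : ∀ x ∈ Ω', ‖x‖ ≤ R + ‖q‖ := by
    intro x hx
    calc ‖x‖ = ‖(x + q) - q‖ := by rw [add_sub_cancel_right]
      _ ≤ ‖x + q‖ + ‖q‖ := norm_sub_le _ _
      _ ≤ R + ‖q‖ := by linarith [hR (x + q) hx]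
  have hb' : Bornology.IsBounded Ω' := (isBounded_iff_forall_norm_le).2 ⟨_, hR'⟩
  have hww : ∀ x, Lr v' (x - q) = fderiv ℝ v x (Complex.I * (x - q)) := by
    intro x
    unfold Lr
    rw [hv', fderiv_comp_add_right, sub_add_cancel]
  have hwI : ∀ x, fderiv ℝ v x (Complex.I * (x - q)) =
      fderiv ℝ v x (-(Complex.I * q) + (1 : ℝ) * Complex.I * x) := by
    intro x
    congr 1
    push_cast
    ring
  obtain ⟨y0, hy0⟩ := hnr (-(Complex.I * q)) 1 (Or.inr one_ne_zero)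
  have hnz : ∃ x, Lr v' x ≠ 0 := ⟨y0 - q, by rw [hww, hwI]; exact hy0⟩
  have hinv' : ∀ x ∈ Ω', e * x ∈ Ω' := by
    intro x hx
    have := hinv (x + q) hx
    change e * x + q ∈ Ω
    rwa [add_sub_cancel_right, add_comm] at this
  have hsym' : ∀ x, v' (e * x) = v' x := by
    intro x
    have := hsym (x + q)
    rw [add_sub_cancel_right, add_comm] at this
    exact this
  have hWat : Wat Ω' lam (Lr v') := D'.wat
  have he1 : e ≠ 1 := he.ne_one (by omega)
  have h0 : (0 : ℂ) ∈ Ω' := by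
    by_contra h0
    exact no_log (F := Ω'ᶜ) (V := Ω') ho'.isClosed_compl hcc' h0 (r := R + ‖q‖ + 1)
      (fun x hx hx' => by linarith [hR' x hx']) ho' hcon' hne' disjoint_compl_left
      (n := N) (by omega) he1 he.pow_eq_one hinv'
  obtain ⟨r, hr, W, hW, hl, hW0, hf⟩ := D'.wat_loc h0
  obtain ⟨m, θ₀, ε, hm, hε, hm2, -, hrays⟩ :=
    hWat.rays hlam hcon' h0 hnz hr hW hl hW0
  have h00 : Lr v' 0 = 0 := by simp [Lr]
  have hnear : ∀ δ > 0, ∀ i : ℕ, ∃ x : ℂ, ‖x‖ < δ ∧ 0 < (-1) ^ i * Lr v' x := by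
    intro δ hδ i
    refine ⟨X (min ε (δ / 2)) (θ₀ + Real.pi * i / m), ?_, hrays i _ (by positivity) (min_le_left _ _)⟩
    rw [Pool.Agent.TH298.Sch.norm_X, abs_of_pos (by positivity)]
    exact lt_of_le_of_lt (min_le_right _ _) (by linarith)
  obtain ⟨S, hS, hSc⟩ := rot_comps hWat.cont hWat.out ho' hb' hcc' h00 hN he
    (fun x => sy5_inv D'.c1 hsym' x)
    (fun δ hδ => by
      obtain ⟨x, hx, hx'⟩ := hnear δ hδ 0
      exact ⟨x, hx, by simpa using hx'⟩)
    (fun δ hδ => by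
      obtain ⟨x, hx, hx'⟩ := hnear δ hδ 1
      exact ⟨x, hx, by simpa using hx'⟩)
    (fun δ hδ => by
      obtain ⟨x, hx, hx'⟩ := sy5_bdry D' ho' hb' hne' hcon' hlam hnz one_ne_zero δ hδ
      exact ⟨x, by simpa using hx, hx'⟩)
    (fun δ hδ => by
      obtain ⟨x, hx, hx'⟩ := sy5_bdry D' ho' hb' hne' hcon' hlam hnz (neg_ne_zero.2 one_ne_zero) δ hδ
      exact ⟨x, by simpa using hx, hx'⟩)
  have hcard : Fintype.card (Fin (2 * N)) ≤ Fintype.card S := by
    rw [Fintype.card_fin, Fintype.card_coe]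
    exact hS
  obtain ⟨f⟩ := Function.Embedding.nonempty_of_card_le hcard
  have hFo : IsOpen {x | Lr v' x ≠ 0} := isOpen_ne_fun hWat.cont continuous_const
  refine ⟨q, fun i => (fun x => x - q) ⁻¹' (f i : Set ℂ), fun i => ?_, fun i j hij => ?_,
    fun i => ?_⟩
  · obtain ⟨x, hx, hxe⟩ := hSc _ (f i).2
    refine ⟨?_, ?_, ?_⟩
    · change IsOpen ((fun x => x - q) ⁻¹' (f i : Set ℂ))
      rw [hxe]
      exact hFo.connectedComponentIn.preimage (by fun_prop)
    · refine ⟨x + q, ?_⟩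
      change x + q - q ∈ (f i : Set ℂ)
      rw [add_sub_cancel_right, hxe]
      exact mem_connectedComponentIn hx
    · intro y hy
      have h1 : y - q ∈ (f i : Set ℂ) := hy
      rw [hxe] at h1
      have h2 : Lr v' (y - q) ≠ 0 := connectedComponentIn_subset _ _ h1
      have h3 : y - q ∈ Ω' := by
        by_contra hn
        exact h2 (hWat.out _ hn)
      have h4 : y - q + q ∈ Ω := h3
      rwa [sub_add_cancel] at h4
  · rw [Set.disjoint_left]
    intro y hy hy'
    have h1 : y - q ∈ (f i : Set ℂ) := hy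
    have h2 : y - q ∈ (f j : Set ℂ) := hy'
    obtain ⟨x, hx, hxe⟩ := hSc _ (f i).2
    obtain ⟨x', hx', hxe'⟩ := hSc _ (f j).2
    apply hij
    apply f.injective
    apply Subtype.ext
    rw [hxe] at h1 ⊢
    rw [hxe'] at h2 ⊢
    rw [connectedComponentIn_eq h1, connectedComponentIn_eq h2]
  · obtain ⟨x, hx, hxe⟩ := hSc _ (f i).2
    have hN := j845_nodal hWat x
    rw [← hxe] at hN
    have hind : ((fun x => x - q) ⁻¹' (f i : Set ℂ)).indicator
        (fun x => fderiv ℝ v x (Complex.I * (x - q))) =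
        fun y => (f i : Set ℂ).indicator (Lr v') (y - q) := by
      funext y
      by_cases hy : y - q ∈ (f i : Set ℂ)
      · rw [indicator_of_mem hy, indicator_of_mem (show y ∈ (fun x => x - q) ⁻¹' (f i : Set ℂ) from hy),
          hww]
      · rw [indicator_of_notMem hy,
          indicator_of_notMem (show y ∉ (fun x => x - q) ⁻¹' (f i : Set ℂ) from hy)]
    have hWt : Wat Ω lam (fun x => fderiv ℝ v x (Complex.I * (x - q))) := by
      have := kill_wat D (-(Complex.I * q)) 1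
      refine (funext hwI : (fun x => fderiv ℝ v x (Complex.I * (x - q))) = _) ▸ this
    refine ⟨?_, fun y hy => indicator_of_notMem hy _, fun x₀ hx₀ => ?_⟩
    · rw [hind]
      exact hN.cont.comp (by fun_prop)
    · have hx₀' : x₀ - q ∈ (f i : Set ℂ) := hx₀
      have hGo : IsOpen ((fun x => x - q) ⁻¹' (f i : Set ℂ)) := by
        rw [hxe]
        exact hFo.connectedComponentIn.preimage (by fun_prop)
      have hx₀Ω : x₀ ∈ Ω := by
        by_contra hn
        rw [hxe] at hx₀'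
        have h2 : Lr v' (x₀ - q) ≠ 0 := connectedComponentIn_subset _ _ hx₀'
        rw [hww] at h2
        exact h2 (hWt.out _ hn)
      obtain ⟨r1, hr1, W1, hW1, hb1, hl1⟩ := hWt.loc x₀ hx₀Ω
      obtain ⟨r', hr', hb'⟩ := Metric.isOpen_iff.1 hGo x₀ hx₀
      refine ⟨min r1 r', lt_min hr1 hr', W1, hW1,
        (Metric.ball_subset_ball (min_le_right _ _)).trans hb', fun y hy => ?_⟩
      have hy1 : y ∈ Metric.ball x₀ r1 := Metric.ball_subset_ball (min_le_left _ _) hy
      have hy2 : y ∈ (fun x => x - q) ⁻¹' (f i : Set ℂ) :=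
        hb' (Metric.ball_subset_ball (min_le_right _ _) hy)
      rw [indicator_of_mem hy2]
      exact hl1 y hy1

end Pool.Agent.Helper327_Drum
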