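import Pool.Agent.Helper327_Drum.Fin.G1
import Pool.Agent.Helper327_Drum.Fin.G4
import Pool.Agent.Helper327_Drum.Fin.T5a
import Pool.Agent.R227.SA18

/-
JOB SY6 (owner helper327, problem MP_d92c84_an). All imports are on origin/main.
-/

set_option autoImplicit false
open MeasureTheory Set Filter Topology ComplexConjugate
open scoped ContDiff InnerProductSpace

namespace Pool.Agent.Helper327_Drum

open Pool.Agent.TH298.Sch (dd SC X er Lr)
open Pool.Agent.R227.SA (la Wat Dat)

/-
Plain proof of TARGET 1. By Mazur-Ulam σ is a real affine isometry (`IsometryEquiv.toRealAffineIsometryEquiv`), so σ x = L x + b with L a linear isometry of ℂ: L x = a x or L x = a conj x, ‖a‖ = 1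
(`linear_isometry_complex`). Let x ∈ K.
Case L x = a x, a ≠ 1: q = b/(1 - a). Case a = 1: b ≠ 0 since σ is not the identity, and all points x + n b are in K: not bounded.
Case L x = a conj x: σ² x = x + (a conj b + b), so again by boundedness a conj b + b = 0; q = b/2: σ x = a conj x + b = q + a conj (x - q) since a conj q = a conj b / 2 = -b/2.
-/

/-- the form of an isometry of the plane -/
theorem isom_form (σ : ℂ ≃ᵢ ℂ) : ∃ a b : ℂ, ‖a‖ = 1 ∧
    ((∀ x, σ x = b + a * x) ∨ (∀ x, σ x = b + a * conj x)) := by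
  obtain ⟨a, ha⟩ := linear_isometry_complex σ.toRealLinearIsometryEquiv
  refine ⟨a, σ 0, Circle.norm_coe a, ?_⟩
  have h0 : ∀ x, σ x = σ 0 + σ.toRealLinearIsometryEquiv x := by
    intro x
    rw [IsometryEquiv.toRealLinearIsometryEquiv_apply]
    ring
  rcases ha with ha | ha
  · left
    intro x
    rw [h0 x, ha]
    rfl
  · right
    intro x
    rw [h0 x, ha]
    rfl

/-- a bounded set is not invariant under a translation -/
theorem trans_bdd {K : Set ℂ} (hK : Bornology.IsBounded K) (hne : K.Nonempty) {c : ℂ}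
    (h : ∀ x ∈ K, x + c ∈ K) : c = 0 := by
  obtain ⟨x, hx⟩ := hne
  have h1 : ∀ n : ℕ, x + n * c ∈ K := by
    intro n
    induction n with
    | zero => simpa using hx
    | succ n ih =>
      have := h _ ih
      rw [Nat.cast_succ, add_mul, one_mul, ← add_assoc]
      exact this
  obtain ⟨M, hM⟩ := isBounded_iff_forall_norm_le.1 hK
  by_contra hc
  have hc' : 0 < ‖c‖ := norm_pos_iff.2 hc
  obtain ⟨n, hn⟩ := exists_nat_gt ((M + ‖x‖) / ‖c‖)
  rw [div_lt_iff₀ hc'] at hn
  have h2 := hM _ (h1 n)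
  have h3 : ‖(n : ℂ) * c‖ ≤ ‖x + n * c‖ + ‖x‖ := by
    have := norm_sub_le (x + n * c) x
    rwa [add_sub_cancel_left] at this
  rw [norm_mul, Complex.norm_natCast] at h3
  linarith

/-- TARGET 1: the isometries preserving a bounded set. -/
theorem isom_cases (σ : ℂ ≃ᵢ ℂ) (hσ : σ ≠ IsometryEquiv.refl ℂ) {K : Set ℂ}
    (hK : Bornology.IsBounded K) (hne : K.Nonempty) (hσK : σ '' K = K) :
    (∃ q e : ℂ, ‖e‖ = 1 ∧ e ≠ 1 ∧ ∀ x, σ x = q + e * (x - q)) ∨
      ∃ q e : ℂ, ‖e‖ = 1 ∧ ∀ x, σ x = q + e * conj (x - q) := by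
  obtain ⟨a, b, ha, h | h⟩ := isom_form σ
  · left
    by_cases h1 : a = 1
    · exfalso
      have hb : b = 0 := by
        refine trans_bdd hK hne fun x hx => ?_
        have h2 : σ x ∈ K := by
          rw [← hσK]
          exact mem_image_of_mem σ hx
        rw [h x, h1, one_mul, add_comm] at h2
        exact h2
      apply hσ
      ext x
      rw [h x, h1, hb, zero_add, one_mul]
      rfl
    · have h2 : 1 - a ≠ 0 := fun h3 => h1 (sub_eq_zero.1 h3).symm
      refine ⟨b / (1 - a), a, ha, h1, fun x => ?_⟩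
      rw [h x]
      field_simp
      ring
  · right
    have ha2 : a * conj a = 1 := by
      rw [Complex.mul_conj, Complex.normSq_eq_norm_sq, ha]
      simp
    have hb : a * conj b + b = 0 := by
      refine trans_bdd hK hne fun x hx => ?_
      have h2 : σ (σ x) ∈ K := by
        rw [← hσK]
        refine mem_image_of_mem σ ?_
        rw [← hσK]
        exact mem_image_of_mem σ hx
      have h3 : σ (σ x) = x + (a * conj b + b) := by
        rw [h (σ x), h x, map_add, map_mul, Complex.conj_conj]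
        linear_combination x * ha2
      rwa [h3] at h2
    refine ⟨b / 2, a, ha, fun x => ?_⟩
    rw [h x, map_sub, map_div₀, Complex.conj_ofNat]
    linear_combination (1 / 2 : ℂ) * hb

/-- TARGET 2: invariance of the region enclosed by a curve (σ is a homeomorphism of the plane and maps bounded sets to bounded sets). -/
theorem inside_isom (σ : ℂ ≃ᵢ ℂ) (γ : Set ℂ) : inside (σ '' γ) = σ '' inside γ := by
  have himg : ∀ B : Set ℂ, Bornology.IsBounded B ↔ Bornology.IsBounded (σ '' B) := by
    intro B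
    constructor
    · intro h
      exact σ.isometry.lipschitz.isBounded_image h
    · intro h
      have h1 := σ.symm.isometry.lipschitz.isBounded_image h
      rw [← image_comp] at h1
      have h2 : (σ.symm ∘ σ : ℂ → ℂ) = id := by
        funext x
        simp
      rwa [h2, image_id] at h1
  ext x
  obtain ⟨y, rfl⟩ := σ.surjective x
  rw [σ.injective.mem_set_image]
  unfold inside
  simp only [mem_ofPred_eq]
  rw [σ.injective.mem_set_image]
  refine and_congr_right fun hy => ?_
  have h1 : (σ '' γ)ᶜ = σ.toHomeomorph '' γᶜ := (image_compl_eq σ.bijective).symm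
  have h2 := σ.toHomeomorph.image_connectedComponentIn (s := γᶜ) (x := y) hy
  rw [h1, himg (connectedComponentIn γᶜ y)]
  have h3 : σ '' connectedComponentIn γᶜ y = connectedComponentIn (σ.toHomeomorph '' γᶜ) (σ y) := h2
  rw [h3]

/-- TARGET 3 -/
theorem scc_isom (σ : ℂ ≃ᵢ ℂ) {γ : Set ℂ} (hγ : SimpleClosedCurve γ) :
    SimpleClosedCurve (σ '' γ) := by
  obtain ⟨f, hf, hinj, rfl⟩ := hγ
  exact ⟨fun z => σ (f z), σ.continuous.comp hf, σ.injective.comp hinj, range_comp σ f⟩

/-
σ x = a x + b or a conj x + b with ‖a‖ = 1 (see TARGET 1). `la` is invariant: `la_conj`, `rot_sc`, `la_rot` (R227/SA17, SA18), `wat_rot` (Fin/T5a.lean); U ∘ σ is smooth with compact support if U is.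
-/

/-- isometries are smooth -/
theorem isom_smooth (σ : ℂ ≃ᵢ ℂ) : ContDiff ℝ ∞ (fun x => σ x) := by
  have h0 : (fun x => σ x) = fun x => σ 0 + σ.toRealLinearIsometryEquiv x := by
    funext x
    rw [IsometryEquiv.toRealLinearIsometryEquiv_apply]
    ring
  rw [h0]
  exact contDiff_const.add σ.toRealLinearIsometryEquiv.contDiff

/-- the chain rule for isometries -/
theorem fderiv_isom_comp (σ : ℂ ≃ᵢ ℂ) (u : ℂ → ℝ) (x : ℂ) :
    fderiv ℝ (fun y => u (σ y)) x = (fderiv ℝ u (σ x)).comp
      (σ.toRealLinearIsometryEquiv.toContinuousLinearEquiv : ℂ →L[ℝ] ℂ) := by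
  have h0 : ∀ x, σ x = σ 0 + σ.toRealLinearIsometryEquiv.toContinuousLinearEquiv x := by
    intro x
    show σ x = σ 0 + σ.toRealLinearIsometryEquiv x
    rw [IsometryEquiv.toRealLinearIsometryEquiv_apply]
    ring
  have h1 : (fun y => u (σ y)) =
      (fun z => u (σ 0 + z)) ∘ σ.toRealLinearIsometryEquiv.toContinuousLinearEquiv := by
    funext y
    show u (σ y) = u (σ 0 + _)
    rw [h0 y]
  rw [h1, ContinuousLinearEquiv.comp_right_fderiv, fderiv_comp_add_left, ← h0 x]

/-- the class of test functions is invariant -/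
theorem sc_isom (σ : ℂ ≃ᵢ ℂ) {U : ℂ → ℝ} (hU : SC U) : SC (fun y => U (σ y)) :=
  ⟨hU.sm.comp (isom_smooth σ), hU.cs.comp_homeomorph σ.toHomeomorph⟩

/-- the Laplacian is invariant -/
theorem la_isom (σ : ℂ ≃ᵢ ℂ) {U : ℂ → ℝ} (hU : SC U) (x : ℂ) :
    la (fun y => U (σ y)) x = la U (σ x) := by
  obtain ⟨a, b, ha, h⟩ := isom_form σ
  obtain ⟨t, ht⟩ := t5a_exists_er ha
  have hU1 : SC (fun z => U (b + z)) := by
    refine ⟨hU.sm.comp (contDiff_const.add contDiff_id), ?_⟩
    exact hU.cs.comp_homeomorph (Homeomorph.addLeft b)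
  have hU2 : SC (fun z => U (b + Pool.Agent.TH298.Sch.er t * z)) :=
    Pool.Agent.R227.SA.rot_sc hU1 t
  have h1 : ∀ x, la (fun y => U (b + Pool.Agent.TH298.Sch.er t * y)) x =
      la U (b + Pool.Agent.TH298.Sch.er t * x) := fun x =>
    (Pool.Agent.R227.SA.la_rot hU1 t x).trans (t5a_la_trans U b _)
  rw [ht] at hU2 h1
  rcases h with h | h
  · have h2 : (fun y => U (σ y)) = fun y => U (b + a * y) := by
      funext y
      rw [h y]
    rw [h2, h1, h x]
  · have h2 : (fun y => U (σ y)) = fun y => (fun z => U (b + a * z)) (conj y) := by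
      funext y
      rw [h y]
    rw [h2, Pool.Agent.R227.SA.la_conj hU2, h1, h x]

/-- TARGET 4: transport of solutions. -/
theorem wat_isom (σ : ℂ ≃ᵢ ℂ) {D : Set ℂ} {lam : ℝ} {u : ℂ → ℝ} (h : Wat D lam u) :
    Wat (σ ⁻¹' D) lam (fun x => u (σ x)) := by
  refine ⟨h.cont.comp σ.continuous, fun x hx => h.out _ hx, fun x₀ hx₀ => ?_⟩
  obtain ⟨r, hr, U, hU, hb, h1⟩ := h.loc (σ x₀) hx₀
  have hball : ∀ x ∈ Metric.ball x₀ r, σ x ∈ Metric.ball (σ x₀) r := by
    intro x hx
    rw [Metric.mem_ball, σ.dist_eq]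
    exact hx
  refine ⟨r, hr, fun x => U (σ x), sc_isom σ hU, fun x hx => hb (hball x hx),
    fun x hx => ⟨(h1 _ (hball x hx)).1, ?_⟩⟩
  rw [la_isom σ hU, (h1 _ (hball x hx)).2]

/-- TARGET 5 -/
theorem dat_isom (σ : ℂ ≃ᵢ ℂ) {Ω : Set ℂ} {lam c : ℝ} {v : ℂ → ℝ} (h : Dat Ω lam c v) :
    Dat (σ ⁻¹' Ω) lam c (fun x => v (σ x)) := by
  refine ⟨h.c1.comp ((isom_smooth σ).of_le (by exact_mod_cast le_top)), fun x hx => h.out _ hx,
    fun x hx => ?_, fun x₀ hx₀ => ?_⟩
  · rw [fderiv_isom_comp, h.outd _ hx]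
    simp
  · obtain ⟨r, hr, U, hU, hb, h1⟩ := h.loc (σ x₀) hx₀
    have hball : ∀ x ∈ Metric.ball x₀ r, σ x ∈ Metric.ball (σ x₀) r := by
      intro x hx
      rw [Metric.mem_ball, σ.dist_eq]
      exact hx
    refine ⟨r, hr, fun x => U (σ x), sc_isom σ hU, fun x hx => hb (hball x hx),
      fun x hx => ⟨(h1 _ (hball x hx)).1, ?_⟩⟩
    rw [la_isom σ hU, (h1 _ (hball x hx)).2]

/-- TARGET 6: critical points are transported (no differentiability of `u` is assumed, σ is affine with invertible linear part). -/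
theorem fderiv_isom (σ : ℂ ≃ᵢ ℂ) {u : ℂ → ℝ} {x : ℂ} (h : fderiv ℝ u (σ x) = 0) :
    fderiv ℝ (fun y => u (σ y)) x = 0 := by
  rw [fderiv_isom_comp, h]
  simp

/-
Plain proof. e is not a root of unity, so its powers are dense in the unit circle; so v (q + ζ (x - q)) = v x for all ζ with ‖ζ‖ = 1 (v is continuous). Differentiate at ζ = 1 along ζ = exp (t I).
-/

/-- TARGET 7: invariance under a rotation of infinite order. -/
theorem rot_irr {v : ℂ → ℝ} (hv : ContDiff ℝ 1 v) {q e : ℂ} (he : ‖e‖ = 1)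
    (hirr : ∀ n : ℕ, 1 ≤ n → e ^ n ≠ 1) (hsym : ∀ x, v (q + e * (x - q)) = v x) :
    ∀ x, fderiv ℝ v x (Complex.I * (x - q)) = 0 := by
  have hnz : ∀ t : ℝ, Complex.exp (-(t : ℂ) * Complex.I) * Complex.exp ((t : ℂ) * Complex.I) = 1 := by
    intro t
    rw [← Complex.exp_add]
    simp
  let S : AddSubgroup ℝ :=
    { carrier := {t : ℝ | ∀ z, v (q + Complex.exp ((t : ℂ) * Complex.I) * z) = v (q + z)}
      add_mem' := by
        intro s t hs ht z
        have h1 : Complex.exp (((s + t : ℝ) : ℂ) * Complex.I) * z =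
            Complex.exp ((s : ℂ) * Complex.I) * (Complex.exp ((t : ℂ) * Complex.I) * z) := by
          rw [← mul_assoc, ← Complex.exp_add]
          push_cast
          ring_nf
        rw [h1, hs, ht]
      zero_mem' := by
        intro z
        simp
      neg_mem' := by
        intro t ht z
        have h1 := ht (Complex.exp (((-t : ℝ) : ℂ) * Complex.I) * z)
        have h2 : Complex.exp ((t : ℂ) * Complex.I) * (Complex.exp (((-t : ℝ) : ℂ) * Complex.I) * z)
            = z := by
          rw [← mul_assoc, ← Complex.exp_add]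
          push_cast
          simp
        rw [h2] at h1
        exact h1.symm }
  have hmem : ∀ t : ℝ, t ∈ S ↔ ∀ z, v (q + Complex.exp ((t : ℂ) * Complex.I) * z) = v (q + z) :=
    fun t => Iff.rfl
  have he' : Complex.exp ((Complex.arg e : ℂ) * Complex.I) = e := by
    have h := Complex.norm_mul_exp_arg_mul_I e
    rwa [he, Complex.ofReal_one, one_mul] at h
  have hS1 : Complex.arg e ∈ S := by
    rw [hmem]
    intro z
    have := hsym (q + z)
    rw [add_sub_cancel_left] at this
    rw [he', this]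
  have hS2 : 2 * Real.pi ∈ S := by
    rw [hmem]
    intro z
    have h1 : Complex.exp (((2 * Real.pi : ℝ) : ℂ) * Complex.I) = 1 := by
      push_cast
      exact Complex.exp_two_pi_mul_I
    rw [h1, one_mul]
  have hall : ∀ t : ℝ, ∀ z, v (q + Complex.exp ((t : ℂ) * Complex.I) * z) = v (q + z) := by
    rcases S.dense_or_cyclic with hd | ⟨a, ha⟩
    · intro t z
      have h1 : Continuous fun t : ℝ => v (q + Complex.exp ((t : ℂ) * Complex.I) * z) := by
        have := hv.continuous
        fun_prop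
      have h2 : Continuous fun _ : ℝ => v (q + z) := continuous_const
      exact congrFun (Continuous.ext_on hd h1 h2 fun s hs => (hmem s).1 hs z) t
    · exfalso
      rw [ha, AddSubgroup.mem_closure_singleton] at hS1 hS2
      obtain ⟨m, hm⟩ := hS1
      obtain ⟨n, hn⟩ := hS2
      have hpi := Real.pi_pos
      have hn0 : n ≠ 0 := by
        rintro rfl
        rw [zero_smul] at hn
        linarith
      have h3 : (n : ℝ) * Complex.arg e = m * (2 * Real.pi) := by
        rw [← hm, ← hn]
        simp only [zsmul_eq_mul]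
        ring
      have h4 : e ^ n = 1 := by
        rw [← he', ← Complex.exp_int_mul]
        have h5 : (n : ℂ) * ((Complex.arg e : ℂ) * Complex.I) = m * (2 * Real.pi * Complex.I) := by
          have h6 : ((n : ℝ) * Complex.arg e : ℝ) = ((m : ℝ) * (2 * Real.pi) : ℝ) := h3
          have h7 : (((n : ℝ) * Complex.arg e : ℝ) : ℂ) = (((m : ℝ) * (2 * Real.pi) : ℝ) : ℂ) := by
            rw [h6]
          push_cast at h7
          linear_combination Complex.I * h7
        rw [h5, Complex.exp_int_mul_two_pi_mul_I]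
      rcases Int.natAbs_eq n with h8 | h8
      · refine hirr n.natAbs (Int.natAbs_pos.2 hn0) ?_
        rw [h8, zpow_natCast] at h4
        exact h4
      · refine hirr n.natAbs (Int.natAbs_pos.2 hn0) ?_
        rw [h8, zpow_neg, zpow_natCast, inv_eq_one] at h4
        exact h4
  intro x
  have h1 : HasDerivAt (fun t : ℝ => q + Complex.exp ((t : ℂ) * Complex.I) * (x - q))
      (Complex.I * (x - q)) 0 := by
    have h2 : HasDerivAt (fun t : ℝ => (t : ℂ) * Complex.I) (1 * Complex.I) 0 :=
      (Complex.ofRealCLM.hasDerivAt (x := (0 : ℝ))).mul_const Complex.I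
    have h3 := ((h2.cexp).mul_const (x - q)).const_add q
    simpa using h3
  have h2 : HasDerivAt (fun t : ℝ => v (q + Complex.exp ((t : ℂ) * Complex.I) * (x - q)))
      (fderiv ℝ v (q + Complex.exp (((0 : ℝ) : ℂ) * Complex.I) * (x - q)) (Complex.I * (x - q))) 0 :=
    ((hv.differentiable (by norm_num)) _).hasFDerivAt.comp_hasDerivAt 0 h1
  have h3 : (fun t : ℝ => v (q + Complex.exp ((t : ℂ) * Complex.I) * (x - q))) = fun _ => v (q + (x - q)) :=
    funext fun t => hall t _
  rw [h3] at h2
  have h4 := h2.unique (hasDerivAt_const (0 : ℝ) _)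
  have h5 : q + Complex.exp (((0 : ℝ) : ℂ) * Complex.I) * (x - q) = x := by
    simp
  rwa [h5] at h4

end Pool.Agent.Helper327_Drum
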