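import Pool.Agent.Helper327_Drum.Fin.AS10

/-! Symmetric drums: the conclusion. -/

set_option autoImplicit false
open MeasureTheory Set Filter Topology ComplexConjugate
open scoped ContDiff InnerProductSpace

namespace Pool.Agent.Helper327_Drum

open Pool.Agent.TH298.Sch (dd SC)
open Pool.Agent.R227.SA (la Wat Dat)

/-- a closed curve of critical points with a symmetry -/
theorem curve_sym_seven {R γ : Set ℂ} {lam k : ℝ} {u : ℂ → ℝ} (hR : SimpleClosedCurve R)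
    (hγ : SimpleClosedCurve γ) (hlam : 0 < lam) (hu : Wat (inside R) lam u) (hu0 : ∃ x, u x ≠ 0)
    (hsub : γ ⊆ inside R) (hk : k ≠ 0) (huk : ∀ x ∈ γ, u x = k)
    (hcr : ∀ x ∈ γ, fderiv ℝ u x = 0) {σ : ℂ ≃ᵢ ℂ} (hσ : σ ≠ IsometryEquiv.refl ℂ)
    (hσγ : σ '' γ = γ) :
    dirichletEigenvalue 7 (inside R) ≤ lam ∨
      ∃ (p : ℂ) (r : ℝ), 0 < r ∧ inside γ = Metric.ball p r := by
  obtain ⟨hRc, hRcon, hRinf⟩ := scc_basic hR
  obtain ⟨hγc, hγcon, hγinf⟩ := scc_basic hγ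
  obtain ⟨hDo, hDb, hfr, hcl, hdj⟩ := inside_basic hRc
  obtain ⟨hne, hdat⟩ := crit_dat hR hγ hlam hu hsub hk huk hcr
  obtain ⟨hΩo, hΩb, hΩfr, -, -⟩ := inside_basic hγc
  obtain ⟨hΩc, hΩfr', hΩreg⟩ := inside_jordan hγ hne
  have hDne : (inside R).Nonempty := by
    obtain ⟨x, hx⟩ := hγinf.nonempty
    exact ⟨x, hsub hx⟩
  obtain ⟨hDc, hDfr, hDreg⟩ := inside_jordan hR hDne
  by_cases hd : ∃ (p : ℂ) (r : ℝ), 0 < r ∧ inside γ = Metric.ball p r
  · exact Or.inr hd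
  left
  have hcc := (inside_compl hγc hγcon).1.isPreconnected
  have hσΩ : σ '' inside γ = inside γ := by rw [← inside_isom, hσγ]
  obtain ⟨p, G, h1, h2, h3⟩ := sym_four hdat hΩo hΩb hne hΩc.isPreconnected hcc hΩreg hlam hk hd hσ
    hσΩ
  exact pieces_le hDo hDb hDc.isPreconnected hu hu0 hdat hΩo hne hΩc.isPreconnected hΩreg hcc
    (inside_sub hRc hRcon hsub) (out_nonempty hR hγ hDne hsub) hlam hk hd (k := 4) (by norm_num) p G
    h1 h2 h3

/-- a closed curve of critical points with a rotation symmetry of order `N` -/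
theorem curve_rot_bound {R γ : Set ℂ} {lam k : ℝ} {u : ℂ → ℝ} (hR : SimpleClosedCurve R)
    (hγ : SimpleClosedCurve γ) (hlam : 0 < lam) (hu : Wat (inside R) lam u) (hu0 : ∃ x, u x ≠ 0)
    (hsub : γ ⊆ inside R) (hk : k ≠ 0) (huk : ∀ x ∈ γ, u x = k)
    (hcr : ∀ x ∈ γ, fderiv ℝ u x = 0) {N : ℕ} (hN : 2 ≤ N) {q e : ℂ}
    (he : IsPrimitiveRoot e N) {σ : ℂ ≃ᵢ ℂ} (hσ : ∀ x, σ x = q + e * (x - q))
    (hσγ : σ '' γ = γ) :
    dirichletEigenvalue (2 * N + 3) (inside R) ≤ lam ∨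
      ∃ (p : ℂ) (r : ℝ), 0 < r ∧ inside γ = Metric.ball p r := by
  obtain ⟨hRc, hRcon, hRinf⟩ := scc_basic hR
  obtain ⟨hγc, hγcon, hγinf⟩ := scc_basic hγ
  obtain ⟨hDo, hDb, hfr, hcl, hdj⟩ := inside_basic hRc
  obtain ⟨hne, hdat⟩ := crit_dat hR hγ hlam hu hsub hk huk hcr
  obtain ⟨hΩo, hΩb, hΩfr, -, -⟩ := inside_basic hγc
  obtain ⟨hΩc, hΩfr', hΩreg⟩ := inside_jordan hγ hne
  have hDne : (inside R).Nonempty := by
    obtain ⟨x, hx⟩ := hγinf.nonempty
    exact ⟨x, hsub hx⟩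
  obtain ⟨hDc, hDfr, hDreg⟩ := inside_jordan hR hDne
  by_cases hd : ∃ (p : ℂ) (r : ℝ), 0 < r ∧ inside γ = Metric.ball p r
  · exact Or.inr hd
  left
  have hcc := (inside_compl hγc hγcon).1.isPreconnected
  have hσΩ : σ '' inside γ = inside γ := by rw [← inside_isom, hσγ]
  obtain ⟨p, G, h1, h2, h3⟩ := rot_sym_pieces hdat hΩo hΩb hne hΩc.isPreconnected hcc hΩreg hlam hk
    hd hN he hσ hσΩ
  exact pieces_le hDo hDb hDc.isPreconnected hu hu0 hdat hΩo hne hΩc.isPreconnected hΩreg hcc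
    (inside_sub hRc hRcon hsub) (out_nonempty hR hγ hDne hsub) hlam hk hd (k := 2 * N) (by omega) p
    G h1 h2 h3

/-- a symmetric drum -/
theorem drum_sym_seven {R γ : Set ℂ} {lam k : ℝ} {u : ℂ → ℝ} (hR : SimpleClosedCurve R)
    (hγ : SimpleClosedCurve γ) (hlam : 0 < lam) (hu : Wat (inside R) lam u) (hu0 : ∃ x, u x ≠ 0)
    (hsub : γ ⊆ inside R) (hk : k ≠ 0) (huk : ∀ x ∈ γ, u x = k)
    (hcr : ∀ x ∈ γ, fderiv ℝ u x = 0) {σ : ℂ ≃ᵢ ℂ} (hσ : σ ≠ IsometryEquiv.refl ℂ)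
    (hσR : σ '' R = R) :
    dirichletEigenvalue 7 (inside R) ≤ lam ∨
      ∃ (p : ℂ) (r : ℝ), 0 < r ∧ inside γ = Metric.ball p r := by
  obtain ⟨hRc, hRcon, hRinf⟩ := scc_basic hR
  obtain ⟨hγc, hγcon, hγinf⟩ := scc_basic hγ
  obtain ⟨hDo, hDb, hfr, hcl, hdj⟩ := inside_basic hRc
  have hDne : (inside R).Nonempty := by
    obtain ⟨x, hx⟩ := hγinf.nonempty
    exact ⟨x, hsub hx⟩
  obtain ⟨hDc, hDfr, hDreg⟩ := inside_jordan hR hDne
  have hσD : σ '' inside R = inside R := by rw [← inside_isom, hσR]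
  have hpre : σ ⁻¹' inside R = inside R := by
    conv_lhs => rw [← hσD]
    exact preimage_image_eq _ σ.injective
  have hu' : Wat (inside R) lam (fun x => u (σ x)) := by
    have := wat_isom σ hu
    rwa [hpre] at this
  by_cases hli : LinearIndependent ℝ ![u, fun x => u (σ x)]
  · obtain ⟨hne, hdat⟩ := crit_dat hR hγ hlam hu hsub hk huk hcr
    obtain ⟨hΩo, hΩb, hΩfr, -, -⟩ := inside_basic hγc
    obtain ⟨hΩc, hΩfr', hΩreg⟩ := inside_jordan hγ hne
    exact seven_le hDo hDb hDc.isPreconnected hu hu' hli hdat hΩo hne hΩc.isPreconnected hΩreg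
      (inside_compl hγc hγcon).1.isPreconnected (inside_sub hRc hRcon hsub)
      (out_nonempty hR hγ hDne hsub) hlam hk
  · rw [LinearIndependent.pair_iff] at hli
    push Not at hli
    obtain ⟨s, t, hst, hst0⟩ := hli
    have hst' : ∀ x, s * u x + t * u (σ x) = 0 := fun x => congrFun hst x
    have ht : t ≠ 0 := by
      intro ht
      obtain ⟨x, hx⟩ := hu0
      have h1 := hst' x
      rw [ht, zero_mul, add_zero] at h1
      exact hst0 ((mul_eq_zero.1 h1).resolve_right hx) ht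
    have hs : s ≠ 0 := by
      intro hs
      obtain ⟨x, hx⟩ := hu0
      have h1 := hst' (σ.symm x)
      rw [hs, zero_mul, zero_add, IsometryEquiv.apply_symm_apply] at h1
      exact hx ((mul_eq_zero.1 h1).resolve_left ht)
    -- `u = a u ∘ σ`
    set a : ℝ := -(t / s) with ha
    have ha0 : a ≠ 0 := neg_ne_zero.2 (div_ne_zero ht hs)
    have hua : ∀ x, u x = a * u (σ x) := by
      intro x
      have h1 := hst' x
      rw [ha]
      field_simp
      linarith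
    have hγ' : SimpleClosedCurve (σ.symm '' γ) := scc_isom σ.symm hγ
    have hmem : ∀ x ∈ σ.symm '' γ, σ x ∈ γ := by
      rintro x ⟨y, hy, rfl⟩
      rw [IsometryEquiv.apply_symm_apply]
      exact hy
    have hsub' : σ.symm '' γ ⊆ inside R := by
      intro x hx
      rw [← hpre]
      exact hsub (hmem x hx)
    have huk' : ∀ x ∈ σ.symm '' γ, u x = a * k := fun x hx => by rw [hua, huk _ (hmem x hx)]
    have hcr' : ∀ x ∈ σ.symm '' γ, fderiv ℝ u x = 0 := by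
      intro x hx
      have h1 := fderiv_isom σ (hcr _ (hmem x hx))
      have h2 : DifferentiableAt ℝ (fun y => u (σ y)) x :=
        (wat_smooth hu' (hsub' hx)).1.differentiableAt (by norm_cast)
      have h3 : u = fun y => a * u (σ y) := funext hua
      rw [h3, fderiv_const_mul h2, h1, smul_zero]
    by_cases heq : γ = σ.symm '' γ
    · refine curve_sym_seven hR hγ hlam hu hu0 hsub hk huk hcr hσ ?_
      conv_lhs => rw [heq]
      rw [← image_comp]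
      have : (σ ∘ σ.symm : ℂ → ℂ) = id := by
        funext x
        simp
      rw [this, image_id]
    · left
      have h8 := two_curves hR hγ hγ' hlam hu hu0 hsub hsub' hk huk hcr (mul_ne_zero ha0 hk) huk'
        hcr' heq
      exact (ev_mono hDo hDne (by norm_num) (by norm_num : 7 ≤ 8)).trans h8.le

/-- **Symmetric drums.** -/
theorem symmetric_drum {R γ : Set ℂ} {c : ℝ} {z : ℂ → ℝ → ℝ} {g : ℂ → ℝ → ℂ}
    (hR : SimpleClosedCurve R) (hc : 0 < c) (h : DrumSolution R c z g) (hγ : SimpleClosedCurve γ)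
    (hS : γ ⊆ still R g) {lam : ℝ} (hE : Excites R z lam)
    (hsym : (lam < dirichletEigenvalue 7 (inside R) ∧
        ∃ σ : ℂ ≃ᵢ ℂ, σ ≠ IsometryEquiv.refl ℂ ∧ (σ '' R = R ∨ σ '' γ = γ)) ∨
      ∃ (N : ℕ) (q e : ℂ) (σ : ℂ ≃ᵢ ℂ), 2 ≤ N ∧ IsPrimitiveRoot e N ∧
        (∀ x, σ x = q + e * (x - q)) ∧ σ '' γ = γ ∧
        lam < dirichletEigenvalue (2 * N + 3) (inside R)) :
    ∃ (p : ℂ) (ρ : ℝ), 0 < ρ ∧ R = Metric.sphere p ρ ∧
      (∀ γ : Set ℂ, SimpleClosedCurve γ → γ ⊆ still R g → ∃ r, 0 < r ∧ γ = Metric.sphere p r) ∧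
      ∀ x ∈ Metric.closedBall p ρ, ∀ y ∈ Metric.closedBall p ρ, ‖x - p‖ = ‖y - p‖ →
        ∀ t, z x t = z y t := by
  obtain ⟨hlam, u, hm⟩ := mode_of_excites (scc_basic hR).1 hc h hE
  obtain ⟨hsub, k, hk, huk⟩ := hm.const_curve hR hlam hγ (fun x hx => (hS hx).1)
    fun x hx => (hS hx).2
  have hcr : ∀ x ∈ γ, fderiv ℝ u x = 0 := fun x hx => hm.crit x (hsub hx) (hS hx).2
  have hdisc : ∃ (p : ℂ) (r : ℝ), 0 < r ∧ inside γ = Metric.ball p r := by
    rcases hsym with ⟨hlt, σ, hσ, hσR | hσγ⟩ | ⟨N, q, e, σ, hN, he, hσ, hσγ, hlt⟩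
    · exact (drum_sym_seven hR hγ hlam hm.wat hm.ne hsub hk huk hcr hσ hσR).resolve_left
        (not_le.2 hlt)
    · exact (curve_sym_seven hR hγ hlam hm.wat hm.ne hsub hk huk hcr hσ hσγ).resolve_left
        (not_le.2 hlt)
    · exact (curve_rot_bound hR hγ hlam hm.wat hm.ne hsub hk huk hcr hN he hσ hσγ).resolve_left
        (not_le.2 hlt)
  obtain ⟨p, r, hr, hball⟩ := hdisc
  obtain ⟨ρ, h1, h2, -, h4⟩ := radial_conclusion hR hc h hγ (fun x hx => (hS hx).1)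
    (fun x hx => (hS hx).2) hr hball
  exact ⟨p, ρ, hr.trans h1, h2, fun γ' hγ' hS' => curves_concentric hR hc h hγ hS hr hball hγ' hS',
    h4⟩

end Pool.Agent.Helper327_Drum
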