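import Pool.Agent.W675.SqC
import Pool.Agent.Helper327_Drum.Defs

set_option autoImplicit false
open MeasureTheory Set Filter Topology ComplexConjugate

namespace Pool.Agent.Helper327_Drum

open Pool.Agent.H763R2.An

theorem gi_half {c : ℝ → ℂ} (L : Loop c) {B : ℝ} (hB : ∀ t, ‖c t‖ ≤ B) {w : ℂ} (hw : B < ‖w‖) :
    IsWc c w 0 := by
  have hw1 : 0 < ‖w‖ := lt_of_le_of_lt (le_trans (norm_nonneg (c 0)) (hB 0)) hw
  have hw0 : w ≠ 0 := norm_pos_iff.mp hw1
  refine (L.half (z := w) (a := -w) (neg_ne_zero.mpr hw0) fun t => ?_).2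
  have h1 : (c t - w) / -w = 1 - c t / w := by field_simp; ring
  rw [h1, Complex.sub_re, Complex.one_re]
  have h2 : (c t / w).re ≤ ‖c t / w‖ := Complex.re_le_norm _
  have h3 : ‖c t / w‖ < 1 := by
    rw [norm_div, div_lt_one hw1]
    exact lt_of_le_of_lt (hB t) hw
  linarith

theorem gi_core {c : ℝ → ℂ} (L : Loop c) (J : Inj c) {ε : ℝ} (hε : 0 < ε) (hε2 : ε < 1 / 2)
    (hm : StrictMonoOn (fun t => (c t).re) (Icc (1 / 2 - ε) (1 / 2 + ε))) :
    ∃ z n, z ∉ range c ∧ IsWc c z n ∧ n ≠ 0 := by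
  set K : Set ℝ := Icc 0 1 \ Ioo (1 / 2 - ε) (1 / 2 + ε) with hK
  have hKc : IsCompact K := isCompact_Icc.diff isOpen_Ioo
  have hKn : K.Nonempty := ⟨0, ⟨by norm_num, by norm_num⟩, fun h => by linarith [h.1]⟩
  have hcont : ContinuousOn (fun t => ‖c t - c (1 / 2)‖) K := by
    have := L.cont
    fun_prop
  obtain ⟨t1, ht1, hmin⟩ := hKc.exists_isMinOn hKn hcont
  have ht1ne : c t1 ≠ c (1 / 2) := by
    obtain ⟨⟨a1, a2⟩, a3⟩ := ht1
    rcases lt_trichotomy t1 (1 / 2) with h | h | h
    · exact J _ _ h (by linarith)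
    · exfalso; apply a3; rw [h]; exact ⟨by linarith, by linarith⟩
    · exact (J _ _ h (by linarith)).symm
  set m : ℝ := ‖c t1 - c (1 / 2)‖ with hmdef
  have hmpos : 0 < m := norm_pos_iff.mpr (sub_ne_zero.mpr ht1ne)
  set δ : ℝ := m / 2 with hδ
  have hδpos : 0 < δ := by positivity
  have hseg : ∀ t ∈ Icc (0:ℝ) 1, t ≠ 1 / 2 → (c t).re = (c (1 / 2)).re →
      δ < |(c t).im - (c (1 / 2)).im| := by
    intro t ht hne hre
    by_cases hin : t ∈ Ioo (1 / 2 - ε) (1 / 2 + ε)
    · exfalso
      apply hne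
      exact hm.injOn (Ioo_subset_Icc_self hin) ⟨by linarith, by linarith⟩ hre
    · have h1 : m ≤ ‖c t - c (1 / 2)‖ := hmin (a := t) ⟨ht, hin⟩
      have h2 := Complex.norm_le_abs_re_add_abs_im (c t - c (1 / 2))
      rw [Complex.sub_re, Complex.sub_im, hre, sub_self, abs_zero, zero_add] at h2
      linarith
  have hr : ∀ᶠ t in 𝓝[>] (1 / 2 : ℝ), (c (1 / 2)).re < (c t).re := by
    filter_upwards [Ioo_mem_nhdsGT (show (1 / 2 : ℝ) < 1 / 2 + ε by linarith)] with t ht
    exact hm ⟨by linarith, by linarith⟩ ⟨by linarith [ht.1], ht.2.le⟩ ht.1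
  have hl : ∀ᶠ t in 𝓝[<] (1 / 2 : ℝ), (c t).re < (c (1 / 2)).re := by
    filter_upwards [Ioo_mem_nhdsLT (show (1 / 2 - ε : ℝ) < 1 / 2 by linarith)] with t ht
    exact hm ⟨ht.1.le, by linarith [ht.2]⟩ ⟨by linarith, by linarith⟩ ht.2
  have hnot : ∀ σ : ℝ, |σ| = δ → c (1 / 2) + σ * Complex.I ∉ range c := by
    intro σ hσ hmem
    rw [L.range_eq] at hmem
    obtain ⟨t, ht, hct⟩ := hmem
    have hre : (c t).re = (c (1 / 2)).re := by rw [hct]; simp
    have him : (c t).im - (c (1 / 2)).im = σ := by rw [hct]; simp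
    by_cases hne : t = 1 / 2
    · rw [hne, sub_self] at him
      rw [← him, abs_zero] at hσ
      linarith
    · have := hseg t ht hne hre
      rw [him, hσ] at this
      exact lt_irrefl _ this
  have hp := hnot δ (abs_of_pos hδpos)
  have hq := hnot (-δ) (by rw [abs_neg, abs_of_pos hδpos])
  have hq' : c (1 / 2) - δ * Complex.I ∉ range c := by
    have e : c (1 / 2) + ((-δ : ℝ) : ℂ) * Complex.I = c (1 / 2) - δ * Complex.I := by
      push_cast; ring
    rw [← e]; exact hq
  obtain ⟨n1, hn1⟩ := L.exW hp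
  obtain ⟨n2, hn2⟩ := L.exW hq'
  by_cases h1 : n1 = 0
  · refine ⟨_, n2, hq', hn2, ?_⟩
    intro h2
    subst h1 h2
    exact Pool.Agent.W675.SqG.crossing L (by norm_num) (by norm_num) hδpos hseg hr hl hn1 hn2
  · exact ⟨_, n1, hp, hn1, h1⟩

theorem gi_fin {γ : Set ℂ} (hγ : IsClosed γ) {e : ℂ} (he : ‖e‖ = 1) {c : ℝ → ℂ} (L : Loop c)
    (hrange : ∀ z, z ∈ range c ↔ e * z ∈ γ) {z : ℂ} {n : ℤ} (hz : z ∉ range c)
    (hw : IsWc c z n) (hn : n ≠ 0) : e * z ∈ inside γ := by
  have hee : e * conj e = 1 := by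
    rw [Complex.mul_conj, Complex.normSq_eq_norm_sq, he]; norm_num
  have hee' : conj e * e = 1 := by rw [mul_comm]; exact hee
  have hx : e * z ∈ γᶜ := fun h => hz ((hrange z).2 h)
  refine ⟨hx, ?_⟩
  by_contra hunb
  obtain ⟨B, hB⟩ := isBounded_iff_forall_norm_le.mp L.compact.isBounded
  have hB' : ∀ t, ‖c t‖ ≤ B := fun t => hB _ (mem_range_self t)
  have : ∃ w ∈ connectedComponentIn γᶜ (e * z), B < ‖w‖ := by
    by_contra hcon
    push Not at hcon
    exact hunb (isBounded_iff_forall_norm_le.mpr ⟨B, hcon⟩)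
  obtain ⟨w, hw1, hw2⟩ := this
  have hopen : IsOpen (connectedComponentIn γᶜ (e * z)) := hγ.isOpen_compl.connectedComponentIn
  have hconn : IsConnected (connectedComponentIn γᶜ (e * z)) :=
    isConnected_connectedComponentIn_iff.mpr hx
  have hpc := hopen.isConnected_iff_isPathConnected.mp hconn
  obtain ⟨p, hp⟩ := hpc.joinedIn _ (mem_connectedComponentIn hx) _ hw1
  set β : ℝ → ℂ := fun s => conj e * p.extend s with hβ
  have hβc : Continuous β := continuous_const.mul p.continuous_extend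
  have hβm : ∀ s, β s ∉ range c := by
    intro s h
    have h1 := (hrange _).1 h
    rw [hβ] at h1
    simp only at h1
    rw [← mul_assoc, hee, one_mul] at h1
    have h2 : p.extend s ∈ range p := by
      rw [← p.extend_range]; exact mem_range_self s
    obtain ⟨u, hu⟩ := h2
    rw [← hu] at h1
    exact (connectedComponentIn_subset _ _ (hp u)) h1
  have h0 : β 0 = z := by
    rw [hβ]; simp only [Path.extend_zero]; rw [← mul_assoc, hee', one_mul]
  have h1 : β 1 = conj e * w := by
    rw [hβ]; simp only [Path.extend_one]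
  have h2 : IsWc c (β 1) n := L.pathW hβc hβm (by rw [h0]; exact hw)
  have h3 : IsWc c (β 1) 0 := by
    apply gi_half L hB'
    rw [h1, norm_mul, Complex.norm_conj, he, one_mul]
    exact hw2
  exact hn (h2.unique h3)

/-- TARGET: a simple closed curve with one Lipschitz-graph-like point has a nonempty inside. -/
theorem inside_nonempty {γ : Set ℂ} (hγ : SimpleClosedCurve γ) {x₀ e : ℂ} (hx₀ : x₀ ∈ γ)
    (he : ‖e‖ = 1) {r κ : ℝ} (hr : 0 < r)
    (hcone : ∀ x ∈ γ ∩ Metric.ball x₀ r, ∀ y ∈ γ ∩ Metric.ball x₀ r,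
      |((x - y) * conj e).im| ≤ κ * |((x - y) * conj e).re|) :
    (inside γ).Nonempty := by
  obtain ⟨f, hf, hi, rfl⟩ := hγ
  obtain ⟨ζ, rfl⟩ := hx₀
  have hee : e * conj e = 1 := by
    rw [Complex.mul_conj, Complex.normSq_eq_norm_sq, he]; norm_num
  have hee' : conj e * e = 1 := by rw [mul_comm]; exact hee
  have hce : conj e ≠ 0 := fun h => by rw [h, mul_zero] at hee; exact zero_ne_one hee
  set c : ℝ → ℂ := fun t => conj e * f (Circle.exp (2 * Real.pi * (t - 1 / 2)) * ζ) with hc
  have hcl : IsClosed (range f) := (isCompact_range hf).isClosed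
  have L : Loop c := by
    refine ⟨?_, ?_⟩
    · have : Continuous fun t : ℝ => Circle.exp (2 * Real.pi * (t - 1 / 2)) * ζ :=
        (Circle.exp.continuous.comp (by fun_prop)).mul continuous_const
      exact continuous_const.mul (hf.comp this)
    · intro t
      simp only [hc]
      have : 2 * Real.pi * (t + 1 - 1 / 2) = 2 * Real.pi * (t - 1 / 2) + 2 * Real.pi := by ring
      rw [this, Circle.exp_add, Circle.exp_two_pi, mul_one]
  have J : Inj c := by
    intro x y hxy hyx heq
    simp only [hc] at heq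
    have h1 := mul_left_cancel₀ hce heq
    have h2 := mul_right_cancel (hi h1)
    rw [Circle.exp_eq_exp] at h2
    obtain ⟨m, hm⟩ := h2
    have hpi : (0 : ℝ) < 2 * Real.pi := by positivity
    have h3 : x - y = m := by
      have : 2 * Real.pi * (x - y) = 2 * Real.pi * m := by linear_combination hm
      exact mul_left_cancel₀ hpi.ne' this
    have h4 : (m : ℝ) < 0 := by rw [← h3]; linarith
    have h5 : (-1 : ℝ) < m := by rw [← h3]; linarith
    have h6 : m < 0 := by exact_mod_cast h4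
    have h7 : -1 < m := by exact_mod_cast h5
    omega
  have hrange : ∀ z, z ∈ range c ↔ e * z ∈ range f := by
    intro z
    constructor
    · rintro ⟨t, rfl⟩
      simp only [hc]
      rw [← mul_assoc, hee, one_mul]
      exact mem_range_self _
    · rintro ⟨u, hu⟩
      obtain ⟨s, hs⟩ : ∃ s : ℝ, Circle.exp s = u * ζ⁻¹ :=
        ⟨Complex.arg (u * ζ⁻¹ : Circle), Circle.exp_arg _⟩
      refine ⟨s / (2 * Real.pi) + 1 / 2, ?_⟩
      simp only [hc]
      have hpi : (2 * Real.pi : ℝ) ≠ 0 := by positivity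
      have : 2 * Real.pi * (s / (2 * Real.pi) + 1 / 2 - 1 / 2) = s := by
        field_simp
        ring
      rw [this, hs, inv_mul_cancel_right, hu, ← mul_assoc, hee', one_mul]
  have hc0 : c (1 / 2) = conj e * f ζ := by
    simp only [hc]
    rw [sub_self, mul_zero, Circle.exp_zero, one_mul]
  -- the curve near the point
  obtain ⟨ε0, hε0, hball⟩ := Metric.continuousAt_iff.mp (L.cont.continuousAt (x := 1 / 2)) r hr
  set ε : ℝ := min (ε0 / 2) (1 / 4) with hε
  have hεpos : 0 < ε := lt_min (by linarith) (by norm_num)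
  have hε2 : ε < 1 / 2 := lt_of_le_of_lt (min_le_right _ _) (by norm_num)
  have hεε0 : ε < ε0 := lt_of_le_of_lt (min_le_left _ _) (by linarith)
  have hnear : ∀ t ∈ Icc (1 / 2 - ε) (1 / 2 + ε), e * c t ∈ range f ∩ Metric.ball (f ζ) r := by
    intro t ht
    refine ⟨(hrange _).1 (mem_range_self t), ?_⟩
    have h1 : dist t (1 / 2) < ε0 := by
      rw [Real.dist_eq, abs_lt]
      constructor <;> linarith [ht.1, ht.2]
    have h2 := hball h1
    rw [Metric.mem_ball]
    rw [hc0] at h2
    rw [dist_eq_norm] at h2 ⊢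
    have h3 : e * c t - f ζ = e * (c t - conj e * f ζ) := by
      linear_combination (f ζ) * hee
    rw [h3, norm_mul, he, one_mul]
    exact h2
  have hinj : InjOn (fun t => (c t).re) (Icc (1 / 2 - ε) (1 / 2 + ε)) := by
    intro t ht s hs hts
    simp only at hts
    have h1 := hcone _ (hnear t ht) _ (hnear s hs)
    have h2 : (e * c t - e * c s) * conj e = c t - c s := by
      linear_combination (c t - c s) * hee
    rw [h2, Complex.sub_re, Complex.sub_im, hts, sub_self, abs_zero, mul_zero] at h1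
    have h3 : (c t).im = (c s).im := by
      have := abs_nonpos_iff.mp h1
      linarith
    have h4 : c t = c s := Complex.ext hts h3
    by_contra hne
    rcases lt_or_gt_of_ne hne with h | h
    · exact J t s h (by linarith [ht.1, hs.2]) h4
    · exact J s t h (by linarith [hs.1, ht.2]) h4.symm
  have hcre : ContinuousOn (fun t => (c t).re) (Icc (1 / 2 - ε) (1 / 2 + ε)) :=
    (Complex.continuous_re.comp L.cont).continuousOn
  rcases hcre.strictMonoOn_of_injOn_Icc' (by linarith) hinj with hm | hm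
  · obtain ⟨z, n, h1, h2, h3⟩ := gi_core L J hεpos hε2 hm
    exact ⟨_, gi_fin hcl he L hrange h1 h2 h3⟩
  · set c' : ℝ → ℂ := fun t => c (1 - t) with hc'
    have L' : Loop c' := by
      refine ⟨L.cont.comp (by fun_prop), ?_⟩
      intro t
      simp only [hc']
      have h1 := L.per (-t)
      have h2 : 1 - (t + 1) = -t := by ring
      have h3 : 1 - t = -t + 1 := by ring
      rw [h2, h3, h1]
    have J' : Inj c' := by
      intro x y hxy hyx
      exact (J (1 - y) (1 - x) (by linarith) (by linarith)).symm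
    have hrange' : ∀ z, z ∈ range c' ↔ e * z ∈ range f := by
      intro z
      rw [← hrange]
      constructor
      · rintro ⟨t, rfl⟩; exact mem_range_self _
      · rintro ⟨t, rfl⟩; exact ⟨1 - t, by simp only [hc']; congr 1; ring⟩
    have hm' : StrictMonoOn (fun t => (c' t).re) (Icc (1 / 2 - ε) (1 / 2 + ε)) := by
      intro t ht s hs hts
      exact hm ⟨by linarith [hs.2], by linarith [hs.1]⟩ ⟨by linarith [ht.2], by linarith [ht.1]⟩
        (by linarith)
    obtain ⟨z, n, h1, h2, h3⟩ := gi_core L' J' hεpos hε2 hm'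
    exact ⟨_, gi_fin hcl he L' hrange' h1 h2 h3⟩

end Pool.Agent.Helper327_Drum
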