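import Pool.Agent.R227.SA13

set_option autoImplicit false
open MeasureTheory Set Filter ComplexConjugate
open scoped Topology ContDiff

namespace Pool.Agent.Helper327_Drum

open Pool.Agent.TH298.Sch (X er dd SC)
open Pool.Agent.R227.SA

/-
`Wat`, `Dat` are defined in R227.SA10 and R227.SA9.

Plain proof. Let v = 1_Ω (u - c). At x ∈ Ω: v = u - c near x, smooth. At x ∉ closure Ω: v = 0 near x.
At x ∈ frontier Ω ⊆ γ: u x = c, fderiv u x = 0 (γ ⊆ D, u is differentiable at x), x ∉ Ω (Ω open), v x = 0,
and |v y - v x| ≤ |u y - u x| for all y, so v is differentiable at x with fderiv v x = 0. So v is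
differentiable everywhere with fderiv v = 1_Ω fderiv u, which is continuous: at x ∈ Ω and off closure Ω
clear, at x ∈ frontier Ω because fderiv u is continuous near x ∈ D with fderiv u x = 0. This gives c1, out,
outd. loc: take the local smooth representative U of u from `Wat.loc` and shrink the ball to be in Ω.
-/

/-- `u` is continuously differentiable at the points of the domain. -/
lemma wat_cda {D : Set ℂ} {lam : ℝ} {u : ℂ → ℝ} (hu : Wat D lam u) {x : ℂ} (hx : x ∈ D) :
    ContDiffAt ℝ ∞ u x := by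
  obtain ⟨r, hr, W, hW, _, h1⟩ := hu.loc x hx
  refine (hW.sm.contDiffAt (x := x)).congr_of_eventuallyEq ?_
  filter_upwards [Metric.ball_mem_nhds x hr] with y hy
  exact (h1 y hy).1

/-- TARGET: the solution of the overdetermined problem inside a closed curve of critical points. -/
theorem dat_of_curve {D Ω γ : Set ℂ} {lam c : ℝ} {u : ℂ → ℝ} (hu : Wat D lam u) (hΩ : IsOpen Ω)
    (hΩD : Ω ⊆ D) (hγD : γ ⊆ D) (hfr : frontier Ω ⊆ γ) (hc : ∀ x ∈ γ, u x = c)
    (hcr : ∀ x ∈ γ, fderiv ℝ u x = 0) :
    Dat Ω lam c (Ω.indicator fun x => u x - c) := by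
  set v : ℂ → ℝ := Ω.indicator fun x => u x - c with hv
  -- trichotomy
  have htri : ∀ x : ℂ, x ∈ Ω ∨ x ∈ frontier Ω ∨ x ∉ closure Ω := by
    intro x
    by_cases h1 : x ∈ Ω
    · exact Or.inl h1
    · by_cases h2 : x ∈ closure Ω
      · right; left
        rw [hΩ.frontier_eq]
        exact ⟨h2, h1⟩
      · exact Or.inr (Or.inr h2)
  have hev1 : ∀ x ∈ Ω, v =ᶠ[𝓝 x] fun y => u y - c := by
    intro x hx
    filter_upwards [hΩ.mem_nhds hx] with y hy
    simp [hv, hy]
  have hev0 : ∀ x, x ∉ closure Ω → v =ᶠ[𝓝 x] fun _ => 0 := by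
    intro x hx
    filter_upwards [isClosed_closure.isOpen_compl.mem_nhds hx] with y hy
    have : y ∉ Ω := fun h => hy (subset_closure h)
    simp [hv, this]
  have hfrΩ : ∀ x ∈ frontier Ω, x ∉ Ω := by
    intro x hx
    rw [hΩ.frontier_eq] at hx
    exact hx.2
  have hud : ∀ x ∈ D, DifferentiableAt ℝ u x := fun x hx =>
    (wat_cda hu hx).differentiableAt (by simp)
  have hfd : ∀ x ∈ frontier Ω, HasFDerivAt v (0 : ℂ →L[ℝ] ℝ) x := by
    intro x hx
    have hxγ := hfr hx
    have hxD := hγD hxγ
    have hux : HasFDerivAt u (0 : ℂ →L[ℝ] ℝ) x := by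
      have := (hud x hxD).hasFDerivAt
      rwa [hcr x hxγ] at this
    have hvx : v x = 0 := by simp [hv, hfrΩ x hx]
    rw [hasFDerivAt_iff_isLittleO] at hux ⊢
    refine Asymptotics.IsBigO.trans_isLittleO ?_ hux
    refine Asymptotics.IsBigO.of_bound 1 (Eventually.of_forall fun y => ?_)
    rw [one_mul, hvx]
    simp only [sub_zero, ContinuousLinearMap.zero_apply, hc x hxγ]
    by_cases hy : y ∈ Ω
    · simp [hv, hy]
    · simp [hv, hy]
  -- derivative of v
  have hder : ∀ x, HasFDerivAt v (Ω.indicator (fun y => fderiv ℝ u y) x) x := by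
    intro x
    rcases htri x with hx | hx | hx
    · rw [indicator_of_mem hx]
      exact ((hud x (hΩD hx)).hasFDerivAt.sub_const c).congr_of_eventuallyEq (hev1 x hx)
    · rw [indicator_of_notMem (hfrΩ x hx)]
      exact hfd x hx
    · rw [indicator_of_notMem (fun h => hx (subset_closure h))]
      exact (hasFDerivAt_const (0:ℝ) x).congr_of_eventuallyEq (hev0 x hx)
  have hfde : fderiv ℝ v = Ω.indicator (fun y => fderiv ℝ u y) := by
    funext x
    exact (hder x).fderiv
  have hcont : Continuous (Ω.indicator (fun y => fderiv ℝ u y)) := by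
    rw [continuous_iff_continuousAt]
    intro x
    have hcu : ∀ x ∈ D, ContinuousAt (fun y => fderiv ℝ u y) x := fun x hx =>
      ((wat_cda hu hx).fderiv_right (m := 0) (by simp)).continuousAt
    rcases htri x with hx | hx | hx
    · refine (hcu x (hΩD hx)).congr ?_
      filter_upwards [hΩ.mem_nhds hx] with y hy
      simp [hy]
    · have hxγ := hfr hx
      have h0 := hcu x (hγD hxγ)
      unfold ContinuousAt at h0 ⊢
      rw [indicator_of_notMem (hfrΩ x hx)]
      simp only [hcr x hxγ] at h0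
      refine squeeze_zero_norm (a := fun y => ‖fderiv ℝ u y‖) (fun y => ?_) ?_
      · exact norm_indicator_le_norm_self _ _
      · simpa using h0.norm
    · refine (continuousAt_const (y := (0 : ℂ →L[ℝ] ℝ))).congr ?_
      filter_upwards [isClosed_closure.isOpen_compl.mem_nhds hx] with y hy
      have : y ∉ Ω := fun h => hy (subset_closure h)
      simp [this]
  refine ⟨?_, ?_, ?_, ?_⟩
  · rw [contDiff_one_iff_fderiv]
    refine ⟨fun x => (hder x).differentiableAt, ?_⟩
    rw [hfde]
    exact hcont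
  · intro x hx
    simp [hv, hx]
  · intro x hx
    rw [hfde]
    simp [hx]
  · intro x₀ hx₀
    obtain ⟨r, hr, W, hW, hb, h1⟩ := hu.loc x₀ (hΩD hx₀)
    obtain ⟨s, hs, hsb⟩ := Metric.isOpen_iff.1 hΩ x₀ hx₀
    refine ⟨min r s, lt_min hr hs, W, hW, (Metric.ball_subset_ball (min_le_right _ _)).trans hsb, ?_⟩
    intro x hx
    have hxr := Metric.ball_subset_ball (min_le_left r s) hx
    have hxΩ := hsb (Metric.ball_subset_ball (min_le_right r s) hx)
    refine ⟨?_, (h1 x hxr).2⟩
    rw [← (h1 x hxr).1]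
    simp [hv, hxΩ]

end Pool.Agent.Helper327_Drum
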