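import Pool.Agent.TH298.Sch.Rot1
import Pool.Agent.R227.SA19
import Pool.Agent.Helper327_Drum.Fin.K1d
import Pool.Agent.Helper327_Drum.MoreDefs
import Pool.Agent.Helper327_Drum.OpDefs

set_option autoImplicit false
open MeasureTheory Set Filter Topology
open scoped ContDiff InnerProductSpace

namespace Pool.Agent.Helper327_Drum

open Pool.Agent.TH298.Sch (dd SC)
open Pool.Agent.R227.SA (la Wat Dat)

open Pool.Agent.TH298.Sch (X er Lr)
open TH259.NS (B J)

open TH259.NS (B_deriv B_cont B_zero B_ode)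

/-! ### Bessel facts -/

theorem B_diff (k : ℕ) : Differentiable ℝ (B k) := fun s => (B_deriv k s).differentiableAt

theorem B_smooth (k : ℕ) : ContDiff ℝ ∞ (B k) := by
  rw [contDiff_infty]
  intro n
  induction n generalizing k with
  | zero =>
    rw [Nat.cast_zero, contDiff_zero]
    exact B_cont k
  | succ n ih =>
    rw [Nat.cast_succ, contDiff_succ_iff_deriv]
    refine ⟨B_diff k, fun h => by simp at h, ?_⟩
    have : deriv (B k) = fun s => -B (k + 1) s := funext fun s => (B_deriv k s).deriv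
    rw [this]
    exact (ih (k + 1)).neg

/-- the functions `B 0` and `B 1` have no common positive zero -/
theorem no_common {z : ℝ} (hz : 0 < z) (h0 : B 0 z = 0) (h1 : B 1 z = 0) : False := by
  set h : ℝ → ℝ := fun s => s * B 0 s ^ 2 + s ^ 2 * B 1 s ^ 2 with hh
  have hd : ∀ s, HasDerivAt h (B 0 s ^ 2) s := by
    intro s
    have e0 := B_deriv 0 s
    have e1 := B_deriv 1 s
    have e2 := B_ode 0 s
    simp only [zero_add] at e0
    norm_num at e1 e2
    have d1 := ((hasDerivAt_id s).mul (e0.pow 2)).add (((hasDerivAt_id s).pow 2).mul (e1.pow 2))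
    have e3 : h = (id * B 0 ^ 2 + id ^ 2 * B 1 ^ 2) := by
      funext t
      simp [hh]
    rw [e3]
    convert! d1 using 1
    have e4 : s * B 2 s = B 1 s - B 0 s := by linarith
    simp only [Pi.pow_apply, id, Nat.cast_ofNat]
    linear_combination (2 * s * B 1 s) * e4
  have hmono : Monotone h := by
    refine monotone_of_deriv_nonneg (fun s => (hd s).differentiableAt) fun s => ?_
    rw [(hd s).deriv]
    exact sq_nonneg _
  have hz0 : h z = 0 := by
    simp only [hh, h0, h1]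
    ring
  have h00 : h 0 = 0 := by simp [hh]
  have hzero : ∀ s ∈ Ioo 0 z, B 0 s = 0 := by
    intro s hs
    have e1 : h =ᶠ[𝓝 s] fun _ => 0 := by
      filter_upwards [Ioo_mem_nhds hs.1 hs.2] with t ht
      refine le_antisymm ?_ ?_
      · have := hmono ht.2.le
        linarith
      · have := hmono ht.1.le
        linarith
    have e2 := (hd s).unique ((hasDerivAt_const s (0 : ℝ)).congr_of_eventuallyEq e1)
    exact pow_eq_zero_iff (two_ne_zero) |>.1 e2
  have hB0 : B 0 0 = 1 := by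
    rw [B_zero]
    norm_num
  have hlim : Tendsto (B 0) (𝓝[>] 0) (𝓝 (B 0 0)) :=
    ((B_cont 0).tendsto 0).mono_left nhdsWithin_le_nhds
  have hlim' : Tendsto (B 0) (𝓝[>] 0) (𝓝 0) := by
    refine tendsto_const_nhds.congr' ?_
    filter_upwards [Ioo_mem_nhdsGT hz] with s hs
    exact (hzero s hs).symm
  have := tendsto_nhds_unique hlim hlim'
  rw [hB0] at this
  exact one_ne_zero this

/-- a zero of `B 0` below a zero of `B 1` -/
theorem exists_zero0 {z : ℝ} (hz : 0 < z) (h1 : B 1 z = 0) : ∃ s ∈ Ioo 0 z, B 0 s = 0 := by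
  have hd : ∀ s, HasDerivAt (fun s => s * B 1 s) (B 0 s) s := by
    intro s
    have e1 := B_deriv 1 s
    have e2 := B_ode 0 s
    norm_num at e1 e2
    have d1 := (hasDerivAt_id s).mul e1
    convert! d1 using 1
    simp only [id]
    linarith
  obtain ⟨c, hc, hc'⟩ := exists_hasDerivAt_eq_zero (f := fun s => s * B 1 s) (f' := B 0) hz
    (continuous_id.mul (B_cont 1)).continuousOn (by simp [h1]) (fun x _ => hd x)
  exact ⟨c, hc, hc'⟩

/-- a zero of `B 2` below a zero of `B 0` which is not the first -/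
theorem exists_zero2 {z₀ z₁ : ℝ} (hz₁ : 0 < z₁) (hz : z₁ < z₀) (h0 : B 0 z₀ = 0) (h1 : B 1 z₁ = 0) :
    ∃ s ∈ Ioo 0 z₀, B 2 s = 0 := by
  by_contra hcon
  push Not at hcon
  have hz₀ : 0 < z₀ := hz₁.trans hz
  have hB2 : 0 < B 2 0 := by
    rw [B_zero]
    positivity
  have hpos : ∀ s ∈ Ico 0 z₀, 0 < B 2 s := by
    intro s hs
    by_contra hneg
    push Not at hneg
    have hs0 : 0 < s := by
      rcases hs.1.eq_or_lt with h | h
      · rw [← h] at hneg
        linarith
      · exact h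
    have h3 := intermediate_value_Icc' hs0.le (B_cont 2).continuousOn (f := B 2)
    obtain ⟨t, ht, ht0⟩ := h3 ⟨hneg, hB2.le⟩
    have ht1 : 0 < t := by
      rcases ht.1.eq_or_lt with h | h
      · rw [← h] at ht0
        linarith
      · exact h
    exact hcon t ⟨ht1, ht.2.trans_lt hs.2⟩ ht0
  have hanti : StrictAntiOn (B 1) (Icc 0 z₀) := by
    refine strictAntiOn_of_deriv_neg (convex_Icc 0 z₀) (B_cont 1).continuousOn fun s hs => ?_
    rw [interior_Icc] at hs
    rw [(B_deriv 1 s).deriv]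
    have := hpos s ⟨hs.1.le, hs.2⟩
    norm_num
    exact this
  have h3 : B 1 z₀ < B 1 z₁ := hanti ⟨hz₁.le, hz.le⟩ ⟨hz₀.le, le_rfl⟩ hz
  have h4 : 0 ≤ B 2 z₀ := by
    have hlim : Tendsto (B 2) (𝓝[<] z₀) (𝓝 (B 2 z₀)) :=
      ((B_cont 2).tendsto z₀).mono_left nhdsWithin_le_nhds
    refine ge_of_tendsto hlim ?_
    filter_upwards [Ioo_mem_nhdsLT hz₀] with s hs
    exact (hpos s ⟨hs.1.le, hs.2⟩).le
  have h5 := B_ode 0 z₀
  norm_num at h5
  nlinarith

/-! ### solutions of the Helmholtz equation -/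

/-- the argument -/
noncomputable def sq (p : ℂ) (lam : ℝ) (x : ℂ) : ℝ :=
  lam * ((x - p).re ^ 2 + (x - p).im ^ 2) / 4

theorem re_fd (p x : ℂ) : HasFDerivAt (fun x : ℂ => (x - p).re) Complex.reCLM x := by
  have h : HasFDerivAt (fun x : ℂ => x - p) (ContinuousLinearMap.id ℝ ℂ) x :=
    (hasFDerivAt_id x).sub_const p
  exact Complex.reCLM.hasFDerivAt.comp x h

theorem im_fd (p x : ℂ) : HasFDerivAt (fun x : ℂ => (x - p).im) Complex.imCLM x := by
  have h : HasFDerivAt (fun x : ℂ => x - p) (ContinuousLinearMap.id ℝ ℂ) x :=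
    (hasFDerivAt_id x).sub_const p
  exact Complex.imCLM.hasFDerivAt.comp x h

theorem re_sm (p : ℂ) : ContDiff ℝ ∞ (fun x : ℂ => (x - p).re) :=
  Complex.reCLM.contDiff.comp (contDiff_id.sub contDiff_const)

theorem im_sm (p : ℂ) : ContDiff ℝ ∞ (fun x : ℂ => (x - p).im) :=
  Complex.imCLM.contDiff.comp (contDiff_id.sub contDiff_const)

theorem sq_sm (p : ℂ) (lam : ℝ) : ContDiff ℝ ∞ (sq p lam) := by
  unfold sq
  exact (contDiff_const.mul (((re_sm p).pow 2).add ((im_sm p).pow 2))).div_const 4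

theorem dd_of {f : ℂ → ℝ} {T : ℂ →L[ℝ] ℝ} {x : ℂ} (h : HasFDerivAt f T x) (v : ℂ) :
    dd v f x = T v := by
  unfold dd
  rw [h.fderiv]

theorem dd_mul'' {f g : ℂ → ℝ} (hf : Differentiable ℝ f) (hg : Differentiable ℝ g) (v x : ℂ) :
    dd v (fun x => f x * g x) x = f x * dd v g x + g x * dd v f x := by
  have h := (hf x).hasFDerivAt.mul (hg x).hasFDerivAt
  rw [show (fun x => f x * g x) = f * g from rfl, dd_of h]
  simp [dd]

theorem dd_sub'' {f g : ℂ → ℝ} (hf : Differentiable ℝ f) (hg : Differentiable ℝ g) (v x : ℂ) :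
    dd v (fun x => f x - g x) x = dd v f x - dd v g x := by
  unfold dd
  rw [fderiv_fun_sub (hf x) (hg x)]
  rfl

theorem dd_add'' {f g : ℂ → ℝ} (hf : Differentiable ℝ f) (hg : Differentiable ℝ g) (v x : ℂ) :
    dd v (fun x => f x + g x) x = dd v f x + dd v g x := by
  unfold dd
  rw [fderiv_fun_add (hf x) (hg x)]
  rfl

theorem di_mul {f g : ℂ → ℝ} (hf : Differentiable ℝ f) (hg : Differentiable ℝ g) :
    Differentiable ℝ (fun x => f x * g x) := hf.mul hg

theorem di_add {f g : ℂ → ℝ} (hf : Differentiable ℝ f) (hg : Differentiable ℝ g) :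
    Differentiable ℝ (fun x => f x + g x) := hf.add hg

theorem dd_const'' (c : ℝ) (v x : ℂ) : dd v (fun _ => c) x = 0 := by
  unfold dd
  simp

theorem dd_re (p v x : ℂ) : dd v (fun x => (x - p).re) x = v.re := dd_of (re_fd p x) v

theorem dd_im (p v x : ℂ) : dd v (fun x => (x - p).im) x = v.im := dd_of (im_fd p x) v

theorem re_di (p : ℂ) : Differentiable ℝ (fun x : ℂ => (x - p).re) := fun x =>
  (re_fd p x).differentiableAt

theorem im_di (p : ℂ) : Differentiable ℝ (fun x : ℂ => (x - p).im) := fun x =>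
  (im_fd p x).differentiableAt

theorem dd_sq (p : ℂ) (lam : ℝ) (v x : ℂ) :
    dd v (sq p lam) x = lam / 2 * ((x - p).re * v.re + (x - p).im * v.im) := by
  have e : sq p lam = fun x => (lam / 4) * ((x - p).re * (x - p).re +
      (x - p).im * (x - p).im) := by
    funext y
    unfold sq
    ring
  have d1 : Differentiable ℝ (fun x : ℂ => (x - p).re * (x - p).re) := di_mul (re_di p) (re_di p)
  have d2 : Differentiable ℝ (fun x : ℂ => (x - p).im * (x - p).im) := di_mul (im_di p) (im_di p)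
  rw [e, dd_mul'' (differentiable_const _) (di_add d1 d2), dd_add'' d1 d2, dd_const'',
    dd_mul'' (re_di p) (re_di p), dd_mul'' (im_di p) (im_di p), dd_re, dd_im]
  ring

theorem dd_B (p : ℂ) (lam : ℝ) (k : ℕ) (v x : ℂ) :
    dd v (fun x => B k (sq p lam x)) x = -(B (k + 1) (sq p lam x) * dd v (sq p lam) x) := by
  have h1 : HasFDerivAt (sq p lam) (fderiv ℝ (sq p lam) x) x :=
    (((sq_sm p lam).differentiable (by simp)) x).hasFDerivAt
  have h2 := (B_deriv k (sq p lam x)).comp_hasFDerivAt x h1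
  rw [dd_of (f := fun x => B k (sq p lam x)) h2 v]
  simp [dd]

theorem Bs_di (p : ℂ) (lam : ℝ) (k : ℕ) : Differentiable ℝ (fun x => B k (sq p lam x)) :=
  (B_diff k).comp ((sq_sm p lam).differentiable (by simp))

theorem helm {p : ℂ} {lam : ℝ} {ν : ℕ} {P P1 P2 : ℂ → ℝ} (dP : Differentiable ℝ P)
    (dP1 : Differentiable ℝ P1) (dP2 : Differentiable ℝ P2) (h1 : ∀ x, dd 1 P x = P1 x)
    (h2 : ∀ x, dd Complex.I P x = P2 x) (h3 : ∀ x, dd 1 P1 x + dd Complex.I P2 x = 0)
    (h4 : ∀ x, (x - p).re * P1 x + (x - p).im * P2 x = ν * P x) (x : ℂ) :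
    la (fun x => P x * B ν (sq p lam x)) x = -(lam * (P x * B ν (sq p lam x))) := by
  have e1 : dd 1 (fun x => P x * B ν (sq p lam x)) = fun x => P1 x * B ν (sq p lam x) -
      (P x * (lam / 2 * (x - p).re)) * B (ν + 1) (sq p lam x) := by
    funext y
    rw [dd_mul'' dP (Bs_di p lam ν), dd_B, dd_sq, h1]
    simp only [Complex.one_re, Complex.one_im]
    ring
  have e2 : dd Complex.I (fun x => P x * B ν (sq p lam x)) = fun x => P2 x * B ν (sq p lam x) -
      (P x * (lam / 2 * (x - p).im)) * B (ν + 1) (sq p lam x) := by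
    funext y
    rw [dd_mul'' dP (Bs_di p lam ν), dd_B, dd_sq, h2]
    simp only [Complex.I_re, Complex.I_im]
    ring
  unfold la
  have c1 : Differentiable ℝ fun x : ℂ => lam / 2 * (x - p).re := (re_di p).const_mul _
  have c2 : Differentiable ℝ fun x : ℂ => lam / 2 * (x - p).im := (im_di p).const_mul _
  have c1' : ∀ v x, dd v (fun x : ℂ => lam / 2 * (x - p).re) x = lam / 2 * v.re := by
    intro v x
    rw [dd_mul'' (differentiable_const _) (re_di p), dd_re, dd_const'']
    ring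
  have c2' : ∀ v x, dd v (fun x : ℂ => lam / 2 * (x - p).im) x = lam / 2 * v.im := by
    intro v x
    rw [dd_mul'' (differentiable_const _) (im_di p), dd_im, dd_const'']
    ring
  rw [e1, e2, dd_sub'' (di_mul dP1 (Bs_di p lam ν)) (di_mul (di_mul dP c1) (Bs_di p lam (ν + 1))),
    dd_sub'' (di_mul dP2 (Bs_di p lam ν)) (di_mul (di_mul dP c2) (Bs_di p lam (ν + 1))),
    dd_mul'' dP1 (Bs_di p lam ν), dd_mul'' dP2 (Bs_di p lam ν),
    dd_mul'' (di_mul dP c1) (Bs_di p lam (ν + 1)), dd_mul'' (di_mul dP c2) (Bs_di p lam (ν + 1)),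
    dd_mul'' dP c1, dd_mul'' dP c2, c1', c2', dd_B, dd_B, dd_B, dd_B, dd_sq, dd_sq, h1, h2]
  simp only [Complex.one_re, Complex.one_im, Complex.I_re, Complex.I_im]
  have h5 := B_ode ν (sq p lam x)
  have h6 := h3 x
  have h7 := h4 x
  have h8 : lam * ((x - p).re ^ 2 + (x - p).im ^ 2) = 4 * sq p lam x := by
    unfold sq
    ring
  linear_combination (B ν (sq p lam x)) * h6 - lam * B (ν + 1) (sq p lam x) * h7 +
    lam * P x * h5 + lam / 4 * P x * B (ν + 2) (sq p lam x) * h8

theorem sq_eq (p : ℂ) (lam : ℝ) (x : ℂ) : sq p lam x = lam * ‖x - p‖ ^ 2 / 4 := by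
  unfold sq
  rw [← Complex.normSq_eq_norm_sq, Complex.normSq_apply]
  ring

/-- the function cut off at a circle -/
noncomputable def cut (p : ℂ) (a : ℝ) (f : ℂ → ℝ) (x : ℂ) : ℝ := if ‖x - p‖ ≤ a then f x else 0

theorem cut_of_le {p : ℂ} {a : ℝ} {f : ℂ → ℝ} {x : ℂ} (h : ‖x - p‖ ≤ a) : cut p a f x = f x :=
  if_pos h

theorem cut_of_lt {p : ℂ} {a : ℝ} {f : ℂ → ℝ} {x : ℂ} (h : a < ‖x - p‖) : cut p a f x = 0 :=
  if_neg (not_le.2 h)

theorem k3_la_congr {f g : ℂ → ℝ} {x : ℂ} (h : f =ᶠ[𝓝 x] g) : la f x = la g x := by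
  have e : ∀ v, dd v (dd v f) x = dd v (dd v g) x := by
    intro v
    have h1 : dd v f =ᶠ[𝓝 x] dd v g := by
      filter_upwards [h.fderiv (𝕜 := ℝ)] with y hy
      unfold dd
      rw [hy]
    unfold dd at h1 ⊢
    rw [h1.fderiv_eq]
  unfold la
  rw [e, e]

theorem cut_wat {p : ℂ} {lam a : ℝ} (ha : 0 < a) {ν : ℕ} {P P1 P2 : ℂ → ℝ}
    (sP : ContDiff ℝ ∞ P) (dP1 : Differentiable ℝ P1) (dP2 : Differentiable ℝ P2)
    (h1 : ∀ x, dd 1 P x = P1 x) (h2 : ∀ x, dd Complex.I P x = P2 x)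
    (h3 : ∀ x, dd 1 P1 x + dd Complex.I P2 x = 0)
    (h4 : ∀ x, (x - p).re * P1 x + (x - p).im * P2 x = ν * P x)
    (hz : B ν (lam * a ^ 2 / 4) = 0) :
    Wat (Metric.ball p a) lam (cut p a (fun x => P x * B ν (sq p lam x))) := by
  have hsm : ContDiff ℝ ∞ (fun x => P x * B ν (sq p lam x)) :=
    sP.mul ((B_smooth ν).comp (sq_sm p lam))
  have hzero : ∀ x, ‖x - p‖ = a → P x * B ν (sq p lam x) = 0 := by
    intro x hx
    rw [sq_eq, hx, hz, mul_zero]
  refine ⟨?_, ?_, ?_⟩
  · exact Continuous.if_le hsm.continuous continuous_const (by fun_prop) continuous_const hzero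
  · intro x hx
    rw [Metric.mem_ball, dist_eq_norm, not_lt] at hx
    rcases hx.eq_or_lt with h | h
    · rw [cut_of_le h.symm.le]
      exact hzero x h.symm
    · exact cut_of_lt h
  · intro x₀ hx₀
    rw [Metric.mem_ball] at hx₀
    let χ : ContDiffBump p := ⟨a, a + 1, ha, by linarith⟩
    have hsub : Metric.ball x₀ (a - dist x₀ p) ⊆ Metric.ball p a :=
      Metric.ball_subset_ball' (by linarith)
    refine ⟨a - dist x₀ p, by linarith, fun x => χ x * (P x * B ν (sq p lam x)),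
      ⟨χ.contDiff.mul hsm, χ.hasCompactSupport.mul_right⟩, hsub, fun x hx => ?_⟩
    have hx' : x ∈ Metric.ball p a := hsub hx
    have hev : (fun x => χ x * (P x * B ν (sq p lam x))) =ᶠ[𝓝 x]
        fun x => P x * B ν (sq p lam x) := by
      filter_upwards [Metric.isOpen_ball.mem_nhds hx'] with y hy
      rw [χ.one_of_mem_closedBall (Metric.ball_subset_closedBall hy), one_mul]
    have hW : χ x * (P x * B ν (sq p lam x)) = P x * B ν (sq p lam x) := hev.self_of_nhds
    refine ⟨?_, ?_⟩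
    · rw [cut_of_le (by
        rw [Metric.mem_ball, dist_eq_norm] at hx'
        exact hx'.le)]
      exact hW.symm
    · change la _ x = -(lam * (χ x * (P x * B ν (sq p lam x))))
      rw [k3_la_congr hev, hW]
      exact helm (sP.differentiable (by simp)) dP1 dP2 h1 h2 h3 h4 x

theorem wat0 {p : ℂ} {lam a : ℝ} (ha : 0 < a) (hz : B 0 (lam * a ^ 2 / 4) = 0) :
    Wat (Metric.ball p a) lam (cut p a (fun x => 1 * B 0 (sq p lam x))) :=
  cut_wat (P := fun _ => 1) (P1 := fun _ => 0) (P2 := fun _ => 0) ha contDiff_const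
    (differentiable_const _) (differentiable_const _) (fun x => dd_const'' _ _ _)
    (fun x => dd_const'' _ _ _) (fun x => by rw [dd_const'', dd_const'', add_zero])
    (fun x => by simp) hz

theorem wat1 {p : ℂ} {lam a : ℝ} (ha : 0 < a) (hz : B 1 (lam * a ^ 2 / 4) = 0) :
    Wat (Metric.ball p a) lam (cut p a (fun x => (x - p).re * B 1 (sq p lam x))) :=
  cut_wat (P := fun x => (x - p).re) (P1 := fun _ => 1) (P2 := fun _ => 0) ha (re_sm p)
    (differentiable_const _) (differentiable_const _) (fun x => by rw [dd_re, Complex.one_re])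
    (fun x => by rw [dd_re, Complex.I_re]) (fun x => by rw [dd_const'', dd_const'', add_zero])
    (fun x => by simp) hz

theorem wat1' {p : ℂ} {lam a : ℝ} (ha : 0 < a) (hz : B 1 (lam * a ^ 2 / 4) = 0) :
    Wat (Metric.ball p a) lam (cut p a (fun x => (x - p).im * B 1 (sq p lam x))) :=
  cut_wat (P := fun x => (x - p).im) (P1 := fun _ => 0) (P2 := fun _ => 1) ha (im_sm p)
    (differentiable_const _) (differentiable_const _) (fun x => by rw [dd_im, Complex.one_im])
    (fun x => by rw [dd_im, Complex.I_im]) (fun x => by rw [dd_const'', dd_const'', add_zero])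
    (fun x => by simp) hz

theorem wat2 {p : ℂ} {lam a : ℝ} (ha : 0 < a) (hz : B 2 (lam * a ^ 2 / 4) = 0) :
    Wat (Metric.ball p a) lam
      (cut p a (fun x => ((x - p).re * (x - p).re - (x - p).im * (x - p).im) *
        B 2 (sq p lam x))) :=
  cut_wat (P := fun x => (x - p).re * (x - p).re - (x - p).im * (x - p).im)
    (P1 := fun x => 2 * (x - p).re) (P2 := fun x => (-2) * (x - p).im) ha
    (((re_sm p).mul (re_sm p)).sub ((im_sm p).mul (im_sm p)))
    ((re_di p).const_mul _) ((im_di p).const_mul _)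
    (fun x => by
      rw [dd_sub'' (di_mul (re_di p) (re_di p)) (di_mul (im_di p) (im_di p)),
        dd_mul'' (re_di p) (re_di p), dd_mul'' (im_di p) (im_di p), dd_re, dd_im, Complex.one_re,
        Complex.one_im]
      ring)
    (fun x => by
      rw [dd_sub'' (di_mul (re_di p) (re_di p)) (di_mul (im_di p) (im_di p)),
        dd_mul'' (re_di p) (re_di p), dd_mul'' (im_di p) (im_di p), dd_re, dd_im, Complex.I_re,
        Complex.I_im]
      ring)
    (fun x => by
      rw [dd_mul'' (differentiable_const _) (re_di p), dd_mul'' (differentiable_const _) (im_di p),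
        dd_const'', dd_const'', dd_re, dd_im, Complex.one_re, Complex.I_im]
      ring)
    (fun x => by
      push_cast
      ring) hz

theorem wat2' {p : ℂ} {lam a : ℝ} (ha : 0 < a) (hz : B 2 (lam * a ^ 2 / 4) = 0) :
    Wat (Metric.ball p a) lam
      (cut p a (fun x => (2 * ((x - p).re * (x - p).im)) * B 2 (sq p lam x))) :=
  cut_wat (P := fun x => 2 * ((x - p).re * (x - p).im))
    (P1 := fun x => 2 * (x - p).im) (P2 := fun x => 2 * (x - p).re) ha
    (contDiff_const.mul ((re_sm p).mul (im_sm p)))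
    ((im_di p).const_mul _) ((re_di p).const_mul _)
    (fun x => by
      rw [dd_mul'' (differentiable_const _) (di_mul (re_di p) (im_di p)),
        dd_mul'' (re_di p) (im_di p), dd_const'', dd_re, dd_im, Complex.one_re, Complex.one_im]
      ring)
    (fun x => by
      rw [dd_mul'' (differentiable_const _) (di_mul (re_di p) (im_di p)),
        dd_mul'' (re_di p) (im_di p), dd_const'', dd_re, dd_im, Complex.I_re, Complex.I_im]
      ring)
    (fun x => by
      rw [dd_mul'' (differentiable_const _) (re_di p), dd_mul'' (differentiable_const _) (im_di p),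
        dd_const'', dd_const'', dd_re, dd_im, Complex.one_im, Complex.I_re]
      ring)
    (fun x => by
      push_cast
      ring) hz

theorem exists_ne {a b : ℝ} (ha : 0 ≤ a) (hab : a < b) : ∃ z ∈ Ioo a b, B 0 z ≠ 0 := by
  by_contra hcon
  push Not at hcon
  set c := (a + b) / 2 with hc
  have hcm : c ∈ Ioo a b := ⟨by rw [hc]; linarith, by rw [hc]; linarith⟩
  have h1 : B 0 =ᶠ[𝓝 c] fun _ => 0 := by
    filter_upwards [Ioo_mem_nhds hcm.1 hcm.2] with z hz
    exact hcon z hz
  have h2 := (B_deriv 0 c).unique ((hasDerivAt_const c (0 : ℝ)).congr_of_eventuallyEq h1)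
  exact no_common (ha.trans_lt hcm.1) (hcon c hcm) (by simpa using h2)

/-- TARGET: the index bound for a disc. -/
theorem radial_index {p : ℂ} {r ρ lam : ℝ} (hr : 0 < r) (hrρ : r < ρ) (hlam : 0 < lam)
    (h0 : B 0 (lam * ρ ^ 2 / 4) = 0) (h1 : B 1 (lam * r ^ 2 / 4) = 0) :
    dirichletEigenvalue 5 (Metric.ball p ρ) < lam := by
  have hρ : 0 < ρ := hr.trans hrρ
  have hradius : ∀ {z b : ℝ}, 0 < z → 0 < b → z < lam * b ^ 2 / 4 →
      ∃ s, 0 < s ∧ s < b ∧ lam * s ^ 2 / 4 = z := by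
    intro z b hz hb hzb
    refine ⟨√(4 * z / lam), by positivity, ?_, ?_⟩
    · rw [Real.sqrt_lt' hb, div_lt_iff₀ hlam]
      linarith
    · rw [Real.sq_sqrt (by positivity)]
      field_simp
  have hz₁ : 0 < lam * r ^ 2 / 4 := by positivity
  have hz₁₀ : lam * r ^ 2 / 4 < lam * ρ ^ 2 / 4 := by
    have : r ^ 2 < ρ ^ 2 := pow_lt_pow_left₀ hrρ hr.le two_ne_zero
    have := mul_lt_mul_of_pos_left this hlam
    linarith
  obtain ⟨za, hza, hza0⟩ := exists_zero0 hz₁ h1
  obtain ⟨zb, hzb, hzb0⟩ := exists_zero2 hz₁ hz₁₀ h0 h1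
  obtain ⟨s, hs, hsr, hsz⟩ := hradius hza.1 hr hza.2
  obtain ⟨t, ht, htρ, htz⟩ := hradius hzb.1 hρ hzb.2
  have hs0 : B 0 (lam * s ^ 2 / 4) = 0 := by rw [hsz]; exact hza0
  have ht0 : B 2 (lam * t ^ 2 / 4) = 0 := by rw [htz]; exact hzb0
  let rad : Fin 6 → ℝ := ![ρ, s, r, r, t, t]
  let φ : Fin 6 → ℂ → ℝ := ![cut p ρ (fun x => 1 * B 0 (sq p lam x)),
    cut p s (fun x => 1 * B 0 (sq p lam x)),
    cut p r (fun x => (x - p).re * B 1 (sq p lam x)),
    cut p r (fun x => (x - p).im * B 1 (sq p lam x)),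
    cut p t (fun x => ((x - p).re * (x - p).re - (x - p).im * (x - p).im) * B 2 (sq p lam x)),
    cut p t (fun x => (2 * ((x - p).re * (x - p).im)) * B 2 (sq p lam x))]
  have hcut : ∀ i, ∃ f, φ i = cut p (rad i) f := by
    intro i
    fin_cases i
    · exact ⟨_, rfl⟩
    · exact ⟨_, rfl⟩
    · exact ⟨_, rfl⟩
    · exact ⟨_, rfl⟩
    · exact ⟨_, rfl⟩
    · exact ⟨_, rfl⟩
  have hwat : ∀ i, Wat (Metric.ball p (rad i)) lam (φ i) := by
    intro i
    fin_cases i
    · exact wat0 hρ h0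
    · exact wat0 hs hs0
    · exact wat1 hr h1
    · exact wat1' hr h1
    · exact wat2 ht ht0
    · exact wat2' ht ht0
  set m : ℝ := max r t with hm
  have hmρ : m < ρ := max_lt hrρ htρ
  have hm0 : 0 < m := hr.trans_le (le_max_left _ _)
  have hradm : ∀ i, i ≠ 0 → rad i ≤ m := by
    intro i hi
    fin_cases i
    · exact absurd rfl hi
    · exact hsr.le.trans (le_max_left _ _)
    · exact le_max_left _ _
    · exact le_max_left _ _
    · exact le_max_right _ _
    · exact le_max_right _ _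
  have hradρ : ∀ i, rad i ≤ ρ := by
    intro i
    by_cases hi : i = 0
    · rw [hi]
      exact le_rfl
    · exact (hradm i hi).trans hmρ.le
  have hval : ∀ (w : ℂ) (lam : ℝ), sq p lam (p + w) = lam * (w.re ^ 2 + w.im ^ 2) / 4 := by
    intro w lam
    unfold sq
    rw [add_sub_cancel_left]
  have hfar : ∀ i, i ≠ 0 → ∀ x, m < ‖x - p‖ → φ i x = 0 := by
    intro i hi x hx
    obtain ⟨f, hf⟩ := hcut i
    rw [hf]
    exact cut_of_lt ((hradm i hi).trans_lt hx)
  have hli : LinearIndependent ℝ φ := by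
    rw [Fintype.linearIndependent_iff]
    intro c hc
    have hsum : ∀ x, c 0 * φ 0 x + c 1 * φ 1 x + c 2 * φ 2 x + c 3 * φ 3 x + c 4 * φ 4 x +
        c 5 * φ 5 x = 0 := by
      intro x
      have := congrFun hc x
      simpa [Fin.sum_univ_six] using this
    have hc0 : c 0 = 0 := by
      have hlt : lam * m ^ 2 / 4 < lam * ρ ^ 2 / 4 := by
        have : m ^ 2 < ρ ^ 2 := pow_lt_pow_left₀ hmρ hm0.le two_ne_zero
        have := mul_lt_mul_of_pos_left this hlam
        linarith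
      obtain ⟨z, hz, hz0⟩ := exists_ne (by positivity) hlt
      have hzp : 0 < z := lt_of_le_of_lt (by positivity) hz.1
      obtain ⟨τ, hτ, hτρ, hτz⟩ := hradius hzp hρ hz.2
      have hmτ : m < τ := by
        have h2 : lam * m ^ 2 / 4 < lam * τ ^ 2 / 4 := by
          rw [hτz]
          exact hz.1
        have h3 : m ^ 2 < τ ^ 2 := by
          have h4 : lam * m ^ 2 < lam * τ ^ 2 := by linarith
          exact lt_of_mul_lt_mul_left h4 hlam.le
        exact lt_of_pow_lt_pow_left₀ 2 hτ.le h3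
      have hn : ‖(p + (τ : ℂ)) - p‖ = τ := by
        rw [add_sub_cancel_left, Complex.norm_real, Real.norm_eq_abs, abs_of_pos hτ]
      have h2 := hsum (p + (τ : ℂ))
      rw [hfar 1 (by decide) _ (by rw [hn]; exact hmτ), hfar 2 (by decide) _ (by rw [hn]; exact hmτ),
        hfar 3 (by decide) _ (by rw [hn]; exact hmτ), hfar 4 (by decide) _ (by rw [hn]; exact hmτ),
        hfar 5 (by decide) _ (by rw [hn]; exact hmτ)] at h2
      have h3 : φ 0 (p + (τ : ℂ)) = B 0 z := by
        change cut p ρ (fun x => 1 * B 0 (sq p lam x)) _ = _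
        rw [cut_of_le (by rw [hn]; exact hτρ.le), one_mul, sq_eq, hn, hτz]
      rw [h3] at h2
      simp only [mul_zero, add_zero] at h2
      exact (mul_eq_zero.1 h2).resolve_right hz0
    -- small radius
    have hlimt : ∀ k : ℝ, Tendsto (fun τ : ℝ => lam * (k * τ ^ 2) / 4) (𝓝[>] 0) (𝓝 0) := by
      intro k
      have : Continuous fun τ : ℝ => lam * (k * τ ^ 2) / 4 := by fun_prop
      have h2 := (this.tendsto 0).mono_left (nhdsWithin_le_nhds (s := Ioi 0))
      simpa using h2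
    have hne : ∀ (k : ℝ) (j : ℕ), ∀ᶠ τ in 𝓝[>] (0 : ℝ), B j (lam * (k * τ ^ 2) / 4) ≠ 0 := by
      intro k j
      have h2 : Tendsto (fun τ : ℝ => B j (lam * (k * τ ^ 2) / 4)) (𝓝[>] 0) (𝓝 (B j 0)) :=
        ((B_cont j).tendsto 0).comp (hlimt k)
      refine h2.eventually_ne ?_
      rw [B_zero]
      positivity
    have hsm : ∀ b : ℝ, 0 < b → ∀ᶠ τ in 𝓝[>] (0 : ℝ), τ < b := fun b hb =>
      (eventually_lt_nhds hb).filter_mono nhdsWithin_le_nhds
    obtain ⟨τ, hb1, hb2, hb3, hts, htr, htt, hτ⟩ := ((hne 1 1).and ((hne 1 2).and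
      ((hne 2 2).and ((hsm (s / 2) (by positivity)).and ((hsm (r / 2) (by positivity)).and
      ((hsm (t / 2) (by positivity)).and self_mem_nhdsWithin)))))).exists
    have hτ0 : 0 < τ := hτ
    have hτρ : τ < ρ / 2 := by linarith
    have ev : ∀ w : ℂ, ‖w‖ ≤ 2 * τ →
        φ 0 (p + w) = B 0 (lam * (w.re ^ 2 + w.im ^ 2) / 4) ∧
        φ 1 (p + w) = B 0 (lam * (w.re ^ 2 + w.im ^ 2) / 4) ∧
        φ 2 (p + w) = w.re * B 1 (lam * (w.re ^ 2 + w.im ^ 2) / 4) ∧
        φ 3 (p + w) = w.im * B 1 (lam * (w.re ^ 2 + w.im ^ 2) / 4) ∧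
        φ 4 (p + w) = (w.re * w.re - w.im * w.im) * B 2 (lam * (w.re ^ 2 + w.im ^ 2) / 4) ∧
        φ 5 (p + w) = (2 * (w.re * w.im)) * B 2 (lam * (w.re ^ 2 + w.im ^ 2) / 4) := by
      intro w hw
      have hn : ‖(p + w) - p‖ ≤ 2 * τ := by
        rw [add_sub_cancel_left]
        exact hw
      refine ⟨?_, ?_, ?_, ?_, ?_, ?_⟩
      · change cut p ρ (fun x => 1 * B 0 (sq p lam x)) _ = _
        rw [cut_of_le (by linarith), hval, one_mul]
      · change cut p s (fun x => 1 * B 0 (sq p lam x)) _ = _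
        rw [cut_of_le (by linarith), hval, one_mul]
      · change cut p r (fun x => (x - p).re * B 1 (sq p lam x)) _ = _
        rw [cut_of_le (by linarith), hval, add_sub_cancel_left]
      · change cut p r (fun x => (x - p).im * B 1 (sq p lam x)) _ = _
        rw [cut_of_le (by linarith), hval, add_sub_cancel_left]
      · change cut p t (fun x => ((x - p).re * (x - p).re - (x - p).im * (x - p).im) *
          B 2 (sq p lam x)) _ = _
        rw [cut_of_le (by linarith), hval, add_sub_cancel_left]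
      · change cut p t (fun x => (2 * ((x - p).re * (x - p).im)) * B 2 (sq p lam x)) _ = _
        rw [cut_of_le (by linarith), hval, add_sub_cancel_left]
    have key : ∀ a b : ℝ, ‖(⟨a, b⟩ : ℂ)‖ ≤ 2 * τ →
        c 1 * B 0 (lam * (a ^ 2 + b ^ 2) / 4) + c 2 * (a * B 1 (lam * (a ^ 2 + b ^ 2) / 4)) +
        c 3 * (b * B 1 (lam * (a ^ 2 + b ^ 2) / 4)) +
        c 4 * ((a * a - b * b) * B 2 (lam * (a ^ 2 + b ^ 2) / 4)) +
        c 5 * ((2 * (a * b)) * B 2 (lam * (a ^ 2 + b ^ 2) / 4)) = 0 := by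
      intro a b hab
      obtain ⟨e0, e1, e2, e3, e4, e5⟩ := ev ⟨a, b⟩ hab
      have h2 := hsum (p + ⟨a, b⟩)
      rw [e0, e1, e2, e3, e4, e5, hc0] at h2
      simp only [zero_mul, zero_add] at h2
      exact h2
    have hnorm : ∀ a b : ℝ, |a| ≤ τ → |b| ≤ τ → ‖(⟨a, b⟩ : ℂ)‖ ≤ 2 * τ := by
      intro a b ha hb
      have h2 := Complex.norm_le_abs_re_add_abs_im (⟨a, b⟩ : ℂ)
      have h3 : |(⟨a, b⟩ : ℂ).re| + |(⟨a, b⟩ : ℂ).im| = |a| + |b| := rfl
      rw [h3] at h2
      linarith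
    have aτ : |τ| ≤ τ := (abs_of_pos hτ0).le
    have aτ' : |-τ| ≤ τ := by rw [abs_neg]; exact aτ
    have a0 : |(0 : ℝ)| ≤ τ := by rw [abs_zero]; exact hτ0.le
    have hc1 : c 1 = 0 := by
      have h2 := key 0 0 (hnorm 0 0 a0 a0)
      have hB0 : B 0 0 = 1 := by
        rw [B_zero]
        norm_num
      simp only [zero_mul, mul_zero, add_zero, ne_eq, OfNat.ofNat_ne_zero, not_false_eq_true,
        zero_pow, zero_div, hB0, mul_one, sub_zero] at h2
      exact h2
    have r1 : ∀ a b : ℝ, a ^ 2 + b ^ 2 = τ ^ 2 →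
        lam * (a ^ 2 + b ^ 2) / 4 = lam * (1 * τ ^ 2) / 4 := by
      intro a b h
      rw [h, one_mul]
    have k1 := key τ 0 (hnorm τ 0 aτ a0)
    have k2 := key (-τ) 0 (hnorm (-τ) 0 aτ' a0)
    have k3 := key 0 τ (hnorm 0 τ a0 aτ)
    rw [r1 τ 0 (by ring), hc1] at k1
    rw [r1 (-τ) 0 (by ring), hc1] at k2
    rw [r1 0 τ (by ring), hc1] at k3
    have hc2 : c 2 = 0 := by
      have h2 : c 2 * (τ * B 1 (lam * (1 * τ ^ 2) / 4)) = 0 := by linarith
      exact (mul_eq_zero.1 h2).resolve_right (mul_ne_zero hτ0.ne' hb1)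
    have hc4 : c 4 = 0 := by
      have h2 : c 4 * (τ * τ * B 2 (lam * (1 * τ ^ 2) / 4)) = 0 := by linarith
      exact (mul_eq_zero.1 h2).resolve_right
        (mul_ne_zero (mul_ne_zero hτ0.ne' hτ0.ne') hb2)
    have hc3 : c 3 = 0 := by
      rw [hc2, hc4] at k3
      have h2 : c 3 * (τ * B 1 (lam * (1 * τ ^ 2) / 4)) = 0 := by linarith
      exact (mul_eq_zero.1 h2).resolve_right (mul_ne_zero hτ0.ne' hb1)
    have hc5 : c 5 = 0 := by
      have h2 := key τ τ (hnorm τ τ aτ aτ)
      have h3 : lam * (τ ^ 2 + τ ^ 2) / 4 = lam * (2 * τ ^ 2) / 4 := by ring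
      rw [h3, hc1, hc2, hc3, hc4] at h2
      have h4 : c 5 * (2 * (τ * τ) * B 2 (lam * (2 * τ ^ 2) / 4)) = 0 := by linarith
      exact (mul_eq_zero.1 h4).resolve_right
        (mul_ne_zero (mul_ne_zero two_ne_zero (mul_ne_zero hτ0.ne' hτ0.ne')) hb3)
    intro i
    fin_cases i
    · exact hc0
    · exact hc1
    · exact hc2
    · exact hc3
    · exact hc4
    · exact hc5
  refine index_family Metric.isOpen_ball Metric.isBounded_ball
    (convex_ball p ρ).isPreconnected hlam (by norm_num) (fun i => Metric.ball p (rad i)) φ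
    (fun i => ⟨Metric.isOpen_ball, Metric.ball_subset_ball (hradρ i)⟩) hwat ?_ rfl ?_ hli
  · intro i j
    rcases le_total (rad i) (rad j) with h | h
    · exact Or.inl (Metric.ball_subset_ball h)
    · exact Or.inr (Or.inl (Metric.ball_subset_ball h))
  · set τ := (m + ρ) / 2 with hτ
    have hn : ‖(p + (τ : ℂ)) - p‖ = τ := by
      rw [add_sub_cancel_left, Complex.norm_real, Real.norm_eq_abs, abs_of_pos (by linarith)]
    refine ⟨p + (τ : ℂ), ?_, fun i hi => ?_⟩
    · rw [Metric.mem_ball, dist_eq_norm, hn]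
      linarith
    · have hopen : IsOpen {x : ℂ | m < ‖x - p‖} := isOpen_lt continuous_const (by fun_prop)
      have hmem : (p + (τ : ℂ)) ∈ {x : ℂ | m < ‖x - p‖} := by
        change m < ‖(p + (τ : ℂ)) - p‖
        rw [hn]
        linarith
      filter_upwards [hopen.mem_nhds hmem] with x hx
      exact hfar i hi x hx

end Pool.Agent.Helper327_Drum
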