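import Pool.Agent.Helper327_Drum.Fin.M4
import Pool.Agent.Helper327_Drum.Fin.I2
import Pool.Agent.Helper327_Drum.Fin.I5
import Pool.Agent.Helper327_Drum.Fin.G2
import Pool.Agent.Helper327_Drum.Fin.G4
import Pool.Agent.R227.SA18
import Pool.Agent.Helper327_Drum.Fin.N2

/-
JOB N3 (owner helper327, problem MP_d92c84_an). All imports are on origin/main.
-/

set_option autoImplicit false
open MeasureTheory Set Filter Topology ComplexConjugate
open scoped ContDiff InnerProductSpace

namespace Pool.Agent.Helper327_Drum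

open Pool.Agent.TH298.Sch (dd SC er)
open Pool.Agent.R227.SA (la Wat Dat)
open TH259.NS (B J)

/-
Plain proof. `inside R` is the union of the bounded components of Rᶜ (Defs.lean). ball p r is connected, bounded and does not meet
the sphere, so it is contained in the component of each of its points, and this component is contained in the ball (a connected set
off the sphere that contains a point of the ball stays in the ball). The outside {‖x - p‖ > r} is connected and unbounded.
-/

/-- TARGET 1 -/
theorem inside_sphere (p : ℂ) {r : ℝ} (hr : 0 < r) :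
    inside (Metric.sphere p r) = Metric.ball p r := by
  have hOconn : IsPreconnected {z : ℂ | r < ‖z - p‖} := by
    have h1 := (cmpBall_conn hr.le).isPreconnected.image (fun z : ℂ => z + p) (by fun_prop)
    convert h1 using 1
    ext z
    constructor
    · intro hz
      exact ⟨z - p, hz, by ring⟩
    · rintro ⟨w, hw, rfl⟩
      change r < ‖w + p - p‖
      rw [add_sub_cancel_right]; exact hw
  ext x
  constructor
  · intro hx
    by_contra hxb
    have hxs : x ∉ Metric.sphere p r := hx.1
    rw [mem_sphere_iff_norm] at hxs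
    rw [mem_ball_iff_norm] at hxb
    have hgt : r < ‖x - p‖ := lt_of_le_of_ne (not_lt.1 hxb) (Ne.symm hxs)
    have hsub : {z : ℂ | r < ‖z - p‖} ⊆ connectedComponentIn (Metric.sphere p r)ᶜ x := by
      refine hOconn.subset_connectedComponentIn hgt ?_
      intro z hz hzs
      rw [mem_sphere_iff_norm] at hzs
      have hz' : r < ‖z - p‖ := hz
      linarith
    refine cmpBall_unb (r := r + ‖p‖) _ ?_ hx.2
    intro z hz
    apply hsub
    have hz' : r + ‖p‖ < ‖z‖ := hz
    have h2 : ‖z‖ ≤ ‖z - p‖ + ‖p‖ := by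
      have := norm_add_le (z - p) p
      rwa [sub_add_cancel] at this
    change r < ‖z - p‖
    linarith
  · intro hx
    have hx' : ‖x - p‖ < r := by rwa [mem_ball_iff_norm] at hx
    have hxs : x ∉ Metric.sphere p r := by
      rw [mem_sphere_iff_norm]; exact hx'.ne
    refine ⟨hxs, ?_⟩
    refine (Metric.isBounded_ball (x := p) (r := r)).subset ?_
    have hopen : IsOpen {z : ℂ | r < ‖z - p‖} := isOpen_lt continuous_const (by fun_prop)
    refine IsPreconnected.subset_left_of_subset_union (Metric.isOpen_ball) hopen ?_ ?_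
      ⟨x, mem_connectedComponentIn hxs, hx⟩ isPreconnected_connectedComponentIn
    · rw [Set.disjoint_left]
      intro z hz hz2
      rw [mem_ball_iff_norm] at hz
      have hz' : r < ‖z - p‖ := hz2
      linarith
    · intro z hz
      have hzs := connectedComponentIn_subset _ _ hz
      rw [Set.mem_compl_iff, mem_sphere_iff_norm] at hzs
      rcases lt_or_gt_of_ne hzs with h | h
      · left; rw [mem_ball_iff_norm]; exact h
      · right; exact h

/-
Plain proof. D = inside R is open and connected (`inside_basic`, `inside_jordan`). inside γ = ball p r ⊆ D by `inside_sub`, and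
γ = frontier (ball p r) = sphere p r by `inside_jordan`. `dat_of_curve` (Fin/I5.lean) gives Dat (ball p r) lam k v with
v = indicator (u - k); `dat_ball` gives the rotational derivative of v = 0, so that of u is 0 on ball p r, and B 1 (lam r²/4) = 0.
`radial_global` for u on D (LocH is `hu.loc`): u x = u p * B 0 (lam ‖x-p‖²/4) on D; u p ≠ 0 because u = k ≠ 0 on γ ⊆ D.
R = frontier D (`inside_jordan`), u is continuous and 0 on R, so B 0 (lam ‖x-p‖²/4) = 0 on R. `B_isolated` and `scc_circle` (with the
function t ↦ B 0 (lam t / 4)) give R = sphere p ρ, inside R = ball p ρ; γ = sphere p r ⊆ ball p ρ gives r < ρ.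
-/

/-- TARGET 2: if the curve encloses a disc then everything is radial. -/
theorem disc_case {R γ : Set ℂ} {lam k : ℝ} {u : ℂ → ℝ} (hR : SimpleClosedCurve R)
    (hγ : SimpleClosedCurve γ) (hlam : 0 < lam) (hu : Wat (inside R) lam u) (hsub : γ ⊆ inside R)
    (hk : k ≠ 0) (huk : ∀ x ∈ γ, u x = k) (hcr : ∀ x ∈ γ, fderiv ℝ u x = 0) {p : ℂ} {r : ℝ}
    (hr : 0 < r) (hball : inside γ = Metric.ball p r) :
    ∃ ρ : ℝ, r < ρ ∧ R = Metric.sphere p ρ ∧ inside R = Metric.ball p ρ ∧ γ = Metric.sphere p r ∧
      B 0 (lam * ρ ^ 2 / 4) = 0 ∧ B 1 (lam * r ^ 2 / 4) = 0 ∧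
      ∀ x ∈ inside R, u x = u p * B 0 (lam * ‖x - p‖ ^ 2 / 4) := by
  have hRcomp : IsCompact R := by
    obtain ⟨f, hf, _, rfl⟩ := hR
    exact isCompact_range hf
  have hRconn : IsConnected R := by
    obtain ⟨f, hf, _, rfl⟩ := hR
    exact isConnected_range hf
  have hγne : γ.Nonempty := by
    obtain ⟨f, _, _, rfl⟩ := hγ
    exact Set.range_nonempty f
  obtain ⟨x₀, hx₀⟩ := hγne
  obtain ⟨hDo, hDb, hDf, hDc, hDd⟩ := inside_basic hRcomp
  obtain ⟨hDconn, hDfr, _⟩ := inside_jordan hR ⟨x₀, hsub hx₀⟩
  have hpb : p ∈ Metric.ball p r := Metric.mem_ball_self hr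
  obtain ⟨_, hγfr, _⟩ := inside_jordan hγ ⟨p, by rw [hball]; exact hpb⟩
  have hγs : γ = Metric.sphere p r := by
    rw [← hγfr, hball, frontier_ball p hr.ne']
  have hbD : Metric.ball p r ⊆ inside R := by
    rw [← hball]
    exact inside_sub hRcomp hRconn hsub
  have hpD : p ∈ inside R := hbD hpb
  have hdat := dat_of_curve hu Metric.isOpen_ball hbD hsub (by rw [← hball, hγfr]) huk hcr
  obtain ⟨hrot, _, hB1⟩ := dat_ball hdat hr hlam hk
  have hloc : LocH (inside R) lam u := hu.loc
  have hrad := radial_global hloc hlam hDconn.isPreconnected hpD (by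
    filter_upwards [Metric.ball_mem_nhds p hr] with x hx
    have h1 := hrot x
    have h2 : (Metric.ball p r).indicator (fun x => u x - k) =ᶠ[𝓝 x] fun y => u y - k := by
      filter_upwards [Metric.isOpen_ball.mem_nhds hx] with y hy
      rw [Set.indicator_of_mem hy]
    rw [h2.fderiv_eq, fderiv_sub_const] at h1
    exact h1)
  have hup : u p ≠ 0 := by
    intro h0
    have h1 := hrad x₀ (hsub hx₀)
    rw [h0, zero_mul, huk x₀ hx₀] at h1
    exact hk h1
  have hR0 : ∀ x ∈ R, B 0 (lam * ‖x - p‖ ^ 2 / 4) = 0 := by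
    intro x hx
    have hxcl : x ∈ closure (inside R) := by
      rw [← hDfr] at hx
      exact frontier_subset_closure hx
    have hBc : Continuous (B 0) := by
      exact continuous_iff_continuousAt.2 fun y => (TH259.NS.B_deriv 0 y).continuousAt
    have hc1 : Continuous fun y : ℂ => u p * B 0 (lam * ‖y - p‖ ^ 2 / 4) := by
      refine continuous_const.mul (hBc.comp (by fun_prop))
    have hclosed : IsClosed {y : ℂ | u y = u p * B 0 (lam * ‖y - p‖ ^ 2 / 4)} :=
      isClosed_eq hu.cont hc1
    have h1 : closure (inside R) ⊆ {y : ℂ | u y = u p * B 0 (lam * ‖y - p‖ ^ 2 / 4)} :=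
      closure_minimal (fun y hy => hrad y hy) hclosed
    have h2 : u x = u p * B 0 (lam * ‖x - p‖ ^ 2 / 4) := h1 hxcl
    have h3 : u x = 0 := hu.out x (fun h => h.1 hx)
    rw [h3] at h2
    rcases mul_eq_zero.1 h2.symm with h4 | h4
    · exact absurd h4 hup
    · exact h4
  obtain ⟨ρ, hρ, hRs⟩ := scc_circle hR p (fun t => B 0 (lam * t / 4)) (B_isolated hlam) hR0
  have hin : inside R = Metric.ball p ρ := by
    rw [hRs]; exact inside_sphere p hρ
  refine ⟨ρ, ?_, hRs, hin, hγs, ?_, hB1, hrad⟩
  · have h1 : p + (r : ℂ) ∈ γ := by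
      rw [hγs, mem_sphere_iff_norm, add_sub_cancel_left, Complex.norm_real, Real.norm_eq_abs,
        abs_of_pos hr]
    have h2 := hsub h1
    rw [hin, mem_ball_iff_norm, add_sub_cancel_left, Complex.norm_real, Real.norm_eq_abs,
      abs_of_pos hr] at h2
    exact h2
  · have h1 : p + (ρ : ℂ) ∈ R := by
      rw [hRs, mem_sphere_iff_norm, add_sub_cancel_left, Complex.norm_real, Real.norm_eq_abs,
        abs_of_pos hρ]
    have h2 := hR0 _ h1
    rw [add_sub_cancel_left, Complex.norm_real, Real.norm_eq_abs, abs_of_pos hρ] at h2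
    exact h2

end Pool.Agent.Helper327_Drum
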