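import Pool.Agent.Helper327_Drum.Fin.AS1
import Pool.Agent.Helper327_Drum.Fin.N3
import Pool.Agent.Helper327_Drum.Fin.G3
import Pool.Agent.Helper327_Drum.Fin.I5
import Pool.Agent.Helper327_Drum.Fin.K2b
import Pool.Agent.Helper327_Drum.Fin.K3

/-! The region enclosed by a curve of vanishing gradient. -/

set_option autoImplicit false
open MeasureTheory Set Filter Topology ComplexConjugate
open scoped ContDiff InnerProductSpace

namespace Pool.Agent.Helper327_Drum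

open Pool.Agent.TH298.Sch (dd SC)
open Pool.Agent.R227.SA (la Wat Dat)
open TH259.NS (B J)

theorem Mode.nonempty {R : Set ℂ} {g : ℂ → ℝ → ℂ} {lam : ℝ} {u : ℂ → ℝ} (hm : Mode R g lam u) :
    (inside R).Nonempty := by
  obtain ⟨x, hx⟩ := hm.ne
  by_contra hE
  rw [not_nonempty_iff_eq_empty] at hE
  exact hx (hm.wat.out x (by rw [hE]; exact notMem_empty x))

theorem wat_smooth {D : Set ℂ} {lam : ℝ} {u : ℂ → ℝ} (h : Wat D lam u) {x : ℂ} (hx : x ∈ D) :
    ContDiffAt ℝ ∞ u x ∧ la u x = -(lam * u x) := by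
  obtain ⟨r, hr, W, hW, hb, h1⟩ := h.loc x hx
  have he : u =ᶠ[𝓝 x] W := by
    filter_upwards [Metric.ball_mem_nhds x hr] with y hy using (h1 y hy).1
  refine ⟨(hW.sm.contDiffAt).congr_of_eventuallyEq he, ?_⟩
  have e2 : ∀ h, dd h u =ᶠ[𝓝 x] dd h W := by
    intro h
    filter_upwards [he.eventuallyEq_nhds] with y hy
    exact congrArg (fun L : ℂ →L[ℝ] ℝ => L h) hy.fderiv_eq
  have e3 : ∀ h, dd h (dd h u) x = dd h (dd h W) x := by
    intro h
    exact congrArg (fun L : ℂ →L[ℝ] ℝ => L h) (e2 h).fderiv_eq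
  have e4 : la u x = la W x := by
    unfold la
    rw [e3, e3]
  rw [e4, (h1 x (Metric.mem_ball_self hr)).2, (h1 x (Metric.mem_ball_self hr)).1]

/-- the region enclosed by a closed curve of critical points carries an overdetermined solution -/
theorem crit_dat {R γ : Set ℂ} {lam k : ℝ} {u : ℂ → ℝ} (hR : SimpleClosedCurve R)
    (hγ : SimpleClosedCurve γ) (hlam : 0 < lam) (hu : Wat (inside R) lam u) (hsub : γ ⊆ inside R)
    (hk : k ≠ 0) (huk : ∀ x ∈ γ, u x = k) (hcr : ∀ x ∈ γ, fderiv ℝ u x = 0) :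
    (inside γ).Nonempty ∧ Dat (inside γ) lam k ((inside γ).indicator fun x => u x - k) := by
  obtain ⟨hγc, hγcon, hγinf⟩ := scc_basic hγ
  obtain ⟨hRc, hRcon, hRinf⟩ := scc_basic hR
  obtain ⟨x₀, hx₀⟩ := hγinf.nonempty
  obtain ⟨hΩo, hΩb, hΩfr, -, -⟩ := inside_basic hγc
  have hs := wat_smooth hu (hsub hx₀)
  have hla : la u x₀ ≠ 0 := by
    rw [hs.2, huk x₀ hx₀]
    exact neg_ne_zero.2 (mul_ne_zero hlam.ne' hk)
  obtain ⟨e, r, C, he, hr, hC, hcone⟩ := cone (hs.1.of_le (by norm_cast)) hla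
  refine ⟨inside_nonempty hγ hx₀ he hr (κ := 1) fun x hx y hy => ?_, ?_⟩
  · rw [one_mul]
    exact (hcone x hx.2 y hy.2 (hcr x hx.1) (hcr y hy.1)).1
  · exact dat_of_curve hu hΩo (inside_sub hRc hRcon hsub) hsub hΩfr huk hcr

theorem out_nonempty {R γ : Set ℂ} (hR : SimpleClosedCurve R) (hγ : SimpleClosedCurve γ)
    (hne : (inside R).Nonempty) (hsub : γ ⊆ inside R) :
    (inside R \ closure (inside γ)).Nonempty := by
  obtain ⟨hγc, hγcon, hγinf⟩ := scc_basic hγ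
  obtain ⟨hRc, hRcon, hRinf⟩ := scc_basic hR
  obtain ⟨hDc, hDfr, hDreg⟩ := inside_jordan hR hne
  by_contra hE
  rw [not_nonempty_iff_eq_empty, sdiff_eq_empty] at hE
  obtain ⟨x, hx⟩ := hRinf.nonempty
  have h1 : x ∈ closure (inside R) := by
    rw [← hDfr] at hx
    exact frontier_subset_closure hx
  have h2 : x ∈ closure (inside γ) := closure_minimal hE isClosed_closure h1
  have h3 : x ∈ inside R := by
    rcases (inside_basic hγc).2.2.2.1 h2 with h | h
    · exact inside_sub hRc hRcon hsub h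
    · exact hsub h
  exact disjoint_left.1 (inside_basic hRc).2.2.2.2 h3 hx

/-- Five Dirichlet eigenvalues lie below every excited eigenvalue. -/
theorem five_modes {R γ : Set ℂ} {c : ℝ} {z : ℂ → ℝ → ℝ} {g : ℂ → ℝ → ℂ} (hR : SimpleClosedCurve R)
    (hc : 0 < c) (h : DrumSolution R c z g) (hγ : SimpleClosedCurve γ) (hsub : γ ⊆ inside R ∪ R)
    (hg : ∀ x ∈ γ, ∀ t, g x t = 0) {lam : ℝ} (hE : Excites R z lam) :
    dirichletEigenvalue 5 (inside R) < lam := by
  obtain ⟨hRc, hRcon, hRinf⟩ := scc_basic hR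
  obtain ⟨hγc, hγcon, hγinf⟩ := scc_basic hγ
  obtain ⟨hDo, hDb, hfr, hcl, hdj⟩ := inside_basic hRc
  obtain ⟨hlam, u, hm⟩ := mode_of_excites hRc hc h hE
  obtain ⟨hsub', k, hk, huk⟩ := hm.const_curve hR hlam hγ hsub hg
  have hcr : ∀ x ∈ γ, fderiv ℝ u x = 0 := fun x hx => hm.crit x (hsub' hx) (hg x hx)
  obtain ⟨hne, hdat⟩ := crit_dat hR hγ hlam hm.wat hsub' hk huk hcr
  obtain ⟨hΩo, hΩb, hΩfr, -, -⟩ := inside_basic hγc
  obtain ⟨hΩc, hΩfr', hΩreg⟩ := inside_jordan hγ hne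
  obtain ⟨hDc, hDfr, hDreg⟩ := inside_jordan hR hm.nonempty
  rcases nonradial_index hDo hDb hDc.isPreconnected hm.wat hm.ne hdat hΩo hne hΩc.isPreconnected
    hΩreg (inside_compl hγc hγcon).1.isPreconnected (inside_sub hRc hRcon hsub')
    (out_nonempty hR hγ hm.nonempty hsub') hlam hk with h1 | ⟨p, r, hr, hball⟩
  · exact h1
  · obtain ⟨ρ, hrρ, -, hD, -, h0, h1, -⟩ := disc_case hR hγ hlam hm.wat hsub' hk huk hcr hr hball
    rw [hD]
    exact radial_index hr hrρ hlam h0 h1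

end Pool.Agent.Helper327_Drum
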