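import Pool.Agent.Helper327_Drum.EDefs

/-
JOB EL1a (owner helper327, problem MP_d92c84_an). All imports are on origin/main.
-/

set_option autoImplicit false
open MeasureTheory Set Filter Topology ComplexConjugate
open scoped ContDiff

namespace Pool.Agent.Helper327_Drum

open Pool.Agent.TH298.Sch (dd SC Lr)
open Pool.Agent.R227.SA (la Wat Dat)

/-
Definitions (EDefs.lean): `Strip ξ₀ K U`: U : ℂ → ℝ continuous, 0 for |re ζ| ≥ ξ₀, U (ζ + 2πI) = U ζ, C^∞ at the points with |re ζ| < ξ₀ and there `la U ζ = -(K (cosh (2 re ζ) - cos (2 im ζ)) U ζ)`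
(`la` = Laplacian = dd 1 (dd 1 U) + dd I (dd I U), `dd h U x = fderiv ℝ U x h`).
`fcoef U n ξ = ∫ η in (-π)..π, (U (ξ + η I) : ℂ) * exp (-(n η I))`.
-/

/-
Plain proof of TARGET 1. Suppose c x₁ > G / N at the maximum point x₁ of c on [-ξ₀, ξ₀]; then G ≥ 0 can be assumed (the interval is nonempty), x₁ is interior, and c'' = N c - g > 0 near x₁, so c is strictly
convex near x₁: contradiction to the maximum. The same for -c, -g.
-/

theorem ode_max_aux {ξ₀ N G : ℝ} (hξ : 0 < ξ₀) (hN : 0 < N) {c c1 g : ℝ → ℝ}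
    (hc : ContinuousOn c (Icc (-ξ₀) ξ₀)) (h0 : c ξ₀ = 0) (h1 : c (-ξ₀) = 0)
    (hd : ∀ x ∈ Ioo (-ξ₀) ξ₀, HasDerivAt c (c1 x) x)
    (hdd : ∀ x ∈ Ioo (-ξ₀) ξ₀, HasDerivAt c1 (N * c x - g x) x)
    (hg : ∀ x ∈ Ioo (-ξ₀) ξ₀, |g x| ≤ G) : ∀ x ∈ Icc (-ξ₀) ξ₀, c x ≤ G / N := by
  intro x hx
  by_contra hcon
  push Not at hcon
  have hG : 0 ≤ G := (abs_nonneg _).trans (hg 0 ⟨by linarith, hξ⟩)
  obtain ⟨x₁, hx₁, hmax⟩ := isCompact_Icc.exists_isMaxOn ⟨x, hx⟩ hc
  have hcx : G / N < c x₁ := lt_of_lt_of_le hcon (hmax hx)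
  have hpos : 0 < c x₁ := lt_of_le_of_lt (div_nonneg hG hN.le) hcx
  have hint : x₁ ∈ Ioo (-ξ₀) ξ₀ := by
    refine ⟨lt_of_le_of_ne hx₁.1 ?_, lt_of_le_of_ne hx₁.2 ?_⟩
    · rintro h
      rw [← h, h1] at hpos
      exact lt_irrefl _ hpos
    · rintro h
      rw [h, h0] at hpos
      exact lt_irrefl _ hpos
  have hnhds : Ioo (-ξ₀) ξ₀ ∈ 𝓝 x₁ := Ioo_mem_nhds hint.1 hint.2
  have hlm : IsLocalMax c x₁ := by
    filter_upwards [hnhds] with y hy
    exact hmax ⟨hy.1.le, hy.2.le⟩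
  have hdc : deriv c =ᶠ[𝓝 x₁] c1 := by
    filter_upwards [hnhds] with y hy
    exact (hd y hy).deriv
  have hdd1 : deriv (deriv c) x₁ = N * c x₁ - g x₁ := by
    rw [hdc.deriv_eq]
    exact (hdd x₁ hint).deriv
  have hddpos : 0 < deriv (deriv c) x₁ := by
    rw [hdd1]
    have h2 : G < N * c x₁ := by
      rwa [div_lt_iff₀ hN, mul_comm] at hcx
    have h3 := (le_abs_self _).trans (hg x₁ hint)
    linarith
  have hmin := isLocalMin_of_deriv_deriv_pos hddpos hlm.deriv_eq_zero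
    (hd x₁ hint).continuousAt
  have hconst : c =ᶠ[𝓝 x₁] fun _ => c x₁ := by
    filter_upwards [hlm, hmin] with y h2 h3
    exact le_antisymm h2 h3
  have h4 : deriv c =ᶠ[𝓝 x₁] fun _ => 0 := by
    have := hconst.deriv
    simpa using this
  rw [h4.deriv_eq, deriv_const] at hddpos
  exact lt_irrefl _ hddpos

/-- TARGET 1: the maximum principle for `c'' = N c - g`. -/
theorem ode_max {ξ₀ N G : ℝ} (hξ : 0 < ξ₀) (hN : 0 < N) {c c1 g : ℝ → ℝ}
    (hc : ContinuousOn c (Icc (-ξ₀) ξ₀)) (h0 : c ξ₀ = 0) (h1 : c (-ξ₀) = 0)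
    (hd : ∀ x ∈ Ioo (-ξ₀) ξ₀, HasDerivAt c (c1 x) x)
    (hdd : ∀ x ∈ Ioo (-ξ₀) ξ₀, HasDerivAt c1 (N * c x - g x) x)
    (hg : ∀ x ∈ Ioo (-ξ₀) ξ₀, |g x| ≤ G) : ∀ x ∈ Icc (-ξ₀) ξ₀, |c x| ≤ G / N := by
  intro x hx
  rw [abs_le']
  refine ⟨ode_max_aux hξ hN hc h0 h1 hd hdd hg x hx, ?_⟩
  refine ode_max_aux (c := fun x => -c x) (c1 := fun x => -c1 x) (g := fun x => -g x) hξ hN
    hc.neg (by simp [h0]) (by simp [h1]) (fun y hy => (hd y hy).neg) (fun y hy => ?_)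
    (fun y hy => ?_) x hx
  · have h2 := (hdd y hy).neg
    have h3 : N * -c y - -g y = -(N * c y - g y) := by ring
    rw [h3]
    exact h2
  · rw [abs_neg]
    exact hg y hy

/-
Plain proof of TARGET 2. Write c_n = fcoef U n, M = sup |U| (U is continuous, periodic in im ζ and 0 off the strip, so bounded). c_n is continuous (in fact on ℝ), 0 for |ξ| ≥ ξ₀, |c_n| ≤ 2πM. For |ξ| < ξ₀
differentiate under the integral (U is C^∞ near the compact segment {ξ + iη, |η| ≤ π}): c_n''(ξ) = ∫ U_ξξ e^{-inη} dη = ∫ (-K (cosh 2ξ - cos 2η) U - U_ηη) e^{-inη} dη. Integrating by parts twice with the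
2π-periodicity of U and its derivatives in η (the derivatives are periodic since U is): ∫ U_ηη e^{-inη} dη = -n² c_n(ξ). So c_n'' = n² c_n - g_n, g_n = K (cosh (2ξ) c_n - (c_{n-2} + c_{n+2})/2)
(cos 2η = (e^{2iη} + e^{-2iη})/2; exp(-(n η I)) e^{±2iη}).
For a fixed ξ* choose φ with e^{iφ} c_n(ξ*) = |c_n(ξ*)| and apply TARGET 1 to Re (e^{iφ} c_n) with N = n²: |c_n(ξ*)| ≤ sup |g_n| / n². First |g_n| ≤ |K| (cosh 2ξ₀ + 1) 2πM =: G₀, so
|c_n| ≤ G₀ / n² for all n ≠ 0. Hence |g_n| ≤ |K| (cosh 2ξ₀ |c_n| + (|c_{n-2}| + |c_{n+2}|)/2) ≤ C₁ / n² for n ≠ 0 (|n ± 2| ≥ |n|/3 if n ± 2 ≠ 0; if n ± 2 = 0 use |c_0| ≤ 2πM = 4·2πM / n²).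
So |c_n| ≤ C₁ / n⁴.
-/

/-- smooth on the strip -/
def ela_Sm (ξ₀ : ℝ) (V : ℂ → ℝ) : Prop := ∀ ζ : ℂ, |ζ.re| < ξ₀ → ContDiffAt ℝ ∞ V ζ

theorem ela_Sm.dd {ξ₀ : ℝ} {V : ℂ → ℝ} (h : ela_Sm ξ₀ V) (v : ℂ) : ela_Sm ξ₀ (dd v V) := by
  intro ζ hζ
  have h1 : ContDiffAt ℝ ∞ (fderiv ℝ V) ζ := (h ζ hζ).fderiv_right (m := ∞) (by simp)
  exact h1.clm_apply contDiffAt_const

theorem ela_re (ξ η : ℝ) : ((ξ : ℂ) + η * Complex.I).re = ξ := by simp

theorem ela_cont_curve : Continuous fun p : ℝ × ℝ => ((p.1 : ℂ) + p.2 * Complex.I) := by fun_prop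

theorem ela_contOn {ξ₀ : ℝ} {V : ℂ → ℝ} (h : ela_Sm ξ₀ V) :
    ContinuousOn (fun p : ℝ × ℝ => V ((p.1 : ℂ) + p.2 * Complex.I)) {p | |p.1| < ξ₀} := by
  intro p hp
  have h1 : ContinuousAt V ((p.1 : ℂ) + p.2 * Complex.I) :=
    (h _ (by rw [ela_re]; exact hp)).continuousAt
  exact (ContinuousAt.comp (f := fun p : ℝ × ℝ => ((p.1 : ℂ) + p.2 * Complex.I)) h1
    ela_cont_curve.continuousAt).continuousWithinAt

theorem ela_cont_line {ξ₀ : ℝ} {V : ℂ → ℝ} (h : ela_Sm ξ₀ V) {ξ : ℝ} (hξ : |ξ| < ξ₀) :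
    Continuous fun η : ℝ => V ((ξ : ℂ) + η * Complex.I) := by
  have h1 := (ela_contOn h).comp_continuous (f := fun η : ℝ => (ξ, η)) (by fun_prop)
    (fun η => hξ)
  exact h1

theorem ela_cont_int {ξ₀ : ℝ} {V : ℂ → ℝ} (h : ela_Sm ξ₀ V) {ξ : ℝ} (hξ : |ξ| < ξ₀) (n : ℤ) :
    Continuous fun η : ℝ => (V ((ξ : ℂ) + η * Complex.I) : ℂ) *
      Complex.exp (-(n * η * Complex.I)) :=
  (Complex.continuous_ofReal.comp (ela_cont_line h hξ)).mul (by fun_prop)

theorem ela_hasDeriv {ξ₀ : ℝ} {V : ℂ → ℝ} (h : ela_Sm ξ₀ V) {ξ : ℝ} (hξ : |ξ| < ξ₀) (n : ℤ) :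
    HasDerivAt (fcoef V n) (fcoef (dd 1 V) n ξ) ξ := by
  set ε := (ξ₀ - |ξ|) / 2 with hε
  have hε0 : 0 < ε := by rw [hε]; linarith
  have hs : ∀ x ∈ Metric.closedBall ξ ε, |x| < ξ₀ := by
    intro x hx
    rw [Metric.mem_closedBall, Real.dist_eq] at hx
    have h1 : |x| ≤ |x - ξ| + |ξ| := by
      have := abs_add_le (x - ξ) ξ
      simpa using this
    linarith
  have hcomp : IsCompact (Metric.closedBall ξ ε ×ˢ Icc (-Real.pi) Real.pi) :=
    (isCompact_closedBall ξ ε).prod isCompact_Icc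
  have hcd : ContinuousOn (fun p : ℝ × ℝ => dd 1 V ((p.1 : ℂ) + p.2 * Complex.I))
      (Metric.closedBall ξ ε ×ˢ Icc (-Real.pi) Real.pi) :=
    (ela_contOn (h.dd 1)).mono fun p hp => hs p.1 hp.1
  obtain ⟨C, hC⟩ := hcomp.exists_bound_of_continuousOn hcd
  have hexp : ∀ t : ℝ, ‖Complex.exp (-(n * t * Complex.I))‖ = 1 := by
    intro t
    have : -((n : ℂ) * t * Complex.I) = ((-(n * t) : ℝ) : ℂ) * Complex.I := by push_cast; ring
    rw [this, Complex.norm_exp_ofReal_mul_I]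
  have hmain := intervalIntegral.hasDerivAt_integral_of_dominated_loc_of_deriv_le
    (μ := volume) (a := -Real.pi) (b := Real.pi) (s := Metric.closedBall ξ ε) (x₀ := ξ)
    (𝕜 := ℝ)
    (F := fun (x t : ℝ) => (V ((x : ℂ) + t * Complex.I) : ℂ) *
      Complex.exp (-(n * t * Complex.I)))
    (F' := fun (x t : ℝ) => (dd 1 V ((x : ℂ) + t * Complex.I) : ℂ) *
      Complex.exp (-(n * t * Complex.I))) (bound := fun _ => C)
    (Metric.closedBall_mem_nhds ξ hε0) ?_ ?_ ?_ ?_ ?_ ?_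
  · exact hmain.2
  · filter_upwards [Metric.closedBall_mem_nhds ξ hε0] with x hx
    exact (ela_cont_int h (hs x hx) n).aestronglyMeasurable
  · exact (ela_cont_int h hξ n).intervalIntegrable _ _
  · exact (ela_cont_int (h.dd 1) hξ n).aestronglyMeasurable
  · refine Filter.Eventually.of_forall fun t ht x hx => ?_
    rw [norm_mul, hexp, mul_one, Complex.norm_real]
    refine hC (x, t) ⟨hx, ?_⟩
    rw [uIoc_of_le (by linarith [Real.pi_pos])] at ht
    exact ⟨ht.1.le, ht.2⟩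
  · exact intervalIntegrable_const
  · refine Filter.Eventually.of_forall fun t _ x hx => ?_
    have h1 : HasFDerivAt V (fderiv ℝ V ((x : ℂ) + t * Complex.I)) ((x : ℂ) + t * Complex.I) :=
      ((h _ (by rw [ela_re]; exact hs x hx)).differentiableAt (by simp)).hasFDerivAt
    have h2 : HasDerivAt (fun x : ℝ => ((x : ℂ) + t * Complex.I)) 1 x :=
      (Complex.ofRealCLM.hasDerivAt (x := x)).add_const (t * Complex.I : ℂ)
    have h3 := h1.comp_hasDerivAt x h2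
    exact (HasDerivAt.ofReal_comp h3).mul_const _

theorem ela_parts {ξ₀ : ℝ} {V : ℂ → ℝ} (h : ela_Sm ξ₀ V)
    (hper : ∀ ζ : ℂ, V (ζ + 2 * Real.pi * Complex.I) = V ζ) {ξ : ℝ} (hξ : |ξ| < ξ₀) (n : ℤ) :
    fcoef (dd Complex.I V) n ξ = (n * Complex.I) * fcoef V n ξ := by
  have hder : ∀ t : ℝ, HasDerivAt (fun t : ℝ => (V ((ξ : ℂ) + t * Complex.I) : ℂ) *
      Complex.exp (-(n * t * Complex.I)))
      ((dd Complex.I V ((ξ : ℂ) + t * Complex.I) : ℂ) * Complex.exp (-(n * t * Complex.I)) -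
        (n * Complex.I) * ((V ((ξ : ℂ) + t * Complex.I) : ℂ) *
          Complex.exp (-(n * t * Complex.I)))) t := by
    intro t
    have h1 : HasFDerivAt V (fderiv ℝ V ((ξ : ℂ) + t * Complex.I)) ((ξ : ℂ) + t * Complex.I) :=
      ((h _ (by rw [ela_re]; exact hξ)).differentiableAt (by simp)).hasFDerivAt
    have h2 : HasDerivAt (fun t : ℝ => ((ξ : ℂ) + t * Complex.I)) Complex.I t := by
      have h3 := ((Complex.ofRealCLM.hasDerivAt (x := t)).mul_const Complex.I).const_add (ξ : ℂ)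
      simpa using h3
    have h3 := HasDerivAt.ofReal_comp (h1.comp_hasDerivAt t h2)
    have h4 : HasDerivAt (fun t : ℝ => Complex.exp (-(n * t * Complex.I)))
        (Complex.exp (-(n * t * Complex.I)) * (-(n * Complex.I))) t := by
      have h5 : HasDerivAt (fun t : ℝ => (-(n * t * Complex.I) : ℂ)) (-(n * Complex.I)) t := by
        have h6 : HasDerivAt (fun t : ℝ => ((t : ℝ) : ℂ)) 1 t :=
          Complex.ofRealCLM.hasDerivAt (x := t)
        have h7 : HasDerivAt (fun t : ℝ => (-(n * t * Complex.I) : ℂ))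
            (-((n : ℂ) * 1 * Complex.I)) t :=
          ((h6.const_mul (n : ℂ)).mul_const Complex.I).fun_neg
        simpa using h7
      exact h5.cexp
    have h5 := h3.mul h4
    refine h5.congr_deriv ?_
    simp only [Function.comp_apply, dd]
    ring
  have hint : IntervalIntegrable (fun t : ℝ =>
      (dd Complex.I V ((ξ : ℂ) + t * Complex.I) : ℂ) * Complex.exp (-(n * t * Complex.I)))
      volume (-Real.pi) Real.pi := (ela_cont_int (h.dd Complex.I) hξ n).intervalIntegrable _ _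
  have hint2 : IntervalIntegrable (fun t : ℝ =>
      (n * Complex.I) * ((V ((ξ : ℂ) + t * Complex.I) : ℂ) *
          Complex.exp (-(n * t * Complex.I))))
      volume (-Real.pi) Real.pi :=
    (continuous_const.mul (ela_cont_int h hξ n)).intervalIntegrable _ _
  have h1 := intervalIntegral.integral_eq_sub_of_hasDerivAt (fun t _ => hder t)
    (hint.sub hint2)
  rw [intervalIntegral.integral_sub hint hint2, intervalIntegral.integral_const_mul] at h1
  have h2 : V ((ξ : ℂ) + (Real.pi : ℝ) * Complex.I) = V ((ξ : ℂ) + (-Real.pi : ℝ) * Complex.I) := by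
    rw [← hper ((ξ : ℂ) + (-Real.pi : ℝ) * Complex.I)]
    congr 1
    push_cast
    ring
  have h3 : Complex.exp (-(n * (Real.pi : ℝ) * Complex.I)) =
      Complex.exp (-(n * (-Real.pi : ℝ) * Complex.I)) := by
    have h4 : -((n : ℂ) * ((-Real.pi : ℝ) : ℂ) * Complex.I) =
        -(n * (Real.pi : ℝ) * Complex.I) + n * (2 * Real.pi * Complex.I) := by
      push_cast
      ring
    rw [h4, Complex.exp_add, Complex.exp_int_mul_two_pi_mul_I, mul_one]
  rw [h2, h3, sub_self, sub_eq_zero] at h1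
  exact h1

theorem ela_per_dd {V : ℂ → ℝ} (hper : ∀ ζ : ℂ, V (ζ + 2 * Real.pi * Complex.I) = V ζ) (v : ℂ) :
    ∀ ζ : ℂ, dd v V (ζ + 2 * Real.pi * Complex.I) = dd v V ζ := by
  intro ζ
  have h1 : (fun ζ => V (ζ + 2 * Real.pi * Complex.I)) = V := funext hper
  have h2 : fderiv ℝ (fun ζ => V (ζ + 2 * Real.pi * Complex.I)) ζ =
      fderiv ℝ V (ζ + 2 * Real.pi * Complex.I) := fderiv_comp_add_right _
  rw [h1] at h2
  rw [dd, dd, ← h2]

theorem ela_ode {ξ₀ K : ℝ} {U : ℂ → ℝ} (h : Strip ξ₀ K U) {ξ : ℝ} (hξ : |ξ| < ξ₀) (n : ℤ) :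
    fcoef (dd 1 (dd 1 U)) n ξ = (n : ℂ) ^ 2 * fcoef U n ξ - K * (Real.cosh (2 * ξ) * fcoef U n ξ -
      (fcoef U (n - 2) ξ + fcoef U (n + 2) ξ) / 2) := by
  have hS : ela_Sm ξ₀ U := h.smooth
  have h1 : fcoef (dd Complex.I (dd Complex.I U)) n ξ = -(n : ℂ) ^ 2 * fcoef U n ξ := by
    rw [ela_parts (hS.dd _) (ela_per_dd h.per _) hξ, ela_parts hS h.per hξ, ← mul_assoc]
    congr 1
    have := Complex.I_mul_I
    linear_combination (n : ℂ) ^ 2 * this
  have hint1 := (ela_cont_int ((hS.dd 1).dd 1) hξ n).intervalIntegrable (μ := volume)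
    (-Real.pi) Real.pi
  have hint2 := (ela_cont_int ((hS.dd Complex.I).dd Complex.I) hξ n).intervalIntegrable
    (μ := volume) (-Real.pi) Real.pi
  have i0 := (ela_cont_int hS hξ n).intervalIntegrable (μ := volume) (-Real.pi) Real.pi
  have i1 := (ela_cont_int hS hξ (n - 2)).intervalIntegrable (μ := volume) (-Real.pi) Real.pi
  have i2 := (ela_cont_int hS hξ (n + 2)).intervalIntegrable (μ := volume) (-Real.pi) Real.pi
  have h2 : fcoef (dd 1 (dd 1 U)) n ξ + fcoef (dd Complex.I (dd Complex.I U)) n ξ =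
      -K * (Real.cosh (2 * ξ) * fcoef U n ξ - (fcoef U (n - 2) ξ + fcoef U (n + 2) ξ) / 2) := by
    unfold fcoef
    rw [← intervalIntegral.integral_add hint1 hint2, ← intervalIntegral.integral_add i1 i2,
      ← intervalIntegral.integral_const_mul, ← intervalIntegral.integral_div,
      ← intervalIntegral.integral_sub (i0.const_mul _) ((i1.add i2).div_const _),
      ← intervalIntegral.integral_const_mul]
    refine intervalIntegral.integral_congr fun η _ => ?_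
    have h3 := h.eq ((ξ : ℂ) + η * Complex.I) (by rw [ela_re]; exact hξ)
    rw [la, ela_re] at h3
    have h4 : ((ξ : ℂ) + η * Complex.I).im = η := by simp
    rw [h4] at h3
    have h5 : ((dd 1 (dd 1 U) ((ξ : ℂ) + η * Complex.I) : ℝ) : ℂ) +
        ((dd Complex.I (dd Complex.I U) ((ξ : ℂ) + η * Complex.I) : ℝ) : ℂ) =
        -(K * (Real.cosh (2 * ξ) - Complex.cos (2 * η)) * (U ((ξ : ℂ) + η * Complex.I) : ℝ)) := by
      have h6 := congrArg (fun r : ℝ => (r : ℂ)) h3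
      push_cast at h6 ⊢
      exact h6
    have h6 : Complex.exp (-((n - 2 : ℤ) * η * Complex.I)) =
        Complex.exp (-(n * η * Complex.I)) * Complex.exp (2 * η * Complex.I) := by
      rw [← Complex.exp_add]
      congr 1
      push_cast
      ring
    have h7 : Complex.exp (-((n + 2 : ℤ) * η * Complex.I)) =
        Complex.exp (-(n * η * Complex.I)) * Complex.exp (-(2 * η) * Complex.I) := by
      rw [← Complex.exp_add]
      congr 1
      push_cast
      ring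
    have h8 : Complex.cos (2 * η) = (Complex.exp (2 * η * Complex.I) +
        Complex.exp (-(2 * η) * Complex.I)) / 2 := rfl
    rw [← add_mul, h5, h6, h7, h8]
    ring
  rw [h1] at h2
  linear_combination h2

theorem ela_cont {ξ₀ K : ℝ} {U : ℂ → ℝ} (h : Strip ξ₀ K U) (n : ℤ) : Continuous (fcoef U n) := by
  refine intervalIntegral.continuous_parametric_intervalIntegral_of_continuous' ?_ _ _
  have h1 := h.cont
  have h2 : Continuous fun p : ℝ × ℝ => (U ((p.1 : ℂ) + p.2 * Complex.I) : ℂ) *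
      Complex.exp (-(n * p.2 * Complex.I)) :=
    (Complex.continuous_ofReal.comp (h1.comp ela_cont_curve)).mul (by fun_prop)
  exact h2

theorem ela_out {ξ₀ K : ℝ} {U : ℂ → ℝ} (h : Strip ξ₀ K U) (n : ℤ) (ξ : ℝ) (hξ : ξ₀ ≤ |ξ|) :
    fcoef U n ξ = 0 := by
  unfold fcoef
  have h1 : ∀ η : ℝ, (U ((ξ : ℂ) + η * Complex.I) : ℂ) * Complex.exp (-(n * η * Complex.I)) = 0 := by
    intro η
    rw [h.out _ (by rw [ela_re]; exact hξ)]
    simp
  simp only [h1, intervalIntegral.integral_zero]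

theorem ela_bdd {ξ₀ K : ℝ} {U : ℂ → ℝ} (h : Strip ξ₀ K U) :
    ∃ M : ℝ, 0 ≤ M ∧ ∀ (n : ℤ) (ξ : ℝ), ‖fcoef U n ξ‖ ≤ M := by
  have hcomp : IsCompact (Icc (-ξ₀) ξ₀ ×ˢ Icc (-Real.pi) Real.pi) :=
    isCompact_Icc.prod isCompact_Icc
  obtain ⟨C, hC⟩ := hcomp.exists_bound_of_continuousOn (h.cont.comp ela_cont_curve).continuousOn
  refine ⟨|C| * |Real.pi - -Real.pi|, by positivity, fun n ξ => ?_⟩
  by_cases hξ : ξ₀ ≤ |ξ|
  · rw [ela_out h n ξ hξ, norm_zero]
    positivity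
  · push Not at hξ
    refine intervalIntegral.norm_integral_le_of_norm_le_const fun t ht => ?_
    have hexp : ‖Complex.exp (-(n * t * Complex.I))‖ = 1 := by
      have : -((n : ℂ) * t * Complex.I) = ((-(n * t) : ℝ) : ℂ) * Complex.I := by push_cast; ring
      rw [this, Complex.norm_exp_ofReal_mul_I]
    rw [norm_mul, hexp, mul_one, Complex.norm_real]
    rw [uIoc_of_le (by linarith [Real.pi_pos])] at ht
    have h2 := abs_lt.1 hξ
    exact (hC (ξ, t) ⟨⟨h2.1.le, h2.2.le⟩, ht.1.le, ht.2⟩).trans (le_abs_self C)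

/-- the right side -/
noncomputable def ela_g (K : ℝ) (U : ℂ → ℝ) (n : ℤ) (ξ : ℝ) : ℂ :=
  K * (Real.cosh (2 * ξ) * fcoef U n ξ - (fcoef U (n - 2) ξ + fcoef U (n + 2) ξ) / 2)

theorem ela_transfer {ξ₀ K : ℝ} (hξ₀ : 0 < ξ₀) {U : ℂ → ℝ} (h : Strip ξ₀ K U) {n : ℤ} (hn : n ≠ 0)
    {G : ℝ} (hG : ∀ ξ : ℝ, |ξ| < ξ₀ → ‖ela_g K U n ξ‖ ≤ G) (ξ : ℝ) :
    ‖fcoef U n ξ‖ ≤ G / (n : ℝ) ^ 2 := by
  have hn2 : (0 : ℝ) < (n : ℝ) ^ 2 := by
    have : (n : ℝ) ≠ 0 := by exact_mod_cast hn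
    positivity
  have hG0 : 0 ≤ G := (norm_nonneg _).trans (hG 0 (by simpa using hξ₀))
  by_cases hξ : ξ₀ ≤ |ξ|
  · rw [ela_out h n ξ hξ, norm_zero]
    positivity
  · push Not at hξ
    obtain ⟨w, hw, hwz⟩ := RCLike.exists_norm_eq_mul_self (fcoef U n ξ)
    have hS : ela_Sm ξ₀ U := h.smooth
    have habs : ∀ x ∈ Ioo (-ξ₀) ξ₀, |x| < ξ₀ := fun x hx => abs_lt.2 hx
    have hre : ∀ {f : ℝ → ℂ} {f' : ℂ} {x : ℝ}, HasDerivAt f f' x →
        HasDerivAt (fun x => (w * f x).re) (w * f').re x := by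
      intro f f' x hf
      have h1 := hf.const_mul w
      exact (Complex.reCLM.hasFDerivAt.comp_hasDerivAt x h1)
    have h1 := ode_max (ξ₀ := ξ₀) (N := (n : ℝ) ^ 2) (G := G) hξ₀ hn2
      (c := fun x => (w * fcoef U n x).re) (c1 := fun x => (w * fcoef (dd 1 U) n x).re)
      (g := fun x => (w * ela_g K U n x).re)
      ((Complex.continuous_re.comp (continuous_const.mul (ela_cont h n))).continuousOn)
      (by
        rw [ela_out h n ξ₀ (le_abs_self _)]
        simp)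
      (by
        rw [ela_out h n (-ξ₀) (by rw [abs_neg]; exact le_abs_self _)]
        simp)
      (fun x hx => hre (ela_hasDeriv hS (habs x hx) n))
      (fun x hx => by
        have h2 := hre (ela_hasDeriv (hS.dd 1) (habs x hx) n)
        refine h2.congr_deriv ?_
        rw [ela_ode h (habs x hx) n]
        have h3 : w * ((n : ℂ) ^ 2 * fcoef U n x - K * (Real.cosh (2 * x) * fcoef U n x -
            (fcoef U (n - 2) x + fcoef U (n + 2) x) / 2)) =
            (((n : ℝ) ^ 2 : ℝ) : ℂ) * (w * fcoef U n x) - w * ela_g K U n x := by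
          unfold ela_g
          push_cast
          ring
        rw [h3, Complex.sub_re, Complex.re_ofReal_mul])
      (fun x hx => by
        refine (Complex.abs_re_le_norm _).trans ?_
        rw [norm_mul, hw, one_mul]
        exact hG x (habs x hx))
      ξ ⟨(abs_lt.1 hξ).1.le, (abs_lt.1 hξ).2.le⟩
    have h2 : (w * fcoef U n ξ).re = ‖fcoef U n ξ‖ := by
      rw [← hwz]
      simp
    beta_reduce at h1
    rwa [h2, abs_of_nonneg (norm_nonneg _)] at h1

/-- TARGET 2: the decay of the Fourier coefficients, uniformly up to the boundary of the strip. -/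
theorem fcoef_decay {ξ₀ K : ℝ} (hξ : 0 < ξ₀) {U : ℂ → ℝ} (h : Strip ξ₀ K U) :
    (∀ n : ℤ, Continuous (fcoef U n)) ∧ (∀ (n : ℤ) (ξ : ℝ), ξ₀ ≤ |ξ| → fcoef U n ξ = 0) ∧
    ∃ C : ℝ, ∀ (n : ℤ) (ξ : ℝ), n ≠ 0 → ‖fcoef U n ξ‖ ≤ C / (n : ℝ) ^ 4 := by
  refine ⟨ela_cont h, ela_out h, ?_⟩
  obtain ⟨M, hM0, hM⟩ := ela_bdd h
  have hcosh : ∀ ξ : ℝ, |ξ| < ξ₀ → Real.cosh (2 * ξ) ≤ Real.cosh (2 * ξ₀) := by
    intro x hx
    rw [Real.cosh_le_cosh, abs_mul, abs_mul, abs_of_pos hξ]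
    exact mul_le_mul_of_nonneg_left hx.le (abs_nonneg _)
  have hcosh0 : 0 < Real.cosh (2 * ξ₀) := Real.cosh_pos _
  have hgle : ∀ (n : ℤ) (x A B : ℝ), |x| < ξ₀ → ‖fcoef U n x‖ ≤ A → ‖fcoef U (n - 2) x‖ ≤ B →
      ‖fcoef U (n + 2) x‖ ≤ B → ‖ela_g K U n x‖ ≤ |K| * (Real.cosh (2 * ξ₀) * A + B) := by
    intro n x A B hx h1 h2 h3
    unfold ela_g
    rw [norm_mul, Complex.norm_real, Real.norm_eq_abs]
    refine mul_le_mul_of_nonneg_left ?_ (abs_nonneg _)
    refine (norm_sub_le _ _).trans (add_le_add ?_ ?_)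
    · rw [norm_mul, Complex.norm_real, Real.norm_eq_abs, abs_of_pos (Real.cosh_pos _)]
      exact mul_le_mul (hcosh x hx) h1 (norm_nonneg _) hcosh0.le
    · rw [norm_div]
      have h4 := (norm_add_le (fcoef U (n - 2) x) (fcoef U (n + 2) x)).trans (add_le_add h2 h3)
      have h5 : ‖(2 : ℂ)‖ = 2 := by simp
      rw [h5, div_le_iff₀ (by norm_num)]
      linarith
  set G₀ := |K| * (Real.cosh (2 * ξ₀) * M + M) with hG₀
  have hG₀0 : 0 ≤ G₀ := by positivity
  have hstep1 : ∀ (n : ℤ) (x : ℝ), n ≠ 0 → ‖fcoef U n x‖ ≤ G₀ / (n : ℝ) ^ 2 := fun n x hn =>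
    ela_transfer hξ h hn (fun x hx => hgle n x M M hx (hM _ _) (hM _ _) (hM _ _)) x
  set B₀ := 9 * G₀ + 4 * M with hB₀
  have hstep2 : ∀ (n m : ℤ) (x : ℝ), n ≠ 0 → (m = n - 2 ∨ m = n + 2) →
      ‖fcoef U m x‖ ≤ B₀ / (n : ℝ) ^ 2 := by
    intro n m x hn hm
    have hn2 : (0 : ℝ) < (n : ℝ) ^ 2 := by
      have : (n : ℝ) ≠ 0 := by exact_mod_cast hn
      positivity
    by_cases hm0 : m = 0
    · have h1 : (n : ℝ) ^ 2 = 4 := by
        have h2 : n ^ 2 = 4 := by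
          rcases hm with h3 | h3
          · have : n = 2 := by omega
            rw [this]; norm_num
          · have : n = -2 := by omega
            rw [this]; norm_num
        exact_mod_cast h2
      rw [h1, le_div_iff₀ (by norm_num)]
      have := hM m x
      linarith
    · refine (hstep1 m x hm0).trans ?_
      have hm2 : (0 : ℝ) < (m : ℝ) ^ 2 := by
        have : (m : ℝ) ≠ 0 := by exact_mod_cast hm0
        positivity
      have h1 : (n : ℝ) ^ 2 ≤ 9 * (m : ℝ) ^ 2 := by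
        have h2 : n ^ 2 ≤ 9 * m ^ 2 := by
          have h3 : |n| ≤ 3 * |m| := by
            have h4 : 1 ≤ |m| := Int.one_le_abs hm0
            rcases hm with h3 | h3
            · have h5 : |n| ≤ |m| + 2 := by
                have : n = m + 2 := by omega
                rw [this]
                exact (abs_add_le _ _).trans (by norm_num)
              omega
            · have h5 : |n| ≤ |m| + 2 := by
                have : n = m + -2 := by omega
                rw [this]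
                exact (abs_add_le _ _).trans (by norm_num)
              omega
          calc n ^ 2 = |n| ^ 2 := (sq_abs n).symm
            _ ≤ (3 * |m|) ^ 2 := by gcongr
            _ = 9 * m ^ 2 := by rw [mul_pow, sq_abs]; norm_num
        exact_mod_cast h2
      rw [div_le_div_iff₀ hm2 hn2]
      nlinarith
  refine ⟨|K| * (Real.cosh (2 * ξ₀) * G₀ + B₀), fun n x hn => ?_⟩
  have hn2 : (0 : ℝ) < (n : ℝ) ^ 2 := by
    have : (n : ℝ) ≠ 0 := by exact_mod_cast hn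
    positivity
  have h1 := ela_transfer hξ h hn (fun x hx => hgle n x _ _ hx (hstep1 n x hn)
    (hstep2 n (n - 2) x hn (Or.inl rfl)) (hstep2 n (n + 2) x hn (Or.inr rfl))) x
  refine h1.trans (le_of_eq ?_)
  field_simp

end Pool.Agent.Helper327_Drum
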