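import Pool.Agent.Helper327_Drum.EDefs
import Pool.Agent.Helper327_Drum.Fin.EL1a

set_option autoImplicit false
open MeasureTheory Set Filter Topology ComplexConjugate
open scoped ContDiff

namespace Pool.Agent.Helper327_Drum

open Pool.Agent.TH298.Sch (dd SC Lr)
open Pool.Agent.R227.SA (la Wat Dat)

namespace EL1b

lemma line_hd (ξ η : ℝ) : HasDerivAt (fun t : ℝ => (ξ : ℂ) + t * Complex.I) Complex.I η := by
  have h1 : HasDerivAt (fun t : ℝ => (t : ℂ)) 1 η := Complex.ofRealCLM.hasDerivAt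
  have h2 := (h1.mul_const Complex.I).const_add (ξ : ℂ)
  simpa using h2

lemma line_re (ξ η : ℝ) : ((ξ : ℂ) + η * Complex.I).re = ξ := by simp

lemma cda_dd {V : ℂ → ℝ} {x h : ℂ} (hV : ContDiffAt ℝ ∞ V x) : ContDiffAt ℝ ∞ (dd h V) x := by
  have h1 : ContDiffAt ℝ ∞ (fderiv ℝ V) x := hV.fderiv_right (m := ∞) (by simp)
  exact h1.clm_apply contDiffAt_const

lemma line_dd {V : ℂ → ℝ} {ξ η : ℝ} (hV : ContDiffAt ℝ ∞ V (ξ + η * Complex.I)) :
    HasDerivAt (fun t : ℝ => V (ξ + t * Complex.I)) (dd Complex.I V (ξ + η * Complex.I)) η := by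
  have h1 : HasFDerivAt V (fderiv ℝ V (ξ + η * Complex.I)) (ξ + η * Complex.I) :=
    (hV.differentiableAt (by simp)).hasFDerivAt
  exact h1.comp_hasDerivAt η (line_hd ξ η)

lemma dd_per {V : ℂ → ℝ} (hV : ∀ ζ : ℂ, V (ζ + 2 * Real.pi * Complex.I) = V ζ) (h ζ : ℂ) :
    dd h V (ζ + 2 * Real.pi * Complex.I) = dd h V ζ := by
  unfold dd
  have h1 : (fun z : ℂ => V (z + 2 * Real.pi * Complex.I)) = V := funext hV
  have h2 := fderiv_comp_add_right (𝕜 := ℝ) (f := V) (x := ζ) (2 * Real.pi * Complex.I : ℂ)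
  rw [h1] at h2
  rw [h2]

section
variable {ξ₀ K : ℝ} {U : ℂ → ℝ}

lemma hd1 (h : Strip ξ₀ K U) {ξ : ℝ} (hx : |ξ| < ξ₀) (η : ℝ) :
    HasDerivAt (fun t : ℝ => U (ξ + t * Complex.I)) (dd Complex.I U (ξ + η * Complex.I)) η :=
  line_dd (h.smooth _ (by simpa using hx))

lemma hd2 (h : Strip ξ₀ K U) {ξ : ℝ} (hx : |ξ| < ξ₀) (η : ℝ) :
    HasDerivAt (fun t : ℝ => dd Complex.I U (ξ + t * Complex.I))
      (dd Complex.I (dd Complex.I U) (ξ + η * Complex.I)) η :=
  line_dd (cda_dd (h.smooth _ (by simpa using hx)))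

lemma c2 (h : Strip ξ₀ K U) {ξ : ℝ} (hx : |ξ| < ξ₀) :
    Continuous (fun t : ℝ => dd Complex.I (dd Complex.I U) (ξ + t * Complex.I)) := by
  rw [continuous_iff_continuousAt]
  intro η
  exact (line_dd (cda_dd (cda_dd (h.smooth _ (by simpa using hx))))).continuousAt

lemma c1 (h : Strip ξ₀ K U) {ξ : ℝ} (hx : |ξ| < ξ₀) :
    Continuous (fun t : ℝ => dd Complex.I U (ξ + t * Complex.I)) := by
  rw [continuous_iff_continuousAt]
  intro η
  exact (hd2 h hx η).continuousAt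

lemma per_line {V : ℂ → ℝ} (hV : ∀ ζ : ℂ, V (ζ + 2 * Real.pi * Complex.I) = V ζ) (ξ η : ℝ) :
    V (ξ + (η + 2 * Real.pi : ℝ) * Complex.I) = V (ξ + η * Complex.I) := by
  rw [← hV (ξ + η * Complex.I)]
  congr 1
  push_cast
  ring

lemma exp_hd (n : ℤ) (η : ℝ) :
    HasDerivAt (fun t : ℝ => Complex.exp (-(n * t * Complex.I)))
      (-(n * Complex.I) * Complex.exp (-(n * η * Complex.I))) η := by
  have h1 : HasDerivAt (fun t : ℝ => (t : ℂ)) 1 η := Complex.ofRealCLM.hasDerivAt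
  have h2 : HasDerivAt (fun t : ℝ => -((n : ℂ) * t * Complex.I)) (-((n : ℂ) * 1 * Complex.I)) η :=
    ((h1.const_mul (n : ℂ)).mul_const Complex.I).neg
  have h3 := h2.cexp
  convert h3 using 1
  ring

lemma exp_bd (n : ℤ) : Complex.exp (-(n * (Real.pi : ℝ) * Complex.I)) =
    Complex.exp (-(n * (-Real.pi : ℝ) * Complex.I)) := by
  have h1 := Complex.exp_periodic.int_mul n (-(n * (Real.pi : ℝ) * Complex.I))
  rw [← h1]
  congr 1
  push_cast
  ring

/-- one integration by parts against the exponential, periodic boundary values -/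
lemma ibp {g g' : ℝ → ℝ} (hg : ∀ η, HasDerivAt g (g' η) η) (hc : Continuous g')
    (hb : g Real.pi = g (-Real.pi)) (n : ℤ) :
    ∫ η in (-Real.pi)..Real.pi, (g' η : ℂ) * Complex.exp (-(n * η * Complex.I)) =
      (n * Complex.I) * ∫ η in (-Real.pi)..Real.pi, (g η : ℂ) * Complex.exp (-(n * η * Complex.I)) := by
  have hgc : Continuous g := by
    rw [continuous_iff_continuousAt]; exact fun η => (hg η).continuousAt
  have hec : Continuous (fun η : ℝ => Complex.exp (-((n : ℂ) * η * Complex.I))) := by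
    fun_prop
  have hg2 : ∀ η : ℝ, HasDerivAt (fun t : ℝ => ((g t : ℝ) : ℂ)) ((g' η : ℝ) : ℂ) η :=
    fun η => (hg η).ofReal_comp
  have key := intervalIntegral.integral_deriv_mul_eq_sub
    (a := -Real.pi) (b := Real.pi)
    (u := fun η : ℝ => ((g η : ℝ) : ℂ)) (u' := fun η : ℝ => ((g' η : ℝ) : ℂ))
    (v := fun η : ℝ => Complex.exp (-((n : ℂ) * η * Complex.I)))
    (v' := fun η : ℝ => -((n : ℂ) * Complex.I) * Complex.exp (-((n : ℂ) * η * Complex.I)))
    (fun x _ => hg2 x) (fun x _ => exp_hd n x)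
    ((Complex.continuous_ofReal.comp hc).intervalIntegrable _ _)
    ((continuous_const.mul hec).intervalIntegrable _ _)
  have i1 : IntervalIntegrable (fun η : ℝ => ((g' η : ℝ) : ℂ) * Complex.exp (-((n : ℂ) * η * Complex.I)))
      volume (-Real.pi) Real.pi := ((Complex.continuous_ofReal.comp hc).mul hec).intervalIntegrable _ _
  have i2 : IntervalIntegrable (fun η : ℝ => ((g η : ℝ) : ℂ) *
      (-((n : ℂ) * Complex.I) * Complex.exp (-((n : ℂ) * η * Complex.I))))
      volume (-Real.pi) Real.pi :=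
    ((Complex.continuous_ofReal.comp hgc).mul (continuous_const.mul hec)).intervalIntegrable _ _
  rw [intervalIntegral.integral_add i1 i2] at key
  rw [exp_bd n, hb, sub_self] at key
  have e2 : (∫ η in (-Real.pi)..Real.pi, ((g η : ℝ) : ℂ) *
      (-((n : ℂ) * Complex.I) * Complex.exp (-((n : ℂ) * η * Complex.I)))) =
      -(n * Complex.I) * ∫ η in (-Real.pi)..Real.pi, (g η : ℂ) * Complex.exp (-(n * η * Complex.I)) := by
    rw [← intervalIntegral.integral_const_mul]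
    congr 1
    ext η
    ring
  rw [e2] at key
  linear_combination key

lemma c2coef (h : Strip ξ₀ K U) {ξ : ℝ} (hx : |ξ| < ξ₀) (n : ℤ) :
    ∫ η in (-Real.pi)..Real.pi, ((dd Complex.I (dd Complex.I U) (ξ + η * Complex.I) : ℝ) : ℂ) *
      Complex.exp (-(n * η * Complex.I)) = -((n : ℂ) ^ 2) * fcoef U n ξ := by
  have b1 : dd Complex.I U (ξ + (Real.pi : ℝ) * Complex.I) =
      dd Complex.I U (ξ + (-Real.pi : ℝ) * Complex.I) := by
    rw [← per_line (V := dd Complex.I U) (dd_per h.per _) ξ (-Real.pi)]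
    congr 2
    push_cast
    ring
  have b0 : U (ξ + (Real.pi : ℝ) * Complex.I) = U (ξ + (-Real.pi : ℝ) * Complex.I) := by
    rw [← per_line (V := U) h.per ξ (-Real.pi)]
    congr 2
    push_cast
    ring
  rw [ibp (g := fun t : ℝ => dd Complex.I U (ξ + t * Complex.I)) (hd2 h hx) (c2 h hx) b1 n]
  rw [ibp (g := fun t : ℝ => U (ξ + t * Complex.I)) (hd1 h hx) (c1 h hx) b0 n]
  unfold fcoef
  rw [← mul_assoc]
  congr 1
  linear_combination (n : ℂ) ^ 2 * Complex.I_mul_I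

end

instance factPi : Fact (0 < 2 * Real.pi) := ⟨by positivity⟩

/-- bound of a continuous periodic function by its Fourier coefficients -/
lemma four_bd {g : ℝ → ℝ} (hg : Continuous g) (hp : ∀ η, g (η + 2 * Real.pi) = g η)
    {a : ℤ → ℂ} (ha : ∀ n : ℤ, ∫ η in (-Real.pi)..Real.pi, ((g η : ℝ) : ℂ) *
      Complex.exp (-(n * η * Complex.I)) = a n) (hs : Summable fun n => ‖a n‖) (η : ℝ) :
    |g η| ≤ (1 / (2 * Real.pi)) * ∑' n : ℤ, ‖a n‖ := by
  have hper : Function.Periodic (fun t : ℝ => ((g t : ℝ) : ℂ)) (2 * Real.pi) := by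
    intro t; simp only [hp t]
  let F : C(AddCircle (2 * Real.pi), ℂ) :=
    ⟨hper.lift, by
      apply continuous_coinduced_dom.mpr
      exact Complex.continuous_ofReal.comp hg⟩
  have hF : ∀ t : ℝ, F (t : AddCircle (2 * Real.pi)) = ((g t : ℝ) : ℂ) := fun t => rfl
  have hco : ∀ n : ℤ, fourierCoeff F n = (1 / (2 * Real.pi) : ℝ) • a n := by
    intro n
    rw [fourierCoeff_eq_intervalIntegral _ n (-Real.pi)]
    congr 1
    rw [← ha n]
    have e : -Real.pi + 2 * Real.pi = Real.pi := by ring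
    rw [e]
    apply intervalIntegral.integral_congr
    intro t _
    simp only [hF, fourier_coe_apply, smul_eq_mul]
    rw [mul_comm]
    congr 2
    push_cast
    have : (Real.pi : ℂ) ≠ 0 := by exact_mod_cast Real.pi_ne_zero
    field_simp
  have hsum : Summable (fourierCoeff F) := by
    apply Summable.of_norm
    have : (fun n => ‖fourierCoeff F n‖) = fun n => (1 / (2 * Real.pi)) * ‖a n‖ := by
      ext n
      rw [hco n, norm_smul, Real.norm_of_nonneg (by positivity)]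
    rw [this]
    exact hs.mul_left _
  have hps := has_pointwise_sum_fourier_series_of_summable hsum (η : AddCircle (2 * Real.pi))
  rw [hF] at hps
  have hn : ∀ n : ℤ, ‖fourierCoeff F n • fourier n (η : AddCircle (2 * Real.pi))‖ =
      (1 / (2 * Real.pi)) * ‖a n‖ := by
    intro n
    rw [norm_smul, hco n, norm_smul, Real.norm_of_nonneg (by positivity)]
    have : ‖fourier n (η : AddCircle (2 * Real.pi))‖ = 1 := by
      rw [fourier_apply]; exact Circle.norm_coe _
    rw [this, mul_one]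
  have hnorm : Summable fun n : ℤ => ‖fourierCoeff F n • fourier n (η : AddCircle (2 * Real.pi))‖ := by
    simp only [hn]
    exact hs.mul_left _
  have h1 := norm_tsum_le_tsum_norm hnorm
  rw [hps.tsum_eq] at h1
  simp only [hn] at h1
  rw [tsum_mul_left] at h1
  simpa using h1

end EL1b

open EL1b

/-- TARGET: the second derivative along the boundary vanishes at the boundary. -/
theorem strip_reg {ξ₀ K : ℝ} (hξ : 0 < ξ₀) {U : ℂ → ℝ} (h : Strip ξ₀ K U) :
    ∀ ε > 0, ∃ δ > 0, ∀ ζ : ℂ, ξ₀ - δ < |ζ.re| → |ζ.re| < ξ₀ →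
      |dd Complex.I (dd Complex.I U) ζ| < ε := by
  intro ε hε
  obtain ⟨hc, h0, C, hC⟩ := fcoef_decay hξ h
  set S : ℝ → ℝ := fun ξ => ∑' n : ℤ, ‖-((n : ℂ) ^ 2) * fcoef U n ξ‖ with hS
  have hb : ∀ (n : ℤ) (ξ : ℝ), ‖-((n : ℂ) ^ 2) * fcoef U n ξ‖ ≤ |C| * (1 / (n : ℝ) ^ 2) := by
    intro n ξ
    rw [norm_mul, norm_neg, norm_pow, Complex.norm_intCast]
    rcases eq_or_ne n 0 with hn | hn
    · subst hn; simp
    · have hn' : (n : ℝ) ≠ 0 := by exact_mod_cast hn
      have h1 := hC n ξ hn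
      have h2 : C / (n : ℝ) ^ 4 ≤ |C| / (n : ℝ) ^ 4 := by
        apply div_le_div_of_nonneg_right (le_abs_self C)
        positivity
      have h3 : |(n : ℝ)| ^ 2 = (n : ℝ) ^ 2 := sq_abs _
      rw [h3]
      calc (n : ℝ) ^ 2 * ‖fcoef U n ξ‖ ≤ (n : ℝ) ^ 2 * (|C| / (n : ℝ) ^ 4) := by
            apply mul_le_mul_of_nonneg_left (h1.trans h2) (by positivity)
        _ = |C| * (1 / (n : ℝ) ^ 2) := by field_simp
  have hu : Summable fun n : ℤ => |C| * (1 / (n : ℝ) ^ 2) :=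
    (Real.summable_one_div_int_pow.mpr (by norm_num)).mul_left _
  have hScont : Continuous S := by
    apply continuous_tsum (u := fun n : ℤ => |C| * (1 / (n : ℝ) ^ 2))
    · intro n
      exact (continuous_const.mul (hc n)).norm
    · exact hu
    · intro n ξ
      rw [norm_norm]
      exact hb n ξ
  have hS0 : ∀ ξ : ℝ, ξ₀ ≤ |ξ| → S ξ = 0 := by
    intro ξ hx
    simp only [hS]
    have : ∀ n : ℤ, ‖-((n : ℂ) ^ 2) * fcoef U n ξ‖ = 0 := by
      intro n; rw [h0 n ξ hx]; simp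
    simp only [this, tsum_zero]
  have hmain : ∀ ζ : ℂ, |ζ.re| < ξ₀ →
      |dd Complex.I (dd Complex.I U) ζ| ≤ (1 / (2 * Real.pi)) * S ζ.re := by
    intro ζ hz
    have h1 := four_bd (g := fun t : ℝ => dd Complex.I (dd Complex.I U) (ζ.re + t * Complex.I))
      (c2 h hz) (fun η => per_line (dd_per (dd_per h.per _) _) ζ.re η)
      (a := fun n => -((n : ℂ) ^ 2) * fcoef U n ζ.re) (fun n => c2coef h hz n)
      (Summable.of_nonneg_of_le (fun n => norm_nonneg _) (fun n => hb n ζ.re) hu) ζ.im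
    simpa only [Complex.re_add_im] using h1
  have hpi : 0 < 2 * Real.pi * ε := by positivity
  have hlim : ∀ x0 : ℝ, |x0| = ξ₀ → ∃ δ > 0, ∀ ξ : ℝ, |ξ - x0| < δ → S ξ < 2 * Real.pi * ε := by
    intro x0 hx0
    obtain ⟨δ, hδ, hh⟩ := Metric.continuous_iff.mp hScont x0 (2 * Real.pi * ε) hpi
    refine ⟨δ, hδ, fun ξ hx => ?_⟩
    have h1 := hh ξ (by simpa [Real.dist_eq] using hx)
    rw [Real.dist_eq, hS0 x0 hx0.ge, sub_zero] at h1
    exact (le_abs_self _).trans_lt h1
  obtain ⟨δ1, hδ1, h1⟩ := hlim ξ₀ (abs_of_pos hξ)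
  obtain ⟨δ2, hδ2, h2⟩ := hlim (-ξ₀) (by rw [abs_neg]; exact abs_of_pos hξ)
  refine ⟨min δ1 δ2, lt_min hδ1 hδ2, fun ζ hz1 hz2 => ?_⟩
  have hSl : S ζ.re < 2 * Real.pi * ε := by
    rcases le_total 0 ζ.re with hr | hr
    · apply h1
      rw [abs_of_nonneg hr] at hz1 hz2
      rw [abs_lt]
      have := min_le_left δ1 δ2
      constructor <;> linarith
    · apply h2
      rw [abs_of_nonpos hr] at hz1 hz2
      rw [abs_lt]
      have := min_le_right δ1 δ2
      constructor <;> linarith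
  calc |dd Complex.I (dd Complex.I U) ζ| ≤ (1 / (2 * Real.pi)) * S ζ.re := hmain ζ hz2
    _ < (1 / (2 * Real.pi)) * (2 * Real.pi * ε) := by
        apply mul_lt_mul_of_pos_left hSl (by positivity)
    _ = ε := by field_simp

end Pool.Agent.Helper327_Drum
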