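import Pool.Agent.Helper327_Drum.EDefs

/-
JOB EL2 (owner helper327, problem MP_d92c84_an). All imports are on origin/main.
-/

set_option autoImplicit false
open MeasureTheory Set Filter Topology ComplexConjugate
open scoped ContDiff

namespace Pool.Agent.Helper327_Drum

open Pool.Agent.TH298.Sch (dd SC Lr)
open Pool.Agent.R227.SA (la Wat Dat)

/-
Definitions (EDefs.lean): `ell f ξ₀ = {x | (x.re / (f cosh ξ₀))² + (x.im / (f sinh ξ₀))² < 1}`. With ζ = ξ + iη: f cosh ζ = f cosh ξ cos η + i f sinh ξ sin η.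
-/

/-! ### auxiliary facts -/

lemma el_cosh (ζ : ℂ) : Complex.cosh ζ =
    Complex.cosh (ζ.re : ℂ) * Complex.cos (ζ.im : ℂ)
      + Complex.sinh (ζ.re : ℂ) * Complex.sin (ζ.im : ℂ) * Complex.I := by
  conv_lhs => rw [← Complex.re_add_im ζ]
  rw [Complex.cosh_add, Complex.cosh_mul_I, Complex.sinh_mul_I]
  ring

lemma el_sinh (ζ : ℂ) : Complex.sinh ζ =
    Complex.sinh (ζ.re : ℂ) * Complex.cos (ζ.im : ℂ)
      + Complex.cosh (ζ.re : ℂ) * Complex.sin (ζ.im : ℂ) * Complex.I := by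
  conv_lhs => rw [← Complex.re_add_im ζ]
  rw [Complex.sinh_add, Complex.cosh_mul_I, Complex.sinh_mul_I]
  ring

lemma el_re (ζ : ℂ) : (Complex.cosh ζ).re = Real.cosh ζ.re * Real.cos ζ.im := by
  rw [el_cosh, ← Complex.ofReal_cosh, ← Complex.ofReal_cos, ← Complex.ofReal_sinh,
    ← Complex.ofReal_sin]
  simp only [Complex.add_re, Complex.add_im, Complex.mul_re, Complex.mul_im, Complex.ofReal_re,
    Complex.ofReal_im, Complex.I_re, Complex.I_im]
  ring

lemma el_im (ζ : ℂ) : (Complex.cosh ζ).im = Real.sinh ζ.re * Real.sin ζ.im := by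
  rw [el_cosh, ← Complex.ofReal_cosh, ← Complex.ofReal_cos, ← Complex.ofReal_sinh,
    ← Complex.ofReal_sin]
  simp only [Complex.add_re, Complex.add_im, Complex.mul_re, Complex.mul_im, Complex.ofReal_re,
    Complex.ofReal_im, Complex.I_re, Complex.I_im]
  ring

lemma el_sre (ζ : ℂ) : (Complex.sinh ζ).re = Real.sinh ζ.re * Real.cos ζ.im := by
  rw [el_sinh, ← Complex.ofReal_cosh, ← Complex.ofReal_cos, ← Complex.ofReal_sinh,
    ← Complex.ofReal_sin]
  simp only [Complex.add_re, Complex.add_im, Complex.mul_re, Complex.mul_im, Complex.ofReal_re,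
    Complex.ofReal_im, Complex.I_re, Complex.I_im]
  ring

lemma el_sim (ζ : ℂ) : (Complex.sinh ζ).im = Real.cosh ζ.re * Real.sin ζ.im := by
  rw [el_sinh, ← Complex.ofReal_cosh, ← Complex.ofReal_cos, ← Complex.ofReal_sinh,
    ← Complex.ofReal_sin]
  simp only [Complex.add_re, Complex.add_im, Complex.mul_re, Complex.mul_im, Complex.ofReal_re,
    Complex.ofReal_im, Complex.I_re, Complex.I_im]
  ring

lemma el_fre (f : ℝ) (z : ℂ) : ((f : ℂ) * z).re = f * z.re := by simp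

lemma el_fim (f : ℝ) (z : ℂ) : ((f : ℂ) * z).im = f * z.im := by simp

lemma el_norm (z : ℂ) (a : ℝ) (ha : 0 ≤ a) (h : z.re ^ 2 + z.im ^ 2 = a ^ 2) : ‖z‖ = a := by
  rw [Complex.norm_eq_sqrt_sq_add_sq, h, Real.sqrt_sq ha]

/-- TARGET 1: elliptic coordinates. -/
theorem ell_re {f : ℝ} (hf : 0 < f) (ζ : ℂ) :
    ‖(f : ℂ) * Complex.cosh ζ - f‖ + ‖(f : ℂ) * Complex.cosh ζ + f‖ = 2 * f * Real.cosh ζ.re := by
  have hc := Real.one_le_cosh ζ.re
  have h1 := Real.cos_le_one ζ.im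
  have h2 := Real.neg_one_le_cos ζ.im
  have h3 := Real.cosh_sq ζ.re
  have h4 := Real.sin_sq_add_cos_sq ζ.im
  have e1 : ‖(f : ℂ) * Complex.cosh ζ - f‖ = f * (Real.cosh ζ.re - Real.cos ζ.im) := by
    apply el_norm
    · exact mul_nonneg hf.le (by linarith)
    · rw [Complex.sub_re, Complex.sub_im, el_fre, el_fim, el_re, el_im, Complex.ofReal_re,
        Complex.ofReal_im]
      have h5 : Real.sinh ζ.re ^ 2 = Real.cosh ζ.re ^ 2 - 1 := by linarith
      have h6 : Real.sin ζ.im ^ 2 = 1 - Real.cos ζ.im ^ 2 := by linarith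
      calc (f * (Real.cosh ζ.re * Real.cos ζ.im) - f) ^ 2 +
            (f * (Real.sinh ζ.re * Real.sin ζ.im) - 0) ^ 2
          = f ^ 2 * ((Real.cosh ζ.re * Real.cos ζ.im - 1) ^ 2 +
            Real.sinh ζ.re ^ 2 * Real.sin ζ.im ^ 2) := by ring
        _ = _ := by rw [h5, h6]; ring
  have e2 : ‖(f : ℂ) * Complex.cosh ζ + f‖ = f * (Real.cosh ζ.re + Real.cos ζ.im) := by
    apply el_norm
    · exact mul_nonneg hf.le (by linarith)
    · rw [Complex.add_re, Complex.add_im, el_fre, el_fim, el_re, el_im, Complex.ofReal_re,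
        Complex.ofReal_im]
      have h5 : Real.sinh ζ.re ^ 2 = Real.cosh ζ.re ^ 2 - 1 := by linarith
      have h6 : Real.sin ζ.im ^ 2 = 1 - Real.cos ζ.im ^ 2 := by linarith
      calc (f * (Real.cosh ζ.re * Real.cos ζ.im) + f) ^ 2 +
            (f * (Real.sinh ζ.re * Real.sin ζ.im) + 0) ^ 2
          = f ^ 2 * ((Real.cosh ζ.re * Real.cos ζ.im + 1) ^ 2 +
            Real.sinh ζ.re ^ 2 * Real.sin ζ.im ^ 2) := by ring
        _ = _ := by rw [h5, h6]; ring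
  rw [e1, e2]
  ring

/-- TARGET 2 -/
theorem ell_mem {f ξ₀ : ℝ} (hf : 0 < f) (hξ : 0 < ξ₀) (ζ : ℂ) :
    (f : ℂ) * Complex.cosh ζ ∈ ell f ξ₀ ↔ |ζ.re| < ξ₀ := by
  have hC0 := Real.cosh_pos ξ₀
  have hS0 : 0 < Real.sinh ξ₀ := Real.sinh_pos_iff.2 hξ
  have h3 := Real.cosh_sq ζ.re
  have h3' := Real.cosh_sq ξ₀
  have h4 := Real.sin_sq_add_cos_sq ζ.im
  have hE : ((f * (Real.cosh ζ.re * Real.cos ζ.im)) / (f * Real.cosh ξ₀)) ^ 2 +
      ((f * (Real.sinh ζ.re * Real.sin ζ.im)) / (f * Real.sinh ξ₀)) ^ 2 =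
      (Real.cosh ζ.re ^ 2 / Real.cosh ξ₀ ^ 2) * Real.cos ζ.im ^ 2 +
      (Real.sinh ζ.re ^ 2 / Real.sinh ξ₀ ^ 2) * Real.sin ζ.im ^ 2 := by
    field_simp
  unfold ell
  rw [Set.mem_ofPred_eq, el_fre, el_fim, el_re, el_im, hE]
  have hc2 : 0 ≤ Real.cos ζ.im ^ 2 := sq_nonneg _
  have hs2 : 0 ≤ Real.sin ζ.im ^ 2 := sq_nonneg _
  have hcp := Real.cosh_pos ζ.re
  constructor
  · intro h
    by_contra hcon
    rw [not_lt] at hcon
    have h5 : Real.cosh ξ₀ ≤ Real.cosh ζ.re := by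
      rw [Real.cosh_le_cosh, abs_of_pos hξ]
      exact hcon
    have h6 : Real.cosh ξ₀ ^ 2 ≤ Real.cosh ζ.re ^ 2 := pow_le_pow_left₀ hC0.le h5 2
    have h7 : 1 ≤ Real.cosh ζ.re ^ 2 / Real.cosh ξ₀ ^ 2 := by
      rw [one_le_div (pow_pos hC0 2)]
      exact h6
    have h8 : 1 ≤ Real.sinh ζ.re ^ 2 / Real.sinh ξ₀ ^ 2 := by
      rw [one_le_div (pow_pos hS0 2)]
      linarith
    have h9 := mul_le_mul_of_nonneg_right h7 hc2
    have h10 := mul_le_mul_of_nonneg_right h8 hs2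
    linarith
  · intro h
    have h5 : Real.cosh ζ.re < Real.cosh ξ₀ := by
      rw [Real.cosh_lt_cosh, abs_of_pos hξ]
      exact h
    have h6 : Real.cosh ζ.re ^ 2 < Real.cosh ξ₀ ^ 2 := pow_lt_pow_left₀ h5 hcp.le (by norm_num)
    have h7 : Real.cosh ζ.re ^ 2 / Real.cosh ξ₀ ^ 2 < 1 := by
      rw [div_lt_one (pow_pos hC0 2)]
      exact h6
    have h8 : Real.sinh ζ.re ^ 2 / Real.sinh ξ₀ ^ 2 < 1 := by
      rw [div_lt_one (pow_pos hS0 2)]
      linarith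
    by_cases hc0 : Real.cos ζ.im ^ 2 = 0
    · have hs1 : Real.sin ζ.im ^ 2 = 1 := by linarith
      rw [hc0, hs1]
      linarith
    · have h9 := mul_lt_mul_of_pos_right h7 (lt_of_le_of_ne hc2 (Ne.symm hc0))
      have h10 := mul_le_mul_of_nonneg_right h8.le hs2
      linarith

/-- TARGET 3 (Complex.cosh is surjective and even; im can be shifted by multiples of 2π) -/
theorem ell_surj {f : ℝ} (hf : 0 < f) (x : ℂ) :
    ∃ ζ : ℂ, 0 ≤ ζ.re ∧ |ζ.im| ≤ Real.pi ∧ x = (f : ℂ) * Complex.cosh ζ := by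
  obtain ⟨w, hw⟩ := Complex.cos_surjective (x / f)
  have hfc : (f : ℂ) ≠ 0 := by exact_mod_cast hf.ne'
  obtain ⟨ζ, hζ0, hζ⟩ : ∃ ζ : ℂ, 0 ≤ ζ.re ∧ Complex.cosh ζ = x / f := by
    rcases le_or_gt 0 (w * Complex.I).re with h | h
    · exact ⟨w * Complex.I, h, by rw [Complex.cosh_mul_I, hw]⟩
    · refine ⟨-(w * Complex.I), ?_, by rw [Complex.cosh_neg, Complex.cosh_mul_I, hw]⟩
      rw [Complex.neg_re]
      linarith
  refine ⟨Complex.log (Complex.exp ζ), ?_, ?_, ?_⟩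
  · rw [Complex.log_re, Complex.norm_exp, Real.log_exp]
    exact hζ0
  · rw [Complex.log_im]
    exact Complex.abs_arg_le_pi _
  · have h1 : Complex.exp (Complex.log (Complex.exp ζ)) = Complex.exp ζ :=
      Complex.exp_log (Complex.exp_ne_zero _)
    have h2 : Complex.cosh (Complex.log (Complex.exp ζ)) = Complex.cosh ζ := by
      unfold Complex.cosh
      rw [Complex.exp_neg, h1, Complex.exp_neg]
    rw [h2, hζ, mul_div_cancel₀ _ hfc]

/-- TARGET 4 -/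
theorem ell_open {f ξ₀ : ℝ} (hf : 0 < f) (hξ : 0 < ξ₀) :
    IsOpen (ell f ξ₀) ∧ Bornology.IsBounded (ell f ξ₀) := by
  have hC0 := Real.cosh_pos ξ₀
  have hS0 : 0 < Real.sinh ξ₀ := Real.sinh_pos_iff.2 hξ
  constructor
  · unfold ell
    refine isOpen_lt ?_ continuous_const
    exact ((Complex.continuous_re.div_const _).pow 2).add
      ((Complex.continuous_im.div_const _).pow 2)
  · refine (Metric.isBounded_closedBall (x := (0 : ℂ))
      (r := f * Real.cosh ξ₀ + f * Real.sinh ξ₀)).subset ?_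
    intro x hx
    unfold ell at hx
    rw [Set.mem_ofPred_eq] at hx
    rw [Metric.mem_closedBall, dist_eq_norm, sub_zero]
    refine (Complex.norm_le_abs_re_add_abs_im x).trans ?_
    have a1 : (x.re / (f * Real.cosh ξ₀)) ^ 2 ≤ 1 := by
      have := sq_nonneg (x.im / (f * Real.sinh ξ₀))
      linarith
    have a2 : (x.im / (f * Real.sinh ξ₀)) ^ 2 ≤ 1 := by
      have := sq_nonneg (x.re / (f * Real.cosh ξ₀))
      linarith
    have b1 : |x.re / (f * Real.cosh ξ₀)| ≤ 1 := by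
      rw [← sq_le_one_iff_abs_le_one]
      exact a1
    have b2 : |x.im / (f * Real.sinh ξ₀)| ≤ 1 := by
      rw [← sq_le_one_iff_abs_le_one]
      exact a2
    have p1 : 0 < f * Real.cosh ξ₀ := mul_pos hf hC0
    have p2 : 0 < f * Real.sinh ξ₀ := mul_pos hf hS0
    rw [abs_div, abs_of_pos p1, div_le_one p1] at b1
    rw [abs_div, abs_of_pos p2, div_le_one p2] at b2
    exact add_le_add b1 b2

/-! ### second derivatives -/

lemma el_second {u : ℂ → ℝ} {x : ℂ} (hs : ContDiffAt ℝ ∞ u x) :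
    HasFDerivAt (fderiv ℝ u) (fderiv ℝ (fderiv ℝ u) x) x := by
  have h1 : ContDiffAt ℝ ∞ (fderiv ℝ u) x := hs.fderiv_right (m := ∞) (by simp)
  exact (h1.differentiableAt (by simp)).hasFDerivAt

lemma el_dd {u : ℂ → ℝ} {x : ℂ} (hs : ContDiffAt ℝ ∞ u x) (h : ℂ) :
    dd h (dd h u) x = fderiv ℝ (fderiv ℝ u) x h h := by
  have h3 : HasFDerivAt (dd h u) ((fderiv ℝ u x).comp (0 : ℂ →L[ℝ] ℂ) +
      (fderiv ℝ (fderiv ℝ u) x).flip h) x := (el_second hs).clm_apply (hasFDerivAt_const h x)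
  change fderiv ℝ (dd h u) x h = _
  rw [h3.fderiv]
  simp

lemma el_Lr {u : ℂ → ℝ} {x : ℂ} (hs : ContDiffAt ℝ ∞ u x) :
    Lr (Lr u) x = fderiv ℝ (fderiv ℝ u) x (Complex.I * x) (Complex.I * x) - fderiv ℝ u x x := by
  have hI : HasFDerivAt (fun y : ℂ => Complex.I * y)
      (Complex.I • (ContinuousLinearMap.id ℝ ℂ)) x := by
    have := (hasFDerivAt_id (𝕜 := ℝ) x).const_mul Complex.I
    exact this
  have h4 : HasFDerivAt (Lr u) ((fderiv ℝ u x).comp (Complex.I • (ContinuousLinearMap.id ℝ ℂ)) +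
      (fderiv ℝ (fderiv ℝ u) x).flip (Complex.I * x)) x := (el_second hs).clm_apply hI
  change fderiv ℝ (Lr u) x (Complex.I * x) = _
  rw [h4.fderiv]
  have e : Complex.I * (Complex.I * x) = -x := by
    rw [← mul_assoc, Complex.I_mul_I]
    ring
  simp only [ContinuousLinearMap.add_apply, ContinuousLinearMap.comp_apply,
    ContinuousLinearMap.flip_apply, ContinuousLinearMap.smul_apply, ContinuousLinearMap.id_apply,
    smul_eq_mul, e, map_neg]
  ring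

lemma el_phi (f : ℝ) (ζ : ℂ) : HasFDerivAt (fun ζ : ℂ => (f : ℂ) * Complex.cosh ζ)
    (((f : ℂ) * Complex.sinh ζ) • (1 : ℂ →L[ℝ] ℂ)) ζ :=
  ((Complex.hasDerivAt_cosh ζ).const_mul (f : ℂ)).complexToReal_fderiv

lemma el_psi (f : ℝ) (v ζ : ℂ) : HasFDerivAt (fun ζ : ℂ => (f : ℂ) * Complex.sinh ζ * v)
    (((f : ℂ) * Complex.cosh ζ * v) • (1 : ℂ →L[ℝ] ℂ)) ζ :=
  (((Complex.hasDerivAt_sinh ζ).const_mul (f : ℂ)).mul_const v).complexToReal_fderiv

/-- the second derivatives in elliptic coordinates -/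
lemma el_chain {f : ℝ} {u : ℂ → ℝ} {ζ : ℂ} (hs : ContDiffAt ℝ ∞ u ((f : ℂ) * Complex.cosh ζ))
    (v : ℂ) :
    dd v (dd v (fun ζ => u ((f : ℂ) * Complex.cosh ζ))) ζ =
      fderiv ℝ (fderiv ℝ u) ((f : ℂ) * Complex.cosh ζ) ((f : ℂ) * Complex.sinh ζ * v)
        ((f : ℂ) * Complex.sinh ζ * v) +
      fderiv ℝ u ((f : ℂ) * Complex.cosh ζ) ((f : ℂ) * Complex.cosh ζ * v * v) := by
  have hcont : ContinuousAt (fun ζ : ℂ => (f : ℂ) * Complex.cosh ζ) ζ :=
    (el_phi f ζ).continuousAt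
  have hev : ∀ᶠ y in 𝓝 ((f : ℂ) * Complex.cosh ζ), ContDiffAt ℝ 1 u y :=
    (hs.of_le (by exact_mod_cast le_top)).eventually (by simp)
  have hev2 : dd v (fun ζ => u ((f : ℂ) * Complex.cosh ζ)) =ᶠ[𝓝 ζ]
      fun ζ => fderiv ℝ u ((f : ℂ) * Complex.cosh ζ) ((f : ℂ) * Complex.sinh ζ * v) := by
    filter_upwards [hcont.eventually hev] with z hz
    have h1 : HasFDerivAt u (fderiv ℝ u ((f : ℂ) * Complex.cosh z))
        ((f : ℂ) * Complex.cosh z) := (hz.differentiableAt (by simp)).hasFDerivAt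
    have h2 : HasFDerivAt (fun ζ => u ((f : ℂ) * Complex.cosh ζ))
        ((fderiv ℝ u ((f : ℂ) * Complex.cosh z)).comp
          (((f : ℂ) * Complex.sinh z) • (1 : ℂ →L[ℝ] ℂ))) z :=
      HasFDerivAt.comp z h1 (el_phi f z)
    change fderiv ℝ (fun ζ => u ((f : ℂ) * Complex.cosh ζ)) z v = _
    rw [h2.fderiv]
    simp
  change fderiv ℝ (dd v (fun ζ => u ((f : ℂ) * Complex.cosh ζ))) ζ v = _
  rw [hev2.fderiv_eq]
  have h3 : HasFDerivAt (fun ζ => fderiv ℝ u ((f : ℂ) * Complex.cosh ζ))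
      ((fderiv ℝ (fderiv ℝ u) ((f : ℂ) * Complex.cosh ζ)).comp
        (((f : ℂ) * Complex.sinh ζ) • (1 : ℂ →L[ℝ] ℂ))) ζ :=
    HasFDerivAt.comp ζ (el_second hs) (el_phi f ζ)
  have h4 := h3.clm_apply (el_psi f v ζ)
  rw [h4.fderiv]
  simp only [ContinuousLinearMap.add_apply, ContinuousLinearMap.comp_apply,
    ContinuousLinearMap.flip_apply, ContinuousLinearMap.smul_apply,
    ContinuousLinearMap.one_apply, smul_eq_mul]
  ring

/-- a bilinear form at a complex number -/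
lemma el_bil (B : ℂ →L[ℝ] ℂ →L[ℝ] ℝ) (w : ℂ) : B w w = w.re ^ 2 * B 1 1 +
    w.re * w.im * (B 1 Complex.I + B Complex.I 1) + w.im ^ 2 * B Complex.I Complex.I := by
  have e : w = w.re • (1 : ℂ) + w.im • Complex.I := by
    simp only [Complex.real_smul, mul_one]
    exact (Complex.re_add_im w).symm
  conv_lhs => rw [e]
  simp only [map_add, map_smul, ContinuousLinearMap.add_apply, ContinuousLinearMap.smul_apply,
    smul_eq_mul]
  ring

lemma el_la_congr {u W : ℂ → ℝ} {x : ℂ} (h : u =ᶠ[𝓝 x] W) : la u x = la W x := by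
  have h1 : ∀ v, dd v (dd v u) x = dd v (dd v W) x := by
    intro v
    have h2 : dd v u =ᶠ[𝓝 x] dd v W := by
      filter_upwards [h.eventually_nhds] with y hy
      unfold dd
      rw [Filter.EventuallyEq.fderiv_eq hy]
    unfold dd at h2 ⊢
    rw [h2.fderiv_eq]
  unfold la
  rw [h1, h1]

lemma el_wat {Ω : Set ℂ} {lam : ℝ} {u : ℂ → ℝ} (hu : Wat Ω lam u) {x : ℂ} (hx : x ∈ Ω) :
    ContDiffAt ℝ ∞ u x ∧ la u x = -(lam * u x) := by
  obtain ⟨r, hr, W, hW, hb, h1⟩ := hu.loc x hx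
  have hmem : x ∈ Metric.ball x r := Metric.mem_ball_self hr
  have hev : u =ᶠ[𝓝 x] W := by
    filter_upwards [Metric.ball_mem_nhds x hr] with y hy
    exact (h1 y hy).1
  constructor
  · exact (hW.sm.contDiffAt).congr_of_eventuallyEq hev
  · rw [el_la_congr hev, (h1 x hmem).2, (h1 x hmem).1]

/-- TARGET 5: a solution in the ellipse gives a solution in the strip. -/
theorem strip_of_wat {f ξ₀ lam : ℝ} (hf : 0 < f) (hξ : 0 < ξ₀) {u : ℂ → ℝ}
    (hu : Wat (ell f ξ₀) lam u) :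
    Strip ξ₀ (lam * f ^ 2 / 2) (fun ζ => u ((f : ℂ) * Complex.cosh ζ)) := by
  have hsm : ContDiff ℝ ∞ (fun ζ : ℂ => (f : ℂ) * Complex.cosh ζ) :=
    contDiff_const.mul ((Complex.contDiff_cosh (n := ∞)).restrict_scalars ℝ)
  refine ⟨hu.cont.comp hsm.continuous, ?_, ?_, ?_, ?_⟩
  · intro ζ hζ
    apply hu.out
    rw [ell_mem hf hξ]
    exact not_lt.2 hζ
  · intro ζ
    have h1 : Complex.cosh (ζ + 2 * Real.pi * Complex.I) = Complex.cosh ζ := by
      unfold Complex.cosh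
      have h2 : Complex.exp (ζ + 2 * Real.pi * Complex.I) = Complex.exp ζ :=
        Complex.exp_periodic ζ
      rw [Complex.exp_neg, h2, Complex.exp_neg]
    show u ((f : ℂ) * Complex.cosh (ζ + 2 * Real.pi * Complex.I)) = u ((f : ℂ) * Complex.cosh ζ)
    rw [h1]
  · intro ζ hζ
    have hx := (ell_mem hf hξ ζ).2 hζ
    exact ContDiffAt.comp ζ (el_wat hu hx).1 hsm.contDiffAt
  · intro ζ hζ
    have hx := (ell_mem hf hξ ζ).2 hζ
    obtain ⟨hs, hla⟩ := el_wat hu hx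
    have h1 := el_chain hs 1
    have h2 := el_chain hs Complex.I
    show la (fun ζ => u ((f : ℂ) * Complex.cosh ζ)) ζ =
      -(lam * f ^ 2 / 2 * (Real.cosh (2 * ζ.re) - Real.cos (2 * ζ.im)) *
        u ((f : ℂ) * Complex.cosh ζ))
    unfold la at hla ⊢
    rw [el_dd hs, el_dd hs] at hla
    rw [h1, h2]
    have e1 : (f : ℂ) * Complex.cosh ζ * Complex.I * Complex.I =
        -((f : ℂ) * Complex.cosh ζ * 1 * 1) := by
      rw [mul_assoc _ Complex.I Complex.I, Complex.I_mul_I]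
      ring
    rw [e1, map_neg, el_bil _ ((f : ℂ) * Complex.sinh ζ * 1),
      el_bil _ ((f : ℂ) * Complex.sinh ζ * Complex.I)]
    have r1 : ((f : ℂ) * Complex.sinh ζ * 1).re = f * (Real.sinh ζ.re * Real.cos ζ.im) := by
      rw [mul_one, el_fre, el_sre]
    have r2 : ((f : ℂ) * Complex.sinh ζ * 1).im = f * (Real.cosh ζ.re * Real.sin ζ.im) := by
      rw [mul_one, el_fim, el_sim]
    have r3 : ((f : ℂ) * Complex.sinh ζ * Complex.I).re =
        -(f * (Real.cosh ζ.re * Real.sin ζ.im)) := by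
      rw [Complex.mul_I_re, el_fim, el_sim]
    have r4 : ((f : ℂ) * Complex.sinh ζ * Complex.I).im =
        f * (Real.sinh ζ.re * Real.cos ζ.im) := by
      rw [Complex.mul_I_im, el_fre, el_sre]
    rw [r1, r2, r3, r4]
    set B := fderiv ℝ (fderiv ℝ u) ((f : ℂ) * Complex.cosh ζ) with hB
    set U := u ((f : ℂ) * Complex.cosh ζ) with hU
    have h3 := Real.cosh_sq ζ.re
    have h4 := Real.sin_sq_add_cos_sq ζ.im
    have h5 := Real.cosh_two_mul ζ.re
    have h6 := Real.cos_two_mul ζ.im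
    have k1 : Real.sinh ζ.re ^ 2 = Real.cosh ζ.re ^ 2 - 1 := by linarith
    have k2 : Real.sin ζ.im ^ 2 = 1 - Real.cos ζ.im ^ 2 := by linarith
    have k3 : Real.cosh (2 * ζ.re) - Real.cos (2 * ζ.im) =
        2 * (Real.cosh ζ.re ^ 2 - Real.cos ζ.im ^ 2) := by
      rw [h5, h6, k1]
      ring
    have k4 : (f * (Real.sinh ζ.re * Real.cos ζ.im)) ^ 2 +
        (f * (Real.cosh ζ.re * Real.sin ζ.im)) ^ 2 =
        f ^ 2 * (Real.cosh ζ.re ^ 2 - Real.cos ζ.im ^ 2) := by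
      calc (f * (Real.sinh ζ.re * Real.cos ζ.im)) ^ 2 +
            (f * (Real.cosh ζ.re * Real.sin ζ.im)) ^ 2
          = f ^ 2 * (Real.sinh ζ.re ^ 2 * Real.cos ζ.im ^ 2 +
            Real.cosh ζ.re ^ 2 * Real.sin ζ.im ^ 2) := by ring
        _ = _ := by rw [k1, k2]; ring
    rw [k3]
    set p := f * (Real.sinh ζ.re * Real.cos ζ.im) with hp
    set q := f * (Real.cosh ζ.re * Real.sin ζ.im) with hq
    have k5 : lam * U = -(B 1 1 + B Complex.I Complex.I) := by linarith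
    calc _ = (p ^ 2 + q ^ 2) * (B 1 1 + B Complex.I Complex.I) := by ring
      _ = f ^ 2 * (Real.cosh ζ.re ^ 2 - Real.cos ζ.im ^ 2) * (-(lam * U)) := by
          rw [k4, k5, neg_neg]
      _ = _ := by ring

/-- TARGET 6: the second derivative along the confocal ellipses. -/
theorem ell_id {f lam : ℝ} (hf : 0 < f) {u : ℂ → ℝ} {ζ : ℂ}
    (hs : ContDiffAt ℝ ∞ u ((f : ℂ) * Complex.cosh ζ))
    (hla : la u ((f : ℂ) * Complex.cosh ζ) = -(lam * u ((f : ℂ) * Complex.cosh ζ))) :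
    dd Complex.I (dd Complex.I (fun ζ => u ((f : ℂ) * Complex.cosh ζ))) ζ =
      eop f lam u ((f : ℂ) * Complex.cosh ζ) +
        lam * f ^ 2 / 2 * Real.cos (2 * ζ.im) * u ((f : ℂ) * Complex.cosh ζ) := by
  have h2 := el_chain hs Complex.I
  unfold la at hla
  rw [el_dd hs, el_dd hs] at hla
  unfold eop
  rw [h2, el_Lr hs, el_dd hs]
  have e1 : (f : ℂ) * Complex.cosh ζ * Complex.I * Complex.I = -((f : ℂ) * Complex.cosh ζ) := by
    rw [mul_assoc _ Complex.I Complex.I, Complex.I_mul_I]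
    ring
  rw [e1, map_neg, el_bil _ ((f : ℂ) * Complex.sinh ζ * Complex.I),
    el_bil _ (Complex.I * ((f : ℂ) * Complex.cosh ζ))]
  have r3 : ((f : ℂ) * Complex.sinh ζ * Complex.I).re =
      -(f * (Real.cosh ζ.re * Real.sin ζ.im)) := by
    rw [Complex.mul_I_re, el_fim, el_sim]
  have r4 : ((f : ℂ) * Complex.sinh ζ * Complex.I).im =
      f * (Real.sinh ζ.re * Real.cos ζ.im) := by
    rw [Complex.mul_I_im, el_fre, el_sre]
  have r5 : (Complex.I * ((f : ℂ) * Complex.cosh ζ)).re =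
      -(f * (Real.sinh ζ.re * Real.sin ζ.im)) := by
    rw [Complex.I_mul_re, el_fim, el_im]
  have r6 : (Complex.I * ((f : ℂ) * Complex.cosh ζ)).im =
      f * (Real.cosh ζ.re * Real.cos ζ.im) := by
    rw [Complex.I_mul_im, el_fre, el_re]
  rw [r3, r4, r5, r6]
  set B := fderiv ℝ (fderiv ℝ u) ((f : ℂ) * Complex.cosh ζ) with hB
  set U := u ((f : ℂ) * Complex.cosh ζ) with hU
  have h3 := Real.cosh_sq ζ.re
  have h4 := Real.sin_sq_add_cos_sq ζ.im
  have h6 := Real.cos_two_mul ζ.im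
  have k1 : Real.sinh ζ.re ^ 2 = Real.cosh ζ.re ^ 2 - 1 := by linarith
  have k2 : Real.sin ζ.im ^ 2 = 1 - Real.cos ζ.im ^ 2 := by linarith
  have k5 : lam * U = -(B 1 1 + B Complex.I Complex.I) := by linarith
  rw [h6]
  have k6 : lam * f ^ 2 / 2 * U = f ^ 2 / 2 * (-(B 1 1 + B Complex.I Complex.I)) := by
    rw [← k5]
    ring
  have k7 : lam * f ^ 2 / 2 * (2 * Real.cos ζ.im ^ 2 - 1) * U =
      (2 * Real.cos ζ.im ^ 2 - 1) * (f ^ 2 / 2 * (-(B 1 1 + B Complex.I Complex.I))) := by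
    rw [← k6]
    ring
  rw [k6, k7]
  have m1 : (-(f * (Real.cosh ζ.re * Real.sin ζ.im))) ^ 2 =
      f ^ 2 * (Real.cosh ζ.re ^ 2 * (1 - Real.cos ζ.im ^ 2)) := by
    rw [← k2]; ring
  have m2 : (f * (Real.sinh ζ.re * Real.cos ζ.im)) ^ 2 =
      f ^ 2 * ((Real.cosh ζ.re ^ 2 - 1) * Real.cos ζ.im ^ 2) := by
    rw [← k1]; ring
  have m3 : (-(f * (Real.sinh ζ.re * Real.sin ζ.im))) ^ 2 =
      f ^ 2 * ((Real.cosh ζ.re ^ 2 - 1) * (1 - Real.cos ζ.im ^ 2)) := by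
    rw [← k1, ← k2]; ring
  rw [m1, m2, m3]
  ring

end Pool.Agent.Helper327_Drum
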