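import Pool.Agent.Helper327_Drum.EDefs
import Pool.Agent.Helper327_Drum.Fin.AS2
import Pool.Agent.Helper327_Drum.Fin.EL1b
import Pool.Agent.Helper327_Drum.Fin.EL2

/-
JOB EL3 (owner helper327, problem MP_d92c84_an). All imports are on origin/main. Prove only the TARGETs; the lemmas marked given are proved in other jobs.
-/

set_option autoImplicit false
open MeasureTheory Set Filter Topology ComplexConjugate
open scoped ContDiff

namespace Pool.Agent.Helper327_Drum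

open Pool.Agent.TH298.Sch (dd SC Lr)
open Pool.Agent.R227.SA (la Wat Dat)

/-
`Wat D lam u` (R227/SA10.lean): u continuous on ℂ, 0 off D, and near each point of D equal to a smooth compactly supported (`SC`) U with la U = -(lam U) on the ball. `eop f lam u x = Lr (Lr u) x + f² dd 1 (dd 1 u) x
+ lam f²/2 u x` (EDefs.lean), `Lr φ x = fderiv ℝ φ x (I x)`, `dd h φ x = fderiv ℝ φ x h`; `SC.add`, `dd_sc`, `Lr_sc` (TH298/Sch/Rot1.lean), `la_Lr` (R227/SA10.lean: la (Lr U) x = Lr (la U) x for SC U).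
Plain proof. Put w = (ell f ξ₀).indicator (eop f lam u).
Local: near x₀ ∈ ell, u = U on a ball (open), so w = eop f lam U on the ball; eop f lam U is SC; la commutes with Lr (la_Lr) and with dd 1 (symmetry of second derivatives of smooth functions), and
la U = -(lam U) on the (open) ball, so la (eop f lam U) = eop f lam (la U) = -(lam eop f lam U) on the ball.
Continuity: on the open set ell w is continuous by the local form; at x₀ ∉ closure ell w = 0 near x₀. Let x₀ ∈ frontier ell (so x₀ ∉ ell, w x₀ = 0) and ε > 0. For x ∈ ell take ζ (ell_surj) with x = f cosh ζ,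
0 ≤ re ζ < ξ₀ (ell_mem). By ell_id eop f lam u x = U_ηη ζ - (lam f²/2) cos (2 im ζ) u x with U = u ∘ (f cosh ·); |u x| is small near x₀ (u continuous, u x₀ = 0); |U_ηη ζ| is small by strip_reg if re ζ is near
ξ₀. cosh (re ζ) = (‖x - f‖ + ‖x + f‖)/(2f) (ell_re) is continuous in x, and for x₀ = f cosh ζ₀ we have re ζ₀ ≥ ξ₀ as x₀ ∉ ell; so for x ∈ ell near x₀, cosh (re ζ) is near cosh (re ζ₀) ≥ cosh ξ₀, hence
re ζ is near ξ₀.
-/

/-- scalar multiples of smooth compactly supported functions -/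
theorem el3_sc_smul {φ : ℂ → ℝ} (h : SC φ) (c : ℝ) : SC (fun x => c * φ x) :=
  ⟨contDiff_const.mul h.sm, h.cs.mul_left⟩

theorem el3_dd_smul {φ : ℂ → ℝ} (h : SC φ) (c : ℝ) (v : ℂ) :
    dd v (fun x => c * φ x) = fun x => c * dd v φ x := by
  funext x
  unfold dd
  rw [fderiv_const_mul (h.diff x)]
  simp

theorem el3_dd_add {φ ψ : ℂ → ℝ} (h : SC φ) (h' : SC ψ) (v : ℂ) :
    dd v (fun x => φ x + ψ x) = fun x => dd v φ x + dd v ψ x := by
  funext x
  unfold dd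
  rw [fderiv_fun_add (h.diff x) (h'.diff x)]
  rfl

theorem el3_dd_comm {U : ℂ → ℝ} (hU : SC U) (v w : ℂ) : dd v (dd w U) = dd w (dd v U) := by
  funext x
  have h2 : ContDiff ℝ ∞ (fderiv ℝ U) := hU.sm.fderiv_right (by simp)
  have h3 : HasFDerivAt (fderiv ℝ U) (fderiv ℝ (fderiv ℝ U) x) x :=
    ((h2.differentiable (by simp)) x).hasFDerivAt
  have h5 : ∀ v, HasFDerivAt (dd v U) ((fderiv ℝ U x).comp (0 : ℂ →L[ℝ] ℂ) +
      (fderiv ℝ (fderiv ℝ U) x).flip v) x := fun v => h3.clm_apply (hasFDerivAt_const v x)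
  have hsym : fderiv ℝ (fderiv ℝ U) x v w = fderiv ℝ (fderiv ℝ U) x w v :=
    second_derivative_symmetric (fun y => (hU.diff y).hasFDerivAt) h3 v w
  have k : ∀ v w, dd w (dd v U) x = fderiv ℝ (fderiv ℝ U) x w v := by
    intro v w
    change fderiv ℝ (dd v U) x w = _
    rw [(h5 v).fderiv]
    simp
  rw [k, k, hsym]

/-- solutions of the Helmholtz equation in an open set -/
def EB (O : Set ℂ) (lam : ℝ) (V : ℂ → ℝ) : Prop := SC V ∧ ∀ x ∈ O, la V x = -(lam * V x)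

theorem EB.smul {O : Set ℂ} {lam : ℝ} {V : ℂ → ℝ} (h : EB O lam V) (c : ℝ) :
    EB O lam (fun x => c * V x) := by
  refine ⟨el3_sc_smul h.1 c, fun x hx => ?_⟩
  have h1 := h.2 x hx
  unfold la at h1 ⊢
  rw [el3_dd_smul h.1, el3_dd_smul h.1, el3_dd_smul (Pool.Agent.TH298.Sch.dd_sc h.1 _), el3_dd_smul (Pool.Agent.TH298.Sch.dd_sc h.1 _)]
  linear_combination c * h1

theorem EB.add {O : Set ℂ} {lam : ℝ} {V W : ℂ → ℝ} (h : EB O lam V) (h' : EB O lam W) :
    EB O lam (fun x => V x + W x) := by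
  refine ⟨h.1.add h'.1, fun x hx => ?_⟩
  have h1 := h.2 x hx
  have h2 := h'.2 x hx
  unfold la at h1 h2 ⊢
  rw [el3_dd_add h.1 h'.1, el3_dd_add h.1 h'.1, el3_dd_add (Pool.Agent.TH298.Sch.dd_sc h.1 _) (Pool.Agent.TH298.Sch.dd_sc h'.1 _),
    el3_dd_add (Pool.Agent.TH298.Sch.dd_sc h.1 _) (Pool.Agent.TH298.Sch.dd_sc h'.1 _)]
  linear_combination h1 + h2

theorem EB.fd {O : Set ℂ} {lam : ℝ} {V : ℂ → ℝ} (hO : IsOpen O) (h : EB O lam V) {x : ℂ}
    (hx : x ∈ O) : fderiv ℝ (la V) x = -(lam • fderiv ℝ V x) := by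
  have h1 : la V =ᶠ[𝓝 x] fun y => -(lam * V y) := by
    filter_upwards [hO.mem_nhds hx] with y hy
    exact h.2 y hy
  have h2 : HasFDerivAt (fun y => -(lam * V y)) (-(lam • fderiv ℝ V x)) x :=
    (((h.1.diff x).hasFDerivAt).const_mul lam).neg
  rw [h1.fderiv_eq, h2.fderiv]

theorem EB.lr {O : Set ℂ} {lam : ℝ} {V : ℂ → ℝ} (hO : IsOpen O) (h : EB O lam V) :
    EB O lam (Lr V) := by
  refine ⟨Pool.Agent.TH298.Sch.Lr_sc h.1, fun x hx => ?_⟩
  rw [Pool.Agent.R227.SA.la_Lr h.1]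
  unfold Lr
  rw [h.fd hO hx]
  simp

theorem EB.ddv {O : Set ℂ} {lam : ℝ} {V : ℂ → ℝ} (hO : IsOpen O) (h : EB O lam V) (v : ℂ) :
    EB O lam (dd v V) := by
  refine ⟨Pool.Agent.TH298.Sch.dd_sc h.1 v, fun x hx => ?_⟩
  have e1 : la (dd v V) x = dd v (la V) x := by
    have e2 : dd v (la V) x = dd v (dd 1 (dd 1 V)) x + dd v (dd Complex.I (dd Complex.I V)) x :=
      congrFun (el3_dd_add (Pool.Agent.TH298.Sch.dd_sc (Pool.Agent.TH298.Sch.dd_sc h.1 1) 1) (Pool.Agent.TH298.Sch.dd_sc (Pool.Agent.TH298.Sch.dd_sc h.1 Complex.I) Complex.I) v) x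
    rw [e2]
    unfold la
    rw [el3_dd_comm h.1 1 v, el3_dd_comm (Pool.Agent.TH298.Sch.dd_sc h.1 1) 1 v, el3_dd_comm h.1 Complex.I v,
      el3_dd_comm (Pool.Agent.TH298.Sch.dd_sc h.1 Complex.I) Complex.I v]
  rw [e1]
  unfold dd
  rw [h.fd hO hx]
  simp

theorem EB.eop {O : Set ℂ} {lam : ℝ} {V : ℂ → ℝ} (hO : IsOpen O) (h : EB O lam V) (f : ℝ) :
    EB O lam (eop f lam V) :=
  (((h.lr hO).lr hO).add (((h.ddv hO 1).ddv hO 1).smul (f ^ 2))).add (h.smul (lam * f ^ 2 / 2))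

theorem el3_eop_congr {f lam : ℝ} {u U : ℂ → ℝ} {x : ℂ} (h : u =ᶠ[𝓝 x] U) :
    eop f lam u x = eop f lam U x := by
  have h1 : ∀ {a b : ℂ → ℝ} {y : ℂ}, a =ᶠ[𝓝 y] b → Lr a =ᶠ[𝓝 y] Lr b := by
    intro a b y hab
    filter_upwards [hab.eventuallyEq_nhds] with z hz
    unfold Lr
    rw [hz.fderiv_eq]
  have h2 : ∀ {a b : ℂ → ℝ} {y : ℂ}, a =ᶠ[𝓝 y] b → dd 1 a =ᶠ[𝓝 y] dd 1 b := by
    intro a b y hab
    filter_upwards [hab.eventuallyEq_nhds] with z hz
    unfold dd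
    rw [hz.fderiv_eq]
  unfold eop
  rw [(h1 (h1 h)).eq_of_nhds, (h2 (h2 h)).eq_of_nhds, h.eq_of_nhds]

/-- TARGET: the operator `eop` maps Dirichlet eigenfunctions of the ellipse to Dirichlet eigenfunctions. -/
theorem ell_wat {f ξ₀ lam : ℝ} (hf : 0 < f) (hξ : 0 < ξ₀) {u : ℂ → ℝ}
    (hu : Wat (ell f ξ₀) lam u) :
    Wat (ell f ξ₀) lam ((ell f ξ₀).indicator (eop f lam u)) := by
  have hloc : ∀ x₀ ∈ ell f ξ₀, ∃ r > 0, ∃ W, SC W ∧ Metric.ball x₀ r ⊆ ell f ξ₀ ∧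
      ∀ x ∈ Metric.ball x₀ r, (ell f ξ₀).indicator (eop f lam u) x = W x ∧
        la W x = -(lam * W x) := by
    intro x₀ hx₀
    obtain ⟨r, hr, U, hU, hb, h⟩ := hu.loc x₀ hx₀
    have hE : EB (Metric.ball x₀ r) lam U := ⟨hU, fun x hx => (h x hx).2⟩
    have hE' := hE.eop Metric.isOpen_ball f
    refine ⟨r, hr, eop f lam U, hE'.1, hb, fun x hx => ⟨?_, hE'.2 x hx⟩⟩
    rw [indicator_of_mem (hb hx)]
    apply el3_eop_congr
    filter_upwards [Metric.isOpen_ball.mem_nhds hx] with y hy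
    exact (h y hy).1
  refine ⟨?_, fun x hx => indicator_of_notMem hx _, hloc⟩
  rw [continuous_iff_continuousAt]
  intro x₀
  by_cases hx₀ : x₀ ∈ ell f ξ₀
  · obtain ⟨r, hr, W, hW, hb, h⟩ := hloc x₀ hx₀
    refine hW.cont.continuousAt.congr ?_
    filter_upwards [Metric.ball_mem_nhds x₀ hr] with y hy
    exact (h y hy).1.symm
  · have hw0 : (ell f ξ₀).indicator (eop f lam u) x₀ = 0 := indicator_of_notMem hx₀ _
    rw [Metric.continuousAt_iff']
    intro ε hε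
    have hS := strip_of_wat hf hξ hu
    obtain ⟨δ, hδ, hreg⟩ := strip_reg hξ hS (ε / 2) (by positivity)
    obtain ⟨ζ₀, hζ₀, -, hxζ₀⟩ := ell_surj hf x₀
    have hζ₀' : ξ₀ ≤ ζ₀.re := by
      by_contra hcon
      push Not at hcon
      apply hx₀
      rw [hxζ₀, ell_mem hf hξ, abs_of_nonneg hζ₀]
      exact hcon
    -- the elliptic coordinate is continuous
    have hδ' : 0 < min δ ξ₀ := lt_min hδ hξ
    have hEx₀ : 2 * f * Real.cosh (ξ₀ - min δ ξ₀) < ‖x₀ - f‖ + ‖x₀ + f‖ := by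
      rw [hxζ₀, ell_re hf]
      have h1 : Real.cosh (ξ₀ - min δ ξ₀) < Real.cosh ζ₀.re := by
        rw [Real.cosh_lt_cosh, abs_of_nonneg (by linarith [min_le_right δ ξ₀]),
          abs_of_nonneg hζ₀]
        linarith
      exact mul_lt_mul_of_pos_left h1 (by positivity)
    have hc1 : Continuous fun x : ℂ => ‖x - f‖ + ‖x + f‖ := by fun_prop
    have ev1 : ∀ᶠ x : ℂ in 𝓝 x₀, 2 * f * Real.cosh (ξ₀ - min δ ξ₀) < ‖x - f‖ + ‖x + f‖ :=
      hc1.continuousAt.eventually_const_lt hEx₀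
    have hc2 : Continuous fun x : ℂ => |lam * f ^ 2 / 2| * |u x| :=
      continuous_const.mul hu.cont.abs
    have ev2 : ∀ᶠ x in 𝓝 x₀, |lam * f ^ 2 / 2| * |u x| < ε / 2 := by
      refine hc2.continuousAt.eventually_lt_const ?_
      show |lam * f ^ 2 / 2| * |u x₀| < ε / 2
      rw [hu.out x₀ hx₀, abs_zero, mul_zero]
      positivity
    filter_upwards [ev1, ev2] with x hx1 hx2
    rw [hw0, dist_zero_right, Real.norm_eq_abs]
    by_cases hx : x ∈ ell f ξ₀
    · rw [indicator_of_mem hx]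
      obtain ⟨ζ, hζ, -, hxζ⟩ := ell_surj hf x
      have hζ' : |ζ.re| < ξ₀ := by
        rw [← ell_mem hf hξ, ← hxζ]
        exact hx
      have hlow : ξ₀ - min δ ξ₀ < |ζ.re| := by
        rw [hxζ, ell_re hf] at hx1
        have h2 : Real.cosh (ξ₀ - min δ ξ₀) < Real.cosh ζ.re :=
          lt_of_mul_lt_mul_left hx1 (by positivity)
        rw [Real.cosh_lt_cosh, abs_of_nonneg (by linarith [min_le_right δ ξ₀])] at h2
        exact h2
      have h3 := hreg ζ (by linarith [min_le_left δ ξ₀]) hζ'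
      have hsm := wat_smooth hu hx
      have h4 := ell_id (lam := lam) (u := u) (ζ := ζ) hf (by rw [← hxζ]; exact hsm.1)
        (by rw [← hxζ]; exact hsm.2)
      rw [← hxζ] at h4
      have h5 : eop f lam u x = dd Complex.I (dd Complex.I (fun ζ => u ((f : ℂ) * Complex.cosh ζ))) ζ -
          lam * f ^ 2 / 2 * Real.cos (2 * ζ.im) * u x := by
        rw [h4]; ring
      rw [h5]
      have h6 : |lam * f ^ 2 / 2 * Real.cos (2 * ζ.im) * u x| ≤ |lam * f ^ 2 / 2| * |u x| := by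
        rw [abs_mul, abs_mul]
        have h7 := Real.abs_cos_le_one (2 * ζ.im)
        calc |lam * f ^ 2 / 2| * |Real.cos (2 * ζ.im)| * |u x|
            ≤ |lam * f ^ 2 / 2| * 1 * |u x| := by gcongr
          _ = _ := by ring
      calc _ ≤ |dd Complex.I (dd Complex.I (fun ζ => u ((f : ℂ) * Complex.cosh ζ))) ζ| +
            |lam * f ^ 2 / 2 * Real.cos (2 * ζ.im) * u x| := abs_sub _ _
        _ < ε / 2 + ε / 2 := by
            have := lt_of_le_of_lt h6 hx2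
            linarith
        _ = ε := by ring
    · rw [indicator_of_notMem hx, abs_zero]
      exact hε

end Pool.Agent.Helper327_Drum
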