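import Pool.Agent.Helper327_Drum.EDefs
import Pool.Agent.Helper327_Drum.BDefs
import Pool.Agent.Helper327_Drum.Fin.ST1
import Pool.Agent.Helper327_Drum.Fin.G1
import Pool.Agent.Helper327_Drum.Fin.AS2
import Pool.Agent.Helper327_Drum.Fin.ST2

/-
JOB EL4 (owner helper327, problem MP_d92c84_an). All imports are on origin/main.
-/

set_option autoImplicit false
open MeasureTheory Set Filter Topology ComplexConjugate
open scoped ContDiff

namespace Pool.Agent.Helper327_Drum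

open Pool.Agent.TH298.Sch (dd SC Lr)
open Pool.Agent.R227.SA (la Wat Dat)

/-
Definitions: `dd h φ x = fderiv ℝ φ x h`, `Lr φ x = fderiv ℝ φ x (I x)`, `ee θ = exp (θ I)`, `box q e δ`, `cx q e ψ t = q + (t + ψ t I) e` (BDefs.lean). `crit_graph` (Fin/ST1.lean) gives, at an accumulation point x₀ of
critical points of u, a frame e (‖e‖ = 1), δ > 0 and ψ of class C² with ψ 0 = 0 such that in `box x₀ e δ` the critical points are exactly the graph points x₀ + (t + ψ t I) e, |t| < δ.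
`scc_basic` (Fin/G1.lean): a simple closed curve is compact, connected and infinite. `wat_smooth` (Fin/AS2.lean): u is C^∞ at the points of D, la u x = -(lam u x).
Plain proof. γ ⊆ D is compact, connected and infinite, so every point of γ is an accumulation point of γ, hence of the critical points.
(1) Let q ∈ γ, (e, δ, ψ) from crit_graph. γ ∩ box q e δ lies on the graph. Claim: there is δ' > 0 with q + (t + ψ t I) e ∈ γ for |t| < δ' : γ = f(Circle) with f injective continuous; near the parameter s₀ of q the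
function s ↦ t(f s) (first coordinate in the frame) is continuous and injective (f s is on the graph and f is injective), so strictly monotone on a small arc around s₀, so its image contains an interval around 0.
(Maybe easier: γ is connected and has more than one point; but the claim needs the two-sidedness, which holds for a simple closed curve. There may be a lemma in Fin/ST3.lean or Fin/ST6c.lean, e.g. `arc_in_curve`.)
(2) At x ∈ γ let τ be the unit tangent of the graph at x (τ = (1 + ψ' I) e / |..|), n = I τ. fderiv u = 0 along the graph, so D²u(x)(τ, ·) = 0; D²u(x) is symmetric with trace -lam k, so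
D²u(x)(v, w) = -lam k ⟨v,n⟩⟨w,n⟩. Since fderiv u x = 0: Lr (Lr u) x = D²u(Ix, Ix) - fderiv u x (x) = -lam k ⟨Ix, n⟩² = -lam k ⟨x, τ⟩², dd 1 (dd 1 u) x = -lam k n₁² = -lam k τ₂². From hL and u x = k:
-lam k (⟨x,τ⟩² + f² τ₂²) = μ k, i.e. ⟨x,τ⟩² + f² τ₂² = m with m = -μ/lam. As τ₁² + τ₂² = 1: ⟨x - f, τ⟩⟨x + f, τ⟩ = ⟨x,τ⟩² - f² τ₁² = m - f² =: m' for all x ∈ γ.
(3) Let x* ∈ γ maximise ‖x - f‖ on γ; near x* γ contains the graph, so d/dt ‖cx t - f‖² = 0 at x*: ⟨x* - f, τ⟩ = 0, so m' = 0. So at each x ∈ γ: ⟨x - f, τ⟩ = 0 or ⟨x + f, τ⟩ = 0.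
(4) If ⟨x - f, τ⟩ = 0 at all graph points near some q ∈ γ (|t| < δ'), then ‖cx t - f‖ is constant =: r on |t| < δ', r > 0 (a nonconstant curve), and the graph piece is a connected set with more than one point in the circle of
centre f and radius r, so it contains an arc {f + r ee θ, θ₁ < θ < θ₂}. Otherwise there is a t with ⟨cx t - f, τ⟩ ≠ 0, then on an interval around t, and there ⟨x + f, τ⟩ = 0 and the same holds with -f.
-/

/-- a graph containing the curve near a point is contained in the curve near this point -/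
theorem second_order_arc_two {γ : Set ℂ} (hγ : SimpleClosedCurve γ) {q e : ℂ} {δ : ℝ} {ψ : ℝ → ℝ}
    (he : ‖e‖ = 1) (hδ : 0 < δ) (hq : q ∈ γ)
    (hgr : ∀ t s : ℝ, |t| < δ → |s| < δ → q + (t + s * Complex.I) * e ∈ γ → s = ψ t) :
    ∃ δ' > 0, δ' ≤ δ ∧ ∀ t, |t| < δ' → cx q e ψ t ∈ γ := by
  obtain ⟨F, hFc, hFi, hFr⟩ := hγ
  have he0 : e ≠ 0 := by
    intro h
    rw [h, norm_zero] at he
    exact zero_ne_one he
  rw [← hFr] at hq
  obtain ⟨s₀, rfl⟩ := hq
  set a : ℝ := Complex.arg (s₀ : ℂ) with ha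
  have hexp : Circle.exp a = s₀ := Circle.exp_arg s₀
  set h : ℝ → ℂ := fun s => F (Circle.exp s) with hh
  have hc : Continuous h := hFc.comp Circle.exp.continuous
  have hha : h a = F s₀ := by simp only [hh, hexp]
  obtain ⟨ε0, hε0, hball⟩ := Metric.continuousAt_iff.1 (hc.continuousAt (x := a)) δ hδ
  set ε : ℝ := min (ε0 / 2) 1 with hε
  have hεpos : 0 < ε := by positivity
  have hε1 : ε ≤ 1 := min_le_right _ _
  have hε2 : ε ≤ ε0 / 2 := min_le_left _ _
  set T : ℝ → ℝ := fun s => ((h s - F s₀) / e).re with hT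
  have hTc : Continuous T := by
    have : Continuous fun s => (h s - F s₀) / e := (hc.sub continuous_const).div_const e
    exact Complex.continuous_re.comp this
  have hpt : ∀ s ∈ Icc (a - ε) (a + ε), h s = cx (F s₀) e ψ (T s) := by
    intro s hs
    have h1 : dist s a < ε0 := by
      rw [Real.dist_eq, abs_lt]
      constructor
      · linarith [hs.1]
      · linarith [hs.2]
    have h2 := hball h1
    rw [hha, dist_eq_norm] at h2
    have h3 : ‖(h s - F s₀) / e‖ < δ := by rwa [norm_div, he, div_one]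
    have h4 : h s = F s₀ + ((((h s - F s₀) / e).re : ℝ) + (((h s - F s₀) / e).im : ℝ) *
        Complex.I) * e := by
      rw [Complex.re_add_im, div_mul_cancel₀ _ he0]
      ring
    have h5 := hgr _ _ (lt_of_le_of_lt (Complex.abs_re_le_norm _) h3)
      (lt_of_le_of_lt (Complex.abs_im_le_norm _) h3) (by rw [← h4, ← hFr]; exact mem_range_self _)
    rw [h5] at h4
    exact h4
  have hTinj : InjOn T (Icc (a - ε) (a + ε)) := by
    intro s1 hs1 s2 hs2 h12
    have h1 : h s1 = h s2 := by rw [hpt s1 hs1, hpt s2 hs2, h12]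
    have h2 := hFi h1
    exact Circle.exp_injOn_Icc (a := a - ε) (b := a + ε) (by linarith [Real.pi_gt_three]) hs1 hs2 h2
  have hTa : T a = 0 := by
    simp only [hT, hha, sub_self, zero_div, Complex.zero_re]
  have hle : a - ε ≤ a + ε := by linarith
  have ml : a - ε ∈ Icc (a - ε) (a + ε) := ⟨le_rfl, hle⟩
  have mr : a + ε ∈ Icc (a - ε) (a + ε) := ⟨hle, le_rfl⟩
  have ma : a ∈ Icc (a - ε) (a + ε) := ⟨by linarith, by linarith⟩
  have key : ∀ t ∈ T '' Icc (a - ε) (a + ε), cx (F s₀) e ψ t ∈ γ := by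
    rintro t ⟨s, hs, rfl⟩
    rw [← hpt s hs, ← hFr]
    exact mem_range_self _
  rcases ContinuousOn.strictMonoOn_of_injOn_Icc' hle hTc.continuousOn hTinj with hm | hm
  · have h1 : T (a - ε) < 0 := by
      rw [← hTa]; exact hm ml ma (by linarith)
    have h2 : 0 < T (a + ε) := by
      rw [← hTa]; exact hm ma mr (by linarith)
    refine ⟨min δ (min (-(T (a - ε))) (T (a + ε))), by
      simp only [gt_iff_lt, lt_min_iff]; exact ⟨hδ, by linarith, h2⟩, min_le_left _ _,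
      fun t ht => key t (intermediate_value_Icc hle hTc.continuousOn ?_)⟩
    rw [lt_min_iff, lt_min_iff, abs_lt, abs_lt, abs_lt] at ht
    exact ⟨by linarith [ht.2.1.1], by linarith [ht.2.2.2]⟩
  · have h1 : 0 < T (a - ε) := by
      rw [← hTa]; exact hm ml ma (by linarith)
    have h2 : T (a + ε) < 0 := by
      rw [← hTa]; exact hm ma mr (by linarith)
    refine ⟨min δ (min (T (a - ε)) (-(T (a + ε)))), by
      simp only [gt_iff_lt, lt_min_iff]; exact ⟨hδ, h1, by linarith⟩, min_le_left _ _,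
      fun t ht => key t (intermediate_value_Icc' hle hTc.continuousOn ?_)⟩
    rw [lt_min_iff, lt_min_iff, abs_lt, abs_lt, abs_lt] at ht
    exact ⟨by linarith [ht.2.2.1], by linarith [ht.2.1.2]⟩

/-- a curve on a circle contains an arc -/
theorem second_order_arc_circ {γ : Set ℂ} {c : ℝ → ℂ} {a b : ℝ} (hab : a < b) (hc : Continuous c)
    (hinj : ∀ t t', c t = c t' → t = t') (hmem : ∀ t ∈ Ioo a b, c t ∈ γ) {p : ℂ} {r : ℝ}
    (hr : 0 < r) (hcon : ∀ t ∈ Ioo a b, ‖c t - p‖ = r) :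
    ∃ θ₁ θ₂ : ℝ, θ₁ < θ₂ ∧ ∀ θ ∈ Ioo θ₁ θ₂, p + r * ee θ ∈ γ := by
  set t₀ : ℝ := (a + b) / 2 with ht₀
  have m0 : t₀ ∈ Ioo a b := ⟨by linarith, by linarith⟩
  have hn0 : ‖c t₀ - p‖ = r := hcon t₀ m0
  have hne : c t₀ - p ≠ 0 := by
    intro h
    rw [h, norm_zero] at hn0
    linarith
  set w : ℝ → ℂ := fun t => (c t - p) / (c t₀ - p) with hw
  have hwc : Continuous w := (hc.sub continuous_const).div_const _
  have hw0 : w t₀ = 1 := div_self hne
  have hsl : ∀ᶠ t in 𝓝 t₀, w t ∈ Complex.slitPlane := by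
    apply hwc.continuousAt.eventually
    rw [hw0]
    exact Complex.isOpen_slitPlane.mem_nhds (by simp)
  have hIoo : ∀ᶠ t in 𝓝 t₀, t ∈ Ioo a b := isOpen_Ioo.mem_nhds m0
  obtain ⟨ε, hε, hball⟩ := Metric.eventually_nhds_iff.1 (hsl.and hIoo)
  set φ : ℝ → ℝ := fun t => Complex.arg (w t) with hφ
  have hφ0 : φ t₀ = 0 := by simp [hφ, hw0]
  have hJ : ∀ t ∈ Ioo (t₀ - ε) (t₀ + ε), w t ∈ Complex.slitPlane ∧ t ∈ Ioo a b := by
    intro t ht
    apply hball
    rw [Real.dist_eq, abs_lt]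
    exact ⟨by linarith [ht.1], by linarith [ht.2]⟩
  have hrep : ∀ t ∈ Ioo (t₀ - ε) (t₀ + ε), c t = p + (c t₀ - p) * ee (φ t) := by
    intro t ht
    have h1 : ‖w t‖ = 1 := by
      simp only [hw]
      rw [norm_div, hcon t (hJ t ht).2, hn0, div_self hr.ne']
    have h2 : w t = ee (φ t) := by
      have h3 := Complex.norm_mul_exp_arg_mul_I (w t)
      rw [h1, Complex.ofReal_one, one_mul] at h3
      exact h3.symm
    rw [← h2]
    simp only [hw]
    rw [mul_div_cancel₀ _ hne]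
    ring
  have hφc : ContinuousOn φ (Ioo (t₀ - ε) (t₀ + ε)) := by
    intro t ht
    have := (Complex.continuousAt_arg (hJ t ht).1).comp (f := w) hwc.continuousAt
    exact this.continuousWithinAt
  have hpre : IsPreconnected (φ '' Ioo (t₀ - ε) (t₀ + ε)) := isPreconnected_Ioo.image _ hφc
  have m1 : t₀ ∈ Ioo (t₀ - ε) (t₀ + ε) := ⟨by linarith, by linarith⟩
  have m2 : t₀ + ε / 2 ∈ Ioo (t₀ - ε) (t₀ + ε) := ⟨by linarith, by linarith⟩
  have hφne : φ (t₀ + ε / 2) ≠ 0 := by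
    intro h
    have h1 : c (t₀ + ε / 2) = c t₀ := by
      have e1 := hrep _ m2
      have e2 := hrep _ m1
      rw [h] at e1
      rw [hφ0] at e2
      exact e1.trans e2.symm
    have := hinj _ _ h1
    linarith
  have hoc := hpre.ordConnected
  have i1 : (0 : ℝ) ∈ φ '' Ioo (t₀ - ε) (t₀ + ε) := ⟨t₀, m1, hφ0⟩
  have i2 : φ (t₀ + ε / 2) ∈ φ '' Ioo (t₀ - ε) (t₀ + ε) := ⟨_, m2, rfl⟩
  obtain ⟨x, y, hxy, hsub⟩ : ∃ x y : ℝ, x < y ∧ Icc x y ⊆ φ '' Ioo (t₀ - ε) (t₀ + ε) := by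
    rcases lt_or_gt_of_ne hφne with h | h
    · exact ⟨_, _, h, hoc.out i2 i1⟩
    · exact ⟨_, _, h, hoc.out i1 i2⟩
  set α : ℝ := Complex.arg (c t₀ - p) with hα
  refine ⟨α + x, α + y, by linarith, fun θ hθ => ?_⟩
  obtain ⟨t, ht, hte⟩ := hsub (show θ - α ∈ Icc x y from ⟨by linarith [hθ.1], by linarith [hθ.2]⟩)
  have h1 := hrep t ht
  have h2 : (r : ℂ) * ee θ = (c t₀ - p) * ee (φ t) := by
    have h3 := Complex.norm_mul_exp_arg_mul_I (c t₀ - p)
    rw [hn0, ← hα] at h3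
    rw [hte, ← h3]
    unfold ee
    rw [mul_assoc, ← Complex.exp_add]
    congr 2
    push_cast
    ring
  rw [h2, ← h1]
  exact hmem t (hJ t ht).2

/-- the identity at a critical point of a curve of critical points -/
theorem second_order_arc_id {D : Set ℂ} {lam f μ : ℝ} (hlam : 0 < lam) {u : ℂ → ℝ}
    (hu : Wat D lam u) {x : ℂ} (hx : x ∈ D)
    (hL : Lr (Lr u) x + f ^ 2 * dd 1 (dd 1 u) x = μ * u x) (hux : u x ≠ 0)
    (hcr : fderiv ℝ u x = 0) {c : ℝ → ℂ} {T : ℂ} {t₀ : ℝ} (hct : c t₀ = x)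
    (hcd : HasDerivAt c T t₀) (hz : ∀ᶠ t in 𝓝 t₀, fderiv ℝ u (c t) = 0) :
    (x.re * T.re + x.im * T.im) ^ 2 + f ^ 2 * T.im ^ 2 =
      -(μ / lam) * (T.re ^ 2 + T.im ^ 2) := by
  obtain ⟨hsm, hla⟩ := wat_smooth hu hx
  have hF : DifferentiableAt ℝ (fderiv ℝ u) x := by
    have : ContDiffAt ℝ 1 (fderiv ℝ u) x := hsm.fderiv_right (by norm_cast)
    exact this.differentiableAt (by norm_num)
  set H : ℂ →L[ℝ] ℂ →L[ℝ] ℝ := fderiv ℝ (fderiv ℝ u) x with hH
  have hFd : HasFDerivAt (fderiv ℝ u) H x := hF.hasFDerivAt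
  have hsymm : ∀ v w, H v w = H w v := by
    have h2 : ContDiffAt ℝ 2 u x := hsm.of_le (by norm_cast)
    exact h2.isSymmSndFDerivAt (by simp)
  have hdd : ∀ v w : ℂ, dd v (dd w u) x = H v w := by
    intro v w
    have h1 : HasFDerivAt (fun y => fderiv ℝ u y w) (H.flip w) x := by
      have := hFd.clm_apply (hasFDerivAt_const w x)
      simpa using this
    show fderiv ℝ (fun y => fderiv ℝ u y w) x v = _
    rw [h1.fderiv]
    rfl
  have hLr : Lr (Lr u) x = H (Complex.I * x) (Complex.I * x) := by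
    have h0 : HasFDerivAt (fun y : ℂ => Complex.I * y)
        ((ContinuousLinearMap.mul ℝ ℂ) Complex.I) x :=
      ((ContinuousLinearMap.mul ℝ ℂ) Complex.I).hasFDerivAt
    have h1 := hFd.clm_apply h0
    show fderiv ℝ (fun y => fderiv ℝ u y (Complex.I * y)) x (Complex.I * x) = _
    rw [h1.fderiv, hcr]
    simp
  have hT : H T = 0 := by
    have h1 : HasDerivAt (fun t => fderiv ℝ u (c t)) (H T) t₀ := by
      rw [← hct] at hFd
      exact hFd.comp_hasDerivAt t₀ hcd
    have h2 : HasDerivAt (fun t => fderiv ℝ u (c t)) 0 t₀ :=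
      (hasDerivAt_const t₀ (0 : ℂ →L[ℝ] ℝ)).congr_of_eventuallyEq hz
    exact h1.unique h2
  have hlin : ∀ v w : ℂ, H v w = v.re * w.re * H 1 1 + (v.re * w.im + v.im * w.re) *
      H 1 Complex.I + v.im * w.im * H Complex.I Complex.I := by
    intro v w
    have hv : v = v.re • (1 : ℂ) + v.im • Complex.I := by
      apply Complex.ext <;> simp
    have hw : w = w.re • (1 : ℂ) + w.im • Complex.I := by
      apply Complex.ext <;> simp
    conv_lhs => rw [hv, hw]
    simp only [map_add, map_smul, _root_.add_apply, _root_.smul_apply,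
      smul_eq_mul]
    rw [hsymm Complex.I 1]
    ring
  have e1 : H T 1 = 0 := by rw [hT]; rfl
  have e2 : H T Complex.I = 0 := by rw [hT]; rfl
  rw [hlin] at e1 e2
  simp only [Complex.one_re, Complex.one_im, Complex.I_re, Complex.I_im, mul_one, mul_zero,
    zero_mul, zero_add, add_zero] at e1 e2
  have e3 : H 1 1 + H Complex.I Complex.I = -(lam * u x) := by
    rw [← hla]
    unfold la
    rw [hdd, hdd]
  rw [hLr, hdd, hlin] at hL
  simp only [Complex.mul_re, Complex.mul_im, Complex.I_re, Complex.I_im, zero_mul, one_mul,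
    zero_sub, zero_add, add_zero] at hL
  generalize H 1 1 = A at e1 e2 e3 hL
  generalize H 1 Complex.I = B at e1 e2 e3 hL
  generalize H Complex.I Complex.I = C at e1 e2 e3 hL
  generalize T.re = p at *
  generalize T.im = q at *
  generalize x.re = x1 at *
  generalize x.im = x2 at *
  generalize u x = k at *
  have hA : A * (p ^ 2 + q ^ 2) = -(lam * k) * q ^ 2 := by
    linear_combination p * e1 - q * e2 + q ^ 2 * e3
  have hC : C * (p ^ 2 + q ^ 2) = -(lam * k) * p ^ 2 := by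
    linear_combination q * e2 - p * e1 + p ^ 2 * e3
  have hB : B * (p ^ 2 + q ^ 2) = lam * k * p * q := by
    linear_combination q * e1 + p * e2 - p * q * e3
  have hfin : lam * k * ((x1 * p + x2 * q) ^ 2 + f ^ 2 * q ^ 2 + μ / lam * (p ^ 2 + q ^ 2)) = 0 := by
    have hml : lam * (μ / lam) = μ := by field_simp
    linear_combination (-(p ^ 2 + q ^ 2)) * hL + (x2 ^ 2 + f ^ 2) * hA + x1 ^ 2 * hC -
      2 * x1 * x2 * hB + k * (p ^ 2 + q ^ 2) * hml
  have h0 : lam * k ≠ 0 := mul_ne_zero hlam.ne' hux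
  have := (mul_eq_zero.1 hfin).resolve_left h0
  linarith

/-- TARGET: if an eigenfunction of `-Δ` is also an eigenfunction of `Lr² + f² ∂₁²`, then a closed curve of critical points contains an arc of a circle. -/
theorem second_order_arc {D : Set ℂ} (hDo : IsOpen D) (hDc : IsPreconnected D) {lam f μ : ℝ}
    (hlam : 0 < lam) (hf : 0 < f) {u : ℂ → ℝ} (hu : Wat D lam u)
    (hL : ∀ x ∈ D, Lr (Lr u) x + f ^ 2 * dd 1 (dd 1 u) x = μ * u x) {γ : Set ℂ}
    (hγ : SimpleClosedCurve γ) (hγD : γ ⊆ D) {k : ℝ} (hk : k ≠ 0) (huk : ∀ x ∈ γ, u x = k)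
    (hcr : ∀ x ∈ γ, fderiv ℝ u x = 0) :
    ∃ (p : ℂ) (r θ₁ θ₂ : ℝ), (p = f ∨ p = -f) ∧ 0 < r ∧ θ₁ < θ₂ ∧
      ∀ θ ∈ Ioo θ₁ θ₂, p + r * ee θ ∈ γ := by
  obtain ⟨hγc, hγcon, hγinf⟩ := scc_basic hγ
  have hγnt : γ.Nontrivial := hγinf.nontrivial
  have hacc : ∀ q ∈ γ, AccPt q (𝓟 {x | x ∈ D ∧ fderiv ℝ u x = 0}) := by
    intro q hq
    have h1 : AccPt q (𝓟 γ) := hγcon.isPreconnected.preperfect_of_nontrivial hγnt q hq
    exact h1.mono (principal_mono.2 fun x hx => ⟨hγD hx, hcr x hx⟩)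
  obtain ⟨q₀, hq₀⟩ := hγinf.nonempty
  have hne : ∃ x, u x ≠ 0 := ⟨q₀, by rw [huk q₀ hq₀]; exact hk⟩
  -- the frames
  have hfr : ∀ q ∈ γ, ∃ (e : ℂ) (ψ : ℝ → ℝ) (δ : ℝ), 0 < δ ∧ ‖e‖ = 1 ∧ ContDiff ℝ 2 ψ ∧ ψ 0 = 0 ∧
      ∀ t, |t| < δ → cx q e ψ t ∈ γ ∧
        ((cx q e ψ t).re * (cv e ψ t).re + (cx q e ψ t).im * (cv e ψ t).im) ^ 2 +
          f ^ 2 * (cv e ψ t).im ^ 2 = -(μ / lam) * ((cv e ψ t).re ^ 2 + (cv e ψ t).im ^ 2) := by
    intro q hq
    obtain ⟨-, e, δ, ψ, he, hδ, hψ, hψa, hψ0, hsl, hbox, hiff⟩ :=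
      crit_graph hDo hDc hlam hu hne (hγD hq) (hacc q hq)
    have hCC : CC u D q e δ ψ := ⟨he, hδ, hψ, hψa, hψ0, hsl, hbox, hiff⟩
    obtain ⟨δ', hδ', hle, hmem⟩ := second_order_arc_two hγ he hδ hq
      fun t s ht hs hm => (hiff t s ht hs).1 (hcr _ hm)
    refine ⟨e, ψ, δ', hδ', he, hψ, hψ0, fun t ht => ⟨hmem t ht, ?_⟩⟩
    have hm := hmem t ht
    have hev : ∀ᶠ s in 𝓝 t, |s| < δ' :=
      continuous_abs.continuousAt.eventually_lt continuousAt_const ht
    refine second_order_arc_id hlam hu (hγD hm) (hL _ (hγD hm)) ?_ (hcr _ hm) rfl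
      (cc_cx_deriv q e hψ t) ?_
    · rw [huk _ hm]; exact hk
    · filter_upwards [hev] with s hs
      exact hcr _ (hmem s hs)
  -- the velocity does not vanish
  have hv0 : ∀ (e : ℂ) (ψ : ℝ → ℝ) (t : ℝ), ‖e‖ = 1 →
      0 < (cv e ψ t).re ^ 2 + (cv e ψ t).im ^ 2 := by
    intro e ψ t he
    have he0 : e ≠ 0 := by
      intro h
      rw [h, norm_zero] at he
      exact zero_ne_one he
    have h1 : cv e ψ t ≠ 0 := by
      unfold cv
      refine mul_ne_zero (fun h => ?_) he0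
      have := congrArg Complex.re h
      simp at this
    have h2 : 0 < Complex.normSq (cv e ψ t) := Complex.normSq_pos.2 h1
    rw [Complex.normSq_apply] at h2
    linarith [sq (cv e ψ t).re, sq (cv e ψ t).im]
  -- the derivative of the distance
  have hdist : ∀ (q e : ℂ) (ψ : ℝ → ℝ) (p t : ℝ), ContDiff ℝ 2 ψ →
      HasDerivAt (fun t => ((cx q e ψ t).re - p) ^ 2 + (cx q e ψ t).im ^ 2)
        (2 * (((cx q e ψ t).re - p) * (cv e ψ t).re + (cx q e ψ t).im * (cv e ψ t).im)) t := by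
    intro q e ψ p t hψ
    have h1 := cc_cx_deriv q e hψ t
    have h2 : HasDerivAt (fun t => (cx q e ψ t).re) (cv e ψ t).re t :=
      (Complex.reCLM.hasFDerivAt).comp_hasDerivAt t h1
    have h3 : HasDerivAt (fun t => (cx q e ψ t).im) (cv e ψ t).im t :=
      (Complex.imCLM.hasFDerivAt).comp_hasDerivAt t h1
    have h4 := ((h2.sub_const p).pow 2).add (h3.pow 2)
    refine h4.congr_deriv ?_
    push_cast
    ring
  -- the constant
  have hconst : -(μ / lam) = f ^ 2 := by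
    obtain ⟨q, hq, hmax⟩ := hγc.exists_isMaxOn hγinf.nonempty
      (f := fun x : ℂ => (x.re - f) ^ 2 + x.im ^ 2) (by fun_prop)
    obtain ⟨e, ψ, δ, hδ, he, hψ, hψ0, hg⟩ := hfr q hq
    have hc0 : cx q e ψ 0 = q := by
      unfold cx
      rw [hψ0]
      simp
    have hloc : IsLocalMax (fun t => ((cx q e ψ t).re - f) ^ 2 + (cx q e ψ t).im ^ 2) 0 := by
      have hev : ∀ᶠ s in 𝓝 (0 : ℝ), |s| < δ :=
        continuous_abs.continuousAt.eventually_lt continuousAt_const (by simpa using hδ)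
      filter_upwards [hev] with s hs
      have := hmax (hg s hs).1
      simp only [mem_ofPred_eq] at this
      rw [hc0]
      exact this
    have h1 := hloc.hasDerivAt_eq_zero (hdist q e ψ f 0 hψ)
    have h2 := (hg 0 (by simpa using hδ)).2
    have h3 := hv0 e ψ 0 he
    have h4 : (-(μ / lam) - f ^ 2) * ((cv e ψ 0).re ^ 2 + (cv e ψ 0).im ^ 2) = 0 := by
      linear_combination (((cx q e ψ 0).re + f) * (cv e ψ 0).re +
        (cx q e ψ 0).im * (cv e ψ 0).im) / 2 * h1 - h2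
    rcases mul_eq_zero.1 h4 with h5 | h5
    · linarith
    · exact absurd h5 h3.ne'
  obtain ⟨e, ψ, δ, hδ, he, hψ, hψ0, hg⟩ := hfr q₀ hq₀
  have hcxc : Continuous (cx q₀ e ψ) := cc_cx_cont q₀ e hψ
  have hcvc : Continuous (cv e ψ) := by
    have h1 : Continuous (deriv ψ) := hψ.continuous_deriv (by norm_num)
    unfold cv
    fun_prop
  have hinj : ∀ t t', cx q₀ e ψ t = cx q₀ e ψ t' → t = t' := fun t t' h => (cc_inj he h).1
  set S : ℝ → ℝ → ℝ := fun p t => ((cx q₀ e ψ t).re - p) * (cv e ψ t).re +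
    (cx q₀ e ψ t).im * (cv e ψ t).im with hS
  have hSc : ∀ p, Continuous (S p) := by
    intro p
    exact (((Complex.continuous_re.comp hcxc).sub continuous_const).mul
      (Complex.continuous_re.comp hcvc)).add
      ((Complex.continuous_im.comp hcxc).mul (Complex.continuous_im.comp hcvc))
  have hprod : ∀ t, |t| < δ → S f t * S (-f) t = 0 := by
    intro t ht
    have h1 := (hg t ht).2
    rw [hconst] at h1
    simp only [hS]
    linear_combination h1
  -- an interval on which one factor vanishes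
  obtain ⟨p, a, b, hp, hab, hsub, hz⟩ : ∃ p a b : ℝ, (p = f ∨ p = -f) ∧ a < b ∧
      (∀ t ∈ Ioo a b, |t| < δ) ∧ ∀ t ∈ Ioo a b, S p t = 0 := by
    by_cases hall : ∀ t, |t| < δ → S f t = 0
    · exact ⟨f, -δ, δ, Or.inl rfl, by linarith, fun t ht => abs_lt.2 ht,
        fun t ht => hall t (abs_lt.2 ht)⟩
    · push Not at hall
      obtain ⟨t₀, ht₀, hne₀⟩ := hall
      have hev1 : ∀ᶠ s in 𝓝 t₀, |s| < δ :=
        continuous_abs.continuousAt.eventually_lt continuousAt_const ht₀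
      have hev2 : ∀ᶠ s in 𝓝 t₀, S f s ≠ 0 := (hSc f).continuousAt.eventually_ne hne₀
      obtain ⟨ε, hε, hball⟩ := Metric.eventually_nhds_iff.1 (hev1.and hev2)
      have hb : ∀ t ∈ Ioo (t₀ - ε) (t₀ + ε), |t| < δ ∧ S f t ≠ 0 := by
        intro t ht
        apply hball
        rw [Real.dist_eq, abs_lt]
        exact ⟨by linarith [ht.1], by linarith [ht.2]⟩
      exact ⟨-f, t₀ - ε, t₀ + ε, Or.inr rfl, by linarith, fun t ht => (hb t ht).1,
        fun t ht => (mul_eq_zero.1 (hprod t (hb t ht).1)).resolve_left (hb t ht).2⟩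
  -- the distance is constant
  have hm0 : (a + b) / 2 ∈ Ioo a b := ⟨by linarith, by linarith⟩
  have hdc : ∀ t ∈ Ioo a b, ((cx q₀ e ψ t).re - p) ^ 2 + (cx q₀ e ψ t).im ^ 2 =
      ((cx q₀ e ψ ((a + b) / 2)).re - p) ^ 2 + (cx q₀ e ψ ((a + b) / 2)).im ^ 2 := by
    intro t ht
    have h3 := (convex_Ioo a b).norm_image_sub_le_of_norm_hasDerivWithin_le
      (f := fun t => ((cx q₀ e ψ t).re - p) ^ 2 + (cx q₀ e ψ t).im ^ 2)
      (f' := fun _ => (0 : ℝ)) (C := 0) (fun x hx => by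
        have h4 := hdist q₀ e ψ p x hψ
        have h5 : ((cx q₀ e ψ x).re - p) * (cv e ψ x).re +
          (cx q₀ e ψ x).im * (cv e ψ x).im = 0 := hz x hx
        rw [h5, mul_zero] at h4
        exact h4.hasDerivWithinAt) (fun x _ => by simp) hm0 ht
    rw [zero_mul] at h3
    exact sub_eq_zero.1 (norm_le_zero_iff.1 h3)
  have hnorm : ∀ t, ‖cx q₀ e ψ t - (p : ℂ)‖ ^ 2 =
      ((cx q₀ e ψ t).re - p) ^ 2 + (cx q₀ e ψ t).im ^ 2 := by
    intro t
    rw [← Complex.normSq_eq_norm_sq, Complex.normSq_apply]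
    simp
    ring
  set r : ℝ := ‖cx q₀ e ψ ((a + b) / 2) - (p : ℂ)‖ with hr
  have hcon : ∀ t ∈ Ioo a b, ‖cx q₀ e ψ t - (p : ℂ)‖ = r := by
    intro t ht
    have h1 : ‖cx q₀ e ψ t - (p : ℂ)‖ ^ 2 = r ^ 2 := by
      rw [hnorm, hr, hnorm, hdc t ht]
    exact (sq_eq_sq₀ (norm_nonneg _) (norm_nonneg _)).1 h1
  have hrpos : 0 < r := by
    rcases (norm_nonneg (cx q₀ e ψ ((a + b) / 2) - (p : ℂ))).lt_or_eq with h | h
    · exact h
    · exfalso
      have m1 : (a + (a + b) / 2) / 2 ∈ Ioo a b := ⟨by linarith, by linarith⟩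
      have h1 := hcon _ m1
      rw [hr, ← h] at h1
      have h2 : cx q₀ e ψ ((a + (a + b) / 2) / 2) = p := sub_eq_zero.1 (norm_eq_zero.1 h1)
      have h3 : cx q₀ e ψ ((a + b) / 2) = p := sub_eq_zero.1 (norm_eq_zero.1 h.symm)
      have := hinj _ _ (h2.trans h3.symm)
      linarith
  obtain ⟨θ₁, θ₂, hθ, harc⟩ := second_order_arc_circ hab hcxc hinj
    (fun t ht => (hg t (hsub t ht)).1) hrpos hcon
  refine ⟨p, r, θ₁, θ₂, ?_, hrpos, hθ, harc⟩
  rcases hp with h | h
  · left; rw [h]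
  · right; rw [h]; push_cast; rfl

end Pool.Agent.Helper327_Drum
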