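import Pool.Agent.Helper327_Drum.EDefs
import Pool.Agent.Helper327_Drum.Fin.SY6
import Pool.Agent.Helper327_Drum.Fin.N3

/-
JOB EL5 (owner helper327, problem MP_d92c84_an). All imports are on origin/main.
-/

set_option autoImplicit false
open MeasureTheory Set Filter Topology ComplexConjugate
open scoped ContDiff

namespace Pool.Agent.Helper327_Drum

/-
`SimpleClosedCurve R`: the image of the unit circle under a continuous injective map. `inside R = {x | x ∉ R ∧ Bornology.IsBounded (connectedComponentIn Rᶜ x)}` (Defs.lean).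
Plain proof of TARGET 1: T maps the complement of R homeomorphically onto the complement of T '' R, components to components, and bounded sets to bounded sets (both ways). (Compare `inside_isom` in
Fin/SY6.lean.)
-/

/-- TARGET 1 -/
theorem inside_homeo (T : ℂ ≃ₜ ℂ) (hT : ∀ K : Set ℂ, Bornology.IsBounded K ↔
    Bornology.IsBounded (T '' K)) (R : Set ℂ) : inside (T '' R) = T '' inside R := by
  ext x
  obtain ⟨y, rfl⟩ := T.surjective x
  rw [T.injective.mem_set_image]
  unfold inside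
  simp only [mem_ofPred_eq]
  rw [T.injective.mem_set_image]
  refine and_congr_right fun hy => ?_
  have h1 : (T '' R)ᶜ = T '' Rᶜ := (image_compl_eq T.bijective).symm
  have h2 := T.image_connectedComponentIn (s := Rᶜ) (x := y) hy
  rw [h1, hT (connectedComponentIn Rᶜ y), h2]

/-- a homeomorphism of the plane maps bounded sets to bounded sets -/
theorem homeo_bdd (T : ℂ ≃ₜ ℂ) (K : Set ℂ) (h : Bornology.IsBounded K) :
    Bornology.IsBounded (T '' K) := by
  have h1 : IsCompact (closure K) := h.isCompact_closure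
  exact (h1.image T.continuous).isBounded.subset (image_mono subset_closure)

/-- a homeomorphism of the plane maps bounded sets to bounded sets, both ways -/
theorem homeo_bdd_iff (T : ℂ ≃ₜ ℂ) (K : Set ℂ) :
    Bornology.IsBounded K ↔ Bornology.IsBounded (T '' K) := by
  refine ⟨homeo_bdd T K, fun h => ?_⟩
  have h1 := homeo_bdd T.symm _ h
  rw [← image_comp] at h1
  have h2 : (T.symm ∘ T : ℂ → ℂ) = id := by
    funext x
    simp
  rwa [h2, image_id] at h1

/-- the linear homeomorphism `x + i y ↦ A x + i B y` -/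
noncomputable def ellT {A B : ℝ} (hA : 0 < A) (hB : 0 < B) : ℂ ≃ₜ ℂ where
  toFun z := ⟨A * z.re, B * z.im⟩
  invFun z := ⟨z.re / A, z.im / B⟩
  left_inv z := by
    apply Complex.ext
    · simp only
      field_simp
    · simp only
      field_simp
  right_inv z := by
    apply Complex.ext
    · simp only
      field_simp
    · simp only
      field_simp
  continuous_toFun := by
    have : (fun z : ℂ => (⟨A * z.re, B * z.im⟩ : ℂ)) =
        fun z : ℂ => ((A * z.re : ℝ) : ℂ) + ((B * z.im : ℝ) : ℂ) * Complex.I := by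
      funext z
      apply Complex.ext <;> simp
    show Continuous (fun z : ℂ => (⟨A * z.re, B * z.im⟩ : ℂ))
    rw [this]
    fun_prop
  continuous_invFun := by
    have : (fun z : ℂ => (⟨z.re / A, z.im / B⟩ : ℂ)) =
        fun z : ℂ => ((z.re / A : ℝ) : ℂ) + ((z.im / B : ℝ) : ℂ) * Complex.I := by
      funext z
      apply Complex.ext
      · simp only [Complex.add_re, Complex.mul_re, Complex.ofReal_re, Complex.ofReal_im,
          Complex.I_re, Complex.I_im]
        ring
      · simp only [Complex.add_im, Complex.mul_im, Complex.ofReal_re, Complex.ofReal_im,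
          Complex.I_re, Complex.I_im]
        ring
    show Continuous (fun z : ℂ => (⟨z.re / A, z.im / B⟩ : ℂ))
    rw [this]
    fun_prop

theorem ellT_symm {A B : ℝ} (hA : 0 < A) (hB : 0 < B) (x : ℂ) :
    (ellT hA hB).symm x = ⟨x.re / A, x.im / B⟩ := rfl

theorem ellT_norm {A B : ℝ} (hA : 0 < A) (hB : 0 < B) (x : ℂ) :
    ‖(ellT hA hB).symm x‖ ^ 2 = (x.re / A) ^ 2 + (x.im / B) ^ 2 := by
  rw [ellT_symm, Complex.sq_norm, Complex.normSq_mk]
  ring

/-- TARGET 2: the ellipse is the image of the unit circle under a linear homeomorphism (`inside_sphere` in Fin/N3.lean for the unit circle, `scc_sphere` or `scc_circle` in Fin/G4.lean). -/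
theorem ellipse_inside {A B : ℝ} (hA : 0 < A) (hB : 0 < B) :
    SimpleClosedCurve {x : ℂ | (x.re / A) ^ 2 + (x.im / B) ^ 2 = 1} ∧
      inside {x : ℂ | (x.re / A) ^ 2 + (x.im / B) ^ 2 = 1} =
        {x : ℂ | (x.re / A) ^ 2 + (x.im / B) ^ 2 < 1} := by
  have h1 : {x : ℂ | (x.re / A) ^ 2 + (x.im / B) ^ 2 = 1} =
      (ellT hA hB) '' Metric.sphere (0 : ℂ) 1 := by
    ext x
    rw [Homeomorph.image_eq_preimage_symm, mem_preimage, mem_sphere_zero_iff_norm]
    show (x.re / A) ^ 2 + (x.im / B) ^ 2 = 1 ↔ _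
    rw [← ellT_norm hA hB]
    exact pow_eq_one_iff_of_nonneg (norm_nonneg _) (by norm_num)
  have h2 : {x : ℂ | (x.re / A) ^ 2 + (x.im / B) ^ 2 < 1} =
      (ellT hA hB) '' Metric.ball (0 : ℂ) 1 := by
    ext x
    rw [Homeomorph.image_eq_preimage_symm, mem_preimage, mem_ball_zero_iff]
    show (x.re / A) ^ 2 + (x.im / B) ^ 2 < 1 ↔ _
    rw [← ellT_norm hA hB]
    exact sq_lt_one_iff₀ (norm_nonneg _)
  refine ⟨?_, ?_⟩
  · rw [h1]
    obtain ⟨f, hf, hinj, hr⟩ := scc_sphere (0 : ℂ) (one_pos)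
    rw [← hr]
    exact ⟨fun z => ellT hA hB (f z), (ellT hA hB).continuous.comp hf,
      (ellT hA hB).injective.comp hinj, range_comp (ellT hA hB) f⟩
  · rw [h1, h2, inside_homeo (ellT hA hB) (homeo_bdd_iff _), inside_sphere (0 : ℂ) one_pos]

/-- TARGET 3: the semi-axes in elliptic coordinates: f = √(A² - B²), ξ₀ = arsinh (B / f). -/
theorem ellipse_coord {A B : ℝ} (hB : 0 < B) (hAB : B < A) :
    ∃ f ξ₀ : ℝ, 0 < f ∧ 0 < ξ₀ ∧ f * Real.cosh ξ₀ = A ∧ f * Real.sinh ξ₀ = B := by
  have h0 : 0 < A ^ 2 - B ^ 2 := by nlinarith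
  have hf : 0 < √(A ^ 2 - B ^ 2) := Real.sqrt_pos.2 h0
  have hsq : √(A ^ 2 - B ^ 2) ^ 2 = A ^ 2 - B ^ 2 := Real.sq_sqrt h0.le
  have hs : √(A ^ 2 - B ^ 2) * Real.sinh (Real.arsinh (B / √(A ^ 2 - B ^ 2))) = B := by
    rw [Real.sinh_arsinh]
    field_simp
  refine ⟨√(A ^ 2 - B ^ 2), Real.arsinh (B / √(A ^ 2 - B ^ 2)), hf,
    Real.arsinh_pos_iff.2 (div_pos hB hf), ?_, hs⟩
  have hc : (√(A ^ 2 - B ^ 2) * Real.cosh (Real.arsinh (B / √(A ^ 2 - B ^ 2)))) ^ 2 = A ^ 2 := by
    rw [mul_pow, Real.cosh_sq, mul_add, ← mul_pow, hs, hsq]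
    ring
  have hpos : 0 ≤ √(A ^ 2 - B ^ 2) * Real.cosh (Real.arsinh (B / √(A ^ 2 - B ^ 2))) :=
    mul_nonneg hf.le (Real.cosh_pos _).le
  exact (sq_eq_sq₀ hpos (hB.trans hAB).le).1 hc

/-- TARGET 4: it is not a disc. -/
theorem ellipse_not_ball {A B : ℝ} (hB : 0 < B) (hAB : B < A) (p : ℂ) (ρ : ℝ) :
    {x : ℂ | (x.re / A) ^ 2 + (x.im / B) ^ 2 < 1} ≠ Metric.ball p ρ := by
  intro h
  have hA : 0 < A := hB.trans hAB
  have hmem : ∀ x : ℂ, (x.re / A) ^ 2 + (x.im / B) ^ 2 < 1 ↔ ‖x - p‖ < ρ := by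
    intro x
    rw [← mem_ball_iff_norm, ← h]
    rfl
  set c : ℝ := (A + B) / 2 with hc
  have hcB : B < c := by rw [hc]; linarith
  have hcA : c < A := by rw [hc]; linarith
  have hc0 : 0 < c := hB.trans hcB
  have hin : ∀ s : ℝ, s ^ 2 = c ^ 2 → ‖(s : ℂ) - p‖ < ρ := by
    intro s hs
    rw [← hmem]
    simp only [Complex.ofReal_re, Complex.ofReal_im, zero_div]
    rw [div_pow, hs, zero_pow (by norm_num), add_zero, div_lt_one (by positivity)]
    exact pow_lt_pow_left₀ hcA hc0.le (by norm_num)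
  have hρ : 0 < ρ := lt_of_le_of_lt (norm_nonneg _) (hin c rfl)
  have hnorm : ∀ z : ℂ, ‖z‖ < ρ → z.re ^ 2 + z.im ^ 2 < ρ ^ 2 := by
    intro z hz
    have h1 : ‖z‖ ^ 2 < ρ ^ 2 := pow_lt_pow_left₀ hz (norm_nonneg _) (by norm_num)
    rw [Complex.sq_norm, Complex.normSq_apply] at h1
    nlinarith
  have e1 := hnorm _ (hin c rfl)
  have e2 := hnorm _ (hin (-c) (by ring))
  simp only [Complex.sub_re, Complex.sub_im, Complex.ofReal_re, Complex.ofReal_im] at e1 e2
  have hcρ : c < ρ := by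
    by_contra hh
    push Not at hh
    nlinarith [sq_nonneg p.re, sq_nonneg p.im]
  have hout : ∀ s : ℝ, |s| = c → (p.im + s) ^ 2 < B ^ 2 := by
    intro s hs
    have h1 : ((p + (s : ℂ) * Complex.I).re / A) ^ 2 + ((p + (s : ℂ) * Complex.I).im / B) ^ 2 < 1 := by
      rw [hmem, add_sub_cancel_left, norm_mul, Complex.norm_I, mul_one, Complex.norm_real,
        Real.norm_eq_abs, hs]
      exact hcρ
    simp only [Complex.add_im, Complex.mul_im, Complex.ofReal_re, Complex.ofReal_im,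
      Complex.I_re, Complex.I_im, mul_one, mul_zero, add_zero] at h1
    have h2 : ((p.im + s) / B) ^ 2 < 1 := by
      have := sq_nonneg ((p + (s : ℂ) * Complex.I).re / A)
      linarith
    rwa [div_pow, div_lt_one (by positivity)] at h2
  have g1 := hout c (abs_of_pos hc0)
  have g2 := hout (-c) (by rw [abs_neg, abs_of_pos hc0])
  nlinarith [sq_nonneg p.im]

end Pool.Agent.Helper327_Drum
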