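import Pool.Agent.Helper327_Drum.BDefs
import Pool.Agent.Helper327_Drum.Fin.M4
import Pool.Agent.Helper327_Drum.Fin.I1
import Pool.Agent.Helper327_Drum.Fin.I2
import Pool.Agent.Helper327_Drum.Fin.I5
import Pool.Agent.Helper327_Drum.Fin.G2
import Pool.Agent.Helper327_Drum.Fin.G3
import Pool.Agent.Helper327_Drum.Fin.G4
import Pool.Agent.Helper327_Drum.Fin.K2a
import Pool.Agent.Helper327_Drum.Fin.AS2

/-
JOB P1 (owner helper327, problem MP_d92c84_an). All imports are on origin/main.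
-/

set_option autoImplicit false
open MeasureTheory Set Filter Topology ComplexConjugate
open scoped ContDiff InnerProductSpace

namespace Pool.Agent.Helper327_Drum

open Pool.Agent.TH298.Sch (dd SC)
open Pool.Agent.R227.SA (la Wat Dat)

/-
`Wat D lam u` (R227.SA10): u continuous on the plane, 0 off D, near each point of D equal to a smooth solution W of
la W = -lam W. `kill_disc` is in Fin/K2a.lean, `crit_isolated` in Fin/I1.lean, `LocH`, `uc_loc` in Fin/I2.lean.
Plain proof. Put D = inside R (open, connected by `inside_basic`, `inside_jordan`), w x = fderiv ℝ u x (I (x - q)) on D. w is `LocH D lam`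
(rotational derivative of a solution about q; see `kill_wat` in Fin/K2a.lean for the same computation). At the points
x = q + r ee θ of the arc: w x = 0 since fderiv u x = 0. Also fderiv w x = 0: differentiating
fderiv u (q + r ee θ) = 0 in θ gives D²u(x)(I (x - q)) = 0 (I (x-q) = r I ee θ is the derivative of the arc), so by symmetry of the second
derivative D²u(x)(h, I(x-q)) = 0, and fderiv w x h = D²u(x)(h, I(x-q)) + fderiv u x (I h) = 0. So the arc consists of zeros which are critical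
points of w; they are not isolated, so by `crit_isolated` (contrapositive) w vanishes near a point of the arc, and by `uc_loc` w = 0 on D.
inside γ ⊆ D (`inside_sub`) is nonempty and v = (inside γ).indicator (u - k) is a Dat (`crit_dat`); fderiv v x (I (x - q)) = 0 for all x (in inside γ
it is w; elsewhere fderiv v x = 0 by `Dat.outd`). Apply `kill_disc` with a = -I q, b = 1 (`inside_jordan` for γ: connected, regular;
`inside_compl`: the complement is connected).
-/

/-- the rotational derivative of a solution is locally a solution -/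
lemma p1_loc {D : Set ℂ} {lam : ℝ} {u : ℂ → ℝ} (hu : Wat D lam u) (q : ℂ) {x₀ : ℂ}
    (hx₀ : x₀ ∈ D) : ∃ r > 0, ∃ U : ℂ → ℝ, SC U ∧ Metric.ball x₀ r ⊆ D ∧
      (∀ x ∈ Metric.ball x₀ r, u x = U x) ∧
      SC (fun x => fderiv ℝ U x (Complex.I * (x - q))) ∧
      ∀ x ∈ Metric.ball x₀ r, la (fun x => fderiv ℝ U x (Complex.I * (x - q))) x =
        -(lam * fderiv ℝ U x (Complex.I * (x - q))) := by
  obtain ⟨r, hr, U, hU, hb, h⟩ := hu.loc x₀ hx₀
  have e : (fun x => fderiv ℝ U x (Complex.I * (x - q))) =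
      fun x => dd (-(Complex.I * q)) U x + 1 * Pool.Agent.TH298.Sch.Lr U x := by
    funext x
    have h1 := j845_split (fderiv ℝ U x) (-(Complex.I * q)) 1 x
    have h2 : Complex.I * (x - q) = -(Complex.I * q) + (1 : ℝ) * Complex.I * x := by
      push_cast
      ring
    rw [h2, h1]
    rfl
  refine ⟨r, hr, U, hU, hb, fun x hx => (h x hx).1, ?_, fun x hx => ?_⟩
  · rw [e]
    exact (Pool.Agent.TH298.Sch.dd_sc hU _).add
      (j845_smul_sc (Pool.Agent.TH298.Sch.Lr_sc hU) 1)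
  · have hn := Metric.isOpen_ball.mem_nhds hx
    have e1 := congrFun e x
    rw [e1, e, j845_la_add (Pool.Agent.TH298.Sch.dd_sc hU _)
          (j845_smul_sc (Pool.Agent.TH298.Sch.Lr_sc hU) 1),
        j845_la_smul (Pool.Agent.TH298.Sch.Lr_sc hU), j845_la_dd hU,
        Pool.Agent.R227.SA.la_Lr hU]
    have h1 : la U =ᶠ[𝓝 x] fun y => -(lam * U y) := by
      filter_upwards [hn] with y hy
      exact (h y hy).2
    unfold Pool.Agent.TH298.Sch.Lr dd
    rw [h1.fderiv_eq]
    have h2 : HasFDerivAt (fun y => -(lam * U y)) (-(lam • fderiv ℝ U x)) x :=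
      (((hU.diff x).hasFDerivAt).const_mul lam).neg
    rw [h2.fderiv]
    simp
    ring

/-- the derivative of the arc -/
lemma p1_arc (q : ℂ) (r θ : ℝ) :
    HasDerivAt (fun θ : ℝ => q + r * ee θ) (Complex.I * (q + r * ee θ - q)) θ := by
  have h2 : HasDerivAt (fun t : ℝ => (t : ℂ) * Complex.I) Complex.I θ := by
    simpa using (Complex.ofRealCLM.hasDerivAt (x := θ)).mul_const Complex.I
  have h3 := ((h2.cexp.const_mul (r : ℂ)).const_add q)
  refine h3.congr_deriv ?_
  unfold ee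
  ring

/-- on an arc of critical points the rotational derivative is critical -/
lemma p1_crit {U : ℂ → ℝ} (hU : SC U) (q : ℂ) (r : ℝ) {θ : ℝ}
    (h : ∀ᶠ t in 𝓝 θ, fderiv ℝ U (q + r * ee t) = 0) :
    fderiv ℝ (fun x => fderiv ℝ U x (Complex.I * (x - q))) (q + r * ee θ) = 0 := by
  set x : ℂ := q + r * ee θ with hx
  have hx0 : fderiv ℝ U x = 0 := h.self_of_nhds
  have h2 : ContDiff ℝ (⊤ : ℕ∞) (fderiv ℝ U) := hU.sm.fderiv_right (by simp)
  have h3 : HasFDerivAt (fderiv ℝ U) (fderiv ℝ (fderiv ℝ U) x) x :=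
    ((h2.differentiable (by simp)) x).hasFDerivAt
  have hsym : ∀ a b, fderiv ℝ (fderiv ℝ U) x a b = fderiv ℝ (fderiv ℝ U) x b a := fun a b =>
    second_derivative_symmetric (fun y => (hU.diff y).hasFDerivAt) h3 a b
  -- the derivative along the arc
  have h4 : HasDerivAt (fun t : ℝ => fderiv ℝ U (q + r * ee t))
      (fderiv ℝ (fderiv ℝ U) x (Complex.I * (x - q))) θ := by
    have h5 : HasFDerivAt (fderiv ℝ U) (fderiv ℝ (fderiv ℝ U) x) (q + r * ee θ) := h3
    exact h5.comp_hasDerivAt θ (p1_arc q r θ)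
  have h6 : fderiv ℝ (fderiv ℝ U) x (Complex.I * (x - q)) = 0 := by
    have h7 : HasDerivAt (fun t : ℝ => fderiv ℝ U (q + r * ee t)) 0 θ :=
      (hasDerivAt_const θ (0 : ℂ →L[ℝ] ℝ)).congr_of_eventuallyEq h
    exact h4.unique h7
  have h8 : HasFDerivAt (fun y : ℂ => Complex.I * (y - q))
      ((ContinuousLinearMap.mul ℝ ℂ Complex.I)) x := by
    have h9 : HasFDerivAt (fun y : ℂ => y - q) (ContinuousLinearMap.id ℝ ℂ) x :=
      (hasFDerivAt_id x).sub_const q
    have h10 := (ContinuousLinearMap.mul ℝ ℂ Complex.I).hasFDerivAt.comp x h9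
    exact h10
  have h11 := h3.clm_apply h8
  have h12 : fderiv ℝ (fun y => fderiv ℝ U y (Complex.I * (y - q))) x =
      (fderiv ℝ U x).comp (ContinuousLinearMap.mul ℝ ℂ Complex.I) +
        (fderiv ℝ (fderiv ℝ U) x).flip (Complex.I * (x - q)) := h11.fderiv
  rw [h12, hx0]
  ext a
  simp only [ContinuousLinearMap.zero_comp, zero_add, ContinuousLinearMap.flip_apply,
    zero_apply]
  rw [hsym, h6]
  rfl

/-- TARGET: if the curve contains an arc of a circle, it encloses a disc. -/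
theorem arc_disc {R γ : Set ℂ} {lam k : ℝ} {u : ℂ → ℝ} (hR : SimpleClosedCurve R)
    (hγ : SimpleClosedCurve γ) (hlam : 0 < lam) (hu : Wat (inside R) lam u) (hsub : γ ⊆ inside R)
    (hk : k ≠ 0) (huk : ∀ x ∈ γ, u x = k) (hcr : ∀ x ∈ γ, fderiv ℝ u x = 0) {q : ℂ} {r : ℝ}
    (hr : r ≠ 0) {θ₁ θ₂ : ℝ} (hθ : θ₁ < θ₂) (harc : ∀ θ ∈ Ioo θ₁ θ₂, q + r * ee θ ∈ γ) :
    ∃ (p : ℂ) (r' : ℝ), 0 < r' ∧ inside γ = Metric.ball p r' := by
  have hcomp : ∀ {S : Set ℂ}, SimpleClosedCurve S → IsCompact S ∧ IsConnected S := by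
    rintro S ⟨f, hf, -, rfl⟩
    exact ⟨isCompact_range hf, isConnected_range hf⟩
  set θ₀ := (θ₁ + θ₂) / 2 with hθ₀
  have hmem : θ₀ ∈ Ioo θ₁ θ₂ := ⟨by rw [hθ₀]; linarith, by rw [hθ₀]; linarith⟩
  set x₁ : ℂ := q + r * ee θ₀ with hx₁
  have hx₁γ : x₁ ∈ γ := harc θ₀ hmem
  have hx₁D : x₁ ∈ inside R := hsub hx₁γ
  have hloc : LocH (inside R) lam (fun x => fderiv ℝ u x (Complex.I * (x - q))) := by
    intro x₀ hx₀
    obtain ⟨ρ, hρ, U, hU, hb, h1, h2, h3⟩ := p1_loc hu q hx₀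
    refine ⟨ρ, hρ, _, h2, hb, fun x hx => ⟨?_, h3 x hx⟩⟩
    have : u =ᶠ[𝓝 x] U := by
      filter_upwards [Metric.isOpen_ball.mem_nhds hx] with y hy
      exact h1 y hy
    simp only
    rw [this.fderiv_eq]
  have hDcon := (inside_jordan hR ⟨x₁, hx₁D⟩).1.isPreconnected
  obtain ⟨ρ, hρ, U, hU, hb, h1, h2, h3⟩ := p1_loc hu q hx₁D
  have hfd : ∀ x ∈ Metric.ball x₁ ρ, fderiv ℝ u x = fderiv ℝ U x := by
    intro x hx
    have : u =ᶠ[𝓝 x] U := by
      filter_upwards [Metric.isOpen_ball.mem_nhds hx] with y hy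
      exact h1 y hy
    rw [this.fderiv_eq]
  -- the arc near the middle point
  have hcont : Continuous fun θ : ℝ => q + r * ee θ := by
    unfold ee
    fun_prop
  have hev : ∀ᶠ θ in 𝓝 θ₀, θ ∈ Ioo θ₁ θ₂ ∧ q + r * ee θ ∈ Metric.ball x₁ ρ := by
    have hA : ∀ᶠ θ in 𝓝 θ₀, θ ∈ Ioo θ₁ θ₂ := isOpen_Ioo.mem_nhds hmem
    refine hA.and ?_
    exact hcont.continuousAt.eventually_mem (Metric.isOpen_ball.mem_nhds (Metric.mem_ball_self hρ))
  have hev2 : ∀ᶠ θ in 𝓝 θ₀, fderiv ℝ U (q + r * ee θ) = 0 := by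
    filter_upwards [hev] with θ hθ'
    rw [← hfd _ hθ'.2]
    exact hcr _ (harc θ hθ'.1)
  have hev3 : ∀ᶠ θ in 𝓝 θ₀,
      fderiv ℝ (fun x => fderiv ℝ U x (Complex.I * (x - q))) (q + r * ee θ) = 0 := by
    filter_upwards [hev2.eventually_nhds] with θ hθ'
    exact p1_crit hU q r hθ'
  have hw0 : fderiv ℝ U x₁ (Complex.I * (x₁ - q)) = 0 := by
    rw [hev2.self_of_nhds]
    rfl
  have hWz : (fun x => fderiv ℝ U x (Complex.I * (x - q))) =ᶠ[𝓝 x₁] 0 := by
    by_contra hne
    obtain ⟨δ, hδ, hd⟩ := crit_isolated h2 hlam hρ h3 hw0 hev3.self_of_nhds hne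
    have hder := p1_arc q r θ₀
    have hne0 : Complex.I * (q + r * ee θ₀ - q) ≠ 0 := by
      rw [add_sub_cancel_left]
      refine mul_ne_zero Complex.I_ne_zero (mul_ne_zero (by exact_mod_cast hr) ?_)
      unfold ee
      exact Complex.exp_ne_zero _
    have h4 : ∀ᶠ θ in 𝓝[≠] θ₀, q + r * ee θ ≠ x₁ := hder.eventually_ne hne0
    have h5 : ∀ᶠ θ in 𝓝[≠] θ₀, q + r * ee θ ∈ Metric.ball x₁ δ :=
      nhdsWithin_le_nhds (hcont.continuousAt.eventually_mem
        (Metric.isOpen_ball.mem_nhds (Metric.mem_ball_self hδ)))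
    obtain ⟨θ, g1, g2, g3⟩ := (h4.and (h5.and (nhdsWithin_le_nhds hev3))).exists
    exact hd _ g2 g1 g3
  have hwz : (fun x => fderiv ℝ u x (Complex.I * (x - q))) =ᶠ[𝓝 x₁] 0 := by
    filter_upwards [hWz, Metric.ball_mem_nhds x₁ hρ] with x hx hx'
    rw [hfd x hx']
    exact hx
  have hwD := uc_loc hloc hlam hDcon hx₁D hwz
  obtain ⟨hne, hD⟩ := crit_dat hR hγ hlam hu hsub hk huk hcr
  obtain ⟨hRc, hRcon⟩ := hcomp hR
  obtain ⟨hγc, hγcon⟩ := hcomp hγ
  obtain ⟨ho, hbd, -, -, -⟩ := inside_basic hγc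
  obtain ⟨hcon, -, hreg⟩ := inside_jordan hγ hne
  have hcc := (inside_compl hγc hγcon).1.isPreconnected
  refine kill_disc hD ho hbd hne hcon.isPreconnected hreg hcc hlam hk
    (a := -(Complex.I * q)) (b := 1) (Or.inr one_ne_zero) fun x => ?_
  have he : -(Complex.I * q) + (1 : ℝ) * Complex.I * x = Complex.I * (x - q) := by
    push_cast
    ring
  rw [he]
  by_cases hx : x ∈ inside γ
  · have h6 : (inside γ).indicator (fun x => u x - k) =ᶠ[𝓝 x] fun x => u x - k := by
      filter_upwards [ho.mem_nhds hx] with y hy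
      exact indicator_of_mem hy _
    rw [h6.fderiv_eq, fderiv_sub_const]
    exact hwD x (inside_sub hRc hRcon hsub hx)
  · rw [hD.outd x hx]
    rfl

end Pool.Agent.Helper327_Drum
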