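import Pool.Agent.Helper327_Drum.ElDefs
import Pool.Agent.Helper327_Drum.Fin.EL3
import Pool.Agent.Helper327_Drum.Fin.EL4
import Pool.Agent.Helper327_Drum.Fin.EL5
import Pool.Agent.Helper327_Drum.Fin.P1
import Pool.Agent.Helper327_Drum.Fin.SY6
import Pool.Agent.Helper327_Drum.Fin.AS6

/-! Elliptic drums. -/

set_option autoImplicit false
open MeasureTheory Set Filter Topology ComplexConjugate
open scoped ContDiff InnerProductSpace

namespace Pool.Agent.Helper327_Drum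

open Pool.Agent.TH298.Sch (dd SC Lr)
open Pool.Agent.R227.SA (la Wat Dat)

theorem dirichlet_of_wat {D : Set ℂ} (hD : IsOpen D) {lam : ℝ} {u : ℂ → ℝ} (hu : Wat D lam u) :
    DirichletEigenfunction D lam u := by
  refine ⟨fun x hx => ((wat_smooth hu hx).1.of_le (by norm_cast)).contDiffWithinAt,
    hu.cont.continuousOn, fun x hx => hu.out x fun hxD => ?_, fun x hx => (wat_smooth hu hx).2⟩
  have h1 : x ∈ D ∩ frontier D := ⟨hxD, hx⟩
  rw [hD.inter_frontier_eq] at h1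
  exact h1

/-- No closed curve of critical points in an ellipse, for simple eigenvalues. -/
theorem ellipse_nocurve {R γ : Set ℂ} {A B lam k : ℝ} (hB : 0 < B) (hAB : B < A) (σ : ℂ ≃ᵢ ℂ)
    (hR : R = σ '' {x : ℂ | (x.re / A) ^ 2 + (x.im / B) ^ 2 = 1}) (hlam : 0 < lam)
    (hs : SimpleEigenvalue (inside R) lam) {u : ℂ → ℝ} (hu : Wat (inside R) lam u)
    (hu0 : ∃ x, u x ≠ 0) (hγ : SimpleClosedCurve γ) (hsub : γ ⊆ inside R) (hk : k ≠ 0)
    (huk : ∀ x ∈ γ, u x = k) (hcr : ∀ x ∈ γ, fderiv ℝ u x = 0) : False := by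
  have hA : 0 < A := hB.trans hAB
  obtain ⟨f, ξ₀, hf, hξ, hfA, hfB⟩ := ellipse_coord hB hAB
  obtain ⟨hE1, hE2⟩ := ellipse_inside hA hB
  set R₀ : Set ℂ := {x : ℂ | (x.re / A) ^ 2 + (x.im / B) ^ 2 = 1} with hR₀
  have hell : ell f ξ₀ = inside R₀ := by
    rw [hE2, ← hfA, ← hfB]
    rfl
  have hRs : SimpleClosedCurve R := by
    rw [hR]
    exact scc_isom σ hE1
  have hDo : IsOpen (inside R) := (inside_basic (scc_basic hRs).1).1
  have hDo₀ : IsOpen (ell f ξ₀) := (ell_open hf hξ).1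
  have hin : inside R = σ '' ell f ξ₀ := by rw [hR, inside_isom, hell]
  have hpre : σ ⁻¹' inside R = ell f ξ₀ := by
    rw [hin]
    exact preimage_image_eq _ σ.injective
  have hpre' : σ.symm ⁻¹' ell f ξ₀ = inside R := by
    rw [hin]
    ext x
    constructor
    · intro hx
      exact ⟨σ.symm x, hx, σ.apply_symm_apply x⟩
    · rintro ⟨y, hy, rfl⟩
      rw [mem_preimage, IsometryEquiv.symm_apply_apply]
      exact hy
  have hu₀ : Wat (ell f ξ₀) lam (fun x => u (σ x)) := by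
    have := wat_isom σ hu
    rwa [hpre] at this
  set u₀ : ℂ → ℝ := fun x => u (σ x) with hu₀def
  have hw := ell_wat hf hξ hu₀
  set w₀ : ℂ → ℝ := (ell f ξ₀).indicator (eop f lam u₀) with hw₀
  have hw' : Wat (inside R) lam (fun x => w₀ (σ.symm x)) := by
    have := wat_isom σ.symm hw
    rwa [hpre'] at this
  obtain ⟨a, b, hab, hrel⟩ := hs _ _ (dirichlet_of_wat hDo hu) (dirichlet_of_wat hDo hw')
  have hrel' : ∀ x ∈ ell f ξ₀, a * u₀ x + b * eop f lam u₀ x = 0 := by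
    intro x hx
    have h1 := hrel (σ x) (by rw [hin]; exact mem_image_of_mem _ hx)
    rw [IsometryEquiv.symm_apply_apply, hw₀, indicator_of_mem hx] at h1
    exact h1
  have hb : b ≠ 0 := by
    intro hb
    obtain ⟨x, hx⟩ := hu0
    have hxD : x ∈ inside R := by
      by_contra h0
      exact hx (hu.out x h0)
    have h1 := hrel x hxD
    rw [hb, zero_mul, add_zero] at h1
    exact (hab.resolve_right (not_not.2 hb)) ((mul_eq_zero.1 h1).resolve_right hx)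
  have hL : ∀ x ∈ ell f ξ₀, Lr (Lr u₀) x + f ^ 2 * dd 1 (dd 1 u₀) x =
      (-(a / b) - lam * f ^ 2 / 2) * u₀ x := by
    intro x hx
    have h1 := hrel' x hx
    have h2 : eop f lam u₀ x = -(a / b) * u₀ x := by
      field_simp
      linarith
    have h3 : eop f lam u₀ x = Lr (Lr u₀) x + f ^ 2 * dd 1 (dd 1 u₀) x + lam * f ^ 2 / 2 * u₀ x :=
      rfl
    rw [h3] at h2
    linarith
  have hγ₀ : SimpleClosedCurve (σ.symm '' γ) := scc_isom σ.symm hγ
  have hmem : ∀ x ∈ σ.symm '' γ, σ x ∈ γ := by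
    rintro x ⟨y, hy, rfl⟩
    rw [IsometryEquiv.apply_symm_apply]
    exact hy
  have hsub₀ : σ.symm '' γ ⊆ ell f ξ₀ := by
    intro x hx
    rw [← hpre]
    exact hsub (hmem x hx)
  have huk₀ : ∀ x ∈ σ.symm '' γ, u₀ x = k := fun x hx => huk _ (hmem x hx)
  have hcr₀ : ∀ x ∈ σ.symm '' γ, fderiv ℝ u₀ x = 0 := fun x hx => fderiv_isom σ (hcr _ (hmem x hx))
  have hDc : IsPreconnected (ell f ξ₀) := by
    rw [hell]
    obtain ⟨-, -, hinf⟩ := scc_basic hγ₀
    obtain ⟨x, hx⟩ := hinf.nonempty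
    exact (inside_jordan hE1 ⟨x, by rw [← hell]; exact hsub₀ hx⟩).1.isPreconnected
  obtain ⟨p, r, θ₁, θ₂, -, hr, hθ, harc⟩ := second_order_arc hDo₀ hDc hlam hf hu₀ hL hγ₀ hsub₀ hk
    huk₀ hcr₀
  rw [hell] at hu₀ hsub₀
  obtain ⟨p', r', hr', hball⟩ := arc_disc hE1 hγ₀ hlam hu₀ hsub₀ hk huk₀ hcr₀ hr.ne' hθ harc
  obtain ⟨ρ, -, -, hD, -⟩ := disc_case hE1 hγ₀ hlam hu₀ hsub₀ hk huk₀ hcr₀ hr' hball
  exact ellipse_not_ball hB hAB p' ρ (by rw [← hE2]; exact hD)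

/-- **Elliptic drums.** -/
theorem elliptic_drum {R : Set ℂ} {c : ℝ} {z : ℂ → ℝ → ℝ} {g : ℂ → ℝ → ℂ} {A B : ℝ} (hB : 0 < B)
    (hAB : B < A) (σ : ℂ ≃ᵢ ℂ) (hR : R = σ '' {x : ℂ | (x.re / A) ^ 2 + (x.im / B) ^ 2 = 1})
    (hc : 0 < c) (hz : DrumSolution R c z g) {lam : ℝ} (hE : Excites R z lam)
    (hs : SimpleEigenvalue (inside R) lam) : ¬ NotDiscrete R g := by
  intro hND
  have hRs : SimpleClosedCurve R := by
    rw [hR]
    exact scc_isom σ (ellipse_inside (hB.trans hAB) hB).1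
  obtain ⟨γ, hγ, hsub, hcr⟩ := hND.curve hRs hc hz
  obtain ⟨hlam, u, hm⟩ := mode_of_excites (scc_basic hRs).1 hc hz hE
  obtain ⟨hsub', k, hk, huk⟩ := hm.const_curve hRs hlam hγ (fun x hx => Or.inl (hsub hx)) hcr
  exact ellipse_nocurve hB hAB σ hR hlam hs hm.wat hm.ne hγ hsub hk huk
    fun x hx => hm.crit x (hsub hx) (hcr x hx)

end Pool.Agent.Helper327_Drum
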