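import Pool.Agent.Helper327_Drum.Fin.AS13

/-! Closed curves of critical points in an ellipse: the general lemma. -/

set_option autoImplicit false
open MeasureTheory Set Filter Topology ComplexConjugate
open scoped ContDiff InnerProductSpace

namespace Pool.Agent.Helper327_Drum

open Pool.Agent.TH298.Sch (dd SC Lr)
open Pool.Agent.R227.SA (la Wat Dat)

/-- an eigenfunction is constant and not zero on a closed curve of critical points -/
theorem crit_const {D γ : Set ℂ} (hD : IsOpen D) (hDc : IsPreconnected D) {lam : ℝ}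
    (hlam : 0 < lam) {u : ℂ → ℝ} (hu : Wat D lam u) (hne : ∃ x, u x ≠ 0)
    (hγ : SimpleClosedCurve γ) (hsub : γ ⊆ D) (hcr : ∀ x ∈ γ, fderiv ℝ u x = 0) :
    ∃ k ≠ 0, ∀ x ∈ γ, u x = k := by
  obtain ⟨f, hfc, hfi, hfr'⟩ := hγ
  have hcc : Continuous (fun s : ℝ => f (Circle.exp s)) := hfc.comp Circle.exp.continuous
  have hmem : ∀ s : ℝ, f (Circle.exp s) ∈ γ := fun s => by rw [← hfr']; exact mem_range_self _
  have hsurj : ∀ x ∈ γ, ∃ s : ℝ, f (Circle.exp s) = x := by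
    intro x hx
    rw [← hfr'] at hx
    obtain ⟨w, rfl⟩ := hx
    obtain ⟨s, rfl⟩ := Circle.exp_surjective w
    exact ⟨s, rfl⟩
  rcases const_on_curve hD hDc hlam hu hne hcc (exp_inj f hfi) (fun t _ => hcr _ (hmem t)) with
    h1 | ⟨h1, h2⟩
  · exact absurd (hsub (hmem 0)) (h1 0)
  · refine ⟨u (f (Circle.exp 0)), h2, fun x hx => ?_⟩
    obtain ⟨s, rfl⟩ := hsurj x hx
    exact (h1 s).2

/-- the open ellipse with semi-axes `A`, `B` -/
def elli (A B : ℝ) : Set ℂ := {x : ℂ | (x.re / A) ^ 2 + (x.im / B) ^ 2 < 1}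

theorem elli_convex {A B : ℝ} (hA : 0 < A) (hB : 0 < B) : Nice (elli A B) := by
  let L : ℂ →ₗ[ℝ] ℂ :=
    { toFun := fun x => ⟨x.re / A, x.im / B⟩
      map_add' := fun x y => by
        apply Complex.ext
        · simp [add_div]
        · simp [add_div]
      map_smul' := fun s x => by
        apply Complex.ext
        · simp [mul_div_assoc]
        · simp [mul_div_assoc] }
  have hL : elli A B = L ⁻¹' Metric.ball 0 1 := by
    ext x
    rw [mem_preimage, mem_ball_zero_iff, ← sq_lt_one_iff₀ (norm_nonneg _),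
      ← Complex.normSq_eq_norm_sq, Complex.normSq_apply]
    change (x.re / A) ^ 2 + (x.im / B) ^ 2 < 1 ↔ x.re / A * (x.re / A) + x.im / B * (x.im / B) < 1
    rw [pow_two, pow_two]
  refine ⟨?_, ?_, ?_, ⟨0, ?_⟩⟩
  · have hc : Continuous fun x : ℂ => (x.re / A) ^ 2 + (x.im / B) ^ 2 := by fun_prop
    exact isOpen_lt hc continuous_const
  · rw [hL]
    exact (convex_ball _ _).linear_preimage L
  · rw [isBounded_iff_forall_norm_le]
    refine ⟨A + B, fun x hx => (Complex.norm_le_abs_re_add_abs_im x).trans ?_⟩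
    have h1 : (x.re / A) ^ 2 + (x.im / B) ^ 2 < 1 := hx
    have h2 : (x.re / A) ^ 2 < 1 := by nlinarith [sq_nonneg (x.im / B)]
    have h3 : (x.im / B) ^ 2 < 1 := by nlinarith [sq_nonneg (x.re / A)]
    rw [sq_lt_one_iff_abs_lt_one, abs_div, abs_of_pos hA, div_lt_one hA] at h2
    rw [sq_lt_one_iff_abs_lt_one, abs_div, abs_of_pos hB, div_lt_one hB] at h3
    linarith
  · change ((0 : ℂ).re / A) ^ 2 + ((0 : ℂ).im / B) ^ 2 < 1
    simp

/-- an eigenfunction of the ellipse which is an eigenfunction of the commuting operator too has no closed curve of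
critical points -/
theorem ell_op_nocurve {A B f ξ₀ lam μ : ℝ} (hB : 0 < B) (hAB : B < A) (hf : 0 < f) (hξ : 0 < ξ₀)
    (hfA : f * Real.cosh ξ₀ = A) (hfB : f * Real.sinh ξ₀ = B) (hlam : 0 < lam) {u : ℂ → ℝ}
    (hu : Wat (elli A B) lam u) (hne : ∃ x, u x ≠ 0)
    (hL : ∀ x ∈ elli A B, eop f lam u x = μ * u x) :
    ¬ ∃ γ : Set ℂ, SimpleClosedCurve γ ∧ γ ⊆ elli A B ∧ ∀ x ∈ γ, fderiv ℝ u x = 0 := by
  rintro ⟨γ, hγ, hsub, hcr⟩
  have hA : 0 < A := hB.trans hAB
  obtain ⟨hE1, hE2⟩ := ellipse_inside hA hB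
  have hell : ell f ξ₀ = elli A B := by
    rw [← hfA, ← hfB]
    rfl
  have hDo : IsOpen (elli A B) := by
    rw [← hell]
    exact (ell_open hf hξ).1
  have hin : inside {x : ℂ | (x.re / A) ^ 2 + (x.im / B) ^ 2 = 1} = elli A B := hE2
  have hDc : IsPreconnected (elli A B) := by
    obtain ⟨-, -, hinf⟩ := scc_basic hγ
    obtain ⟨x, hx⟩ := hinf.nonempty
    rw [← hin]
    exact (inside_jordan hE1 ⟨x, by rw [hin]; exact hsub hx⟩).1.isPreconnected
  obtain ⟨k, hk, huk⟩ := crit_const hDo hDc hlam hu hne hγ hsub hcr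
  have hL' : ∀ x ∈ elli A B, Lr (Lr u) x + f ^ 2 * dd 1 (dd 1 u) x =
      (μ - lam * f ^ 2 / 2) * u x := by
    intro x hx
    have h2 := hL x hx
    have h3 : eop f lam u x = Lr (Lr u) x + f ^ 2 * dd 1 (dd 1 u) x + lam * f ^ 2 / 2 * u x :=
      rfl
    rw [h3] at h2
    linarith
  obtain ⟨p, r, θ₁, θ₂, -, hr, hθ, harc⟩ := second_order_arc hDo hDc hlam hf hu hL' hγ hsub hk
    huk hcr
  rw [← hin] at hu hsub
  obtain ⟨p', r', hr', hball⟩ := arc_disc hE1 hγ hlam hu hsub hk huk hcr hr.ne' hθ harc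
  obtain ⟨ρ, -, -, hD, -⟩ := disc_case hE1 hγ hlam hu hsub hk huk hcr hr' hball
  exact ellipse_not_ball hB hAB p' ρ (by rw [← hE2]; exact hD)

end Pool.Agent.Helper327_Drum
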