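import Pool.Agent.Helper327_Drum.Fin.AS2
import Pool.Agent.Helper327_Drum.Fin.K1d
import Pool.Agent.Helper327_Drum.Fin.K2a
import Pool.Agent.Helper327_Drum.Fin.K2b

/-
JOB FM1 (owner helper327, problem MP_d92c84_an). All imports are on origin/main.
-/

set_option autoImplicit false
open MeasureTheory Set Filter Topology ComplexConjugate
open scoped ContDiff InnerProductSpace

namespace Pool.Agent.Helper327_Drum

open Pool.Agent.TH298.Sch (dd SC)
open Pool.Agent.R227.SA (la Wat Dat)

/-- `index_family` for an arbitrary finite index type with a distinguished element `none`. -/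
theorem index_family_option {D : Set ℂ} (hDo : IsOpen D) (hb : Bornology.IsBounded D)
    (hDc : IsPreconnected D) {lam : ℝ} (hlam : 0 < lam) {n : ℕ} (hn : 1 ≤ n)
    {ι : Type} [Fintype ι] (hcard : Fintype.card ι = n)
    (G : Option ι → Set ℂ) (φ : Option ι → ℂ → ℝ) (hG : ∀ i, IsOpen (G i) ∧ G i ⊆ D)
    (hφ : ∀ i, Wat (G i) lam (φ i))
    (hnest : ∀ i j, G i ⊆ G j ∨ G j ⊆ G i ∨ Disjoint (G i) (G j)) (h0 : G none = D)
    (hex : ∃ a ∈ D, ∀ i, φ (some i) =ᶠ[𝓝 a] 0) (hli : LinearIndependent ℝ φ) :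
    dirichletEigenvalue n D < lam := by
  set e : Fin (n + 1) ≃ Option ι :=
    (finSuccEquiv n).trans (Equiv.optionCongr (Fintype.equivFinOfCardEq hcard).symm) with he
  have he0 : e 0 = none := by simp [he]
  obtain ⟨a, ha, hz⟩ := hex
  refine index_family hDo hb hDc hlam hn (G ∘ e) (φ ∘ e) (fun i => hG (e i)) (fun i => hφ (e i))
    (fun i j => hnest (e i) (e j)) ?_ ⟨a, ha, fun i hi => ?_⟩ (hli.comp e e.injective)
  · change G (e 0) = D
    rw [he0, h0]
  · change φ (e i) =ᶠ[𝓝 a] 0
    have h1 : e i ≠ none := by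
      rw [← he0]
      exact fun h => hi (e.injective h)
    obtain ⟨j, hj⟩ := Option.ne_none_iff_exists'.1 h1
    rw [hj]
    exact hz j

theorem not_closed_aux {Ω : Set ℂ} (ho : IsOpen Ω) (hne : Ω.Nonempty)
    (hb : Bornology.IsBounded Ω) : ¬ IsClosed Ω := by
  intro hc
  have h1 : Ω = univ := IsClopen.eq_univ ⟨hc, ho⟩ hne
  rw [h1] at hb
  exact NormedSpace.unbounded_univ ℝ ℂ hb

/-- the functions belonging to one region are independent on large open subsets -/
theorem family_key {Ω : Set ℂ} {lam c : ℝ} {v : ℂ → ℝ} (hv : Dat Ω lam c v) (hlam : 0 < lam)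
    (hcon : IsPreconnected Ω)
    (hnr : ∀ (a : ℂ) (b : ℝ), a ≠ 0 ∨ b ≠ 0 → ∃ x, fderiv ℝ v x (a + b * Complex.I * x) ≠ 0)
    {m : ℕ} (hm : 0 < m) (p : ℂ) (G : Fin m → Set ℂ) (hGo : ∀ j, IsOpen (G j))
    (hGs : ∀ j, G j ⊆ Ω) (hGd : ∀ i j, i ≠ j → Disjoint (G i) (G j)) {O : Set ℂ} (hO : IsOpen O)
    (hGO : ∀ j, (G j ∩ O).Nonempty) (g : Fin 2 ⊕ Fin m → ℝ)
    (hg : ∀ x ∈ O, ∑ k, g k * (Sum.elim (fun (k : Fin 2) x => fderiv ℝ v x (![1, Complex.I] k))
      (fun j => (G j).indicator fun x => fderiv ℝ v x (Complex.I * (x - p))) k : ℂ → ℝ) x = 0) :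
    g = 0 := by
  classical
  have key : ∀ j : Fin m, g (Sum.inr j) = 0 ∧ g (Sum.inl 0) = 0 ∧ g (Sum.inl 1) = 0 := by
    intro j
    obtain ⟨q, hqG, hqO⟩ := hGO j
    set b : ℝ := g (Sum.inr j) with hb
    set d₁ : ℝ := g (Sum.inl 0) with hd1
    set d₂ : ℝ := g (Sum.inl 1) with hd2
    have hform : ∀ x, fderiv ℝ v x ((d₁ + d₂ * Complex.I - b * Complex.I * p)
        + b * Complex.I * x) = b * fderiv ℝ v x (Complex.I * (x - p)) + d₁ * fderiv ℝ v x 1
        + d₂ * fderiv ℝ v x Complex.I := by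
      intro x
      have h1 : ((d₁ : ℂ) + d₂ * Complex.I - b * Complex.I * p) + b * Complex.I * x
          = b • (Complex.I * (x - p)) + d₁ • (1 : ℂ) + d₂ • Complex.I := by
        simp only [Complex.real_smul]
        ring
      rw [h1, map_add, map_add, map_smul, map_smul, map_smul]
      rfl
    have hWk := kill_wat hv ((d₁ : ℂ) + d₂ * Complex.I - b * Complex.I * p) b
    have hall : ∀ x, fderiv ℝ v x ((d₁ + d₂ * Complex.I - b * Complex.I * p)
        + b * Complex.I * x) = 0 := by
      refine hWk.uc hlam hcon (hGs j hqG) ?_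
      filter_upwards [(hGo j).mem_nhds hqG, hO.mem_nhds hqO] with x hx hxO
      show fderiv ℝ v x _ = 0
      rw [hform]
      have h2 := hg x hxO
      rw [Fintype.sum_sum_type, Fin.sum_univ_two, Finset.sum_eq_single j] at h2
      · simp only [Sum.elim_inl, Sum.elim_inr, indicator_of_mem hx, Matrix.cons_val_zero,
          Matrix.cons_val_one] at h2
        linarith
      · intro k _ hk
        simp only [Sum.elim_inr]
        rw [indicator_of_notMem (fun h => (hGd k j hk).le_bot ⟨h, hx⟩), mul_zero]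
      · intro h
        exact absurd (Finset.mem_univ j) h
    by_contra hne2
    have h2 : ((d₁ : ℂ) + d₂ * Complex.I - b * Complex.I * p) ≠ 0 ∨ b ≠ 0 := by
      by_contra h3
      push Not at h3
      obtain ⟨h4, h5⟩ := h3
      apply hne2
      rw [h5] at h4
      simp only [Complex.ofReal_zero, zero_mul, sub_zero] at h4
      have h6 := congrArg Complex.re h4
      have h7 := congrArg Complex.im h4
      simp at h6 h7
      exact ⟨h5, h6, h7⟩
    obtain ⟨x, hx⟩ := hnr _ _ h2
    exact hx (hall x)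
  funext k
  rcases k with k | j
  · fin_cases k
    · exact (key ⟨0, hm⟩).2.1
    · exact (key ⟨0, hm⟩).2.2
  · exact (key j).1

/-- TARGET: the index bound for a family of regions without symmetry. -/
theorem family_index {D : Set ℂ} {lam : ℝ} {u : ℂ → ℝ} (hDo : IsOpen D)
    (hDb : Bornology.IsBounded D) (hDc : IsPreconnected D) (hlam : 0 < lam) (hu : Wat D lam u)
    (hu0 : ∃ x, u x ≠ 0) {l : ℕ} (hl : 1 ≤ l) (Ω : Fin l → Set ℂ) (v : Fin l → ℂ → ℝ)
    (c : Fin l → ℝ) (hv : ∀ i, Dat (Ω i) lam (c i) (v i)) (hc : ∀ i, c i ≠ 0)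
    (ho : ∀ i, IsOpen (Ω i)) (hcon : ∀ i, IsConnected (Ω i))
    (hreg : ∀ i, interior (closure (Ω i)) = Ω i) (hcc : ∀ i, IsPreconnected (Ω i)ᶜ)
    (hΩD : ∀ i, closure (Ω i) ⊆ D)
    (hrel : ∀ i j, i ≠ j → closure (Ω i) ⊆ Ω j ∨ closure (Ω j) ⊆ Ω i ∨
      Disjoint (closure (Ω i)) (closure (Ω j)))
    (hout : (D \ ⋃ i, closure (Ω i)).Nonempty)
    (hnd : ∀ i, ¬ ∃ (p : ℂ) (r : ℝ), 0 < r ∧ Ω i = Metric.ball p r)
    (M : Finset (Fin l)) (hM : ∀ i ∈ M, ∀ j, j ≠ i → ¬ closure (Ω j) ⊆ Ω i) :
    dirichletEigenvalue (3 * l + 2 * M.card) D < lam := by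
  classical
  have hb : ∀ i, Bornology.IsBounded (Ω i) := fun i => hDb.subset (subset_closure.trans (hΩD i))
  have hnr : ∀ i (a : ℂ) (b : ℝ), a ≠ 0 ∨ b ≠ 0 →
      ∃ x, fderiv ℝ (v i) x (a + b * Complex.I * x) ≠ 0 := by
    intro i a b hab
    by_contra hcon2
    push Not at hcon2
    exact hnd i (kill_disc (hv i) (ho i) (hb i) (hcon i).nonempty (hcon i).isPreconnected
      (hreg i) (hcc i) hlam (hc i) hab hcon2)
  have hdata : ∀ i, ∃ (p : ℂ) (m : ℕ) (G : Fin m → Set ℂ), m = (if i ∈ M then 3 else 1) ∧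
      (∀ j, IsOpen (G j) ∧ (G j).Nonempty ∧ G j ⊆ Ω i) ∧
      (∀ j k, j ≠ k → Disjoint (G j) (G k)) ∧
      (∀ j, Wat (G j) lam ((G j).indicator fun x => fderiv ℝ (v i) x (Complex.I * (x - p)))) ∧
      (i ∉ M → ∀ j, G j = Ω i) := by
    intro i
    by_cases hi : i ∈ M
    · obtain ⟨p, G, hG, hGd, hGw⟩ := three_comps (hv i) (hb i) (hcon i).nonempty
        (hcon i).isPreconnected hlam (hc i) (hnr i)
      exact ⟨p, 3, G, by simp [hi], hG, hGd, hGw, fun h => absurd hi h⟩
    · refine ⟨0, 1, fun _ => Ω i, by simp [hi], fun _ => ⟨ho i, (hcon i).nonempty, subset_rfl⟩,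
        fun j k hjk => absurd (Subsingleton.elim j k) hjk, fun _ => ?_, fun _ _ => rfl⟩
      have h1 := kill_wat (hv i) 0 1
      have h3 : ∀ x : ℂ, Complex.I * (x - 0) = 0 + ((1 : ℝ) : ℂ) * Complex.I * x := by
        intro x
        push_cast
        ring
      have h2 : (Ω i).indicator (fun x => fderiv ℝ (v i) x (Complex.I * (x - 0))) =
          fun x => fderiv ℝ (v i) x (0 + ((1 : ℝ) : ℂ) * Complex.I * x) := by
        funext x
        by_cases hx : x ∈ Ω i
        · rw [indicator_of_mem hx, h3]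
        · rw [indicator_of_notMem hx]
          exact (h1.out x hx).symm
      rw [h2]
      exact h1
  choose p m G hm hG hGd hGw hGM using hdata
  have hmpos : ∀ i, 0 < m i := by
    intro i
    rw [hm i]
    split_ifs <;> norm_num
  set F : ∀ i : Fin l, Fin 2 ⊕ Fin (m i) → ℂ → ℝ := fun i =>
    Sum.elim (fun (k : Fin 2) x => fderiv ℝ (v i) x (![1, Complex.I] k))
      (fun j => (G i j).indicator fun x => fderiv ℝ (v i) x (Complex.I * (x - p i))) with hF
  set A : ∀ i : Fin l, Fin 2 ⊕ Fin (m i) → Set ℂ := fun i =>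
    Sum.elim (fun _ => Ω i) (G i) with hA
  have hW1 : ∀ i, Wat (Ω i) lam (fun x => fderiv ℝ (v i) x 1) := by
    intro i
    have := kill_wat (hv i) 1 0
    simpa using this
  have hWI : ∀ i, Wat (Ω i) lam (fun x => fderiv ℝ (v i) x Complex.I) := by
    intro i
    have := kill_wat (hv i) Complex.I 0
    simpa using this
  have hAo : ∀ i k, IsOpen (A i k) ∧ A i k ⊆ Ω i := by
    intro i k
    rcases k with k | j
    · exact ⟨ho i, subset_rfl⟩
    · exact ⟨(hG i j).1, (hG i j).2.2⟩
  have hFW : ∀ i k, Wat (A i k) lam (F i k) := by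
    intro i k
    rcases k with k | j
    · fin_cases k
      · exact hW1 i
      · exact hWI i
    · exact hGw i j
  have hFout : ∀ i k x, x ∉ Ω i → F i k x = 0 := fun i k x hx =>
    (hFW i k).out x (fun h => hx ((hAo i k).2 h))
  have hclD : ∀ i, Ω i ⊆ D := fun i => subset_closure.trans (hΩD i)
  have hcard : Fintype.card (Σ i, Fin 2 ⊕ Fin (m i)) = 3 * l + 2 * M.card := by
    rw [Fintype.card_sigma]
    have h1 : ∀ i, Fintype.card (Fin 2 ⊕ Fin (m i)) = 3 + 2 * (if i ∈ M then 1 else 0) := by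
      intro i
      rw [Fintype.card_sum, Fintype.card_fin, Fintype.card_fin, hm i]
      split_ifs <;> norm_num
    rw [Finset.sum_congr rfl (fun i _ => h1 i), Finset.sum_add_distrib, ← Finset.mul_sum,
      Finset.sum_boole]
    simp
    ring
  obtain ⟨a, haD, haΩ⟩ := hout
  have hanear : ∀ i, ∀ᶠ x in 𝓝 a, x ∉ Ω i := by
    intro i
    have h1 : (closure (Ω i))ᶜ ∈ 𝓝 a :=
      isClosed_closure.isOpen_compl.mem_nhds (fun h => haΩ (mem_iUnion.2 ⟨i, h⟩))
    filter_upwards [h1] with x hx hx2
    exact hx (subset_closure hx2)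
  refine index_family_option hDo hDb hDc hlam (by omega) hcard
    (fun o => o.elim D (fun s => A s.1 s.2)) (fun o => o.elim u (fun s => F s.1 s.2))
    ?_ ?_ ?_ rfl ⟨a, haD, ?_⟩ ?_
  · rintro (_ | ⟨i, k⟩)
    · exact ⟨hDo, subset_rfl⟩
    · exact ⟨(hAo i k).1, (hAo i k).2.trans (hclD i)⟩
  · rintro (_ | ⟨i, k⟩)
    · exact hu
    · exact hFW i k
  · -- nested or disjoint
    have hone : ∀ i k i' k', i ≠ i' → closure (Ω i) ⊆ Ω i' → A i k ⊆ A i' k' := by
      intro i k i' k' hne h
      have h1 : A i k ⊆ Ω i' := ((hAo i k).2.trans subset_closure).trans h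
      rcases k' with k' | j'
      · exact h1
      · have h2 : i' ∉ M := fun hi' => hM i' hi' i hne h
        change A i k ⊆ G i' j'
        rw [hGM i' h2]
        exact h1
    rintro (_ | ⟨i, k⟩) (_ | ⟨i', k'⟩)
    · exact Or.inl subset_rfl
    · exact Or.inr (Or.inl ((hAo i' k').2.trans (hclD i')))
    · exact Or.inl ((hAo i k).2.trans (hclD i))
    · change A i k ⊆ A i' k' ∨ A i' k' ⊆ A i k ∨ Disjoint (A i k) (A i' k')
      by_cases hii : i = i'
      · subst hii
        rcases k with k | j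
        · exact Or.inr (Or.inl (hAo i k').2)
        · rcases k' with k' | j'
          · exact Or.inl (hAo i (Sum.inr j)).2
          · by_cases hjj : j = j'
            · subst hjj
              exact Or.inl subset_rfl
            · exact Or.inr (Or.inr (hGd i j j' hjj))
      · rcases hrel i i' hii with h | h | h
        · exact Or.inl (hone i k i' k' hii h)
        · exact Or.inr (Or.inl (hone i' k' i k (Ne.symm hii) h))
        · exact Or.inr (Or.inr (h.mono ((hAo i k).2.trans subset_closure)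
            ((hAo i' k').2.trans subset_closure)))
  · rintro ⟨i, k⟩
    filter_upwards [hanear i] with x hx
    exact hFout i k x hx
  · rw [Fintype.linearIndependent_iff]
    intro g hg
    have hsum : ∀ x, g none * u x + ∑ i, ∑ k, g (some ⟨i, k⟩) * F i k x = 0 := by
      intro x
      have h1 := congrFun hg x
      rw [Finset.sum_apply, Fintype.sum_option, Fintype.sum_sigma] at h1
      exact h1
    have hg0 : g none = 0 := by
      by_contra h0
      obtain ⟨y, hy⟩ := hu0
      apply hy
      refine hu.uc hlam hDc haD ?_ y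
      have h2 : ∀ᶠ x in 𝓝 a, ∀ i, x ∉ Ω i := eventually_all.2 hanear
      filter_upwards [h2] with x hx
      have h1 := hsum x
      rw [Finset.sum_eq_zero (fun i _ => Finset.sum_eq_zero (fun k _ => by
        rw [hFout i k x (hx i), mul_zero])), add_zero] at h1
      exact (mul_eq_zero.1 h1).resolve_left h0
    have hcoef : ∀ i, (fun k => g (some ⟨i, k⟩)) = 0 := by
      have hwf : WellFounded (fun j i : Fin l => Ω i ⊂ Ω j) := by
        haveI : IsTrans (Fin l) (fun j i : Fin l => Ω i ⊂ Ω j) :=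
          ⟨fun a b c h1 h2 => h2.trans h1⟩
        haveI : Std.Irrefl (fun j i : Fin l => Ω i ⊂ Ω j) := ⟨fun a h => ssubset_irrefl _ h⟩
        exact Finite.wellFounded_of_trans_of_irrefl _
      intro i
      induction i using hwf.induction with
      | _ i ih =>
      have hstr : ∀ j, closure (Ω i) ⊆ Ω j → Ω i ⊂ Ω j := by
        intro j h
        refine ⟨subset_closure.trans h, fun h2 => ?_⟩
        refine not_closed_aux (ho i) (hcon i).nonempty (hb i) ?_
        have : closure (Ω i) = Ω i := Subset.antisymm (h.trans h2) subset_closure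
        rw [← this]
        exact isClosed_closure
      set K : Set ℂ := ⋃ j : {j // j ≠ i ∧ closure (Ω j) ⊆ Ω i}, closure (Ω j.1) with hK
      have hKc : IsClosed K := isClosed_iUnion_of_finite (fun _ => isClosed_closure)
      have hKs : K ⊆ Ω i := iUnion_subset (fun j => j.2.2)
      have hO : IsOpen (Ω i \ K) := (ho i).sdiff hKc
      have hOne : (Ω i \ K).Nonempty := by
        by_contra hE
        rw [not_nonempty_iff_eq_empty, sdiff_eq_empty] at hE
        refine not_closed_aux (ho i) (hcon i).nonempty (hb i) ?_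
        rw [Subset.antisymm hE hKs]
        exact hKc
      refine family_key (hv i) hlam (hcon i).isPreconnected (hnr i) (hmpos i) (p i) (G i)
        (fun j => (hG i j).1) (fun j => (hG i j).2.2) (hGd i) hO ?_ _ ?_
      · intro j
        by_cases hi : i ∈ M
        · have hKe : K = ∅ := by
            rw [hK, iUnion_eq_empty]
            rintro ⟨j, hj, hj2⟩
            exact absurd hj2 (hM i hi j hj)
          rw [hKe, sdiff_empty, inter_eq_self_of_subset_left (hG i j).2.2]
          exact (hG i j).2.1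
        · rw [hGM i hi, inter_eq_self_of_subset_right sdiff_subset]
          exact hOne
      · rintro x ⟨hxi, hxK⟩
        have h1 := hsum x
        rw [hg0, zero_mul, zero_add, Finset.sum_eq_single i] at h1
        · exact h1
        · intro j _ hj
          refine Finset.sum_eq_zero (fun k _ => ?_)
          rcases hrel i j (Ne.symm hj) with h | h | h
          · have h2 := congrFun (ih j (hstr j h)) k
            simp only [Pi.zero_apply] at h2
            rw [h2, zero_mul]
          · rw [hFout j k x, mul_zero]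
            intro hx
            exact hxK (mem_iUnion.2 ⟨⟨j, hj, h⟩, subset_closure hx⟩)
          · rw [hFout j k x, mul_zero]
            intro hx
            exact h.le_bot ⟨subset_closure hxi, subset_closure hx⟩
        · intro h
          exact absurd (Finset.mem_univ i) h
    rintro (_ | ⟨i, k⟩)
    · exact hg0
    · exact congrFun (hcoef i) k

end Pool.Agent.Helper327_Drum
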