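import Pool.Agent.Helper327_Drum.Fin.AS2
import Pool.Agent.Helper327_Drum.Fin.K1d
import Pool.Agent.Helper327_Drum.Fin.K3

/-
JOB FM2 (owner helper327, problem MP_d92c84_an). All imports are on origin/main.
-/

set_option autoImplicit false
open MeasureTheory Set Filter Topology ComplexConjugate
open scoped ContDiff InnerProductSpace

namespace Pool.Agent.Helper327_Drum

open Pool.Agent.TH298.Sch (dd SC)
open Pool.Agent.R227.SA (la Wat Dat)
open TH259.NS (B J)

/-! ### Zeros -/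

/-- a zero of `B 0` between two zeros of `s B 1` -/
theorem fm2_rolle {y z : ℝ} (hyz : y < z) (hy : y * B 1 y = 0) (h1 : B 1 z = 0) :
    ∃ s ∈ Ioo y z, B 0 s = 0 := by
  have hd : ∀ s, HasDerivAt (fun s => s * B 1 s) (B 0 s) s := by
    intro s
    have e1 := TH259.NS.B_deriv 1 s
    have e2 := TH259.NS.B_ode 0 s
    norm_num at e1 e2
    have d1 := (hasDerivAt_id s).mul e1
    convert! d1 using 1
    simp only [id]
    linarith
  obtain ⟨c, hc, hc'⟩ := exists_hasDerivAt_eq_zero (f := fun s => s * B 1 s) (f' := B 0) hyz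
    (continuous_id.mul (TH259.NS.B_cont 1)).continuousOn (by simp [h1, hy]) (fun x _ => hd x)
  exact ⟨c, hc, hc'⟩

/-- the last zero of `B 0` before a zero of `B 1` -/
theorem fm2_last {z : ℝ} (hz : 0 < z) (h1 : B 1 z = 0) :
    ∃ t, 0 < t ∧ t < z ∧ B 0 t = 0 ∧ ∀ s, 0 ≤ s → s ≤ z → B 0 s = 0 → s ≤ t := by
  have hB0 : B 0 0 = 1 := by
    rw [TH259.NS.B_zero]
    norm_num
  have hcl : IsClosed {s : ℝ | B 0 s = 0} := isClosed_eq (TH259.NS.B_cont 0) continuous_const
  have hcp : IsCompact (Icc 0 z ∩ {s : ℝ | B 0 s = 0}) := isCompact_Icc.inter_right hcl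
  obtain ⟨c, hc, hc0⟩ := fm2_rolle hz (by simp) h1
  obtain ⟨t, ⟨⟨ht0, htz⟩, ht⟩, hmax⟩ := hcp.exists_isGreatest ⟨c, ⟨hc.1.le, hc.2.le⟩, hc0⟩
  refine ⟨t, ?_, ?_, ht, fun s hs0 hsz hs => hmax ⟨⟨hs0, hsz⟩, hs⟩⟩
  · rcases ht0.eq_or_lt with h | h
    · exfalso
      rw [← h] at ht
      change B 0 0 = 0 at ht
      rw [hB0] at ht
      exact one_ne_zero ht
    · exact h
  · rcases htz.eq_or_lt with h | h
    · exact (no_common hz (h ▸ ht) h1).elim
    · exact h

theorem fm2_ne1 {a b : ℝ} (ha : 0 ≤ a) (hab : a < b) : ∃ z ∈ Ioo a b, B 1 z ≠ 0 := by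
  by_contra hcon
  push Not at hcon
  set c := (a + b) / 2 with hc
  have hcm : c ∈ Ioo a b := ⟨by rw [hc]; linarith, by rw [hc]; linarith⟩
  have h1 : B 1 =ᶠ[𝓝 c] fun _ => 0 := by
    filter_upwards [Ioo_mem_nhds hcm.1 hcm.2] with z hz
    exact hcon z hz
  have h2 := (TH259.NS.B_deriv 1 c).unique ((hasDerivAt_const c (0 : ℝ)).congr_of_eventuallyEq h1)
  have h3 := TH259.NS.B_ode 0 c
  have h4 : B 1 c = 0 := hcon c hcm
  norm_num at h2 h3
  rw [h2, h4] at h3
  exact no_common (ha.trans_lt hcm.1) (by linarith) h4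

/-- indicator of `t ≤ R` -/
noncomputable def fmX (t R : ℝ) : ℝ := if t ≤ R then 1 else 0

theorem fmX_of_le {t R : ℝ} (h : t ≤ R) : fmX t R = 1 := if_pos h

theorem fmX_of_lt {t R : ℝ} (h : R < t) : fmX t R = 0 := if_neg (not_le.2 h)

/-- separation of the radii -/
theorem fm2_sep {ι : Type} [Fintype ι] (R : ι → ℝ) (hR : Function.Injective R)
    (hpos : ∀ k, 0 < R k) (a : ι → ℝ) (f : ℝ → ℝ)
    (hf : ∀ x y, 0 ≤ x → x < y → ∃ t ∈ Ioo x y, f t ≠ 0)
    (h : ∀ t, 0 < t → (∑ k, a k * fmX t (R k)) * f t = 0) (k : ι) : a k = 0 := by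
  classical
  obtain ⟨ε, hε, hε1, hε2⟩ : ∃ ε : ℝ, 0 < ε ∧ ε < R k ∧ ∀ j, j ≠ k → ε ≤ |R j - R k| := by
    have hev : ∀ᶠ ε in 𝓝[>] (0 : ℝ), ε < R k ∧ ∀ j, j ≠ k → ε ≤ |R j - R k| := by
      refine ((eventually_lt_nhds (hpos k)).filter_mono nhdsWithin_le_nhds).and ?_
      rw [eventually_all]
      intro j
      by_cases hj : j = k
      · simp [hj]
      · have : 0 < |R j - R k| := abs_pos.2 (sub_ne_zero.2 fun e => hj (hR e))
        filter_upwards [(eventually_lt_nhds this).filter_mono nhdsWithin_le_nhds] with ε hε _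
        exact hε.le
    obtain ⟨ε, ⟨h1, h2⟩, h3⟩ := (hev.and self_mem_nhdsWithin).exists
    exact ⟨ε, h3, h1, h2⟩
  obtain ⟨t1, ht1, hf1⟩ := hf (R k - ε) (R k) (by linarith) (by linarith)
  obtain ⟨t2, ht2, hf2⟩ := hf (R k) (R k + ε) (hpos k).le (by linarith)
  have h1 := (mul_eq_zero.1 (h t1 (by linarith [ht1.1]))).resolve_right hf1
  have h2 := (mul_eq_zero.1 (h t2 (by linarith [ht2.1, hpos k]))).resolve_right hf2
  have h3 : ∑ j, (a j * fmX t1 (R j) - a j * fmX t2 (R j)) = a k := by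
    rw [Finset.sum_eq_single k]
    · rw [fmX_of_le ht1.2.le, fmX_of_lt ht2.1]
      ring
    · intro j _ hj
      have h4 := hε2 j hj
      rcases le_or_gt (R k) (R j) with h5 | h5
      · rw [abs_of_nonneg (by linarith)] at h4
        rw [fmX_of_le (by linarith [ht1.2]), fmX_of_le (by linarith [ht2.2])]
        ring
      · rw [abs_of_neg (by linarith)] at h4
        rw [fmX_of_lt (by linarith [ht1.1]), fmX_of_lt (by linarith [ht2.1])]
        ring
    · intro hk
      exact absurd (Finset.mem_univ k) hk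
  rw [Finset.sum_sub_distrib, h1, h2] at h3
  linarith

/-- the index set of the smaller discs -/
abbrev FmS (l : ℕ) : Type := Fin l ⊕ (Fin l ⊕ (Fin l ⊕ Fin 2))

/-- the radii -/
noncomputable def fmRad {l : ℕ} (ρ β : ℝ) (τ r : Fin l → ℝ) : Option (FmS l) → ℝ
  | none => ρ
  | some (Sum.inl j) => τ j
  | some (Sum.inr (Sum.inl i)) => r i
  | some (Sum.inr (Sum.inr (Sum.inl i))) => r i
  | some (Sum.inr (Sum.inr (Sum.inr _))) => β

/-- the functions before the cut -/
noncomputable def fmFun {l : ℕ} (p : ℂ) (lam : ℝ) : Option (FmS l) → ℂ → ℝ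
  | none => fun x => 1 * B 0 (sq p lam x)
  | some (Sum.inl _) => fun x => 1 * B 0 (sq p lam x)
  | some (Sum.inr (Sum.inl _)) => fun x => (x - p).re * B 1 (sq p lam x)
  | some (Sum.inr (Sum.inr (Sum.inl _))) => fun x => (x - p).im * B 1 (sq p lam x)
  | some (Sum.inr (Sum.inr (Sum.inr k))) => if k = 0 then
      fun x => ((x - p).re * (x - p).re - (x - p).im * (x - p).im) * B 2 (sq p lam x) else
      fun x => (2 * ((x - p).re * (x - p).im)) * B 2 (sq p lam x)

/-- the functions -/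
noncomputable def fmPsi {l : ℕ} (p : ℂ) (lam ρ β : ℝ) (τ r : Fin l → ℝ) (k : Option (FmS l)) :
    ℂ → ℝ := cut p (fmRad ρ β τ r k) (fmFun p lam k)

theorem fm_wat {l : ℕ} (p : ℂ) (lam ρ β : ℝ) (τ r : Fin l → ℝ) (hρ : 0 < ρ) (hβ : 0 < β)
    (hτ : ∀ i, 0 < τ i) (hr : ∀ i, 0 < r i) (hρ0 : B 0 (lam * ρ ^ 2 / 4) = 0)
    (hτ0 : ∀ i, B 0 (lam * τ i ^ 2 / 4) = 0) (hr0 : ∀ i, B 1 (lam * r i ^ 2 / 4) = 0)
    (hβ0 : B 2 (lam * β ^ 2 / 4) = 0) (k : Option (FmS l)) :
    Wat (Metric.ball p (fmRad ρ β τ r k)) lam (fmPsi p lam ρ β τ r k) := by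
  rcases k with _ | (j | (i | (i | k)))
  · exact wat0 hρ hρ0
  · exact wat0 (hτ j) (hτ0 j)
  · exact wat1 (hr i) (hr0 i)
  · exact wat1' (hr i) (hr0 i)
  · unfold fmPsi
    by_cases hk : k = 0
    · simp only [fmRad, fmFun, if_pos hk]
      exact wat2 hβ hβ0
    · simp only [fmRad, fmFun, if_neg hk]
      exact wat2' hβ hβ0

theorem fm_li {l : ℕ} (p : ℂ) (lam ρ β : ℝ) (hlam : 0 < lam) (τ r : Fin l → ℝ) (hρ : 0 < ρ)
    (hβ : 0 < β) (hτ : ∀ i, 0 < τ i) (hr : ∀ i, 0 < r i) (hτρ : ∀ i, τ i < ρ)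
    (hτi : Function.Injective τ) (hri : Function.Injective r) :
    LinearIndependent ℝ (fmPsi p lam ρ β τ r) := by
  rw [Fintype.linearIndependent_iff]
  intro c hc
  -- the five components
  have hcomp : ∀ t : ℝ, 0 < t →
      (∑ k : Option (Fin l), (k.elim (c none) fun j => c (some (Sum.inl j))) *
        fmX t (k.elim ρ τ)) * B 0 (lam * t ^ 2 / 4) = 0 ∧
      (∑ i : Fin l, c (some (Sum.inr (Sum.inl i))) * fmX t (r i)) *
        (t * B 1 (lam * t ^ 2 / 4)) = 0 ∧
      (∑ i : Fin l, c (some (Sum.inr (Sum.inr (Sum.inl i)))) * fmX t (r i)) *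
        (t * B 1 (lam * t ^ 2 / 4)) = 0 ∧
      c (some (Sum.inr (Sum.inr (Sum.inr 0)))) * fmX t β *
        (t ^ 2 * B 2 (lam * t ^ 2 / 4)) = 0 ∧
      c (some (Sum.inr (Sum.inr (Sum.inr 1)))) * fmX t β *
        (t ^ 2 * B 2 (lam * t ^ 2 / 4)) = 0 := by
    intro t ht
    set A := (∑ k : Option (Fin l), (k.elim (c none) fun j => c (some (Sum.inl j))) *
        fmX t (k.elim ρ τ)) * B 0 (lam * t ^ 2 / 4) with hA
    set E := (∑ i : Fin l, c (some (Sum.inr (Sum.inl i))) * fmX t (r i)) *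
        (t * B 1 (lam * t ^ 2 / 4)) with hE
    set E' := (∑ i : Fin l, c (some (Sum.inr (Sum.inr (Sum.inl i)))) *
        fmX t (r i)) * (t * B 1 (lam * t ^ 2 / 4)) with hE'
    set F := c (some (Sum.inr (Sum.inr (Sum.inr 0)))) * fmX t β *
        (t ^ 2 * B 2 (lam * t ^ 2 / 4)) with hF
    set F' := c (some (Sum.inr (Sum.inr (Sum.inr 1)))) * fmX t β *
        (t ^ 2 * B 2 (lam * t ^ 2 / 4)) with hF'
    have key : ∀ a b : ℝ, a ^ 2 + b ^ 2 = 1 →
        A + a * E + b * E' + (a * a - b * b) * F + (2 * (a * b)) * F' = 0 := by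
      intro a b hab
      have h1 := congrFun hc (p + ⟨t * a, t * b⟩)
      have hn : ‖(p + (⟨t * a, t * b⟩ : ℂ)) - p‖ = t := by
        rw [add_sub_cancel_left]
        have h2 : ‖(⟨t * a, t * b⟩ : ℂ)‖ ^ 2 = t ^ 2 := by
          rw [← Complex.normSq_eq_norm_sq, Complex.normSq_apply]
          change t * a * (t * a) + t * b * (t * b) = t ^ 2
          linear_combination t ^ 2 * hab
        exact (pow_left_inj₀ (norm_nonneg _) ht.le two_ne_zero).1 h2
      have hsq : sq p lam (p + ⟨t * a, t * b⟩) = lam * t ^ 2 / 4 := by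
        rw [sq_eq, hn]
      have hval : ∀ (R : ℝ) (f : ℂ → ℝ), cut p R f (p + ⟨t * a, t * b⟩) =
          fmX t R * f (p + ⟨t * a, t * b⟩) := by
        intro R f
        unfold cut fmX
        rw [hn]
        split_ifs <;> simp
      rw [Finset.sum_apply, Fintype.sum_option, Fintype.sum_sum_type, Fintype.sum_sum_type,
        Fintype.sum_sum_type, Fin.sum_univ_two] at h1
      simp only [Pi.smul_apply, smul_eq_mul, fmPsi, hval, fmRad, fmFun, if_true,
        if_neg (show ¬ (1 : Fin 2) = 0 by decide), hsq, add_sub_cancel_left, Pi.zero_apply] at h1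
      rw [hA, hE, hE', hF, hF', Fintype.sum_option]
      simp only [Option.elim]
      have s1 : ∑ x : Fin l, c (some (Sum.inl x)) * (fmX t (τ x) *
          (1 * B 0 (lam * t ^ 2 / 4))) = (∑ x : Fin l, c (some (Sum.inl x)) *
          fmX t (τ x)) * B 0 (lam * t ^ 2 / 4) := by
        rw [Finset.sum_mul]
        exact Finset.sum_congr rfl fun x _ => by ring
      have s2 : ∑ x : Fin l, c (some (Sum.inr (Sum.inl x))) * (fmX t (r x) *
          (t * a * B 1 (lam * t ^ 2 / 4))) = a * ((∑ x : Fin l, c (some (Sum.inr (Sum.inl x))) *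
          fmX t (r x)) * (t * B 1 (lam * t ^ 2 / 4))) := by
        rw [Finset.sum_mul, Finset.mul_sum]
        exact Finset.sum_congr rfl fun x _ => by ring
      have s3 : ∑ x : Fin l, c (some (Sum.inr (Sum.inr (Sum.inl x)))) *
          (fmX t (r x) * (t * b * B 1 (lam * t ^ 2 / 4))) =
          b * ((∑ x : Fin l, c (some (Sum.inr (Sum.inr (Sum.inl x)))) *
          fmX t (r x)) * (t * B 1 (lam * t ^ 2 / 4))) := by
        rw [Finset.sum_mul, Finset.mul_sum]
        exact Finset.sum_congr rfl fun x _ => by ring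
      rw [s1, s2, s3] at h1
      linear_combination h1
    have k1 := key 1 0 (by norm_num)
    have k2 := key (-1) 0 (by norm_num)
    have k3 := key 0 1 (by norm_num)
    have k4 := key 0 (-1) (by norm_num)
    have k5 := key (3 / 5) (4 / 5) (by norm_num)
    have eE : E = 0 := by linarith
    have eE' : E' = 0 := by linarith
    have eA : A = 0 := by linarith
    have eF : F = 0 := by linarith
    refine ⟨eA, eE, eE', eF, ?_⟩
    rw [eE, eE', eA, eF] at k5
    linarith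
  -- nonvanishing on intervals
  have hloc : ∀ (ν : ℕ), (∀ a b : ℝ, 0 ≤ a → a < b → ∃ z ∈ Ioo a b, B ν z ≠ 0) →
      ∀ x y : ℝ, 0 ≤ x → x < y → ∃ t ∈ Ioo x y, B ν (lam * t ^ 2 / 4) ≠ 0 := by
    intro ν hν x y hx hxy
    have hlt : lam * x ^ 2 / 4 < lam * y ^ 2 / 4 := by
      have : x ^ 2 < y ^ 2 := pow_lt_pow_left₀ hxy hx two_ne_zero
      have := mul_lt_mul_of_pos_left this hlam
      linarith
    obtain ⟨z, hz, hz0⟩ := hν _ _ (by positivity) hlt
    have hzp : 0 < z := lt_of_le_of_lt (by positivity) hz.1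
    have hzz : lam * √(4 * z / lam) ^ 2 / 4 = z := by
      rw [Real.sq_sqrt (by positivity)]
      field_simp
    refine ⟨√(4 * z / lam), ⟨?_, ?_⟩, by rw [hzz]; exact hz0⟩
    · rw [Real.lt_sqrt hx, lt_div_iff₀ hlam]
      linarith [hz.1]
    · rw [Real.sqrt_lt' (hx.trans_lt hxy), div_lt_iff₀ hlam]
      linarith [hz.2]
  have hf0 := hloc 0 fun a b => exists_ne
  have hf1 : ∀ x y : ℝ, 0 ≤ x → x < y → ∃ t ∈ Ioo x y, t * B 1 (lam * t ^ 2 / 4) ≠ 0 := by
    intro x y hx hxy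
    obtain ⟨t, ht, ht0⟩ := hloc 1 (fun a b => fm2_ne1) x y hx hxy
    exact ⟨t, ht, mul_ne_zero (hx.trans_lt ht.1).ne' ht0⟩
  -- the radial part
  have hA := fm2_sep (fun k : Option (Fin l) => k.elim ρ τ) (by
      intro k k' h
      rcases k with _ | j <;> rcases k' with _ | j'
      · rfl
      · simp only [Option.elim] at h
        exact absurd h (hτρ j').ne'
      · simp only [Option.elim] at h
        exact absurd h (hτρ j).ne
      · simp only [Option.elim] at h
        rw [hτi h]) (by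
      intro k
      rcases k with _ | j
      · exact hρ
      · exact hτ j) (fun k => k.elim (c none) fun j => c (some (Sum.inl j)))
    (fun t => B 0 (lam * t ^ 2 / 4)) hf0 (fun t ht => (hcomp t ht).1)
  have hE := fm2_sep r hri hr (fun i => c (some (Sum.inr (Sum.inl i))))
    (fun t => t * B 1 (lam * t ^ 2 / 4)) hf1 (fun t ht => (hcomp t ht).2.1)
  have hE' := fm2_sep r hri hr (fun i => c (some (Sum.inr (Sum.inr (Sum.inl i)))))
    (fun t => t * B 1 (lam * t ^ 2 / 4)) hf1 (fun t ht => (hcomp t ht).2.2.1)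
  -- small radius
  obtain ⟨t, ht0, htβ, htB⟩ : ∃ t : ℝ, 0 < t ∧ t < β ∧ B 2 (lam * t ^ 2 / 4) ≠ 0 := by
    have h2 : Tendsto (fun τ : ℝ => B 2 (lam * τ ^ 2 / 4)) (𝓝[>] 0) (𝓝 (B 2 0)) := by
      have h3 : Continuous fun τ : ℝ => B 2 (lam * τ ^ 2 / 4) :=
        (TH259.NS.B_cont 2).comp (by fun_prop)
      have h4 := (h3.tendsto 0).mono_left (nhdsWithin_le_nhds (s := Ioi 0))
      simpa using h4
    have h3 : ∀ᶠ τ in 𝓝[>] (0 : ℝ), B 2 (lam * τ ^ 2 / 4) ≠ 0 := by
      refine h2.eventually_ne ?_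
      rw [TH259.NS.B_zero]
      positivity
    obtain ⟨t, h4, h5, h6⟩ := (h3.and (((eventually_lt_nhds hβ).filter_mono
      nhdsWithin_le_nhds).and self_mem_nhdsWithin)).exists
    exact ⟨t, h6, h5, h4⟩
  have hF := (hcomp t ht0).2.2.2.1
  have hF' := (hcomp t ht0).2.2.2.2
  rw [fmX_of_le htβ.le, mul_one] at hF hF'
  have htn : t ^ 2 * B 2 (lam * t ^ 2 / 4) ≠ 0 := mul_ne_zero (by positivity) htB
  intro k
  rcases k with _ | (j | (i | (i | k)))
  · exact hA none
  · exact hA (some j)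
  · exact hE i
  · exact hE' i
  · fin_cases k
    · exact (mul_eq_zero.1 hF).resolve_right htn
    · exact (mul_eq_zero.1 hF').resolve_right htn

/-- TARGET: the index bound for a radial eigenfunction with several critical circles. -/
theorem radial_family_index {p : ℂ} {ρ lam : ℝ} {l : ℕ} (hl : 1 ≤ l) (r : Fin l → ℝ)
    (hr : ∀ i, 0 < r i ∧ r i < ρ) (hinj : Function.Injective r) (hlam : 0 < lam)
    (h0 : B 0 (lam * ρ ^ 2 / 4) = 0) (h1 : ∀ i, B 1 (lam * r i ^ 2 / 4) = 0) :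
    dirichletEigenvalue (3 * l + 2) (Metric.ball p ρ) < lam := by
  classical
  have i0 : Fin l := ⟨0, hl⟩
  have hρ : 0 < ρ := (hr i0).1.trans (hr i0).2
  have hradius : ∀ {z b : ℝ}, 0 < z → 0 < b → z < lam * b ^ 2 / 4 →
      ∃ s, 0 < s ∧ s < b ∧ lam * s ^ 2 / 4 = z := by
    intro z b hz hb hzb
    refine ⟨√(4 * z / lam), by positivity, ?_, ?_⟩
    · rw [Real.sqrt_lt' hb, div_lt_iff₀ hlam]
      linarith
    · rw [Real.sq_sqrt (by positivity)]
      field_simp
  have hmono : ∀ {x y : ℝ}, 0 ≤ x → x < y → lam * x ^ 2 / 4 < lam * y ^ 2 / 4 := by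
    intro x y hx hxy
    have : x ^ 2 < y ^ 2 := pow_lt_pow_left₀ hxy hx two_ne_zero
    have := mul_lt_mul_of_pos_left this hlam
    linarith
  have hs : ∀ i, 0 < lam * r i ^ 2 / 4 := fun i => by
    have := (hr i).1
    positivity
  -- the zeros of `B 0`
  choose t ht0 hts htB htm using fun i => fm2_last (hs i) (h1 i)
  have htinj : ∀ i j, r i < r j → t i < t j := by
    intro i j hij
    obtain ⟨c, hc, hc0⟩ := fm2_rolle (hmono (hr i).1.le hij) (by rw [h1 i, mul_zero]) (h1 j)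
    have h2 := htm j c ((hs i).le.trans hc.1.le) hc.2.le hc0
    exact (hts i).trans (hc.1.trans_le h2)
  choose τ hτ hτr hτz using fun i => hradius (ht0 i) (hr i).1 (hts i)
  have hτi : Function.Injective τ := by
    intro i j hij
    have h2 : t i = t j := by rw [← hτz i, ← hτz j, hij]
    rcases lt_trichotomy (r i) (r j) with h | h | h
    · exact absurd h2 (htinj i j h).ne
    · exact hinj h
    · exact absurd h2 (htinj j i h).ne'
  -- the zero of `B 2`
  obtain ⟨zb, hzb, hzb0⟩ := exists_zero2 (hs i0) (hmono (hr i0).1.le (hr i0).2) h0 (h1 i0)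
  obtain ⟨β, hβ, hβρ, hβz⟩ := hradius hzb.1 hρ hzb.2
  -- the indices
  have hcard : Fintype.card (FmS l) = 3 * l + 2 := by
    simp only [Fintype.card_sum, Fintype.card_fin]
    omega
  let e0 : Fin (3 * l + 2) ≃ FmS l := (Fintype.equivFinOfCardEq hcard).symm
  let e : Fin (3 * l + 2 + 1) ≃ Option (FmS l) := (finSuccEquiv (3 * l + 2)).trans
    (Equiv.optionCongr e0)
  have he0 : e 0 = none := by
    simp [e]
  have hene : ∀ i, i ≠ 0 → ∃ s, e i = some s := by
    intro i hi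
    rcases h : e i with _ | s
    · exact absurd (e.injective (h.trans he0.symm)) hi
    · exact ⟨s, rfl⟩
  obtain ⟨k0, hk0⟩ := Finite.exists_max (fun s : FmS l => fmRad ρ β τ r (some s))
  set m : ℝ := fmRad ρ β τ r (some k0) with hm
  have hall : ∀ s : FmS l, 0 < fmRad ρ β τ r (some s) ∧ fmRad ρ β τ r (some s) < ρ := by
    intro s
    rcases s with j | (i | (i | k))
    · exact ⟨hτ j, (hτr j).trans (hr j).2⟩
    · exact hr i
    · exact hr i
    · exact ⟨hβ, hβρ⟩
  have hmρ : m < ρ := (hall k0).2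
  have hm0 : 0 < m := (hall k0).1
  have hradρ : ∀ k, fmRad ρ β τ r k ≤ ρ := by
    intro k
    rcases k with _ | s
    · exact le_rfl
    · exact (hall s).2.le
  have hfar : ∀ s : FmS l, ∀ x, m < ‖x - p‖ → fmPsi p lam ρ β τ r (some s) x = 0 := by
    intro s x hx
    exact cut_of_lt ((hk0 s).trans_lt hx)
  refine index_family Metric.isOpen_ball Metric.isBounded_ball
    (convex_ball p ρ).isPreconnected hlam (by omega)
    (fun i => Metric.ball p (fmRad ρ β τ r (e i))) (fun i => fmPsi p lam ρ β τ r (e i))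
    (fun i => ⟨Metric.isOpen_ball, Metric.ball_subset_ball (hradρ _)⟩)
    (fun i => fm_wat p lam ρ β τ r hρ hβ hτ (fun i => (hr i).1) h0
      (fun i => by rw [hτz i]; exact htB i) h1 (by rw [hβz]; exact hzb0) (e i)) ?_ ?_ ?_ ?_
  · intro i j
    rcases le_total (fmRad ρ β τ r (e i)) (fmRad ρ β τ r (e j)) with h | h
    · exact Or.inl (Metric.ball_subset_ball h)
    · exact Or.inr (Or.inl (Metric.ball_subset_ball h))
  · rw [he0]
    rfl
  · set σ := (m + ρ) / 2 with hσ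
    have hn : ‖(p + (σ : ℂ)) - p‖ = σ := by
      rw [add_sub_cancel_left, Complex.norm_real, Real.norm_eq_abs, abs_of_pos (by linarith)]
    refine ⟨p + (σ : ℂ), ?_, fun i hi => ?_⟩
    · rw [Metric.mem_ball, dist_eq_norm, hn]
      linarith
    · obtain ⟨s, hs'⟩ := hene i hi
      have hopen : IsOpen {x : ℂ | m < ‖x - p‖} := isOpen_lt continuous_const (by fun_prop)
      have hmem : (p + (σ : ℂ)) ∈ {x : ℂ | m < ‖x - p‖} := by
        change m < ‖(p + (σ : ℂ)) - p‖
        rw [hn]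
        linarith
      filter_upwards [hopen.mem_nhds hmem] with x hx
      change fmPsi p lam ρ β τ r (e i) x = 0
      rw [hs']
      exact hfar s x hx
  · exact (fm_li p lam ρ β hlam τ r hρ hβ hτ (fun i => (hr i).1)
      (fun i => (hτr i).trans (hr i).2) hτi hinj).comp e e.injective

end Pool.Agent.Helper327_Drum
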