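import Pool.Agent.Helper327_Drum.Fin.AS5
import Pool.Agent.Helper327_Drum.Fin.FM1
import Pool.Agent.Helper327_Drum.Fin.FM2

/-! The number of closed curves of still points. -/

set_option autoImplicit false
open MeasureTheory Set Filter Topology ComplexConjugate
open scoped ContDiff InnerProductSpace

namespace Pool.Agent.Helper327_Drum

open Pool.Agent.TH298.Sch (dd SC)
open Pool.Agent.R227.SA (la Wat Dat)
open TH259.NS (B J)

theorem still_curves_disjoint {R γ γ' : Set ℂ} {c : ℝ} {z : ℂ → ℝ → ℝ} {g : ℂ → ℝ → ℂ}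
    (hR : SimpleClosedCurve R) (hc : 0 < c) (h : DrumSolution R c z g) (hγ : SimpleClosedCurve γ)
    (hγ' : SimpleClosedCurve γ') (hS : γ ⊆ still R g) (hS' : γ' ⊆ still R g) (hne : γ ≠ γ') :
    Disjoint γ γ' := by
  rw [Set.disjoint_iff_inter_eq_empty]
  by_contra hx
  obtain ⟨x, hx⟩ := nonempty_iff_ne_empty.2 hx
  obtain ⟨-, hcon, hinf⟩ := scc_basic hγ
  obtain ⟨-, hcon', -⟩ := scc_basic hγ'
  obtain ⟨Γ, h1, h2, -⟩ := closed_curve_of_connected hR hc h
    (hcon.isPreconnected.union x hx.1 hx.2 hcon'.isPreconnected) (union_subset hS hS')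
    (hinf.nontrivial.mono subset_union_left)
  exact hne ((scc_eq h1 hγ (subset_union_left.trans h2)).trans
    (scc_eq h1 hγ' (subset_union_right.trans h2)).symm)

theorem closure_inside {γ : Set ℂ} (hγ : SimpleClosedCurve γ) (hne : (inside γ).Nonempty) :
    closure (inside γ) = inside γ ∪ γ := by
  obtain ⟨-, hfr, -⟩ := inside_jordan hγ hne
  rw [closure_eq_self_union_frontier, hfr]

theorem scc_sub_or {γ γ' : Set ℂ} (hγ : SimpleClosedCurve γ) (hγ' : SimpleClosedCurve γ')
    (hd : Disjoint γ γ') (hne : (inside γ').Nonempty) (hm : (γ ∩ inside γ').Nonempty) :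
    γ ⊆ inside γ' := by
  obtain ⟨hc', -, -⟩ := scc_basic hγ'
  obtain ⟨ho', -, -, -, -⟩ := inside_basic hc'
  obtain ⟨-, hcon, -⟩ := scc_basic hγ
  refine hcon.isPreconnected.subset_left_of_subset_union ho' isClosed_closure.isOpen_compl
    (v := (closure (inside γ'))ᶜ) ?_ ?_ hm
  · exact disjoint_left.2 fun x hx hx' => hx' (subset_closure hx)
  · intro x hx
    by_cases hx' : x ∈ closure (inside γ')
    · rw [closure_inside hγ' hne] at hx'
      rcases hx' with h | h
      · exact Or.inl h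
      · exact absurd h (disjoint_left.1 hd hx)
    · exact Or.inr hx'

theorem scc_rel {γ γ' : Set ℂ} (hγ : SimpleClosedCurve γ) (hγ' : SimpleClosedCurve γ')
    (hd : Disjoint γ γ') (hne : (inside γ).Nonempty) (hne' : (inside γ').Nonempty) :
    closure (inside γ) ⊆ inside γ' ∨ closure (inside γ') ⊆ inside γ ∨
      Disjoint (closure (inside γ)) (closure (inside γ')) := by
  obtain ⟨hc, hcon, hinf⟩ := scc_basic hγ
  obtain ⟨hc', hcon', -⟩ := scc_basic hγ'
  obtain ⟨ho, -, -, -, hdj⟩ := inside_basic hc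
  obtain ⟨ho', -, -, -, hdj'⟩ := inside_basic hc'
  by_cases h1 : (γ ∩ inside γ').Nonempty
  · left
    have h2 := scc_sub_or hγ hγ' hd hne' h1
    rw [closure_inside hγ hne]
    exact union_subset (inside_sub hc' hcon' h2) h2
  by_cases h2 : (γ' ∩ inside γ).Nonempty
  · right; left
    have h3 := scc_sub_or hγ' hγ hd.symm hne h2
    rw [closure_inside hγ' hne']
    exact union_subset (inside_sub hc hcon h3) h3
  right; right
  rw [disjoint_left]
  intro x hx hx'
  rw [closure_inside hγ hne] at hx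
  rw [closure_inside hγ' hne'] at hx'
  have hxi : x ∈ inside γ ∧ x ∈ inside γ' := by
    rcases hx with hx | hx
    · rcases hx' with hx' | hx'
      · exact ⟨hx, hx'⟩
      · exact absurd ⟨x, hx', hx⟩ h2
    · rcases hx' with hx' | hx'
      · exact absurd ⟨x, hx, hx'⟩ h1
      · exact absurd hx' (disjoint_left.1 hd hx)
  obtain ⟨hic, -, -⟩ := inside_jordan hγ hne
  have h3 : inside γ ⊆ inside γ' := by
    refine hic.isPreconnected.subset_left_of_subset_union ho' isClosed_closure.isOpen_compl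
      (v := (closure (inside γ'))ᶜ) ?_ ?_ ⟨x, hxi⟩
    · exact disjoint_left.2 fun x hx hx' => hx' (subset_closure hx)
    · intro y hy
      by_cases hy' : y ∈ closure (inside γ')
      · rw [closure_inside hγ' hne'] at hy'
        rcases hy' with h | h
        · exact Or.inl h
        · exact absurd ⟨y, h, hy⟩ h2
      · exact Or.inr hy'
  obtain ⟨y, hy⟩ := hinf.nonempty
  have h4 : y ∈ closure (inside γ') := closure_mono h3 (by
    rw [closure_inside hγ hne]
    exact Or.inr hy)
  rw [closure_inside hγ' hne'] at h4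
  rcases h4 with h4 | h4
  · exact h1 ⟨y, hy, h4⟩
  · exact absurd h4 (disjoint_left.1 hd hy)

/-- a radial function is annihilated by the rotation about its centre -/
theorem radial_rot {D : Set ℂ} (hDo : IsOpen D) {u : ℂ → ℝ} {p : ℂ} {F : ℝ → ℝ}
    (hF : Differentiable ℝ F) (hu : ∀ x ∈ D, u x = F (‖x - p‖ ^ 2)) {x : ℂ} (hx : x ∈ D) :
    fderiv ℝ u x (Complex.I * (x - p)) = 0 := by
  have h1 : u =ᶠ[𝓝 x] fun y => F (‖y - p‖ ^ 2) := by
    filter_upwards [hDo.mem_nhds hx] with y hy using hu y hy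
  rw [h1.fderiv_eq]
  have h2 : HasFDerivAt (fun y : ℂ => ‖y - p‖ ^ 2)
      (2 • (innerSL ℝ (x - p)).comp (ContinuousLinearMap.id ℝ ℂ)) x :=
    ((hasFDerivAt_id x).sub_const p).norm_sq
  have h3 := (hF (‖x - p‖ ^ 2)).hasDerivAt.comp_hasFDerivAt x h2
  have h4 := h3.fderiv
  rw [show (F ∘ fun y : ℂ => ‖y - p‖ ^ 2) = fun y => F (‖y - p‖ ^ 2) from rfl] at h4
  rw [h4]
  simp [Complex.inner, mul_comm]
  right
  ring

theorem sphere_center {p p' : ℂ} {ρ ρ' : ℝ} (hρ : 0 < ρ)
    (h : Metric.sphere p ρ = Metric.sphere p' ρ') : p = p' := by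
  have key : ∀ v : ℂ, ‖v‖ = 1 → ‖p - p' + ρ * v‖ = ρ' := by
    intro v hv
    have h1 : p + ρ * v ∈ Metric.sphere p ρ := by
      rw [mem_sphere_iff_norm, add_sub_cancel_left, norm_mul, hv, Complex.norm_real,
        Real.norm_eq_abs, abs_of_pos hρ, mul_one]
    rw [h, mem_sphere_iff_norm] at h1
    rw [← h1]
    congr 1
    ring
  have a1 := key 1 (by simp)
  have a2 := key (-1) (by simp)
  have a3 := key Complex.I (by simp)
  have a4 := key (-Complex.I) (by simp)
  have b1 := congrArg (fun t : ℝ => t ^ 2) (a1.trans a2.symm)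
  have b2 := congrArg (fun t : ℝ => t ^ 2) (a3.trans a4.symm)
  simp only [← Complex.normSq_eq_norm_sq, Complex.normSq_apply, Complex.add_re, Complex.add_im,
    Complex.sub_re, Complex.sub_im, Complex.mul_re, Complex.mul_im, Complex.ofReal_re,
    Complex.ofReal_im, Complex.one_re, Complex.one_im, Complex.neg_re, Complex.neg_im,
    Complex.I_re, Complex.I_im] at b1 b2
  have c1 : ρ * (p.re - p'.re) = 0 := by nlinarith
  have c2 : ρ * (p.im - p'.im) = 0 := by nlinarith
  apply Complex.ext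
  · have := (mul_eq_zero.1 c1).resolve_left hρ.ne'
    linarith
  · have := (mul_eq_zero.1 c2).resolve_left hρ.ne'
    linarith

theorem concentric {R γ γ' : Set ℂ} {lam k k' : ℝ} {u : ℂ → ℝ} (hR : SimpleClosedCurve R)
    (hγ : SimpleClosedCurve γ) (hγ' : SimpleClosedCurve γ') (hlam : 0 < lam)
    (hu : Wat (inside R) lam u) (hsub : γ ⊆ inside R) (hsub' : γ' ⊆ inside R)
    (hk : k ≠ 0) (huk : ∀ x ∈ γ, u x = k) (hcr : ∀ x ∈ γ, fderiv ℝ u x = 0)
    (hk' : k' ≠ 0) (huk' : ∀ x ∈ γ', u x = k') (hcr' : ∀ x ∈ γ', fderiv ℝ u x = 0) {p : ℂ} {r : ℝ}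
    (hr : 0 < r) (hball : inside γ = Metric.ball p r) :
    ∃ r' : ℝ, 0 < r' ∧ γ' = Metric.sphere p r' ∧ B 1 (lam * r' ^ 2 / 4) = 0 := by
  obtain ⟨ρ, h1, h2, h3, h4, h5, h6, h7⟩ := disc_case hR hγ hlam hu hsub hk huk hcr hr hball
  obtain ⟨hc', hcon', -⟩ := scc_basic hγ'
  obtain ⟨hRc, hRcon, -⟩ := scc_basic hR
  obtain ⟨ho, hb, -, -, -⟩ := inside_basic hc'
  obtain ⟨hDo, -, -, -, -⟩ := inside_basic hRc
  obtain ⟨hne, hdat⟩ := crit_dat hR hγ' hlam hu hsub' hk' huk' hcr'
  obtain ⟨hc1, hc2, hc3⟩ := inside_jordan hγ' hne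
  have hBd : Differentiable ℝ (B 0) := fun s => (TH259.NS.B_deriv 0 s).differentiableAt
  obtain ⟨p', r', hr', hball'⟩ := kill_disc hdat ho hb hne hc1.isPreconnected hc3
    (inside_compl hc' hcon').1.isPreconnected hlam hk' (a := -(Complex.I * p)) (b := 1)
    (Or.inr one_ne_zero) (by
      intro x
      have e : -(Complex.I * p) + ((1:ℝ):ℂ) * Complex.I * x = Complex.I * (x - p) := by
        push_cast
        ring
      rw [e]
      by_cases hx : x ∈ inside γ'
      · have e1 : (inside γ').indicator (fun x => u x - k') =ᶠ[𝓝 x] fun y => u y - k' := by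
          filter_upwards [ho.mem_nhds hx] with y hy
          rw [Set.indicator_of_mem hy]
        rw [e1.fderiv_eq, fderiv_sub_const]
        refine radial_rot hDo (F := fun s => u p * B 0 (lam * s / 4)) ?_ h7
          (inside_sub hRc hRcon hsub' hx)
        exact (hBd.comp ((differentiable_id.const_mul lam).div_const 4)).const_mul (u p)
      · rw [hdat.outd x hx]
        rfl)
  obtain ⟨ρ', g1, g2, g3, g4, g5, g6, g7⟩ :=
    disc_case hR hγ' hlam hu hsub' hk' huk' hcr' hr' hball'
  have hρ : 0 < ρ := hr.trans h1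
  have hρ' : 0 < ρ' := hr'.trans g1
  have hp : p' = p := by
    rw [h2] at g2
    exact (sphere_center hρ g2).symm
  rw [hp] at g4
  exact ⟨r', hr', g4, g6⟩

/-- The number of closed curves of still points is bounded in terms of the number of eigenvalues. -/
theorem curve_count {R : Set ℂ} {c : ℝ} {z : ℂ → ℝ → ℝ} {g : ℂ → ℝ → ℂ}
    (hR : SimpleClosedCurve R) (hc : 0 < c) (h : DrumSolution R c z g) {l : ℕ}
    (γ : Fin l → Set ℂ) (hinj : Function.Injective γ) (hγ : ∀ i, SimpleClosedCurve (γ i))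
    (hS : ∀ i, γ i ⊆ still R g) (M : Finset (Fin l)) (hM0 : M.Nonempty)
    (hM : ∀ i ∈ M, ∀ j, ¬ γ j ⊆ inside (γ i)) {lam : ℝ} (hE : Excites R z lam) :
    dirichletEigenvalue (3 * l + 2 * M.card) (inside R) < lam := by
  obtain ⟨hRc, hRcon, hRinf⟩ := scc_basic hR
  obtain ⟨hDo, hDb, hfr, hcl, hdj⟩ := inside_basic hRc
  obtain ⟨hlam, u, hm⟩ := mode_of_excites hRc hc h hE
  obtain ⟨hDc, hDfr, hDreg⟩ := inside_jordan hR hm.nonempty
  have h1 : ∀ i, γ i ⊆ inside R ∧ ∃ k ≠ 0, ∀ x ∈ γ i, u x = k := fun i =>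
    hm.const_curve hR hlam (hγ i) (fun x hx => (hS i hx).1) fun x hx => (hS i hx).2
  have hsub := fun i => (h1 i).1
  choose k hk huk using fun i => (h1 i).2
  have hcr : ∀ i, ∀ x ∈ γ i, fderiv ℝ u x = 0 := fun i x hx =>
    hm.crit x (hsub i hx) (hS i hx).2
  have hdat := fun i => crit_dat hR (hγ i) hlam hm.wat (hsub i) (hk i) (huk i) (hcr i)
  have hb := fun i => inside_basic (scc_basic (hγ i)).1
  have hj := fun i => inside_jordan (hγ i) (hdat i).1
  obtain ⟨i₀, hi₀⟩ := hM0
  have hl : 1 ≤ l := by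
    have := i₀.isLt
    omega
  by_cases hdisc : ∃ i, ∃ (p : ℂ) (r : ℝ), 0 < r ∧ inside (γ i) = Metric.ball p r
  · obtain ⟨i, p, r, hr, hball⟩ := hdisc
    obtain ⟨ρ, h2, h3, h4, h5, h6, h7, h8⟩ :=
      disc_case hR (hγ i) hlam hm.wat (hsub i) (hk i) (huk i) (hcr i) hr hball
    have h9 := fun j => concentric hR (hγ i) (hγ j) hlam hm.wat (hsub i) (hsub j) (hk i) (huk i)
      (hcr i) (hk j) (huk j) (hcr j) hr hball
    choose s hs hγs hBs using h9
    have hsρ : ∀ j, s j < ρ := by
      intro j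
      have e1 : p + (s j : ℂ) ∈ γ j := by
        rw [hγs, mem_sphere_iff_norm, add_sub_cancel_left, Complex.norm_real, Real.norm_eq_abs,
          abs_of_pos (hs j)]
      have e2 := hsub j e1
      rw [h4, mem_ball_iff_norm, add_sub_cancel_left, Complex.norm_real, Real.norm_eq_abs,
        abs_of_pos (hs j)] at e2
      exact e2
    have hsinj : Function.Injective s := by
      intro a b hab
      apply hinj
      rw [hγs a, hγs b, hab]
    have hnot : ∀ i ∈ M, ∀ j, ¬ s j < s i := by
      intro i hi j hji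
      refine hM i hi j ?_
      rw [hγs i, hγs j, inside_sphere p (hs i)]
      exact Metric.sphere_subset_ball hji
    have hcard : M.card = 1 := by
      rw [Finset.card_eq_one]
      refine ⟨i₀, Finset.eq_singleton_iff_unique_mem.2 ⟨hi₀, fun j hj => ?_⟩⟩
      exact hsinj (le_antisymm (not_lt.1 (hnot j hj i₀)) (not_lt.1 (hnot i₀ hi₀ j)))
    rw [hcard, h4]
    exact radial_family_index hl s (fun j => ⟨hs j, hsρ j⟩) hsinj hlam h6 hBs
  · push Not at hdisc
    refine family_index hDo hDb hDc.isPreconnected hlam hm.wat hm.ne hl (fun i => inside (γ i)) _ k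
      (fun i => (hdat i).2) hk (fun i => (hb i).1) (fun i => (hj i).1) (fun i => (hj i).2.2)
      (fun i => (inside_compl (scc_basic (hγ i)).1 (scc_basic (hγ i)).2.1).1.isPreconnected)
      ?_ ?_ ?_ ?_ M ?_
    · intro i
      rw [closure_inside (hγ i) (hdat i).1]
      exact union_subset (inside_sub hRc hRcon (hsub i)) (hsub i)
    · intro i j hij
      exact scc_rel (hγ i) (hγ j)
        (still_curves_disjoint hR hc h (hγ i) (hγ j) (hS i) (hS j) (hinj.ne hij)) (hdat i).1
        (hdat j).1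
    · by_contra hE'
      rw [not_nonempty_iff_eq_empty, sdiff_eq_empty] at hE'
      have hcl' : ∀ i, closure (inside (γ i)) ⊆ inside R := by
        intro i
        rw [closure_inside (hγ i) (hdat i).1]
        exact union_subset (inside_sub hRc hRcon (hsub i)) (hsub i)
      have e1 : inside R = ⋃ i, closure (inside (γ i)) :=
        Subset.antisymm hE' (iUnion_subset hcl')
      have e2 : IsClosed (inside R) := by
        rw [e1]
        exact isClosed_iUnion_of_finite fun i => isClosed_closure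
      rcases isClopen_iff.1 ⟨e2, hDo⟩ with e3 | e3
      · exact hm.nonempty.ne_empty e3
      · rw [e3] at hDb
        exact (NormedSpace.unbounded_univ ℝ ℂ) hDb
    · rintro i ⟨p, r, hr, hball⟩
      exact hdisc i p r hr hball
    · intro i hi j hji hsub'
      refine hM i hi j ?_
      refine Subset.trans ?_ hsub'
      rw [closure_inside (hγ j) (hdat j).1]
      exact subset_union_right

end Pool.Agent.Helper327_Drum
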