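import Pool.Agent.Helper327_Drum.Fin.FM2

/-
JOB FQ4 (owner helper327, problem MP_d92c84_an). All imports are on origin/main.
-/

set_option autoImplicit false
open MeasureTheory Set Filter Topology
open scoped ContDiff InnerProductSpace

namespace Pool.Agent.Helper327_Drum

open Pool.Agent.TH298.Sch (dd SC)
open Pool.Agent.R227.SA (la Wat Dat)
open TH259.NS (B J)

/-
`B k` are Bessel functions in the variable s = x²/4 (entire): B_k' = -B_{k+1} (`TH259.NS.B_deriv`), J_k(x) ~ x^k B_k(x²/4). So B 0 (lam ρ²/4) = 0 means J_0(√lam ρ) = 0 and B 1 (lam r²/4) = 0 means J_0'(√lam r) = 0.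
Plain proof. Put lam = ν (last) and a_j = ν j ρ²/4, so a_0 < a_1 < ... < a_m, B 0 (a_j) = 0. By Rolle there is b_j ∈ (a_{j-1}, a_j) with B 1 (b_j) = 0 (j = 1..m). The l numbers s_i = ν 0 r_i²/4 are different zeros of
B 1 in (0, a_0). So B 1 has l + m different zeros in (0, a_m); with radii r' = √(4 s / lam) ∈ (0, ρ), apply `radial_family_index` (Fin/FM2.lean) with l + m circles: 3 (l + m) + 2 = 3 l + 3 m + 2.
(Index the circles by Fin (l + m) via `Fin.append`, or by Fin l ⊕ Fin m and `finSumFinEquiv`.)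
-/

/-- TARGET: the radial case with several eigenvalues. -/
theorem radial_multi {p : ℂ} {ρ : ℝ} {m : ℕ} (ν : Fin (m + 1) → ℝ) (hν : StrictMono ν)
    (hν0 : 0 < ν 0) {l : ℕ} (hl : 1 ≤ l) (r : Fin l → ℝ)
    (hr : ∀ i, 0 < r i ∧ r i < ρ) (hinj : Function.Injective r)
    (h0 : ∀ j, B 0 (ν j * ρ ^ 2 / 4) = 0) (h1 : ∀ i, B 1 (ν 0 * r i ^ 2 / 4) = 0) :
    dirichletEigenvalue (3 * l + (3 * m + 2)) (Metric.ball p ρ) < ν (Fin.last m) := by
  classical
  have i0 : Fin l := ⟨0, hl⟩
  have hρ : 0 < ρ := (hr i0).1.trans (hr i0).2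
  have hνpos : ∀ j, 0 < ν j := fun j => lt_of_lt_of_le hν0 (hν.monotone (Fin.zero_le j))
  have hlam : 0 < ν (Fin.last m) := hνpos _
  have hρ2 : 0 < ρ ^ 2 / 4 := by positivity
  -- the zeros of `B 0`
  have ha : ∀ j j', j < j' → ν j * ρ ^ 2 / 4 < ν j' * ρ ^ 2 / 4 := by
    intro j j' hjj
    have := hν hjj
    have h2 : ν j * (ρ ^ 2 / 4) < ν j' * (ρ ^ 2 / 4) := mul_lt_mul_of_pos_right this hρ2
    linarith
  have hrolle : ∀ j : Fin m, ∃ b, ν j.castSucc * ρ ^ 2 / 4 < b ∧ b < ν j.succ * ρ ^ 2 / 4 ∧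
      B 1 b = 0 := by
    intro j
    have hlt := ha j.castSucc j.succ Fin.castSucc_lt_succ
    obtain ⟨c, hc, hc0⟩ := exists_hasDerivAt_eq_zero (f := B 0) (f' := fun s => -B (0 + 1) s) hlt
      (fun x _ => (TH259.NS.B_deriv 0 x).continuousAt.continuousWithinAt)
      (by rw [h0, h0]) (fun x _ => TH259.NS.B_deriv 0 x)
    refine ⟨c, hc.1, hc.2, ?_⟩
    simpa using hc0
  choose b hb1 hb2 hb3 using hrolle
  -- all the zeros
  set z : Fin (l + m) → ℝ := Fin.append (fun i => ν 0 * r i ^ 2 / 4) b with hz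
  have hzl : ∀ i : Fin l, z (Fin.castAdd m i) = ν 0 * r i ^ 2 / 4 := fun i => by
    rw [hz, Fin.append_left]
  have hzr : ∀ j : Fin m, z (Fin.natAdd l j) = b j := fun j => by
    rw [hz, Fin.append_right]
  have hsl : ∀ i : Fin l, ν 0 * r i ^ 2 / 4 < ν 0 * ρ ^ 2 / 4 := by
    intro i
    have h1 : r i ^ 2 < ρ ^ 2 := by nlinarith [(hr i).1, (hr i).2]
    nlinarith
  have hbpos : ∀ j : Fin m, ν 0 * ρ ^ 2 / 4 < b j := by
    intro j
    refine lt_of_le_of_lt ?_ (hb1 j)
    have h1 : ν 0 ≤ ν j.castSucc := hν.monotone (Fin.zero_le _)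
    have h2 : ν 0 * (ρ ^ 2 / 4) ≤ ν j.castSucc * (ρ ^ 2 / 4) :=
      mul_le_mul_of_nonneg_right h1 hρ2.le
    linarith
  have hblast : ∀ j : Fin m, b j < ν (Fin.last m) * ρ ^ 2 / 4 := by
    intro j
    refine lt_of_lt_of_le (hb2 j) ?_
    have h1 : ν j.succ ≤ ν (Fin.last m) := hν.monotone (Fin.le_last _)
    have h2 : ν j.succ * (ρ ^ 2 / 4) ≤ ν (Fin.last m) * (ρ ^ 2 / 4) :=
      mul_le_mul_of_nonneg_right h1 hρ2.le
    linarith
  have hbmono : StrictMono b := by
    intro j j' hjj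
    have h1 : j.succ ≤ j'.castSucc := by
      rw [Fin.le_def, Fin.val_succ, Fin.val_castSucc]
      exact hjj
    have h2 : ν j.succ ≤ ν j'.castSucc := hν.monotone h1
    have h3 : ν j.succ * (ρ ^ 2 / 4) ≤ ν j'.castSucc * (ρ ^ 2 / 4) :=
      mul_le_mul_of_nonneg_right h2 hρ2.le
    have h4 := hb2 j
    have h5 := hb1 j'
    linarith
  have hzpos : ∀ k, 0 < z k := by
    intro k
    refine Fin.addCases (fun i => ?_) (fun j => ?_) k
    · rw [hzl]
      have := (hr i).1
      positivity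
    · rw [hzr]
      refine lt_trans ?_ (hbpos j)
      positivity
  have hzlt : ∀ k, z k < ν (Fin.last m) * ρ ^ 2 / 4 := by
    intro k
    refine Fin.addCases (fun i => ?_) (fun j => ?_) k
    · rw [hzl]
      refine lt_of_lt_of_le (hsl i) ?_
      have h1 : ν 0 ≤ ν (Fin.last m) := hν.monotone (Fin.zero_le _)
      have h2 : ν 0 * (ρ ^ 2 / 4) ≤ ν (Fin.last m) * (ρ ^ 2 / 4) :=
        mul_le_mul_of_nonneg_right h1 hρ2.le
      linarith
    · rw [hzr]
      exact hblast j
  have hzB : ∀ k, B 1 (z k) = 0 := by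
    intro k
    refine Fin.addCases (fun i => ?_) (fun j => ?_) k
    · rw [hzl]; exact h1 i
    · rw [hzr]; exact hb3 j
  have hsinj : ∀ i i' : Fin l, ν 0 * r i ^ 2 / 4 = ν 0 * r i' ^ 2 / 4 → i = i' := by
    intro i i' h
    apply hinj
    have h2 : r i ^ 2 = r i' ^ 2 := by
      have h3 : ν 0 * r i ^ 2 = ν 0 * r i' ^ 2 := by linarith
      exact mul_left_cancel₀ hν0.ne' h3
    exact (pow_left_inj₀ (hr i).1.le (hr i').1.le two_ne_zero).mp h2
  have hzinj : Function.Injective z := by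
    intro k k'
    refine Fin.addCases (fun i => ?_) (fun j => ?_) k
    · refine Fin.addCases (fun i' => ?_) (fun j' => ?_) k'
      · intro h
        rw [hzl, hzl] at h
        rw [hsinj i i' h]
      · intro h
        rw [hzl, hzr] at h
        exfalso
        have h2 := hsl i
        have h3 := hbpos j'
        linarith
    · refine Fin.addCases (fun i' => ?_) (fun j' => ?_) k'
      · intro h
        rw [hzl, hzr] at h
        exfalso
        have h2 := hsl i'
        have h3 := hbpos j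
        linarith
      · intro h
        rw [hzr, hzr] at h
        rw [hbmono.injective h]
  -- the radii
  set lam := ν (Fin.last m) with hlamdef
  have hsq : ∀ k, lam * √(4 * z k / lam) ^ 2 / 4 = z k := by
    intro k
    have h2 := hzpos k
    rw [Real.sq_sqrt (by positivity)]
    field_simp
  have key := radial_family_index (p := p) (ρ := ρ) (lam := lam) (l := l + m) (by omega)
    (fun k => √(4 * z k / lam)) ?_ ?_ hlam (h0 _) ?_
  · have h3 : 3 * (l + m) + 2 = 3 * l + (3 * m + 2) := by ring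
    rw [h3] at key
    exact key
  · intro k
    have h2 := hzpos k
    refine ⟨by positivity, ?_⟩
    rw [Real.sqrt_lt' hρ, div_lt_iff₀ hlam]
    have h3 := hzlt k
    linarith
  · intro k k' h
    apply hzinj
    have h2 := hsq k
    have h3 := hsq k'
    simp only at h
    rw [← h2, ← h3, h]
  · intro k
    show B 1 (lam * √(4 * z k / lam) ^ 2 / 4) = 0
    rw [hsq]
    exact hzB k

end Pool.Agent.Helper327_Drum
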