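import Pool.Agent.Helper327_Drum.Fin.M4
import Pool.Agent.Helper327_Drum.Fin.K1d
import Pool.Agent.Helper327_Drum.Fin.F1
import Pool.Agent.Helper327_Drum.Fin.T5a

/-
JOB REF (owner helper327, problem MP_d92c84_an). All imports are on origin/main.
-/

set_option autoImplicit false
open MeasureTheory Set Filter Topology ComplexConjugate
open scoped ContDiff InnerProductSpace

namespace Pool.Agent.Helper327_Drum

open Pool.Agent.TH298.Sch (dd SC X)
open Pool.Agent.R227.SA (la Wat Dat)

/-
`Wat D lam u` (R227.SA10): u continuous, 0 off D, near each point of D equal to a smooth (SC) solution U of la U = -lam U. `V D` = H¹₀(D) as triples (f, ∂₁f, ∂₂f) (OpDefs.lean).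
Plain proof. `helm_V` (Fin/K1d.lean) gives F ∈ V D with F 0 = u a.e. and ⟨F, H⟩ = (1+lam) ⟨F 0, H 0⟩ for all H ∈ V D. The function f = D.indicator ψ is continuous (ψ = 0 on frontier D), 0 off D, smooth in D
and its classical Laplacian in D is la ψ, bounded: `mem_V` (Fin/E4.lean) with k = D.indicator (la ψ) and `weak_of_classical` (Fin/E5.lean) give H ∈ V D with components (f, D.indicator (dd 1 ψ),
D.indicator (dd I ψ)). So ∫ F 1 · dd 1 ψ + ∫ F 2 · dd I ψ (over D; F 1, F 2 vanish a.e. off D) = lam ∫ u ψ. By `V_ibp` (Fin/M4.lean; dd 1 ψ, dd I ψ are SC on the whole plane)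
∫ F 1 · dd 1 ψ = -∫ u dd 1 (dd 1 ψ), and the same for I; so -∫ u la ψ = lam ∫ u ψ. (That F 1 and F 2 vanish a.e. off D: closed condition, true for test functions; maybe a lemma in Fin/K1d.lean.)
-/

theorem green_bdry_van {D : Set ℂ} (hDm : MeasurableSet D) {g : ℂ → ℝ} (hg : SC g) {F : W3}
    (hF : F ∈ V D) (k : Fin 3) :
    ∫ x, F k x * D.indicator g x = ∫ x, F k x * g x := by
  have hm : MemLp g 2 (volume : Measure ℂ) := sc_memLp hg
  have hmc : MemLp (Dᶜ.indicator g) 2 (volume : Measure ℂ) := hm.indicator hDm.compl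
  have hmi : MemLp (D.indicator g) 2 (volume : Measure ℂ) := hm.indicator hDm
  have h1 : TT (hmc.toLp _) k F = 0 := by
    refine V_le_ker (TT (hmc.toLp _) k) (fun G hG => ?_) hF
    obtain ⟨ψ, e1, e2⟩ := gr_van hG k
    rw [TT_apply, inner_L2]
    have : (fun x => (hmc.toLp (Dᶜ.indicator g)) x * G k x) =ᵐ[volume] fun _ => (0 : ℝ) := by
      filter_upwards [hmc.coeFn_toLp, e1] with x a1 a2
      rw [a1, a2]
      by_cases hx : x ∈ D
      · have hx' : x ∉ Dᶜ := fun h => h hx
        rw [indicator_of_notMem hx', zero_mul]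
      · rw [e2 x hx, mul_zero]
    rw [integral_congr_ae this]
    simp
  rw [TT_apply, inner_L2] at h1
  have h2 : ∫ x, F k x * Dᶜ.indicator g x = 0 := by
    rw [← h1]
    refine integral_congr_ae ?_
    filter_upwards [hmc.coeFn_toLp] with x a1
    rw [a1, mul_comm]
  have i1 : Integrable (fun x => F k x * D.indicator g x) := MemLp.integrable_mul (Lp.memLp _) hmi
  have i2 : Integrable (fun x => F k x * Dᶜ.indicator g x) := MemLp.integrable_mul (Lp.memLp _) hmc
  have h3 : ∫ x, F k x * g x = (∫ x, F k x * D.indicator g x) + ∫ x, F k x * Dᶜ.indicator g x := by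
    rw [← integral_add i1 i2]
    refine integral_congr_ae (Eventually.of_forall fun x => ?_)
    by_cases hx : x ∈ D
    · have hx' : x ∉ Dᶜ := fun h => h hx
      simp only [indicator_of_mem hx, indicator_of_notMem hx', mul_zero, add_zero]
    · have hx' : x ∈ Dᶜ := hx
      simp only [indicator_of_notMem hx, indicator_of_mem hx', mul_zero, zero_add]
  rw [h3, h2, add_zero]

/-- TARGET 1: Green's formula for test functions vanishing on the boundary. -/
theorem green_bdry {D : Set ℂ} (hDo : IsOpen D) (hDb : Bornology.IsBounded D) {lam : ℝ} {u : ℂ → ℝ}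
    (hu : Wat D lam u) {ψ : ℂ → ℝ} (hψ : SC ψ) (h0 : ∀ x ∈ frontier D, ψ x = 0) :
    ∫ x, u x * (la ψ x + lam * ψ x) = 0 := by
  have hDm : MeasurableSet D := hDo.measurableSet
  have hla : SC (la ψ) := Pool.Agent.R227.SA.la_sc hψ
  have hind : ∀ x ∈ D, D.indicator ψ =ᶠ[𝓝 x] ψ := by
    intro x hx
    filter_upwards [hDo.mem_nhds hx] with y hy
    rw [indicator_of_mem hy]
  have hfc : Continuous (D.indicator ψ) :=
    continuous_indicator h0 hψ.cont.continuousOn
  have hfs : ContDiffOn ℝ 2 (D.indicator ψ) D := by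
    intro x hx
    have h2 : ContDiff ℝ 2 ψ := by exact_mod_cast contDiff_infty.1 hψ.sm 2
    exact (h2.contDiffAt.congr_of_eventuallyEq (hind x hx)).contDiffWithinAt
  obtain ⟨M, hM⟩ := hla.cont.bounded_above_of_compact_support hla.cs
  have hM0 : 0 ≤ M := (norm_nonneg _).trans (hM 0)
  obtain ⟨H, e0, e1, e2, -, -⟩ := mem_V hDo hDb (f := D.indicator ψ) (k := D.indicator (la ψ)) hfc
    (fun x hx => indicator_of_notMem hx _) (hfs.of_le (by norm_num))
    (hla.cont.measurable.indicator hDm) (fun x hx => indicator_of_notMem hx _) (M := M)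
    (fun x => by
      by_cases hx : x ∈ D
      · rw [indicator_of_mem hx]
        exact hM x
      · rw [indicator_of_notMem hx, abs_zero]
        exact hM0) (by
      intro φ hφ hs
      rw [weak_of_classical hDo hfs (φ := φ) ⟨hφ.sm.of_le (by exact_mod_cast le_top), hφ.cs, hs⟩]
      congr 1
      refine integral_congr_ae (Eventually.of_forall fun x => ?_)
      change D.indicator (la (D.indicator ψ)) x * φ x = D.indicator (la ψ) x * φ x
      by_cases hx : x ∈ D
      · rw [indicator_of_mem hx, indicator_of_mem hx, la_congr (hind x hx)]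
      · rw [indicator_of_notMem hx, indicator_of_notMem hx])
  obtain ⟨F, hF, f0, hFH⟩ := helm_V hDo hDb hu
  have h1 := hFH H.1 H.2
  rw [inner_W3, inner_L2, inner_L2, inner_L2] at h1
  have g1 := (V_ibp (D := D) ⟨F, hF⟩ (Pool.Agent.TH298.Sch.dd_sc hψ 1)).1
  have g2 := (V_ibp (D := D) ⟨F, hF⟩ (Pool.Agent.TH298.Sch.dd_sc hψ Complex.I)).2
  change ∫ x, (F 1) x * dd 1 ψ x = - ∫ x, (F 0) x * dd 1 (dd 1 ψ) x at g1
  change ∫ x, (F 2) x * dd Complex.I ψ x = - ∫ x, (F 0) x * dd Complex.I (dd Complex.I ψ) x at g2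
  have hddi : ∀ v, D.indicator (dd v (D.indicator ψ)) = D.indicator (dd v ψ) := by
    intro v
    funext x
    by_cases hx : x ∈ D
    · rw [indicator_of_mem hx, indicator_of_mem hx, (dd_congr (hind x hx) v).self_of_nhds]
    · rw [indicator_of_notMem hx, indicator_of_notMem hx]
  have k0 : ∫ x, F 0 x * H.1 0 x = ∫ x, u x * ψ x := by
    refine integral_congr_ae ?_
    filter_upwards [f0, e0] with x h h'
    rw [h, h']
    by_cases hx : x ∈ D
    · rw [indicator_of_mem hx]
    · rw [hu.out x hx, zero_mul, zero_mul]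
  have k1 : ∫ x, F 1 x * H.1 1 x = ∫ x, F 1 x * dd 1 ψ x := by
    rw [← green_bdry_van hDm (Pool.Agent.TH298.Sch.dd_sc hψ 1) hF 1]
    refine integral_congr_ae ?_
    filter_upwards [e1] with x h
    rw [h, hddi]
  have k2 : ∫ x, F 2 x * H.1 2 x = ∫ x, F 2 x * dd Complex.I ψ x := by
    rw [← green_bdry_van hDm (Pool.Agent.TH298.Sch.dd_sc hψ Complex.I) hF 2]
    refine integral_congr_ae ?_
    filter_upwards [e2] with x h
    rw [h, hddi]
  have k3 : ∀ χ : ℂ → ℝ, ∫ x, F 0 x * χ x = ∫ x, u x * χ x := by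
    intro χ
    refine integral_congr_ae ?_
    filter_upwards [f0] with x h
    rw [h]
  rw [k0, k1, k2, g1, g2, k3, k3] at h1
  have i1 : Integrable (fun x => u x * dd 1 (dd 1 ψ) x) :=
    (hu.cont.mul (Pool.Agent.TH298.Sch.dd_sc (Pool.Agent.TH298.Sch.dd_sc hψ 1) 1).cont).integrable_of_hasCompactSupport
      (Pool.Agent.TH298.Sch.dd_sc (Pool.Agent.TH298.Sch.dd_sc hψ 1) 1).cs.mul_left
  have i2 : Integrable (fun x => u x * dd Complex.I (dd Complex.I ψ) x) :=
    (hu.cont.mul (Pool.Agent.TH298.Sch.dd_sc (Pool.Agent.TH298.Sch.dd_sc hψ Complex.I) Complex.I).cont).integrable_of_hasCompactSupport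
      (Pool.Agent.TH298.Sch.dd_sc (Pool.Agent.TH298.Sch.dd_sc hψ Complex.I) Complex.I).cs.mul_left
  have i3 : Integrable (fun x => u x * ψ x) :=
    (hu.cont.mul hψ.cont).integrable_of_hasCompactSupport hψ.cs.mul_left
  have e : (fun x => u x * (la ψ x + lam * ψ x)) = fun x => (u x * dd 1 (dd 1 ψ) x +
      u x * dd Complex.I (dd Complex.I ψ) x) + lam * (u x * ψ x) := by
    funext x
    unfold la
    ring
  have i12 : Integrable (fun x => u x * dd 1 (dd 1 ψ) x +
      u x * dd Complex.I (dd Complex.I ψ) x) := i1.add i2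
  rw [e, integral_add i12 (i3.const_mul lam), integral_add i1 i2, integral_const_mul]
  linarith

/-
Plain proof. ũ x = u x - u (swap x), swap x = I * conj x (reflection in the line re = im). ũ is continuous and 0 off rect a a. For φ SC with tsupport φ ⊆ rect a a (open square):
∫ ũ (la φ + lam φ) = ∫ u (la ψ + lam ψ) with ψ x = φ x - φ (swap x) (swap is a measure preserving isometry, la commutes with it), ψ is SC, ψ = 0 on the diagonal, and near the other two sides of the
triangle D = {x | 0 < x.im < x.re < a}; so ψ = 0 on frontier D (every frontier point lies on the diagonal re = im or has im = 0 or re = a). `green_bdry`, then `reg` (Fin/F1.lean) on rect a a gives the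
local smooth solutions.
-/

theorem tri_refl_rot {φ : ℂ → ℝ} (hφ : SC φ) {e : ℂ} (he : ‖e‖ = 1) :
    SC (fun y => φ (e * y)) ∧ ∀ x, la (fun y => φ (e * y)) x = la φ (e * x) := by
  obtain ⟨t, ht⟩ := t5a_exists_er he
  rw [← ht]
  exact ⟨Pool.Agent.R227.SA.rot_sc hφ t, fun x => Pool.Agent.R227.SA.la_rot hφ t x⟩

theorem tri_refl_conj {φ : ℂ → ℝ} (hφ : SC φ) :
    SC (fun y => φ (conj y)) ∧ ∀ x, la (fun y => φ (conj y)) x = la φ (conj x) := by
  have hd : ∀ (χ : ℂ → ℝ), SC χ → ∀ v : ℂ,
      dd v (fun y => χ (conj y)) = fun y => dd (conj v) χ (conj y) := by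
    intro χ hχ v
    funext y
    unfold dd
    have h1 : HasFDerivAt (fun y : ℂ => (conj y : ℂ)) (Complex.conjCLE : ℂ →L[ℝ] ℂ) y :=
      Complex.conjCLE.hasFDerivAt
    have h3 : HasFDerivAt (fun y => χ (conj y))
        ((fderiv ℝ χ (conj y)).comp (Complex.conjCLE : ℂ →L[ℝ] ℂ)) y :=
      (hχ.diff (conj y)).hasFDerivAt.comp y h1
    rw [h3.fderiv]
    simp
  have hneg : ∀ (χ : ℂ → ℝ) (v : ℂ), dd (-v) χ = fun y => -dd v χ y := by
    intro χ v
    funext y
    unfold dd
    simp
  have hneg2 : ∀ (χ : ℂ → ℝ), SC χ → ∀ v : ℂ, dd v (fun y => -χ y) = fun y => -dd v χ y := by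
    intro χ hχ v
    funext y
    unfold dd
    have h : HasFDerivAt (fun y => -χ y) (-fderiv ℝ χ y) y := (hχ.diff y).hasFDerivAt.neg
    rw [h.fderiv]
    simp
  constructor
  · exact ⟨hφ.sm.comp Complex.conjCLE.contDiff,
      hφ.cs.comp_homeomorph Complex.conjCLE.toHomeomorph⟩
  · intro x
    unfold la
    rw [hd φ hφ, hd φ hφ, hd _ (Pool.Agent.TH298.Sch.dd_sc hφ _),
      hd _ (Pool.Agent.TH298.Sch.dd_sc hφ _)]
    simp only [map_one, Complex.conj_I]
    rw [hneg φ, hneg, hneg2 _ (Pool.Agent.TH298.Sch.dd_sc hφ _)]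
    simp only [neg_neg]

theorem tri_refl_rc {φ : ℂ → ℝ} (hφ : SC φ) {e : ℂ} (he : ‖e‖ = 1) :
    SC (fun y => φ (e * conj y)) ∧ ∀ x, la (fun y => φ (e * conj y)) x = la φ (e * conj x) := by
  obtain ⟨h1, h2⟩ := tri_refl_rot hφ he
  obtain ⟨h3, h4⟩ := tri_refl_conj h1
  exact ⟨h3, fun x => (h4 x).trans (h2 _)⟩

theorem tri_refl_sub {f g : ℂ → ℝ} (hf : SC f) (hg : SC g) :
    SC (fun x => f x - g x) ∧ ∀ x, la (fun x => f x - g x) x = la f x - la g x := by
  have h0 := sc_sub_smul hf hg 1
  have hd : ∀ {f g : ℂ → ℝ}, SC f → SC g → ∀ v, dd v (fun x => f x - g x) =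
      fun x => dd v f x - dd v g x := by
    intro f g hf hg v
    have := dd_sub_smul hf hg 1 v
    simpa only [one_mul] using this
  constructor
  · simpa only [one_mul] using h0
  · intro x
    unfold la
    rw [hd hf hg, hd hf hg, hd (Pool.Agent.TH298.Sch.dd_sc hf _) (Pool.Agent.TH298.Sch.dd_sc hg _),
      hd (Pool.Agent.TH298.Sch.dd_sc hf _) (Pool.Agent.TH298.Sch.dd_sc hg _)]
    ring

theorem tri_refl_cv (g : ℂ ≃ₗᵢ[ℝ] ℂ) (f : ℂ → ℝ) : ∫ x, f (g x) = ∫ x, f x :=
  (g.measurePreserving).integral_comp g.toHomeomorph.measurableEmbedding f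

theorem tri_refl_int1 {u φ : ℂ → ℝ} (hφ : SC φ) (lam : ℝ) {e : ℂ} (he : ‖e‖ = 1) :
    ∫ x, u (e * x) * (la φ x + lam * φ x) =
      ∫ x, u x * (la (fun y => φ (conj e * y)) x + lam * φ (conj e * x)) := by
  have he' : ‖(conj e : ℂ)‖ = 1 := by rw [Complex.norm_conj]; exact he
  have hee : conj e * e = 1 := by
    rw [mul_comm, Complex.mul_conj, Complex.normSq_eq_norm_sq, he]
    simp
  rw [← tri_refl_cv (rotation ⟨e, mem_sphere_zero_iff_norm.2 he⟩)
    (fun x => u x * (la (fun y => φ (conj e * y)) x + lam * φ (conj e * x)))]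
  refine integral_congr_ae (Eventually.of_forall fun x => ?_)
  simp only
  rw [(tri_refl_rot hφ he').2]
  change _ = u (e * x) * (la φ (conj e * (e * x)) + lam * φ (conj e * (e * x)))
  rw [← mul_assoc (conj e), hee, one_mul]

theorem tri_refl_int2 {u φ : ℂ → ℝ} (hφ : SC φ) (lam : ℝ) {e : ℂ} (he : ‖e‖ = 1) :
    ∫ x, u (e * conj x) * (la φ x + lam * φ x) =
      ∫ x, u x * (la (fun y => φ (e * conj y)) x + lam * φ (e * conj x)) := by
  have hee : e * conj e = 1 := by
    rw [Complex.mul_conj, Complex.normSq_eq_norm_sq, he]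
    simp
  rw [← tri_refl_cv (Complex.conjLIE.trans (rotation ⟨e, mem_sphere_zero_iff_norm.2 he⟩))
    (fun x => u x * (la (fun y => φ (e * conj y)) x + lam * φ (e * conj x)))]
  refine integral_congr_ae (Eventually.of_forall fun x => ?_)
  simp only [LinearIsometryEquiv.trans_apply, Complex.conjLIE_apply]
  rw [(tri_refl_rc hφ he).2]
  change _ = u (e * conj x) * (la φ (e * conj (e * conj x)) + lam * φ (e * conj (e * conj x)))
  rw [map_mul, Complex.conj_conj, ← mul_assoc e, hee, one_mul]

theorem tri_refl_ig {u : ℂ → ℝ} (hu : Continuous u) {φ : ℂ → ℝ} (hφ : SC φ) (lam : ℝ) :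
    Integrable (fun x => u x * (la φ x + lam * φ x)) := by
  have h1 : SC (fun x => la φ x + lam * φ x) :=
    (Pool.Agent.R227.SA.la_sc hφ).add ⟨contDiff_const.mul hφ.sm, hφ.cs.mul_left⟩
  exact (hu.mul h1.cont).integrable_of_hasCompactSupport h1.cs.mul_left

/-- TARGET 2: odd reflection of eigenfunctions of the right isosceles triangle. -/
theorem tri_refl {a lam : ℝ} (ha : 0 < a) (hlam : 0 < lam) {u : ℂ → ℝ}
    (hu : Wat {x : ℂ | 0 < x.im ∧ x.im < x.re ∧ x.re < a} lam u) :
    Wat (rect a a) lam (fun x => u x - u (Complex.I * conj x)) := by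
  have hs : ∀ x : ℂ, (Complex.I * conj x).re = x.im ∧ (Complex.I * conj x).im = x.re := by
    intro x
    simp [Complex.mul_re, Complex.mul_im]
  have hIc : Continuous fun x : ℂ => Complex.I * conj x := by fun_prop
  have hout : ∀ x : ℂ, x ∉ rect a a → u x = 0 := by
    intro x hx
    refine hu.out x (fun h => hx ?_)
    obtain ⟨h1, h2, h3⟩ := h
    exact ⟨by linarith, h3, h1, by linarith⟩
  have hswap : ∀ x : ℂ, x ∉ rect a a → Complex.I * conj x ∉ rect a a := by
    intro x hx h
    apply hx
    obtain ⟨h1, h2, h3, h4⟩ := h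
    rw [(hs x).1] at h1 h2
    rw [(hs x).2] at h3 h4
    exact ⟨h3, h4, h1, h2⟩
  have hrect : IsOpen (rect a a) := by
    have : rect a a = {x : ℂ | 0 < x.re} ∩ ({x : ℂ | x.re < a} ∩
        ({x : ℂ | 0 < x.im} ∩ {x : ℂ | x.im < a})) := rfl
    rw [this]
    exact (isOpen_lt continuous_const Complex.continuous_re).inter
      ((isOpen_lt Complex.continuous_re continuous_const).inter
      ((isOpen_lt continuous_const Complex.continuous_im).inter
      (isOpen_lt Complex.continuous_im continuous_const)))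
  set D : Set ℂ := {x : ℂ | 0 < x.im ∧ x.im < x.re ∧ x.re < a} with hD
  have hDo : IsOpen D := by
    have : D = {x : ℂ | 0 < x.im} ∩ ({x : ℂ | x.im < x.re} ∩ {x : ℂ | x.re < a}) := rfl
    rw [this]
    exact (isOpen_lt continuous_const Complex.continuous_im).inter
      ((isOpen_lt Complex.continuous_im Complex.continuous_re).inter
      (isOpen_lt Complex.continuous_re continuous_const))
  have hDb : Bornology.IsBounded D := by
    refine (Metric.isBounded_ball (x := (0 : ℂ)) (r := 2 * a + 1)).subset ?_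
    intro x hx
    obtain ⟨h1, h2, h3⟩ := hx
    rw [mem_ball_zero_iff]
    have h4 := Complex.norm_le_abs_re_add_abs_im x
    rw [abs_of_pos (by linarith : 0 < x.re), abs_of_pos h1] at h4
    linarith
  have hcl : closure D ⊆ {x : ℂ | 0 ≤ x.im ∧ x.im ≤ x.re ∧ x.re ≤ a} := by
    refine closure_minimal ?_ ?_
    · intro x hx
      exact ⟨hx.1.le, hx.2.1.le, hx.2.2.le⟩
    · have : {x : ℂ | 0 ≤ x.im ∧ x.im ≤ x.re ∧ x.re ≤ a} =
          {x : ℂ | 0 ≤ x.im} ∩ ({x : ℂ | x.im ≤ x.re} ∩ {x : ℂ | x.re ≤ a}) := rfl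
      rw [this]
      exact (isClosed_le continuous_const Complex.continuous_im).inter
        ((isClosed_le Complex.continuous_im Complex.continuous_re).inter
        (isClosed_le Complex.continuous_re continuous_const))
  have hcont : Continuous (fun x => u x - u (Complex.I * conj x)) :=
    hu.cont.sub (hu.cont.comp hIc)
  refine ⟨hcont, ?_, ?_⟩
  · intro x hx
    rw [hout x hx, hout _ (hswap x hx), sub_zero]
  · refine reg hrect hlam hcont ?_
    intro φ hφ hsu
    have hI : ‖Complex.I‖ = 1 := Complex.norm_I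
    obtain ⟨q1, q2⟩ := tri_refl_rc hφ hI
    obtain ⟨q3, q4⟩ := tri_refl_sub hφ q1
    have hφ0 : ∀ x, x ∉ rect a a → φ x = 0 := fun x hx => by
      by_contra h
      exact hx (hsu (subset_tsupport _ h))
    have h0 : ∀ x ∈ frontier D, φ x - φ (Complex.I * conj x) = 0 := by
      intro x hx
      have hx1 := hcl (frontier_subset_closure hx)
      have hx2 : x ∉ D := by
        intro h
        have := hx.2
        rw [hDo.interior_eq] at this
        exact this h
      obtain ⟨a1, a2, a3⟩ := hx1
      have hcase : x.im = 0 ∨ x.im = x.re ∨ x.re = a := by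
        by_contra hcon
        push Not at hcon
        exact hx2 ⟨lt_of_le_of_ne a1 (Ne.symm hcon.1), lt_of_le_of_ne a2 hcon.2.1,
          lt_of_le_of_ne a3 hcon.2.2⟩
      rcases hcase with h | h | h
      · have h1 : x ∉ rect a a := fun hr => by
          have := hr.2.2.1
          rw [h] at this
          exact lt_irrefl _ this
        rw [hφ0 x h1, hφ0 _ (hswap x h1), sub_zero]
      · have h1 : Complex.I * conj x = x := by
          apply Complex.ext
          · rw [(hs x).1, h]
          · rw [(hs x).2, h]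
        rw [h1, sub_self]
      · have h1 : x ∉ rect a a := fun hr => by
          have := hr.2.1
          rw [h] at this
          exact lt_irrefl _ this
        rw [hφ0 x h1, hφ0 _ (hswap x h1), sub_zero]
    have hg := green_bdry hDo hDb hu q3 h0
    have i1 := tri_refl_ig hu.cont hφ lam
    have i2 : Integrable (fun x => u (Complex.I * conj x) * (la φ x + lam * φ x)) :=
      tri_refl_ig (hu.cont.comp hIc) hφ lam
    have i3 := tri_refl_ig hu.cont q1 lam
    have e1 : ∫ x, (u x - u (Complex.I * conj x)) * (la φ x + lam * φ x) =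
        (∫ x, u x * (la φ x + lam * φ x)) -
          ∫ x, u (Complex.I * conj x) * (la φ x + lam * φ x) := by
      rw [← integral_sub i1 i2]
      refine integral_congr_ae (Eventually.of_forall fun x => ?_)
      simp only
      ring
    rw [e1, tri_refl_int2 hφ lam hI, ← integral_sub i1 i3, ← hg]
    refine integral_congr_ae (Eventually.of_forall fun x => ?_)
    simp only
    rw [q4]
    ring

/-- the open circular sector with opening angle π / N and radius 1 -/
def sector (N : ℕ) : Set ℂ := {x | ∃ r θ : ℝ, 0 < r ∧ r < 1 ∧ 0 < θ ∧ θ < Real.pi / N ∧ x = X r θ}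

/-
`X r θ = r (cos θ + sin θ I)`.
Plain proof. ω = exp(2π I/N), ũ x = Σ_{j < N} (u (ω^j x) - u (ω^j conj x)). The 2N maps x ↦ ω^j x, x ↦ ω^j conj x form the dihedral group. ũ is continuous, 0 off ball 0 1. For φ SC with
tsupport φ ⊆ ball 0 1: ∫ ũ (la φ + lam φ) = ∫ u (la ψ + lam ψ), ψ x = Σ_j (φ (ω^{-j} x) - φ (conj (ω^{-j} x))) (the inverse of x ↦ ω^j conj x is itself: x ↦ ω^j conj x = conj (ω^{-j} x)). ψ is SC,
ψ (conj x) = -ψ x and ψ (ω x) = ψ x, hence ψ = 0 on the real axis and on the line through e^{iπ/N} (x ↦ ω conj x fixes it), and ψ = 0 near the unit circle. So ψ = 0 on frontier (sector N), whose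
points have argument 0 or π/N or norm 1 or are 0. `green_bdry` and `reg` on ball 0 1.
-/

theorem sector_refl_desc {N : ℕ} (hN : 1 ≤ N) : sector N =
    {x : ℂ | ‖x‖ < 1 ∧ 0 < x.im ∧ x.im * Real.cos (Real.pi / N) < x.re * Real.sin (Real.pi / N)} := by
  have hN' : (1 : ℝ) ≤ N := by exact_mod_cast hN
  have hpi := Real.pi_pos
  have ha : 0 < Real.pi / N := by positivity
  have ha' : Real.pi / N ≤ Real.pi := div_le_self hpi.le hN'
  ext x
  constructor
  · rintro ⟨r, θ, hr, hr1, hθ, hθ1, rfl⟩
    have him : (X r θ).im = r * Real.sin θ := by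
      unfold X
      simp only [Complex.mul_im, Complex.mul_re, Complex.add_im, Complex.add_re, Complex.ofReal_re,
        Complex.ofReal_im, Complex.I_re, Complex.I_im]
      ring
    have hre : (X r θ).re = r * Real.cos θ := by
      unfold X
      simp only [Complex.mul_im, Complex.mul_re, Complex.add_im, Complex.add_re, Complex.ofReal_re,
        Complex.ofReal_im, Complex.I_re, Complex.I_im]
      ring
    refine ⟨?_, ?_, ?_⟩
    · have h1 : ‖X r θ‖ ^ 2 = r ^ 2 := by
        rw [← Complex.normSq_eq_norm_sq, Complex.normSq_apply, him, hre]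
        have := Real.sin_sq_add_cos_sq θ
        linear_combination r ^ 2 * this
      have h2 : ‖X r θ‖ = r := (pow_left_inj₀ (norm_nonneg _) hr.le (by norm_num)).1 h1
      rw [h2]
      exact hr1
    · rw [him]
      exact mul_pos hr (Real.sin_pos_of_pos_of_lt_pi hθ (by linarith))
    · rw [him, hre]
      have h1 : Real.sin (Real.pi / N - θ) > 0 :=
        Real.sin_pos_of_pos_of_lt_pi (by linarith) (by linarith)
      rw [Real.sin_sub] at h1
      have := mul_pos hr h1
      linarith
  · rintro ⟨h1, h2, h3⟩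
    have hx0 : x ≠ 0 := by
      rintro rfl
      simp at h2
    have hr : 0 < ‖x‖ := norm_pos_iff.2 hx0
    have hre := Complex.norm_mul_cos_arg x
    have him := Complex.norm_mul_sin_arg x
    have hs : 0 < Real.sin (Complex.arg x) := by
      rw [← him] at h2
      exact (pos_iff_pos_of_mul_pos h2).1 hr
    have h0 : 0 ≤ Complex.arg x := Complex.arg_nonneg_iff.2 h2.le
    have h0' : 0 < Complex.arg x := by
      rcases h0.lt_or_eq with h | h
      · exact h
      · rw [← h, Real.sin_zero] at hs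
        exact absurd hs (lt_irrefl _)
    have hpi' : Complex.arg x < Real.pi := by
      rcases (Complex.arg_le_pi x).lt_or_eq with h | h
      · exact h
      · rw [h, Real.sin_pi] at hs
        exact absurd hs (lt_irrefl _)
    refine ⟨‖x‖, Complex.arg x, hr, h1, h0', ?_, ?_⟩
    · by_contra hcon
      push Not at hcon
      have h4 : 0 ≤ Real.sin (Complex.arg x - Real.pi / N) :=
        Real.sin_nonneg_of_nonneg_of_le_pi (by linarith) (by linarith)
      rw [Real.sin_sub] at h4
      have h5 := mul_nonneg hr.le h4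
      rw [← hre, ← him] at h3
      linarith
    · unfold X
      apply Complex.ext
      · simp
      · simp

theorem sector_refl_open {N : ℕ} (hN : 1 ≤ N) : IsOpen (sector N) := by
  rw [sector_refl_desc hN]
  exact (isOpen_lt continuous_norm continuous_const).inter
    ((isOpen_lt continuous_const Complex.continuous_im).inter
    (isOpen_lt (Complex.continuous_im.mul continuous_const)
      (Complex.continuous_re.mul continuous_const)))

theorem sector_refl_front {N : ℕ} (hN : 1 ≤ N) {x : ℂ} (hx : x ∈ frontier (sector N)) :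
    ‖x‖ = 1 ∨ x.im = 0 ∨ x.im * Real.cos (Real.pi / N) = x.re * Real.sin (Real.pi / N) := by
  have hcl : closure (sector N) ⊆ {x : ℂ | ‖x‖ ≤ 1 ∧ 0 ≤ x.im ∧
      x.im * Real.cos (Real.pi / N) ≤ x.re * Real.sin (Real.pi / N)} := by
    refine closure_minimal ?_ ?_
    · rw [sector_refl_desc hN]
      intro x hx
      exact ⟨hx.1.le, hx.2.1.le, hx.2.2.le⟩
    · exact (isClosed_le continuous_norm continuous_const).inter
        ((isClosed_le continuous_const Complex.continuous_im).inter
        (isClosed_le (Complex.continuous_im.mul continuous_const)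
          (Complex.continuous_re.mul continuous_const)))
  have hx1 := hcl (frontier_subset_closure hx)
  have hx2 : x ∉ sector N := by
    intro h
    have := hx.2
    rw [(sector_refl_open hN).interior_eq] at this
    exact this h
  rw [sector_refl_desc hN] at hx2
  obtain ⟨a1, a2, a3⟩ := hx1
  by_contra hcon
  push Not at hcon
  exact hx2 ⟨lt_of_le_of_ne a1 hcon.1, lt_of_le_of_ne a2 (Ne.symm hcon.2.1),
    lt_of_le_of_ne a3 hcon.2.2⟩

theorem sector_refl_sum {f : ℕ → ℂ → ℝ} (hf : ∀ j, SC (f j)) (N : ℕ) :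
    SC (fun x => ∑ j ∈ Finset.range N, f j x) ∧
      ∀ x, la (fun x => ∑ j ∈ Finset.range N, f j x) x = ∑ j ∈ Finset.range N, la (f j) x := by
  have hz : SC (fun _ : ℂ => (0 : ℝ)) := ⟨contDiff_const, HasCompactSupport.zero⟩
  have hlz : ∀ x, la (fun _ : ℂ => (0 : ℝ)) x = 0 := by
    intro x
    have h1 : ∀ v, dd v (fun _ : ℂ => (0 : ℝ)) = fun _ => 0 := by
      intro v
      funext y
      unfold dd
      simp
    unfold la
    rw [h1, h1, h1, h1]
    simp
  induction N with
  | zero =>
    simp only [Finset.range_zero, Finset.sum_empty]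
    exact ⟨hz, hlz⟩
  | succ n ih =>
    simp only [Finset.sum_range_succ]
    refine ⟨ih.1.add (hf n), fun x => ?_⟩
    have hneg := tri_refl_sub hz (hf n)
    have h1 := (tri_refl_sub ih.1 hneg.1).2 x
    rw [hneg.2, hlz, ih.2] at h1
    have e : (fun x => ∑ j ∈ Finset.range n, f j x + f n x) =
        fun x => ∑ j ∈ Finset.range n, f j x - (0 - f n x) := by
      funext y
      ring
    rw [e, h1]
    ring

theorem sector_refl_inv {N : ℕ} {w : ℂ} (hw : w ^ N = 1) (φ : ℂ → ℝ) (y : ℂ) :
    ∑ j ∈ Finset.range N, φ (w ^ j * (w * y)) = ∑ j ∈ Finset.range N, φ (w ^ j * y) := by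
  have h1 := Finset.sum_range_succ (fun j => φ (w ^ j * y)) N
  have h2 := Finset.sum_range_succ' (fun j => φ (w ^ j * y)) N
  rw [h1] at h2
  simp only [hw, pow_zero] at h2
  have h3 : ∑ j ∈ Finset.range N, φ (w ^ j * (w * y)) =
      ∑ j ∈ Finset.range N, φ (w ^ (j + 1) * y) := by
    refine Finset.sum_congr rfl (fun j _ => ?_)
    congr 1
    ring
  rw [h3]
  linarith

theorem sector_refl_conjsum {N : ℕ} {w : ℂ} (hw : w ^ N = 1) (hw1 : ‖w‖ = 1) (φ : ℂ → ℝ) (y : ℂ) :
    ∑ j ∈ Finset.range N, φ (conj (w ^ j) * y) = ∑ j ∈ Finset.range N, φ (w ^ j * y) := by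
  rw [← sector_refl_inv hw, ← Finset.sum_range_reflect (fun j => φ (w ^ j * (w * y)))]
  refine Finset.sum_congr rfl (fun j hj => ?_)
  congr 1
  have hj' : j < N := Finset.mem_range.1 hj
  have hww : conj w * w = 1 := by
    rw [mul_comm, Complex.mul_conj, Complex.normSq_eq_norm_sq, hw1]
    simp
  have h1 : conj (w ^ j) * w ^ j = 1 := by
    rw [map_pow, ← mul_pow, hww, one_pow]
  have h2 : w ^ (N - 1 - j) * w * w ^ j = 1 := by
    rw [← pow_succ, ← pow_add]
    have : N - 1 - j + 1 + j = N := by omega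
    rw [this, hw]
  have hne : w ^ j ≠ 0 := by
    intro h
    rw [h, mul_zero] at h1
    exact zero_ne_one h1
  have h3 : conj (w ^ j) = w ^ (N - 1 - j) * w := mul_right_cancel₀ hne (h1.trans h2.symm)
  rw [h3]
  ring

/-- TARGET 3: odd reflection of eigenfunctions of a sector with angle π/N. -/
theorem sector_refl {N : ℕ} (hN : 1 ≤ N) {lam : ℝ} (hlam : 0 < lam) {u : ℂ → ℝ}
    (hu : Wat (sector N) lam u) :
    Wat (Metric.ball 0 1) lam (fun x => ∑ j ∈ Finset.range N,
      (u (Complex.exp (2 * Real.pi * Complex.I / N) ^ j * x) -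
        u (Complex.exp (2 * Real.pi * Complex.I / N) ^ j * conj x))) := by
  have hN0 : N ≠ 0 := by omega
  have hprim := Complex.isPrimitiveRoot_exp N hN0
  set w : ℂ := Complex.exp (2 * Real.pi * Complex.I / N) with hwd
  have hw : w ^ N = 1 := hprim.pow_eq_one
  have hw1 : ‖w‖ = 1 := hprim.norm'_eq_one hN0
  have hwj : ∀ j : ℕ, ‖w ^ j‖ = 1 := fun j => by rw [norm_pow, hw1, one_pow]
  have hDo := sector_refl_open hN
  have hsub : sector N ⊆ Metric.ball 0 1 := by
    rw [sector_refl_desc hN]
    intro x hx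
    rw [mem_ball_zero_iff]
    exact hx.1
  have hDb : Bornology.IsBounded (sector N) := Metric.isBounded_ball.subset hsub
  have hc1 : ∀ j : ℕ, Continuous fun x : ℂ => w ^ j * x := fun j => by fun_prop
  have hc2 : ∀ j : ℕ, Continuous fun x : ℂ => w ^ j * conj x := fun j => by fun_prop
  have hcont : Continuous (fun x => ∑ j ∈ Finset.range N, (u (w ^ j * x) - u (w ^ j * conj x))) :=
    continuous_finsetSum _ (fun j _ => (hu.cont.comp (hc1 j)).sub (hu.cont.comp (hc2 j)))
  have hn1 : ∀ (j : ℕ) (x : ℂ), ‖w ^ j * x‖ = ‖x‖ := fun j x => by rw [norm_mul, hwj, one_mul]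
  have hn2 : ∀ (j : ℕ) (x : ℂ), ‖w ^ j * conj x‖ = ‖x‖ := fun j x => by
    rw [norm_mul, hwj, one_mul, Complex.norm_conj]
  refine ⟨hcont, ?_, ?_⟩
  · intro x hx
    rw [mem_ball_zero_iff] at hx
    refine Finset.sum_eq_zero (fun j _ => ?_)
    rw [hu.out, hu.out, sub_zero]
    · intro h
      have := hsub h
      rw [mem_ball_zero_iff, hn2] at this
      exact hx this
    · intro h
      have := hsub h
      rw [mem_ball_zero_iff, hn1] at this
      exact hx this
  · refine reg Metric.isOpen_ball hlam hcont ?_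
    intro φ hφ hsu
    have hφ0 : ∀ x, ¬ ‖x‖ < 1 → φ x = 0 := fun x hx => by
      by_contra h
      have := hsu (subset_tsupport _ h)
      rw [mem_ball_zero_iff] at this
      exact hx this
    have hwc : ∀ j : ℕ, ‖(conj (w ^ j) : ℂ)‖ = 1 := fun j => by rw [Complex.norm_conj]; exact hwj j
    have p1 := fun j : ℕ => tri_refl_rot hφ (hwc j)
    have p2 := fun j : ℕ => tri_refl_rc hφ (hwj j)
    have p3 := fun j : ℕ => tri_refl_sub (p1 j).1 (p2 j).1
    obtain ⟨p4, p5⟩ := sector_refl_sum (fun j => (p3 j).1) N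
    have h0 : ∀ x ∈ frontier (sector N),
        ∑ j ∈ Finset.range N, (φ (conj (w ^ j) * x) - φ (w ^ j * conj x)) = 0 := by
      intro x hx
      rcases sector_refl_front hN hx with h | h | h
      · refine Finset.sum_eq_zero (fun j _ => ?_)
        rw [hφ0, hφ0, sub_zero]
        · rw [hn2, h]
          exact lt_irrefl _
        · rw [norm_mul, hwc, one_mul, h]
          exact lt_irrefl _
      · have hx' : conj x = x := Complex.conj_eq_iff_im.2 h
        rw [Finset.sum_sub_distrib, sector_refl_conjsum hw hw1, hx', sub_self]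
      · have hx' : w * conj x = x := by
          have hwre : w.re = Real.cos (2 * (Real.pi / N)) := by
            rw [hwd, show (2 * Real.pi * Complex.I / N : ℂ) =
              ((2 * (Real.pi / N) : ℝ) : ℂ) * Complex.I by push_cast; ring, Complex.exp_ofReal_mul_I_re]
          have hwim : w.im = Real.sin (2 * (Real.pi / N)) := by
            rw [hwd, show (2 * Real.pi * Complex.I / N : ℂ) =
              ((2 * (Real.pi / N) : ℝ) : ℂ) * Complex.I by push_cast; ring, Complex.exp_ofReal_mul_I_im]
          have hsc := Real.sin_sq_add_cos_sq (Real.pi / N)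
          apply Complex.ext
          · rw [Complex.mul_re, hwre, hwim, Complex.conj_re, Complex.conj_im, Real.cos_two_mul,
              Real.sin_two_mul]
            linear_combination (2 * Real.sin (Real.pi / N)) * h + (2 * x.re) * hsc
          · rw [Complex.mul_im, hwre, hwim, Complex.conj_re, Complex.conj_im, Real.cos_two_mul,
              Real.sin_two_mul]
            linear_combination (-2 * Real.cos (Real.pi / N)) * h
        rw [Finset.sum_sub_distrib, sector_refl_conjsum hw hw1]
        conv_lhs => 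
          lhs
          rw [← hx']
        rw [sector_refl_inv hw, sub_self]
    have hg := green_bdry hDo hDb hu p4 h0
    have i1 : ∀ j : ℕ, Integrable (fun x => u (w ^ j * x) * (la φ x + lam * φ x)) :=
      fun j : ℕ => tri_refl_ig (hu.cont.comp (hc1 j)) hφ lam
    have i2 : ∀ j : ℕ, Integrable (fun x => u (w ^ j * conj x) * (la φ x + lam * φ x)) :=
      fun j : ℕ => tri_refl_ig (hu.cont.comp (hc2 j)) hφ lam
    have i3 := fun j : ℕ => tri_refl_ig hu.cont (p1 j).1 lam
    have i4 := fun j : ℕ => tri_refl_ig hu.cont (p2 j).1 lam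
    have e1 : ∫ x, (∑ j ∈ Finset.range N, (u (w ^ j * x) - u (w ^ j * conj x))) *
        (la φ x + lam * φ x) = ∑ j ∈ Finset.range N,
          ((∫ x, u (w ^ j * x) * (la φ x + lam * φ x)) -
            ∫ x, u (w ^ j * conj x) * (la φ x + lam * φ x)) := by
      have e2 : ∀ j ∈ Finset.range N, ((∫ x, u (w ^ j * x) * (la φ x + lam * φ x)) -
            ∫ x, u (w ^ j * conj x) * (la φ x + lam * φ x)) =
          ∫ x, (u (w ^ j * x) * (la φ x + lam * φ x) - u (w ^ j * conj x) * (la φ x + lam * φ x)) :=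
        fun j _ => (integral_sub (i1 j) (i2 j)).symm
      have i5 : ∀ j : ℕ, Integrable (fun x => u (w ^ j * x) * (la φ x + lam * φ x) -
          u (w ^ j * conj x) * (la φ x + lam * φ x)) := fun j => (i1 j).sub (i2 j)
      rw [Finset.sum_congr rfl e2, ← integral_finsetSum _ (fun j _ => i5 j)]
      refine integral_congr_ae (Eventually.of_forall fun x => ?_)
      simp only
      rw [Finset.sum_mul]
      refine Finset.sum_congr rfl (fun j _ => ?_)
      ring
    rw [e1, ← hg]
    have e3 : ∀ j ∈ Finset.range N, ((∫ x, u (w ^ j * x) * (la φ x + lam * φ x)) -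
            ∫ x, u (w ^ j * conj x) * (la φ x + lam * φ x)) =
        ∫ x, (u x * (la (fun y => φ (conj (w ^ j) * y)) x + lam * φ (conj (w ^ j) * x)) -
          u x * (la (fun y => φ (w ^ j * conj y)) x + lam * φ (w ^ j * conj x))) := by
      intro j _
      rw [tri_refl_int1 hφ lam (hwj j), tri_refl_int2 hφ lam (hwj j), ← integral_sub (i3 j) (i4 j)]
    have i6 : ∀ j : ℕ, Integrable (fun x => u x * (la (fun y => φ (conj (w ^ j) * y)) x +
        lam * φ (conj (w ^ j) * x)) - u x * (la (fun y => φ (w ^ j * conj y)) x +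
        lam * φ (w ^ j * conj x))) := fun j => (i3 j).sub (i4 j)
    rw [Finset.sum_congr rfl e3, ← integral_finsetSum _ (fun j _ => i6 j)]
    refine integral_congr_ae (Eventually.of_forall fun x => ?_)
    simp only
    rw [p5, Finset.mul_sum, ← Finset.sum_add_distrib, Finset.mul_sum]
    refine Finset.sum_congr rfl (fun j _ => ?_)
    rw [(p3 j).2]
    ring

end Pool.Agent.Helper327_Drum
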