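import Pool.Agent.Helper327_Drum.EDefs
import Pool.Agent.Helper327_Drum.Fin.REF
import Pool.Agent.Helper327_Drum.Fin.AS2
import Pool.Agent.R227.SA18

/-
JOB HE1 (owner helper327, problem MP_d92c84_an). All imports are on origin/main.
-/

set_option autoImplicit false
open MeasureTheory Set Filter Topology ComplexConjugate
open scoped ContDiff InnerProductSpace

namespace Pool.Agent.Helper327_Drum

open Pool.Agent.TH298.Sch (dd SC Lr)
open Pool.Agent.R227.SA (la Wat Dat)

/-
`Wat D lam u` (R227/SA10.lean): u continuous, 0 off D, near each point of D equal to a smooth (SC) solution U of la U = -lam U.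
Plain proof of TARGET 1 (compare `tri_refl` in Fin/REF.lean): ũ x = u x - u (conj x) is continuous and 0 off D. For φ SC with tsupport φ ⊆ D: ∫ ũ (la φ + lam φ) = ∫ u (la ψ + lam ψ) with ψ x = φ x - φ (conj x)
(conj is a measure preserving isometry, la commutes with it), ψ is SC and ψ = 0 on frontier (D ∩ {0 < im}): such a point is on the real axis (there ψ = 0) or not in D (then conj x is not in D either,
and φ = 0 at both). `green_bdry` (Fin/REF.lean) gives 0; `reg` (Fin/F1.lean) on D gives the local smooth solutions.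
-/

theorem he1_gen {D : Set ℂ} (hDo : IsOpen D) (hDb : Bornology.IsBounded D) {e : ℂ} (he : ‖e‖ = 1)
    (hsym : ∀ x ∈ D, e * conj x ∈ D) {h : ℂ → ℝ} (hh : Continuous h)
    (hfix : ∀ x, h x = 0 → e * conj x = x) {lam : ℝ} (hlam : 0 < lam) {u : ℂ → ℝ}
    (hu : Wat (D ∩ {x | 0 < h x}) lam u) : Wat D lam (fun x => u x - u (e * conj x)) := by
  have hee : e * conj e = 1 := by
    rw [Complex.mul_conj, Complex.normSq_eq_norm_sq, he]
    simp
  have hinv : ∀ x : ℂ, e * conj (e * conj x) = x := by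
    intro x
    rw [map_mul, Complex.conj_conj, ← mul_assoc e, hee, one_mul]
  have hout : ∀ x : ℂ, x ∉ D → u x = 0 := fun x hx => hu.out x (fun h => hx h.1)
  have hswap : ∀ x : ℂ, x ∉ D → e * conj x ∉ D := by
    intro x hx h1
    apply hx
    have := hsym _ h1
    rwa [hinv] at this
  have hIc : Continuous fun x : ℂ => e * conj x := by fun_prop
  have hDHo : IsOpen (D ∩ {x | 0 < h x}) := hDo.inter (isOpen_lt continuous_const hh)
  have hcont : Continuous (fun x => u x - u (e * conj x)) := hu.cont.sub (hu.cont.comp hIc)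
  refine ⟨hcont, ?_, ?_⟩
  · intro x hx
    rw [hout x hx, hout _ (hswap x hx), sub_zero]
  · refine reg hDo hlam hcont ?_
    intro φ hφ hsu
    obtain ⟨q1, q2⟩ := tri_refl_rc hφ he
    obtain ⟨q3, q4⟩ := tri_refl_sub hφ q1
    have hφ0 : ∀ x, x ∉ D → φ x = 0 := fun x hx => by
      by_contra h
      exact hx (hsu (subset_tsupport _ h))
    have h0 : ∀ x ∈ frontier (D ∩ {x | 0 < h x}), φ x - φ (e * conj x) = 0 := by
      intro x hx
      have hcl : closure (D ∩ {x | 0 < h x}) ⊆ {x | 0 ≤ h x} := by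
        refine closure_minimal ?_ (isClosed_le continuous_const hh)
        intro y hy
        exact le_of_lt (show 0 < h y from hy.2)
      have hx1 : 0 ≤ h x := hcl (frontier_subset_closure hx)
      have hx2 : x ∉ D ∩ {x | 0 < h x} := by
        intro h
        have := hx.2
        rw [hDHo.interior_eq] at this
        exact this h
      by_cases hxD : x ∈ D
      · have hx3 : h x = 0 := by
          by_contra hne
          exact hx2 ⟨hxD, lt_of_le_of_ne hx1 (Ne.symm hne)⟩
        rw [hfix x hx3, sub_self]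
      · rw [hφ0 x hxD, hφ0 _ (hswap x hxD), sub_zero]
    have hg := green_bdry hDHo (hDb.subset inter_subset_left) hu q3 h0
    have i1 := tri_refl_ig hu.cont hφ lam
    have i2 : Integrable (fun x => u (e * conj x) * (la φ x + lam * φ x)) :=
      tri_refl_ig (hu.cont.comp hIc) hφ lam
    have i3 := tri_refl_ig hu.cont q1 lam
    have e1 : ∫ x, (u x - u (e * conj x)) * (la φ x + lam * φ x) =
        (∫ x, u x * (la φ x + lam * φ x)) -
          ∫ x, u (e * conj x) * (la φ x + lam * φ x) := by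
      rw [← integral_sub i1 i2]
      refine integral_congr_ae (Eventually.of_forall fun x => ?_)
      simp only
      ring
    rw [e1, tri_refl_int2 hφ lam he, ← integral_sub i1 i3, ← hg]
    refine integral_congr_ae (Eventually.of_forall fun x => ?_)
    simp only
    rw [q4]
    ring

theorem he1_restrict {D : Set ℂ} {lam : ℝ} {w : ℂ → ℝ} (hw : Wat D lam w) {s : ℂ → ℂ} {h : ℂ → ℝ}
    (hh : Continuous h) (hfix : ∀ x, h x = 0 → s x = x) (hodd : ∀ x, w (s x) = -w x) :
    Wat (D ∩ {x | 0 < h x}) lam ((D ∩ {x | 0 < h x}).indicator w) := by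
  have hDo : IsOpen D := by
    rw [Metric.isOpen_iff]
    intro x hx
    obtain ⟨r, hr, W, -, hb, -⟩ := hw.loc x hx
    exact ⟨r, hr, hb⟩
  have hHo : IsOpen {x | 0 < h x} := isOpen_lt continuous_const hh
  have hDHo : IsOpen (D ∩ {x | 0 < h x}) := hDo.inter hHo
  refine ⟨?_, fun x hx => indicator_of_notMem hx _, ?_⟩
  · refine continuous_indicator ?_ hw.cont.continuousOn
    intro x hx
    have hcl : closure (D ∩ {x | 0 < h x}) ⊆ {x | 0 ≤ h x} := by
      refine closure_minimal ?_ (isClosed_le continuous_const hh)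
      intro y hy
      exact le_of_lt (show 0 < h y from hy.2)
    have hx1 : 0 ≤ h x := hcl (frontier_subset_closure hx)
    have hx2 : x ∉ D ∩ {x | 0 < h x} := by
      intro h
      have := hx.2
      rw [hDHo.interior_eq] at this
      exact this h
    by_cases hxD : x ∈ D
    · have hx3 : h x = 0 := by
        by_contra hne
        exact hx2 ⟨hxD, lt_of_le_of_ne hx1 (Ne.symm hne)⟩
      have h1 := hodd x
      rw [hfix x hx3] at h1
      linarith
    · exact hw.out x hxD
  · intro x₀ hx₀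
    obtain ⟨r, hr, W, hW, hb, h1⟩ := hw.loc x₀ hx₀.1
    obtain ⟨r2, hr2, hb2⟩ := Metric.isOpen_iff.1 hHo x₀ hx₀.2
    have hsub1 : Metric.ball x₀ (min r r2) ⊆ Metric.ball x₀ r :=
      Metric.ball_subset_ball (min_le_left _ _)
    have hsub2 : Metric.ball x₀ (min r r2) ⊆ Metric.ball x₀ r2 :=
      Metric.ball_subset_ball (min_le_right _ _)
    refine ⟨min r r2, lt_min hr hr2, W, hW, fun x hx => ⟨hb (hsub1 hx), hb2 (hsub2 hx)⟩, ?_⟩
    intro x hx
    have hx3 : x ∈ D ∩ {x | 0 < h x} := ⟨hb (hsub1 hx), hb2 (hsub2 hx)⟩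
    rw [indicator_of_mem hx3]
    exact h1 x (hsub1 hx)

theorem he1_fd (s : ℂ ≃L[ℝ] ℂ) (u : ℂ → ℝ) (x v : ℂ) :
    fderiv ℝ (fun y => u (s y)) x v = fderiv ℝ u (s x) (s v) := by
  have := s.comp_right_fderiv (f := u) (x := x)
  change fderiv ℝ (u ∘ s) x v = _
  rw [this]
  rfl

theorem he1_fd_neg (u : ℂ → ℝ) (x v : ℂ) :
    fderiv ℝ (fun y => - u y) x v = - fderiv ℝ u x v := by
  rw [show (fun y => - u y) = -u from rfl, fderiv_neg]
  rfl

theorem he1_eop (s : ℂ ≃L[ℝ] ℂ) (c : ℝ) (hc : c * c = 1) (hs1 : ∀ y, s (Complex.I * y) = -(Complex.I * s y))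
    (hs2 : s 1 = c) (f lam : ℝ) (u : ℂ → ℝ) (x : ℂ) :
    eop f lam (fun y => u (s y)) x = eop f lam u (s x) := by
  have hL : ∀ v : ℂ → ℝ, Lr (fun y => v (s y)) = fun y => -(Lr v (s y)) := by
    intro v
    funext y
    unfold Lr
    rw [he1_fd, hs1, map_neg]
  have hLn : ∀ v : ℂ → ℝ, Lr (fun y => -(v y)) = fun y => -(Lr v y) := by
    intro v
    funext y
    unfold Lr
    rw [he1_fd_neg]
  have hd : ∀ v : ℂ → ℝ, dd 1 (fun y => v (s y)) = fun y => c * (dd 1 v (s y)) := by
    intro v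
    funext y
    unfold dd
    rw [he1_fd, hs2]
    rw [show (c : ℂ) = c • (1 : ℂ) by simp, map_smul, smul_eq_mul]
  have hdc : ∀ v : ℂ → ℝ, dd 1 (fun y => c * v y) = fun y => c * dd 1 v y := by
    intro v
    funext y
    unfold dd
    have : (fun y => c * v y) = c • v := rfl
    rw [this, fderiv_const_smul_field]
    rfl
  unfold eop
  have h1 : Lr (Lr (fun y => u (s y))) x = Lr (Lr u) (s x) := by
    rw [hL, hLn]
    simp only
    rw [hL]
    ring
  have h2 : dd 1 (dd 1 (fun y => u (s y))) x = dd 1 (dd 1 u) (s x) := by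
    rw [hd, hdc]
    simp only
    rw [hd]
    simp only
    rw [← mul_assoc, hc, one_mul]
  rw [h1, h2]

/-- TARGET 1: odd reflection in the real axis. -/
theorem half_refl {D : Set ℂ} (hDo : IsOpen D) (hDb : Bornology.IsBounded D)
    (hsym : ∀ x ∈ D, conj x ∈ D) {lam : ℝ} (hlam : 0 < lam) {u : ℂ → ℝ}
    (hu : Wat (D ∩ {x | 0 < x.im}) lam u) : Wat D lam (fun x => u x - u (conj x)) := by
  have := he1_gen hDo hDb (e := 1) (by simp) (by simpa using hsym) Complex.continuous_im
    (fun x hx => by rw [one_mul]; exact Complex.conj_eq_iff_im.2 hx) hlam hu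
  simpa only [one_mul] using this

/-- TARGET 2: odd reflection in the imaginary axis (the same with x ↦ -conj x; or from TARGET 1 by the rotation x ↦ I x, `wat_rot` in Fin/T5a.lean). -/
theorem half_refl_re {D : Set ℂ} (hDo : IsOpen D) (hDb : Bornology.IsBounded D)
    (hsym : ∀ x ∈ D, -conj x ∈ D) {lam : ℝ} (hlam : 0 < lam) {u : ℂ → ℝ}
    (hu : Wat (D ∩ {x | 0 < x.re}) lam u) : Wat D lam (fun x => u x - u (-conj x)) := by
  have := he1_gen hDo hDb (e := -1) (by simp) (by simpa using hsym) Complex.continuous_re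
    (fun x hx => by
      apply Complex.ext
      · simp [hx]
      · simp) hlam hu
  simpa only [neg_mul, one_mul] using this

/-- TARGET 3: restriction of odd solutions (continuity: w = 0 on the real axis since it is odd). -/
theorem half_restrict {D : Set ℂ} {lam : ℝ} {w : ℂ → ℝ} (hw : Wat D lam w)
    (hodd : ∀ x, w (conj x) = -w x) :
    Wat (D ∩ {x | 0 < x.im}) lam ((D ∩ {x | 0 < x.im}).indicator w) :=
  he1_restrict hw Complex.continuous_im (fun _ hx => Complex.conj_eq_iff_im.2 hx) hodd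

/-- TARGET 4 -/
theorem half_restrict_re {D : Set ℂ} {lam : ℝ} {w : ℂ → ℝ} (hw : Wat D lam w)
    (hodd : ∀ x, w (-conj x) = -w x) :
    Wat (D ∩ {x | 0 < x.re}) lam ((D ∩ {x | 0 < x.re}).indicator w) :=
  he1_restrict hw (s := fun x => -conj x) Complex.continuous_re (fun x hx => by
      apply Complex.ext
      · simp [hx]
      · simp) hodd

/-
`eop f lam u x = Lr (Lr u) x + f² dd 1 (dd 1 u) x + lam f²/2 u x` (EDefs.lean), `Lr φ x = fderiv ℝ φ x (I x)`, `dd h φ x = fderiv ℝ φ x h`. Both Lr ∘ Lr and dd 1 ∘ dd 1 are invariant under both reflections: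
with s x = conj x: Lr (u ∘ s) = -(Lr u) ∘ s, dd 1 (u ∘ s) = (dd 1 u) ∘ s; with s x = -conj x: Lr (u ∘ s) = -(Lr u) ∘ s, dd 1 (u ∘ s) = -(dd 1 u) ∘ s (no differentiability of u is needed: s is a linear
isometry, fderiv (u ∘ s) x = (fderiv u (s x)).comp s).
-/

/-- TARGET 5 -/
theorem eop_conj (f lam : ℝ) (u : ℂ → ℝ) (x : ℂ) :
    eop f lam (fun y => u (conj y)) x = eop f lam u (conj x) :=
  he1_eop Complex.conjCLE 1 (by norm_num) (by intro y; simp) (by simp) f lam u x

/-- TARGET 6 -/
theorem eop_neg_conj (f lam : ℝ) (u : ℂ → ℝ) (x : ℂ) :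
    eop f lam (fun y => u (-conj y)) x = eop f lam u (-conj x) :=
  he1_eop (Complex.conjCLE.trans (ContinuousLinearEquiv.neg ℝ)) (-1) (by norm_num)
    (by intro y; simp) (by simp) f lam u x

/-- TARGET 7 (for points where both functions are smooth) -/
theorem eop_sub (f lam : ℝ) {u v : ℂ → ℝ} {x : ℂ} (hu : ContDiffAt ℝ ∞ u x)
    (hv : ContDiffAt ℝ ∞ v x) :
    eop f lam (fun y => u y - v y) x = eop f lam u x - eop f lam v x := by
  have hev : ∀ {g : ℂ → ℝ}, ContDiffAt ℝ ∞ g x → ∀ᶠ y in 𝓝 x, DifferentiableAt ℝ g y := by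
    intro g hg
    have h1 : ContDiffAt ℝ 1 g x := hg.of_le (by exact_mod_cast le_top)
    filter_upwards [h1.eventually (by simp)] with y hy
    exact hy.differentiableAt (by norm_num)
  have hfd : ∀ {g : ℂ → ℝ}, ContDiffAt ℝ ∞ g x → DifferentiableAt ℝ (fderiv ℝ g) x := by
    intro g hg
    have h0 : ContDiffAt ℝ 2 g x := by exact_mod_cast contDiffAt_infty.1 hg 2
    have h1 : ContDiffAt ℝ 1 (fderiv ℝ g) x := h0.fderiv_right (by norm_num)
    exact h1.differentiableAt (by norm_num)
  have hL : Lr (fun y => u y - v y) =ᶠ[𝓝 x] fun y => Lr u y - Lr v y := by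
    filter_upwards [hev hu, hev hv] with y h1 h2
    unfold Lr
    rw [show (fun y => u y - v y) = u - v from rfl, fderiv_sub h1 h2]
    rfl
  have hd : dd 1 (fun y => u y - v y) =ᶠ[𝓝 x] fun y => dd 1 u y - dd 1 v y := by
    filter_upwards [hev hu, hev hv] with y h1 h2
    unfold dd
    rw [show (fun y => u y - v y) = u - v from rfl, fderiv_sub h1 h2]
    rfl
  have hLd : ∀ {g : ℂ → ℝ}, ContDiffAt ℝ ∞ g x → DifferentiableAt ℝ (Lr g) x := by
    intro g hg
    exact (hfd hg).clm_apply (by fun_prop)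
  have hdd : ∀ {g : ℂ → ℝ}, ContDiffAt ℝ ∞ g x → DifferentiableAt ℝ (dd 1 g) x := by
    intro g hg
    exact (hfd hg).clm_apply (by fun_prop)
  have h1 : Lr (Lr (fun y => u y - v y)) x = Lr (Lr u) x - Lr (Lr v) x := by
    change fderiv ℝ (Lr (fun y => u y - v y)) x (Complex.I * x) = _
    rw [hL.fderiv_eq]
    rw [show (fun y => Lr u y - Lr v y) = Lr u - Lr v from rfl, fderiv_sub (hLd hu) (hLd hv)]
    rfl
  have h2 : dd 1 (dd 1 (fun y => u y - v y)) x = dd 1 (dd 1 u) x - dd 1 (dd 1 v) x := by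
    change fderiv ℝ (dd 1 (fun y => u y - v y)) x 1 = _
    rw [hd.fderiv_eq]
    rw [show (fun y => dd 1 u y - dd 1 v y) = dd 1 u - dd 1 v from rfl, fderiv_sub (hdd hu) (hdd hv)]
    rfl
  unfold eop
  rw [h1, h2]
  ring

end Pool.Agent.Helper327_Drum
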