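import Mathlib

set_option autoImplicit false
open Set Filter Topology

namespace Pool.Agent.Helper327_Drum

open Polynomial in
/-- relatively prime polynomials have nonzero resultant -/
theorem res_ne_zero {P Q : ℂ[X][X]} (hP : P ≠ 0) (h : IsRelPrime P Q) :
    resultant P Q P.natDegree Q.natDegree ≠ 0 := by
  intro h0
  set K := FractionRing ℂ[X]
  have hinj : Function.Injective (algebraMap ℂ[X] K) := IsFractionRing.injective _ _
  have h1 : resultant (P.map (algebraMap ℂ[X] K)) (Q.map (algebraMap ℂ[X] K)) = 0 := by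
    rw [natDegree_map_eq_of_injective hinj, natDegree_map_eq_of_injective hinj,
      resultant_map_map, h0, map_zero]
  rw [resultant_eq_zero_iff] at h1
  have h2 := h1.2
  -- a common irreducible factor
  have h3 : ∃ g : K[X], Irreducible g ∧ g ∣ P.map (algebraMap ℂ[X] K) ∧
      g ∣ Q.map (algebraMap ℂ[X] K) := by
    by_contra hcon
    push Not at hcon
    apply h2
    apply isCoprime_of_irreducible_dvd
    · rintro ⟨hz, -⟩
      rw [Polynomial.map_eq_zero_iff hinj] at hz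
      exact hP hz
    · intro z hz hzP hzQ
      exact hcon z hz hzP hzQ
  obtain ⟨g, hg, hgP, hgQ⟩ := h3
  classical
  obtain ⟨b, hb, hbg⟩ := IsLocalization.integerNormalization_spec (nonZeroDivisors ℂ[X]) g
  set f := IsLocalization.integerNormalization (nonZeroDivisors ℂ[X]) g with hf
  have hb0 : algebraMap ℂ[X] K b ≠ 0 := by
    rw [Ne, map_eq_zero_iff _ hinj]
    exact nonZeroDivisors.ne_zero hb
  have hmap : f.map (algebraMap ℂ[X] K) = C (algebraMap ℂ[X] K b) * g := by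
    rw [hbg, Algebra.smul_def, Polynomial.algebraMap_apply]
  have hf0 : f ≠ 0 := by
    intro hz
    rw [hz, Polynomial.map_zero] at hmap
    have := mul_eq_zero.mp hmap.symm
    rcases this with h | h
    · exact hb0 (by simpa using h)
    · exact hg.ne_zero h
  have hprim := f.isPrimitive_primPart
  have hdvd : f.primPart.map (algebraMap ℂ[X] K) ∣ g := by
    have h5 : f.primPart.map (algebraMap ℂ[X] K) ∣ C (algebraMap ℂ[X] K b) * g := by
      rw [← hmap]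
      exact Polynomial.map_dvd _ f.primPart_dvd
    exact ((isUnit_C.mpr (isUnit_iff_ne_zero.mpr hb0)).dvd_mul_left).mp h5
  have hd1 : f.primPart ∣ P := hprim.dvd_of_fraction_map_dvd_fraction_map (hdvd.trans hgP)
  have hd2 : f.primPart ∣ Q := hprim.dvd_of_fraction_map_dvd_fraction_map (hdvd.trans hgQ)
  have hunit := h hd1 hd2
  have hdeg : f.natDegree = 0 := by
    rw [← natDegree_primPart]
    exact natDegree_eq_zero_of_isUnit hunit
  have hdeg2 : g.natDegree = 0 := by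
    have h6 := congrArg natDegree hmap
    rw [natDegree_map_eq_of_injective hinj, natDegree_C_mul hb0, hdeg] at h6
    exact h6.symm
  have h7 := hg.natDegree_pos
  omega

open Polynomial in
/-- relatively prime polynomials have finitely many common zeros -/
theorem finite_zeros {P Q : ℂ[X][X]} (hP : P ≠ 0) (h : IsRelPrime P Q) :
    {z : ℂ × ℂ | evalEval z.1 z.2 P = 0 ∧ evalEval z.1 z.2 Q = 0}.Finite := by
  classical
  -- the first coordinates
  obtain ⟨r, hr, hrz⟩ : ∃ r : ℂ[X], r ≠ 0 ∧ ∀ x y, evalEval x y P = 0 → evalEval x y Q = 0 →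
      r.eval x = 0 := by
    by_cases hd : P.natDegree ≠ 0 ∨ Q.natDegree ≠ 0
    · obtain ⟨p, q, -, -, hpq⟩ := exists_mul_add_mul_eq_C_resultant P Q le_rfl le_rfl hd
      refine ⟨_, res_ne_zero hP h, fun x y h1 h2 => ?_⟩
      have h3 := congrArg (evalEval x y) hpq
      rw [evalEval_add, evalEval_mul, evalEval_mul, h1, h2] at h3
      simpa [evalEval_C] using h3.symm
    · push Not at hd
      obtain ⟨hd1, -⟩ := hd
      rw [natDegree_eq_zero] at hd1
      obtain ⟨r, rfl⟩ := hd1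
      refine ⟨r, fun h => hP (by rw [h, C_0]), fun x y h1 _ => ?_⟩
      simpa [evalEval_C] using h1
  have hfib : ∀ x, {y | evalEval x y P = 0 ∧ evalEval x y Q = 0}.Finite := by
    intro x
    by_contra hinf
    have key : ∀ R : ℂ[X][X], (∀ y ∈ {y | evalEval x y P = 0 ∧ evalEval x y Q = 0},
        evalEval x y R = 0) → C (X - C x) ∣ R := by
      intro R hR
      have h1 : R.map (evalRingHom x) = 0 := by
        apply Polynomial.eq_zero_of_infinite_isRoot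
        refine Set.Infinite.mono ?_ hinf
        intro y hy
        have := hR y hy
        show eval y (R.map (evalRingHom x)) = 0
        rw [map_evalRingHom_eval]
        exact this
      rw [C_dvd_iff_dvd_coeff]
      intro i
      rw [dvd_iff_isRoot]
      have := congrArg (fun q => coeff q i) h1
      simpa using this
    have hu := h (key P fun y hy => hy.1) (key Q fun y hy => hy.2)
    rw [isUnit_C] at hu
    exact not_isUnit_X_sub_C x hu
  refine Set.Finite.subset (Set.Finite.biUnion (r.roots.toFinset.finite_toSet)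
    (fun x _ => (hfib x).image (fun y => (x, y)))) ?_
  rintro ⟨x, y⟩ ⟨h1, h2⟩
  simp only [Set.mem_iUnion]
  refine ⟨x, ?_, ⟨y, ⟨h1, h2⟩, rfl⟩⟩
  simp only [Finset.mem_coe, Multiset.mem_toFinset, mem_roots hr]
  exact hrz x y h1 h2

open Polynomial in
/-- coefficients of a bivariate polynomial -/
noncomputable def cf (G : ℂ[X][X]) (q : ℕ × ℕ) : ℂ := (G.coeff q.2).coeff q.1

open Polynomial in
/-- support of a bivariate polynomial -/
noncomputable def sp (G : ℂ[X][X]) : Finset (ℕ × ℕ) :=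
  G.support.biUnion fun j => (G.coeff j).support.image fun i => (i, j)

open Polynomial in
theorem mem_sp {G : ℂ[X][X]} {q : ℕ × ℕ} : q ∈ sp G ↔ cf G q ≠ 0 := by
  unfold sp cf
  simp only [Finset.mem_biUnion, Finset.mem_image, mem_support_iff]
  constructor
  · rintro ⟨j, _, i, hi, rfl⟩
    exact hi
  · intro h
    exact ⟨q.2, fun h0 => h (by rw [h0, coeff_zero]), q.1, h, rfl⟩

open Polynomial in
theorem eq_of_cf {G H : ℂ[X][X]} (h : ∀ q, cf G q = cf H q) : G = H := by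
  ext j i
  exact h (i, j)

open Polynomial in
theorem cf_mul_single {G H : ℂ[X][X]} {p1 p2 : ℕ × ℕ}
    (h : ∀ q1 q2, q1 + q2 = p1 + p2 → cf G q1 ≠ 0 → cf H q2 ≠ 0 → q1 = p1 ∧ q2 = p2) :
    cf (G * H) (p1 + p2) = cf G p1 * cf H p2 := by
  unfold cf
  rw [coeff_mul, finsetSum_coeff]
  rw [Finset.sum_eq_single (p1.2, p2.2)]
  · rw [coeff_mul]
    rw [Finset.sum_eq_single (p1.1, p2.1)]
    · rintro ⟨i1, i2⟩ hi hne
      have hi : i1 + i2 = (p1 + p2).1 := Finset.HasAntidiagonal.mem_antidiagonal.mp hi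
      by_contra hcon
      have := h (i1, p1.2) (i2, p2.2) (by ext <;> simp [hi]) (left_ne_zero_of_mul hcon)
        (right_ne_zero_of_mul hcon)
      apply hne
      rw [Prod.ext_iff, Prod.ext_iff] at this
      ext
      · exact this.1.1
      · exact this.2.1
    · intro hn
      exact absurd (by simp) hn
  · rintro ⟨j1, j2⟩ hj hne
    rw [coeff_mul]
    apply Finset.sum_eq_zero
    rintro ⟨i1, i2⟩ hi
    have hi : i1 + i2 = (p1 + p2).1 := Finset.HasAntidiagonal.mem_antidiagonal.mp hi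
    have hj : j1 + j2 = (p1 + p2).2 := Finset.HasAntidiagonal.mem_antidiagonal.mp hj
    by_contra hcon
    have := h (i1, j1) (i2, j2) (by ext <;> simp [hi, hj]) (left_ne_zero_of_mul hcon)
        (right_ne_zero_of_mul hcon)
    apply hne
    rw [Prod.ext_iff, Prod.ext_iff] at this
    ext
    · exact this.1.2
    · exact this.2.2
  · intro hn
    exact absurd (by simp) hn

/-- the linear functional -/
noncomputable def lf (e : ℝ × ℝ) (q : ℕ × ℕ) : ℝ := e.1 * q.1 + e.2 * q.2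

theorem lf_add (e : ℝ × ℝ) (p q : ℕ × ℕ) : lf e (p + q) = lf e p + lf e q := by
  unfold lf
  push_cast [Prod.fst_add, Prod.snd_add]
  ring

open Polynomial in
/-- if the face of `G` has two points, so has the face of a nonzero multiple -/
theorem two_max {G H : ℂ[X][X]} (e : ℝ × ℝ) {p p' : ℕ × ℕ} (hp : p ∈ sp G) (hp' : p' ∈ sp G)
    (hne : p ≠ p') (hmax : ∀ q ∈ sp G, lf e q ≤ lf e p) (heq : lf e p' = lf e p) (hH : H ≠ 0) :
    ∃ r r', r ≠ r' ∧ r ∈ sp (G * H) ∧ r' ∈ sp (G * H) ∧ lf e r' = lf e r ∧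
      ∀ s ∈ sp (G * H), lf e s ≤ lf e r := by
  classical
  -- the maximum on `H`
  have hHn : (sp H).Nonempty := by
    by_contra hcon
    rw [Finset.not_nonempty_iff_eq_empty] at hcon
    apply hH
    apply eq_of_cf
    intro q
    have : q ∉ sp H := by rw [hcon]; simp
    rw [mem_sp, not_not] at this
    rw [this]
    simp [cf]
  obtain ⟨t, ht, htmax⟩ := Finset.exists_max_image (sp H) (lf e) hHn
  set A := (sp G).filter fun q => lf e q = lf e p with hA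
  set B := (sp H).filter fun q => lf e q = lf e t with hB
  have hpA : p ∈ A := by simp [hA, hp]
  have hp'A : p' ∈ A := by simp [hA, hp', heq]
  have htB : t ∈ B := by simp [hB, ht]
  have hcard : 1 < A.card * B.card := by
    have h1 : 1 < A.card := Finset.one_lt_card.mpr ⟨p, hpA, p', hp'A, hne⟩
    have h2 : 0 < B.card := Finset.card_pos.mpr ⟨t, htB⟩
    nlinarith
  obtain ⟨a, ha, b, hb, hab, hua, hub⟩ := TwoUniqueSums.uniqueAdd_of_one_lt_card hcard
  have hupper : ∀ s ∈ sp (G * H), lf e s ≤ lf e p + lf e t := by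
    intro s hs
    by_contra hcon
    push Not at hcon
    rw [mem_sp] at hs
    apply hs
    unfold cf
    rw [coeff_mul, finsetSum_coeff]
    apply Finset.sum_eq_zero
    rintro ⟨j1, j2⟩ hj
    rw [coeff_mul]
    apply Finset.sum_eq_zero
    rintro ⟨i1, i2⟩ hi
    have hi : i1 + i2 = s.1 := Finset.HasAntidiagonal.mem_antidiagonal.mp hi
    have hj : j1 + j2 = s.2 := Finset.HasAntidiagonal.mem_antidiagonal.mp hj
    by_contra hz
    have h1 : (i1, j1) ∈ sp G := mem_sp.mpr (left_ne_zero_of_mul hz)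
    have h2 : (i2, j2) ∈ sp H := mem_sp.mpr (right_ne_zero_of_mul hz)
    have h3 := hmax _ h1
    have h4 := htmax _ h2
    have h5 : s = (i1, j1) + (i2, j2) := by ext <;> simp [hi, hj]
    rw [h5, lf_add] at hcon
    linarith
  have main : ∀ c ∈ A ×ˢ B, UniqueAdd A B c.1 c.2 →
      c.1 + c.2 ∈ sp (G * H) ∧ lf e (c.1 + c.2) = lf e p + lf e t := by
    rintro ⟨c1, c2⟩ hc hu
    rw [Finset.mem_product] at hc
    obtain ⟨hc1, hc2⟩ := hc
    simp only [hA, hB, Finset.mem_filter] at hc1 hc2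
    have hsum : lf e (c1 + c2) = lf e p + lf e t := by rw [lf_add, hc1.2, hc2.2]
    refine ⟨?_, hsum⟩
    rw [mem_sp]
    show cf (G * H) (c1 + c2) ≠ 0
    rw [cf_mul_single]
    · exact mul_ne_zero (mem_sp.mp hc1.1) (mem_sp.mp hc2.1)
    · intro q1 q2 hq h1 h2
      have h3 := hmax q1 (mem_sp.mpr h1)
      have h4 := htmax q2 (mem_sp.mpr h2)
      have h5 : lf e q1 + lf e q2 = lf e p + lf e t := by rw [← lf_add, hq, hsum]
      have h6 : q1 ∈ A := by
        simp only [hA, Finset.mem_filter]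
        exact ⟨mem_sp.mpr h1, by linarith⟩
      have h7 : q2 ∈ B := by
        simp only [hB, Finset.mem_filter]
        exact ⟨mem_sp.mpr h2, by linarith⟩
      exact hu h6 h7 hq
  have hm1 := main a ha hua
  have hm2 := main b hb hub
  refine ⟨a.1 + a.2, b.1 + b.2, ?_, hm1.1, hm2.1, by rw [hm1.2, hm2.2], fun s hs => ?_⟩
  · intro heq2
    rw [Finset.mem_product] at ha hb
    have := hua hb.1 hb.2 heq2.symm
    apply hab
    ext1
    · exact this.1.symm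
    · exact this.2.symm
  · rw [hm1.2]
    exact hupper s hs

/-- a direction in which the face has two points -/
theorem exists_edge {T : Finset (ℕ × ℕ)} (hT : 1 < T.card) :
    ∃ e : ℝ × ℝ, e ≠ 0 ∧ ∃ p ∈ T, ∃ p' ∈ T, p ≠ p' ∧ lf e p' = lf e p ∧
      ∀ q ∈ T, lf e q ≤ lf e p := by
  classical
  have hne : T.Nonempty := Finset.card_pos.mp (by omega)
  obtain ⟨p, hp, hpmax⟩ := Finset.exists_max_image T (fun q => q.1) hne
  by_cases h : ∃ p' ∈ T, p' ≠ p ∧ p'.1 = p.1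
  · obtain ⟨p', hp', hpp', h1⟩ := h
    refine ⟨(1, 0), by simp, p, hp, p', hp', hpp'.symm, by simp [lf, h1], fun q hq => ?_⟩
    have := hpmax q hq
    simp only [lf, one_mul, zero_mul, add_zero]
    exact_mod_cast this
  · push Not at h
    have hlt : ∀ q ∈ T.erase p, (q.1 : ℝ) < p.1 := by
      intro q hq
      rw [Finset.mem_erase] at hq
      have h1 := hpmax q hq.2
      have h2 := h q hq.2 hq.1
      have h3 : q.1 < p.1 := lt_of_le_of_ne h1 h2
      exact_mod_cast h3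
    have hne2 : (T.erase p).Nonempty := by
      apply Finset.card_pos.mp
      rw [Finset.card_erase_of_mem hp]
      omega
    obtain ⟨q, hq, hqmax⟩ := Finset.exists_max_image (T.erase p)
      (fun q => ((q.2 : ℝ) - p.2) / (p.1 - q.1)) hne2
    set s : ℝ := ((q.2 : ℝ) - p.2) / (p.1 - q.1) with hs
    refine ⟨(s, 1), by simp, p, hp, q, Finset.mem_of_mem_erase hq,
      (Finset.ne_of_mem_erase hq).symm, ?_, fun r hr => ?_⟩
    · have h1 := hlt q hq
      have h2 : (p.1 : ℝ) - q.1 ≠ 0 := by linarith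
      have h3 : s * (p.1 - q.1) = (q.2 : ℝ) - p.2 := by rw [hs]; field_simp
      simp only [lf, one_mul]
      linarith
    · by_cases hrp : r = p
      · rw [hrp]
      · have hr' : r ∈ T.erase p := Finset.mem_erase.mpr ⟨hrp, hr⟩
        have h1 := hlt r hr'
        have h2 := hqmax r hr'
        have h2' : ((r.2 : ℝ) - p.2) / (p.1 - r.1) ≤ s := h2
        rw [div_le_iff₀ (by linarith)] at h2'
        simp only [lf, one_mul]
        linarith

section Drum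

/-- the coefficient of the exponential with frequency `ξ` -/
noncomputable def cc (A : ℕ × ℕ → ℝ) (ξ : ℤ × ℤ) : ℝ :=
  (ξ.1.sign * ξ.2.sign : ℤ) * A (ξ.1.natAbs, ξ.2.natAbs)

/-- the frequencies -/
noncomputable def FF (N : ℕ) (S : Finset (ℕ × ℕ)) : Finset (ℤ × ℤ) :=
  ((Finset.Icc (-(N : ℤ)) N) ×ˢ (Finset.Icc (-(N : ℤ)) N)).filter
    fun ξ => (ξ.1.natAbs, ξ.2.natAbs) ∈ S

/-- the pairing -/
def pr (v : ℝ × ℝ) (ξ : ℤ × ℤ) : ℝ := v.1 * ξ.1 + v.2 * ξ.2

open Polynomial in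
/-- derivative in the direction `v`, as a polynomial -/
noncomputable def VV (N : ℕ) (S : Finset (ℕ × ℕ)) (A : ℕ × ℕ → ℝ) (v : ℝ × ℝ) : ℂ[X][X] :=
  ∑ ξ ∈ FF N S, monomial (N + ξ.2).toNat (monomial (N + ξ.1).toNat ((cc A ξ * pr v ξ : ℝ) : ℂ))

theorem mem_FF {N : ℕ} {S : Finset (ℕ × ℕ)} (hN : ∀ p ∈ S, p.1 ≤ N ∧ p.2 ≤ N) {ξ : ℤ × ℤ} :
    ξ ∈ FF N S ↔ (ξ.1.natAbs, ξ.2.natAbs) ∈ S := by
  unfold FF
  rw [Finset.mem_filter, Finset.mem_product, Finset.mem_Icc, Finset.mem_Icc]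
  constructor
  · exact fun h => h.2
  · intro h
    have := hN _ h
    refine ⟨?_, h⟩
    simp only at this
    omega

open Polynomial in
theorem cf_VV {N : ℕ} {S : Finset (ℕ × ℕ)} (hN : ∀ p ∈ S, p.1 ≤ N ∧ p.2 ≤ N) (A : ℕ × ℕ → ℝ)
    (v : ℝ × ℝ) (q : ℕ × ℕ) :
    cf (VV N S A v) q = if ((q.1 : ℤ) - N, (q.2 : ℤ) - N) ∈ FF N S then
      ((cc A ((q.1 : ℤ) - N, (q.2 : ℤ) - N) * pr v ((q.1 : ℤ) - N, (q.2 : ℤ) - N) : ℝ) : ℂ)
      else 0 := by
  classical
  unfold cf VV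
  rw [finsetSum_coeff, finsetSum_coeff]
  have h1 : ∀ ξ ∈ FF N S, ((monomial (N + ξ.2).toNat (monomial (N + ξ.1).toNat
      ((cc A ξ * pr v ξ : ℝ) : ℂ))).coeff q.2).coeff q.1 =
      if ξ = ((q.1 : ℤ) - N, (q.2 : ℤ) - N) then ((cc A ξ * pr v ξ : ℝ) : ℂ) else 0 := by
    intro ξ hξ
    rw [mem_FF hN] at hξ
    have h2 := hN _ hξ
    simp only at h2
    rw [coeff_monomial]
    by_cases h3 : ξ = ((q.1 : ℤ) - N, (q.2 : ℤ) - N)
    · rw [if_pos h3]
      have h4 : ξ.1 = (q.1 : ℤ) - N := by rw [h3]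
      have h5 : ξ.2 = (q.2 : ℤ) - N := by rw [h3]
      rw [if_pos (by omega), coeff_monomial, if_pos (by omega)]
    · rw [if_neg h3]
      split_ifs with h4
      · rw [coeff_monomial, if_neg]
        intro h5
        apply h3
        ext
        · simp only
          omega
        · simp only
          omega
      · rw [coeff_zero]
  rw [Finset.sum_congr rfl h1, Finset.sum_ite_eq']

theorem lf_shift (N : ℕ) (e : ℝ × ℝ) (q : ℕ × ℕ) :
    lf e q = pr e ((q.1 : ℤ) - N, (q.2 : ℤ) - N) + (e.1 * N + e.2 * N) := by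
  unfold lf pr
  push_cast
  ring

open Polynomial in
theorem VV_lin (N : ℕ) (S : Finset (ℕ × ℕ)) (A : ℕ × ℕ → ℝ) (v : ℝ × ℝ) :
    VV N S A v = C (C (v.1 : ℂ)) * VV N S A (1, 0) + C (C (v.2 : ℂ)) * VV N S A (0, 1) := by
  unfold VV
  rw [Finset.mul_sum, Finset.mul_sum, ← Finset.sum_add_distrib]
  apply Finset.sum_congr rfl
  intro ξ _
  rw [C_mul_monomial, C_mul_monomial, C_mul_monomial, C_mul_monomial, ← map_add, ← map_add]
  congr 2
  unfold pr
  push_cast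
  ring

/-- three points of an ellipse are not on a line -/
theorem ell_line {α β Λ M : ℝ} (hα : 0 < α) (hβ : 0 < β) {e : ℝ × ℝ} (he : e ≠ 0)
    {x y z : ℤ × ℤ} (hx : α * x.1 ^ 2 + β * x.2 ^ 2 = Λ) (hy : α * y.1 ^ 2 + β * y.2 ^ 2 = Λ)
    (hz : α * z.1 ^ 2 + β * z.2 ^ 2 = Λ) (ex : pr e x = M) (ey : pr e y = M) (ez : pr e z = M)
    (hxy : y ≠ x) (hzx : z ≠ x) : z = y := by
  unfold pr at ex ey ez
  -- direction vector
  set τ : ℝ × ℝ := (-e.2, e.1) with hτ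
  have he2 : 0 < e.1 ^ 2 + e.2 ^ 2 := by
    have : e.1 ≠ 0 ∨ e.2 ≠ 0 := by
      by_contra hcon
      push Not at hcon
      exact he (Prod.ext hcon.1 hcon.2)
    rcases this with h | h
    · positivity
    · positivity
  have par : ∀ w : ℤ × ℤ, e.1 * w.1 + e.2 * w.2 = M → ∃ t : ℝ,
      (w.1 : ℝ) = x.1 - t * e.2 ∧ (w.2 : ℝ) = x.2 + t * e.1 := by
    intro w hw
    refine ⟨(-(e.2 * (w.1 - x.1)) + e.1 * (w.2 - x.2)) / (e.1 ^ 2 + e.2 ^ 2), ?_, ?_⟩
    · field_simp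
      linear_combination (e.1) * (hw - ex)
    · field_simp
      linear_combination (e.2) * (hw - ex)
  obtain ⟨s, hs1, hs2⟩ := par y ey
  obtain ⟨t, ht1, ht2⟩ := par z ez
  have hq : 0 < α * e.2 ^ 2 + β * e.1 ^ 2 := by
    have : e.1 ≠ 0 ∨ e.2 ≠ 0 := by
      by_contra hcon
      push Not at hcon
      exact he (Prod.ext hcon.1 hcon.2)
    rcases this with h | h
    · positivity
    · positivity
  have hs0 : s ≠ 0 := by
    rintro rfl
    apply hxy
    ext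
    · exact_mod_cast (by linarith : (y.1 : ℝ) = x.1)
    · exact_mod_cast (by linarith : (y.2 : ℝ) = x.2)
  have ht0 : t ≠ 0 := by
    rintro rfl
    apply hzx
    ext
    · exact_mod_cast (by linarith : (z.1 : ℝ) = x.1)
    · exact_mod_cast (by linarith : (z.2 : ℝ) = x.2)
  set B : ℝ := -(α * x.1 * e.2) + β * x.2 * e.1 with hB
  have hs3 : s * (2 * B + s * (α * e.2 ^ 2 + β * e.1 ^ 2)) = 0 := by
    rw [hs1, hs2] at hy
    rw [hB]
    linear_combination hy - hx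
  have ht3 : t * (2 * B + t * (α * e.2 ^ 2 + β * e.1 ^ 2)) = 0 := by
    rw [ht1, ht2] at hz
    rw [hB]
    linear_combination hz - hx
  have hs4 := (mul_eq_zero.mp hs3).resolve_left hs0
  have ht4 := (mul_eq_zero.mp ht3).resolve_left ht0
  have hst : s = t := by
    have : (s - t) * (α * e.2 ^ 2 + β * e.1 ^ 2) = 0 := by linarith
    rcases mul_eq_zero.mp this with h | h
    · linarith
    · exact absurd h hq.ne'
  ext
  · exact_mod_cast (by rw [ht1, hs1, hst] : (z.1 : ℝ) = y.1)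
  · exact_mod_cast (by rw [ht2, hs2, hst] : (z.2 : ℝ) = y.2)

/-- the key step: a common factor of the two derivatives has at most one monomial -/
theorem no_factor {α β Λ : ℝ} (hα : 0 < α) (hβ : 0 < β) {N : ℕ} {S : Finset (ℕ × ℕ)}
    (hN : ∀ p ∈ S, p.1 ≤ N ∧ p.2 ≤ N) (hS : ∀ p ∈ S, 1 ≤ p.1 ∧ 1 ≤ p.2)
    (hΛ : ∀ p ∈ S, α * (p.1 : ℝ) ^ 2 + β * (p.2 : ℝ) ^ 2 = Λ) {A : ℕ × ℕ → ℝ}
    (hA : ∃ p ∈ S, A p ≠ 0) {G : Polynomial (Polynomial ℂ)} (h1 : G ∣ VV N S A (1, 0))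
    (h2 : G ∣ VV N S A (0, 1)) : (sp G).card ≤ 1 := by
  classical
  by_contra hcon
  push Not at hcon
  obtain ⟨e, he, p, hp, p', hp', hpp', heq, hmax⟩ := exists_edge hcon
  -- effective frequencies
  set E := (FF N S).filter fun ξ => cc A ξ ≠ 0 with hE
  have memE : ∀ ξ : ℤ × ℤ, ξ ∈ E ↔ (ξ.1.natAbs, ξ.2.natAbs) ∈ S ∧ A (ξ.1.natAbs, ξ.2.natAbs) ≠ 0 := by
    intro ξ
    rw [hE, Finset.mem_filter, mem_FF hN]
    constructor
    · rintro ⟨h3, h4⟩
      exact ⟨h3, right_ne_zero_of_mul h4⟩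
    · rintro ⟨h3, h4⟩
      refine ⟨h3, mul_ne_zero ?_ h4⟩
      have h5 := hS _ h3
      simp only at h5
      have h6 : ξ.1 ≠ 0 := by
        intro h; rw [h] at h5; simp at h5
      have h7 : ξ.2 ≠ 0 := by
        intro h; rw [h] at h5; simp at h5
      have h8 : ξ.1.sign ≠ 0 := by simpa using h6
      have h9 : ξ.2.sign ≠ 0 := by simpa using h7
      exact_mod_cast mul_ne_zero h8 h9
  obtain ⟨p0, hp0, hAp0⟩ := hA
  have hEne : E.Nonempty := ⟨((p0.1 : ℤ), (p0.2 : ℤ)), by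
    rw [memE]
    simpa using ⟨hp0, hAp0⟩⟩
  obtain ⟨x, hx, hxmax⟩ := Finset.exists_max_image E (pr e) hEne
  -- positivity of the maximum
  have hM : 0 < pr e x := by
    by_contra hneg
    push Not at hneg
    have hpos := hS p0 hp0
    have k1 := hxmax ((p0.1 : ℤ), (p0.2 : ℤ)) (by rw [memE]; simpa using ⟨hp0, hAp0⟩)
    have k2 := hxmax ((p0.1 : ℤ), -(p0.2 : ℤ)) (by rw [memE]; simpa using ⟨hp0, hAp0⟩)
    have k3 := hxmax (-(p0.1 : ℤ), (p0.2 : ℤ)) (by rw [memE]; simpa using ⟨hp0, hAp0⟩)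
    have k4 := hxmax (-(p0.1 : ℤ), -(p0.2 : ℤ)) (by rw [memE]; simpa using ⟨hp0, hAp0⟩)
    unfold pr at k1 k2 k3 k4 hneg
    push_cast at k1 k2 k3 k4
    have m1 : (1 : ℝ) ≤ p0.1 := by exact_mod_cast hpos.1
    have m2 : (1 : ℝ) ≤ p0.2 := by exact_mod_cast hpos.2
    have e1 : e.1 * p0.1 = 0 := by linarith
    have e2 : e.2 * p0.2 = 0 := by linarith
    apply he
    ext
    · exact (mul_eq_zero.mp e1).resolve_right (by linarith)
    · exact (mul_eq_zero.mp e2).resolve_right (by linarith)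
  have hell : ∀ ξ ∈ E, α * (ξ.1 : ℝ) ^ 2 + β * (ξ.2 : ℝ) ^ 2 = Λ := by
    intro ξ hξ
    rw [memE] at hξ
    have h3 := hΛ _ hξ.1
    simp only [Nat.cast_natAbs, Int.cast_abs, sq_abs] at h3
    exact h3
  -- the direction `v`
  obtain ⟨v, hvx, hv⟩ : ∃ v : ℝ × ℝ, pr v x ≠ 0 ∧
      ∀ ξ ∈ E, pr e ξ = pr e x → pr v ξ ≠ 0 → ξ = x := by
    by_cases hex : ∃ y ∈ E, y ≠ x ∧ pr e y = pr e x
    · obtain ⟨y, hy, hyx, hye⟩ := hex
      refine ⟨(-(y.2 : ℝ), (y.1 : ℝ)), ?_, ?_⟩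
      · intro h0
        unfold pr at h0 hye hM
        simp only at h0
        -- det = 0
        have hdet : (x.2 : ℝ) * y.1 = y.2 * x.1 := by linarith
        apply hyx
        have q1 : (e.1 * x.1 + e.2 * x.2) * y.1 = (e.1 * x.1 + e.2 * x.2) * (x.1 : ℝ) := by
          calc (e.1 * x.1 + e.2 * x.2) * (y.1 : ℝ) = e.1 * x.1 * y.1 + e.2 * (x.2 * y.1) := by ring
            _ = e.1 * x.1 * y.1 + e.2 * (y.2 * x.1) := by rw [hdet]
            _ = (e.1 * y.1 + e.2 * y.2) * x.1 := by ring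
            _ = _ := by rw [hye]
        have q2 : (e.1 * x.1 + e.2 * x.2) * y.2 = (e.1 * x.1 + e.2 * x.2) * (x.2 : ℝ) := by
          calc (e.1 * x.1 + e.2 * x.2) * (y.2 : ℝ) = e.1 * (y.2 * x.1) + e.2 * x.2 * y.2 := by ring
            _ = e.1 * (x.2 * y.1) + e.2 * x.2 * y.2 := by rw [hdet]
            _ = (e.1 * y.1 + e.2 * y.2) * x.2 := by ring
            _ = _ := by rw [hye]
        ext
        · exact_mod_cast mul_left_cancel₀ hM.ne' q1
        · exact_mod_cast mul_left_cancel₀ hM.ne' q2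
      · intro ξ hξ hξe hξv
        by_contra hne
        have := ell_line hα hβ he (hell x hx) (hell y hy) (hell ξ hξ) rfl hye hξe hyx hne
        apply hξv
        rw [this]
        unfold pr
        simp only
        ring
    · push Not at hex
      refine ⟨((x.1 : ℝ), (x.2 : ℝ)), ?_, ?_⟩
      · have hx0 : x.1 ≠ 0 := by
          rw [memE] at hx
          have := hS _ hx.1
          simp only at this
          omega
        have hx0' : (x.1 : ℝ) ≠ 0 := by exact_mod_cast hx0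
        unfold pr
        simp only
        have h5 : 0 < (x.1 : ℝ) * x.1 := mul_self_pos.mpr hx0'
        have h6 : 0 ≤ (x.2 : ℝ) * x.2 := mul_self_nonneg _
        linarith
      · intro ξ hξ hξe _
        by_contra hne
        exact hex ξ hξ hne hξe
  -- the divisor
  have hdvd : G ∣ VV N S A v := by
    rw [VV_lin]
    exact dvd_add (Dvd.dvd.mul_left h1 _) (Dvd.dvd.mul_left h2 _)
  obtain ⟨H, hH⟩ := hdvd
  have hxN := (mem_FF hN).mp (Finset.mem_of_mem_filter x hx)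
  have hxb := hN _ hxN
  simp only at hxb
  -- the support of `VV`
  have hsup : ∀ q, q ∈ sp (VV N S A v) →
      ((q.1 : ℤ) - N, (q.2 : ℤ) - N) ∈ E ∧ pr v ((q.1 : ℤ) - N, (q.2 : ℤ) - N) ≠ 0 := by
    intro q hq
    rw [mem_sp, cf_VV hN] at hq
    split_ifs at hq with h3
    · have h4 : cc A ((q.1 : ℤ) - N, (q.2 : ℤ) - N) * pr v ((q.1 : ℤ) - N, (q.2 : ℤ) - N) ≠ 0 := by
        exact_mod_cast hq
      refine ⟨?_, right_ne_zero_of_mul h4⟩
      rw [hE, Finset.mem_filter]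
      exact ⟨h3, left_ne_zero_of_mul h4⟩
    · exact absurd rfl hq
  have hxsp : (((x.1 + N).toNat, (x.2 + N).toNat) : ℕ × ℕ) ∈ sp (VV N S A v) := by
    rw [mem_sp, cf_VV hN]
    have h3 : (((((x.1 + N).toNat : ℕ) : ℤ) - N, (((x.2 + N).toNat : ℕ) : ℤ) - N) : ℤ × ℤ) = x := by
      ext
      · simp only
        omega
      · simp only
        omega
    simp only
    rw [h3, if_pos (Finset.mem_of_mem_filter x hx)]
    have h4 : cc A x ≠ 0 := (Finset.mem_filter.mp hx).2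
    exact_mod_cast mul_ne_zero h4 hvx
  have hV0 : VV N S A v ≠ 0 := by
    intro h0
    rw [h0, mem_sp] at hxsp
    simp [cf] at hxsp
  have hH0 : H ≠ 0 := by
    rintro rfl
    rw [mul_zero] at hH
    exact hV0 hH
  obtain ⟨r, r', hrr', hr, hr', hre, hrmax⟩ := two_max e hp hp' hpp' hmax heq hH0
  rw [← hH] at hr hr' hrmax
  have top : ∀ s, s ∈ sp (VV N S A v) → lf e s = lf e r →
      ((s.1 : ℤ) - N, (s.2 : ℤ) - N) = x := by
    intro s hs hse
    obtain ⟨hsE, hsv⟩ := hsup s hs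
    apply hv _ hsE _ hsv
    apply le_antisymm (hxmax _ hsE)
    have h3 := hrmax _ hxsp
    rw [← hse, lf_shift N, lf_shift N] at h3
    have h4 : (((((x.1 + N).toNat : ℕ) : ℤ) - N, (((x.2 + N).toNat : ℕ) : ℤ) - N) : ℤ × ℤ) = x := by
      ext
      · simp only
        omega
      · simp only
        omega
    simp only at h3
    rw [h4] at h3
    linarith
  have e1 := top r hr rfl
  have e2 := top r' hr' hre
  rw [← e2] at e1
  apply hrr'
  have e3 := congrArg Prod.fst e1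
  have e4 := congrArg Prod.snd e1
  simp only at e3 e4
  ext
  · omega
  · omega

open Complex in
theorem four_cos (P Q : ℂ) : exp (I * (P + Q)) - exp (I * (P - Q)) + exp (I * (-P + Q)) -
    exp (I * (-P - Q)) = 4 * I * (cos P * sin Q) := by
  have e1 : exp (I * (P + Q)) = exp (P * I) * exp (Q * I) := by rw [← exp_add]; congr 1; ring
  have e2 : exp (I * (P - Q)) = exp (P * I) * exp (-Q * I) := by rw [← exp_add]; congr 1; ring
  have e3 : exp (I * (-P + Q)) = exp (-P * I) * exp (Q * I) := by rw [← exp_add]; congr 1; ring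
  have e4 : exp (I * (-P - Q)) = exp (-P * I) * exp (-Q * I) := by rw [← exp_add]; congr 1; ring
  rw [e1, e2, e3, e4, Complex.cos, Complex.sin]
  linear_combination ((exp (P * I) * exp (Q * I) - exp (P * I) * exp (-Q * I) +
    exp (-P * I) * exp (Q * I) - exp (-P * I) * exp (-Q * I))) * I_sq

open Complex in
theorem four_sin (P Q : ℂ) : exp (I * (P + Q)) + exp (I * (P - Q)) - exp (I * (-P + Q)) -
    exp (I * (-P - Q)) = 4 * I * (sin P * cos Q) := by
  have e1 : exp (I * (P + Q)) = exp (P * I) * exp (Q * I) := by rw [← exp_add]; congr 1; ring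
  have e2 : exp (I * (P - Q)) = exp (P * I) * exp (-Q * I) := by rw [← exp_add]; congr 1; ring
  have e3 : exp (I * (-P + Q)) = exp (-P * I) * exp (Q * I) := by rw [← exp_add]; congr 1; ring
  have e4 : exp (I * (-P - Q)) = exp (-P * I) * exp (-Q * I) := by rw [← exp_add]; congr 1; ring
  rw [e1, e2, e3, e4, Complex.cos, Complex.sin]
  linear_combination ((exp (P * I) * exp (Q * I) + exp (P * I) * exp (-Q * I) -
    exp (-P * I) * exp (Q * I) - exp (-P * I) * exp (-Q * I))) * I_sq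

/-- the sum over all frequencies is a sum over the four sign choices -/
theorem sum_FF {N : ℕ} {S : Finset (ℕ × ℕ)} (hN : ∀ p ∈ S, p.1 ≤ N ∧ p.2 ≤ N)
    (hS : ∀ p ∈ S, 1 ≤ p.1 ∧ 1 ≤ p.2) (g : ℤ × ℤ → ℂ) :
    ∑ ξ ∈ FF N S, g ξ = ∑ p ∈ S, (g ((p.1 : ℤ), (p.2 : ℤ)) + g ((p.1 : ℤ), -(p.2 : ℤ)) +
      g (-(p.1 : ℤ), (p.2 : ℤ)) + g (-(p.1 : ℤ), -(p.2 : ℤ))) := by
  classical
  rw [← Finset.sum_fiberwise_of_maps_to (s := FF N S) (t := S)
    (g := fun ξ => (ξ.1.natAbs, ξ.2.natAbs)) (fun ξ hξ => (mem_FF hN).mp hξ)]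
  apply Finset.sum_congr rfl
  intro p hp
  have hp1 := hS p hp
  have hset : (FF N S).filter (fun ξ => (ξ.1.natAbs, ξ.2.natAbs) = p) =
      {((p.1 : ℤ), (p.2 : ℤ)), ((p.1 : ℤ), -(p.2 : ℤ)), (-(p.1 : ℤ), (p.2 : ℤ)),
        (-(p.1 : ℤ), -(p.2 : ℤ))} := by
    ext ξ
    simp only [Finset.mem_filter, Finset.mem_insert, Finset.mem_singleton, mem_FF hN,
      Prod.ext_iff]
    constructor
    · rintro ⟨_, h1, h2⟩
      omega
    · intro h
      have h1 : ξ.1.natAbs = p.1 := by omega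
      have h2 : ξ.2.natAbs = p.2 := by omega
      rw [h1, h2]
      exact ⟨hp, rfl, rfl⟩
  rw [hset, Finset.sum_insert, Finset.sum_insert, Finset.sum_insert, Finset.sum_singleton]
  · ring
  · simp only [Finset.mem_singleton, Prod.ext_iff]
    omega
  · simp only [Finset.mem_insert, Finset.mem_singleton, Prod.ext_iff]
    omega
  · simp only [Finset.mem_insert, Finset.mem_singleton, Prod.ext_iff]
    omega

open Polynomial in
theorem eval_VV {N : ℕ} {S : Finset (ℕ × ℕ)} (hN : ∀ p ∈ S, p.1 ≤ N ∧ p.2 ≤ N)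
    (A : ℕ × ℕ → ℝ) (v : ℝ × ℝ) (s t : ℝ) :
    evalEval (Complex.exp (Complex.I * s)) (Complex.exp (Complex.I * t)) (VV N S A v) =
      Complex.exp (Complex.I * (N * s + N * t)) * ∑ ξ ∈ FF N S, ((cc A ξ * pr v ξ : ℝ) : ℂ) *
        Complex.exp (Complex.I * (ξ.1 * s + ξ.2 * t)) := by
  unfold VV
  rw [evalEval_finsetSum, Finset.mul_sum]
  apply Finset.sum_congr rfl
  intro ξ hξ
  have h1 := hN _ ((mem_FF hN).mp hξ)
  simp only at h1
  obtain ⟨k1, hk1⟩ : ∃ k : ℕ, (N : ℤ) + ξ.1 = k := ⟨((N : ℤ) + ξ.1).toNat, by omega⟩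
  obtain ⟨k2, hk2⟩ : ∃ k : ℕ, (N : ℤ) + ξ.2 = k := ⟨((N : ℤ) + ξ.2).toNat, by omega⟩
  rw [hk1, hk2, Int.toNat_natCast, Int.toNat_natCast]
  have hk1' : (N : ℂ) + ξ.1 = k1 := by exact_mod_cast hk1
  have hk2' : (N : ℂ) + ξ.2 = k2 := by exact_mod_cast hk2
  rw [evalEval, eval_monomial, eval_mul, eval_monomial, eval_pow, eval_C]
  have e : Complex.exp (Complex.I * s) ^ k1 * Complex.exp (Complex.I * t) ^ k2 =
      Complex.exp (Complex.I * (N * s + N * t)) * Complex.exp (Complex.I * (ξ.1 * s + ξ.2 * t)) := by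
    rw [← Complex.exp_nat_mul, ← Complex.exp_nat_mul, ← Complex.exp_add, ← Complex.exp_add]
    congr 1
    rw [← hk1', ← hk2']
    ring
  rw [mul_assoc, e]
  ring

theorem cc_1 {A : ℕ × ℕ → ℝ} {p : ℕ × ℕ} (hp : 1 ≤ p.1 ∧ 1 ≤ p.2) :
    cc A ((p.1 : ℤ), (p.2 : ℤ)) = A p := by
  unfold cc
  have h1 : ((p.1 : ℤ)).sign = 1 := Int.sign_eq_one_of_pos (by omega)
  have h2 : ((p.2 : ℤ)).sign = 1 := Int.sign_eq_one_of_pos (by omega)
  simp [h1, h2]

theorem cc_2 {A : ℕ × ℕ → ℝ} {p : ℕ × ℕ} (hp : 1 ≤ p.1 ∧ 1 ≤ p.2) :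
    cc A ((p.1 : ℤ), -(p.2 : ℤ)) = -A p := by
  unfold cc
  have h1 : ((p.1 : ℤ)).sign = 1 := Int.sign_eq_one_of_pos (by omega)
  have h2 : ((p.2 : ℤ)).sign = 1 := Int.sign_eq_one_of_pos (by omega)
  simp [h1, h2, Int.sign_neg]

theorem cc_3 {A : ℕ × ℕ → ℝ} {p : ℕ × ℕ} (hp : 1 ≤ p.1 ∧ 1 ≤ p.2) :
    cc A (-(p.1 : ℤ), (p.2 : ℤ)) = -A p := by
  unfold cc
  have h1 : ((p.1 : ℤ)).sign = 1 := Int.sign_eq_one_of_pos (by omega)
  have h2 : ((p.2 : ℤ)).sign = 1 := Int.sign_eq_one_of_pos (by omega)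
  simp [h1, h2, Int.sign_neg]

theorem cc_4 {A : ℕ × ℕ → ℝ} {p : ℕ × ℕ} (hp : 1 ≤ p.1 ∧ 1 ≤ p.2) :
    cc A (-(p.1 : ℤ), -(p.2 : ℤ)) = A p := by
  unfold cc
  have h1 : ((p.1 : ℤ)).sign = 1 := Int.sign_eq_one_of_pos (by omega)
  have h2 : ((p.2 : ℤ)).sign = 1 := Int.sign_eq_one_of_pos (by omega)
  simp [h1, h2, Int.sign_neg]

theorem eval_x {N : ℕ} {S : Finset (ℕ × ℕ)} (hN : ∀ p ∈ S, p.1 ≤ N ∧ p.2 ≤ N)
    (hS : ∀ p ∈ S, 1 ≤ p.1 ∧ 1 ≤ p.2) (A : ℕ × ℕ → ℝ) (s t : ℝ)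
    (h : ∑ p ∈ S, A p * p.1 * Real.cos (p.1 * s) * Real.sin (p.2 * t) = 0) :
    Polynomial.evalEval (Complex.exp (Complex.I * s)) (Complex.exp (Complex.I * t))
      (VV N S A (1, 0)) = 0 := by
  rw [eval_VV hN, sum_FF hN hS]
  have h1 : ∀ p ∈ S, (((cc A ((p.1 : ℤ), (p.2 : ℤ)) * pr (1, 0) ((p.1 : ℤ), (p.2 : ℤ)) : ℝ) : ℂ) *
        Complex.exp (Complex.I * (((p.1 : ℤ) : ℂ) * s + ((p.2 : ℤ) : ℂ) * t)) +
      ((cc A ((p.1 : ℤ), -(p.2 : ℤ)) * pr (1, 0) ((p.1 : ℤ), -(p.2 : ℤ)) : ℝ) : ℂ) *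
        Complex.exp (Complex.I * (((p.1 : ℤ) : ℂ) * s + ((-(p.2 : ℤ) : ℤ) : ℂ) * t)) +
      ((cc A (-(p.1 : ℤ), (p.2 : ℤ)) * pr (1, 0) (-(p.1 : ℤ), (p.2 : ℤ)) : ℝ) : ℂ) *
        Complex.exp (Complex.I * (((-(p.1 : ℤ) : ℤ) : ℂ) * s + ((p.2 : ℤ) : ℂ) * t)) +
      ((cc A (-(p.1 : ℤ), -(p.2 : ℤ)) * pr (1, 0) (-(p.1 : ℤ), -(p.2 : ℤ)) : ℝ) : ℂ) *
        Complex.exp (Complex.I * (((-(p.1 : ℤ) : ℤ) : ℂ) * s + ((-(p.2 : ℤ) : ℤ) : ℂ) * t))) =
      4 * Complex.I * ((A p * p.1 * Real.cos (p.1 * s) * Real.sin (p.2 * t) : ℝ) : ℂ) := by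
    intro p hp
    have h2 := four_cos (p.1 * s) (p.2 * t)
    rw [cc_1 (hS p hp), cc_2 (hS p hp), cc_3 (hS p hp), cc_4 (hS p hp)]
    unfold pr
    push_cast
    have e2 : Complex.I * ((p.1 : ℂ) * s + -(p.2 : ℂ) * t) =
      Complex.I * ((p.1 : ℂ) * s - (p.2 : ℂ) * t) := by ring
    have e3 : Complex.I * (-(p.1 : ℂ) * s + (p.2 : ℂ) * t) =
      Complex.I * (-((p.1 : ℂ) * s) + (p.2 : ℂ) * t) := by ring
    have e4 : Complex.I * (-(p.1 : ℂ) * s + -(p.2 : ℂ) * t) =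
      Complex.I * (-((p.1 : ℂ) * s) - (p.2 : ℂ) * t) := by ring
    rw [e2, e3, e4]
    linear_combination (A p * p.1 : ℂ) * h2
  rw [Finset.sum_congr rfl h1, ← Finset.mul_sum, ← Complex.ofReal_sum, h]
  simp

theorem eval_y {N : ℕ} {S : Finset (ℕ × ℕ)} (hN : ∀ p ∈ S, p.1 ≤ N ∧ p.2 ≤ N)
    (hS : ∀ p ∈ S, 1 ≤ p.1 ∧ 1 ≤ p.2) (A : ℕ × ℕ → ℝ) (s t : ℝ)
    (h : ∑ p ∈ S, A p * p.2 * Real.sin (p.1 * s) * Real.cos (p.2 * t) = 0) :
    Polynomial.evalEval (Complex.exp (Complex.I * s)) (Complex.exp (Complex.I * t))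
      (VV N S A (0, 1)) = 0 := by
  rw [eval_VV hN, sum_FF hN hS]
  have h1 : ∀ p ∈ S, (((cc A ((p.1 : ℤ), (p.2 : ℤ)) * pr (0, 1) ((p.1 : ℤ), (p.2 : ℤ)) : ℝ) : ℂ) *
        Complex.exp (Complex.I * (((p.1 : ℤ) : ℂ) * s + ((p.2 : ℤ) : ℂ) * t)) +
      ((cc A ((p.1 : ℤ), -(p.2 : ℤ)) * pr (0, 1) ((p.1 : ℤ), -(p.2 : ℤ)) : ℝ) : ℂ) *
        Complex.exp (Complex.I * (((p.1 : ℤ) : ℂ) * s + ((-(p.2 : ℤ) : ℤ) : ℂ) * t)) +
      ((cc A (-(p.1 : ℤ), (p.2 : ℤ)) * pr (0, 1) (-(p.1 : ℤ), (p.2 : ℤ)) : ℝ) : ℂ) *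
        Complex.exp (Complex.I * (((-(p.1 : ℤ) : ℤ) : ℂ) * s + ((p.2 : ℤ) : ℂ) * t)) +
      ((cc A (-(p.1 : ℤ), -(p.2 : ℤ)) * pr (0, 1) (-(p.1 : ℤ), -(p.2 : ℤ)) : ℝ) : ℂ) *
        Complex.exp (Complex.I * (((-(p.1 : ℤ) : ℤ) : ℂ) * s + ((-(p.2 : ℤ) : ℤ) : ℂ) * t))) =
      4 * Complex.I * ((A p * p.2 * Real.sin (p.1 * s) * Real.cos (p.2 * t) : ℝ) : ℂ) := by
    intro p hp
    have h2 := four_sin (p.1 * s) (p.2 * t)
    rw [cc_1 (hS p hp), cc_2 (hS p hp), cc_3 (hS p hp), cc_4 (hS p hp)]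
    unfold pr
    push_cast
    have e2 : Complex.I * ((p.1 : ℂ) * s + -(p.2 : ℂ) * t) =
      Complex.I * ((p.1 : ℂ) * s - (p.2 : ℂ) * t) := by ring
    have e3 : Complex.I * (-(p.1 : ℂ) * s + (p.2 : ℂ) * t) =
      Complex.I * (-((p.1 : ℂ) * s) + (p.2 : ℂ) * t) := by ring
    have e4 : Complex.I * (-(p.1 : ℂ) * s + -(p.2 : ℂ) * t) =
      Complex.I * (-((p.1 : ℂ) * s) - (p.2 : ℂ) * t) := by ring
    rw [e2, e3, e4]
    linear_combination (A p * p.2 : ℂ) * h2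
  rw [Finset.sum_congr rfl h1, ← Finset.mul_sum, ← Complex.ofReal_sum, h]
  simp

end Drum

open Polynomial in
/-- auxiliary form -/
theorem rect_crit_aux {a b : ℝ} (ha : 0 < a) (hb : 0 < b) (S : Finset (ℕ × ℕ))
    (hS : ∀ p ∈ S, 1 ≤ p.1 ∧ 1 ≤ p.2) (Λ : ℝ)
    (hΛ : ∀ p ∈ S, (Real.pi * p.1 / a) ^ 2 + (Real.pi * p.2 / b) ^ 2 = Λ) (A : ℕ × ℕ → ℝ)
    (hA : ∃ p ∈ S, A p ≠ 0) :
    Set.Finite {q : ℝ × ℝ | q ∈ Ioo 0 a ×ˢ Ioo 0 b ∧
      (∑ p ∈ S, A p * (Real.pi * p.1 / a) * Real.cos (Real.pi * p.1 / a * q.1) *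
        Real.sin (Real.pi * p.2 / b * q.2)) = 0 ∧
      (∑ p ∈ S, A p * (Real.pi * p.2 / b) * Real.sin (Real.pi * p.1 / a * q.1) *
        Real.cos (Real.pi * p.2 / b * q.2)) = 0} := by
  classical
  have hpi := Real.pi_pos
  by_contra hinf
  rw [← Set.Infinite] at hinf
  -- bound on the frequencies
  obtain ⟨N, hN⟩ : ∃ N : ℕ, ∀ p ∈ S, p.1 ≤ N ∧ p.2 ≤ N := by
    refine ⟨S.sup (fun p => p.1 + p.2), fun p hp => ?_⟩
    have h1 : p.1 + p.2 ≤ S.sup (fun p => p.1 + p.2) :=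
      Finset.le_sup (f := fun p : ℕ × ℕ => p.1 + p.2) hp
    omega
  set Z := {q : ℝ × ℝ | q ∈ Ioo 0 a ×ˢ Ioo 0 b ∧
      (∑ p ∈ S, A p * (Real.pi * p.1 / a) * Real.cos (Real.pi * p.1 / a * q.1) *
        Real.sin (Real.pi * p.2 / b * q.2)) = 0 ∧
      (∑ p ∈ S, A p * (Real.pi * p.2 / b) * Real.sin (Real.pi * p.1 / a * q.1) *
        Real.cos (Real.pi * p.2 / b * q.2)) = 0} with hZ
  set Ψ : ℝ × ℝ → ℂ × ℂ := fun q => (Complex.exp (Complex.I * ((Real.pi / a * q.1 : ℝ) : ℂ)),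
    Complex.exp (Complex.I * ((Real.pi / b * q.2 : ℝ) : ℂ))) with hΨ
  have hcosinj : ∀ c : ℝ, 0 < c → ∀ x ∈ Ioo 0 c, ∀ y ∈ Ioo 0 c,
      Complex.exp (Complex.I * ((Real.pi / c * x : ℝ) : ℂ)) =
        Complex.exp (Complex.I * ((Real.pi / c * y : ℝ) : ℂ)) → x = y := by
    intro c hc x hx y hy hxy
    have h1 := congrArg Complex.re hxy
    rw [mul_comm Complex.I, mul_comm Complex.I, Complex.exp_ofReal_mul_I_re,
      Complex.exp_ofReal_mul_I_re] at h1
    have m1 : Real.pi / c * x ∈ Icc 0 Real.pi := by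
      refine ⟨by have := hx.1; positivity, ?_⟩
      rw [div_mul_eq_mul_div, div_le_iff₀ hc]
      nlinarith [hx.2]
    have m2 : Real.pi / c * y ∈ Icc 0 Real.pi := by
      refine ⟨by have := hy.1; positivity, ?_⟩
      rw [div_mul_eq_mul_div, div_le_iff₀ hc]
      nlinarith [hy.2]
    have h2 := Real.injOn_cos m1 m2 h1
    have h3 : Real.pi / c ≠ 0 := by positivity
    exact mul_left_cancel₀ h3 h2
  have hinj : Set.InjOn Ψ Z := by
    rintro q hq q' hq' h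
    have h1 := congrArg Prod.fst h
    have h2 := congrArg Prod.snd h
    ext
    · exact hcosinj a ha _ hq.1.1 _ hq'.1.1 h1
    · exact hcosinj b hb _ hq.1.2 _ hq'.1.2 h2
  have hzero : ∀ z ∈ Ψ '' Z, evalEval z.1 z.2 (VV N S A (1, 0)) = 0 ∧
      evalEval z.1 z.2 (VV N S A (0, 1)) = 0 ∧ z.1 ≠ 0 ∧ z.2 ≠ 0 := by
    rintro _ ⟨q, hq, rfl⟩
    refine ⟨?_, ?_, Complex.exp_ne_zero _, Complex.exp_ne_zero _⟩
    · apply eval_x hN hS
      have h1 := hq.2.1
      have h2 : ∑ p ∈ S, A p * (Real.pi * p.1 / a) * Real.cos (Real.pi * p.1 / a * q.1) *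
          Real.sin (Real.pi * p.2 / b * q.2) = (Real.pi / a) * ∑ p ∈ S, A p * p.1 *
            Real.cos (p.1 * (Real.pi / a * q.1)) * Real.sin (p.2 * (Real.pi / b * q.2)) := by
        rw [Finset.mul_sum]
        apply Finset.sum_congr rfl
        intro p _
        rw [show Real.pi * p.1 / a * q.1 = p.1 * (Real.pi / a * q.1) by ring,
          show Real.pi * p.2 / b * q.2 = p.2 * (Real.pi / b * q.2) by ring]
        ring
      rw [h2] at h1
      exact (mul_eq_zero.mp h1).resolve_left (by positivity)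
    · apply eval_y hN hS
      have h1 := hq.2.2
      have h2 : ∑ p ∈ S, A p * (Real.pi * p.2 / b) * Real.sin (Real.pi * p.1 / a * q.1) *
          Real.cos (Real.pi * p.2 / b * q.2) = (Real.pi / b) * ∑ p ∈ S, A p * p.2 *
            Real.sin (p.1 * (Real.pi / a * q.1)) * Real.cos (p.2 * (Real.pi / b * q.2)) := by
        rw [Finset.mul_sum]
        apply Finset.sum_congr rfl
        intro p _
        rw [show Real.pi * p.1 / a * q.1 = p.1 * (Real.pi / a * q.1) by ring,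
          show Real.pi * p.2 / b * q.2 = p.2 * (Real.pi / b * q.2) by ring]
        ring
      rw [h2] at h1
      exact (mul_eq_zero.mp h1).resolve_left (by positivity)
  have hinf2 : (Ψ '' Z).Infinite := hinf.image hinj
  -- the polynomials are nonzero
  have hP0 : VV N S A (1, 0) ≠ 0 := by
    obtain ⟨p0, hp0, hAp0⟩ := hA
    intro h0
    have h1 := cf_VV hN A (1, 0) (p0.1 + N, p0.2 + N)
    rw [h0] at h1
    have h2 : ((((p0.1 + N : ℕ) : ℤ) - N, ((p0.2 + N : ℕ) : ℤ) - N) : ℤ × ℤ) =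
        ((p0.1 : ℤ), (p0.2 : ℤ)) := by
      ext <;> simp
    simp only at h1
    rw [h2, if_pos ((mem_FF hN).mpr (by simpa using hp0)), cc_1 (hS p0 hp0)] at h1
    simp only [cf, coeff_zero, pr] at h1
    have h3 : A p0 * (1 * ((p0.1 : ℤ) : ℝ) + 0 * ((p0.2 : ℤ) : ℝ)) = 0 := by
      exact_mod_cast h1.symm
    have h4 : (1 : ℝ) ≤ p0.1 := by exact_mod_cast (hS p0 hp0).1
    rcases mul_eq_zero.mp h3 with h5 | h5
    · exact hAp0 h5
    · push_cast at h5
      linarith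
  obtain ⟨P', Q', G, hrel, hGP, hGQ⟩ :=
    UniqueFactorizationMonoid.exists_reduced_factors _ hP0 (VV N S A (0, 1))
  have hP'0 : P' ≠ 0 := by
    rintro rfl
    rw [mul_zero] at hGP
    exact hP0 hGP.symm
  have hG0 : G ≠ 0 := by
    rintro rfl
    rw [zero_mul] at hGP
    exact hP0 hGP.symm
  have hfin := finite_zeros hP'0 hrel
  have hGz : ((Ψ '' Z) \ {z : ℂ × ℂ | evalEval z.1 z.2 P' = 0 ∧ evalEval z.1 z.2 Q' = 0}).Infinite :=
    hinf2.sdiff hfin
  obtain ⟨z, hz, hz2⟩ := hGz.nonempty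
  have hzG : evalEval z.1 z.2 G = 0 := by
    by_contra hne
    apply hz2
    have h1 := hzero z hz
    rw [← hGP, ← hGQ, evalEval_mul, evalEval_mul] at h1
    exact ⟨(mul_eq_zero.mp h1.1).resolve_left hne, (mul_eq_zero.mp h1.2.1).resolve_left hne⟩
  have hcard := no_factor (α := (Real.pi / a) ^ 2) (β := (Real.pi / b) ^ 2) (Λ := Λ)
    (by positivity) (by positivity) hN hS
    (fun p hp => by rw [← hΛ p hp]; ring) hA (Dvd.intro _ hGP) (Dvd.intro _ hGQ)
  -- a monomial has no zeros with nonzero coordinates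
  have hcard1 : (sp G).Nonempty := by
    by_contra hcon
    rw [Finset.not_nonempty_iff_eq_empty] at hcon
    apply hG0
    apply eq_of_cf
    intro q
    have : q ∉ sp G := by rw [hcon]; simp
    rw [mem_sp, not_not] at this
    rw [this]
    simp [cf]
  obtain ⟨q, hq⟩ := hcard1
  have hGmon : G = monomial q.2 (monomial q.1 (cf G q)) := by
    apply eq_of_cf
    intro r
    by_cases hr : r = q
    · rw [hr]
      simp [cf]
    · have h1 : cf G r = 0 := by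
        by_contra hne
        have h2 : r ∈ sp G := mem_sp.mpr hne
        exact hr (Finset.card_le_one.mp hcard _ h2 _ hq)
      rw [h1]
      unfold cf
      rw [coeff_monomial]
      split_ifs with h3
      · rw [coeff_monomial, if_neg]
        intro h4
        exact hr (Prod.ext h4.symm h3.symm)
      · rw [coeff_zero]
  rw [hGmon, evalEval, eval_monomial, eval_mul, eval_monomial, eval_pow, eval_C] at hzG
  have h1 := hzero z hz
  have h2 := mem_sp.mp hq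
  exact mul_ne_zero (mul_ne_zero h2 (pow_ne_zero _ h1.2.2.1)) (pow_ne_zero _ h1.2.2.2) hzG

/-- TARGET. -/
theorem rect_crit {a b : ℝ} (ha : 0 < a) (hb : 0 < b) (S : Finset (ℕ × ℕ))
    (hS : ∀ p ∈ S, 1 ≤ p.1 ∧ 1 ≤ p.2) (Λ : ℝ)
    (hΛ : ∀ p ∈ S, (Real.pi * p.1 / a) ^ 2 + (Real.pi * p.2 / b) ^ 2 = Λ) (A : ℕ × ℕ → ℝ)
    (hA : ∃ p ∈ S, A p ≠ 0) :
    Set.Finite {q : ℝ × ℝ | q ∈ Ioo 0 a ×ˢ Ioo 0 b ∧
      (∑ p ∈ S, A p * (Real.pi * p.1 / a) * Real.cos (Real.pi * p.1 / a * q.1) *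
        Real.sin (Real.pi * p.2 / b * q.2)) = 0 ∧
      (∑ p ∈ S, A p * (Real.pi * p.2 / b) * Real.sin (Real.pi * p.1 / a * q.1) *
        Real.cos (Real.pi * p.2 / b * q.2)) = 0} :=
  rect_crit_aux ha hb S hS Λ hΛ A hA

end Pool.Agent.Helper327_Drum
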