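import Pool.Agent.Helper327_Drum.Fin.AS5
import Pool.Agent.Helper327_Drum.Fin.T5a
import Pool.Agent.Helper327_Drum.Fin.H1

/-! Rectangular drums. -/

set_option autoImplicit false
open MeasureTheory Set Filter Topology ComplexConjugate
open scoped ContDiff InnerProductSpace

namespace Pool.Agent.Helper327_Drum

open Pool.Agent.TH298.Sch (dd SC)
open Pool.Agent.R227.SA (la Wat Dat)

/-- the critical points of a sum of products of sines -/
theorem sines_crit {a b : ℝ} (S : Finset (ℕ × ℕ)) (A : ℕ × ℕ → ℝ) {u : ℂ → ℝ} {x : ℂ}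
    (hu : u =ᶠ[𝓝 x] fun x => ∑ p ∈ S, A p * (Real.sin (Real.pi * p.1 / a * x.re) *
        Real.sin (Real.pi * p.2 / b * x.im))) (hcr : fderiv ℝ u x = 0) :
    (∑ p ∈ S, A p * (Real.pi * p.1 / a) * Real.cos (Real.pi * p.1 / a * x.re) *
        Real.sin (Real.pi * p.2 / b * x.im)) = 0 ∧
      (∑ p ∈ S, A p * (Real.pi * p.2 / b) * Real.sin (Real.pi * p.1 / a * x.re) *
        Real.cos (Real.pi * p.2 / b * x.im)) = 0 := by
  have hd : HasFDerivAt (fun x : ℂ => ∑ p ∈ S, A p * (Real.sin (Real.pi * p.1 / a * x.re) *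
        Real.sin (Real.pi * p.2 / b * x.im)))
      (∑ p ∈ S, A p • ((Real.sin (Real.pi * p.1 / a * x.re)) •
        ((Real.cos (Real.pi * p.2 / b * x.im) * (Real.pi * p.2 / b)) • Complex.imCLM) +
        (Real.sin (Real.pi * p.2 / b * x.im)) •
        ((Real.cos (Real.pi * p.1 / a * x.re) * (Real.pi * p.1 / a)) • Complex.reCLM))) x := by
    refine HasFDerivAt.fun_sum fun p _ => ?_
    have h1 : HasFDerivAt (fun x : ℂ => Real.sin (Real.pi * p.1 / a * x.re))
        ((Real.cos (Real.pi * p.1 / a * x.re) * (Real.pi * p.1 / a)) • Complex.reCLM) x := by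
      have := (Complex.reCLM.hasFDerivAt (x := x)).const_mul (Real.pi * p.1 / a)
      have h2 := this.sin
      simpa [smul_smul] using h2
    have h2 : HasFDerivAt (fun x : ℂ => Real.sin (Real.pi * p.2 / b * x.im))
        ((Real.cos (Real.pi * p.2 / b * x.im) * (Real.pi * p.2 / b)) • Complex.imCLM) x := by
      have := (Complex.imCLM.hasFDerivAt (x := x)).const_mul (Real.pi * p.2 / b)
      have h2 := this.sin
      simpa [smul_smul] using h2
    exact (h1.mul h2).const_mul (A p)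
  rw [hu.fderiv_eq, hd.fderiv] at hcr
  have e1 := DFunLike.congr_fun hcr 1
  have e2 := DFunLike.congr_fun hcr Complex.I
  simp only [ContinuousLinearMap.sum_apply, ContinuousLinearMap.smul_apply,
    ContinuousLinearMap.add_apply, Complex.reCLM_apply, Complex.imCLM_apply, Complex.one_re,
    Complex.one_im, Complex.I_re, Complex.I_im, smul_eq_mul, mul_zero, mul_one, zero_add, add_zero,
    ContinuousLinearMap.zero_apply] at e1 e2
  constructor
  · rw [← e1]
    refine Finset.sum_congr rfl fun p _ => ?_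
    ring
  · rw [← e2]
    refine Finset.sum_congr rfl fun p _ => ?_
    ring

/-- In a rectangular drum only finitely many interior points are still. -/
theorem rect_still_finite {R : Set ℂ} {c : ℝ} {z : ℂ → ℝ → ℝ} {g : ℂ → ℝ → ℂ}
    (hR : SimpleClosedCurve R) (hc : 0 < c) (h : DrumSolution R c z g) {a b : ℝ} (ha : 0 < a)
    (hb : 0 < b) {q e : ℂ} (he : ‖e‖ = 1) (hin : inside R = (fun x : ℂ => q + e * x) '' rect a b) :
    (still R g ∩ inside R).Finite := by
  obtain ⟨hRc, hRcon, hRinf⟩ := scc_basic hR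
  obtain ⟨hDo, -, -, -, -⟩ := inside_basic hRc
  obtain ⟨lam, hlam, u, hm⟩ := mode_exists hRc hc h
  have he0 : e ≠ 0 := fun h0 => by rw [h0, norm_zero] at he; exact zero_ne_one he
  have hpre : (fun x : ℂ => q + e * x) ⁻¹' (inside R) = rect a b := by
    rw [hin]
    refine preimage_image_eq _ fun x y hxy => ?_
    exact mul_left_cancel₀ he0 (add_left_cancel hxy)
  have hw := wat_rot hm.wat q e he
  rw [hpre] at hw
  obtain ⟨S, A, hS1, hS2, hS3⟩ := rect_modes ha hb hlam hw
  have hro : IsOpen (rect a b) := by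
    rw [← hpre]
    exact hDo.preimage (by fun_prop)
  have hA : ∃ p ∈ S, A p ≠ 0 := by
    by_contra! hA
    obtain ⟨x, hx⟩ := hm.ne
    have hxD : x ∈ inside R := by
      by_contra h0
      exact hx (hm.wat.out x h0)
    rw [hin] at hxD
    obtain ⟨y, hy, rfl⟩ := hxD
    apply hx
    rw [hS3 y hy]
    exact Finset.sum_eq_zero fun p hp => by rw [hA p hp, zero_mul]
  have hfin := rect_crit ha hb S hS1 lam hS2 A hA
  have hfin2 := hfin.image (fun t : ℝ × ℝ => q + e * (⟨t.1, t.2⟩ : ℂ))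
  refine hfin2.subset ?_
  rintro x ⟨⟨-, hx⟩, hxD⟩
  have hcr := hm.crit x hxD hx
  rw [hin] at hxD
  obtain ⟨y, hy, rfl⟩ := hxD
  refine ⟨(y.re, y.im), ⟨⟨⟨hy.1, hy.2.1⟩, ⟨hy.2.2.1, hy.2.2.2⟩⟩, ?_⟩, rfl⟩
  refine sines_crit (u := fun x => u (q + e * x)) (x := y) S A ?_ ?_
  · filter_upwards [hro.mem_nhds hy] with w hw using hS3 w hw
  · have hud : DifferentiableAt ℝ u (q + e * y) :=
      (wat_smooth hm.wat (by rw [hin]; exact ⟨y, hy, rfl⟩)).1.differentiableAt (by norm_cast)
    have h1 : HasFDerivAt (fun x : ℂ => q + e * x) (ContinuousLinearMap.mul ℝ ℂ e) y :=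
      ((ContinuousLinearMap.mul ℝ ℂ e).hasFDerivAt).const_add q
    have h2 := hud.hasFDerivAt.comp y h1
    have h3 := h2.fderiv
    rw [show (u ∘ fun x : ℂ => q + e * x) = fun x => u (q + e * x) from rfl, hcr] at h3
    rw [h3]
    exact ContinuousLinearMap.zero_comp _

end Pool.Agent.Helper327_Drum
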