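import Pool.Agent.Helper327_Drum.Fin.NB3
import Pool.Agent.Helper327_Drum.Fin.NC4
import Pool.Agent.Helper327_Drum.Fin.G4
import Pool.Agent.Helper327_Drum.Fin.H1
import Pool.Agent.Helper327_Drum.Fin.AS8
import Pool.Agent.Helper327_Drum.Fin.REF

/-
JOB SEC2 (owner helper327, problem MP_d92c84_an). All imports are on origin/main.
-/

set_option autoImplicit false
open MeasureTheory Set Filter Topology ComplexConjugate
open scoped ContDiff InnerProductSpace

namespace Pool.Agent.Helper327_Drum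

open Pool.Agent.TH298.Sch (dd SC X)
open Pool.Agent.R227.SA (la Wat Dat)

/-
Plain proof. `rect_modes` (Fin/T5a.lean) and `rect_crit` (Fin/H1.lean), `sines_crit` (Fin/AS8.lean), as in `rect_still_finite` (Fin/AS8.lean): the set of critical points of v in rect a b is finite, but a simple
closed curve is infinite (`scc_basic`, Fin/G1.lean).
-/

/-- TARGET 1 -/
theorem rect_nocurve {a b : ℝ} (ha : 0 < a) (hb : 0 < b) {lam : ℝ} (hlam : 0 < lam) {v : ℂ → ℝ}
    (hv : Wat (rect a b) lam v) (hne : ∃ x, v x ≠ 0) :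
    ¬ ∃ γ : Set ℂ, SimpleClosedCurve γ ∧ γ ⊆ rect a b ∧ ∀ x ∈ γ, fderiv ℝ v x = 0 := by
  rintro ⟨γ, hγ, hsub, hcr⟩
  obtain ⟨-, -, hinf⟩ := scc_basic hγ
  obtain ⟨S, A, hS1, hS2, hS3⟩ := rect_modes ha hb hlam hv
  have hro : IsOpen (rect a b) := t5a_rect_open a b
  have hA : ∃ p ∈ S, A p ≠ 0 := by
    by_contra! hA
    obtain ⟨x, hx⟩ := hne
    have hxD : x ∈ rect a b := by
      by_contra h0
      exact hx (hv.out x h0)
    apply hx
    rw [hS3 x hxD]
    exact Finset.sum_eq_zero fun p hp => by rw [hA p hp, zero_mul]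
  have hfin := rect_crit ha hb S hS1 lam hS2 A hA
  have hfin2 := hfin.image (fun t : ℝ × ℝ => (⟨t.1, t.2⟩ : ℂ))
  refine hinf (hfin2.subset ?_)
  intro y hyγ
  have hy := hsub hyγ
  refine ⟨(y.re, y.im), ⟨⟨⟨hy.1, hy.2.1⟩, ⟨hy.2.2.1, hy.2.2.2⟩⟩, ?_⟩, rfl⟩
  refine sines_crit (u := v) (x := y) S A ?_ (hcr y hyγ)
  filter_upwards [hro.mem_nhds hy] with w hw using hS3 w hw

/-
Plain proof. The reflected function ũ x = u x - u (I conj x) equals u on the triangle (for x in the triangle, I conj x has re < im, so it is not in the triangle and u vanishes there), it is not 0,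
and its critical points in the triangle are those of u. `tri_refl` and `rect_nocurve`.
-/

/-- TARGET 2 -/
theorem tri_nocurve {a : ℝ} (ha : 0 < a) {lam : ℝ} (hlam : 0 < lam) {v : ℂ → ℝ}
    (hv : Wat {x : ℂ | 0 < x.im ∧ x.im < x.re ∧ x.re < a} lam v) (hne : ∃ x, v x ≠ 0) :
    ¬ ∃ γ : Set ℂ, SimpleClosedCurve γ ∧ γ ⊆ {x : ℂ | 0 < x.im ∧ x.im < x.re ∧ x.re < a} ∧
      ∀ x ∈ γ, fderiv ℝ v x = 0 := by
  rintro ⟨γ, hγ, hsub, hcr⟩
  have hr := tri_refl ha hlam hv
  set T : Set ℂ := {x : ℂ | 0 < x.im ∧ x.im < x.re ∧ x.re < a} with hT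
  have hzero : ∀ x ∈ T, v (Complex.I * conj x) = 0 := by
    intro x hx
    apply hv.out
    intro h
    have h2 := h.2.1
    simp only [Complex.mul_re, Complex.mul_im, Complex.I_re, Complex.I_im, Complex.conj_re,
      Complex.conj_im] at h2
    have h3 := hx.2.1
    linarith
  have hTo : IsOpen T :=
    (isOpen_lt continuous_const Complex.continuous_im).inter
      ((isOpen_lt Complex.continuous_im Complex.continuous_re).inter
        (isOpen_lt Complex.continuous_re continuous_const))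
  refine rect_nocurve ha ha hlam hr ?_ ⟨γ, hγ, ?_, ?_⟩
  · obtain ⟨x, hx⟩ := hne
    have hxT : x ∈ T := by
      by_contra h
      exact hx (hv.out x h)
    exact ⟨x, by rw [hzero x hxT, sub_zero]; exact hx⟩
  · intro x hx
    have := hsub hx
    exact ⟨this.1.trans this.2.1, this.2.2, this.1, this.2.1.trans this.2.2⟩
  · intro x hx
    have : (fun x => v x - v (Complex.I * conj x)) =ᶠ[𝓝 x] v := by
      filter_upwards [hTo.mem_nhds (hsub hx)] with y hy
      rw [hzero y hy, sub_zero]
    rw [this.fderiv_eq]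
    exact hcr x hx

theorem sec_angle {r r' φ θ : ℝ} (hr : 0 < r) (hr' : 0 < r') (h : X r φ = X r' θ) :
    ∃ k : ℤ, φ - θ = 2 * Real.pi * k := by
  have h1 := Complex.arg_mul_cos_add_sin_mul_I_coe_angle hr (φ : Real.Angle)
  have h2 := Complex.arg_mul_cos_add_sin_mul_I_coe_angle hr' (θ : Real.Angle)
  simp only [Real.Angle.cos_coe, Real.Angle.sin_coe] at h1 h2
  have h3 : (φ : Real.Angle) = (θ : Real.Angle) := by
    rw [← h1, ← h2]
    have : (r : ℂ) * (Real.cos φ + Real.sin φ * Complex.I) =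
        (r' : ℂ) * (Real.cos θ + Real.sin θ * Complex.I) := h
    rw [this]
  exact Real.Angle.angle_eq_iff_two_pi_dvd_sub.1 h3

theorem sec_X (r θ : ℝ) : X r θ = r * Complex.exp (θ * Complex.I) := by
  rw [Complex.exp_mul_I]
  simp [X]

theorem sec_X_re (r θ : ℝ) : (X r θ).re = r * Real.cos θ := by
  simp [X, -Complex.ofReal_cos, -Complex.ofReal_sin]

theorem sec_X_im (r θ : ℝ) : (X r θ).im = r * Real.sin θ := by
  simp [X, -Complex.ofReal_cos, -Complex.ofReal_sin]

theorem sec_norm {r : ℝ} (hr : 0 < r) (θ : ℝ) : ‖X r θ‖ = r := by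
  rw [sec_X, norm_mul, Complex.norm_exp_ofReal_mul_I, mul_one, Complex.norm_real,
    Real.norm_of_nonneg hr.le]

theorem sec_rot {N : ℕ} (hN : 1 ≤ N) (j : ℕ) (r θ : ℝ) :
    Complex.exp (2 * Real.pi * Complex.I / N) ^ j * X r θ = X r (θ + 2 * Real.pi * j / N) := by
  rw [sec_X, sec_X, ← Complex.exp_nat_mul, mul_left_comm, ← Complex.exp_add]
  congr 2
  push_cast
  ring

theorem sec_conj (r θ : ℝ) : conj (X r θ) = X r (-θ) := by
  apply Complex.ext
  · rw [Complex.conj_re, sec_X_re, sec_X_re, Real.cos_neg]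
  · rw [Complex.conj_im, sec_X_im, sec_X_im, Real.sin_neg, mul_neg]

theorem sec_im_pos {N : ℕ} (hN : 1 ≤ N) {x : ℂ} (hx : x ∈ sector N) : 0 < x.im := by
  obtain ⟨r, θ, h0, h1, h2, h3, rfl⟩ := hx
  rw [sec_X_im]
  refine mul_pos h0 (Real.sin_pos_of_pos_of_lt_pi h2 (h3.trans_le ?_))
  have : (1 : ℝ) ≤ N := by exact_mod_cast hN
  exact div_le_self Real.pi_pos.le this

theorem sec_char {N : ℕ} (hN : 1 ≤ N) : sector N = Metric.ball (0 : ℂ) 1 ∩ ({x : ℂ | 0 < x.im} ∩
    {x : ℂ | 0 < Real.sin (Real.pi / N) * x.re - Real.cos (Real.pi / N) * x.im}) := by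
  have hN' : (1 : ℝ) ≤ N := by exact_mod_cast hN
  have hN0 : (0 : ℝ) < N := by linarith
  have hpi := Real.pi_pos
  have hq0 : 0 < Real.pi / N := by positivity
  have hq1 : Real.pi / N ≤ Real.pi := div_le_self Real.pi_pos.le hN'
  have key : ∀ r θ : ℝ, Real.sin (Real.pi / N) * (X r θ).re - Real.cos (Real.pi / N) * (X r θ).im =
      r * Real.sin (Real.pi / N - θ) := by
    intro r θ
    rw [sec_X_re, sec_X_im, Real.sin_sub]
    ring
  ext x
  constructor
  · intro hx
    refine ⟨?_, sec_im_pos hN hx, ?_⟩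
    · obtain ⟨r, θ, h0, h1, h2, h3, rfl⟩ := hx
      rw [mem_ball_zero_iff, sec_norm h0]
      exact h1
    · obtain ⟨r, θ, h0, h1, h2, h3, rfl⟩ := hx
      show 0 < Real.sin (Real.pi / N) * (X r θ).re - Real.cos (Real.pi / N) * (X r θ).im
      rw [key]
      exact mul_pos h0 (Real.sin_pos_of_pos_of_lt_pi (by linarith) (by linarith))
  · rintro ⟨h1, h2, h3⟩
    rw [mem_ball_zero_iff] at h1
    have h2 : 0 < x.im := h2
    have h3 : 0 < Real.sin (Real.pi / N) * x.re - Real.cos (Real.pi / N) * x.im := h3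
    have hx0 : x ≠ 0 := by
      rintro rfl
      simp at h2
    have hX : X ‖x‖ x.arg = x := by
      rw [sec_X, Complex.norm_mul_exp_arg_mul_I]
    have ha1 : 0 < x.arg := by
      have h4 : 0 ≤ x.arg := Complex.arg_nonneg_iff.2 h2.le
      rcases h4.lt_or_eq with h | h
      · exact h
      · exfalso
        rw [← hX, ← h, sec_X_im, Real.sin_zero, mul_zero] at h2
        exact lt_irrefl _ h2
    have ha2 : x.arg < Real.pi := Complex.arg_lt_pi_iff.2 (Or.inr h2.ne')
    refine ⟨‖x‖, x.arg, norm_pos_iff.2 hx0, h1, ha1, ?_, hX.symm⟩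
    by_contra! hc
    rw [← hX, key] at h3
    have h5 : Real.sin (Real.pi / N - x.arg) ≤ 0 :=
      Real.sin_nonpos_of_nonpos_of_neg_pi_le (by linarith) (by linarith)
    have := mul_nonpos_of_nonneg_of_nonpos (norm_nonneg x) h5
    linarith

theorem sec_open {N : ℕ} (hN : 1 ≤ N) : IsOpen (sector N) := by
  rw [sec_char hN]
  refine Metric.isOpen_ball.inter ((isOpen_lt continuous_const Complex.continuous_im).inter
    (isOpen_lt continuous_const ?_))
  fun_prop

/-
Plain proof. ũ = the sum of `sector_refl` is a solution on the disc, ũ = u on sector N (for x in the sector the other points ω^j x (0 < j < N), ω^j conj x are not in the sector), so ũ ≠ 0 and critical points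
of u in the sector are critical points of ũ. `disc_crit` (Fin/NB3.lean): every critical point x of ũ in the disc has x ∈ P or ‖x‖ ∈ Q. Let γ ⊆ sector N be a simple closed curve of critical points. γ is connected
and infinite, x ↦ ‖x‖ is continuous on γ; γ \ P is mapped to the finite set Q. So the connected set ‖γ‖ ⊆ Q ∪ ‖P‖ is finite, hence one point: γ ⊆ sphere 0 ρ with ρ > 0 (γ infinite). By `scc_eq` and
`scc_sphere` (Fin/G4.lean) γ = sphere 0 ρ, which contains -ρ or ρ, not in the sector (argument strictly between 0 and π/N ≤ π): contradiction. (Q or P need not be used further.)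
-/

/-- TARGET 3 -/
theorem sector_nocurve {N : ℕ} (hN : 1 ≤ N) {lam : ℝ} (hlam : 0 < lam) {v : ℂ → ℝ}
    (hv : Wat (sector N) lam v) (hne : ∃ x, v x ≠ 0) :
    ¬ ∃ γ : Set ℂ, SimpleClosedCurve γ ∧ γ ⊆ sector N ∧ ∀ x ∈ γ, fderiv ℝ v x = 0 := by
  rintro ⟨γ, hγ, hsub, hcr⟩
  have hN' : (1 : ℝ) ≤ N := by exact_mod_cast hN
  have hN0 : (0 : ℝ) < N := by linarith
  have hpi := Real.pi_pos
  have hq0 : 0 < Real.pi / N := by positivity
  have hr := sector_refl hN hlam hv
  -- the other terms vanish on the sector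
  have h1 : ∀ x ∈ sector N, ∀ j ∈ Finset.range N,
      v (Complex.exp (2 * Real.pi * Complex.I / N) ^ j * conj x) = 0 := by
    intro x hx j hj
    rw [Finset.mem_range] at hj
    obtain ⟨r, θ, h0, h1, h2, h3, rfl⟩ := hx
    apply hv.out
    rintro ⟨r', θ', g0, g1, g2, g3, g4⟩
    rw [sec_conj, sec_rot hN] at g4
    obtain ⟨k, hk⟩ := sec_angle h0 g0 g4
    -- -θ + 2πj/N - θ' = 2πk
    have e1 : (j : ℝ) * (Real.pi / N) * 2 = 2 * Real.pi * j / N := by ring
    have e2 : (N : ℝ) * (Real.pi / N) = Real.pi := by field_simp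
    set q : ℝ := Real.pi / N with hq
    have hk2 : θ + θ' = 2 * q * (j - N * k) := by
      have : 2 * Real.pi * (k : ℝ) = 2 * q * (N * k) := by rw [← e2]; ring
      linarith
    have hz : ((j : ℤ) - N * k : ℤ) = (j : ℤ) - N * k := rfl
    set z : ℤ := (j : ℤ) - N * k with hz
    have hk3 : θ + θ' = 2 * q * z := by
      rw [hk2, hz]
      push_cast
      ring
    have z0 : 0 < z := by
      by_contra! hzn
      have : (z : ℝ) ≤ 0 := by exact_mod_cast hzn
      nlinarith
    have z1 : z < 1 := by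
      by_contra! hzn
      have : (1 : ℝ) ≤ z := by exact_mod_cast hzn
      nlinarith
    omega
  have h2 : ∀ x ∈ sector N, ∀ j ∈ Finset.range N, j ≠ 0 →
      v (Complex.exp (2 * Real.pi * Complex.I / N) ^ j * x) = 0 := by
    intro x hx j hj hj0
    rw [Finset.mem_range] at hj
    obtain ⟨r, θ, h0, h1, h2, h3, rfl⟩ := hx
    apply hv.out
    rintro ⟨r', θ', g0, g1, g2, g3, g4⟩
    rw [sec_rot hN] at g4
    obtain ⟨k, hk⟩ := sec_angle h0 g0 g4
    have e1 : (j : ℝ) * (Real.pi / N) * 2 = 2 * Real.pi * j / N := by ring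
    have e2 : (N : ℝ) * (Real.pi / N) = Real.pi := by field_simp
    set q : ℝ := Real.pi / N with hq
    have hk2 : θ' - θ = 2 * q * (j - N * k) := by
      have : 2 * Real.pi * (k : ℝ) = 2 * q * (N * k) := by rw [← e2]; ring
      linarith
    set z : ℤ := (j : ℤ) - N * k with hz
    have hk3 : θ' - θ = 2 * q * z := by
      rw [hk2, hz]
      push_cast
      ring
    have z0 : -1 < z := by
      by_contra! hzn
      have : (z : ℝ) ≤ -1 := by exact_mod_cast hzn
      nlinarith
    have z1 : z < 1 := by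
      by_contra! hzn
      have : (1 : ℝ) ≤ z := by exact_mod_cast hzn
      nlinarith
    have z2 : z = 0 := by omega
    have z3 : (j : ℤ) = N * k := by omega
    have hj' : (j : ℤ) < N := by exact_mod_cast hj
    have hj0' : (0 : ℤ) < j := by exact_mod_cast Nat.pos_of_ne_zero hj0
    have hNz : (0 : ℤ) < N := by exact_mod_cast hN
    rcases le_or_gt k 0 with hk0 | hk0
    · nlinarith
    · nlinarith
  have h3 : ∀ x ∈ sector N, (∑ j ∈ Finset.range N,
      (v (Complex.exp (2 * Real.pi * Complex.I / N) ^ j * x) -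
        v (Complex.exp (2 * Real.pi * Complex.I / N) ^ j * conj x))) = v x := by
    intro x hx
    rw [Finset.sum_eq_single_of_mem 0 (Finset.mem_range.2 hN)]
    · rw [h1 x hx 0 (Finset.mem_range.2 hN), pow_zero, one_mul, sub_zero]
    · intro j hj hj0
      rw [h1 x hx j hj, h2 x hx j hj hj0, sub_zero]
  obtain ⟨P, Q, -, hPQ⟩ := disc_crit hlam hr (by
    obtain ⟨x, hx⟩ := hne
    have hxS : x ∈ sector N := by
      by_contra h
      exact hx (hv.out x h)
    exact ⟨x, by rw [h3 x hxS]; exact hx⟩)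
  obtain ⟨-, hcon, -⟩ := scc_basic hγ
  have hball : ∀ x ∈ γ, x ∈ Metric.ball (0 : ℂ) 1 := by
    intro x hx
    have := hsub hx
    rw [sec_char hN] at this
    exact this.1
  have hcrit : ∀ x ∈ γ, x ∈ P ∨ ‖x‖ ∈ Q := by
    intro x hx
    refine hPQ x (hball x hx) ?_
    have : (fun x => ∑ j ∈ Finset.range N,
      (v (Complex.exp (2 * Real.pi * Complex.I / N) ^ j * x) -
        v (Complex.exp (2 * Real.pi * Complex.I / N) ^ j * conj x))) =ᶠ[𝓝 x] v := by
      filter_upwards [(sec_open hN).mem_nhds (hsub hx)] with y hy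
      exact h3 y hy
    rw [this.fderiv_eq]
    exact hcr x hx
  have hfin : ((fun x : ℂ => ‖x‖) '' γ).Finite := by
    refine ((P.finite_toSet.image (fun x : ℂ => ‖x‖)).union Q.finite_toSet).subset ?_
    rintro _ ⟨x, hx, rfl⟩
    rcases hcrit x hx with h | h
    · exact Or.inl ⟨x, h, rfl⟩
    · exact Or.inr h
  have hpre : IsPreconnected ((fun x : ℂ => ‖x‖) '' γ) :=
    hcon.isPreconnected.image _ continuous_norm.continuousOn
  have hss : ((fun x : ℂ => ‖x‖) '' γ).Subsingleton := by
    intro a ha b hb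
    by_contra hab
    wlog hlt : a < b generalizing a b
    · exact this hb ha (Ne.symm hab) (lt_of_le_of_ne (not_lt.1 hlt) (Ne.symm hab))
    have := hpre.Icc_subset ha hb
    exact (Set.Icc_infinite hlt) (hfin.subset this)
  obtain ⟨x0, hx0⟩ := hcon.nonempty
  have hρ : 0 < ‖x0‖ := by
    rw [norm_pos_iff]
    rintro rfl
    have := sec_im_pos hN (hsub hx0)
    simp at this
  have hsph : γ ⊆ Metric.sphere (0 : ℂ) ‖x0‖ := by
    intro x hx
    rw [mem_sphere_zero_iff_norm]
    exact hss ⟨x, hx, rfl⟩ ⟨x0, hx0, rfl⟩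
  have heq := scc_eq (scc_sphere 0 hρ) hγ hsph
  have hmem : ((‖x0‖ : ℝ) : ℂ) ∈ γ := by
    rw [heq, mem_sphere_zero_iff_norm, Complex.norm_real, norm_norm]
  have := sec_im_pos hN (hsub hmem)
  simp at this

/-
Convexity and openness of the shapes (N ≥ 1: the sector is the intersection of ball 0 1 with one or two open half planes; for N = 1 it is the half disc im > 0).
-/

/-- TARGET 4 -/
theorem sector_convex {N : ℕ} (hN : 1 ≤ N) :
    IsOpen (sector N) ∧ Convex ℝ (sector N) ∧ Bornology.IsBounded (sector N) ∧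
      (sector N).Nonempty := by
  have hN' : (1 : ℝ) ≤ N := by exact_mod_cast hN
  have hN0 : (0 : ℝ) < N := by linarith
  have hpi := Real.pi_pos
  refine ⟨sec_open hN, ?_, ?_, ?_⟩
  · rw [sec_char hN]
    refine (convex_ball _ _).inter (Convex.inter ?_ ?_)
    · exact convex_halfSpace_gt (f := fun x : ℂ => x.im) Complex.imLm.isLinear 0
    · refine convex_halfSpace_gt
        (f := fun x : ℂ => Real.sin (Real.pi / N) * x.re - Real.cos (Real.pi / N) * x.im) ?_ 0
      constructor
      · intro x y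
        simp only [Complex.add_re, Complex.add_im]
        ring
      · intro c x
        simp only [Complex.real_smul, Complex.re_ofReal_mul, Complex.im_ofReal_mul, smul_eq_mul]
        ring
  · rw [sec_char hN]
    exact Metric.isBounded_ball.subset inter_subset_left
  · refine ⟨X (1 / 2) (Real.pi / N / 2), 1 / 2, Real.pi / N / 2, by norm_num, by norm_num, ?_, ?_, rfl⟩
    · positivity
    · have : 0 < Real.pi / N := by positivity
      linarith

end Pool.Agent.Helper327_Drum
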