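import Pool.Agent.Helper327_Drum.EDefs
import Pool.Agent.Helper327_Drum.Fin.AS2
import Pool.Agent.Helper327_Drum.Fin.SEC2
import Pool.Agent.Helper327_Drum.Fin.EL1a

/-
JOB SR1 (owner helper327, problem MP_d92c84_an). All imports are on origin/main.
-/

set_option autoImplicit false
open MeasureTheory Set Filter Topology ComplexConjugate
open scoped ContDiff InnerProductSpace

namespace Pool.Agent.Helper327_Drum

open Pool.Agent.TH298.Sch (dd SC X Lr)
open Pool.Agent.R227.SA (la Wat Dat)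

/-- the open circular sector with radius 1 and opening angle `α` -/
def gsec (α : ℝ) : Set ℂ := {x | ∃ r θ : ℝ, 0 < r ∧ r < 1 ∧ 0 < θ ∧ θ < α ∧ x = X r θ}

/-
`X r θ = r (cos θ + sin θ I)`; `gsec (π / N)` is `sector N` of Fin/REF.lean, whose convexity etc. is `sector_convex` in Fin/SEC2.lean (the proof uses sector = ball ∩ two half planes, `sec_char`; the same proof works for
every α ≤ π; for α = π use only one half plane or both).
-/

namespace SR1

theorem X_exp (ξ η : ℝ) : Complex.exp ((ξ : ℂ) + η * Complex.I) = X (Real.exp ξ) η := by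
  rw [Pool.Agent.TH298.Sch.X_eq, Pool.Agent.TH298.Sch.er_exp, Complex.exp_add, Complex.ofReal_exp]

theorem X_angle {r r' φ θ : ℝ} (hr : 0 < r) (hr' : 0 < r') (h : X r φ = X r' θ) :
    ∃ k : ℤ, φ - θ = 2 * Real.pi * k := by
  have h1 := Complex.arg_mul_cos_add_sin_mul_I_coe_angle hr (φ : Real.Angle)
  have h2 := Complex.arg_mul_cos_add_sin_mul_I_coe_angle hr' (θ : Real.Angle)
  simp only [Real.Angle.cos_coe, Real.Angle.sin_coe] at h1 h2
  have h3 : (φ : Real.Angle) = (θ : Real.Angle) := by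
    rw [← h1, ← h2]
    have : (r : ℂ) * (Real.cos φ + Real.sin φ * Complex.I) =
        (r' : ℂ) * (Real.cos θ + Real.sin θ * Complex.I) := h
    rw [this]
  exact Real.Angle.angle_eq_iff_two_pi_dvd_sub.1 h3

theorem X_re (r θ : ℝ) : (X r θ).re = r * Real.cos θ := by
  simp [X, -Complex.ofReal_cos, -Complex.ofReal_sin]

theorem X_im (r θ : ℝ) : (X r θ).im = r * Real.sin θ := by
  simp [X, -Complex.ofReal_cos, -Complex.ofReal_sin]

theorem X_norm {r : ℝ} (hr : 0 < r) (θ : ℝ) : ‖X r θ‖ = r := by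
  rw [Pool.Agent.TH298.Sch.norm_X, abs_of_pos hr]

theorem X_norm_arg (x : ℂ) : X ‖x‖ x.arg = x := by
  rw [Pool.Agent.TH298.Sch.X_eq, Pool.Agent.TH298.Sch.er_exp, Complex.norm_mul_exp_arg_mul_I]

theorem gsec_char {α : ℝ} (h0 : 0 < α) (h1 : α ≤ Real.pi) :
    gsec α = Metric.ball (0 : ℂ) 1 ∩ ({x : ℂ | 0 < x.im} ∩
    {x : ℂ | 0 < Real.sin α * x.re - Real.cos α * x.im}) := by
  have hpi := Real.pi_pos
  have key : ∀ r θ : ℝ, Real.sin α * (X r θ).re - Real.cos α * (X r θ).im =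
      r * Real.sin (α - θ) := by
    intro r θ
    rw [X_re, X_im, Real.sin_sub]
    ring
  ext x
  constructor
  · rintro ⟨r, θ, g0, g1, g2, g3, rfl⟩
    refine ⟨?_, ?_, ?_⟩
    · rw [mem_ball_zero_iff, X_norm g0]
      exact g1
    · show 0 < (X r θ).im
      rw [X_im]
      exact mul_pos g0 (Real.sin_pos_of_pos_of_lt_pi g2 (g3.trans_le h1))
    · show 0 < Real.sin α * (X r θ).re - Real.cos α * (X r θ).im
      rw [key]
      exact mul_pos g0 (Real.sin_pos_of_pos_of_lt_pi (by linarith) (by linarith))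
  · rintro ⟨g1, g2, g3⟩
    rw [mem_ball_zero_iff] at g1
    have g2 : 0 < x.im := g2
    have g3 : 0 < Real.sin α * x.re - Real.cos α * x.im := g3
    have hx0 : x ≠ 0 := by
      rintro rfl
      simp at g2
    have hX : X ‖x‖ x.arg = x := X_norm_arg x
    have ha1 : 0 < x.arg := by
      have h4 : 0 ≤ x.arg := Complex.arg_nonneg_iff.2 g2.le
      rcases h4.lt_or_eq with h | h
      · exact h
      · exfalso
        rw [← hX, ← h, X_im, Real.sin_zero, mul_zero] at g2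
        exact lt_irrefl _ g2
    have ha2 : x.arg < Real.pi := Complex.arg_lt_pi_iff.2 (Or.inr g2.ne')
    refine ⟨‖x‖, x.arg, norm_pos_iff.2 hx0, g1, ha1, ?_, hX.symm⟩
    by_contra! hc
    rw [← hX, key] at g3
    have h5 : Real.sin (α - x.arg) ≤ 0 :=
      Real.sin_nonpos_of_nonpos_of_neg_pi_le (by linarith) (by linarith)
    have := mul_nonpos_of_nonneg_of_nonpos (norm_nonneg x) h5
    linarith

/-! ### log-polar coordinates -/

lemma cda_dd {V : ℂ → ℝ} {x h : ℂ} (hV : ContDiffAt ℝ ∞ V x) : ContDiffAt ℝ ∞ (dd h V) x := by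
  have h1 : ContDiffAt ℝ ∞ (fderiv ℝ V) x := hV.fderiv_right (m := ∞) (by simp)
  exact h1.clm_apply contDiffAt_const

lemma second {u : ℂ → ℝ} {x : ℂ} (hs : ContDiffAt ℝ ∞ u x) :
    HasFDerivAt (fderiv ℝ u) (fderiv ℝ (fderiv ℝ u) x) x := by
  have h1 : ContDiffAt ℝ ∞ (fderiv ℝ u) x := hs.fderiv_right (m := ∞) (by simp)
  exact (h1.differentiableAt (by simp)).hasFDerivAt

lemma dd_dd {u : ℂ → ℝ} {x : ℂ} (hs : ContDiffAt ℝ ∞ u x) (h : ℂ) :
    dd h (dd h u) x = fderiv ℝ (fderiv ℝ u) x h h := by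
  have h3 : HasFDerivAt (dd h u) ((fderiv ℝ u x).comp (0 : ℂ →L[ℝ] ℂ) +
      (fderiv ℝ (fderiv ℝ u) x).flip h) x := (second hs).clm_apply (hasFDerivAt_const h x)
  change fderiv ℝ (dd h u) x h = _
  rw [h3.fderiv]
  simp

lemma hexp (ζ : ℂ) : HasFDerivAt (fun ζ : ℂ => Complex.exp ζ)
    ((Complex.exp ζ) • (1 : ℂ →L[ℝ] ℂ)) ζ :=
  (Complex.hasDerivAt_exp ζ).complexToReal_fderiv

lemma hexpv (v ζ : ℂ) : HasFDerivAt (fun ζ : ℂ => Complex.exp ζ * v)
    ((Complex.exp ζ * v) • (1 : ℂ →L[ℝ] ℂ)) ζ :=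
  ((Complex.hasDerivAt_exp ζ).mul_const v).complexToReal_fderiv

lemma chain {u : ℂ → ℝ} {ζ : ℂ} (hs : ContDiffAt ℝ ∞ u (Complex.exp ζ)) (v : ℂ) :
    dd v (dd v (fun ζ => u (Complex.exp ζ))) ζ =
      fderiv ℝ (fderiv ℝ u) (Complex.exp ζ) (Complex.exp ζ * v) (Complex.exp ζ * v) +
      fderiv ℝ u (Complex.exp ζ) (Complex.exp ζ * v * v) := by
  have hcont : ContinuousAt (fun ζ : ℂ => Complex.exp ζ) ζ := (hexp ζ).continuousAt
  have hev : ∀ᶠ y in 𝓝 (Complex.exp ζ), ContDiffAt ℝ 1 u y :=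
    (hs.of_le (by exact_mod_cast le_top)).eventually (by simp)
  have hev2 : dd v (fun ζ => u (Complex.exp ζ)) =ᶠ[𝓝 ζ]
      fun ζ => fderiv ℝ u (Complex.exp ζ) (Complex.exp ζ * v) := by
    filter_upwards [hcont.eventually hev] with z hz
    have h1 : HasFDerivAt u (fderiv ℝ u (Complex.exp z)) (Complex.exp z) :=
      (hz.differentiableAt (by simp)).hasFDerivAt
    have h2 : HasFDerivAt (fun ζ => u (Complex.exp ζ))
        ((fderiv ℝ u (Complex.exp z)).comp ((Complex.exp z) • (1 : ℂ →L[ℝ] ℂ))) z :=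
      HasFDerivAt.comp z h1 (hexp z)
    change fderiv ℝ (fun ζ => u (Complex.exp ζ)) z v = _
    rw [h2.fderiv]
    simp
  change fderiv ℝ (dd v (fun ζ => u (Complex.exp ζ))) ζ v = _
  rw [hev2.fderiv_eq]
  have h3 : HasFDerivAt (fun ζ => fderiv ℝ u (Complex.exp ζ))
      ((fderiv ℝ (fderiv ℝ u) (Complex.exp ζ)).comp ((Complex.exp ζ) • (1 : ℂ →L[ℝ] ℂ))) ζ :=
    HasFDerivAt.comp ζ (second hs) (hexp ζ)
  have h4 := h3.clm_apply (hexpv v ζ)
  rw [h4.fderiv]
  simp only [ContinuousLinearMap.add_apply, ContinuousLinearMap.comp_apply,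
    ContinuousLinearMap.flip_apply, ContinuousLinearMap.smul_apply,
    ContinuousLinearMap.one_apply, smul_eq_mul]
  ring

lemma bil (B : ℂ →L[ℝ] ℂ →L[ℝ] ℝ) (w : ℂ) : B w w = w.re ^ 2 * B 1 1 +
    w.re * w.im * (B 1 Complex.I + B Complex.I 1) + w.im ^ 2 * B Complex.I Complex.I := by
  have e : w = w.re • (1 : ℂ) + w.im • Complex.I := by
    simp only [Complex.real_smul, mul_one]
    exact (Complex.re_add_im w).symm
  conv_lhs => rw [e]
  simp only [map_add, map_smul, ContinuousLinearMap.add_apply, ContinuousLinearMap.smul_apply,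
    smul_eq_mul]
  ring

lemma la_exp {u : ℂ → ℝ} {ζ : ℂ} (hs : ContDiffAt ℝ ∞ u (Complex.exp ζ)) :
    la (fun ζ => u (Complex.exp ζ)) ζ = Real.exp (2 * ζ.re) * la u (Complex.exp ζ) := by
  unfold la
  rw [dd_dd hs, dd_dd hs, chain hs, chain hs]
  have e1 : Complex.exp ζ * Complex.I * Complex.I = -(Complex.exp ζ * 1 * 1) := by
    rw [mul_assoc _ Complex.I Complex.I, Complex.I_mul_I]
    ring
  rw [e1, map_neg, bil _ (Complex.exp ζ * 1), bil _ (Complex.exp ζ * Complex.I)]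
  have r3 : (Complex.exp ζ * Complex.I).re = -(Complex.exp ζ).im := Complex.mul_I_re _
  have r4 : (Complex.exp ζ * Complex.I).im = (Complex.exp ζ).re := Complex.mul_I_im _
  rw [mul_one, r3, r4]
  have e2 : Real.exp (2 * ζ.re) = (Complex.exp ζ).re ^ 2 + (Complex.exp ζ).im ^ 2 := by
    have h1 : ‖Complex.exp ζ‖ = Real.exp ζ.re := Complex.norm_exp ζ
    have h2 : ‖Complex.exp ζ‖ ^ 2 = (Complex.exp ζ).re ^ 2 + (Complex.exp ζ).im ^ 2 := by
      rw [← Complex.normSq_eq_norm_sq, Complex.normSq_apply]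
      ring
    rw [← h2, h1, ← Real.exp_nat_mul]
    norm_num
  rw [e2]
  ring

lemma la_congr' {u W : ℂ → ℝ} {x : ℂ} (h : u =ᶠ[𝓝 x] W) : la u x = la W x := by
  have h1 : ∀ v, dd v (dd v u) x = dd v (dd v W) x := by
    intro v
    have h2 : dd v u =ᶠ[𝓝 x] dd v W := by
      filter_upwards [h.eventually_nhds] with y hy
      unfold dd
      rw [Filter.EventuallyEq.fderiv_eq hy]
    unfold dd at h2 ⊢
    rw [h2.fderiv_eq]
  unfold la
  rw [h1, h1]

lemma wat_at {Ω : Set ℂ} {lam : ℝ} {u : ℂ → ℝ} (hu : Wat Ω lam u) {x : ℂ} (hx : x ∈ Ω) :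
    ContDiffAt ℝ ∞ u x ∧ la u x = -(lam * u x) := by
  obtain ⟨r, hr, W, hW, hb, h1⟩ := hu.loc x hx
  have hmem : x ∈ Metric.ball x r := Metric.mem_ball_self hr
  have hev : u =ᶠ[𝓝 x] W := by
    filter_upwards [Metric.ball_mem_nhds x hr] with y hy
    exact (h1 y hy).1
  constructor
  · exact (hW.sm.contDiffAt).congr_of_eventuallyEq hev
  · rw [la_congr' hev, (h1 x hmem).2, (h1 x hmem).1]

/-- the open strip -/
def St (α : ℝ) : Set ℂ := {ζ | ζ.re < 0 ∧ 0 < ζ.im ∧ ζ.im < α}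

lemma exp_mem {α : ℝ} {ζ : ℂ} (h : ζ ∈ St α) : Complex.exp ζ ∈ gsec α := by
  obtain ⟨h1, h2, h3⟩ := h
  refine ⟨Real.exp ζ.re, ζ.im, Real.exp_pos _, by rw [Real.exp_lt_one_iff]; exact h1, h2, h3, ?_⟩
  rw [← X_exp, Complex.re_add_im]

lemma strip {α lam : ℝ} {u : ℂ → ℝ} (hu : Wat (gsec α) lam u) {ζ : ℂ} (h : ζ ∈ St α) :
    ContDiffAt ℝ ∞ (fun ζ => u (Complex.exp ζ)) ζ ∧
      la (fun ζ => u (Complex.exp ζ)) ζ = -(lam * Real.exp (2 * ζ.re) * u (Complex.exp ζ)) := by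
  obtain ⟨h1, h2⟩ := wat_at hu (exp_mem h)
  refine ⟨?_, ?_⟩
  · have hsm : ContDiff ℝ ∞ (fun ζ : ℂ => Complex.exp ζ) := Complex.contDiff_exp
    exact ContDiffAt.comp ζ h1 hsm.contDiffAt
  · rw [la_exp h1, h2]
    ring

end SR1

namespace SR1

/-- smooth on the strip -/
def Sm (α : ℝ) (V : ℂ → ℝ) : Prop := ∀ ζ ∈ St α, ContDiffAt ℝ ∞ V ζ

theorem Sm.dd {α : ℝ} {V : ℂ → ℝ} (h : Sm α V) (v : ℂ) : Sm α (dd v V) :=
  fun ζ hζ => cda_dd (h ζ hζ)

/-- the point with coordinates `ξ`, `δ + t η` -/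
noncomputable def P (δ t ξ η : ℝ) : ℂ := (ξ : ℂ) + ((δ + t * η : ℝ) : ℂ) * Complex.I

lemma P_mem {α δ t ξ η : ℝ} (hδ : 0 < δ) (ht : 0 < t) (hs : δ + t * α < α) (hξ : ξ < 0)
    (hη : η ∈ Icc 0 α) : P δ t ξ η ∈ St α := by
  unfold P
  refine ⟨by simpa using hξ, ?_, ?_⟩
  · simp only [Complex.add_im, Complex.ofReal_im, Complex.mul_im, Complex.ofReal_re, Complex.I_im,
      Complex.I_re, mul_one, mul_zero, add_zero, zero_add]
    have := mul_nonneg ht.le hη.1
    linarith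
  · simp only [Complex.add_im, Complex.ofReal_im, Complex.mul_im, Complex.ofReal_re, Complex.I_im,
      Complex.I_re, mul_one, mul_zero, add_zero, zero_add]
    have := mul_le_mul_of_nonneg_left hη.2 ht.le
    linarith

lemma P_cont (δ t : ℝ) : Continuous fun p : ℝ × ℝ => P δ t p.1 p.2 := by
  unfold P
  fun_prop

lemma P_contOn {α δ t : ℝ} (hδ : 0 < δ) (ht : 0 < t) (hs : δ + t * α < α) {V : ℂ → ℝ}
    (h : Sm α V) :
    ContinuousOn (fun p : ℝ × ℝ => V (P δ t p.1 p.2)) (Iio 0 ×ˢ Icc 0 α) := by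
  intro p hp
  have h1 : ContinuousAt V (P δ t p.1 p.2) := (h _ (P_mem hδ ht hs hp.1 hp.2)).continuousAt
  exact (ContinuousAt.comp (f := fun p : ℝ × ℝ => P δ t p.1 p.2) h1
    (P_cont δ t).continuousAt).continuousWithinAt

lemma P_contLine {α δ t : ℝ} (hδ : 0 < δ) (ht : 0 < t) (hs : δ + t * α < α) {V : ℂ → ℝ}
    (h : Sm α V) {ξ : ℝ} (hξ : ξ < 0) :
    ContinuousOn (fun η : ℝ => V (P δ t ξ η)) (Icc 0 α) := by
  have h1 := (P_contOn hδ ht hs h).comp (f := fun η : ℝ => (ξ, η)) (s := Icc 0 α)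
    (by fun_prop) (fun η hη => ⟨hξ, hη⟩)
  exact h1

/-- the sine coefficient -/
noncomputable def IW (α ν δ t : ℝ) (V : ℂ → ℝ) (ξ : ℝ) : ℝ :=
  ∫ η in (0:ℝ)..α, V (P δ t ξ η) * Real.sin (ν * η)

lemma IW_int {α δ t : ℝ} (hα : 0 < α) (hδ : 0 < δ) (ht : 0 < t) (hs : δ + t * α < α)
    {V : ℂ → ℝ} (h : Sm α V) {ξ : ℝ} (hξ : ξ < 0) {g : ℝ → ℝ} (hg : Continuous g) :
    IntervalIntegrable (fun η : ℝ => V (P δ t ξ η) * g η) volume 0 α := by
  refine ContinuousOn.intervalIntegrable ?_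
  rw [uIcc_of_le hα.le]
  exact (P_contLine hδ ht hs h hξ).mul hg.continuousOn

lemma IW_deriv {α ν δ t : ℝ} (hα : 0 < α) (hδ : 0 < δ) (ht : 0 < t) (hs : δ + t * α < α)
    {V : ℂ → ℝ} (h : Sm α V) {ξ : ℝ} (hξ : ξ < 0) :
    HasDerivAt (IW α ν δ t V) (IW α ν δ t (dd 1 V) ξ) ξ := by
  set ε := -ξ / 2 with hε
  have hε0 : 0 < ε := by rw [hε]; linarith
  have hball : ∀ x ∈ Metric.closedBall ξ ε, x < 0 := by
    intro x hx
    rw [Metric.mem_closedBall, Real.dist_eq] at hx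
    have h1 := (abs_le.1 hx).2
    linarith
  have hcomp : IsCompact (Metric.closedBall ξ ε ×ˢ Icc 0 α) :=
    (isCompact_closedBall ξ ε).prod isCompact_Icc
  have hcd : ContinuousOn (fun p : ℝ × ℝ => dd 1 V (P δ t p.1 p.2))
      (Metric.closedBall ξ ε ×ˢ Icc 0 α) :=
    (P_contOn hδ ht hs (h.dd 1)).mono fun p hp => ⟨hball p.1 hp.1, hp.2⟩
  obtain ⟨C, hC⟩ := hcomp.exists_bound_of_continuousOn hcd
  have hsin : Continuous fun η : ℝ => Real.sin (ν * η) := by fun_prop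
  have hmain := intervalIntegral.hasDerivAt_integral_of_dominated_loc_of_deriv_le
    (μ := volume) (a := 0) (b := α) (s := Metric.closedBall ξ ε) (x₀ := ξ)
    (𝕜 := ℝ)
    (F := fun (x η : ℝ) => V (P δ t x η) * Real.sin (ν * η))
    (F' := fun (x η : ℝ) => dd 1 V (P δ t x η) * Real.sin (ν * η)) (bound := fun _ => C)
    (Metric.closedBall_mem_nhds ξ hε0) ?_ ?_ ?_ ?_ ?_ ?_
  · exact hmain.2
  · filter_upwards [Metric.closedBall_mem_nhds ξ hε0] with x hx
    exact (IW_int hα hδ ht hs h (hball x hx) hsin).aestronglyMeasurable_restrict_uIoc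
  · exact IW_int hα hδ ht hs h hξ hsin
  · exact (IW_int hα hδ ht hs (h.dd 1) hξ hsin).aestronglyMeasurable_restrict_uIoc
  · refine Filter.Eventually.of_forall fun η hη x hx => ?_
    rw [uIoc_of_le hα.le] at hη
    rw [norm_mul]
    have h1 := hC (x, η) ⟨hx, hη.1.le, hη.2⟩
    have h2 : ‖Real.sin (ν * η)‖ ≤ 1 := Real.abs_sin_le_one _
    calc ‖dd 1 V (P δ t x η)‖ * ‖Real.sin (ν * η)‖ ≤ C * 1 :=
          mul_le_mul h1 h2 (norm_nonneg _) ((norm_nonneg _).trans h1)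
      _ = C := mul_one C
  · exact intervalIntegrable_const
  · refine Filter.Eventually.of_forall fun η hη x hx => ?_
    rw [uIoc_of_le hα.le] at hη
    have h1 : HasFDerivAt V (fderiv ℝ V (P δ t x η)) (P δ t x η) :=
      ((h _ (P_mem hδ ht hs (hball x hx) ⟨hη.1.le, hη.2⟩)).differentiableAt (by simp)).hasFDerivAt
    have h2 : HasDerivAt (fun x : ℝ => P δ t x η) 1 x :=
      (Complex.ofRealCLM.hasDerivAt (x := x)).add_const (((δ + t * η : ℝ) : ℂ) * Complex.I)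
    have h3 := h1.comp_hasDerivAt x h2
    exact h3.mul_const _

lemma P_deriv {α δ t : ℝ} (hδ : 0 < δ) (ht : 0 < t) (hs : δ + t * α < α)
    {V : ℂ → ℝ} (h : Sm α V) {ξ η : ℝ} (hξ : ξ < 0) (hη : η ∈ Icc 0 α) :
    HasDerivAt (fun η : ℝ => V (P δ t ξ η)) (t * dd Complex.I V (P δ t ξ η)) η := by
  have h1 : HasFDerivAt V (fderiv ℝ V (P δ t ξ η)) (P δ t ξ η) :=
    ((h _ (P_mem hδ ht hs hξ hη)).differentiableAt (by simp)).hasFDerivAt
  have h2 : HasDerivAt (fun η : ℝ => P δ t ξ η) (t • Complex.I) η := by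
    have h3 : HasDerivAt (fun η : ℝ => δ + t * η) t η := by
      simpa using ((hasDerivAt_id η).const_mul t).const_add δ
    have h4 := (h3.ofReal_comp.mul_const Complex.I).const_add (ξ : ℂ)
    rw [Complex.real_smul]
    exact h4
  have h3 := h1.comp_hasDerivAt η h2
  rw [map_smul, smul_eq_mul] at h3
  exact h3

/-- integration by parts twice -/
lemma IW_parts {α ν δ t : ℝ} (hα : 0 < α) (hδ : 0 < δ) (ht : 0 < t) (hs : δ + t * α < α)
    {n : ℕ} (hν : ν * α = n * Real.pi)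
    {V : ℂ → ℝ} (h : Sm α V) {ξ : ℝ} (hξ : ξ < 0) :
    t ^ 2 * IW α ν δ t (dd Complex.I (dd Complex.I V)) ξ =
      -(ν ^ 2 * IW α ν δ t V ξ) - ν * ((-1) ^ n * V (P δ t ξ α) - V (P δ t ξ 0)) := by
  have hsin : Continuous fun η : ℝ => Real.sin (ν * η) := by fun_prop
  have hcos : Continuous fun η : ℝ => ν * Real.cos (ν * η) := by fun_prop
  have hds : ∀ η, HasDerivAt (fun η : ℝ => Real.sin (ν * η)) (ν * Real.cos (ν * η)) η := by
    intro η
    have h1 : HasDerivAt (fun s : ℝ => ν * s) ν η := by simpa using (hasDerivAt_id η).const_mul ν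
    exact h1.sin.congr_deriv (by ring)
  have hdc : ∀ η, HasDerivAt (fun η : ℝ => ν * Real.cos (ν * η)) (-(ν ^ 2 * Real.sin (ν * η))) η := by
    intro η
    have h1 : HasDerivAt (fun s : ℝ => ν * s) ν η := by simpa using (hasDerivAt_id η).const_mul ν
    exact (h1.cos.const_mul ν).congr_deriv (by ring)
  have k1 := intervalIntegral.integral_mul_deriv_eq_deriv_mul (a := 0) (b := α)
    (u := fun η : ℝ => Real.sin (ν * η)) (u' := fun η : ℝ => ν * Real.cos (ν * η))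
    (v := fun η : ℝ => dd Complex.I V (P δ t ξ η))
    (v' := fun η : ℝ => t * dd Complex.I (dd Complex.I V) (P δ t ξ η))
    (fun η _ => hds η)
    (fun η hη => P_deriv hδ ht hs (h.dd _) hξ (by rwa [uIcc_of_le hα.le] at hη))
    (hcos.intervalIntegrable _ _) (by
      refine ContinuousOn.intervalIntegrable ?_
      rw [uIcc_of_le hα.le]
      exact continuousOn_const.mul (P_contLine hδ ht hs ((h.dd _).dd _) hξ))
  have k2 := intervalIntegral.integral_mul_deriv_eq_deriv_mul (a := 0) (b := α)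
    (u := fun η : ℝ => ν * Real.cos (ν * η)) (u' := fun η : ℝ => -(ν ^ 2 * Real.sin (ν * η)))
    (v := fun η : ℝ => V (P δ t ξ η))
    (v' := fun η : ℝ => t * dd Complex.I V (P δ t ξ η))
    (fun η _ => hdc η)
    (fun η hη => P_deriv hδ ht hs h hξ (by rwa [uIcc_of_le hα.le] at hη))
    ((by fun_prop : Continuous fun η : ℝ => -(ν ^ 2 * Real.sin (ν * η))).intervalIntegrable _ _) (by
      refine ContinuousOn.intervalIntegrable ?_
      rw [uIcc_of_le hα.le]
      exact continuousOn_const.mul (P_contLine hδ ht hs (h.dd _) hξ))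
  have s1 : Real.sin (ν * α) = 0 := by rw [hν, Real.sin_nat_mul_pi]
  have s2 : Real.cos (ν * α) = (-1) ^ n := by rw [hν, Real.cos_nat_mul_pi]
  have e1 : ∫ η in (0:ℝ)..α, Real.sin (ν * η) * (t * dd Complex.I (dd Complex.I V) (P δ t ξ η)) =
      t * IW α ν δ t (dd Complex.I (dd Complex.I V)) ξ := by
    unfold IW
    rw [← intervalIntegral.integral_const_mul]
    refine intervalIntegral.integral_congr fun η _ => ?_
    ring
  have e2 : ∫ η in (0:ℝ)..α, ν * Real.cos (ν * η) * (t * dd Complex.I V (P δ t ξ η)) =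
      t * ∫ η in (0:ℝ)..α, ν * Real.cos (ν * η) * dd Complex.I V (P δ t ξ η) := by
    rw [← intervalIntegral.integral_const_mul]
    refine intervalIntegral.integral_congr fun η _ => ?_
    ring
  have e3 : ∫ η in (0:ℝ)..α, -(ν ^ 2 * Real.sin (ν * η)) * V (P δ t ξ η) =
      -(ν ^ 2 * IW α ν δ t V ξ) := by
    unfold IW
    rw [← intervalIntegral.integral_const_mul, ← intervalIntegral.integral_neg]
    refine intervalIntegral.integral_congr fun η _ => ?_
    ring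
  rw [e1] at k1
  rw [e2, e3] at k2
  rw [s1, mul_zero, Real.sin_zero] at k1
  rw [s2, mul_zero, Real.cos_zero] at k2
  have k3 : t ^ 2 * IW α ν δ t (dd Complex.I (dd Complex.I V)) ξ =
      t * (t * IW α ν δ t (dd Complex.I (dd Complex.I V)) ξ) := by ring
  rw [k3, k1]
  linear_combination -k2

/-- the second derivative test -/
lemma second_le {c c1 : ℝ → ℝ} {x c2 : ℝ} (hd : ∀ᶠ y in 𝓝 x, HasDerivAt c (c1 y) y)
    (hdd : HasDerivAt c1 c2 x) (hlm : IsLocalMax c x) : c2 ≤ 0 := by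
  by_contra hcon
  push Not at hcon
  have hdc : deriv c =ᶠ[𝓝 x] c1 := by
    filter_upwards [hd] with y hy
    exact hy.deriv
  have hdd1 : deriv (deriv c) x = c2 := by
    rw [hdc.deriv_eq]
    exact hdd.deriv
  have hmin := isLocalMin_of_deriv_deriv_pos (by rw [hdd1]; exact hcon) hlm.deriv_eq_zero
    hd.self_of_nhds.continuousAt
  have hconst : c =ᶠ[𝓝 x] fun _ => c x := by
    filter_upwards [hlm, hmin] with y h2 h3
    exact le_antisymm h2 h3
  have h4 : deriv c =ᶠ[𝓝 x] fun _ => 0 := by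
    have := hconst.deriv
    simpa using this
  have h5 : deriv (deriv c) x = 0 := by
    rw [h4.deriv_eq, deriv_const]
  rw [hdd1] at h5
  exact hcon.ne' h5

end SR1

namespace SR1

lemma IW_ode {α lam ν δ t : ℝ} (hα : 0 < α) (hδ : 0 < δ) (ht : 0 < t) (hs : δ + t * α < α)
    {n : ℕ} (hν : ν * α = n * Real.pi)
    {u : ℂ → ℝ} (hu : Wat (gsec α) lam u) {ξ : ℝ} (hξ : ξ < 0) :
    t ^ 2 * IW α ν δ t (dd 1 (dd 1 (fun ζ => u (Complex.exp ζ)))) ξ =
      (ν ^ 2 - lam * t ^ 2 * Real.exp (2 * ξ)) * IW α ν δ t (fun ζ => u (Complex.exp ζ)) ξ +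
      ν * ((-1) ^ n * u (Complex.exp (P δ t ξ α)) - u (Complex.exp (P δ t ξ 0))) := by
  have hS : Sm α (fun ζ => u (Complex.exp ζ)) := fun ζ hζ => (strip hu hζ).1
  have hsin : Continuous fun η : ℝ => Real.sin (ν * η) := by fun_prop
  have k1 := IW_parts hα hδ ht hs hν hS hξ
  have k2 : IW α ν δ t (dd 1 (dd 1 (fun ζ => u (Complex.exp ζ)))) ξ +
      IW α ν δ t (dd Complex.I (dd Complex.I (fun ζ => u (Complex.exp ζ)))) ξ =
      -(lam * Real.exp (2 * ξ) * IW α ν δ t (fun ζ => u (Complex.exp ζ)) ξ) := by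
    unfold IW
    rw [← intervalIntegral.integral_add
      (IW_int hα hδ ht hs ((hS.dd 1).dd 1) hξ hsin)
      (IW_int hα hδ ht hs ((hS.dd Complex.I).dd Complex.I) hξ hsin),
      ← intervalIntegral.integral_const_mul, ← intervalIntegral.integral_neg]
    refine intervalIntegral.integral_congr fun η hη => ?_
    rw [uIcc_of_le hα.le] at hη
    have h1 := (strip hu (P_mem hδ ht hs hξ hη)).2
    have h2 : (P δ t ξ η).re = ξ := by simp [P]
    rw [h2] at h1
    unfold la at h1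
    show dd 1 (dd 1 (fun ζ => u (Complex.exp ζ))) (P δ t ξ η) * Real.sin (ν * η) +
      dd Complex.I (dd Complex.I (fun ζ => u (Complex.exp ζ))) (P δ t ξ η) * Real.sin (ν * η) =
      -(lam * Real.exp (2 * ξ) * (u (Complex.exp (P δ t ξ η)) * Real.sin (ν * η)))
    rw [← add_mul, h1]
    ring
  linear_combination t ^ 2 * k2 - k1

lemma not_mem {α : ℝ} (h0 : 0 < α) (h1 : α < 2 * Real.pi) {r θ : ℝ} (hr : 0 ≤ r)
    (h : r = 0 ∨ 1 ≤ r ∨ θ = 0 ∨ θ = α) : X r θ ∉ gsec α := by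
  rintro ⟨r', θ', g0, g1, g2, g3, g4⟩
  have hpi := Real.pi_pos
  have hn : r = r' := by
    have := congrArg (fun z : ℂ => ‖z‖) g4
    simp only [Pool.Agent.TH298.Sch.norm_X] at this
    rwa [abs_of_nonneg hr, abs_of_pos g0] at this
  rcases h with h | h | h | h
  · linarith
  · linarith
  · obtain ⟨k, hk⟩ := X_angle (by rw [hn]; exact g0) g0 g4
    rw [h] at hk
    have k0 : (k : ℝ) < 0 := by
      by_contra! hc
      nlinarith
    have k1 : (-1 : ℝ) < k := by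
      by_contra! hc
      nlinarith
    have k0' : k < 0 := by exact_mod_cast k0
    have k1' : -1 < k := by exact_mod_cast k1
    omega
  · obtain ⟨k, hk⟩ := X_angle (by rw [hn]; exact g0) g0 g4
    rw [h] at hk
    have k0 : (0 : ℝ) < k := by
      by_contra! hc
      nlinarith
    have k1 : (k : ℝ) < 1 := by
      by_contra! hc
      nlinarith
    have k0' : 0 < k := by exact_mod_cast k0
    have k1' : k < 1 := by exact_mod_cast k1
    omega

/-- the sine coefficient in polar coordinates -/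
noncomputable def AA (α ν : ℝ) (u : ℂ → ℝ) (δ r : ℝ) : ℝ :=
  ∫ η in (0:ℝ)..α, u (X r (δ + (1 - 2 * δ / α) * η)) * Real.sin (ν * η)

lemma AA_cont (α ν : ℝ) {u : ℂ → ℝ} (hu : Continuous u) :
    Continuous fun p : ℝ × ℝ => AA α ν u p.1 p.2 := by
  unfold AA
  refine intervalIntegral.continuous_parametric_intervalIntegral_of_continuous' ?_ _ _
  have hX := Pool.Agent.TH298.Sch.X_cont
  have h1 : Continuous fun q : (ℝ × ℝ) × ℝ => X q.1.2 (q.1.1 + (1 - 2 * q.1.1 / α) * q.2) :=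
    hX.comp (f := fun q : (ℝ × ℝ) × ℝ => (q.1.2, q.1.1 + (1 - 2 * q.1.1 / α) * q.2)) (by fun_prop)
  have h2 : Continuous fun q : (ℝ × ℝ) × ℝ =>
      u (X q.1.2 (q.1.1 + (1 - 2 * q.1.1 / α) * q.2)) * Real.sin (ν * q.2) :=
    (hu.comp h1).mul (by fun_prop)
  exact h2

lemma AA_exp (α ν : ℝ) (u : ℂ → ℝ) (δ ξ : ℝ) :
    AA α ν u δ (Real.exp ξ) = IW α ν δ (1 - 2 * δ / α) (fun ζ => u (Complex.exp ζ)) ξ := by
  unfold AA IW P
  refine intervalIntegral.integral_congr fun η _ => ?_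
  simp only
  rw [X_exp]

lemma AA_end {α lam ν : ℝ} (h0 : 0 < α) (h1 : α < 2 * Real.pi) {u : ℂ → ℝ}
    (hu : Wat (gsec α) lam u) (δ : ℝ) {r : ℝ} (hr : r = 0 ∨ r = 1) : AA α ν u δ r = 0 := by
  unfold AA
  have h2 : ∀ η : ℝ, u (X r (δ + (1 - 2 * δ / α) * η)) * Real.sin (ν * η) = 0 := by
    intro η
    rw [hu.out _ (not_mem h0 h1 ?_ ?_), zero_mul]
    · rcases hr with h | h <;> rw [h] <;> norm_num
    · rcases hr with h | h
      · exact Or.inl h
      · exact Or.inr (Or.inl h.ge)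
  simp only [h2, intervalIntegral.integral_zero]

lemma AA_le {α lam ν δ : ℝ} (h0 : 0 < α) (h1 : α < 2 * Real.pi) (hlam : 0 < lam) {u : ℂ → ℝ}
    (hu : Wat (gsec α) lam u) (hδ : 0 < δ) (hδα : 2 * δ < α) {n : ℕ} (hν : ν * α = n * Real.pi)
    (hν0 : 0 < ν) (hνl : lam < ν ^ 2) {E : ℝ} (hE : 0 ≤ E)
    (hE1 : ∀ r ∈ Icc (0:ℝ) 1, |u (X r δ)| ≤ E ∧ |u (X r (α - δ))| ≤ E) :
    ∀ r ∈ Icc (0:ℝ) 1, AA α ν u δ r ≤ 2 * ν * E / (ν ^ 2 - lam) := by
  have hRHS : 0 ≤ 2 * ν * E / (ν ^ 2 - lam) := div_nonneg (by positivity) (by linarith)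
  have hc : Continuous (AA α ν u δ) :=
    (AA_cont α ν hu.cont).comp (f := fun r : ℝ => (δ, r)) (by fun_prop)
  obtain ⟨r₀, hr₀, hmax⟩ := isCompact_Icc.exists_isMaxOn (s := Icc (0:ℝ) 1) ⟨0, by simp⟩
    hc.continuousOn
  intro r hr
  refine (hmax hr).trans ?_
  change AA α ν u δ r₀ ≤ _
  by_cases hpos : AA α ν u δ r₀ ≤ 0
  · exact hpos.trans hRHS
  push Not at hpos
  have hr1 : 0 < r₀ := by
    refine lt_of_le_of_ne hr₀.1 fun h => ?_
    rw [AA_end h0 h1 hu δ (Or.inl h.symm)] at hpos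
    exact lt_irrefl _ hpos
  have hr2 : r₀ < 1 := by
    refine lt_of_le_of_ne hr₀.2 fun h => ?_
    rw [AA_end h0 h1 hu δ (Or.inr h)] at hpos
    exact lt_irrefl _ hpos
  set t : ℝ := 1 - 2 * δ / α with ht
  have ht0 : 0 < t := by
    rw [ht, sub_pos, div_lt_one h0]
    exact hδα
  have ht1 : t ≤ 1 := by
    rw [ht]
    have : 0 ≤ 2 * δ / α := by positivity
    linarith
  have hta : δ + t * α = α - δ := by
    rw [ht]
    field_simp
    ring
  have hs : δ + t * α < α := by rw [hta]; linarith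
  set ξ₀ := Real.log r₀ with hξ₀
  have hξ : ξ₀ < 0 := Real.log_neg hr1 hr2
  have hexp : Real.exp ξ₀ = r₀ := Real.exp_log hr1
  have hS : Sm α (fun ζ => u (Complex.exp ζ)) := fun ζ hζ => (strip hu hζ).1
  have hlm : IsLocalMax (IW α ν δ t (fun ζ => u (Complex.exp ζ))) ξ₀ := by
    filter_upwards [Iio_mem_nhds hξ] with ξ hξ'
    rw [← AA_exp, ← AA_exp, hexp]
    exact hmax ⟨(Real.exp_pos ξ).le, (Real.exp_lt_one_iff.2 hξ').le⟩
  have h2 := second_le (x := ξ₀)
    (by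
      filter_upwards [Iio_mem_nhds hξ] with ξ hξ'
      exact IW_deriv (ν := ν) h0 hδ ht0 hs hS hξ')
    (IW_deriv (ν := ν) h0 hδ ht0 hs (hS.dd 1) hξ) hlm
  have h3 := IW_ode h0 hδ ht0 hs hν hu hξ
  rw [← AA_exp, hexp] at h3
  have e1 : Complex.exp (P δ t ξ₀ α) = X r₀ (α - δ) := by
    unfold P
    rw [X_exp, hexp, hta]
  have e2 : Complex.exp (P δ t ξ₀ 0) = X r₀ δ := by
    unfold P
    rw [X_exp, hexp, mul_zero, add_zero]
  rw [e1, e2] at h3
  obtain ⟨b1, b2⟩ := hE1 r₀ hr₀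
  have h4 : t ^ 2 * IW α ν δ t (dd 1 (dd 1 (fun ζ => u (Complex.exp ζ)))) ξ₀ ≤ 0 :=
    mul_nonpos_of_nonneg_of_nonpos (by positivity) h2
  rw [h3] at h4
  have h5 : -(2 * E) ≤ (-1) ^ n * u (X r₀ (α - δ)) - u (X r₀ δ) := by
    have h6 : |(-1) ^ n * u (X r₀ (α - δ))| ≤ E := by
      rw [abs_mul, abs_pow, abs_neg, abs_one, one_pow, one_mul]
      exact b2
    have h7 := (abs_le.1 h6).1
    have h8 := (abs_le.1 b1).2
    linarith
  have h6 : -(2 * ν * E) ≤ ν * ((-1) ^ n * u (X r₀ (α - δ)) - u (X r₀ δ)) := by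
    have := mul_le_mul_of_nonneg_left h5 hν0.le
    linarith
  have h7 : Real.exp (2 * ξ₀) ≤ 1 := by
    rw [Real.exp_le_one_iff]
    linarith
  have h8 : lam * t ^ 2 * Real.exp (2 * ξ₀) ≤ lam := by
    have h9 : t ^ 2 ≤ 1 := pow_le_one₀ ht0.le ht1
    calc lam * t ^ 2 * Real.exp (2 * ξ₀) ≤ lam * 1 * 1 :=
          mul_le_mul (mul_le_mul_of_nonneg_left h9 hlam.le) h7 (Real.exp_pos _).le (by positivity)
      _ = lam := by ring
  rw [le_div_iff₀ (by linarith)]
  have h9 : (ν ^ 2 - lam) * AA α ν u δ r₀ ≤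
      (ν ^ 2 - lam * t ^ 2 * Real.exp (2 * ξ₀)) * AA α ν u δ r₀ :=
    mul_le_mul_of_nonneg_right (by linarith) hpos.le
  rw [mul_comm]
  linarith

lemma AA_abs {α lam ν δ : ℝ} (h0 : 0 < α) (h1 : α < 2 * Real.pi) (hlam : 0 < lam) {u : ℂ → ℝ}
    (hu : Wat (gsec α) lam u) (hδ : 0 < δ) (hδα : 2 * δ < α) {n : ℕ} (hν : ν * α = n * Real.pi)
    (hν0 : 0 < ν) (hνl : lam < ν ^ 2) {E : ℝ} (hE : 0 ≤ E)
    (hE1 : ∀ r ∈ Icc (0:ℝ) 1, |u (X r δ)| ≤ E ∧ |u (X r (α - δ))| ≤ E) :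
    ∀ r ∈ Icc (0:ℝ) 1, |AA α ν u δ r| ≤ 2 * ν * E / (ν ^ 2 - lam) := by
  intro r hr
  rw [abs_le']
  refine ⟨AA_le h0 h1 hlam hu hδ hδα hν hν0 hνl hE hE1 r hr, ?_⟩
  have h2 := AA_le h0 h1 hlam hu.neg hδ hδα hν hν0 hνl hE
    (fun r hr => by rw [abs_neg, abs_neg]; exact hE1 r hr) r hr
  have h3 : AA α ν (fun x => -u x) δ r = -AA α ν u δ r := by
    unfold AA
    rw [← intervalIntegral.integral_neg]
    refine intervalIntegral.integral_congr fun η _ => ?_
    ring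
  rwa [h3] at h2

lemma bd_small {α lam : ℝ} (h0 : 0 < α) (h1 : α < 2 * Real.pi) {u : ℂ → ℝ}
    (hu : Wat (gsec α) lam u) {ε : ℝ} (hε : 0 < ε) :
    ∃ δ₀ > 0, ∀ δ, 0 < δ → δ < δ₀ → ∀ r ∈ Icc (0:ℝ) 1, |u (X r δ)| ≤ ε ∧ |u (X r (α - δ))| ≤ ε := by
  have hc : Continuous fun p : ℝ × ℝ => u (X p.1 p.2) := hu.cont.comp Pool.Agent.TH298.Sch.X_cont
  have hK : IsCompact (Icc (0:ℝ) 1 ×ˢ Icc (0:ℝ) α) := isCompact_Icc.prod isCompact_Icc
  have huc := hK.uniformContinuousOn_of_continuous hc.continuousOn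
  rw [Metric.uniformContinuousOn_iff] at huc
  obtain ⟨δ₁, hδ₁, h2⟩ := huc ε hε
  refine ⟨min δ₁ α, lt_min hδ₁ h0, fun δ hδ hδ' r hr => ?_⟩
  have hd1 : δ < δ₁ := hδ'.trans_le (min_le_left _ _)
  have hd2 : δ < α := hδ'.trans_le (min_le_right _ _)
  constructor
  · have h3 := h2 (r, δ) ⟨hr, hδ.le, hd2.le⟩ (r, 0) ⟨hr, le_rfl, h0.le⟩ (by
      rw [Prod.dist_eq]
      simp only [dist_self, Real.dist_eq, sub_zero, abs_of_pos hδ]
      exact max_lt hδ₁ hd1)
    simp only at h3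
    rw [hu.out _ (not_mem h0 h1 hr.1 (Or.inr (Or.inr (Or.inl rfl)))), Real.dist_eq, sub_zero] at h3
    exact h3.le
  · have h3 := h2 (r, α - δ) ⟨hr, by linarith, by linarith⟩ (r, α) ⟨hr, h0.le, le_rfl⟩ (by
      rw [Prod.dist_eq]
      simp only [dist_self, Real.dist_eq, sub_sub_cancel_left, abs_neg, abs_of_pos hδ]
      exact max_lt hδ₁ hd1)
    simp only at h3
    rw [hu.out _ (not_mem h0 h1 hr.1 (Or.inr (Or.inr (Or.inr rfl)))), Real.dist_eq, sub_zero] at h3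
    exact h3.le

/-- the high coefficients vanish -/
lemma coef_zero {α lam ν : ℝ} (h0 : 0 < α) (h1 : α < 2 * Real.pi) (hlam : 0 < lam) {u : ℂ → ℝ}
    (hu : Wat (gsec α) lam u) {n : ℕ} (hν : ν * α = n * Real.pi)
    (hν0 : 0 < ν) (hνl : lam < ν ^ 2) {r : ℝ} (hr : r ∈ Icc (0:ℝ) 1) : AA α ν u 0 r = 0 := by
  have key : ∀ ε > 0, |AA α ν u 0 r| ≤ ε := by
    intro ε hε
    have hνl' : 0 < ν ^ 2 - lam := by linarith
    obtain ⟨δ₀, hδ₀, h2⟩ := bd_small h0 h1 hu (ε := ε * (ν ^ 2 - lam) / (2 * ν)) (by positivity)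
    have hc : Continuous fun δ : ℝ => |AA α ν u δ r| :=
      ((AA_cont α ν hu.cont).comp (f := fun δ : ℝ => (δ, r)) (by fun_prop)).abs
    have ht : Tendsto (fun δ : ℝ => |AA α ν u δ r|) (𝓝[>] 0) (𝓝 |AA α ν u 0 r|) :=
      (hc.tendsto 0).mono_left nhdsWithin_le_nhds
    refine le_of_tendsto ht ?_
    filter_upwards [Ioo_mem_nhdsGT (lt_min hδ₀ (half_pos h0))] with δ hδ
    have hd1 : δ < δ₀ := hδ.2.trans_le (min_le_left _ _)
    have hd2 : δ < α / 2 := hδ.2.trans_le (min_le_right _ _)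
    have h3 := AA_abs h0 h1 hlam hu hδ.1 (by linarith) hν hν0 hνl
      (E := ε * (ν ^ 2 - lam) / (2 * ν)) (by positivity) (h2 δ hδ.1 hd1) r hr
    refine h3.trans (le_of_eq ?_)
    field_simp
  by_contra hne
  have h2 : 0 < |AA α ν u 0 r| := abs_pos.2 hne
  have h3 := key (|AA α ν u 0 r| / 2) (half_pos h2)
  linarith

end SR1

namespace SR1

lemma nu_mul {α : ℝ} (h0 : 0 < α) (n : ℕ) : Real.pi * n / α * α = n * Real.pi := by
  field_simp

lemma expand {α lam : ℝ} (h0 : 0 < α) (h1 : α < 2 * Real.pi) (hlam : 0 < lam) {u : ℂ → ℝ}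
    (hu : Wat (gsec α) lam u) : ∃ N : ℕ, ∀ r ∈ Icc (0:ℝ) 1, ∀ θ ∈ Icc (0:ℝ) α,
      u (X r θ) = ∑ n ∈ Finset.Icc 1 N, (2 / α * AA α (Real.pi * n / α) u 0 r) *
        Real.sin (Real.pi * n / α * θ) := by
  have hpi := Real.pi_pos
  obtain ⟨N, hN⟩ := exists_nat_gt (α * (lam + 1) / Real.pi)
  refine ⟨N, fun r hr => ?_⟩
  have huX : Continuous fun θ : ℝ => u (X r θ) :=
    (hu.cont.comp Pool.Agent.TH298.Sch.X_cont).comp (f := fun θ : ℝ => (r, θ)) (by fun_prop)
  let f : ℝ → ℝ := fun θ => u (X r θ) - ∑ n ∈ Finset.Icc 1 N,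
    (2 / α * AA α (Real.pi * n / α) u 0 r) * Real.sin (Real.pi * n / α * θ)
  have hf : Continuous f := huX.sub (by fun_prop)
  have key : ∀ θ ∈ Icc (0:ℝ) α, f θ = 0 := by
    apply sine_uniq h0 hf
    · show u (X r 0) - ∑ n ∈ Finset.Icc 1 N,
        (2 / α * AA α (Real.pi * n / α) u 0 r) * Real.sin (Real.pi * n / α * 0) = 0
      rw [hu.out _ (not_mem h0 h1 hr.1 (Or.inr (Or.inr (Or.inl rfl))))]
      simp
    · show u (X r α) - ∑ n ∈ Finset.Icc 1 N,
        (2 / α * AA α (Real.pi * n / α) u 0 r) * Real.sin (Real.pi * n / α * α) = 0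
      rw [hu.out _ (not_mem h0 h1 hr.1 (Or.inr (Or.inr (Or.inr rfl))))]
      rw [Finset.sum_eq_zero, sub_zero]
      intro n _
      rw [nu_mul h0, Real.sin_nat_mul_pi, mul_zero]
    · intro m hm
      have e1 : ∀ t : ℝ, f t * Real.sin (Real.pi * m / α * t) =
          u (X r t) * Real.sin (Real.pi * m / α * t) -
          ∑ n ∈ Finset.Icc 1 N, (2 / α * AA α (Real.pi * n / α) u 0 r) *
            (Real.sin (Real.pi * n / α * t) * Real.sin (Real.pi * m / α * t)) := by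
        intro t
        show (u (X r t) - ∑ n ∈ Finset.Icc 1 N,
          (2 / α * AA α (Real.pi * n / α) u 0 r) * Real.sin (Real.pi * n / α * t)) *
          Real.sin (Real.pi * m / α * t) = _
        rw [sub_mul, Finset.sum_mul]
        congr 1
        refine Finset.sum_congr rfl fun n _ => ?_
        ring
      simp_rw [e1]
      have hc1 : Continuous fun t : ℝ => u (X r t) * Real.sin (Real.pi * m / α * t) :=
        huX.mul (by fun_prop)
      rw [intervalIntegral.integral_sub (hc1.intervalIntegrable _ _)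
        (Continuous.intervalIntegrable (by fun_prop) _ _),
        intervalIntegral.integral_finsetSum
        (fun n _ => Continuous.intervalIntegrable (by fun_prop) _ _)]
      have e2 : ∫ t in (0:ℝ)..α, u (X r t) * Real.sin (Real.pi * m / α * t) =
          AA α (Real.pi * m / α) u 0 r := by
        unfold AA
        refine intervalIntegral.integral_congr fun t _ => ?_
        simp
      have e3 : ∀ n ∈ Finset.Icc 1 N, ∫ t in (0:ℝ)..α,
          (2 / α * AA α (Real.pi * n / α) u 0 r) *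
            (Real.sin (Real.pi * n / α * t) * Real.sin (Real.pi * m / α * t)) =
          if n = m then AA α (Real.pi * m / α) u 0 r else 0 := by
        intro n hn
        rw [intervalIntegral.integral_const_mul,
          t5a_sin_orth h0 n m (Finset.mem_Icc.1 hn).1 hm]
        split_ifs with h
        · rw [h]
          field_simp
        · rw [mul_zero]
      rw [e2, Finset.sum_congr rfl e3, Finset.sum_ite_eq']
      split_ifs with h
      · rw [sub_self]
      · rw [sub_zero]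
        have hmN : N < m := by
          by_contra! hc
          exact h (Finset.mem_Icc.2 ⟨hm, hc⟩)
        have hmN' : (N : ℝ) < m := by exact_mod_cast hmN
        have h3 : α * (lam + 1) / Real.pi < m := hN.trans hmN'
        have h4 : lam + 1 < Real.pi * m / α := by
          rw [div_lt_iff₀ hpi] at h3
          rw [lt_div_iff₀ h0]
          linarith
        exact coef_zero h0 h1 hlam hu (nu_mul h0 m) (by linarith) (by nlinarith) hr
  intro θ hθ
  have h2 : u (X r θ) - ∑ n ∈ Finset.Icc 1 N,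
    (2 / α * AA α (Real.pi * n / α) u 0 r) * Real.sin (Real.pi * n / α * θ) = 0 := key θ hθ
  linarith

lemma cda_Lr {V : ℂ → ℝ} {x : ℂ} (hV : ContDiffAt ℝ ∞ V x) : ContDiffAt ℝ ∞ (Lr V) x := by
  have h1 : ContDiffAt ℝ ∞ (fderiv ℝ V) x := hV.fderiv_right (m := ∞) (by simp)
  exact h1.clm_apply (by fun_prop)

lemma ang {φ : ℂ → ℝ} {r θ : ℝ} (h : ContDiffAt ℝ ∞ φ (X r θ)) :
    HasDerivAt (fun θ : ℝ => φ (X r θ)) (Lr φ (X r θ)) θ := by
  have h1 : HasFDerivAt φ (fderiv ℝ φ (X r θ)) (X r θ) := (h.differentiableAt (by simp)).hasFDerivAt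
  have h2 := h1.comp_hasDerivAt θ (Pool.Agent.TH298.Sch.X_dt r θ)
  refine h2.congr_deriv ?_
  unfold Lr
  congr 1
  unfold Pool.Agent.TH298.Sch.et X
  linear_combination -(r : ℂ) * (Real.sin θ : ℂ) * Complex.I_mul_I

lemma lr_lr {α : ℝ} {u : ℂ → ℝ} {r : ℝ}
    (hsm : ∀ θ ∈ Ioo 0 α, ContDiffAt ℝ ∞ u (X r θ)) {N : ℕ} {c ν : ℕ → ℝ}
    (he : ∀ θ ∈ Ioo 0 α, u (X r θ) = ∑ n ∈ Finset.Icc 1 N, c n * Real.sin (ν n * θ)) :
    ∀ θ ∈ Ioo 0 α, Lr (Lr u) (X r θ) =
      ∑ n ∈ Finset.Icc 1 N, -(c n * ν n ^ 2 * Real.sin (ν n * θ)) := by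
  have hds : ∀ ν θ : ℝ, HasDerivAt (fun η : ℝ => Real.sin (ν * η)) (ν * Real.cos (ν * θ)) θ := by
    intro ν η
    have h1 : HasDerivAt (fun s : ℝ => ν * s) ν η := by simpa using (hasDerivAt_id η).const_mul ν
    exact h1.sin.congr_deriv (by ring)
  have hdc : ∀ ν θ : ℝ, HasDerivAt (fun η : ℝ => ν * Real.cos (ν * η))
      (-(ν ^ 2 * Real.sin (ν * θ))) θ := by
    intro ν η
    have h1 : HasDerivAt (fun s : ℝ => ν * s) ν η := by simpa using (hasDerivAt_id η).const_mul ν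
    exact (h1.cos.const_mul ν).congr_deriv (by ring)
  have s1 : ∀ θ ∈ Ioo 0 α, Lr u (X r θ) =
      ∑ n ∈ Finset.Icc 1 N, c n * (ν n * Real.cos (ν n * θ)) := by
    intro θ hθ
    have h1 : HasDerivAt (fun θ : ℝ => ∑ n ∈ Finset.Icc 1 N, c n * Real.sin (ν n * θ))
        (∑ n ∈ Finset.Icc 1 N, c n * (ν n * Real.cos (ν n * θ))) θ :=
      HasDerivAt.fun_sum fun n _ => (hds (ν n) θ).const_mul (c n)
    have h2 : (fun θ : ℝ => u (X r θ)) =ᶠ[𝓝 θ]
        fun θ : ℝ => ∑ n ∈ Finset.Icc 1 N, c n * Real.sin (ν n * θ) := by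
      filter_upwards [Ioo_mem_nhds hθ.1 hθ.2] with s hs
      exact he s hs
    exact (ang (hsm θ hθ)).unique (h1.congr_of_eventuallyEq h2)
  intro θ hθ
  have h1 : HasDerivAt (fun θ : ℝ => ∑ n ∈ Finset.Icc 1 N, c n * (ν n * Real.cos (ν n * θ)))
      (∑ n ∈ Finset.Icc 1 N, c n * (-(ν n ^ 2 * Real.sin (ν n * θ)))) θ :=
    HasDerivAt.fun_sum fun n _ => (hdc (ν n) θ).const_mul (c n)
  have h2 : (fun θ : ℝ => Lr u (X r θ)) =ᶠ[𝓝 θ]
      fun θ : ℝ => ∑ n ∈ Finset.Icc 1 N, c n * (ν n * Real.cos (ν n * θ)) := by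
    filter_upwards [Ioo_mem_nhds hθ.1 hθ.2] with s hs
    exact s1 s hs
  rw [(ang (cda_Lr (hsm θ hθ))).unique (h1.congr_of_eventuallyEq h2)]
  refine Finset.sum_congr rfl fun n _ => ?_
  ring

/-- continuity by descending to the closed sector -/
lemma descend {α : ℝ} {w : ℂ → ℝ} (ho : IsOpen (gsec α)) (hout : ∀ x, x ∉ gsec α → w x = 0)
    {g : ℝ × ℝ → ℝ} (hg : Continuous g)
    (hw : ∀ r ∈ Icc (0:ℝ) 1, ∀ θ ∈ Icc (0:ℝ) α, w (X r θ) = g (r, θ)) : Continuous w := by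
  rw [continuous_iff_isClosed]
  intro C hC
  have hK : IsCompact (Icc (0:ℝ) 1 ×ˢ Icc (0:ℝ) α) := isCompact_Icc.prod isCompact_Icc
  have e : w ⁻¹' C = ((fun p : ℝ × ℝ => X p.1 p.2) '' ((Icc (0:ℝ) 1 ×ˢ Icc (0:ℝ) α) ∩ g ⁻¹' C)) ∪
      ((gsec α)ᶜ ∩ {x | (0 : ℝ) ∈ C}) := by
    ext x
    constructor
    · intro hx
      by_cases hxg : x ∈ gsec α
      · left
        obtain ⟨r, θ, g0, g1, g2, g3, rfl⟩ := hxg
        refine ⟨(r, θ), ⟨⟨⟨g0.le, g1.le⟩, g2.le, g3.le⟩, ?_⟩, rfl⟩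
        show g (r, θ) ∈ C
        rw [← hw r ⟨g0.le, g1.le⟩ θ ⟨g2.le, g3.le⟩]
        exact hx
      · right
        refine ⟨hxg, ?_⟩
        show (0 : ℝ) ∈ C
        rw [← hout x hxg]
        exact hx
    · rintro (⟨⟨r, θ⟩, ⟨⟨hr, hθ⟩, hp⟩, rfl⟩ | ⟨hx, h0⟩)
      · show w (X r θ) ∈ C
        rw [hw r hr θ hθ]
        exact hp
      · show w x ∈ C
        rw [hout x hx]
        exact h0
  rw [e]
  refine IsClosed.union ?_ (ho.isClosed_compl.inter ?_)
  · exact ((hK.inter_right (hC.preimage hg)).image Pool.Agent.TH298.Sch.X_cont).isClosed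
  · by_cases h : (0 : ℝ) ∈ C
    · simp [h]
    · simp [h]

end SR1

/-- TARGET 1 -/
theorem gsec_convex {α : ℝ} (h0 : 0 < α) (h1 : α ≤ Real.pi) :
    IsOpen (gsec α) ∧ Convex ℝ (gsec α) ∧ Bornology.IsBounded (gsec α) ∧ (gsec α).Nonempty := by
  refine ⟨?_, ?_, ?_, ?_⟩
  · rw [SR1.gsec_char h0 h1]
    refine Metric.isOpen_ball.inter ((isOpen_lt continuous_const Complex.continuous_im).inter
      (isOpen_lt continuous_const ?_))
    fun_prop
  · rw [SR1.gsec_char h0 h1]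
    refine (convex_ball _ _).inter (Convex.inter ?_ ?_)
    · exact convex_halfSpace_gt (f := fun x : ℂ => x.im) Complex.imLm.isLinear 0
    · refine convex_halfSpace_gt
        (f := fun x : ℂ => Real.sin α * x.re - Real.cos α * x.im) ?_ 0
      constructor
      · intro x y
        simp only [Complex.add_re, Complex.add_im]
        ring
      · intro c x
        simp only [Complex.real_smul, Complex.re_ofReal_mul, Complex.im_ofReal_mul, smul_eq_mul]
        ring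
  · rw [SR1.gsec_char h0 h1]
    exact Metric.isBounded_ball.subset inter_subset_left
  · exact ⟨X (1 / 2) (α / 2), 1 / 2, α / 2, by norm_num, by norm_num, half_pos h0,
      half_lt_self h0, rfl⟩

/-
`Wat D lam u` (R227/SA10.lean): u continuous, 0 off D, near each point of D equal to a smooth (SC) solution U of la U = -lam U. `Lr φ x = fderiv ℝ φ x (I x)` (the angular derivative: d/dθ u(X r θ) = Lr u (X r θ)).
Plain proof of TARGET 2. Let U(ξ,η) = u(exp(ξ + iη)) for ξ ≤ 0, 0 ≤ η ≤ α; continuous, 0 for η = 0, η = α, ξ = 0, bounded, and smooth inside with U_ξξ + U_ηη = -lam e^{2ξ} U. Let ν_n = πn/α and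
c_n(ξ) = ∫_0^α U(ξ,η) sin(ν_n η) dη, n ≥ 1. c_n is continuous and bounded on (-∞,0], c_n(0) = 0. Claim: c_n'' = (ν_n² - lam e^{2ξ}) c_n for ξ < 0. (In the weak sense first: for χ smooth with compact support in (-∞,0)
one needs ∫ c_n (χ'' - (ν_n² - lam e^{2ξ}) χ) dξ = 0. This is Green's formula on the sector with the test function φ(x) = χ(log|x|) sin(ν_n arg x), which is smooth on a neighbourhood of the closed sector off 0
(cut it off outside the closed sector to a smooth compactly supported function on the plane; the support of χ keeps away from r = 0 and r = 1) and vanishes on the two sides: `green_bdry` (Fin/REF.lean):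
∫ u (la φ + lam φ) = 0 for SC φ vanishing on the frontier of the domain. Then a continuous weak solution of the linear ODE is a classical one (du Bois-Reymond; in Fin/T5a.lean `rect_modes` is the same
argument for rectangles). Alternatively: for 0 < δ consider the interior and let δ → 0.)
If ν_n² > lam: c_n'' = q c_n with q > 0 on ξ < 0, c_n(0) = 0 and c_n bounded: c_n = 0 (if c_n(ξ₀) > 0 somewhere then c_n is convex where positive, goes to 0 at 0, so it increases to -∞ at least linearly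
(c_n' < 0 at some point where c_n > 0, and c_n' is increasing, so c_n' ≤ -κ to the left): unbounded, contradiction; the same for negative values).
So only finitely many c_n are not 0, n ≤ N, and by completeness of the sines (`sine_uniq` in Fin/T5a.lean) u(X r θ) = (2/α) Σ_{n ≤ N} c_n(log r) sin(ν_n θ) for 0 < r ≤ 1, 0 ≤ θ ≤ α.
Hence in the sector Lr (Lr u) (X r θ) = d²/dθ² = -(2/α) Σ_{n ≤ N} ν_n² c_n(log r) sin(ν_n θ). For each n the function b_n(X r θ) = c_n(log r) sin(ν_n θ), extended by 0, is continuous (c_n(log r) → 0 as r → 0 too: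
|c_n(log r)| ≤ α sup_θ |u(X r θ)| → |u(0)| α = 0 as 0 is on the frontier, u = 0 there), so w = (gsec α).indicator (Lr (Lr u)) is continuous and 0 off the sector. Locally w = Lr (Lr W) for an SC solution W
(u = W on an open ball), and la (Lr (Lr W)) = Lr (Lr (la W)) = -lam Lr (Lr W) on the ball: `la_Lr` (R227/SA10.lean), `Lr_sc` (TH298/Sch/Rot1.lean).
-/

/-- TARGET 2: the square of the angular derivative preserves the eigenfunctions of a sector. -/
theorem gsec_wat {α lam : ℝ} (h0 : 0 < α) (h1 : α < 2 * Real.pi) (hlam : 0 < lam) {u : ℂ → ℝ}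
    (hu : Wat (gsec α) lam u) : Wat (gsec α) lam ((gsec α).indicator (Lr (Lr u))) := by
  obtain ⟨N, hN⟩ := SR1.expand h0 h1 hlam hu
  have ho : IsOpen (gsec α) := by
    rw [Metric.isOpen_iff]
    intro x hx
    obtain ⟨r, hr, W, hW, hb, h2⟩ := hu.loc x hx
    exact ⟨r, hr, hb⟩
  have hout : ∀ x, x ∉ gsec α → (gsec α).indicator (Lr (Lr u)) x = 0 :=
    fun x hx => indicator_of_notMem hx _
  refine ⟨?_, hout, ?_⟩
  · refine SR1.descend ho hout (g := fun p : ℝ × ℝ => ∑ n ∈ Finset.Icc 1 N,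
      -((2 / α * SR1.AA α (Real.pi * n / α) u 0 p.1) * (Real.pi * n / α) ^ 2 *
        Real.sin (Real.pi * n / α * p.2))) ?_ ?_
    · refine continuous_finsetSum _ fun n _ => ?_
      have hA : Continuous fun p : ℝ × ℝ => SR1.AA α (Real.pi * n / α) u 0 p.1 :=
        (SR1.AA_cont α (Real.pi * n / α) hu.cont).comp (f := fun p : ℝ × ℝ => ((0 : ℝ), p.1))
          (by fun_prop)
      fun_prop
    · intro r hr θ hθ
      by_cases hint : (0 < r ∧ r < 1) ∧ (0 < θ ∧ θ < α)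
      · obtain ⟨⟨g0, g1⟩, g2, g3⟩ := hint
        have hx : X r θ ∈ gsec α := ⟨r, θ, g0, g1, g2, g3, rfl⟩
        rw [indicator_of_mem hx]
        exact SR1.lr_lr (α := α) (N := N)
          (c := fun n => 2 / α * SR1.AA α (Real.pi * n / α) u 0 r) (ν := fun n => Real.pi * n / α)
          (fun θ hθ => (SR1.wat_at hu ⟨r, θ, g0, g1, hθ.1, hθ.2, rfl⟩).1)
          (fun θ hθ => hN r hr θ ⟨hθ.1.le, hθ.2.le⟩) θ ⟨g2, g3⟩
      · have hcase : (r = 0 ∨ r = 1) ∨ (θ = 0 ∨ θ = α) := by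
          by_contra! hc
          obtain ⟨⟨c1, c2⟩, c3, c4⟩ := hc
          exact hint ⟨⟨lt_of_le_of_ne hr.1 (Ne.symm c1), lt_of_le_of_ne hr.2 c2⟩,
            lt_of_le_of_ne hθ.1 (Ne.symm c3), lt_of_le_of_ne hθ.2 c4⟩
        rw [hout _ (SR1.not_mem h0 h1 hr.1 (by
          rcases hcase with (h | h) | (h | h)
          · exact Or.inl h
          · exact Or.inr (Or.inl h.ge)
          · exact Or.inr (Or.inr (Or.inl h))
          · exact Or.inr (Or.inr (Or.inr h))))]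
        symm
        refine Finset.sum_eq_zero fun n _ => ?_
        simp only
        rcases hcase with h | (h | h)
        · rw [SR1.AA_end h0 h1 hu 0 h]
          ring
        · rw [h, mul_zero, Real.sin_zero, mul_zero, neg_zero]
        · rw [h, SR1.nu_mul h0, Real.sin_nat_mul_pi, mul_zero, neg_zero]
  · intro x₀ hx₀
    obtain ⟨r, hr, W, hW, hb, h2⟩ := hu.loc x₀ hx₀
    have hW1 : SC (Lr W) := Pool.Agent.TH298.Sch.Lr_sc hW
    have hW2 : SC (Lr (Lr W)) := Pool.Agent.TH298.Sch.Lr_sc hW1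
    refine ⟨r, hr, Lr (Lr W), hW2, hb, fun x hx => ⟨?_, ?_⟩⟩
    · rw [indicator_of_mem (hb hx)]
      have e1 : ∀ y ∈ Metric.ball x₀ r, u =ᶠ[𝓝 y] W := by
        intro y hy
        filter_upwards [Metric.isOpen_ball.mem_nhds hy] with z hz
        exact (h2 z hz).1
      have e2 : ∀ y ∈ Metric.ball x₀ r, Lr u y = Lr W y := by
        intro y hy
        unfold Lr
        rw [(e1 y hy).fderiv_eq]
      have e3 : Lr u =ᶠ[𝓝 x] Lr W := by
        filter_upwards [Metric.isOpen_ball.mem_nhds hx] with z hz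
        exact e2 z hz
      show fderiv ℝ (Lr u) x (Complex.I * x) = fderiv ℝ (Lr W) x (Complex.I * x)
      rw [e3.fderiv_eq]
    · have f1 : la (Lr (Lr W)) x = Lr (la (Lr W)) x := Pool.Agent.R227.SA.la_Lr hW1 x
      have f2 : la (Lr W) = Lr (la W) := by
        funext y
        exact Pool.Agent.R227.SA.la_Lr hW y
      have f3 : ∀ y ∈ Metric.ball x₀ r, la W =ᶠ[𝓝 y] fun z => -(lam * W z) := by
        intro y hy
        filter_upwards [Metric.isOpen_ball.mem_nhds hy] with z hz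
        exact (h2 z hz).2
      have f4 : ∀ φ : ℂ → ℝ, SC φ → ∀ y, Lr (fun z => -(lam * φ z)) y = -(lam * Lr φ y) := by
        intro φ hφ y
        have h5 : HasFDerivAt (fun z => -(lam * φ z)) (-(lam • fderiv ℝ φ y)) y :=
          ((hφ.diff y).hasFDerivAt.const_mul lam).neg
        unfold Lr
        rw [h5.fderiv]
        simp
      have f5 : ∀ y ∈ Metric.ball x₀ r, Lr (la W) y = -(lam * Lr W y) := by
        intro y hy
        rw [← f4 W hW y]
        unfold Lr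
        rw [(f3 y hy).fderiv_eq]
      have f6 : Lr (la W) =ᶠ[𝓝 x] fun z => -(lam * Lr W z) := by
        filter_upwards [Metric.isOpen_ball.mem_nhds hx] with z hz
        exact f5 z hz
      rw [f1, f2, ← f4 (Lr W) hW1 x]
      show fderiv ℝ (Lr (la W)) x (Complex.I * x) =
        fderiv ℝ (fun z => -(lam * Lr W z)) x (Complex.I * x)
      rw [f6.fderiv_eq]

end Pool.Agent.Helper327_Drum
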