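import Pool.Agent.Helper327_Drum.EDefs
import Pool.Agent.Helper327_Drum.BDefs
import Pool.Agent.Helper327_Drum.Fin.ST1
import Pool.Agent.Helper327_Drum.Fin.G1
import Pool.Agent.Helper327_Drum.Fin.G4
import Pool.Agent.Helper327_Drum.Fin.AS2
import Pool.Agent.Helper327_Drum.Fin.EL4

/-
JOB SR2 (owner helper327, problem MP_d92c84_an). All imports are on origin/main.
-/

set_option autoImplicit false
open MeasureTheory Set Filter Topology ComplexConjugate
open scoped ContDiff

namespace Pool.Agent.Helper327_Drum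

open Pool.Agent.TH298.Sch (dd SC Lr)
open Pool.Agent.R227.SA (la Wat Dat)

/-
This is the case f = 0 of `second_order_arc` (Fin/EL4.lean), whose proof can be followed (there the hypothesis 0 < f is not used until the end; `second_order_arc_id`, `second_order_arc_two` are stated there for all f).
Plain proof. At x ∈ γ let τ be the unit tangent: fderiv u = 0 along γ and la u = -lam k, so D²u(x) = -lam k n ⊗ n, Lr (Lr u) x = -lam k ⟨x, τ⟩², so ⟨x,τ⟩² = m is constant on γ. At a point of γ with ‖x‖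
maximal ⟨x,τ⟩ = 0, so m = 0 and ⟨x,τ⟩ = 0 on all of γ: ‖x‖² is locally constant along γ (its derivative along each graph piece is 0), so constant as γ is connected: γ ⊆ sphere 0 ρ, ρ > 0 since γ is infinite,
and γ = sphere 0 ρ by `scc_eq`, `scc_sphere` (Fin/G4.lean).
-/

/-- TARGET: if an eigenfunction of `-Δ` is also an eigenfunction of `Lr²`, then a closed curve of critical points is a circle with centre 0. -/
theorem angular_circle {D : Set ℂ} (hDo : IsOpen D) (hDc : IsPreconnected D) {lam μ : ℝ}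
    (hlam : 0 < lam) {u : ℂ → ℝ} (hu : Wat D lam u)
    (hL : ∀ x ∈ D, Lr (Lr u) x = μ * u x) {γ : Set ℂ}
    (hγ : SimpleClosedCurve γ) (hγD : γ ⊆ D) {k : ℝ} (hk : k ≠ 0) (huk : ∀ x ∈ γ, u x = k)
    (hcr : ∀ x ∈ γ, fderiv ℝ u x = 0) :
    ∃ ρ : ℝ, 0 < ρ ∧ γ = Metric.sphere 0 ρ := by
  obtain ⟨hγc, hγcon, hγinf⟩ := scc_basic hγ
  have hγnt : γ.Nontrivial := hγinf.nontrivial
  have hacc : ∀ q ∈ γ, AccPt q (𝓟 {x | x ∈ D ∧ fderiv ℝ u x = 0}) := by
    intro q hq
    have h1 : AccPt q (𝓟 γ) := hγcon.isPreconnected.preperfect_of_nontrivial hγnt q hq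
    exact h1.mono (principal_mono.2 fun x hx => ⟨hγD hx, hcr x hx⟩)
  obtain ⟨q₀, hq₀⟩ := hγinf.nonempty
  have hne : ∃ x, u x ≠ 0 := ⟨q₀, by rw [huk q₀ hq₀]; exact hk⟩
  -- the frames
  have hfr : ∀ q ∈ γ, ∃ (e : ℂ) (ψ : ℝ → ℝ) (δ : ℝ), 0 < δ ∧ ‖e‖ = 1 ∧ ContDiff ℝ 2 ψ ∧ ψ 0 = 0 ∧
      (∀ t, |t| < δ → cx q e ψ t ∈ γ ∧
        ((cx q e ψ t).re * (cv e ψ t).re + (cx q e ψ t).im * (cv e ψ t).im) ^ 2 =
          -(μ / lam) * ((cv e ψ t).re ^ 2 + (cv e ψ t).im ^ 2)) ∧
      ∀ x ∈ γ, ‖x - q‖ < δ → ∃ t, |t| < δ ∧ x = cx q e ψ t := by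
    intro q hq
    obtain ⟨-, e, δ, ψ, he, hδ, hψ, hψa, hψ0, hsl, hbox, hiff⟩ :=
      crit_graph hDo hDc hlam hu hne (hγD hq) (hacc q hq)
    obtain ⟨δ', hδ', hle, hmem⟩ := second_order_arc_two hγ he hδ hq
      fun t s ht hs hm => (hiff t s ht hs).1 (hcr _ hm)
    refine ⟨e, ψ, δ', hδ', he, hψ, hψ0, fun t ht => ⟨hmem t ht, ?_⟩, fun x hx hxq => ?_⟩
    · have hm := hmem t ht
      have hev : ∀ᶠ s in 𝓝 t, |s| < δ' :=
        continuous_abs.continuousAt.eventually_lt continuousAt_const ht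
      have h0 := second_order_arc_id (f := 0) hlam hu (hγD hm)
        (by rw [hL _ (hγD hm)]; ring) (by rw [huk _ hm]; exact hk) (hcr _ hm) rfl
        (cc_cx_deriv q e hψ t) (by
          filter_upwards [hev] with s hs
          exact hcr _ (hmem s hs))
      linear_combination h0
    · obtain ⟨t, s, h1, h2, h3⟩ := cc_coord he q x
      have ht : |t| < δ' := by linarith
      have hs : |s| < δ' := by linarith
      refine ⟨t, ht, ?_⟩
      have h4 : s = ψ t := (hiff t s (by linarith) (by linarith)).1 (by rw [← h1]; exact hcr x hx)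
      rw [h1, h4]
      rfl
  -- the velocity does not vanish
  have hv0 : ∀ (e : ℂ) (ψ : ℝ → ℝ) (t : ℝ), ‖e‖ = 1 →
      0 < (cv e ψ t).re ^ 2 + (cv e ψ t).im ^ 2 := by
    intro e ψ t he
    have he0 : e ≠ 0 := by
      intro h
      rw [h, norm_zero] at he
      exact zero_ne_one he
    have h1 : cv e ψ t ≠ 0 := by
      unfold cv
      refine mul_ne_zero (fun h => ?_) he0
      have := congrArg Complex.re h
      simp at this
    have h2 : 0 < Complex.normSq (cv e ψ t) := Complex.normSq_pos.2 h1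
    rw [Complex.normSq_apply] at h2
    linarith [sq (cv e ψ t).re, sq (cv e ψ t).im]
  -- the derivative of the distance
  have hdist : ∀ (q e : ℂ) (ψ : ℝ → ℝ) (t : ℝ), ContDiff ℝ 2 ψ →
      HasDerivAt (fun t => (cx q e ψ t).re ^ 2 + (cx q e ψ t).im ^ 2)
        (2 * ((cx q e ψ t).re * (cv e ψ t).re + (cx q e ψ t).im * (cv e ψ t).im)) t := by
    intro q e ψ t hψ
    have h1 := cc_cx_deriv q e hψ t
    have h2 : HasDerivAt (fun t => (cx q e ψ t).re) (cv e ψ t).re t :=
      (Complex.reCLM.hasFDerivAt).comp_hasDerivAt t h1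
    have h3 : HasDerivAt (fun t => (cx q e ψ t).im) (cv e ψ t).im t :=
      (Complex.imCLM.hasFDerivAt).comp_hasDerivAt t h1
    have h4 := (h2.pow 2).add (h3.pow 2)
    refine h4.congr_deriv ?_
    push_cast
    ring
  -- the constant
  have hconst : -(μ / lam) = 0 := by
    obtain ⟨q, hq, hmax⟩ := hγc.exists_isMaxOn hγinf.nonempty
      (f := fun x : ℂ => x.re ^ 2 + x.im ^ 2) (by fun_prop)
    obtain ⟨e, ψ, δ, hδ, he, hψ, hψ0, hg, -⟩ := hfr q hq
    have hc0 : cx q e ψ 0 = q := by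
      unfold cx
      rw [hψ0]
      simp
    have hloc : IsLocalMax (fun t => (cx q e ψ t).re ^ 2 + (cx q e ψ t).im ^ 2) 0 := by
      have hev : ∀ᶠ s in 𝓝 (0 : ℝ), |s| < δ :=
        continuous_abs.continuousAt.eventually_lt continuousAt_const (by simpa using hδ)
      filter_upwards [hev] with s hs
      have := hmax (hg s hs).1
      simp only [mem_ofPred_eq] at this
      rw [hc0]
      exact this
    have h1 := hloc.hasDerivAt_eq_zero (hdist q e ψ 0 hψ)
    have h2 := (hg 0 (by simpa using hδ)).2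
    have h3 := hv0 e ψ 0 he
    have h4 : (-(μ / lam)) * ((cv e ψ 0).re ^ 2 + (cv e ψ 0).im ^ 2) = 0 := by
      linear_combination ((cx q e ψ 0).re * (cv e ψ 0).re +
        (cx q e ψ 0).im * (cv e ψ 0).im) / 2 * h1 - h2
    rcases mul_eq_zero.1 h4 with h5 | h5
    · exact h5
    · exact absurd h5 h3.ne'
  -- the norm is locally constant
  have hnorm : ∀ x : ℂ, ‖x‖ ^ 2 = x.re ^ 2 + x.im ^ 2 := by
    intro x
    rw [← Complex.normSq_eq_norm_sq, Complex.normSq_apply]
    ring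
  have hlc : ∀ q ∈ γ, ∃ δ > 0, ∀ x ∈ γ, ‖x - q‖ < δ → ‖x‖ = ‖q‖ := by
    intro q hq
    obtain ⟨e, ψ, δ, hδ, he, hψ, hψ0, hg, hbx⟩ := hfr q hq
    refine ⟨δ, hδ, fun x hx hxq => ?_⟩
    have hc0 : cx q e ψ 0 = q := by
      unfold cx
      rw [hψ0]
      simp
    obtain ⟨t, ht, rfl⟩ := hbx x hx hxq
    have h3 := (convex_ball (0 : ℝ) δ).norm_image_sub_le_of_norm_hasDerivWithin_le
      (f := fun t => (cx q e ψ t).re ^ 2 + (cx q e ψ t).im ^ 2)
      (f' := fun _ => (0 : ℝ)) (C := 0) (fun s hs => by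
        have hs' : |s| < δ := by simpa using hs
        have h4 := hdist q e ψ s hψ
        have h5 := (hg s hs').2
        rw [hconst, zero_mul] at h5
        have h6 : (cx q e ψ s).re * (cv e ψ s).re + (cx q e ψ s).im * (cv e ψ s).im = 0 := by
          simpa using h5
        rw [h6, mul_zero] at h4
        exact h4.hasDerivWithinAt) (fun x _ => by simp)
      (Metric.mem_ball_self hδ) (show t ∈ Metric.ball (0 : ℝ) δ by simpa using ht)
    rw [zero_mul] at h3
    have h4 := sub_eq_zero.1 (norm_le_zero_iff.1 h3)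
    simp only [hc0] at h4
    have h5 : ‖cx q e ψ t‖ ^ 2 = ‖q‖ ^ 2 := by rw [hnorm, hnorm]; exact h4
    exact (sq_eq_sq₀ (norm_nonneg _) (norm_nonneg _)).1 h5
  obtain ⟨F, hFc, hFi, hFr⟩ := id hγ
  have hFm : ∀ z, F z ∈ γ := fun z => by rw [← hFr]; exact ⟨z, rfl⟩
  have hlcF : IsLocallyConstant (fun z : Circle => ‖F z‖) := by
    rw [IsLocallyConstant.iff_eventually_eq]
    intro z
    obtain ⟨δ, hδ, h⟩ := hlc (F z) (hFm z)
    have hev : ∀ᶠ w in 𝓝 z, dist (F w) (F z) < δ :=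
      hFc.continuousAt.eventually (Metric.ball_mem_nhds (F z) hδ)
    filter_upwards [hev] with w hw
    rw [dist_eq_norm] at hw
    exact h (F w) (hFm w) hw
  have hall : ∀ z, ‖F z‖ = ‖F 1‖ := fun z => hlcF.apply_eq_of_preconnectedSpace z 1
  have hr0 : 0 < ‖F 1‖ := by
    rcases (norm_nonneg (F 1)).lt_or_eq with h1 | h1
    · exact h1
    · exfalso
      have h2 : ∀ z, F z = 0 := by
        intro z
        have := hall z
        rw [← h1] at this
        exact norm_eq_zero.1 this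
      have h3 : Circle.exp Real.pi = 1 := hFi (by rw [h2, h2])
      have h6 := congrArg (fun z : Circle => (z : ℂ)) h3
      simp only [Circle.coe_exp, Circle.coe_one, Complex.exp_pi_mul_I] at h6
      norm_num at h6
  refine ⟨‖F 1‖, hr0, scc_eq (scc_sphere 0 hr0) hγ ?_⟩
  rw [← hFr]
  rintro _ ⟨z, rfl⟩
  rw [mem_sphere_iff_norm, sub_zero]
  exact hall z

end Pool.Agent.Helper327_Drum
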