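import Pool.Agent.Helper327_Drum.Fin.AS14
import Pool.Agent.Helper327_Drum.Fin.SR2
import Pool.Agent.Helper327_Drum.Fin.HE1
import Pool.Agent.Helper327_Drum.Fin.SR1

/-! Halves and quarters of ellipses, sectors. -/

set_option autoImplicit false
open MeasureTheory Set Filter Topology ComplexConjugate
open scoped ContDiff InnerProductSpace

namespace Pool.Agent.Helper327_Drum

open Pool.Agent.TH298.Sch (dd SC Lr X)
open Pool.Agent.R227.SA (la Wat Dat)

/-- the eigenfunctions for `lam` are linearly dependent -/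
def SimpleW (S : Set ℂ) (lam : ℝ) : Prop :=
  ∀ φ ψ : ℂ → ℝ, Wat S lam φ → Wat S lam ψ →
    ∃ a b : ℝ, (a ≠ 0 ∨ b ≠ 0) ∧ ∀ x ∈ S, a * φ x + b * ψ x = 0

/-- no eigenfunction for `lam` has a closed curve of critical points -/
def NoCurveAt (S : Set ℂ) (lam : ℝ) : Prop :=
  ∀ v : ℂ → ℝ, Wat S lam v → (∃ x, v x ≠ 0) →
    ¬ ∃ γ : Set ℂ, SimpleClosedCurve γ ∧ γ ⊆ S ∧ ∀ x ∈ γ, fderiv ℝ v x = 0

theorem simpleW_of {K : Set ℂ} (hK : IsOpen K) {lam : ℝ} (h : SimpleEigenvalue K lam) :
    SimpleW K lam :=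
  fun _ _ hφ hψ => h _ _ (dirichlet_of_wat hK hφ) (dirichlet_of_wat hK hψ)

/-- simple: the second function is a multiple of the first -/
theorem SimpleW.mul {S : Set ℂ} {lam : ℝ} (h : SimpleW S lam) {φ ψ : ℂ → ℝ} (hφ : Wat S lam φ)
    (hne : ∃ x, φ x ≠ 0) (hψ : Wat S lam ψ) : ∃ μ : ℝ, ∀ x ∈ S, ψ x = μ * φ x := by
  obtain ⟨a, b, hab, hrel⟩ := h _ _ hφ hψ
  have hb : b ≠ 0 := by
    intro hb
    obtain ⟨x, hx⟩ := hne
    have hxD : x ∈ S := by
      by_contra h0
      exact hx (hφ.out x h0)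
    have h1 := hrel x hxD
    rw [hb, zero_mul, add_zero] at h1
    exact (hab.resolve_right (not_not.2 hb)) ((mul_eq_zero.1 h1).resolve_right hx)
  refine ⟨-(a / b), fun x hx => ?_⟩
  have h1 := hrel x hx
  field_simp
  linarith

theorem copy_simple {S : Set ℂ} (σ : ℂ ≃ᵢ ℂ) {a lam : ℝ} (ha : 0 < a)
    (h : SimpleW ((fun x : ℂ => σ (a * x)) '' S) lam) : SimpleW S (lam * a ^ 2) := by
  have ha' : (a : ℂ) ≠ 0 := by exact_mod_cast ha.ne'
  have key : ∀ φ : ℂ → ℝ, Wat S (lam * a ^ 2) φ →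
      Wat ((fun x : ℂ => σ (a * x)) '' S) lam (fun y => φ (0 + ((a⁻¹ : ℝ) : ℂ) * σ.symm y)) := by
    intro φ hφ
    have h1 := wat_isom σ.symm (wat_aff hφ 0 (inv_pos.2 ha))
    have e1 : lam * a ^ 2 * a⁻¹ ^ 2 = lam := by field_simp
    have e2 : (σ.symm ⁻¹' ((fun x : ℂ => 0 + ((a⁻¹ : ℝ) : ℂ) * x) ⁻¹' S)) =
        (fun x : ℂ => σ (a * x)) '' S := by
      ext x
      simp only [mem_preimage, zero_add, mem_image]
      constructor
      · intro hx
        refine ⟨_, hx, ?_⟩
        rw [Complex.ofReal_inv, mul_inv_cancel_left₀ ha', IsometryEquiv.apply_symm_apply]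
      · rintro ⟨y, hy, rfl⟩
        rw [IsometryEquiv.symm_apply_apply, Complex.ofReal_inv, inv_mul_cancel_left₀ ha']
        exact hy
    rw [e1, e2] at h1
    exact h1
  intro φ ψ hφ hψ
  obtain ⟨s, t, hst, hrel⟩ := h _ _ (key φ hφ) (key ψ hψ)
  refine ⟨s, t, hst, fun x hx => ?_⟩
  have h2 := hrel _ (mem_image_of_mem _ hx)
  simp only [zero_add] at h2
  rw [IsometryEquiv.symm_apply_apply, Complex.ofReal_inv, inv_mul_cancel_left₀ ha'] at h2
  exact h2

theorem copy_nocurveAt {S : Set ℂ} (σ : ℂ ≃ᵢ ℂ) {a lam : ℝ} (ha : 0 < a)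
    (hS : NoCurveAt S (lam * a ^ 2)) : NoCurveAt ((fun x : ℂ => σ (a * x)) '' S) lam := by
  rintro v hv ⟨x, hx⟩ ⟨γ, hγ, hsub, hcr⟩
  have ha' : (a : ℂ) ≠ 0 := by exact_mod_cast ha.ne'
  have h1 := wat_aff (wat_isom σ hv) 0 ha
  have hpre : (fun x : ℂ => (0 : ℂ) + a * x) ⁻¹' (σ ⁻¹' ((fun x : ℂ => σ (a * x)) '' S)) = S := by
    have : (fun x : ℂ => (0 : ℂ) + a * x) ⁻¹' (σ ⁻¹' ((fun x : ℂ => σ (a * x)) '' S)) =
        (fun x : ℂ => σ (a * x)) ⁻¹' ((fun x : ℂ => σ (a * x)) '' S) := by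
      ext x
      simp only [mem_preimage, zero_add]
    rw [this, preimage_image_eq _ (copy_inj σ ha)]
  rw [hpre] at h1
  refine hS _ h1 ?_ ⟨(fun x : ℂ => (0 : ℂ) + a * x) ⁻¹' (σ ⁻¹' γ),
    ?_, ?_, ?_⟩
  · refine ⟨(a : ℂ)⁻¹ * σ.symm x, ?_⟩
    simp only [zero_add]
    rw [mul_inv_cancel_left₀ ha', IsometryEquiv.apply_symm_apply]
    exact hx
  · refine scc_aff ?_ 0 ha
    have h2 := scc_isom σ.symm hγ
    rwa [IsometryEquiv.image_symm] at h2
  · intro y hy
    rw [← hpre]
    exact hsub hy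
  · intro y hy
    exact fderiv_aff (u := fun x => v (σ x)) 0 ha (fderiv_isom σ (hcr _ hy))

/-! ### the ellipse and its parts -/

/-- the four pieces: the ellipse, the upper half, the right half, the quarter -/
theorem elli_nocurve {A B lam : ℝ} (hB : 0 < B) (hAB : B < A) (hlam : 0 < lam)
    (hs : SimpleW (elli A B) lam) : NoCurveAt (elli A B) lam := by
  intro u hu hne
  obtain ⟨f, ξ₀, hf, hξ, hfA, hfB⟩ := ellipse_coord hB hAB
  have hell : ell f ξ₀ = elli A B := by
    rw [← hfA, ← hfB]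
    rfl
  have hw := ell_wat hf hξ (by rw [hell]; exact hu)
  rw [hell] at hw
  obtain ⟨μ, hμ⟩ := hs.mul hu hne hw
  refine ell_op_nocurve hB hAB hf hξ hfA hfB hlam hu hne (μ := μ) fun x hx => ?_
  rw [← hμ x hx, indicator_of_mem hx]

/-- the operator is local -/
theorem eop_congr {f lam : ℝ} {u v : ℂ → ℝ} {x : ℂ} (h : u =ᶠ[𝓝 x] v) :
    eop f lam u x = eop f lam v x := by
  have e1 : (fun y => fderiv ℝ u y (Complex.I * y)) =ᶠ[𝓝 x] fun y => fderiv ℝ v y (Complex.I * y) := by
    filter_upwards [h.eventuallyEq_nhds] with y hy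
    rw [hy.fderiv_eq]
  have e2 : (fun y => fderiv ℝ u y 1) =ᶠ[𝓝 x] fun y => fderiv ℝ v y 1 := by
    filter_upwards [h.eventuallyEq_nhds] with y hy
    rw [hy.fderiv_eq]
  have e3 : Lr (Lr u) x = Lr (Lr v) x := by
    change fderiv ℝ (fun y => fderiv ℝ u y (Complex.I * y)) x (Complex.I * x) =
      fderiv ℝ (fun y => fderiv ℝ v y (Complex.I * y)) x (Complex.I * x)
    rw [e1.fderiv_eq]
  have e4 : dd 1 (dd 1 u) x = dd 1 (dd 1 v) x := by
    change fderiv ℝ (fun y => fderiv ℝ u y 1) x 1 = fderiv ℝ (fun y => fderiv ℝ v y 1) x 1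
    rw [e2.fderiv_eq]
  unfold eop
  rw [e3, e4, h.eq_of_nhds]

theorem elli_sym {A B : ℝ} {x : ℂ} (hx : x ∈ elli A B) : conj x ∈ elli A B ∧ -conj x ∈ elli A B := by
  have h1 : (x.re / A) ^ 2 + (x.im / B) ^ 2 < 1 := hx
  constructor
  · change ((conj x).re / A) ^ 2 + ((conj x).im / B) ^ 2 < 1
    rw [Complex.conj_re, Complex.conj_im, neg_div, neg_sq]
    exact h1
  · change ((-conj x).re / A) ^ 2 + ((-conj x).im / B) ^ 2 < 1
    rw [Complex.neg_re, Complex.neg_im, Complex.conj_re, Complex.conj_im, neg_div, neg_sq, neg_neg]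
    exact h1

/-- A piece `S` of the ellipse, whose eigenfunctions extend to the ellipse compatibly with the operator. -/
theorem piece_nocurve {A B lam : ℝ} (hB : 0 < B) (hAB : B < A) (hlam : 0 < lam) {S : Set ℂ}
    (hSo : IsOpen S) (hSD : S ⊆ elli A B)
    (hex : ∀ v : ℂ → ℝ, Wat S lam v → ∃ w : ℂ → ℝ, Wat (elli A B) lam w ∧ (∀ x ∈ S, w x = v x) ∧
      ∀ (f : ℝ), (Wat (elli A B) lam ((elli A B).indicator (eop f lam w))) →
        Wat S lam (S.indicator (eop f lam w)) ∧
        ∀ μ : ℝ, (∀ x ∈ S, eop f lam w x = μ * w x) → ∀ x ∈ elli A B, eop f lam w x = μ * w x)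
    (hs : SimpleW S lam) : NoCurveAt S lam := by
  rintro v hv ⟨x₀, hx₀⟩ ⟨γ, hγ, hsub, hcr⟩
  obtain ⟨w, hw, hwv, hop⟩ := hex v hv
  obtain ⟨f, ξ₀, hf, hξ, hfA, hfB⟩ := ellipse_coord hB hAB
  have hell : ell f ξ₀ = elli A B := by
    rw [← hfA, ← hfB]
    rfl
  have hw2 := ell_wat hf hξ (by rw [hell]; exact hw)
  rw [hell] at hw2
  obtain ⟨h1, h2⟩ := hop f hw2
  obtain ⟨μ, hμ⟩ := hs.mul hv ⟨x₀, hx₀⟩ h1
  have hx₀S : x₀ ∈ S := by
    by_contra h0
    exact hx₀ (hv.out x₀ h0)
  refine ell_op_nocurve hB hAB hf hξ hfA hfB hlam hw ⟨x₀, by rw [hwv x₀ hx₀S]; exact hx₀⟩ (μ := μ)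
    (h2 μ fun x hx => ?_) ⟨γ, hγ, hsub.trans hSD, fun x hx => ?_⟩
  · rw [hwv x hx, ← hμ x hx, indicator_of_mem hx]
  · have h3 : w =ᶠ[𝓝 x] v := by
      filter_upwards [hSo.mem_nhds (hsub hx)] with y hy using hwv y hy
    rw [h3.fderiv_eq]
    exact hcr x hx

theorem eop_zero (f lam : ℝ) (x : ℂ) : eop f lam (fun _ => (0 : ℝ)) x = 0 := by
  have h1 : (Lr fun _ : ℂ => (0 : ℝ)) = fun _ => 0 := by
    funext y
    change fderiv ℝ (fun _ : ℂ => (0 : ℝ)) y (Complex.I * y) = 0
    rw [fderiv_const_apply]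
    rfl
  have h2 : (dd 1 fun _ : ℂ => (0 : ℝ)) = fun _ => 0 := by
    funext y
    change fderiv ℝ (fun _ : ℂ => (0 : ℝ)) y 1 = 0
    rw [fderiv_const_apply]
    rfl
  unfold eop
  rw [h1, h2, h1, h2]
  ring

/-- the operator preserves oddness -/
theorem eop_odd_conj {A B lam f : ℝ} {w : ℂ → ℝ} (hw : Wat (elli A B) lam w)
    (hwodd : ∀ x, w (conj x) = -w x) : ∀ x ∈ elli A B, eop f lam w (conj x) = -eop f lam w x := by
  intro x hx
  have hfun : (fun y => w (conj y)) = fun y => (0 : ℝ) - w y := by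
    funext y
    rw [hwodd, zero_sub]
  have h1 := eop_conj f lam w x
  rw [hfun] at h1
  have h2 := eop_sub f lam (u := fun _ => (0 : ℝ)) (v := w) (x := x) contDiffAt_const
    (wat_smooth hw hx).1
  rw [h1, eop_zero, zero_sub] at h2
  exact h2

theorem eop_odd_neg {A B lam f : ℝ} {w : ℂ → ℝ} (hw : Wat (elli A B) lam w)
    (hwodd : ∀ x, w (-conj x) = -w x) : ∀ x ∈ elli A B, eop f lam w (-conj x) = -eop f lam w x := by
  intro x hx
  have hfun : (fun y => w (-conj y)) = fun y => (0 : ℝ) - w y := by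
    funext y
    rw [hwodd, zero_sub]
  have h1 := eop_neg_conj f lam w x
  rw [hfun] at h1
  have h2 := eop_sub f lam (u := fun _ => (0 : ℝ)) (v := w) (x := x) contDiffAt_const
    (wat_smooth hw hx).1
  rw [h1, eop_zero, zero_sub] at h2
  exact h2

theorem ind_ind {S D : Set ℂ} (h : S ⊆ D) (g : ℂ → ℝ) : S.indicator (D.indicator g) = S.indicator g := by
  funext x
  by_cases hx : x ∈ S
  · rw [indicator_of_mem hx, indicator_of_mem hx, indicator_of_mem (h hx)]
  · rw [indicator_of_notMem hx, indicator_of_notMem hx]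

theorem ind_odd {D : Set ℂ} {s : ℂ → ℂ} (hs : ∀ x, s (s x) = x) (hD : ∀ x ∈ D, s x ∈ D) {g : ℂ → ℝ}
    (hg : ∀ x ∈ D, g (s x) = -g x) : ∀ x, D.indicator g (s x) = -D.indicator g x := by
  intro x
  by_cases hx : x ∈ D
  · rw [indicator_of_mem hx, indicator_of_mem (hD x hx)]
    exact hg x hx
  · have hx' : s x ∉ D := fun h => hx (by
      have := hD _ h
      rwa [hs] at this)
    rw [indicator_of_notMem hx, indicator_of_notMem hx', neg_zero]

theorem neg_conj_neg_conj (x : ℂ) : -conj (-conj x) = x := by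
  rw [map_neg, Complex.conj_conj, neg_neg]

theorem half_im_nocurve {A B lam : ℝ} (hB : 0 < B) (hAB : B < A) (hlam : 0 < lam)
    (hs : SimpleW (elli A B ∩ {x | 0 < x.im}) lam) : NoCurveAt (elli A B ∩ {x | 0 < x.im}) lam := by
  have hA : 0 < A := hB.trans hAB
  obtain ⟨hEo, -, hEb, -⟩ := elli_convex hA hB
  have hSo : IsOpen (elli A B ∩ {x | 0 < x.im}) :=
    hEo.inter (isOpen_lt continuous_const Complex.continuous_im)
  refine piece_nocurve hB hAB hlam hSo inter_subset_left (fun v hv => ?_) hs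
  have hw := half_refl hEo hEb (fun x hx => (elli_sym hx).1) hlam hv
  obtain ⟨w, hwdef⟩ : ∃ w : ℂ → ℝ, w = fun x => v x - v (conj x) := ⟨_, rfl⟩
  rw [← hwdef] at hw
  refine ⟨w, hw, fun x hx => ?_, fun f hwf => ?_⟩
  · have : v (conj x) = 0 := hv.out _ fun h => by
      have h1 : 0 < (conj x).im := h.2
      rw [Complex.conj_im] at h1
      have h2 : 0 < x.im := hx.2
      linarith
    rw [hwdef]
    simp only
    rw [this, sub_zero]
  · have hwodd : ∀ x, w (conj x) = -w x := by
      intro x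
      simp only [hwdef, Complex.conj_conj]
      ring
    have hodd := eop_odd_conj (f := f) hw hwodd
    constructor
    · have h1 := half_restrict hwf (ind_odd (s := fun x => conj x) Complex.conj_conj
        (fun x hx => (elli_sym hx).1) hodd)
      rwa [ind_ind inter_subset_left] at h1
    · intro μ hμ x hx
      rcases lt_trichotomy 0 x.im with h | h | h
      · exact hμ x ⟨hx, h⟩
      · have hcx : conj x = x := by
          rw [Complex.conj_eq_iff_im]
          exact h.symm
        have h1 := hodd x hx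
        have h2 := hwodd x
        rw [hcx] at h1 h2
        have h3 : eop f lam w x = 0 := by linarith
        have h4 : w x = 0 := by linarith
        rw [h3, h4, mul_zero]
      · have h1 := hμ (conj x) ⟨(elli_sym hx).1, by
          change 0 < (conj x).im
          rw [Complex.conj_im]
          linarith⟩
        rw [hodd x hx, hwodd] at h1
        linarith

theorem half_re_nocurve {A B lam : ℝ} (hB : 0 < B) (hAB : B < A) (hlam : 0 < lam)
    (hs : SimpleW (elli A B ∩ {x | 0 < x.re}) lam) : NoCurveAt (elli A B ∩ {x | 0 < x.re}) lam := by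
  have hA : 0 < A := hB.trans hAB
  obtain ⟨hEo, -, hEb, -⟩ := elli_convex hA hB
  have hSo : IsOpen (elli A B ∩ {x | 0 < x.re}) :=
    hEo.inter (isOpen_lt continuous_const Complex.continuous_re)
  refine piece_nocurve hB hAB hlam hSo inter_subset_left (fun v hv => ?_) hs
  have hw := half_refl_re hEo hEb (fun x hx => (elli_sym hx).2) hlam hv
  obtain ⟨w, hwdef⟩ : ∃ w : ℂ → ℝ, w = fun x => v x - v (-conj x) := ⟨_, rfl⟩
  rw [← hwdef] at hw
  refine ⟨w, hw, fun x hx => ?_, fun f hwf => ?_⟩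
  · have : v (-conj x) = 0 := hv.out _ fun h => by
      have h1 : 0 < (-conj x).re := h.2
      rw [Complex.neg_re, Complex.conj_re] at h1
      have h2 : 0 < x.re := hx.2
      linarith
    rw [hwdef]
    simp only
    rw [this, sub_zero]
  · have hwodd : ∀ x, w (-conj x) = -w x := by
      intro x
      simp only [hwdef, neg_conj_neg_conj]
      ring
    have hodd := eop_odd_neg (f := f) hw hwodd
    constructor
    · have h1 := half_restrict_re hwf (ind_odd (s := fun x => -conj x) neg_conj_neg_conj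
        (fun x hx => (elli_sym hx).2) hodd)
      rwa [ind_ind inter_subset_left] at h1
    · intro μ hμ x hx
      rcases lt_trichotomy 0 x.re with h | h | h
      · exact hμ x ⟨hx, h⟩
      · have hcx : -conj x = x := by
          apply Complex.ext
          · rw [Complex.neg_re, Complex.conj_re, ← h, neg_zero]
          · rw [Complex.neg_im, Complex.conj_im, neg_neg]
        have h1 := hodd x hx
        have h2 := hwodd x
        rw [hcx] at h1 h2
        have h3 : eop f lam w x = 0 := by linarith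
        have h4 : w x = 0 := by linarith
        rw [h3, h4, mul_zero]
      · have h1 := hμ (-conj x) ⟨(elli_sym hx).2, by
          change 0 < (-conj x).re
          rw [Complex.neg_re, Complex.conj_re]
          linarith⟩
        rw [hodd x hx, hwodd] at h1
        linarith

theorem quarter_nocurve {A B lam : ℝ} (hB : 0 < B) (hAB : B < A) (hlam : 0 < lam)
    (hs : SimpleW ((elli A B ∩ {x | 0 < x.re}) ∩ {x | 0 < x.im}) lam) :
    NoCurveAt ((elli A B ∩ {x | 0 < x.re}) ∩ {x | 0 < x.im}) lam := by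
  have hA : 0 < A := hB.trans hAB
  obtain ⟨hEo, -, hEb, -⟩ := elli_convex hA hB
  have hHo : IsOpen (elli A B ∩ {x | 0 < x.re}) :=
    hEo.inter (isOpen_lt continuous_const Complex.continuous_re)
  have hSo : IsOpen ((elli A B ∩ {x | 0 < x.re}) ∩ {x | 0 < x.im}) :=
    hHo.inter (isOpen_lt continuous_const Complex.continuous_im)
  have hHsym : ∀ x ∈ elli A B ∩ {x | 0 < x.re}, conj x ∈ elli A B ∩ {x | 0 < x.re} := by
    rintro x ⟨h1, h2⟩
    refine ⟨(elli_sym h1).1, ?_⟩
    change 0 < (conj x).re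
    rw [Complex.conj_re]
    exact h2
  refine piece_nocurve hB hAB hlam hSo (inter_subset_left.trans inter_subset_left)
    (fun v hv => ?_) hs
  have hw1 := half_refl hHo (hEb.subset inter_subset_left) hHsym hlam hv
  have hw := half_refl_re hEo hEb (fun x hx => (elli_sym hx).2) hlam hw1
  obtain ⟨w, hwdef⟩ : ∃ w : ℂ → ℝ, w = fun x => v x - v (conj x) - (v (-conj x) - v (conj (-conj x))) :=
    ⟨_, rfl⟩
  rw [← hwdef] at hw
  refine ⟨w, hw, fun x hx => ?_, fun f hwf => ?_⟩
  · have hx1 : 0 < x.re := hx.1.2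
    have hx2 : 0 < x.im := hx.2
    have h1 : v (conj x) = 0 := hv.out _ fun h => by
      have h1 : 0 < (conj x).im := h.2
      rw [Complex.conj_im] at h1
      linarith
    have h2 : v (-conj x) = 0 := hv.out _ fun h => by
      have h1 : 0 < (-conj x).re := h.1.2
      rw [Complex.neg_re, Complex.conj_re] at h1
      linarith
    have h3 : v (conj (-conj x)) = 0 := hv.out _ fun h => by
      have h1 : 0 < (conj (-conj x)).re := h.1.2
      rw [map_neg, Complex.conj_conj, Complex.neg_re] at h1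
      linarith
    rw [hwdef]
    simp only
    rw [h1, h2, h3, sub_zero, sub_zero, sub_zero]
  · have hwodd : ∀ x, w (-conj x) = -w x := by
      intro x
      simp only [hwdef, neg_conj_neg_conj]
      ring
    have hwodd2 : ∀ x, w (conj x) = -w x := by
      intro x
      simp only [hwdef, map_neg, Complex.conj_conj]
      ring
    have hodd := eop_odd_neg (f := f) hw hwodd
    have hodd2 := eop_odd_conj (f := f) hw hwodd2
    constructor
    · have h1 := half_restrict_re hwf (ind_odd (s := fun x => -conj x) neg_conj_neg_conj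
        (fun x hx => (elli_sym hx).2) hodd)
      rw [ind_ind inter_subset_left] at h1
      have h2 := half_restrict h1 (ind_odd (s := fun x => conj x) Complex.conj_conj hHsym
        fun x hx => hodd2 x hx.1)
      rwa [ind_ind inter_subset_left] at h2
    · intro μ hμ
      have hR : ∀ x ∈ elli A B, 0 < x.re → eop f lam w x = μ * w x := by
        intro x hx hre
        rcases lt_trichotomy 0 x.im with h | h | h
        · exact hμ x ⟨⟨hx, hre⟩, h⟩
        · have hcx : conj x = x := by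
            rw [Complex.conj_eq_iff_im]
            exact h.symm
          have h1 := hodd2 x hx
          have h2 := hwodd2 x
          rw [hcx] at h1 h2
          have h3 : eop f lam w x = 0 := by linarith
          have h4 : w x = 0 := by linarith
          rw [h3, h4, mul_zero]
        · have h1 := hμ (conj x) ⟨hHsym x ⟨hx, hre⟩, by
            change 0 < (conj x).im
            rw [Complex.conj_im]
            linarith⟩
          rw [hodd2 x hx, hwodd2] at h1
          linarith
      intro x hx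
      rcases lt_trichotomy 0 x.re with h | h | h
      · exact hR x hx h
      · have hcx : -conj x = x := by
          apply Complex.ext
          · rw [Complex.neg_re, Complex.conj_re, ← h, neg_zero]
          · rw [Complex.neg_im, Complex.conj_im, neg_neg]
        have h1 := hodd x hx
        have h2 := hwodd x
        rw [hcx] at h1 h2
        have h3 : eop f lam w x = 0 := by linarith
        have h4 : w x = 0 := by linarith
        rw [h3, h4, mul_zero]
      · have h1 := hR (-conj x) (elli_sym hx).2 (by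
          rw [Complex.neg_re, Complex.conj_re]
          linarith)
        rw [hodd x hx, hwodd] at h1
        linarith

theorem gsec_nocurve {α lam : ℝ} (h0 : 0 < α) (h1 : α ≤ Real.pi) (hlam : 0 < lam)
    (hs : SimpleW (gsec α) lam) : NoCurveAt (gsec α) lam := by
  rintro v hv hne ⟨γ, hγ, hsub, hcr⟩
  have hpi := Real.pi_pos
  obtain ⟨n1, n2, n3, n4⟩ := gsec_convex h0 h1
  have hw := gsec_wat h0 (by linarith) hlam hv
  obtain ⟨μ, hμ⟩ := hs.mul hv hne hw
  obtain ⟨k, hk, huk⟩ := crit_const n1 n2.isPreconnected hlam hv hne hγ hsub hcr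
  obtain ⟨ρ, hρ, hγρ⟩ := angular_circle n1 n2.isPreconnected hlam hv (μ := μ)
    (fun x hx => by rw [← hμ x hx, indicator_of_mem hx]) hγ hsub hk huk hcr
  have h2 : (ρ : ℂ) ∈ gsec α := hsub (by
    rw [hγρ, mem_sphere_zero_iff_norm, Complex.norm_real, Real.norm_of_nonneg hρ.le])
  obtain ⟨r, θ, hr0, -, hθ0, hθ1, h3⟩ := h2
  have h4 : (ρ : ℂ).im = r * Real.sin θ := by
    rw [h3]
    simp [X, -Complex.ofReal_cos, -Complex.ofReal_sin]
  rw [Complex.ofReal_im] at h4
  have h5 := Real.sin_pos_of_pos_of_lt_pi hθ0 (by linarith)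
  have h6 := mul_pos hr0 h5
  linarith

end Pool.Agent.Helper327_Drum
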