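import Pool.Agent.Helper327_Drum.BDefs
import Pool.Agent.Helper327_Drum.Fin.C1
import Pool.Agent.Helper327_Drum.Fin.F1
import Pool.Agent.Helper327_Drum.Fin.NC1

/-
JOB CV1 (owner helper327, problem MP_d92c84_an). All imports are on origin/main.
-/

set_option autoImplicit false
open MeasureTheory Set Filter Topology ComplexConjugate
open scoped ContDiff InnerProductSpace

namespace Pool.Agent.Helper327_Drum

open Pool.Agent.TH298.Sch (dd SC)
open Pool.Agent.R227.SA (la Wat Dat)

/-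
`ip x n` (BDefs.lean) is the real inner product. `Wat D lam u` (R227.SA10): u continuous, 0 off D, near each point of D equal to a smooth (SC) solution U of la U = -lam U.
Plain proof: as for `barrier` (Fin/NC1.lean), with h(x) = (lam/2 + ε)(ip x n - a)(b - ip x n) - σ u x, σ = ±1; la of the first term is -(lam + 2ε) since ‖n‖ = 1.
On the frontier of D u = 0 and a ≤ ip x n ≤ b.
-/

/-! #### local lemmas -/

lemma cv1_min {U : ℂ → ℝ} (hU : SC U) {n : ℂ} (hn : ‖n‖ = 1) {x₀ : ℂ} {K a b : ℝ}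
    (hmin : IsLocalMin (fun x : ℂ => K * (ip x n - a) * (b - ip x n) - U x) x₀) :
    la U x₀ ≤ -(2 * K) := by
  have key : ∀ v : ℂ, dd v (dd v U) x₀ ≤ -(2 * K * (ip v n) ^ 2) := by
    intro v
    set p : ℝ := ip x₀ n with hp
    set α : ℝ := ip v n with hα
    set g : ℝ → ℝ := fun t => K * (p + α * t - a) * (b - (p + α * t)) - U (x₀ + t * v) with hg
    have hip : ∀ t : ℝ, ip (x₀ + t * v) n = p + α * t := by
      intro t
      simp only [ip, hp, hα, Complex.add_re, Complex.add_im, Complex.mul_re, Complex.mul_im,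
        Complex.ofReal_re, Complex.ofReal_im, zero_mul, sub_zero, add_zero]
      ring
    have hline : Continuous fun t : ℝ => x₀ + (t : ℂ) * v := by fun_prop
    have hmin' : IsLocalMin g 0 := by
      have h0 : IsLocalMin (fun x : ℂ => K * (ip x n - a) * (b - ip x n) - U x)
          (x₀ + ((0 : ℝ) : ℂ) * v) := by
        simpa using hmin
      have h1 := h0.comp_continuous (g := fun t : ℝ => x₀ + (t : ℂ) * v) hline.continuousAt
      have h2 : ((fun x : ℂ => K * (ip x n - a) * (b - ip x n) - U x) ∘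
          fun t : ℝ => x₀ + (t : ℂ) * v) = g := by
        funext t
        simp only [Function.comp_apply, hg, hip]
      rwa [h2] at h1
    have hd : ∀ t : ℝ, HasDerivAt g
        (K * α * (b + a - 2 * p - 2 * α * t) - dd v U (x₀ + t * v)) t := by
      intro t
      have a1 : HasDerivAt (fun t : ℝ => K * (p + α * t - a) * (b - (p + α * t)))
          (K * α * (b + a - 2 * p - 2 * α * t)) t := by
        have b0 : HasDerivAt (fun t : ℝ => p + α * t) α t := by
          simpa using ((hasDerivAt_id t).const_mul α).const_add p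
        have b1 := ((b0.sub_const a).const_mul K).mul (b0.const_sub b)
        refine b1.congr_deriv ?_
        ring
      exact a1.sub (nc1_dir hU x₀ v t)
    have hd1 : deriv g = fun t : ℝ =>
        K * α * (b + a - 2 * p - 2 * α * t) - dd v U (x₀ + t * v) :=
      funext fun t => (hd t).deriv
    have hd2 : HasDerivAt (deriv g)
        (-(2 * K * α ^ 2) - dd v (dd v U) (x₀ + ((0 : ℝ) : ℂ) * v)) 0 := by
      rw [hd1]
      have a1 : HasDerivAt (fun t : ℝ => K * α * (b + a - 2 * p - 2 * α * t))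
          (-(2 * K * α ^ 2)) 0 := by
        have b1 := (((hasDerivAt_id (0 : ℝ)).const_mul (2 * α)).const_sub
          (b + a - 2 * p)).const_mul (K * α)
        refine b1.congr_deriv ?_
        ring
      exact a1.sub (nc1_dir (Pool.Agent.TH298.Sch.dd_sc hU v) x₀ v 0)
    have h3 := nc1_snd hmin' (hd 0).continuousAt
    rw [hd2.deriv] at h3
    simp only [Complex.ofReal_zero, zero_mul, add_zero] at h3
    linarith
  have k1 := key 1
  have k2 := key Complex.I
  have e : ip 1 n ^ 2 + ip Complex.I n ^ 2 = 1 := by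
    have h1 : n.re * n.re + n.im * n.im = 1 := by
      rw [← Complex.normSq_apply, ← Complex.sq_norm, hn, one_pow]
    simp only [ip, Complex.one_re, Complex.one_im, Complex.I_re, Complex.I_im]
    linear_combination h1
  unfold la
  have e2 : 2 * K * ip 1 n ^ 2 + 2 * K * ip Complex.I n ^ 2 = 2 * K := by
    rw [← mul_add, e, mul_one]
  linarith

lemma cv1_ip_cont (n : ℂ) : Continuous fun x => ip x n := by
  unfold ip
  fun_prop

lemma cv1_half {D : Set ℂ} (hDo : IsOpen D) (hDb : Bornology.IsBounded D) {lam a b : ℝ}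
    (hlam : 0 < lam) {n : ℂ} (hn : ‖n‖ = 1) (hD : ∀ x ∈ D, a < ip x n ∧ ip x n < b) {u : ℂ → ℝ}
    (hu : Wat D lam u) (h1 : ∀ x, u x ≤ 1) :
    ∀ x ∈ D, u x ≤ lam / 2 * (ip x n - a) * (b - ip x n) := by
  intro x hx
  have hipc := cv1_ip_cont n
  have hclD : ∀ y ∈ closure D, a ≤ ip y n ∧ ip y n ≤ b := by
    have hcl : IsClosed {y : ℂ | a ≤ ip y n ∧ ip y n ≤ b} :=
      (isClosed_le continuous_const hipc).inter (isClosed_le hipc continuous_const)
    have hsub : D ⊆ {y : ℂ | a ≤ ip y n ∧ ip y n ≤ b} :=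
      fun y hy => ⟨(hD y hy).1.le, (hD y hy).2.le⟩
    exact fun y hy => closure_minimal hsub hcl hy
  have key : ∀ ε : ℝ, 0 < ε → u x ≤ (lam / 2 + ε) * (ip x n - a) * (b - ip x n) := by
    intro ε hε
    set K := lam / 2 + ε with hK
    have hKpos : 0 < K := by positivity
    have hcomp : IsCompact (closure D) := hDb.isCompact_closure
    have hcont : Continuous fun y : ℂ => K * (ip y n - a) * (b - ip y n) - u y := by
      have := hu.cont
      fun_prop
    obtain ⟨x₀, hx₀, hmin⟩ := hcomp.exists_isMinOn ⟨x, subset_closure hx⟩ hcont.continuousOn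
    have hmin2 : ∀ y ∈ D, K * (ip x₀ n - a) * (b - ip x₀ n) - u x₀ ≤
        K * (ip y n - a) * (b - ip y n) - u y := fun y hy => hmin (subset_closure hy)
    have hx0 : 0 ≤ K * (ip x₀ n - a) * (b - ip x₀ n) - u x₀ := by
      by_cases hxD : x₀ ∈ D
      · exfalso
        obtain ⟨U, hU, he, hla⟩ := nc1_ev hu hxD
        have hm1 : IsLocalMin (fun y : ℂ => K * (ip y n - a) * (b - ip y n) - U y) x₀ := by
          have hev := he.self_of_nhds
          filter_upwards [hDo.mem_nhds hxD, he] with y hy hyU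
          rw [← hyU, ← hev]
          exact hmin2 y hy
        have h2 := cv1_min hU hn hm1
        rw [hla] at h2
        have h3 := h1 x₀
        have h4 : lam * u x₀ ≤ lam * 1 := mul_le_mul_of_nonneg_left h3 hlam.le
        rw [hK] at h2
        linarith
      · rw [hu.out x₀ hxD, sub_zero]
        have h3 := hclD x₀ hx₀
        exact mul_nonneg (mul_nonneg hKpos.le (by linarith)) (by linarith)
    linarith [hmin2 x hx]
  have hPx : 0 < (ip x n - a) * (b - ip x n) :=
    mul_pos (by linarith [(hD x hx).1]) (by linarith [(hD x hx).2])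
  refine le_of_forall_pos_le_add fun δ hδ => ?_
  have h2 := key (δ / ((ip x n - a) * (b - ip x n) + 1)) (by positivity)
  have h3 : δ / ((ip x n - a) * (b - ip x n) + 1) * ((ip x n - a) * (b - ip x n)) ≤ δ := by
    rw [div_mul_eq_mul_div, div_le_iff₀ (by positivity)]
    nlinarith
  rw [mul_assoc] at h2 ⊢
  linarith [add_mul (lam / 2) (δ / ((ip x n - a) * (b - ip x n) + 1))
    ((ip x n - a) * (b - ip x n))]

/-- TARGET 1: a barrier in a strip. -/
theorem strip_barrier {D : Set ℂ} (hDo : IsOpen D) (hDb : Bornology.IsBounded D) {lam a b : ℝ}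
    (hlam : 0 < lam) {n : ℂ} (hn : ‖n‖ = 1) (hD : ∀ x ∈ D, a < ip x n ∧ ip x n < b) {u : ℂ → ℝ}
    (hu : Wat D lam u) (h1 : ∀ x, |u x| ≤ 1) :
    ∀ x ∈ D, |u x| ≤ lam / 2 * (ip x n - a) * (b - ip x n) := by
  intro x hx
  rw [abs_le]
  constructor
  · have := cv1_half hDo hDb hlam hn hD hu.neg (fun y => (neg_le_abs (u y)).trans (h1 y)) x hx
    linarith
  · exact cv1_half hDo hDb hlam hn hD hu (fun y => (le_abs_self _).trans (h1 y)) x hx

/-
Compare `compact_modes` in Fin/NC1.lean (limit domain: the unit disc), whose proof can be adapted.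
Plain proof. Let Δ > 0 bound the diameter of K₀ (K₀ ⊆ closedBall 0 ρ). For y in the frontier of the convex set K₀ there is a supporting half plane: a unit vector n with
ip x n < ip y n for x ∈ K₀ (`geometric_hahn_banach_open_point`). Then D m ⊆ thickening (ε m) K₀ lies in the strip ip y n - 2ρ - ε m < ip x n < ip y n + ε m (roughly), so `strip_barrier` gives
|u m x| ≤ (T/2)(2ρ + 2 ε m + ...) (ip y n + ε m - ip x n) ≤ C (‖x - y‖ + ε m) for x ∈ D m. So |u m x| ≤ C (dist(x, K₀ᶜ) + ε m) for x ∈ K₀ and |u m x| ≤ C' ε m for x ∉ K₀ (a point x of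
thickening (ε m) K₀ outside K₀ is within ε m of a frontier point of K₀). At a point where |u m| = 1: 1 ≤ C (dist + ε m), so these points stay in a compact subset of K₀ for large m, and lam m is
bounded below by a positive constant (the bound is ≤ lam m * const). Choose a subsequence with lam m → l > 0.
Equicontinuity: given η > 0 there is s > 0 such that for m large |u m| ≤ η where dist(x, K₀ᶜ) ≤ s; where dist(x, K₀ᶜ) ≥ s/2 and ε m < s/4, ball x (s/4) ⊆ {x | closedBall x (ε m) ⊆ K₀} ⊆ D m and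
`grad_bd` bounds ‖fderiv (u m) x‖. Arzelà-Ascoli: a subsequence converges uniformly on the plane to a continuous v, v = 0 off K₀, |v| = 1 somewhere.
Wat K₀ l v: pass to the limit in ∫ u m (la φ + lam m φ) = 0 for φ SC with tsupport φ ⊆ K₀ (a compact subset of D m for m large), and `reg` (Fin/F1.lean). Gradients: `grad_bd` for u m - v.
-/

/-! #### local lemmas -/

lemma cv1_support {K₀ : Set ℂ} (hKo : IsOpen K₀) (hKc : Convex ℝ K₀) (hKn : K₀.Nonempty) {y : ℂ}
    (hy : y ∉ K₀) : ∃ n : ℂ, ‖n‖ = 1 ∧ ∀ z ∈ K₀, ip z n < ip y n := by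
  obtain ⟨f, hf⟩ := geometric_hahn_banach_open_point hKc hKo hy
  obtain ⟨z₀, hz₀⟩ := hKn
  set w : ℂ := ⟨f 1, f Complex.I⟩ with hw
  have hfw : ∀ z : ℂ, f z = ip z w := by
    intro z
    have : z = (z.re : ℝ) • (1 : ℂ) + (z.im : ℝ) • Complex.I := by simp [Complex.re_add_im]
    conv_lhs => rw [this]
    rw [map_add, map_smul, map_smul]
    simp [ip, hw]
  have hw0 : w ≠ 0 := by
    intro h0
    have := hf z₀ hz₀
    rw [hfw, hfw, h0] at this
    simp [ip] at this
  have hpos : 0 < ‖w‖ := norm_pos_iff.mpr hw0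
  refine ⟨((‖w‖⁻¹ : ℝ) : ℂ) * w, ?_, ?_⟩
  · rw [norm_mul, Complex.norm_real, norm_inv, norm_norm, inv_mul_cancel₀ hpos.ne']
  · intro z hz
    have h := hf z hz
    rw [hfw, hfw] at h
    have e : ∀ z : ℂ, ip z (((‖w‖⁻¹ : ℝ) : ℂ) * w) = ‖w‖⁻¹ * ip z w := by
      intro z
      simp only [ip, Complex.mul_re, Complex.mul_im, Complex.ofReal_re, Complex.ofReal_im, zero_mul,
        sub_zero, add_zero]
      ring
    rw [e, e]
    exact mul_lt_mul_of_pos_left h (inv_pos.mpr hpos)

lemma cv1_ip_le (x : ℂ) {n : ℂ} (hn : ‖n‖ = 1) : |ip x n| ≤ ‖x‖ := by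
  have : ip x n = (x * conj n).re := by simp [ip, Complex.mul_re]
  rw [this]
  refine (Complex.abs_re_le_norm _).trans ?_
  simp [hn]

lemma cv1_ip_sub (x y n : ℂ) : ip x n - ip y n = ip (x - y) n := by
  simp only [ip, Complex.sub_re, Complex.sub_im]
  ring

lemma cv1_norm_lt {K₀ : Set ℂ} {ρ ε : ℝ} (hρ : K₀ ⊆ Metric.closedBall 0 ρ) {x : ℂ}
    (hx : x ∈ Metric.thickening ε K₀) : ‖x‖ < ρ + ε := by
  obtain ⟨z, hz, hd⟩ := Metric.mem_thickening_iff.mp hx
  have h1 := hρ hz
  rw [mem_closedBall_zero_iff] at h1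
  rw [dist_eq_norm] at hd
  have h2 : ‖x‖ ≤ ‖x - z‖ + ‖z‖ := by
    simpa using norm_add_le (x - z) z
  linarith

lemma cv1_up {K₀ : Set ℂ} (hKo : IsOpen K₀) (hKc : Convex ℝ K₀) (hKn : K₀.Nonempty) {ρ : ℝ}
    (hρ : K₀ ⊆ Metric.closedBall 0 ρ) {D : Set ℂ} {lam ε : ℝ} {u : ℂ → ℝ} (hε0 : 0 < ε)
    (hDo : IsOpen D) (hout : D ⊆ Metric.thickening ε K₀) (hlam : 0 < lam) (hu : Wat D lam u)
    (h1 : ∀ x, |u x| ≤ 1) (x : ℂ) :
    |u x| ≤ lam * (ρ + ε) * (Metric.infDist x K₀ᶜ + ε) := by
  have hρ0 : 0 ≤ ρ := by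
    obtain ⟨z, hz⟩ := hKn
    have := hρ hz
    rw [mem_closedBall_zero_iff] at this
    exact (norm_nonneg z).trans this
  have hne : K₀ᶜ.Nonempty := by
    refine ⟨((ρ + 1 : ℝ) : ℂ), fun h => ?_⟩
    have := hρ h
    rw [mem_closedBall_zero_iff, Complex.norm_real, Real.norm_eq_abs, abs_of_pos (by linarith)] at this
    linarith
  have hi0 : 0 ≤ Metric.infDist x K₀ᶜ := Metric.infDist_nonneg
  by_cases hx : x ∈ D
  · obtain ⟨y, hy, hdist⟩ := hKo.isClosed_compl.exists_infDist_eq_dist hne x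
    obtain ⟨n, hn, hlt⟩ := cv1_support hKo hKc hKn hy
    have hb : ∀ x' ∈ D, -(ρ + ε) < ip x' n ∧ ip x' n < ip y n + ε := by
      intro x' hx'
      have g1 := cv1_norm_lt hρ (hout hx')
      have g2 := abs_le.mp (cv1_ip_le x' hn)
      refine ⟨by linarith, ?_⟩
      obtain ⟨z, hz, hd⟩ := Metric.mem_thickening_iff.mp (hout hx')
      rw [dist_eq_norm] at hd
      have g3 := hlt z hz
      have g4 := abs_le.mp (cv1_ip_le (x' - z) hn)
      rw [← cv1_ip_sub] at g4
      linarith
    have hbd : Bornology.IsBounded D :=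
      (Metric.isBounded_ball (x := (0 : ℂ)) (r := ρ + ε)).subset fun x' hx' => by
        rw [mem_ball_zero_iff]
        exact cv1_norm_lt hρ (hout hx')
    have h2 := strip_barrier hDo hbd hlam hn hb hu h1 x hx
    have g1 := hb x hx
    have g2 := abs_le.mp (cv1_ip_le x hn)
    have g3 := cv1_norm_lt hρ (hout hx)
    have g4 := abs_le.mp (cv1_ip_le (y - x) hn)
    rw [← cv1_ip_sub] at g4
    rw [hdist, dist_comm, dist_eq_norm]
    refine h2.trans ?_
    have a1 : 0 ≤ ip x n - -(ρ + ε) := by linarith [g1.1]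
    have a2 : ip x n - -(ρ + ε) ≤ 2 * (ρ + ε) := by linarith [g2.2]
    have a3 : 0 ≤ ip y n + ε - ip x n := by linarith [g1.2]
    have a4 : ip y n + ε - ip x n ≤ ‖y - x‖ + ε := by linarith [g4.2]
    calc lam / 2 * (ip x n - -(ρ + ε)) * (ip y n + ε - ip x n)
        = lam / 2 * ((ip x n - -(ρ + ε)) * (ip y n + ε - ip x n)) := by ring
      _ ≤ lam / 2 * ((2 * (ρ + ε)) * (‖y - x‖ + ε)) := by
          apply mul_le_mul_of_nonneg_left _ (by linarith)
          exact mul_le_mul a2 a4 a3 (by linarith)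
      _ = lam * (ρ + ε) * (‖y - x‖ + ε) := by ring
  · rw [hu.out x hx, abs_zero]
    have : 0 ≤ ρ + ε := by linarith
    positivity

lemma cv1_weak {D : Set ℂ} {lam : ℝ} {u : ℂ → ℝ} (hu : Wat D lam u) {φ : ℂ → ℝ} (hφ : SC φ)
    {χ : ℂ → ℝ} (hχ : ContDiff ℝ ∞ χ) (hχc : HasCompactSupport χ)
    (hχ1 : ∀ x ∈ tsupport φ, ∀ᶠ y in 𝓝 x, χ y = 1) (hχD : tsupport χ ⊆ D) :
    ∫ x, u x * (la φ x + lam * φ x) = 0 := by
  set w : ℂ → ℝ := fun x => χ x * u x with hw
  have hwsm : ContDiff ℝ ∞ w := by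
    rw [contDiff_iff_contDiffAt]
    intro z
    by_cases hz : z ∈ tsupport χ
    · exact ContDiffAt.mul hχ.contDiffAt (nc1_cd hu (hχD hz))
    · have h1 : w =ᶠ[𝓝 z] fun _ => 0 := by
        filter_upwards [(isClosed_tsupport χ).isOpen_compl.mem_nhds hz] with y hy
        rw [hw]
        simp only
        rw [image_eq_zero_of_notMem_tsupport hy, zero_mul]
      exact contDiffAt_const.congr_of_eventuallyEq h1
  have hwsc : SC w := ⟨hwsm, hχc.mul_right⟩
  have hwu : ∀ x ∈ tsupport φ, w =ᶠ[𝓝 x] u := by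
    intro x hx
    filter_upwards [hχ1 x hx] with y hy
    rw [hw]
    simp only
    rw [hy, one_mul]
  have hD : ∀ x ∈ tsupport φ, x ∈ D := by
    intro x hx
    apply hχD
    apply subset_tsupport
    rw [Function.mem_support, (hχ1 x hx).self_of_nhds]
    exact one_ne_zero
  have e1 : ∀ x, u x * (la φ x + lam * φ x) = w x * la φ x + lam * (w x * φ x) := by
    intro x
    by_cases hx : x ∈ tsupport φ
    · rw [(hwu x hx).self_of_nhds]
      ring
    · rw [nc1_la_out hx, image_eq_zero_of_notMem_tsupport hx]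
      ring
  have hlaφ : SC (la φ) := Pool.Agent.R227.SA.la_sc hφ
  have hlaw : SC (la w) := Pool.Agent.R227.SA.la_sc hwsc
  simp only [e1]
  rw [integral_add (hwsc.mul hlaφ).int ((hwsc.mul hφ).int.const_mul lam), nc1_ibp hwsc hφ,
    ← integral_add (hlaw.mul hφ).int ((hwsc.mul hφ).int.const_mul lam)]
  rw [← integral_zero ℂ ℝ (μ := volume)]
  refine integral_congr_ae (Eventually.of_forall fun x => ?_)
  simp only
  by_cases hx : x ∈ tsupport φ
  · rw [J507.la_congr (hwu x hx), nc1_la hu (hD x hx), (hwu x hx).self_of_nhds]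
    ring
  · rw [image_eq_zero_of_notMem_tsupport hx]
    ring

open scoped Manifold in
lemma cv1_cutoff {K U : Set ℂ} (hK : IsCompact K) (hU : IsOpen U) (hKU : K ⊆ U) :
    ∃ (χ : ℂ → ℝ) (L : Set ℂ), ContDiff ℝ ∞ χ ∧ HasCompactSupport χ ∧
      (∀ x ∈ K, ∀ᶠ y in 𝓝 x, χ y = 1) ∧ tsupport χ ⊆ L ∧ IsCompact L ∧ L ⊆ U := by
  obtain ⟨L, hL, hKL, hLU⟩ := exists_compact_between hK hU hKU
  obtain ⟨f, hf1, hf2, -⟩ := exists_contMDiffMap_one_nhds_of_subset_interior
    (n := (⊤ : ℕ∞)) 𝓘(ℝ, ℂ)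
    hK.isClosed hKL
  have hs : tsupport (f : ℂ → ℝ) ⊆ L := by
    apply closure_minimal _ hL.isClosed
    intro x hx
    by_contra hxL
    exact hx (hf2 x hxL)
  refine ⟨f, L, f.contMDiff.contDiff, ?_, ?_, hs, hL, hLU⟩
  · exact hL.of_isClosed_subset (isClosed_tsupport _) hs
  · intro x hx
    rw [eventually_nhdsSet_iff_forall] at hf1
    exact hf1 x hx

lemma cv1_sub {K₀ : Set ℂ} {D : Set ℂ} {ε s : ℝ} {x₀ : ℂ} (hs : Metric.closedBall x₀ s ⊆ K₀)
    (hin : {x | Metric.closedBall x ε ⊆ K₀} ⊆ D) {y : ℂ} (hy : dist y x₀ + ε ≤ s) : y ∈ D := by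
  apply hin
  intro w hw
  apply hs
  rw [Metric.mem_closedBall] at hw ⊢
  linarith [dist_triangle w y x₀]

lemma cv1_equi {K₀ : Set ℂ} (hKo : IsOpen K₀) {D : ℕ → Set ℂ} {lam ε : ℕ → ℝ} {u : ℕ → ℂ → ℝ}
    {T C : ℝ} (hε : Tendsto ε atTop (𝓝 0))
    (hin : ∀ n, {x | Metric.closedBall x (ε n) ⊆ K₀} ⊆ D n)
    (hlam : ∀ n, 0 < lam n ∧ lam n ≤ T) (hu : ∀ n, Wat (D n) (lam n) (u n))
    (h1 : ∀ n x, |u n x| ≤ 1)
    (hup : ∀ n x, |u n x| ≤ C * (Metric.infDist x K₀ᶜ + ε n)) (x₀ : ℂ) {η : ℝ} (hη : 0 < η) :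
    ∀ᶠ x in 𝓝 x₀, ∀ n, |u n x - u n x₀| < η := by
  have hT : 0 < T := (hlam 0).1.trans_le (hlam 0).2
  obtain ⟨N, hN⟩ : ∃ N, ∀ᶠ x in 𝓝 x₀, ∀ n, N ≤ n → |u n x - u n x₀| < η := by
    by_cases hx : x₀ ∈ K₀
    · obtain ⟨s, hs0, hs⟩ := Metric.nhds_basis_closedBall.mem_iff.1 (hKo.mem_nhds hx)
      set r := s / 3 with hr
      have hr0 : 0 < r := by rw [hr]; linarith
      obtain ⟨N, hN⟩ := eventually_atTop.1 (hε.eventually (gt_mem_nhds hr0))
      set L := 8 * (1 / r + T * r) with hL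
      have hL0 : 0 < L := by positivity
      refine ⟨N, ?_⟩
      filter_upwards [Metric.ball_mem_nhds x₀ (lt_min hr0 (div_pos hη hL0))] with x hxb n hn
      have hxr : x ∈ Metric.ball x₀ r := Metric.ball_subset_ball (min_le_left _ _) hxb
      have hxL : dist x x₀ < η / L := lt_of_lt_of_le hxb (min_le_right _ _)
      have hball : ∀ y ∈ Metric.ball x₀ r, Metric.ball y r ⊆ D n := by
        intro y hy z hz
        refine cv1_sub hs (hin n) ?_
        have h2 := hN n hn
        rw [Metric.mem_ball] at hy hz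
        have h3 := dist_triangle z y x₀
        rw [hr] at *
        linarith
      have h3 := (convex_ball x₀ r).norm_image_sub_le_of_norm_fderiv_le (𝕜 := ℝ) (f := u n) (C := L)
        (fun y hy => (nc1_cd (hu n) (hball y hy (Metric.mem_ball_self hr0))).differentiableAt
          (by simp))
        (fun y hy => nc1_grad (hlam n).1 (hlam n).2 (hu n) (h1 n) hr0 (hball y hy))
        (Metric.mem_ball_self hr0) hxr
      rw [Real.norm_eq_abs, ← dist_eq_norm] at h3
      refine h3.trans_lt ?_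
      rw [lt_div_iff₀ hL0] at hxL
      linarith
    · -- outside the convex set
      have hc : ContinuousAt (fun p : ℝ × ℂ => C * (Metric.infDist p.2 K₀ᶜ + p.1)) (0, x₀) := by
        have h0 : Continuous fun p : ℝ × ℂ => Metric.infDist p.2 K₀ᶜ :=
          (Metric.continuous_infDist_pt _).comp continuous_snd
        exact (Continuous.continuousAt (by fun_prop))
      have h0 : C * (Metric.infDist x₀ K₀ᶜ + (0 : ℝ)) < η / 2 := by
        rw [Metric.infDist_zero_of_mem (by exact hx)]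
        simp only [add_zero, mul_zero]
        positivity
      have h2 : ∀ᶠ p : ℝ × ℂ in 𝓝 0 ×ˢ 𝓝 x₀, C * (Metric.infDist p.2 K₀ᶜ + p.1) < η / 2 := by
        rw [← nhds_prod_eq]
        exact hc.eventually (gt_mem_nhds h0)
      obtain ⟨P, hP, Q, hQ, hPQ⟩ := eventually_prod_iff.1 h2
      obtain ⟨N, hN⟩ := eventually_atTop.1 (hε.eventually hP)
      refine ⟨N, ?_⟩
      filter_upwards [hQ] with x hx n hn
      have a1 := (hup n x).trans_lt (hPQ (hN n hn) hx)
      have a2 := (hup n x₀).trans_lt (hPQ (hN n hn) hQ.self_of_nhds)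
      have a3 := abs_sub (u n x) (u n x₀)
      linarith
  have h2 : ∀ᶠ x in 𝓝 x₀, ∀ n ∈ Finset.range N, |u n x - u n x₀| < η := by
    rw [Filter.eventually_all_finset]
    intro n _
    have h3 : Tendsto (fun x => |u n x - u n x₀|) (𝓝 x₀) (𝓝 |u n x₀ - u n x₀|) := by
      have := (hu n).cont
      exact (Continuous.tendsto (by fun_prop) x₀)
    rw [sub_self, abs_zero] at h3
    exact h3.eventually (gt_mem_nhds hη)
  filter_upwards [hN, h2] with x a b n
  by_cases hn : N ≤ n
  · exact a n hn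
  · exact b n (Finset.mem_range.2 (not_le.1 hn))

/-- the compactness: a uniformly convergent subsequence -/
lemma cv1_conv {K₀ : Set ℂ} (hKo : IsOpen K₀) {D : ℕ → Set ℂ} {lam ε : ℕ → ℝ} {u : ℕ → ℂ → ℝ}
    {T C R : ℝ} (hε : Tendsto ε atTop (𝓝 0))
    (hin : ∀ n, {x | Metric.closedBall x (ε n) ⊆ K₀} ⊆ D n)
    (hR : ∀ n, D n ⊆ Metric.closedBall 0 R)
    (hlam : ∀ n, 0 < lam n ∧ lam n ≤ T) (hu : ∀ n, Wat (D n) (lam n) (u n))
    (h1 : ∀ n x, |u n x| ≤ 1)
    (hup : ∀ n x, |u n x| ≤ C * (Metric.infDist x K₀ᶜ + ε n)) :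
    ∃ (φ : ℕ → ℕ) (l : ℝ) (v : ℂ → ℝ), StrictMono φ ∧
      Tendsto (fun n => lam (φ n)) atTop (𝓝 l) ∧ TendstoUniformly (fun n => u (φ n)) v atTop := by
  classical
  have : CompactSpace (Metric.closedBall (0 : ℂ) R) :=
    isCompact_iff_compactSpace.1 (isCompact_closedBall 0 R)
  let F : ℕ → BoundedContinuousFunction (Metric.closedBall (0 : ℂ) R) ℝ := fun n =>
    BoundedContinuousFunction.mkOfCompact ⟨fun x => u n x, (hu n).cont.comp continuous_subtype_val⟩
  have hF : ∀ n x, F n x = u n x := fun n x => rfl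
  have hcomp : IsCompact (closure (range F)) := by
    refine BoundedContinuousFunction.arzela_ascoli (Metric.closedBall (0 : ℝ) 1)
      (isCompact_closedBall 0 1) (range F) ?_ ?_
    · rintro _ x ⟨n, rfl⟩
      rw [mem_closedBall_zero_iff, Real.norm_eq_abs]
      exact h1 n x
    · intro x₀
      rw [Metric.equicontinuousAt_iff_right]
      intro η hη
      have h2 := (continuous_subtype_val (p := (· ∈ Metric.closedBall (0 : ℂ) R))).continuousAt
        (x := x₀) |>.eventually (cv1_equi hKo hε hin hlam hu h1 hup (x₀ : ℂ) hη)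
      filter_upwards [h2] with x hx
      rintro ⟨_, n, rfl⟩
      rw [dist_comm, Real.dist_eq]
      exact hx n
  have hprod : IsCompact (Icc (0 : ℝ) T ×ˢ closure (range F)) := isCompact_Icc.prod hcomp
  obtain ⟨⟨l, g⟩, -, φ, hφ, hlim⟩ := hprod.tendsto_subseq (x := fun n => (lam n, F n))
    (fun n => ⟨⟨(hlam n).1.le, (hlam n).2⟩, subset_closure (mem_range_self n)⟩)
  rw [nhds_prod_eq, tendsto_prod_iff'] at hlim
  obtain ⟨hl1, hl2⟩ := hlim
  set v : ℂ → ℝ := fun x => if h : x ∈ Metric.closedBall (0 : ℂ) R then g ⟨x, h⟩ else 0 with hv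
  refine ⟨φ, l, v, hφ, hl1, ?_⟩
  rw [Metric.tendstoUniformly_iff]
  intro η hη
  have h3 : ∀ᶠ n in atTop, dist (F (φ n)) g < η :=
    (tendsto_iff_dist_tendsto_zero.1 hl2).eventually (gt_mem_nhds hη)
  filter_upwards [h3] with n hn x
  by_cases hx : x ∈ Metric.closedBall (0 : ℂ) R
  · rw [hv]
    simp only [hx, dite_true]
    rw [dist_comm]
    exact (BoundedContinuousFunction.dist_coe_le_dist (f := F (φ n)) (g := g) ⟨x, hx⟩).trans_lt hn
  · rw [hv]
    simp only [hx, dite_false]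
    rw [(hu (φ n)).out x, dist_self]
    · exact hη
    · intro h
      exact hx (hR _ h)

/-- TARGET 2: compactness of the eigenfunctions of domains converging to a convex domain. -/
theorem compact_modes_convex {K₀ : Set ℂ} (hKo : IsOpen K₀) (hKc : Convex ℝ K₀)
    (hKb : Bornology.IsBounded K₀) (hKn : K₀.Nonempty) {D : ℕ → Set ℂ} {lam ε : ℕ → ℝ}
    {u : ℕ → ℂ → ℝ} {T : ℝ} (hε : Tendsto ε atTop (𝓝 0)) (hε0 : ∀ n, 0 < ε n)
    (hDo : ∀ n, IsOpen (D n)) (hin : ∀ n, {x | Metric.closedBall x (ε n) ⊆ K₀} ⊆ D n)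
    (hout : ∀ n, D n ⊆ Metric.thickening (ε n) K₀)
    (hlam : ∀ n, 0 < lam n ∧ lam n ≤ T) (hu : ∀ n, Wat (D n) (lam n) (u n))
    (h1 : ∀ n x, |u n x| ≤ 1) (h2 : ∀ n, ∃ x, |u n x| = 1) :
    ∃ (φ : ℕ → ℕ) (l : ℝ) (v : ℂ → ℝ), StrictMono φ ∧ 0 < l ∧
      Tendsto (fun n => lam (φ n)) atTop (𝓝 l) ∧ Wat K₀ l v ∧ (∃ x, v x ≠ 0) ∧
      TendstoUniformly (fun n => u (φ n)) v atTop ∧
      ∀ (x : ℕ → ℂ) (x₀ : ℂ), x₀ ∈ K₀ → Tendsto x atTop (𝓝 x₀) →
        Tendsto (fun n => fderiv ℝ (u (φ n)) (x n)) atTop (𝓝 (fderiv ℝ v x₀)) := by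
  obtain ⟨ρ, hρ⟩ := hKb.subset_closedBall (0 : ℂ)
  have hρ0 : 0 ≤ ρ := by
    obtain ⟨z, hz⟩ := hKn
    have := hρ hz
    rw [mem_closedBall_zero_iff] at this
    exact (norm_nonneg z).trans this
  have hT : 0 < T := (hlam 0).1.trans_le (hlam 0).2
  obtain ⟨E, hE'⟩ := hε.bddAbove_range
  have hE : ∀ n, ε n ≤ E := fun n => hE' (mem_range_self n)
  have hE0 : 0 < E := (hε0 0).trans_le (hE 0)
  set R := ρ + E with hRdef
  have hR0 : 0 < R := by positivity
  have hDR : ∀ n, D n ⊆ Metric.closedBall 0 R := by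
    intro n x hx
    rw [mem_closedBall_zero_iff]
    have := cv1_norm_lt hρ (hout n hx)
    linarith [hE n]
  have hinf0 : ∀ x : ℂ, 0 ≤ Metric.infDist x K₀ᶜ := fun x => Metric.infDist_nonneg
  have hup0 : ∀ n x, |u n x| ≤ lam n * R * (Metric.infDist x K₀ᶜ + ε n) := by
    intro n x
    refine (cv1_up hKo hKc hKn hρ (hε0 n) (hDo n) (hout n) (hlam n).1 (hu n) (h1 n) x).trans ?_
    apply mul_le_mul_of_nonneg_right _ (by linarith [hinf0 x, hε0 n])
    apply mul_le_mul_of_nonneg_left _ (hlam n).1.le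
    linarith [hE n]
  have hup : ∀ n x, |u n x| ≤ (T * R) * (Metric.infDist x K₀ᶜ + ε n) := by
    intro n x
    refine (hup0 n x).trans ?_
    apply mul_le_mul_of_nonneg_right _ (by linarith [hinf0 x, hε0 n])
    exact mul_le_mul_of_nonneg_right (hlam n).2 hR0.le
  obtain ⟨φ, l, v, hφ, hl, hv⟩ := cv1_conv hKo hε hin hDR hlam hu h1 hup
  -- the eigenvalues are bounded below
  obtain ⟨y₀, hy₀⟩ : K₀ᶜ.Nonempty := by
    refine ⟨((ρ + 1 : ℝ) : ℂ), fun h => ?_⟩
    have := hρ h
    rw [mem_closedBall_zero_iff, Complex.norm_real, Real.norm_eq_abs,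
      abs_of_pos (by linarith)] at this
    linarith
  set M := R * (R + ‖y₀‖ + E) with hM
  have hM0 : 0 < M := by positivity
  have hlam1 : ∀ n, 1 / M ≤ lam n := by
    intro n
    obtain ⟨x, hx⟩ := h2 n
    have hxD : x ∈ D n := by
      by_contra h
      rw [(hu n).out x h, abs_zero] at hx
      exact zero_ne_one hx
    have h3 := hup0 n x
    rw [hx] at h3
    have h4 : Metric.infDist x K₀ᶜ ≤ R + ‖y₀‖ := by
      refine (Metric.infDist_le_dist_of_mem hy₀).trans ?_
      rw [dist_eq_norm]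
      have := hDR n hxD
      rw [mem_closedBall_zero_iff] at this
      linarith [norm_sub_le x y₀]
    rw [div_le_iff₀ hM0, hM]
    refine h3.trans ?_
    rw [mul_assoc]
    apply mul_le_mul_of_nonneg_left _ (hlam n).1.le
    apply mul_le_mul_of_nonneg_left _ hR0.le
    linarith [hE n]
  have hl0 : 0 < l := lt_of_lt_of_le (by positivity) (ge_of_tendsto' hl fun n => hlam1 (φ n))
  have hptw : ∀ x, Tendsto (fun n => u (φ n) x) atTop (𝓝 (v x)) := fun x => hv.tendsto_at x
  have hvc : Continuous v := hv.continuous (Frequently.of_forall fun n => (hu (φ n)).cont)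
  have hεφ : Tendsto (fun n => ε (φ n)) atTop (𝓝 0) := hε.comp hφ.tendsto_atTop
  have hv0 : ∀ x, x ∉ K₀ → v x = 0 := by
    intro x hx
    have h3 : Tendsto (fun n => |u (φ n) x|) atTop (𝓝 |v x|) := (hptw x).abs
    have h4 : Tendsto (fun n => (T * R) * (Metric.infDist x K₀ᶜ + ε (φ n))) atTop
        (𝓝 ((T * R) * (Metric.infDist x K₀ᶜ + 0))) :=
      (hεφ.const_add _).const_mul _
    have h5 := le_of_tendsto_of_tendsto' h3 h4 fun n => hup (φ n) x
    rw [Metric.infDist_zero_of_mem (by exact hx)] at h5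
    simp only [add_zero, mul_zero] at h5
    exact abs_eq_zero.1 (le_antisymm h5 (abs_nonneg _))
  -- the weak form in the limit
  have hweak : ∀ ψ : ℂ → ℝ, SC ψ → tsupport ψ ⊆ K₀ →
      ∫ x, v x * (la ψ x + l * ψ x) = 0 := by
    intro ψ hψ hs
    have hlaψ : SC (la ψ) := Pool.Agent.R227.SA.la_sc hψ
    obtain ⟨χ, L, hχ, hχc, hχ1, hχL, hL, hLU⟩ := cv1_cutoff hψ.cs.isCompact hKo hs
    obtain ⟨δ, hδ, hδL⟩ := hL.exists_cthickening_subset_open hKo hLU
    have hlim : Tendsto (fun n => ∫ x, u (φ n) x * (la ψ x + lam (φ n) * ψ x)) atTop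
        (𝓝 (∫ x, v x * (la ψ x + l * ψ x))) := by
      refine tendsto_integral_of_dominated_convergence (fun x => |la ψ x| + T * |ψ x|) ?_ ?_ ?_ ?_
      · intro n
        have c1 := (hu (φ n)).cont
        have c2 := hlaψ.cont
        have c3 := hψ.cont
        exact (Continuous.aestronglyMeasurable (by fun_prop))
      · exact hlaψ.int.abs.add (hψ.int.abs.const_mul T)
      · intro n
        refine Eventually.of_forall fun x => ?_
        rw [Real.norm_eq_abs, abs_mul]
        have b1 : |la ψ x + lam (φ n) * ψ x| ≤ |la ψ x| + T * |ψ x| := by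
          refine (abs_add_le _ _).trans (add_le_add le_rfl ?_)
          rw [abs_mul, abs_of_pos (hlam _).1]
          exact mul_le_mul_of_nonneg_right (hlam _).2 (abs_nonneg _)
        calc |u (φ n) x| * |la ψ x + lam (φ n) * ψ x| ≤ 1 * |la ψ x + lam (φ n) * ψ x| :=
              mul_le_mul_of_nonneg_right (h1 _ _) (abs_nonneg _)
          _ ≤ _ := by rw [one_mul]; exact b1
      · refine Eventually.of_forall fun x => ?_
        exact (hptw x).mul (tendsto_const_nhds.add (hl.mul_const _))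
    have hzero : ∀ᶠ n in atTop, ∫ x, u (φ n) x * (la ψ x + lam (φ n) * ψ x) = 0 := by
      have h3 : ∀ᶠ n in atTop, ε (φ n) < δ := hεφ.eventually (gt_mem_nhds hδ)
      filter_upwards [h3] with n hn
      refine cv1_weak (hu (φ n)) hψ hχ hχc hχ1 ?_
      intro x hx
      apply hin (φ n)
      intro y hy
      apply hδL
      rw [Metric.mem_closedBall] at hy
      exact Metric.mem_cthickening_of_dist_le y x δ L (hχL hx) (hy.trans hn.le)
    exact tendsto_nhds_unique hlim ((tendsto_congr' hzero).2 tendsto_const_nhds)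
  have hwat : Wat K₀ l v := ⟨hvc, hv0, reg hKo hl0 hvc hweak⟩
  have hne : ∃ x, v x ≠ 0 := by
    by_contra hcon
    push Not at hcon
    have hv' := hv
    rw [Metric.tendstoUniformly_iff] at hv'
    obtain ⟨n, hn⟩ := (hv' 1 one_pos).exists
    obtain ⟨x, hx⟩ := h2 (φ n)
    have := hn x
    rw [hcon x, dist_comm, dist_zero_right, Real.norm_eq_abs, hx] at this
    exact lt_irrefl _ this
  refine ⟨φ, l, v, hφ, hl0, hl, hwat, hne, hv, fun x x₀ hx₀ hx => ?_⟩
  -- gradients
  obtain ⟨s, hs0, hs⟩ := Metric.nhds_basis_closedBall.mem_iff.1 (hKo.mem_nhds hx₀)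
  have hcont : ContinuousAt (fderiv ℝ v) x₀ :=
    ((nc1_cd hwat hx₀).fderiv_right (m := 0) (by simp)).continuousAt
  have hlimv : Tendsto (fun n => fderiv ℝ v (x n)) atTop (𝓝 (fderiv ℝ v x₀)) :=
    hcont.tendsto.comp hx
  have hdiff : Tendsto (fun n => fderiv ℝ (u (φ n)) (x n) - fderiv ℝ v (x n)) atTop (𝓝 0) := by
    rw [tendsto_zero_iff_norm_tendsto_zero]
    set r := s / 4 with hr
    have hr0 : 0 < r := by rw [hr]; linarith
    have hbd : ∀ η : ℝ, 0 < η → ∀ᶠ n in atTop,
        ‖fderiv ℝ (u (φ n)) (x n) - fderiv ℝ v (x n)‖ ≤ 8 * (η / r + (η + l * η) * r) := by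
      intro η hη
      have e1 : ∀ᶠ n in atTop, ∀ y, dist (v y) (u (φ n) y) < η :=
        (Metric.tendstoUniformly_iff.1 hv) η hη
      have e2 : ∀ᶠ n in atTop, dist (lam (φ n)) l < η :=
        (tendsto_iff_dist_tendsto_zero.1 hl).eventually (gt_mem_nhds hη)
      have e3 : ∀ᶠ n in atTop, ε (φ n) < r := hεφ.eventually (gt_mem_nhds hr0)
      have e4 : ∀ᶠ n in atTop, dist (x n) x₀ < r :=
        (tendsto_iff_dist_tendsto_zero.1 hx).eventually (gt_mem_nhds hr0)
      filter_upwards [e1, e2, e3, e4] with n g1 g2 g3 g4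
      have hb1 : ∀ y ∈ Metric.ball (x n) r, dist y x₀ < 2 * r := by
        intro y hy
        rw [Metric.mem_ball] at hy
        linarith [dist_triangle y (x n) x₀]
      have hbD : Metric.ball (x n) r ⊆ D (φ n) := by
        intro y hy
        refine cv1_sub hs (hin (φ n)) ?_
        have := hb1 y hy
        linarith
      have hbB : Metric.ball (x n) r ⊆ K₀ := by
        intro y hy
        apply hs
        rw [Metric.mem_closedBall]
        have := hb1 y hy
        linarith
      have hsm : ∀ y ∈ Metric.ball (x n) r, ContDiffAt ℝ ∞ (fun z => u (φ n) z - v z) y :=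
        fun y hy => (nc1_cd (hu _) (hbD hy)).sub (nc1_cd hwat (hbB hy))
      have hla : ∀ y ∈ Metric.ball (x n) r, la (fun z => u (φ n) z - v z) y
          = -(lam (φ n) * u (φ n) y) + l * v y := by
        intro y hy
        obtain ⟨U, hU, q1, q2⟩ := nc1_ev (hu (φ n)) (hbD hy)
        obtain ⟨V, hV, q3, q4⟩ := nc1_ev hwat (hbB hy)
        have q5 : (fun z => u (φ n) z - v z) =ᶠ[𝓝 y] fun z => U z - V z := q1.sub q3
        rw [J507.la_congr q5]
        have q6 : ∀ (w : ℂ) {f g : ℂ → ℝ}, SC f → SC g →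
            dd w (fun z => f z - g z) = fun z => dd w f z - dd w g z := by
          intro w f g hf hg
          funext z
          unfold dd
          rw [fderiv_fun_sub (hf.diff z) (hg.diff z)]
          rfl
        have hd : ∀ {f : ℂ → ℝ} (v : ℂ), SC f → SC (dd v f) :=
          fun v h => Pool.Agent.TH298.Sch.dd_sc h v
        have q7 : la (fun z => U z - V z) y = la U y - la V y := by
          unfold la
          rw [q6 1 hU hV, q6 _ hU hV, q6 1 (hd 1 hU) (hd 1 hV), q6 _ (hd _ hU) (hd _ hV)]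
          ring
        rw [q7, q2, q4]
        ring
      have hg := grad_bd (x₀ := x n) (r := r) (M := η) (N := η + l * η)
        (f := fun z => u (φ n) z - v z) hr0
        (fun y hy => ((hsm y hy).of_le (WithTop.coe_le_coe.mpr (le_top : (2:ℕ∞) ≤ ⊤))).contDiffWithinAt)
        (fun y _ => by
          have := g1 y
          rw [dist_comm, Real.dist_eq] at this
          exact this.le)
        (fun y hy => by
          rw [hla y hy]
          have k1 : -(lam (φ n) * u (φ n) y) + l * v y =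
              -((lam (φ n) - l) * u (φ n) y) + l * (v y - u (φ n) y) := by ring
          rw [k1]
          refine (abs_add_le _ _).trans (add_le_add ?_ ?_)
          · rw [abs_neg, abs_mul]
            rw [Real.dist_eq] at g2
            calc |lam (φ n) - l| * |u (φ n) y| ≤ |lam (φ n) - l| * 1 :=
                  mul_le_mul_of_nonneg_left (h1 _ _) (abs_nonneg _)
              _ ≤ η := by linarith
          · rw [abs_mul, abs_of_pos hl0]
            have := g1 y
            rw [Real.dist_eq] at this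
            exact mul_le_mul_of_nonneg_left this.le hl0.le)
      have hxD : x n ∈ D (φ n) := hbD (Metric.mem_ball_self hr0)
      have hxB : x n ∈ K₀ := hbB (Metric.mem_ball_self hr0)
      rw [fderiv_fun_sub ((nc1_cd (hu _) hxD).differentiableAt (by simp))
        ((nc1_cd hwat hxB).differentiableAt (by simp))] at hg
      exact hg
    rw [Metric.tendsto_nhds]
    intro δ hδ
    have hpos : 0 < 8 * (1 / r + (1 + l) * r) := by positivity
    have := hbd (δ / 2 / (8 * (1 / r + (1 + l) * r))) (by positivity)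
    filter_upwards [this] with n hn
    rw [dist_zero_right, norm_norm]
    refine hn.trans_lt ?_
    have e : 8 * (δ / 2 / (8 * (1 / r + (1 + l) * r)) / r +
        (δ / 2 / (8 * (1 / r + (1 + l) * r)) + l * (δ / 2 / (8 * (1 / r + (1 + l) * r)))) * r)
        = δ / 2 := by
      field_simp
    rw [e]
    linarith
  have := hdiff.add hlimv
  rw [zero_add] at this
  refine this.congr fun n => ?_
  rw [sub_add_cancel]

end Pool.Agent.Helper327_Drum
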