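import Pool.Agent.Helper327_Drum.Fin.E4
import Pool.Agent.Helper327_Drum.Fin.E5
import Pool.Agent.Helper327_Drum.Fin.K1b
import Pool.Agent.Helper327_Drum.Fin.K1d
import Pool.Agent.Helper327_Drum.Fin.CV1

/-
JOB CJ1 (owner helper327, problem MP_d92c84_an). All imports are on origin/main.
-/

set_option autoImplicit false
open MeasureTheory Set Filter Topology
open scoped ContDiff InnerProductSpace

namespace Pool.Agent.Helper327_Drum

open Pool.Agent.TH298.Sch (dd SC)
open Pool.Agent.R227.SA (la Wat Dat)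

/-
`Wat D lam u` (R227/SA10.lean): u continuous, 0 off D, near each point of D equal to a smooth solution U of la U = -lam U. `la` is the Laplacian, `dd h φ x = fderiv ℝ φ x h`.
A boundary estimate (Courant–Lebesgue) which uses only that the complement of D is connected. Plain proof.
(i) Energy: ∫_D ((dd 1 u)² + (dd I u)²) = lam ∫ u². (`helm_V` (Fin/K1d.lean) gives F ∈ V D with F 0 = u and ⟪F, F⟫ = (1 + lam) ‖F 0‖²; `mem_V` (Fin/E4.lean) with f = u, k = -lam u gives the components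
D.indicator (dd 1 u), D.indicator (dd I u).)
(ii) Circles: for every s > 0 the circle |x - y| = s meets Dᶜ, as Dᶜ is connected, contains y, and contains points arbitrarily far away (D is bounded).
(iii) On a circle of radius s, g(θ) = u(y + s e^{iθ}) is continuous, C¹ where it is not zero (those points lie in D), and zero somewhere. So for every θ: |g(θ)| ≤ ∫_0^{2π} |u_θ|, where u_θ is the angular derivative on D
and 0 off D: go from θ to the nearest zero of g; on the interval in between the point is in D. Hence max |g|² ≤ 2π ∫_0^{2π} u_θ² dθ.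
(iv) In polar coordinates with centre y: ∫_δ^r (1/s) ∫_0^{2π} u_θ² dθ ds ≤ ∫_D |∇u|² ≤ A, so there is s ∈ (δ, r) with ∫_0^{2π} u_θ² dθ ≤ A / log (r/δ), so |u| ≤ m := √(2π A / log (r/δ)) on the circle |x - y| = s.
(v) Maximum principle: in D ∩ ball y s compare u with b(x) = m + lam (s² - |x-y|²)/4: la b = -lam ≤ -lam u = la u (|u| ≤ 1), u ≤ b on the circle and at points off D, so u ≤ b (`cv1_min`, `cv1_half` in Fin/CV1.lean show how
such comparisons were done); the same for -u. For |x - y| < δ this gives the claim.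
-/

/-! #### local lemmas -/

/-- the energy density -/
noncomputable def cjE (D : Set ℂ) (u : ℂ → ℝ) (x : ℂ) : ℝ :=
  D.indicator (fun x => dd 1 u x ^ 2 + dd Complex.I u x ^ 2) x

theorem cjE_nn (D : Set ℂ) (u : ℂ → ℝ) (x : ℂ) : 0 ≤ cjE D u x :=
  indicator_nonneg (fun _ _ => by positivity) x

theorem cjE_m {D : Set ℂ} (hDo : IsOpen D) (u : ℂ → ℝ) : Measurable (cjE D u) := by
  unfold cjE
  exact (((e4_ddm 1 u).pow_const 2).add ((e4_ddm Complex.I u).pow_const 2)).indicator
    hDo.measurableSet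

theorem cj_energy {D : Set ℂ} (hDo : IsOpen D) (hDb : Bornology.IsBounded D) {lam : ℝ}
    {u : ℂ → ℝ} (hu : Wat D lam u) :
    Integrable (cjE D u) ∧ ∫ x, cjE D u x = lam * ∫ x, u x ^ 2 := by
  obtain ⟨M, hM⟩ := wat_bdd hDb hu
  obtain ⟨F, h0, h1, h2, h3, -⟩ := mem_V hDo hDb (f := u) (k := fun x => -(lam * u x)) hu.cont
    hu.out ((wat_cd hu).of_le (by norm_num)) (hu.cont.measurable.const_mul lam).neg
    (fun x hx => by rw [hu.out x hx]; simp) (M := |lam| * M)
    (fun x => by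
      rw [abs_neg, abs_mul]
      exact mul_le_mul_of_nonneg_left (hM x) (abs_nonneg _)) (by
      intro φ hφ hs
      rw [weak_of_classical hDo (wat_cd hu) (φ := φ)
        ⟨hφ.sm.of_le (by exact_mod_cast le_top), hφ.cs, hs⟩]
      congr 1
      refine integral_congr_ae (Eventually.of_forall fun x => ?_)
      change D.indicator (la u) x * φ x = -(lam * u x) * φ x
      by_cases hx : x ∈ D
      · rw [indicator_of_mem hx, wat_la hu hx]
      · rw [indicator_of_notMem hx, hu.out x hx]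
        simp)
  have e0 := l2_norm_sq h0
  have e1 := l2_norm_sq h1
  have e2 := l2_norm_sq h2
  have i1 : Integrable (fun x => (D.indicator (dd 1 u) x) ^ 2) := by
    have h := (memLp_two_iff_integrable_sq (Lp.aestronglyMeasurable (F.1 1))).1 (Lp.memLp (F.1 1))
    exact h.congr (h1.mono fun x hx => by simp only [hx])
  have i2 : Integrable (fun x => (D.indicator (dd Complex.I u) x) ^ 2) := by
    have h := (memLp_two_iff_integrable_sq (Lp.aestronglyMeasurable (F.1 2))).1 (Lp.memLp (F.1 2))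
    exact h.congr (h2.mono fun x hx => by simp only [hx])
  have hE : cjE D u = fun x => (D.indicator (dd 1 u) x) ^ 2 +
      (D.indicator (dd Complex.I u) x) ^ 2 := by
    funext x
    unfold cjE
    by_cases hx : x ∈ D
    · simp only [indicator_of_mem hx]
    · simp only [indicator_of_notMem hx]; norm_num
  rw [hE]
  refine ⟨i1.add i2, ?_⟩
  rw [integral_add i1 i2]
  have h4 := h3 F
  rw [Submodule.coe_inner, real_inner_self_eq_norm_sq, w3_norm, e0, e1, e2] at h4
  have h5 : ∫ x, (u x - -(lam * u x)) * (F.1 0) x = (1 + lam) * ∫ x, u x ^ 2 := by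
    rw [← integral_const_mul]
    refine integral_congr_ae ?_
    filter_upwards [h0] with x hx
    rw [hx]; ring
  rw [h5] at h4
  linarith

/-- point in polar coordinates -/
noncomputable def cjP (y : ℂ) (s t : ℝ) : ℂ :=
  y + (s : ℂ) * ((Real.cos t : ℂ) + (Real.sin t : ℂ) * Complex.I)

theorem cjP_cont2 (y : ℂ) : Continuous (fun p : ℝ × ℝ => cjP y p.1 p.2) := by
  unfold cjP
  fun_prop

theorem cjP_cont (y : ℂ) (s : ℝ) : Continuous (cjP y s) := by
  unfold cjP
  fun_prop

theorem cjP_deriv (y : ℂ) (s t : ℝ) : HasDerivAt (cjP y s)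
    ((s : ℂ) * (-(Real.sin t : ℂ) + (Real.cos t : ℂ) * Complex.I)) t := by
  unfold cjP
  have h1 : HasDerivAt (fun t : ℝ => ((Real.cos t : ℝ) : ℂ)) ((-Real.sin t : ℝ) : ℂ) t :=
    (Real.hasDerivAt_cos t).ofReal_comp
  have h2 : HasDerivAt (fun t : ℝ => ((Real.sin t : ℝ) : ℂ)) ((Real.cos t : ℝ) : ℂ) t :=
    (Real.hasDerivAt_sin t).ofReal_comp
  have h3 := ((h1.add (h2.mul_const Complex.I)).const_mul (s : ℂ)).const_add y
  refine h3.congr_deriv ?_
  push_cast
  ring

theorem cj_polar {E : ℂ → ENNReal} (hE : Measurable E) (y : ℂ) :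
    ∫⁻ x, E x = ∫⁻ s in Ioi (0 : ℝ), ENNReal.ofReal s *
      ∫⁻ t in Ioo (-Real.pi) Real.pi, E (cjP y s t) := by
  have h1 : ∫⁻ x, E x = ∫⁻ x, E (y + x) := (lintegral_add_left_eq_self E y).symm
  rw [h1, ← Complex.lintegral_comp_polarCoord_symm (fun x => E (y + x))]
  have h2 : polarCoord.target = Ioi (0 : ℝ) ×ˢ Ioo (-Real.pi) Real.pi := rfl
  rw [h2, Measure.volume_eq_prod, ← Measure.prod_restrict, lintegral_prod]
  · refine lintegral_congr fun s => ?_
    rw [← lintegral_const_mul' _ _ ENNReal.ofReal_ne_top]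
    refine lintegral_congr fun t => ?_
    rw [Complex.polarCoord_symm_apply, smul_eq_mul]
    rfl
  · refine Measurable.aemeasurable ?_
    have h3 : Measurable (fun p : ℝ × ℝ => E (y + Complex.polarCoord.symm p)) := by
      have : (fun p : ℝ × ℝ => E (y + Complex.polarCoord.symm p))
          = fun p : ℝ × ℝ => E (cjP y p.1 p.2) := by
        funext p
        rw [Complex.polarCoord_symm_apply]
        rfl
      rw [this]
      exact hE.comp (cjP_cont2 y).measurable
    exact (measurable_fst.ennreal_ofReal).smul h3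

theorem cj_cs {G G1 : ℝ → ℝ} {a b : ℝ} (hab : a ≤ b)
    (hd : ∀ t ∈ Icc a b, HasDerivAt G (G1 t) t) (hc : ContinuousOn G1 (Icc a b)) :
    (G b - G a) ^ 2 ≤ (b - a) * ∫ t in a..b, G1 t ^ 2 := by
  rcases hab.eq_or_lt with rfl | hlt
  · simp
  have hu : uIcc a b = Icc a b := uIcc_of_le hab
  have hi : IntervalIntegrable G1 volume a b := (hu ▸ hc).intervalIntegrable
  have hi2 : IntervalIntegrable (fun t => G1 t ^ 2) volume a b :=
    (hu ▸ (hc.pow 2)).intervalIntegrable
  have h1 : ∫ t in a..b, G1 t = G b - G a :=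
    intervalIntegral.integral_eq_sub_of_hasDerivAt (by rw [hu]; exact hd) hi
  set c : ℝ := (G b - G a) / (b - a) with hcd
  have h2 : 0 ≤ ∫ t in a..b, (G1 t - c) ^ 2 :=
    intervalIntegral.integral_nonneg hab fun t _ => sq_nonneg _
  have h3 : ∫ t in a..b, (G1 t - c) ^ 2
      = (∫ t in a..b, G1 t ^ 2) - 2 * c * (G b - G a) + c ^ 2 * (b - a) := by
    have e : ∀ t, (G1 t - c) ^ 2 = (G1 t ^ 2 - 2 * c * G1 t) + c ^ 2 := fun t => by ring
    simp only [e]
    rw [intervalIntegral.integral_add (hi2.sub (hi.const_mul _)) intervalIntegrable_const,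
      intervalIntegral.integral_sub hi2 (hi.const_mul _), intervalIntegral.integral_const_mul,
      intervalIntegral.integral_const, h1, smul_eq_mul]
    ring
  have hpos : 0 < b - a := by linarith
  rw [h3, hcd] at h2
  have h4 : (∫ t in a..b, G1 t ^ 2) - 2 * ((G b - G a) / (b - a)) * (G b - G a)
      + ((G b - G a) / (b - a)) ^ 2 * (b - a)
      = (∫ t in a..b, G1 t ^ 2) - (G b - G a) ^ 2 / (b - a) := by
    field_simp
    ring
  rw [h4, sub_nonneg, div_le_iff₀ hpos] at h2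
  linarith

theorem cj_M {G G1 : ℝ → ℝ} {a b : ℝ} (hab : a ≤ b) (hG : Continuous G)
    (hd : ∀ t ∈ Ioo a b, HasDerivAt G (G1 t) t) (hc : ContinuousOn G1 (Ioo a b)) :
    ENNReal.ofReal ((G b - G a) ^ 2) ≤
      ENNReal.ofReal (b - a) * ∫⁻ t in Ioo a b, ENNReal.ofReal (G1 t ^ 2) := by
  rcases hab.eq_or_lt with rfl | hlt
  · simp
  have key : ∀ t t' : ℝ, a < t → t ≤ t' → t' < b → ENNReal.ofReal ((G t' - G t) ^ 2) ≤
      ENNReal.ofReal (b - a) * ∫⁻ t in Ioo a b, ENNReal.ofReal (G1 t ^ 2) := by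
    intro t t' h1 h2 h3
    have hsub : Icc t t' ⊆ Ioo a b := fun x hx => ⟨h1.trans_le hx.1, hx.2.trans_lt h3⟩
    have h4 := cj_cs h2 (fun x hx => hd x (hsub hx)) (hc.mono hsub)
    have hi : IntegrableOn (fun x => G1 x ^ 2) (Ioc t t') :=
      (((hc.mono hsub).pow 2).integrableOn_Icc).mono_set Ioc_subset_Icc_self
    calc ENNReal.ofReal ((G t' - G t) ^ 2)
        ≤ ENNReal.ofReal ((t' - t) * ∫ x in t..t', G1 x ^ 2) := ENNReal.ofReal_le_ofReal h4
      _ = ENNReal.ofReal (t' - t) * ENNReal.ofReal (∫ x in t..t', G1 x ^ 2) :=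
          ENNReal.ofReal_mul (by linarith)
      _ = ENNReal.ofReal (t' - t) * ∫⁻ x in Ioc t t', ENNReal.ofReal (G1 x ^ 2) := by
          rw [intervalIntegral.integral_of_le h2, ofReal_integral_eq_lintegral_ofReal hi
            (Eventually.of_forall fun x => sq_nonneg _)]
      _ ≤ ENNReal.ofReal (b - a) * ∫⁻ t in Ioo a b, ENNReal.ofReal (G1 t ^ 2) := by
          gcongr
          exact Ioc_subset_Icc_self.trans hsub
  have hpos : 0 < b - a := by linarith
  have hlim0 : Tendsto (fun n : ℕ => (b - a) / ((n : ℝ) + 3)) atTop (𝓝 0) :=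
    tendsto_const_nhds.div_atTop (tendsto_atTop_add_const_right _ _ tendsto_natCast_atTop_atTop)
  have l1 : Tendsto (fun n : ℕ => a + (b - a) / ((n : ℝ) + 3)) atTop (𝓝 a) := by
    simpa using hlim0.const_add a
  have l2 : Tendsto (fun n : ℕ => b - (b - a) / ((n : ℝ) + 3)) atTop (𝓝 b) := by
    simpa using hlim0.const_sub b
  have l3 : Tendsto (fun n : ℕ => ENNReal.ofReal ((G (b - (b - a) / ((n : ℝ) + 3)) -
      G (a + (b - a) / ((n : ℝ) + 3))) ^ 2)) atTop (𝓝 (ENNReal.ofReal ((G b - G a) ^ 2))) := by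
    refine ENNReal.tendsto_ofReal ?_
    exact (((hG.tendsto b).comp l2).sub ((hG.tendsto a).comp l1)).pow 2
  refine le_of_tendsto' l3 fun n => ?_
  have hn : (0 : ℝ) < (n : ℝ) + 3 := by positivity
  have h3 : (b - a) / ((n : ℝ) + 3) ≤ (b - a) / 3 := by
    apply div_le_div_of_nonneg_left hpos.le (by norm_num)
    have : (0 : ℝ) ≤ n := Nat.cast_nonneg n
    linarith
  have h4 : 0 < (b - a) / ((n : ℝ) + 3) := by positivity
  exact key _ _ (by linarith) (by linarith) (by linarith)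

theorem cj_N {G G1 : ℝ → ℝ} {O : Set ℝ} (hO : IsOpen O) (hG : Continuous G)
    (h0 : ∀ t, t ∉ O → G t = 0) (hd : ∀ t ∈ O, HasDerivAt G (G1 t) t) (hc : ContinuousOn G1 O)
    {p q θ₀ θ : ℝ} (hθ₀ : θ₀ ∈ Icc p q) (hθ : θ ∈ Icc p q) (hz : θ₀ ∉ O) :
    ENNReal.ofReal (G θ ^ 2) ≤ ENNReal.ofReal (q - p) *
      ∫⁻ t in Ioo p q, O.indicator (fun t => ENNReal.ofReal (G1 t ^ 2)) t := by
  have key : ∀ a b : ℝ, p ≤ a → a ≤ b → b ≤ q → Ioo a b ⊆ O →
      ENNReal.ofReal ((G b - G a) ^ 2) ≤ ENNReal.ofReal (q - p) *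
      ∫⁻ t in Ioo p q, O.indicator (fun t => ENNReal.ofReal (G1 t ^ 2)) t := by
    intro a b h1 h2 h3 h4
    refine (cj_M h2 hG (fun t ht => hd t (h4 ht)) (hc.mono h4)).trans ?_
    have h5 : ∫⁻ t in Ioo a b, ENNReal.ofReal (G1 t ^ 2)
        = ∫⁻ t in Ioo a b, O.indicator (fun t => ENNReal.ofReal (G1 t ^ 2)) t := by
      refine setLIntegral_congr_fun measurableSet_Ioo fun t ht => ?_
      rw [indicator_of_mem (h4 ht)]
    rw [h5]
    have h6 : Ioo a b ⊆ Ioo p q := Ioo_subset_Ioo h1 h3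
    gcongr
  rcases le_total θ₀ θ with h | h
  · have hcpt : IsCompact (Icc θ₀ θ ∩ Oᶜ) := isCompact_Icc.inter_right hO.isClosed_compl
    obtain ⟨a, ⟨ha1, ha2⟩, ha3⟩ := hcpt.exists_isGreatest ⟨θ₀, ⟨le_refl _, h⟩, hz⟩
    have hsub : Ioo a θ ⊆ O := by
      intro t ht
      by_contra hn
      have := ha3 ⟨⟨ha1.1.trans ht.1.le, ht.2.le⟩, hn⟩
      linarith [ht.1]
    have h1 := key a θ (hθ₀.1.trans ha1.1) ha1.2 hθ.2 hsub
    rw [h0 a ha2, sub_zero] at h1
    exact h1
  · have hcpt : IsCompact (Icc θ θ₀ ∩ Oᶜ) := isCompact_Icc.inter_right hO.isClosed_compl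
    obtain ⟨a, ⟨ha1, ha2⟩, ha3⟩ := hcpt.exists_isLeast ⟨θ₀, ⟨h, le_refl _⟩, hz⟩
    have hsub : Ioo θ a ⊆ O := by
      intro t ht
      by_contra hn
      have := ha3 ⟨⟨ht.1.le, ht.2.le.trans ha1.2⟩, hn⟩
      linarith [ht.2]
    have h1 := key θ a hθ.1 ha1.1 (ha1.2.trans hθ₀.2) hsub
    rw [h0 a ha2, zero_sub, neg_sq] at h1
    exact h1

theorem cj_norm (y : ℂ) {s : ℝ} (hs : 0 ≤ s) (t : ℝ) : ‖cjP y s t - y‖ = s := by
  unfold cjP
  rw [add_sub_cancel_left, norm_mul, Complex.norm_real, Real.norm_eq_abs, abs_of_nonneg hs,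
    Complex.ofReal_cos, Complex.ofReal_sin, Complex.norm_cos_add_sin_mul_I, mul_one]

theorem cj_arg (y x : ℂ) : cjP y ‖x - y‖ (Complex.arg (x - y)) = x := by
  unfold cjP
  rw [Complex.ofReal_cos, Complex.ofReal_sin, Complex.norm_mul_cos_add_sin_mul_I]
  ring

/-- the estimate on one circle -/
theorem cj_circle {D : Set ℂ} (hDo : IsOpen D) (hDb : Bornology.IsBounded D)
    (hDc : IsPreconnected Dᶜ) {lam : ℝ} {u : ℂ → ℝ} (hu : Wat D lam u) {y : ℂ} (hy : y ∉ D)
    {x : ℂ} (hx : 0 < ‖x - y‖) :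
    ENNReal.ofReal (u x ^ 2) ≤ ENNReal.ofReal (2 * Real.pi * ‖x - y‖ ^ 2) *
      ∫⁻ t in Ioo (-Real.pi) Real.pi, ENNReal.ofReal (cjE D u (cjP y ‖x - y‖ t)) := by
  set s := ‖x - y‖ with hs
  -- a point of the circle outside D
  obtain ⟨z, hz, hzs⟩ : ∃ z, z ∉ D ∧ ‖z - y‖ = s := by
    obtain ⟨R, hR⟩ := hDb.exists_norm_le
    obtain ⟨w, hw, hws⟩ : ∃ w : ℂ, w ∉ D ∧ s ≤ ‖w - y‖ := by
      refine ⟨((|R| + ‖y‖ + s + 1 : ℝ) : ℂ), fun h => ?_, ?_⟩
      · have := hR _ h
        rw [Complex.norm_real, Real.norm_eq_abs] at this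
        have h2 := le_abs_self (|R| + ‖y‖ + s + 1)
        have h3 := le_abs_self R
        have h4 := norm_nonneg y
        linarith
      · have h1 : ‖((|R| + ‖y‖ + s + 1 : ℝ) : ℂ)‖ - ‖y‖ ≤ ‖((|R| + ‖y‖ + s + 1 : ℝ) : ℂ) - y‖ :=
          norm_sub_norm_le _ _
        rw [Complex.norm_real, Real.norm_eq_abs] at h1
        have h2 := le_abs_self (|R| + ‖y‖ + s + 1)
        have h3 := abs_nonneg R
        linarith
    have h1 := hDc.intermediate_value (f := fun x => ‖x - y‖) (a := y) (b := w) hy hw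
      (by fun_prop)
    have h2 : s ∈ Icc (‖y - y‖) (‖w - y‖) := ⟨by rw [sub_self, norm_zero]; exact hx.le, hws⟩
    obtain ⟨z, hz1, hz2⟩ := h1 h2
    exact ⟨z, hz1, hz2⟩
  set O : Set ℝ := cjP y s ⁻¹' D with hO
  have hOo : IsOpen O := hDo.preimage (cjP_cont y s)
  set G : ℝ → ℝ := fun t => u (cjP y s t) with hG
  set G1 : ℝ → ℝ := fun t => fderiv ℝ u (cjP y s t)
    ((s : ℂ) * (-(Real.sin t : ℂ) + (Real.cos t : ℂ) * Complex.I)) with hG1
  have hcd := wat_cd hu
  have hfd : ContinuousOn (fderiv ℝ u) D := hcd.continuousOn_fderiv_of_isOpen hDo (by norm_num)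
  have hd : ∀ t ∈ O, HasDerivAt G (G1 t) t := by
    intro t ht
    have h1 : DifferentiableAt ℝ u (cjP y s t) :=
      (hcd.contDiffAt (hDo.mem_nhds ht)).differentiableAt (by norm_num)
    exact h1.hasFDerivAt.comp_hasDerivAt t (cjP_deriv y s t)
  have hc : ContinuousOn G1 O := by
    refine ContinuousOn.clm_apply (hfd.comp (cjP_cont y s).continuousOn fun t ht => ht) ?_
    fun_prop
  have harg0 : Complex.arg (z - y) ∈ Icc (-Real.pi) Real.pi :=
    ⟨(Complex.neg_pi_lt_arg _).le, Complex.arg_le_pi _⟩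
  have harg1 : Complex.arg (x - y) ∈ Icc (-Real.pi) Real.pi :=
    ⟨(Complex.neg_pi_lt_arg _).le, Complex.arg_le_pi _⟩
  have hz' : Complex.arg (z - y) ∉ O := by
    intro h
    have h1 := cj_arg y z
    rw [hzs] at h1
    have h2 : cjP y s (Complex.arg (z - y)) ∈ D := h
    rw [h1] at h2
    exact hz h2
  have hN := cj_N hOo (hu.cont.comp (cjP_cont y s)) (fun t ht => hu.out _ ht) hd hc harg0 harg1 hz'
  have hGx : G (Complex.arg (x - y)) = u x := by
    show u (cjP y s (Complex.arg (x - y))) = u x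
    rw [hs, cj_arg]
  have hN' : ENNReal.ofReal (u x ^ 2) ≤ ENNReal.ofReal (Real.pi - -Real.pi) *
      ∫⁻ t in Ioo (-Real.pi) Real.pi, O.indicator (fun t => ENNReal.ofReal (G1 t ^ 2)) t := by
    rw [← hGx]; exact hN
  refine hN'.trans ?_
  have hpw : ∀ t, O.indicator (fun t => ENNReal.ofReal (G1 t ^ 2)) t ≤
      ENNReal.ofReal (s ^ 2) * ENNReal.ofReal (cjE D u (cjP y s t)) := by
    intro t
    by_cases ht : t ∈ O
    · rw [indicator_of_mem ht, ← ENNReal.ofReal_mul (sq_nonneg s)]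
      refine ENNReal.ofReal_le_ofReal ?_
      have e1 : cjE D u (cjP y s t) = dd 1 u (cjP y s t) ^ 2 + dd Complex.I u (cjP y s t) ^ 2 := by
        unfold cjE
        rw [indicator_of_mem (show cjP y s t ∈ D from ht)]
      rw [e1]
      show (fderiv ℝ u (cjP y s t)
        ((s : ℂ) * (-(Real.sin t : ℂ) + (Real.cos t : ℂ) * Complex.I))) ^ 2
        ≤ s ^ 2 * (fderiv ℝ u (cjP y s t) 1 ^ 2 + fderiv ℝ u (cjP y s t) Complex.I ^ 2)
      rw [Pool.Agent.TH298.Sch.lin_val]
      set α := fderiv ℝ u (cjP y s t) 1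
      set β := fderiv ℝ u (cjP y s t) Complex.I
      have r1 : ((s : ℂ) * (-(Real.sin t : ℂ) + (Real.cos t : ℂ) * Complex.I)).re
          = -(s * Real.sin t) := by
        simp only [Complex.mul_re, Complex.add_re, Complex.neg_re, Complex.ofReal_re,
          Complex.ofReal_im, Complex.I_re, Complex.I_im, Complex.add_im, Complex.neg_im,
          Complex.mul_im]
        ring
      have r2 : ((s : ℂ) * (-(Real.sin t : ℂ) + (Real.cos t : ℂ) * Complex.I)).im
          = s * Real.cos t := by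
        simp only [Complex.mul_re, Complex.add_re, Complex.neg_re, Complex.ofReal_re,
          Complex.ofReal_im, Complex.I_re, Complex.I_im, Complex.add_im, Complex.neg_im,
          Complex.mul_im]
        ring
      rw [r1, r2]
      have e2 := Real.sin_sq_add_cos_sq t
      have e3 : s ^ 2 * (α ^ 2 + β ^ 2) - (-(s * Real.sin t) * α + s * Real.cos t * β) ^ 2
          = s ^ 2 * (Real.cos t * α + Real.sin t * β) ^ 2
            + s ^ 2 * (α ^ 2 + β ^ 2) * (1 - (Real.sin t ^ 2 + Real.cos t ^ 2)) := by ring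
      have e4 : 0 ≤ s ^ 2 * (Real.cos t * α + Real.sin t * β) ^ 2 := by positivity
      rw [e2] at e3
      linarith
    · rw [indicator_of_notMem ht]; exact zero_le
  calc ENNReal.ofReal (Real.pi - -Real.pi) *
      ∫⁻ t in Ioo (-Real.pi) Real.pi, O.indicator (fun t => ENNReal.ofReal (G1 t ^ 2)) t
      ≤ ENNReal.ofReal (Real.pi - -Real.pi) * ∫⁻ t in Ioo (-Real.pi) Real.pi,
        ENNReal.ofReal (s ^ 2) * ENNReal.ofReal (cjE D u (cjP y s t)) := by
        gcongr with t
        exact hpw t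
    _ = ENNReal.ofReal (2 * Real.pi * s ^ 2) *
      ∫⁻ t in Ioo (-Real.pi) Real.pi, ENNReal.ofReal (cjE D u (cjP y s t)) := by
        rw [lintegral_const_mul' _ _ ENNReal.ofReal_ne_top, ← mul_assoc,
          ← ENNReal.ofReal_mul (by linarith [Real.pi_pos])]
        congr 2
        ring

/-- a good radius -/
theorem cj_radius {D : Set ℂ} (hDo : IsOpen D) (hDb : Bornology.IsBounded D)
    {lam : ℝ} {u : ℂ → ℝ} (hu : Wat D lam u) {A : ℝ} (hA : lam * ∫ x, u x ^ 2 ≤ A) (y : ℂ)
    {δ r c : ℝ} (hδ : 0 < δ) (hr : δ < r) (hc0 : 0 < c)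
    (hc : A < c / (2 * Real.pi) * Real.log (r / δ)) :
    ∃ s, δ < s ∧ s < r ∧ ENNReal.ofReal (2 * Real.pi * s ^ 2) *
      ∫⁻ t in Ioo (-Real.pi) Real.pi, ENNReal.ofReal (cjE D u (cjP y s t)) < ENNReal.ofReal c := by
  by_contra hcon
  push Not at hcon
  obtain ⟨hEi, hEe⟩ := cj_energy hDo hDb hu
  have hpi := Real.pi_pos
  have h1 : ∫⁻ x, ENNReal.ofReal (cjE D u x) ≤ ENNReal.ofReal A := by
    rw [← ofReal_integral_eq_lintegral_ofReal hEi (Eventually.of_forall fun x => cjE_nn D u x),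
      hEe]
    exact ENNReal.ofReal_le_ofReal hA
  rw [cj_polar (cjE_m hDo u).ennreal_ofReal y] at h1
  have h2 : ∫⁻ s in Ioo δ r, ENNReal.ofReal (c / (2 * Real.pi) * s⁻¹) ≤
      ∫⁻ s in Ioi (0 : ℝ), ENNReal.ofReal s *
        ∫⁻ t in Ioo (-Real.pi) Real.pi, ENNReal.ofReal (cjE D u (cjP y s t)) := by
    have h3 : ∫⁻ s in Ioo δ r, ENNReal.ofReal (c / (2 * Real.pi) * s⁻¹) ≤
        ∫⁻ s in Ioo δ r, ENNReal.ofReal s *
        ∫⁻ t in Ioo (-Real.pi) Real.pi, ENNReal.ofReal (cjE D u (cjP y s t)) := by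
      refine setLIntegral_mono' measurableSet_Ioo fun s hs => ?_
      have hs0 : 0 < s := hδ.trans hs.1
      have h4 := hcon s hs.1 hs.2
      have h5 : 0 < 2 * Real.pi * s := by positivity
      have h6 : ENNReal.ofReal (2 * Real.pi * s) ≠ 0 := by
        rw [ne_eq, ENNReal.ofReal_eq_zero]; linarith
      have e1 : ENNReal.ofReal c = ENNReal.ofReal (2 * Real.pi * s) *
          ENNReal.ofReal (c / (2 * Real.pi) * s⁻¹) := by
        rw [← ENNReal.ofReal_mul h5.le]
        congr 1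
        field_simp
      have e2 : ENNReal.ofReal (2 * Real.pi * s ^ 2) = ENNReal.ofReal (2 * Real.pi * s) *
          ENNReal.ofReal s := by
        rw [← ENNReal.ofReal_mul h5.le]
        congr 1
        ring
      rw [e1, e2, mul_assoc (ENNReal.ofReal (2 * Real.pi * s))] at h4
      exact (ENNReal.mul_le_mul_iff_right h6 ENNReal.ofReal_ne_top).1 h4
    refine h3.trans (lintegral_mono_set ?_)
    exact fun s hs => hδ.trans hs.1
  have h7 : ∫⁻ s in Ioo δ r, ENNReal.ofReal (c / (2 * Real.pi) * s⁻¹)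
      = ENNReal.ofReal (c / (2 * Real.pi) * Real.log (r / δ)) := by
    have hio : IntegrableOn (fun s : ℝ => c / (2 * Real.pi) * s⁻¹) (Icc δ r) := by
      refine ContinuousOn.integrableOn_Icc ?_
      refine continuousOn_const.mul (continuousOn_id.inv₀ fun s hs => ?_)
      have := hs.1
      simp only [id]
      linarith
    have hnn : 0 ≤ᵐ[volume.restrict (Ioo δ r)] fun s : ℝ => c / (2 * Real.pi) * s⁻¹ := by
      refine (ae_restrict_iff' measurableSet_Ioo).2 (Eventually.of_forall fun s hs => ?_)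
      have hs0 : 0 < s := hδ.trans hs.1
      show 0 ≤ c / (2 * Real.pi) * s⁻¹
      positivity
    rw [← ofReal_integral_eq_lintegral_ofReal (hio.mono_set Ioo_subset_Icc_self) hnn,
      ← integral_Ioc_eq_integral_Ioo, ← intervalIntegral.integral_of_le hr.le,
      intervalIntegral.integral_const_mul, integral_inv_of_pos hδ (hδ.trans hr)]
  rw [h7] at h2
  have h8 := h2.trans h1
  have hlog : 0 < Real.log (r / δ) := Real.log_pos (by rw [lt_div_iff₀ hδ]; linarith)
  have h9 : 0 < c / (2 * Real.pi) * Real.log (r / δ) := by positivity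
  have h10 : c / (2 * Real.pi) * Real.log (r / δ) ≤ A := by
    by_contra hh
    push Not at hh
    have := (ENNReal.ofReal_lt_ofReal_iff h9).2 hh
    exact absurd h8 (not_le.2 this)
  linarith

theorem cj_min {U : ℂ → ℝ} (hU : SC U) {x₀ y : ℂ} {K s m : ℝ}
    (hmin : IsLocalMin (fun x : ℂ => m + K * (s ^ 2 - ((x.re - y.re) ^ 2 + (x.im - y.im) ^ 2))
      - U x) x₀) : la U x₀ ≤ -(4 * K) := by
  have key : ∀ v : ℂ, dd v (dd v U) x₀ ≤ -(2 * K * (v.re ^ 2 + v.im ^ 2)) := by
    intro v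
    set p : ℝ := x₀.re - y.re with hp
    set q : ℝ := x₀.im - y.im with hq
    set g : ℝ → ℝ := fun t => m + K * (s ^ 2 - ((p + v.re * t) ^ 2 + (q + v.im * t) ^ 2))
      - U (x₀ + t * v) with hg
    have hline : Continuous fun t : ℝ => x₀ + (t : ℂ) * v := by fun_prop
    have hmin' : IsLocalMin g 0 := by
      have h0 : IsLocalMin (fun x : ℂ => m + K * (s ^ 2 -
          ((x.re - y.re) ^ 2 + (x.im - y.im) ^ 2)) - U x) (x₀ + ((0 : ℝ) : ℂ) * v) := by
        simpa using hmin
      have h1 := h0.comp_continuous (g := fun t : ℝ => x₀ + (t : ℂ) * v) hline.continuousAt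
      have h2 : ((fun x : ℂ => m + K * (s ^ 2 -
          ((x.re - y.re) ^ 2 + (x.im - y.im) ^ 2)) - U x) ∘
          fun t : ℝ => x₀ + (t : ℂ) * v) = g := by
        funext t
        simp only [Function.comp_apply, hg, Complex.add_re, Complex.add_im, Complex.mul_re,
          Complex.mul_im, Complex.ofReal_re, Complex.ofReal_im, zero_mul, sub_zero, add_zero,
          hp, hq]
        ring
      rwa [h2] at h1
    have hd : ∀ t : ℝ, HasDerivAt g
        (-(K * (2 * v.re * (p + v.re * t) + 2 * v.im * (q + v.im * t)))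
          - dd v U (x₀ + t * v)) t := by
      intro t
      have a1 : HasDerivAt (fun t : ℝ => m + K * (s ^ 2 -
          ((p + v.re * t) ^ 2 + (q + v.im * t) ^ 2)))
          (-(K * (2 * v.re * (p + v.re * t) + 2 * v.im * (q + v.im * t)))) t := by
        have b0 : HasDerivAt (fun t : ℝ => p + v.re * t) v.re t := by
          simpa using ((hasDerivAt_id t).const_mul v.re).const_add p
        have b1 : HasDerivAt (fun t : ℝ => q + v.im * t) v.im t := by
          simpa using ((hasDerivAt_id t).const_mul v.im).const_add q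
        have b2 := ((((b0.pow 2).add (b1.pow 2)).const_sub (s ^ 2)).const_mul K).const_add m
        refine b2.congr_deriv ?_
        simp only [Nat.cast_ofNat, Nat.add_one_sub_one, pow_one]
        ring
      exact a1.sub (nc1_dir hU x₀ v t)
    have hd1 : deriv g = fun t : ℝ =>
        -(K * (2 * v.re * (p + v.re * t) + 2 * v.im * (q + v.im * t)))
          - dd v U (x₀ + t * v) :=
      funext fun t => (hd t).deriv
    have hd2 : HasDerivAt (deriv g)
        (-(2 * K * (v.re ^ 2 + v.im ^ 2)) - dd v (dd v U) (x₀ + ((0 : ℝ) : ℂ) * v)) 0 := by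
      rw [hd1]
      have a1 : HasDerivAt (fun t : ℝ =>
          -(K * (2 * v.re * (p + v.re * t) + 2 * v.im * (q + v.im * t))))
          (-(2 * K * (v.re ^ 2 + v.im ^ 2))) 0 := by
        have b0 : HasDerivAt (fun t : ℝ => p + v.re * t) v.re 0 := by
          simpa using ((hasDerivAt_id (0 : ℝ)).const_mul v.re).const_add p
        have b1 : HasDerivAt (fun t : ℝ => q + v.im * t) v.im 0 := by
          simpa using ((hasDerivAt_id (0 : ℝ)).const_mul v.im).const_add q
        have b2 := (((b0.const_mul (2 * v.re)).add (b1.const_mul (2 * v.im))).const_mul K).neg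
        refine b2.congr_deriv ?_
        ring
      exact a1.sub (nc1_dir (Pool.Agent.TH298.Sch.dd_sc hU v) x₀ v 0)
    have h3 := nc1_snd hmin' (hd 0).continuousAt
    rw [hd2.deriv] at h3
    simp only [Complex.ofReal_zero, zero_mul, add_zero] at h3
    linarith
  have k1 := key 1
  have k2 := key Complex.I
  simp only [Complex.one_re, Complex.one_im, Complex.I_re, Complex.I_im] at k1 k2
  unfold la
  norm_num at k1 k2
  linarith

theorem cj_half {D : Set ℂ} (hDo : IsOpen D) {lam : ℝ} (hlam : 0 < lam) {u : ℂ → ℝ}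
    (hu : Wat D lam u) (h1 : ∀ x, u x ≤ 1) {y : ℂ} {s m : ℝ} (hs : 0 < s) (hm : 0 ≤ m)
    (hc : ∀ x, ‖x - y‖ = s → u x ≤ m) {x : ℂ} (hx : ‖x - y‖ ≤ s) :
    u x ≤ m + lam / 4 * s ^ 2 := by
  have hn : ∀ x : ℂ, (x.re - y.re) ^ 2 + (x.im - y.im) ^ 2 = ‖x - y‖ ^ 2 := by
    intro x
    rw [Complex.sq_norm, Complex.normSq_apply, Complex.sub_re, Complex.sub_im]
    ring
  have key : ∀ ε : ℝ, 0 < ε → u x ≤ m + (lam / 4 + ε) * s ^ 2 := by
    intro ε hε
    set K := lam / 4 + ε with hK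
    have hKpos : 0 < K := by positivity
    have hcomp : IsCompact (Metric.closedBall y s) := isCompact_closedBall y s
    have hcont : Continuous fun x : ℂ =>
        m + K * (s ^ 2 - ((x.re - y.re) ^ 2 + (x.im - y.im) ^ 2)) - u x := by
      have := hu.cont
      fun_prop
    have hxm : x ∈ Metric.closedBall y s := by rw [mem_closedBall_iff_norm]; exact hx
    obtain ⟨x₀, hx₀, hmin⟩ := hcomp.exists_isMinOn ⟨x, hxm⟩ hcont.continuousOn
    have hx₀' : ‖x₀ - y‖ ≤ s := by rw [← mem_closedBall_iff_norm]; exact hx₀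
    have hsq : ‖x₀ - y‖ ^ 2 ≤ s ^ 2 := pow_le_pow_left₀ (norm_nonneg _) hx₀' 2
    have hx0 : 0 ≤ m + K * (s ^ 2 - ((x₀.re - y.re) ^ 2 + (x₀.im - y.im) ^ 2)) - u x₀ := by
      rw [hn]
      rcases hx₀'.eq_or_lt with heq | hlt
      · rw [heq]
        have := hc x₀ heq
        linarith
      by_cases hxD : x₀ ∈ D
      · exfalso
        obtain ⟨U, hU, he, hla⟩ := nc1_ev hu hxD
        have hm1 : IsLocalMin (fun x : ℂ =>
            m + K * (s ^ 2 - ((x.re - y.re) ^ 2 + (x.im - y.im) ^ 2)) - U x) x₀ := by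
          have hev := he.self_of_nhds
          have hb : Metric.ball y s ∈ 𝓝 x₀ :=
            Metric.isOpen_ball.mem_nhds (by rw [mem_ball_iff_norm]; exact hlt)
          filter_upwards [hb, he] with z hz hzU
          rw [← hzU, ← hev]
          exact hmin (Metric.ball_subset_closedBall hz)
        have h2 := cj_min hU hm1
        rw [hla] at h2
        have h3 := h1 x₀
        have h4 : lam * u x₀ ≤ lam * 1 := mul_le_mul_of_nonneg_left h3 hlam.le
        rw [hK] at h2
        linarith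
      · rw [hu.out x₀ hxD, sub_zero]
        have : 0 ≤ K * (s ^ 2 - ‖x₀ - y‖ ^ 2) := mul_nonneg hKpos.le (by linarith)
        linarith
    have h2 := hmin hxm
    simp only [Set.mem_ofPred_eq] at h2
    have h3 : K * (s ^ 2 - ((x.re - y.re) ^ 2 + (x.im - y.im) ^ 2)) ≤ K * s ^ 2 := by
      rw [hn]
      refine mul_le_mul_of_nonneg_left ?_ hKpos.le
      linarith [sq_nonneg ‖x - y‖]
    linarith
  refine le_of_forall_pos_le_add fun η hη => ?_
  have h2 := key (η / s ^ 2) (by positivity)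
  have h3 : (lam / 4 + η / s ^ 2) * s ^ 2 = lam / 4 * s ^ 2 + η := by
    field_simp
  linarith

/-- TARGET: eigenfunctions are small near the complement, if it is connected. -/
theorem cl_decay {D : Set ℂ} (hDo : IsOpen D) (hDb : Bornology.IsBounded D)
    (hDc : IsPreconnected Dᶜ) {lam : ℝ} (hlam : 0 < lam) {u : ℂ → ℝ} (hu : Wat D lam u)
    (h1 : ∀ x, |u x| ≤ 1) {A : ℝ} (hA : lam * ∫ x, u x ^ 2 ≤ A) {y : ℂ} (hy : y ∉ D) {δ r : ℝ}
    (hδ : 0 < δ) (hr : δ < r) {x : ℂ} (hx : ‖x - y‖ < δ) :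
    |u x| ≤ √(2 * Real.pi * A / Real.log (r / δ)) + lam * r ^ 2 / 4 := by
  have hpi := Real.pi_pos
  have hlog : 0 < Real.log (r / δ) := Real.log_pos (by rw [lt_div_iff₀ hδ]; linarith)
  have hA0 : 0 ≤ A := by
    refine le_trans (mul_nonneg hlam.le (integral_nonneg fun x => sq_nonneg _)) hA
  set a : ℝ := 2 * Real.pi * A / Real.log (r / δ) with ha
  have ha0 : 0 ≤ a := by positivity
  refine le_of_forall_pos_le_add fun η hη => ?_
  have hc0 : 0 < a + η ^ 2 := by positivity
  have hc : A < (a + η ^ 2) / (2 * Real.pi) * Real.log (r / δ) := by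
    have e : (a + η ^ 2) / (2 * Real.pi) * Real.log (r / δ)
        = A + η ^ 2 / (2 * Real.pi) * Real.log (r / δ) := by
      rw [ha]; field_simp
    rw [e]
    have : 0 < η ^ 2 / (2 * Real.pi) * Real.log (r / δ) := by positivity
    linarith
  obtain ⟨s, hs1, hs2, hs3⟩ := cj_radius hDo hDb hu hA y hδ hr hc0 hc
  have hs0 : 0 < s := hδ.trans hs1
  have hcirc : ∀ z, ‖z - y‖ = s → |u z| ≤ √(a + η ^ 2) := by
    intro z hz
    have h2 := cj_circle hDo hDb hDc hu hy (x := z) (by rw [hz]; exact hs0)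
    rw [hz] at h2
    have h3 := h2.trans_lt hs3
    have h4 : u z ^ 2 < a + η ^ 2 := (ENNReal.ofReal_lt_ofReal_iff hc0).1 h3
    rw [← Real.sqrt_sq_eq_abs]
    exact Real.sqrt_le_sqrt h4.le
  have hm0 : 0 ≤ √(a + η ^ 2) := Real.sqrt_nonneg _
  have hxs : ‖x - y‖ ≤ s := by linarith
  have g1 := cj_half hDo hlam hu (fun z => (le_abs_self _).trans (h1 z)) hs0 hm0
    (fun z hz => (le_abs_self _).trans (hcirc z hz)) hxs
  have g2 := cj_half hDo hlam hu.neg (fun z => (neg_le_abs (u z)).trans (h1 z)) hs0 hm0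
    (fun z hz => (neg_le_abs (u z)).trans (hcirc z hz)) hxs
  have h5 : √(a + η ^ 2) ≤ √a + η := by
    rw [Real.sqrt_le_left (by positivity)]
    have := Real.sq_sqrt ha0
    have h6 := Real.sqrt_nonneg a
    nlinarith
  have h6 : lam / 4 * s ^ 2 ≤ lam * r ^ 2 / 4 := by
    have : s ^ 2 ≤ r ^ 2 := pow_le_pow_left₀ hs0.le hs2.le 2
    nlinarith
  rw [abs_le]
  constructor <;> linarith

end Pool.Agent.Helper327_Drum
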