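import Pool.Agent.Helper327_Drum.Fin.CV1
import Pool.Agent.Helper327_Drum.Fin.CJ1

/-
JOB CJ2 (owner helper327, problem MP_d92c84_an). All imports are on origin/main. Prove only the TARGET; the lemma marked given is proved in another job.
-/

set_option autoImplicit false
open MeasureTheory Set Filter Topology
open scoped ContDiff InnerProductSpace

namespace Pool.Agent.Helper327_Drum

open Pool.Agent.TH298.Sch (dd SC)
open Pool.Agent.R227.SA (la Wat Dat)

/-! #### local lemmas -/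

lemma cj2_equi {K₀ : Set ℂ} (hKo : IsOpen K₀) {D : ℕ → Set ℂ} {lam ε : ℕ → ℝ} {u : ℕ → ℂ → ℝ}
    {T : ℝ} (hε : Tendsto ε atTop (𝓝 0))
    (hin : ∀ n, {x | Metric.closedBall x (ε n) ⊆ K₀} ⊆ D n)
    (hlam : ∀ n, 0 < lam n ∧ lam n ≤ T) (hu : ∀ n, Wat (D n) (lam n) (u n))
    (h1 : ∀ n x, |u n x| ≤ 1)
    (hst : ∀ η : ℝ, 0 < η → ∃ δ : ℝ, 0 < δ ∧ ∃ N : ℕ, ∀ n, N ≤ n → ∀ x : ℂ,
      Metric.infDist x K₀ᶜ < δ → |u n x| ≤ η) (x₀ : ℂ) {η : ℝ} (hη : 0 < η) :
    ∀ᶠ x in 𝓝 x₀, ∀ n, |u n x - u n x₀| < η := by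
  have hT : 0 < T := (hlam 0).1.trans_le (hlam 0).2
  obtain ⟨N, hN⟩ : ∃ N, ∀ᶠ x in 𝓝 x₀, ∀ n, N ≤ n → |u n x - u n x₀| < η := by
    by_cases hx : x₀ ∈ K₀
    · obtain ⟨s, hs0, hs⟩ := Metric.nhds_basis_closedBall.mem_iff.1 (hKo.mem_nhds hx)
      set r := s / 3 with hr
      have hr0 : 0 < r := by rw [hr]; linarith
      obtain ⟨N, hN⟩ := eventually_atTop.1 (hε.eventually (gt_mem_nhds hr0))
      set L := 8 * (1 / r + T * r) with hL
      have hL0 : 0 < L := by positivity
      refine ⟨N, ?_⟩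
      filter_upwards [Metric.ball_mem_nhds x₀ (lt_min hr0 (div_pos hη hL0))] with x hxb n hn
      have hxr : x ∈ Metric.ball x₀ r := Metric.ball_subset_ball (min_le_left _ _) hxb
      have hxL : dist x x₀ < η / L := lt_of_lt_of_le hxb (min_le_right _ _)
      have hball : ∀ y ∈ Metric.ball x₀ r, Metric.ball y r ⊆ D n := by
        intro y hy z hz
        refine cv1_sub hs (hin n) ?_
        have h2 := hN n hn
        rw [Metric.mem_ball] at hy hz
        have h3 := dist_triangle z y x₀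
        rw [hr] at *
        linarith
      have h3 := (convex_ball x₀ r).norm_image_sub_le_of_norm_fderiv_le (𝕜 := ℝ) (f := u n) (C := L)
        (fun y hy => (nc1_cd (hu n) (hball y hy (Metric.mem_ball_self hr0))).differentiableAt
          (by simp))
        (fun y hy => nc1_grad (hlam n).1 (hlam n).2 (hu n) (h1 n) hr0 (hball y hy))
        (Metric.mem_ball_self hr0) hxr
      rw [Real.norm_eq_abs, ← dist_eq_norm] at h3
      refine h3.trans_lt ?_
      rw [lt_div_iff₀ hL0] at hxL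
      linarith
    · -- outside the limit domain
      obtain ⟨δ, hδ, N, hN⟩ := hst (η / 3) (by linarith)
      have h0 : Metric.infDist x₀ K₀ᶜ < δ := by
        rw [Metric.infDist_zero_of_mem (by exact hx)]
        exact hδ
      have hc : ContinuousAt (fun x : ℂ => Metric.infDist x K₀ᶜ) x₀ :=
        (Metric.continuous_infDist_pt _).continuousAt
      refine ⟨N, ?_⟩
      filter_upwards [hc.eventually (gt_mem_nhds h0)] with x hx n hn
      have a1 := hN n hn x hx
      have a2 := hN n hn x₀ h0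
      have a3 := abs_sub (u n x) (u n x₀)
      linarith
  have h2 : ∀ᶠ x in 𝓝 x₀, ∀ n ∈ Finset.range N, |u n x - u n x₀| < η := by
    rw [Filter.eventually_all_finset]
    intro n _
    have h3 : Tendsto (fun x => |u n x - u n x₀|) (𝓝 x₀) (𝓝 |u n x₀ - u n x₀|) := by
      have := (hu n).cont
      exact (Continuous.tendsto (by fun_prop) x₀)
    rw [sub_self, abs_zero] at h3
    exact h3.eventually (gt_mem_nhds hη)
  filter_upwards [hN, h2] with x a b n
  by_cases hn : N ≤ n
  · exact a n hn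
  · exact b n (Finset.mem_range.2 (not_le.1 hn))

/-- the compactness: a uniformly convergent subsequence -/
lemma cj2_conv {K₀ : Set ℂ} (hKo : IsOpen K₀) {D : ℕ → Set ℂ} {lam ε : ℕ → ℝ} {u : ℕ → ℂ → ℝ}
    {T R : ℝ} (hε : Tendsto ε atTop (𝓝 0))
    (hin : ∀ n, {x | Metric.closedBall x (ε n) ⊆ K₀} ⊆ D n)
    (hR : ∀ n, D n ⊆ Metric.closedBall 0 R)
    (hlam : ∀ n, 0 < lam n ∧ lam n ≤ T) (hu : ∀ n, Wat (D n) (lam n) (u n))
    (h1 : ∀ n x, |u n x| ≤ 1)
    (hst : ∀ η : ℝ, 0 < η → ∃ δ : ℝ, 0 < δ ∧ ∃ N : ℕ, ∀ n, N ≤ n → ∀ x : ℂ,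
      Metric.infDist x K₀ᶜ < δ → |u n x| ≤ η) :
    ∃ (φ : ℕ → ℕ) (l : ℝ) (v : ℂ → ℝ), StrictMono φ ∧
      Tendsto (fun n => lam (φ n)) atTop (𝓝 l) ∧ TendstoUniformly (fun n => u (φ n)) v atTop := by
  classical
  have : CompactSpace (Metric.closedBall (0 : ℂ) R) :=
    isCompact_iff_compactSpace.1 (isCompact_closedBall 0 R)
  let F : ℕ → BoundedContinuousFunction (Metric.closedBall (0 : ℂ) R) ℝ := fun n =>
    BoundedContinuousFunction.mkOfCompact ⟨fun x => u n x, (hu n).cont.comp continuous_subtype_val⟩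
  have hF : ∀ n x, F n x = u n x := fun n x => rfl
  have hcomp : IsCompact (closure (range F)) := by
    refine BoundedContinuousFunction.arzela_ascoli (Metric.closedBall (0 : ℝ) 1)
      (isCompact_closedBall 0 1) (range F) ?_ ?_
    · rintro _ x ⟨n, rfl⟩
      rw [mem_closedBall_zero_iff, Real.norm_eq_abs]
      exact h1 n x
    · intro x₀
      rw [Metric.equicontinuousAt_iff_right]
      intro η hη
      have h2 := (continuous_subtype_val (p := (· ∈ Metric.closedBall (0 : ℂ) R))).continuousAt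
        (x := x₀) |>.eventually (cj2_equi hKo hε hin hlam hu h1 hst (x₀ : ℂ) hη)
      filter_upwards [h2] with x hx
      rintro ⟨_, n, rfl⟩
      rw [dist_comm, Real.dist_eq]
      exact hx n
  have hprod : IsCompact (Icc (0 : ℝ) T ×ˢ closure (range F)) := isCompact_Icc.prod hcomp
  obtain ⟨⟨l, g⟩, -, φ, hφ, hlim⟩ := hprod.tendsto_subseq (x := fun n => (lam n, F n))
    (fun n => ⟨⟨(hlam n).1.le, (hlam n).2⟩, subset_closure (mem_range_self n)⟩)
  rw [nhds_prod_eq, tendsto_prod_iff'] at hlim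
  obtain ⟨hl1, hl2⟩ := hlim
  set v : ℂ → ℝ := fun x => if h : x ∈ Metric.closedBall (0 : ℂ) R then g ⟨x, h⟩ else 0 with hv
  refine ⟨φ, l, v, hφ, hl1, ?_⟩
  rw [Metric.tendstoUniformly_iff]
  intro η hη
  have h3 : ∀ᶠ n in atTop, dist (F (φ n)) g < η :=
    (tendsto_iff_dist_tendsto_zero.1 hl2).eventually (gt_mem_nhds hη)
  filter_upwards [h3] with n hn x
  by_cases hx : x ∈ Metric.closedBall (0 : ℂ) R
  · rw [hv]
    simp only [hx, dite_true]
    rw [dist_comm]
    exact (BoundedContinuousFunction.dist_coe_le_dist (f := F (φ n)) (g := g) ⟨x, hx⟩).trans_lt hn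
  · rw [hv]
    simp only [hx, dite_false]
    rw [(hu (φ n)).out x, dist_self]
    · exact hη
    · intro h
      exact hx (hR _ h)

/-- points off the limit domain have points off `D n` close to them -/
lemma cj2_near {K₀ : Set ℂ} (hKo : IsOpen K₀) (hKr : interior (closure K₀) = K₀) {D : ℕ → Set ℂ}
    {ε : ℕ → ℝ} {R : ℝ} (hε : Tendsto ε atTop (𝓝 0))
    (hout : ∀ n, D n ⊆ Metric.thickening (ε n) K₀) (hR : ∀ n, D n ⊆ Metric.closedBall 0 R)
    {s : ℝ} (hs : 0 < s) :
    ∃ N : ℕ, ∀ n, N ≤ n → ∀ z, z ∉ K₀ → ∃ y, y ∉ D n ∧ ‖z - y‖ < s := by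
  by_contra hcon
  push Not at hcon
  choose n hn z hz hy using hcon
  have hzD : ∀ j, z j ∈ D (n j) := by
    intro j
    by_contra h
    have := hy j (z j) h
    rw [sub_self, norm_zero] at this
    linarith
  obtain ⟨z₀, -, φ, hφ, hlim⟩ := (isCompact_closedBall (0 : ℂ) R).tendsto_subseq
    (x := z) (fun j => hR _ (hzD j))
  have hz₀ : z₀ ∉ K₀ := by
    have : z₀ ∈ K₀ᶜ := hKo.isClosed_compl.mem_of_tendsto hlim (Eventually.of_forall fun j => hz _)
    exact this
  have hnlim : Tendsto (fun j => ε (n (φ j))) atTop (𝓝 0) := by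
    apply hε.comp
    have h1 : Tendsto φ atTop atTop := hφ.tendsto_atTop
    exact tendsto_atTop_mono (fun j => hn (φ j)) h1
  have hball : Metric.ball z₀ (s / 2) ⊆ closure K₀ := by
    intro w hw
    rw [Metric.mem_ball] at hw
    have h1 : ∀ᶠ j in atTop, dist (z (φ j)) z₀ < s / 2 :=
      (tendsto_iff_dist_tendsto_zero.1 hlim).eventually (gt_mem_nhds (by linarith))
    have h2 : ∀ᶠ j in atTop, Metric.infDist w K₀ ≤ ε (n (φ j)) := by
      filter_upwards [h1] with j hj
      have h3 : w ∈ D (n (φ j)) := by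
        by_contra h
        have h4 := hy (φ j) w h
        rw [← dist_eq_norm] at h4
        have h5 := dist_triangle (z (φ j)) z₀ w
        rw [dist_comm z₀ w] at h5
        linarith
      have h6 := hout _ h3
      obtain ⟨q, hq, hd⟩ := Metric.mem_thickening_iff.mp h6
      exact (Metric.infDist_le_dist_of_mem hq).trans hd.le
    have h3 : Metric.infDist w K₀ ≤ 0 := ge_of_tendsto hnlim h2
    have hne : K₀.Nonempty := by
      obtain ⟨q, hq, -⟩ := Metric.mem_thickening_iff.mp (hout _ (hzD 0))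
      exact ⟨q, hq⟩
    rw [Metric.mem_closure_iff_infDist_zero hne]
    exact le_antisymm h3 Metric.infDist_nonneg
  apply hz₀
  rw [← hKr, mem_interior_iff_mem_nhds]
  exact mem_of_superset (Metric.ball_mem_nhds z₀ (by linarith)) hball

/-- smallness near the complement of the limit domain -/
lemma cj2_star {K₀ : Set ℂ} (hKo : IsOpen K₀) (hKr : interior (closure K₀) = K₀)
    (hKn : K₀ᶜ.Nonempty) {D : ℕ → Set ℂ}
    {lam ε : ℕ → ℝ} {u : ℕ → ℂ → ℝ} {T R : ℝ} (hε : Tendsto ε atTop (𝓝 0))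
    (hDo : ∀ n, IsOpen (D n)) (hDc : ∀ n, IsPreconnected (D n)ᶜ)
    (hout : ∀ n, D n ⊆ Metric.thickening (ε n) K₀) (hR : ∀ n, D n ⊆ Metric.closedBall 0 R)
    (hlam : ∀ n, 0 < lam n ∧ lam n ≤ T) (hu : ∀ n, Wat (D n) (lam n) (u n))
    (h1 : ∀ n x, |u n x| ≤ 1) :
    ∀ η : ℝ, 0 < η → ∃ δ : ℝ, 0 < δ ∧ ∃ N : ℕ, ∀ n, N ≤ n → ∀ x : ℂ,
      Metric.infDist x K₀ᶜ < δ → |u n x| ≤ η := by
  intro η hη
  have hT : 0 < T := (hlam 0).1.trans_le (hlam 0).2
  set V : ℝ := (volume (Metric.closedBall (0 : ℂ) R)).toReal with hV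
  have hV0 : 0 ≤ V := ENNReal.toReal_nonneg
  set A : ℝ := T * V with hA
  have hA0 : 0 ≤ A := mul_nonneg hT.le hV0
  have hint : ∀ n, lam n * ∫ x, u n x ^ 2 ≤ A := by
    intro n
    have h2 : ∫ x, u n x ^ 2 ≤ V := by
      have h3 : ∫ x, u n x ^ 2 ≤ ∫ x, (Metric.closedBall (0 : ℂ) R).indicator (fun _ => (1 : ℝ)) x := by
        apply integral_mono_of_nonneg
        · exact Eventually.of_forall fun x => sq_nonneg _
        · rw [integrable_indicator_iff Metric.isClosed_closedBall.measurableSet]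
          exact integrableOn_const (isCompact_closedBall _ _).measure_lt_top.ne
        · refine Eventually.of_forall fun x => ?_
          by_cases hx : x ∈ Metric.closedBall (0 : ℂ) R
          · simp only [Set.indicator_of_mem hx]
            rw [← sq_abs]
            exact pow_le_one₀ (abs_nonneg _) (h1 n x)
          · simp only [Set.indicator_of_notMem hx]
            rw [(hu n).out x (fun h => hx (hR n h))]
            norm_num
      refine h3.trans (le_of_eq ?_)
      rw [integral_indicator_const _ Metric.isClosed_closedBall.measurableSet]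
      simp [hV, Measure.real]
    have h4 : 0 ≤ ∫ x, u n x ^ 2 := integral_nonneg fun x => sq_nonneg _
    calc lam n * ∫ x, u n x ^ 2 ≤ T * ∫ x, u n x ^ 2 :=
          mul_le_mul_of_nonneg_right (hlam n).2 h4
      _ ≤ T * V := mul_le_mul_of_nonneg_left h2 hT.le
  set r : ℝ := min 1 (2 * η / T) with hr
  have hr0 : 0 < r := lt_min one_pos (by positivity)
  have hr1 : r ≤ 1 := min_le_left _ _
  have hrT : T * r ^ 2 / 4 ≤ η / 2 := by
    have h2 : r ≤ 2 * η / T := min_le_right _ _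
    have h3 : r * T ≤ 2 * η := by rwa [le_div_iff₀ hT] at h2
    have h4 : r ^ 2 ≤ r := by nlinarith
    nlinarith
  set B : ℝ := 2 * Real.pi * A / (η / 2) ^ 2 + 1 with hB
  have hpiA : 0 ≤ 2 * Real.pi * A := by positivity
  have hB0 : 0 < B := by positivity
  set δ₀ : ℝ := r * Real.exp (-B) with hδ₀
  have hδ0 : 0 < δ₀ := by positivity
  have hδr : δ₀ < r := by
    rw [hδ₀]
    have : Real.exp (-B) < 1 := by rw [Real.exp_lt_one_iff]; linarith
    nlinarith
  have hlog : Real.log (r / δ₀) = B := by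
    have : r / δ₀ = Real.exp B := by
      rw [hδ₀, Real.exp_neg]
      field_simp
    rw [this, Real.log_exp]
  have hsq : √(2 * Real.pi * A / Real.log (r / δ₀)) ≤ η / 2 := by
    rw [hlog]
    apply Real.sqrt_le_iff.2
    refine ⟨by linarith, ?_⟩
    rw [div_le_iff₀ hB0, hB, mul_add, mul_one, mul_div_cancel₀ _ (by positivity)]
    nlinarith [sq_nonneg (η / 2)]
  obtain ⟨N, hN⟩ := cj2_near hKo hKr hε hout hR (s := δ₀ / 2) (by linarith)
  refine ⟨δ₀ / 3, by linarith, N, fun n hn x hx => ?_⟩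
  obtain ⟨z, hz, hzd⟩ := (Metric.infDist_lt_iff hKn).1 hx
  obtain ⟨y, hy, hyd⟩ := hN n hn z hz
  have hxy : ‖x - y‖ < δ₀ := by
    rw [dist_eq_norm] at hzd
    have : ‖x - y‖ ≤ ‖x - z‖ + ‖z - y‖ := norm_sub_le_norm_sub_add_norm_sub _ _ _
    linarith
  have hDb : Bornology.IsBounded (D n) := Metric.isBounded_closedBall.subset (hR n)
  have h3 := cl_decay (hDo n) hDb (hDc n) (hlam n).1 (hu n) (h1 n) (hint n) hy hδ0 hδr hxy
  have h4 : lam n * r ^ 2 / 4 ≤ T * r ^ 2 / 4 := by
    have := mul_le_mul_of_nonneg_right (hlam n).2 (sq_nonneg r)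
    linarith
  linarith

/-- TARGET: compactness of the eigenfunctions of domains with connected complements. -/
theorem compact_modes_jordan {K₀ : Set ℂ} (hKo : IsOpen K₀) (hKb : Bornology.IsBounded K₀)
    (hKn : K₀.Nonempty) (hKr : interior (closure K₀) = K₀) {D : ℕ → Set ℂ} {lam ε : ℕ → ℝ}
    {u : ℕ → ℂ → ℝ} {T : ℝ} (hε : Tendsto ε atTop (𝓝 0)) (hε0 : ∀ n, 0 < ε n)
    (hDo : ∀ n, IsOpen (D n)) (hDc : ∀ n, IsPreconnected (D n)ᶜ)
    (hin : ∀ n, {x | Metric.closedBall x (ε n) ⊆ K₀} ⊆ D n)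
    (hout : ∀ n, D n ⊆ Metric.thickening (ε n) K₀)
    (hlam : ∀ n, 0 < lam n ∧ lam n ≤ T) (hu : ∀ n, Wat (D n) (lam n) (u n))
    (h1 : ∀ n x, |u n x| ≤ 1) (h2 : ∀ n, ∃ x, |u n x| = 1) :
    ∃ (φ : ℕ → ℕ) (l : ℝ) (v : ℂ → ℝ), StrictMono φ ∧ 0 < l ∧
      Tendsto (fun n => lam (φ n)) atTop (𝓝 l) ∧ Wat K₀ l v ∧ (∃ x, v x ≠ 0) ∧
      TendstoUniformly (fun n => u (φ n)) v atTop ∧
      ∀ (x : ℕ → ℂ) (x₀ : ℂ), x₀ ∈ K₀ → Tendsto x atTop (𝓝 x₀) →
        Tendsto (fun n => fderiv ℝ (u (φ n)) (x n)) atTop (𝓝 (fderiv ℝ v x₀)) := by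
  obtain ⟨ρ, hρ⟩ := hKb.subset_closedBall (0 : ℂ)
  have hρ0 : 0 ≤ ρ := by
    obtain ⟨z, hz⟩ := hKn
    have := hρ hz
    rw [mem_closedBall_zero_iff] at this
    exact (norm_nonneg z).trans this
  have hT : 0 < T := (hlam 0).1.trans_le (hlam 0).2
  obtain ⟨E, hE'⟩ := hε.bddAbove_range
  have hE : ∀ n, ε n ≤ E := fun n => hE' (mem_range_self n)
  have hE0 : 0 < E := (hε0 0).trans_le (hE 0)
  set R := ρ + E with hRdef
  have hR0 : 0 < R := by positivity
  have hDR : ∀ n, D n ⊆ Metric.closedBall 0 R := by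
    intro n x hx
    rw [mem_closedBall_zero_iff]
    have := cv1_norm_lt hρ (hout n hx)
    linarith [hE n]
  obtain ⟨y₀, hy₀⟩ : K₀ᶜ.Nonempty := by
    refine ⟨((ρ + 1 : ℝ) : ℂ), fun h => ?_⟩
    have := hρ h
    rw [mem_closedBall_zero_iff, Complex.norm_real, Real.norm_eq_abs,
      abs_of_pos (by linarith)] at this
    linarith
  have hst := cj2_star hKo hKr ⟨y₀, hy₀⟩ hε hDo hDc hout hDR hlam hu h1
  obtain ⟨φ, l, v, hφ, hl, hv⟩ := cj2_conv hKo hε hin hDR hlam hu h1 hst
  -- the eigenvalues are bounded below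
  have hlam1 : ∀ n, 4 / R ^ 2 ≤ lam n := by
    intro n
    obtain ⟨x, hx⟩ := h2 n
    have hxD : x ∈ D n := by
      by_contra h
      rw [(hu n).out x h, abs_zero] at hx
      exact zero_ne_one hx
    have h3 := barrier (hDo n) (hlam n).1 (hDR n) (hu n) (h1 n) x hxD
    rw [hx] at h3
    rw [div_le_iff₀ (by positivity)]
    have h4 : lam n / 4 * (R ^ 2 - ‖x‖ ^ 2) ≤ lam n / 4 * R ^ 2 := by
      apply mul_le_mul_of_nonneg_left _ (by linarith [(hlam n).1])
      linarith [sq_nonneg ‖x‖]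
    linarith
  have hl0 : 0 < l := lt_of_lt_of_le (by positivity) (ge_of_tendsto' hl fun n => hlam1 (φ n))
  have hptw : ∀ x, Tendsto (fun n => u (φ n) x) atTop (𝓝 (v x)) := fun x => hv.tendsto_at x
  have hvc : Continuous v := hv.continuous (Frequently.of_forall fun n => (hu (φ n)).cont)
  have hεφ : Tendsto (fun n => ε (φ n)) atTop (𝓝 0) := hε.comp hφ.tendsto_atTop
  have hv0 : ∀ x, x ∉ K₀ → v x = 0 := by
    intro x hx
    have h3 : Tendsto (fun n => |u (φ n) x|) atTop (𝓝 |v x|) := (hptw x).abs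
    have h4 : ∀ η : ℝ, 0 < η → |v x| ≤ η := by
      intro η hη
      obtain ⟨δ, hδ, N, hN⟩ := hst η hη
      apply le_of_tendsto h3
      filter_upwards [hφ.tendsto_atTop.eventually_ge_atTop N] with n hn
      apply hN _ hn
      rw [Metric.infDist_zero_of_mem (by exact hx)]
      exact hδ
    exact abs_eq_zero.1 (le_antisymm (le_of_forall_pos_le_add fun η hη => by
      rw [zero_add]; exact h4 η hη) (abs_nonneg _))
  -- the weak form in the limit
  have hweak : ∀ ψ : ℂ → ℝ, SC ψ → tsupport ψ ⊆ K₀ →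
      ∫ x, v x * (la ψ x + l * ψ x) = 0 := by
    intro ψ hψ hs
    have hlaψ : SC (la ψ) := Pool.Agent.R227.SA.la_sc hψ
    obtain ⟨χ, L, hχ, hχc, hχ1, hχL, hL, hLU⟩ := cv1_cutoff hψ.cs.isCompact hKo hs
    obtain ⟨δ, hδ, hδL⟩ := hL.exists_cthickening_subset_open hKo hLU
    have hlim : Tendsto (fun n => ∫ x, u (φ n) x * (la ψ x + lam (φ n) * ψ x)) atTop
        (𝓝 (∫ x, v x * (la ψ x + l * ψ x))) := by
      refine tendsto_integral_of_dominated_convergence (fun x => |la ψ x| + T * |ψ x|) ?_ ?_ ?_ ?_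
      · intro n
        have c1 := (hu (φ n)).cont
        have c2 := hlaψ.cont
        have c3 := hψ.cont
        exact (Continuous.aestronglyMeasurable (by fun_prop))
      · exact hlaψ.int.abs.add (hψ.int.abs.const_mul T)
      · intro n
        refine Eventually.of_forall fun x => ?_
        rw [Real.norm_eq_abs, abs_mul]
        have b1 : |la ψ x + lam (φ n) * ψ x| ≤ |la ψ x| + T * |ψ x| := by
          refine (abs_add_le _ _).trans (add_le_add le_rfl ?_)
          rw [abs_mul, abs_of_pos (hlam _).1]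
          exact mul_le_mul_of_nonneg_right (hlam _).2 (abs_nonneg _)
        calc |u (φ n) x| * |la ψ x + lam (φ n) * ψ x| ≤ 1 * |la ψ x + lam (φ n) * ψ x| :=
              mul_le_mul_of_nonneg_right (h1 _ _) (abs_nonneg _)
          _ ≤ _ := by rw [one_mul]; exact b1
      · refine Eventually.of_forall fun x => ?_
        exact (hptw x).mul (tendsto_const_nhds.add (hl.mul_const _))
    have hzero : ∀ᶠ n in atTop, ∫ x, u (φ n) x * (la ψ x + lam (φ n) * ψ x) = 0 := by
      have h3 : ∀ᶠ n in atTop, ε (φ n) < δ := hεφ.eventually (gt_mem_nhds hδ)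
      filter_upwards [h3] with n hn
      refine cv1_weak (hu (φ n)) hψ hχ hχc hχ1 ?_
      intro x hx
      apply hin (φ n)
      intro y hy
      apply hδL
      rw [Metric.mem_closedBall] at hy
      exact Metric.mem_cthickening_of_dist_le y x δ L (hχL hx) (hy.trans hn.le)
    exact tendsto_nhds_unique hlim ((tendsto_congr' hzero).2 tendsto_const_nhds)
  have hwat : Wat K₀ l v := ⟨hvc, hv0, reg hKo hl0 hvc hweak⟩
  have hne : ∃ x, v x ≠ 0 := by
    by_contra hcon
    push Not at hcon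
    have hv' := hv
    rw [Metric.tendstoUniformly_iff] at hv'
    obtain ⟨n, hn⟩ := (hv' 1 one_pos).exists
    obtain ⟨x, hx⟩ := h2 (φ n)
    have := hn x
    rw [hcon x, dist_comm, dist_zero_right, Real.norm_eq_abs, hx] at this
    exact lt_irrefl _ this
  refine ⟨φ, l, v, hφ, hl0, hl, hwat, hne, hv, fun x x₀ hx₀ hx => ?_⟩
  -- gradients
  obtain ⟨s, hs0, hs⟩ := Metric.nhds_basis_closedBall.mem_iff.1 (hKo.mem_nhds hx₀)
  have hcont : ContinuousAt (fderiv ℝ v) x₀ :=
    ((nc1_cd hwat hx₀).fderiv_right (m := 0) (by simp)).continuousAt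
  have hlimv : Tendsto (fun n => fderiv ℝ v (x n)) atTop (𝓝 (fderiv ℝ v x₀)) :=
    hcont.tendsto.comp hx
  have hdiff : Tendsto (fun n => fderiv ℝ (u (φ n)) (x n) - fderiv ℝ v (x n)) atTop (𝓝 0) := by
    rw [tendsto_zero_iff_norm_tendsto_zero]
    set r := s / 4 with hr
    have hr0 : 0 < r := by rw [hr]; linarith
    have hbd : ∀ η : ℝ, 0 < η → ∀ᶠ n in atTop,
        ‖fderiv ℝ (u (φ n)) (x n) - fderiv ℝ v (x n)‖ ≤ 8 * (η / r + (η + l * η) * r) := by
      intro η hη
      have e1 : ∀ᶠ n in atTop, ∀ y, dist (v y) (u (φ n) y) < η :=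
        (Metric.tendstoUniformly_iff.1 hv) η hη
      have e2 : ∀ᶠ n in atTop, dist (lam (φ n)) l < η :=
        (tendsto_iff_dist_tendsto_zero.1 hl).eventually (gt_mem_nhds hη)
      have e3 : ∀ᶠ n in atTop, ε (φ n) < r := hεφ.eventually (gt_mem_nhds hr0)
      have e4 : ∀ᶠ n in atTop, dist (x n) x₀ < r :=
        (tendsto_iff_dist_tendsto_zero.1 hx).eventually (gt_mem_nhds hr0)
      filter_upwards [e1, e2, e3, e4] with n g1 g2 g3 g4
      have hb1 : ∀ y ∈ Metric.ball (x n) r, dist y x₀ < 2 * r := by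
        intro y hy
        rw [Metric.mem_ball] at hy
        linarith [dist_triangle y (x n) x₀]
      have hbD : Metric.ball (x n) r ⊆ D (φ n) := by
        intro y hy
        refine cv1_sub hs (hin (φ n)) ?_
        have := hb1 y hy
        linarith
      have hbB : Metric.ball (x n) r ⊆ K₀ := by
        intro y hy
        apply hs
        rw [Metric.mem_closedBall]
        have := hb1 y hy
        linarith
      have hsm : ∀ y ∈ Metric.ball (x n) r, ContDiffAt ℝ ∞ (fun z => u (φ n) z - v z) y :=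
        fun y hy => (nc1_cd (hu _) (hbD hy)).sub (nc1_cd hwat (hbB hy))
      have hla : ∀ y ∈ Metric.ball (x n) r, la (fun z => u (φ n) z - v z) y
          = -(lam (φ n) * u (φ n) y) + l * v y := by
        intro y hy
        obtain ⟨U, hU, q1, q2⟩ := nc1_ev (hu (φ n)) (hbD hy)
        obtain ⟨V, hV, q3, q4⟩ := nc1_ev hwat (hbB hy)
        have q5 : (fun z => u (φ n) z - v z) =ᶠ[𝓝 y] fun z => U z - V z := q1.sub q3
        rw [J507.la_congr q5]
        have q6 : ∀ (w : ℂ) {f g : ℂ → ℝ}, SC f → SC g →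
            dd w (fun z => f z - g z) = fun z => dd w f z - dd w g z := by
          intro w f g hf hg
          funext z
          unfold dd
          rw [fderiv_fun_sub (hf.diff z) (hg.diff z)]
          rfl
        have hd : ∀ {f : ℂ → ℝ} (v : ℂ), SC f → SC (dd v f) :=
          fun v h => Pool.Agent.TH298.Sch.dd_sc h v
        have q7 : la (fun z => U z - V z) y = la U y - la V y := by
          unfold la
          rw [q6 1 hU hV, q6 _ hU hV, q6 1 (hd 1 hU) (hd 1 hV), q6 _ (hd _ hU) (hd _ hV)]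
          ring
        rw [q7, q2, q4]
        ring
      have hg := grad_bd (x₀ := x n) (r := r) (M := η) (N := η + l * η)
        (f := fun z => u (φ n) z - v z) hr0
        (fun y hy => ((hsm y hy).of_le (WithTop.coe_le_coe.mpr (le_top : (2:ℕ∞) ≤ ⊤))).contDiffWithinAt)
        (fun y _ => by
          have := g1 y
          rw [dist_comm, Real.dist_eq] at this
          exact this.le)
        (fun y hy => by
          rw [hla y hy]
          have k1 : -(lam (φ n) * u (φ n) y) + l * v y =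
              -((lam (φ n) - l) * u (φ n) y) + l * (v y - u (φ n) y) := by ring
          rw [k1]
          refine (abs_add_le _ _).trans (add_le_add ?_ ?_)
          · rw [abs_neg, abs_mul]
            rw [Real.dist_eq] at g2
            calc |lam (φ n) - l| * |u (φ n) y| ≤ |lam (φ n) - l| * 1 :=
                  mul_le_mul_of_nonneg_left (h1 _ _) (abs_nonneg _)
              _ ≤ η := by linarith
          · rw [abs_mul, abs_of_pos hl0]
            have := g1 y
            rw [Real.dist_eq] at this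
            exact mul_le_mul_of_nonneg_left this.le hl0.le)
      have hxD : x n ∈ D (φ n) := hbD (Metric.mem_ball_self hr0)
      have hxB : x n ∈ K₀ := hbB (Metric.mem_ball_self hr0)
      rw [fderiv_fun_sub ((nc1_cd (hu _) hxD).differentiableAt (by simp))
        ((nc1_cd hwat hxB).differentiableAt (by simp))] at hg
      exact hg
    rw [Metric.tendsto_nhds]
    intro δ hδ
    have hpos : 0 < 8 * (1 / r + (1 + l) * r) := by positivity
    have := hbd (δ / 2 / (8 * (1 / r + (1 + l) * r))) (by positivity)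
    filter_upwards [this] with n hn
    rw [dist_zero_right, norm_norm]
    refine hn.trans_lt ?_
    have e : 8 * (δ / 2 / (8 * (1 / r + (1 + l) * r)) / r +
        (δ / 2 / (8 * (1 / r + (1 + l) * r)) + l * (δ / 2 / (8 * (1 / r + (1 + l) * r)))) * r)
        = δ / 2 := by
      field_simp
    rw [e]
    linarith
  have := hdiff.add hlimv
  rw [zero_add] at this
  refine this.congr fun n => ?_
  rw [sub_add_cancel]

end Pool.Agent.Helper327_Drum
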