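import Pool.Agent.Helper327_Drum.Fin.CV3

/-
JOB CJ3 (owner helper327, problem MP_d92c84_an). All imports are on origin/main.
-/

set_option autoImplicit false
open MeasureTheory Set Filter Topology
open scoped ContDiff InnerProductSpace

namespace Pool.Agent.Helper327_Drum

/-- TARGET 1: connected compact sets in a connected open set. (Cover C by finitely many closed balls contained in K₀ and join their centres with a fixed point of K₀ by paths: K₀ is path connected.) -/
theorem conn_exhaust {K₀ C : Set ℂ} (hKo : IsOpen K₀) (hKc : IsConnected K₀) (hC : IsCompact C)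
    (hCK : C ⊆ K₀) : ∃ Q : Set ℂ, IsCompact Q ∧ IsConnected Q ∧ C ⊆ Q ∧ Q ⊆ K₀ := by
  obtain ⟨x₀, hx₀⟩ := hKc.nonempty
  have hpc : IsPathConnected K₀ := hKo.isConnected_iff_isPathConnected.1 hKc
  have key : ∃ Q : Set ℂ, IsCompact Q ∧ IsConnected Q ∧ C ⊆ Q ∧ Q ⊆ K₀ ∧ x₀ ∈ Q := by
    refine hC.induction_on (p := fun S => ∃ Q : Set ℂ, IsCompact Q ∧ IsConnected Q ∧ S ⊆ Q ∧
      Q ⊆ K₀ ∧ x₀ ∈ Q) ?_ ?_ ?_ ?_
    · exact ⟨{x₀}, isCompact_singleton, isConnected_singleton, empty_subset _,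
        singleton_subset_iff.2 hx₀, mem_singleton _⟩
    · rintro S T hST ⟨Q, h1, h2, h3, h4, h5⟩
      exact ⟨Q, h1, h2, hST.trans h3, h4, h5⟩
    · rintro S T ⟨Q, h1, h2, h3, h4, h5⟩ ⟨Q', g1, g2, g3, g4, g5⟩
      exact ⟨Q ∪ Q', h1.union g1, h2.union ⟨x₀, h5, g5⟩ g2, union_subset_union h3 g3,
        union_subset h4 g4, Or.inl h5⟩
    · intro x hx
      have hxK := hCK hx
      obtain ⟨r, hr, hrK⟩ := Metric.nhds_basis_closedBall.mem_iff.1 (hKo.mem_nhds hxK)
      obtain ⟨γ, hγ⟩ := hpc.joinedIn x₀ hx₀ x hxK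
      refine ⟨Metric.closedBall x r, mem_nhdsWithin_of_mem_nhds (Metric.closedBall_mem_nhds x hr),
        Metric.closedBall x r ∪ range γ, (isCompact_closedBall x r).union
          (isCompact_range γ.continuous), ?_, subset_union_left, ?_, Or.inr ⟨0, γ.source⟩⟩
      · exact IsConnected.union ⟨x, Metric.mem_closedBall_self hr.le, ⟨1, γ.target⟩⟩
          ((convex_closedBall x r).isConnected ⟨x, Metric.mem_closedBall_self hr.le⟩)
          (isConnected_range γ.continuous)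
      · exact union_subset hrK (range_subset_iff.2 hγ)
  obtain ⟨Q, h1, h2, h3, h4, -⟩ := key
  exact ⟨Q, h1, h2, h3, h4⟩

/-
TARGET 2. The sets {x | δ ≤ infDist x K₀ᶜ} (compact, see `cv_compact` in Fin/CV3.lean) increase to K₀ as δ ↓ 0, so one of them, C, has |K₀ \ C| < η/2; the sets thickening ε K₀ decrease to closure K₀ as ε ↓ 0, and
|closure K₀| = |K₀| as |frontier K₀| = 0, so |thickening ε K₀ \ K₀| < η/2 for small ε. (`cv_area` is the convex version.)
-/

/-- TARGET 2 -/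
theorem area_exhaust {K₀ : Set ℂ} (hKo : IsOpen K₀) (hKb : Bornology.IsBounded K₀)
    (hK0 : volume (frontier K₀) = 0) {η : ℝ} (hη : 0 < η) :
    ∃ (ε₀ : ℝ) (C : Set ℂ), 0 < ε₀ ∧ IsCompact C ∧ C ⊆ K₀ ∧ ∀ ε, ε < ε₀ → ∀ Ω : Set ℂ,
      Ω ⊆ Metric.thickening ε K₀ → Disjoint Ω C → volume.real Ω < η := by
  let A : ℕ → Set ℂ := fun m => Metric.thickening (1 / ((m : ℝ) + 1)) K₀ \
    {x | 1 / ((m : ℝ) + 1) ≤ cvd K₀ x}
  have hmono : ∀ m n : ℕ, m ≤ n → 1 / ((n : ℝ) + 1) ≤ 1 / ((m : ℝ) + 1) := by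
    intro m n h
    apply one_div_le_one_div_of_le (by positivity)
    have : (m : ℝ) ≤ n := by exact_mod_cast h
    linarith
  have hA : Antitone A := by
    intro m n h
    have h1 := hmono m n h
    rintro x ⟨hx1, hx2⟩
    exact ⟨Metric.thickening_mono h1 _ hx1, fun h3 => hx2 (h1.trans h3)⟩
  have hAm : ∀ m, MeasurableSet (A m) := fun m =>
    Metric.isOpen_thickening.measurableSet.diff
      (isClosed_le continuous_const (cvd_cont K₀)).measurableSet
  have hfin : ∀ m, volume (A m) ≠ ⊤ := fun m =>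
    (((hKb.thickening).subset sdiff_subset).measure_lt_top).ne
  have hinter : ⋂ m, A m ⊆ frontier K₀ := by
    intro x hx
    rw [mem_iInter] at hx
    refine ⟨?_, ?_⟩
    · rw [Metric.closure_eq_iInter_thickening]
      simp only [mem_iInter]
      intro δ hδ
      obtain ⟨n, hn⟩ := exists_nat_one_div_lt hδ
      exact Metric.thickening_mono hn.le _ (hx n).1
    · rw [hKo.interior_eq]
      intro hxK
      have := (cvd_pos hKo hKb).2 hxK
      obtain ⟨n, hn⟩ := exists_nat_one_div_lt this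
      exact (hx n).2 hn.le
  have hzero : volume (⋂ m, A m) = 0 := measure_mono_null hinter hK0
  have hlim := tendsto_measure_iInter_atTop (μ := volume) (s := A)
    (fun m => (hAm m).nullMeasurableSet) hA ⟨0, hfin 0⟩
  rw [hzero] at hlim
  have hev := hlim.eventually_lt_const (show (0 : ENNReal) < ENNReal.ofReal η by simpa using hη)
  obtain ⟨m, hm⟩ := hev.exists
  have hm0 : (0 : ℝ) < 1 / ((m : ℝ) + 1) := by positivity
  refine ⟨1 / ((m : ℝ) + 1), {x | 1 / ((m : ℝ) + 1) ≤ cvd K₀ x}, hm0, cv_compact hKo hKb hm0,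
    cv_sub hKo hKb hm0, fun ε hε S hS hd => ?_⟩
  have hSA : S ⊆ A m := fun x hx => ⟨Metric.thickening_mono hε.le _ (hS hx),
    fun h3 => disjoint_left.1 hd hx h3⟩
  have h1 : volume S < ENNReal.ofReal η := lt_of_le_of_lt (measure_mono hSA) hm
  rw [Measure.real]
  exact (ENNReal.lt_ofReal_iff_toReal_lt (h1.trans ENNReal.ofReal_lt_top).ne).1 h1

end Pool.Agent.Helper327_Drum
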