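import Pool.Agent.Helper327_Drum.SpDefs
import Pool.Agent.Helper327_Drum.Fin.SR1

/-
JOB SP4 (owner helper327, problem MP_d92c84_an). All imports are on origin/main (SpDefs.lean is being landed now; its contents: `crect a b c d` is the open rectangle (a,b) × (c,d), ...).
-/

set_option autoImplicit false
open MeasureTheory Set Filter Topology
open scoped ContDiff InnerProductSpace

namespace Pool.Agent.Helper327_Drum

open Pool.Agent.TH298.Sch (X)

/-- `K` is open, connected, bounded, is the interior of its closure, and its boundary has measure zero -/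
def Regular (K : Set ℂ) : Prop :=
  IsOpen K ∧ IsConnected K ∧ Bornology.IsBounded K ∧ interior (closure K) = K ∧
    volume (frontier K) = 0

theorem sp4_convex {K : Set ℂ} (h1 : IsOpen K) (h2 : Convex ℝ K) (h3 : Bornology.IsBounded K)
    (h4 : K.Nonempty) : Regular K := by
  refine ⟨h1, h2.isConnected h4, h3, ?_, h2.addHaar_frontier volume⟩
  rw [h2.interior_closure_eq_interior_of_nonempty_interior (by rwa [h1.interior_eq]),
    h1.interior_eq]

theorem sp4_crect {a b c d : ℝ} (hab : a < b) (hcd : c < d) : Regular (crect a b c d) := by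
  have e : crect a b c d = Complex.re ⁻¹' Ioo a b ∩ Complex.im ⁻¹' Ioo c d := by
    ext z
    simp only [crect, Set.mem_ofPred_eq, mem_inter_iff, mem_preimage, mem_Ioo]
    tauto
  refine sp4_convex ?_ ?_ ?_ ?_
  · rw [e]
    exact (isOpen_Ioo.preimage Complex.continuous_re).inter
      (isOpen_Ioo.preimage Complex.continuous_im)
  · rw [e]
    exact ((convex_Ioo a b).is_linear_preimage (f := Complex.re)
        ⟨fun x y => Complex.add_re x y, fun c x => by simp⟩).inter
      ((convex_Ioo c d).is_linear_preimage (f := Complex.im)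
        ⟨fun x y => Complex.add_im x y, fun c x => by simp⟩)
  · rw [e]
    exact Bornology.IsBounded.reProdIm (Metric.isBounded_Ioo a b) (Metric.isBounded_Ioo c d)
  · refine ⟨⟨(a + b) / 2, (c + d) / 2⟩, ?_, ?_, ?_, ?_⟩ <;> simp only <;> linarith

/-- a point of the interior of the image of a compact set under an injective entire function comes
from the interior -/
theorem sp4_inv {Φ : ℂ → ℂ} (hΦ : Differentiable ℂ Φ) {K : Set ℂ} (hK : IsCompact K)
    (hinj : InjOn Φ K) {x : ℂ} (hx : x ∈ interior (Φ '' K)) : x ∈ Φ '' interior K := by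
  set Ψ : ℂ → ℂ := Function.invFunOn Φ K with hΨ
  have hmem : ∀ w ∈ Φ '' K, Ψ w ∈ K := fun w hw => Function.invFunOn_mem hw
  have heq : ∀ w ∈ Φ '' K, Φ (Ψ w) = w := fun w hw => Function.invFunOn_eq hw
  -- continuity
  have hcont : ∀ w ∈ interior (Φ '' K), ContinuousAt Ψ w := by
    intro w hw
    have hwK := interior_subset hw
    rw [ContinuousAt, tendsto_nhds]
    intro N hN hwN
    have h1 : IsCompact (Φ '' (K \ N)) := (hK.diff hN).image hΦ.continuous
    have h2 : w ∉ Φ '' (K \ N) := by
      rintro ⟨ζ, ⟨h3, h4⟩, h5⟩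
      apply h4
      rw [hinj h3 (hmem w hwK) (h5.trans (heq w hwK).symm)]
      exact hwN
    filter_upwards [h1.isClosed.isOpen_compl.mem_nhds h2, mem_interior_iff_mem_nhds.1 hw]
      with y hy hyK
    by_contra h6
    exact hy ⟨Ψ y, ⟨hmem y hyK, h6⟩, heq y hyK⟩
  -- differentiability off the critical points
  have hdiff : ∀ w ∈ interior (Φ '' K), deriv Φ (Ψ w) ≠ 0 → DifferentiableAt ℂ Ψ w := by
    intro w hw h0
    have h1 : HasDerivAt Φ (deriv Φ (Ψ w)) (Ψ w) := (hΦ _).hasDerivAt
    have h2 : HasDerivAt Ψ (deriv Φ (Ψ w))⁻¹ w := by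
      refine HasDerivAt.of_local_left_inverse (hcont w hw) h1 h0 ?_
      filter_upwards [mem_interior_iff_mem_nhds.1 hw] with y hy
      exact heq y hy
    exact h2.differentiableAt
  have hxK := interior_subset hx
  -- differentiability at `x`
  have hx1 : DifferentiableAt ℂ Ψ x := by
    by_cases h0 : deriv Φ (Ψ x) = 0
    · have hd : AnalyticAt ℂ (deriv Φ) (Ψ x) := by
        have h1 : AnalyticOnNhd ℂ Φ univ := hΦ.differentiableOn.analyticOnNhd isOpen_univ
        exact h1.deriv _ (mem_univ _)
      rcases hd.eventually_eq_zero_or_eventually_ne_zero with h2 | h2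
      · -- `Φ` is constant near `Ψ x`, hence everywhere
        exfalso
        have h1 : AnalyticOnNhd ℂ (deriv Φ) univ :=
          (hΦ.differentiableOn.analyticOnNhd isOpen_univ).deriv
        have h3 : ∀ z, deriv Φ z = 0 := by
          intro z
          exact h1.eqOn_zero_of_preconnected_of_eventuallyEq_zero isPreconnected_univ
            (mem_univ (Ψ x)) h2 (mem_univ z)
        have h4 : ∀ z w, Φ z = Φ w := is_const_of_deriv_eq_zero hΦ h3
        have h5 : interior (Φ '' K) ⊆ {x} := by
          intro y hy
          obtain ⟨z, _, rfl⟩ := interior_subset hy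
          obtain ⟨z', _, hz'⟩ := hxK
          rw [mem_singleton_iff, ← hz']
          exact h4 _ _
        have h6 : interior (Φ '' K) = {x} := Subset.antisymm h5 (singleton_subset_iff.2 hx)
        have h7 : IsOpen ({x} : Set ℂ) := by
          rw [← h6]
          exact isOpen_interior
        exact not_isOpen_singleton x h7
      · have h3 : ∀ᶠ w in 𝓝 x, w ≠ x → deriv Φ (Ψ w) ≠ 0 := by
          rw [eventually_nhdsWithin_iff] at h2
          have h4 := (hcont x hx).eventually h2
          filter_upwards [h4, mem_interior_iff_mem_nhds.1 hx] with w hw hwK hwx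
          apply hw
          intro h5
          apply hwx
          rw [← heq w hwK, ← heq x hxK, h5]
        have h4 : ∀ᶠ w in 𝓝 x, w ∈ interior (Φ '' K) := isOpen_interior.mem_nhds hx
        have h5 := (Complex.differentiableOn_compl_singleton_and_continuousAt_iff
          (h3.and h4) (f := Ψ)).1 ⟨?_, hcont x hx⟩
        · exact h5.differentiableAt (h3.and h4)
        · rintro w ⟨⟨h6, h7⟩, h8⟩
          exact (hdiff w h7 (h6 h8)).differentiableWithinAt
    · exact hdiff x hx h0
  -- the derivative of `Φ` does not vanish at `Ψ x`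
  have hne : deriv Φ (Ψ x) ≠ 0 := by
    intro h0
    have h1 : HasDerivAt Φ (deriv Φ (Ψ x)) (Ψ x) := (hΦ _).hasDerivAt
    have h2 := h1.comp x hx1.hasDerivAt
    have h3 : HasDerivAt (Φ ∘ Ψ) 1 x := by
      refine (hasDerivAt_id x).congr_of_eventuallyEq ?_
      filter_upwards [mem_interior_iff_mem_nhds.1 hx] with y hy
      exact heq y hy
    have h4 := h2.unique h3
    rw [h0, zero_mul] at h4
    exact zero_ne_one h4
  have hst : HasStrictDerivAt Φ (deriv Φ (Ψ x)) (Ψ x) := by
    have h1 : AnalyticOnNhd ℂ Φ univ := hΦ.differentiableOn.analyticOnNhd isOpen_univ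
    exact (h1 (Ψ x) (mem_univ _)).hasStrictDerivAt
  obtain ⟨g, hg⟩ : ∃ g : ℂ → ℂ, ∀ᶠ z in 𝓝 (Ψ x), g (Φ z) = z :=
    ⟨_, (hst.hasStrictFDerivAt_equiv hne).eventually_left_inverse⟩
  refine ⟨Ψ x, ?_, heq x hxK⟩
  rw [mem_interior_iff_mem_nhds]
  have hΦx : Tendsto Φ (𝓝 (Ψ x)) (𝓝 x) := by
    have h1 := hΦ.continuous.tendsto (Ψ x)
    rwa [heq x hxK] at h1
  have hΨ2 : Tendsto Ψ (𝓝 x) (𝓝 (Ψ x)) := hcont x hx
  filter_upwards [hg, (hΨ2.comp hΦx).eventually hg, hΦx.eventually (mem_interior_iff_mem_nhds.1 hx)]
    with z h1 h2 h3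
  simp only [Function.comp_apply] at h2
  have h4 : Ψ (Φ z) = z := by
    rw [← h2, heq _ h3, h1]
  rw [← h4]
  exact hmem _ h3

/-- TARGET 1 -/
theorem sep_shape {Φ : ℂ → ℂ} (hΦ : Differentiable ℂ Φ) {a b c d : ℝ} (hab : a < b) (hcd : c < d)
    (hinj : InjOn Φ (closure (crect a b c d))) : Regular (Φ '' crect a b c d) := by
  obtain ⟨q1, q2, q3, q4, q5⟩ := sp4_crect hab hcd
  set Q := crect a b c d with hQ
  have hK : IsCompact (closure Q) := q3.isCompact_closure
  have hKi : IsCompact (Φ '' closure Q) := hK.image hΦ.continuous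
  have hsub : Φ '' Q ⊆ Φ '' closure Q := image_mono subset_closure
  have hcl : closure (Φ '' Q) ⊆ Φ '' closure Q := closure_minimal hsub hKi.isClosed
  have hopen : IsOpen (Φ '' Q) := by
    have h1 : AnalyticOnNhd ℂ Φ univ := hΦ.differentiableOn.analyticOnNhd isOpen_univ
    rcases h1.is_constant_or_isOpen isPreconnected_univ with h2 | h2
    · exfalso
      obtain ⟨w, hw⟩ := h2
      obtain ⟨z, hz⟩ := q2.nonempty
      have h3 : Q ⊆ {z} := by
        intro y hy
        exact hinj (subset_closure hy) (subset_closure hz)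
          ((hw y (mem_univ _)).trans (hw z (mem_univ _)).symm)
      have h4 : Q = {z} := Subset.antisymm h3 (singleton_subset_iff.2 hz)
      rw [h4] at q1
      exact not_isOpen_singleton z q1
    · exact h2 Q (subset_univ _) q1
  have hint : interior (closure (Φ '' Q)) = Φ '' Q := by
    refine Subset.antisymm ?_ ?_
    · intro x hx
      have h1 := sp4_inv hΦ hK hinj (interior_mono hcl hx)
      rwa [q4] at h1
    · exact interior_maximal subset_closure hopen
  refine ⟨hopen, q2.image Φ hΦ.continuous.continuousOn, hKi.isBounded.subset hsub, hint, ?_⟩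
  have hfr : frontier (Φ '' Q) ⊆ Φ '' frontier Q := by
    intro x hx
    rw [hopen.frontier_eq] at hx
    obtain ⟨z, hz, rfl⟩ := hcl hx.1
    refine ⟨z, ?_, rfl⟩
    rw [q1.frontier_eq]
    exact ⟨hz, fun h => hx.2 ⟨z, h, rfl⟩⟩
  refine measure_mono_null hfr ?_
  exact addHaar_image_eq_zero_of_differentiableOn_of_addHaar_eq_zero volume
    (hΦ.restrictScalars ℝ).differentiableOn q5

/-- TARGET 2 -/
theorem gsec_shape {α : ℝ} (h0 : 0 < α) (h1 : α < 2 * Real.pi) : Regular (gsec α) := by
  have hpi := Real.pi_pos
  have hne : (gsec α).Nonempty := ⟨X (1 / 2) (α / 2), 1 / 2, α / 2, by norm_num, by norm_num,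
    by linarith, by linarith, rfl⟩
  have hlin : ∀ s c : ℝ, IsLinearMap ℝ fun z : ℂ => s * z.re - c * z.im := by
    intro s c
    refine ⟨fun x y => ?_, fun r x => ?_⟩
    · simp only [Complex.add_re, Complex.add_im]
      ring
    · simp only [Complex.real_smul, Complex.mul_re, Complex.mul_im, Complex.ofReal_re,
        Complex.ofReal_im, smul_eq_mul]
      ring
  have hcont : ∀ s c : ℝ, Continuous fun z : ℂ => s * z.re - c * z.im := by
    intro s c
    fun_prop
  set B : Set ℂ := Metric.ball (0 : ℂ) 1 with hB
  set H1 : Set ℂ := {x : ℂ | 0 < x.im} with hH1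
  set H2 : Set ℂ := {x : ℂ | 0 < Real.sin α * x.re - Real.cos α * x.im} with hH2
  have c1 : Convex ℝ H1 := by
    have h2 := (convex_Ioi (0 : ℝ)).is_linear_preimage (hlin 0 (-1))
    have h3 : (fun z : ℂ => 0 * z.re - (-1) * z.im) ⁻¹' Ioi (0 : ℝ) = H1 := by
      ext z
      simp [H1]
    rwa [h3] at h2
  have c2 : Convex ℝ H2 := (convex_Ioi (0 : ℝ)).is_linear_preimage (hlin _ _)
  have cB : Convex ℝ B := convex_ball 0 1
  have o1 : IsOpen H1 := isOpen_lt continuous_const Complex.continuous_im
  have o2 : IsOpen H2 := isOpen_lt continuous_const (hcont _ _)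
  have oB : IsOpen B := Metric.isOpen_ball
  rcases le_or_gt α Real.pi with hle | hgt
  · have e := SR1.gsec_char h0 hle
    refine sp4_convex ?_ ?_ ?_ hne
    · rw [e]
      exact oB.inter (o1.inter o2)
    · rw [e]
      exact cB.inter (c1.inter c2)
    · rw [e]
      exact Metric.isBounded_ball.subset inter_subset_left
  · have key : ∀ r θ : ℝ, Real.sin α * (X r θ).re - Real.cos α * (X r θ).im =
        r * Real.sin (α - θ) := by
      intro r θ
      rw [SR1.X_re, SR1.X_im, Real.sin_sub]
      ring
    have e : gsec α = B ∩ (H1 ∪ H2) := by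
      ext x
      constructor
      · rintro ⟨r, θ, g0, g1, g2, g3, rfl⟩
        refine ⟨by rw [hB, mem_ball_zero_iff, SR1.X_norm g0]; exact g1, ?_⟩
        rcases lt_or_ge θ Real.pi with h | h
        · left
          change 0 < (X r θ).im
          rw [SR1.X_im]
          exact mul_pos g0 (Real.sin_pos_of_pos_of_lt_pi g2 h)
        · right
          change 0 < Real.sin α * (X r θ).re - Real.cos α * (X r θ).im
          rw [key]
          exact mul_pos g0 (Real.sin_pos_of_pos_of_lt_pi (by linarith) (by linarith))
      · rintro ⟨g1, g2⟩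
        rw [hB, mem_ball_zero_iff] at g1
        have hx0 : x ≠ 0 := by
          rintro rfl
          rcases g2 with g2 | g2
          · change 0 < (0 : ℂ).im at g2
            simp at g2
          · change 0 < Real.sin α * (0 : ℂ).re - Real.cos α * (0 : ℂ).im at g2
            simp at g2
        have hX : X ‖x‖ x.arg = x := SR1.X_norm_arg x
        have hr : 0 < ‖x‖ := norm_pos_iff.2 hx0
        by_cases ha : 0 < x.arg
        · refine ⟨‖x‖, x.arg, hr, g1, ha, ?_, hX.symm⟩
          exact (Complex.arg_le_pi x).trans_lt hgt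
        · push Not at ha
          have hper : X ‖x‖ (x.arg + 2 * Real.pi) = x := by
            refine Eq.trans ?_ hX
            unfold X
            rw [Real.cos_add_two_pi, Real.sin_add_two_pi]
          have hlow := Complex.neg_pi_lt_arg x
          have him : ¬ 0 < x.im := by
            intro h
            have h5 : 0 ≤ x.arg := Complex.arg_nonneg_iff.2 h.le
            have h6 : x.arg = 0 := le_antisymm ha h5
            rw [← hX, h6, SR1.X_im, Real.sin_zero, mul_zero] at h
            exact lt_irrefl _ h
          have g3 : 0 < Real.sin α * x.re - Real.cos α * x.im := by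
            rcases g2 with g2 | g2
            · exact absurd g2 him
            · exact g2
          refine ⟨‖x‖, x.arg + 2 * Real.pi, hr, g1, by linarith, ?_, hper.symm⟩
          by_contra! hc
          rw [← hper, key] at g3
          have h5 : Real.sin (α - (x.arg + 2 * Real.pi)) ≤ 0 :=
            Real.sin_nonpos_of_nonpos_of_neg_pi_le (by linarith) (by linarith)
          have := mul_nonpos_of_nonneg_of_nonpos (norm_nonneg x) h5
          linarith
    -- a direction in the complement
    set v : ℂ := X 1 ((α + 2 * Real.pi) / 2) with hv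
    have v1 : v.im < 0 := by
      rw [hv, SR1.X_im, one_mul, show (α + 2 * Real.pi) / 2 = α / 2 + Real.pi by ring,
        Real.sin_add_pi]
      have := Real.sin_pos_of_pos_of_lt_pi (x := α / 2) (by linarith) (by linarith)
      linarith
    have v2 : Real.sin α * v.re - Real.cos α * v.im < 0 := by
      rw [hv, key, one_mul]
      exact Real.sin_neg_of_neg_of_neg_pi_lt (by linarith) (by linarith)
    have hw1 : X (1 / 2) (α / 2) ∈ H1 := by
      change 0 < (X (1 / 2) (α / 2)).im
      rw [SR1.X_im]
      exact mul_pos (by norm_num) (Real.sin_pos_of_pos_of_lt_pi (by linarith) (by linarith))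
    have hw2 : X (1 / 2) (α / 2) ∈ H2 := by
      change 0 < Real.sin α * (X (1 / 2) (α / 2)).re - Real.cos α * (X (1 / 2) (α / 2)).im
      rw [key]
      exact mul_pos (by norm_num) (Real.sin_pos_of_pos_of_lt_pi (by linarith) (by linarith))
    have hwB : X (1 / 2) (α / 2) ∈ B := by
      rw [hB, mem_ball_zero_iff, SR1.X_norm (by norm_num)]
      norm_num
    have hopen : IsOpen (gsec α) := by
      rw [e]
      exact oB.inter (o1.union o2)
    refine ⟨hopen, ?_, ?_, ?_, ?_⟩
    · rw [e, inter_union_distrib_left]
      exact IsConnected.union ⟨X (1 / 2) (α / 2), ⟨hwB, hw1⟩, ⟨hwB, hw2⟩⟩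
        ((cB.inter c1).isConnected ⟨_, hwB, hw1⟩) ((cB.inter c2).isConnected ⟨_, hwB, hw2⟩)
    · rw [e]
      exact Metric.isBounded_ball.subset inter_subset_left
    · refine Subset.antisymm ?_ (interior_maximal subset_closure hopen)
      have hclB : closure (gsec α) ⊆ Metric.closedBall (0 : ℂ) 1 := by
        rw [e]
        exact closure_minimal (inter_subset_left.trans Metric.ball_subset_closedBall)
          Metric.isClosed_closedBall
      have hclH : closure (gsec α) ⊆ {x : ℂ | 0 ≤ x.im} ∪
          {x : ℂ | 0 ≤ Real.sin α * x.re - Real.cos α * x.im} := by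
        rw [e]
        refine closure_minimal ?_ ((isClosed_le continuous_const Complex.continuous_im).union
          (isClosed_le continuous_const (hcont _ _)))
        rintro x ⟨_, hx | hx⟩
        · left
          have hx : 0 < x.im := hx
          exact hx.le
        · right
          have hx : 0 < Real.sin α * x.re - Real.cos α * x.im := hx
          exact hx.le
      intro x hx
      have hxB : x ∈ B := by
        have h2 := interior_mono hclB hx
        rwa [interior_closedBall (0 : ℂ) one_ne_zero] at h2
      rw [e]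
      refine ⟨hxB, ?_⟩
      by_contra hno
      have hx1 : x.im ≤ 0 := not_lt.1 fun h => hno (Or.inl h)
      have hx2 : Real.sin α * x.re - Real.cos α * x.im ≤ 0 := not_lt.1 fun h => hno (Or.inr h)
      have htend : Tendsto (fun t : ℝ => x + t * v) (𝓝[>] 0) (𝓝 x) := by
        have h2 : Continuous fun t : ℝ => x + t * v := by fun_prop
        have h3 := h2.tendsto 0
        simp only [Complex.ofReal_zero, zero_mul, add_zero] at h3
        exact h3.mono_left nhdsWithin_le_nhds
      have h4 : ∀ᶠ t : ℝ in 𝓝[>] 0, x + t * v ∈ closure (gsec α) := by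
        filter_upwards [htend.eventually (mem_interior_iff_mem_nhds.1 hx)] with t ht
        exact ht
      obtain ⟨t, ht, ht0⟩ := (h4.and self_mem_nhdsWithin).exists
      have ht0 : 0 < t := ht0
      have h5 : (x + t * v).im = x.im + t * v.im := by simp
      have h6 : (x + t * v).re = x.re + t * v.re := by simp
      rcases hclH ht with h7 | h7
      · have h7 : 0 ≤ (x + t * v).im := h7
        rw [h5] at h7
        have := mul_neg_of_pos_of_neg ht0 v1
        linarith
      · have h7 : 0 ≤ Real.sin α * (x + t * v).re - Real.cos α * (x + t * v).im := h7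
        rw [h5, h6] at h7
        have := mul_neg_of_pos_of_neg ht0 v2
        nlinarith
    · have h2 : frontier (gsec α) ⊆ frontier B ∪ (frontier H1 ∪ frontier H2) := by
        rw [e]
        intro x hx
        rcases frontier_inter_subset B (H1 ∪ H2) hx with h | h
        · exact Or.inl h.1
        · right
          rcases frontier_union_subset H1 H2 h.2 with h' | h'
          · exact Or.inl h'.1
          · exact Or.inr h'.2
      refine measure_mono_null h2 ?_
      rw [measure_union_null_iff, measure_union_null_iff]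
      exact ⟨cB.addHaar_frontier volume, c1.addHaar_frontier volume, c2.addHaar_frontier volume⟩

/-- TARGET 3 (`Convex.addHaar_frontier`, `Convex.interior_closure_eq_interior_of_nonempty_interior`) -/
theorem convex_shape {K : Set ℂ} (h1 : IsOpen K) (h2 : Convex ℝ K) (h3 : Bornology.IsBounded K)
    (h4 : K.Nonempty) : Regular K :=
  sp4_convex h1 h2 h3 h4

/-- TARGET 4 -/
theorem copy_shape {K : Set ℂ} (hK : Regular K) (σ : ℂ ≃ᵢ ℂ) {a : ℝ} (ha : 0 < a) :
    Regular ((fun x : ℂ => σ (a * x)) '' K) := by
  obtain ⟨q1, q2, q3, q4, q5⟩ := hK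
  have ha' : (a : ℂ) ≠ 0 := by exact_mod_cast ha.ne'
  let F : ℂ ≃ₜ ℂ := (Homeomorph.mulLeft₀ (a : ℂ) ha').trans σ.toHomeomorph
  have hF : (fun x : ℂ => σ (a * x)) = F := rfl
  have hdiff : Differentiable ℝ F := by
    have h1 : Differentiable ℝ σ.toRealAffineIsometryEquiv.toAffineIsometry.toContinuousAffineMap :=
      ContinuousAffineMap.differentiable _
    have h2 : Differentiable ℝ σ := h1
    rw [← hF]
    exact h2.comp (differentiable_id.const_mul (a : ℂ))
  rw [hF]
  refine ⟨F.isOpenMap K q1, q2.image F F.continuous.continuousOn, ?_, ?_, ?_⟩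
  · exact ((q3.isCompact_closure.image F.continuous).isBounded).subset (image_mono subset_closure)
  · rw [← F.image_closure, ← F.image_interior, q4]
  · rw [← F.image_frontier]
    exact addHaar_image_eq_zero_of_differentiableOn_of_addHaar_eq_zero volume
      hdiff.differentiableOn q5

end Pool.Agent.Helper327_Drum
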