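import Pool.Agent.Helper327_Drum.Fin.AS9
import Pool.Agent.Helper327_Drum.Fin.AS12
import Pool.Agent.Helper327_Drum.Fin.CJ2
import Pool.Agent.Helper327_Drum.Fin.CJ3
import Pool.Agent.Helper327_Drum.Fin.SP4

/-! Drums near a drum without closed curves of critical points. -/

set_option autoImplicit false
open MeasureTheory Set Filter Topology ComplexConjugate
open scoped ContDiff InnerProductSpace

namespace Pool.Agent.Helper327_Drum

open Pool.Agent.TH298.Sch (dd SC)
open Pool.Agent.R227.SA (la Wat Dat)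

/-- Near a region whose eigenfunctions for the eigenvalues in a compact set have no closed curves of critical
points there are no such curves either, for eigenvalues in this set. -/
theorem near_jordan_set {Λ : Set ℝ} (hΛ : IsClosed Λ) {K₀ : Set ℂ} (hKR : Regular K₀)
    {T : ℝ} (hT : 0 < T)
    (hK : ∀ (lam : ℝ) (v : ℂ → ℝ), 0 < lam → lam ≤ T → lam ∈ Λ → Wat K₀ lam v → (∃ x, v x ≠ 0) →
      ¬ ∃ γ : Set ℂ, SimpleClosedCurve γ ∧ γ ⊆ K₀ ∧ ∀ x ∈ γ, fderiv ℝ v x = 0) :
    ∃ ε : ℝ, 0 < ε ∧ ∀ (R γ : Set ℂ) (lam k : ℝ) (u : ℂ → ℝ), SimpleClosedCurve R →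
      SimpleClosedCurve γ → {x | Metric.closedBall x ε ⊆ K₀} ⊆ inside R →
      inside R ⊆ Metric.thickening ε K₀ → 0 < lam → lam ≤ T → lam ∈ Λ → Wat (inside R) lam u →
      γ ⊆ inside R → k ≠ 0 → (∀ x ∈ γ, u x = k) → (∀ x ∈ γ, fderiv ℝ u x = 0) → False := by
  obtain ⟨hKo, hKcon, hKb, hKr, hK0⟩ := hKR
  by_contra hcon
  have hpi := Real.pi_pos
  have hex : ∀ n : ℕ, ∃ (R γ : Set ℂ) (lam k : ℝ) (u : ℂ → ℝ), SimpleClosedCurve R ∧
      SimpleClosedCurve γ ∧ {x | Metric.closedBall x (1 / ((n : ℝ) + 1)) ⊆ K₀} ⊆ inside R ∧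
      inside R ⊆ Metric.thickening (1 / ((n : ℝ) + 1)) K₀ ∧ 0 < lam ∧ lam ≤ T ∧ lam ∈ Λ ∧
      Wat (inside R) lam u ∧ γ ⊆ inside R ∧ k ≠ 0 ∧ (∀ x ∈ γ, u x = k) ∧
      (∀ x ∈ γ, fderiv ℝ u x = 0) ∧ (∀ x, |u x| ≤ 1) ∧ (∃ x, |u x| = 1) := by
    intro n
    by_contra hn
    apply hcon
    refine ⟨1 / ((n : ℝ) + 1), by positivity, ?_⟩
    intro R γ lam k u hR hγ hin hout hlam hlamT hlamΛ hu hsub hk huk hcr
    obtain ⟨k', w, hw, hk', hwk, hwc, hw1, hw2⟩ := cv_norm hR hγ hu hsub hk huk hcr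
    exact hn ⟨R, γ, lam, k', w, hR, hγ, hin, hout, hlam, hlamT, hlamΛ, hw, hsub, hk', hwk, hwc, hw1, hw2⟩
  choose R γ lam k u hR hγ hin hout hlam hlamT hlamΛ hu hsub hk huk hcr hu1 hu2 using hex
  have hε : Tendsto (fun n : ℕ => 1 / ((n : ℝ) + 1)) atTop (𝓝 0) :=
    tendsto_one_div_add_atTop_nhds_zero_nat
  have hDo : ∀ n, IsOpen (inside (R n)) := fun n => (inside_basic (scc_basic (hR n)).1).1
  obtain ⟨φ, l, v, hφ, hl, hlim, hv, hvne, hunif, hconv⟩ := compact_modes_jordan hKo hKb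
    hKcon.nonempty hKr
    (D := fun n => inside (R n)) (lam := lam) (ε := fun n : ℕ => 1 / ((n : ℝ) + 1)) (u := u)
    (T := T) hε (fun n => by positivity) hDo
    (fun n => (inside_compl (scc_basic (hR n)).1 (scc_basic (hR n)).2.1).1.isPreconnected) hin hout (fun n => ⟨hlam n, hlamT n⟩) hu hu1 hu2
  have hlT : l ≤ T := le_of_tendsto' hlim fun n => hlamT (φ n)
  have hlΛ : l ∈ Λ := hΛ.mem_of_tendsto hlim (Eventually.of_forall fun n => hlamΛ (φ n))
  have hε' : Tendsto (fun n : ℕ => 1 / (((φ n : ℕ) : ℝ) + 1)) atTop (𝓝 0) :=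
    hε.comp hφ.tendsto_atTop
  -- the critical points
  obtain ⟨C, hC⟩ : ∃ C : Set ℂ, C = {x | x ∈ K₀ ∧ fderiv ℝ v x = 0} := ⟨_, rfl⟩
  have hacc : ∀ x₀ ∈ K₀, ¬ AccPt x₀ (𝓟 C) := by
    intro x₀ hx₀ hacc
    rw [hC] at hacc
    obtain ⟨Γ, hΓc, hΓcon, -, hΓsub, hΓcr, -, hΓloc⟩ :=
      crit_component hKo hKb hKcon.isPreconnected hl hv hvne hx₀ hacc
    refine hK l v hl hlT hlΛ hv hvne ⟨Γ, scc_of_graph hΓc hΓcon ?_, hΓsub, hΓcr⟩
    intro q hq
    obtain ⟨e, δ, ψ, h1, h2, h3, -, h4, h5, -, h6⟩ := hΓloc q hq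
    exact ⟨e, δ, ψ, h1, h2, h3, h4, h5, fun t s ht hs => (h6 t s ht hs).2⟩
  have hCfin : ∀ δ : ℝ, 0 < δ → (C ∩ {x | δ ≤ cvd K₀ x}).Finite := by
    intro δ hδ
    by_contra hinf
    obtain ⟨x₀, hx₀, hx₀a⟩ := Set.Infinite.exists_accPt_of_subset_isCompact hinf
      (cv_compact hKo hKb hδ) inter_subset_right
    exact hacc x₀ (cv_sub hKo hKb hδ hx₀) (hx₀a.mono (principal_mono.2 inter_subset_left))
  have hCsub : C ⊆ K₀ := fun x hx => by rw [hC] at hx; exact hx.1
  have hCcount : C.Countable := by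
    have h1 : C ⊆ ⋃ n : ℕ, C ∩ {x | 1 / ((n : ℝ) + 1) ≤ cvd K₀ x} := by
      intro x hx
      obtain ⟨n, hn⟩ := exists_nat_one_div_lt ((cvd_pos hKo hKb).2 (hCsub hx))
      exact mem_iUnion.2 ⟨n, hx, hn.le⟩
    exact (countable_iUnion fun n => (hCfin _ (by positivity)).countable).mono h1
  have hdC : (cvd K₀ '' C).Countable := hCcount.image _
  -- limits of points of the curves are critical points
  have hcl : ∀ (ψ : ℕ → ℕ) (b : ℕ → ℂ) (x₀ : ℂ), StrictMono ψ → (∀ m, b m ∈ γ (φ (ψ m))) →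
      Tendsto b atTop (𝓝 x₀) → x₀ ∈ K₀ → x₀ ∈ C := by
    intro ψ b x₀ hψ hb hbl hx₀
    obtain ⟨y, hy, hylim⟩ := cv_tendsto hψ hbl
    have h2 := (hconv y x₀ hx₀ hylim).comp hψ.tendsto_atTop
    have h3 : (fun n => fderiv ℝ (u (φ n)) (y n)) ∘ ψ = fun _ => 0 := by
      funext m
      simp only [Function.comp_apply]
      rw [hy m]
      exact hcr _ _ (hb m)
    rw [h3] at h2
    rw [hC]
    exact ⟨hx₀, tendsto_nhds_unique h2 tendsto_const_nhds⟩
  -- compactness in `{δ ≤ d}`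
  have hcomp : ∀ (δ : ℝ), 0 < δ → ∀ S : Set ℂ, IsClosed S → (∀ x ∈ S, δ ≤ cvd K₀ x) →
      (∃ᶠ n in atTop, (γ (φ n) ∩ S).Nonempty) → (C ∩ S).Nonempty := by
    intro δ hδ S hS hSδ hfr
    obtain ⟨ψ₀, hψ₀, hbad⟩ := Filter.extraction_of_frequently_atTop hfr
    choose b hb using hbad
    obtain ⟨x₀, hx₀, ψ₁, hψ₁, hlim1⟩ := (cv_compact hKo hKb hδ).tendsto_subseq
      (fun m => hSδ _ (hb m).2)
    have hψ : StrictMono (ψ₀ ∘ ψ₁) := hψ₀.comp hψ₁
    refine ⟨x₀, hcl _ _ x₀ hψ (fun m => (hb (ψ₁ m)).1) hlim1 (cv_sub hKo hKb hδ hx₀), ?_⟩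
    exact hS.mem_of_tendsto hlim1 (Eventually.of_forall fun m => (hb (ψ₁ m)).2)
  -- the structure of the curves
  have hdat : ∀ n, (inside (γ n)).Nonempty ∧
      Dat (inside (γ n)) (lam n) (k n) ((inside (γ n)).indicator fun x => u n x - k n) :=
    fun n => crit_dat (hR n) (hγ n) (hlam n) (hu n) (hsub n) (hk n) (huk n) (hcr n)
  have hbas : ∀ n, IsOpen (inside (γ n)) ∧ Bornology.IsBounded (inside (γ n)) := fun n =>
    ⟨(inside_basic (scc_basic (hγ n)).1).1, (inside_basic (scc_basic (hγ n)).1).2.1⟩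
  have harea : ∀ n, 3 ≤ T * volume.real (inside (γ n)) := by
    intro n
    obtain ⟨hne, hdt⟩ := hdat n
    obtain ⟨hΩcon, -, hΩreg⟩ := inside_jordan (hγ n) hne
    refine (dat_area hdt (hbas n).1 (hbas n).2 hΩcon hΩreg (hlam n) (hk n)).trans ?_
    exact mul_le_mul_of_nonneg_right (hlamT n) measureReal_nonneg
  -- the curves are near the boundary
  have hnear : ∀ δ : ℝ, 0 < δ → δ ∉ cvd K₀ '' C → ∀ᶠ n in atTop, ∀ x ∈ γ (φ n), cvd K₀ x < δ := by
    intro δ hδ hδC
    have e1 : ∀ᶠ n in atTop, ∀ x ∈ γ (φ n), cvd K₀ x ≠ δ := by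
      by_contra hnot
      rw [Filter.not_eventually] at hnot
      obtain ⟨x, hx, hxd⟩ := hcomp δ hδ {x | cvd K₀ x = δ}
        (isClosed_eq (cvd_cont K₀) continuous_const) (fun x hx => le_of_eq (Eq.symm hx))
        (hnot.mono fun n hn => by
          push Not at hn
          obtain ⟨x, hx, hxd⟩ := hn
          exact ⟨x, hx, hxd⟩)
      exact hδC ⟨x, hx, hxd⟩
    obtain ⟨η, hη1, hη⟩ : ∃ η : ℝ, Real.pi * η ^ 2 * T < 3 ∧ 0 < η := by
      have e3 : ∀ᶠ η in 𝓝[>] (0 : ℝ), Real.pi * η ^ 2 * T < 3 := by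
        have h1 : Tendsto (fun η : ℝ => Real.pi * η ^ 2 * T) (𝓝[>] 0) (𝓝 (Real.pi * 0 ^ 2 * T)) := by
          have : Continuous (fun η : ℝ => Real.pi * η ^ 2 * T) := by fun_prop
          exact (this.tendsto 0).mono_left nhdsWithin_le_nhds
        refine h1.eventually_lt_const ?_
        norm_num
      obtain ⟨η, h1, h2⟩ := (e3.and self_mem_nhdsWithin).exists
      exact ⟨η, h1, h2⟩
    obtain ⟨P, hP⟩ : ∃ P : Finset ℂ, ∀ x, x ∈ P ↔ x ∈ C ∩ {x | δ ≤ cvd K₀ x} :=
      ⟨(hCfin δ hδ).toFinset, fun x => (hCfin δ hδ).mem_toFinset⟩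
    obtain ⟨δ', hδ', hnc⟩ := near_circles P ∅ hη
    have e2 : ∀ᶠ n in atTop, ∀ x ∈ γ (φ n), δ ≤ cvd K₀ x → ∃ p ∈ P, ‖x - p‖ < δ' := by
      by_contra hnot
      rw [Filter.not_eventually] at hnot
      obtain ⟨x, hx, hxd, hxP⟩ := hcomp δ hδ {x | δ ≤ cvd K₀ x ∧ ∀ p ∈ P, δ' ≤ ‖x - p‖} (by
          have h1 : {x | δ ≤ cvd K₀ x ∧ ∀ p ∈ P, δ' ≤ ‖x - p‖} =
              {x | δ ≤ cvd K₀ x} ∩ ⋂ p ∈ P, {x | δ' ≤ ‖x - p‖} := by
            ext x; simp
          rw [h1]
          refine (isClosed_le continuous_const (cvd_cont K₀)).inter ?_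
          exact isClosed_biInter fun p _ => isClosed_le continuous_const (by fun_prop))
        (fun x hx => hx.1)
        (hnot.mono fun n hn => by
          push Not at hn
          obtain ⟨x, hx, hxd, hxP⟩ := hn
          exact ⟨x, hx, hxd, hxP⟩)
      have h1 := hxP x ((hP x).2 ⟨hx, hxd⟩)
      rw [sub_self, norm_zero] at h1
      linarith
    filter_upwards [e1, e2] with n hn1 hn2
    have hcon' : IsConnected (γ (φ n)) := (scc_basic (hγ (φ n))).2.1
    by_contra hnot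
    push Not at hnot
    obtain ⟨x, hx, hxd⟩ := hnot
    have hxd' : δ < cvd K₀ x := lt_of_le_of_ne hxd (fun h => hn1 x hx h.symm)
    have hall : ∀ y ∈ γ (φ n), δ < cvd K₀ y := by
      intro y hy
      by_contra hyd
      rw [not_lt] at hyd
      have hyd' : cvd K₀ y < δ := lt_of_le_of_ne hyd (hn1 y hy)
      obtain ⟨z, hz, hzd⟩ := hcon'.isPreconnected.intermediate_value hy hx
        (cvd_cont K₀).continuousOn ⟨hyd'.le, hxd'.le⟩
      exact hn1 z hz hzd
    rcases hnc (γ (φ n)) hcon' (fun y hy => Or.inl (hn2 y hy (hall y hy).le)) with ⟨p, hp⟩ | ⟨ρ, hρ, -⟩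
    · have h1 := inside_small hp
      have h2 : volume.real (inside (γ (φ n))) ≤ volume.real (Metric.ball p η) :=
        measureReal_mono h1 measure_ball_lt_top.ne
      rw [cv_ballarea p hη.le] at h2
      have h3 := mul_le_mul_of_nonneg_left h2 hT.le
      have h4 := harea (φ n)
      linarith
    · simp at hρ
  -- connected compact sets are enclosed
  obtain ⟨ε₀, C₀, hε₀, hC₀, hC₀K, hsmall⟩ := area_exhaust hKo hKb hK0 (show 0 < 3 / T by positivity)
  have hencl : ∀ Q : Set ℂ, IsCompact Q → IsConnected Q → C₀ ⊆ Q → Q ⊆ K₀ →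
      ∀ᶠ n in atTop, Q ⊆ inside (γ (φ n)) := by
    intro Q hQ hQc hC₀Q hQK
    obtain ⟨δ₁, hδ₁, hQδ⟩ : ∃ δ₁ : ℝ, 0 < δ₁ ∧ ∀ x ∈ Q, δ₁ ≤ cvd K₀ x := by
      obtain ⟨x₁, hx₁, hmin⟩ := hQ.exists_isMinOn hQc.nonempty (cvd_cont K₀).continuousOn
      exact ⟨cvd K₀ x₁, (cvd_pos hKo hKb).2 (hQK hx₁), fun x hx => hmin hx⟩
    obtain ⟨δ, hδ, hδ2, hδC⟩ := cv_pick hdC hδ₁
    filter_upwards [hnear δ hδ hδC, hε'.eventually_lt_const hε₀] with n hn1 hn2
    have hdj : Disjoint Q (γ (φ n)) := by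
      rw [disjoint_left]
      intro x hx hxγ
      exact absurd (hn1 x hxγ) (not_lt.2 (hδ2.le.trans (hQδ x hx)))
    by_cases hmeet : ∃ x ∈ Q, x ∈ inside (γ (φ n))
    · obtain ⟨x, hx, hxi⟩ := hmeet
      exact cv_inside hQc.isPreconnected hdj hx hxi
    · exfalso
      push Not at hmeet
      have h1 : Disjoint (inside (γ (φ n))) C₀ :=
        disjoint_right.2 fun x hx => hmeet x (hC₀Q hx)
      have h2 : inside (γ (φ n)) ⊆ Metric.thickening (1 / (((φ n : ℕ) : ℝ) + 1)) K₀ :=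
        (inside_sub (scc_basic (hR (φ n))).1 (scc_basic (hR (φ n))).2.1 (hsub (φ n))).trans
          (hout (φ n))
      have h3 := hsmall _ hn2 _ h2 h1
      rw [lt_div_iff₀ hT] at h3
      have h4 := harea (φ n)
      linarith
  -- the constants tend to zero
  have hk0 : Tendsto (fun n => k (φ n)) atTop (𝓝 0) := by
    rw [Metric.tendsto_nhds]
    intro η hη
    obtain ⟨δ₂, hδ₂, huc⟩ := cv_uc hKb hv.cont hv.out (show 0 < η / 2 by positivity)
    obtain ⟨δ, hδ, hδ2, hδC⟩ := cv_pick hdC hδ₂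
    have hun := Metric.tendstoUniformly_iff.1 hunif (η / 2) (by positivity)
    filter_upwards [hnear δ hδ hδC, hun] with n hn1 hn2
    obtain ⟨x, hx⟩ := (scc_basic (hγ (φ n))).2.1.nonempty
    have h1 := huc x ((hn1 x hx).trans hδ2)
    have h2 := hn2 x
    rw [Real.dist_eq] at h2 ⊢
    rw [sub_zero, ← huk (φ n) x hx]
    have h3 : u (φ n) x = v x - (v x - u (φ n) x) := by ring
    rw [h3]
    have h4 := abs_sub (v x) (v x - u (φ n) x)
    linarith
  have hkle : ∀ n, |k n| ≤ 1 := by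
    intro n
    obtain ⟨x, hx⟩ := (scc_basic (hγ n)).2.1.nonempty
    rw [← huk n x hx]
    exact hu1 n x
  -- pointwise convergence
  have hpt : ∀ x, Tendsto (fun n => (inside (γ (φ n))).indicator (fun x => u (φ n) x - k (φ n)) x)
      atTop (𝓝 (v x)) := by
    intro x
    have hux : Tendsto (fun n => u (φ n) x) atTop (𝓝 (v x)) := hunif.tendsto_at x
    have hux' : Tendsto (fun n => u (φ n) x - k (φ n)) atTop (𝓝 (v x)) := by
      have := hux.sub hk0
      rwa [sub_zero] at this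
    by_cases hx : x ∈ K₀
    · obtain ⟨Q, hQ1, hQ2, hQ3, hQ4⟩ := conn_exhaust hKo hKcon (hC₀.union isCompact_singleton)
        (union_subset hC₀K (singleton_subset_iff.2 hx))
      have hev := hencl Q hQ1 hQ2 (subset_union_left.trans hQ3) hQ4
      refine hux'.congr' ?_
      filter_upwards [hev] with n hn
      have : x ∈ inside (γ (φ n)) := hn (hQ3 (Or.inr rfl))
      rw [indicator_of_mem this]
    · have hvx : v x = 0 := hv.out x hx
      rw [hvx] at hux' ⊢
      refine squeeze_zero_norm (fun n => ?_) (by simpa using hux'.norm)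
      exact norm_indicator_le_norm_self _ _
  have hweak : ∀ f : ℂ → ℝ, SC f → ∫ x, v x * (la f x + l * f x) = 0 := by
    intro f hf
    have hlaf : SC (la f) := Pool.Agent.R227.SA.la_sc hf
    have hI1 : Integrable (la f) := hlaf.sm.continuous.integrable_of_hasCompactSupport hlaf.cs
    have hI2 : Integrable f := hf.sm.continuous.integrable_of_hasCompactSupport hf.cs
    have h1 : Tendsto (fun n => ∫ x, (inside (γ (φ n))).indicator (fun x => u (φ n) x - k (φ n)) x *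
        (la f x + lam (φ n) * f x)) atTop (𝓝 (∫ x, v x * (la f x + l * f x))) := by
      refine tendsto_integral_of_dominated_convergence (fun x => 2 * (|la f x| + T * |f x|)) ?_ ?_ ?_ ?_
      · intro n
        have hc := ((hdat (φ n)).2.c1.continuous)
        exact (hc.mul (hlaf.sm.continuous.add (continuous_const.mul hf.sm.continuous))).aestronglyMeasurable
      · exact (hI1.abs.add (hI2.abs.const_mul T)).const_mul 2
      · intro n
        refine Eventually.of_forall fun x => ?_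
        rw [norm_mul, Real.norm_eq_abs, Real.norm_eq_abs]
        have a1 : |(inside (γ (φ n))).indicator (fun x => u (φ n) x - k (φ n)) x| ≤ 2 := by
          by_cases hx : x ∈ inside (γ (φ n))
          · rw [indicator_of_mem hx]
            have := abs_sub (u (φ n) x) (k (φ n))
            linarith [hu1 (φ n) x, hkle (φ n)]
          · rw [indicator_of_notMem hx, abs_zero]; norm_num
        have a2 : |la f x + lam (φ n) * f x| ≤ |la f x| + T * |f x| := by
          refine (abs_add_le _ _).trans ?_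
          rw [abs_mul, abs_of_pos (hlam (φ n))]
          have := mul_le_mul_of_nonneg_right (hlamT (φ n)) (abs_nonneg (f x))
          linarith
        exact mul_le_mul a1 a2 (abs_nonneg _) (by norm_num)
      · refine Eventually.of_forall fun x => ?_
        exact (hpt x).mul (tendsto_const_nhds.add (hlim.mul_const _))
    have h2 : Tendsto (fun n => ∫ x, (inside (γ (φ n))).indicator (fun x => u (φ n) x - k (φ n)) x *
        (la f x + lam (φ n) * f x)) atTop (𝓝 0) := by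
      have e1 : ∀ n, ∫ x, (inside (γ (φ n))).indicator (fun x => u (φ n) x - k (φ n)) x *
          (la f x + lam (φ n) * f x) =
          -(lam (φ n) * k (φ n) * ∫ x in inside (γ (φ n)), f x) := fun n =>
        dat_green (hdat (φ n)).2 (hbas (φ n)).1 (hbas (φ n)).2 hf
      simp_rw [e1]
      refine squeeze_zero_norm (a := fun n => T * |k (φ n)| * ∫ x, |f x|) (fun n => ?_) ?_
      · rw [norm_neg, norm_mul, norm_mul, Real.norm_eq_abs, Real.norm_eq_abs,
          abs_of_pos (hlam (φ n))]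
        have b1 : ‖∫ x in inside (γ (φ n)), f x‖ ≤ ∫ x, |f x| := by
          refine (norm_integral_le_integral_norm _).trans ?_
          exact setIntegral_le_integral hI2.norm (Eventually.of_forall fun x => norm_nonneg _)
        have b2 : lam (φ n) * |k (φ n)| ≤ T * |k (φ n)| :=
          mul_le_mul_of_nonneg_right (hlamT (φ n)) (abs_nonneg _)
        exact mul_le_mul b2 b1 (norm_nonneg _) (by positivity)
      · have := ((hk0.abs.const_mul T).mul_const (∫ x, |f x|))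
        simpa using this
    exact tendsto_nhds_unique h1 h2
  have hloc : LocH univ l v := fun x _ =>
    reg isOpen_univ hl hv.cont (fun f hf _ => hweak f hf) x (mem_univ x)
  obtain ⟨x, hx⟩ := hvne
  obtain ⟨M, hM⟩ := hKb.subset_closedBall 0
  have hfar : v =ᶠ[𝓝 ((M + |M| + 1 : ℝ) : ℂ)] 0 := by
    have hopen : IsOpen {y : ℂ | M < ‖y‖} := isOpen_lt continuous_const continuous_norm
    have hmem' : ((M + |M| + 1 : ℝ) : ℂ) ∈ {y : ℂ | M < ‖y‖} := by
      change M < ‖((M + |M| + 1 : ℝ) : ℂ)‖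
      rw [Complex.norm_real, Real.norm_eq_abs]
      have := le_abs_self (M + |M| + 1)
      have := abs_nonneg M
      linarith
    filter_upwards [hopen.mem_nhds hmem'] with y hy
    refine hv.out y fun hyD => ?_
    have := hM hyD
    rw [Metric.mem_closedBall, dist_zero_right] at this
    exact absurd hy (not_lt.2 this)
  exact hx (uc_loc hloc hl isPreconnected_univ (mem_univ _) hfar x (mem_univ x))

end Pool.Agent.Helper327_Drum
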