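import Pool.Agent.Helper327_Drum.SpDefs
import Pool.Agent.Helper327_Drum.Fin.REF
import Pool.Agent.Helper327_Drum.Fin.E4
import Pool.Agent.Helper327_Drum.Fin.E5
import Pool.Agent.Helper327_Drum.Fin.K1b
import Pool.Agent.Helper327_Drum.Fin.T5a
import Pool.Agent.Helper327_Drum.Fin.AS2

/-
JOB SP1a (owner helper327, problem MP_d92c84_an).
-/

set_option autoImplicit false
open MeasureTheory Set Filter Topology
open scoped ContDiff InnerProductSpace

namespace Pool.Agent.Helper327_Drum

open Pool.Agent.TH298.Sch (dd SC)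
open Pool.Agent.R227.SA (la Wat Dat)

lemma sp1_two {U : ℂ → ℝ} {x : ℂ} (h : ContDiffAt ℝ ∞ U x) : ContDiffAt ℝ 2 U x := by
  exact_mod_cast (contDiffAt_infty.1 h 2)

lemma sp1_open (a b c d : ℝ) : IsOpen (crect a b c d) := by
  have h1 : IsOpen {x : ℂ | a < x.re} := isOpen_lt continuous_const Complex.continuous_re
  have h2 : IsOpen {x : ℂ | x.re < b} := isOpen_lt Complex.continuous_re continuous_const
  have h3 : IsOpen {x : ℂ | c < x.im} := isOpen_lt continuous_const Complex.continuous_im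
  have h4 : IsOpen {x : ℂ | x.im < d} := isOpen_lt Complex.continuous_im continuous_const
  have h : crect a b c d = {x : ℂ | a < x.re} ∩ ({x : ℂ | x.re < b} ∩ ({x : ℂ | c < x.im} ∩ {x : ℂ | x.im < d})) := by
    ext x; rfl
  rw [h]
  exact h1.inter (h2.inter (h3.inter h4))

lemma sp1_norm {a b c d : ℝ} {x : ℂ} (hx : x ∈ crect a b c d) :
    ‖x‖ ≤ |a| + |b| + |c| + |d| := by
  obtain ⟨h1, h2, h3, h4⟩ := hx
  have h5 := Complex.norm_le_abs_re_add_abs_im x
  have h6 : |x.re| ≤ |a| + |b| := by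
    rw [abs_le]
    constructor
    · linarith [neg_abs_le a, abs_nonneg b]
    · linarith [le_abs_self b, abs_nonneg a]
  have h7 : |x.im| ≤ |c| + |d| := by
    rw [abs_le]
    constructor
    · linarith [neg_abs_le c, abs_nonneg d]
    · linarith [le_abs_self d, abs_nonneg c]
  linarith

lemma sp1_bdd (a b c d : ℝ) : Bornology.IsBounded (crect a b c d) := by
  rw [isBounded_iff_forall_norm_le]
  exact ⟨_, fun x hx => sp1_norm hx⟩

lemma sp1_closure {a b c d : ℝ} {x : ℂ} (hx : x ∈ closure (crect a b c d)) :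
    a ≤ x.re ∧ x.re ≤ b ∧ c ≤ x.im ∧ x.im ≤ d := by
  have h : IsClosed {x : ℂ | a ≤ x.re ∧ x.re ≤ b ∧ c ≤ x.im ∧ x.im ≤ d} := by
    refine (isClosed_le continuous_const Complex.continuous_re).inter
      ((isClosed_le Complex.continuous_re continuous_const).inter
        ((isClosed_le continuous_const Complex.continuous_im).inter
          (isClosed_le Complex.continuous_im continuous_const)))
  exact closure_minimal (fun y (hy : y ∈ crect a b c d) =>
    (show a ≤ y.re ∧ y.re ≤ b ∧ c ≤ y.im ∧ y.im ≤ d from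
      ⟨hy.1.le, hy.2.1.le, hy.2.2.1.le, hy.2.2.2.le⟩)) h hx

lemma sp1_front {a b c d : ℝ} {x : ℂ} (hx : x ∈ frontier (crect a b c d)) :
    x.re = a ∨ x.re = b ∨ x.im = c ∨ x.im = d := by
  have h1 := sp1_closure hx.1
  have h2 : x ∉ crect a b c d := by
    have := hx.2
    rwa [(sp1_open a b c d).interior_eq] at this
  by_contra hcon
  push Not at hcon
  apply h2
  exact ⟨lt_of_le_of_ne h1.1 (Ne.symm hcon.1), lt_of_le_of_ne h1.2.1 hcon.2.1,
    lt_of_le_of_ne h1.2.2.1 (Ne.symm hcon.2.2.1), lt_of_le_of_ne h1.2.2.2 hcon.2.2.2⟩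

lemma sp1_smn_front {a b c d : ℝ} (hab : a < b) (hcd : c < d) (m n : ℕ) {x : ℂ}
    (hx : x ∈ frontier (crect a b c d)) : smn a b c d m n x = 0 := by
  have hb : b - a ≠ 0 := by linarith
  have hd : d - c ≠ 0 := by linarith
  unfold smn
  rcases sp1_front hx with h | h | h | h
  · rw [h]; simp
  · have : (m : ℝ) * Real.pi * (x.re - a) / (b - a) = m * Real.pi := by
      rw [h]; field_simp
    rw [this, Real.sin_nat_mul_pi, zero_mul]
  · rw [h]; simp
  · have : (n : ℝ) * Real.pi * (x.im - c) / (d - c) = n * Real.pi := by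
      rw [h]; field_simp
    rw [this, Real.sin_nat_mul_pi, mul_zero]

lemma sp1_smn_cd (a b c d : ℝ) (m n : ℕ) : ContDiff ℝ ∞ (smn a b c d m n) := by
  unfold smn
  have h1 : ContDiff ℝ ∞ (fun x : ℂ => x.re) := Complex.reCLM.contDiff
  have h2 : ContDiff ℝ ∞ (fun x : ℂ => x.im) := Complex.imCLM.contDiff
  exact (((contDiff_const.mul (h1.sub contDiff_const)).div_const _).sin).mul
    (((contDiff_const.mul (h2.sub contDiff_const)).div_const _).sin)

lemma sp1_hd_sin (p a s : ℝ) :
    HasDerivAt (fun s : ℝ => Real.sin (p * (s - a))) (p * Real.cos (p * (s - a))) s := by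
  have h := (((hasDerivAt_id s).sub_const a).const_mul p).sin
  simp only [id, mul_one] at h
  exact h.congr_deriv (by ring)

lemma sp1_hd_cos (p a s : ℝ) :
    HasDerivAt (fun s : ℝ => p * Real.cos (p * (s - a))) (-(p ^ 2 * Real.sin (p * (s - a)))) s := by
  have h := ((((hasDerivAt_id s).sub_const a).const_mul p).cos).const_mul p
  simp only [id, mul_one] at h
  exact h.congr_deriv (by ring)

lemma sp1_smn_la {a b c d : ℝ} (m n : ℕ) (x : ℂ) : la (smn a b c d m n) x =
    -(((m * Real.pi / (b - a)) ^ 2 + (n * Real.pi / (d - c)) ^ 2) * smn a b c d m n x) := by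
  have e : smn a b c d m n = fun x : ℂ => Real.sin (m * Real.pi / (b - a) * (x.re - a)) *
      Real.sin (n * Real.pi / (d - c) * (x.im - c)) := by
    funext y
    unfold smn
    congr 2 <;> ring
  rw [e]
  unfold la
  rw [t5a_dd_prod_one (sp1_hd_sin (m * Real.pi / (b - a)) a) (sp1_hd_sin (n * Real.pi / (d - c)) c),
    t5a_dd_prod_I (sp1_hd_sin (m * Real.pi / (b - a)) a) (sp1_hd_sin (n * Real.pi / (d - c)) c),
    t5a_dd_prod_one (sp1_hd_cos (m * Real.pi / (b - a)) a) (sp1_hd_sin (n * Real.pi / (d - c)) c),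
    t5a_dd_prod_I (sp1_hd_sin (m * Real.pi / (b - a)) a) (sp1_hd_cos (n * Real.pi / (d - c)) c)]
  simp only []
  ring

/-- the data of a solution -/
lemma sp1_mem {D : Set ℂ} (hDo : IsOpen D) (hDb : Bornology.IsBounded D) {q : ℂ → ℝ}
    (hq : Continuous q) {U : ℂ → ℝ} (hU : Continuous U) (h0 : ∀ ζ, ζ ∉ D → U ζ = 0)
    (hs : ContDiffOn ℝ 2 U D) (hl : ∀ ζ ∈ D, la U ζ = -(q ζ * U ζ)) :
    ∃ F ∈ V D, F 0 =ᵐ[volume] U ∧ F 1 =ᵐ[volume] D.indicator (dd 1 U) ∧
      F 2 =ᵐ[volume] D.indicator (dd Complex.I U) ∧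
      ∀ H ∈ V D, ⟪F, H⟫_ℝ = ∫ x, (U x + q x * U x) * (H 0) x := by
  have hcU : HasCompactSupport U := e4_cs hDb h0
  have hqU : Continuous fun x => q x * U x := hq.mul hU
  obtain ⟨M, hM⟩ := hqU.bounded_above_of_compact_support hcU.mul_left
  obtain ⟨F, e0, e1, e2, e3, -⟩ := mem_V hDo hDb (f := U) (k := fun x => -(q x * U x)) hU h0
    (hs.of_le (by norm_num)) hqU.measurable.neg (fun x hx => by rw [h0 x hx]; simp) (M := M)
    (fun x => by rw [abs_neg]; exact hM x) (by
      intro φ hφ hsφ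
      rw [weak_of_classical hDo hs (φ := φ) ⟨hφ.sm.of_le (by exact_mod_cast le_top), hφ.cs, hsφ⟩]
      congr 1
      refine integral_congr_ae (Eventually.of_forall fun x => ?_)
      change D.indicator (la U) x * φ x = -(q x * U x) * φ x
      by_cases hx : x ∈ D
      · rw [indicator_of_mem hx, hl x hx]
      · rw [indicator_of_notMem hx, h0 x hx]
        simp)
  refine ⟨F.1, F.2, e0, e1, e2, fun H hH => ?_⟩
  have h4 := e3 ⟨H, hH⟩
  rw [Submodule.coe_inner] at h4
  change ⟪F.1, H⟫_ℝ = ∫ x, (U x - -(q x * U x)) * (H 0) x at h4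
  rw [h4]
  refine integral_congr_ae (Eventually.of_forall fun x => ?_)
  simp only [sub_neg_eq_add]

/-- Green's formula against test functions vanishing on the boundary -/
lemma sp1_green {D : Set ℂ} (hDo : IsOpen D) (hDb : Bornology.IsBounded D) {q : ℂ → ℝ}
    (hq : Continuous q) {U : ℂ → ℝ} (hU : Continuous U) (h0 : ∀ ζ, ζ ∉ D → U ζ = 0)
    (hs : ContDiffOn ℝ 2 U D) (hl : ∀ ζ ∈ D, la U ζ = -(q ζ * U ζ))
    {ψ : ℂ → ℝ} (hψ : SC ψ) (hψ0 : ∀ x ∈ frontier D, ψ x = 0) :
    ∫ x, U x * (la ψ x + q x * ψ x) = 0 := by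
  have hDm : MeasurableSet D := hDo.measurableSet
  have hla : SC (la ψ) := Pool.Agent.R227.SA.la_sc hψ
  have hind : ∀ x ∈ D, D.indicator ψ =ᶠ[𝓝 x] ψ := by
    intro x hx
    filter_upwards [hDo.mem_nhds hx] with y hy
    rw [indicator_of_mem hy]
  have hfc : Continuous (D.indicator ψ) :=
    continuous_indicator hψ0 hψ.cont.continuousOn
  have hfs : ContDiffOn ℝ 2 (D.indicator ψ) D := by
    intro x hx
    have h2 : ContDiff ℝ 2 ψ := by exact_mod_cast contDiff_infty.1 hψ.sm 2
    exact (h2.contDiffAt.congr_of_eventuallyEq (hind x hx)).contDiffWithinAt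
  obtain ⟨M, hM⟩ := hla.cont.bounded_above_of_compact_support hla.cs
  have hM0 : 0 ≤ M := (norm_nonneg _).trans (hM 0)
  obtain ⟨H, e0, e1, e2, e3, -⟩ := mem_V hDo hDb (f := D.indicator ψ) (k := D.indicator (la ψ)) hfc
    (fun x hx => indicator_of_notMem hx _) (hfs.of_le (by norm_num))
    (hla.cont.measurable.indicator hDm) (fun x hx => indicator_of_notMem hx _) (M := M)
    (fun x => by
      by_cases hx : x ∈ D
      · rw [indicator_of_mem hx]
        exact hM x
      · rw [indicator_of_notMem hx, abs_zero]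
        exact hM0) (by
      intro φ hφ hs
      rw [weak_of_classical hDo hfs (φ := φ) ⟨hφ.sm.of_le (by exact_mod_cast le_top), hφ.cs, hs⟩]
      congr 1
      refine integral_congr_ae (Eventually.of_forall fun x => ?_)
      change D.indicator (la (D.indicator ψ)) x * φ x = D.indicator (la ψ) x * φ x
      by_cases hx : x ∈ D
      · rw [indicator_of_mem hx, indicator_of_mem hx, la_congr (hind x hx)]
      · rw [indicator_of_notMem hx, indicator_of_notMem hx])
  obtain ⟨F, hF, f0, -, -, hFH⟩ := sp1_mem hDo hDb hq hU h0 hs hl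
  have h1 := hFH H.1 H.2
  have h2 := e3 ⟨F, hF⟩
  rw [Submodule.coe_inner] at h2
  change ⟪H.1, F⟫_ℝ = ∫ x, (D.indicator ψ x - D.indicator (la ψ) x) * (F 0) x at h2
  rw [real_inner_comm, h1] at h2
  have hcU : HasCompactSupport U := e4_cs hDb h0
  have k1 : ∫ x, (U x + q x * U x) * (H.1 0) x = ∫ x, (U x * ψ x + U x * (q x * ψ x)) := by
    refine integral_congr_ae ?_
    filter_upwards [e0] with x h
    rw [h]
    by_cases hx : x ∈ D
    · rw [indicator_of_mem hx]; ring
    · rw [h0 x hx]; ring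
  have k2 : ∫ x, (D.indicator ψ x - D.indicator (la ψ) x) * (F 0) x =
      ∫ x, (U x * ψ x - U x * la ψ x) := by
    refine integral_congr_ae ?_
    filter_upwards [f0] with x h
    rw [h]
    by_cases hx : x ∈ D
    · rw [indicator_of_mem hx, indicator_of_mem hx]; ring
    · rw [h0 x hx]; ring
  have i1 : Integrable (fun x => U x * ψ x) :=
    (hU.mul hψ.cont).integrable_of_hasCompactSupport hψ.cs.mul_left
  have i2 : Integrable (fun x => U x * (q x * ψ x)) :=
    (hU.mul (hq.mul hψ.cont)).integrable_of_hasCompactSupport (hcU.mul_right)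
  have i3 : Integrable (fun x => U x * la ψ x) :=
    (hU.mul hla.cont).integrable_of_hasCompactSupport hla.cs.mul_left
  rw [k1, k2, integral_add i1 i2, integral_sub i1 i3] at h2
  have e : (fun x => U x * (la ψ x + q x * ψ x)) = fun x => U x * la ψ x + U x * (q x * ψ x) := by
    funext x; ring
  rw [e, integral_add i3 i2]
  linarith

/-- TARGET 1 -/
theorem rect_coeff {a b c d : ℝ} (hab : a < b) (hcd : c < d) {q : ℂ → ℝ} (hq : ContDiff ℝ ∞ q)
    {U : ℂ → ℝ} (hU : Continuous U) (h0 : ∀ ζ, ζ ∉ crect a b c d → U ζ = 0)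
    (hs : ∀ ζ ∈ crect a b c d, ContDiffAt ℝ ∞ U ζ ∧ la U ζ = -(q ζ * U ζ)) (m n : ℕ) :
    ((m * Real.pi / (b - a)) ^ 2 + (n * Real.pi / (d - c)) ^ 2) * ∫ ζ, U ζ * smn a b c d m n ζ =
      ∫ ζ, q ζ * U ζ * smn a b c d m n ζ := by
  have hDo := sp1_open a b c d
  have hDb := sp1_bdd a b c d
  have hs2 : ContDiffOn ℝ 2 U (crect a b c d) := fun x hx =>
    (sp1_two (hs x hx).1).contDiffWithinAt
  have hl : ∀ ζ ∈ crect a b c d, la U ζ = -(q ζ * U ζ) := fun x hx => (hs x hx).2
  obtain ⟨χ, hχ, hχ1⟩ := Pool.Agent.TH298.Sch.exists_cut (|a| + |b| + |c| + |d| + 1)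
  have hsc : SC (fun x => χ x * smn a b c d m n x) :=
    ⟨hχ.sm.mul (sp1_smn_cd a b c d m n), hχ.cs.mul_right⟩
  have hev : ∀ x ∈ crect a b c d, (fun x => χ x * smn a b c d m n x) =ᶠ[𝓝 x] smn a b c d m n := by
    intro x hx
    filter_upwards [hDo.mem_nhds hx] with y hy
    rw [hχ1 y (by linarith [sp1_norm hy]), one_mul]
  have hg := sp1_green hDo hDb hq.continuous hU h0 hs2 hl hsc
    (fun x hx => by rw [sp1_smn_front hab hcd m n hx, mul_zero])
  have hcU : HasCompactSupport U := e4_cs hDb h0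
  have hsm : Continuous (smn a b c d m n) := (sp1_smn_cd a b c d m n).continuous
  set κ : ℝ := (m * Real.pi / (b - a)) ^ 2 + (n * Real.pi / (d - c)) ^ 2 with hκ
  have e : (fun x => U x * (la (fun x => χ x * smn a b c d m n x) x +
      q x * (χ x * smn a b c d m n x))) = fun x => q x * U x * smn a b c d m n x -
        κ * (U x * smn a b c d m n x) := by
    funext x
    by_cases hx : x ∈ crect a b c d
    · have h1 : χ x * smn a b c d m n x = smn a b c d m n x := (hev x hx).self_of_nhds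
      rw [la_congr (hev x hx), sp1_smn_la, h1, ← hκ]
      ring
    · rw [h0 x hx]; ring
  rw [e] at hg
  have i1 : Integrable (fun x => q x * U x * smn a b c d m n x) :=
    ((hq.continuous.mul hU).mul hsm).integrable_of_hasCompactSupport (hcU.mul_left.mul_right)
  have i2 : Integrable (fun x => U x * smn a b c d m n x) :=
    (hU.mul hsm).integrable_of_hasCompactSupport hcU.mul_right
  rw [integral_sub i1 (i2.const_mul κ), integral_const_mul] at hg
  linarith

lemma sp1_dd_mul {f g : ℂ → ℝ} (hf : Differentiable ℝ f) (hg : Differentiable ℝ g) (v x : ℂ) :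
    dd v (fun x => f x * g x) x = dd v f x * g x + f x * dd v g x := by
  unfold dd
  rw [fderiv_fun_mul (hf x) (hg x)]
  simp
  ring

lemma sp1_la_mul {f g : ℂ → ℝ} (hf : SC f) (hg : SC g) (x : ℂ) :
    la (fun x => f x * g x) x = la f x * g x +
      2 * (dd 1 f x * dd 1 g x + dd Complex.I f x * dd Complex.I g x) + f x * la g x := by
  have h : ∀ v, dd v (dd v (fun x => f x * g x)) x =
      dd v (dd v f) x * g x + 2 * (dd v f x * dd v g x) + f x * dd v (dd v g) x := by
    intro v
    have hf' := (Pool.Agent.TH298.Sch.dd_sc hf v).diff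
    have hg' := (Pool.Agent.TH298.Sch.dd_sc hg v).diff
    have e : dd v (fun x => f x * g x) = fun x => dd v f x * g x + f x * dd v g x :=
      funext (sp1_dd_mul hf.diff hg.diff v)
    rw [e]
    have a1 := sp1_dd_mul hf' hg.diff v x
    have a2 := sp1_dd_mul hf.diff hg' v x
    have a3 : dd v (fun x => dd v f x * g x + f x * dd v g x) x =
        dd v (fun x => dd v f x * g x) x + dd v (fun x => f x * dd v g x) x := by
      have d1 : DifferentiableAt ℝ (fun x => dd v f x * g x) x := (hf' x).mul (hg.diff x)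
      have d2 : DifferentiableAt ℝ (fun x => f x * dd v g x) x := (hf.diff x).mul (hg' x)
      change fderiv ℝ (fun x => dd v f x * g x + f x * dd v g x) x v =
        fderiv ℝ (fun x => dd v f x * g x) x v + fderiv ℝ (fun x => f x * dd v g x) x v
      rw [fderiv_fun_add d1 d2]
      rfl
    rw [a3, a1, a2]
    ring
  unfold la
  rw [h 1, h Complex.I]
  ring

/-- the coefficients of `q U` in terms of those of an `L²` function -/
lemma sp1_formula {a b c d : ℝ} (hab : a < b) (hcd : c < d) {q : ℂ → ℝ} (hq : ContDiff ℝ ∞ q)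
    {U : ℂ → ℝ} (hU : Continuous U) (h0 : ∀ ζ, ζ ∉ crect a b c d → U ζ = 0)
    (hs : ∀ ζ ∈ crect a b c d, ContDiffAt ℝ ∞ U ζ ∧ la U ζ = -(q ζ * U ζ)) :
    ∃ G : ℂ → ℝ, MemLp G 2 (volume : Measure ℂ) ∧ (∀ x, x ∉ crect a b c d → G x = 0) ∧ ∀ m n : ℕ,
      ((m * Real.pi / (b - a)) ^ 2 + (n * Real.pi / (d - c)) ^ 2) *
        ∫ ζ, q ζ * U ζ * smn a b c d m n ζ = ∫ ζ, G ζ * smn a b c d m n ζ := by
  have hDo := sp1_open a b c d
  have hDb := sp1_bdd a b c d
  have hDm := hDo.measurableSet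
  have hs2 : ContDiffOn ℝ 2 U (crect a b c d) := fun x hx =>
    (sp1_two (hs x hx).1).contDiffWithinAt
  have hl : ∀ ζ ∈ crect a b c d, la U ζ = -(q ζ * U ζ) := fun x hx => (hs x hx).2
  obtain ⟨χ, hχ, hχ1⟩ := Pool.Agent.TH298.Sch.exists_cut (|a| + |b| + |c| + |d| + 1)
  have hχQ : ∀ x ∈ crect a b c d, χ x = 1 := fun x hx => hχ1 x (by linarith [sp1_norm hx])
  have hqc : SC (fun x => χ x * q x) := ⟨hχ.sm.mul hq, hχ.cs.mul_right⟩
  set Q : ℂ → ℝ := fun x => χ x * q x with hQ
  have hQq : ∀ x ∈ crect a b c d, Q x = q x := fun x hx => by rw [hQ]; simp only []; rw [hχQ x hx, one_mul]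
  obtain ⟨F, hF, f0, f1, f2, hFH⟩ := sp1_mem hDo hDb hq.continuous hU h0 hs2 hl
  have hcU : HasCompactSupport U := e4_cs hDb h0
  have hUL : MemLp U 2 (volume : Measure ℂ) := hU.memLp_of_hasCompactSupport hcU
  have hu1 : MemLp ((crect a b c d).indicator (dd 1 U)) 2 (volume : Measure ℂ) :=
    (memLp_congr_ae f1).1 (Lp.memLp (F 1))
  have hu2 : MemLp ((crect a b c d).indicator (dd Complex.I U)) 2 (volume : Measure ℂ) :=
    (memLp_congr_ae f2).1 (Lp.memLp (F 2))
  have hbm : ∀ {f g : ℂ → ℝ}, MemLp f 2 (volume : Measure ℂ) → SC g →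
      MemLp (fun x => f x * g x) 2 (volume : Measure ℂ) := by
    intro f g hf hg
    obtain ⟨M, hM⟩ := hg.cont.bounded_above_of_compact_support hg.cs
    refine hf.of_le_mul (c := M) (hf.1.mul hg.cont.aestronglyMeasurable)
      (Eventually.of_forall fun x => ?_)
    rw [norm_mul, mul_comm]
    exact mul_le_mul_of_nonneg_right (hM x) (norm_nonneg _)
  have hq1 := Pool.Agent.TH298.Sch.dd_sc hqc 1
  have hq2 := Pool.Agent.TH298.Sch.dd_sc hqc Complex.I
  have hqla : SC (la Q) := Pool.Agent.R227.SA.la_sc hqc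
  refine ⟨fun x => U x * (Q x * Q x) - U x * la Q x -
      2 * ((crect a b c d).indicator (dd 1 U) x * dd 1 Q x +
        (crect a b c d).indicator (dd Complex.I U) x * dd Complex.I Q x), ?_, ?_, ?_⟩
  · exact ((hbm hUL (hqc.mul hqc)).sub (hbm hUL hqla)).sub
      (((hbm hu1 hq1).add (hbm hu2 hq2)).const_mul 2)
  · intro x hx
    simp only []
    rw [indicator_of_notMem hx, indicator_of_notMem hx, h0 x hx]
    ring
  · intro m n
    have hsc : SC (fun x => χ x * smn a b c d m n x) :=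
      ⟨hχ.sm.mul (sp1_smn_cd a b c d m n), hχ.cs.mul_right⟩
    have hsm : Continuous (smn a b c d m n) := (sp1_smn_cd a b c d m n).continuous
    set s : ℂ → ℝ := fun x => χ x * smn a b c d m n x with hsdef
    set κ : ℝ := (m * Real.pi / (b - a)) ^ 2 + (n * Real.pi / (d - c)) ^ 2 with hκ
    have hev : ∀ x ∈ crect a b c d, s =ᶠ[𝓝 x] smn a b c d m n := by
      intro x hx
      filter_upwards [hDo.mem_nhds hx] with y hy
      rw [hsdef]
      simp only []
      rw [hχQ y hy, one_mul]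
    have hqs : SC (fun x => Q x * s x) := hqc.mul hsc
    have hg := sp1_green hDo hDb hq.continuous hU h0 hs2 hl hqs
      (fun x hx => by
        simp only [hsdef]
        rw [sp1_smn_front hab hcd m n hx, mul_zero, mul_zero])
    have hsq1 : SC (fun x => s x * dd 1 Q x) := hsc.mul hq1
    have hsq2 : SC (fun x => s x * dd Complex.I Q x) := hsc.mul hq2
    have g1 := (V_ibp (D := crect a b c d) ⟨F, hF⟩ hsq1).1
    have g2 := (V_ibp (D := crect a b c d) ⟨F, hF⟩ hsq2).2
    change ∫ x, (F 1) x * (s x * dd 1 Q x) = - ∫ x, (F 0) x * dd 1 (fun x => s x * dd 1 Q x) x at g1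
    change ∫ x, (F 2) x * (s x * dd Complex.I Q x) =
      - ∫ x, (F 0) x * dd Complex.I (fun x => s x * dd Complex.I Q x) x at g2
    have r1 : ∫ x, (F 1) x * (s x * dd 1 Q x) =
        ∫ x, (crect a b c d).indicator (dd 1 U) x * (s x * dd 1 Q x) := by
      refine integral_congr_ae ?_
      filter_upwards [f1] with x h
      rw [h]
    have r2 : ∫ x, (F 2) x * (s x * dd Complex.I Q x) =
        ∫ x, (crect a b c d).indicator (dd Complex.I U) x * (s x * dd Complex.I Q x) := by
      refine integral_congr_ae ?_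
      filter_upwards [f2] with x h
      rw [h]
    have r0 : ∀ g : ℂ → ℝ, ∫ x, (F 0) x * g x = ∫ x, U x * g x := by
      intro g
      refine integral_congr_ae ?_
      filter_upwards [f0] with x h
      rw [h]
    rw [r1, r0] at g1
    rw [r2, r0] at g2
    have j1 : Integrable (fun x => (crect a b c d).indicator (dd 1 U) x * (s x * dd 1 Q x)) :=
      MemLp.integrable_mul hu1 (sc_memLp hsq1)
    have j2 : Integrable (fun x => (crect a b c d).indicator (dd Complex.I U) x *
        (s x * dd Complex.I Q x)) := MemLp.integrable_mul hu2 (sc_memLp hsq2)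
    have hd1 : SC (dd 1 (fun x => s x * dd 1 Q x)) := Pool.Agent.TH298.Sch.dd_sc hsq1 1
    have hd2 : SC (dd Complex.I (fun x => s x * dd Complex.I Q x)) :=
      Pool.Agent.TH298.Sch.dd_sc hsq2 Complex.I
    have j3 : Integrable (fun x => U x * dd 1 (fun x => s x * dd 1 Q x) x) :=
      MemLp.integrable_mul hUL (sc_memLp hd1)
    have j4 : Integrable (fun x => U x * dd Complex.I (fun x => s x * dd Complex.I Q x) x) :=
      MemLp.integrable_mul hUL (sc_memLp hd2)
    have hla : SC (la (fun x => Q x * s x)) := Pool.Agent.R227.SA.la_sc hqs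
    have hX : Continuous (fun x => U x * (la (fun x => Q x * s x) x + q x * (Q x * s x))) :=
      hU.mul (hla.cont.add (hq.continuous.mul hqs.cont))
    have j5 : Integrable (fun x => U x * (la (fun x => Q x * s x) x + q x * (Q x * s x))) :=
      hX.integrable_of_hasCompactSupport hcU.mul_right
    have j6 : Integrable (fun x => q x * U x * smn a b c d m n x) :=
      ((hq.continuous.mul hU).mul hsm).integrable_of_hasCompactSupport (hcU.mul_left.mul_right)
    have key : (fun x => (U x * (Q x * Q x) - U x * la Q x -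
      2 * ((crect a b c d).indicator (dd 1 U) x * dd 1 Q x +
        (crect a b c d).indicator (dd Complex.I U) x * dd Complex.I Q x)) * smn a b c d m n x) =
        fun x => κ * (q x * U x * smn a b c d m n x) +
          (U x * (la (fun x => Q x * s x) x + q x * (Q x * s x)) -
          (2 * ((crect a b c d).indicator (dd 1 U) x * (s x * dd 1 Q x) +
              U x * dd 1 (fun x => s x * dd 1 Q x) x) +
          2 * ((crect a b c d).indicator (dd Complex.I U) x * (s x * dd Complex.I Q x) +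
              U x * dd Complex.I (fun x => s x * dd Complex.I Q x) x))) := by
      funext x
      by_cases hx : x ∈ crect a b c d
      · rw [sp1_la_mul hqc hsc, sp1_dd_mul hsc.diff hq1.diff, sp1_dd_mul hsc.diff hq2.diff,
          la_congr (hev x hx), sp1_smn_la, (hev x hx).self_of_nhds, ← hQq x hx]
        rw [← hκ]
        unfold la
        ring
      · rw [indicator_of_notMem hx, indicator_of_notMem hx, h0 x hx]
        ring
    have j7 : Integrable (fun x => 2 * ((crect a b c d).indicator (dd 1 U) x * (s x * dd 1 Q x) +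
              U x * dd 1 (fun x => s x * dd 1 Q x) x)) := (j1.add j3).const_mul 2
    have j8 : Integrable (fun x => 2 * ((crect a b c d).indicator (dd Complex.I U) x *
        (s x * dd Complex.I Q x) + U x * dd Complex.I (fun x => s x * dd Complex.I Q x) x)) :=
      (j2.add j4).const_mul 2
    have j9 : Integrable (fun x => 2 * ((crect a b c d).indicator (dd 1 U) x * (s x * dd 1 Q x) +
              U x * dd 1 (fun x => s x * dd 1 Q x) x) +
          2 * ((crect a b c d).indicator (dd Complex.I U) x * (s x * dd Complex.I Q x) +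
              U x * dd Complex.I (fun x => s x * dd Complex.I Q x) x)) := j7.add j8
    have j10 : Integrable (fun x => U x * (la (fun x => Q x * s x) x + q x * (Q x * s x)) -
          (2 * ((crect a b c d).indicator (dd 1 U) x * (s x * dd 1 Q x) +
              U x * dd 1 (fun x => s x * dd 1 Q x) x) +
          2 * ((crect a b c d).indicator (dd Complex.I U) x * (s x * dd Complex.I Q x) +
              U x * dd Complex.I (fun x => s x * dd Complex.I Q x) x))) := j5.sub j9
    have : ∫ x, (U x * (Q x * Q x) - U x * la Q x -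
      2 * ((crect a b c d).indicator (dd 1 U) x * dd 1 Q x +
        (crect a b c d).indicator (dd Complex.I U) x * dd Complex.I Q x)) * smn a b c d m n x =
        κ * ∫ x, q x * U x * smn a b c d m n x := by
      rw [key, integral_add (j6.const_mul κ) j10, integral_sub j5 j9, integral_add j7 j8,
        integral_const_mul, integral_const_mul, integral_const_mul, integral_add j1 j3,
        integral_add j2 j4, hg, g1, g2]
      ring
    exact this.symm

/-- integral of a product over a rectangle -/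
lemma sp1_int_prod {a b c d : ℝ} (f g : ℝ → ℝ) :
    ∫ x, (crect a b c d).indicator (fun x : ℂ => f x.re * g x.im) x =
      (∫ s in Ioo a b, f s) * ∫ t in Ioo c d, g t := by
  have h1 : ∫ x : ℂ, (crect a b c d).indicator (fun x : ℂ => f x.re * g x.im) x =
      ∫ p : ℝ × ℝ, (crect a b c d).indicator (fun x : ℂ => f x.re * g x.im) ⟨p.1, p.2⟩ := by
    have := (Complex.volume_preserving_equiv_real_prod.symm).integral_comp'
      (fun x => (crect a b c d).indicator (fun x : ℂ => f x.re * g x.im) x)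
    rw [← this]
    rfl
  have h2 : (fun p : ℝ × ℝ => (crect a b c d).indicator (fun x : ℂ => f x.re * g x.im) ⟨p.1, p.2⟩) =
      fun p : ℝ × ℝ => (Ioo a b).indicator f p.1 * (Ioo c d).indicator g p.2 := by
    funext p
    by_cases h : (⟨p.1, p.2⟩ : ℂ) ∈ crect a b c d
    · rw [indicator_of_mem h, indicator_of_mem (show p.1 ∈ Ioo a b from ⟨h.1, h.2.1⟩),
        indicator_of_mem (show p.2 ∈ Ioo c d from ⟨h.2.2.1, h.2.2.2⟩)]
    · rw [indicator_of_notMem h]
      by_cases h1 : p.1 ∈ Ioo a b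
      · have h2 : p.2 ∉ Ioo c d := fun h2 => h ⟨h1.1, h1.2, h2.1, h2.2⟩
        rw [indicator_of_notMem h2, mul_zero]
      · rw [indicator_of_notMem h1, zero_mul]
  rw [h1, h2, Measure.volume_eq_prod, integral_prod_mul, integral_indicator measurableSet_Ioo,
    integral_indicator measurableSet_Ioo]

lemma sp1_orth1 {a b : ℝ} (hab : a < b) (m n : ℕ) (hm : 1 ≤ m) (hn : 1 ≤ n) :
    ∫ s in Ioo a b, Real.sin (m * Real.pi * (s - a) / (b - a)) *
      Real.sin (n * Real.pi * (s - a) / (b - a)) = if m = n then (b - a) / 2 else 0 := by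
  rw [← integral_Ioc_eq_integral_Ioo, ← intervalIntegral.integral_of_le hab.le,
    ← t5a_sin_orth (sub_pos.2 hab) m n hm hn]
  have := intervalIntegral.integral_comp_sub_right (a := a) (b := b) (fun s => Real.sin (Real.pi * m / (b - a) * s) *
    Real.sin (Real.pi * n / (b - a) * s)) a
  rw [sub_self] at this
  rw [← this]
  congr 1
  funext s
  congr 2 <;> ring

lemma sp1_orth {a b c d : ℝ} (hab : a < b) (hcd : c < d) (p p' : ℕ × ℕ) :
    ∫ x, (crect a b c d).indicator (fun x => smn a b c d (p.1 + 1) (p.2 + 1) x *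
      smn a b c d (p'.1 + 1) (p'.2 + 1) x) x =
      if p = p' then (b - a) / 2 * ((d - c) / 2) else 0 := by
  have e : (fun x => smn a b c d (p.1 + 1) (p.2 + 1) x * smn a b c d (p'.1 + 1) (p'.2 + 1) x) =
      fun x : ℂ => (Real.sin ((p.1 + 1 : ℕ) * Real.pi * (x.re - a) / (b - a)) *
        Real.sin ((p'.1 + 1 : ℕ) * Real.pi * (x.re - a) / (b - a))) *
        (Real.sin ((p.2 + 1 : ℕ) * Real.pi * (x.im - c) / (d - c)) *
        Real.sin ((p'.2 + 1 : ℕ) * Real.pi * (x.im - c) / (d - c))) := by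
    funext x
    unfold smn
    ring
  have h := sp1_int_prod (a := a) (b := b) (c := c) (d := d)
    (fun s => Real.sin ((p.1 + 1 : ℕ) * Real.pi * (s - a) / (b - a)) *
        Real.sin ((p'.1 + 1 : ℕ) * Real.pi * (s - a) / (b - a)))
    (fun s => Real.sin ((p.2 + 1 : ℕ) * Real.pi * (s - c) / (d - c)) *
        Real.sin ((p'.2 + 1 : ℕ) * Real.pi * (s - c) / (d - c)))
  rw [e, h, sp1_orth1 hab _ _ (by omega) (by omega), sp1_orth1 hcd _ _ (by omega) (by omega)]
  by_cases h : p = p'
  · subst h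
    simp
  · rw [if_neg h]
    by_cases h1 : p.1 = p'.1
    · have h2 : p.2 ≠ p'.2 := fun h2 => h (Prod.ext h1 h2)
      rw [if_neg (show ¬ (p.2 + 1 = p'.2 + 1) by omega), mul_zero]
    · rw [if_neg (show ¬ (p.1 + 1 = p'.1 + 1) by omega), zero_mul]

/-- TARGET 2 -/
theorem rect_sum {a b c d : ℝ} (hab : a < b) (hcd : c < d) {q : ℂ → ℝ} (hq : ContDiff ℝ ∞ q)
    {U : ℂ → ℝ} (hU : Continuous U) (h0 : ∀ ζ, ζ ∉ crect a b c d → U ζ = 0)
    (hs : ∀ ζ ∈ crect a b c d, ContDiffAt ℝ ∞ U ζ ∧ la U ζ = -(q ζ * U ζ)) :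
    Summable fun p : ℕ × ℕ => |∫ ζ, q ζ * U ζ * smn a b c d (p.1 + 1) (p.2 + 1) ζ| := by
  obtain ⟨G, hG, hG0, hf⟩ := sp1_formula hab hcd hq hU h0 hs
  have hDo := sp1_open a b c d
  have hDb := sp1_bdd a b c d
  have hDm := hDo.measurableSet
  have hba : 0 < b - a := sub_pos.2 hab
  have hdc : 0 < d - c := sub_pos.2 hcd
  set N : ℝ := (b - a) / 2 * ((d - c) / 2) with hN
  have hN0 : 0 < N := by positivity
  have hNs : √N * √N = N := Real.mul_self_sqrt hN0.le
  have hNs0 : 0 < √N := Real.sqrt_pos.2 hN0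
  -- the orthonormal family
  have hmem : ∀ p : ℕ × ℕ, MemLp ((crect a b c d).indicator
      (fun x => (√N)⁻¹ * smn a b c d (p.1 + 1) (p.2 + 1) x)) 2 (volume : Measure ℂ) := by
    intro p
    obtain ⟨χ, hχ, hχ1⟩ := Pool.Agent.TH298.Sch.exists_cut (|a| + |b| + |c| + |d| + 1)
    have hsc : SC (fun x => χ x * smn a b c d (p.1 + 1) (p.2 + 1) x) :=
      ⟨hχ.sm.mul (sp1_smn_cd a b c d _ _), hχ.cs.mul_right⟩
    have h1 := ((sc_memLp hsc).const_mul (√N)⁻¹).indicator hDm
    have h2 : (crect a b c d).indicator (fun x => (√N)⁻¹ * (χ x * smn a b c d (p.1 + 1) (p.2 + 1) x)) =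
        (crect a b c d).indicator (fun x => (√N)⁻¹ * smn a b c d (p.1 + 1) (p.2 + 1) x) := by
      funext x
      by_cases hx : x ∈ crect a b c d
      · rw [indicator_of_mem hx, indicator_of_mem hx, hχ1 x (by linarith [sp1_norm hx]), one_mul]
      · rw [indicator_of_notMem hx, indicator_of_notMem hx]
    rw [← h2]
    exact h1
  let e : ℕ × ℕ → L2 := fun p => (hmem p).toLp _
  have he : ∀ p, e p =ᵐ[volume] (crect a b c d).indicator
      (fun x => (√N)⁻¹ * smn a b c d (p.1 + 1) (p.2 + 1) x) := fun p => (hmem p).coeFn_toLp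
  have horth : Orthonormal ℝ e := by
    rw [orthonormal_iff_ite]
    intro p p'
    rw [e4_inner (he p) (he p')]
    have h1 : (fun x => (crect a b c d).indicator
        (fun x => (√N)⁻¹ * smn a b c d (p.1 + 1) (p.2 + 1) x) x * (crect a b c d).indicator
        (fun x => (√N)⁻¹ * smn a b c d (p'.1 + 1) (p'.2 + 1) x) x) =
        fun x => N⁻¹ * (crect a b c d).indicator (fun x => smn a b c d (p.1 + 1) (p.2 + 1) x *
          smn a b c d (p'.1 + 1) (p'.2 + 1) x) x := by
      funext x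
      by_cases hx : x ∈ crect a b c d
      · simp only [indicator_of_mem hx]
        have : N⁻¹ = (√N)⁻¹ * (√N)⁻¹ := by rw [← mul_inv, hNs]
        rw [this]
        ring
      · simp only [indicator_of_notMem hx]
        ring
    rw [h1, integral_const_mul, sp1_orth hab hcd]
    by_cases h : p = p'
    · rw [if_pos h, if_pos h, ← hN, inv_mul_cancel₀ hN0.ne']
    · rw [if_neg h, if_neg h, mul_zero]
  let g : L2 := hG.toLp G
  have hg : g =ᵐ[volume] G := hG.coeFn_toLp
  have hin : ∀ p, ⟪e p, g⟫_ℝ = (√N)⁻¹ * ∫ x, G x * smn a b c d (p.1 + 1) (p.2 + 1) x := by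
    intro p
    rw [e4_inner (he p) hg, ← integral_const_mul]
    refine integral_congr_ae (Eventually.of_forall fun x => ?_)
    by_cases hx : x ∈ crect a b c d
    · simp only [indicator_of_mem hx]
      ring
    · simp only [indicator_of_notMem hx, hG0 x hx]
      ring
  have hsum1 : Summable fun p : ℕ × ℕ => (∫ x, G x * smn a b c d (p.1 + 1) (p.2 + 1) x) ^ 2 := by
    have h1 := (horth.inner_products_summable g).mul_left N
    refine h1.congr (fun p => ?_)
    rw [hin p, Real.norm_eq_abs, sq_abs, mul_pow, inv_pow, Real.sq_sqrt hN0.le]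
    field_simp
  have hsum2 : Summable fun p : ℕ × ℕ => ((((p.1 + 1 : ℕ) : ℝ) ^ 2)⁻¹) * ((((p.2 + 1 : ℕ) : ℝ) ^ 2)⁻¹) := by
    have h1 : Summable fun n : ℕ => (((n + 1 : ℕ) : ℝ) ^ 2)⁻¹ :=
      (summable_nat_add_iff (f := fun n : ℕ => ((n : ℝ) ^ 2)⁻¹) 1).2 (Real.summable_nat_pow_inv.2 (by norm_num))
    exact h1.mul_of_nonneg h1 (fun n => by positivity) (fun n => by positivity)
  set C : ℝ := ((b - a) * (d - c) / (2 * Real.pi ^ 2)) ^ 2 with hC
  have hpi := Real.pi_pos
  refine Summable.of_nonneg_of_le (fun p => abs_nonneg _) (fun p => ?_)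
    ((hsum1.add (hsum2.mul_left C)).mul_left (1 / 2))
  have hfp := hf (p.1 + 1) (p.2 + 1)
  set I : ℝ := ∫ ζ, q ζ * U ζ * smn a b c d (p.1 + 1) (p.2 + 1) ζ with hI
  set J : ℝ := ∫ ζ, G ζ * smn a b c d (p.1 + 1) (p.2 + 1) ζ with hJ
  set u : ℝ := ((p.1 + 1 : ℕ) : ℝ) with hu
  set v : ℝ := ((p.2 + 1 : ℕ) : ℝ) with hv
  have hu0 : 0 < u := by rw [hu]; positivity
  have hv0 : 0 < v := by rw [hv]; positivity
  set κ : ℝ := (u * Real.pi / (b - a)) ^ 2 + (v * Real.pi / (d - c)) ^ 2 with hκ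
  have hk1 : 2 * Real.pi ^ 2 * (u * v) / ((b - a) * (d - c)) ≤ κ := by
    have h1 := two_mul_le_add_sq (u * Real.pi / (b - a)) (v * Real.pi / (d - c))
    have h2 : 2 * (u * Real.pi / (b - a)) * (v * Real.pi / (d - c)) =
        2 * Real.pi ^ 2 * (u * v) / ((b - a) * (d - c)) := by
      field_simp
    rw [h2] at h1
    exact h1
  have hk2 : 0 < 2 * Real.pi ^ 2 * (u * v) / ((b - a) * (d - c)) := by positivity
  have hκ0 : 0 < κ := lt_of_lt_of_le hk2 hk1
  have hIJ : I = J * κ⁻¹ := by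
    rw [← hfp]; field_simp
  have hk3 : κ⁻¹ ^ 2 ≤ C * ((u ^ 2)⁻¹ * (v ^ 2)⁻¹) := by
    have h1 : κ⁻¹ ≤ (2 * Real.pi ^ 2 * (u * v) / ((b - a) * (d - c)))⁻¹ := inv_anti₀ hk2 hk1
    have h2 : κ⁻¹ ^ 2 ≤ ((2 * Real.pi ^ 2 * (u * v) / ((b - a) * (d - c)))⁻¹) ^ 2 :=
      pow_le_pow_left₀ (by positivity) h1 2
    refine h2.trans (le_of_eq ?_)
    rw [hC]
    field_simp
  rw [hIJ, abs_mul]
  have h3 : |J| * |κ⁻¹| ≤ 1 / 2 * (|J| ^ 2 + |κ⁻¹| ^ 2) := by
    nlinarith [sq_nonneg (|J| - |κ⁻¹|)]
  rw [sq_abs, sq_abs] at h3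
  linarith

end Pool.Agent.Helper327_Drum
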