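import Pool.Agent.Helper327_Drum.SpDefs
import Pool.Agent.Helper327_Drum.Fin.T5a
import Pool.Agent.Helper327_Drum.Fin.AS2
import Pool.Agent.Helper327_Drum.Fin.SP1a

set_option autoImplicit false
open MeasureTheory Set Filter Topology
open scoped ContDiff InnerProductSpace

namespace Pool.Agent.Helper327_Drum

open Pool.Agent.TH298.Sch (dd SC)
open Pool.Agent.R227.SA (la Wat Dat)

/-- completeness of the products of sines -/
lemma sp1b_uniq {a b : ℝ} (ha : 0 < a) (hb : 0 < b) {f : ℂ → ℝ} (hf : Continuous f)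
    (hfb : ∀ s t : ℝ, (s = 0 ∨ s = a ∨ t = 0 ∨ t = b) → f ⟨s, t⟩ = 0)
    (hII : ∀ m n : ℕ, 1 ≤ m → 1 ≤ n → t5a_II a b f m n = 0) (x : ℂ) (hx : x ∈ rect a b) :
    f x = 0 := by
  have hf2 := t5a_cont_mk hf
  have hGf : ∀ n : ℕ, Continuous fun s : ℝ => ∫ t in (0:ℝ)..b, f ⟨s, t⟩ * Real.sin (Real.pi * n / b * t) := by
    intro n
    apply intervalIntegral.continuous_parametric_intervalIntegral_of_continuous'
    have h1 : Continuous (fun p : ℝ × ℝ => f ⟨p.1, p.2⟩ * Real.sin (Real.pi * n / b * p.2)) :=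
      hf2.mul (by fun_prop)
    exact h1
  have hG0 : ∀ n : ℕ, 1 ≤ n → ∀ s ∈ Icc (0:ℝ) a, ∫ t in (0:ℝ)..b, f ⟨s, t⟩ * Real.sin (Real.pi * n / b * t) = 0 := by
    intro n hn
    apply sine_uniq ha (hGf n)
    · have : ∀ t : ℝ, f ⟨0, t⟩ * Real.sin (Real.pi * n / b * t) = 0 := by
        intro t; rw [hfb 0 t (Or.inl rfl), zero_mul]
      simp [this]
    · have : ∀ t : ℝ, f ⟨a, t⟩ * Real.sin (Real.pi * n / b * t) = 0 := by
        intro t; rw [hfb a t (Or.inr (Or.inl rfl)), zero_mul]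
      simp [this]
    · intro m hm
      exact hII m n hm hn
  obtain ⟨x1, x2, x3, x4⟩ := hx
  have hfin : ∀ t ∈ Icc (0:ℝ) b, f ⟨x.re, t⟩ = 0 := by
    apply sine_uniq hb (hf2.comp (by fun_prop : Continuous fun t : ℝ => (x.re, t)))
    · exact hfb _ _ (Or.inr (Or.inr (Or.inl rfl)))
    · exact hfb _ _ (Or.inr (Or.inr (Or.inr rfl)))
    · intro n hn
      exact hG0 n hn x.re ⟨x1.le, x2.le⟩
  exact hfin x.im ⟨x3.le, x4.le⟩

lemma sp1b_md_abs (a b : ℝ) (m n : ℕ) (x : ℂ) : |t5a_md a b m n x| ≤ 1 := by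
  unfold t5a_md
  rw [abs_mul]
  exact mul_le_one₀ (Real.abs_sin_le_one _) (abs_nonneg _) (Real.abs_sin_le_one _)

/-- orthogonality of the modes -/
lemma sp1b_orth {a b : ℝ} (ha : 0 < a) (hb : 0 < b) (k l m n : ℕ) (hk : 1 ≤ k) (hl : 1 ≤ l)
    (hm : 1 ≤ m) (hn : 1 ≤ n) :
    ∫ x, t5a_md a b k l x * t5a_md a b m n x = if (k, l) = (m, n) then a * b / 4 else 0 := by
  rw [t5a_int_eq_II ha hb m n (t5a_md_cont a b k l) (fun x hx => t5a_md_out ha hb k l hx)]
  unfold t5a_II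
  have h1 : ∀ s ∈ uIcc (0:ℝ) a, (∫ t in (0:ℝ)..b, t5a_md a b k l ⟨s, t⟩ * Real.sin (Real.pi * n / b * t)) *
      Real.sin (Real.pi * m / a * s) =
      (if l = n then b / 2 else 0) * (Real.sin (Real.pi * k / a * s) * Real.sin (Real.pi * m / a * s)) := by
    intro s hs
    rw [uIcc_of_le ha.le] at hs
    have h2 : ∫ t in (0:ℝ)..b, t5a_md a b k l ⟨s, t⟩ * Real.sin (Real.pi * n / b * t) =
        ∫ t in (0:ℝ)..b, Real.sin (Real.pi * k / a * s) *
          (Real.sin (Real.pi * l / b * t) * Real.sin (Real.pi * n / b * t)) := by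
      apply intervalIntegral.integral_congr
      intro t ht
      rw [uIcc_of_le hb.le] at ht
      show t5a_md a b k l ⟨s, t⟩ * Real.sin (Real.pi * n / b * t) = _
      unfold t5a_md
      rw [t5a_cl_in (a := a) hs.1 hs.2, t5a_cl_in (a := b) ht.1 ht.2]
      ring
    rw [h2, intervalIntegral.integral_const_mul, t5a_sin_orth hb l n hl hn]
    ring
  rw [intervalIntegral.integral_congr h1, intervalIntegral.integral_const_mul,
    t5a_sin_orth ha k m hk hm]
  by_cases h3 : k = m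
  · by_cases h4 : l = n
    · rw [if_pos h3, if_pos h4, if_pos (by rw [h3, h4])]; ring
    · rw [if_neg h4, zero_mul, if_neg (by simp [h3, h4])]
  · rw [if_neg h3, mul_zero, if_neg (by simp [h3])]

/-- the series of modes with summable coefficients is continuous and vanishes outside -/
lemma sp1b_series {a b : ℝ} (ha : 0 < a) (hb : 0 < b) {v : ℕ × ℕ → ℝ} (hv : Summable fun p => |v p|) :
    Continuous (fun x => ∑' p : ℕ × ℕ, v p * t5a_md a b (p.1 + 1) (p.2 + 1) x) ∧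
    ∀ x ∉ rect a b, ∑' p : ℕ × ℕ, v p * t5a_md a b (p.1 + 1) (p.2 + 1) x = 0 := by
  constructor
  · refine continuous_tsum (fun p => continuous_const.mul (t5a_md_cont a b _ _)) hv fun p x => ?_
    rw [Real.norm_eq_abs, abs_mul]
    exact mul_le_of_le_one_right (abs_nonneg _) (sp1b_md_abs a b _ _ x)
  · intro x hx
    simp [t5a_md_out ha hb _ _ hx]

lemma sp1b_int_series {a b : ℝ} (ha : 0 < a) (hb : 0 < b) {v : ℕ × ℕ → ℝ} (hv : Summable fun p => |v p|)
    (m n : ℕ) :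
    ∫ x, (∑' p : ℕ × ℕ, v p * t5a_md a b (p.1 + 1) (p.2 + 1) x) * t5a_md a b (m + 1) (n + 1) x =
      v (m, n) * (a * b / 4) := by
  classical
  set M : ℂ → ℝ := t5a_md a b (m + 1) (n + 1) with hM
  have hcs : ∀ k l : ℕ, HasCompactSupport (fun x => t5a_md a b k l x * M x) := by
    intro k l
    refine HasCompactSupport.intro (t5a_rect_bdd a b).isCompact_closure ?_
    intro x hx
    rw [t5a_md_out ha hb k l (fun h => hx (subset_closure h)), zero_mul]
  have hint : ∀ k l : ℕ, Integrable (fun x => t5a_md a b k l x * M x) := fun k l =>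
    ((t5a_md_cont a b k l).mul (t5a_md_cont a b _ _)).integrable_of_hasCompactSupport (hcs k l)
  have hI : Integrable (fun x => |M x|) := by
    refine Integrable.abs ?_
    refine (t5a_md_cont a b _ _).integrable_of_hasCompactSupport ?_
    refine HasCompactSupport.intro (t5a_rect_bdd a b).isCompact_closure ?_
    intro x hx
    exact t5a_md_out ha hb _ _ (fun h => hx (subset_closure h))
  have key := hasSum_integral_of_summable_integral_norm
    (F := fun (p : ℕ × ℕ) x => v p * (t5a_md a b (p.1 + 1) (p.2 + 1) x * M x)) (μ := volume)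
    (fun p => (hint _ _).const_mul _) ?_
  · have e1 : ∀ x, (∑' p : ℕ × ℕ, v p * t5a_md a b (p.1 + 1) (p.2 + 1) x) * M x =
        ∑' p : ℕ × ℕ, v p * (t5a_md a b (p.1 + 1) (p.2 + 1) x * M x) := by
      intro x
      rw [← tsum_mul_right]
      congr 1
      funext p
      ring
    simp_rw [e1]
    rw [← key.tsum_eq]
    have e2 : ∀ p : ℕ × ℕ, ∫ x, v p * (t5a_md a b (p.1 + 1) (p.2 + 1) x * M x) =
        if p = (m, n) then v (m, n) * (a * b / 4) else 0 := by
      intro p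
      rw [integral_const_mul, hM, sp1b_orth ha hb _ _ _ _ (by omega) (by omega) (by omega) (by omega)]
      by_cases hp : p = (m, n)
      · rw [if_pos hp, if_pos (by rw [hp]), hp]
      · rw [if_neg hp, if_neg, mul_zero]
        intro h
        apply hp
        have h1 := (Prod.mk.inj h).1
        have h2 := (Prod.mk.inj h).2
        exact Prod.ext (by simpa using h1) (by simpa using h2)
    simp_rw [e2]
    exact tsum_ite_eq _ _
  · refine Summable.of_nonneg_of_le (fun p => integral_nonneg fun x => norm_nonneg _) (fun p => ?_)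
      (hv.mul_right (∫ x, |M x|))
    rw [← integral_const_mul]
    refine integral_mono ((hint _ _).const_mul _).norm (hI.const_mul _) fun x => ?_
    show ‖v p * (t5a_md a b (p.1 + 1) (p.2 + 1) x * M x)‖ ≤ |v p| * |M x|
    rw [Real.norm_eq_abs, abs_mul, abs_mul]
    refine mul_le_mul_of_nonneg_left ?_ (abs_nonneg _)
    exact mul_le_of_le_one_left (abs_nonneg _) (sp1b_md_abs a b _ _ x)

/-- expansion of a continuous function which vanishes outside of the rectangle -/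
lemma sp1b_expand {a b : ℝ} (ha : 0 < a) (hb : 0 < b) {V : ℂ → ℝ} (hV : Continuous V)
    (h0 : ∀ x, x ∉ rect a b → V x = 0)
    (hs : Summable fun p : ℕ × ℕ => |∫ x, V x * t5a_md a b (p.1 + 1) (p.2 + 1) x|) (x : ℂ) :
    V x = ∑' p : ℕ × ℕ, (4 / (a * b) * ∫ x, V x * t5a_md a b (p.1 + 1) (p.2 + 1) x) *
      t5a_md a b (p.1 + 1) (p.2 + 1) x := by
  set v : ℕ × ℕ → ℝ := fun p => 4 / (a * b) * ∫ x, V x * t5a_md a b (p.1 + 1) (p.2 + 1) x with hv
  have hvs : Summable fun p => |v p| := by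
    simp only [hv, abs_mul]
    exact hs.mul_left _
  obtain ⟨hc, hz⟩ := sp1b_series ha hb hvs
  set S : ℂ → ℝ := fun x => ∑' p : ℕ × ℕ, v p * t5a_md a b (p.1 + 1) (p.2 + 1) x with hS
  have hz' : ∀ x ∉ rect a b, S x = 0 := hz
  by_cases hx : x ∈ rect a b
  · have h := sp1b_uniq ha hb (f := fun x => V x - S x) (hV.sub hc) ?_ ?_ x hx
    · have : V x - S x = 0 := h
      linarith
    · intro s t hst
      have hn : (⟨s, t⟩ : ℂ) ∉ rect a b := by
        rintro ⟨g1, g2, g3, g4⟩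
        simp only at g1 g2 g3 g4
        rcases hst with h | h | h | h <;> linarith
      show V ⟨s, t⟩ - S ⟨s, t⟩ = 0
      rw [h0 _ hn, hz' _ hn, sub_zero]
    · intro m n hm hn
      obtain ⟨m, rfl⟩ : ∃ m', m = m' + 1 := ⟨m - 1, by omega⟩
      obtain ⟨n, rfl⟩ : ∃ n', n = n' + 1 := ⟨n - 1, by omega⟩
      have e0 := t5a_int_eq_II ha hb (m + 1) (n + 1) (f := fun x => V x - S x) (hV.sub hc) (fun x hx => by
        show V x - S x = 0
        rw [h0 _ hx, hz' _ hx, sub_zero])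
      rw [← e0]
      have hi : ∀ W : ℂ → ℝ, Continuous W → Integrable (fun x => W x * t5a_md a b (m + 1) (n + 1) x) := by
        intro W hW
        refine (hW.mul (t5a_md_cont a b _ _)).integrable_of_hasCompactSupport ?_
        refine HasCompactSupport.intro (t5a_rect_bdd a b).isCompact_closure ?_
        intro x hx
        show W x * t5a_md a b (m + 1) (n + 1) x = 0
        rw [t5a_md_out ha hb _ _ (fun h => hx (subset_closure h)), mul_zero]
      simp_rw [sub_mul]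
      rw [integral_sub (hi V hV) (hi S hc)]
      have h1 := sp1b_int_series ha hb hvs m n
      have h2 : ∫ x, S x * t5a_md a b (m + 1) (n + 1) x = v (m, n) * (a * b / 4) := h1
      rw [h2, hv]
      field_simp
      ring
  · rw [h0 x hx]
    exact (hz x hx).symm

lemma sp1b_line {f : ℂ → ℝ} {x : ℂ} (hf : DifferentiableAt ℝ f x) :
    HasDerivAt (fun s : ℝ => f ⟨s, x.im⟩) (dd 1 f x) x.re := by
  have h1 : HasDerivAt (fun s : ℝ => (⟨s, x.im⟩ : ℂ)) 1 x.re := by
    have h2 : (fun s : ℝ => (⟨s, x.im⟩ : ℂ)) = fun s : ℝ => (s : ℂ) + x.im * Complex.I := by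
      funext s
      exact Complex.mk_eq_add_mul_I s x.im
    rw [h2]
    exact (Complex.ofRealCLM.hasDerivAt (x := x.re)).add_const _
  have h3 : HasFDerivAt f (fderiv ℝ f x) (⟨x.re, x.im⟩ : ℂ) := hf.hasFDerivAt
  exact h3.comp_hasDerivAt x.re h1

lemma sp1b_near {a b : ℝ} {x : ℂ} (hx : x ∈ rect a b) :
    ∀ᶠ s : ℝ in 𝓝 x.re, (⟨s, x.im⟩ : ℂ) ∈ rect a b := by
  obtain ⟨h1, h2, h3, h4⟩ := hx
  filter_upwards [Ioo_mem_nhds h1 h2] with s hs
  exact ⟨hs.1, hs.2, h3, h4⟩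

/-- differentiating the series twice in the horizontal direction -/
lemma sp1b_deriv {a b : ℝ} (ha : 0 < a) {V : ℂ → ℝ} {v : ℕ × ℕ → ℝ}
    (hv2 : Summable fun p : ℕ × ℕ => (Real.pi * ((p.1 + 1 : ℕ) : ℝ) / a) ^ 2 * |v p|)
    (hV : ∀ x ∈ rect a b, V x = ∑' p : ℕ × ℕ, v p * t5a_md a b (p.1 + 1) (p.2 + 1) x)
    (hsm : ∀ x ∈ rect a b, ContDiffAt ℝ ∞ V x) (x : ℂ) (hx : x ∈ rect a b) :
    dd 1 (dd 1 V) x = ∑' p : ℕ × ℕ, (-((Real.pi * ((p.1 + 1 : ℕ) : ℝ) / a) ^ 2 * v p)) *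
      t5a_md a b (p.1 + 1) (p.2 + 1) x := by
  have hpi := Real.pi_pos
  set α : ℕ × ℕ → ℝ := fun p => Real.pi * ((p.1 + 1 : ℕ) : ℝ) / a with hα
  have hαpos : ∀ p, Real.pi / a ≤ α p := by
    intro p
    simp only [hα]
    refine div_le_div_of_nonneg_right ?_ ha.le
    have : (1 : ℝ) ≤ ((p.1 + 1 : ℕ) : ℝ) := by push_cast; linarith [(Nat.cast_nonneg p.1 : (0 : ℝ) ≤ p.1)]
    nlinarith
  have hc0 : 0 < Real.pi / a := by positivity
  have hα0 : ∀ p, 0 < α p := fun p => lt_of_lt_of_le hc0 (hαpos p)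
  have hv1 : Summable fun p => α p * |v p| := by
    refine Summable.of_nonneg_of_le (fun p => mul_nonneg (hα0 p).le (abs_nonneg _)) (fun p => ?_)
      (hv2.mul_left (Real.pi / a)⁻¹)
    have h1 : α p ≤ (Real.pi / a)⁻¹ * α p ^ 2 := by
      rw [inv_mul_eq_div, le_div_iff₀ hc0]
      nlinarith [hαpos p, hα0 p]
    calc α p * |v p| ≤ ((Real.pi / a)⁻¹ * α p ^ 2) * |v p| := mul_le_mul_of_nonneg_right h1 (abs_nonneg _)
      _ = _ := by ring
  have hv0 : Summable fun p => |v p| := by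
    refine Summable.of_nonneg_of_le (fun p => abs_nonneg _) (fun p => ?_) (hv1.mul_left (Real.pi / a)⁻¹)
    have h1 : 1 ≤ (Real.pi / a)⁻¹ * α p := by
      rw [inv_mul_eq_div, le_div_iff₀ hc0, one_mul]
      exact hαpos p
    calc |v p| ≤ ((Real.pi / a)⁻¹ * α p) * |v p| := le_mul_of_one_le_left (abs_nonneg _) h1
      _ = _ := by ring
  -- the second factor
  let A : ℕ × ℕ → ℝ → ℝ := fun p t => Real.sin (Real.pi * ((p.2 + 1 : ℕ) : ℝ) / b * t)
  have hA : ∀ p t, |A p t| ≤ 1 := fun p t => Real.abs_sin_le_one _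
  have hmd : ∀ y ∈ rect a b, ∀ p : ℕ × ℕ, t5a_md a b (p.1 + 1) (p.2 + 1) y =
      Real.sin (α p * y.re) * A p y.im := by
    intro y hy p
    rw [t5a_md_in _ _ hy]
  have hb1 : ∀ (p : ℕ × ℕ) (t s : ℝ), ‖v p * (α p * Real.cos (α p * s) * A p t)‖ ≤ α p * |v p| := by
    intro p t s
    rw [Real.norm_eq_abs, abs_mul, abs_mul, abs_mul, abs_of_pos (hα0 p)]
    have h1 : |Real.cos (α p * s)| * |A p t| ≤ 1 :=
      mul_le_one₀ (Real.abs_cos_le_one _) (abs_nonneg _) (hA p t)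
    calc |v p| * (α p * |Real.cos (α p * s)| * |A p t|) =
        (α p * |v p|) * (|Real.cos (α p * s)| * |A p t|) := by ring
      _ ≤ (α p * |v p|) * 1 := mul_le_mul_of_nonneg_left h1 (mul_nonneg (hα0 p).le (abs_nonneg _))
      _ = _ := mul_one _
  have hb2 : ∀ (p : ℕ × ℕ) (t s : ℝ), ‖v p * (-(α p ^ 2 * Real.sin (α p * s)) * A p t)‖ ≤ α p ^ 2 * |v p| := by
    intro p t s
    rw [Real.norm_eq_abs, abs_mul, abs_mul, abs_neg, abs_mul, abs_of_nonneg (sq_nonneg (α p))]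
    have h1 : |Real.sin (α p * s)| * |A p t| ≤ 1 :=
      mul_le_one₀ (Real.abs_sin_le_one _) (abs_nonneg _) (hA p t)
    calc |v p| * (α p ^ 2 * |Real.sin (α p * s)| * |A p t|) =
        (α p ^ 2 * |v p|) * (|Real.sin (α p * s)| * |A p t|) := by ring
      _ ≤ (α p ^ 2 * |v p|) * 1 := mul_le_mul_of_nonneg_left h1 (mul_nonneg (sq_nonneg _) (abs_nonneg _))
      _ = _ := mul_one _
  have hS0 : ∀ t s : ℝ, HasDerivAt (fun s => ∑' p : ℕ × ℕ, v p * (Real.sin (α p * s) * A p t))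
      (∑' p : ℕ × ℕ, v p * (α p * Real.cos (α p * s) * A p t)) s := by
    intro t s
    refine hasDerivAt_tsum (u := fun p => α p * |v p|) hv1 (fun p y => ?_) (fun p y => hb1 p t y)
      (y₀ := 0) ?_ s
    · exact (((t5a_hd_sin (α p) y).mul_const (A p t)).const_mul (v p))
    · simp
  have hS1 : ∀ t s : ℝ, HasDerivAt (fun s => ∑' p : ℕ × ℕ, v p * (α p * Real.cos (α p * s) * A p t))
      (∑' p : ℕ × ℕ, v p * (-(α p ^ 2 * Real.sin (α p * s)) * A p t)) s := by
    intro t s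
    refine hasDerivAt_tsum (u := fun p => α p ^ 2 * |v p|) hv2 (fun p y => ?_) (fun p y => hb2 p t y)
      (y₀ := 0) ?_ s
    · exact (((t5a_hd_cos (α p) y).mul_const (A p t)).const_mul (v p))
    · exact Summable.of_norm_bounded hv1 fun p => hb1 p t 0
  have hd1 : ∀ y ∈ rect a b, dd 1 V y = ∑' p : ℕ × ℕ, v p * (α p * Real.cos (α p * y.re) * A p y.im) := by
    intro y hy
    have h1 := sp1b_line ((hsm y hy).differentiableAt (by simp))
    have h2 : (fun s : ℝ => V ⟨s, y.im⟩) =ᶠ[𝓝 y.re]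
        fun s => ∑' p : ℕ × ℕ, v p * (Real.sin (α p * s) * A p y.im) := by
      filter_upwards [sp1b_near hy] with s hs
      rw [hV _ hs]
      congr 1
      funext p
      rw [hmd _ hs p]
    exact h1.unique ((hS0 y.im y.re).congr_of_eventuallyEq h2)
  have hdiff : DifferentiableAt ℝ (dd 1 V) x := by
    have h1 : ContDiffAt ℝ ∞ (fderiv ℝ V) x := (hsm x hx).fderiv_right (m := ∞) (by exact le_rfl)
    have h2 : ContDiffAt ℝ ∞ (fun y => fderiv ℝ V y 1) x := h1.clm_apply contDiffAt_const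
    exact h2.differentiableAt (by simp)
  have h1 := sp1b_line hdiff
  have h2 : (fun s : ℝ => dd 1 V ⟨s, x.im⟩) =ᶠ[𝓝 x.re]
      fun s => ∑' p : ℕ × ℕ, v p * (α p * Real.cos (α p * s) * A p x.im) := by
    filter_upwards [sp1b_near hx] with s hs
    exact hd1 _ hs
  rw [h1.unique ((hS1 x.im x.re).congr_of_eventuallyEq h2)]
  congr 1
  funext p
  rw [hmd _ hx p]
  ring

lemma sp1b_mem {a b c d : ℝ} (x : ℂ) : x + ⟨a, c⟩ ∈ crect a b c d ↔ x ∈ rect (b - a) (d - c) := by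
  unfold crect rect
  simp only [Set.mem_ofPred_eq, Complex.add_re, Complex.add_im]
  constructor
  · rintro ⟨h1, h2, h3, h4⟩
    exact ⟨by linarith, by linarith, by linarith, by linarith⟩
  · rintro ⟨h1, h2, h3, h4⟩
    exact ⟨by linarith, by linarith, by linarith, by linarith⟩

lemma sp1b_shift {a b c d : ℝ} {U : ℂ → ℝ} (h0 : ∀ ζ, ζ ∉ crect a b c d → U ζ = 0) (m n : ℕ) :
    ∫ x, U (x + ⟨a, c⟩) * t5a_md (b - a) (d - c) m n x = ∫ ζ, U ζ * smn a b c d m n ζ := by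
  rw [← integral_add_right_eq_self (fun ζ => U ζ * smn a b c d m n ζ) (⟨a, c⟩ : ℂ)]
  congr 1
  funext x
  by_cases hx : x ∈ rect (b - a) (d - c)
  · rw [t5a_md_in _ _ hx]
    unfold smn
    congr 2
    · congr 1
      simp only [Complex.add_re]
      ring
    · congr 1
      simp only [Complex.add_im]
      ring
  · rw [h0 _ (fun h => hx ((sp1b_mem x).1 h)), zero_mul, zero_mul]

/-- TARGET: regularity up to the boundary of a rectangle. -/
theorem rect_reg {a b c d : ℝ} (hab : a < b) (hcd : c < d) {q : ℂ → ℝ} (hq : ContDiff ℝ ∞ q)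
    {U : ℂ → ℝ} (hU : Continuous U) (h0 : ∀ ζ, ζ ∉ crect a b c d → U ζ = 0)
    (hs : ∀ ζ ∈ crect a b c d, ContDiffAt ℝ ∞ U ζ ∧ la U ζ = -(q ζ * U ζ)) :
    Continuous ((crect a b c d).indicator (dd 1 (dd 1 U))) := by
  have hpi := Real.pi_pos
  have hw : 0 < b - a := by linarith
  have hh : 0 < d - c := by linarith
  set z : ℂ := ⟨a, c⟩ with hz
  let V : ℂ → ℝ := fun x => U (x + z)
  have hVc : Continuous V := hU.comp (by fun_prop)
  have hV0 : ∀ x, x ∉ rect (b - a) (d - c) → V x = 0 := fun x hx =>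
    h0 _ (fun h => hx ((sp1b_mem x).1 h))
  have hVs : ∀ x ∈ rect (b - a) (d - c), ContDiffAt ℝ ∞ V x := by
    intro x hx
    have h1 : ContDiffAt ℝ ∞ U (x + z) := (hs _ ((sp1b_mem x).2 hx)).1
    exact h1.comp x (by fun_prop)
  -- the coefficients
  set k : ℕ × ℕ → ℝ := fun p => ∫ x, V x * t5a_md (b - a) (d - c) (p.1 + 1) (p.2 + 1) x with hk
  have hF := rect_sum hab hcd hq hU h0 hs
  set F : ℕ × ℕ → ℝ := fun p => ∫ ζ, q ζ * U ζ * smn a b c d (p.1 + 1) (p.2 + 1) ζ with hFd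
  set α : ℕ × ℕ → ℝ := fun p => Real.pi * ((p.1 + 1 : ℕ) : ℝ) / (b - a) with hα
  have hkF : ∀ p, α p ^ 2 * |k p| ≤ |F p| := by
    intro p
    have h1 := rect_coeff hab hcd hq hU h0 hs (p.1 + 1) (p.2 + 1)
    have h2 : k p = ∫ ζ, U ζ * smn a b c d (p.1 + 1) (p.2 + 1) ζ := sp1b_shift h0 _ _
    rw [← h2] at h1
    have h3 : F p = (α p ^ 2 + (((p.2 + 1 : ℕ) : ℝ) * Real.pi / (d - c)) ^ 2) * k p := by
      rw [hFd]
      simp only
      rw [← h1, hα]
      simp only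
      rw [mul_comm Real.pi]
    have hnn : 0 ≤ α p ^ 2 + (((p.2 + 1 : ℕ) : ℝ) * Real.pi / (d - c)) ^ 2 := by positivity
    rw [h3, abs_mul, abs_of_nonneg hnn]
    refine mul_le_mul_of_nonneg_right ?_ (abs_nonneg _)
    have := sq_nonneg (((p.2 + 1 : ℕ) : ℝ) * Real.pi / (d - c))
    linarith
  have hk2 : Summable fun p => α p ^ 2 * |k p| :=
    Summable.of_nonneg_of_le (fun p => by positivity) hkF hF
  have hc0 : 0 < Real.pi / (b - a) := by positivity
  have hαpos : ∀ p, Real.pi / (b - a) ≤ α p := by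
    intro p
    simp only [hα]
    refine div_le_div_of_nonneg_right ?_ hw.le
    have : (1 : ℝ) ≤ ((p.1 + 1 : ℕ) : ℝ) := by push_cast; linarith [(Nat.cast_nonneg p.1 : (0 : ℝ) ≤ p.1)]
    nlinarith
  have hk0 : Summable fun p => |k p| := by
    refine Summable.of_nonneg_of_le (fun p => abs_nonneg _) (fun p => ?_)
      (hk2.mul_left ((Real.pi / (b - a)) ^ 2)⁻¹)
    have h1 : 1 ≤ ((Real.pi / (b - a)) ^ 2)⁻¹ * α p ^ 2 := by
      rw [inv_mul_eq_div, le_div_iff₀ (by positivity), one_mul]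
      exact pow_le_pow_left₀ hc0.le (hαpos p) 2
    calc |k p| ≤ (((Real.pi / (b - a)) ^ 2)⁻¹ * α p ^ 2) * |k p| :=
        le_mul_of_one_le_left (abs_nonneg _) h1
      _ = _ := by ring
  have hexp := sp1b_expand hw hh hVc hV0 hk0
  set v : ℕ × ℕ → ℝ := fun p => 4 / ((b - a) * (d - c)) * k p with hv
  have hv2 : Summable fun p : ℕ × ℕ => α p ^ 2 * |v p| := by
    refine (hk2.mul_left |4 / ((b - a) * (d - c))|).congr fun p => ?_
    simp only [hv, abs_mul]
    ring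
  have hder := sp1b_deriv hw hv2 (fun x _ => hexp x) hVs
  have hv3 : Summable fun p : ℕ × ℕ => |-(α p ^ 2 * v p)| := by
    refine hv2.congr fun p => ?_
    rw [abs_neg, abs_mul (α p ^ 2) (v p), abs_of_nonneg (sq_nonneg (α p))]
  obtain ⟨hG, hGz⟩ := sp1b_series hw hh hv3
  have htr : ∀ ζ, dd 1 (dd 1 U) ζ = dd 1 (dd 1 V) (ζ - z) := by
    intro ζ
    have e1 : ∀ (φ : ℂ → ℝ), dd 1 (fun y => φ (y + z)) = fun y => dd 1 φ (y + z) := by
      intro φ
      funext y
      unfold dd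
      rw [fderiv_comp_add_right]
    show dd 1 (dd 1 U) ζ = dd 1 (dd 1 (fun x => U (x + z))) (ζ - z)
    rw [e1 U, e1]
    show dd 1 (dd 1 U) ζ = dd 1 (dd 1 U) (ζ - z + z)
    rw [sub_add_cancel]
  have hfin : (crect a b c d).indicator (dd 1 (dd 1 U)) = fun ζ =>
      ∑' p : ℕ × ℕ, (-(α p ^ 2 * v p)) * t5a_md (b - a) (d - c) (p.1 + 1) (p.2 + 1) (ζ - z) := by
    funext ζ
    have hmem : ζ ∈ crect a b c d ↔ ζ - z ∈ rect (b - a) (d - c) := by
      rw [← sp1b_mem (ζ - z), sub_add_cancel]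
    by_cases hζ : ζ ∈ crect a b c d
    · rw [indicator_of_mem hζ, htr, hder _ (hmem.1 hζ)]
    · rw [indicator_of_notMem hζ]
      exact (hGz _ (fun h => hζ (hmem.2 h))).symm
  rw [hfin]
  exact hG.comp (by fun_prop : Continuous fun ζ : ℂ => ζ - z)

end Pool.Agent.Helper327_Drum
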