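import Pool.Agent.Helper327_Drum.SpDefs
import Pool.Agent.R227.SA10
import Pool.Agent.Helper327_Drum.Fin.SP1b

set_option autoImplicit false
open MeasureTheory Set Filter Topology
open scoped ContDiff InnerProductSpace

namespace Pool.Agent.Helper327_Drum

open Pool.Agent.TH298.Sch (dd SC)
open Pool.Agent.R227.SA (la Wat)

open Complex in
/-- (Copied from the starting file `Helper469/Univalent.lean`.) A holomorphic injective function on an open set has non-vanishing derivative. -/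
theorem sp2_deriv_ne_zero {f : ℂ → ℂ} {U : Set ℂ} (hU : IsOpen U) (hf : DifferentiableOn ℂ f U)
    (hinj : Set.InjOn f U) {z₀ : ℂ} (hz : z₀ ∈ U) : deriv f z₀ ≠ 0 := by
  intro h0
  have hfa : AnalyticAt ℂ f z₀ := hf.analyticAt (hU.mem_nhds hz)
  have hFa : AnalyticAt ℂ (fun z => f z - f z₀) z₀ := hfa.sub analyticAt_const
  have hne : ¬ ∀ᶠ z in 𝓝 z₀, f z - f z₀ = 0 := by
    intro h
    have h1 : ∀ᶠ z in 𝓝[≠] z₀, f z - f z₀ = 0 ∧ z ∈ U ∧ z ≠ z₀ := by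
      filter_upwards [h.filter_mono nhdsWithin_le_nhds,
        (hU.mem_nhds hz |> fun h => mem_nhdsWithin_of_mem_nhds h),
        self_mem_nhdsWithin] with z h1 h2 h3
      exact ⟨h1, h2, h3⟩
    obtain ⟨z, hz1, hz2, hz3⟩ := h1.exists
    exact hz3 (hinj hz2 hz (sub_eq_zero.mp hz1))
  obtain ⟨n, g, hga, hg0, hgeq⟩ := hFa.exists_eventuallyEq_pow_smul_nonzero_iff.mpr hne
  have hn0 : n ≠ 0 := by
    rintro rfl
    have := hgeq.self_of_nhds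
    simp at this
    exact hg0 this.symm
  have hn1 : n ≠ 1 := by
    rintro rfl
    have h1 : HasDerivAt (fun z => (z - z₀) ^ 1 • g z) (g z₀) z₀ := by
      have h2 := ((hasDerivAt_id z₀).sub_const z₀).mul hga.differentiableAt.hasDerivAt
      simpa using! h2
    have h3 : HasDerivAt (fun z => f z - f z₀) (g z₀) z₀ := h1.congr_of_eventuallyEq hgeq
    have h4 : HasDerivAt f (g z₀) z₀ := by simpa using h3.add_const (f z₀)
    rw [h4.deriv] at h0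
    exact hg0 h0
  obtain ⟨c, hc⟩ := IsAlgClosed.exists_pow_nat_eq (g z₀) (Nat.pos_of_ne_zero hn0)
  have hc0 : c ≠ 0 := by
    rintro rfl
    rw [zero_pow hn0] at hc
    exact hg0 hc.symm
  set h : ℂ → ℂ := fun z => c * (g z / g z₀) ^ (1 / (n : ℂ)) with hh
  have hslit : g z₀ / g z₀ ∈ Complex.slitPlane := by rw [div_self hg0]; exact Complex.one_mem_slitPlane
  have hha : AnalyticAt ℂ h z₀ := by
    apply analyticAt_const.mul
    exact (hga.div analyticAt_const hg0).cpow analyticAt_const hslit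
  have hnC : (n : ℂ) ≠ 0 := by exact_mod_cast hn0
  have hhn : ∀ z, h z ^ n = g z := by
    intro z
    rw [hh]
    simp only
    rw [mul_pow, hc, ← Complex.cpow_mul_nat]
    rw [one_div, inv_mul_cancel₀ hnC, Complex.cpow_one]
    field_simp
  have hh0 : h z₀ = c := by
    rw [hh]; simp [div_self hg0]
  set φ : ℂ → ℂ := fun z => (z - z₀) * h z with hφ
  have hφd : HasStrictDerivAt φ c z₀ := by
    have h1 : HasStrictDerivAt h (deriv h z₀) z₀ := hha.hasStrictDerivAt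
    have h2 : HasStrictDerivAt (fun z : ℂ => z - z₀) 1 z₀ := (hasStrictDerivAt_id z₀).sub_const z₀
    have h3 := h2.mul h1
    rw [← hh0]
    simpa using! h3
  have hmap : map φ (𝓝 z₀) = 𝓝 0 := by
    have := hφd.map_nhds_eq hc0
    rw [this]
    congr 1
    rw [hφ]; simp
  have hV : ∀ᶠ z in 𝓝 z₀, z ∈ U ∧ f z - f z₀ = φ z ^ n := by
    filter_upwards [hU.mem_nhds hz, hgeq] with z h1 h2
    refine ⟨h1, ?_⟩
    rw [h2, hφ]
    simp only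
    rw [mul_pow, hhn, smul_eq_mul]
  obtain ⟨V, hVm, hV2⟩ := hV.exists_mem
  have himg : φ '' V ∈ 𝓝 (0 : ℂ) := by
    rw [← hmap]
    exact image_mem_map hVm
  set ζ : ℂ := Complex.exp (2 * Real.pi * I / n) with hζ
  have hprim : IsPrimitiveRoot ζ n := Complex.isPrimitiveRoot_exp n hn0
  have hζ1 : ζ ≠ 1 := hprim.ne_one (by omega)
  have hζn : ζ ^ n = 1 := hprim.pow_eq_one
  have hcont : Tendsto (fun w : ℂ => ζ * w) (𝓝 0) (𝓝 0) := by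
    have : Continuous (fun w : ℂ => ζ * w) := by fun_prop
    simpa using this.tendsto 0
  have hboth : ∀ᶠ w in 𝓝[≠] (0 : ℂ), w ∈ φ '' V ∧ ζ * w ∈ φ '' V ∧ w ≠ 0 := by
    filter_upwards [mem_nhdsWithin_of_mem_nhds himg, mem_nhdsWithin_of_mem_nhds (hcont himg),
      self_mem_nhdsWithin] with w h1 h2 h3
    exact ⟨h1, h2, h3⟩
  obtain ⟨w, ⟨z1, hz1, hw1⟩, ⟨z2, hz2, hw2⟩, hw0⟩ := hboth.exists
  have e1 := (hV2 z1 hz1).2
  have e2 := (hV2 z2 hz2).2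
  rw [hw1] at e1
  rw [hw2, mul_pow, hζn, one_mul] at e2
  have e3 : f z1 = f z2 := by
    have : f z1 - f z₀ = f z2 - f z₀ := by rw [e1, e2]
    linear_combination this
  have e4 := hinj (hV2 z1 hz1).1 (hV2 z2 hz2).1 e3
  rw [← e4, hw1] at hw2
  apply hζ1
  have : (ζ - 1) * w = 0 := by linear_combination -hw2
  rcases mul_eq_zero.mp this with h1 | h1
  · linear_combination h1
  · exact absurd h1 hw0

/-! ### Smooth functions on an open set -/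

/-- smooth at the points of `Q` -/
def sp2Sm (Q : Set ℂ) (f : ℂ → ℝ) : Prop := ∀ ζ ∈ Q, ContDiffAt ℝ ∞ f ζ

theorem sp2Sm.dd {Q : Set ℂ} {f : ℂ → ℝ} (h : sp2Sm Q f) (v : ℂ) : sp2Sm Q (dd v f) := by
  intro ζ hζ
  have h1 : ContDiffAt ℝ ∞ (fderiv ℝ f) ζ := (h ζ hζ).fderiv_right (m := ∞) (by simp)
  exact h1.clm_apply contDiffAt_const

theorem sp2Sm.add {Q : Set ℂ} {f g : ℂ → ℝ} (hf : sp2Sm Q f) (hg : sp2Sm Q g) :
    sp2Sm Q (fun x => f x + g x) := fun ζ hζ => (hf ζ hζ).add (hg ζ hζ)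

theorem sp2Sm.mul {Q : Set ℂ} {f g : ℂ → ℝ} (hf : sp2Sm Q f) (hg : sp2Sm Q g) :
    sp2Sm Q (fun x => f x * g x) := fun ζ hζ => (hf ζ hζ).mul (hg ζ hζ)

theorem sp2Sm.diff {Q : Set ℂ} {f : ℂ → ℝ} (hf : sp2Sm Q f) {ζ : ℂ} (hζ : ζ ∈ Q) :
    DifferentiableAt ℝ f ζ := (hf ζ hζ).differentiableAt (by simp)

theorem sp2_dd_congr {f g : ℂ → ℝ} {ζ : ℂ} (h : f =ᶠ[𝓝 ζ] g) (v : ℂ) : dd v f ζ = dd v g ζ :=
  congrArg (fun L : ℂ →L[ℝ] ℝ => L v) h.fderiv_eq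

theorem sp2_dd_on {Q : Set ℂ} (hQ : IsOpen Q) {f g : ℂ → ℝ} (h : ∀ ζ ∈ Q, f ζ = g ζ) (v : ℂ) :
    ∀ ζ ∈ Q, dd v f ζ = dd v g ζ := by
  intro ζ hζ
  refine sp2_dd_congr ?_ v
  filter_upwards [hQ.mem_nhds hζ] with x hx using h x hx

theorem sp2_la_on {Q : Set ℂ} (hQ : IsOpen Q) {f g : ℂ → ℝ} (h : ∀ ζ ∈ Q, f ζ = g ζ) :
    ∀ ζ ∈ Q, la f ζ = la g ζ := by
  intro ζ hζ
  unfold la
  rw [sp2_dd_on hQ (sp2_dd_on hQ h 1) 1 ζ hζ, sp2_dd_on hQ (sp2_dd_on hQ h _) _ ζ hζ]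

theorem sp2Sm.congr {Q : Set ℂ} (hQ : IsOpen Q) {f g : ℂ → ℝ} (hf : sp2Sm Q f)
    (h : ∀ ζ ∈ Q, g ζ = f ζ) : sp2Sm Q g := by
  intro ζ hζ
  refine (hf ζ hζ).congr_of_eventuallyEq ?_
  filter_upwards [hQ.mem_nhds hζ] with x hx using h x hx

theorem sp2_dd_mul {f g : ℂ → ℝ} {ζ : ℂ} (hf : DifferentiableAt ℝ f ζ)
    (hg : DifferentiableAt ℝ g ζ) (v : ℂ) :
    dd v (fun x => f x * g x) ζ = f ζ * dd v g ζ + g ζ * dd v f ζ := by
  unfold dd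
  rw [fderiv_fun_mul hf hg]
  simp

theorem sp2_dd_add {f g : ℂ → ℝ} {ζ : ℂ} (hf : DifferentiableAt ℝ f ζ)
    (hg : DifferentiableAt ℝ g ζ) (v : ℂ) :
    dd v (fun x => f x + g x) ζ = dd v f ζ + dd v g ζ := by
  unfold dd
  rw [fderiv_fun_add hf hg]
  simp

theorem sp2_dd_dd {f : ℂ → ℝ} {ζ : ℂ} (h : ContDiffAt ℝ ∞ f ζ) (v w : ℂ) :
    dd v (dd w f) ζ = fderiv ℝ (fderiv ℝ f) ζ v w := by
  have h1 : DifferentiableAt ℝ (fderiv ℝ f) ζ :=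
    (h.fderiv_right (m := ∞) (by simp)).differentiableAt (by simp)
  have h2 : HasFDerivAt (fun x => fderiv ℝ f x w)
      ((ContinuousLinearMap.apply ℝ ℝ w).comp (fderiv ℝ (fderiv ℝ f) ζ)) ζ :=
    (ContinuousLinearMap.apply ℝ ℝ w).hasFDerivAt.comp ζ h1.hasFDerivAt
  show fderiv ℝ (fun x => fderiv ℝ f x w) ζ v = _
  rw [h2.fderiv]
  rfl

theorem sp2_dd_comm {f : ℂ → ℝ} {ζ : ℂ} (h : ContDiffAt ℝ ∞ f ζ) (v w : ℂ) :
    dd v (dd w f) ζ = dd w (dd v f) ζ := by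
  rw [sp2_dd_dd h, sp2_dd_dd h]
  have h1 : IsSymmSndFDerivAt ℝ f ζ := h.isSymmSndFDerivAt (by
    rw [minSmoothness_of_isRCLikeNormedField]
    norm_cast)
  exact h1.eq v w

theorem sp2_la_dd {Q : Set ℂ} (hQ : IsOpen Q) {f : ℂ → ℝ} (hf : sp2Sm Q f) :
    ∀ ζ ∈ Q, la (dd 1 f) ζ = dd 1 (la f) ζ := by
  intro ζ hζ
  have h1 : dd 1 (la f) ζ = dd 1 (dd 1 (dd 1 f)) ζ + dd 1 (dd Complex.I (dd Complex.I f)) ζ :=
    sp2_dd_add (((hf.dd 1).dd 1).diff hζ) (((hf.dd Complex.I).dd Complex.I).diff hζ) 1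
  have h2 : dd 1 (dd Complex.I (dd Complex.I f)) ζ = dd Complex.I (dd 1 (dd Complex.I f)) ζ :=
    sp2_dd_comm ((hf.dd _) ζ hζ) _ _
  have h3 : dd Complex.I (dd 1 (dd Complex.I f)) ζ = dd Complex.I (dd Complex.I (dd 1 f)) ζ :=
    sp2_dd_on hQ (fun x hx => sp2_dd_comm (hf x hx) _ _) _ ζ hζ
  rw [h1, h2, h3]
  rfl

theorem sp2_la_dd2 {Q : Set ℂ} (hQ : IsOpen Q) {f : ℂ → ℝ} (hf : sp2Sm Q f) :
    ∀ ζ ∈ Q, la (dd 1 (dd 1 f)) ζ = dd 1 (dd 1 (la f)) ζ := by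
  intro ζ hζ
  rw [sp2_la_dd hQ (hf.dd 1) ζ hζ]
  exact sp2_dd_on hQ (sp2_la_dd hQ hf) 1 ζ hζ

/-- the second derivatives of a product -/
theorem sp2_dd2_mul {Q : Set ℂ} (hQ : IsOpen Q) {f g : ℂ → ℝ} (hf : sp2Sm Q f) (hg : sp2Sm Q g)
    (v : ℂ) : ∀ ζ ∈ Q, dd v (dd v (fun x => f x * g x)) ζ =
      f ζ * dd v (dd v g) ζ + 2 * (dd v f ζ * dd v g ζ) + g ζ * dd v (dd v f) ζ := by
  intro ζ hζ
  rw [sp2_dd_on hQ (fun x hx => sp2_dd_mul (hf.diff hx) (hg.diff hx) v) v ζ hζ]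
  have h1 := sp2_dd_add ((hf.mul (hg.dd v)).diff hζ) ((hg.mul (hf.dd v)).diff hζ) v
  rw [h1, sp2_dd_mul (hf.diff hζ) ((hg.dd v).diff hζ), sp2_dd_mul (hg.diff hζ) ((hf.dd v).diff hζ)]
  ring

/-- the second eigenfunction: the computation in the rectangle -/
theorem sp2_calc {Q : Set ℂ} (hQ : IsOpen Q) {U a q : ℂ → ℝ} (hU : sp2Sm Q U) (ha : sp2Sm Q a)
    (hq : sp2Sm Q q) {lam : ℝ} (haI : ∀ ζ, dd Complex.I a ζ = 0)
    (hqa : ∀ ζ, dd 1 q ζ = lam * dd 1 a ζ) (hla : ∀ ζ ∈ Q, la U ζ = -(q ζ * U ζ)) :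
    ∀ ζ ∈ Q, la (fun x => dd 1 (dd 1 U) x + lam * a x * U x) ζ =
      -(q ζ * (dd 1 (dd 1 U) ζ + lam * a ζ * U ζ)) := by
  intro ζ hζ
  have hc : sp2Sm Q (fun _ => lam) := fun x _ => contDiffAt_const
  have hla' : sp2Sm Q (fun x => lam * a x) := hc.mul ha
  have hV := (hU.dd 1).dd 1
  have hP : sp2Sm Q (fun x => lam * a x * U x) := hla'.mul hU
  have hdc : ∀ v ζ, dd v (fun _ => lam) ζ = 0 := by
    intro v ζ
    unfold dd
    simp
  -- the Laplacian of the sum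
  have h1 : la (fun x => dd 1 (dd 1 U) x + lam * a x * U x) ζ =
      la (dd 1 (dd 1 U)) ζ + la (fun x => lam * a x * U x) ζ := by
    have e : ∀ v, dd v (dd v (fun x => dd 1 (dd 1 U) x + lam * a x * U x)) ζ =
        dd v (dd v (dd 1 (dd 1 U))) ζ + dd v (dd v (fun x => lam * a x * U x)) ζ := by
      intro v
      rw [sp2_dd_on hQ (fun x hx => sp2_dd_add (hV.diff hx) (hP.diff hx) v) v ζ hζ]
      exact sp2_dd_add ((hV.dd v).diff hζ) ((hP.dd v).diff hζ) v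
    unfold la
    rw [e, e]
    ring
  -- the derivatives of `lam * a`
  have hda : ∀ v, ∀ x ∈ Q, dd v (fun x => lam * a x) x = lam * dd v a x := by
    intro v x hx
    rw [sp2_dd_mul (hc.diff hx) (ha.diff hx), hdc]
    ring
  have hdda : ∀ v, dd v (dd v (fun x => lam * a x)) ζ = lam * dd v (dd v a) ζ := by
    intro v
    rw [sp2_dd_on hQ (hda v) v ζ hζ, sp2_dd_mul (hc.diff hζ) ((ha.dd v).diff hζ), hdc]
    ring
  have hI2 : dd Complex.I (dd Complex.I a) ζ = 0 := by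
    have : dd Complex.I a = fun _ => 0 := funext haI
    rw [this]
    unfold dd
    simp
  have h2 : la (fun x => lam * a x * U x) ζ = lam * dd 1 (dd 1 a) ζ * U ζ +
      2 * lam * (dd 1 a ζ * dd 1 U ζ) + lam * a ζ * la U ζ := by
    unfold la
    rw [sp2_dd2_mul hQ hla' hU 1 ζ hζ, sp2_dd2_mul hQ hla' hU Complex.I ζ hζ, hda 1 ζ hζ,
      hda Complex.I ζ hζ, haI, hdda, hdda, hI2]
    ring
  have h3 : la (dd 1 (dd 1 U)) ζ = -(q ζ * dd 1 (dd 1 U) ζ + 2 * (lam * dd 1 a ζ * dd 1 U ζ) +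
      U ζ * (lam * dd 1 (dd 1 a) ζ)) := by
    rw [sp2_la_dd2 hQ hU ζ hζ, sp2_dd_on hQ (sp2_dd_on hQ hla 1) 1 ζ hζ]
    have e1 : (fun ζ => -(q ζ * U ζ)) = fun ζ => (-1 : ℝ) * (q ζ * U ζ) := by
      funext x
      ring
    have hm : sp2Sm Q (fun _ => (-1 : ℝ)) := fun x _ => contDiffAt_const
    have hdm : ∀ v ζ, dd v (fun _ => (-1 : ℝ)) ζ = 0 := by
      intro v ζ
      unfold dd
      simp
    have hqa2 : dd 1 (dd 1 q) ζ = lam * dd 1 (dd 1 a) ζ := by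
      rw [sp2_dd_on hQ (fun x _ => hqa x) 1 ζ hζ, sp2_dd_mul (hc.diff hζ) ((ha.dd 1).diff hζ), hdc]
      ring
    have hmm := hm.dd 1
    rw [e1, sp2_dd2_mul hQ hm (hq.mul hU) 1 ζ hζ, hdm, sp2_dd2_mul hQ hq hU 1 ζ hζ, hqa, hqa2]
    have e2 : dd 1 (dd 1 fun _ => (-1 : ℝ)) ζ = 0 := by
      have : dd 1 (fun _ => (-1 : ℝ)) = fun _ => 0 := funext (hdm 1)
      rw [this]
      unfold dd
      simp
    rw [e2]
    ring
  rw [h1, h2, h3, hla ζ hζ]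
  ring

/-! ### The conformal change of variables -/

theorem sp2_lin (T : ℂ →L[ℝ] ℝ) (x : ℂ) : T x = x.re * T 1 + x.im * T Complex.I := by
  have : x = x.re • (1 : ℂ) + x.im • Complex.I := by
    simp only [Complex.real_smul, mul_one]
    exact (Complex.re_add_im x).symm
  conv_lhs => rw [this]
  rw [map_add, map_smul, map_smul, smul_eq_mul, smul_eq_mul]

theorem sp2_fd {F : ℂ → ℂ} {F' ζ : ℂ} (h : HasDerivAt F F' ζ) :
    ∃ L : ℂ →L[ℝ] ℂ, HasFDerivAt F L ζ ∧ ∀ v, L v = F' * v := by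
  refine ⟨_, h.hasFDerivAt.restrictScalars ℝ, fun v => ?_⟩
  simp [mul_comm]

theorem sp2_dd_comp {F : ℂ → ℂ} {F' ζ : ℂ} (h : HasDerivAt F F' ζ) {u : ℂ → ℝ}
    (hu : DifferentiableAt ℝ u (F ζ)) (v : ℂ) :
    dd v (fun x => u (F x)) ζ = (F' * v).re * dd 1 u (F ζ) + (F' * v).im * dd Complex.I u (F ζ) := by
  obtain ⟨L, hL, hLv⟩ := sp2_fd h
  have h1 : HasFDerivAt (fun x => u (F x)) ((fderiv ℝ u (F ζ)).comp L) ζ :=
    hu.hasFDerivAt.comp ζ hL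
  show fderiv ℝ (fun x => u (F x)) ζ v = _
  rw [h1.fderiv, ContinuousLinearMap.comp_apply, hLv]
  exact sp2_lin _ _

theorem sp2_dd_re {F : ℂ → ℂ} {F' ζ : ℂ} (h : HasDerivAt F F' ζ) (v : ℂ) :
    DifferentiableAt ℝ (fun x => (F x).re) ζ ∧ dd v (fun x => (F x).re) ζ = (F' * v).re := by
  obtain ⟨L, hL, hLv⟩ := sp2_fd h
  have h1 : HasFDerivAt (fun x => (F x).re) (Complex.reCLM.comp L) ζ :=
    Complex.reCLM.hasFDerivAt.comp ζ hL
  refine ⟨h1.differentiableAt, ?_⟩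
  show fderiv ℝ (fun x => (F x).re) ζ v = _
  rw [h1.fderiv, ContinuousLinearMap.comp_apply, hLv]
  rfl

theorem sp2_dd_im {F : ℂ → ℂ} {F' ζ : ℂ} (h : HasDerivAt F F' ζ) (v : ℂ) :
    DifferentiableAt ℝ (fun x => (F x).im) ζ ∧ dd v (fun x => (F x).im) ζ = (F' * v).im := by
  obtain ⟨L, hL, hLv⟩ := sp2_fd h
  have h1 : HasFDerivAt (fun x => (F x).im) (Complex.imCLM.comp L) ζ :=
    Complex.imCLM.hasFDerivAt.comp ζ hL
  refine ⟨h1.differentiableAt, ?_⟩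
  show fderiv ℝ (fun x => (F x).im) ζ v = _
  rw [h1.fderiv, ContinuousLinearMap.comp_apply, hLv]
  rfl

theorem sp2_an {Φ : ℂ → ℂ} (hΦ : Differentiable ℂ Φ) : Differentiable ℂ (deriv Φ) := by
  have h : DifferentiableOn ℂ (deriv Φ) univ := (hΦ.differentiableOn (s := univ)).deriv isOpen_univ
  exact differentiableOn_univ.1 h

theorem sp2_smooth {Φ : ℂ → ℂ} (hΦ : Differentiable ℂ Φ) : ContDiff ℝ ∞ Φ :=
  (hΦ.contDiff (n := ∞)).restrict_scalars ℝ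

/-- the conformal change of variables for the Laplacian -/
theorem sp2_conf {Φ : ℂ → ℂ} (hΦ : Differentiable ℂ Φ) {u : ℂ → ℝ} {ζ : ℂ}
    (hu : ContDiffAt ℝ ∞ u (Φ ζ)) : la (fun x => u (Φ x)) ζ = ‖deriv Φ ζ‖ ^ 2 * la u (Φ ζ) := by
  have hΦ' := sp2_an hΦ
  have h2 : ∀ᶠ y in 𝓝 (Φ ζ), ContDiffAt ℝ 2 u y := by
    have : ContDiffAt ℝ 2 u (Φ ζ) := hu.of_le (by norm_cast)
    exact this.eventually (by simp)
  have h3 : ∀ᶠ x in 𝓝 ζ, ContDiffAt ℝ 2 u (Φ x) := hΦ.continuous.continuousAt.eventually h2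
  have hone : ∀ v, (fun x => dd v (fun x => u (Φ x)) x) =ᶠ[𝓝 ζ] fun x =>
      (deriv Φ x * v).re * dd 1 u (Φ x) + (deriv Φ x * v).im * dd Complex.I u (Φ x) := by
    intro v
    filter_upwards [h3] with x hx
    exact sp2_dd_comp (hΦ x).hasDerivAt (hx.differentiableAt (by simp)) v
  have hdu : ∀ w, DifferentiableAt ℝ (dd w u) (Φ ζ) := by
    intro w
    have h1 : ContDiffAt ℝ ∞ (fderiv ℝ u) (Φ ζ) := hu.fderiv_right (m := ∞) (by simp)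
    exact (h1.clm_apply contDiffAt_const).differentiableAt (by simp)
  have hdc : ∀ w, DifferentiableAt ℝ (fun x => dd w u (Φ x)) ζ := by
    intro w
    obtain ⟨L, hL, -⟩ := sp2_fd (hΦ ζ).hasDerivAt
    exact ((hdu w).hasFDerivAt.comp ζ hL).differentiableAt
  have htwo : ∀ v, dd v (dd v (fun x => u (Φ x))) ζ =
      (deriv Φ ζ * v).re * ((deriv Φ ζ * v).re * dd 1 (dd 1 u) (Φ ζ) +
        (deriv Φ ζ * v).im * dd Complex.I (dd 1 u) (Φ ζ)) +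
      dd 1 u (Φ ζ) * (deriv (deriv Φ) ζ * v * v).re +
      ((deriv Φ ζ * v).im * ((deriv Φ ζ * v).re * dd 1 (dd Complex.I u) (Φ ζ) +
        (deriv Φ ζ * v).im * dd Complex.I (dd Complex.I u) (Φ ζ)) +
      dd Complex.I u (Φ ζ) * (deriv (deriv Φ) ζ * v * v).im) := by
    intro v
    have hG : HasDerivAt (fun x => deriv Φ x * v) (deriv (deriv Φ) ζ * v) ζ :=
      (hΦ' ζ).hasDerivAt.mul_const v
    have hre := sp2_dd_re hG v
    have him := sp2_dd_im hG v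
    have hm1 : DifferentiableAt ℝ (fun x => (deriv Φ x * v).re * dd 1 u (Φ x)) ζ :=
      hre.1.mul (hdc 1)
    have hm2 : DifferentiableAt ℝ (fun x => (deriv Φ x * v).im * dd Complex.I u (Φ x)) ζ :=
      him.1.mul (hdc Complex.I)
    rw [sp2_dd_congr (hone v) v, sp2_dd_add hm1 hm2,
      sp2_dd_mul hre.1 (hdc 1), sp2_dd_mul him.1 (hdc Complex.I), hre.2, him.2,
      sp2_dd_comp (hΦ ζ).hasDerivAt (hdu 1), sp2_dd_comp (hΦ ζ).hasDerivAt (hdu Complex.I)]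
  unfold la
  rw [htwo, htwo]
  have hn : ‖deriv Φ ζ‖ ^ 2 = (deriv Φ ζ).re ^ 2 + (deriv Φ ζ).im ^ 2 := by
    rw [← Complex.normSq_eq_norm_sq, Complex.normSq_apply]
    ring
  rw [hn]
  simp only [mul_one, Complex.mul_re, Complex.mul_im, Complex.I_re, Complex.I_im, mul_zero]
  ring

/-- TARGET 1 -/
theorem sep_smooth {Φ : ℂ → ℂ} (hΦ : Differentiable ℂ Φ) {A B : ℝ → ℝ}
    (hAB : ∀ ζ : ℂ, ‖deriv Φ ζ‖ ^ 2 = A ζ.re + B ζ.im) : ContDiff ℝ ∞ A ∧ ContDiff ℝ ∞ B := by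
  have h1 : ContDiff ℝ ∞ (fun ζ => ‖deriv Φ ζ‖ ^ 2) := (sp2_smooth (sp2_an hΦ)).norm_sq ℝ
  constructor
  · have h2 : A = fun x : ℝ => ‖deriv Φ (x : ℂ)‖ ^ 2 - B 0 := by
      funext x
      rw [hAB]
      simp
    rw [h2]
    exact (h1.comp Complex.ofRealCLM.contDiff).sub contDiff_const
  · have h2 : B = fun y : ℝ => ‖deriv Φ ((y : ℂ) * Complex.I)‖ ^ 2 - A 0 := by
      funext x
      rw [hAB]
      simp
    rw [h2]
    exact (h1.comp (Complex.ofRealCLM.contDiff.mul contDiff_const)).sub contDiff_const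

/-! ### The inverse map and the second eigenfunction -/

theorem sp2_wat {D : Set ℂ} {w : ℂ → ℝ} {lam : ℝ} (hD : IsOpen D) (hc : Continuous w)
    (hout : ∀ x, x ∉ D → w x = 0) (hs : sp2Sm D w) (hla : ∀ x ∈ D, la w x = -(lam * w x)) :
    Wat D lam w := by
  refine ⟨hc, hout, fun x₀ hx₀ => ?_⟩
  obtain ⟨R, hR, hRD⟩ := Metric.isOpen_iff.1 hD x₀ hx₀
  let χ : ContDiffBump x₀ := ⟨R / 3, R / 2, by positivity, by linarith⟩
  refine ⟨R / 3, by positivity, fun x => χ x * w x, ⟨?_, ?_⟩, ?_, ?_⟩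
  · rw [contDiff_iff_contDiffAt]
    intro x
    by_cases hx : x ∈ Metric.ball x₀ R
    · exact χ.contDiff.contDiffAt.mul (hs x (hRD hx))
    · have h0 : (fun x => χ x * w x) =ᶠ[𝓝 x] fun _ => 0 := by
        have hx' : x ∈ (Metric.closedBall x₀ (R / 2))ᶜ := by
          intro h1
          apply hx
          rw [Metric.mem_closedBall] at h1
          rw [Metric.mem_ball]
          linarith
        filter_upwards [Metric.isClosed_closedBall.isOpen_compl.mem_nhds hx'] with y hy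
        have h2 : χ y = 0 := by
          apply χ.zero_of_le_dist
          show R / 2 ≤ dist y x₀
          have h3 : ¬ dist y x₀ ≤ R / 2 := fun h => hy (Metric.mem_closedBall.2 h)
          exact (not_le.1 h3).le
        rw [h2, zero_mul]
      exact contDiffAt_const.congr_of_eventuallyEq h0
  · exact χ.hasCompactSupport.mul_right
  · exact (Metric.ball_subset_ball (by linarith)).trans hRD
  · have he : ∀ x ∈ Metric.ball x₀ (R / 3), χ x * w x = w x := by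
      intro x hx
      rw [χ.one_of_mem_closedBall (Metric.ball_subset_closedBall hx), one_mul]
    intro x hx
    refine ⟨(he x hx).symm, ?_⟩
    show la (fun x => χ x * w x) x = -(lam * (χ x * w x))
    rw [sp2_la_on Metric.isOpen_ball he x hx, he x hx]
    exact hla x (hRD (Metric.ball_subset_ball (by linarith) hx))

theorem sp2_inv {Φ : ℂ → ℂ} (hΦ : Differentiable ℂ Φ) {ζ₀ : ℂ} (h : deriv Φ ζ₀ ≠ 0) :
    ∃ g : ℂ → ℂ, ContDiffAt ℝ ∞ g (Φ ζ₀) ∧ g (Φ ζ₀) = ζ₀ ∧ ∀ᶠ y in 𝓝 (Φ ζ₀), Φ (g y) = y := by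
  have hcd : ContDiffAt ℂ ∞ Φ ζ₀ := (hΦ.contDiff (n := ∞)).contDiffAt
  have hd := (hΦ ζ₀).hasDerivAt.hasFDerivAt_equiv h
  refine ⟨hcd.localInverse hd (by simp), (hcd.to_localInverse hd (by simp)).restrict_scalars ℝ,
    hcd.localInverse_apply_image hd (by simp), ?_⟩
  exact (hcd.hasStrictFDerivAt' hd (by simp)).eventually_right_inverse

theorem sp2_dd_Are {A : ℝ → ℝ} (hA : ContDiff ℝ ∞ A) (ζ v : ℂ) :
    dd v (fun ζ : ℂ => A ζ.re) ζ = deriv A ζ.re * v.re := by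
  have h1 : HasDerivAt A (deriv A ζ.re) ζ.re := (hA.differentiable (by simp) _).hasDerivAt
  have h2 : HasFDerivAt (fun ζ : ℂ => A ζ.re) (deriv A ζ.re • Complex.reCLM) ζ :=
    h1.comp_hasFDerivAt ζ Complex.reCLM.hasFDerivAt
  show fderiv ℝ (fun ζ : ℂ => A ζ.re) ζ v = _
  rw [h2.fderiv]
  rfl

theorem sp2_dd_Bim {B : ℝ → ℝ} (hB : ContDiff ℝ ∞ B) (ζ v : ℂ) :
    dd v (fun ζ : ℂ => B ζ.im) ζ = deriv B ζ.im * v.im := by
  have h1 : HasDerivAt B (deriv B ζ.im) ζ.im := (hB.differentiable (by simp) _).hasDerivAt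
  have h2 : HasFDerivAt (fun ζ : ℂ => B ζ.im) (deriv B ζ.im • Complex.imCLM) ζ :=
    h1.comp_hasFDerivAt ζ Complex.imCLM.hasFDerivAt
  show fderiv ℝ (fun ζ : ℂ => B ζ.im) ζ v = _
  rw [h2.fderiv]
  rfl

theorem sp2_open (a b c d : ℝ) : IsOpen (crect a b c d) := by
  have h : crect a b c d = (Complex.re ⁻¹' Ioo a b) ∩ (Complex.im ⁻¹' Ioo c d) := by
    ext ζ
    simp only [crect, mem_ofPred_eq, mem_inter_iff, mem_preimage, mem_Ioo]
    tauto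
  rw [h]
  exact (isOpen_Ioo.preimage Complex.continuous_re).inter (isOpen_Ioo.preimage Complex.continuous_im)

theorem sp2_compact (a b c d : ℝ) : IsCompact (closure (crect a b c d)) := by
  have hK : IsCompact (Icc a b ×ℂ Icc c d) := isCompact_Icc.reProdIm isCompact_Icc
  refine hK.of_isClosed_subset isClosed_closure (closure_minimal ?_ hK.isClosed)
  rintro ζ ⟨h1, h2, h3, h4⟩
  exact ⟨⟨h1.le, h2.le⟩, ⟨h3.le, h4.le⟩⟩

/-- push-forward under an injective holomorphic map -/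
theorem sp2_push {Φ : ℂ → ℂ} (hΦ : Differentiable ℂ Φ) {Q : Set ℂ} (hQ : IsOpen Q)
    (hQc : IsCompact (closure Q)) (hinj : InjOn Φ Q) {lam : ℝ} {W : ℂ → ℝ} (hW : Continuous W)
    (hW0 : ∀ ζ, ζ ∉ Q → W ζ = 0) (hWs : sp2Sm Q W)
    (hWla : ∀ ζ ∈ Q, la W ζ = -(lam * ‖deriv Φ ζ‖ ^ 2 * W ζ)) :
    ∃ w : ℂ → ℝ, Wat (Φ '' Q) lam w ∧ ∀ ζ ∈ Q, w (Φ ζ) = W ζ := by
  classical
  set w : ℂ → ℝ := fun x => if h : ∃ ζ ∈ Q, Φ ζ = x then W (Classical.choose h) else 0 with hw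
  have hwΦ : ∀ ζ ∈ Q, w (Φ ζ) = W ζ := by
    intro ζ hζ
    have h : ∃ ζ' ∈ Q, Φ ζ' = Φ ζ := ⟨ζ, hζ, rfl⟩
    have h1 := Classical.choose_spec h
    have h2 : w (Φ ζ) = W (Classical.choose h) := by
      rw [hw]
      exact dif_pos h
    rw [h2, hinj h1.1 hζ h1.2]
  have hw0 : ∀ x, x ∉ Φ '' Q → w x = 0 := by
    intro x hx
    rw [hw]
    exact dif_neg hx
  have hne : ∀ ζ ∈ Q, deriv Φ ζ ≠ 0 := fun ζ hζ =>
    sp2_deriv_ne_zero hQ hΦ.differentiableOn hinj hζ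
  have hinv : ∀ ζ ∈ Q, ∃ g : ℂ → ℂ, ContDiffAt ℝ ∞ g (Φ ζ) ∧ g (Φ ζ) = ζ ∧
      ∀ᶠ y in 𝓝 (Φ ζ), Φ (g y) = y ∧ g y ∈ Q := by
    intro ζ hζ
    obtain ⟨g, hg, hgz, he⟩ := sp2_inv hΦ (hne ζ hζ)
    refine ⟨g, hg, hgz, he.and ?_⟩
    apply hg.continuousAt.eventually
    rw [hgz]
    exact hQ.mem_nhds hζ
  have hD : IsOpen (Φ '' Q) := by
    rw [isOpen_iff_mem_nhds]
    rintro _ ⟨ζ, hζ, rfl⟩
    obtain ⟨g, -, -, he⟩ := hinv ζ hζ
    filter_upwards [he] with y hy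
    exact ⟨g y, hy.2, hy.1⟩
  have hs : sp2Sm (Φ '' Q) w := by
    rintro _ ⟨ζ, hζ, rfl⟩
    obtain ⟨g, hg, hgz, he⟩ := hinv ζ hζ
    have h1 : w =ᶠ[𝓝 (Φ ζ)] fun y => W (g y) := by
      filter_upwards [he] with y hy
      conv_lhs => rw [← hy.1]
      exact hwΦ _ hy.2
    have h2 : ContDiffAt ℝ ∞ W (g (Φ ζ)) := by
      rw [hgz]
      exact hWs ζ hζ
    exact (h2.comp (Φ ζ) hg).congr_of_eventuallyEq h1
  have hc : Continuous w := by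
    rw [continuous_iff_continuousAt]
    intro x
    by_cases hx : x ∈ Φ '' Q
    · exact (hs x hx).continuousAt
    · rw [ContinuousAt, hw0 x hx, Metric.tendsto_nhds]
      intro ε hε
      have hC : IsCompact (closure Q ∩ {ζ | ε ≤ |W ζ|}) :=
        hQc.inter_right (isClosed_le continuous_const hW.abs)
      have hC2 : IsClosed (Φ '' (closure Q ∩ {ζ | ε ≤ |W ζ|})) :=
        (hC.image hΦ.continuous).isClosed
      have hx2 : x ∈ (Φ '' (closure Q ∩ {ζ | ε ≤ |W ζ|}))ᶜ := by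
        rintro ⟨ζ, ⟨-, h2⟩, rfl⟩
        apply hx
        refine ⟨ζ, ?_, rfl⟩
        by_contra h3
        rw [mem_ofPred_eq, hW0 ζ h3, abs_zero] at h2
        exact absurd h2 (not_le.2 hε)
      filter_upwards [hC2.isOpen_compl.mem_nhds hx2] with y hy
      rw [Real.dist_eq, sub_zero]
      by_cases hyD : y ∈ Φ '' Q
      · obtain ⟨ζ, hζ, rfl⟩ := hyD
        rw [hwΦ ζ hζ]
        by_contra h3
        exact hy ⟨ζ, ⟨subset_closure hζ, not_lt.1 h3⟩, rfl⟩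
      · rw [hw0 y hyD, abs_zero]
        exact hε
  refine ⟨w, sp2_wat hD hc hw0 hs ?_, hwΦ⟩
  rintro _ ⟨ζ, hζ, rfl⟩
  have h1 := sp2_conf hΦ (hs _ ⟨ζ, hζ, rfl⟩)
  have h2 : la (fun x => w (Φ x)) ζ = la W ζ := sp2_la_on hQ hwΦ ζ hζ
  rw [h2, hWla ζ hζ] at h1
  have h3 : (‖deriv Φ ζ‖ ^ 2 : ℝ) ≠ 0 := pow_ne_zero _ (norm_ne_zero_iff.2 (hne ζ hζ))
  rw [hwΦ ζ hζ]
  apply mul_left_cancel₀ h3
  rw [← h1]
  ring

/-- TARGET 2: separation of variables gives a second eigenfunction. -/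
theorem sep_wat {Φ : ℂ → ℂ} (hΦ : Differentiable ℂ Φ) {A B : ℝ → ℝ}
    (hAB : ∀ ζ : ℂ, ‖deriv Φ ζ‖ ^ 2 = A ζ.re + B ζ.im) {a b c d : ℝ} (hab : a < b) (hcd : c < d)
    (hinj : InjOn Φ (closure (crect a b c d))) {lam : ℝ} (hlam : 0 < lam) {u : ℂ → ℝ}
    (hu : Wat (Φ '' crect a b c d) lam u) :
    ∃ w : ℂ → ℝ, Wat (Φ '' crect a b c d) lam w ∧ ∀ ζ ∈ crect a b c d,
      w (Φ ζ) = dd 1 (dd 1 (fun x => u (Φ x))) ζ + lam * A ζ.re * u (Φ ζ) := by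
  obtain ⟨hA, hB⟩ := sep_smooth hΦ hAB
  have hQ := sp2_open a b c d
  set Q := crect a b c d with hQdef
  have hinjQ : InjOn Φ Q := hinj.mono subset_closure
  -- the function `U`
  set U : ℂ → ℝ := Q.indicator (fun ζ => u (Φ ζ)) with hUdef
  have hUQ : ∀ ζ ∈ Q, U ζ = u (Φ ζ) := fun ζ hζ => indicator_of_mem hζ _
  have hU0 : ∀ ζ, ζ ∉ Q → U ζ = 0 := fun ζ hζ => indicator_of_notMem hζ _
  have hUc : Continuous U := by
    refine continuous_indicator (fun ζ hζ => ?_) (hu.cont.comp hΦ.continuous).continuousOn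
    apply hu.out
    rintro ⟨ζ', hζ', he⟩
    have hζc : ζ ∈ closure Q := frontier_subset_closure hζ
    have h1 := hinj (subset_closure hζ') hζc he
    rw [hQ.frontier_eq] at hζ
    exact hζ.2 (h1 ▸ hζ')
  have husm : ∀ x ∈ Φ '' Q, ContDiffAt ℝ ∞ u x ∧ la u x = -(lam * u x) := by
    intro x hx
    obtain ⟨r, hr, W, hW, hb, h1⟩ := hu.loc x hx
    have hx' := Metric.mem_ball_self (x := x) hr
    refine ⟨(hW.sm.contDiffAt).congr_of_eventuallyEq ?_, ?_⟩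
    · filter_upwards [Metric.ball_mem_nhds x hr] with y hy using (h1 y hy).1
    · rw [sp2_la_on Metric.isOpen_ball (fun y hy => (h1 y hy).1) x hx', (h1 x hx').2, (h1 x hx').1]
  have huΦ : sp2Sm Q (fun ζ => u (Φ ζ)) := fun ζ hζ =>
    (husm _ ⟨ζ, hζ, rfl⟩).1.comp ζ (sp2_smooth hΦ).contDiffAt
  have hUs : sp2Sm Q U := huΦ.congr hQ hUQ
  set q : ℂ → ℝ := fun ζ => lam * (A ζ.re + B ζ.im) with hqdef
  have hAre : ContDiff ℝ ∞ (fun ζ : ℂ => A ζ.re) := hA.comp Complex.reCLM.contDiff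
  have hBim : ContDiff ℝ ∞ (fun ζ : ℂ => B ζ.im) := hB.comp Complex.imCLM.contDiff
  have hq : ContDiff ℝ ∞ q := contDiff_const.mul (hAre.add hBim)
  have hUla : ∀ ζ ∈ Q, la U ζ = -(q ζ * U ζ) := by
    intro ζ hζ
    rw [sp2_la_on hQ hUQ ζ hζ, sp2_conf hΦ (husm _ ⟨ζ, hζ, rfl⟩).1, (husm _ ⟨ζ, hζ, rfl⟩).2, hAB,
      hUQ ζ hζ]
    rw [hqdef]
    ring
  have hreg := rect_reg hab hcd hq hUc hU0 (fun ζ hζ => ⟨hUs ζ hζ, hUla ζ hζ⟩)
  -- the function `W`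
  set W : ℂ → ℝ := fun ζ => Q.indicator (dd 1 (dd 1 U)) ζ + lam * A ζ.re * U ζ with hWdef
  have hWc : Continuous W := hreg.add ((continuous_const.mul hAre.continuous).mul hUc)
  have hW0 : ∀ ζ, ζ ∉ Q → W ζ = 0 := by
    intro ζ hζ
    show Q.indicator (dd 1 (dd 1 U)) ζ + lam * A ζ.re * U ζ = 0
    rw [indicator_of_notMem hζ, hU0 ζ hζ]
    ring
  have hWQ : ∀ ζ ∈ Q, W ζ = dd 1 (dd 1 U) ζ + lam * A ζ.re * U ζ := by
    intro ζ hζ
    show Q.indicator (dd 1 (dd 1 U)) ζ + lam * A ζ.re * U ζ = _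
    rw [indicator_of_mem hζ]
  have hcs : sp2Sm Q (fun _ => lam) := fun x _ => contDiffAt_const
  have hAs : sp2Sm Q (fun ζ => A ζ.re) := fun x _ => hAre.contDiffAt
  have hWs : sp2Sm Q W := (((hUs.dd 1).dd 1).add ((hcs.mul hAs).mul hUs)).congr hQ hWQ
  have hWla : ∀ ζ ∈ Q, la W ζ = -(lam * ‖deriv Φ ζ‖ ^ 2 * W ζ) := by
    intro ζ hζ
    rw [sp2_la_on hQ hWQ ζ hζ, hAB, hWQ ζ hζ]
    have h1 := sp2_calc hQ (lam := lam) (q := q) hUs hAs (fun x _ => hq.contDiffAt) (fun ζ => ?_)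
      (fun ζ => ?_) hUla ζ hζ
    · exact h1
    · rw [sp2_dd_Are hA]
      simp
    · have h2 : DifferentiableAt ℝ (fun ζ : ℂ => A ζ.re) ζ := hAre.differentiable (by simp) _
      have h3 : DifferentiableAt ℝ (fun ζ : ℂ => B ζ.im) ζ := hBim.differentiable (by simp) _
      have h4 : DifferentiableAt ℝ (fun _ : ℂ => lam) ζ := differentiableAt_const _
      have h5 : dd 1 (fun _ : ℂ => lam) ζ = 0 := by
        unfold dd
        simp
      have h6 : DifferentiableAt ℝ (fun ζ : ℂ => A ζ.re + B ζ.im) ζ := h2.add h3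
      rw [hqdef, sp2_dd_mul h4 h6, sp2_dd_add h2 h3, h5, sp2_dd_Bim hB]
      simp
  obtain ⟨w, hw, hwΦ⟩ := sp2_push hΦ hQ (sp2_compact a b c d) hinjQ hWc hW0 hWs hWla
  refine ⟨w, hw, fun ζ hζ => ?_⟩
  rw [hwΦ ζ hζ, hWQ ζ hζ, hUQ ζ hζ, sp2_dd_on hQ (sp2_dd_on hQ hUQ 1) 1 ζ hζ]

end Pool.Agent.Helper327_Drum
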