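import Pool.Agent.Helper327_Drum.SpDefs
import Pool.Agent.Helper327_Drum.Fin.AS14

/-
JOB SP3 (owner helper327, problem MP_d92c84_an). All imports are on origin/main (SpDefs.lean is being landed now; its contents: `crect a b c d` is the open rectangle (a,b) × (c,d), ...).
-/

set_option autoImplicit false
open MeasureTheory Set Filter Topology
open scoped ContDiff InnerProductSpace

namespace Pool.Agent.Helper327_Drum

open Pool.Agent.TH298.Sch (dd SC)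
open Pool.Agent.R227.SA (la Wat Dat)

/-
`Wat D lam u` (R227/SA10.lean): u continuous, 0 off D, near each point of D equal to a smooth solution W of la W = -lam W (`wat_smooth` in Fin/AS2.lean). `dd h φ x = fderiv ℝ φ x h`, `la φ = dd 1 (dd 1 φ) + dd I (dd I φ)`.
Plain proof. Q = crect a b c d, D = Φ '' Q; deriv Φ ≠ 0 on Q (Φ is injective there), D is open and connected, Φ : Q → D is a homeomorphism with holomorphic inverse. Suppose γ is a closed curve of critical points of u in D.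
By `crit_const` (Fin/AS14.lean): u = k ≠ 0 on γ. Let U = u ∘ Φ; at points of γ' = Q ∩ Φ⁻¹ γ: dd 1 (dd 1 U) ζ = D²u(Φ ζ)(Φ' ζ, Φ' ζ) (the term with the gradient of u vanishes), dd I (dd I U) ζ = D²u(Φ ζ)(iΦ', iΦ').
(i) The tangent. Let p ∈ γ. Near p the curve is a graph: there are e (‖e‖ = 1), δ, ψ (smooth, ψ 0 = 0) with: critical points of u near p are the points p + (t + ψ(t) i) e, and all these lie in γ for small t (`crit_graph`
(Fin/ST2.lean or ST1: see how `second_order_arc` in Fin/EL4.lean obtains the graph from `crit_graph`/`crit_component`), `second_order_arc_two` (Fin/EL4.lean)). Put c(t) = p + (t + ψ(t) i) e, T = c'(0) ≠ 0; T is in the kernel of the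
Hessian: D²u(p)(T, v) = 0 for all v (differentiate fderiv u (c t) = 0; see `second_order_arc_id` in Fin/EL4.lean).
(ii) γ' is compact and not empty. Let ζ₁ ∈ γ' have maximal imaginary part, p = Φ ζ₁: the function t ↦ Im Φ⁻¹(c t) has a maximum at t = 0, so Im (T / Φ'(ζ₁)) = 0, so Φ'(ζ₁) = s T with s real, and dd 1 (dd 1 U) ζ₁ = s² D²u(T, T) = 0.
By hw: lam A(ζ₁.re) k = μ k, so A(ζ₁.re) = μ / lam.
(iii) Let ζ₂ ∈ γ' have maximal real part: Re (T / Φ'(ζ₂)) = 0, so i Φ'(ζ₂) = s T, s real: dd I (dd I U) ζ₂ = 0 and dd 1 (dd 1 U) ζ₂ = ‖Φ'‖² (la u) ∘ Φ = -lam (A + B) k (the sum of both second derivatives of U is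
‖Φ'‖² (la u)(Φ ζ)). By hw: -lam (A + B) k + lam A k = μ k, so B(ζ₂.im) = -μ / lam.
(iv) ζ₃ = ζ₁.re + i ζ₂.im lies in the rectangle Q, and ‖deriv Φ ζ₃‖² = A(ζ₁.re) + B(ζ₂.im) = 0: contradiction to deriv Φ ≠ 0 on Q.
-/

section sepn_univ
open Complex

/-- A holomorphic injective function on an open set has non-vanishing derivative. -/
lemma sepn_deriv_ne {f : ℂ → ℂ} {U : Set ℂ} (hU : IsOpen U) (hf : DifferentiableOn ℂ f U)
    (hinj : Set.InjOn f U) {z₀ : ℂ} (hz : z₀ ∈ U) : deriv f z₀ ≠ 0 := by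
  intro h0
  have hfa : AnalyticAt ℂ f z₀ := hf.analyticAt (hU.mem_nhds hz)
  have hFa : AnalyticAt ℂ (fun z => f z - f z₀) z₀ := hfa.sub analyticAt_const
  have hne : ¬ ∀ᶠ z in 𝓝 z₀, f z - f z₀ = 0 := by
    intro h
    have h1 : ∀ᶠ z in 𝓝[≠] z₀, f z - f z₀ = 0 ∧ z ∈ U ∧ z ≠ z₀ := by
      filter_upwards [h.filter_mono nhdsWithin_le_nhds,
        (hU.mem_nhds hz |> fun h => mem_nhdsWithin_of_mem_nhds h),
        self_mem_nhdsWithin] with z h1 h2 h3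
      exact ⟨h1, h2, h3⟩
    obtain ⟨z, hz1, hz2, hz3⟩ := h1.exists
    exact hz3 (hinj hz2 hz (sub_eq_zero.mp hz1))
  obtain ⟨n, g, hga, hg0, hgeq⟩ := hFa.exists_eventuallyEq_pow_smul_nonzero_iff.mpr hne
  have hn0 : n ≠ 0 := by
    rintro rfl
    have := hgeq.self_of_nhds
    simp at this
    exact hg0 this.symm
  have hn1 : n ≠ 1 := by
    rintro rfl
    have h1 : HasDerivAt (fun z => (z - z₀) ^ 1 • g z) (g z₀) z₀ := by
      have h2 := ((hasDerivAt_id z₀).sub_const z₀).mul hga.differentiableAt.hasDerivAt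
      simpa using! h2
    have h3 : HasDerivAt (fun z => f z - f z₀) (g z₀) z₀ := h1.congr_of_eventuallyEq hgeq
    have h4 : HasDerivAt f (g z₀) z₀ := by simpa using h3.add_const (f z₀)
    rw [h4.deriv] at h0
    exact hg0 h0
  obtain ⟨c, hc⟩ := IsAlgClosed.exists_pow_nat_eq (g z₀) (Nat.pos_of_ne_zero hn0)
  have hc0 : c ≠ 0 := by
    rintro rfl
    rw [zero_pow hn0] at hc
    exact hg0 hc.symm
  set h : ℂ → ℂ := fun z => c * (g z / g z₀) ^ (1 / (n : ℂ)) with hh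
  have hslit : g z₀ / g z₀ ∈ Complex.slitPlane := by rw [div_self hg0]; exact Complex.one_mem_slitPlane
  have hha : AnalyticAt ℂ h z₀ := by
    apply analyticAt_const.mul
    exact (hga.div analyticAt_const hg0).cpow analyticAt_const hslit
  have hnC : (n : ℂ) ≠ 0 := by exact_mod_cast hn0
  have hhn : ∀ z, h z ^ n = g z := by
    intro z
    rw [hh]
    simp only
    rw [mul_pow, hc, ← Complex.cpow_mul_nat]
    rw [one_div, inv_mul_cancel₀ hnC, Complex.cpow_one]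
    field_simp
  have hh0 : h z₀ = c := by
    rw [hh]; simp [div_self hg0]
  set φ : ℂ → ℂ := fun z => (z - z₀) * h z with hφ
  have hφd : HasStrictDerivAt φ c z₀ := by
    have h1 : HasStrictDerivAt h (deriv h z₀) z₀ := hha.hasStrictDerivAt
    have h2 : HasStrictDerivAt (fun z : ℂ => z - z₀) 1 z₀ := (hasStrictDerivAt_id z₀).sub_const z₀
    have h3 := h2.mul h1
    rw [← hh0]
    simpa using! h3
  have hmap : map φ (𝓝 z₀) = 𝓝 0 := by
    have := hφd.map_nhds_eq hc0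
    rw [this]
    congr 1
    rw [hφ]; simp
  have hV : ∀ᶠ z in 𝓝 z₀, z ∈ U ∧ f z - f z₀ = φ z ^ n := by
    filter_upwards [hU.mem_nhds hz, hgeq] with z h1 h2
    refine ⟨h1, ?_⟩
    rw [h2, hφ]
    simp only
    rw [mul_pow, hhn, smul_eq_mul]
  obtain ⟨V, hVm, hV2⟩ := hV.exists_mem
  have himg : φ '' V ∈ 𝓝 (0 : ℂ) := by
    rw [← hmap]
    exact image_mem_map hVm
  set ζ : ℂ := Complex.exp (2 * Real.pi * Complex.I / n) with hζ
  have hprim : IsPrimitiveRoot ζ n := Complex.isPrimitiveRoot_exp n hn0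
  have hζ1 : ζ ≠ 1 := hprim.ne_one (by omega)
  have hζn : ζ ^ n = 1 := hprim.pow_eq_one
  have hcont : Tendsto (fun w : ℂ => ζ * w) (𝓝 0) (𝓝 0) := by
    have : Continuous (fun w : ℂ => ζ * w) := by fun_prop
    simpa using this.tendsto 0
  have hboth : ∀ᶠ w in 𝓝[≠] (0 : ℂ), w ∈ φ '' V ∧ ζ * w ∈ φ '' V ∧ w ≠ 0 := by
    filter_upwards [mem_nhdsWithin_of_mem_nhds himg, mem_nhdsWithin_of_mem_nhds (hcont himg),
      self_mem_nhdsWithin] with w h1 h2 h3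
    exact ⟨h1, h2, h3⟩
  obtain ⟨w, ⟨z1, hz1, hw1⟩, ⟨z2, hz2, hw2⟩, hw0⟩ := hboth.exists
  have e1 := (hV2 z1 hz1).2
  have e2 := (hV2 z2 hz2).2
  rw [hw1] at e1
  rw [hw2, mul_pow, hζn, one_mul] at e2
  have e3 : f z1 = f z2 := by
    have : f z1 - f z₀ = f z2 - f z₀ := by rw [e1, e2]
    linear_combination this
  have e4 := hinj (hV2 z1 hz1).1 (hV2 z2 hz2).1 e3
  rw [← e4, hw1] at hw2
  apply hζ1
  have : (ζ - 1) * w = 0 := by linear_combination -hw2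
  rcases mul_eq_zero.mp this with h1 | h1
  · linear_combination h1
  · exact absurd h1 hw0

end sepn_univ

theorem sepn_open (a b c d : ℝ) : IsOpen (crect a b c d) := by
  have : crect a b c d = Complex.re ⁻¹' Ioo a b ∩ Complex.im ⁻¹' Ioo c d := by
    ext z
    simp only [crect, mem_ofPred_eq, mem_inter_iff, mem_preimage, mem_Ioo]
    tauto
  rw [this]
  exact (isOpen_Ioo.preimage Complex.continuous_re).inter (isOpen_Ioo.preimage Complex.continuous_im)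

theorem sepn_convex (a b c d : ℝ) : Convex ℝ (crect a b c d) := by
  have : crect a b c d = Complex.reLm ⁻¹' Ioo a b ∩ Complex.imLm ⁻¹' Ioo c d := by
    ext z
    simp only [crect, mem_ofPred_eq, mem_inter_iff, mem_preimage, mem_Ioo, Complex.reLm_coe,
      Complex.imLm_coe]
    tauto
  rw [this]
  exact ((convex_Ioo a b).linear_preimage _).inter ((convex_Ioo c d).linear_preimage _)

/-- second derivatives of `u ∘ Φ` at a point where the gradient of `u` vanishes -/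
theorem sepn_second {Φ : ℂ → ℂ} (hΦ : Differentiable ℂ Φ) {u : ℂ → ℝ} {ζ : ℂ}
    (hsm : ContDiffAt ℝ ∞ u (Φ ζ)) (hcr : fderiv ℝ u (Φ ζ) = 0) (v w : ℂ) :
    dd v (dd w (fun x => u (Φ x))) ζ =
      fderiv ℝ (fderiv ℝ u) (Φ ζ) (deriv Φ ζ * v) (deriv Φ ζ * w) := by
  have hΦd : ∀ z, HasFDerivAt Φ (((ContinuousLinearMap.mul ℝ ℂ) (deriv Φ z))) z := by
    intro z
    have h1 := ((hΦ z).hasDerivAt.hasFDerivAt).restrictScalars ℝ
    have h2 : (ContinuousLinearMap.mul ℝ ℂ) (deriv Φ z) =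
        (ContinuousLinearMap.toSpanSingleton ℂ (deriv Φ z)).restrictScalars ℝ :=
      ContinuousLinearMap.ext fun w => by simp [mul_comm]
    rw [h2]
    exact h1
  have hF : DifferentiableAt ℝ (fderiv ℝ u) (Φ ζ) := by
    have : ContDiffAt ℝ 1 (fderiv ℝ u) (Φ ζ) := hsm.fderiv_right (by norm_cast)
    exact this.differentiableAt (by norm_num)
  have hev : ∀ᶠ z in 𝓝 ζ, DifferentiableAt ℝ u (Φ z) := by
    have h1 : ∀ᶠ y in 𝓝 (Φ ζ), ContDiffAt ℝ 1 u y :=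
      (hsm.of_le (by norm_cast)).eventually (by simp)
    have h2 : ∀ᶠ y in 𝓝 (Φ ζ), DifferentiableAt ℝ u y := h1.mono fun y hy =>
      hy.differentiableAt (by norm_num)
    exact (hΦ.continuous.tendsto ζ).eventually h2
  have heq : dd w (fun x => u (Φ x)) =ᶠ[𝓝 ζ] fun z => fderiv ℝ u (Φ z) (deriv Φ z * w) := by
    filter_upwards [hev] with z hz
    have h1 : HasFDerivAt (fun x => u (Φ x)) _ z := hz.hasFDerivAt.comp z (hΦd z)
    show fderiv ℝ (fun x => u (Φ x)) z w = _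
    rw [h1.fderiv]
    rfl
  show fderiv ℝ (dd w (fun x => u (Φ x))) ζ v = _
  rw [heq.fderiv_eq]
  have h3 : HasFDerivAt (fun z => fderiv ℝ u (Φ z)) _ ζ := hF.hasFDerivAt.comp ζ (hΦd ζ)
  have hd2 : DifferentiableAt ℂ (deriv Φ) ζ := hΦ.analyticAt ζ |>.deriv.differentiableAt
  have h4 : DifferentiableAt ℝ (fun z => deriv Φ z * w) ζ :=
    (hd2.restrictScalars ℝ).mul_const w
  have h5 := h3.clm_apply h4.hasFDerivAt
  rw [h5.fderiv, hcr]
  simp

/-- the tangent -/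
theorem sepn_tangent {D : Set ℂ} (hDo : IsOpen D) (hDc : IsPreconnected D) {lam : ℝ}
    (hlam : 0 < lam) {u : ℂ → ℝ} (hu : Wat D lam u) (hne : ∃ x, u x ≠ 0) {γ : Set ℂ}
    (hγ : SimpleClosedCurve γ) (hγD : γ ⊆ D) (hcr : ∀ x ∈ γ, fderiv ℝ u x = 0) {q : ℂ}
    (hq : q ∈ γ) : ∃ (c : ℝ → ℂ) (T : ℂ), c 0 = q ∧ HasDerivAt c T 0 ∧ T ≠ 0 ∧
      (∀ᶠ t in 𝓝 (0 : ℝ), c t ∈ γ) ∧ fderiv ℝ (fderiv ℝ u) q T = 0 := by
  obtain ⟨hγc, hγcon, hγinf⟩ := scc_basic hγ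
  have hγnt : γ.Nontrivial := hγinf.nontrivial
  have hacc : AccPt q (𝓟 {x | x ∈ D ∧ fderiv ℝ u x = 0}) := by
    have h1 : AccPt q (𝓟 γ) := hγcon.isPreconnected.preperfect_of_nontrivial hγnt q hq
    exact h1.mono (principal_mono.2 fun x hx => ⟨hγD hx, hcr x hx⟩)
  obtain ⟨-, e, δ, ψ, he, hδ, hψ, hψa, hψ0, hsl, hbox, hiff⟩ :=
    crit_graph hDo hDc hlam hu hne (hγD hq) hacc
  obtain ⟨δ', hδ', hle, hmem⟩ := second_order_arc_two hγ he hδ hq
    fun t s ht hs hm => (hiff t s ht hs).1 (hcr _ hm)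
  have hc0 : cx q e ψ 0 = q := by
    unfold cx
    rw [hψ0]
    simp
  have hev : ∀ᶠ t in 𝓝 (0 : ℝ), cx q e ψ t ∈ γ := by
    have h1 : ∀ᶠ s in 𝓝 (0 : ℝ), |s| < δ' :=
      continuous_abs.continuousAt.eventually_lt continuousAt_const (by simpa using hδ')
    filter_upwards [h1] with s hs using hmem s hs
  have hcd : HasDerivAt (cx q e ψ) (cv e ψ 0) 0 := cc_cx_deriv q e hψ 0
  have he0 : e ≠ 0 := by
    intro h
    rw [h, norm_zero] at he
    exact zero_ne_one he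
  have hT0 : cv e ψ 0 ≠ 0 := by
    unfold cv
    refine mul_ne_zero (fun h => ?_) he0
    have := congrArg Complex.re h
    simp at this
  refine ⟨cx q e ψ, cv e ψ 0, hc0, hcd, hT0, hev, ?_⟩
  obtain ⟨hsm, -⟩ := wat_smooth hu (hγD hq)
  have hF : DifferentiableAt ℝ (fderiv ℝ u) q := by
    have : ContDiffAt ℝ 1 (fderiv ℝ u) q := hsm.fderiv_right (by norm_cast)
    exact this.differentiableAt (by norm_num)
  have hFd : HasFDerivAt (fderiv ℝ u) (fderiv ℝ (fderiv ℝ u) q) (cx q e ψ 0) := by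
    rw [hc0]; exact hF.hasFDerivAt
  have h1 : HasDerivAt (fun t => fderiv ℝ u (cx q e ψ t)) (fderiv ℝ (fderiv ℝ u) q (cv e ψ 0)) 0 :=
    hFd.comp_hasDerivAt 0 hcd
  have h2 : HasDerivAt (fun t => fderiv ℝ u (cx q e ψ t)) 0 0 :=
    (hasDerivAt_const (0 : ℝ) (0 : ℂ →L[ℝ] ℝ)).congr_of_eventuallyEq (by
      filter_upwards [hev] with t ht using hcr _ ht)
  exact h1.unique h2

/-- the pulled back tangent at an extremal point of a linear function -/
theorem sepn_extr {Φ : ℂ → ℂ} (hΦ : Differentiable ℂ Φ) {Q γ : Set ℂ} (hQ : IsOpen Q)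
    {ζ : ℂ} (hζ : ζ ∈ Q) (hd : deriv Φ ζ ≠ 0) {c : ℝ → ℂ} {T : ℂ} (hc0 : c 0 = Φ ζ)
    (hc : HasDerivAt c T 0) (hev : ∀ᶠ t in 𝓝 (0 : ℝ), c t ∈ γ) (L : ℂ →L[ℝ] ℝ)
    (hmax : ∀ z ∈ Q, Φ z ∈ γ → L z ≤ L ζ) : L ((deriv Φ ζ)⁻¹ * T) = 0 := by
  have hs : HasStrictDerivAt Φ (deriv Φ ζ) ζ := (hΦ.analyticAt ζ).hasStrictDerivAt
  obtain ⟨G, hG⟩ : ∃ G, G = hs.localInverse Φ (deriv Φ ζ) ζ hd := ⟨_, rfl⟩
  have hGd : HasStrictDerivAt G (deriv Φ ζ)⁻¹ (Φ ζ) := by rw [hG]; exact hs.to_localInverse hd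
  have hG0 : G (Φ ζ) = ζ := by
    rw [hG]
    exact HasStrictFDerivAt.localInverse_apply_image _
  have hGr : ∀ᶠ y in 𝓝 (Φ ζ), Φ (G y) = y := by
    rw [hG]
    exact HasStrictFDerivAt.eventually_right_inverse _
  have hcc : ContinuousAt c 0 := hc.continuousAt
  have hGc : ContinuousAt G (c 0) := by rw [hc0]; exact hGd.hasDerivAt.continuousAt
  have hGQ : ∀ᶠ t in 𝓝 (0 : ℝ), G (c t) ∈ Q := by
    have h1 : ContinuousAt (fun t => G (c t)) 0 := ContinuousAt.comp (f := c) (g := G) hGc hcc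
    apply h1.eventually
    show ∀ᶠ y in 𝓝 (G (c 0)), y ∈ Q
    rw [hc0, hG0]
    exact hQ.mem_nhds hζ
  have hGr' : ∀ᶠ t in 𝓝 (0 : ℝ), Φ (G (c t)) = c t := by
    have h1 : Tendsto c (𝓝 0) (𝓝 (Φ ζ)) := by rw [← hc0]; exact hcc
    exact h1.eventually hGr
  have hloc : IsLocalMax (fun t => L (G (c t))) 0 := by
    filter_upwards [hev, hGQ, hGr'] with t h1 h2 h3
    have h4 := hmax (G (c t)) h2 (by rw [h3]; exact h1)
    rw [hc0, hG0]
    exact h4
  have hder : HasDerivAt (fun t => L (G (c t))) (L ((deriv Φ ζ)⁻¹ * T)) 0 := by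
    have h1 : HasDerivAt G (deriv Φ ζ)⁻¹ (c 0) := by rw [hc0]; exact hGd.hasDerivAt
    have h2 : HasDerivAt (fun t => G (c t)) ((deriv Φ ζ)⁻¹ * T) 0 :=
      HasDerivAt.comp (𝕜 := ℝ) (𝕜' := ℂ) (0 : ℝ) h1 hc
    exact L.hasFDerivAt.comp_hasDerivAt 0 h2
  exact hloc.hasDerivAt_eq_zero hder

/-- TARGET: no closed curves of critical points in coordinate rectangles. -/
theorem sep_nocurve_op {Φ : ℂ → ℂ} (hΦ : Differentiable ℂ Φ) {A B : ℝ → ℝ}
    (hAB : ∀ ζ : ℂ, ‖deriv Φ ζ‖ ^ 2 = A ζ.re + B ζ.im) {a b c d : ℝ} (hab : a < b) (hcd : c < d)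
    (hinj : InjOn Φ (crect a b c d)) {lam μ : ℝ} (hlam : 0 < lam) {u : ℂ → ℝ}
    (hu : Wat (Φ '' crect a b c d) lam u) (hne : ∃ x, u x ≠ 0)
    (hw : ∀ ζ ∈ crect a b c d,
      dd 1 (dd 1 (fun x => u (Φ x))) ζ + lam * A ζ.re * u (Φ ζ) = μ * u (Φ ζ)) :
    ¬ ∃ γ : Set ℂ, SimpleClosedCurve γ ∧ γ ⊆ Φ '' crect a b c d ∧ ∀ x ∈ γ, fderiv ℝ u x = 0 := by
  rintro ⟨γ, hγ, hsub, hcr⟩
  obtain ⟨Q, hQdef⟩ : ∃ Q, Q = crect a b c d := ⟨_, rfl⟩
  have hQo : IsOpen Q := by rw [hQdef]; exact sepn_open a b c d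
  rw [← hQdef] at hinj hu hw hsub
  have hd : ∀ ζ ∈ Q, deriv Φ ζ ≠ 0 := fun ζ hζ =>
    sepn_deriv_ne hQo hΦ.differentiableOn hinj hζ
  have hst : ∀ ζ, HasStrictDerivAt Φ (deriv Φ ζ) ζ := fun ζ => (hΦ.analyticAt ζ).hasStrictDerivAt
  have hmapn : ∀ ζ ∈ Q, map Φ (𝓝 ζ) = 𝓝 (Φ ζ) := fun ζ hζ => (hst ζ).map_nhds_eq (hd ζ hζ)
  have himo : ∀ V, IsOpen V → V ⊆ Q → IsOpen (Φ '' V) := by
    intro V hV hVQ
    rw [isOpen_iff_mem_nhds]
    rintro _ ⟨z, hz, rfl⟩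
    rw [← hmapn z (hVQ hz)]
    exact image_mem_map (hV.mem_nhds hz)
  have hDo : IsOpen (Φ '' Q) := himo Q hQo subset_rfl
  have hDc : IsPreconnected (Φ '' Q) := by
    have h1 : IsPreconnected Q := by rw [hQdef]; exact (sepn_convex a b c d).isPreconnected
    exact h1.image _ hΦ.continuous.continuousOn
  obtain ⟨k, hk, huk⟩ := crit_const hDo hDc hlam hu hne hγ hsub hcr
  obtain ⟨hγc, hγcon, hγinf⟩ := scc_basic hγ
  -- the preimage of the curve is compact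
  have hemb : Topology.IsOpenEmbedding (Q.domRestrict Φ) := by
    refine Topology.IsOpenEmbedding.of_continuous_injective_isOpenMap
      (hΦ.continuous.comp continuous_subtype_val) ?_ ?_
    · intro x y hxy
      exact Subtype.ext (hinj x.2 y.2 hxy)
    · intro V hV
      have h1 : Q.domRestrict Φ '' V = Φ '' (Subtype.val '' V) := by
        rw [image_image]; rfl
      rw [h1]
      exact himo _ (hQo.isOpenMap_subtype_val V hV) (by rintro _ ⟨x, -, rfl⟩; exact x.2)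
  have hpre : IsCompact (Q.domRestrict Φ ⁻¹' γ) := by
    refine (hemb.isInducing.isCompact_preimage_iff ?_).2 hγc
    intro y hy
    obtain ⟨z, hz, rfl⟩ := hsub hy
    exact ⟨⟨z, hz⟩, rfl⟩
  have hpne : (Q.domRestrict Φ ⁻¹' γ).Nonempty := by
    obtain ⟨y, hy⟩ := hγinf.nonempty
    obtain ⟨z, hz, rfl⟩ := hsub hy
    exact ⟨⟨z, hz⟩, hy⟩
  -- extremal points
  have hext : ∀ L : ℂ →L[ℝ] ℝ, ∃ ζ ∈ Q, Φ ζ ∈ γ ∧ ∃ T : ℂ, T ≠ 0 ∧
      fderiv ℝ (fderiv ℝ u) (Φ ζ) T = 0 ∧ L ((deriv Φ ζ)⁻¹ * T) = 0 := by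
    intro L
    obtain ⟨ζ, hζ, hmax⟩ := hpre.exists_isMaxOn hpne (f := fun z : Q => L z)
      (L.continuous.comp continuous_subtype_val).continuousOn
    obtain ⟨cc, T, hc0, hcd, hT, hev, hHT⟩ :=
      sepn_tangent hDo hDc hlam hu hne hγ hsub hcr (q := Φ ζ) hζ
    refine ⟨ζ, ζ.2, hζ, T, hT, hHT, ?_⟩
    exact sepn_extr hΦ hQo ζ.2 (hd ζ ζ.2) hc0 hcd hev L (fun z hz hzγ => by
      have := hmax (show (⟨z, hz⟩ : Q) ∈ Q.domRestrict Φ ⁻¹' γ from hzγ)
      exact this)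
  have hU : ∀ ζ, Φ ζ ∈ γ → ∀ v w : ℂ, dd v (dd w (fun x => u (Φ x))) ζ =
      fderiv ℝ (fderiv ℝ u) (Φ ζ) (deriv Φ ζ * v) (deriv Φ ζ * w) := fun ζ hζ v w =>
    sepn_second hΦ (wat_smooth hu (hsub hζ)).1 (hcr _ hζ) v w
  -- the point with maximal imaginary part
  obtain ⟨ζ₁, hζ₁, hγ₁, T₁, hT₁, hH₁, hL₁⟩ := hext Complex.imCLM
  have hA : lam * A ζ₁.re = μ := by
    have h1 := hw ζ₁ hζ₁
    rw [hU ζ₁ hγ₁, huk _ hγ₁, mul_one] at h1
    have h2 : T₁ = (((deriv Φ ζ₁)⁻¹ * T₁).re) • deriv Φ ζ₁ := by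
      have h3 : (deriv Φ ζ₁)⁻¹ * T₁ = ((((deriv Φ ζ₁)⁻¹ * T₁).re : ℝ) : ℂ) := by
        apply Complex.ext
        · simp
        · rw [Complex.ofReal_im]; exact hL₁
      have h4 : T₁ = ((deriv Φ ζ₁)⁻¹ * T₁) * deriv Φ ζ₁ := by
        field_simp [hd ζ₁ hζ₁]
      rw [Complex.real_smul, ← h3, ← h4]
    have h5 : ((deriv Φ ζ₁)⁻¹ * T₁).re ≠ 0 := by
      intro h0
      rw [h0, zero_smul] at h2
      exact hT₁ h2
    have h6 : fderiv ℝ (fderiv ℝ u) (Φ ζ₁) (deriv Φ ζ₁) = 0 := by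
      rw [h2, map_smul] at hH₁
      exact (smul_eq_zero.1 hH₁).resolve_left h5
    rw [h6] at h1
    simp only [_root_.zero_apply, zero_add] at h1
    exact mul_right_cancel₀ hk h1
  -- the point with maximal real part
  obtain ⟨ζ₂, hζ₂, hγ₂, T₂, hT₂, hH₂, hL₂⟩ := hext Complex.reCLM
  have hB : lam * B ζ₂.im = -μ := by
    have h1 := hw ζ₂ hζ₂
    rw [hU ζ₂ hγ₂, huk _ hγ₂, mul_one] at h1
    obtain ⟨P, hP⟩ : ∃ P, P = deriv Φ ζ₂ := ⟨_, rfl⟩
    rw [← hP] at h1 hL₂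
    have hP0 : P ≠ 0 := by rw [hP]; exact hd ζ₂ hζ₂
    obtain ⟨H, hH⟩ : ∃ H, H = fderiv ℝ (fderiv ℝ u) (Φ ζ₂) := ⟨_, rfl⟩
    rw [← hH] at h1 hH₂
    obtain ⟨hsm, hla⟩ := wat_smooth hu (hsub hγ₂)
    have hF : DifferentiableAt ℝ (fderiv ℝ u) (Φ ζ₂) := by
      have : ContDiffAt ℝ 1 (fderiv ℝ u) (Φ ζ₂) := hsm.fderiv_right (by norm_cast)
      exact this.differentiableAt (by norm_num)
    have hsymm : ∀ v w, H v w = H w v := by
      have h2 : ContDiffAt ℝ 2 u (Φ ζ₂) := hsm.of_le (by norm_cast)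
      rw [hH]
      exact h2.isSymmSndFDerivAt (by simp)
    have hdd : ∀ v w : ℂ, dd v (dd w u) (Φ ζ₂) = H v w := by
      intro v w
      have h1 : HasFDerivAt (fun y => fderiv ℝ u y w) (H.flip w) (Φ ζ₂) := by
        have := hF.hasFDerivAt.clm_apply (hasFDerivAt_const w (Φ ζ₂))
        rw [hH]
        simpa using this
      show fderiv ℝ (fun y => fderiv ℝ u y w) (Φ ζ₂) v = _
      rw [h1.fderiv]
      rfl
    have hlin : ∀ v w : ℂ, H v w = v.re * w.re * H 1 1 + (v.re * w.im + v.im * w.re) *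
        H 1 Complex.I + v.im * w.im * H Complex.I Complex.I := by
      intro v w
      have hv : v = v.re • (1 : ℂ) + v.im • Complex.I := by
        apply Complex.ext <;> simp
      have hw : w = w.re • (1 : ℂ) + w.im • Complex.I := by
        apply Complex.ext <;> simp
      conv_lhs => rw [hv, hw]
      simp only [map_add, map_smul, _root_.add_apply, _root_.smul_apply,
        smul_eq_mul]
      rw [hsymm Complex.I 1]
      ring
    have e3 : H 1 1 + H Complex.I Complex.I = -(lam * k) := by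
      rw [← huk _ hγ₂, ← hla]
      unfold la
      rw [hdd, hdd]
    have h2 : T₂ = (((P⁻¹ * T₂).im) : ℝ) • (Complex.I * P) := by
      have h3 : P⁻¹ * T₂ = (((P⁻¹ * T₂).im : ℝ) : ℂ) * Complex.I := by
        apply Complex.ext
        · simp only [Complex.mul_I_re, Complex.ofReal_im, neg_zero]; exact hL₂
        · simp
      have h4 : T₂ = (P⁻¹ * T₂) * P := by
        field_simp
      rw [Complex.real_smul, ← mul_assoc, ← h3, ← h4]
    have h5 : (P⁻¹ * T₂).im ≠ 0 := by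
      intro h0
      rw [h0, zero_smul] at h2
      exact hT₂ h2
    have h6 : H (Complex.I * P) = 0 := by
      rw [h2, map_smul] at hH₂
      exact (smul_eq_zero.1 hH₂).resolve_left h5
    have h7 : H (Complex.I * P) (Complex.I * P) = 0 := by rw [h6]; rfl
    have h8 : H P P + H (Complex.I * P) (Complex.I * P) =
        (P.re ^ 2 + P.im ^ 2) * (H 1 1 + H Complex.I Complex.I) := by
      rw [hlin P P, hlin (Complex.I * P) (Complex.I * P)]
      simp only [Complex.mul_re, Complex.mul_im, Complex.I_re, Complex.I_im]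
      ring
    have h9 : P.re ^ 2 + P.im ^ 2 = A ζ₂.re + B ζ₂.im := by
      rw [← hAB, ← hP, ← Complex.normSq_eq_norm_sq, Complex.normSq_apply]
      ring
    rw [h7, e3, h9, add_zero] at h8
    rw [h8] at h1
    have h10 : (lam * B ζ₂.im + μ) * k = 0 := by linear_combination -h1
    have h11 := (mul_eq_zero.1 h10).resolve_right hk
    linarith
  -- the contradiction
  have hζ₃ : (⟨ζ₁.re, ζ₂.im⟩ : ℂ) ∈ Q := by
    rw [hQdef] at hζ₁ hζ₂ ⊢
    exact ⟨hζ₁.1, hζ₁.2.1, hζ₂.2.2.1, hζ₂.2.2.2⟩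
  have h1 := hAB ⟨ζ₁.re, ζ₂.im⟩
  have h2 : lam * (A ζ₁.re + B ζ₂.im) = 0 := by rw [mul_add, hA, hB]; ring
  have h3 : A ζ₁.re + B ζ₂.im = 0 := (mul_eq_zero.1 h2).resolve_left hlam.ne'
  simp only at h1
  rw [h3] at h1
  exact hd _ hζ₃ (norm_eq_zero.1 (pow_eq_zero_iff (two_ne_zero)|>.1 h1))

end Pool.Agent.Helper327_Drum
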