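import Pool.Agent.Helper327_Drum.SoDefs
import Pool.Agent.Helper327_Drum.Fin.AS16
import Pool.Agent.Helper327_Drum.Fin.AS18
import Pool.Agent.Helper327_Drum.Fin.SP2
import Pool.Agent.Helper327_Drum.Fin.SP3
import Pool.Agent.Helper327_Drum.Fin.SP4

/-! Drums near regions in which the Helmholtz equation can be separated. -/

set_option autoImplicit false
open MeasureTheory Set Filter Topology ComplexConjugate
open scoped ContDiff InnerProductSpace

namespace Pool.Agent.Helper327_Drum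

open Pool.Agent.TH298.Sch (dd SC Lr X)
open Pool.Agent.R227.SA (la Wat Dat)

theorem gsec_nocurve2 {α lam : ℝ} (h0 : 0 < α) (h1 : α < 2 * Real.pi) (hlam : 0 < lam)
    (hs : SimpleW (gsec α) lam) : NoCurveAt (gsec α) lam := by
  rintro v hv hne ⟨γ, hγ, hsub, hcr⟩
  have hpi := Real.pi_pos
  obtain ⟨n1, n2, -⟩ := gsec_shape h0 h1
  have hw := gsec_wat h0 h1 hlam hv
  obtain ⟨μ, hμ⟩ := hs.mul hv hne hw
  obtain ⟨k, hk, huk⟩ := crit_const n1 n2.isPreconnected hlam hv hne hγ hsub hcr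
  obtain ⟨ρ, hρ, hγρ⟩ := angular_circle n1 n2.isPreconnected hlam hv (μ := μ)
    (fun x hx => by rw [← hμ x hx, indicator_of_mem hx]) hγ hsub hk huk hcr
  have h2 : (ρ : ℂ) ∈ gsec α := hsub (by
    rw [hγρ, mem_sphere_zero_iff_norm, Complex.norm_real, Real.norm_of_nonneg hρ.le])
  obtain ⟨r, θ, hr0, -, hθ0, hθ1, h3⟩ := h2
  have h4 : (ρ : ℂ).im = r * Real.sin θ := by
    rw [h3]
    simp [X, -Complex.ofReal_cos, -Complex.ofReal_sin]
  have h5 : (ρ : ℂ).re = r * Real.cos θ := by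
    rw [h3]
    simp [X, -Complex.ofReal_cos, -Complex.ofReal_sin]
  rw [Complex.ofReal_im] at h4
  rw [Complex.ofReal_re] at h5
  have h6 : Real.sin θ = 0 := by
    rcases mul_eq_zero.1 h4.symm with h | h
    · exact absurd h hr0.ne'
    · exact h
  have h7 : 0 < Real.cos θ := by
    by_contra h
    rw [not_lt] at h
    have := mul_nonpos_of_nonneg_of_nonpos hr0.le h
    linarith
  -- `0 < θ < 2π`, `sin θ = 0`, `cos θ > 0` is impossible
  obtain ⟨n, hn⟩ := Real.sin_eq_zero_iff.1 h6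
  have hn1 : 0 < (n : ℝ) := by
    by_contra h
    rw [not_lt] at h
    have := mul_nonpos_of_nonpos_of_nonneg h hpi.le
    linarith
  have hn2 : (n : ℝ) < 2 := by
    by_contra h
    rw [not_lt] at h
    have := mul_le_mul_of_nonneg_right h hpi.le
    linarith
  have hn3 : n = 1 := by
    have a1 : 0 < n := by exact_mod_cast hn1
    have a2 : n < 2 := by exact_mod_cast hn2
    omega
  rw [← hn, hn3, Int.cast_one, one_mul, Real.cos_pi] at h7
  linarith

theorem coord_nocurve {K : Set ℂ} (hK : CoordRect K) {lam : ℝ} (hlam : 0 < lam)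
    (hs : SimpleW K lam) : NoCurveAt K lam := by
  obtain ⟨Φ, A, B, a, b, c, d, hΦ, hAB, hab, hcd, hinj, rfl⟩ := hK
  intro v hv hne
  obtain ⟨w, hw, hwv⟩ := sep_wat hΦ hAB hab hcd hinj hlam hv
  obtain ⟨μ, hμ⟩ := hs.mul hv hne hw
  refine sep_nocurve_op hΦ hAB hab hcd (hinj.mono subset_closure) hlam hv hne (μ := μ)
    fun ζ hζ => ?_
  rw [← hwv ζ hζ, hμ _ (mem_image_of_mem _ hζ)]

theorem coord_regular {K : Set ℂ} (hK : CoordRect K) : Regular K := by
  obtain ⟨Φ, A, B, a, b, c, d, hΦ, hAB, hab, hcd, hinj, rfl⟩ := hK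
  exact sep_shape hΦ hab hcd hinj

theorem basic2_nocurve {S : Set ℂ} (hS : Basic2 S) {lam : ℝ} (hlam : 0 < lam)
    (hs : SimpleW S lam) : NoCurveAt S lam := by
  rcases hS with ⟨A, B, hB, hAB, rfl | rfl⟩ | ⟨α, h0, h1, rfl⟩
  · exact elli_nocurve hB hAB hlam hs
  · exact half_re_nocurve hB hAB hlam hs
  · exact gsec_nocurve2 h0 h1 hlam hs

theorem basic2_regular {S : Set ℂ} (hS : Basic2 S) : Regular S := by
  rcases hS with ⟨A, B, hB, hAB, rfl | rfl⟩ | ⟨α, h0, h1, rfl⟩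
  · obtain ⟨n1, n2, n3, n4⟩ := elli_convex (hB.trans hAB) hB
    exact convex_shape n1 n2 n3 n4
  · obtain ⟨n1, n2, n3, n4⟩ := elli_convex (hB.trans hAB) hB
    refine convex_shape (n1.inter (isOpen_lt continuous_const Complex.continuous_re))
      (n2.inter (convex_halfSpace_re_gt 0)) (n3.subset inter_subset_left) ?_
    have hA : 0 < A := hB.trans hAB
    refine ⟨((A / 2 : ℝ) : ℂ), ?_, ?_⟩
    · change (((A / 2 : ℝ) : ℂ).re / A) ^ 2 + (((A / 2 : ℝ) : ℂ).im / B) ^ 2 < 1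
      rw [Complex.ofReal_re, Complex.ofReal_im]
      have : A / 2 / A = 1 / 2 := by field_simp
      rw [this]
      norm_num
    · change 0 < ((A / 2 : ℝ) : ℂ).re
      rw [Complex.ofReal_re]
      positivity
  · exact gsec_shape h0 h1

theorem separable2_nocurve {K : Set ℂ} (hK : Separable2 K) {lam : ℝ} (hlam : 0 < lam)
    (hs : SimpleW K lam) : NoCurveAt K lam := by
  rcases hK with hK | ⟨S, hS, σ, a, ha, rfl⟩
  · exact coord_nocurve hK hlam hs
  · exact copy_nocurveAt σ ha (basic2_nocurve hS (by positivity) (copy_simple σ ha hs))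

theorem separable2_regular {K : Set ℂ} (hK : Separable2 K) : Regular K := by
  rcases hK with hK | ⟨S, hS, σ, a, ha, rfl⟩
  · exact coord_regular hK
  · exact copy_shape (basic2_regular hS) σ ha

/-- **Drums near a region in which the Helmholtz equation separates.** -/
theorem near_solvable {K : Set ℂ} {Λ : Set ℝ} (hΛ : IsClosed Λ)
    (hK : Special K ∨ Separable2 K ∧ ∀ lam ∈ Λ, SimpleEigenvalue K lam) {T : ℝ} (hT : 0 < T) :
    ∃ ε : ℝ, 0 < ε ∧ ∀ (R : Set ℂ) (c : ℝ) (z : ℂ → ℝ → ℝ) (g : ℂ → ℝ → ℂ) (lam : ℝ),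
      SimpleClosedCurve R → 0 < c → DrumSolution R c z g →
      {x | Metric.closedBall x ε ⊆ K} ⊆ inside R → inside R ⊆ Metric.thickening ε K →
      Excites R z lam → lam ∈ Λ → lam ≤ T → ¬ NotDiscrete R g := by
  have hreg : Regular K := by
    rcases hK with hK | ⟨hK, -⟩
    · obtain ⟨S, hS, σ, a, ha, rfl⟩ := hK
      obtain ⟨n1, n2, n3, n4⟩ := copy_nice (basic_nice hS) σ ha
      exact convex_shape n1 n2 n3 n4
    · exact separable2_regular hK
  have hno : ∀ (lam : ℝ) (v : ℂ → ℝ), 0 < lam → lam ≤ T → lam ∈ Λ → Wat K lam v →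
      (∃ x, v x ≠ 0) →
      ¬ ∃ γ : Set ℂ, SimpleClosedCurve γ ∧ γ ⊆ K ∧ ∀ x ∈ γ, fderiv ℝ v x = 0 := by
    intro lam v hlam _ hΛ' hv hne
    rcases hK with hK | ⟨hK, hs⟩
    · obtain ⟨S, hS, σ, a, ha, rfl⟩ := hK
      exact copy_nocurve (basic_nocurve hS) σ ha lam v hlam hv hne
    · exact separable2_nocurve hK hlam (simpleW_of hreg.1 (hs lam hΛ')) v hv hne
  obtain ⟨ε, hε, h2⟩ := near_jordan_set hΛ hreg hT hno
  refine ⟨ε, hε, fun R c z g lam hR hc hz hin hout hE hlΛ hle hND => ?_⟩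
  obtain ⟨γ, hγ, hsub, hcr⟩ := hND.curve hR hc hz
  obtain ⟨hlam, u, hm⟩ := mode_of_excites (scc_basic hR).1 hc hz hE
  obtain ⟨hsub', k, hk, huk⟩ := hm.const_curve hR hlam hγ (fun x hx => Or.inl (hsub hx)) hcr
  exact h2 R γ lam k u hR hγ hin hout hlam hle hlΛ hm.wat hsub hk huk
    fun x hx => hm.crit x (hsub hx) (hcr x hx)

end Pool.Agent.Helper327_Drum
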