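import Pool.Agent.TH259.NS.Bes

/-
JOB GM5a (owner helper327, problem MP_d92c84_an), done by helper751. Needs only Pool.Agent.TH259.NS.Bes.
-/

set_option autoImplicit false
open MeasureTheory Set Filter Topology
open scoped ContDiff

namespace Pool.Agent.Helper327_Drum

open TH259.NS (B J)
open TH259.NS (B_deriv B_cont B_zero B_ode)

/-- If between any two elements of `S` there is a zero of `g`, then there are at least
`S.card - 1` zeros of `g` strictly between elements of `S`. -/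
theorem gm5a_interlace (g : ℝ → ℝ) (S : Finset ℝ)
    (h : ∀ s ∈ S, ∀ t ∈ S, s < t → ∃ x, s < x ∧ x < t ∧ g x = 0) :
    ∃ W : Finset ℝ, S.card ≤ W.card + 1 ∧
      ∀ x ∈ W, g x = 0 ∧ (∃ s ∈ S, s < x) ∧ (∃ t ∈ S, x < t) := by
  classical
  induction S using Finset.induction_on_max with
  | empty => exact ⟨∅, by simp, fun x hx => absurd hx (Finset.notMem_empty _)⟩
  | insert t S' hmax ih =>
    obtain ⟨W, hW1, hW2⟩ := ih fun s hs t' ht' hst =>
      h s (Finset.mem_insert_of_mem hs) t' (Finset.mem_insert_of_mem ht') hst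
    rcases S'.eq_empty_or_nonempty with he | hne
    · subst he
      exact ⟨∅, by simp, fun x hx => absurd hx (Finset.notMem_empty _)⟩
    · have htn : t ∉ S' := fun ht => (hmax t ht).false
      obtain ⟨x, hx1, hx2, hx3⟩ := h (S'.max' hne) (Finset.mem_insert_of_mem (S'.max'_mem hne)) t
        (Finset.mem_insert_self _ _) (hmax _ (S'.max'_mem hne))
      have hxW : x ∉ W := by
        intro hx
        obtain ⟨_, _, t', ht', hxt⟩ := hW2 x hx
        have := S'.le_max' t' ht'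
        linarith
      refine ⟨insert x W, ?_, ?_⟩
      · rw [Finset.card_insert_of_notMem hxW, Finset.card_insert_of_notMem htn]
        omega
      · intro y hy
        rcases Finset.mem_insert.1 hy with rfl | hy
        · exact ⟨hx3, ⟨_, Finset.mem_insert_of_mem (S'.max'_mem hne), hx1⟩,
            ⟨t, Finset.mem_insert_self _ _, hx2⟩⟩
        · obtain ⟨e1, ⟨s, hs, hs'⟩, ⟨t', ht', hxt⟩⟩ := hW2 y hy
          exact ⟨e1, ⟨s, Finset.mem_insert_of_mem hs, hs'⟩, ⟨t', Finset.mem_insert_of_mem ht', hxt⟩⟩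

/-- a zero of `B (n + 1)` between two zeros of `B n` -/
theorem gm5a_one (n : ℕ) {s t : ℝ} (hst : s < t) (h0 : B n s = 0) (h1 : B n t = 0) :
    ∃ x, s < x ∧ x < t ∧ B (n + 1) x = 0 := by
  obtain ⟨c, hc, hc'⟩ := exists_hasDerivAt_eq_zero (f := B n) (f' := fun x => -B (n + 1) x) hst
    (B_cont n).continuousOn (by rw [h0, h1]) (fun x _ => B_deriv n x)
  exact ⟨c, hc.1, hc.2, by simpa using hc'⟩

/-- a zero of `B (n + 2)` between two positive zeros of `B n` -/
theorem gm5a_two (n : ℕ) {s t : ℝ} (hs : 0 < s) (hst : s < t) (h0 : B n s = 0) (h1 : B n t = 0) :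
    ∃ x, s < x ∧ x < t ∧ B (n + 2) x = 0 := by
  by_contra hcon
  push Not at hcon
  -- a sign
  obtain ⟨e, he, hpos⟩ : ∃ e : ℝ, (e = 1 ∨ e = -1) ∧ ∀ x ∈ Ioo s t, 0 < e * B (n + 2) x := by
    have hmid : (s + t) / 2 ∈ Ioo s t := ⟨by linarith, by linarith⟩
    have key : ∀ e : ℝ, (e = 1 ∨ e = -1) → 0 < e * B (n + 2) ((s + t) / 2) →
        ∀ x ∈ Ioo s t, 0 < e * B (n + 2) x := by
      intro e he hm x hx
      by_contra hneg
      push Not at hneg
      have hc : Continuous fun y => e * B (n + 2) y := continuous_const.mul (B_cont _)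
      have hpre : IsPreconnected (Ioo s t) := isPreconnected_Ioo
      have h3 := hpre.intermediate_value hx hmid hc.continuousOn
      obtain ⟨y, hy, hy0⟩ := h3 ⟨hneg, hm.le⟩
      have hy0' : e * B (n + 2) y = 0 := hy0
      have hene : e ≠ 0 := by rcases he with rfl | rfl <;> norm_num
      exact hcon y hy.1 hy.2 ((mul_eq_zero.1 hy0').resolve_left hene)
    rcases lt_trichotomy (B (n + 2) ((s + t) / 2)) 0 with h | h | h
    · exact ⟨-1, Or.inr rfl, key (-1) (Or.inr rfl) (by linarith)⟩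
    · exact absurd h (hcon _ hmid.1 hmid.2)
    · exact ⟨1, Or.inl rfl, key 1 (Or.inl rfl) (by linarith)⟩
  have hclos : ∀ x ∈ Icc s t, 0 ≤ e * B (n + 2) x := by
    intro x hx
    have hc : Continuous fun y => e * B (n + 2) y := continuous_const.mul (B_cont _)
    have hcl : x ∈ closure (Ioo s t) := by
      rw [closure_Ioo hst.ne]; exact hx
    exact closure_minimal (fun y hy => (hpos y hy).le) (isClosed_le continuous_const hc) hcl
  have hanti : StrictAntiOn (fun x => e * B (n + 1) x) (Icc s t) := by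
    refine strictAntiOn_of_deriv_neg (convex_Icc s t)
      (continuous_const.mul (B_cont _)).continuousOn fun x hx => ?_
    rw [interior_Icc] at hx
    have hd : HasDerivAt (fun x => e * B (n + 1) x) (e * -B (n + 1 + 1) x) x :=
      (B_deriv (n + 1) x).const_mul e
    rw [hd.deriv]
    have := hpos x hx
    have h2 : B (n + 1 + 1) x = B (n + 2) x := rfl
    rw [h2]
    linarith
  have ht : 0 < t := hs.trans hst
  have hBt : 0 ≤ e * B (n + 1) t := by
    have h3 := B_ode n t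
    rw [h1] at h3
    have h4 := hclos t ⟨hst.le, le_rfl⟩
    have h5 : ((n : ℝ) + 1) * (e * B (n + 1) t) = t * (e * B (n + 2) t) := by
      linear_combination (-e) * h3
    have h6 : 0 ≤ ((n : ℝ) + 1) * (e * B (n + 1) t) := by
      rw [h5]; positivity
    have h7 : (0 : ℝ) < (n : ℝ) + 1 := by positivity
    exact nonneg_of_mul_nonneg_right h6 h7
  obtain ⟨x, hx1, hx2, hx3⟩ := gm5a_one n hst h0 h1
  have h8 := hanti ⟨hx1.le, hx2.le⟩ ⟨hst.le, le_rfl⟩ hx2
  simp only [hx3, mul_zero] at h8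
  linarith

/-- TARGET: zeros of the Bessel functions of higher order. -/
theorem bessel_count {a : ℝ} (Z : Finset ℝ) (hZ : ∀ x ∈ Z, 0 < x ∧ x < a ∧ B 0 x = 0)
    (ha0 : 0 < a) (ha : B 0 a = 0) :
    ∃ W : ℕ → Finset ℝ, (∀ n, ∀ x ∈ W n, 0 < x ∧ x < a ∧ B n x = 0) ∧ W 0 = Z ∧
      ∀ n, 1 ≤ n → Z.card + 1 ≤ (W n).card + (n + 1) / 2 := by
  classical
  have haZ : a ∉ Z := fun h => (hZ a h).2.1.false
  have hS : ∀ x ∈ insert a Z, 0 < x ∧ x ≤ a ∧ B 0 x = 0 := by
    intro x hx
    rcases Finset.mem_insert.1 hx with rfl | hx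
    · exact ⟨ha0, le_rfl, ha⟩
    · obtain ⟨h1, h2, h3⟩ := hZ x hx
      exact ⟨h1, h2.le, h3⟩
  have base : ∀ k, (∀ s t : ℝ, 0 < s → s < t → B 0 s = 0 → B 0 t = 0 →
      ∃ x, s < x ∧ x < t ∧ B k x = 0) →
      ∃ W : Finset ℝ, (∀ x ∈ W, 0 < x ∧ x < a ∧ B k x = 0) ∧ Z.card + 1 ≤ W.card + 1 := by
    intro k hk
    obtain ⟨W, hW1, hW2⟩ := gm5a_interlace (B k) (insert a Z) fun s hs t ht hst =>
      hk s t (hS s hs).1 hst (hS s hs).2.2 (hS t ht).2.2
    refine ⟨W, fun x hx => ?_, ?_⟩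
    · obtain ⟨e1, ⟨s, hs, hs'⟩, ⟨t, ht, ht'⟩⟩ := hW2 x hx
      exact ⟨(hS s hs).1.trans hs', ht'.trans_le (hS t ht).2.1, e1⟩
    · rwa [Finset.card_insert_of_notMem haZ] at hW1
  have main : ∀ n, 1 ≤ n → ∃ W : Finset ℝ, (∀ x ∈ W, 0 < x ∧ x < a ∧ B n x = 0) ∧
      Z.card + 1 ≤ W.card + (n + 1) / 2 := by
    intro n
    induction n using Nat.strong_induction_on with
    | _ n ih =>
      intro hn
      rcases Nat.lt_or_ge n 3 with h3 | h3
      · interval_cases n
        · exact base 1 fun s t _ hst h0 h1 => gm5a_one 0 hst h0 h1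
        · exact base 2 fun s t hs hst h0 h1 => gm5a_two 0 hs hst h0 h1
      · obtain ⟨m, rfl⟩ : ∃ m, n = m + 2 := ⟨n - 2, by omega⟩
        obtain ⟨W, hW1, hW2⟩ := ih m (by omega) (by omega)
        obtain ⟨W', hW'1, hW'2⟩ := gm5a_interlace (B (m + 2)) W fun s hs t ht hst =>
          gm5a_two m (hW1 s hs).1 hst (hW1 s hs).2.2 (hW1 t ht).2.2
        refine ⟨W', fun x hx => ?_, ?_⟩
        · obtain ⟨e1, ⟨s, hs, hs'⟩, ⟨t, ht, ht'⟩⟩ := hW'2 x hx
          exact ⟨(hW1 s hs).1.trans hs', ht'.trans (hW1 t ht).2.1, e1⟩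
        · have : (m + 2 + 1) / 2 = (m + 1) / 2 + 1 := by omega
          omega
  choose! W hW1 hW2 using main
  refine ⟨fun n => if n = 0 then Z else W n, ?_, by simp, ?_⟩
  · intro n x hx
    rcases Nat.eq_zero_or_pos n with rfl | hn
    · simp only [if_true] at hx
      exact hZ x hx
    · simp only [hn.ne', if_false] at hx
      exact hW1 n hn x hx
  · intro n hn
    have hn0 : n ≠ 0 := by omega
    simp only [hn0, if_false]
    exact hW2 n hn

end Pool.Agent.Helper327_Drum
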