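import Pool.Agent.Helper327_Drum.Fin.K1d
import Pool.Agent.Helper327_Drum.Fin.FM1

/-
JOB FQ1 (owner helper327, problem MP_d92c84_an). All imports are on origin/main.
-/

set_option autoImplicit false
open MeasureTheory Set Filter Topology
open scoped ContDiff InnerProductSpace

namespace Pool.Agent.Helper327_Drum

open Pool.Agent.TH298.Sch (dd SC)
open Pool.Agent.R227.SA (la Wat Dat)

/-
This is `index_lemma` (end of Fin/K1b.lean) with an inequality instead of the equalities hQ; the proof there can be copied: for a in the kernel of L, S = T a satisfies the hypothesis of `spec_ineq`,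
so ‖S 0‖² ≤ μ ‖S‖², and hQ gives the reverse inequality, so there is equality and the proof continues unchanged. (`exists_max`, `V_inner_smul`, `io_apply` are in Fin/K1b.lean.)
-/

/-- TARGET 1 -/
theorem index_lemma_le {D : Set ℂ} (hDo : IsOpen D) (hb : Bornology.IsBounded D) {lam : ℝ}
    (hlam : 0 < lam) {n : ℕ} (hn : 1 ≤ n) (F : Fin (n + 1) → V D) (hli : LinearIndependent ℝ F)
    (hQ : ∀ a : Fin (n + 1) → ℝ,
      ‖∑ i, a i • F i‖ ^ 2 ≤ (1 + lam) * ‖(∑ i, a i • F i).1 0‖ ^ 2)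
    (hE : ∀ a : Fin (n + 1) → ℝ,
      (∀ G : V D, ⟪∑ i, a i • F i, G⟫_ℝ = (1 + lam) * ⟪(∑ i, a i • F i).1 0, G.1 0⟫_ℝ) →
      ∃ s : ℝ, ∑ i, a i • F i = s • F 0) :
    dirichletEigenvalue n D < lam := by
  by_contra hcon
  set μ : ℝ := 1 / (1 + lam) with hμ
  have hμ0 : 0 < μ := by positivity
  have hμi : 1 / μ - 1 = lam := by
    rw [hμ, one_div_one_div]
    ring
  have hμi' : μ⁻¹ = 1 + lam := by
    rw [hμ, one_div, inv_inv]
  have hno : ¬ ∃ (ψ : Fin n → L2) (ν : Fin n → ℝ), Orthonormal ℝ ψ ∧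
      ∀ j, μ < ν j ∧ K D (ψ j) = ν j • ψ j := by
    rintro ⟨ψ, ν, ho, hν⟩
    have := ev_lt_of_eig hDo hb hμ0 hn ψ ν ho hν
    rw [hμi] at this
    exact hcon this
  obtain ⟨m, ψ, hmn, hψ⟩ := exists_max hno
  let T : (Fin (n + 1) → ℝ) →ₗ[ℝ] V D := Fintype.linearCombination ℝ F
  have hT : ∀ a, T a = ∑ i, a i • F i := fun a => Fintype.linearCombination_apply ℝ F a
  have hTinj : Function.Injective T := by
    rw [← LinearMap.ker_eq_bot, LinearMap.ker_eq_bot']
    intro a ha
    rw [hT] at ha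
    funext i
    exact (Fintype.linearIndependent_iff.1 hli) a ha i
  let L : (Fin (n + 1) → ℝ) →ₗ[ℝ] (Fin m → ℝ) :=
    LinearMap.pi fun j => ((innerSL ℝ (ψ j)).toLinearMap ∘ₗ (io D).toLinearMap) ∘ₗ T
  have hL : ∀ a j, L a j = ⟪ψ j, (T a).1 0⟫_ℝ := fun a j => rfl
  have hker : ∀ a, L a = 0 → T a ∈ Submodule.span ℝ {F 0} := by
    intro a ha
    have h0 : ∀ w ∈ Submodule.span ℝ (range ψ), ⟪w, (T a).1 0⟫_ℝ = 0 := by
      intro w hw
      induction hw using Submodule.span_induction with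
      | mem w hw =>
        obtain ⟨j, rfl⟩ := hw
        rw [← hL a j, ha]
        rfl
      | zero => rw [inner_zero_left]
      | add u v _ _ hu hv => rw [inner_add_left, hu, hv, add_zero]
      | smul c u _ hu => rw [real_inner_smul_left, hu, mul_zero]
    have h1 : ∀ (ν : ℝ) (χ : L2), μ < ν → K D χ = ν • χ → ⟪χ, (T a).1 0⟫_ℝ = 0 :=
      fun ν χ h2 h3 => h0 χ (hψ ν χ h2 h3)
    obtain ⟨h2a, h2⟩ := spec_ineq hb hμ0 (T a) h1
    have h3 : ‖T a‖ ^ 2 ≤ (1 + lam) * ‖(T a).1 0‖ ^ 2 := by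
      rw [hT]
      exact hQ a
    have h4 : ‖(T a).1 0‖ ^ 2 = μ * ‖T a‖ ^ 2 := by
      refine le_antisymm h2a ?_
      have h3' := mul_le_mul_of_nonneg_left h3 hμ0.le
      refine h3'.trans (le_of_eq ?_)
      rw [hμ]
      field_simp
    have h5 := h2 h4
    rw [hμi'] at h5
    rw [hT] at h5 ⊢
    obtain ⟨s, hs⟩ := hE a h5
    rw [hs]
    exact Submodule.smul_mem _ _ (Submodule.mem_span_singleton_self _)
  -- dimension count
  have h6 : Module.finrank ℝ (LinearMap.ker L) ≤ 1 := by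
    let T' : LinearMap.ker L →ₗ[ℝ] Submodule.span ℝ {F 0} :=
      (T.comp (LinearMap.ker L).subtype).codRestrict _ fun a => hker a.1 a.2
    have hT' : Function.Injective T' := by
      intro a b hab
      have : T a.1 = T b.1 := congrArg Subtype.val hab
      exact Subtype.ext (hTinj this)
    refine (LinearMap.finrank_le_finrank_of_injective hT').trans ?_
    have h9 := finrank_span_le_card (R := ℝ) ({F 0} : Set (V D))
    simpa using h9
  have h7 := L.finrank_range_add_finrank_ker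
  rw [Module.finrank_fin_fun] at h7
  have h8 : Module.finrank ℝ (LinearMap.range L) ≤ m := by
    have := (LinearMap.range L).finrank_le
    rwa [Module.finrank_fin_fun] at this
  omega

/-
This is `index_family` (end of Fin/K1d.lean) where φ i is a solution for its own eigenvalue ν i ≤ lam, and the nonpositivity of the quadratic form is a hypothesis. Its proof can be copied with
`index_lemma_le` instead of `index_lemma` (`helm_V` for φ i and ν i; the part the null space is unchanged, it uses only that φ 0 is a solution on D for lam = ν 0 and that the others vanish near a).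
-/

/-- TARGET 2 -/
theorem index_family_le {D : Set ℂ} (hDo : IsOpen D) (hb : Bornology.IsBounded D)
    (hDc : IsPreconnected D) {lam : ℝ} (hlam : 0 < lam) {n : ℕ} (hn : 1 ≤ n)
    (G : Fin (n + 1) → Set ℂ) (φ : Fin (n + 1) → ℂ → ℝ) (ν : Fin (n + 1) → ℝ)
    (hG : ∀ i, IsOpen (G i) ∧ G i ⊆ D) (hν : ∀ i, 0 < ν i) (hφ : ∀ i, Wat (G i) (ν i) (φ i))
    (h0 : G 0 = D) (hν0 : ν 0 = lam)
    (hQ : ∀ F : Fin (n + 1) → W3, (∀ i, F i ∈ V (G i) ∧ F i 0 =ᵐ[volume] φ i ∧
        ∀ H ∈ V (G i), ⟪F i, H⟫_ℝ = (1 + ν i) * ⟪F i 0, H 0⟫_ℝ) →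
      ∀ a : Fin (n + 1) → ℝ, ‖∑ i, a i • F i‖ ^ 2 ≤ (1 + lam) * ‖(∑ i, a i • F i) 0‖ ^ 2)
    (hex : ∃ a ∈ D, ∀ i, i ≠ 0 → φ i =ᶠ[𝓝 a] 0) (hli : LinearIndependent ℝ φ) :
    dirichletEigenvalue n D < lam := by
  choose F hFV hF0 hFe using fun i => helm_V (hG i).1 (hb.subset (hG i).2) (hφ i)
  have hFD : ∀ i, F i ∈ V D := fun i => V_mono (hG i).2 (hFV i)
  -- the sums
  have hsum : ∀ a : Fin (n + 1) → ℝ,
      (∑ i, a i • F i) 0 =ᵐ[volume] fun x => ∑ i, a i * φ i x := by
    intro a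
    have h1 : (∑ i, a i • F i) 0 = ∑ i, a i • (F i 0) := by
      have := map_sum (PiLp.proj 2 (fun _ : Fin 3 => L2) (0 : Fin 3) : W3 →L[ℝ] L2)
        (fun i => a i • F i) Finset.univ
      exact this
    rw [h1]
    have h2 : ∀ s : Finset (Fin (n + 1)), ((∑ i ∈ s, a i • (F i 0) : L2) : ℂ → ℝ) =ᵐ[volume]
        fun x => ∑ i ∈ s, a i * φ i x := by
      intro s
      induction s using Finset.induction_on with
      | empty =>
        simp only [Finset.sum_empty]
        exact Lp.coeFn_zero ℝ 2 (volume : Measure ℂ)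
      | insert i s hi ih =>
        rw [Finset.sum_insert hi]
        filter_upwards [Lp.coeFn_add (a i • (F i 0)) (∑ i ∈ s, a i • (F i 0)), ih, hF0 i,
          Lp.coeFn_smul (a i) (F i 0)] with x e1 e2 e3 e4
        rw [e1, Pi.add_apply, e2, e4, Pi.smul_apply, e3, smul_eq_mul, Finset.sum_insert hi]
    exact h2 Finset.univ
  have hcont : ∀ a : Fin (n + 1) → ℝ, Continuous fun x => ∑ i, a i * φ i x := by
    intro a
    exact continuous_finsetSum _ (fun i _ => continuous_const.mul (hφ i).cont)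
  refine index_lemma_le hDo hb hlam hn (fun i => ⟨F i, hFD i⟩) ?_ ?_ ?_
  · -- linear independence
    rw [Fintype.linearIndependent_iff] at hli ⊢
    intro a ha
    apply hli
    have h1 : ∑ i, a i • F i = 0 := by
      have := congrArg Subtype.val ha
      simpa using this
    have h2 := hsum a
    rw [h1] at h2
    have h3 : (fun x => ∑ i, a i * φ i x) =ᵐ[volume] fun _ => (0 : ℝ) := by
      filter_upwards [h2, Lp.coeFn_zero ℝ 2 (volume : Measure ℂ)] with x e1 e2
      rw [← e1]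
      exact e2
    have h4 := (Continuous.ae_eq_iff_eq volume (hcont a) continuous_const).1 h3
    funext x
    have := congrFun h4 x
    simpa using this
  · -- the quadratic form
    intro a
    have h1 := hQ F (fun i => ⟨hFV i, hF0 i, hFe i⟩) a
    have h2 : ((∑ i, a i • (⟨F i, hFD i⟩ : V D) : V D) : W3) = ∑ i, a i • F i := by
      simp
    change ‖((∑ i, a i • (⟨F i, hFD i⟩ : V D) : V D) : W3)‖ ^ 2 ≤
      (1 + lam) * ‖((∑ i, a i • (⟨F i, hFD i⟩ : V D) : V D) : W3) 0‖ ^ 2
    rw [h2]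
    exact h1
  · -- the null space
    intro a ha
    refine ⟨a 0, ?_⟩
    set S : W3 := ∑ i, a i • F i with hS
    have hSV : S ∈ V D := Submodule.sum_mem _ (fun i _ => Submodule.smul_mem _ _ (hFD i))
    have hSe : ((∑ i, a i • (⟨F i, hFD i⟩ : V D) : V D) : W3) = S := by
      simp [hS]
    have hw : ∀ H ∈ V D, ⟪S, H⟫_ℝ = (1 + lam) * ⟪S 0, H 0⟫_ℝ := by
      intro H hH
      have := ha ⟨H, hH⟩
      rw [Submodule.coe_inner, hSe] at this
      exact this
    have hwat : Wat D lam (fun x => ∑ i, a i * φ i x) := by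
      refine wat_of_weak hDo hlam hSV (hcont a) ?_ (hsum a) hw
      intro x hx
      refine Finset.sum_eq_zero (fun i _ => ?_)
      rw [(hφ i).out x (fun h => hx ((hG i).2 h)), mul_zero]
    have hw0 : Wat D lam (φ 0) := by
      have := hφ 0
      rwa [h0, hν0] at this
    obtain ⟨p, hp, hpz⟩ := hex
    have huc := (wat_sub_smul hwat hw0 (a 0)).uc hlam hDc hp (by
      have h1 : ∀ᶠ x in 𝓝 p, ∀ i, i ≠ 0 → φ i x = 0 := by
        rw [eventually_all]
        intro i
        by_cases hi : i = 0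
        · simp [hi]
        · filter_upwards [hpz i hi] with x hx _ using hx
      filter_upwards [h1] with x hx
      rw [Fin.sum_univ_succ, Finset.sum_eq_zero (fun i _ => by
        rw [hx _ (Fin.succ_ne_zero i), mul_zero])]
      simp)
    have hfin : S = a 0 • F 0 := by
      refine io_inj hSV (Submodule.smul_mem _ _ (hFD 0)) ?_
      rw [PiLp.smul_apply]
      apply Lp.ext
      filter_upwards [hsum a, hF0 0, Lp.coeFn_smul (a 0) (F 0 0)] with x e1 e2 e3
      rw [e1, e3, Pi.smul_apply, e2, smul_eq_mul]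
      have := huc x
      linarith
    apply Subtype.ext
    rw [hSe, hfin]
    rfl

/-
`index_family_option` (Fin/FM1.lean) shows the reindexing.
-/

/-- TARGET 3: the same for an arbitrary finite index type with a distinguished element `none`. -/
theorem index_family_le_option {D : Set ℂ} (hDo : IsOpen D) (hb : Bornology.IsBounded D)
    (hDc : IsPreconnected D) {lam : ℝ} (hlam : 0 < lam) {n : ℕ} (hn : 1 ≤ n)
    {ι : Type} [Fintype ι] (hcard : Fintype.card ι = n)
    (G : Option ι → Set ℂ) (φ : Option ι → ℂ → ℝ) (ν : Option ι → ℝ)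
    (hG : ∀ i, IsOpen (G i) ∧ G i ⊆ D) (hν : ∀ i, 0 < ν i) (hφ : ∀ i, Wat (G i) (ν i) (φ i))
    (h0 : G none = D) (hν0 : ν none = lam)
    (hQ : ∀ F : Option ι → W3, (∀ i, F i ∈ V (G i) ∧ F i 0 =ᵐ[volume] φ i ∧
        ∀ H ∈ V (G i), ⟪F i, H⟫_ℝ = (1 + ν i) * ⟪F i 0, H 0⟫_ℝ) →
      ∀ a : Option ι → ℝ, ‖∑ i, a i • F i‖ ^ 2 ≤ (1 + lam) * ‖(∑ i, a i • F i) 0‖ ^ 2)
    (hex : ∃ a ∈ D, ∀ i, φ (some i) =ᶠ[𝓝 a] 0) (hli : LinearIndependent ℝ φ) :
    dirichletEigenvalue n D < lam := by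
  set e : Fin (n + 1) ≃ Option ι :=
    (finSuccEquiv n).trans (Equiv.optionCongr (Fintype.equivFinOfCardEq hcard).symm) with he
  have he0 : e 0 = none := by simp [he]
  obtain ⟨a, ha, hz⟩ := hex
  refine index_family_le hDo hb hDc hlam hn (G ∘ e) (φ ∘ e) (ν ∘ e) (fun i => hG (e i))
    (fun i => hν (e i)) (fun i => hφ (e i)) ?_ ?_ ?_ ⟨a, ha, fun i hi => ?_⟩
    (hli.comp e e.injective)
  · change G (e 0) = D
    rw [he0, h0]
  · change ν (e 0) = lam
    rw [he0, hν0]
  · intro F hF b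
    have h1 := hQ (F ∘ e.symm) (fun i => by
      have h2 := hF (e.symm i)
      simp only [Function.comp_apply, Equiv.apply_symm_apply] at h2
      exact h2) (b ∘ e.symm)
    have h3 : ∑ i, (b ∘ e.symm) i • (F ∘ e.symm) i = ∑ i, b i • F i :=
      Equiv.sum_comp e.symm (fun i => b i • F i)
    rw [h3] at h1
    exact h1
  · change φ (e i) =ᶠ[𝓝 a] 0
    have h1 : e i ≠ none := by
      rw [← he0]
      exact fun h => hi (e.injective h)
    obtain ⟨j, hj⟩ := Option.ne_none_iff_exists'.1 h1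
    rw [hj]
    exact hz j

end Pool.Agent.Helper327_Drum
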