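import Pool.Agent.R227.SA10

/-
JOB FQ2 (owner helper327, problem MP_d92c84_an). All imports are on origin/main.
-/

set_option autoImplicit false
open MeasureTheory Set Filter Topology
open scoped ContDiff InnerProductSpace

namespace Pool.Agent.Helper327_Drum

open Pool.Agent.TH298.Sch (dd SC)
open Pool.Agent.R227.SA (la Wat Dat)

/-
Plain proof of TARGET 1. Write |x| for the norm of L, ‖x‖ for the norm of H, C(b,b') = ⟪J (E b), J (E b')⟫. By hE and symmetry (1+ν b) C(b,b') = ⟪E b, E b'⟫ = (1+ν b') C(b,b'), so C(b,b') = 0 or ν b = ν b'.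
For g = Σ t_b E b put Tg = Σ ν_b t_b E b; then ⟪g, G⟫ = ⟪J (g + Tg), J G⟫ for all G.
(i) ⟪J (lam g - Tg), J g⟫ = Σ (lam - ν_b) t_b t_b' C(b,b') = |Σ √(lam - ν_b) t_b J (E b)|² ≥ 0, because (lam - ν_b) C(b,b') = √(lam - ν_b) √(lam - ν_b') C(b,b'). In the same way ⟪J (Tg - ν₀ g), J g⟫ ≥ 0.
So ‖g‖² ≤ (1+lam) |J g|² and ‖g‖² ≥ (1+ν₀) |J g|².
(ii) Let p = Σ s_a P a. The subspace J (span E) of L is finite dimensional, so there is g = Σ r_b E b with J p - J g orthogonal to J (E b) for all b (orthogonal projection). Then for every f in the span of the E b: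
⟪p - g, f⟫ = ⟪J (f + Tf), J (p - g)⟫ = 0. Put e = Σ t_b E b, X = p + e = (p - g) + (e + g). Both ⟪p - g, e + g⟫ = 0 and ⟪J (p - g), J (e + g)⟫ = 0, so ‖X‖² - (1+lam)|J X|² =
[‖p - g‖² - (1+lam)|J (p - g)|²] + [‖e + g‖² - (1+lam)|J (e + g)|²], and the second bracket is ≤ 0 by (i).
(iii) ‖p - g‖² = ‖p‖² - ‖g‖² (as ⟪p - g, g⟫ = 0), |J (p - g)|² = |J p|² - |J g|², ‖p‖² = (1+ν₀) |J p|² by hP, ‖g‖² ≥ (1+ν₀) |J g|²; so ‖p - g‖² ≤ (1+ν₀) |J (p - g)|² ≤ (1+lam) |J (p - g)|².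
-/

/-- auxiliary: a weighted quadratic form -/
theorem aux_quad {L : Type*} [NormedAddCommGroup L] [InnerProductSpace ℝ L] {κ : Type*}
    [Fintype κ] (e : κ → L) (w : κ → ℝ) (hw : ∀ b, 0 ≤ w b)
    (hc : ∀ b b', ⟪e b, e b'⟫_ℝ = 0 ∨ w b = w b') (t : κ → ℝ) :
    0 ≤ ∑ b, ∑ b', t b * t b' * (w b * ⟪e b, e b'⟫_ℝ) := by
  have h : ∑ b, ∑ b', t b * t b' * (w b * ⟪e b, e b'⟫_ℝ)
      = ‖∑ b, (t b * Real.sqrt (w b)) • e b‖ ^ 2 := by
    rw [← real_inner_self_eq_norm_sq, sum_inner]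
    refine Finset.sum_congr rfl fun b _ => ?_
    rw [inner_sum]
    refine Finset.sum_congr rfl fun b' _ => ?_
    rw [real_inner_smul_left, real_inner_smul_right]
    rcases hc b b' with h0 | h0
    · rw [h0]; ring
    · have := Real.mul_self_sqrt (hw b)
      rw [← h0]
      calc t b * t b' * (w b * ⟪e b, e b'⟫_ℝ)
          = t b * t b' * ((Real.sqrt (w b) * Real.sqrt (w b)) * ⟪e b, e b'⟫_ℝ) := by rw [this]
        _ = _ := by ring
  rw [h]
  positivity

/-- auxiliary: two sided bound for the quadratic form on the span of the `E b` -/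
theorem aux_two {H L : Type*} [NormedAddCommGroup H] [InnerProductSpace ℝ H]
    [NormedAddCommGroup L] [InnerProductSpace ℝ L] (J : H →ₗ[ℝ] L) {κ : Type*}
    [Fintype κ] (E : κ → H) {ν₀ lam : ℝ} (ν : κ → ℝ)
    (hν : ∀ b, ν₀ ≤ ν b ∧ ν b ≤ lam)
    (hE : ∀ b (G : H), ⟪E b, G⟫_ℝ = (1 + ν b) * ⟪J (E b), J G⟫_ℝ) (t : κ → ℝ) :
    ‖∑ b, t b • E b‖ ^ 2 ≤ (1 + lam) * ‖J (∑ b, t b • E b)‖ ^ 2 ∧
      (1 + ν₀) * ‖J (∑ b, t b • E b)‖ ^ 2 ≤ ‖∑ b, t b • E b‖ ^ 2 := by
  have hsym : ∀ b b', ⟪J (E b), J (E b')⟫_ℝ = 0 ∨ ν b = ν b' := by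
    intro b b'
    have h1 := hE b (E b')
    have h2 := hE b' (E b)
    rw [real_inner_comm, h1, real_inner_comm (J (E b)) (J (E b'))] at h2
    have h3 : (ν b - ν b') * ⟪J (E b), J (E b')⟫_ℝ = 0 := by
      have : (1 + ν b) * ⟪J (E b), J (E b')⟫_ℝ = (1 + ν b') * ⟪J (E b), J (E b')⟫_ℝ := by
        exact h2
      linarith
    rcases mul_eq_zero.1 h3 with h | h
    · right; linarith
    · left; exact h
  have e1 : ‖∑ b, t b • E b‖ ^ 2
      = ∑ b, ∑ b', t b * t b' * ((1 + ν b) * ⟪J (E b), J (E b')⟫_ℝ) := by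
    rw [← real_inner_self_eq_norm_sq, sum_inner]
    refine Finset.sum_congr rfl fun b _ => ?_
    rw [inner_sum]
    refine Finset.sum_congr rfl fun b' _ => ?_
    rw [real_inner_smul_left, real_inner_smul_right, hE]
    ring
  have e2 : ‖J (∑ b, t b • E b)‖ ^ 2
      = ∑ b, ∑ b', t b * t b' * ⟪J (E b), J (E b')⟫_ℝ := by
    rw [← real_inner_self_eq_norm_sq, map_sum, sum_inner]
    refine Finset.sum_congr rfl fun b _ => ?_
    rw [inner_sum]
    refine Finset.sum_congr rfl fun b' _ => ?_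
    rw [map_smul, map_smul, real_inner_smul_left, real_inner_smul_right]
    ring
  have q1 := aux_quad (fun b => J (E b)) (fun b => lam - ν b) (fun b => by linarith [(hν b).2])
    (fun b b' => (hsym b b').imp id (fun h => by rw [h])) t
  have q2 := aux_quad (fun b => J (E b)) (fun b => ν b - ν₀) (fun b => by linarith [(hν b).1])
    (fun b b' => (hsym b b').imp id (fun h => by rw [h])) t
  constructor
  · rw [e1, e2, Finset.mul_sum, ← sub_nonneg, ← Finset.sum_sub_distrib]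
    refine le_of_le_of_eq q1 (Finset.sum_congr rfl fun b _ => ?_)
    rw [Finset.mul_sum, ← Finset.sum_sub_distrib]
    refine Finset.sum_congr rfl fun b' _ => ?_
    ring
  · rw [e1, e2, Finset.mul_sum, ← sub_nonneg, ← Finset.sum_sub_distrib]
    refine le_of_le_of_eq q2 (Finset.sum_congr rfl fun b _ => ?_)
    rw [Finset.mul_sum, ← Finset.sum_sub_distrib]
    refine Finset.sum_congr rfl fun b' _ => ?_
    ring

/-- TARGET 1: nonpositivity of the quadratic form on a space of solutions for several eigenvalues. -/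
theorem multi_le {H L : Type*} [NormedAddCommGroup H] [InnerProductSpace ℝ H]
    [NormedAddCommGroup L] [InnerProductSpace ℝ L] (J : H →ₗ[ℝ] L) {ι κ : Type*} [Fintype ι]
    [Fintype κ] (P : ι → H) (E : κ → H) {ν₀ lam : ℝ} (ν : κ → ℝ) (h0 : 0 ≤ ν₀) (hl : ν₀ ≤ lam)
    (hν : ∀ b, ν₀ ≤ ν b ∧ ν b ≤ lam)
    (hP : ∀ a b, ⟪P a, P b⟫_ℝ = (1 + ν₀) * ⟪J (P a), J (P b)⟫_ℝ)
    (hE : ∀ b (G : H), ⟪E b, G⟫_ℝ = (1 + ν b) * ⟪J (E b), J G⟫_ℝ) (s : ι → ℝ) (t : κ → ℝ) :
    ‖∑ a, s a • P a + ∑ b, t b • E b‖ ^ 2 ≤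
      (1 + lam) * ‖J (∑ a, s a • P a + ∑ b, t b • E b)‖ ^ 2 := by
  classical
  set p : H := ∑ a, s a • P a with hp
  set S : Submodule ℝ L := Submodule.span ℝ (Set.range fun b => J (E b)) with hS
  have : FiniteDimensional ℝ S := FiniteDimensional.span_of_finite ℝ (Set.finite_range _)
  obtain ⟨r, hr⟩ := (Submodule.mem_span_range_iff_exists_fun ℝ).1
    (show S.starProjection (J p) ∈ Submodule.span ℝ (Set.range fun b => J (E b)) from
      S.starProjection_apply_mem (J p))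
  set g : H := ∑ b, r b • E b with hg
  have hJg : J g = S.starProjection (J p) := by
    rw [← hr, hg, map_sum]
    exact Finset.sum_congr rfl fun b _ => by rw [map_smul]
  have horth : ∀ b, ⟪J (E b), J (p - g)⟫_ℝ = 0 := by
    intro b
    rw [map_sub, hJg]
    have hmem : J (E b) ∈ S := Submodule.subset_span ⟨b, rfl⟩
    exact (Submodule.mem_orthogonal _ _).1 (S.sub_starProjection_mem_orthogonal (J p)) _ hmem
  have hf1 : ∀ c : κ → ℝ, ⟪∑ b, c b • E b, p - g⟫_ℝ = 0 := by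
    intro c
    rw [sum_inner]
    refine Finset.sum_eq_zero fun b _ => ?_
    rw [real_inner_smul_left, hE, horth]; ring
  have hf2 : ∀ c : κ → ℝ, ⟪J (∑ b, c b • E b), J (p - g)⟫_ℝ = 0 := by
    intro c
    rw [map_sum, sum_inner]
    refine Finset.sum_eq_zero fun b _ => ?_
    rw [map_smul, real_inner_smul_left, horth]; ring
  set d : H := p - g with hd
  set e' : H := ∑ b, (t b + r b) • E b with he'
  have hX : p + ∑ b, t b • E b = e' + d := by
    rw [he', hd, hg]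
    simp only [add_smul, Finset.sum_add_distrib]
    abel
  have hpg : p = g + d := by rw [hd]; abel
  have n1 : ‖p + ∑ b, t b • E b‖ ^ 2 = ‖e'‖ ^ 2 + ‖d‖ ^ 2 := by
    rw [hX, norm_add_sq_real, hf1]; ring
  have n2 : ‖J (p + ∑ b, t b • E b)‖ ^ 2 = ‖J e'‖ ^ 2 + ‖J d‖ ^ 2 := by
    rw [hX, map_add, norm_add_sq_real, hf2]; ring
  have n3 : ‖p‖ ^ 2 = ‖g‖ ^ 2 + ‖d‖ ^ 2 := by
    conv_lhs => rw [hpg]
    rw [norm_add_sq_real, hf1]; ring
  have n4 : ‖J p‖ ^ 2 = ‖J g‖ ^ 2 + ‖J d‖ ^ 2 := by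
    conv_lhs => rw [hpg]
    rw [map_add, norm_add_sq_real, hf2]; ring
  have n5 : ‖p‖ ^ 2 = (1 + ν₀) * ‖J p‖ ^ 2 := by
    rw [← real_inner_self_eq_norm_sq, ← real_inner_self_eq_norm_sq, hp, map_sum, sum_inner,
      sum_inner, Finset.mul_sum]
    refine Finset.sum_congr rfl fun b _ => ?_
    rw [inner_sum, inner_sum, Finset.mul_sum]
    refine Finset.sum_congr rfl fun b' _ => ?_
    rw [map_smul, map_smul, real_inner_smul_left, real_inner_smul_right, real_inner_smul_left,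
      real_inner_smul_right, hP]
    ring
  have b1 := (aux_two J E ν hν hE (fun b => t b + r b)).1
  have b2 := (aux_two J E ν hν hE r).2
  rw [n1, n2]
  have hJd : 0 ≤ ‖J d‖ ^ 2 := by positivity
  have b1' : ‖e'‖ ^ 2 ≤ (1 + lam) * ‖J e'‖ ^ 2 := b1
  have b2' : (1 + ν₀) * ‖J g‖ ^ 2 ≤ ‖g‖ ^ 2 := b2
  nlinarith [mul_nonneg (sub_nonneg.2 hl) hJd]

/-
`la f x = dd 1 (dd 1 f) x + dd I (dd I f) x` (Laplacian), `dd h f x = fderiv ℝ f x h`.
Plain proof of TARGET 2. Induction on n: applying la + ν_0 to Σ f_i = 0 on the open set O gives Σ_{i ≥ 1} (ν_0 - ν_i) f_i = 0 on O; by induction (for the functions (ν_0 - ν_i) f_i) f_i = 0 on O for i ≥ 1, hence also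
f_0 = 0. (la is linear on functions smooth at the point.)
-/

theorem aux_dd_smooth {f : ℂ → ℝ} {x : ℂ} (h : ContDiffAt ℝ ∞ f x) (v : ℂ) :
    ContDiffAt ℝ ∞ (dd v f) x := by
  have h1 : ContDiffAt ℝ ∞ (fderiv ℝ f) x := h.fderiv_right (m := ∞) (by simp)
  exact h1.clm_apply contDiffAt_const

theorem aux_dd_congr {f g : ℂ → ℝ} {x : ℂ} (h : f =ᶠ[𝓝 x] g) (v : ℂ) : dd v f =ᶠ[𝓝 x] dd v g := by
  have h1 := h.fderiv (𝕜 := ℝ)
  filter_upwards [h1] with y hy
  show fderiv ℝ f y v = fderiv ℝ g y v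
  rw [hy]

theorem aux_la_congr {f g : ℂ → ℝ} {x : ℂ} (h : f =ᶠ[𝓝 x] g) : la f x = la g x := by
  unfold la
  rw [(aux_dd_congr (aux_dd_congr h 1) 1).eq_of_nhds,
    (aux_dd_congr (aux_dd_congr h Complex.I) Complex.I).eq_of_nhds]

theorem aux_la_zero {f : ℂ → ℝ} {x : ℂ} (h : f =ᶠ[𝓝 x] fun _ => (0 : ℝ)) : la f x = 0 := by
  rw [aux_la_congr h]
  have h1 : ∀ v : ℂ, dd v (fun _ : ℂ => (0 : ℝ)) = fun _ => 0 := by
    intro v
    funext y
    show fderiv ℝ (fun _ : ℂ => (0 : ℝ)) y v = 0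
    simp
  unfold la
  simp only [h1]
  simp

theorem aux_dd_sum {n : ℕ} (c : Fin n → ℝ) (g : Fin n → ℂ → ℝ) (v x : ℂ)
    (hg : ∀ i, DifferentiableAt ℝ (g i) x) :
    dd v (fun y => ∑ i, c i * g i y) x = ∑ i, c i * dd v (g i) x := by
  have h1 : HasFDerivAt (fun y => ∑ i, c i * g i y) (∑ i, c i • fderiv ℝ (g i) x) x := by
    refine HasFDerivAt.fun_sum fun i _ => ?_
    exact ((hg i).hasFDerivAt).const_mul (c i)
  show fderiv ℝ (fun y => ∑ i, c i * g i y) x v = _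
  rw [h1.fderiv, sum_apply]
  rfl

theorem aux_la_sum {n : ℕ} (c : Fin n → ℝ) (f : Fin n → ℂ → ℝ) {O : Set ℂ} (hO : IsOpen O)
    (hf : ∀ i, ∀ x ∈ O, ContDiffAt ℝ ∞ (f i) x) (x : ℂ) (hx : x ∈ O) :
    la (fun y => ∑ i, c i * f i y) x = ∑ i, c i * la (f i) x := by
  have hne : (∞ : WithTop ℕ∞) ≠ 0 := by simp
  have h1 : ∀ v : ℂ, dd v (dd v (fun y => ∑ i, c i * f i y)) x
      = ∑ i, c i * dd v (dd v (f i)) x := by
    intro v
    have h2 : dd v (fun y => ∑ i, c i * f i y) =ᶠ[𝓝 x] fun y => ∑ i, c i * dd v (f i) y := by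
      filter_upwards [hO.mem_nhds hx] with y hy
      exact aux_dd_sum c f v y fun i => (hf i y hy).differentiableAt hne
    rw [(aux_dd_congr h2 v).eq_of_nhds]
    exact aux_dd_sum c (fun i => dd v (f i)) v x fun i =>
      (aux_dd_smooth (hf i x hx) v).differentiableAt hne
  unfold la
  rw [h1, h1, ← Finset.sum_add_distrib]
  exact Finset.sum_congr rfl fun i _ => by ring

/-- TARGET 2: solutions for different eigenvalues are independent. -/
theorem helm_sum_zero {n : ℕ} (ν : Fin n → ℝ) (hν : Function.Injective ν) (f : Fin n → ℂ → ℝ)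
    {O : Set ℂ} (hO : IsOpen O)
    (hf : ∀ i, ∀ x ∈ O, ContDiffAt ℝ ∞ (f i) x ∧ la (f i) x = -(ν i * f i x))
    (hs : ∀ x ∈ O, ∑ i, f i x = 0) : ∀ i, ∀ x ∈ O, f i x = 0 := by
  induction n with
  | zero => intro i; exact i.elim0
  | succ n ih =>
    have hla : ∀ x ∈ O, ∑ i, la (f i) x = 0 := by
      intro x hx
      have h1 := aux_la_sum (fun _ => (1 : ℝ)) f hO (fun i x hx => (hf i x hx).1) x hx
      simp only [one_mul] at h1
      rw [← h1]
      have h0 : (fun y => ∑ i, f i y) =ᶠ[𝓝 x] fun _ => (0 : ℝ) := by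
        filter_upwards [hO.mem_nhds hx] with y hy using hs y hy
      exact aux_la_zero h0
    have key : ∀ i : Fin n, ∀ x ∈ O, (ν 0 - ν i.succ) * f i.succ x = 0 := by
      refine ih (fun i => ν i.succ) (fun i j h => Fin.succ_injective n (hν h))
        (fun i x => (ν 0 - ν i.succ) * f i.succ x) ?_ ?_
      · intro i x hx
        refine ⟨contDiffAt_const.mul (hf i.succ x hx).1, ?_⟩
        have h1 := aux_la_sum (n := 1) (fun _ => ν 0 - ν i.succ) (fun _ => f i.succ) hO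
          (fun _ x hx => (hf i.succ x hx).1) x hx
        simp only [Fin.sum_univ_one] at h1
        show la (fun x => (ν 0 - ν i.succ) * f i.succ x) x
          = -(ν i.succ * ((ν 0 - ν i.succ) * f i.succ x))
        rw [h1, (hf i.succ x hx).2]
        ring
      · intro x hx
        have h1 := hla x hx
        have h2 := hs x hx
        rw [Fin.sum_univ_succ] at h1 h2
        simp only [(hf _ x hx).2] at h1
        have h3 : ∑ i : Fin n, (ν 0 - ν i.succ) * f i.succ x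
            = ν 0 * ∑ i : Fin n, f i.succ x + ∑ i : Fin n, -(ν i.succ * f i.succ x) := by
          rw [Finset.mul_sum, ← Finset.sum_add_distrib]
          exact Finset.sum_congr rfl fun i _ => by ring
        rw [h3]
        have h4 : ∑ i : Fin n, f i.succ x = - f 0 x := by linarith
        rw [h4]
        linarith
    have hsucc : ∀ i : Fin n, ∀ x ∈ O, f i.succ x = 0 := by
      intro i x hx
      rcases mul_eq_zero.1 (key i x hx) with h | h
      · exact absurd (hν (sub_eq_zero.1 h)) (Fin.succ_ne_zero i).symm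
      · exact h
    intro i
    refine Fin.cases ?_ hsucc i
    intro x hx
    have h2 := hs x hx
    rw [Fin.sum_univ_succ, Finset.sum_eq_zero (fun j _ => hsucc j x hx), add_zero] at h2
    exact h2

end Pool.Agent.Helper327_Drum
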