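import Pool.Agent.Helper327_Drum.Fin.K1d
import Pool.Agent.Helper327_Drum.Fin.N1
import Pool.Agent.Helper327_Drum.Fin.FM1
import Pool.Agent.Helper327_Drum.Fin.AS2

/-
JOB GM1 (owner helper327, problem MP_d92c84_an). All imports are on origin/main.
-/

set_option autoImplicit false
open MeasureTheory Set Filter Topology ComplexConjugate
open scoped ContDiff InnerProductSpace

namespace Pool.Agent.Helper327_Drum

open Pool.Agent.TH298.Sch (dd SC)
open Pool.Agent.R227.SA (la Wat Dat)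

/-
Plain proof of TARGET 1. Put Λ a = lam - ν a ≥ 0, f a = J (F a). Then ‖Σ s F‖² - (1+lam) ‖Σ s f‖² = Σ_{a,b} s_a s_b (max (ν a) (ν b) - lam) ⟪f a, f b⟫ = - Σ_{a,b} s_a s_b min (Λ a) (Λ b) ⟪f a, f b⟫, and
Σ_{a,b} s_a s_b min (Λ a) (Λ b) ⟪f a, f b⟫ = ∫_0^T ‖Σ_{a : t < Λ a} s_a f a‖² dt ≥ 0 (min x y = ∫_0^T 1_{t<x} 1_{t<y} dt for 0 ≤ x, y ≤ T). (Or by induction on the number of different values, or with the
Schur product theorem for positive semidefinite matrices if Mathlib has it.)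
-/

theorem gm1_min_psd {L : Type*} [NormedAddCommGroup L] [InnerProductSpace ℝ L] {ι : Type*}
    (f : ι → L) (s : ι → ℝ) (n : ℕ) : ∀ (S : Finset ι), S.card = n → ∀ Λ : ι → ℝ,
    (∀ a ∈ S, 0 ≤ Λ a) →
    0 ≤ ∑ a ∈ S, ∑ b ∈ S, s a * s b * (min (Λ a) (Λ b) * ⟪f a, f b⟫_ℝ) := by
  classical
  induction n with
  | zero =>
    intro S hS Λ _
    rw [Finset.card_eq_zero.1 hS]
    simp
  | succ n ih =>
    intro S hS Λ hΛ
    have hne : S.Nonempty := Finset.card_pos.1 (by omega)
    obtain ⟨a0, ha0, hmin⟩ := S.exists_min_image Λ hne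
    have h1 : ∑ a ∈ S, ∑ b ∈ S, s a * s b * (min (Λ a) (Λ b) * ⟪f a, f b⟫_ℝ) =
        Λ a0 * ⟪∑ a ∈ S, s a • f a, ∑ a ∈ S, s a • f a⟫_ℝ +
        ∑ a ∈ S, ∑ b ∈ S, s a * s b * (min (Λ a - Λ a0) (Λ b - Λ a0) * ⟪f a, f b⟫_ℝ) := by
      rw [sum_inner, Finset.mul_sum, ← Finset.sum_add_distrib]
      refine Finset.sum_congr rfl fun a _ => ?_
      rw [inner_sum, Finset.mul_sum, ← Finset.sum_add_distrib]
      refine Finset.sum_congr rfl fun b _ => ?_
      rw [real_inner_smul_left, real_inner_smul_right, min_sub_sub_right]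
      ring
    rw [h1]
    have h2 : ∑ a ∈ S, ∑ b ∈ S, s a * s b * (min (Λ a - Λ a0) (Λ b - Λ a0) * ⟪f a, f b⟫_ℝ) =
        ∑ a ∈ S.erase a0, ∑ b ∈ S.erase a0,
          s a * s b * (min (Λ a - Λ a0) (Λ b - Λ a0) * ⟪f a, f b⟫_ℝ) := by
      rw [← Finset.sum_erase_add S _ ha0]
      have h3 : ∑ b ∈ S, s a0 * s b * (min (Λ a0 - Λ a0) (Λ b - Λ a0) * ⟪f a0, f b⟫_ℝ) = 0 := by
        refine Finset.sum_eq_zero fun b hb => ?_
        rw [sub_self, min_eq_left (by linarith [hmin b hb])]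
        ring
      rw [h3, add_zero]
      refine Finset.sum_congr rfl fun a ha => ?_
      rw [← Finset.sum_erase_add S _ ha0]
      have h4 := hmin a (Finset.mem_of_mem_erase ha)
      rw [sub_self, min_eq_right (by linarith : (0:ℝ) ≤ Λ a - Λ a0)]
      ring
    rw [h2]
    have h5 := ih (S.erase a0) (by rw [Finset.card_erase_of_mem ha0, hS]; rfl)
      (fun a => Λ a - Λ a0) (fun a ha => by
        have := hmin a (Finset.mem_of_mem_erase ha)
        simpa using this)
    have h6 : 0 ≤ Λ a0 * ⟪∑ a ∈ S, s a • f a, ∑ a ∈ S, s a • f a⟫_ℝ :=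
      mul_nonneg (hΛ a0 ha0) real_inner_self_nonneg
    linarith

/-- TARGET 1 -/
theorem max_le {H L : Type*} [NormedAddCommGroup H] [InnerProductSpace ℝ H]
    [NormedAddCommGroup L] [InnerProductSpace ℝ L] (J : H →ₗ[ℝ] L) {ι : Type*} [Fintype ι]
    (F : ι → H) (ν : ι → ℝ) {lam : ℝ} (hν : ∀ a, ν a ≤ lam)
    (h : ∀ a b, ⟪F a, F b⟫_ℝ = (1 + max (ν a) (ν b)) * ⟪J (F a), J (F b)⟫_ℝ) (s : ι → ℝ) :
    ‖∑ a, s a • F a‖ ^ 2 ≤ (1 + lam) * ‖J (∑ a, s a • F a)‖ ^ 2 := by
  have h1 := gm1_min_psd (fun a => J (F a)) s _ Finset.univ rfl (fun a => lam - ν a)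
    (fun a _ => by linarith [hν a])
  rw [← real_inner_self_eq_norm_sq, ← real_inner_self_eq_norm_sq, map_sum]
  simp only [map_smul]
  have h2 : (1 + lam) * ⟪∑ a, s a • J (F a), ∑ a, s a • J (F a)⟫_ℝ =
      ⟪∑ a, s a • F a, ∑ a, s a • F a⟫_ℝ + ∑ a, ∑ b, s a * s b *
        (min (lam - ν a) (lam - ν b) * ⟪J (F a), J (F b)⟫_ℝ) := by
    rw [sum_inner, sum_inner, Finset.mul_sum, ← Finset.sum_add_distrib]
    refine Finset.sum_congr rfl fun a _ => ?_
    rw [inner_sum, inner_sum, Finset.mul_sum, ← Finset.sum_add_distrib]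
    refine Finset.sum_congr rfl fun b _ => ?_
    rw [real_inner_smul_left, real_inner_smul_right, real_inner_smul_left, real_inner_smul_right,
      h a b, min_sub_sub_left]
    ring
  rw [h2]
  linarith

/-
`Dat Ω lam c v` (R227/SA9.lean): v is C¹, v and its derivative are 0 off Ω, and near each point of Ω v + c = U with U smooth (SC) and la U = -lam U (so la v + lam v = -lam c in Ω).
Plain proof of TARGET 2. w x = fderiv ℝ v₂ x (a + b I x) is a solution on Ω for μ (`kill_wat`: Wat Ω μ w; so w is continuous, 0 off Ω).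
(i) ∫ w = 0: w is the derivative of the compactly supported C¹ function v₂ along a divergence free field: ∫ fderiv v₂ x h dx = 0 for constant h, and I x = (-x.im) ∂₁ + x.re ∂₂ with
x.re ∂₂ v₂ - x.im ∂₁ v₂ = ∂₂ (x.re v₂) - ∂₁ (x.im v₂).
(ii) (lam - μ) ∫ v₁ w = 0. With the space `V Ω` (OpDefs.lean): `helm_V` (Fin/K1d.lean) gives W ∈ V Ω with W 0 = w a.e. and ⟪W, H⟫ = (1 + μ) ⟪W 0, H 0⟫ for H ∈ V Ω. v₁ is C¹ with v₁ = 0, dv₁ = 0 off Ω, and it has a class
S ∈ V Ω with components (v₁, ∂₁ v₁, ∂_I v₁) (`mem_V` in Fin/E4.lean or the class of such functions in Fin/K1b.lean). For H = class of a C¹ function φ with compact support in Ω: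
⟪S, H⟫ = ∫ v₁ φ + ∇v₁ ∇φ = ∫ (v₁ - la v₁) φ = ∫ ((1 + lam) v₁ + lam k) φ (`dat_green` in Fin/N1.lean or `green_classical` in Fin/E5.lean), by density the same for all H ∈ V Ω (with φ replaced by H 0), so with H = W:
⟪S, W⟫ = (1+lam) ∫ v₁ w + lam k ∫ w = (1+lam) ∫ v₁ w. Compare with ⟪W, S⟫ = (1+μ) ∫ w v₁.
Alternatively test `dat_green` for v₂ and a smooth function: w can be integrated by parts: ∫ v₁ w = -∫ (K v₁) v₂, where K φ x = fderiv φ x (a + b I x).
(iii) ∫ (v₁ + k) w = ∫ v₁ w + k ∫ w = 0.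
-/

theorem gm1_int_fderiv {v g : ℂ → ℝ} (hv : ContDiff ℝ 1 v) (hvs : HasCompactSupport v)
    (hg : ContDiff ℝ 1 g) (h : ℂ) (h0 : ∀ x, fderiv ℝ g x h = 0) :
    Integrable (fun x => fderiv ℝ v x h * g x) ∧ ∫ x, fderiv ℝ v x h * g x = 0 := by
  have hvc := hv.continuous
  have hgc := hg.continuous
  have hdc : Continuous (fun x => fderiv ℝ v x h) :=
    (hv.continuous_fderiv (by simp)).clm_apply continuous_const
  have hds : HasCompactSupport (fun x => fderiv ℝ v x h) := hvs.fderiv_apply ℝ h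
  have i1 : Integrable (fun x => fderiv ℝ v x h * g x) :=
    (hdc.mul hgc).integrable_of_hasCompactSupport hds.mul_right
  have i2 : Integrable (fun x => v x * fderiv ℝ g x h) := by simp [h0]
  have i3 : Integrable (fun x => v x * g x) :=
    (hvc.mul hgc).integrable_of_hasCompactSupport hvs.mul_right
  have h2 := integral_mul_fderiv_eq_neg_fderiv_mul_of_integrable (f := v) (g := g) (v := h)
    i1 i2 i3 (fun x _ => hv.differentiable (by simp) x) (fun x _ => hg.differentiable (by simp) x)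
  refine ⟨i1, ?_⟩
  simp only [h0, mul_zero, integral_zero] at h2
  linarith

theorem gm1_int_kill {v : ℂ → ℝ} (hv : ContDiff ℝ 1 v) (hvs : HasCompactSupport v) (a : ℂ) (b : ℝ) :
    ∫ x, fderiv ℝ v x (a + b * Complex.I * x) = 0 := by
  obtain ⟨i1, e1⟩ := gm1_int_fderiv hv hvs (g := fun _ => (1 : ℝ)) contDiff_const a (fun x => by simp)
  obtain ⟨i2, e2⟩ := gm1_int_fderiv hv hvs (g := fun x : ℂ => x.im) Complex.imCLM.contDiff 1
    (fun x => by
      change fderiv ℝ (Complex.imCLM : ℂ → ℝ) x 1 = 0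
      rw [Complex.imCLM.fderiv]; simp)
  obtain ⟨i3, e3⟩ := gm1_int_fderiv hv hvs (g := fun x : ℂ => x.re) Complex.reCLM.contDiff Complex.I
    (fun x => by
      change fderiv ℝ (Complex.reCLM : ℂ → ℝ) x Complex.I = 0
      rw [Complex.reCLM.fderiv]; simp)
  have h : ∀ x : ℂ, fderiv ℝ v x (a + b * Complex.I * x) =
      fderiv ℝ v x a * 1 + (b * (fderiv ℝ v x Complex.I * x.re) - b * (fderiv ℝ v x 1 * x.im)) := by
    intro x
    have e : a + b * Complex.I * x = a + ((b * x.re) • Complex.I - (b * x.im) • (1 : ℂ)) := by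
      apply Complex.ext <;> simp [mul_comm]
    rw [e, map_add, map_sub, map_smul, map_smul, smul_eq_mul, smul_eq_mul]
    ring
  simp only [h]
  have j : Integrable (fun x : ℂ => b * (fderiv ℝ v x Complex.I * x.re) -
      b * (fderiv ℝ v x 1 * x.im)) := (i3.const_mul b).sub (i2.const_mul b)
  rw [integral_add i1 j,
    integral_sub (i3.const_mul b) (i2.const_mul b), integral_const_mul, integral_const_mul, e1, e2, e3]
  ring

/-- the class of a solution -/
theorem gm1_dat_V {Ω : Set ℂ} (ho : IsOpen Ω) (hb : Bornology.IsBounded Ω) {lam k : ℝ} {v : ℂ → ℝ}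
    (D : Dat Ω lam k v) : ∃ S ∈ V Ω, S 0 =ᵐ[volume] v ∧ ∀ G ∈ V Ω,
      ⟪S, G⟫_ℝ = ∫ x, (v x - Ω.indicator (fun x => -(lam * (v x + k))) x) * (G 0) x := by
  have hvc : Continuous v := D.c1.continuous
  have hvs : HasCompactSupport v := HasCompactSupport.intro hb.isCompact_closure
    (fun x hx => D.out x (fun h => hx (subset_closure h)))
  obtain ⟨M, hM⟩ := hvs.exists_bound_of_continuous hvc
  have hM0 : 0 ≤ M := (norm_nonneg _).trans (hM 0)
  have hla : ∀ x, Ω.indicator (la v) x = Ω.indicator (fun x => -(lam * (v x + k))) x := by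
    intro x
    by_cases hx : x ∈ Ω
    · rw [indicator_of_mem hx, indicator_of_mem hx, n1_la D hx]
    · rw [indicator_of_notMem hx, indicator_of_notMem hx]
  obtain ⟨F, F0, -, -, F3, -⟩ := mem_V ho hb (f := v)
    (k := Ω.indicator (fun x => -(lam * (v x + k)))) hvc D.out
    ((n1_c2 D).of_le (by norm_num))
    (((hvc.measurable.add_const k).const_mul lam).neg.indicator ho.measurableSet)
    (fun x hx => indicator_of_notMem hx _) (M := |lam| * (M + |k|))
    (fun x => by
      by_cases hx : x ∈ Ω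
      · rw [indicator_of_mem hx, abs_neg, abs_mul]
        refine mul_le_mul_of_nonneg_left ?_ (abs_nonneg _)
        have := hM x
        rw [Real.norm_eq_abs] at this
        exact (abs_add_le _ _).trans (by linarith)
      · rw [indicator_of_notMem hx, abs_zero]
        positivity)
    (fun φ hφ hs => by
      rw [weak_of_classical ho (n1_c2 D) (φ := φ)
        ⟨hφ.sm.of_le (by exact_mod_cast le_top), hφ.cs, hs⟩]
      simp only [hla])
  refine ⟨F.1, F.2, F0, fun G hG => ?_⟩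
  have h4 := F3 ⟨G, hG⟩
  rw [Submodule.coe_inner] at h4
  exact h4

/-- TARGET 2: orthogonality for different eigenvalues. -/
theorem level_orth {Ω : Set ℂ} (ho : IsOpen Ω) (hb : Bornology.IsBounded Ω) {lam μ k c : ℝ}
    (hne : lam ≠ μ) (hlam : 0 < lam) (hμ : 0 < μ) {v₁ v₂ : ℂ → ℝ} (h1 : Dat Ω lam k v₁)
    (h2 : Dat Ω μ c v₂) (a : ℂ) (b : ℝ) :
    ∫ x, (v₁ x + k) * fderiv ℝ v₂ x (a + b * Complex.I * x) = 0 := by
  have hvs : ∀ {l m : ℝ} {v : ℂ → ℝ}, Dat Ω l m v → HasCompactSupport v := fun D =>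
    HasCompactSupport.intro hb.isCompact_closure
      (fun x hx => D.out x (fun h => hx (subset_closure h)))
  have hw0 := gm1_int_kill h2.c1 (hvs h2) a b
  have hW := kill_wat h2 a b
  set w : ℂ → ℝ := fun x => fderiv ℝ v₂ x (a + b * Complex.I * x) with hwdef
  change ∫ x, w x = 0 at hw0
  change ∫ x, (v₁ x + k) * w x = 0
  have hwc : Continuous w := hW.cont
  have hws : HasCompactSupport w := HasCompactSupport.intro hb.isCompact_closure
    (fun x hx => hW.out x (fun h => hx (subset_closure h)))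
  obtain ⟨W, hWV, W0, hWI⟩ := helm_V ho hb hW
  obtain ⟨S, hSV, S0, hSI⟩ := gm1_dat_V ho hb h1
  have e1 := hSI W hWV
  have e2 := hWI S hSV
  rw [real_inner_comm, e1, inner_L2] at e2
  have i1 : Integrable (fun x => v₁ x * w x) :=
    (h1.c1.continuous.mul hwc).integrable_of_hasCompactSupport hws.mul_left
  have i2 : Integrable w := hwc.integrable_of_hasCompactSupport hws
  have e3 : ∫ x, (v₁ x - Ω.indicator (fun x => -(lam * (v₁ x + k))) x) * (W 0) x =
      (1 + lam) * ∫ x, v₁ x * w x := by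
    have : ∫ x, (v₁ x - Ω.indicator (fun x => -(lam * (v₁ x + k))) x) * (W 0) x =
        ∫ x, ((1 + lam) * (v₁ x * w x) + (lam * k) * w x) := by
      refine integral_congr_ae ?_
      filter_upwards [W0] with x hx
      rw [hx]
      by_cases hxΩ : x ∈ Ω
      · rw [indicator_of_mem hxΩ]; ring
      · rw [indicator_of_notMem hxΩ, hW.out x hxΩ]; ring
    rw [this, integral_add (i1.const_mul _) (i2.const_mul _), integral_const_mul,
      integral_const_mul, hw0]
    ring
  have e4 : ∫ x, (W 0) x * (S 0) x = ∫ x, v₁ x * w x := by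
    refine integral_congr_ae ?_
    filter_upwards [W0, S0] with x hx hx'
    rw [hx, hx']
    ring
  rw [e3, e4] at e2
  have e5 : ∫ x, v₁ x * w x = 0 := by
    have : (lam - μ) * ∫ x, v₁ x * w x = 0 := by linarith
    rcases mul_eq_zero.1 this with h | h
    · exact absurd (sub_eq_zero.1 h) hne
    · exact h
  have e6 : ∀ x, (v₁ x + k) * w x = v₁ x * w x + k * w x := fun x => by ring
  simp only [e6]
  rw [integral_add i1 (i2.const_mul _), integral_const_mul, e5, hw0]
  ring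

end Pool.Agent.Helper327_Drum
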