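import Pool.Agent.Helper327_Drum.Fin.FQ1
import Pool.Agent.Helper327_Drum.Fin.FQ2
import Pool.Agent.Helper327_Drum.Fin.AS2
import Pool.Agent.Helper327_Drum.Fin.GM1

/-
JOB GM2 (owner helper327, problem MP_d92c84_an). All imports are on origin/main. Prove only the TARGET; the lemma marked given is proved in another job.
-/

set_option autoImplicit false
open MeasureTheory Set Filter Topology ComplexConjugate
open scoped ContDiff InnerProductSpace

namespace Pool.Agent.Helper327_Drum

open Pool.Agent.TH298.Sch (dd SC)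
open Pool.Agent.R227.SA (la Wat Dat)

/-
This is `index_family_le_option` (Fin/FQ1.lean) with weaker hypotheses; the proofs of `index_family_le` and `index_family_le_option` there can be adapted (with `index_lemma_le`).
The quadratic form: `max_le` with H = W3, J = the first component (PiLp.proj).
The null space (hE of `index_lemma_le`): let S = Σ a_i F_i satisfy ⟪S, G⟫ = (1 + lam) ⟪S 0, G 0⟫ for all G ∈ V D. Then so does S' = S - a_none F_none = Σ_{i : ι} a_i F_(some i), and S' 0 = s' a.e. with the continuous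
function s' x = Σ_i a_i φ_(some i) x; by `wat_of_weak` (Fin/K1d.lean; see how the proof of `index_family` uses it) s' is a solution (Wat D lam). On the open set O: s' = Σ_{i ∈ I₂} a_i φ_(some i), where
I₂ = {i : G (some i) = D ∧ ν (some i) < lam} (the other functions vanish on O). Group the sum by the finitely many different values of ν: for each value the partial sum is smooth with la f = -ν f on O; together with
-s' (value lam, different from the others) the sum is zero on O, so by `helm_sum_zero` (Fin/FQ2.lean) s' = 0 on O, hence s' = 0 (unique continuation: `Wat.uc`, as used in Fin/FQ3.lean, or uc_loc in Fin/I2.lean),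
so S' = 0 (`io_inj`) and S = a_none F_none.
-/

/-- auxiliary: the zero function is a solution -/
theorem gm_zero {D : Set ℂ} (hDo : IsOpen D) (μ : ℝ) : Wat D μ (fun _ => (0 : ℝ)) := by
  refine ⟨continuous_const, fun _ _ => rfl, fun x₀ hx₀ => ?_⟩
  obtain ⟨r, hr, hb⟩ := Metric.isOpen_iff.1 hDo x₀ hx₀
  refine ⟨r, hr, fun _ => 0, ⟨contDiff_const, HasCompactSupport.zero⟩, hb, fun x _ => ⟨rfl, ?_⟩⟩
  rw [aux_la_zero (f := fun _ : ℂ => (0 : ℝ)) (Eventually.of_forall fun _ => rfl)]
  simp

/-- auxiliary: linear combinations of solutions -/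
theorem gm_sum {D : Set ℂ} {μ : ℝ} {κ : Type*} (s : Finset κ) (c : κ → ℝ) (f : κ → ℂ → ℝ)
    (hz : Wat D μ (fun _ => (0 : ℝ))) (h : ∀ i ∈ s, Wat D μ (f i)) :
    Wat D μ (fun x => ∑ i ∈ s, c i * f i x) := by
  classical
  induction s using Finset.induction_on with
  | empty => simpa using hz
  | insert i s hi ih =>
    have h1 := ih fun j hj => h j (Finset.mem_insert_of_mem hj)
    have h2 := wat_sub_smul h1 (h i (Finset.mem_insert_self i s)) (-c i)
    have e : (fun x => ∑ j ∈ insert i s, c j * f j x) =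
        fun x => ∑ j ∈ s, c j * f j x - -c i * f i x := by
      funext x
      rw [Finset.sum_insert hi]
      ring
    rw [e]
    exact h2

/-- auxiliary: the index bound with the null space as a hypothesis (the proof of `index_family_le`) -/
theorem gm_fin {D : Set ℂ} (hDo : IsOpen D) (hb : Bornology.IsBounded D)
    {lam : ℝ} (hlam : 0 < lam) {n : ℕ} (hn : 1 ≤ n)
    (G : Fin (n + 1) → Set ℂ) (φ : Fin (n + 1) → ℂ → ℝ) (ν : Fin (n + 1) → ℝ)
    (hG : ∀ i, IsOpen (G i) ∧ G i ⊆ D) (hφ : ∀ i, Wat (G i) (ν i) (φ i))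
    (hQ : ∀ F : Fin (n + 1) → W3, (∀ i, F i ∈ V (G i) ∧ F i 0 =ᵐ[volume] φ i ∧
        ∀ H ∈ V (G i), ⟪F i, H⟫_ℝ = (1 + ν i) * ⟪F i 0, H 0⟫_ℝ) →
      ∀ a : Fin (n + 1) → ℝ, ‖∑ i, a i • F i‖ ^ 2 ≤ (1 + lam) * ‖(∑ i, a i • F i) 0‖ ^ 2)
    (hnull : ∀ a : Fin (n + 1) → ℝ, Wat D lam (fun x => ∑ i, a i * φ i x) →
      ∀ x, ∑ i, a i * φ i x - a 0 * φ 0 x = 0)
    (hli : LinearIndependent ℝ φ) :
    dirichletEigenvalue n D < lam := by
  choose F hFV hF0 hFe using fun i => helm_V (hG i).1 (hb.subset (hG i).2) (hφ i)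
  have hFD : ∀ i, F i ∈ V D := fun i => V_mono (hG i).2 (hFV i)
  -- the sums
  have hsum : ∀ a : Fin (n + 1) → ℝ,
      (∑ i, a i • F i) 0 =ᵐ[volume] fun x => ∑ i, a i * φ i x := by
    intro a
    have h1 : (∑ i, a i • F i) 0 = ∑ i, a i • (F i 0) := by
      have := map_sum (PiLp.proj 2 (fun _ : Fin 3 => L2) (0 : Fin 3) : W3 →L[ℝ] L2)
        (fun i => a i • F i) Finset.univ
      exact this
    rw [h1]
    have h2 : ∀ s : Finset (Fin (n + 1)), ((∑ i ∈ s, a i • (F i 0) : L2) : ℂ → ℝ) =ᵐ[volume]
        fun x => ∑ i ∈ s, a i * φ i x := by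
      intro s
      induction s using Finset.induction_on with
      | empty =>
        simp only [Finset.sum_empty]
        exact Lp.coeFn_zero ℝ 2 (volume : Measure ℂ)
      | insert i s hi ih =>
        rw [Finset.sum_insert hi]
        filter_upwards [Lp.coeFn_add (a i • (F i 0)) (∑ i ∈ s, a i • (F i 0)), ih, hF0 i,
          Lp.coeFn_smul (a i) (F i 0)] with x e1 e2 e3 e4
        rw [e1, Pi.add_apply, e2, e4, Pi.smul_apply, e3, smul_eq_mul, Finset.sum_insert hi]
    exact h2 Finset.univ
  have hcont : ∀ a : Fin (n + 1) → ℝ, Continuous fun x => ∑ i, a i * φ i x := by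
    intro a
    exact continuous_finsetSum _ (fun i _ => continuous_const.mul (hφ i).cont)
  refine index_lemma_le hDo hb hlam hn (fun i => ⟨F i, hFD i⟩) ?_ ?_ ?_
  · -- linear independence
    rw [Fintype.linearIndependent_iff] at hli ⊢
    intro a ha
    apply hli
    have h1 : ∑ i, a i • F i = 0 := by
      have := congrArg Subtype.val ha
      simpa using this
    have h2 := hsum a
    rw [h1] at h2
    have h3 : (fun x => ∑ i, a i * φ i x) =ᵐ[volume] fun _ => (0 : ℝ) := by
      filter_upwards [h2, Lp.coeFn_zero ℝ 2 (volume : Measure ℂ)] with x e1 e2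
      rw [← e1]
      exact e2
    have h4 := (Continuous.ae_eq_iff_eq volume (hcont a) continuous_const).1 h3
    funext x
    have := congrFun h4 x
    simpa using this
  · -- the quadratic form
    intro a
    have h1 := hQ F (fun i => ⟨hFV i, hF0 i, hFe i⟩) a
    have h2 : ((∑ i, a i • (⟨F i, hFD i⟩ : V D) : V D) : W3) = ∑ i, a i • F i := by
      simp
    change ‖((∑ i, a i • (⟨F i, hFD i⟩ : V D) : V D) : W3)‖ ^ 2 ≤
      (1 + lam) * ‖((∑ i, a i • (⟨F i, hFD i⟩ : V D) : V D) : W3) 0‖ ^ 2
    rw [h2]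
    exact h1
  · -- the null space
    intro a ha
    refine ⟨a 0, ?_⟩
    set S : W3 := ∑ i, a i • F i with hS
    have hSV : S ∈ V D := Submodule.sum_mem _ (fun i _ => Submodule.smul_mem _ _ (hFD i))
    have hSe : ((∑ i, a i • (⟨F i, hFD i⟩ : V D) : V D) : W3) = S := by
      simp [hS]
    have hw : ∀ H ∈ V D, ⟪S, H⟫_ℝ = (1 + lam) * ⟪S 0, H 0⟫_ℝ := by
      intro H hH
      have := ha ⟨H, hH⟩
      rw [Submodule.coe_inner, hSe] at this
      exact this
    have hwat : Wat D lam (fun x => ∑ i, a i * φ i x) := by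
      refine wat_of_weak hDo hlam hSV (hcont a) ?_ (hsum a) hw
      intro x hx
      refine Finset.sum_eq_zero (fun i _ => ?_)
      rw [(hφ i).out x (fun h => hx ((hG i).2 h)), mul_zero]
    have huc := hnull a hwat
    have hfin : S = a 0 • F 0 := by
      refine io_inj hSV (Submodule.smul_mem _ _ (hFD 0)) ?_
      rw [PiLp.smul_apply]
      apply Lp.ext
      filter_upwards [hsum a, hF0 0, Lp.coeFn_smul (a 0) (F 0 0)] with x e1 e2 e3
      rw [e1, e3, Pi.smul_apply, e2, smul_eq_mul]
      have := huc x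
      linarith
    apply Subtype.ext
    rw [hSe, hfin]
    rfl

/-- TARGET: the index bound for functions satisfying the relation `hrel`. -/
theorem index_family_max {D : Set ℂ} (hDo : IsOpen D) (hb : Bornology.IsBounded D)
    (hDc : IsPreconnected D) {lam : ℝ} (hlam : 0 < lam) {n : ℕ} (hn : 1 ≤ n)
    {ι : Type} [Fintype ι] (hcard : Fintype.card ι = n)
    (G : Option ι → Set ℂ) (φ : Option ι → ℂ → ℝ) (ν : Option ι → ℝ)
    (hG : ∀ i, IsOpen (G i) ∧ G i ⊆ D) (hν : ∀ i, 0 < ν i ∧ ν i ≤ lam)
    (hφ : ∀ i, Wat (G i) (ν i) (φ i)) (h0 : G none = D) (hν0 : ν none = lam)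
    (hrel : ∀ F : Option ι → W3, (∀ i, F i ∈ V (G i) ∧ F i 0 =ᵐ[volume] φ i ∧
        ∀ H ∈ V (G i), ⟪F i, H⟫_ℝ = (1 + ν i) * ⟪F i 0, H 0⟫_ℝ) →
      ∀ i j, ⟪F i, F j⟫_ℝ = (1 + max (ν i) (ν j)) * ⟪F i 0, F j 0⟫_ℝ)
    (hex : ∃ O : Set ℂ, IsOpen O ∧ O.Nonempty ∧ O ⊆ D ∧
      ∀ i, (∀ x ∈ O, φ (some i) x = 0) ∨ (G (some i) = D ∧ ν (some i) < lam))
    (hli : LinearIndependent ℝ φ) :
    dirichletEigenvalue n D < lam := by
  classical
  set e : Fin (n + 1) ≃ Option ι :=
    (finSuccEquiv n).trans (Equiv.optionCongr (Fintype.equivFinOfCardEq hcard).symm) with he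
  have he0 : e 0 = none := by simp [he]
  obtain ⟨O, hO, ⟨p, hp⟩, hOD, hOi⟩ := hex
  refine gm_fin hDo hb hlam hn (G ∘ e) (φ ∘ e) (ν ∘ e) (fun i => hG (e i))
    (fun i => hφ (e i)) ?_ ?_ (hli.comp e e.injective)
  · intro F hF b
    exact max_le (PiLp.proj 2 (fun _ : Fin 3 => L2) (0 : Fin 3) : W3 →L[ℝ] L2).toLinearMap
      F (ν ∘ e) (fun i => (hν (e i)).2) (fun i j => by
        have h1 := hrel (F ∘ e.symm) (fun i => by
          have h2 := hF (e.symm i)
          simp only [Function.comp_apply, Equiv.apply_symm_apply] at h2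
          exact h2) (e i) (e j)
        simp only [Function.comp_apply, Equiv.symm_apply_apply] at h1
        exact h1) b
  · intro b hw
    -- in terms of `Option ι`
    set a : Option ι → ℝ := b ∘ e.symm with ha
    have hsum : ∀ x, ∑ i, b i * (φ ∘ e) i x = ∑ o, a o * φ o x := by
      intro x
      rw [← Equiv.sum_comp e (fun o => a o * φ o x)]
      refine Finset.sum_congr rfl fun i _ => ?_
      simp [ha]
    have hb0 : b 0 = a none := by
      rw [ha, Function.comp_apply, ← he0, Equiv.symm_apply_apply]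
    have hw' : Wat D lam (fun x => ∑ o, a o * φ o x) := by
      have h1 : (fun x => ∑ i, b i * (φ ∘ e) i x) = fun x => ∑ o, a o * φ o x := funext hsum
      rwa [h1] at hw
    have hnone : Wat D lam (φ none) := by
      have := hφ none
      rwa [h0, hν0] at this
    set s' : ℂ → ℝ := fun x => ∑ o, a o * φ o x - a none * φ none x with hs'
    have hws : Wat D lam s' := wat_sub_smul hw' hnone (a none)
    have hs2 : ∀ x, s' x = ∑ i, a (some i) * φ (some i) x := by
      intro x
      simp only [hs', Fintype.sum_option]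
      ring
    -- the relevant indices
    set I₂ : Finset ι := Finset.univ.filter fun i => G (some i) = D ∧ ν (some i) < lam with hI
    have hsO : ∀ x ∈ O, s' x = ∑ i ∈ I₂, a (some i) * φ (some i) x := by
      intro x hx
      rw [hs2 x]
      refine (Finset.sum_subset (Finset.subset_univ I₂) fun i _ hi => ?_).symm
      rcases hOi i with h | h
      · rw [h x hx, mul_zero]
      · exact absurd (Finset.mem_filter.2 ⟨Finset.mem_univ i, h⟩) hi
    set T : Finset ℝ := insert lam (I₂.image fun i => ν (some i)) with hT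
    set g : ℝ → ℂ → ℝ := fun t x => (if t = lam then -s' x else 0) +
      ∑ i ∈ I₂ with ν (some i) = t, a (some i) * φ (some i) x with hg
    have hgW : ∀ t, Wat D t (g t) := by
      intro t
      have h1 : Wat D t (fun x => ∑ i ∈ I₂ with ν (some i) = t, a (some i) * φ (some i) x) := by
        refine gm_sum _ _ _ (gm_zero hDo t) fun i hi => ?_
        obtain ⟨h2, h3⟩ := Finset.mem_filter.1 hi
        have h4 := hφ (some i)
        rwa [(Finset.mem_filter.1 h2).2.1, h3] at h4
      have h2 : Wat D t (fun x => if t = lam then -s' x else 0) := by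
        by_cases ht : t = lam
        · simp only [ht, if_true]
          exact hws.neg
        · simp only [ht, if_false]
          exact gm_zero hDo t
      have h3 := wat_sub_smul h2 h1 (-1)
      have h4 : g t = fun x => (if t = lam then -s' x else 0) -
          -1 * ∑ i ∈ I₂ with ν (some i) = t, a (some i) * φ (some i) x := by
        funext x
        simp only [hg]
        ring
      rw [h4]
      exact h3
    have hgs : ∀ x ∈ O, ∑ t ∈ T, g t x = 0 := by
      intro x hx
      simp only [hg]
      rw [Finset.sum_add_distrib, Finset.sum_ite_eq', if_pos (Finset.mem_insert_self _ _),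
        Finset.sum_fiberwise_of_maps_to (fun i hi => Finset.mem_insert_of_mem
          (Finset.mem_image_of_mem _ hi)), hsO x hx]
      ring
    have h1 : ∀ k : Fin T.card, ∀ x ∈ O, g (T.equivFin.symm k : ℝ) x = 0 := by
      refine helm_sum_zero (fun k => ((T.equivFin.symm k : T) : ℝ)) ?_
        (fun k => g (T.equivFin.symm k : ℝ)) hO ?_ ?_
      · intro k l hkl
        exact T.equivFin.symm.injective (Subtype.ext hkl)
      · intro k x hx
        exact wat_smooth (hgW _) (hOD hx)
      · intro x hx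
        rw [Equiv.sum_comp T.equivFin.symm (fun t : T => g (t : ℝ) x)]
        rw [Finset.sum_coe_sort T (fun t => g t x)]
        exact hgs x hx
    have h2 : ∀ x ∈ O, s' x = 0 := by
      intro x hx
      have h3 := h1 (T.equivFin ⟨lam, Finset.mem_insert_self _ _⟩) x hx
      rw [Equiv.symm_apply_apply] at h3
      simp only [hg, if_true] at h3
      rw [Finset.sum_eq_zero] at h3
      · linarith
      · intro i hi
        obtain ⟨h4, h5⟩ := Finset.mem_filter.1 hi
        exact absurd h5 (Finset.mem_filter.1 h4).2.2.ne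
    have h3 := hws.uc hlam hDc (hOD hp) (by
      filter_upwards [hO.mem_nhds hp] with x hx using h2 x hx)
    intro x
    rw [hsum x, hb0]
    have h4 : (φ ∘ e) 0 = φ none := by rw [Function.comp_apply, he0]
    rw [h4]
    exact h3 x

end Pool.Agent.Helper327_Drum
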