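import Pool.Agent.Helper327_Drum.Fin.FM2
import Pool.Agent.Helper327_Drum.Fin.NB3
import Pool.Agent.Helper327_Drum.Fin.FQ1
import Pool.Agent.Helper327_Drum.Fin.FQ2
import Pool.Agent.Helper327_Drum.Fin.AS2
import Pool.Agent.Helper327_Drum.Fin.GM2

/-
JOB GM5b (owner helper327, problem MP_d92c84_an). All imports are on origin/main. Prove only the TARGETS; the lemma marked given is proved in another job.
-/

set_option autoImplicit false
open MeasureTheory Set Filter Topology
open scoped ContDiff InnerProductSpace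

namespace Pool.Agent.Helper327_Drum

open Pool.Agent.TH298.Sch (dd SC X)
open Pool.Agent.R227.SA (la Wat Dat)
open TH259.NS (B J)

/-
`B n` are Bessel functions in the variable s = x²/4 (entire): B_n' = -B_{n+1} (`TH259.NS.B_deriv`), s B_{n+2}(s) = (n+1) B_{n+1}(s) - B_n(s); J_n(x) ~ x^n B_n(x²/4).
Fin/K3.lean shows how functions P(x) B n (ν |x-p|²/4), cut off outside the ball, are solutions (`helm`, `cut_wat`, `wat0`, `wat1`, `wat2`, `wat2'`).
-/

/-- harmonic polynomials -/
noncomputable def dmP (p c : ℂ) (n : ℕ) (x : ℂ) : ℝ := (c * (x - p) ^ n).re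

theorem dmP_smooth (p c : ℂ) (n : ℕ) : ContDiff ℝ ∞ (dmP p c n) := by
  unfold dmP
  exact Complex.reCLM.contDiff.comp (contDiff_const.mul ((contDiff_id.sub contDiff_const).pow n))

theorem dmP_dd (p c : ℂ) (n : ℕ) (v x : ℂ) :
    dd v (dmP p c n) x = dmP p (c * n * v) (n - 1) x := by
  have h1 : HasDerivAt (fun z : ℂ => c * (z - p) ^ n) (c * (n * (x - p) ^ (n - 1) * 1)) x :=
    (((hasDerivAt_id x).sub_const p).pow n).const_mul c
  have h2 := Complex.reCLM.hasFDerivAt.comp x (h1.hasFDerivAt.restrictScalars ℝ)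
  have h3 := dd_of (f := dmP p c n) h2 v
  rw [h3]
  simp only [dmP, ContinuousLinearMap.comp_apply, ContinuousLinearMap.coe_restrictScalars',
    ContinuousLinearMap.toSpanSingleton_apply, smul_eq_mul, Complex.reCLM_apply]
  congr 1
  ring

theorem dmP_wat {p : ℂ} {ρ ν : ℝ} (hρ : 0 < ρ) (c : ℂ) (n : ℕ) (h : B n (ν * ρ ^ 2 / 4) = 0) :
    Wat (Metric.ball p ρ) ν ((Metric.ball p ρ).indicator
      fun x => (c * (x - p) ^ n).re * B n (ν * ‖x - p‖ ^ 2 / 4)) := by
  have hdi : ∀ c n, Differentiable ℝ (dmP p c n) := fun c n =>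
    (dmP_smooth p c n).differentiable (by simp)
  have h1 := cut_wat (P := dmP p c n) (P1 := dmP p (c * n * 1) (n - 1))
    (P2 := dmP p (c * n * Complex.I) (n - 1)) (lam := ν) hρ (dmP_smooth p c n) (hdi _ _) (hdi _ _)
    (fun x => dmP_dd p c n 1 x) (fun x => dmP_dd p c n Complex.I x) (fun x => by
      rw [dmP_dd, dmP_dd]
      unfold dmP
      rw [← Complex.add_re]
      have : c * n * 1 * (n - 1 : ℕ) * 1 * (x - p) ^ (n - 1 - 1) +
        c * n * Complex.I * (n - 1 : ℕ) * Complex.I * (x - p) ^ (n - 1 - 1) = 0 := by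
        linear_combination (c * n * (n - 1 : ℕ) * (x - p) ^ (n - 1 - 1)) * Complex.I_mul_I
      rw [this, Complex.zero_re]) (fun x => by
      unfold dmP
      rcases Nat.eq_zero_or_pos n with h0 | h0
      · subst h0
        simp
      · have e1 : c * n * Complex.I * (x - p) ^ (n - 1) =
          (c * n * 1 * (x - p) ^ (n - 1)) * Complex.I := by ring
        rw [e1, Complex.mul_I_re]
        have e2 : (x - p) * (c * n * 1 * (x - p) ^ (n - 1)) = n * (c * (x - p) ^ n) := by
          have : (x - p) ^ n = (x - p) * (x - p) ^ (n - 1) := by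
            rw [← pow_succ', Nat.sub_add_cancel h0]
          rw [this]
          ring
        have e3 := congrArg Complex.re e2
        rw [Complex.mul_re] at e3
        have e4 : ((n : ℂ) * (c * (x - p) ^ n)).re = n * (c * (x - p) ^ n).re := by
          rw [← Complex.ofReal_natCast, Complex.re_ofReal_mul]
        rw [e4] at e3
        linarith) h
  convert h1 using 1
  funext x
  by_cases hx : x ∈ Metric.ball p ρ
  · rw [indicator_of_mem hx]
    rw [Metric.mem_ball, dist_eq_norm] at hx
    rw [cut_of_le hx.le, sq_eq]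
    rfl
  · rw [indicator_of_notMem hx]
    rw [Metric.mem_ball, dist_eq_norm, not_lt] at hx
    rcases hx.eq_or_lt with h2 | h2
    · rw [cut_of_le h2.symm.le, sq_eq, ← h2, h, mul_zero]
    · rw [cut_of_lt h2]

/-- TARGET 1: the eigenfunctions of the disc -/
theorem disc_mode_wat {p : ℂ} {ρ ν : ℝ} (hρ : 0 < ρ) (n : ℕ) (h : B n (ν * ρ ^ 2 / 4) = 0) :
    Wat (Metric.ball p ρ) ν ((Metric.ball p ρ).indicator
      fun x => ((x - p) ^ n).re * B n (ν * ‖x - p‖ ^ 2 / 4)) ∧
    Wat (Metric.ball p ρ) ν ((Metric.ball p ρ).indicator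
      fun x => ((x - p) ^ n).im * B n (ν * ‖x - p‖ ^ 2 / 4)) := by
  refine ⟨?_, ?_⟩
  · have := dmP_wat (p := p) hρ 1 n h
    simpa only [one_mul] using this
  · have := dmP_wat (p := p) hρ (-Complex.I) n h
    convert this using 4 with x
    rw [neg_mul, Complex.neg_re, Complex.I_mul_re, neg_neg]

/-
Plain proof of TARGET 2. Use `index_family_max` with D = ball p ρ: `none` is the radial function for lam (`disc_mode_wat` for n = 0, or `wat0`), the others are the functions of TARGET 1 for ν = 4 y / ρ², y ∈ W n: for n = 0 one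
function, for 1 ≤ n ≤ L two functions (re and im), all on D; choose N of them (an injection of Fin N into the index set; the index type must be in `Type`). hrel: all are on D, so ⟪F i, F j⟫ = (1 + ν i) ⟪F i 0, F j 0⟫ and
= (1 + ν j) ⟪F i 0, F j 0⟫ by symmetry, which gives the claim. hex: O = D, the second alternative. Linear independence: group a relation by the levels ν: by `helm_sum_zero` (Fin/FQ2.lean) for each value y the partial
sum over n with y ∈ W n vanishes on the ball: Σ_n (a_n re (x-p)^n + b_n im (x-p)^n) B n (y |x-p|²/ρ²) = 0; for n fixed multiply by cos (n θ) or sin (n θ) and integrate over the circle |x - p| = r: a_n r^n B n (y r²/ρ²) = 0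
for all small r, and B n 0 ≠ 0, so a_n = 0; in the same way b_n = 0. (Different n may share a zero as far as this proof is concerned.)
-/

/-- the modes of a disc -/
noncomputable def dmF (p : ℂ) (ρ : ℝ) (n : ℕ) (y : ℝ) (b : Bool) : ℂ → ℝ :=
  (Metric.ball p ρ).indicator fun x =>
    ((if b then 1 else -Complex.I) * (x - p) ^ n).re * B n (4 * y / ρ ^ 2 * ‖x - p‖ ^ 2 / 4)

theorem dmF_wat {p : ℂ} {ρ : ℝ} (hρ : 0 < ρ) (n : ℕ) {y : ℝ} (b : Bool) (h : B n y = 0) :
    Wat (Metric.ball p ρ) (4 * y / ρ ^ 2) (dmF p ρ n y b) := by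
  refine dmP_wat hρ _ n ?_
  rw [show 4 * y / ρ ^ 2 * ρ ^ 2 / 4 = y by field_simp]
  exact h

theorem dmF_li_fin {p : ℂ} {ρ : ℝ} (hρ : 0 < ρ) {k : ℕ} (n : Fin k → ℕ) (y : Fin k → ℝ)
    (b : Fin k → Bool) (hinj : ∀ i j, n i = n j → y i = y j → b i = b j → i = j)
    (hb : ∀ i, n i = 0 → b i = true) (hz : ∀ i, B (n i) (y i) = 0) :
    LinearIndependent ℝ (fun i => dmF p ρ (n i) (y i) (b i)) := by
  classical
  rw [Fintype.linearIndependent_iff]
  intro c hc
  have hsum : ∀ x, ∑ i, c i * dmF p ρ (n i) (y i) (b i) x = 0 := by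
    intro x
    have := congrFun hc x
    simpa [Finset.sum_apply] using this
  have hsm : ∀ i, ∀ x ∈ Metric.ball p ρ, ContDiffAt ℝ ∞ (dmF p ρ (n i) (y i) (b i)) x ∧
      la (dmF p ρ (n i) (y i) (b i)) x = -(4 * y i / ρ ^ 2 * dmF p ρ (n i) (y i) (b i) x) :=
    fun i x hx => wat_smooth (dmF_wat hρ (n i) (b i) (hz i)) hx
  -- step 1
  let Y : Finset ℝ := Finset.univ.image y
  have hY : ∀ i, y i ∈ Y := fun i => Finset.mem_image_of_mem y (Finset.mem_univ i)
  let e : Y ≃ Fin Y.card := Y.equivFin
  have step1 : ∀ j : Fin Y.card, ∀ x ∈ Metric.ball p ρ,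
      ∑ i, (if y i = (e.symm j : ℝ) then c i else 0) * dmF p ρ (n i) (y i) (b i) x = 0 := by
    refine helm_sum_zero (n := Y.card) (fun j => 4 * (e.symm j : ℝ) / ρ ^ 2) ?_
      (fun j x => ∑ i, (if y i = (e.symm j : ℝ) then c i else 0) *
        dmF p ρ (n i) (y i) (b i) x) Metric.isOpen_ball ?_ ?_
    · intro j j' hjj
      have h1 : (e.symm j : ℝ) = (e.symm j' : ℝ) := by
        have h2 : 4 * (e.symm j : ℝ) / ρ ^ 2 = 4 * (e.symm j' : ℝ) / ρ ^ 2 := hjj
        have h3 : ρ ^ 2 ≠ 0 := by positivity
        field_simp at h2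
        exact h2
      exact e.symm.injective (Subtype.ext h1)
    · intro j x hx
      refine ⟨?_, ?_⟩
      · exact ContDiffAt.sum fun i _ => contDiffAt_const.mul (hsm i x hx).1
      · rw [aux_la_sum _ (fun i => dmF p ρ (n i) (y i) (b i)) Metric.isOpen_ball
          (fun i x hx => (hsm i x hx).1) x hx, Finset.mul_sum, ← Finset.sum_neg_distrib]
        refine Finset.sum_congr rfl fun i _ => ?_
        rw [(hsm i x hx).2]
        by_cases h : y i = (e.symm j : ℝ)
        · rw [if_pos h, h]
          ring
        · rw [if_neg h]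
          ring
    · intro x hx
      show ∑ j, ∑ i, (if y i = (e.symm j : ℝ) then c i else 0) *
        dmF p ρ (n i) (y i) (b i) x = 0
      rw [Finset.sum_comm]
      refine Eq.trans (Finset.sum_congr rfl fun i _ => ?_) (hsum x)
      rw [← Finset.sum_mul]
      congr 1
      rw [Finset.sum_eq_single (e ⟨y i, hY i⟩)]
      · rw [Equiv.symm_apply_apply, if_pos rfl]
      · intro j _ hj
        rw [if_neg]
        intro h
        apply hj
        have : e.symm j = ⟨y i, hY i⟩ := Subtype.ext h.symm
        rw [← this, Equiv.apply_symm_apply]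
      · intro h
        exact absurd (Finset.mem_univ _) h
  -- step 2
  have step2 : ∀ (m : ℕ) (i₀ : Fin k), n i₀ = m → c i₀ = 0 := by
    intro m
    induction m using Nat.strong_induction_on with
    | _ m ih =>
      intro i₀ hi₀
      obtain ⟨w, hw⟩ : ∃ w : ℂ, w ^ m = if b i₀ then 1 else Complex.I := by
        by_cases h : b i₀ = true
        · rw [if_pos h]
          exact ⟨1, one_pow m⟩
        · rw [if_neg h]
          have hm : 0 < m := by
            rcases Nat.eq_zero_or_pos m with h0 | h0
            · exact absurd (hb i₀ (hi₀.trans h0)) h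
            · exact h0
          exact IsAlgClosed.exists_pow_nat_eq Complex.I hm
      set d : Fin k → ℝ := fun i => if y i = y i₀ then c i else 0 with hd
      set G : ℝ → ℝ := fun r => ∑ i, d i * (r ^ (n i - m) *
        ((if b i then 1 else -Complex.I) * w ^ n i).re *
          B (n i) (4 * y i / ρ ^ 2 * (r * ‖w‖) ^ 2 / 4)) with hG
      have hGc : Continuous G := by
        rw [hG]
        refine continuous_finsetSum _ fun i _ => ?_
        refine continuous_const.mul (((continuous_pow _).mul continuous_const).mul ?_)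
        refine (TH259.NS.B_cont (n i)).comp ?_
        fun_prop
      have hG0 : ∀ᶠ r in 𝓝[>] (0 : ℝ), G r = 0 := by
        have hball : ∀ᶠ r in 𝓝[>] (0 : ℝ), r * ‖w‖ < ρ := by
          have h1 : Tendsto (fun r : ℝ => r * ‖w‖) (𝓝[>] 0) (𝓝 (0 * ‖w‖)) :=
            ((continuous_mul_const ‖w‖).tendsto 0).mono_left nhdsWithin_le_nhds
          rw [zero_mul] at h1
          exact h1.eventually (eventually_lt_nhds hρ)
        filter_upwards [hball, self_mem_nhdsWithin] with r hr hr0
        have hr0 : 0 < r := hr0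
        have hx : p + (r : ℂ) * w ∈ Metric.ball p ρ := by
          rw [Metric.mem_ball, dist_eq_norm, add_sub_cancel_left, norm_mul, Complex.norm_real,
            Real.norm_eq_abs, abs_of_pos hr0]
          exact hr
        have h1 := step1 (e ⟨y i₀, hY i₀⟩) _ hx
        rw [Equiv.symm_apply_apply] at h1
        have h2 : r ^ m * G r = 0 := by
          rw [← h1, hG, Finset.mul_sum]
          refine Finset.sum_congr rfl fun i _ => ?_
          by_cases hyi : y i = y i₀
          · have hdi : d i = c i := by rw [hd]; exact if_pos hyi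
            rw [hdi, if_pos hyi]
            rcases lt_or_ge (n i) m with hlt | hge
            · rw [ih (n i) hlt i rfl]
              ring
            · unfold dmF
              rw [indicator_of_mem hx, add_sub_cancel_left, norm_mul, Complex.norm_real,
                Real.norm_eq_abs, abs_of_pos hr0, mul_pow (r : ℂ) w (n i)]
              have h3 : ((if b i then (1 : ℂ) else -Complex.I) * ((r : ℂ) ^ n i * w ^ n i)).re =
                  r ^ m * (r ^ (n i - m) *
                    ((if b i then (1 : ℂ) else -Complex.I) * w ^ n i).re) := by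
                rw [mul_left_comm, ← Complex.ofReal_pow, Complex.re_ofReal_mul]
                have h4 : r ^ n i = r ^ m * r ^ (n i - m) := by
                  rw [← pow_add, Nat.add_sub_cancel' hge]
                rw [h4]
                ring
              rw [h3]
              ring
          · have hdi : d i = 0 := by rw [hd]; exact if_neg hyi
            rw [hdi, if_neg hyi]
            ring
        exact (mul_eq_zero.1 h2).resolve_left (pow_ne_zero _ hr0.ne')
      have hG00 : G 0 = 0 := by
        have h1 : Tendsto G (𝓝[>] 0) (𝓝 (G 0)) := (hGc.tendsto 0).mono_left nhdsWithin_le_nhds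
        have h2 : Tendsto G (𝓝[>] 0) (𝓝 0) := by
          refine tendsto_const_nhds.congr' ?_
          filter_upwards [hG0] with r hr using hr.symm
        exact tendsto_nhds_unique h1 h2
      have hG01 : G 0 = c i₀ * B m 0 := by
        rw [hG]
        show ∑ i, d i * ((0 : ℝ) ^ (n i - m) *
          ((if b i then 1 else -Complex.I) * w ^ n i).re *
          B (n i) (4 * y i / ρ ^ 2 * (0 * ‖w‖) ^ 2 / 4)) = _
        rw [Finset.sum_eq_single i₀]
        · have hdi : d i₀ = c i₀ := by rw [hd]; exact if_pos rfl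
          have h1 : ((if b i₀ then (1 : ℂ) else -Complex.I) * w ^ n i₀).re = 1 := by
            rw [hi₀, hw]
            by_cases h : b i₀ = true
            · rw [if_pos h, if_pos h, one_mul, Complex.one_re]
            · rw [if_neg h, if_neg h, neg_mul, Complex.I_mul_I, neg_neg, Complex.one_re]
          rw [hdi, h1, hi₀, Nat.sub_self, pow_zero]
          simp
        · intro i _ hi
          by_cases hyi : y i = y i₀
          · have hdi : d i = c i := by rw [hd]; exact if_pos hyi
            rcases lt_trichotomy (n i) m with hlt | heq | hgt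
            · rw [hdi, ih (n i) hlt i rfl, zero_mul]
            · have hbi : b i ≠ b i₀ := fun h => hi (hinj i i₀ (heq.trans hi₀.symm) hyi h)
              have h1 : ((if b i then (1 : ℂ) else -Complex.I) * w ^ n i).re = 0 := by
                rw [heq, hw]
                by_cases h : b i₀ = true
                · have h2 : ¬ b i = true := fun h2 => hbi (h2.trans h.symm)
                  rw [if_pos h, if_neg h2, mul_one, Complex.neg_re, Complex.I_re, neg_zero]
                · have h2 : b i = true := by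
                    cases hbb : b i
                    · cases hbc : b i₀
                      · exact absurd (hbb.trans hbc.symm) hbi
                      · exact absurd hbc h
                    · rfl
                  rw [if_neg h, if_pos h2, one_mul, Complex.I_re]
              rw [h1]
              ring
            · have h1 : (0 : ℝ) ^ (n i - m) = 0 := zero_pow (by omega)
              rw [h1]
              ring
          · have hdi : d i = 0 := by rw [hd]; exact if_neg hyi
            rw [hdi, zero_mul]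
        · intro h
          exact absurd (Finset.mem_univ _) h
      rw [hG00, TH259.NS.B_zero] at hG01
      have h1 : (1 : ℝ) / (m.factorial : ℝ) ≠ 0 := by positivity
      exact (mul_eq_zero.1 hG01.symm).resolve_right h1
  exact fun i => step2 (n i) i rfl

theorem dmF_li {p : ℂ} {ρ : ℝ} (hρ : 0 < ρ) {κ : Type} [Fintype κ] (n : κ → ℕ) (y : κ → ℝ)
    (b : κ → Bool) (hinj : ∀ i j, n i = n j → y i = y j → b i = b j → i = j)
    (hb : ∀ i, n i = 0 → b i = true) (hz : ∀ i, B (n i) (y i) = 0) :
    LinearIndependent ℝ (fun i => dmF p ρ (n i) (y i) (b i)) := by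
  let e := Fintype.equivFin κ
  have h := dmF_li_fin (p := p) hρ (fun j => n (e.symm j)) (fun j => y (e.symm j))
    (fun j => b (e.symm j)) (fun i j h1 h2 h3 => e.symm.injective (hinj _ _ h1 h2 h3))
    (fun j => hb _) (fun j => hz _)
  exact (linearIndependent_equiv e.symm).1 h

/-- TARGET 2: the number of eigenvalues of the disc below a radial one. -/
theorem disc_index {p : ℂ} {ρ lam : ℝ} (hρ : 0 < ρ) (hlam : 0 < lam)
    (h0 : B 0 (lam * ρ ^ 2 / 4) = 0) (W : ℕ → Finset ℝ)
    (hW : ∀ n, ∀ x ∈ W n, 0 < x ∧ x < lam * ρ ^ 2 / 4 ∧ B n x = 0) (L N : ℕ) (hN : 1 ≤ N)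
    (hle : N ≤ (W 0).card + 2 * ∑ n ∈ Finset.Icc 1 L, (W n).card) :
    dirichletEigenvalue N (Metric.ball p ρ) < lam := by
  classical
  have hρ2 : 0 < ρ ^ 2 := by positivity
  let S : Finset (Σ _ : ℕ, ℝ × Bool) := (Finset.range (L + 1)).sigma fun n =>
    (W n) ×ˢ (if n = 0 then {true} else (Finset.univ : Finset Bool))
  have hS : S.card = (W 0).card + 2 * ∑ n ∈ Finset.Icc 1 L, (W n).card := by
    show Finset.card ((Finset.range (L + 1)).sigma fun n =>
      (W n) ×ˢ (if n = 0 then {true} else (Finset.univ : Finset Bool))) = _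
    rw [Finset.card_sigma, Finset.range_eq_Ico, Finset.sum_eq_sum_Ico_succ_bot (Nat.succ_pos L),
      Finset.mul_sum]
    congr 1
    · rw [Finset.card_product, if_pos rfl, Finset.card_singleton, mul_one]
    · refine Finset.sum_congr ?_ fun n hn => ?_
      · ext n
        simp only [Finset.mem_Ico, Finset.mem_Icc]
        omega
      · have hn0 : n ≠ 0 := by
          rw [Finset.mem_Icc] at hn
          omega
        rw [Finset.card_product, if_neg hn0, Finset.card_univ, Fintype.card_bool, mul_comm]
  obtain ⟨T, hTS, hTc⟩ := Finset.exists_subset_card_eq (hle.trans hS.ge)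
  have hT : ∀ t ∈ T, t.2.1 ∈ W t.1 ∧ (t.1 = 0 → t.2.2 = true) := by
    intro t ht
    have h1 := hTS ht
    rw [Finset.mem_sigma, Finset.mem_product] at h1
    refine ⟨h1.2.1, fun h2 => ?_⟩
    have h3 := h1.2.2
    rw [if_pos h2, Finset.mem_singleton] at h3
    exact h3
  let nn : Option T → ℕ := fun i => i.elim 0 fun t => t.1.1
  let yy : Option T → ℝ := fun i => i.elim (lam * ρ ^ 2 / 4) fun t => t.1.2.1
  let bb : Option T → Bool := fun i => i.elim true fun t => t.1.2.2
  have hz : ∀ i, B (nn i) (yy i) = 0 := by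
    rintro (_ | t)
    · exact h0
    · exact (hW _ _ (hT t.1 t.2).1).2.2
  have hpos : ∀ i, 0 < 4 * yy i / ρ ^ 2 ∧ 4 * yy i / ρ ^ 2 ≤ lam := by
    rintro (_ | t)
    · have : 4 * yy none / ρ ^ 2 = lam := by
        show 4 * (lam * ρ ^ 2 / 4) / ρ ^ 2 = lam
        field_simp
      rw [this]
      exact ⟨hlam, le_rfl⟩
    · obtain ⟨h1, h2, -⟩ := hW _ _ (hT t.1 t.2).1
      refine ⟨?_, ?_⟩
      · show 0 < 4 * t.1.2.1 / ρ ^ 2
        positivity
      · show 4 * t.1.2.1 / ρ ^ 2 ≤ lam
        rw [div_le_iff₀ hρ2]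
        linarith
  refine index_family_max Metric.isOpen_ball Metric.isBounded_ball
    (convex_ball p ρ).isPreconnected hlam hN (ι := T) (by rw [Fintype.card_coe, hTc])
    (fun _ => Metric.ball p ρ) (fun i => dmF p ρ (nn i) (yy i) (bb i))
    (fun i => 4 * yy i / ρ ^ 2) (fun _ => ⟨Metric.isOpen_ball, subset_rfl⟩) hpos
    (fun i => dmF_wat hρ (nn i) (bb i) (hz i)) rfl ?_ ?_ ?_ ?_
  · show 4 * (lam * ρ ^ 2 / 4) / ρ ^ 2 = lam
    field_simp
  · intro F hF i j
    have h1 := (hF i).2.2 (F j) (hF j).1
    have h2 := (hF j).2.2 (F i) (hF i).1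
    rcases le_total (4 * yy i / ρ ^ 2) (4 * yy j / ρ ^ 2) with h | h
    · rw [max_eq_right h, real_inner_comm, h2, real_inner_comm]
    · rw [max_eq_left h]
      exact h1
  · refine ⟨Metric.ball p ρ, Metric.isOpen_ball, ⟨p, Metric.mem_ball_self hρ⟩, subset_rfl,
      fun t => Or.inr ⟨rfl, ?_⟩⟩
    obtain ⟨h1, h2, -⟩ := hW _ _ (hT t.1 t.2).1
    show 4 * t.1.2.1 / ρ ^ 2 < lam
    rw [div_lt_iff₀ hρ2]
    linarith
  · refine dmF_li hρ nn yy bb ?_ ?_ hz
    · rintro (_ | s) (_ | t) h1 h2 h3
      · rfl
      · exfalso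
        obtain ⟨-, h4, -⟩ := hW _ _ (hT t.1 t.2).1
        have h5 : lam * ρ ^ 2 / 4 = t.1.2.1 := h2
        linarith
      · exfalso
        obtain ⟨-, h4, -⟩ := hW _ _ (hT s.1 s.2).1
        have h5 : s.1.2.1 = lam * ρ ^ 2 / 4 := h2
        linarith
      · have h4 : s.1 = t.1 := by
          have h5 : s.1.1 = t.1.1 := h1
          have h6 : s.1.2 = t.1.2 := Prod.ext h2 h3
          exact Sigma.ext h5 (heq_of_eq h6)
        exact congrArg some (Subtype.ext h4)
    · rintro (_ | t) h
      · rfl
      · exact (hT t.1 t.2).2 h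

end Pool.Agent.Helper327_Drum
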