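import Pool.Agent.Helper327_Drum.Fin.FM2
import Pool.Agent.Helper327_Drum.Fin.NB3
import Pool.Agent.Helper327_Drum.Fin.GM5a
import Pool.Agent.Helper327_Drum.Fin.GM5b

/-
JOB GM5c (owner helper327, problem MP_d92c84_an). All imports are on origin/main. Prove only the TARGET; the lemmas marked given are proved in other jobs.
-/

set_option autoImplicit false
open MeasureTheory Set Filter Topology
open scoped ContDiff InnerProductSpace

namespace Pool.Agent.Helper327_Drum

open TH259.NS (B J)

/-
B_0' = -B_1 and (s B_1(s))' = B_0(s) (see `fm2_rolle` in Fin/FM2.lean: between two zeros of s ↦ s B 1 s there is a zero of B 0).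
Plain proof. Put lam = ν (last m), a_j = ν j ρ²/4 (zeros of B 0, strictly increasing), s_i = ν 0 r_i²/4: l different zeros of B 1 in (0, a_0). Sort them: s_(1) < ... < s_(l); s B 1 (s) vanishes at 0 too, so B 0 has a zero in
each of (0, s_(1)), (s_(1), s_(2)), ...: l different zeros in (0, a_0); with a_0, ..., a_{m-1} these are Q = l + m zeros of B 0 in (0, a_m): the set Z. `bessel_count` with a = a_m gives W n, and
(W n).card ≥ Q + 1 - (n + 1) / 2 for 1 ≤ n ≤ 2 Q: Σ_{n=1}^{2Q} (W n).card ≥ Q (Q + 1). So `disc_index` applies with L = 2 Q for N ≤ Q + 2 Q (Q + 1) = 2 Q² + 3 Q, and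
3 l (m + 1) + m + 2 ≤ 2 (l + m)² + 3 (l + m) for l ≥ 1 (the difference is 2 l² + l m + 2 m² + 2 m - 2).
-/

theorem gm5c_sum {W : ℕ → Finset ℝ} {Q : ℕ}
    (h : ∀ n, 1 ≤ n → Q + 1 ≤ (W n).card + (n + 1) / 2) (K : ℕ) :
    2 * K * (Q + 1) ≤ ∑ n ∈ Finset.Icc 1 (2 * K), (W n).card + K * (K + 1) := by
  induction K with
  | zero => simp
  | succ K ih =>
    have e : 2 * (K + 1) = 2 * K + 1 + 1 := by ring
    rw [e, Finset.sum_Icc_succ_top (by omega), Finset.sum_Icc_succ_top (by omega)]
    have h1 := h (2 * K + 1) (by omega)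
    have h2 := h (2 * K + 1 + 1) (by omega)
    have h3 : (2 * K + 1 + 1) / 2 = K + 1 := by omega
    have h4 : (2 * K + 1 + 1 + 1) / 2 = K + 1 := by omega
    rw [h3] at h1
    rw [h4] at h2
    nlinarith

/-- TARGET: the radial case with several eigenvalues. -/
theorem radial_all {p : ℂ} {ρ : ℝ} {m : ℕ} (ν : Fin (m + 1) → ℝ) (hν : StrictMono ν)
    (hν0 : 0 < ν 0) {l : ℕ} (hl : 1 ≤ l) (r : Fin l → ℝ)
    (hr : ∀ i, 0 < r i ∧ r i < ρ) (hinj : Function.Injective r)
    (h0 : ∀ j, B 0 (ν j * ρ ^ 2 / 4) = 0) (h1 : ∀ i, B 1 (ν 0 * r i ^ 2 / 4) = 0) :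
    dirichletEigenvalue (3 * l * (m + 1) + m + 2) (Metric.ball p ρ) < ν (Fin.last m) := by
  classical
  have i0 : Fin l := ⟨0, hl⟩
  have hρ : 0 < ρ := (hr i0).1.trans (hr i0).2
  have hνp : ∀ j, 0 < ν j := fun j => hν0.trans_le (hν.monotone (Fin.zero_le j))
  have hmono : ∀ {x y : ℝ}, 0 ≤ x → x < y → ν 0 * x ^ 2 / 4 < ν 0 * y ^ 2 / 4 := by
    intro x y hx hxy
    have : x ^ 2 < y ^ 2 := pow_lt_pow_left₀ hxy hx two_ne_zero
    have := mul_lt_mul_of_pos_left this hν0
    linarith
  have hs : ∀ i, 0 < ν 0 * r i ^ 2 / 4 := fun i => by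
    have := (hr i).1
    positivity
  choose t ht0 hts htB htm using fun i => fm2_last (hs i) (h1 i)
  have htinj : ∀ i j, r i < r j → t i < t j := by
    intro i j hij
    obtain ⟨c, hc, hc0⟩ := fm2_rolle (hmono (hr i).1.le hij) (by rw [h1 i, mul_zero]) (h1 j)
    have h2 := htm j c ((hs i).le.trans hc.1.le) hc.2.le hc0
    exact (hts i).trans (hc.1.trans_le h2)
  have hti : Function.Injective t := by
    intro i j h2
    rcases lt_trichotomy (r i) (r j) with h | h | h
    · exact absurd h2 (htinj i j h).ne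
    · exact hinj h
    · exact absurd h2 (htinj j i h).ne'
  set a : Fin (m + 1) → ℝ := fun j => ν j * ρ ^ 2 / 4 with ha
  have ham : StrictMono a := by
    intro i j hij
    have h2 := hν hij
    have h3 : 0 < ρ ^ 2 := by positivity
    have := mul_lt_mul_of_pos_right h2 h3
    simp only [ha]
    linarith
  have hap : ∀ j, 0 < a j := fun j => by
    have := hνp j
    simp only [ha]
    positivity
  have hta : ∀ i, t i < a 0 := fun i => (hts i).trans (hmono (hr i).1.le (hr i).2)
  let f : Fin l ⊕ Fin m → ℝ := Sum.elim t (fun j => a j.castSucc)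
  have hf : Function.Injective f := by
    intro x y hxy
    rcases x with x | x <;> rcases y with y | y
    · exact congrArg Sum.inl (hti hxy)
    · exfalso
      have h2 : t x = a y.castSucc := hxy
      have h3 := hta x
      have h4 := ham.monotone (Fin.zero_le y.castSucc)
      linarith
    · exfalso
      have h2 : a x.castSucc = t y := hxy
      have h3 := hta y
      have h4 := ham.monotone (Fin.zero_le x.castSucc)
      linarith
    · have h2 : a x.castSucc = a y.castSucc := hxy
      exact congrArg Sum.inr (Fin.castSucc_injective m (ham.injective h2))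
  have hZc : (Finset.univ.image f).card = l + m := by
    rw [Finset.card_image_of_injective _ hf, Finset.card_univ, Fintype.card_sum,
      Fintype.card_fin, Fintype.card_fin]
  have hZ : ∀ x ∈ Finset.univ.image f, 0 < x ∧ x < a (Fin.last m) ∧ B 0 x = 0 := by
    intro x hx
    obtain ⟨k, _, rfl⟩ := Finset.mem_image.1 hx
    rcases k with i | j
    · exact ⟨ht0 i, (hta i).trans_le (ham.monotone (Fin.zero_le _)), htB i⟩
    · exact ⟨hap _, ham (Fin.castSucc_lt_last j), h0 _⟩
  obtain ⟨W, hW, hW0, hWc⟩ := bessel_count _ hZ (hap _) (h0 (Fin.last m))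
  rw [hZc] at hWc
  have h2 := gm5c_sum hWc (l + m)
  refine disc_index hρ (hνp _) (h0 (Fin.last m)) W hW (2 * (l + m)) _ (by omega) ?_
  rw [hW0, hZc]
  nlinarith

end Pool.Agent.Helper327_Drum
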