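import Pool.Agent.Helper327_Drum.Fin.GM4
import Pool.Agent.Helper327_Drum.Fin.GM5c
import Pool.Agent.Helper327_Drum.Fin.AS15

/-! The number of closed curves of still points and of frequencies. -/

set_option autoImplicit false
open MeasureTheory Set Filter Topology ComplexConjugate
open scoped ContDiff InnerProductSpace

namespace Pool.Agent.Helper327_Drum

open Pool.Agent.TH298.Sch (dd SC)
open Pool.Agent.R227.SA (la Wat Dat)
open TH259.NS (B J)

/-- The numbers of closed curves of still points and of frequencies are bounded in terms of the number of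
eigenvalues. -/
theorem curve_freq_all {R : Set ℂ} {c : ℝ} {z : ℂ → ℝ → ℝ} {g : ℂ → ℝ → ℂ}
    (hR : SimpleClosedCurve R) (hc : 0 < c) (h : DrumSolution R c z g) {l : ℕ}
    (γ : Fin l → Set ℂ) (hinj : Function.Injective γ) (hγ : ∀ i, SimpleClosedCurve (γ i))
    (hS : ∀ i, γ i ⊆ still R g) (M : Finset (Fin l)) (hM0 : M.Nonempty)
    (hM : ∀ i ∈ M, ∀ j, ¬ γ j ⊆ inside (γ i)) {m : ℕ} (lam : Fin (m + 1) → ℝ)
    (hmono : StrictMono lam) (hE : ∀ j, Excites R z (lam j)) :
    dirichletEigenvalue (3 * l * (m + 1) + m + 2 * M.card) (inside R) < lam (Fin.last m) := by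
  obtain ⟨hRc, hRcon, hRinf⟩ := scc_basic hR
  obtain ⟨hDo, hDb, hfr, hcl, hdj⟩ := inside_basic hRc
  have hmode := fun j => mode_of_excites hRc hc h (hE j)
  have hlam := fun j => (hmode j).1
  choose u hm using fun j => (hmode j).2
  obtain ⟨hDc, hDfr, hDreg⟩ := inside_jordan hR (hm 0).nonempty
  have h1 : ∀ i j, γ i ⊆ inside R ∧ ∃ k ≠ 0, ∀ x ∈ γ i, u j x = k := fun i j =>
    (hm j).const_curve hR (hlam j) (hγ i) (fun x hx => (hS i hx).1) fun x hx => (hS i hx).2
  have hsub := fun i => (h1 i 0).1
  choose k hk huk using fun i j => (h1 i j).2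
  have hcr : ∀ i j, ∀ x ∈ γ i, fderiv ℝ (u j) x = 0 := fun i j x hx =>
    (hm j).crit x (hsub i hx) (hS i hx).2
  have hdat := fun i j =>
    crit_dat hR (hγ i) (hlam j) (hm j).wat (hsub i) (hk i j) (huk i j) (hcr i j)
  have hb := fun i => inside_basic (scc_basic (hγ i)).1
  have hj := fun i => inside_jordan (hγ i) (hdat i 0).1
  obtain ⟨i₀, hi₀⟩ := hM0
  have hl : 1 ≤ l := by
    have := i₀.isLt
    omega
  by_cases hdisc : ∃ i, ∃ (p : ℂ) (r : ℝ), 0 < r ∧ inside (γ i) = Metric.ball p r
  · obtain ⟨i, p, r, hr, hball⟩ := hdisc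
    obtain ⟨ρ, h2, h3, h4, h5, h6, h7, h8⟩ :=
      disc_case hR (hγ i) (hlam 0) (hm 0).wat (hsub i) (hk i 0) (huk i 0) (hcr i 0) hr hball
    have h9 := fun j => concentric hR (hγ i) (hγ j) (hlam 0) (hm 0).wat (hsub i) (hsub j) (hk i 0)
      (huk i 0) (hcr i 0) (hk j 0) (huk j 0) (hcr j 0) hr hball
    choose s hs hγs hBs using h9
    have hB0 : ∀ j, B 0 (lam j * ρ ^ 2 / 4) = 0 := by
      intro j
      obtain ⟨ρ', g2, g3, -, -, g6, -⟩ :=
        disc_case hR (hγ i) (hlam j) (hm j).wat (hsub i) (hk i j) (huk i j) (hcr i j) hr hball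
      have hρ : ρ = ρ' := sphere_radius (hr.trans h2) (hr.trans g2) (by rw [← h3, g3])
      rw [hρ]
      exact g6
    have hsρ : ∀ j, s j < ρ := by
      intro j
      have e1 : p + (s j : ℂ) ∈ γ j := by
        rw [hγs, mem_sphere_iff_norm, add_sub_cancel_left, Complex.norm_real, Real.norm_eq_abs,
          abs_of_pos (hs j)]
      have e2 := hsub j e1
      rw [h4, mem_ball_iff_norm, add_sub_cancel_left, Complex.norm_real, Real.norm_eq_abs,
        abs_of_pos (hs j)] at e2
      exact e2
    have hsinj : Function.Injective s := by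
      intro a b hab
      apply hinj
      rw [hγs a, hγs b, hab]
    have hnot : ∀ i ∈ M, ∀ j, ¬ s j < s i := by
      intro i hi j hji
      refine hM i hi j ?_
      rw [hγs i, hγs j, inside_sphere p (hs i)]
      exact Metric.sphere_subset_ball hji
    have hcard : M.card = 1 := by
      rw [Finset.card_eq_one]
      refine ⟨i₀, Finset.eq_singleton_iff_unique_mem.2 ⟨hi₀, fun j hj => ?_⟩⟩
      exact hsinj (le_antisymm (not_lt.1 (hnot j hj i₀)) (not_lt.1 (hnot i₀ hi₀ j)))
    rw [hcard, h4, mul_one]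
    exact radial_all lam hmono (hlam 0) hl s (fun j => ⟨hs j, hsρ j⟩) hsinj hB0 hBs
  · push Not at hdisc
    refine family_index_all lam hmono (hlam 0) hDo hDb hDc.isPreconnected (fun j => (hm j).wat)
      (fun j => (hm j).ne) hl (fun i => inside (γ i)) k
      (fun i j => (hdat i j).2) hk (fun i => (hb i).1) (fun i => (hj i).1) (fun i => (hj i).2.2)
      (fun i => (inside_compl (scc_basic (hγ i)).1 (scc_basic (hγ i)).2.1).1.isPreconnected)
      ?_ ?_ ?_ ?_ M ?_
    · intro i
      rw [closure_inside (hγ i) (hdat i 0).1]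
      exact union_subset (inside_sub hRc hRcon (hsub i)) (hsub i)
    · intro i j hij
      exact scc_rel (hγ i) (hγ j)
        (still_curves_disjoint hR hc h (hγ i) (hγ j) (hS i) (hS j) (hinj.ne hij)) (hdat i 0).1
        (hdat j 0).1
    · by_contra hE'
      rw [not_nonempty_iff_eq_empty, sdiff_eq_empty] at hE'
      have hcl' : ∀ i, closure (inside (γ i)) ⊆ inside R := by
        intro i
        rw [closure_inside (hγ i) (hdat i 0).1]
        exact union_subset (inside_sub hRc hRcon (hsub i)) (hsub i)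
      have e1 : inside R = ⋃ i, closure (inside (γ i)) :=
        Subset.antisymm hE' (iUnion_subset hcl')
      have e2 : IsClosed (inside R) := by
        rw [e1]
        exact isClosed_iUnion_of_finite fun i => isClosed_closure
      rcases isClopen_iff.1 ⟨e2, hDo⟩ with e3 | e3
      · exact (hm 0).nonempty.ne_empty e3
      · rw [e3] at hDb
        exact (NormedSpace.unbounded_univ ℝ ℂ) hDb
    · rintro i ⟨p, r, hr, hball⟩
      exact hdisc i p r hr hball
    · intro i hi j hji hsub'
      refine hM i hi j ?_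
      refine Subset.trans ?_ hsub'
      rw [closure_inside (hγ j) (hdat j 0).1]
      exact subset_union_right

end Pool.Agent.Helper327_Drum
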