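import Pool.Agent.Helper327_Drum.KDefs
import Pool.Agent.Helper327_Drum.Fin.AS19

/-! Drums near regions in which the Helmholtz equation can be separated: the final form. -/

set_option autoImplicit false
open MeasureTheory Set Filter Topology ComplexConjugate
open scoped ContDiff InnerProductSpace

namespace Pool.Agent.Helper327_Drum

open Pool.Agent.TH298.Sch (dd SC Lr X)

theorem first_special {K : Set ℂ} (h : FirstKind K) : Special K := by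
  rcases h with ⟨a, b, ha, hb, σ, s, hs, rfl⟩ | ⟨σ, s, hs, rfl⟩ | ⟨σ, s, hs, rfl⟩ | ⟨σ, s, hs, rfl⟩ |
    ⟨N, hN, σ, s, hs, rfl⟩
  · exact ⟨_, Or.inl ⟨a, b, ha, hb, rfl⟩, σ, s, hs, rfl⟩
  · exact ⟨_, Or.inr (Or.inl rfl), σ, s, hs, rfl⟩
  · exact ⟨_, Or.inr (Or.inr (Or.inl rfl)), σ, s, hs, rfl⟩
  · exact ⟨_, Or.inr (Or.inr (Or.inr (Or.inl rfl))), σ, s, hs, rfl⟩
  · exact ⟨_, Or.inr (Or.inr (Or.inr (Or.inr ⟨N, hN, rfl⟩))), σ, s, hs, rfl⟩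

theorem crect_closure {a b c d : ℝ} :
    closure (crect a b c d) ⊆ {ζ : ℂ | a ≤ ζ.re ∧ ζ.re ≤ b ∧ c ≤ ζ.im ∧ ζ.im ≤ d} := by
  refine closure_minimal (fun ζ hζ => ⟨hζ.1.le, hζ.2.1.le, hζ.2.2.1.le, hζ.2.2.2.le⟩) ?_
  exact (isClosed_le continuous_const Complex.continuous_re).inter
    ((isClosed_le Complex.continuous_re continuous_const).inter
      ((isClosed_le continuous_const Complex.continuous_im).inter
        (isClosed_le Complex.continuous_im continuous_const)))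

theorem second_separable {K : Set ℂ} (h : SecondKind K) : Separable2 K := by
  rcases h with ⟨A, B, hB, hAB, ⟨σ, s, hs, rfl⟩ | ⟨σ, s, hs, rfl⟩⟩ | ⟨α, h0, h1, σ, s, hs, rfl⟩ |
    ⟨Φ, A, B, a, b, c, d, hΦ, hAB, hab, hcd, hinj, rfl⟩
  · exact Or.inr ⟨_, Or.inl ⟨A, B, hB, hAB, Or.inl rfl⟩, σ, s, hs, rfl⟩
  · exact Or.inr ⟨_, Or.inl ⟨A, B, hB, hAB, Or.inr rfl⟩, σ, s, hs, rfl⟩
  · exact Or.inr ⟨_, Or.inr ⟨α, h0, h1, rfl⟩, σ, s, hs, rfl⟩
  · exact Or.inl ⟨Φ, A, B, a, b, c, d, hΦ, hAB, hab, hcd, hinj.mono crect_closure, rfl⟩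

end Pool.Agent.Helper327_Drum
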