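import Pool.Agent.Helper327_Drum.BDefs
import Pool.Agent.Helper327_Drum.Fin.M4
import Pool.Agent.Helper327_Drum.Fin.I2
import Pool.Agent.R227.SA17
import Pool.Agent.Helper327_Drum.Fin.N1

set_option autoImplicit false
open MeasureTheory Set Filter Topology ComplexConjugate
open scoped ContDiff InnerProductSpace

namespace Pool.Agent.Helper327_Drum

open Pool.Agent.TH298.Sch (dd SC)
open Pool.Agent.R227.SA (la Wat Dat)

/-- the inner product with `e` as a continuous linear map -/
noncomputable def p0L (e : ℂ) : ℂ →L[ℝ] ℝ := e.re • Complex.reCLM + e.im • Complex.imCLM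

theorem p0L_apply (e x : ℂ) : p0L e x = ip x e := by
  simp only [p0L, ip, ContinuousLinearMap.add_apply, ContinuousLinearMap.smul_apply,
    Complex.reCLM_apply, Complex.imCLM_apply, smul_eq_mul]
  ring

theorem p0_dd_cos (a s : ℝ) (e v : ℂ) :
    dd v (fun x => Real.cos (a * ip x e + s)) = fun x => -(a * ip v e) * Real.sin (a * ip x e + s) := by
  ext x
  have h1 : HasFDerivAt (fun x : ℂ => a * ip x e + s) (a • p0L e) x := by
    have h : HasFDerivAt (fun x : ℂ => a * p0L e x + s) (a • p0L e) x :=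
      ((p0L e).hasFDerivAt.const_mul a).add_const s
    simpa only [p0L_apply] using h
  have h2 := (Real.hasDerivAt_cos (a * ip x e + s)).comp_hasFDerivAt x h1
  unfold dd
  have h3 : fderiv ℝ (fun x => Real.cos (a * ip x e + s)) x =
      -Real.sin (a * ip x e + s) • (a • p0L e) := h2.fderiv
  rw [h3]
  simp only [ContinuousLinearMap.smul_apply, smul_eq_mul, p0L_apply]
  ring

theorem p0_dd_sin (a s b : ℝ) (e v : ℂ) :
    dd v (fun x => b * Real.sin (a * ip x e + s)) =
      fun x => b * ((a * ip v e) * Real.cos (a * ip x e + s)) := by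
  ext x
  have h1 : HasFDerivAt (fun x : ℂ => a * ip x e + s) (a • p0L e) x := by
    have h : HasFDerivAt (fun x : ℂ => a * p0L e x + s) (a • p0L e) x :=
      ((p0L e).hasFDerivAt.const_mul a).add_const s
    simpa only [p0L_apply] using h
  have h2 := ((Real.hasDerivAt_sin (a * ip x e + s)).comp_hasFDerivAt x h1).const_mul b
  unfold dd
  have h3 : fderiv ℝ (fun x => b * Real.sin (a * ip x e + s)) x =
      b • (Real.cos (a * ip x e + s) • (a • p0L e)) := h2.fderiv
  rw [h3]
  simp only [ContinuousLinearMap.smul_apply, smul_eq_mul, p0L_apply]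
  ring

theorem p0_la_cos (a s : ℝ) (e : ℂ) (he : e.re ^ 2 + e.im ^ 2 = 1) (x : ℂ) :
    la (fun x => Real.cos (a * ip x e + s)) x = -(a ^ 2 * Real.cos (a * ip x e + s)) := by
  unfold la
  rw [p0_dd_cos, p0_dd_cos, p0_dd_sin, p0_dd_sin]
  have h1 : ip 1 e = e.re := by simp [ip]
  have h2 : ip Complex.I e = e.im := by simp [ip]
  simp only [h1, h2]
  linear_combination (-(a ^ 2 * Real.cos (a * ip x e + s))) * he

theorem p0_la_congr {f g : ℂ → ℝ} {x : ℂ} (h : f =ᶠ[𝓝 x] g) : la f x = la g x := by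
  have hd : ∀ (v : ℂ) {f g : ℂ → ℝ} {x : ℂ}, f =ᶠ[𝓝 x] g → dd v f =ᶠ[𝓝 x] dd v g := by
    intro v f g x h
    have h2 := h.fderiv (𝕜 := ℝ)
    filter_upwards [h2] with y hy
    unfold dd
    rw [hy]
  unfold la
  rw [(hd 1 (hd 1 h)).eq_of_nhds, (hd Complex.I (hd Complex.I h)).eq_of_nhds]

theorem p0_ip_smooth (a s : ℝ) (e : ℂ) : ContDiff ℝ ∞ (fun x => Real.cos (a * ip x e + s)) := by
  have h : ContDiff ℝ ∞ (fun x : ℂ => a * p0L e x + s) :=
    (contDiff_const.mul (p0L e).contDiff).add contDiff_const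
  simp only [p0L_apply] at h
  exact Real.contDiff_cos.comp h

theorem p0_real {Ω : Set ℂ} {lam c : ℝ} {v : ℂ → ℝ} (D : Dat Ω lam c v) (ho : IsOpen Ω)
    (hb : Bornology.IsBounded Ω) (hlam : 0 < lam) (hc : c ≠ 0) (e : ℂ)
    (he : e.re ^ 2 + e.im ^ 2 = 1) (s : ℝ) :
    ∫ x in Ω, Real.cos (√lam * ip x e + s) = 0 := by
  obtain ⟨R, hR⟩ := hb.subset_ball (0 : ℂ)
  let b : ContDiffBump (0 : ℂ) := ⟨max R 1, max R 1 + 1, by positivity, by linarith⟩
  have hRb : Ω ⊆ Metric.ball (0 : ℂ) (max R 1) :=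
    hR.trans (Metric.ball_subset_ball (le_max_left _ _))
  have hb1 : ∀ x ∈ Metric.ball (0 : ℂ) (max R 1), b x = 1 := fun x hx =>
    b.one_of_mem_closedBall (Metric.ball_subset_closedBall hx)
  have hSC : SC (fun x => b x * Real.cos (√lam * ip x e + s)) := by
    constructor
    · exact b.contDiff.mul (p0_ip_smooth _ _ _)
    · exact b.hasCompactSupport.mul_right
  have hloc : ∀ x ∈ Ω, (fun x => b x * Real.cos (√lam * ip x e + s)) =ᶠ[𝓝 x]
      (fun x => Real.cos (√lam * ip x e + s)) := by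
    intro x hx
    filter_upwards [Metric.isOpen_ball.mem_nhds (hRb hx)] with y hy
    rw [hb1 y hy, one_mul]
  have hg := dat_green D ho hb hSC
  have h0 : ∀ x, v x * (la (fun x => b x * Real.cos (√lam * ip x e + s)) x +
      lam * (b x * Real.cos (√lam * ip x e + s))) = 0 := by
    intro x
    by_cases hx : x ∈ Ω
    · rw [p0_la_congr (hloc x hx), p0_la_cos _ _ _ he, Real.sq_sqrt hlam.le, hb1 x (hRb hx)]
      ring
    · rw [D.out x hx, zero_mul]
  simp only [h0, integral_zero] at hg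
  have h1 : ∫ x in Ω, b x * Real.cos (√lam * ip x e + s) = 0 := by
    have h2 : lam * c ≠ 0 := mul_ne_zero hlam.ne' hc
    have h3 : lam * c * ∫ x in Ω, b x * Real.cos (√lam * ip x e + s) = 0 := by linarith
    rcases mul_eq_zero.1 h3 with h | h
    · exact absurd h h2
    · exact h
  rw [← h1]
  refine setIntegral_congr_fun ho.measurableSet ?_
  intro x hx
  simp only
  rw [hb1 x (hRb hx), one_mul]

/-- TARGET: the Fourier transform of the region vanishes on a circle. -/
theorem wave_zero {Ω : Set ℂ} {lam c : ℝ} {v : ℂ → ℝ} (D : Dat Ω lam c v) (ho : IsOpen Ω)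
    (hb : Bornology.IsBounded Ω) (hlam : 0 < lam) (hc : c ≠ 0) (θ : ℝ) :
    ∫ x in Ω, Complex.exp (Complex.I * ((√lam * ip x (ee θ) : ℝ) : ℂ)) = 0 := by
  have he : (ee θ).re ^ 2 + (ee θ).im ^ 2 = 1 := by
    unfold ee
    rw [Complex.exp_ofReal_mul_I_re, Complex.exp_ofReal_mul_I_im]
    exact Real.cos_sq_add_sin_sq θ
  have hcont : ∀ s : ℝ, Continuous (fun x => Real.cos (√lam * ip x (ee θ) + s)) := fun s =>
    (p0_ip_smooth _ _ _).continuous
  have hvol : volume Ω < ⊤ := hb.measure_lt_top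
  have hint : ∀ s : ℝ, IntegrableOn (fun x => Real.cos (√lam * ip x (ee θ) + s)) Ω := by
    intro s
    refine Measure.integrableOn_of_bounded hvol.ne (hcont s).aestronglyMeasurable (M := 1) ?_
    exact Eventually.of_forall fun x => Real.abs_cos_le_one _
  have hpt : ∀ x : ℂ, Complex.exp (Complex.I * ((√lam * ip x (ee θ) : ℝ) : ℂ)) =
      ((Real.cos (√lam * ip x (ee θ) + 0) : ℝ) : ℂ) +
        ((Real.cos (√lam * ip x (ee θ) + -(Real.pi / 2)) : ℝ) : ℂ) * Complex.I := by
    intro x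
    rw [mul_comm Complex.I, Complex.exp_mul_I, add_zero, ← sub_eq_add_neg,
      Real.cos_sub_pi_div_two, Complex.ofReal_cos, Complex.ofReal_sin]
  simp only [hpt]
  rw [integral_add, integral_mul_const]
  · have h1 := p0_real D ho hb hlam hc (ee θ) he 0
    have h2 := p0_real D ho hb hlam hc (ee θ) he (-(Real.pi / 2))
    have e1 : ∫ x in Ω, ((Real.cos (√lam * ip x (ee θ) + 0) : ℝ) : ℂ) = 0 := by
      rw [integral_complex_ofReal, h1, Complex.ofReal_zero]
    have e2 : ∫ x in Ω, ((Real.cos (√lam * ip x (ee θ) + -(Real.pi / 2)) : ℝ) : ℂ) = 0 := by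
      rw [integral_complex_ofReal, h2, Complex.ofReal_zero]
    rw [e1, e2]
    simp
  · exact (hint 0).ofReal
  · exact (hint _).ofReal.mul_const _

end Pool.Agent.Helper327_Drum
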