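import Pool.Agent.Helper327_Drum.BDefs

/-
JOB P3 (owner helper327, problem MP_d92c84_an). The import is on origin/main.
-/

set_option autoImplicit false
open MeasureTheory Set Filter Topology ComplexConjugate

namespace Pool.Agent.Helper327_Drum

/-
Plain proof. With |ψ'| ≤ 1/2 on |t| < δ and ψ 0 = 0: |ψ t| ≤ |t|/2 < δ; a smaller square box q e δ' is again a chart.
Recentring: let |t₀| < δ, q' = cx q e ψ t₀, ψ' t = ψ (t₀ + t) - ψ t₀; for δ' ≤ min (δ - |t₀|) (δ - |ψ t₀|) the square box q' e δ' is contained in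
box q e δ (coordinates (t₀ + t, ψ t₀ + s)).
-/

/-- TARGET 1 -/
theorem Chart.mono {Ω γ : Set ℂ} {q e : ℂ} {δ δ' : ℝ} {ψ : ℝ → ℝ} (C : Chart Ω γ q e δ ψ)
    (h0 : 0 < δ') (h : δ' ≤ δ) : Chart Ω γ q e δ' ψ where
  unit := C.unit
  pos := h0
  smooth := C.smooth
  zero := C.zero
  slope t ht := C.slope t (ht.trans_le h)
  mem t s ht hs := C.mem t s (ht.trans_le h) (hs.trans_le h)
  memγ t s ht hs := C.memγ t s (ht.trans_le h) (hs.trans_le h)

/-- TARGET 2 -/
theorem Chart.bd {Ω γ : Set ℂ} {q e : ℂ} {δ : ℝ} {ψ : ℝ → ℝ} (C : Chart Ω γ q e δ ψ) {t : ℝ}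
    (h : |t| < δ) : |ψ t| < δ := by
  have hd : Differentiable ℝ ψ := C.smooth.differentiable (by norm_num)
  have h1 := (convex_Ioo (-δ) δ).norm_image_sub_le_of_norm_deriv_le (f := ψ) (C := 1 / 2)
    (x := 0) (y := t) (fun x _ => hd x)
    (fun x hx => by
      rw [Real.norm_eq_abs]
      exact C.slope x (abs_lt.mpr hx))
    ⟨by linarith [C.pos], C.pos⟩ (abs_lt.mp h)
  rw [C.zero, sub_zero, sub_zero, Real.norm_eq_abs, Real.norm_eq_abs] at h1
  have := abs_nonneg t
  linarith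

/-- TARGET 3 -/
theorem Chart.recenter {Ω γ : Set ℂ} {q e : ℂ} {δ : ℝ} {ψ : ℝ → ℝ} (C : Chart Ω γ q e δ ψ) {t₀ : ℝ}
    (h : |t₀| < δ) : ∃ δ' > 0, Chart Ω γ (cx q e ψ t₀) e δ' (fun t => ψ (t₀ + t) - ψ t₀) := by
  have h1 := C.bd h
  have hpos : 0 < min (δ - |t₀|) (δ - |ψ t₀|) := lt_min (by linarith) (by linarith)
  have hpt : ∀ t s : ℝ, cx q e ψ t₀ + (t + s * Complex.I) * e =
      q + (((t₀ + t : ℝ) : ℂ) + ((ψ t₀ + s : ℝ) : ℂ) * Complex.I) * e := by
    intro t s
    unfold cx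
    push_cast
    ring
  have hb : ∀ t : ℝ, |t| < min (δ - |t₀|) (δ - |ψ t₀|) → |t₀ + t| < δ := by
    intro t ht
    have h2 := abs_add_le t₀ t
    have h3 := ht.trans_le (min_le_left _ _)
    linarith
  have hb' : ∀ s : ℝ, |s| < min (δ - |t₀|) (δ - |ψ t₀|) → |ψ t₀ + s| < δ := by
    intro t ht
    have h2 := abs_add_le (ψ t₀) t
    have h3 := ht.trans_le (min_le_right _ _)
    linarith
  refine ⟨min (δ - |t₀|) (δ - |ψ t₀|), hpos, ?_⟩
  refine ⟨C.unit, hpos, ?_, ?_, ?_, ?_, ?_⟩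
  · exact (C.smooth.comp (contDiff_const.add contDiff_id)).sub contDiff_const
  · simp
  · intro t ht
    rw [deriv_sub_const, deriv_comp_const_add]
    exact C.slope _ (hb t ht)
  · intro t s ht hs
    rw [hpt, C.mem _ _ (hb t ht) (hb' s hs)]
    constructor <;> intro h2 <;> linarith
  · intro t s ht hs
    rw [hpt, C.memγ _ _ (hb t ht) (hb' s hs)]
    constructor <;> intro h2 <;> linarith

/-- TARGET 4: squares are open -/
theorem box_open {q e : ℂ} (he : ‖e‖ = 1) (δ : ℝ) : IsOpen (box q e δ) := by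
  have hee : e * conj e = 1 := by
    rw [Complex.mul_conj, Complex.normSq_eq_norm_sq, he]; simp
  have h1 : box q e δ = {x | |((x - q) * conj e).re| < δ} ∩ {x | |((x - q) * conj e).im| < δ} := by
    ext x
    constructor
    · rintro ⟨t, s, ht, hs, rfl⟩
      have h2 : (q + (t + s * Complex.I) * e - q) * conj e = t + s * Complex.I := by
        rw [add_sub_cancel_left, mul_assoc, hee, mul_one]
      constructor
      · show |((q + (t + s * Complex.I) * e - q) * conj e).re| < δ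
        rw [h2]
        simpa using ht
      · show |((q + (t + s * Complex.I) * e - q) * conj e).im| < δ
        rw [h2]
        simpa using hs
    · rintro ⟨h2, h3⟩
      refine ⟨((x - q) * conj e).re, ((x - q) * conj e).im, h2, h3, ?_⟩
      rw [Complex.re_add_im, mul_assoc, mul_comm (conj e) e, hee, mul_one]
      ring
  rw [h1]
  have hc : Continuous (fun x : ℂ => (x - q) * conj e) :=
    (continuous_id.sub continuous_const).mul continuous_const
  exact (isOpen_lt (Complex.continuous_re.comp hc).abs continuous_const).inter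
    (isOpen_lt (Complex.continuous_im.comp hc).abs continuous_const)

/-
Plain proof of TARGET 5 (Sard in one variable). γ is compact and covered by the open squares of the charts of its points: finitely many
charts (q_i, e_i, δ_i, ψ_i) suffice, every point of γ is cx q_i e_i ψ_i t for some i and |t| < δ_i (`memγ`). For a chart, ip (cv e ψ t) (ee θ) = 0 means that
ee θ = ± I cv/|cv|, that is θ = arg e + arctan (ψ' t) + π/2 mod π. The set of the bad angles
{arg e_i + arctan (ψ_i' t) + π/2 + m π : ψ_i'' t = 0, m ∈ ℤ, i} has Lebesgue measure 0 by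
`MeasureTheory.addHaar_image_eq_zero_of_det_fderiv_eq_zero` (or a one dimensional version) for the C¹ functions arctan ∘ ψ_i', and countable unions. Let θ₀ be an
angle outside it. For q ∈ γ, q = cx q_i e_i ψ_i t₀, take the recentred chart: its ψ has ψ' 0 = ψ_i' t₀, ψ'' 0 = ψ_i'' t₀.
-/

theorem good_direction_null {e : ℂ} (he : ‖e‖ = 1) {ψ : ℝ → ℝ} (hψ : ContDiff ℝ 2 ψ) :
    volume {θ : ℝ | ∃ t : ℝ, deriv (deriv ψ) t = 0 ∧ ip (cv e ψ t) (ee θ) = 0} = 0 := by
  set α : ℝ := Complex.arg e with hα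
  have hre : e.re = Real.cos α := by
    rw [hα, Complex.cos_arg (by intro h0; rw [h0, norm_zero] at he; norm_num at he), he, div_one]
  have him : e.im = Real.sin α := by
    rw [hα, Complex.sin_arg, he, div_one]
  have hψ1 : ContDiff ℝ 1 (deriv ψ) := by
    have : ContDiff ℝ (1 + 1) ψ := by
      have h11 : (1 : WithTop ℕ∞) + 1 = 2 := by norm_num
      rw [h11]; exact hψ
    exact (contDiff_succ_iff_deriv.mp this).2.2
  have hψd : Differentiable ℝ (deriv ψ) := hψ1.differentiable (by norm_num)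
  have hsub : {θ : ℝ | ∃ t : ℝ, deriv (deriv ψ) t = 0 ∧ ip (cv e ψ t) (ee θ) = 0} ⊆
      ⋃ m : ℤ, (fun t : ℝ => α + Real.arctan (deriv ψ t) + (2 * m + 1) * Real.pi / 2) ''
        {t : ℝ | deriv (deriv ψ) t = 0} := by
    rintro θ ⟨t, ht, hip⟩
    have h1 : Real.cos (θ - α) + deriv ψ t * Real.sin (θ - α) = 0 := by
      have h2 : ip (cv e ψ t) (ee θ) = Real.cos (θ - α) + deriv ψ t * Real.sin (θ - α) := by
        have h3 : (cv e ψ t).re = e.re - deriv ψ t * e.im := by
          simp [cv]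
        have h4 : (cv e ψ t).im = e.im + deriv ψ t * e.re := by
          simp [cv]
        have h5 : (ee θ).re = Real.cos θ := by
          unfold ee; rw [Complex.exp_ofReal_mul_I_re]
        have h6 : (ee θ).im = Real.sin θ := by
          unfold ee; rw [Complex.exp_ofReal_mul_I_im]
        unfold ip
        rw [h3, h4, h5, h6, hre, him, Real.cos_sub, Real.sin_sub]
        ring
      rw [← h2]; exact hip
    have h7 : Real.cos (θ - α - Real.arctan (deriv ψ t)) = 0 := by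
      rw [Real.cos_sub, Real.cos_arctan, Real.sin_arctan]
      have : Real.cos (θ - α) * (1 / √(1 + deriv ψ t ^ 2)) +
          Real.sin (θ - α) * (deriv ψ t / √(1 + deriv ψ t ^ 2)) =
          (Real.cos (θ - α) + deriv ψ t * Real.sin (θ - α)) / √(1 + deriv ψ t ^ 2) := by
        ring
      rw [this, h1, zero_div]
    obtain ⟨k, hk⟩ := Real.cos_eq_zero_iff.mp h7
    refine mem_iUnion.mpr ⟨k, t, ht, ?_⟩
    show α + Real.arctan (deriv ψ t) + (2 * k + 1) * Real.pi / 2 = θ
    linarith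
  refine measure_mono_null hsub (measure_iUnion_null fun m => ?_)
  apply addHaar_image_eq_zero_of_det_fderivWithin_eq_zero volume (f' := fun _ => 0)
  · intro t ht
    have h8 : HasDerivAt (deriv ψ) 0 t := by
      have := (hψd t).hasDerivAt
      rwa [show deriv (deriv ψ) t = 0 from ht] at this
    have h9 := ((h8.arctan).const_add α).add_const ((2 * m + 1) * Real.pi / 2)
    rw [mul_zero] at h9
    have h10 := h9.hasFDerivAt.hasFDerivWithinAt (s := {t : ℝ | deriv (deriv ψ) t = 0})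
    have h11 : ContinuousLinearMap.toSpanSingleton ℝ (0 : ℝ) = 0 := by
      ext; simp
    rw [h11] at h10
    exact h10
  · intro t _
    show LinearMap.det ((0 : ℝ →L[ℝ] ℝ) : ℝ →ₗ[ℝ] ℝ) = 0
    rw [ContinuousLinearMap.coe_zero, LinearMap.det_zero]
    simp

/-- TARGET 5: a direction in which all critical points of the height are nondegenerate. -/
theorem good_direction {Ω γ : Set ℂ} (hγ : IsCompact γ)
    (hch : ∀ q ∈ γ, ∃ (e : ℂ) (δ : ℝ) (ψ : ℝ → ℝ), Chart Ω γ q e δ ψ) :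
    ∃ θ₀ : ℝ, ∀ q ∈ γ, ∃ (e : ℂ) (δ : ℝ) (ψ : ℝ → ℝ), Chart Ω γ q e δ ψ ∧
      (ip (cv e ψ 0) (ee θ₀) = 0 → deriv (deriv ψ) 0 ≠ 0) := by
  choose e δ ψ hC using hch
  obtain ⟨F, hF⟩ := hγ.elim_nhds_subcover' (fun q hq => box q (e q hq) (δ q hq)) (by
    intro q hq
    refine (box_open (hC q hq).unit _).mem_nhds ?_
    refine ⟨0, 0, by simpa using (hC q hq).pos, by simpa using (hC q hq).pos, by simp⟩)
  have hnull : volume (⋃ x ∈ F, {θ : ℝ | ∃ t : ℝ, deriv (deriv (ψ (x : γ).1 x.2)) t = 0 ∧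
      ip (cv (e x.1 x.2) (ψ x.1 x.2) t) (ee θ) = 0}) = 0 := by
    refine (measure_biUnion_null_iff (I := (F : Set γ)) F.countable_toSet).mpr fun x _ => ?_
    exact good_direction_null (hC x.1 x.2).unit (hC x.1 x.2).smooth
  obtain ⟨θ₀, hθ₀⟩ : ∃ θ₀ : ℝ, θ₀ ∉ ⋃ x ∈ F, {θ : ℝ | ∃ t : ℝ,
      deriv (deriv (ψ (x : γ).1 x.2)) t = 0 ∧
      ip (cv (e x.1 x.2) (ψ x.1 x.2) t) (ee θ) = 0} := by
    by_contra hcon
    push Not at hcon
    have h1 : (⋃ x ∈ F, {θ : ℝ | ∃ t : ℝ, deriv (deriv (ψ (x : γ).1 x.2)) t = 0 ∧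
      ip (cv (e x.1 x.2) (ψ x.1 x.2) t) (ee θ) = 0}) = Set.univ := Set.eq_univ_of_forall hcon
    rw [h1, Real.volume_univ] at hnull
    exact absurd hnull (by simp)
  refine ⟨θ₀, fun q hq => ?_⟩
  obtain ⟨x, hx, hqx⟩ := mem_iUnion₂.mp (hF hq)
  obtain ⟨t, s, ht, hs, hqe⟩ := hqx
  have hC' := hC x.1 x.2
  have hst : s = ψ x.1 x.2 t := by
    rw [← hC'.memγ t s ht hs, ← hqe]
    exact hq
  have hqc : q = cx x.1 (e x.1 x.2) (ψ x.1 x.2) t := by
    rw [hqe, hst]; rfl
  obtain ⟨δ', hδ', hrec⟩ := hC'.recenter ht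
  refine ⟨e x.1 x.2, δ', _, by rw [hqc]; exact hrec, ?_⟩
  intro hip hdd
  apply hθ₀
  refine mem_iUnion₂.mpr ⟨x, hx, t, ?_, ?_⟩
  · have h1 : deriv (fun τ => ψ x.1 x.2 (t + τ) - ψ x.1 x.2 t) =
        fun τ => deriv (ψ x.1 x.2) (t + τ) := by
      funext τ
      rw [deriv_sub_const, deriv_comp_const_add]
    rw [h1, deriv_comp_const_add, add_zero] at hdd
    exact hdd
  · have h1 : deriv (fun τ => ψ x.1 x.2 (t + τ) - ψ x.1 x.2 t) 0 = deriv (ψ x.1 x.2) t := by
      rw [deriv_sub_const, deriv_comp_const_add, add_zero]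
    unfold cv at hip ⊢
    rw [h1] at hip
    exact hip

end Pool.Agent.Helper327_Drum
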