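import Pool.Agent.Helper327_Drum.BDefs
import Pool.Agent.Helper327_Drum.Fin.P3

set_option autoImplicit false
open MeasureTheory Set Filter Topology ComplexConjugate
open scoped ContDiff

namespace Pool.Agent.Helper327_Drum

namespace P4

/-- graph coordinates -/
noncomputable def gm (q e : ℂ) (ψ : ℝ → ℝ) (p : ℝ × ℝ) : ℂ :=
  q + ((p.1 : ℂ) + ((ψ p.1 + p.2 : ℝ) : ℂ) * Complex.I) * e

lemma gm_cont (q e : ℂ) {ψ : ℝ → ℝ} (hψ : Continuous ψ) : Continuous (gm q e ψ) := by
  unfold gm
  fun_prop

/-- graph coordinates as a homeomorphism -/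
noncomputable def gh (q e : ℂ) {ψ : ℝ → ℝ} (hψ : Continuous ψ) (he : ‖e‖ = 1) : ℝ × ℝ ≃ₜ ℂ where
  toFun := gm q e ψ
  invFun x := (((x - q) * conj e).re, ((x - q) * conj e).im - ψ ((x - q) * conj e).re)
  left_inv p := by
    have h1 : e * conj e = 1 := by
      rw [Complex.mul_conj, Complex.normSq_eq_norm_sq, he]; norm_num
    have h2 : (gm q e ψ p - q) * conj e =
        (p.1 : ℂ) + ((ψ p.1 + p.2 : ℝ) : ℂ) * Complex.I := by
      unfold gm
      linear_combination ((p.1 : ℂ) + ((ψ p.1 + p.2 : ℝ) : ℂ) * Complex.I) * h1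
    have h3 : ((p.1 : ℂ) + ((ψ p.1 + p.2 : ℝ) : ℂ) * Complex.I).re = p.1 := by simp
    have h4 : ((p.1 : ℂ) + ((ψ p.1 + p.2 : ℝ) : ℂ) * Complex.I).im = ψ p.1 + p.2 := by simp
    simp only
    rw [h2, h3, h4]
    ext <;> simp
  right_inv x := by
    have h1 : conj e * e = 1 := by
      rw [mul_comm, Complex.mul_conj, Complex.normSq_eq_norm_sq, he]; norm_num
    unfold gm
    simp only [add_sub_cancel]
    rw [Complex.re_add_im]
    linear_combination (x - q) * h1
  continuous_toFun := gm_cont q e hψ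
  continuous_invFun := by fun_prop

lemma gm_mp (q e : ℂ) {ψ : ℝ → ℝ} (hψ : Continuous ψ) (he : ‖e‖ = 1) :
    MeasurePreserving (gm q e ψ) volume volume := by
  have h1 : MeasurePreserving (fun p : ℝ × ℝ => (p.1, ψ p.1 + p.2)) volume volume := by
    have := MeasurePreserving.skew_product (MeasurePreserving.id (volume : Measure ℝ))
      (g := fun t s : ℝ => ψ t + s) (μc := volume) (μd := volume)
      (by
        apply Continuous.measurable
        unfold Function.uncurry
        fun_prop)
      (ae_of_all _ fun a => map_add_left_eq_self volume (ψ a))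
    exact this
  have h2 : MeasurePreserving (Complex.measurableEquivRealProd.symm) volume volume :=
    Complex.volume_preserving_equiv_real_prod.symm _
  have h3 : MeasurePreserving (rotation (⟨e, mem_sphere_zero_iff_norm.2 he⟩ : Circle))
      volume volume := (rotation _).measurePreserving
  have h4 : MeasurePreserving (fun x : ℂ => q + x) volume volume :=
    measurePreserving_add_left volume q
  have h5 := h4.comp (h3.comp (h2.comp h1))
  convert h5 using 1
  funext p
  simp only [Function.comp, gm]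
  have : Complex.measurableEquivRealProd.symm (p.1, ψ p.1 + p.2) =
      (p.1 : ℂ) + ((ψ p.1 + p.2 : ℝ) : ℂ) * Complex.I := by
    apply Complex.ext <;> simp [Complex.measurableEquivRealProd]
  rw [this]
  congr 1
  have h6 := rotation_apply (⟨e, mem_sphere_zero_iff_norm.2 he⟩ : Circle)
    ((p.1 : ℂ) + ((ψ p.1 + p.2 : ℝ) : ℂ) * Complex.I)
  rw [h6, mul_comm]

section div
variable {q e : ℂ} {ψ : ℝ → ℝ} {F : ℂ → ℂ}

lemma gm_cs (hψ : Continuous ψ) (he : ‖e‖ = 1) {E : Type} [Zero E] {G : ℂ → E}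
    (hG : HasCompactSupport G) : HasCompactSupport (G ∘ gm q e ψ) :=
  hG.comp_isClosedEmbedding (gh q e hψ he).isClosedEmbedding

lemma slice1 {E : Type} [Zero E] {H : ℝ × ℝ → E} (hH : HasCompactSupport H) (s : ℝ) :
    HasCompactSupport (fun t => H (t, s)) := by
  refine HasCompactSupport.intro (hH.isCompact.image continuous_fst) ?_
  intro t ht
  by_contra h
  exact ht ⟨(t, s), subset_tsupport _ h, rfl⟩

lemma slice2 {E : Type} [Zero E] {H : ℝ × ℝ → E} (hH : HasCompactSupport H) (t : ℝ) :
    HasCompactSupport (fun s => H (t, s)) := by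
  refine HasCompactSupport.intro (hH.isCompact.image continuous_snd) ?_
  intro s hs
  by_contra h
  exact hs ⟨(t, s), subset_tsupport _ h, rfl⟩

lemma gm_d1 (hψ : ContDiff ℝ 2 ψ) (t s : ℝ) :
    HasDerivAt (fun t => gm q e ψ (t, s)) (cv e ψ t) t := by
  have h1 : HasDerivAt ψ (deriv ψ t) t := (hψ.differentiable (by norm_num) t).hasDerivAt
  have h2 : HasDerivAt (fun t : ℝ => ((ψ t + s : ℝ) : ℂ)) ((deriv ψ t : ℝ) : ℂ) t :=
    (h1.add_const s).ofReal_comp
  have h3 : HasDerivAt (fun t : ℝ => (t : ℂ)) 1 t := by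
    simpa using (hasDerivAt_id t).ofReal_comp
  have h4 := ((h3.add (h2.mul_const Complex.I)).mul_const e).const_add q
  exact h4

lemma gm_d2 (t s : ℝ) :
    HasDerivAt (fun s => gm q e ψ (t, s)) (Complex.I * e) s := by
  have h2 : HasDerivAt (fun s : ℝ => ((ψ t + s : ℝ) : ℂ)) (1 : ℂ) s := by
    simpa using ((hasDerivAt_id s).const_add (ψ t)).ofReal_comp
  have h4 := (((h2.mul_const Complex.I).const_add (t : ℂ)).mul_const e).const_add q
  simp only [one_mul] at h4
  exact h4

/-- derivative in the first graph coordinate -/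
noncomputable def D1 (q e : ℂ) (ψ : ℝ → ℝ) (F : ℂ → ℂ) (p : ℝ × ℝ) : ℂ :=
  fderiv ℝ F (gm q e ψ p) (cv e ψ p.1)

/-- derivative in the second graph coordinate -/
noncomputable def D2 (q e : ℂ) (ψ : ℝ → ℝ) (F : ℂ → ℂ) (p : ℝ × ℝ) : ℂ :=
  fderiv ℝ F (gm q e ψ p) (Complex.I * e)

lemma hD1 (hψ : ContDiff ℝ 2 ψ) (hF : ContDiff ℝ 1 F) (t s : ℝ) :
    HasDerivAt (fun t => F (gm q e ψ (t, s))) (D1 q e ψ F (t, s)) t :=
  ((hF.differentiable (by norm_num)) _).hasFDerivAt.comp_hasDerivAt t (gm_d1 hψ t s)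

lemma hD2 (hF : ContDiff ℝ 1 F) (t s : ℝ) :
    HasDerivAt (fun s => F (gm q e ψ (t, s))) (D2 q e ψ F (t, s)) s :=
  ((hF.differentiable (by norm_num)) _).hasFDerivAt.comp_hasDerivAt s (gm_d2 t s)

lemma cv_cont (hψ : ContDiff ℝ 2 ψ) : Continuous (cv e ψ) := by
  have := hψ.continuous_deriv (by norm_num)
  unfold cv
  fun_prop

lemma D1_cont (hψ : ContDiff ℝ 2 ψ) (hF : ContDiff ℝ 1 F) : Continuous (D1 q e ψ F) := by
  have h1 := hF.continuous_fderiv (by norm_num)
  have h2 := gm_cont q e hψ.continuous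
  have h3 := cv_cont (e := e) hψ
  unfold D1
  exact (h1.comp h2).clm_apply (h3.comp continuous_fst)

lemma D2_cont (hψ : ContDiff ℝ 2 ψ) (hF : ContDiff ℝ 1 F) : Continuous (D2 q e ψ F) := by
  have h1 := hF.continuous_fderiv (by norm_num)
  have h2 := gm_cont q e hψ.continuous
  unfold D2
  exact (h1.comp h2).clm_apply continuous_const

lemma D1_cs (he : ‖e‖ = 1) (hψ : ContDiff ℝ 2 ψ) (hFc : HasCompactSupport F) :
    HasCompactSupport (D1 q e ψ F) := by
  refine (gm_cs (q := q) hψ.continuous he (hFc.fderiv ℝ)).mono ?_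
  intro p hp hp'
  apply hp
  simp only [Function.comp] at hp'
  simp only [D1, hp', _root_.zero_apply]

lemma D2_cs (he : ‖e‖ = 1) (hψ : ContDiff ℝ 2 ψ) (hFc : HasCompactSupport F) :
    HasCompactSupport (D2 q e ψ F) := by
  refine (gm_cs (q := q) hψ.continuous he (hFc.fderiv ℝ)).mono ?_
  intro p hp hp'
  apply hp
  simp only [Function.comp] at hp'
  simp only [D2, hp', _root_.zero_apply]

lemma int1 (he : ‖e‖ = 1) (hψ : ContDiff ℝ 2 ψ) (hF : ContDiff ℝ 1 F)
    (hFc : HasCompactSupport F) : ∫ p in univ ×ˢ Ioi (0 : ℝ), D1 q e ψ F p = 0 := by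
  have hi : Integrable (D1 q e ψ F) volume :=
    (D1_cont hψ hF).integrable_of_hasCompactSupport (D1_cs he hψ hFc)
  rw [Measure.volume_eq_prod, ← Measure.prod_restrict, integral_prod_symm]
  · rw [Measure.restrict_univ]
    have : ∀ y : ℝ, ∫ x, D1 q e ψ F (x, y) = 0 := by
      intro y
      refine integral_eq_zero_of_hasDerivAt_of_integrable (f := fun t => F (gm q e ψ (t, y)))
        (fun x => hD1 hψ hF x y) ?_ ?_
      · refine Continuous.integrable_of_hasCompactSupport ?_ (slice1 (D1_cs he hψ hFc) y)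
        exact (D1_cont hψ hF).comp (by fun_prop)
      · refine Continuous.integrable_of_hasCompactSupport ?_
          (slice1 (gm_cs (q := q) hψ.continuous he hFc) y)
        exact (hF.continuous.comp (gm_cont q e hψ.continuous)).comp (by fun_prop)
    simp only [this, integral_zero]
  · rw [Measure.prod_restrict, ← Measure.volume_eq_prod]
    exact hi.integrableOn

lemma int2 (he : ‖e‖ = 1) (hψ : ContDiff ℝ 2 ψ) (hF : ContDiff ℝ 1 F)
    (hFc : HasCompactSupport F) (c : ℝ → ℝ) (hc : Continuous c) :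
    ∫ p in univ ×ˢ Ioi (0 : ℝ), (c p.1 : ℂ) * D2 q e ψ F p =
      ∫ t, (c t : ℂ) * (-F (gm q e ψ (t, 0))) := by
  have hcont : Continuous (fun p : ℝ × ℝ => (c p.1 : ℂ) * D2 q e ψ F p) := by
    have := D2_cont (q := q) (e := e) hψ hF
    fun_prop
  have hcs : HasCompactSupport (fun p : ℝ × ℝ => (c p.1 : ℂ) * D2 q e ψ F p) :=
    (D2_cs (q := q) he hψ hFc).mul_left
  have hi := hcont.integrable_of_hasCompactSupport (μ := volume) hcs
  rw [Measure.volume_eq_prod, setIntegral_prod _ hi.integrableOn, Measure.restrict_univ]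
  refine integral_congr_ae (ae_of_all _ fun t => ?_)
  simp only
  rw [integral_const_mul]
  congr 1
  have h1 : ∀ s, D2 q e ψ F (t, s) = deriv (fun s => F (gm q e ψ (t, s))) s :=
    fun s => (hD2 hF t s).deriv.symm
  simp only [h1]
  refine HasCompactSupport.integral_Ioi_deriv_eq ?_
    (slice2 (gm_cs (q := q) hψ.continuous he hFc) t) 0
  refine hF.comp ?_
  unfold gm
  simp only [Complex.ofReal_add]
  have : ContDiff ℝ 1 (fun s : ℝ => (s : ℂ)) := Complex.ofRealCLM.contDiff
  fun_prop

end div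

end P4

open P4 in
/-- TARGET 1: the divergence theorem in a chart. -/
theorem graph_div {Ω γ : Set ℂ} {q e : ℂ} {δ : ℝ} {ψ : ℝ → ℝ} (C : Chart Ω γ q e δ ψ)
    (hΩo : IsOpen Ω) {F : ℂ → ℂ} (hF : ContDiff ℝ 1 F) (hFc : HasCompactSupport F)
    (hFs : tsupport F ⊆ box q e δ) (h : ℂ) :
    ∫ x in Ω, fderiv ℝ F x h = ∫ t, F (cx q e ψ t) * (ip (cv e ψ t) (Complex.I * h) : ℝ) := by
  have he := C.unit
  have hψ := C.smooth
  have hψc := hψ.continuous
  have hee : conj e * e = 1 := by
    rw [mul_comm, Complex.mul_conj, Complex.normSq_eq_norm_sq, he]; norm_num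
  set α := (h * conj e).re with hα
  set β := (h * conj e).im with hβ
  have hh : h = ((α : ℂ) + (β : ℂ) * Complex.I) * e := by
    rw [hα, hβ, Complex.re_add_im]
    linear_combination -h * hee
  set c : ℝ → ℝ := fun t => β - α * deriv ψ t with hc
  have hcc : Continuous c := by
    have := hψ.continuous_deriv (by norm_num)
    fun_prop
  have h1 : ∫ x in Ω, fderiv ℝ F x h =
      ∫ p in univ ×ˢ Ioi (0 : ℝ), fderiv ℝ F (gm q e ψ p) h := by
    rw [← integral_indicator hΩo.measurableSet,
      ← (gm_mp q e hψc he).integral_comp (gh q e hψc he).measurableEmbedding,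
      ← integral_indicator (MeasurableSet.univ.prod measurableSet_Ioi)]
    congr 1
    funext p
    by_cases h0 : fderiv ℝ F (gm q e ψ p) h = 0
    · by_cases h1 : gm q e ψ p ∈ Ω <;> by_cases h2 : p ∈ (univ : Set ℝ) ×ˢ Ioi (0 : ℝ) <;>
        simp only [indicator_of_mem, indicator_of_notMem, h1, h2, h0, not_false_iff]
    · have h3 : fderiv ℝ F (gm q e ψ p) ≠ 0 := by
        intro h4
        apply h0
        rw [h4, _root_.zero_apply]
      have h4 : gm q e ψ p ∈ box q e δ := hFs (support_fderiv_subset ℝ h3)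
      obtain ⟨t, s, ht, hs, hts⟩ := h4
      have h5 : gm q e ψ p = gm q e ψ (t, s - ψ t) := by
        rw [hts]; unfold gm; simp
      have h6 : p = (t, s - ψ t) := (gh q e hψc he).injective h5
      have h7 : gm q e ψ p ∈ Ω ↔ p ∈ (univ : Set ℝ) ×ˢ Ioi (0 : ℝ) := by
        rw [hts, C.mem t s ht hs, h6]
        simp
      by_cases h8 : gm q e ψ p ∈ Ω
      · rw [indicator_of_mem h8, indicator_of_mem (h7.1 h8)]
      · rw [indicator_of_notMem h8, indicator_of_notMem (fun h9 => h8 (h7.2 h9))]
  have h2 : ∀ p, fderiv ℝ F (gm q e ψ p) h =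
      (α : ℂ) * D1 q e ψ F p + (c p.1 : ℂ) * D2 q e ψ F p := by
    intro p
    have h3 : h = α • cv e ψ p.1 + c p.1 • (Complex.I * e) := by
      rw [hh, cv, hc]
      simp only [Complex.real_smul]
      push_cast
      ring
    conv_lhs => rw [h3]
    rw [map_add, map_smul, map_smul, D1, D2, Complex.real_smul, Complex.real_smul]
  rw [h1]
  simp only [h2]
  have i1 : Integrable (fun p => (α : ℂ) * D1 q e ψ F p) volume :=
    ((D1_cont hψ hF).integrable_of_hasCompactSupport (D1_cs he hψ hFc)).const_mul _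
  have i2 : Integrable (fun p : ℝ × ℝ => (c p.1 : ℂ) * D2 q e ψ F p) volume := by
    refine Continuous.integrable_of_hasCompactSupport ?_ (D2_cs (q := q) he hψ hFc).mul_left
    have := D2_cont (q := q) (e := e) hψ hF
    fun_prop
  rw [integral_add i1.integrableOn i2.integrableOn, integral_const_mul, int1 he hψ hF hFc,
    mul_zero, zero_add, int2 he hψ hF hFc c hcc]
  refine integral_congr_ae (ae_of_all _ fun t => ?_)
  simp only
  have h3 : gm q e ψ (t, 0) = cx q e ψ t := by
    unfold gm cx; simp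
  have h4 : ip (cv e ψ t) (Complex.I * h) = - c t := by
    have h5 : ip (cv e ψ t) (Complex.I * h) = (cv e ψ t * conj (Complex.I * h)).re := by
      unfold ip
      simp [Complex.mul_re]
      ring
    have h6 : cv e ψ t * conj (Complex.I * h) =
        (1 + ((deriv ψ t : ℝ) : ℂ) * Complex.I) * (-(β : ℂ) - α * Complex.I) := by
      rw [hh, cv]
      simp only [map_mul, map_add, Complex.conj_I, Complex.conj_ofReal]
      have hI := Complex.I_mul_I
      linear_combination
        ((1 + ((deriv ψ t : ℝ) : ℂ) * Complex.I) * (-(β : ℂ) - α * Complex.I)) * hee +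
        ((1 + ((deriv ψ t : ℝ) : ℂ) * Complex.I) * β * conj e * e) * hI
    rw [h5, h6, hc]
    simp [Complex.mul_re]
    ring
  rw [h3, h4]
  push_cast
  ring

namespace P4

lemma int_fderiv_zero {G : ℂ → ℂ} (hG : ContDiff ℝ 1 G) (hGc : HasCompactSupport G) (h : ℂ) :
    ∫ x, fderiv ℝ G x h = 0 := by
  have hc : Continuous (fun x => fderiv ℝ G x h) :=
    (hG.continuous_fderiv (by norm_num)).clm_apply continuous_const
  have hcs : HasCompactSupport (fun x => fderiv ℝ G x h) := by
    refine (hGc.fderiv ℝ).mono ?_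
    intro p hp hp'
    apply hp
    simp only [hp', _root_.zero_apply]
  have h1 := integral_bilinear_hasLineDerivAt_right_eq_neg_left_of_integrable (μ := volume)
    (f := fun _ : ℂ => (1 : ℂ)) (f' := fun _ => 0) (g := G) (g' := fun x => fderiv ℝ G x h)
    (v := h) (B := ContinuousLinearMap.mul ℝ ℂ) (by simp)
    (by simpa using hc.integrable_of_hasCompactSupport hcs)
    (by simpa using hG.continuous.integrable_of_hasCompactSupport hGc)
    (fun x _ => by
      have := (hasFDerivAt_const (1 : ℂ) x (𝕜 := ℝ)).hasLineDerivAt h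
      simpa using this)
    (fun x _ => ((hG.differentiable (by norm_num)) x).hasFDerivAt.hasLineDerivAt h)
  simpa using h1

lemma box_bdd {q e : ℂ} (he : ‖e‖ = 1) (δ : ℝ) : Bornology.IsBounded (box q e δ) := by
  refine (Metric.isBounded_closedBall (x := q) (r := 2 * δ)).subset ?_
  rintro _ ⟨t, s, ht, hs, rfl⟩
  rw [Metric.mem_closedBall, dist_eq_norm, add_sub_cancel_left, norm_mul, he, mul_one]
  refine (norm_add_le _ _).trans ?_
  rw [norm_mul, Complex.norm_I, mul_one, Complex.norm_real, Complex.norm_real, Real.norm_eq_abs,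
    Real.norm_eq_abs]
  linarith

end P4

open P4 in
/-- TARGET 2: the divergence theorem with a partition of unity. -/
theorem bdry_formula {Ω γ : Set ℂ} (hΩo : IsOpen Ω) (hΩb : Bornology.IsBounded Ω)
    (hfr : frontier Ω = γ) {ι : Type} [Fintype ι] (q e : ι → ℂ) (δ : ι → ℝ) (ψ : ι → ℝ → ℝ)
    (C : ∀ i, Chart Ω γ (q i) (e i) (δ i) (ψ i)) (hcov : γ ⊆ ⋃ i, box (q i) (e i) (δ i)) :
    ∃ χ : ι → ℂ → ℝ, (∀ i, ContDiff ℝ ∞ (χ i) ∧ HasCompactSupport (χ i) ∧
        tsupport (χ i) ⊆ box (q i) (e i) (δ i)) ∧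
      (∀ x ∈ γ, ∑ i, χ i x = 1) ∧
      ∀ (F : ℂ → ℂ), ContDiff ℝ 1 F → ∀ h : ℂ, ∫ x in Ω, fderiv ℝ F x h =
        ∑ i, ∫ t, (χ i (cx (q i) (e i) (ψ i) t) : ℂ) * F (cx (q i) (e i) (ψ i) t) *
          (ip (cv (e i) (ψ i) t) (Complex.I * h) : ℝ) := by
  classical
  let U : Option ι → Set ℂ := fun o => o.elim Ω (fun i => box (q i) (e i) (δ i))
  have hU : ∀ o, IsOpen (U o) := by
    rintro (_ | i)
    · exact hΩo
    · exact box_open (C i).unit (δ i)
  have hUb : ∀ o, Bornology.IsBounded (U o) := by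
    rintro (_ | i)
    · exact hΩb
    · exact box_bdd (C i).unit (δ i)
  have hsub : closure Ω ⊆ ⋃ o, U o := by
    rw [closure_eq_self_union_frontier, hfr]
    rintro x (hx | hx)
    · exact mem_iUnion.2 ⟨none, hx⟩
    · obtain ⟨i, hi⟩ := mem_iUnion.1 (hcov hx)
      exact mem_iUnion.2 ⟨some i, hi⟩
  obtain ⟨f, hf⟩ := SmoothPartitionOfUnity.exists_isSubordinate (modelWithCornersSelf ℝ ℂ)
    isClosed_closure U hU hsub
  have hsm : ∀ o, ContDiff ℝ ∞ (f o) := fun o => (f o).contMDiff.contDiff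
  have hcs : ∀ o, HasCompactSupport (f o) := fun o =>
    Metric.isCompact_of_isClosed_isBounded (isClosed_tsupport _) ((hUb o).subset (hf o))
  have hsum : ∀ x ∈ closure Ω, f none x + ∑ i, f (some i) x = 1 := by
    intro x hx
    have h1 := f.sum_eq_one hx
    rw [finsum_eq_sum_of_fintype, Fintype.sum_option] at h1
    exact h1
  refine ⟨fun i => f (some i), fun i => ⟨hsm _, hcs _, hf (some i)⟩, ?_, ?_⟩
  · intro x hx
    rw [← hfr] at hx
    have h1 := hsum x (frontier_subset_closure hx)
    have h2 : f none x = 0 := by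
      by_contra h
      have h3 : x ∈ Ω := hf none (subset_tsupport _ h)
      rw [hΩo.frontier_eq] at hx
      exact hx.2 h3
    rw [h2, zero_add] at h1
    exact h1
  · intro F hF h
    let G : Option ι → ℂ → ℂ := fun o x => (f o x : ℂ) * F x
    have hG : ∀ o, ContDiff ℝ 1 (G o) := by
      intro o
      have h1 : ContDiff ℝ 1 (fun x => (f o x : ℂ)) :=
        Complex.ofRealCLM.contDiff.comp ((hsm o).of_le (by exact_mod_cast le_top))
      exact h1.mul hF
    have hGt : ∀ o, tsupport (G o) ⊆ tsupport (f o) := by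
      intro o
      apply closure_mono
      intro x hx hx'
      apply hx
      simp only [G]
      rw [hx']
      simp
    have hGc : ∀ o, HasCompactSupport (G o) := fun o =>
      (hcs o).of_isClosed_subset (isClosed_tsupport _) (hGt o)
    have hGi : ∀ o, Integrable (fun x => fderiv ℝ (G o) x h) volume := by
      intro o
      refine Continuous.integrable_of_hasCompactSupport
        (((hG o).continuous_fderiv (by norm_num)).clm_apply continuous_const) ?_
      refine ((hGc o).fderiv ℝ).mono ?_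
      intro p hp hp'
      apply hp
      simp only [hp', _root_.zero_apply]
    have h1 : ∀ x ∈ Ω, fderiv ℝ F x h = ∑ o, fderiv ℝ (G o) x h := by
      intro x hx
      have h2 : F =ᶠ[𝓝 x] fun y => ∑ o, G o y := by
        filter_upwards [hΩo.mem_nhds hx] with y hy
        have h3 := hsum y (subset_closure hy)
        rw [Fintype.sum_option]
        simp only [G]
        rw [← Finset.sum_mul, ← add_mul]
        have h4 : (f none y : ℂ) + ∑ i, (f (some i) y : ℂ) = 1 := by
          exact_mod_cast congrArg (fun r : ℝ => (r : ℂ)) h3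
        rw [h4, one_mul]
      rw [h2.fderiv_eq, fderiv_fun_sum (fun o _ => (hG o).differentiable (by norm_num) x)]
      simp
    rw [setIntegral_congr_fun hΩo.measurableSet h1,
      integral_finsetSum _ (fun o _ => (hGi o).integrableOn), Fintype.sum_option]
    have h2 : ∫ x in Ω, fderiv ℝ (G none) x h = 0 := by
      rw [setIntegral_eq_integral_of_forall_compl_eq_zero, int_fderiv_zero (hG none) (hGc none)]
      intro x hx
      have h3 : fderiv ℝ (G none) x = 0 := by
        by_contra h4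
        exact hx (hf none (hGt none (support_fderiv_subset ℝ h4)))
      rw [h3, _root_.zero_apply]
    rw [h2, zero_add]
    refine Finset.sum_congr rfl fun i _ => ?_
    exact graph_div (C i) hΩo (hG (some i)) (hGc (some i)) ((hGt (some i)).trans (hf (some i))) h

end Pool.Agent.Helper327_Drum
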