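import Pool.Agent.Helper327_Drum.Fin.P6a

/-
JOB P6 (owner helper327, problem MP_d92c84_an). Only Mathlib is needed.
-/

set_option autoImplicit false
open MeasureTheory Set Filter Topology ComplexConjugate

namespace Pool.Agent.Helper327_Drum

/-- A finite family of continuous functions: on a subinterval each of them is identically zero or
nowhere zero. -/
theorem P6_shrink {ι : Type*} (s : Finset ι) (g : ι → ℝ → ℝ) {a b : ℝ} (hab : a < b)
    (hg : ∀ i, ContinuousOn (g i) (Ioo a b)) :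
    ∃ a' b' : ℝ, a ≤ a' ∧ a' < b' ∧ b' ≤ b ∧ ∀ i ∈ s, (∀ θ ∈ Ioo a' b', g i θ = 0) ∨
      (∀ θ ∈ Ioo a' b', g i θ ≠ 0) := by
  classical
  induction s using Finset.induction_on with
  | empty => exact ⟨a, b, le_rfl, hab, le_rfl, by simp⟩
  | insert i s _ ih =>
    obtain ⟨a1, b1, h1, h2, h3, h4⟩ := ih
    by_cases h : ∀ θ ∈ Ioo a1 b1, g i θ = 0
    · refine ⟨a1, b1, h1, h2, h3, fun j hj => ?_⟩
      rcases Finset.mem_insert.1 hj with rfl | hj
      · exact Or.inl h
      · exact h4 j hj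
    · push Not at h
      obtain ⟨θ0, hθ0, hne⟩ := h
      have hsub : Ioo a1 b1 ⊆ Ioo a b := Ioo_subset_Ioo h1 h3
      have hc : ContinuousAt (g i) θ0 := (hg i).continuousAt (isOpen_Ioo.mem_nhds (hsub hθ0))
      have hev : ∀ᶠ θ in 𝓝 θ0, g i θ ≠ 0 ∧ θ ∈ Ioo a1 b1 :=
        (hc.eventually_ne hne).and (isOpen_Ioo.mem_nhds hθ0)
      obtain ⟨l, u, hlu, hlu'⟩ := mem_nhds_iff_exists_Ioo_subset.1 hev
      have hl : a1 ≤ l := by
        by_contra hc'
        push Not at hc'
        have : a1 ∈ Ioo l u := ⟨hc', lt_trans hθ0.1 hlu.2⟩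
        exact lt_irrefl _ (hlu' this).2.1
      have hu : u ≤ b1 := by
        by_contra hc'
        push Not at hc'
        have : b1 ∈ Ioo l u := ⟨lt_trans hlu.1 hθ0.2, hc'⟩
        exact lt_irrefl _ (hlu' this).2.2
      refine ⟨l, u, h1.trans hl, hlu.1.trans hlu.2, hu.trans h3, fun j hj => ?_⟩
      rcases Finset.mem_insert.1 hj with rfl | hj
      · exact Or.inr fun θ hθ => (hlu' hθ).1
      · rcases h4 j hj with h5 | h5
        · exact Or.inl fun θ hθ => h5 θ (hlu' hθ).2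
        · exact Or.inr fun θ hθ => h5 θ (hlu' hθ).2

/-- The core: the case in which each pair of derivatives agrees everywhere or nowhere. -/
theorem P6_core {a b : ℝ} (hab : a < b) {N : ℕ} (i0 : Fin N) (H : Fin N → ℝ → ℝ)
    (hH : ∀ j, ContDiffOn ℝ 2 (H j) (Ioo a b))
    (hR : ∀ j, ∀ θ ∈ Ioo a b, H j θ + deriv (deriv (H j)) θ ≠ 0)
    (hd : ∀ j k, j ≠ k → ∀ θ ∈ Ioo a b, H j θ = H k θ → deriv (H j) θ ≠ deriv (H k) θ)
    (hpair : ∀ j k, (∀ θ ∈ Ioo a b, deriv (H j) θ = deriv (H k) θ) ∨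
      (∀ θ ∈ Ioo a b, deriv (H j) θ ≠ deriv (H k) θ))
    (ε : Fin N → ℂ) (hε : ∀ j, ε j ≠ 0) (ρ : ℕ → ℝ) (hρ : Tendsto ρ atTop atTop)
    (hlim : ∀ θ ∈ Ioo a b, Tendsto (fun n => ∑ j, ε j *
      (√|H j θ + deriv (deriv (H j)) θ| : ℝ) * Complex.exp (Complex.I * ((ρ n * H j θ : ℝ) : ℂ)))
      atTop (𝓝 0)) {α β : ℝ} (haα : a < α) (hαβ : α < β) (hβb : β < b) :
    ∃ R : ℝ, ∀ θ ∈ Ioo α β, H i0 θ + deriv (deriv (H i0)) θ = R := by
  classical
  have hsub : Icc α β ⊆ Ioo a b := fun x hx => ⟨haα.trans_le hx.1, hx.2.trans_lt hβb⟩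
  set R : Fin N → ℝ → ℝ := fun j θ => H j θ + deriv (deriv (H j)) θ with hRdef
  set A : Fin N → ℝ → ℝ := fun j θ => √|R j θ| with hAdef
  have hD1 : ∀ j, ContDiffOn ℝ 1 (deriv (H j)) (Ioo a b) := fun j =>
    (hH j).deriv_of_isOpen isOpen_Ioo (by norm_num)
  have hD2 : ∀ j, ContinuousOn (deriv (deriv (H j))) (Ioo a b) := fun j =>
    (hD1 j).continuousOn_deriv_of_isOpen isOpen_Ioo le_rfl
  have hRc : ∀ j, ContinuousOn (R j) (Ioo a b) := fun j => (hH j).continuousOn.add (hD2 j)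
  have hAc : ∀ j, ContinuousOn (A j) (Icc α β) := fun j =>
    (((hRc j).mono hsub).abs).sqrt
  have hHc : ∀ j, ContinuousOn (H j) (Icc α β) := fun j => (hH j).continuousOn.mono hsub
  have hHd : ∀ j, ∀ θ ∈ Ioo a b, DifferentiableAt ℝ (H j) θ := fun j θ hθ =>
    ((hH j).differentiableOn (by norm_num)).differentiableAt (isOpen_Ioo.mem_nhds hθ)
  -- the class of `i0`
  set cl : Finset (Fin N) := Finset.univ.filter
    (fun k => ∀ θ ∈ Ioo a b, deriv (H k) θ = deriv (H i0) θ) with hcl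
  have hmem : ∀ k, k ∈ cl ↔ ∀ θ ∈ Ioo a b, deriv (H k) θ = deriv (H i0) θ := fun k => by
    rw [hcl, Finset.mem_filter]; simp
  have hi0 : i0 ∈ cl := (hmem i0).2 fun _ _ => rfl
  set C : Fin N → ℝ := fun k => H k α - H i0 α with hCdef
  have hαI : α ∈ Ioo a b := hsub ⟨le_rfl, hαβ.le⟩
  have hHC : ∀ k ∈ cl, ∀ θ ∈ Ioo a b, H k θ = H i0 θ + C k := by
    intro k hk θ hθ
    have h1 : ∀ x ∈ Ioo a b, HasDerivAt (fun x => H k x - H i0 x) 0 x := by
      intro x hx
      have h2 := (hHd k x hx).hasDerivAt.sub (hHd i0 x hx).hasDerivAt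
      rwa [(hmem k).1 hk x hx, sub_self] at h2
    have h3 : (fun x => H k x - H i0 x) θ = (fun x => H k x - H i0 x) α := by
      refine isOpen_Ioo.is_const_of_deriv_eq_zero isPreconnected_Ioo
        (fun x hx => (h1 x hx).differentiableAt.differentiableWithinAt)
        (fun x hx => (h1 x hx).deriv) hθ hαI
    simp only at h3
    rw [hCdef]
    linarith
  have hRC : ∀ k ∈ cl, ∀ θ ∈ Ioo a b, R k θ = R i0 θ + C k := by
    intro k hk θ hθ
    have h1 : deriv (H k) =ᶠ[𝓝 θ] deriv (H i0) := by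
      filter_upwards [isOpen_Ioo.mem_nhds hθ] with x hx
      exact (hmem k).1 hk x hx
    simp only [hRdef]
    rw [h1.deriv_eq, hHC k hk θ hθ]
    ring
  have hCinj : ∀ j ∈ cl, ∀ k ∈ cl, C j = C k → j = k := by
    intro j hj k hk h
    by_contra hne
    refine hd j k hne α hαI ?_ ?_
    · rw [hHC j hj α hαI, hHC k hk α hαI, h]
    · rw [(hmem j).1 hj α hαI, (hmem k).1 hk α hαI]
  -- the exponential factors
  set E : Fin N → ℕ → ℝ → ℂ := fun j n θ => Complex.exp (Complex.I * ((ρ n * H j θ : ℝ) : ℂ))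
    with hEdef
  have hEn : ∀ j n θ, ‖E j n θ‖ = 1 := by
    intro j n θ
    simp only [hEdef]
    rw [mul_comm, Complex.norm_exp_ofReal_mul_I]
  have hEc : ∀ j n, ContinuousOn (E j n) (Icc α β) := by
    intro j n
    have h1 : ContinuousOn (fun θ => Complex.I * ((ρ n * H j θ : ℝ) : ℂ)) (Icc α β) :=
      continuousOn_const.mul (Complex.continuous_ofReal.comp_continuousOn
        (continuousOn_const.mul (hHc j)))
    exact Complex.continuous_exp.comp_continuousOn h1
  set S : ℕ → ℝ → ℂ := fun n θ => ∑ j, ε j * (A j θ : ℝ) * E j n θ with hSdef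
  set T : ℕ → ℝ → ℂ := fun n θ => ∑ k ∈ cl, ε k * (A k θ : ℝ) * E k n θ with hTdef
  have hterm : ∀ j n, ContinuousOn (fun θ => ε j * (A j θ : ℝ) * E j n θ) (Icc α β) := fun j n =>
    (continuousOn_const.mul (Complex.continuous_ofReal.comp_continuousOn (hAc j))).mul (hEc j n)
  have hSc : ∀ n, ContinuousOn (S n) (Icc α β) := fun n =>
    continuousOn_finsetSum _ fun j _ => hterm j n
  have hTc : ∀ n, ContinuousOn (T n) (Icc α β) := fun n =>
    continuousOn_finsetSum _ fun j _ => hterm j n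
  -- bounds
  have hAb : ∀ j, ∃ B : ℝ, ∀ θ ∈ Icc α β, ‖A j θ‖ ≤ B := fun j =>
    isCompact_Icc.exists_bound_of_continuousOn (hAc j)
  choose B hB using hAb
  have hB0 : ∀ j, 0 ≤ B j := fun j => (norm_nonneg _).trans (hB j α ⟨le_rfl, hαβ.le⟩)
  set K : ℝ := ∑ j, ‖ε j‖ * B j with hK
  have hK0 : 0 ≤ K := Finset.sum_nonneg fun j _ => mul_nonneg (norm_nonneg _) (hB0 j)
  have hSb : ∀ n, ∀ θ ∈ Icc α β, ‖S n θ‖ ≤ K := by
    intro n θ hθ
    refine (norm_sum_le _ _).trans (Finset.sum_le_sum fun j _ => ?_)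
    rw [norm_mul, norm_mul, hEn, mul_one, Complex.norm_real]
    exact mul_le_mul_of_nonneg_left (hB j θ hθ) (norm_nonneg _)
  have hTb : ∀ n, ∀ θ ∈ Icc α β, ‖T n θ‖ ≤ K := by
    intro n θ hθ
    refine (norm_sum_le _ _).trans ?_
    refine (Finset.sum_le_sum fun j _ => ?_).trans
      (Finset.sum_le_sum_of_subset_of_nonneg (Finset.subset_univ cl)
        fun j _ _ => mul_nonneg (norm_nonneg (ε j)) (hB0 j))
    rw [norm_mul, norm_mul, hEn, mul_one, Complex.norm_real]
    exact mul_le_mul_of_nonneg_left (hB j θ hθ) (norm_nonneg _)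
  have hmeas : ∀ {f : ℝ → ℂ}, ContinuousOn f (Icc α β) →
      AEStronglyMeasurable f (volume.restrict (Set.uIoc α β)) := by
    intro f hf
    rw [uIoc_of_le hαβ.le]
    exact (hf.mono Ioc_subset_Icc_self).aestronglyMeasurable measurableSet_Ioc
  -- first limit
  have hconjT : ∀ n, ContinuousOn (fun θ => conj (T n θ)) (Icc α β) := fun n =>
    Complex.continuous_conj.comp_continuousOn (hTc n)
  have L1 : Tendsto (fun n => ∫ θ in α..β, S n θ * conj (T n θ)) atTop (𝓝 0) := by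
    have h1 : Tendsto (fun n => ∫ θ in α..β, S n θ * conj (T n θ)) atTop
        (𝓝 (∫ _θ in α..β, (0 : ℂ))) := by
      refine intervalIntegral.tendsto_integral_filter_of_dominated_convergence
        (fun _ => K * K) ?_ ?_ ?_ ?_
      · exact Eventually.of_forall fun n => hmeas ((hSc n).mul (hconjT n))
      · refine Eventually.of_forall fun n => Eventually.of_forall fun θ hθ => ?_
        rw [uIoc_of_le hαβ.le] at hθ
        have hθ' := Ioc_subset_Icc_self hθ
        rw [norm_mul, Complex.norm_conj]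
        exact mul_le_mul (hSb n θ hθ') (hTb n θ hθ') (norm_nonneg _) hK0
      · exact intervalIntegrable_const
      · refine Eventually.of_forall fun θ hθ => ?_
        rw [uIoc_of_le hαβ.le] at hθ
        have hθ' := Ioc_subset_Icc_self hθ
        have h2 := hlim θ (hsub hθ')
        rw [tendsto_zero_iff_norm_tendsto_zero] at h2 ⊢
        have h3 : Tendsto (fun n => ‖S n θ‖ * K) atTop (𝓝 (0 * K)) := Tendsto.mul_const K h2
        rw [zero_mul] at h3
        refine squeeze_zero (fun n => norm_nonneg _) (fun n => ?_) h3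
        rw [norm_mul, Complex.norm_conj]
        exact mul_le_mul_of_nonneg_left (hTb n θ hθ') (norm_nonneg _)
    simpa using h1
  -- second limit
  have L2 : ∀ j, j ∉ cl → ∀ k ∈ cl, Tendsto (fun n => ∫ θ in α..β,
      (ε j * (A j θ : ℝ) * E j n θ) * conj (ε k * (A k θ : ℝ) * E k n θ)) atTop (𝓝 0) := by
    intro j hj k hk
    have hne : ∀ θ ∈ Ioo a b, deriv (H j) θ ≠ deriv (H k) θ := by
      rcases hpair j k with h | h
      · exfalso
        apply hj
        rw [hmem]
        intro θ hθ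
        rw [h θ hθ, (hmem k).1 hk θ hθ]
      · exact h
    have h1 := osc_zero hαβ.le (φ := fun θ => H j θ - H k θ)
      (((hH j).mono hsub).sub ((hH k).mono hsub)) (fun t ht => by
        have ht' := hsub ht
        have h2 := (hHd j t ht').hasDerivAt.sub (hHd k t ht').hasDerivAt
        have h3 := h2.hasDerivWithinAt (s := Icc α β)
        have h4 := h3.derivWithin ((uniqueDiffOn_Icc hαβ) t ht)
        have h5 : derivWithin (fun θ => H j θ - H k θ) (Icc α β) t =
          deriv (H j) t - deriv (H k) t := h4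
        rw [h5]
        exact sub_ne_zero.2 (hne t ht'))
      (a := fun θ => A j θ * A k θ) ((hAc j).mul (hAc k)) hρ
    have h2 := h1.const_mul (ε j * conj (ε k))
    rw [mul_zero] at h2
    refine h2.congr fun n => ?_
    rw [← intervalIntegral.integral_const_mul]
    refine intervalIntegral.integral_congr fun θ _ => ?_
    simp only [hEdef, map_mul, Complex.conj_ofReal]
    rw [← Complex.exp_conj]
    have h3 : Complex.exp (Complex.I * ((ρ n * (H j θ - H k θ) : ℝ) : ℂ)) =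
        Complex.exp (Complex.I * ((ρ n * H j θ : ℝ) : ℂ)) *
          Complex.exp (conj (Complex.I * ((ρ n * H k θ : ℝ) : ℂ))) := by
      rw [← Complex.exp_add]
      congr 1
      rw [map_mul, Complex.conj_ofReal, Complex.conj_I]
      push_cast
      ring
    rw [h3]
    push_cast
    ring
  have hintS : ∀ {f g : ℝ → ℂ}, ContinuousOn f (Icc α β) → ContinuousOn g (Icc α β) →
      IntervalIntegrable (fun θ => f θ * g θ) volume α β := by
    intro f g hf hg
    apply ContinuousOn.intervalIntegrable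
    rw [uIcc_of_le hαβ.le]
    exact hf.mul hg
  have L3 : Tendsto (fun n => ∫ θ in α..β, T n θ * conj (T n θ)) atTop (𝓝 0) := by
    have h1 : Tendsto (fun n => ∑ j ∈ clᶜ, ∑ k ∈ cl, ∫ θ in α..β,
        (ε j * (A j θ : ℝ) * E j n θ) * conj (ε k * (A k θ : ℝ) * E k n θ)) atTop (𝓝 0) := by
      have h2 : Tendsto (fun n => ∑ j ∈ clᶜ, ∑ k ∈ cl, ∫ θ in α..β,
        (ε j * (A j θ : ℝ) * E j n θ) * conj (ε k * (A k θ : ℝ) * E k n θ)) atTop
          (𝓝 (∑ j ∈ clᶜ, ∑ k ∈ cl, (0 : ℂ))) :=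
        tendsto_finsetSum _ fun j hj => tendsto_finsetSum _ fun k hk =>
          L2 j (Finset.mem_compl.1 hj) k hk
      simpa using h2
    have h3 := L1.sub h1
    rw [sub_zero] at h3
    refine h3.congr fun n => ?_
    have h4 : (∑ j ∈ clᶜ, ∑ k ∈ cl, ∫ θ in α..β,
        (ε j * (A j θ : ℝ) * E j n θ) * conj (ε k * (A k θ : ℝ) * E k n θ)) =
        ∫ θ in α..β, ∑ j ∈ clᶜ, ∑ k ∈ cl,
          (ε j * (A j θ : ℝ) * E j n θ) * conj (ε k * (A k θ : ℝ) * E k n θ) := by
      rw [intervalIntegral.integral_finsetSum]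
      · refine Finset.sum_congr rfl fun j _ => ?_
        rw [intervalIntegral.integral_finsetSum]
        intro k _
        exact hintS (hterm j n) (Complex.continuous_conj.comp_continuousOn (hterm k n))
      · intro j _
        apply ContinuousOn.intervalIntegrable
        rw [uIcc_of_le hαβ.le]
        exact continuousOn_finsetSum _ fun k _ =>
          (hterm j n).mul (Complex.continuous_conj.comp_continuousOn (hterm k n))
    rw [h4, ← intervalIntegral.integral_sub]
    · refine intervalIntegral.integral_congr fun θ _ => ?_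
      have h5 : S n θ = T n θ + ∑ j ∈ clᶜ, ε j * (A j θ : ℝ) * E j n θ := by
        simp only [hSdef, hTdef]
        rw [Finset.sum_add_sum_compl]
      have h6 : (∑ j ∈ clᶜ, ∑ k ∈ cl,
          (ε j * (A j θ : ℝ) * E j n θ) * conj (ε k * (A k θ : ℝ) * E k n θ)) =
          (∑ j ∈ clᶜ, ε j * (A j θ : ℝ) * E j n θ) * conj (T n θ) := by
        simp only [hTdef]
        rw [map_sum, Finset.sum_mul_sum]
      rw [h6, h5]
      ring
    · exact hintS (hSc n) (hconjT n)
    · apply ContinuousOn.intervalIntegrable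
      rw [uIcc_of_le hαβ.le]
      exact continuousOn_finsetSum _ fun j _ => continuousOn_finsetSum _ fun k _ =>
          (hterm j n).mul (Complex.continuous_conj.comp_continuousOn (hterm k n))
  -- the constants
  set om : ℕ → Fin N → ℂ := fun n k => ε k * Complex.exp (Complex.I * ((ρ n * C k : ℝ) : ℂ))
    with homdef
  have hom : ∀ n, om n ∈ Set.pi univ fun k => Metric.sphere (0 : ℂ) ‖ε k‖ := by
    intro n k _
    rw [mem_sphere_zero_iff_norm]
    simp only [homdef]
    rw [norm_mul, mul_comm Complex.I, Complex.norm_exp_ofReal_mul_I, mul_one]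
  have hcomp : IsCompact (Set.pi univ fun k => Metric.sphere (0 : ℂ) ‖ε k‖) :=
    isCompact_univ_pi fun k => isCompact_sphere _ _
  obtain ⟨ω, hω, φ, hφ, hφω⟩ := hcomp.tendsto_subseq hom
  have hωn : ∀ k, ‖ω k‖ = ‖ε k‖ := fun k => by
    have := hω k (mem_univ k)
    rwa [mem_sphere_zero_iff_norm] at this
  have hTom : ∀ n, ∀ θ ∈ Ioo a b, T n θ = E i0 n θ * ∑ k ∈ cl, om n k * (A k θ : ℝ) := by
    intro n θ hθ
    simp only [hTdef, Finset.mul_sum]
    refine Finset.sum_congr rfl fun k hk => ?_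
    simp only [hEdef, homdef]
    rw [hHC k hk θ hθ]
    have h1 : Complex.exp (Complex.I * ((ρ n * (H i0 θ + C k) : ℝ) : ℂ)) =
        Complex.exp (Complex.I * ((ρ n * H i0 θ : ℝ) : ℂ)) *
          Complex.exp (Complex.I * ((ρ n * C k : ℝ) : ℂ)) := by
      rw [← Complex.exp_add]
      congr 1
      push_cast
      ring
    rw [h1]
    ring
  have L4 : Tendsto (fun n => ∫ θ in α..β, ‖∑ k ∈ cl, om n k * (A k θ : ℝ)‖ ^ 2) atTop (𝓝 0) := by
    have h1 : ∀ n, ∫ θ in α..β, T n θ * conj (T n θ) =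
        ((∫ θ in α..β, ‖∑ k ∈ cl, om n k * (A k θ : ℝ)‖ ^ 2 : ℝ) : ℂ) := by
      intro n
      rw [← intervalIntegral.integral_ofReal]
      refine intervalIntegral.integral_congr fun θ hθ => ?_
      rw [uIcc_of_le hαβ.le] at hθ
      rw [Complex.mul_conj, Complex.normSq_eq_norm_sq, hTom n θ (hsub hθ), norm_mul, hEn, one_mul]
    have h2 := L3
    simp only [h1] at h2
    have h3 := (Complex.continuous_re.tendsto (0 : ℂ)).comp h2
    simp only [Function.comp_def, Complex.ofReal_re, Complex.zero_re] at h3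
    exact h3
  have L5 : Tendsto (fun n => ∫ θ in α..β, ‖∑ k ∈ cl, om (φ n) k * (A k θ : ℝ)‖ ^ 2) atTop
      (𝓝 (∫ θ in α..β, ‖∑ k ∈ cl, ω k * (A k θ : ℝ)‖ ^ 2)) := by
    refine intervalIntegral.tendsto_integral_filter_of_dominated_convergence
        (fun _ => K ^ 2) ?_ ?_ ?_ ?_
    · refine Eventually.of_forall fun n => ?_
      rw [uIoc_of_le hαβ.le]
      refine ContinuousOn.aestronglyMeasurable ?_ measurableSet_Ioc
      refine ContinuousOn.mono ?_ Ioc_subset_Icc_self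
      exact (continuousOn_finsetSum _ fun k _ => continuousOn_const.mul
        (Complex.continuous_ofReal.comp_continuousOn (hAc k))).norm.pow 2
    · refine Eventually.of_forall fun n => Eventually.of_forall fun θ hθ => ?_
      rw [uIoc_of_le hαβ.le] at hθ
      have hθ' := Ioc_subset_Icc_self hθ
      rw [Real.norm_of_nonneg (by positivity)]
      refine pow_le_pow_left₀ (norm_nonneg _) ?_ 2
      have h1 := hTb (φ n) θ hθ'
      rwa [hTom (φ n) θ (hsub hθ'), norm_mul, hEn, one_mul] at h1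
    · exact intervalIntegrable_const
    · refine Eventually.of_forall fun θ _ => ?_
      refine ((tendsto_finsetSum _ fun k _ => ?_).norm).pow 2
      have h1 : Tendsto (fun n => om (φ n) k) atTop (𝓝 (ω k)) :=
        ((continuous_apply k).tendsto ω).comp hφω
      exact h1.mul_const _
  have hzero : ∫ θ in α..β, ‖∑ k ∈ cl, ω k * (A k θ : ℝ)‖ ^ 2 = 0 :=
    tendsto_nhds_unique L5 (L4.comp hφ.tendsto_atTop)
  have hsum : ∀ θ ∈ Icc α β, ∑ k ∈ cl, ω k * (A k θ : ℝ) = 0 := by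
    by_contra hc
    push Not at hc
    obtain ⟨θ, hθ, hne⟩ := hc
    have h1 := intervalIntegral.integral_pos (a := α) (b := β)
      (f := fun θ => ‖∑ k ∈ cl, ω k * (A k θ : ℝ)‖ ^ 2) hαβ
      ((continuousOn_finsetSum _ fun k _ => continuousOn_const.mul
        (Complex.continuous_ofReal.comp_continuousOn (hAc k))).norm.pow 2)
      (fun θ _ => by positivity) ⟨θ, hθ, by positivity⟩
    exact absurd hzero h1.ne'
  -- conclusion
  by_contra hcon
  push Not at hcon
  obtain ⟨θ1, hθ1, hne1⟩ := hcon (R i0 ((α + β) / 2))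
  have hmid : (α + β) / 2 ∈ Ioo α β := ⟨by linarith, by linarith⟩
  have key : ∀ x ∈ Ioo α β, ∀ y ∈ Ioo α β, R i0 x < R i0 y → False := by
    intro x hx y hy hxy
    have hcont : ContinuousOn (R i0) (uIcc x y) := (hRc i0).mono fun t ht => by
      have h1 : uIcc x y ⊆ Ioo α β := ordConnected_Ioo.uIcc_subset hx hy
      exact hsub (Ioo_subset_Icc_self (h1 ht))
    have hval : ∀ t ∈ Ioo (R i0 x) (R i0 y), ∃ θ ∈ Ioo α β, R i0 θ = t := by
      intro t ht
      have h1 := intermediate_value_uIcc hcont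
      have h2 : t ∈ uIcc (R i0 x) (R i0 y) := by
        rw [uIcc_of_le hxy.le]
        exact Ioo_subset_Icc_self ht
      obtain ⟨θ, hθ, h3⟩ := h1 h2
      exact ⟨θ, (ordConnected_Ioo.uIcc_subset hx hy) hθ, h3⟩
    set e := cl.equivFin.symm with he
    have h1 := sqrt_indep (N := cl.card) (C := fun i => C (e i)) (by
      intro i j hij
      have h2 := hCinj _ (e i).2 _ (e j).2 hij
      exact e.injective (Subtype.ext h2)) (ω := fun i => ω (e i)) hxy (by
      intro i t ht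
      obtain ⟨θ, hθ, h3⟩ := hval t ht
      rw [← h3, ← hRC _ (e i).2 θ (hsub (Ioo_subset_Icc_self hθ))]
      exact hR _ θ (hsub (Ioo_subset_Icc_self hθ))) (by
      intro t ht
      obtain ⟨θ, hθ, h3⟩ := hval t ht
      have hθ' := Ioo_subset_Icc_self hθ
      have h4 := hsum θ hθ'
      have h5 : ∑ i : Fin cl.card, ω (e i) * ((√|t + C (e i)| : ℝ) : ℂ) =
          ∑ k : cl, ω k * ((√|t + C k| : ℝ) : ℂ) :=
        Equiv.sum_comp e (fun k : cl => ω k * ((√|t + C k| : ℝ) : ℂ))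
      rw [h5, Finset.sum_coe_sort cl (fun k => ω k * ((√|t + C k| : ℝ) : ℂ)), ← h4]
      refine Finset.sum_congr rfl fun k hk => ?_
      simp only [hAdef]
      rw [hRC k hk θ (hsub hθ'), h3])
    have h2 := h1 (e.symm ⟨i0, hi0⟩)
    simp only [Equiv.apply_symm_apply] at h2
    have h3 := hωn i0
    rw [h2, norm_zero] at h3
    exact hε i0 (norm_eq_zero.1 h3.symm)
  rcases lt_or_gt_of_ne hne1 with h | h
  · exact key _ hθ1 _ hmid h
  · exact key _ hmid _ hθ1 h

/-- TARGET: cancellation of the leading terms forces a constant radius of curvature. -/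
theorem classes {a b : ℝ} (hab : a < b) {N : ℕ} (hN : 0 < N) (H : Fin N → ℝ → ℝ)
    (hH : ∀ j, ContDiffOn ℝ 2 (H j) (Ioo a b))
    (hR : ∀ j, ∀ θ ∈ Ioo a b, H j θ + deriv (deriv (H j)) θ ≠ 0)
    (hd : ∀ j k, j ≠ k → ∀ θ ∈ Ioo a b, H j θ = H k θ → deriv (H j) θ ≠ deriv (H k) θ)
    (ε : Fin N → ℂ) (hε : ∀ j, ε j ≠ 0) (ρ : ℕ → ℝ) (hρ : Tendsto ρ atTop atTop)
    (hlim : ∀ θ ∈ Ioo a b, Tendsto (fun n => ∑ j, ε j *
      (√|H j θ + deriv (deriv (H j)) θ| : ℝ) * Complex.exp (Complex.I * ((ρ n * H j θ : ℝ) : ℂ)))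
      atTop (𝓝 0)) :
    ∃ j, ∃ a' b' R : ℝ, a ≤ a' ∧ a' < b' ∧ b' ≤ b ∧
      ∀ θ ∈ Ioo a' b', H j θ + deriv (deriv (H j)) θ = R := by
  have hD : ∀ j, ContinuousOn (deriv (H j)) (Ioo a b) := fun j =>
    (hH j).continuousOn_deriv_of_isOpen isOpen_Ioo (by norm_num)
  obtain ⟨a1, b1, h1, h2, h3, h4⟩ := P6_shrink (Finset.univ : Finset (Fin N × Fin N))
    (fun p θ => deriv (H p.1) θ - deriv (H p.2) θ) hab
    (fun p => (hD p.1).sub (hD p.2))
  have hsub : Ioo a1 b1 ⊆ Ioo a b := Ioo_subset_Ioo h1 h3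
  have hc : a1 < a1 + (b1 - a1) / 3 := by linarith
  have hc' : a1 + (b1 - a1) / 3 < b1 - (b1 - a1) / 3 := by linarith
  have hc'' : b1 - (b1 - a1) / 3 < b1 := by linarith
  obtain ⟨R, hR'⟩ := P6_core h2 ⟨0, hN⟩ H (fun j => (hH j).mono hsub)
    (fun j θ hθ => hR j θ (hsub hθ)) (fun j k hjk θ hθ => hd j k hjk θ (hsub hθ)) (by
      intro j k
      rcases h4 (j, k) (Finset.mem_univ _) with h | h
      · exact Or.inl fun θ hθ => sub_eq_zero.1 (h θ hθ)
      · exact Or.inr fun θ hθ => sub_ne_zero.1 (h θ hθ)) ε hε ρ hρ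
    (fun θ hθ => hlim θ (hsub hθ)) hc hc' hc''
  exact ⟨⟨0, hN⟩, _, _, R, h1.trans hc.le, hc', hc''.le.trans h3, hR'⟩

end Pool.Agent.Helper327_Drum
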