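import Mathlib

/-
JOB P6a (owner helper327, problem MP_d92c84_an). Only Mathlib is needed.
-/

set_option autoImplicit false
open MeasureTheory Set Filter Topology ComplexConjugate

namespace Pool.Agent.Helper327_Drum

theorem osc_bound {α β : ℝ} (hαβ : α ≤ β) {φ D : ℝ → ℝ} (hφc : ContinuousOn φ (Icc α β))
    (hD : ContinuousOn D (Icc α β)) (hφ : ∀ t ∈ Ioo α β, HasDerivAt φ (D t) t)
    (p : Polynomial ℝ) :
    ∃ K : ℝ, ∀ r : ℝ, 0 < r →
      ‖∫ t in α..β, ((p.eval t * D t : ℝ) : ℂ) * Complex.exp (Complex.I * ((r * φ t : ℝ) : ℂ))‖ ≤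
        K / r := by
  obtain ⟨K', hK'⟩ := isCompact_Icc.exists_bound_of_continuousOn (f := fun t => p.derivative.eval t)
    (s := Icc α β) p.derivative.continuous.continuousOn
  refine ⟨|p.eval β| + |p.eval α| + K' * |β - α|, fun r hr => ?_⟩
  have hexp : ContinuousOn (fun t => Complex.exp (Complex.I * ((r * φ t : ℝ) : ℂ))) (Icc α β) := by
    refine Complex.continuous_exp.comp_continuousOn ?_
    exact continuousOn_const.mul (Complex.continuous_ofReal.comp_continuousOn
      (continuousOn_const.mul hφc))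
  have hnexp : ∀ t, ‖Complex.exp (Complex.I * ((r * φ t : ℝ) : ℂ))‖ = 1 := by
    intro t
    rw [mul_comm]
    exact Complex.norm_exp_ofReal_mul_I _
  set e : ℝ → ℂ := fun t => Complex.exp (Complex.I * ((r * φ t : ℝ) : ℂ)) with he
  have hG : ∀ t ∈ Ioo α β, HasDerivAt (fun t => ((p.eval t : ℝ) : ℂ) * e t)
      (((p.derivative.eval t : ℝ) : ℂ) * e t +
        (Complex.I * r) * (((p.eval t * D t : ℝ) : ℂ) * e t)) t := by
    intro t ht
    have h1 : HasDerivAt (fun t => ((p.eval t : ℝ) : ℂ)) ((p.derivative.eval t : ℝ) : ℂ) t :=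
      (p.hasDerivAt t).ofReal_comp
    have h2 : HasDerivAt (fun t => ((r * φ t : ℝ) : ℂ)) ((r * D t : ℝ) : ℂ) t :=
      ((hφ t ht).const_mul r).ofReal_comp
    have h3 : HasDerivAt e (e t * (Complex.I * ((r * D t : ℝ) : ℂ))) t :=
      (h2.const_mul Complex.I).cexp
    refine (h1.fun_mul h3).congr_deriv ?_
    push_cast
    ring
  have hi1 : ContinuousOn (fun t => ((p.derivative.eval t : ℝ) : ℂ) * e t) (Icc α β) :=
    (Complex.continuous_ofReal.comp p.derivative.continuous).continuousOn.mul hexp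
  have hi2 : ContinuousOn (fun t => ((p.eval t * D t : ℝ) : ℂ) * e t) (Icc α β) :=
    (Complex.continuous_ofReal.comp_continuousOn (p.continuous.continuousOn.mul hD)).mul hexp
  have hI1 : IntervalIntegrable (fun t => ((p.derivative.eval t : ℝ) : ℂ) * e t) volume α β :=
    (hi1.mono (by rw [uIcc_of_le hαβ])).intervalIntegrable
  have hI2 : IntervalIntegrable (fun t => ((p.eval t * D t : ℝ) : ℂ) * e t) volume α β :=
    (hi2.mono (by rw [uIcc_of_le hαβ])).intervalIntegrable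
  have hftc := intervalIntegral.integral_eq_sub_of_hasDerivAt_of_le hαβ
    (f := fun t => ((p.eval t : ℝ) : ℂ) * e t)
    ((Complex.continuous_ofReal.comp p.continuous).continuousOn.mul hexp) hG
    (hI1.add (hI2.const_mul _))
  rw [intervalIntegral.integral_add hI1 (hI2.const_mul _), intervalIntegral.integral_const_mul]
    at hftc
  have hbd : ‖∫ t in α..β, ((p.derivative.eval t : ℝ) : ℂ) * e t‖ ≤ K' * |β - α| := by
    refine intervalIntegral.norm_integral_le_of_norm_le_const fun t ht => ?_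
    rw [uIoc_of_le hαβ] at ht
    rw [norm_mul, hnexp t, mul_one, Complex.norm_real]
    exact hK' t ⟨ht.1.le, ht.2⟩
  set I1 := ∫ t in α..β, ((p.derivative.eval t : ℝ) : ℂ) * e t with hI1def
  set I2 := ∫ t in α..β, ((p.eval t * D t : ℝ) : ℂ) * e t with hI2def
  have heq : Complex.I * r * I2 = ((p.eval β : ℝ) : ℂ) * e β - ((p.eval α : ℝ) : ℂ) * e α - I1 := by
    rw [← hftc]
    ring
  have hn : r * ‖I2‖ ≤ |p.eval β| + |p.eval α| + K' * |β - α| := by
    have h1 : ‖Complex.I * r * I2‖ = r * ‖I2‖ := by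
      rw [norm_mul, norm_mul, Complex.norm_I, one_mul, Complex.norm_real, Real.norm_of_nonneg hr.le]
    rw [← h1, heq]
    calc ‖((p.eval β : ℝ) : ℂ) * e β - ((p.eval α : ℝ) : ℂ) * e α - I1‖
        ≤ ‖((p.eval β : ℝ) : ℂ) * e β - ((p.eval α : ℝ) : ℂ) * e α‖ + ‖I1‖ := norm_sub_le _ _
      _ ≤ ‖((p.eval β : ℝ) : ℂ) * e β‖ + ‖((p.eval α : ℝ) : ℂ) * e α‖ + ‖I1‖ := by
          gcongr
          exact norm_sub_le _ _
      _ = |p.eval β| + |p.eval α| + ‖I1‖ := by
          rw [norm_mul, norm_mul, hnexp, hnexp, mul_one, mul_one, Complex.norm_real,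
            Complex.norm_real, Real.norm_eq_abs, Real.norm_eq_abs]
      _ ≤ _ := by gcongr
  rw [le_div_iff₀ hr, mul_comm]
  exact hn

/-- TARGET 1: Riemann-Lebesgue for a phase without critical points. -/
theorem osc_zero {α β : ℝ} (hαβ : α ≤ β) {φ : ℝ → ℝ} (hφ : ContDiffOn ℝ 2 φ (Icc α β))
    (hφ' : ∀ t ∈ Icc α β, derivWithin φ (Icc α β) t ≠ 0) {a : ℝ → ℝ} (ha : ContinuousOn a (Icc α β))
    {ρ : ℕ → ℝ} (hρ : Tendsto ρ atTop atTop) :
    Tendsto (fun n => ∫ t in α..β, (a t : ℂ) * Complex.exp (Complex.I * ((ρ n * φ t : ℝ) : ℂ)))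
      atTop (𝓝 0) := by
  rcases hαβ.eq_or_lt with h | hlt
  · subst h
    simp
  set D : ℝ → ℝ := derivWithin φ (Icc α β) with hDdef
  have hD : ContinuousOn D (Icc α β) :=
    hφ.continuousOn_derivWithin (uniqueDiffOn_Icc hlt) (by norm_num)
  have hφc : ContinuousOn φ (Icc α β) := hφ.continuousOn
  have hder : ∀ t ∈ Ioo α β, HasDerivAt φ (D t) t := by
    intro t ht
    have h1 : DifferentiableWithinAt ℝ φ (Icc α β) t :=
      (hφ.differentiableOn (by norm_num)) t (Ioo_subset_Icc_self ht)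
    exact h1.hasDerivWithinAt.hasDerivAt (Icc_mem_nhds ht.1 ht.2)
  set F : ℝ → ℝ := fun t => a t / D t with hF
  have hFc : ContinuousOn F (Icc α β) := ha.div hD hφ'
  obtain ⟨M, hM⟩ := isCompact_Icc.exists_bound_of_continuousOn (f := D) (s := Icc α β) hD
  have hM0 : 0 ≤ M := (norm_nonneg _).trans (hM α (left_mem_Icc.2 hαβ))
  rw [Metric.tendsto_atTop]
  intro ε hε
  set δ : ℝ := ε / (2 * (M * |β - α| + 1)) with hδ
  have hpos : 0 < 2 * (M * |β - α| + 1) := by positivity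
  have hδ0 : 0 < δ := by positivity
  obtain ⟨p, hp⟩ := exists_polynomial_near_of_continuousOn α β F hFc δ hδ0
  obtain ⟨K, hK⟩ := osc_bound hαβ hφc hD hder p
  have hKr : Tendsto (fun n => K / ρ n) atTop (𝓝 0) := hρ.const_div_atTop K
  have hev1 : ∀ᶠ n in atTop, K / ρ n < ε / 2 := (tendsto_order.1 hKr).2 _ (by positivity)
  have hev2 : ∀ᶠ n in atTop, 0 < ρ n := hρ.eventually_gt_atTop 0
  obtain ⟨N, hN⟩ := eventually_atTop.1 (hev1.and hev2)
  refine ⟨N, fun n hn => ?_⟩
  obtain ⟨h1, h2⟩ := hN n hn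
  rw [dist_zero_right]
  set e : ℝ → ℂ := fun t => Complex.exp (Complex.I * ((ρ n * φ t : ℝ) : ℂ)) with he
  have hexp : ContinuousOn e (Icc α β) := by
    refine Complex.continuous_exp.comp_continuousOn ?_
    exact continuousOn_const.mul (Complex.continuous_ofReal.comp_continuousOn
      (continuousOn_const.mul hφc))
  have hnexp : ∀ t, ‖e t‖ = 1 := by
    intro t
    rw [he]
    simp only []
    rw [mul_comm]
    exact Complex.norm_exp_ofReal_mul_I _
  have hi1 : ContinuousOn (fun t => (a t : ℂ) * e t) (Icc α β) :=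
    (Complex.continuous_ofReal.comp_continuousOn ha).mul hexp
  have hi2 : ContinuousOn (fun t => ((p.eval t * D t : ℝ) : ℂ) * e t) (Icc α β) :=
    (Complex.continuous_ofReal.comp_continuousOn (p.continuous.continuousOn.mul hD)).mul hexp
  have hI1 : IntervalIntegrable (fun t => (a t : ℂ) * e t) volume α β :=
    (hi1.mono (by rw [uIcc_of_le hαβ])).intervalIntegrable
  have hI2 : IntervalIntegrable (fun t => ((p.eval t * D t : ℝ) : ℂ) * e t) volume α β :=
    (hi2.mono (by rw [uIcc_of_le hαβ])).intervalIntegrable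
  have hsub : ‖(∫ t in α..β, (a t : ℂ) * e t) - ∫ t in α..β, ((p.eval t * D t : ℝ) : ℂ) * e t‖ ≤
      δ * M * |β - α| := by
    rw [← intervalIntegral.integral_sub hI1 hI2]
    refine intervalIntegral.norm_integral_le_of_norm_le_const fun t ht => ?_
    rw [uIoc_of_le hαβ] at ht
    have ht' : t ∈ Icc α β := ⟨ht.1.le, ht.2⟩
    have h3 : (a t : ℂ) * e t - ((p.eval t * D t : ℝ) : ℂ) * e t =
        (((F t - p.eval t) * D t : ℝ) : ℂ) * e t := by
      have h4 : a t = F t * D t := by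
        rw [hF]
        simp only []
        rw [div_mul_cancel₀ _ (hφ' t ht')]
      rw [h4]
      push_cast
      ring
    rw [h3, norm_mul, hnexp, mul_one, Complex.norm_real, norm_mul]
    have h5 := hp t ht'
    rw [abs_sub_comm] at h5
    exact mul_le_mul h5.le (hM t ht') (norm_nonneg _) hδ0.le
  have hmain := hK (ρ n) h2
  have hδM : δ * M * |β - α| < ε / 2 := by
    have h6 : δ * (2 * (M * |β - α| + 1)) = ε := div_mul_cancel₀ _ hpos.ne'
    nlinarith
  calc ‖∫ t in α..β, (a t : ℂ) * e t‖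
      = ‖((∫ t in α..β, (a t : ℂ) * e t) - ∫ t in α..β, ((p.eval t * D t : ℝ) : ℂ) * e t) +
        ∫ t in α..β, ((p.eval t * D t : ℝ) : ℂ) * e t‖ := by rw [sub_add_cancel]
    _ ≤ _ := norm_add_le _ _
    _ < ε / 2 + ε / 2 := by
        refine add_lt_add_of_lt_of_le (hsub.trans_lt hδM) ?_
        exact hmain.trans h1.le
    _ = ε := by ring

theorem sqrt_deriv (C : ℝ) (m : ℕ) (y : ℝ) (hy : y + C ≠ 0) :
    HasDerivAt (fun y => √|y + C| * ((y + C)⁻¹) ^ m)
      ((1 / 2 - (m : ℝ)) * (√|y + C| * ((y + C)⁻¹) ^ (m + 1))) y := by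
  have h1 : HasDerivAt (fun y : ℝ => y + C) 1 y := (hasDerivAt_id y).add_const C
  have h2 : HasDerivAt (fun y : ℝ => |y + C|) (SignType.sign (y + C) : ℝ) y := by
    have h2' : HasDerivAt ((fun x : ℝ => |x|) ∘ (fun y : ℝ => y + C))
        ((SignType.sign (y + C) : ℝ) * 1) y := HasDerivAt.comp y (hasDerivAt_abs hy) h1
    exact h2'.congr_deriv (mul_one _)
  have h3 : HasDerivAt (fun y : ℝ => √|y + C|) ((SignType.sign (y + C) : ℝ) / (2 * √|y + C|)) y :=
    h2.sqrt (abs_ne_zero.2 hy)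
  have h4 : HasDerivAt (fun y : ℝ => (y + C)⁻¹) (-1 / (y + C) ^ 2) y := h1.fun_inv hy
  have h5 := h3.fun_mul (h4.fun_pow m)
  have hs : (SignType.sign (y + C) : ℝ) / (2 * √|y + C|) = 1 / 2 * (√|y + C| * (y + C)⁻¹) := by
    have h6 : √|y + C| * √|y + C| = |y + C| := Real.mul_self_sqrt (abs_nonneg _)
    have h7 : √|y + C| ≠ 0 := (Real.sqrt_pos.2 (abs_pos.2 hy)).ne'
    have h8 : (SignType.sign (y + C) : ℝ) * (y + C) = |y + C| := sign_mul_self _
    have h9 : (SignType.sign (y + C) : ℝ) = √|y + C| * √|y + C| * (y + C)⁻¹ := by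
      rw [h6, ← h8, mul_assoc, mul_inv_cancel₀ hy, mul_one]
    rw [h9]
    field_simp
  refine h5.congr_deriv ?_
  rw [hs]
  rcases Nat.eq_zero_or_pos m with h | h
  · subst h
    simp
  · obtain ⟨k, rfl⟩ := Nat.exists_eq_succ_of_ne_zero h.ne'
    simp only [Nat.succ_eq_add_one, Nat.add_sub_cancel]
    have h10 : -1 / (y + C) ^ 2 = -((y + C)⁻¹ ^ 2) := by
      rw [inv_pow, neg_div, one_div]
    rw [h10]
    push_cast
    ring

/-- TARGET 2: linear independence of square roots. -/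
theorem sqrt_indep {N : ℕ} {C : Fin N → ℝ} (hC : Function.Injective C) {ω : Fin N → ℂ} {a b : ℝ}
    (hab : a < b) (hne : ∀ k, ∀ y ∈ Ioo a b, y + C k ≠ 0)
    (h : ∀ y ∈ Ioo a b, ∑ k, ω k * (√|y + C k| : ℝ) = 0) : ∀ k, ω k = 0 := by
  have key : ∀ m : ℕ, ∀ y ∈ Ioo a b,
      ∑ k, ω k * ((√|y + C k| * ((y + C k)⁻¹) ^ m : ℝ) : ℂ) = 0 := by
    intro m
    induction m with
    | zero =>
      intro y hy
      simpa using h y hy
    | succ m ih =>
      intro y hy
      have h1 : HasDerivAt (fun y : ℝ => ∑ k, ω k * ((√|y + C k| * ((y + C k)⁻¹) ^ m : ℝ) : ℂ))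
          (∑ k, ω k * (((1 / 2 - (m : ℝ)) * (√|y + C k| * ((y + C k)⁻¹) ^ (m + 1)) : ℝ) : ℂ)) y := by
        refine HasDerivAt.fun_sum fun k _ => ?_
        exact ((sqrt_deriv (C k) m y (hne k y hy)).ofReal_comp).const_mul (ω k)
      have h2 : HasDerivAt (fun y : ℝ => ∑ k, ω k * ((√|y + C k| * ((y + C k)⁻¹) ^ m : ℝ) : ℂ))
          0 y := by
        refine (hasDerivAt_const y (0 : ℂ)).congr_of_eventuallyEq ?_
        filter_upwards [Ioo_mem_nhds hy.1 hy.2] with z hz
        exact ih z hz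
      have h3 := h1.unique h2
      have h4 : ∑ k, ω k * (((1 / 2 - (m : ℝ)) * (√|y + C k| * ((y + C k)⁻¹) ^ (m + 1)) : ℝ) : ℂ) =
          ((1 / 2 - (m : ℝ) : ℝ) : ℂ) *
            ∑ k, ω k * ((√|y + C k| * ((y + C k)⁻¹) ^ (m + 1) : ℝ) : ℂ) := by
        rw [Finset.mul_sum]
        refine Finset.sum_congr rfl fun k _ => ?_
        push_cast
        ring
      rw [h4] at h3
      have h5 : ((1 / 2 - (m : ℝ) : ℝ) : ℂ) ≠ 0 := by
        rw [Complex.ofReal_ne_zero]
        intro h6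
        have h7 : (2 * m : ℝ) = 1 := by linarith
        have h8 : 2 * m = 1 := by exact_mod_cast h7
        omega
      exact (mul_eq_zero.1 h3).resolve_left h5
  set y0 : ℝ := (a + b) / 2 with hy0
  have hy0m : y0 ∈ Ioo a b := ⟨by rw [hy0]; linarith, by rw [hy0]; linarith⟩
  have hinj : Function.Injective (fun k : Fin N => (((y0 + C k)⁻¹ : ℝ) : ℂ)) := by
    intro k l hkl
    simp only [] at hkl
    have h1 := Complex.ofReal_injective hkl
    have h2 := inv_injective h1
    exact hC (by linarith)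
  have hv := Matrix.eq_zero_of_forall_pow_sum_mul_pow_eq_zero (n := N)
    (f := fun k : Fin N => (((y0 + C k)⁻¹ : ℝ) : ℂ))
    (v := fun k : Fin N => ω k * ((√|y0 + C k| : ℝ) : ℂ)) hinj ?_
  · intro k
    have h1 := congrFun hv k
    simp only [Pi.zero_apply] at h1
    have h2 : ((√|y0 + C k| : ℝ) : ℂ) ≠ 0 := by
      rw [Complex.ofReal_ne_zero]
      exact (Real.sqrt_pos.2 (abs_pos.2 (hne k y0 hy0m))).ne'
    exact (mul_eq_zero.1 h1).resolve_right h2
  · intro i
    rw [← key i y0 hy0m]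
    refine Finset.sum_congr rfl fun k _ => ?_
    push_cast
    ring

/-- TARGET 3: constant radius of curvature gives an arc of a circle. -/
theorem arc_of_const {H : ℝ → ℝ} {a b R : ℝ} (hab : a < b) (hH : ContDiffOn ℝ 2 H (Ioo a b))
    (h : ∀ θ ∈ Ioo a b, H θ + deriv (deriv H) θ = R) :
    ∃ q : ℂ, ∀ θ ∈ Ioo a b, ((H θ : ℂ) + deriv H θ * Complex.I) * Complex.exp (θ * Complex.I) =
      q + R * Complex.exp (θ * Complex.I) := by
  have hd1 : ContDiffOn ℝ 1 (deriv H) (Ioo a b) := hH.deriv_of_isOpen isOpen_Ioo (by norm_num)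
  have hF : ∀ θ ∈ Ioo a b, HasDerivAt (fun θ : ℝ =>
      ((H θ : ℂ) + deriv H θ * Complex.I) * Complex.exp (θ * Complex.I) -
        R * Complex.exp (θ * Complex.I)) 0 θ := by
    intro θ hθ
    have h1 : HasDerivAt H (deriv H θ) θ :=
      ((hH.differentiableOn (by norm_num)).differentiableAt (Ioo_mem_nhds hθ.1 hθ.2)).hasDerivAt
    have h2 : HasDerivAt (deriv H) (deriv (deriv H) θ) θ :=
      ((hd1.differentiableOn (by norm_num)).differentiableAt (Ioo_mem_nhds hθ.1 hθ.2)).hasDerivAt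
    have h3 : HasDerivAt (fun θ : ℝ => Complex.exp (θ * Complex.I))
        (Complex.exp (θ * Complex.I) * (1 * Complex.I)) θ :=
      ((hasDerivAt_id θ).ofReal_comp.mul_const Complex.I).cexp
    refine (((h1.ofReal_comp.fun_add (h2.ofReal_comp.mul_const Complex.I)).fun_mul h3).fun_sub
      (h3.const_mul (R : ℂ))).congr_deriv ?_
    have h5 : (R : ℂ) = H θ + deriv (deriv H) θ := by
      rw [← h θ hθ]
      push_cast
      ring
    rw [h5]
    have hI := Complex.I_mul_I
    linear_combination (((deriv H θ : ℝ) : ℂ) * Complex.exp (θ * Complex.I)) * hI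
  obtain ⟨q, hq⟩ := isOpen_Ioo.exists_is_const_of_deriv_eq_zero isPreconnected_Ioo
    (f := fun θ : ℝ => ((H θ : ℂ) + deriv H θ * Complex.I) * Complex.exp (θ * Complex.I) -
        R * Complex.exp (θ * Complex.I)) (s := Ioo a b)
    (fun θ hθ => (hF θ hθ).differentiableAt.differentiableWithinAt)
    (fun θ hθ => (hF θ hθ).deriv)
  refine ⟨q, fun θ hθ => ?_⟩
  rw [← hq θ hθ]
  ring

end Pool.Agent.Helper327_Drum
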