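import Pool.Agent.Helper327_Drum.Fin.P7

/-
JOB P7b (owner helper327, problem MP_d92c84_an). Only Mathlib is needed.
-/

set_option autoImplicit false
open MeasureTheory Set Filter Topology ComplexConjugate

namespace Pool.Agent.Helper327_Drum

/-- the phase factor -/
noncomputable def sfE (x : ℝ) : ℂ := Complex.exp (Complex.I * ((x : ℝ) : ℂ))

lemma sfE_norm (x : ℝ) : ‖sfE x‖ = 1 := Complex.norm_exp_I_mul_ofReal x

lemma sfE_cont : Continuous sfE := by
  unfold sfE
  fun_prop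

lemma sfE_add (x y : ℝ) : sfE (x + y) = sfE x * sfE y := by
  unfold sfE
  rw [← Complex.exp_add]
  congr 1
  push_cast
  ring

lemma sfE_neg (x : ℝ) : sfE (-x) = conj (sfE x) := by
  unfold sfE
  rw [← Complex.exp_conj]
  congr 1
  simp

lemma sfE_zero : sfE 0 = 1 := by
  unfold sfE
  simp

lemma sfE_hasDeriv {f : ℝ → ℝ} {f' t : ℝ} (h : HasDerivAt f f' t) :
    HasDerivAt (fun t => sfE (f t)) (sfE (f t) * (Complex.I * (f' : ℂ))) t := by
  unfold sfE
  have h1 : HasDerivAt (fun t => ((f t : ℝ) : ℂ)) (f' : ℂ) t := h.ofReal_comp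
  exact (h1.const_mul Complex.I).cexp

/-- TARGET 1: no stationary point. -/
theorem nonstat {f g : ℝ → ℝ} (hf : ContDiff ℝ 2 f) (hg : ContDiff ℝ 1 g)
    (hgc : HasCompactSupport g) (h : ∀ t ∈ tsupport g, deriv f t ≠ 0) :
    Tendsto (fun ρ : ℝ => (√ρ : ℂ) * ∫ t, (g t : ℂ) * Complex.exp (Complex.I * ((ρ * f t : ℝ) : ℂ)))
      atTop (𝓝 0) := by
  have hfd : Differentiable ℝ f := hf.differentiable (by norm_num)
  have hf1 : ContDiff ℝ 1 (deriv f) := by
    have h2 : ContDiff ℝ (1 + 1) f := by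
      have : ((1 : WithTop ℕ∞) + 1) = 2 := by norm_num
      rw [this]
      exact hf
    exact h2.deriv'
  set q : ℝ → ℝ := fun t => g t / deriv f t with hq
  have hqC : ContDiff ℝ 1 q := by
    rw [contDiff_iff_contDiffAt]
    intro x
    by_cases hx : x ∈ tsupport g
    · exact (hg.contDiffAt).div (hf1.contDiffAt) (h x hx)
    · have h1 := notMem_tsupport_iff_eventuallyEq.1 hx
      have h2 : q =ᶠ[𝓝 x] fun _ => 0 := by
        filter_upwards [h1] with t ht
        simp [hq, ht]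
      exact contDiffAt_const.congr_of_eventuallyEq h2
  have hqc : HasCompactSupport q := by
    refine hgc.mono fun t ht => ?_
    rw [Function.mem_support] at ht ⊢
    intro h0
    apply ht
    simp [hq, h0]
  have hqd : Differentiable ℝ q := hqC.differentiable (by norm_num)
  have hq'c : Continuous (deriv q) := hqC.continuous_deriv (by norm_num)
  have hq's : HasCompactSupport (deriv q) := hqc.deriv
  have hqf : ∀ t, q t * deriv f t = g t := by
    intro t
    by_cases ht : deriv f t = 0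
    · have h1 : t ∉ tsupport g := fun hh => h t hh ht
      have h2 : g t = 0 := image_eq_zero_of_notMem_tsupport h1
      simp [hq, ht, h2]
    · simp only [hq]
      field_simp
  have hbound : ∀ ρ : ℝ, 0 < ρ →
      ‖(√ρ : ℂ) * ∫ t, (g t : ℂ) * Complex.exp (Complex.I * ((ρ * f t : ℝ) : ℂ))‖ ≤
        (∫ t, |deriv q t|) / √ρ := by
    intro ρ hρ
    have hE : Continuous fun t => sfE (ρ * f t) := sfE_cont.comp (by fun_prop (disch := exact hfd.continuous))
    have hparts := integral_mul_deriv_eq_deriv_mul_of_integrable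
      (u := fun t => ((q t : ℝ) : ℂ)) (v := fun t => sfE (ρ * f t))
      (u' := fun t => ((deriv q t : ℝ) : ℂ))
      (v' := fun t => sfE (ρ * f t) * (Complex.I * ((ρ * deriv f t : ℝ) : ℂ)))
      (fun x _ => (hqd x).hasDerivAt.ofReal_comp)
      (fun x _ => sfE_hasDeriv (((hfd x).hasDerivAt).const_mul ρ))
      (by
        apply Continuous.integrable_of_hasCompactSupport
        · have := hqC.continuous
          have := hf1.continuous
          show Continuous fun t => ((q t : ℝ) : ℂ) * (sfE (ρ * f t) * (Complex.I * ((ρ * deriv f t : ℝ) : ℂ)))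
          fun_prop
        · refine hqc.mono fun t ht => ?_
          rw [Function.mem_support] at ht ⊢
          intro h0
          apply ht
          simp [h0])
      (by
        apply Continuous.integrable_of_hasCompactSupport
        · show Continuous fun t => ((deriv q t : ℝ) : ℂ) * sfE (ρ * f t)
          fun_prop
        · refine hq's.mono fun t ht => ?_
          rw [Function.mem_support] at ht ⊢
          intro h0
          apply ht
          simp [h0])
      (by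
        apply Continuous.integrable_of_hasCompactSupport
        · have := hqC.continuous
          show Continuous fun t => ((q t : ℝ) : ℂ) * sfE (ρ * f t)
          fun_prop
        · refine hqc.mono fun t ht => ?_
          rw [Function.mem_support] at ht ⊢
          intro h0
          apply ht
          simp [h0])
    have e1 : ∀ t, ((q t : ℝ) : ℂ) * (sfE (ρ * f t) * (Complex.I * ((ρ * deriv f t : ℝ) : ℂ))) =
        (Complex.I * ρ) * ((g t : ℂ) * sfE (ρ * f t)) := by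
      intro t
      rw [← hqf t]
      push_cast
      ring
    simp only [e1] at hparts
    rw [integral_const_mul] at hparts
    have e2 : ‖∫ t, (g t : ℂ) * sfE (ρ * f t)‖ * ρ ≤ ∫ t, |deriv q t| := by
      have h3 : ‖(Complex.I * ρ) * ∫ t, (g t : ℂ) * sfE (ρ * f t)‖ ≤ ∫ t, |deriv q t| := by
        rw [hparts, norm_neg]
        refine (norm_integral_le_integral_norm _).trans (le_of_eq ?_)
        congr 1
        funext t
        rw [norm_mul, sfE_norm, mul_one, Complex.norm_real, Real.norm_eq_abs]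
      rw [norm_mul, norm_mul, Complex.norm_I, one_mul, Complex.norm_real, Real.norm_eq_abs,
        abs_of_pos hρ] at h3
      linarith
    have hs : 0 < √ρ := Real.sqrt_pos.2 hρ
    rw [norm_mul, Complex.norm_real, Real.norm_eq_abs, abs_of_pos hs, le_div_iff₀ hs]
    have e3 : √ρ * √ρ = ρ := Real.mul_self_sqrt hρ.le
    calc √ρ * ‖∫ t, (g t : ℂ) * Complex.exp (Complex.I * ((ρ * f t : ℝ) : ℂ))‖ * √ρ
        = ‖∫ t, (g t : ℂ) * sfE (ρ * f t)‖ * (√ρ * √ρ) := by
          unfold sfE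
          ring
      _ ≤ _ := by rw [e3]; exact e2
  have hlim : Tendsto (fun ρ : ℝ => (∫ t, |deriv q t|) / √ρ) atTop (𝓝 0) :=
    Tendsto.div_atTop tendsto_const_nhds Real.tendsto_sqrt_atTop
  refine squeeze_zero_norm' ?_ hlim
  filter_upwards [eventually_gt_atTop 0] with ρ hρ
  exact hbound ρ hρ

/-- second order Taylor formula at a critical point -/
lemma sf_taylor {f : ℝ → ℝ} (hf : ContDiff ℝ 2 f) {t₀ : ℝ} (hf0 : f t₀ = 0)
    (h0 : deriv f t₀ = 0) {ε : ℝ} (hε : 0 < ε) :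
    ∃ δ : ℝ, 0 < δ ∧ ∀ h : ℝ, |h| ≤ δ → |f (t₀ + h) - deriv (deriv f) t₀ * h ^ 2 / 2| ≤ ε * h ^ 2 := by
  have hfd : Differentiable ℝ f := hf.differentiable (by norm_num)
  have hf1 : ContDiff ℝ 1 (deriv f) := by
    have h2 : ContDiff ℝ (1 + 1) f := by
      have : ((1 : WithTop ℕ∞) + 1) = 2 := by norm_num
      rw [this]
      exact hf
    exact h2.deriv'
  have hf1d : Differentiable ℝ (deriv f) := hf1.differentiable (by norm_num)
  set s := deriv (deriv f) t₀ with hs
  have h1 : HasDerivAt (deriv f) s t₀ := (hf1d t₀).hasDerivAt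
  have h2 := (hasDerivAt_iff_isLittleO_nhds_zero.1 h1).def hε
  rw [Metric.eventually_nhds_iff] at h2
  obtain ⟨δ, hδ, h3⟩ := h2
  refine ⟨δ / 2, by linarith, fun h hh => ?_⟩
  -- the remainder
  have hF : ∀ u ∈ Metric.closedBall (0 : ℝ) |h|, HasDerivWithinAt
      (fun u => f (t₀ + u) - s * u ^ 2 / 2) (deriv f (t₀ + u) - s * u)
      (Metric.closedBall (0 : ℝ) |h|) u := by
    intro u _
    have e1 : HasDerivAt (fun u => f (t₀ + u)) (deriv f (t₀ + u)) u :=
      HasDerivAt.comp_const_add t₀ u (hfd (t₀ + u)).hasDerivAt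
    have e2 : HasDerivAt (fun u : ℝ => s * u ^ 2 / 2) (s * u) u := by
      have := ((hasDerivAt_pow 2 u).const_mul s).div_const 2
      have e : s * (((2 : ℕ) : ℝ) * u ^ (2 - 1)) / 2 = s * u := by
        norm_num
        ring
      rw [e] at this
      exact this
    exact (e1.sub e2).hasDerivWithinAt
  have hB : ∀ u ∈ Metric.closedBall (0 : ℝ) |h|, ‖deriv f (t₀ + u) - s * u‖ ≤ ε * |h| := by
    intro u hu
    rw [mem_closedBall_zero_iff, Real.norm_eq_abs] at hu
    have e1 := h3 (y := u) (by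
      rw [dist_zero_right, Real.norm_eq_abs]
      linarith)
    rw [h0, sub_zero, smul_eq_mul, Real.norm_eq_abs u] at e1
    rw [mul_comm s u]
    exact e1.trans (mul_le_mul_of_nonneg_left hu hε.le)
  have h4 := Convex.norm_image_sub_le_of_norm_hasDerivWithin_le hF hB (convex_closedBall _ _)
    (x := 0) (y := h) (Metric.mem_closedBall_self (abs_nonneg h)) (by
      rw [mem_closedBall_zero_iff, Real.norm_eq_abs])
  simp only [add_zero, hf0, sub_zero, Real.norm_eq_abs] at h4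
  norm_num at h4
  calc |f (t₀ + h) - s * h ^ 2 / 2| ≤ ε * |h| * |h| := h4
    _ = ε * h ^ 2 := by rw [mul_assoc, abs_mul_abs_self, sq]

lemma sf_phase {f : ℝ → ℝ} (hf : ContDiff ℝ 2 f) {t₀ : ℝ} (hf0 : f t₀ = 0)
    (h0 : deriv f t₀ = 0) (y : ℝ) :
    Tendsto (fun ρ : ℝ => ρ * f (t₀ + y / √ρ)) atTop (𝓝 (deriv (deriv f) t₀ * y ^ 2 / 2)) := by
  rw [Metric.tendsto_nhds]
  intro ε hε
  obtain ⟨δ, hδ, hT⟩ := sf_taylor hf hf0 h0 (ε := ε / (2 * (y ^ 2 + 1))) (by positivity)
  have h1 : Tendsto (fun ρ : ℝ => y / √ρ) atTop (𝓝 0) :=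
    Tendsto.div_atTop tendsto_const_nhds Real.tendsto_sqrt_atTop
  have h2 := (Metric.tendsto_nhds.1 h1) δ hδ
  filter_upwards [h2, eventually_gt_atTop 0] with ρ h3 hρ
  rw [dist_zero_right, Real.norm_eq_abs] at h3
  have h4 := hT (y / √ρ) h3.le
  have hs : 0 < √ρ := Real.sqrt_pos.2 hρ
  have h5 : ρ * (y / √ρ) ^ 2 = y ^ 2 := by
    rw [div_pow, Real.sq_sqrt hρ.le]
    field_simp
  rw [Real.dist_eq]
  have h6 : ρ * f (t₀ + y / √ρ) - deriv (deriv f) t₀ * y ^ 2 / 2 =
      ρ * (f (t₀ + y / √ρ) - deriv (deriv f) t₀ * (y / √ρ) ^ 2 / 2) := by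
    rw [← h5]
    ring
  rw [h6, abs_mul, abs_of_pos hρ]
  calc ρ * |f (t₀ + y / √ρ) - deriv (deriv f) t₀ * (y / √ρ) ^ 2 / 2|
      ≤ ρ * (ε / (2 * (y ^ 2 + 1)) * (y / √ρ) ^ 2) := mul_le_mul_of_nonneg_left h4 hρ.le
    _ = ε / (2 * (y ^ 2 + 1)) * y ^ 2 := by rw [← h5]; ring
    _ < ε := by
      rw [div_mul_eq_mul_div, div_lt_iff₀ (by positivity)]
      nlinarith [sq_nonneg y]

lemma sf_gauss {s : ℝ} (hs : 0 < s) :
    Tendsto (fun K : ℝ => ∫ y in (-K)..K, sfE (s * y ^ 2 / 2)) atTop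
      (𝓝 ((1 + Complex.I) * (√Real.pi : ℝ) * ((1 / √s : ℝ) : ℂ))) := by
  have hss : 0 < √s := Real.sqrt_pos.2 hs
  have h1 : ∀ K : ℝ, ∫ y in (-K)..K, sfE (s * y ^ 2 / 2) =
      (∫ y in (-(√s * K))..(√s * K), Complex.exp (Complex.I * ((y ^ 2 / 2 : ℝ) : ℂ))) *
        ((1 / √s : ℝ) : ℂ) := by
    intro K
    have h2 := intervalIntegral.integral_comp_mul_left (a := -K) (b := K)
      (fun y : ℝ => sfE (y ^ 2 / 2)) hss.ne'
    have h3 : ∀ y : ℝ, (√s * y) ^ 2 / 2 = s * y ^ 2 / 2 := by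
      intro y
      rw [mul_pow, Real.sq_sqrt hs.le]
    simp only [h3] at h2
    rw [h2, mul_neg]
    show (√s)⁻¹ • ∫ y in (-(√s * K))..(√s * K), sfE (y ^ 2 / 2) = _
    rw [Complex.real_smul, mul_comm]
    unfold sfE
    congr 2
    rw [one_div]
  simp only [h1]
  have h4 : Tendsto (fun K : ℝ => √s * K) atTop atTop := tendsto_id.const_mul_atTop hss
  exact (fresnel.comp h4).mul_const _

/-- the main part -/
theorem sf_core {f g : ℝ → ℝ} (hf : ContDiff ℝ 2 f) (hg : ContDiff ℝ 1 g)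
    (hgc : HasCompactSupport g) {t₀ δ : ℝ} (hδ : 0 < δ) (hf0 : f t₀ = 0) (h0 : deriv f t₀ = 0)
    (h2 : 0 < deriv (deriv f) t₀)
    (hlow : ∀ t ∈ Icc (t₀ - δ) (t₀ + δ), deriv (deriv f) t₀ / 2 ≤ deriv (deriv f) t)
    (hsupp : Function.support g ⊆ Ioc (t₀ - δ) (t₀ + δ)) :
    Tendsto (fun ρ : ℝ => (√ρ : ℂ) * ∫ t, (g t : ℂ) * sfE (ρ * f t)) atTop
      (𝓝 ((g t₀ : ℂ) * ((1 + Complex.I) * (√Real.pi : ℝ) *
        ((1 / √(deriv (deriv f) t₀) : ℝ) : ℂ)))) := by
  have hfd : Differentiable ℝ f := hf.differentiable (by norm_num)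
  have hfc := hfd.continuous
  have hf1 : ContDiff ℝ 1 (deriv f) := by
    have h2 : ContDiff ℝ (1 + 1) f := by
      have : ((1 : WithTop ℕ∞) + 1) = 2 := by norm_num
      rw [this]
      exact hf
    exact h2.deriv'
  have hf1d : Differentiable ℝ (deriv f) := hf1.differentiable (by norm_num)
  have hgcont := hg.continuous
  have hg'c : Continuous (deriv g) := hg.continuous_deriv (by norm_num)
  set s := deriv (deriv f) t₀ with hs
  obtain ⟨M, hM⟩ := hgcont.bounded_above_of_compact_support hgc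
  obtain ⟨M₁, hM₁⟩ := hg'c.bounded_above_of_compact_support hgc.deriv
  simp only [Real.norm_eq_abs] at hM hM₁
  have hM0 : 0 ≤ M := (abs_nonneg _).trans (hM 0)
  have hM₁0 : 0 ≤ M₁ := (abs_nonneg _).trans (hM₁ 0)
  -- monotonicity
  have hmon1 : MonotoneOn (fun t => deriv f t - s / 2 * (t - t₀)) (Icc (t₀ - δ) (t₀ + δ)) := by
    apply monotoneOn_of_deriv_nonneg (convex_Icc _ _)
    · exact (hf1.continuous.sub (by fun_prop)).continuousOn
    · intro x _
      exact ((hf1d x).sub (by fun_prop)).differentiableWithinAt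
    · intro x hx
      rw [interior_Icc] at hx
      have e1 : HasDerivAt (fun t => deriv f t - s / 2 * (t - t₀)) (deriv (deriv f) x - s / 2) x := by
        have e2 : HasDerivAt (fun t : ℝ => s / 2 * (t - t₀)) (s / 2) x := by
          have := ((hasDerivAt_id x).sub_const t₀).const_mul (s / 2)
          simpa using this
        exact (hf1d x).hasDerivAt.sub e2
      rw [e1.deriv]
      have := hlow x ⟨hx.1.le, hx.2.le⟩
      linarith
  have hmon2 : MonotoneOn (deriv f) (Icc (t₀ - δ) (t₀ + δ)) := by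
    intro x hx y hy hxy
    have e1 := hmon1 hx hy hxy
    simp only at e1
    nlinarith
  have ht₀ : t₀ ∈ Icc (t₀ - δ) (t₀ + δ) := ⟨by linarith, by linarith⟩
  -- the constant
  set C : ℝ := 4 * (4 * M + M₁ * δ) / s with hC
  have hC0 : 0 ≤ C := by positivity
  -- outer parts
  have hcontE : ∀ ρ : ℝ, Continuous fun t => (g t : ℂ) * sfE (ρ * f t) := by
    intro ρ
    have : Continuous fun t => sfE (ρ * f t) := sfE_cont.comp (by fun_prop)
    fun_prop
  have key : ∀ K ρ : ℝ, 0 < K → 0 < ρ → K / √ρ ≤ δ →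
      ‖(√ρ : ℂ) * (∫ t, (g t : ℂ) * sfE (ρ * f t)) -
        ∫ y in (-K)..K, (g (t₀ + y / √ρ) : ℂ) * sfE (ρ * f (t₀ + y / √ρ))‖ ≤ C / K := by
    intro K ρ hK hρ hKρ
    have hsq : 0 < √ρ := Real.sqrt_pos.2 hρ
    have hq : 0 < K / √ρ := div_pos hK hsq
    have e1 : ∫ t, (g t : ℂ) * sfE (ρ * f t) =
        ∫ t in (t₀ - δ)..(t₀ + δ), (g t : ℂ) * sfE (ρ * f t) := by
      symm
      apply intervalIntegral.integral_eq_integral_of_support_subset
      intro t ht
      apply hsupp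
      rw [Function.mem_support] at ht ⊢
      intro h
      apply ht
      simp [h]
    have hint : ∀ a b : ℝ, IntervalIntegrable (fun t => (g t : ℂ) * sfE (ρ * f t)) volume a b :=
      fun a b => (hcontE ρ).intervalIntegrable a b
    have e2 : ∫ t in (t₀ - δ)..(t₀ + δ), (g t : ℂ) * sfE (ρ * f t) =
        (∫ t in (t₀ - δ)..(t₀ - K / √ρ), (g t : ℂ) * sfE (ρ * f t)) +
        (∫ t in (t₀ - K / √ρ)..(t₀ + K / √ρ), (g t : ℂ) * sfE (ρ * f t)) +
        ∫ t in (t₀ + K / √ρ)..(t₀ + δ), (g t : ℂ) * sfE (ρ * f t) := by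
      rw [intervalIntegral.integral_add_adjacent_intervals (hint _ _) (hint _ _),
        intervalIntegral.integral_add_adjacent_intervals (hint _ _) (hint _ _)]
    have e3 : ∫ t in (t₀ - K / √ρ)..(t₀ + K / √ρ), (g t : ℂ) * sfE (ρ * f t) =
        (√ρ)⁻¹ • ∫ y in (-K)..K, (g (t₀ + y / √ρ) : ℂ) * sfE (ρ * f (t₀ + y / √ρ)) := by
      have := intervalIntegral.inv_smul_integral_comp_add_div (a := -K) (b := K)
        (fun t => (g t : ℂ) * sfE (ρ * f t)) (√ρ) t₀
      rw [this]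
      congr 1
      rw [neg_div, sub_eq_add_neg]
    set m : ℝ := s / 2 * (K / √ρ) with hm
    have hm0 : 0 < m := by positivity
    have b1 : ‖∫ t in (t₀ - δ)..(t₀ - K / √ρ), (g t : ℂ) * sfE (ρ * f t)‖ ≤
        (4 * M + M₁ * δ) / (ρ * m) := by
      have hsub : Icc (t₀ - δ) (t₀ - K / √ρ) ⊆ Icc (t₀ - δ) (t₀ + δ) :=
        Icc_subset_Icc_right (by linarith)
      refine (vdc (m := m) (M := M) (M₁ := M₁) (by linarith) hf hg hm0 hρ (fun t ht => ?_)
        (Or.inl (hmon2.mono hsub)) (fun t _ => hM t) (fun t _ => hM₁ t)).trans ?_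
      · have e4 := hmon1 (hsub ht) ht₀ (by linarith [ht.2])
        simp only [h0, sub_self, mul_zero] at e4
        have e5 : deriv f t ≤ -m := by
          have : t - t₀ ≤ -(K / √ρ) := by linarith [ht.2]
          have : s / 2 * (t - t₀) ≤ s / 2 * (-(K / √ρ)) :=
            mul_le_mul_of_nonneg_left this (by linarith)
          rw [hm]
          linarith
        rw [abs_of_neg (by linarith)]
        linarith
      · apply div_le_div_of_nonneg_right _ (by positivity)
        have : t₀ - K / √ρ - (t₀ - δ) ≤ δ := by linarith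
        have := mul_le_mul_of_nonneg_left this hM₁0
        linarith
    have b2 : ‖∫ t in (t₀ + K / √ρ)..(t₀ + δ), (g t : ℂ) * sfE (ρ * f t)‖ ≤
        (4 * M + M₁ * δ) / (ρ * m) := by
      have hsub : Icc (t₀ + K / √ρ) (t₀ + δ) ⊆ Icc (t₀ - δ) (t₀ + δ) :=
        Icc_subset_Icc_left (by linarith)
      refine (vdc (m := m) (M := M) (M₁ := M₁) (by linarith) hf hg hm0 hρ (fun t ht => ?_)
        (Or.inl (hmon2.mono hsub)) (fun t _ => hM t) (fun t _ => hM₁ t)).trans ?_
      · have e4 := hmon1 ht₀ (hsub ht) (by linarith [ht.1])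
        simp only [h0, sub_self, mul_zero] at e4
        have e5 : m ≤ deriv f t := by
          have : K / √ρ ≤ t - t₀ := by linarith [ht.1]
          have : s / 2 * (K / √ρ) ≤ s / 2 * (t - t₀) :=
            mul_le_mul_of_nonneg_left this (by linarith)
          rw [hm]
          linarith
        exact e5.trans (le_abs_self _)
      · apply div_le_div_of_nonneg_right _ (by positivity)
        have : t₀ + δ - (t₀ + K / √ρ) ≤ δ := by linarith
        have := mul_le_mul_of_nonneg_left this hM₁0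
        linarith
    set I1 := ∫ t in (t₀ - δ)..(t₀ - K / √ρ), (g t : ℂ) * sfE (ρ * f t) with hI1
    set I3 := ∫ t in (t₀ + K / √ρ)..(t₀ + δ), (g t : ℂ) * sfE (ρ * f t) with hI3
    set I2 := ∫ y in (-K)..K, (g (t₀ + y / √ρ) : ℂ) * sfE (ρ * f (t₀ + y / √ρ)) with hI2
    have e6 : (√ρ : ℂ) * ((√ρ)⁻¹ • I2) = I2 := by
      rw [Complex.real_smul, ← mul_assoc, ← Complex.ofReal_mul, mul_inv_cancel₀ hsq.ne',
        Complex.ofReal_one, one_mul]
    have e7 : (√ρ : ℂ) * (∫ t, (g t : ℂ) * sfE (ρ * f t)) - I2 = (√ρ : ℂ) * (I1 + I3) := by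
      rw [e1, e2, e3]
      calc (√ρ : ℂ) * (I1 + (√ρ)⁻¹ • I2 + I3) - I2 =
          (√ρ : ℂ) * (I1 + I3) + ((√ρ : ℂ) * ((√ρ)⁻¹ • I2) - I2) := by ring
        _ = _ := by rw [e6, sub_self, add_zero]
    rw [e7, norm_mul, Complex.norm_real, Real.norm_eq_abs, abs_of_pos hsq]
    have e8 : ‖I1 + I3‖ ≤ 2 * ((4 * M + M₁ * δ) / (ρ * m)) :=
      (norm_add_le _ _).trans (by linarith)
    refine (mul_le_mul_of_nonneg_left e8 hsq.le).trans (le_of_eq ?_)
    rw [hC, hm]
    have e9 : √ρ ^ 2 = ρ := Real.sq_sqrt hρ.le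
    field_simp
    rw [e9]
    ring
  -- inner part
  have inner : ∀ K : ℝ, Tendsto (fun ρ : ℝ =>
      ∫ y in (-K)..K, (g (t₀ + y / √ρ) : ℂ) * sfE (ρ * f (t₀ + y / √ρ))) atTop
      (𝓝 (∫ y in (-K)..K, (g t₀ : ℂ) * sfE (s * y ^ 2 / 2))) := by
    intro K
    apply intervalIntegral.tendsto_integral_filter_of_dominated_convergence (fun _ => M)
    · refine Eventually.of_forall fun ρ => ?_
      have hc : Continuous fun y : ℝ => (g (t₀ + y / √ρ) : ℂ) * sfE (ρ * f (t₀ + y / √ρ)) :=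
        (hcontE ρ).comp (by fun_prop)
      exact hc.aestronglyMeasurable
    · refine Eventually.of_forall fun ρ => ae_of_all _ fun y _ => ?_
      rw [norm_mul, sfE_norm, mul_one, Complex.norm_real, Real.norm_eq_abs]
      exact hM _
    · exact intervalIntegrable_const
    · refine ae_of_all _ fun y _ => ?_
      have e1 : Tendsto (fun ρ : ℝ => t₀ + y / √ρ) atTop (𝓝 (t₀ + 0)) :=
        tendsto_const_nhds.add (Tendsto.div_atTop tendsto_const_nhds Real.tendsto_sqrt_atTop)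
      rw [add_zero] at e1
      have e2 : Tendsto (fun ρ : ℝ => ((g (t₀ + y / √ρ) : ℝ) : ℂ)) atTop (𝓝 ((g t₀ : ℝ) : ℂ)) :=
        ((Complex.continuous_ofReal.comp hgcont).tendsto t₀).comp e1
      have e3 := (sfE_cont.tendsto _).comp (sf_phase hf hf0 h0 y)
      exact e2.mul e3
  have hJ : Tendsto (fun K : ℝ => ∫ y in (-K)..K, (g t₀ : ℂ) * sfE (s * y ^ 2 / 2)) atTop
      (𝓝 ((g t₀ : ℂ) * ((1 + Complex.I) * (√Real.pi : ℝ) * ((1 / √s : ℝ) : ℂ)))) := by
    simp only [intervalIntegral.integral_const_mul]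
    exact (sf_gauss h2).const_mul _
  rw [Metric.tendsto_nhds]
  intro ε hε
  have hCK : Tendsto (fun K : ℝ => C / K) atTop (𝓝 0) :=
    Tendsto.div_atTop tendsto_const_nhds tendsto_id
  obtain ⟨K, hK1, hK2, hK3⟩ := (((Metric.tendsto_nhds.1 hJ) (ε / 3) (by linarith)).and
    (((Metric.tendsto_nhds.1 hCK) (ε / 3) (by linarith)).and (eventually_gt_atTop 0))).exists
  have hKρ : Tendsto (fun ρ : ℝ => K / √ρ) atTop (𝓝 0) :=
    Tendsto.div_atTop tendsto_const_nhds Real.tendsto_sqrt_atTop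
  filter_upwards [(Metric.tendsto_nhds.1 (inner K)) (ε / 3) (by linarith),
    (Metric.tendsto_nhds.1 hKρ) δ hδ, eventually_gt_atTop 0] with ρ h3 h4 hρ
  rw [dist_zero_right, Real.norm_eq_abs] at h4 hK2
  have h5 := key K ρ hK3 hρ ((le_abs_self _).trans h4.le)
  have h6 : C / K < ε / 3 := (le_abs_self _).trans_lt hK2
  rw [← dist_eq_norm] at h5
  calc dist ((√ρ : ℂ) * ∫ t, (g t : ℂ) * sfE (ρ * f t))
        ((g t₀ : ℂ) * ((1 + Complex.I) * (√Real.pi : ℝ) * ((1 / √s : ℝ) : ℂ)))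
      ≤ dist ((√ρ : ℂ) * ∫ t, (g t : ℂ) * sfE (ρ * f t))
          (∫ y in (-K)..K, (g (t₀ + y / √ρ) : ℂ) * sfE (ρ * f (t₀ + y / √ρ))) +
        dist (∫ y in (-K)..K, (g (t₀ + y / √ρ) : ℂ) * sfE (ρ * f (t₀ + y / √ρ)))
          (∫ y in (-K)..K, (g t₀ : ℂ) * sfE (s * y ^ 2 / 2)) +
        dist (∫ y in (-K)..K, (g t₀ : ℂ) * sfE (s * y ^ 2 / 2))
          ((g t₀ : ℂ) * ((1 + Complex.I) * (√Real.pi : ℝ) * ((1 / √s : ℝ) : ℂ))) := dist_triangle4 _ _ _ _
    _ < ε / 3 + ε / 3 + ε / 3 := by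
        apply add_lt_add (add_lt_add (lt_of_le_of_lt h5 h6) h3) hK1
    _ = ε := by ring

/-- the case of a positive second derivative -/
theorem sf_pos {f g : ℝ → ℝ} (hf : ContDiff ℝ 2 f) (hg : ContDiff ℝ 1 g)
    (hgc : HasCompactSupport g) {t₀ : ℝ} (h0 : deriv f t₀ = 0) (h2 : 0 < deriv (deriv f) t₀)
    (huniq : ∀ t ∈ tsupport g, deriv f t = 0 → t = t₀) :
    Tendsto (fun ρ : ℝ => (√ρ : ℂ) * (∫ t, (g t : ℂ) * sfE (ρ * f t)) -
      (1 + Complex.I) * (√Real.pi : ℝ) *
        ((g t₀ / √(deriv (deriv f) t₀) : ℝ) : ℂ) * sfE (ρ * f t₀))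
      atTop (𝓝 0) := by
  have hf1 : ContDiff ℝ 1 (deriv f) := by
    have h2 : ContDiff ℝ (1 + 1) f := by
      have : ((1 : WithTop ℕ∞) + 1) = 2 := by norm_num
      rw [this]
      exact hf
    exact h2.deriv'
  have hf2 : Continuous (deriv (deriv f)) := hf1.continuous_deriv (by norm_num)
  -- the neighbourhood
  have hev : ∀ᶠ t in 𝓝 t₀, deriv (deriv f) t₀ / 2 < deriv (deriv f) t :=
    hf2.continuousAt.eventually (lt_mem_nhds (by linarith))
  obtain ⟨δ, hδ, hball⟩ := Metric.eventually_nhds_iff.1 hev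
  have hlow : ∀ t ∈ Icc (t₀ - δ / 2) (t₀ + δ / 2), deriv (deriv f) t₀ / 2 ≤ deriv (deriv f) t := by
    intro t ht
    refine (hball ?_).le
    rw [Real.dist_eq, abs_lt]
    constructor <;> linarith [ht.1, ht.2]
  let χ : ContDiffBump t₀ := ⟨δ / 8, δ / 4, by linarith, by linarith⟩
  have hχC : ContDiff ℝ 1 (χ : ℝ → ℝ) := χ.contDiff
  set g₁ : ℝ → ℝ := fun t => g t * χ t with hg₁
  set g₂ : ℝ → ℝ := fun t => g t * (1 - χ t) with hg₂
  have hg₁C : ContDiff ℝ 1 g₁ := hg.mul hχC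
  have hg₂C : ContDiff ℝ 1 g₂ := hg.mul (contDiff_const.sub hχC)
  have hg₁c : HasCompactSupport g₁ := hgc.mul_right
  have hg₂c : HasCompactSupport g₂ := hgc.mul_right
  have hχ0 : χ t₀ = 1 := χ.one_of_mem_closedBall (Metric.mem_closedBall_self (by
    show (0:ℝ) ≤ δ / 8
    linarith))
  have hg₁t : g₁ t₀ = g t₀ := by
    simp only [hg₁, hχ0, mul_one]
  have hsupp : Function.support g₁ ⊆ Ioc (t₀ - δ / 2) (t₀ + δ / 2) := by
    intro t ht
    rw [Function.mem_support] at ht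
    have h3 : t ∈ Function.support (χ : ℝ → ℝ) := by
      rw [Function.mem_support]
      intro h
      apply ht
      simp [hg₁, h]
    rw [χ.support_eq, Metric.mem_ball, Real.dist_eq, abs_lt] at h3
    have h4 : χ.rOut = δ / 4 := rfl
    rw [h4] at h3
    exact ⟨by linarith [h3.1], by linarith [h3.2]⟩
  -- the part without stationary points
  have hns : ∀ t ∈ tsupport g₂, deriv f t ≠ 0 := by
    intro t ht h3
    have h4 : t ∈ tsupport g := by
      refine closure_mono (fun x hx => ?_) ht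
      rw [Function.mem_support] at hx ⊢
      intro h
      apply hx
      simp [hg₂, h]
    have h5 := huniq t h4 h3
    subst h5
    have h6 : (χ : ℝ → ℝ) =ᶠ[𝓝 t] 1 := χ.eventuallyEq_one
    have h7 : g₂ =ᶠ[𝓝 t] 0 := by
      filter_upwards [h6] with x hx
      simp [hg₂, hx]
    exact (notMem_tsupport_iff_eventuallyEq.2 h7) ht
  have hN := nonstat hf hg₂C hg₂c hns
  -- the main part, with the phase normalised
  set F : ℝ → ℝ := fun t => f t - f t₀ with hF
  have hFC : ContDiff ℝ 2 F := hf.sub contDiff_const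
  have hFd : deriv F = deriv f := by
    funext t
    simp [hF]
  have hcore := sf_core hFC hg₁C hg₁c (t₀ := t₀) (δ := δ / 2) (by linarith) (by simp [hF])
    (by rw [hFd]; exact h0) (by rw [hFd]; exact h2) (by rw [hFd]; exact hlow) hsupp
  rw [hFd, hg₁t] at hcore
  have hint : ∀ (h : ℝ → ℝ) (ρ : ℝ), Continuous h → HasCompactSupport h →
      Integrable (fun t => (h t : ℂ) * sfE (ρ * f t)) := by
    intro h ρ hc hs
    apply Continuous.integrable_of_hasCompactSupport
    · have := hf.continuous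
      have : Continuous fun t => sfE (ρ * f t) := sfE_cont.comp (by fun_prop)
      fun_prop
    · refine hs.mono fun t ht => ?_
      rw [Function.mem_support] at ht ⊢
      intro h0
      apply ht
      simp [h0]
  have hsplit : ∀ ρ : ℝ, (√ρ : ℂ) * (∫ t, (g t : ℂ) * sfE (ρ * f t)) -
      (1 + Complex.I) * (√Real.pi : ℝ) *
        ((g t₀ / √(deriv (deriv f) t₀) : ℝ) : ℂ) * sfE (ρ * f t₀) =
      sfE (ρ * f t₀) * ((√ρ : ℂ) * (∫ t, (g₁ t : ℂ) * sfE (ρ * F t)) -
        (g t₀ : ℂ) * ((1 + Complex.I) * (√Real.pi : ℝ) *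
        ((1 / √(deriv (deriv f) t₀) : ℝ) : ℂ))) +
      (√ρ : ℂ) * ∫ t, (g₂ t : ℂ) * Complex.exp (Complex.I * ((ρ * f t : ℝ) : ℂ)) := by
    intro ρ
    have e1 : ∫ t, (g t : ℂ) * sfE (ρ * f t) =
        (∫ t, (g₁ t : ℂ) * sfE (ρ * f t)) + ∫ t, (g₂ t : ℂ) * sfE (ρ * f t) := by
      rw [← integral_add (hint g₁ ρ hg₁C.continuous hg₁c) (hint g₂ ρ hg₂C.continuous hg₂c)]
      congr 1
      funext t
      simp only [hg₁, hg₂]
      push_cast
      ring
    have e2 : ∫ t, (g₁ t : ℂ) * sfE (ρ * f t) =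
        sfE (ρ * f t₀) * ∫ t, (g₁ t : ℂ) * sfE (ρ * F t) := by
      rw [← integral_const_mul]
      congr 1
      funext t
      have : ρ * f t = ρ * f t₀ + ρ * F t := by
        simp only [hF]
        ring
      rw [this, sfE_add]
      ring
    have e3 : ∫ t, (g₂ t : ℂ) * Complex.exp (Complex.I * ((ρ * f t : ℝ) : ℂ)) =
        ∫ t, (g₂ t : ℂ) * sfE (ρ * f t) := rfl
    rw [e1, e2, e3]
    push_cast
    ring
  simp only [hsplit]
  have h8 : Tendsto (fun ρ : ℝ => sfE (ρ * f t₀) * ((√ρ : ℂ) * (∫ t, (g₁ t : ℂ) * sfE (ρ * F t)) -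
        (g t₀ : ℂ) * ((1 + Complex.I) * (√Real.pi : ℝ) *
        ((1 / √(deriv (deriv f) t₀) : ℝ) : ℂ)))) atTop (𝓝 0) := by
    have h9 := hcore.sub_const ((g t₀ : ℂ) * ((1 + Complex.I) * (√Real.pi : ℝ) *
        ((1 / √(deriv (deriv f) t₀) : ℝ) : ℂ)))
    rw [sub_self] at h9
    refine squeeze_zero_norm (fun ρ => ?_) (tendsto_zero_iff_norm_tendsto_zero.1 h9)
    rw [norm_mul, sfE_norm, one_mul]
  have h10 := h8.add hN
  rw [add_zero] at h10
  exact h10

/-- TARGET 2: the leading term of stationary phase. -/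
theorem stat_phase {f g : ℝ → ℝ} (hf : ContDiff ℝ 2 f) (hg : ContDiff ℝ 1 g)
    (hgc : HasCompactSupport g) {t₀ : ℝ} (h0 : deriv f t₀ = 0) (h2 : deriv (deriv f) t₀ ≠ 0)
    (huniq : ∀ t ∈ tsupport g, deriv f t = 0 → t = t₀) :
    Tendsto (fun ρ : ℝ =>
      (√ρ : ℂ) * (∫ t, (g t : ℂ) * Complex.exp (Complex.I * ((ρ * f t : ℝ) : ℂ))) -
      (1 + SignType.sign (deriv (deriv f) t₀) * Complex.I) * (√Real.pi : ℝ) *
        ((g t₀ / √|deriv (deriv f) t₀| : ℝ) : ℂ) * Complex.exp (Complex.I * ((ρ * f t₀ : ℝ) : ℂ)))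
      atTop (𝓝 0) := by
  rcases lt_or_gt_of_ne h2 with hneg | hpos
  · -- negative second derivative: conjugate
    have hFd : deriv (fun t => -f t) = fun t => -deriv f t := by
      funext t
      exact deriv.fun_neg
    have hFdd : deriv (deriv (fun t => -f t)) t₀ = -deriv (deriv f) t₀ := by
      rw [hFd]
      exact deriv.fun_neg
    have h3 := sf_pos (f := fun t => -f t) hf.neg hg hgc (t₀ := t₀)
      (by rw [hFd]; simp [h0]) (by rw [hFdd]; linarith) (by
        intro t ht h4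
        rw [hFd] at h4
        exact huniq t ht (neg_eq_zero.1 h4))
    have h4 := (Complex.continuous_conj.tendsto 0).comp h3
    rw [map_zero] at h4
    refine h4.congr fun ρ => ?_
    simp only [Function.comp]
    rw [hFdd, sign_neg hneg, abs_of_neg hneg, map_sub, map_mul, map_mul, map_mul, map_mul, map_add,
      Complex.conj_ofReal, Complex.conj_ofReal, Complex.conj_ofReal, Complex.conj_I, map_one,
      ← integral_conj]
    have e1 : ∀ t, conj ((g t : ℂ) * sfE (ρ * -f t)) = (g t : ℂ) * sfE (ρ * f t) := by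
      intro t
      rw [map_mul, Complex.conj_ofReal, mul_neg, sfE_neg, Complex.conj_conj]
    have e2 : conj (sfE (ρ * -f t₀)) = sfE (ρ * f t₀) := by
      rw [mul_neg, sfE_neg, Complex.conj_conj]
    simp only [e1]
    rw [e2]
    unfold sfE
    norm_num
  · have h3 := sf_pos hf hg hgc h0 hpos huniq
    refine h3.congr fun ρ => ?_
    rw [sign_pos hpos, abs_of_pos hpos]
    unfold sfE
    norm_num

end Pool.Agent.Helper327_Drum
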