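import Pool.Agent.Helper327_Drum.BDefs
import Pool.Agent.Helper327_Drum.Fin.P3
import Pool.Agent.Helper327_Drum.Fin.P7b

set_option autoImplicit false
open MeasureTheory Set Filter Topology ComplexConjugate

namespace Pool.Agent.Helper327_Drum

theorem cb_ee_re (θ : ℝ) : (ee θ).re = Real.cos θ := Complex.exp_ofReal_mul_I_re θ
theorem cb_ee_im (θ : ℝ) : (ee θ).im = Real.sin θ := Complex.exp_ofReal_mul_I_im θ
theorem cb_Iee_re (θ : ℝ) : (Complex.I * ee θ).re = -Real.sin θ := by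
  rw [Complex.mul_re, cb_ee_re, cb_ee_im]; simp
theorem cb_Iee_im (θ : ℝ) : (Complex.I * ee θ).im = Real.cos θ := by
  rw [Complex.mul_im, cb_ee_re, cb_ee_im]; simp
theorem cb_cx_re (q e : ℂ) (ψ : ℝ → ℝ) (t : ℝ) : (cx q e ψ t).re = q.re + t * e.re - ψ t * e.im := by
  simp [cx]; ring
theorem cb_cx_im (q e : ℂ) (ψ : ℝ → ℝ) (t : ℝ) : (cx q e ψ t).im = q.im + t * e.im + ψ t * e.re := by
  simp [cx]; ring
theorem cb_cv_re (e : ℂ) (ψ : ℝ → ℝ) (t : ℝ) : (cv e ψ t).re = e.re - deriv ψ t * e.im := by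
  simp [cv]
theorem cb_cv_im (e : ℂ) (ψ : ℝ → ℝ) (t : ℝ) : (cv e ψ t).im = e.im + deriv ψ t * e.re := by
  simp [cv]

/-- `a θ = ip e (ee θ)` -/
noncomputable def cbA (e : ℂ) (θ : ℝ) : ℝ := e.re * Real.cos θ + e.im * Real.sin θ
/-- `b θ = ip (I e) (ee θ)` -/
noncomputable def cbB (e : ℂ) (θ : ℝ) : ℝ := -e.im * Real.cos θ + e.re * Real.sin θ

theorem cbA_deriv (e : ℂ) (θ : ℝ) : HasDerivAt (cbA e) (-cbB e θ) θ := by
  have h := ((Real.hasDerivAt_cos θ).const_mul e.re).add ((Real.hasDerivAt_sin θ).const_mul e.im)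
  exact h.congr_deriv (by unfold cbB; ring)

theorem cbB_deriv (e : ℂ) (θ : ℝ) : HasDerivAt (cbB e) (cbA e θ) θ := by
  have h := ((Real.hasDerivAt_cos θ).const_mul (-e.im)).add ((Real.hasDerivAt_sin θ).const_mul e.re)
  exact h.congr_deriv (by unfold cbA; ring)

theorem cbA_smooth (e : ℂ) : ContDiff ℝ 1 (cbA e) :=
  (contDiff_const.mul Real.contDiff_cos).add (contDiff_const.mul Real.contDiff_sin)

theorem cbB_smooth (e : ℂ) : ContDiff ℝ 1 (cbB e) :=
  (contDiff_const.mul Real.contDiff_cos).add (contDiff_const.mul Real.contDiff_sin)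

theorem cb_sq (e : ℂ) (h : ‖e‖ = 1) (θ : ℝ) : cbA e θ ^ 2 + cbB e θ ^ 2 = 1 := by
  have h1 : e.re ^ 2 + e.im ^ 2 = 1 := by
    have := Complex.sq_norm e
    rw [h, Complex.normSq_apply] at this
    nlinarith
  have h2 := Real.sin_sq_add_cos_sq θ
  unfold cbA cbB
  nlinarith [h1, h2, mul_comm (e.re ^ 2 + e.im ^ 2) (Real.sin θ ^ 2 + Real.cos θ ^ 2)]

theorem cb_f (q e : ℂ) (ψ : ℝ → ℝ) (t θ : ℝ) :
    ip (cx q e ψ t) (ee θ) = cbA q θ + t * cbA e θ + ψ t * cbB e θ := by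
  unfold ip cbA cbB
  rw [cb_cx_re, cb_cx_im, cb_ee_re, cb_ee_im]; ring

theorem cb_g1 (q e : ℂ) (ψ : ℝ → ℝ) (t θ : ℝ) :
    ip (cx q e ψ t) (Complex.I * ee θ) = -cbB q θ - t * cbB e θ + ψ t * cbA e θ := by
  unfold ip cbA cbB
  rw [cb_cx_re, cb_cx_im, cb_Iee_re, cb_Iee_im]; ring

theorem cb_v0 (e : ℂ) (ψ : ℝ → ℝ) (t θ : ℝ) :
    ip (cv e ψ t) (ee θ) = cbA e θ + deriv ψ t * cbB e θ := by
  unfold ip cbA cbB
  rw [cb_cv_re, cb_cv_im, cb_ee_re, cb_ee_im]; ring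

theorem cb_v1 (e : ℂ) (ψ : ℝ → ℝ) (t θ : ℝ) :
    ip (cv e ψ t) (Complex.I * ee θ) = - cbB e θ + deriv ψ t * cbA e θ := by
  unfold ip cbA cbB
  rw [cb_cv_re, cb_cv_im, cb_Iee_re, cb_Iee_im]; ring

theorem cb_recon (x : ℂ) (θ : ℝ) :
    ((ip x (ee θ) : ℝ) + (ip x (Complex.I * ee θ) : ℝ) * Complex.I) * ee θ = x := by
  have h2 := Real.sin_sq_add_cos_sq θ
  apply Complex.ext
  · rw [Complex.mul_re]
    simp only [Complex.add_re, Complex.ofReal_re, Complex.mul_re, Complex.I_re, Complex.I_im,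
      Complex.ofReal_im, Complex.add_im, Complex.mul_im, cb_ee_re, cb_ee_im]
    unfold ip
    rw [cb_Iee_re, cb_Iee_im, cb_ee_re, cb_ee_im]
    linear_combination x.re * h2
  · rw [Complex.mul_im]
    simp only [Complex.add_re, Complex.ofReal_re, Complex.mul_re, Complex.I_re, Complex.I_im,
      Complex.ofReal_im, Complex.add_im, Complex.mul_im, cb_ee_re, cb_ee_im]
    unfold ip
    rw [cb_Iee_re, cb_Iee_im, cb_ee_re, cb_ee_im]
    linear_combination x.im * h2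

theorem cb_box {q e : ℂ} (he : ‖e‖ = 1) {ψ : ℝ → ℝ} {δ t : ℝ} (h : cx q e ψ t ∈ box q e δ) :
    |t| < δ := by
  obtain ⟨t', s', h1, h2, h3⟩ := h
  have he0 : e ≠ 0 := by
    intro h0; rw [h0] at he; simp at he
  unfold cx at h3
  have h4 := mul_right_cancel₀ he0 (add_left_cancel h3)
  have h5 := congrArg Complex.re h4
  simp at h5
  rw [h5]; exact h1

theorem cb_sign {x y : ℝ} (h : 0 < x * y) : SignType.sign x = SignType.sign y := by
  rcases lt_trichotomy y 0 with hy | hy | hy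
  · have : x < 0 := by
      by_contra hcon
      have hcon' := not_lt.1 hcon
      nlinarith
    rw [sign_neg hy, sign_neg this]
  · rw [hy] at h; simp at h
  · have : 0 < x := by
      by_contra hcon
      have hcon' := not_lt.1 hcon
      nlinarith
    rw [sign_pos hy, sign_pos this]

theorem cb_cx_smooth (q e : ℂ) {ψ : ℝ → ℝ} {n : WithTop ℕ∞} (hψ : ContDiff ℝ n ψ) :
    ContDiff ℝ n (cx q e ψ) := by
  unfold cx
  have h1 : ContDiff ℝ n (fun t : ℝ => (t : ℂ)) := Complex.ofRealCLM.contDiff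
  have h2 : ContDiff ℝ n (fun t : ℝ => ((ψ t : ℝ) : ℂ)) := Complex.ofRealCLM.contDiff.comp hψ
  exact contDiff_const.add ((h1.add (h2.mul contDiff_const)).mul contDiff_const)

/-- the implicit function -/
theorem cb_implicit {e : ℂ} {θ₀ : ℝ} {ψ : ℝ → ℝ} (hψ : ContDiff ℝ 2 ψ)
    (hb : cbB e θ₀ ≠ 0) (h1 : cbA e θ₀ + deriv ψ 0 * cbB e θ₀ = 0)
    (h2 : deriv (deriv ψ) 0 ≠ 0) :
    ∃ T : ℝ → ℝ, T θ₀ = 0 ∧ ContDiffAt ℝ 1 T θ₀ ∧
      ∀ᶠ θ in 𝓝 θ₀, cbA e θ + deriv ψ (T θ) * cbB e θ = 0 := by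
  have hφ : ContDiff ℝ 1 (deriv ψ) := by
    have : ContDiff ℝ (1 + 1) ψ := by norm_num; exact hψ
    exact (contDiff_succ_iff_deriv.1 this).2.2
  have hd : HasDerivAt (deriv ψ) (deriv (deriv ψ) 0) 0 :=
    (hφ.differentiable (by norm_num)).differentiableAt.hasDerivAt
  have hs : HasStrictDerivAt (deriv ψ) (deriv (deriv ψ) 0) 0 :=
    hφ.contDiffAt.hasStrictDerivAt' hd (by norm_num)
  have hF : HasFDerivAt (deriv ψ)
      ((ContinuousLinearEquiv.unitsEquivAut ℝ (Units.mk0 (deriv (deriv ψ) 0) h2) : ℝ ≃L[ℝ] ℝ) :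
        ℝ →L[ℝ] ℝ) 0 := (hs.hasStrictFDerivAt_equiv h2).hasFDerivAt
  have hC : ContDiffAt ℝ 1 (deriv ψ) 0 := hφ.contDiffAt
  set L := hC.localInverse hF (by norm_num) with hL
  have hL1 : ContDiffAt ℝ 1 L (deriv ψ 0) := hC.to_localInverse hF (by norm_num)
  have hL0 : L (deriv ψ 0) = 0 := hC.localInverse_apply_image hF (by norm_num)
  have hLr : ∀ᶠ y in 𝓝 (deriv ψ 0), deriv ψ (L y) = y :=
    (hC.hasStrictFDerivAt' hF (by norm_num)).eventually_right_inverse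
  have hG0 : -cbA e θ₀ / cbB e θ₀ = deriv ψ 0 := by
    field_simp; linarith
  have hGc : ContDiffAt ℝ 1 (fun θ => -cbA e θ / cbB e θ) θ₀ :=
    (cbA_smooth e).contDiffAt.neg.div (cbB_smooth e).contDiffAt hb
  refine ⟨fun θ => L (-cbA e θ / cbB e θ), ?_, ?_, ?_⟩
  · simp only [hG0, hL0]
  · have : ContDiffAt ℝ 1 L (-cbA e θ₀ / cbB e θ₀) := by rw [hG0]; exact hL1
    exact ContDiffAt.comp θ₀ this hGc
  · have hbe : ∀ᶠ θ in 𝓝 θ₀, cbB e θ ≠ 0 :=
      (cbB_smooth e).continuous.continuousAt.eventually_ne hb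
    have ht : Tendsto (fun θ => -cbA e θ / cbB e θ) (𝓝 θ₀) (𝓝 (deriv ψ 0)) := by
      have := hGc.continuousAt.tendsto
      rwa [hG0] at this
    filter_upwards [ht.eventually hLr, hbe] with θ hθ hθ'
    rw [hθ]; field_simp; ring

/-- TARGET: the contribution of one critical point. -/
theorem crit_branch {Ω γ : Set ℂ} {q e : ℂ} {δ θ₀ : ℝ} {ψ : ℝ → ℝ} (C : Chart Ω γ q e δ ψ)
    (h1 : ip (cv e ψ 0) (ee θ₀) = 0) (h2 : deriv (deriv ψ) 0 ≠ 0) :
    ∃ δ₀ > 0, δ₀ ≤ δ ∧ ∀ δ' > 0, δ' ≤ δ₀ → ∃ η > 0, ∃ (H : ℝ → ℝ) (ε : ℂ), ε ≠ 0 ∧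
      ContDiffOn ℝ 2 H (Ioo (θ₀ - η) (θ₀ + η)) ∧
      (∀ θ ∈ Ioo (θ₀ - η) (θ₀ + η), H θ + deriv (deriv H) θ ≠ 0 ∧
        ((H θ : ℂ) + deriv H θ * Complex.I) * ee θ ∈ γ ∩ box q e δ') ∧
      ∀ χ : ℂ → ℝ, ContDiff ℝ 1 χ → HasCompactSupport χ → tsupport χ ⊆ box q e δ₀ →
        (∀ x ∈ γ ∩ box q e δ', χ x = 1) → ∀ θ ∈ Ioo (θ₀ - η) (θ₀ + η),
        Tendsto (fun ρ : ℝ => (√ρ : ℂ) * (∫ t, (χ (cx q e ψ t) : ℂ) *
            Complex.exp (Complex.I * ((ρ * ip (cx q e ψ t) (ee θ) : ℝ) : ℂ)) *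
            (ip (cv e ψ t) (Complex.I * ee θ) : ℝ)) -
          ε * (√|H θ + deriv (deriv H) θ| : ℝ) * Complex.exp (Complex.I * ((ρ * H θ : ℝ) : ℂ)))
          atTop (𝓝 0) := by
  have hφ : ContDiff ℝ 1 (deriv ψ) := by
    have : ContDiff ℝ (1 + 1) ψ := by norm_num; exact C.smooth
    exact (contDiff_succ_iff_deriv.1 this).2.2
  have hφ' : Continuous (deriv (deriv ψ)) := hφ.continuous_deriv (by norm_num)
  have hψd : ∀ t, HasDerivAt ψ (deriv ψ t) t := fun t =>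
    (C.smooth.differentiable (by norm_num)).differentiableAt.hasDerivAt
  have hφd : ∀ t, HasDerivAt (deriv ψ) (deriv (deriv ψ) t) t := fun t =>
    (hφ.differentiable (by norm_num)).differentiableAt.hasDerivAt
  rw [cb_v0] at h1
  have hsq := cb_sq e C.unit
  have hb0 : cbB e θ₀ ≠ 0 := by
    intro h
    have ha : cbA e θ₀ = 0 := by rw [h] at h1; linarith
    have := hsq θ₀
    rw [h, ha] at this; norm_num at this
  obtain ⟨T, hT0, hTc, hTe⟩ := cb_implicit C.smooth hb0 h1 h2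
  have hpos : ∀ᶠ t in 𝓝 (0:ℝ), 0 < deriv (deriv ψ) t * deriv (deriv ψ) 0 := by
    have hc : ContinuousAt (fun t => deriv (deriv ψ) t * deriv (deriv ψ) 0) 0 :=
      (hφ'.mul continuous_const).continuousAt
    exact hc.eventually (lt_mem_nhds (mul_self_pos.2 h2))
  obtain ⟨r, hr, hrp⟩ := Metric.eventually_nhds_iff.1 hpos
  refine ⟨min r δ, lt_min hr C.pos, min_le_right _ _, ?_⟩
  intro δ' hδ' hle
  have hδr : δ' ≤ r := hle.trans (min_le_left _ _)
  have hδδ : δ' ≤ δ := hle.trans (min_le_right _ _)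
  have hev : ∀ᶠ θ in 𝓝 θ₀, ContDiffAt ℝ 1 T θ ∧
      (cbA e θ + deriv ψ (T θ) * cbB e θ = 0) ∧ |T θ| < δ' ∧ |ψ (T θ)| < δ' ∧
      0 < cbB e θ * cbB e θ₀ := by
    have e1 : ∀ᶠ θ in 𝓝 θ₀, ContDiffAt ℝ 1 T θ := hTc.eventually (by norm_num)
    have e2 : ∀ᶠ θ in 𝓝 θ₀, |T θ| < δ' := by
      have hc : ContinuousAt (fun θ => |T θ|) θ₀ := hTc.continuousAt.abs
      exact hc.eventually (gt_mem_nhds (by simp [hT0, hδ']))
    have e3 : ∀ᶠ θ in 𝓝 θ₀, |ψ (T θ)| < δ' := by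
      have hc : ContinuousAt (fun θ => |ψ (T θ)|) θ₀ :=
        (C.smooth.continuous.continuousAt.comp hTc.continuousAt).abs
      exact hc.eventually (gt_mem_nhds (by simp [hT0, hδ', C.zero]))
    have e4 : ∀ᶠ θ in 𝓝 θ₀, 0 < cbB e θ * cbB e θ₀ := by
      have hc : ContinuousAt (fun θ => cbB e θ * cbB e θ₀) θ₀ :=
        ((cbB_smooth e).continuous.mul continuous_const).continuousAt
      exact hc.eventually (lt_mem_nhds (mul_self_pos.2 hb0))
    filter_upwards [e1, hTe, e2, e3, e4] with θ a1 a2 a3 a4 a5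
    exact ⟨a1, a2, a3, a4, a5⟩
  obtain ⟨η, hη, hJ0⟩ := Metric.eventually_nhds_iff.1 hev
  have hJ : ∀ θ ∈ Ioo (θ₀ - η) (θ₀ + η), ContDiffAt ℝ 1 T θ ∧
      (cbA e θ + deriv ψ (T θ) * cbB e θ = 0) ∧ |T θ| < δ' ∧ |ψ (T θ)| < δ' ∧
      0 < cbB e θ * cbB e θ₀ := by
    intro θ hθ
    apply hJ0
    rw [Real.dist_eq, abs_lt]
    constructor <;> linarith [hθ.1, hθ.2]
  clear hJ0 hev
  set H : ℝ → ℝ := fun θ => cbA q θ + T θ * cbA e θ + ψ (T θ) * cbB e θ with hH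
  set H1 : ℝ → ℝ := fun θ => -cbB q θ - T θ * cbB e θ + ψ (T θ) * cbA e θ with hH1
  have hTd : ∀ θ ∈ Ioo (θ₀ - η) (θ₀ + η), HasDerivAt T (deriv T θ) θ := fun θ hθ =>
    ((hJ θ hθ).1.differentiableAt (by norm_num)).hasDerivAt
  have hψT : ∀ θ ∈ Ioo (θ₀ - η) (θ₀ + η),
      HasDerivAt (fun θ => ψ (T θ)) (deriv ψ (T θ) * deriv T θ) θ := fun θ hθ =>
    (hψd (T θ)).comp θ (hTd θ hθ)
  have hφT : ∀ θ ∈ Ioo (θ₀ - η) (θ₀ + η),
      HasDerivAt (fun θ => deriv ψ (T θ)) (deriv (deriv ψ) (T θ) * deriv T θ) θ := fun θ hθ =>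
    (hφd (T θ)).comp θ (hTd θ hθ)
  have hHd : ∀ θ ∈ Ioo (θ₀ - η) (θ₀ + η), HasDerivAt H (H1 θ) θ := by
    intro θ hθ
    have k := ((cbA_deriv q θ).add ((hTd θ hθ).mul (cbA_deriv e θ))).add
      ((hψT θ hθ).mul (cbB_deriv e θ))
    refine k.congr_deriv ?_
    have := (hJ θ hθ).2.1
    simp only [hH1]
    linear_combination deriv T θ * this
  have hH1d : ∀ θ ∈ Ioo (θ₀ - η) (θ₀ + η),
      HasDerivAt H1 (-H θ + deriv T θ * (-cbB e θ + deriv ψ (T θ) * cbA e θ)) θ := by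
    intro θ hθ
    have k := ((cbB_deriv q θ).neg.sub ((hTd θ hθ).mul (cbB_deriv e θ))).add
      ((hψT θ hθ).mul (cbA_deriv e θ))
    refine k.congr_deriv ?_
    simp only [hH]
    ring
  have hopen : IsOpen (Ioo (θ₀ - η) (θ₀ + η)) := isOpen_Ioo
  have hdH : ∀ θ ∈ Ioo (θ₀ - η) (θ₀ + η), deriv H θ = H1 θ := fun θ hθ => (hHd θ hθ).deriv
  have hddH : ∀ θ ∈ Ioo (θ₀ - η) (θ₀ + η), H θ + deriv (deriv H) θ =
      deriv T θ * (-cbB e θ + deriv ψ (T θ) * cbA e θ) := by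
    intro θ hθ
    have : deriv H =ᶠ[𝓝 θ] H1 := by
      filter_upwards [hopen.mem_nhds hθ] with x hx using hdH x hx
    rw [this.deriv_eq, (hH1d θ hθ).deriv]; ring
  have hkey : ∀ θ ∈ Ioo (θ₀ - η) (θ₀ + η),
      deriv (deriv ψ) (T θ) * cbB e θ * deriv T θ = -(-cbB e θ + deriv ψ (T θ) * cbA e θ) := by
    intro θ hθ
    have k := (cbA_deriv e θ).add ((hφT θ hθ).mul (cbB_deriv e θ))
    have k0 : HasDerivAt (fun _ : ℝ => (0:ℝ)) 0 θ := hasDerivAt_const θ 0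
    have heq : (fun _ : ℝ => (0:ℝ)) =ᶠ[𝓝 θ]
        (cbA e + (fun θ => deriv ψ (T θ)) * cbB e) := by
      filter_upwards [hopen.mem_nhds hθ] with x hx
      have := (hJ x hx).2.1
      simp only [Pi.add_apply, Pi.mul_apply]
      linarith
    have := (k.congr_of_eventuallyEq heq).unique k0
    linarith
  have hv : ∀ θ ∈ Ioo (θ₀ - η) (θ₀ + η), -cbB e θ + deriv ψ (T θ) * cbA e θ =
      -cbB e θ * (1 + deriv ψ (T θ) ^ 2) := by
    intro θ hθ
    have := (hJ θ hθ).2.1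
    linear_combination deriv ψ (T θ) * this
  have hbne : ∀ θ ∈ Ioo (θ₀ - η) (θ₀ + η), cbB e θ ≠ 0 := by
    intro θ hθ h
    have := (hJ θ hθ).2.2.2.2
    rw [h] at this; simp at this
  have hψpp : ∀ t, |t| < r → 0 < deriv (deriv ψ) t * deriv (deriv ψ) 0 := by
    intro t ht
    apply hrp
    rw [Real.dist_eq]; simpa using ht
  have hψne : ∀ t, |t| < r → deriv (deriv ψ) t ≠ 0 := by
    intro t ht h
    have := hψpp t ht
    rw [h] at this; simp at this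
  have hTr : ∀ θ ∈ Ioo (θ₀ - η) (θ₀ + η), |T θ| < r := fun θ hθ =>
    lt_of_lt_of_le (hJ θ hθ).2.2.1 hδr
  have hvne : ∀ θ ∈ Ioo (θ₀ - η) (θ₀ + η), -cbB e θ + deriv ψ (T θ) * cbA e θ ≠ 0 := by
    intro θ hθ
    rw [hv θ hθ]
    have := hbne θ hθ
    have h2 : 1 + deriv ψ (T θ) ^ 2 ≠ 0 := by positivity
    exact mul_ne_zero (neg_ne_zero.2 this) h2
  have hTne : ∀ θ ∈ Ioo (θ₀ - η) (θ₀ + η), deriv T θ ≠ 0 := by
    intro θ hθ h
    have := hkey θ hθ
    rw [h] at this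
    apply hvne θ hθ
    linarith
  set σ : ℝ := if 0 < cbB e θ₀ then -1 else 1 with hσ
  have hvσ : ∀ θ ∈ Ioo (θ₀ - η) (θ₀ + η), -cbB e θ + deriv ψ (T θ) * cbA e θ =
      σ * |-cbB e θ + deriv ψ (T θ) * cbA e θ| := by
    intro θ hθ
    have h5 := (hJ θ hθ).2.2.2.2
    rw [hv θ hθ]
    have h6 : 0 < 1 + deriv ψ (T θ) ^ 2 := by positivity
    rw [abs_mul, abs_of_pos h6, abs_neg]
    by_cases hp : 0 < cbB e θ₀
    · have : 0 < cbB e θ := by
        by_contra hcon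
        have hcon' := not_lt.1 hcon
        nlinarith
      rw [hσ, if_pos hp, abs_of_pos this]; ring
    · have hp' : cbB e θ₀ < 0 := lt_of_le_of_ne (not_lt.1 hp) hb0
      have : cbB e θ < 0 := by
        by_contra hcon
        have hcon' := not_lt.1 hcon
        nlinarith
      rw [hσ, if_neg hp, abs_of_neg this]; ring
  refine ⟨η, hη, H, (1 + (SignType.sign (deriv (deriv ψ) 0 * cbB e θ₀) : ℂ) * Complex.I) *
    (√Real.pi : ℝ) * (σ : ℂ), ?_, ?_, ?_, ?_⟩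
  · have hσ0 : (σ : ℂ) ≠ 0 := by
      rw [hσ]; split_ifs <;> norm_num
    have hpi : ((√Real.pi : ℝ) : ℂ) ≠ 0 := by
      have : (0:ℝ) < √Real.pi := Real.sqrt_pos.2 Real.pi_pos
      exact_mod_cast this.ne'
    refine mul_ne_zero (mul_ne_zero ?_ hpi) hσ0
    intro h
    have := congrArg Complex.re h
    generalize SignType.sign (deriv (deriv ψ) 0 * cbB e θ₀) = sg at this
    cases sg <;> simp at this
  · have h2' : (2 : WithTop ℕ∞) = 1 + 1 := by norm_num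
    rw [h2', contDiffOn_succ_iff_deriv_of_isOpen hopen]
    refine ⟨fun θ hθ => (hHd θ hθ).differentiableAt.differentiableWithinAt, by simp, ?_⟩
    have hTcd : ContDiffOn ℝ 1 T (Ioo (θ₀ - η) (θ₀ + η)) := fun θ hθ =>
      (hJ θ hθ).1.contDiffWithinAt
    have hψc : ContDiff ℝ 1 ψ := C.smooth.of_le (by norm_num)
    have hH1c : ContDiffOn ℝ 1 H1 (Ioo (θ₀ - η) (θ₀ + η)) :=
      ((cbB_smooth q).neg.contDiffOn.sub (hTcd.mul (cbB_smooth e).contDiffOn)).add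
        ((hψc.comp_contDiffOn hTcd).mul (cbA_smooth e).contDiffOn)
    exact hH1c.congr hdH
  · intro θ hθ
    refine ⟨?_, ?_⟩
    · rw [hddH θ hθ]
      exact mul_ne_zero (hTne θ hθ) (hvne θ hθ)
    · have hx : ((H θ : ℂ) + deriv H θ * Complex.I) * ee θ = cx q e ψ (T θ) := by
        rw [← cb_recon (cx q e ψ (T θ)) θ, cb_f, cb_g1, hdH θ hθ]
      rw [hx]
      have hj := hJ θ hθ
      refine ⟨?_, T θ, ψ (T θ), hj.2.2.1, hj.2.2.2.1, rfl⟩
      unfold cx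
      rw [C.memγ _ _ (lt_of_lt_of_le hj.2.2.1 hδδ) (lt_of_lt_of_le hj.2.2.2.1 hδδ)]
  · intro χ hχ hχc hχs hχ1 θ hθ
    have hj := hJ θ hθ
    have hψc : ContDiff ℝ 1 ψ := C.smooth.of_le (by norm_num)
    have hcx : ContDiff ℝ 1 (cx q e ψ) := cb_cx_smooth q e hψc
    have hff : (fun t => ip (cx q e ψ t) (ee θ)) =
        fun t => cbA q θ + t * cbA e θ + ψ t * cbB e θ := funext fun t => cb_f q e ψ t θ
    have hf : ContDiff ℝ 2 (fun t => ip (cx q e ψ t) (ee θ)) := by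
      rw [hff]
      exact (contDiff_const.add (contDiff_id.mul contDiff_const)).add
        (C.smooth.mul contDiff_const)
    have hdf : deriv (fun t => ip (cx q e ψ t) (ee θ)) =
        fun t => cbA e θ + deriv ψ t * cbB e θ := by
      rw [hff]
      funext t
      have k := (((hasDerivAt_id t).mul_const (cbA e θ)).const_add (cbA q θ)).add
        ((hψd t).mul_const (cbB e θ))
      have k' : HasDerivAt (fun t => cbA q θ + t * cbA e θ + ψ t * cbB e θ)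
          (cbA e θ + deriv ψ t * cbB e θ) t := by
        rw [one_mul] at k
        exact k
      exact k'.deriv
    have hddf : ∀ t, deriv (deriv (fun t => ip (cx q e ψ t) (ee θ))) t =
        deriv (deriv ψ) t * cbB e θ := by
      intro t
      rw [hdf]
      exact (((hφd t).mul_const (cbB e θ)).const_add (cbA e θ)).deriv
    have hvfun : (fun t => ip (cv e ψ t) (Complex.I * ee θ)) =
        fun t => -cbB e θ + deriv ψ t * cbA e θ := funext fun t => cb_v1 e ψ t θ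
    have hvs : ContDiff ℝ 1 (fun t => ip (cv e ψ t) (Complex.I * ee θ)) := by
      rw [hvfun]
      exact contDiff_const.add (hφ.mul contDiff_const)
    have hg : ContDiff ℝ 1 (fun t => χ (cx q e ψ t) * ip (cv e ψ t) (Complex.I * ee θ)) :=
      (hχ.comp hcx).mul hvs
    have hsupp : tsupport (fun t => χ (cx q e ψ t) * ip (cv e ψ t) (Complex.I * ee θ)) ⊆
        {t | |t| < min r δ} := by
      have k1 : tsupport (fun t => χ (cx q e ψ t) * ip (cv e ψ t) (Complex.I * ee θ)) ⊆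
          (cx q e ψ) ⁻¹' (tsupport χ) := by
        refine closure_minimal ?_ ((isClosed_tsupport χ).preimage hcx.continuous)
        intro t ht
        apply subset_tsupport
        intro h0
        apply ht
        simp only [h0, zero_mul]
      intro t ht
      exact cb_box C.unit (hχs (k1 ht))
    have hgc : HasCompactSupport (fun t => χ (cx q e ψ t) * ip (cv e ψ t) (Complex.I * ee θ)) := by
      refine HasCompactSupport.of_support_subset_isCompact (K := Icc (-(min r δ)) (min r δ))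
        isCompact_Icc ?_
      intro t ht
      have := hsupp (subset_tsupport _ ht)
      exact ⟨(abs_lt.1 this).1.le, (abs_lt.1 this).2.le⟩
    have h0 : deriv (fun t => ip (cx q e ψ t) (ee θ)) (T θ) = 0 := by
      rw [hdf]; exact hj.2.1
    have hbθ := hbne θ hθ
    have h22 : deriv (deriv (fun t => ip (cx q e ψ t) (ee θ))) (T θ) ≠ 0 := by
      rw [hddf]
      exact mul_ne_zero (hψne _ (hTr θ hθ)) hbθ
    have huniq : ∀ t ∈ tsupport (fun t => χ (cx q e ψ t) * ip (cv e ψ t) (Complex.I * ee θ)),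
        deriv (fun t => ip (cx q e ψ t) (ee θ)) t = 0 → t = T θ := by
      intro t ht ht0
      have htr : |t| < r := lt_of_lt_of_le (hsupp ht) (min_le_left _ _)
      have hTθr := hTr θ hθ
      rw [hdf] at ht0
      have heq : deriv ψ t = deriv ψ (T θ) := by
        have e1 := hj.2.1
        have e2 : cbA e θ + deriv ψ t * cbB e θ = 0 := ht0
        apply mul_right_cancel₀ hbθ
        linarith
      by_contra hne
      rcases lt_or_gt_of_ne hne with hlt | hgt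
      · obtain ⟨c, hc, hc0⟩ := exists_deriv_eq_zero hlt hφ.continuous.continuousOn heq
        exact hψne c (abs_lt.2 ⟨by linarith [(abs_lt.1 htr).1, hc.1],
          by linarith [(abs_lt.1 hTθr).2, hc.2]⟩) hc0
      · obtain ⟨c, hc, hc0⟩ := exists_deriv_eq_zero hgt hφ.continuous.continuousOn heq.symm
        exact hψne c (abs_lt.2 ⟨by linarith [(abs_lt.1 hTθr).1, hc.1],
          by linarith [(abs_lt.1 htr).2, hc.2]⟩) hc0
    have key := stat_phase hf hg hgc h0 h22 huniq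
    have hχT : χ (cx q e ψ (T θ)) = 1 := by
      apply hχ1
      refine ⟨?_, T θ, ψ (T θ), hj.2.2.1, hj.2.2.2.1, rfl⟩
      unfold cx
      rw [C.memγ _ _ (lt_of_lt_of_le hj.2.2.1 hδδ) (lt_of_lt_of_le hj.2.2.2.1 hδδ)]
    have hHθ : ip (cx q e ψ (T θ)) (ee θ) = H θ := cb_f q e ψ (T θ) θ
    have hR : χ (cx q e ψ (T θ)) * ip (cv e ψ (T θ)) (Complex.I * ee θ) /
        √|deriv (deriv (fun t => ip (cx q e ψ t) (ee θ))) (T θ)| =
        σ * √|H θ + deriv (deriv H) θ| := by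
      rw [hχT, one_mul, cb_v1, hddf, hddH θ hθ]
      have k1 := hkey θ hθ
      have k2 := hvσ θ hθ
      have hne : deriv (deriv ψ) (T θ) * cbB e θ ≠ 0 := mul_ne_zero (hψne _ (hTr θ hθ)) hbθ
      generalize -cbB e θ + deriv ψ (T θ) * cbA e θ = v at k1 k2 ⊢
      generalize deriv (deriv ψ) (T θ) * cbB e θ = w at k1 hne ⊢
      have hT' : deriv T θ = -v / w := by
        field_simp; linarith
      rw [hT']
      have : |(-v / w) * v| = |v| ^ 2 / |w| := by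
        rw [abs_mul, abs_div, abs_neg]; ring
      rw [this, Real.sqrt_div (by positivity), Real.sqrt_sq (abs_nonneg v)]
      rw [← mul_div_assoc, ← k2]
    have hsg : SignType.sign (deriv (deriv (fun t => ip (cx q e ψ t) (ee θ))) (T θ)) =
        SignType.sign (deriv (deriv ψ) 0 * cbB e θ₀) := by
      apply cb_sign
      rw [hddf]
      have a1 := hψpp _ (hTr θ hθ)
      have a2 := hj.2.2.2.2
      nlinarith [mul_pos a1 a2]
    refine key.congr ?_
    intro ρ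
    rw [hR, hsg, hHθ]
    congr 1
    · congr 2
      funext t
      push_cast
      ring
    · push_cast
      ring

end Pool.Agent.Helper327_Drum
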