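import Pool.Agent.Helper327_Drum.BDefs
import Pool.Agent.Helper327_Drum.Fin.P3
import Pool.Agent.Helper327_Drum.Fin.P4
import Pool.Agent.Helper327_Drum.Fin.P6
import Pool.Agent.Helper327_Drum.Fin.P6a
import Pool.Agent.Helper327_Drum.Fin.P7b
import Pool.Agent.Helper327_Drum.Fin.P8

set_option autoImplicit false
open MeasureTheory Set Filter Topology ComplexConjugate
open scoped ContDiff

namespace Pool.Agent.Helper327_Drum

/-! ### auxiliary lemmas for P5 -/

theorem P5_mulconj {e : ℂ} (he : ‖e‖ = 1) : e * conj e = 1 := by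
  rw [Complex.mul_conj, Complex.normSq_eq_norm_sq, he]
  simp

theorem P5_box_iff {q e : ℂ} (he : ‖e‖ = 1) {δ : ℝ} {x : ℂ} :
    x ∈ box q e δ ↔ |((x - q) * conj e).re| < δ ∧ |((x - q) * conj e).im| < δ := by
  have h1 := P5_mulconj he
  constructor
  · rintro ⟨t, s, ht, hs, rfl⟩
    have e1 : (q + ((t : ℂ) + s * Complex.I) * e - q) * conj e = (t : ℂ) + s * Complex.I := by
      linear_combination ((t : ℂ) + s * Complex.I) * h1
    rw [e1]
    simpa using ⟨ht, hs⟩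
  · rintro ⟨ht, hs⟩
    refine ⟨_, _, ht, hs, ?_⟩
    rw [Complex.re_add_im]
    linear_combination (-(x - q)) * h1

theorem P5_coord {q e : ℂ} (he : ‖e‖ = 1) (t s : ℝ) :
    (q + ((t : ℂ) + s * Complex.I) * e - q) * conj e = (t : ℂ) + s * Complex.I := by
  linear_combination ((t : ℂ) + s * Complex.I) * P5_mulconj he

theorem P5_coord_re {q e : ℂ} (he : ‖e‖ = 1) (t s : ℝ) :
    ((q + ((t : ℂ) + s * Complex.I) * e - q) * conj e).re = t := by
  rw [P5_coord he]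
  simp

theorem P5_coord_im {q e : ℂ} (he : ‖e‖ = 1) (t s : ℝ) :
    ((q + ((t : ℂ) + s * Complex.I) * e - q) * conj e).im = s := by
  rw [P5_coord he]
  simp

theorem P5_box_mono {q e : ℂ} {δ δ' : ℝ} (h : δ ≤ δ') : box q e δ ⊆ box q e δ' := by
  rintro x ⟨t, s, ht, hs, rfl⟩
  exact ⟨t, s, ht.trans_le h, hs.trans_le h, rfl⟩

theorem P5_center_mem {q e : ℂ} {δ : ℝ} (h : 0 < δ) : q ∈ box q e δ :=
  ⟨0, 0, by simpa using h, by simpa using h, by simp⟩

theorem P5_box_norm {q e : ℂ} (he : ‖e‖ = 1) {δ : ℝ} {x : ℂ} (h : x ∈ box q e δ) :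
    ‖x - q‖ < 2 * δ := by
  obtain ⟨h1, h2⟩ := (P5_box_iff he).1 h
  have h3 : ‖(x - q) * conj e‖ = ‖x - q‖ := by
    rw [norm_mul, Complex.norm_conj, he, mul_one]
  rw [← h3]
  refine (Complex.norm_le_abs_re_add_abs_im _).trans_lt ?_
  linarith

/-- a point outside a box is far from a smaller box -/
theorem P5_far {q e : ℂ} (he : ‖e‖ = 1) {a b : ℝ} {x y : ℂ} (hx : x ∉ box q e a)
    (hy : y ∈ box q e b) : a - b < ‖x - y‖ := by
  obtain ⟨h1, h2⟩ := (P5_box_iff he).1 hy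
  have h3 : ‖(x - y) * conj e‖ = ‖x - y‖ := by
    rw [norm_mul, Complex.norm_conj, he, mul_one]
  rw [P5_box_iff he, not_and_or, not_lt, not_lt] at hx
  rw [← h3]
  have e1 : (x - y) * conj e = (x - q) * conj e - (y - q) * conj e := by ring
  rcases hx with hx | hx
  · refine lt_of_lt_of_le ?_ (Complex.abs_re_le_norm _)
    rw [e1, Complex.sub_re]
    have := abs_sub_abs_le_abs_sub ((x - q) * conj e).re ((y - q) * conj e).re
    linarith
  · refine lt_of_lt_of_le ?_ (Complex.abs_im_le_norm _)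
    rw [e1, Complex.sub_im]
    have := abs_sub_abs_le_abs_sub ((x - q) * conj e).im ((y - q) * conj e).im
    linarith

theorem P5_cx_deriv {q e : ℂ} {ψ : ℝ → ℝ} (hψ : ContDiff ℝ 2 ψ) (t : ℝ) :
    HasDerivAt (cx q e ψ) (cv e ψ t) t := by
  have h1 : HasDerivAt ψ (deriv ψ t) t := (hψ.differentiable (by norm_num) t).hasDerivAt
  have h2 : HasDerivAt (fun t : ℝ => ((ψ t : ℝ) : ℂ)) ((deriv ψ t : ℝ) : ℂ) t := h1.ofReal_comp
  have h3 : HasDerivAt (fun t : ℝ => (t : ℂ)) 1 t := by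
    simpa using (hasDerivAt_id t).ofReal_comp
  have h4 := (((h3.add (h2.mul_const Complex.I)).mul_const e).const_add q)
  exact h4

/-- the inner product with `w` as a continuous linear map -/
noncomputable def P5L (w : ℂ) : ℂ →L[ℝ] ℝ := w.re • Complex.reCLM + w.im • Complex.imCLM

theorem P5L_apply (w x : ℂ) : P5L w x = ip x w := by
  simp [P5L, ip]
  ring

theorem P5_ip_deriv {q e w : ℂ} {ψ : ℝ → ℝ} (hψ : ContDiff ℝ 2 ψ) (t : ℝ) :
    HasDerivAt (fun t => ip (cx q e ψ t) w) (ip (cv e ψ t) w) t := by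
  have h : HasDerivAt (fun t => P5L w (cx q e ψ t)) (P5L w (cv e ψ t)) t :=
    (P5L w).hasFDerivAt.comp_hasDerivAt t (P5_cx_deriv (q := q) (e := e) hψ t)
  simpa only [P5L_apply] using h

theorem P5_cx_contDiff {q e : ℂ} {ψ : ℝ → ℝ} (hψ : ContDiff ℝ 2 ψ) : ContDiff ℝ 2 (cx q e ψ) := by
  have h1 : ContDiff ℝ 2 (fun t : ℝ => ((ψ t : ℝ) : ℂ)) := Complex.ofRealCLM.contDiff.comp hψ
  have h2 : ContDiff ℝ 2 (fun t : ℝ => (t : ℂ)) := Complex.ofRealCLM.contDiff
  exact contDiff_const.add ((h2.add (h1.mul contDiff_const)).mul contDiff_const)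

theorem P5_cv_contDiff {e : ℂ} {ψ : ℝ → ℝ} (hψ : ContDiff ℝ 2 ψ) : ContDiff ℝ 1 (cv e ψ) := by
  have hd : ContDiff ℝ 1 (deriv ψ) := by
    have : ContDiff ℝ (1 + 1) ψ := by simpa [one_add_one_eq_two] using hψ
    exact (contDiff_succ_iff_deriv.1 this).2.2
  have h1 : ContDiff ℝ 1 (fun t : ℝ => ((deriv ψ t : ℝ) : ℂ)) := Complex.ofRealCLM.contDiff.comp hd
  exact (contDiff_const.add (h1.mul contDiff_const)).mul contDiff_const

theorem P5_cmp {Ω γ : Set ℂ} {q e q' e' : ℂ} {δ δ' : ℝ} {ψ ψ' : ℝ → ℝ}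
    (C : Chart Ω γ q e δ ψ) (C' : Chart Ω γ q' e' δ' ψ') {t t' : ℝ} (ht : |t| < δ) (ht' : |t'| < δ')
    (h : cx q e ψ t = cx q' e' ψ' t') : ∃ k : ℝ, k ≠ 0 ∧ cv e ψ t = k * cv e' ψ' t' := by
  have hc := P5_cx_deriv (q := q) (e := e) C.smooth t
  set τ : ℝ → ℝ := fun s => ((cx q e ψ s - q') * conj e').re with hτd
  have hτ : HasDerivAt τ (((cv e ψ t) * conj e').re) t := by
    have h1 := (hc.sub_const q').mul_const (conj e')
    exact Complex.reCLM.hasFDerivAt.comp_hasDerivAt t h1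
  have hτt : τ t = t' := by
    simp only [hτd]
    rw [h]
    exact P5_coord_re C'.unit t' (ψ' t')
  have hbox : cx q e ψ t ∈ box q' e' δ' := by
    rw [h]
    exact ⟨t', ψ' t', ht', C'.bd ht', rfl⟩
  have hev1 : ∀ᶠ s in 𝓝 t, cx q e ψ s ∈ box q' e' δ' :=
    hc.continuousAt.eventually ((box_open C'.unit δ').mem_nhds hbox)
  have hev2 : ∀ᶠ s in 𝓝 t, |s| < δ := by
    have : IsOpen {s : ℝ | |s| < δ} := isOpen_lt continuous_abs continuous_const
    exact this.mem_nhds ht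
  have hev : (cx q e ψ) =ᶠ[𝓝 t] (fun s => cx q' e' ψ' (τ s)) := by
    filter_upwards [hev1, hev2] with s hs1 hs2
    have hsγ : cx q e ψ s ∈ γ := (C.memγ s (ψ s) hs2 (C.bd hs2)).2 rfl
    obtain ⟨t1, s1, h1, h2, h3⟩ := hs1
    have h4 : s1 = ψ' t1 := by
      rw [h3] at hsγ
      exact (C'.memγ t1 s1 h1 h2).1 hsγ
    have h5 : τ s = t1 := by
      simp only [hτd]
      rw [h3]
      exact P5_coord_re C'.unit t1 s1
    rw [h5, h3, h4]
    rfl
  have hd2 : HasDerivAt (fun s => cx q' e' ψ' (τ s)) ((((cv e ψ t) * conj e').re) • cv e' ψ' t') t := by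
    have h1 : HasDerivAt (cx q' e' ψ') (cv e' ψ' t') (τ t) := by
      rw [hτt]
      exact P5_cx_deriv C'.smooth t'
    exact h1.scomp t hτ
  have huniq := hc.unique (hd2.congr_of_eventuallyEq hev)
  refine ⟨((cv e ψ t) * conj e').re, ?_, ?_⟩
  · intro h0
    rw [h0, zero_smul] at huniq
    have h1 : (cv e ψ t * conj e).re = 1 := by
      have : cv e ψ t * conj e = 1 + deriv ψ t * Complex.I := by
        unfold cv
        linear_combination (1 + deriv ψ t * Complex.I : ℂ) * P5_mulconj C.unit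
      rw [this]
      simp
    rw [huniq] at h1
    simp at h1
  · rw [← Complex.real_smul]
    exact huniq

theorem P5_ip_smul (k : ℝ) (x w : ℂ) : ip (k * x) w = k * ip x w := by
  simp [ip]
  ring

theorem P5_noncrit {Ω γ : Set ℂ} {q e : ℂ} {δ θ₀ : ℝ} {ψ : ℝ → ℝ} (C : Chart Ω γ q e δ ψ)
    (h : ip (cv e ψ 0) (ee θ₀) ≠ 0) : ∃ r > 0, r ≤ δ ∧ ∃ η > 0, ∀ t θ : ℝ, |t| < r → |θ - θ₀| < η →
      ip (cv e ψ t) (ee θ) ≠ 0 := by
  have hcont : Continuous (fun x : ℝ × ℝ => ip (cv e ψ x.1) (ee x.2)) := by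
    have h1 : Continuous (cv e ψ) := (P5_cv_contDiff C.smooth).continuous
    have h2 : Continuous ee := by unfold ee; fun_prop
    unfold ip
    exact ((Complex.continuous_re.comp (h1.comp continuous_fst)).mul
      (Complex.continuous_re.comp (h2.comp continuous_snd))).add
      ((Complex.continuous_im.comp (h1.comp continuous_fst)).mul
      (Complex.continuous_im.comp (h2.comp continuous_snd)))
  have hev : ∀ᶠ x : ℝ × ℝ in 𝓝 (0, θ₀), ip (cv e ψ x.1) (ee x.2) ≠ 0 :=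
    hcont.continuousAt.eventually_ne h
  obtain ⟨ε, hε, hb⟩ := Metric.eventually_nhds_iff.1 hev
  refine ⟨min ε δ, lt_min hε C.pos, min_le_right _ _, ε, hε, ?_⟩
  intro t θ ht hθ
  refine hb (y := (t, θ)) ?_
  rw [Prod.dist_eq, max_lt_iff]
  simp only [Real.dist_eq, sub_zero]
  exact ⟨ht.trans_le (min_le_left _ _), hθ⟩

theorem P5_crit {Ω γ : Set ℂ} {q e : ℂ} {δ θ₀ : ℝ} {ψ : ℝ → ℝ} (C : Chart Ω γ q e δ ψ)
    (h : ip (cv e ψ 0) (ee θ₀) = 0) (h2 : deriv (deriv ψ) 0 ≠ 0) : ∃ r > 0, r ≤ δ ∧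
      ∀ t : ℝ, |t| < r → ip (cv e ψ t) (ee θ₀) = 0 → t = 0 := by
  have hee : (ee θ₀).re ^ 2 + (ee θ₀).im ^ 2 = 1 := by
    unfold ee
    rw [Complex.exp_ofReal_mul_I_re, Complex.exp_ofReal_mul_I_im]
    exact Real.cos_sq_add_sin_sq θ₀
  have hue : e.re ^ 2 + e.im ^ 2 = 1 := by
    have h := Complex.sq_norm e
    rw [C.unit, Complex.normSq_apply] at h
    nlinarith
  have hform : ∀ t, ip (cv e ψ t) (ee θ₀) =
      ip e (ee θ₀) + deriv ψ t * ip (Complex.I * e) (ee θ₀) := by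
    intro t
    simp [ip, cv]
    ring
  have hI : ip (Complex.I * e) (ee θ₀) ≠ 0 := by
    intro h0
    rw [hform, h0, mul_zero, add_zero] at h
    simp [ip] at h h0
    set a := e.re
    set b := e.im
    set c := (ee θ₀).re
    set d := (ee θ₀).im
    have h3 : c = 0 := by linear_combination a * h - b * h0 - c * hue
    have h4 : d = 0 := by linear_combination b * h + a * h0 - d * hue
    rw [h3, h4] at hee
    norm_num at hee
  have hd : HasDerivAt (deriv ψ) (deriv (deriv ψ) 0) 0 := by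
    have : ContDiff ℝ (1 + 1) ψ := by simpa [one_add_one_eq_two] using C.smooth
    exact ((contDiff_succ_iff_deriv.1 this).2.2.differentiable (by norm_num) 0).hasDerivAt
  have hd2 : HasDerivAt (fun t => ip (cv e ψ t) (ee θ₀))
      (deriv (deriv ψ) 0 * ip (Complex.I * e) (ee θ₀)) 0 := by
    have h5 := (hd.mul_const (ip (Complex.I * e) (ee θ₀))).const_add (ip e (ee θ₀))
    have h6 : (fun t => ip (cv e ψ t) (ee θ₀)) =
        (fun t => ip e (ee θ₀) + deriv ψ t * ip (Complex.I * e) (ee θ₀)) := funext hform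
    rw [h6]
    exact h5
  have hev : ∀ᶠ t in 𝓝[≠] (0 : ℝ), ip (cv e ψ t) (ee θ₀) ≠ 0 :=
    hd2.eventually_ne (mul_ne_zero h2 hI)
  rw [eventually_nhdsWithin_iff] at hev
  obtain ⟨ε, hε, hb⟩ := Metric.eventually_nhds_iff.1 hev
  refine ⟨min ε δ, lt_min hε C.pos, min_le_right _ _, ?_⟩
  intro t ht h0
  by_contra hne
  refine hb (y := t) ?_ hne h0
  rw [Real.dist_eq, sub_zero]
  exact ht.trans_le (min_le_left _ _)

theorem P5_min {α : Type} {Z : Set α} (hZ : Z.Finite) (f : α → ℝ) (hf : ∀ p ∈ Z, 0 < f p) :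
    ∃ a > 0, ∀ p ∈ Z, a ≤ f p := by
  rcases Z.eq_empty_or_nonempty with rfl | hne
  · exact ⟨1, one_pos, by simp⟩
  · obtain ⟨p, hp, hmin⟩ := Set.exists_min_image Z f hZ hne
    exact ⟨f p, hf p hp, hmin⟩

theorem P5_wave {ρ θ : ℝ} : ContDiff ℝ 1 (fun x : ℂ => Complex.exp (Complex.I * ((ρ * ip x (ee θ) : ℝ) : ℂ))) ∧
    ∀ x : ℂ, fderiv ℝ (fun x : ℂ => Complex.exp (Complex.I * ((ρ * ip x (ee θ) : ℝ) : ℂ))) x (ee θ) =
      Complex.I * ρ * Complex.exp (Complex.I * ((ρ * ip x (ee θ) : ℝ) : ℂ)) := by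
  have hee : (ee θ).re ^ 2 + (ee θ).im ^ 2 = 1 := by
    unfold ee
    rw [Complex.exp_ofReal_mul_I_re, Complex.exp_ofReal_mul_I_im]
    exact Real.cos_sq_add_sin_sq θ
  have e1 : ip (ee θ) (ee θ) = 1 := by
    unfold ip
    nlinarith
  set L : ℂ →L[ℝ] ℂ := (Complex.I * ρ) • (Complex.ofRealCLM.comp (P5L (ee θ))) with hL
  have hLa : ∀ x : ℂ, L x = Complex.I * ((ρ * ip x (ee θ) : ℝ) : ℂ) := by
    intro x
    simp only [hL, ContinuousLinearMap.smul_apply, ContinuousLinearMap.comp_apply, P5L_apply,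
      Complex.ofRealCLM_apply, smul_eq_mul]
    push_cast
    ring
  have hfun : (fun x : ℂ => Complex.exp (Complex.I * ((ρ * ip x (ee θ) : ℝ) : ℂ))) =
      fun x => Complex.exp (L x) := by
    ext x
    rw [hLa]
  rw [hfun]
  constructor
  · exact L.contDiff.cexp
  · intro x
    have h1 : HasFDerivAt (fun x => Complex.exp (L x)) (Complex.exp (L x) • L) x :=
      (L.hasFDerivAt (x := x)).cexp
    rw [h1.fderiv]
    simp only [ContinuousLinearMap.smul_apply, smul_eq_mul]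
    rw [hLa (ee θ), e1, ← hLa x]
    push_cast
    ring

/-- nonstationary charts -/
theorem P5_nonstat {Ω γ : Set ℂ} {q e : ℂ} {δ θ : ℝ} {ψ : ℝ → ℝ} (C : Chart Ω γ q e δ ψ)
    (hn : ∀ t : ℝ, |t| < δ → ip (cv e ψ t) (ee θ) ≠ 0) {χ : ℂ → ℝ} (hχ : ContDiff ℝ ∞ χ)
    (hs : tsupport χ ⊆ box q e δ) :
    Tendsto (fun ρ : ℝ => (√ρ : ℂ) * (∫ t, (χ (cx q e ψ t) : ℂ) *
            Complex.exp (Complex.I * ((ρ * ip (cx q e ψ t) (ee θ) : ℝ) : ℂ)) *
            (ip (cv e ψ t) (Complex.I * ee θ) : ℝ))) atTop (𝓝 0) := by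
  have hf : ContDiff ℝ 2 (fun t => ip (cx q e ψ t) (ee θ)) := by
    have h := (P5L (ee θ)).contDiff.comp (P5_cx_contDiff (q := q) (e := e) C.smooth)
    simp only [Function.comp_def, P5L_apply] at h
    exact h
  have hg : ContDiff ℝ 1 (fun t => χ (cx q e ψ t) * ip (cv e ψ t) (Complex.I * ee θ)) := by
    have h := (P5L (Complex.I * ee θ)).contDiff.comp (P5_cv_contDiff (e := e) C.smooth)
    simp only [Function.comp_def, P5L_apply] at h
    have h1 : ContDiff ℝ 1 (fun t => χ (cx q e ψ t)) :=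
      (hχ.of_le (by simp)).comp ((P5_cx_contDiff (q := q) (e := e) C.smooth).of_le (by norm_num))
    exact h1.mul h
  have hmem : ∀ t, cx q e ψ t ∈ tsupport χ → |t| < δ := by
    intro t ht
    have h1 := ((P5_box_iff C.unit).1 (hs ht)).1
    have h2 : ((cx q e ψ t - q) * conj e).re = t := P5_coord_re C.unit t (ψ t)
    rwa [h2] at h1
  have hgc : HasCompactSupport (fun t => χ (cx q e ψ t) * ip (cv e ψ t) (Complex.I * ee θ)) := by
    apply HasCompactSupport.intro (isCompact_Icc (a := -δ) (b := δ))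
    intro t ht
    have h1 : χ (cx q e ψ t) = 0 := by
      by_contra h0
      apply ht
      have h2 := abs_lt.1 (hmem t (subset_tsupport _ h0))
      exact ⟨h2.1.le, h2.2.le⟩
    simp only [h1, zero_mul]
  have hsup : ∀ t ∈ tsupport (fun t => χ (cx q e ψ t) * ip (cv e ψ t) (Complex.I * ee θ)),
      deriv (fun t => ip (cx q e ψ t) (ee θ)) t ≠ 0 := by
    intro t ht
    rw [(P5_ip_deriv C.smooth t).deriv]
    apply hn
    apply hmem
    have hcl : IsClosed ((cx q e ψ) ⁻¹' tsupport χ) :=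
      (isClosed_tsupport χ).preimage (P5_cx_contDiff (q := q) (e := e) C.smooth).continuous
    have hsub : tsupport (fun t => χ (cx q e ψ t) * ip (cv e ψ t) (Complex.I * ee θ)) ⊆
        (cx q e ψ) ⁻¹' tsupport χ := by
      apply closure_minimal _ hcl
      intro s hs'
      apply subset_tsupport
      intro h0
      apply hs'
      simp only [h0, zero_mul]
    exact hsub ht
  have key := nonstat hf hg hgc hsup
  refine key.congr ?_
  intro ρ
  congr 1
  apply integral_congr_ae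
  refine Eventually.of_forall fun t => ?_
  simp only
  push_cast
  ring

/-- TARGET: a region whose Fourier transform vanishes on infinitely many circles has a circular arc in its
boundary. -/
theorem wave_arc {Ω γ : Set ℂ} (hΩo : IsOpen Ω) (hΩb : Bornology.IsBounded Ω) (hne : γ.Nonempty)
    (hfr : frontier Ω = γ)
    (hch : ∀ q ∈ γ, ∃ (e : ℂ) (δ : ℝ) (ψ : ℝ → ℝ), Chart Ω γ q e δ ψ) {ρ : ℕ → ℝ}
    (hρ : Tendsto ρ atTop atTop)
    (hz : ∀ n θ, ∫ x in Ω, Complex.exp (Complex.I * ((ρ n * ip x (ee θ) : ℝ) : ℂ)) = 0) :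
    ∃ (q : ℂ) (r θ₁ θ₂ : ℝ), r ≠ 0 ∧ θ₁ < θ₂ ∧ ∀ θ ∈ Ioo θ₁ θ₂, q + r * ee θ ∈ γ := by
  classical
  have hγ : IsCompact γ := by
    rw [← hfr]
    exact Metric.isCompact_of_isClosed_isBounded isClosed_frontier
      (hΩb.closure.subset frontier_subset_closure)
  obtain ⟨θ₀, hg⟩ := good_direction hγ hch
  choose! E Δ Ψ hCnd using hg
  have hC : ∀ q ∈ γ, Chart Ω γ q (E q) (Δ q) (Ψ q) := fun q hq => (hCnd q hq).1
  have hnd : ∀ q ∈ γ, ip (cv (E q) (Ψ q) 0) (ee θ₀) = 0 → deriv (deriv (Ψ q)) 0 ≠ 0 :=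
    fun q hq => (hCnd q hq).2
  set Z : Set ℂ := {q | q ∈ γ ∧ ip (cv (E q) (Ψ q) 0) (ee θ₀) = 0} with hZdef
  -- local radii
  have hr : ∀ q ∈ γ, ∃ r > 0, r ≤ Δ q ∧
      (q ∈ Z → ∀ t : ℝ, |t| < r → ip (cv (E q) (Ψ q) t) (ee θ₀) = 0 → t = 0) ∧
      (q ∉ Z → ∃ η > 0, ∀ t θ : ℝ, |t| < r → |θ - θ₀| < η → ip (cv (E q) (Ψ q) t) (ee θ) ≠ 0) := by
    intro q hq
    by_cases hqZ : q ∈ Z
    · obtain ⟨r, hr0, hrle, h⟩ := P5_crit (hC q hq) hqZ.2 (hnd q hq hqZ.2)
      exact ⟨r, hr0, hrle, fun _ => h, fun hn => absurd hqZ hn⟩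
    · have h0 : ip (cv (E q) (Ψ q) 0) (ee θ₀) ≠ 0 := fun h => hqZ ⟨hq, h⟩
      obtain ⟨r, hr0, hrle, η, hη, h⟩ := P5_noncrit (hC q hq) h0
      exact ⟨r, hr0, hrle, fun hp => absurd hp hqZ, fun _ => ⟨η, hη, h⟩⟩
  choose! r hr0 hrle hrZ hrN using hr
  -- isolation
  have hiso : ∀ q ∈ γ, ∀ z ∈ Z, z ∈ box q (E q) (r q) → z = q := by
    intro q hq z hz' hzb
    obtain ⟨t, s, ht, hs, hzt⟩ := hzb
    have htΔ : |t| < Δ q := ht.trans_le (hrle q hq)
    have hsΔ : |s| < Δ q := hs.trans_le (hrle q hq)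
    have hs' : s = Ψ q t := by
      have := hz'.1
      rw [hzt] at this
      exact ((hC q hq).memγ t s htΔ hsΔ).1 this
    have h1 : cx q (E q) (Ψ q) t = cx z (E z) (Ψ z) 0 := by
      have h2 : cx z (E z) (Ψ z) 0 = z := by
        unfold cx
        rw [(hC z hz'.1).zero]
        simp
      rw [h2, hzt, hs']
      rfl
    obtain ⟨k, hk, hcv⟩ := P5_cmp (hC q hq) (hC z hz'.1) htΔ
      (by simpa using (hC z hz'.1).pos) h1
    have h3 : ip (cv (E q) (Ψ q) t) (ee θ₀) = 0 := by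
      rw [hcv, P5_ip_smul, hz'.2, mul_zero]
    by_cases hqZ : q ∈ Z
    · have ht0 := hrZ q hq hqZ t ht h3
      rw [hzt, hs', ht0, (hC q hq).zero]
      simp
    · obtain ⟨η, hη, h⟩ := hrN q hq hqZ
      exact absurd h3 (h t θ₀ ht (by simpa using hη))
  -- Z is finite
  have hZfin : Z.Finite := by
    obtain ⟨T, hT, hcov⟩ := hγ.elim_nhds_subcover (fun q => box q (E q) (r q))
      (fun q hq => (box_open (hC q hq).unit _).mem_nhds (P5_center_mem (hr0 q hq)))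
    refine T.finite_toSet.subset ?_
    intro z hz'
    have h1 := hcov hz'.1
    simp only [mem_iUnion, exists_prop] at h1
    obtain ⟨q, hqT, hqb⟩ := h1
    have := hiso q (hT q hqT) z hz' hqb
    rw [this]
    exact hqT
  -- Z is nonempty
  have hZne : Z.Nonempty := by
    have hcont : Continuous (fun x : ℂ => ip x (ee θ₀)) := by
      have h : Continuous (fun x : ℂ => P5L (ee θ₀) x) := (P5L (ee θ₀)).continuous
      simpa only [P5L_apply] using h
    obtain ⟨q, hq, hmax⟩ := hγ.exists_isMaxOn hne hcont.continuousOn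
    refine ⟨q, hq, ?_⟩
    have C := hC q hq
    have hd := P5_ip_deriv (q := q) (e := E q) (w := ee θ₀) C.smooth 0
    have hloc : IsLocalMax (fun t => ip (cx q (E q) (Ψ q) t) (ee θ₀)) 0 := by
      have hev : ∀ᶠ t : ℝ in 𝓝 0, |t| < Δ q := by
        have : IsOpen {s : ℝ | |s| < Δ q} := isOpen_lt continuous_abs continuous_const
        exact this.mem_nhds (by simpa using C.pos)
      filter_upwards [hev] with t ht
      have h1 : cx q (E q) (Ψ q) t ∈ γ := (C.memγ t (Ψ q t) ht (C.bd ht)).2 rfl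
      have h2 : cx q (E q) (Ψ q) 0 = q := by
        unfold cx
        rw [C.zero]
        simp
      rw [h2]
      exact hmax h1
    exact hloc.hasDerivAt_eq_zero hd
  -- branches
  have hbr : ∀ p ∈ Z, ∃ δ₀ > 0, δ₀ ≤ Δ p ∧ ∀ δ' > 0, δ' ≤ δ₀ → ∃ η > 0, ∃ (H : ℝ → ℝ) (ε : ℂ), ε ≠ 0 ∧
      ContDiffOn ℝ 2 H (Ioo (θ₀ - η) (θ₀ + η)) ∧
      (∀ θ ∈ Ioo (θ₀ - η) (θ₀ + η), H θ + deriv (deriv H) θ ≠ 0 ∧
        ((H θ : ℂ) + deriv H θ * Complex.I) * ee θ ∈ γ ∩ box p (E p) δ') ∧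
      ∀ χ : ℂ → ℝ, ContDiff ℝ 1 χ → HasCompactSupport χ → tsupport χ ⊆ box p (E p) δ₀ →
        (∀ x ∈ γ ∩ box p (E p) δ', χ x = 1) → ∀ θ ∈ Ioo (θ₀ - η) (θ₀ + η),
        Tendsto (fun ρ : ℝ => (√ρ : ℂ) * (∫ t, (χ (cx p (E p) (Ψ p) t) : ℂ) *
            Complex.exp (Complex.I * ((ρ * ip (cx p (E p) (Ψ p) t) (ee θ) : ℝ) : ℂ)) *
            (ip (cv (E p) (Ψ p) t) (Complex.I * ee θ) : ℝ)) -
          ε * (√|H θ + deriv (deriv H) θ| : ℝ) * Complex.exp (Complex.I * ((ρ * H θ : ℝ) : ℂ)))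
          atTop (𝓝 0) := fun p hp => crit_branch (hC p hp.1) hp.2 (hnd p hp.1 hp.2)
  choose! d0 hd0 hd0le hbr2 using hbr
  -- the common radius
  obtain ⟨a1, ha1, ha1le⟩ := P5_min hZfin d0 hd0
  obtain ⟨a2, ha2, ha2le⟩ := P5_min (α := ℂ × ℂ) (Z := {x | x ∈ Z ×ˢ Z ∧ x.1 ≠ x.2})
    ((hZfin.prod hZfin).subset (fun x hx => hx.1)) (fun x => ‖x.1 - x.2‖)
    (fun x hx => norm_pos_iff.2 (sub_ne_zero.2 hx.2))
  set a : ℝ := min a1 (a2 / 4) with hadef
  have ha : 0 < a := lt_min ha1 (by positivity)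
  have had0 : ∀ p ∈ Z, a ≤ d0 p := fun p hp => (min_le_left _ _).trans (ha1le p hp)
  have hdis : ∀ p ∈ Z, ∀ p' ∈ Z, p ≠ p' → ∀ x, x ∈ box p (E p) a → x ∉ box p' (E p') a := by
    intro p hp p' hp' hne' x hx hx'
    have h1 := P5_box_norm (hC p hp.1).unit hx
    have h2 := P5_box_norm (hC p' hp'.1).unit hx'
    have h3 : a2 ≤ ‖p - p'‖ := ha2le (p, p') ⟨⟨hp, hp'⟩, hne'⟩
    have h4 : a ≤ a2 / 4 := min_le_right _ _
    have h5 : ‖p - p'‖ ≤ ‖x - p‖ + ‖x - p'‖ := by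
      have : p - p' = (x - p') - (x - p) := by ring
      rw [this]
      refine (norm_sub_le _ _).trans ?_
      linarith
    linarith
  -- the branches at the radius a / 4
  have hbr3 := fun p (hp : p ∈ Z) => hbr2 p hp (a / 4) (by positivity)
    ((by linarith : a / 4 ≤ a).trans (had0 p hp))
  choose! ηZ hηZ H ε hε hHs hHγ hHlim using hbr3
  -- the radii of the charts
  set rad : ℂ → ℝ := fun q => if q ∈ Z then a else min (r q) (a / 8) with hrad
  have hradpos : ∀ q ∈ γ, 0 < rad q := by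
    intro q hq
    simp only [hrad]
    split_ifs
    · exact ha
    · exact lt_min (hr0 q hq) (by positivity)
  have hradle : ∀ q ∈ γ, rad q ≤ Δ q := by
    intro q hq
    simp only [hrad]
    split_ifs with h
    · exact (had0 q h).trans (hd0le q h)
    · exact (min_le_left _ _).trans (hrle q hq)
  have hC2 : ∀ q ∈ γ, Chart Ω γ q (E q) (rad q) (Ψ q) := fun q hq =>
    (hC q hq).mono (hradpos q hq) (hradle q hq)
  -- the rest of the curve
  set γ' : Set ℂ := γ \ ⋃ p ∈ Z, box p (E p) (a / 2) with hγ'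
  have hγ'c : IsCompact γ' := by
    apply hγ.diff
    exact isOpen_biUnion fun p hp => box_open (hC p hp.1).unit _
  obtain ⟨S, hS, hScov⟩ := hγ'c.elim_nhds_subcover (fun q => box q (E q) (rad q))
    (fun q hq => (box_open (hC q hq.1).unit _).mem_nhds (P5_center_mem (hradpos q hq.1)))
  have hSZ : ∀ q ∈ S, q ∉ Z := by
    intro q hq hqZ
    apply (hS q hq).2
    simp only [mem_iUnion, exists_prop]
    exact ⟨q, hqZ, P5_center_mem (by positivity)⟩
  -- boxes of the rest do not meet the inner boxes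
  have hfar : ∀ q ∈ S, ∀ p ∈ Z, ∀ x, x ∈ box p (E p) (a / 4) → x ∉ box q (E q) (rad q) := by
    intro q hq p hp x hx hx'
    have h1 := P5_box_norm (hC q (hS q hq).1).unit hx'
    have h2 : q ∉ box p (E p) (a / 2) := by
      intro h
      apply (hS q hq).2
      simp only [mem_iUnion, exists_prop]
      exact ⟨p, hp, h⟩
    have h3 := P5_far (hC p hp.1).unit h2 hx
    have h4 : rad q ≤ a / 8 := by
      simp only [hrad, if_neg (hSZ q hq)]
      exact min_le_right _ _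
    rw [norm_sub_rev] at h3
    linarith
  -- the finite family
  set T : Finset ℂ := hZfin.toFinset ∪ S with hT
  have hTγ : ∀ q ∈ T, q ∈ γ := by
    intro q hq
    rcases Finset.mem_union.1 hq with h | h
    · exact (hZfin.mem_toFinset.1 h).1
    · exact (hS q h).1
  have hZT : ∀ p ∈ Z, p ∈ T := fun p hp => Finset.mem_union_left _ (hZfin.mem_toFinset.2 hp)
  have hTS : ∀ q ∈ T, q ∉ Z → q ∈ S := by
    intro q hq hqZ
    rcases Finset.mem_union.1 hq with h | h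
    · exact absurd (hZfin.mem_toFinset.1 h) hqZ
    · exact h
  obtain ⟨χ, hχ, hχ1, hform⟩ := bdry_formula (ι := {q // q ∈ T}) hΩo hΩb hfr (fun i => i.1)
    (fun i => E i.1) (fun i => rad i.1) (fun i => Ψ i.1) (fun i => hC2 i.1 (hTγ i.1 i.2)) (by
      intro x hx
      rw [mem_iUnion]
      by_cases h : x ∈ ⋃ p ∈ Z, box p (E p) (a / 2)
      · simp only [mem_iUnion, exists_prop] at h
        obtain ⟨p, hp, hxp⟩ := h
        refine ⟨⟨p, hZT p hp⟩, ?_⟩
        simp only [hrad, if_pos hp]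
        exact P5_box_mono (by linarith) hxp
      · have h1 := hScov (show x ∈ γ' from ⟨hx, h⟩)
        simp only [mem_iUnion, exists_prop] at h1
        obtain ⟨q, hq, hxq⟩ := h1
        exact ⟨⟨q, Finset.mem_union_right _ hq⟩, hxq⟩)
  -- the cutoffs as functions of the centre
  set X : ℂ → ℂ → ℝ := fun q => if h : q ∈ T then χ ⟨q, h⟩ else 0 with hX
  have hXχ : ∀ i : {q // q ∈ T}, X i.1 = χ i := by
    intro i
    simp only [hX, dif_pos i.2]
  have hXone : ∀ p ∈ Z, ∀ x ∈ γ ∩ box p (E p) (a / 4), X p x = 1 := by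
    intro p hp x hx
    have h1 := hχ1 x hx.1
    have h2 : ∀ i : {q // q ∈ T}, i ≠ ⟨p, hZT p hp⟩ → χ i x = 0 := by
      intro i hi
      by_contra h0
      have h3 : x ∈ box i.1 (E i.1) (rad i.1) := (hχ i).2.2 (subset_tsupport _ h0)
      have hip : i.1 ≠ p := fun h => hi (Subtype.ext h)
      by_cases hiZ : i.1 ∈ Z
      · simp only [hrad, if_pos hiZ] at h3
        exact hdis p hp i.1 hiZ (Ne.symm hip) x (P5_box_mono (by linarith) hx.2) h3
      · exact hfar i.1 (hTS i.1 i.2 hiZ) p hp x hx.2 h3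
    rw [Fintype.sum_eq_single _ h2] at h1
    rw [← hXχ] at h1
    exact h1
  -- the common interval of directions
  have hηN : ∀ q ∈ (S : Set ℂ), ∃ η > 0, ∀ t θ : ℝ, |t| < r q → |θ - θ₀| < η →
      ip (cv (E q) (Ψ q) t) (ee θ) ≠ 0 := fun q hq => hrN q (hS q hq).1 (hSZ q hq)
  choose! ηN hηN0 hηN1 using hηN
  obtain ⟨b1, hb1, hb1le⟩ := P5_min hZfin ηZ hηZ
  obtain ⟨b2, hb2, hb2le⟩ := P5_min S.finite_toSet ηN hηN0
  set η : ℝ := min b1 b2 with hηdef
  have hη : 0 < η := lt_min hb1 hb2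
  have hsubZ : ∀ p ∈ Z, Ioo (θ₀ - η) (θ₀ + η) ⊆ Ioo (θ₀ - ηZ p) (θ₀ + ηZ p) := by
    intro p hp
    have : η ≤ ηZ p := (min_le_left _ _).trans (hb1le p hp)
    exact Ioo_subset_Ioo (by linarith) (by linarith)
  -- the limit relation
  have hlim : ∀ θ ∈ Ioo (θ₀ - η) (θ₀ + η), Tendsto (fun n => ∑ p ∈ hZfin.toFinset, ε p *
      (√|H p θ + deriv (deriv (H p)) θ| : ℝ) * Complex.exp (Complex.I * ((ρ n * H p θ : ℝ) : ℂ)))
      atTop (𝓝 0) := by
    intro θ hθ
    set G : ℂ → ℝ → ℂ := fun q ρ' => ∫ t, (X q (cx q (E q) (Ψ q) t) : ℂ) *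
            Complex.exp (Complex.I * ((ρ' * ip (cx q (E q) (Ψ q) t) (ee θ) : ℝ) : ℂ)) *
            (ip (cv (E q) (Ψ q) t) (Complex.I * ee θ) : ℝ) with hG
    set M : ℂ → ℝ → ℂ := fun p ρ' => ε p *
      (√|H p θ + deriv (deriv (H p)) θ| : ℝ) * Complex.exp (Complex.I * ((ρ' * H p θ : ℝ) : ℂ)) with hM
    have hsum0 : ∀ n, ∑ q ∈ T, G q (ρ n) = 0 := by
      intro n
      obtain ⟨hw1, hw2⟩ := P5_wave (ρ := ρ n) (θ := θ)
      have h1 := hform _ hw1 (ee θ)
      simp only [hw2] at h1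
      rw [integral_const_mul, hz n θ, mul_zero] at h1
      have h2 : ∑ q ∈ T, G q (ρ n) = ∑ i : {q // q ∈ T}, G i.1 (ρ n) :=
        (Finset.sum_coe_sort T (fun q => G q (ρ n))).symm
      rw [h2]
      rw [h1]
      apply Finset.sum_congr rfl
      intro i _
      simp only [hG, hXχ i]
    have hterm : ∀ q ∈ T, Tendsto (fun ρ' : ℝ => (√ρ' : ℂ) * G q ρ' -
        (if q ∈ Z then M q ρ' else 0)) atTop (𝓝 0) := by
      intro q hq
      have hχq := hχ ⟨q, hq⟩
      have hXq : X q = χ ⟨q, hq⟩ := hXχ ⟨q, hq⟩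
      rw [← hXq] at hχq
      by_cases hqZ : q ∈ Z
      · simp only [if_pos hqZ]
        have hsup : tsupport (X q) ⊆ box q (E q) (d0 q) := by
          refine hχq.2.2.trans (P5_box_mono ?_)
          simp only [hrad, if_pos hqZ]
          exact had0 q hqZ
        exact hHlim q hqZ (X q) (hχq.1.of_le (by simp)) hχq.2.1 hsup (hXone q hqZ) θ
          (hsubZ q hqZ hθ)
      · simp only [if_neg hqZ, sub_zero]
        have hqS := hTS q hq hqZ
        refine P5_nonstat (hC2 q (hTγ q hq)) ?_ hχq.1 hχq.2.2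
        intro t ht
        have ht' : |t| < r q := by
          refine ht.trans_le ?_
          simp only [hrad, if_neg hqZ]
          exact min_le_left _ _
        refine hηN1 q hqS t θ ht' ?_
        have h3 : η ≤ ηN q := (min_le_right _ _).trans (hb2le q hqS)
        rw [abs_lt]
        constructor <;> linarith [hθ.1, hθ.2]
    have h1 := tendsto_finset_sum T hterm
    have h2 := h1.comp hρ
    simp only [Finset.sum_const_zero] at h2
    have h3 := h2.neg
    rw [neg_zero] at h3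
    refine h3.congr ?_
    intro n
    simp only [Function.comp_apply]
    rw [Finset.sum_sub_distrib, ← Finset.mul_sum, hsum0 n, mul_zero, zero_sub, neg_neg,
      ← Finset.sum_filter]
    apply Finset.sum_congr _ (fun _ _ => rfl)
    ext q
    rw [Finset.mem_filter, hZfin.mem_toFinset]
    exact ⟨fun h => h.2, fun h => ⟨hZT q h, h⟩⟩
  -- reindexing
  set N := hZfin.toFinset.card with hN
  have hNpos : 0 < N := by
    rw [hN, Finset.card_pos]
    obtain ⟨z, hz'⟩ := hZne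
    exact ⟨z, hZfin.mem_toFinset.2 hz'⟩
  set φ := hZfin.toFinset.equivFin with hφ
  set P : Fin N → ℂ := fun j => (φ.symm j).1 with hP
  have hPZ : ∀ j, P j ∈ Z := fun j => hZfin.mem_toFinset.1 (φ.symm j).2
  have hPinj : ∀ j k, j ≠ k → P j ≠ P k := by
    intro j k hjk h
    exact hjk (φ.symm.injective (Subtype.ext h))
  obtain ⟨j, a', b', R, ha', hab', hb', hconst⟩ := classes (a := θ₀ - η) (b := θ₀ + η) (by linarith) hNpos
    (fun j => H (P j)) (fun j => (hHs (P j) (hPZ j)).mono (hsubZ _ (hPZ j)))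
    (fun j θ hθ => (hHγ (P j) (hPZ j) θ (hsubZ _ (hPZ j) hθ)).1) (by
      intro j k hjk θ hθ h1 h2
      have hj := (hHγ (P j) (hPZ j) θ (hsubZ _ (hPZ j) hθ)).2.2
      have hk := (hHγ (P k) (hPZ k) θ (hsubZ _ (hPZ k) hθ)).2.2
      rw [h1, h2] at hj
      exact hdis (P j) (hPZ j) (P k) (hPZ k) (hPinj j k hjk) _ (P5_box_mono (by linarith) hj)
        (P5_box_mono (by linarith) hk))
    (fun j => ε (P j)) (fun j => hε (P j) (hPZ j)) ρ hρ (by
      intro θ hθ
      refine (hlim θ hθ).congr ?_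
      intro n
      rw [← Finset.sum_coe_sort]
      exact Fintype.sum_equiv φ _ _ (fun x => by simp only [hP, Equiv.symm_apply_apply]))
  have hsub : Ioo a' b' ⊆ Ioo (θ₀ - η) (θ₀ + η) := Ioo_subset_Ioo ha' hb'
  obtain ⟨q, hq⟩ := arc_of_const (H := H (P j)) hab'
    ((hHs (P j) (hPZ j)).mono (hsub.trans (hsubZ _ (hPZ j)))) hconst
  refine ⟨q, R, a', b', ?_, hab', ?_⟩
  · have hm : (a' + b') / 2 ∈ Ioo a' b' := ⟨by linarith, by linarith⟩
    rw [← hconst _ hm]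
    exact (hHγ (P j) (hPZ j) _ (hsubZ _ (hPZ j) (hsub hm))).1
  · intro θ hθ
    have h1 := (hHγ (P j) (hPZ j) θ (hsubZ _ (hPZ j) (hsub hθ))).2.1
    have h2 := hq θ hθ
    unfold ee at h1 ⊢
    rw [h2] at h1
    exact h1

end Pool.Agent.Helper327_Drum
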