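import Pool.Agent.Helper327_Drum.Fin.AS1

set_option autoImplicit false
open MeasureTheory Set Filter Topology ComplexConjugate
open scoped ContDiff InnerProductSpace

namespace Pool.Agent.Helper327_Drum

/-- a compact symmetric operator has only finitely many eigenvalues `≥ m > 0` -/
theorem eu_finite {V : Type*} [NormedAddCommGroup V] [InnerProductSpace ℝ V] (A : V →L[ℝ] V)
    (hA : IsCompactOperator A) (hs : (A : V →ₗ[ℝ] V).IsSymmetric) {m : ℝ} (hm : 0 < m) :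
    {μ : ℝ | m ≤ μ ∧ ∃ ψ : V, ψ ≠ 0 ∧ A ψ = μ • ψ}.Finite := by
  by_contra hinf
  have hinf' : {μ : ℝ | m ≤ μ ∧ ∃ ψ : V, ψ ≠ 0 ∧ A ψ = μ • ψ}.Infinite := hinf
  let e := hinf'.natEmbedding
  have hmem : ∀ n, m ≤ (e n : ℝ) ∧ ∃ ψ : V, ψ ≠ 0 ∧ A ψ = (e n : ℝ) • ψ := fun n => (e n).2
  have hinj : ∀ n l, n ≠ l → (e n : ℝ) ≠ (e l : ℝ) := fun n l hnl h =>
    hnl (e.injective (Subtype.ext h))
  have hunit : ∀ n, ∃ ψ : V, ‖ψ‖ = 1 ∧ A ψ = (e n : ℝ) • ψ := by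
    intro n
    obtain ⟨ψ, h0, h1⟩ := (hmem n).2
    refine ⟨(‖ψ‖⁻¹ : ℝ) • ψ, ?_, ?_⟩
    · rw [norm_smul, norm_inv, norm_norm, inv_mul_cancel₀ (norm_ne_zero_iff.2 h0)]
    · rw [map_smul, h1, smul_comm]
  choose ψ hψ1 hψ2 using hunit
  have horth : ∀ n l, n ≠ l → ⟪ψ n, ψ l⟫_ℝ = 0 := by
    intro n l hnl
    have h1 : ⟪A (ψ n), ψ l⟫_ℝ = ⟪ψ n, A (ψ l)⟫_ℝ := hs (ψ n) (ψ l)
    rw [hψ2, hψ2, real_inner_smul_left, real_inner_smul_right] at h1
    have h2 : ((e n : ℝ) - e l) * ⟪ψ n, ψ l⟫_ℝ = 0 := by rw [sub_mul, h1, sub_self]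
    exact (mul_eq_zero.1 h2).resolve_left (sub_ne_zero.2 (hinj n l hnl))
  have hdist : ∀ n l, n ≠ l → m < dist (A (ψ n)) (A (ψ l)) := by
    intro n l hnl
    rw [dist_eq_norm]
    have h1 : ‖A (ψ n) - A (ψ l)‖ ^ 2 = (e n : ℝ) ^ 2 + (e l : ℝ) ^ 2 := by
      rw [hψ2, hψ2, norm_sub_sq_real, real_inner_smul_left, real_inner_smul_right, horth n l hnl,
        norm_smul, norm_smul, hψ1, hψ1, Real.norm_eq_abs, Real.norm_eq_abs, mul_one, mul_one,
        sq_abs, sq_abs]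
      ring
    have h2 := (hmem n).1
    have h3 := (hmem l).1
    have h4 : m ^ 2 < ‖A (ψ n) - A (ψ l)‖ ^ 2 := by
      rw [h1]
      nlinarith
    exact lt_of_pow_lt_pow_left₀ 2 (norm_nonneg _) h4
  obtain ⟨S, hS, hS2⟩ := IsCompactOperator.image_closedBall_subset_compact (𝕜₁ := ℝ)
    (f := (A : V →ₗ[ℝ] V)) hA 1
  have hin : ∀ n, A (ψ n) ∈ S := fun n => hS2 ⟨ψ n, by
    rw [mem_closedBall_zero_iff, hψ1], rfl⟩
  obtain ⟨a, -, φ, hφ, hlim⟩ := hS.tendsto_subseq hin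
  obtain ⟨N, hN⟩ := Metric.cauchySeq_iff.1 hlim.cauchySeq m hm
  have h1 := hN N le_rfl (N + 1) (Nat.le_succ N)
  have h2 := hdist (φ N) (φ (N + 1)) (hφ (Nat.lt_succ_self N)).ne
  exact lt_asymm h1 h2

/-- an excited eigenvalue gives an eigenvector of the solution operator -/
theorem eu_eig {R : Set ℂ} {c lam : ℝ} {z : ℂ → ℝ → ℝ} {g : ℂ → ℝ → ℂ} (hR : IsCompact R)
    (h : DrumSolution R c z g) (hE : Excites R z lam) :
    0 < lam ∧ ∃ ψ : L2, ψ ≠ 0 ∧ K (inside R) ψ = (1 / (1 + lam)) • ψ := by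
  obtain ⟨hDo, hDb, -, -, -⟩ := inside_basic hR
  obtain ⟨φ, hφ, t₀, ht₀⟩ := hE
  obtain ⟨h1, h2, h3⟩ := eig_K hDo hDb hφ
  obtain ⟨hzc, hze⟩ := zc_cont hR h
  set ψ := cl ((inside R).indicator φ) with hψ
  have hin : ⟪ψ, cl (fun x => zx R z x t₀)⟫_ℝ = ∫ x in inside R, z x t₀ * φ x := by
    rw [L2.inner_def, ← integral_indicator hDo.measurableSet]
    refine integral_congr_ae ?_
    filter_upwards [h2, hze t₀] with x e1 e2
    rw [e1, e2]
    by_cases hx : x ∈ inside R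
    · simp [zx, hx, inner]
    · simp [zx, hx]
  have hψ0 : ψ ≠ 0 := by
    intro hz
    rw [hz, inner_zero_left] at hin
    exact ht₀ hin.symm
  have hl : (1 + lam) ≠ 0 := by
    intro hz
    rw [hz, zero_smul] at h3
    exact hψ0 h3.symm
  have h4 : K (inside R) ψ = (1 / (1 + lam)) • ψ := by
    conv_rhs => rw [← h3]
    rw [smul_smul, one_div, inv_mul_cancel₀ hl, one_smul]
  obtain ⟨h5, h6⟩ := K_eig hDb hψ0 h4
  have h7 : 0 < 1 + lam := by
    rcases lt_or_gt_of_ne hl with h | h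
    · have := one_div_neg.2 h
      linarith
    · exact h
  rw [div_lt_one h7] at h6
  exact ⟨by linarith, ψ, hψ0, h4⟩

/-- TARGET: infinitely many excited eigenvalues are unbounded. -/
theorem excited_unbounded {R : Set ℂ} {c : ℝ} {z : ℂ → ℝ → ℝ} {g : ℂ → ℝ → ℂ} (hR : IsCompact R)
    (h : DrumSolution R c z g) (hinf : {lam | Excites R z lam}.Infinite) (T : ℝ) :
    ∃ lam, T < lam ∧ Excites R z lam := by
  by_contra hcon
  push Not at hcon
  have hle : ∀ lam, Excites R z lam → lam ≤ T := by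
    intro lam hl
    by_contra hT
    exact hcon lam (not_le.1 hT) hl
  obtain ⟨-, hDb, -, -, -⟩ := inside_basic hR
  obtain ⟨l0, hl0⟩ := hinf.nonempty
  have hT : 0 < 1 + T := by
    have h1 := (eu_eig hR h hl0).1
    have h2 := hle l0 hl0
    linarith
  have hfin := eu_finite (K (inside R)) (K_compact hDb) (K_symm _) (one_div_pos.2 hT)
  have hinj : InjOn (fun lam : ℝ => 1 / (1 + lam)) {lam | Excites R z lam} := by
    intro a ha b hb hab
    have h1 := (eu_eig hR h ha).1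
    have h2 := (eu_eig hR h hb).1
    have h3 : 1 / (1 + a) = 1 / (1 + b) := hab
    rw [one_div, one_div, inv_inj] at h3
    linarith
  refine (hinf.image hinj) (hfin.subset ?_)
  rintro _ ⟨lam, hl, rfl⟩
  obtain ⟨h1, ψ, h2, h3⟩ := eu_eig hR h hl
  exact ⟨one_div_le_one_div_of_le (by linarith) (by linarith [hle lam hl]), ψ, h2, h3⟩

end Pool.Agent.Helper327_Drum
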