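import Pool.Agent.Helper327_Drum.Fin.AS2

/-
JOB RAD (owner helper327, problem MP_d92c84_an). The import is on origin/main.
-/

set_option autoImplicit false
open MeasureTheory Set Filter Topology ComplexConjugate
open scoped ContDiff InnerProductSpace

namespace Pool.Agent.Helper327_Drum

open Pool.Agent.TH298.Sch (dd SC)
open Pool.Agent.R227.SA (la Wat Dat)
open TH259.NS (B J)

/-! ### auxiliary lemmas for `radial_solution` -/

/-- the rotation about `p` by `a` -/
noncomputable def rad_A (p a x : ℂ) : ℂ := p + a * (x - p)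

theorem rad_norm {p a : ℂ} (ha : ‖a‖ = 1) (x : ℂ) : ‖rad_A p a x - p‖ = ‖x - p‖ := by
  unfold rad_A
  rw [add_sub_cancel_left, norm_mul, ha, one_mul]

theorem rad_hasF (p a x : ℂ) :
    HasFDerivAt (rad_A p a) (ContinuousLinearMap.mul ℝ ℂ a) x := by
  have h1 : HasFDerivAt (fun y : ℂ => y - p) (ContinuousLinearMap.id ℝ ℂ) x :=
    (hasFDerivAt_id x).sub_const p
  have h2 := ((ContinuousLinearMap.mul ℝ ℂ a).hasFDerivAt.comp x h1).const_add p
  exact h2

theorem rad_smooth (p a : ℂ) : ContDiff ℝ ∞ (rad_A p a) := by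
  unfold rad_A
  fun_prop

theorem rad_fd {p a x : ℂ} {f : ℂ → ℝ} (hf : DifferentiableAt ℝ f (rad_A p a x)) (v : ℂ) :
    fderiv ℝ (fun y => f (rad_A p a y)) x v = fderiv ℝ f (rad_A p a x) (a * v) := by
  have h1 := hf.hasFDerivAt.comp x (rad_hasF p a x)
  have h2 : fderiv ℝ (fun y => f (rad_A p a y)) x =
      (fderiv ℝ f (rad_A p a x)).comp (ContinuousLinearMap.mul ℝ ℂ a) := h1.fderiv
  rw [h2]
  rfl

theorem rad_fd2 {p a x : ℂ} {f : ℂ → ℝ} {D : Set ℂ} (hD : IsOpen D) (hf : ContDiffOn ℝ 2 f D)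
    (hA : ∀ y ∈ D, rad_A p a y ∈ D) (hx : x ∈ D) (v : ℂ) :
    fderiv ℝ (fun y => fderiv ℝ (fun y' => f (rad_A p a y')) y v) x v =
      fderiv ℝ (fderiv ℝ f) (rad_A p a x) (a * v) (a * v) := by
  have hd : ∀ y ∈ D, DifferentiableAt ℝ f y := fun y hy =>
    (hf.differentiableOn (by norm_num) y hy).differentiableAt (hD.mem_nhds hy)
  have h1 : (fun y => fderiv ℝ (fun y' => f (rad_A p a y')) y v) =ᶠ[𝓝 x]
      fun y => (fun y' => fderiv ℝ f y' (a * v)) (rad_A p a y) := by
    filter_upwards [hD.mem_nhds hx] with y hy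
    exact rad_fd (hd _ (hA y hy)) v
  have h2 : DifferentiableAt ℝ (fderiv ℝ f) (rad_A p a x) := by
    have h3 : ContDiffAt ℝ 2 f (rad_A p a x) := hf.contDiffAt (hD.mem_nhds (hA x hx))
    have h4 : ContDiffAt ℝ 1 (fderiv ℝ f) (rad_A p a x) := h3.fderiv_right (by norm_num)
    exact h4.differentiableAt (by norm_num)
  rw [h1.fderiv_eq, rad_fd (f := fun y' => fderiv ℝ f y' (a * v))
    (h2.clm_apply (differentiableAt_const _)), fderiv_clm_apply h2 (differentiableAt_const _)]
  simp

theorem rad_lap0 {x : ℂ} {f : ℂ → ℝ} {D : Set ℂ} (hD : IsOpen D) (hf : ContDiffOn ℝ 2 f D)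
    (hx : x ∈ D) (v : ℂ) :
    fderiv ℝ (fun y => fderiv ℝ f y v) x v = fderiv ℝ (fderiv ℝ f) x v v := by
  have h2 : DifferentiableAt ℝ (fderiv ℝ f) x := by
    have h3 : ContDiffAt ℝ 2 f x := hf.contDiffAt (hD.mem_nhds hx)
    have h4 : ContDiffAt ℝ 1 (fderiv ℝ f) x := h3.fderiv_right (by norm_num)
    exact h4.differentiableAt (by norm_num)
  rw [fderiv_clm_apply h2 (differentiableAt_const _)]
  simp

/-- the Laplacian is invariant under rotations -/
theorem rad_lap {p a x : ℂ} (ha : ‖a‖ = 1) {f : ℂ → ℝ} {D : Set ℂ} (hD : IsOpen D)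
    (hf : ContDiffOn ℝ 2 f D) (hA : ∀ y ∈ D, rad_A p a y ∈ D) (hx : x ∈ D) :
    lap (fun y => f (rad_A p a y)) x = lap f (rad_A p a x) := by
  unfold lap
  rw [rad_fd2 hD hf hA hx, rad_fd2 hD hf hA hx, rad_lap0 hD hf (hA x hx),
    rad_lap0 hD hf (hA x hx)]
  set Q := fderiv ℝ (fderiv ℝ f) (rad_A p a x)
  have e1 : a * 1 = a.re • (1 : ℂ) + a.im • Complex.I := by
    apply Complex.ext <;> simp
  have e2 : a * Complex.I = (-a.im) • (1 : ℂ) + a.re • Complex.I := by
    apply Complex.ext <;> simp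
  have e3 : a.re ^ 2 + a.im ^ 2 = 1 := by
    have := Complex.sq_norm a
    rw [ha, Complex.normSq_apply] at this
    nlinarith
  rw [e1, e2]
  simp only [map_add, map_smul, ContinuousLinearMap.add_apply, ContinuousLinearMap.smul_apply,
    smul_eq_mul]
  linear_combination (Q 1 1 + Q Complex.I Complex.I) * e3

/-- integrals are invariant under rotations -/
theorem rad_int {p a : ℂ} (ha : ‖a‖ = 1) (F : ℂ → ℝ) : ∫ x, F (rad_A p a x) = ∫ x, F x := by
  have h1 : ∫ x, F (rad_A p a x) = ∫ y, F (p + a * y) :=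
    integral_sub_right_eq_self (fun y => F (p + a * y)) p
  have ha' : a ∈ Submonoid.unitSphere ℂ := by
    simp [Submonoid.unitSphere, ha]
  have h2 : ∫ y, F (p + a * y) = ∫ y, F (p + y) := by
    have h3 := (rotation (⟨a, ha'⟩ : Circle)).measurePreserving.integral_comp
      (rotation (⟨a, ha'⟩ : Circle)).toHomeomorph.measurableEmbedding (fun y => F (p + y))
    exact h3
  rw [h1, h2]
  exact integral_add_left_eq_self F p

/-- the difference of a drum solution and its rotation is a drum solution -/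
theorem rad_drum {R : Set ℂ} {c : ℝ} {z : ℂ → ℝ → ℝ} {g : ℂ → ℝ → ℂ}
    (h : DrumSolution R c z g) {p a : ℂ} {ρ : ℝ} (hρ : 0 < ρ) (ha : ‖a‖ = 1)
    (hR : R = Metric.sphere p ρ)
    (hn : ∃ x ∈ Metric.closedBall p ρ, ∃ t, z x t - z (rad_A p a x) t ≠ 0) :
    DrumSolution R c (fun x t => z x t - z (rad_A p a x) t)
      (fun x t => g x t - conj a * g (rad_A p a x) t) := by
  have hin : inside R = Metric.ball p ρ := by rw [hR]; exact inside_sphere p hρ
  have hcl : inside R ∪ R = Metric.closedBall p ρ := by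
    rw [hin, hR]; exact Metric.ball_union_sphere
  have hD : IsOpen (inside R) := by rw [hin]; exact Metric.isOpen_ball
  have hA : ∀ y ∈ inside R, rad_A p a y ∈ inside R := by
    intro y hy
    rw [hin, mem_ball_iff_norm] at hy ⊢
    rwa [rad_norm ha]
  have hAc : ∀ y ∈ inside R ∪ R, rad_A p a y ∈ inside R ∪ R := by
    intro y hy
    rw [hcl, mem_closedBall_iff_norm] at hy ⊢
    rwa [rad_norm ha]
  have hAR : ∀ y ∈ R, rad_A p a y ∈ R := by
    intro y hy
    rw [hR, mem_sphere_iff_norm] at hy ⊢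
    rwa [rad_norm ha]
  have hmap : ContDiff ℝ 2 (fun q : ℂ × ℝ => (rad_A p a q.1, q.2)) :=
    (((rad_smooth p a).of_le (by norm_cast)).comp contDiff_fst).prodMk contDiff_snd
  have hsl : ∀ t, ContDiffOn ℝ 2 (fun y => z y t) (inside R) := by
    intro t
    have h1 : ContDiff ℝ 2 (fun y : ℂ => (y, t)) := contDiff_id.prodMk contDiff_const
    exact h.smooth.comp h1.contDiffOn (fun y hy => ⟨hy, mem_univ _⟩)
  have hst : ∀ x ∈ inside R, ∀ t, ContDiffAt ℝ 2 (z x) t := by
    intro x hx t
    have h1 : ContDiffAt ℝ 2 (fun q : ℂ × ℝ => z q.1 q.2) (x, t) :=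
      h.smooth.contDiffAt ((hD.prod isOpen_univ).mem_nhds ⟨hx, mem_univ _⟩)
    have h2 : ContDiffAt ℝ 2 (fun s : ℝ => (x, s)) t :=
      (contDiff_const.prodMk contDiff_id).contDiffAt
    exact h1.comp t h2
  have hd : ∀ y ∈ inside R, ∀ t, DifferentiableAt ℝ (fun y => z y t) y := fun y hy t =>
    ((hsl t).differentiableOn (by norm_num) y hy).differentiableAt (hD.mem_nhds hy)
  have hdA : ∀ y ∈ inside R, ∀ t, DifferentiableAt ℝ (fun y => z (rad_A p a y) t) y :=
    fun y hy t => (hd _ (hA y hy) t).comp y (rad_hasF p a y).differentiableAt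
  refine ⟨?_, ?_, ?_, ?_, ?_, ?_, ?_⟩
  · exact h.smooth.sub (h.smooth.comp hmap.contDiffOn fun q hq => ⟨hA _ hq.1, mem_univ _⟩)
  · exact h.cont.sub (h.cont.comp hmap.continuous.continuousOn
      fun q hq => ⟨hAc _ hq.1, mem_univ _⟩)
  · intro x hx t
    rw [h.grad x hx t, h.grad _ (hA x hx) t,
      fderiv_fun_sub (hd x hx t) (hdA x hx t)]
    simp only [ContinuousLinearMap.sub_apply]
    rw [rad_fd (f := fun y => z y t) (hd _ (hA x hx) t),
      rad_fd (f := fun y => z y t) (hd _ (hA x hx) t)]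
    set Q := fderiv ℝ (fun y => z y t) (rad_A p a x)
    have e1 : a * 1 = a.re • (1 : ℂ) + a.im • Complex.I := by
      apply Complex.ext <;> simp
    have e2 : a * Complex.I = (-a.im) • (1 : ℂ) + a.re • Complex.I := by
      apply Complex.ext <;> simp
    rw [e1, e2]
    simp only [map_add, map_smul, smul_eq_mul]
    apply Complex.ext
    · simp
    · simp
      ring
  · refine h.grad_cont.sub (continuousOn_const.mul ?_)
    exact h.grad_cont.comp hmap.continuous.continuousOn fun q hq => ⟨hAc _ hq.1, mem_univ _⟩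
  · intro x hx t
    have e1 : iteratedDeriv 2 (fun t => z x t - z (rad_A p a x) t) t =
        iteratedDeriv 2 (z x) t - iteratedDeriv 2 (z (rad_A p a x)) t :=
      iteratedDeriv_fun_sub (hst x hx t) (hst _ (hA x hx) t)
    have hrot : ContDiffOn ℝ 2 (fun y => z (rad_A p a y) t) (inside R) :=
      (hsl t).comp (((rad_smooth p a).of_le (by norm_cast)).contDiffOn) hA
    have e2 : lap (fun y => z y t - z (rad_A p a y) t) x =
        lap (fun y => z y t) x - lap (fun y => z (rad_A p a y) t) x :=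
      m3b_la_sub hD (hsl t) hrot hx
    rw [e1, h.wave x hx t, h.wave _ (hA x hx) t, e2, rad_lap ha hD (hsl t) hA hx]
    ring
  · intro x hx t
    show z x t - z (rad_A p a x) t = 0
    rw [h.clamped x hx t, h.clamped _ (hAR x hx) t, sub_zero]
  · rw [hcl]
    exact hn

/-- a mode together with superpositions that converge to it -/
theorem rad_mode {R : Set ℂ} {c : ℝ} {z : ℂ → ℝ → ℝ} {g : ℂ → ℝ → ℂ} (hR : IsCompact R)
    (hc : 0 < c) (h : DrumSolution R c z g) : ∃ lam > 0, ∃ u, Mode R g lam u ∧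
      ∃ W : ℕ → ℝ → ℝ, (∀ n, ContDiff ℝ ∞ (W n) ∧ HasCompactSupport (W n)) ∧
        TendstoUniformly (fun n x => ∫ t, W n t * zx R z x t) u atTop := by
  obtain ⟨hDo, hDb, -, -, -⟩ := inside_basic hR
  obtain ⟨hzc, hze⟩ := zc_cont hR h
  obtain ⟨x₀, hx₀, t₀, ht₀⟩ := h.nontrivial
  have hne : cl (fun x => zx R z x t₀) ≠ 0 := by
    intro hz
    have e1 := hze t₀
    rw [hz] at e1
    have e2 : (fun x => zx R z x t₀) =ᵐ[volume] fun _ => (0:ℝ) := by
      filter_upwards [e1, Lp.coeFn_zero ℝ 2 (volume : Measure ℂ)] with x h1 h2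
      rw [← h1, h2]
      rfl
    have hc1 : Continuous (fun x => zx R z x t₀) :=
      (zx_cont hR h).comp (continuous_id.prodMk continuous_const)
    have e3 : (fun x => zx R z x t₀) = fun _ => (0:ℝ) :=
      (hc1.ae_eq_iff_eq volume continuous_const).1 e2
    have e4 := congrFun e3 x₀
    simp only [zx] at e4
    by_cases hx : x₀ ∈ inside R
    · rw [indicator_of_mem hx] at e4
      exact ht₀ e4
    · rcases hx₀ with hx' | hx'
      · exact hx hx'
      · exact ht₀ (h.clamped x₀ hx' t₀)
  have hpos : ∀ (μ : ℝ) (ψ : L2), ψ ≠ 0 → K (inside R) ψ = μ • ψ → 0 ≤ μ ∧ μ < 1 :=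
    fun μ ψ hψ h => K_eig hDb hψ h
  obtain ⟨μ, ψ, h0, h1, hψ, hi⟩ := exists_comp (K (inside R)) (K_compact hDb) (K_symm _) hpos hc _ hzc
    (fun W hW hWc => wave_K hR hc h hW hWc) t₀ hne
  obtain ⟨u, hu, hu0, -, -, hne', W, hW, h1', h2'⟩ := mode_limit hR hc h h0 h1 hψ hi
  have hlam : 0 < 1 / μ - 1 := by
    rw [sub_pos, lt_div_iff₀ h0]
    linarith
  obtain ⟨a, b, c'⟩ := mode_props hR hc h hlam hu hu0 hW h1' h2'
  refine ⟨1 / μ - 1, hlam, u, ⟨a, ?_, b,
    fun hg => c' fun W hW hWc φ hφ => green_across hR hc h hg W hW hWc φ hφ⟩, W, hW, h1'⟩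
  by_contra! hz
  apply hne'
  have e : u = fun _ => 0 := funext hz
  have : cl u = 0 := by
    rw [e]
    unfold cl
    split_ifs with hm
    · exact (MemLp.toLp_zero hm)
    · rfl
  rw [this, inner_zero_right]

/-- TARGET: a drum solution on a circle whose gradient vanishes along a concentric circle is radial. -/
theorem radial_solution {R : Set ℂ} {c : ℝ} {z : ℂ → ℝ → ℝ} {g : ℂ → ℝ → ℂ} (hc : 0 < c)
    (h : DrumSolution R c z g) {p : ℂ} {ρ r : ℝ} (hr : 0 < r) (hrρ : r < ρ)
    (hR : R = Metric.sphere p ρ) (hg : ∀ x ∈ Metric.sphere p r, ∀ t, g x t = 0) :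
    ∀ x ∈ Metric.closedBall p ρ, ∀ y ∈ Metric.closedBall p ρ, ‖x - p‖ = ‖y - p‖ →
      ∀ t, z x t = z y t := by
  have hρ : 0 < ρ := hr.trans hrρ
  have hin : inside R = Metric.ball p ρ := by rw [hR]; exact inside_sphere p hρ
  have hcl : inside R ∪ R = Metric.closedBall p ρ := by
    rw [hin, hR]; exact Metric.ball_union_sphere
  have hRs : SimpleClosedCurve R := by rw [hR]; exact scc_sphere p hρ
  have hRc : IsCompact R := (scc_basic hRs).1
  -- invariance under every rotation
  have key : ∀ a : ℂ, ‖a‖ = 1 → ∀ x ∈ Metric.closedBall p ρ, ∀ t, z x t = z (rad_A p a x) t := by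
    intro a ha
    by_contra! hn
    obtain ⟨x₀, hx₀, t₀, hxt⟩ := hn
    have hw := rad_drum h hρ ha hR ⟨x₀, hx₀, t₀, sub_ne_zero.2 hxt⟩
    obtain ⟨lam, hlam, u, hm, W, hW, hlim⟩ := rad_mode hRc hc hw
    have hsub : Metric.sphere p r ⊆ inside R ∪ R := by
      rw [hcl]
      intro x hx
      rw [mem_sphere_iff_norm] at hx
      rw [mem_closedBall_iff_norm, hx]
      exact hrρ.le
    obtain ⟨hsub', k, hk, huk⟩ := hm.const_curve hRs hlam (scc_sphere p hr) hsub (by
      intro x hx t
      have hx' : rad_A p a x ∈ Metric.sphere p r := by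
        rw [mem_sphere_iff_norm] at hx ⊢
        rwa [rad_norm ha]
      show g x t - conj a * g (rad_A p a x) t = 0
      rw [hg x hx t, hg _ hx' t, mul_zero, sub_zero])
    have hcr : ∀ x ∈ Metric.sphere p r, fderiv ℝ u x = 0 := fun x hx => by
      have hx' : rad_A p a x ∈ Metric.sphere p r := by
        rw [mem_sphere_iff_norm] at hx ⊢
        rwa [rad_norm ha]
      refine hm.crit x (hsub' hx) fun t => ?_
      show g x t - conj a * g (rad_A p a x) t = 0
      rw [hg x hx t, hg _ hx' t, mul_zero, sub_zero]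
    obtain ⟨ρ', -, -, -, -, -, -, hrad⟩ := disc_case hRs (scc_sphere p hr) hlam hm.wat hsub' hk huk
      hcr hr (inside_sphere p hr)
    have hmemA : ∀ x, rad_A p a x ∈ inside R ↔ x ∈ inside R := by
      intro x
      rw [hin, mem_ball_iff_norm, mem_ball_iff_norm, rad_norm ha]
    have huA : ∀ x, u (rad_A p a x) = u x := by
      intro x
      by_cases hx : x ∈ inside R
      · rw [hrad x hx, hrad _ ((hmemA x).2 hx), rad_norm ha]
      · rw [hm.wat.out x hx, hm.wat.out _ fun h' => hx ((hmemA x).1 h')]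
    -- superpositions of the difference
    have hzx : ∀ x t, zx R (fun x t => z x t - z (rad_A p a x) t) x t =
        zx R z x t - zx R z (rad_A p a x) t := by
      intro x t
      unfold zx
      by_cases hx : x ∈ inside R
      · rw [indicator_of_mem hx, indicator_of_mem hx, indicator_of_mem ((hmemA x).2 hx)]
      · rw [indicator_of_notMem hx, indicator_of_notMem hx,
          indicator_of_notMem fun h' => hx ((hmemA x).1 h'), sub_zero]
    have hzc := zx_cont hRc h
    have hDb : Bornology.IsBounded (inside R) := by rw [hin]; exact Metric.isBounded_ball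
    have hucs : HasCompactSupport u := by
      refine HasCompactSupport.intro (isCompact_closedBall p ρ) fun x hx => hm.wat.out x ?_
      rw [hin]
      exact fun h' => hx (Metric.ball_subset_closedBall h')
    have hzero : ∀ n, ∫ x, (∫ t, W n t * zx R (fun x t => z x t - z (rad_A p a x) t) x t) * u x
        = 0 := by
      intro n
      set Y : ℂ → ℝ := fun x => ∫ t, W n t * zx R z x t with hY
      have hYc : Continuous Y := (zW_nice hRc hc h (hW n).1 (hW n).2).1
      have hi : ∀ x, Integrable (fun t => W n t * zx R z x t) := by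
        intro x
        have h1 : Continuous (fun t => W n t * zx R z x t) :=
          (hW n).1.continuous.mul (hzc.comp (continuous_const.prodMk continuous_id))
        exact h1.integrable_of_hasCompactSupport (hW n).2.mul_right
      have e1 : ∀ x, ∫ t, W n t * zx R (fun x t => z x t - z (rad_A p a x) t) x t =
          Y x - Y (rad_A p a x) := by
        intro x
        simp only [hzx, mul_sub]
        rw [integral_sub (hi x) (hi _)]
      have hYu : Integrable (fun x => Y x * u x) :=
        (hYc.mul hm.wat.cont).integrable_of_hasCompactSupport hucs.mul_left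
      have hAc : Continuous (rad_A p a) := (rad_smooth p a).continuous
      have hYuA : Integrable (fun x => Y (rad_A p a x) * u x) :=
        ((hYc.comp hAc).mul hm.wat.cont).integrable_of_hasCompactSupport hucs.mul_left
      simp only [e1, sub_mul]
      rw [integral_sub hYu hYuA]
      have e2 : ∫ x, Y (rad_A p a x) * u x = ∫ x, Y x * u x := by
        rw [← rad_int (p := p) ha (fun x => Y x * u x)]
        refine integral_congr_ae (Eventually.of_forall fun x => ?_)
        show Y (rad_A p a x) * u x = Y (rad_A p a x) * u (rad_A p a x)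
        rw [huA]
      rw [e2, sub_self]
    have hlim2 := m3b_lim hlim (fun n => (zW_nice hRc hc hw (hW n).1 (hW n).2).1) hm.wat.cont
      hm.wat.cont hucs
    simp_rw [hzero] at hlim2
    have hint : ∫ x, u x * u x = 0 := (tendsto_nhds_unique hlim2 tendsto_const_nhds)
    have hcc : Continuous (fun x => u x * u x) := hm.wat.cont.mul hm.wat.cont
    have h3 : (fun x => u x * u x) =ᵐ[volume] 0 :=
      (integral_eq_zero_iff_of_nonneg (fun x => mul_self_nonneg _)
        (hcc.integrable_of_hasCompactSupport hucs.mul_left)).1 hint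
    have h4 : (fun x => u x * u x) = fun _ => (0 : ℝ) :=
      (hcc.ae_eq_iff_eq volume continuous_const).1 h3
    obtain ⟨x, hx⟩ := hm.ne
    exact hx (mul_self_eq_zero.1 (congrFun h4 x))
  intro x hx y hy hxy t
  by_cases hxp : x = p
  · have : y = p := by
      rw [hxp, sub_self, norm_zero] at hxy
      exact sub_eq_zero.1 (norm_eq_zero.1 hxy.symm)
    rw [hxp, this]
  · have hxp' : x - p ≠ 0 := sub_ne_zero.2 hxp
    have ha : ‖(y - p) / (x - p)‖ = 1 := by
      rw [norm_div, ← hxy, div_self (norm_ne_zero_iff.2 hxp')]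
    have h1 := key _ ha x hx t
    have h2 : rad_A p ((y - p) / (x - p)) x = y := by
      unfold rad_A
      rw [div_mul_cancel₀ _ hxp']
      ring
    rwa [h2] at h1

end Pool.Agent.Helper327_Drum
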