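import Pool.Agent.Helper327_Drum.Fin.AS2
import Pool.Agent.Helper327_Drum.Fin.P0
import Pool.Agent.Helper327_Drum.Fin.P1
import Pool.Agent.Helper327_Drum.Fin.P2
import Pool.Agent.Helper327_Drum.Fin.P5
import Pool.Agent.Helper327_Drum.Fin.P9
import Pool.Agent.Helper327_Drum.Fin.RAD

/-! Drum solutions with infinitely many frequencies. -/

set_option autoImplicit false
open MeasureTheory Set Filter Topology ComplexConjugate
open scoped ContDiff InnerProductSpace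

namespace Pool.Agent.Helper327_Drum

open Pool.Agent.TH298.Sch (dd SC)
open Pool.Agent.R227.SA (la Wat Dat)
open TH259.NS (B J)

/-- if the curve encloses a disc, then everything is radial -/
theorem radial_conclusion {R γ : Set ℂ} {c : ℝ} {z : ℂ → ℝ → ℝ} {g : ℂ → ℝ → ℂ}
    (hR : SimpleClosedCurve R) (hc : 0 < c) (h : DrumSolution R c z g) (hγ : SimpleClosedCurve γ)
    (hsub : γ ⊆ inside R ∪ R) (hg : ∀ x ∈ γ, ∀ t, g x t = 0) {p : ℂ} {r : ℝ} (hr : 0 < r)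
    (hball : inside γ = Metric.ball p r) :
    ∃ ρ : ℝ, r < ρ ∧ R = Metric.sphere p ρ ∧ γ = Metric.sphere p r ∧
      ∀ x ∈ Metric.closedBall p ρ, ∀ y ∈ Metric.closedBall p ρ, ‖x - p‖ = ‖y - p‖ →
        ∀ t, z x t = z y t := by
  obtain ⟨lam, hlam, u, hm⟩ := mode_exists (scc_basic hR).1 hc h
  obtain ⟨hsub', k, hk, huk⟩ := hm.const_curve hR hlam hγ hsub hg
  have hcr : ∀ x ∈ γ, fderiv ℝ u x = 0 := fun x hx => hm.crit x (hsub' hx) (hg x hx)
  obtain ⟨ρ, hrρ, hRs, -, hγs, -⟩ := disc_case hR hγ hlam hm.wat hsub' hk huk hcr hr hball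
  refine ⟨ρ, hrρ, hRs, hγs, radial_solution hc h hr hrρ hRs fun x hx t => hg x ?_ t⟩
  rw [hγs]
  exact hx

/-- A drum solution with infinitely many frequencies whose gradient vanishes along a closed curve is radial. -/
theorem infinite_freq {R γ : Set ℂ} {c : ℝ} {z : ℂ → ℝ → ℝ} {g : ℂ → ℝ → ℂ}
    (hR : SimpleClosedCurve R) (hc : 0 < c) (h : DrumSolution R c z g) (hγ : SimpleClosedCurve γ)
    (hsub : γ ⊆ inside R ∪ R) (hg : ∀ x ∈ γ, ∀ t, g x t = 0)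
    (hinf : {lam | Excites R z lam}.Infinite) :
    ∃ (p : ℂ) (r ρ : ℝ), 0 < r ∧ r < ρ ∧ R = Metric.sphere p ρ ∧ γ = Metric.sphere p r ∧
      ∀ x ∈ Metric.closedBall p ρ, ∀ y ∈ Metric.closedBall p ρ, ‖x - p‖ = ‖y - p‖ →
        ∀ t, z x t = z y t := by
  obtain ⟨hRc, hRcon, hRinf⟩ := scc_basic hR
  obtain ⟨hγc, hγcon, hγinf⟩ := scc_basic hγ
  obtain ⟨hDo, hDb, hfr, hcl, hdj⟩ := inside_basic hRc
  obtain ⟨hΩo, hΩb, hΩfr, -, -⟩ := inside_basic hγc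
  -- the data of each excited eigenvalue
  have hdata : ∀ lam, Excites R z lam → 0 < lam ∧ ∃ (u : ℂ → ℝ) (k : ℝ), Mode R g lam u ∧
      γ ⊆ inside R ∧ k ≠ 0 ∧ (∀ x ∈ γ, u x = k) ∧ (∀ x ∈ γ, fderiv ℝ u x = 0) ∧
      (inside γ).Nonempty ∧ Dat (inside γ) lam k ((inside γ).indicator fun x => u x - k) := by
    intro lam hE
    obtain ⟨hlam, u, hm⟩ := mode_of_excites hRc hc h hE
    obtain ⟨hsub', k, hk, huk⟩ := hm.const_curve hR hlam hγ hsub hg
    have hcr : ∀ x ∈ γ, fderiv ℝ u x = 0 := fun x hx => hm.crit x (hsub' hx) (hg x hx)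
    obtain ⟨hne, hdat⟩ := crit_dat hR hγ hlam hm.wat hsub' hk huk hcr
    exact ⟨hlam, u, k, hm, hsub', hk, huk, hcr, hne, hdat⟩
  have hunb := fun n : ℕ => excited_unbounded hRc h hinf (n : ℝ)
  choose L hL1 hL2 using hunb
  have hLtop : Tendsto (fun n => √(L n)) atTop atTop := by
    refine Real.tendsto_sqrt_atTop.comp (tendsto_atTop_mono (fun n => (hL1 n).le) ?_)
    exact tendsto_natCast_atTop_atTop
  obtain ⟨hlam, u, k, hm, hsub', hk, huk, hcr, hne, hdat⟩ := hdata (L 0) (hL2 0)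
  obtain ⟨hΩc, hΩfr', hΩreg⟩ := inside_jordan hγ hne
  have hch := exists_chart hDo hlam hm.wat hk hsub' huk hcr hΩo hΩfr' hΩreg
  have hz : ∀ n θ, ∫ x in inside γ, Complex.exp (Complex.I * ((√(L n) * ip x (ee θ) : ℝ) : ℂ)) = 0 := by
    intro n θ
    obtain ⟨hlam', u', k', -, -, hk', -, -, -, hdat'⟩ := hdata (L n) (hL2 n)
    exact wave_zero hdat' hΩo hΩb hlam' hk' θ
  obtain ⟨q, r, θ₁, θ₂, hr, hθ, harc⟩ := wave_arc hΩo hΩb hγinf.nonempty hΩfr' hch hLtop hz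
  obtain ⟨p, r', hr', hball⟩ := arc_disc hR hγ hlam hm.wat hsub' hk huk hcr hr hθ harc
  obtain ⟨ρ, h1, h2, h3, h4⟩ := radial_conclusion hR hc h hγ hsub hg hr' hball
  exact ⟨p, r', ρ, hr', h1, h2, h3, h4⟩

end Pool.Agent.Helper327_Drum
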