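import Pool.Agent.Helper327_Drum.BDefs
import Pool.Agent.Helper327_Drum.Fin.P3
import Pool.Agent.R227.SA13
import Pool.Agent.Helper327_Drum.Fin.ST1

/-
JOB ST4 (owner helper327, problem MP_d92c84_an). All imports are on origin/main.
-/

set_option autoImplicit false
open MeasureTheory Set Filter Topology ComplexConjugate
open scoped ContDiff InnerProductSpace

namespace Pool.Agent.Helper327_Drum

open Pool.Agent.TH298.Sch (dd SC)
open Pool.Agent.R227.SA (la Wat Dat)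

/-
Plain proof. Let G = {q ∈ Γ : ∀ᶠ x in 𝓝[Γ] q, fderiv u' x = 0}. G is open in Γ. G is closed in Γ: let q ∈ Γ be in the closure of G; take the box at q. Near q every point of Γ is of the form
cx q e ψ t with t near 0 (the coordinate t = Re((x - q) conj e) is continuous, ‖e‖ = 1), and ψ is continuous at 0, so for small |t| also |ψ t| < δ and cx q e ψ t ∈ Γ. If q ∈ G there is nothing
to prove; otherwise there are points of G near q, different from q, so there are t ≠ 0 arbitrarily small with fderiv u' (cx q e ψ t) = 0; `share_graph` gives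
fderiv u' (cx q e ψ t) = 0 for all small t, so q ∈ G. x₀ ∈ G: points of A near x₀, different from x₀, lie in crit ∩ box = graph, and fderiv u' = 0 there; apply `share_graph` again. Since Γ is
connected, G = Γ, and fderiv u' q = 0 for q ∈ G (q itself is in every neighbourhood within Γ).
Second target: O = union of the boxes of the points of Γ (`box_open` in P3.lean).
-/

theorem share_aux_coord {q e : ℂ} (he : ‖e‖ = 1) (x : ℂ) :
    x = q + ((((x - q) * conj e).re : ℝ) + (((x - q) * conj e).im : ℝ) * Complex.I) * e := by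
  have hee : e * conj e = 1 := by
    rw [Complex.mul_conj, Complex.normSq_eq_norm_sq, he]; simp
  rw [Complex.re_add_im, mul_assoc, mul_comm (conj e) e, hee, mul_one]
  ring

theorem share_aux_cont (q e : ℂ) : Continuous (fun x : ℂ => (x - q) * conj e) :=
  (continuous_id.sub continuous_const).mul continuous_const

/-- near the centre the coordinates are small -/
theorem share_aux_small (q e : ℂ) {δ : ℝ} (hδ : 0 < δ) :
    ∀ᶠ x in 𝓝 q, |((x - q) * conj e).re| < δ ∧ |((x - q) * conj e).im| < δ := by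
  have hc := share_aux_cont q e
  have h1 : IsOpen {x : ℂ | |((x - q) * conj e).re| < δ ∧ |((x - q) * conj e).im| < δ} :=
    (isOpen_lt (Complex.continuous_re.comp hc).abs continuous_const).inter
      (isOpen_lt (Complex.continuous_im.comp hc).abs continuous_const)
  exact h1.mem_nhds (by simpa using hδ)

theorem share_aux_freq {q e : ℂ} (he : ‖e‖ = 1) {ψ : ℝ → ℝ} (hψ0 : ψ 0 = 0) {p : ℂ → Prop}
    (h : ∃ᶠ y in 𝓝 q, y ≠ q ∧ ((y - q) * conj e).im = ψ ((y - q) * conj e).re ∧ p y) :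
    ∃ᶠ t in 𝓝[≠] (0:ℝ), p (cx q e ψ t) := by
  have hT : Tendsto (fun x : ℂ => ((x - q) * conj e).re) (𝓝 q) (𝓝 0) := by
    have h1 := (Complex.continuous_re.comp (share_aux_cont q e)).tendsto q
    have h2 : (Complex.re ∘ fun x : ℂ => (x - q) * conj e) q = 0 := by simp
    rw [h2] at h1
    exact h1
  rw [frequently_nhdsWithin_iff]
  refine hT.frequently (h.mono ?_)
  rintro y ⟨h1, h2, h3⟩
  have h4 := share_aux_coord (q := q) he y
  rw [h2] at h4
  refine ⟨?_, ?_⟩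
  · unfold cx
    rw [← h4]
    exact h3
  · intro h5
    have h5' : ((y - q) * conj e).re = 0 := h5
    rw [h5', hψ0] at h4
    apply h1
    rw [h4]
    simp

/-- TARGET 1: a second function whose gradient vanishes on a set accumulating at a point of Γ. -/
theorem share_component {D crit Γ A : Set ℂ} {lam : ℝ} (hlam : 0 < lam) {u' : ℂ → ℝ}
    (hu' : Wat D lam u') (hΓ : IsConnected Γ) (hΓD : Γ ⊆ D)
    (hloc : ∀ q ∈ Γ, ∃ (e : ℂ) (δ : ℝ) (ψ : ℝ → ℝ), ‖e‖ = 1 ∧ 0 < δ ∧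
      AnalyticAt ℝ ψ 0 ∧ ψ 0 = 0 ∧ ∀ t s : ℝ, |t| < δ → |s| < δ →
        ((q + (t + s * Complex.I) * e ∈ crit ↔ s = ψ t) ∧
          (q + (t + s * Complex.I) * e ∈ Γ ↔ s = ψ t)))
    (hA : A ⊆ crit) {x₀ : ℂ} (hx₀ : x₀ ∈ Γ) (hacc : AccPt x₀ (𝓟 A))
    (hu'A : ∀ x ∈ A, fderiv ℝ u' x = 0) : ∀ x ∈ Γ, fderiv ℝ u' x = 0 := by
  obtain ⟨G, hG⟩ : ∃ G : Set Γ, G = {q : Γ | ∀ᶠ x : Γ in 𝓝 q, fderiv ℝ u' (x : ℂ) = 0} := ⟨_, rfl⟩
  have hGo : IsOpen G := by rw [hG]; exact isOpen_setOfPred_eventually_nhds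
  -- the criterion
  have key : ∀ (q : Γ) (e : ℂ) (δ : ℝ) (ψ : ℝ → ℝ), ‖e‖ = 1 → 0 < δ → AnalyticAt ℝ ψ 0 → ψ 0 = 0 →
      (∀ t s : ℝ, |t| < δ → |s| < δ →
        (((q : ℂ) + (t + s * Complex.I) * e ∈ crit ↔ s = ψ t) ∧
          ((q : ℂ) + (t + s * Complex.I) * e ∈ Γ ↔ s = ψ t))) →
      (∃ᶠ y : ℂ in 𝓝 (q : ℂ), y ≠ (q : ℂ) ∧ ((y - q) * conj e).im = ψ ((y - q) * conj e).re ∧
        fderiv ℝ u' y = 0) → q ∈ G := by
    intro q e δ ψ he hδ hψ hψ0 hbox hfr
    have h1 := share_graph hlam hu' (hΓD q.2) hψ hψ0 (share_aux_freq he hψ0 hfr)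
    have hT : Tendsto (fun x : Γ => (((x : ℂ) - q) * conj e).re) (𝓝 q) (𝓝 0) := by
      have h1 := ((Complex.continuous_re.comp (share_aux_cont (q : ℂ) e)).comp
        (continuous_subtype_val (p := fun x => x ∈ Γ))).tendsto q
      have h2 : ((Complex.re ∘ fun x : ℂ => (x - (q : ℂ)) * conj e) ∘ Subtype.val) q = 0 := by simp
      rw [h2] at h1
      exact h1
    have hsm : ∀ᶠ x : Γ in 𝓝 q, |(((x : ℂ) - q) * conj e).re| < δ ∧ |(((x : ℂ) - q) * conj e).im| < δ :=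
      (continuous_subtype_val.tendsto q).eventually (share_aux_small (q : ℂ) e hδ)
    rw [hG]
    change ∀ᶠ x : Γ in 𝓝 q, fderiv ℝ u' (x : ℂ) = 0
    filter_upwards [hT.eventually h1, hsm] with x hx1 hx2
    have h3 := share_aux_coord (q := (q : ℂ)) he (x : ℂ)
    have h4 := (hbox _ _ hx2.1 hx2.2).2
    rw [← h3] at h4
    have h5 := h4.mp x.2
    rw [h5] at h3
    rw [h3]
    exact hx1
  have hGc : IsClosed G := by
    rw [← closure_subset_iff_isClosed]
    intro q hq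
    by_contra hqG
    obtain ⟨e, δ, ψ, he, hδ, hψ, hψ0, hbox⟩ := hloc q q.2
    apply hqG
    apply key q e δ ψ he hδ hψ hψ0 hbox
    have h1 : ∃ᶠ x in 𝓝 q, x ∈ G := mem_closure_iff_frequently.mp hq
    have hsm : ∀ᶠ x : Γ in 𝓝 q, |(((x : ℂ) - q) * conj e).re| < δ ∧ |(((x : ℂ) - q) * conj e).im| < δ :=
      (continuous_subtype_val.tendsto q).eventually (share_aux_small (q : ℂ) e hδ)
    refine (continuous_subtype_val.tendsto q).frequently ((h1.and_eventually hsm).mono ?_)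
    rintro x ⟨hxG, hx2⟩
    refine ⟨?_, ?_, ?_⟩
    · intro h2
      have h3 : x = q := Subtype.ext h2
      rw [h3] at hxG
      exact hqG hxG
    · have h3 := share_aux_coord (q := (q : ℂ)) he (x : ℂ)
      have h4 := (hbox _ _ hx2.1 hx2.2).2
      rw [← h3] at h4
      exact h4.mp x.2
    · rw [hG] at hxG
      exact Filter.Eventually.self_of_nhds (p := fun y : Γ => fderiv ℝ u' (y : ℂ) = 0) hxG
  have hx₀G : (⟨x₀, hx₀⟩ : Γ) ∈ G := by
    obtain ⟨e, δ, ψ, he, hδ, hψ, hψ0, hbox⟩ := hloc x₀ hx₀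
    apply key ⟨x₀, hx₀⟩ e δ ψ he hδ hψ hψ0 hbox
    have h1 := accPt_iff_frequently.mp hacc
    refine (h1.and_eventually (share_aux_small x₀ e hδ)).mono ?_
    rintro y ⟨⟨h2, h3⟩, h4⟩
    refine ⟨h2, ?_, hu'A y h3⟩
    have h5 := share_aux_coord (q := x₀) he y
    have h6 := (hbox _ _ h4.1 h4.2).1
    rw [← h5] at h6
    exact h6.mp (hA h3)
  have : PreconnectedSpace Γ := Subtype.preconnectedSpace hΓ.isPreconnected
  have huniv : G = Set.univ := by
    rcases isClopen_iff.mp ⟨hGc, hGo⟩ with h1 | h1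
    · rw [h1] at hx₀G
      exact absurd hx₀G (Set.notMem_empty _)
    · exact h1
  intro x hx
  have h1 : (⟨x, hx⟩ : Γ) ∈ G := by rw [huniv]; exact Set.mem_univ _
  rw [hG] at h1
  exact Filter.Eventually.self_of_nhds (p := fun y : Γ => fderiv ℝ u' (y : ℂ) = 0) h1

/-- TARGET 2: Γ is isolated from the rest of the critical set. -/
theorem component_isolated {crit Γ : Set ℂ}
    (hloc : ∀ q ∈ Γ, ∃ (e : ℂ) (δ : ℝ) (ψ : ℝ → ℝ), ‖e‖ = 1 ∧ 0 < δ ∧
      AnalyticAt ℝ ψ 0 ∧ ψ 0 = 0 ∧ ∀ t s : ℝ, |t| < δ → |s| < δ →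
        ((q + (t + s * Complex.I) * e ∈ crit ↔ s = ψ t) ∧
          (q + (t + s * Complex.I) * e ∈ Γ ↔ s = ψ t))) :
    ∃ O : Set ℂ, IsOpen O ∧ Γ ⊆ O ∧ crit ∩ O = Γ := by
  choose e δ ψ he hδ hψ hψ0 hbox using hloc
  have hself : ∀ q (hq : q ∈ Γ), q ∈ box q (e q hq) (δ q hq) := fun q hq =>
    ⟨0, 0, by simpa using hδ q hq, by simpa using hδ q hq, by simp⟩
  refine ⟨⋃ q, ⋃ hq : q ∈ Γ, box q (e q hq) (δ q hq), ?_, ?_, ?_⟩
  · exact isOpen_iUnion (fun q => isOpen_iUnion (fun hq => box_open (he q hq) _))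
  · intro q hq
    exact mem_iUnion.mpr ⟨q, mem_iUnion.mpr ⟨hq, hself q hq⟩⟩
  · apply Set.Subset.antisymm
    · rintro x ⟨hx1, hx2⟩
      obtain ⟨q, hx3⟩ := mem_iUnion.mp hx2
      obtain ⟨hq, t, s, ht, hs, rfl⟩ := mem_iUnion.mp hx3
      have h1 := hbox q hq t s ht hs
      exact h1.2.mpr (h1.1.mp hx1)
    · intro q hq
      refine ⟨?_, mem_iUnion.mpr ⟨q, mem_iUnion.mpr ⟨hq, hself q hq⟩⟩⟩
      have h1 := (hbox q hq 0 0 (by simpa using hδ q hq) (by simpa using hδ q hq)).1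
      have h2 : q + (((0 : ℝ) : ℂ) + ((0 : ℝ) : ℂ) * Complex.I) * e q hq = q := by simp
      rw [h2] at h1
      exact h1.mpr (hψ0 q hq).symm

end Pool.Agent.Helper327_Drum
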