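import Mathlib

/-
JOB ZL1 (owner helper327, problem MP_d92c84_an). Abstract Hilbert space lemma.
-/

set_option autoImplicit false
open Filter Topology
open scoped InnerProductSpace

namespace Pool.Agent.Helper327_Drum

variable {H : Type*} [NormedAddCommGroup H] [InnerProductSpace ℝ H] [CompleteSpace H]

/-- the spectral expansion converges unconditionally. -/
theorem tail_small (K : H →L[ℝ] H) (hK : IsCompactOperator K)
    (hs : (K : H →ₗ[ℝ] H).IsSymmetric)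
    (hpos : ∀ (μ : ℝ) (ψ : H), ψ ≠ 0 → K ψ = μ • ψ → 0 ≤ μ ∧ μ < 1) (y : H)
    (hy : ∀ w, K w = 0 → ⟪w, y⟫_ℝ = 0) (p : ℝ → H)
    (hp : ∀ μ, 0 < μ → μ < 1 → K (p μ) = μ • p μ ∧
      ∀ ψ, K ψ = μ • ψ → ⟪ψ, p μ⟫_ℝ = ⟪ψ, y⟫_ℝ) {ε : ℝ} (hε : 0 < ε) :
    ∃ F : Finset ℝ, (∀ μ ∈ F, 0 < μ ∧ μ < 1) ∧ ∀ F' : Finset ℝ, F ⊆ F' →
      (∀ μ ∈ F', 0 < μ ∧ μ < 1) → ‖y - ∑ μ ∈ F', p μ‖ < ε := by
  classical
  have hsym : ∀ u v : H, ⟪K u, v⟫_ℝ = ⟪u, K v⟫_ℝ := fun u v => hs u v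
  let E : ℝ → Submodule ℝ H := fun μ => Module.End.eigenspace (K : Module.End ℝ H) μ
  have hE : ∀ μ ψ, ψ ∈ E μ ↔ K ψ = μ • ψ := fun μ ψ => Module.End.mem_eigenspace_iff
  let W : Submodule ℝ H := ⨆ μ : {μ : ℝ // 0 < μ ∧ μ < 1}, E μ
  have hyW : y ∈ W.topologicalClosure := by
    rw [← Submodule.orthogonal_orthogonal_eq_closure, Submodule.mem_orthogonal]
    intro z hz
    refine hy z ?_
    have h1 : K z ∈ (⨆ μ, Module.End.eigenspace (K : Module.End ℝ H) μ)ᗮ := by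
      rw [Submodule.mem_orthogonal]
      intro u hu
      induction hu using Submodule.iSup_induction' with
      | mem μ ψ hψ =>
        have hKψ : K ψ = μ • ψ := (hE μ ψ).1 hψ
        rw [← hsym, hKψ, real_inner_smul_left]
        by_cases h0 : ψ = 0
        · rw [h0, inner_zero_left, mul_zero]
        · obtain ⟨hm, hm1⟩ := hpos μ ψ h0 hKψ
          rcases hm.eq_or_lt with h | h
          · rw [← h, zero_mul]
          · have : ⟪ψ, z⟫_ℝ = 0 := by
              rw [Submodule.mem_orthogonal] at hz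
              exact hz ψ (Submodule.mem_iSup_of_mem
                (⟨μ, h, hm1⟩ : {μ : ℝ // 0 < μ ∧ μ < 1}) hψ)
            rw [this, mul_zero]
      | zero => rw [inner_zero_left]
      | add u v _ _ hu hv => rw [inner_add_left, hu, hv, add_zero]
    rw [ContinuousLinearMap.orthogonalComplement_iSup_eigenspaces_eq_bot hK hs,
      Submodule.mem_bot] at h1
    exact h1
  have hcl : y ∈ closure (W : Set H) := hyW
  obtain ⟨v, hv, hvy⟩ := Metric.mem_closure_iff.1 hcl ε hε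
  rw [dist_eq_norm] at hvy
  obtain ⟨s, hs'⟩ := Submodule.mem_iSup_iff_exists_finset.1 (show v ∈ W from hv)
  refine ⟨s.map (Function.Embedding.subtype _), ?_, ?_⟩
  · intro μ hμ
    obtain ⟨a, _, rfl⟩ := Finset.mem_map.1 hμ
    exact a.2
  · intro F' hF hF'
    set P := ∑ μ ∈ F', p μ with hP
    have horth : ∀ μ ∈ F', ∀ ψ, K ψ = μ • ψ → ⟪ψ, y - P⟫_ℝ = 0 := by
      intro μ hμ ψ hψ
      have h1 : ∀ ν ∈ F', ν ≠ μ → ⟪ψ, p ν⟫_ℝ = 0 := by
        intro ν hν hne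
        have h2 := hsym ψ (p ν)
        rw [hψ, (hp ν (hF' ν hν).1 (hF' ν hν).2).1, real_inner_smul_left,
          real_inner_smul_right] at h2
        have h3 : (μ - ν) * ⟪ψ, p ν⟫_ℝ = 0 := by linarith
        rcases mul_eq_zero.1 h3 with h | h
        · exact absurd (sub_eq_zero.1 h).symm hne
        · exact h
      rw [inner_sub_right, hP, inner_sum, Finset.sum_eq_single_of_mem μ hμ h1,
        (hp μ (hF' μ hμ).1 (hF' μ hμ).2).2 ψ hψ, sub_self]
    have hPo : ⟪P, y - P⟫_ℝ = 0 := by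
      rw [show ⟪P, y - P⟫_ℝ = ⟪∑ μ ∈ F', p μ, y - P⟫_ℝ from by rw [← hP], sum_inner]
      exact Finset.sum_eq_zero fun μ hμ => horth μ hμ _ (hp μ (hF' μ hμ).1 (hF' μ hμ).2).1
    have hvo : ⟪v, y - P⟫_ℝ = 0 := by
      have h1 : (⨆ i ∈ s, E i) ≤ (Submodule.span ℝ {y - P})ᗮ := by
        refine iSup₂_le fun i hi ψ hψ => ?_
        rw [Submodule.mem_orthogonal_singleton_iff_inner_left]
        exact horth i (hF (Finset.mem_map.2 ⟨i, hi, rfl⟩)) ψ ((hE _ _).1 hψ)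
      have h2 := h1 hs'
      rwa [Submodule.mem_orthogonal_singleton_iff_inner_left] at h2
    have h3 : ⟪y - P, P - v⟫_ℝ = 0 := by
      rw [inner_sub_right, real_inner_comm, hPo, real_inner_comm, hvo, sub_zero]
    have h4 := norm_add_sq_eq_norm_sq_add_norm_sq_real h3
    rw [sub_add_sub_cancel] at h4
    have h5 : ‖y - P‖ * ‖y - P‖ ≤ ‖y - v‖ * ‖y - v‖ := by
      rw [h4]
      nlinarith [mul_self_nonneg ‖P - v‖]
    exact ((mul_self_le_mul_self_iff (norm_nonneg _) (norm_nonneg _)).2 h5).trans_lt hvy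

end Pool.Agent.Helper327_Drum
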