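import Pool.Agent.Helper327_Drum.Fin.M3c
import Pool.Agent.Helper327_Drum.Fin.M3b
import Pool.Agent.Helper327_Drum.Fin.M2
import Pool.Agent.Helper327_Drum.Fin.A3
import Pool.Agent.Helper327_Drum.Fin.B2
import Pool.Agent.Helper327_Drum.Fin.C1
import Pool.Agent.Helper327_Drum.Fin.E1
import Pool.Agent.Helper327_Drum.Fin.E3
import Pool.Agent.Helper327_Drum.Fin.G1
import Pool.Agent.Helper327_Drum.Fin.ZL1

set_option autoImplicit false
open MeasureTheory Set Filter Topology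
open scoped ContDiff InnerProductSpace

namespace Pool.Agent.Helper327_Drum

open Pool.Agent.TH298.Sch (dd SC)
open Pool.Agent.R227.SA (la Wat)

/-! ### The Laplacian -/

theorem zl2_la_comb {s : Set ℂ} (hs : IsOpen s) {f g : ℂ → ℝ} (hf : ContDiffOn ℝ 2 f s)
    (hg : ContDiffOn ℝ 2 g s) (a b : ℝ) {x : ℂ} (hx : x ∈ s) :
    la (fun y => a * f y + b * g y) x = a * la f x + b * la g x := by
  have hd : ∀ f : ℂ → ℝ, ContDiffOn ℝ 2 f s → ∀ y ∈ s, DifferentiableAt ℝ f y := fun f hf y hy =>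
    (hf.differentiableOn (by norm_num) y hy).differentiableAt (hs.mem_nhds hy)
  have hd2 : ∀ f : ℂ → ℝ, ContDiffOn ℝ 2 f s → ∀ v, DifferentiableAt ℝ (dd v f) x := by
    intro f hf v
    have h1 : ContDiffAt ℝ 2 f x := hf.contDiffAt (hs.mem_nhds hx)
    have h2 : ContDiffAt ℝ 1 (fderiv ℝ f) x := h1.fderiv_right (by norm_num)
    exact (h2.clm_apply contDiffAt_const).differentiableAt (by norm_num)
  have lin : ∀ (f g : ℂ → ℝ) (y v : ℂ), DifferentiableAt ℝ f y → DifferentiableAt ℝ g y →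
      dd v (fun y => a * f y + b * g y) y = a * dd v f y + b * dd v g y := by
    intro f g y v h1 h2
    unfold dd
    rw [fderiv_fun_add (h1.const_mul a) (h2.const_mul b), fderiv_const_mul h1,
      fderiv_const_mul h2]
    rfl
  have key : ∀ v, dd v (dd v (fun y => a * f y + b * g y)) x =
      a * dd v (dd v f) x + b * dd v (dd v g) x := by
    intro v
    have h1 : dd v (fun y => a * f y + b * g y) =ᶠ[𝓝 x] fun y => a * dd v f y + b * dd v g y := by
      filter_upwards [hs.mem_nhds hx] with y hy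
      exact lin f g y v (hd f hf y hy) (hd g hg y hy)
    have h2 : dd v (dd v (fun y => a * f y + b * g y)) x =
        dd v (fun y => a * dd v f y + b * dd v g y) x := by
      show fderiv ℝ _ x v = fderiv ℝ _ x v
      rw [h1.fderiv_eq]
    rw [h2, lin _ _ x v (hd2 f hf v) (hd2 g hg v)]
  unfold la
  rw [key, key]
  ring

theorem zl2_la_sub_sum {s : Set ℂ} (hs : IsOpen s) {f : ℂ → ℝ} (hf : ContDiffOn ℝ 2 f s)
    (p : ℝ → ℂ → ℝ) (F : Finset ℝ) (hp : ∀ μ ∈ F, ContDiffOn ℝ 2 (p μ) s) {x : ℂ} (hx : x ∈ s) :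
    ContDiffOn ℝ 2 (fun y => f y - ∑ μ ∈ F, p μ y) s ∧
    la (fun y => f y - ∑ μ ∈ F, p μ y) x = la f x - ∑ μ ∈ F, la (p μ) x ∧
    fderiv ℝ (fun y => f y - ∑ μ ∈ F, p μ y) x = fderiv ℝ f x - ∑ μ ∈ F, fderiv ℝ (p μ) x := by
  classical
  induction F using Finset.induction_on with
  | empty => simp [hf]
  | insert a F ha ih =>
    obtain ⟨h1, h2, h3⟩ := ih fun μ hμ => hp μ (Finset.mem_insert_of_mem hμ)
    have hpa := hp a (Finset.mem_insert_self a F)
    have e : (fun y => f y - ∑ μ ∈ insert a F, p μ y) =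
        fun y => (f y - ∑ μ ∈ F, p μ y) - p a y := by
      funext y
      rw [Finset.sum_insert ha]
      ring
    rw [e, Finset.sum_insert ha, Finset.sum_insert ha]
    refine ⟨h1.sub hpa, ?_, ?_⟩
    · rw [m3b_la_sub hs h1 hpa hx, h2]
      ring
    · rw [fderiv_fun_sub, h3]
      · abel
      · exact (h1.differentiableOn (by norm_num) x hx).differentiableAt (hs.mem_nhds hx)
      · exact (hpa.differentiableOn (by norm_num) x hx).differentiableAt (hs.mem_nhds hx)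

theorem zl2_wat {D : Set ℂ} (hD : IsOpen D) {lam : ℝ} {u : ℂ → ℝ} (h : Wat D lam u) :
    ContDiffOn ℝ 2 u D ∧ ∀ x ∈ D, la u x = -(lam * u x) := by
  constructor
  · intro x hx
    obtain ⟨r, hr, U, hU, hb, hUe⟩ := h.loc x hx
    have h1 : u =ᶠ[𝓝 x] U := by
      filter_upwards [Metric.ball_mem_nhds x hr] with y hy
      exact (hUe y hy).1
    have h2 : ContDiffAt ℝ 2 U x := (hU.sm.of_le ENat.LEInfty.out).contDiffAt
    exact (h2.congr_of_eventuallyEq h1).contDiffWithinAt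
  · intro x hx
    obtain ⟨r, hr, U, hU, hb, hUe⟩ := h.loc x hx
    have h1 : u =ᶠ[𝓝 x] U := by
      filter_upwards [Metric.ball_mem_nhds x hr] with y hy
      exact (hUe y hy).1
    have h2 := hUe x (Metric.mem_ball_self hr)
    rw [J507.la_congr h1, h2.2, h2.1]

/-! ### Integration by parts -/

theorem zl2_parts {W : ℝ → ℝ} (hW : ContDiff ℝ ∞ W) (hWc : HasCompactSupport W) {a a' a'' : ℝ → ℝ}
    (h1 : ∀ t, HasDerivAt a (a' t) t) (h2 : ∀ t, HasDerivAt a' (a'' t) t)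
    (h3 : Continuous a'') : ∫ t, iteratedDeriv 2 W t * a t = ∫ t, W t * a'' t := by
  have e : iteratedDeriv 2 W = deriv (deriv W) := by
    rw [show (2 : ℕ) = 1 + 1 from rfl, iteratedDeriv_succ, iteratedDeriv_one]
  have k1 : ContDiff ℝ ∞ (deriv W) := (contDiff_infty_iff_deriv.mp hW).2
  have k2 : ContDiff ℝ ∞ (deriv (deriv W)) := (contDiff_infty_iff_deriv.mp k1).2
  have c0 : Continuous a := continuous_iff_continuousAt.2 fun t => (h1 t).continuousAt
  have c1 : Continuous a' := continuous_iff_continuousAt.2 fun t => (h2 t).continuousAt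
  have d0 : ∀ t, HasDerivAt W (deriv W t) t := fun t =>
    ((hW.differentiable (by simp)) t).hasDerivAt
  have d1 : ∀ t, HasDerivAt (deriv W) (deriv (deriv W) t) t := fun t =>
    ((k1.differentiable (by simp)) t).hasDerivAt
  have hi : ∀ {V b : ℝ → ℝ}, Continuous V → HasCompactSupport V → Continuous b →
      Integrable (fun t => V t * b t) := fun hV hVc hb =>
    (hV.mul hb).integrable_of_hasCompactSupport hVc.mul_right
  have i1 := integral_mul_deriv_eq_deriv_mul_of_integrable (u := W) (v := a') (u' := deriv W)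
    (v' := a'') (fun t _ => d0 t) (fun t _ => h2 t) (hi hW.continuous hWc h3) (hi k1.continuous hWc.deriv c1)
    (hi hW.continuous hWc c1)
  have i2 := integral_mul_deriv_eq_deriv_mul_of_integrable (u := deriv W) (v := a)
    (u' := deriv (deriv W)) (v' := a') (fun t _ => d1 t) (fun t _ => h1 t) (hi k1.continuous hWc.deriv c1)
    (hi k2.continuous hWc.deriv.deriv c0) (hi k1.continuous hWc.deriv c0)
  rw [e, i1, i2, neg_neg]

theorem zl2_cos {W : ℝ → ℝ} (hW : ContDiff ℝ ∞ W) (hWc : HasCompactSupport W) (om : ℝ) :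
    ∫ t, iteratedDeriv 2 W t * Real.cos (om * t) = -(om ^ 2) * ∫ t, W t * Real.cos (om * t) := by
  have h1 : ∀ t, HasDerivAt (fun t => Real.cos (om * t)) (-(om * Real.sin (om * t))) t := by
    intro t
    have := (Real.hasDerivAt_cos (om * t)).comp t ((hasDerivAt_id t).const_mul om)
    refine this.congr_deriv ?_
    simp only [mul_one]
    ring
  have h2 : ∀ t, HasDerivAt (fun t => -(om * Real.sin (om * t))) (-(om ^ 2) * Real.cos (om * t))
      t := by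
    intro t
    have := ((((Real.hasDerivAt_sin (om * t)).comp t
      ((hasDerivAt_id t).const_mul om))).const_mul om).neg
    refine this.congr_deriv ?_
    simp only [mul_one]
    ring
  rw [zl2_parts hW hWc h1 h2 (by fun_prop), ← integral_const_mul]
  refine integral_congr_ae (Eventually.of_forall fun t => ?_)
  simp only
  ring

theorem zl2_sin {W : ℝ → ℝ} (hW : ContDiff ℝ ∞ W) (hWc : HasCompactSupport W) (om : ℝ) :
    ∫ t, iteratedDeriv 2 W t * Real.sin (om * t) = -(om ^ 2) * ∫ t, W t * Real.sin (om * t) := by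
  have h1 : ∀ t, HasDerivAt (fun t => Real.sin (om * t)) (om * Real.cos (om * t)) t := by
    intro t
    have := (Real.hasDerivAt_sin (om * t)).comp t ((hasDerivAt_id t).const_mul om)
    refine this.congr_deriv ?_
    simp only [mul_one]
    ring
  have h2 : ∀ t, HasDerivAt (fun t => om * Real.cos (om * t)) (-(om ^ 2) * Real.sin (om * t))
      t := by
    intro t
    have := (((Real.hasDerivAt_cos (om * t)).comp t
      ((hasDerivAt_id t).const_mul om))).const_mul om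
    refine this.congr_deriv ?_
    simp only [mul_one]
    ring
  rw [zl2_parts hW hWc h1 h2 (by fun_prop), ← integral_const_mul]
  refine integral_congr_ae (Eventually.of_forall fun t => ?_)
  simp only
  ring

/-! ### The modes -/

/-- the frequency component of the value at time `t₀` -/
structure ZMode (R : Set ℂ) (z : ℂ → ℝ → ℝ) (x : ℂ) (μ t₀ : ℝ) (u : ℂ → ℝ) : Prop where
  wat : Wat (inside R) (1 / μ - 1) u
  grad : fderiv ℝ u x = 0
  coe : (cl u : ℂ → ℝ) =ᵐ[volume] u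
  eig : K (inside R) (cl u) = μ • cl u
  inn : ∀ ψ : L2, K (inside R) ψ = μ • ψ → ⟪ψ, cl u⟫_ℝ = ⟪ψ, zt R z t₀⟫_ℝ

/-- the superposition of the two modes given by a weight -/
noncomputable def zp (c : ℝ) (u0 u1 : ℝ → ℂ → ℝ) (W : ℝ → ℝ) (μ : ℝ) (y : ℂ) : ℝ :=
  (∫ t, W t * Real.cos (c * √(1 / μ - 1) * t)) * u0 μ y +
    (∫ t, W t * Real.sin (c * √(1 / μ - 1) * t)) * u1 μ y

/-- its class -/
noncomputable def zP (c : ℝ) (u0 u1 : ℝ → ℂ → ℝ) (W : ℝ → ℝ) (μ : ℝ) : L2 :=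
  (∫ t, W t * Real.cos (c * √(1 / μ - 1) * t)) • cl (u0 μ) +
    (∫ t, W t * Real.sin (c * √(1 / μ - 1) * t)) • cl (u1 μ)

/-- the rest -/
noncomputable def fF (R : Set ℂ) (z : ℂ → ℝ → ℝ) (c : ℝ) (u0 u1 : ℝ → ℂ → ℝ) (F : Finset ℝ)
    (W : ℝ → ℝ) (y : ℂ) : ℝ := Zf R z W y - ∑ μ ∈ F, zp c u0 u1 W μ y

section
variable {R : Set ℂ} {c : ℝ} {z : ℂ → ℝ → ℝ} {g : ℂ → ℝ → ℂ} {x : ℂ}

theorem zlam_pos {μ : ℝ} (h0 : 0 < μ) (h1 : μ < 1) : 0 < 1 / μ - 1 := by
  rw [sub_pos, lt_div_iff₀ h0]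
  linarith

theorem exists_zmode (hR : IsCompact R) (hc : 0 < c) (h : DrumSolution R c z g)
    (hm : ∀ (lam : ℝ) (u : ℂ → ℝ), 0 < lam → Wat (inside R) lam u →
      (∀ y ∈ inside R, (∀ t, g y t = 0) → fderiv ℝ u y = 0) → fderiv ℝ u x = 0)
    {μ : ℝ} (h0 : 0 < μ) (h1 : μ < 1) (t₀ : ℝ) : ∃ u, ZMode R z x μ t₀ u := by
  obtain ⟨u, hu, hu0, hcl, hK, hin, W, hW, hu1, hu2⟩ := mode_limit2 hR hc h h0 h1 t₀
  obtain ⟨hwat, hgr, -⟩ := mode_props hR hc h (zlam_pos h0 h1) hu hu0 hW hu1 hu2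
  exact ⟨u, hwat, hm _ u (zlam_pos h0 h1) hwat hgr, hcl, hK, hin⟩

variable {u0 u1 : ℝ → ℂ → ℝ}

theorem zP_eig {W : ℝ → ℝ} {μ : ℝ} {a b : ℝ} (m0 : ZMode R z x μ a (u0 μ))
    (m1 : ZMode R z x μ b (u1 μ)) :
    K (inside R) (zP c u0 u1 W μ) = μ • zP c u0 u1 W μ := by
  unfold zP
  rw [map_add, map_smul, map_smul, m0.eig, m1.eig, smul_add, smul_comm μ, smul_comm μ]

theorem zP_inner (hR : IsCompact R) (hc : 0 < c) (h : DrumSolution R c z g) {W : ℝ → ℝ}
    (hW : ContDiff ℝ ∞ W) (hWc : HasCompactSupport W) {μ : ℝ} (h0 : 0 < μ) (h1 : μ < 1)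
    (m0 : ZMode R z x μ 0 (u0 μ))
    (m1 : ZMode R z x μ (Real.pi / (2 * (c * √(1 / μ - 1)))) (u1 μ)) {ψ : L2}
    (hψ : K (inside R) ψ = μ • ψ) : ⟪ψ, zP c u0 u1 W μ⟫_ℝ = ⟪ψ, II R z W⟫_ℝ := by
  have hz : Continuous (zt R z) := (zc_cont hR h).1
  have e1 : ⟪ψ, II R z W⟫_ℝ = ∫ t, W t * ⟪ψ, zt R z t⟫_ℝ := inner_mean hz hW.continuous hWc ψ
  have e2 : ∀ t, ⟪ψ, zt R z t⟫_ℝ = ⟪ψ, zt R z 0⟫_ℝ * Real.cos (c * √(1 / μ - 1) * t) +
      ⟪ψ, zt R z (Real.pi / (2 * (c * √(1 / μ - 1))))⟫_ℝ * Real.sin (c * √(1 / μ - 1) * t) :=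
    fun t => coeff (K (inside R)) (K_symm _) hc (zt R z) hz
      (fun W hW hWc => wave_K hR hc h hW hWc) h0 h1 hψ t
  have i1 : Integrable (fun t => W t * Real.cos (c * √(1 / μ - 1) * t)) :=
    (hW.continuous.mul (by fun_prop)).integrable_of_hasCompactSupport hWc.mul_right
  have i2 : Integrable (fun t => W t * Real.sin (c * √(1 / μ - 1) * t)) :=
    (hW.continuous.mul (by fun_prop)).integrable_of_hasCompactSupport hWc.mul_right
  have e3 : (fun t => W t * ⟪ψ, zt R z t⟫_ℝ) = fun t => W t *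
      (⟪ψ, zt R z 0⟫_ℝ * Real.cos (c * √(1 / μ - 1) * t) +
      ⟪ψ, zt R z (Real.pi / (2 * (c * √(1 / μ - 1))))⟫_ℝ * Real.sin (c * √(1 / μ - 1) * t)) :=
    funext fun t => by rw [e2 t]
  rw [e1, e3]
  unfold zP
  rw [inner_add_right, real_inner_smul_right, real_inner_smul_right, m0.inn ψ hψ, m1.inn ψ hψ]
  rw [← integral_mul_const, ← integral_mul_const, ← integral_add (i1.mul_const _) (i2.mul_const _)]
  refine integral_congr_ae (Eventually.of_forall fun t => ?_)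
  simp only
  ring

theorem zP_coe {W : ℝ → ℝ} {μ : ℝ} {a b : ℝ} (m0 : ZMode R z x μ a (u0 μ))
    (m1 : ZMode R z x μ b (u1 μ)) :
    (zP c u0 u1 W μ : ℂ → ℝ) =ᵐ[volume] zp c u0 u1 W μ := by
  unfold zP
  have k1 := Lp.coeFn_add ((∫ t, W t * Real.cos (c * √(1 / μ - 1) * t)) • cl (u0 μ))
    ((∫ t, W t * Real.sin (c * √(1 / μ - 1) * t)) • cl (u1 μ))
  have k2 := Lp.coeFn_smul (∫ t, W t * Real.cos (c * √(1 / μ - 1) * t)) (cl (u0 μ))
  have k3 := Lp.coeFn_smul (∫ t, W t * Real.sin (c * √(1 / μ - 1) * t)) (cl (u1 μ))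
  filter_upwards [k1, k2, k3, m0.coe, m1.coe] with y y1 y2 y3 y4 y5
  rw [y1, Pi.add_apply, y2, y3, Pi.smul_apply, Pi.smul_apply, y4, y5]
  rfl

theorem zp_dd (c : ℝ) {W : ℝ → ℝ} (hW : ContDiff ℝ ∞ W) (hWc : HasCompactSupport W) {μ : ℝ}
    (h0 : 0 < μ) (h1 : μ < 1) (y : ℂ) :
    zp c u0 u1 (iteratedDeriv 2 W) μ y = -(c ^ 2 * (1 / μ - 1)) * zp c u0 u1 W μ y := by
  have e : (c * √(1 / μ - 1)) ^ 2 = c ^ 2 * (1 / μ - 1) := by
    rw [mul_pow, Real.sq_sqrt (zlam_pos h0 h1).le]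
  unfold zp
  rw [zl2_cos hW hWc, zl2_sin hW hWc, e]
  ring

theorem zp_props (hR : IsCompact R) {W : ℝ → ℝ} {μ : ℝ} {a b : ℝ}
    (m0 : ZMode R z x μ a (u0 μ)) (m1 : ZMode R z x μ b (u1 μ)) (hx : x ∈ inside R) :
    Continuous (zp c u0 u1 W μ) ∧ (∀ y, y ∉ inside R → zp c u0 u1 W μ y = 0) ∧
    ContDiffOn ℝ 2 (zp c u0 u1 W μ) (inside R) ∧
    (∀ y ∈ inside R, la (zp c u0 u1 W μ) y = -((1 / μ - 1) * zp c u0 u1 W μ y)) ∧
    fderiv ℝ (zp c u0 u1 W μ) x = 0 := by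
  obtain ⟨hDo, -⟩ := inside_basic hR
  obtain ⟨k1, k2⟩ := zl2_wat hDo m0.wat
  obtain ⟨k3, k4⟩ := zl2_wat hDo m1.wat
  refine ⟨?_, fun y hy => ?_, ?_, fun y hy => ?_, ?_⟩
  · exact (m0.wat.cont.const_mul _).add (m1.wat.cont.const_mul _)
  · unfold zp
    rw [m0.wat.out y hy, m1.wat.out y hy, mul_zero, mul_zero, add_zero]
  · exact (contDiffOn_const.mul k1).add (contDiffOn_const.mul k3)
  · have e := zl2_la_comb hDo k1 k3 (∫ t, W t * Real.cos (c * √(1 / μ - 1) * t))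
      (∫ t, W t * Real.sin (c * √(1 / μ - 1) * t)) hy
    show la (fun y => (∫ t, W t * Real.cos (c * √(1 / μ - 1) * t)) * u0 μ y +
      (∫ t, W t * Real.sin (c * √(1 / μ - 1) * t)) * u1 μ y) y = _
    rw [e, k2 y hy, k4 y hy]
    unfold zp
    ring
  · have d0 : DifferentiableAt ℝ (u0 μ) x :=
      (k1.differentiableOn (by norm_num) x hx).differentiableAt (hDo.mem_nhds hx)
    have d1 : DifferentiableAt ℝ (u1 μ) x :=
      (k3.differentiableOn (by norm_num) x hx).differentiableAt (hDo.mem_nhds hx)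
    show fderiv ℝ (fun y => (∫ t, W t * Real.cos (c * √(1 / μ - 1) * t)) * u0 μ y +
      (∫ t, W t * Real.sin (c * √(1 / μ - 1) * t)) * u1 μ y) x = 0
    rw [fderiv_fun_add (d0.const_mul _) (d1.const_mul _), fderiv_const_mul d0,
      fderiv_const_mul d1, m0.grad, m1.grad, smul_zero, smul_zero, add_zero]

/-- properties of the rest -/
theorem fF_props (hR : IsCompact R) (hc : 0 < c) (h : DrumSolution R c z g) (hx : x ∈ inside R)
    {F : Finset ℝ} (hF : ∀ μ ∈ F, 0 < μ ∧ μ < 1)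
    (m0 : ∀ μ, 0 < μ → μ < 1 → ZMode R z x μ 0 (u0 μ))
    (m1 : ∀ μ, 0 < μ → μ < 1 → ZMode R z x μ (Real.pi / (2 * (c * √(1 / μ - 1)))) (u1 μ))
    {W : ℝ → ℝ} (hW : ContDiff ℝ ∞ W) (hWc : HasCompactSupport W) :
    Continuous (fF R z c u0 u1 F W) ∧ (∀ y, y ∉ inside R → fF R z c u0 u1 F W y = 0) ∧
    ContDiffOn ℝ 2 (fF R z c u0 u1 F W) (inside R) ∧
    (∀ y ∈ inside R, la (fF R z c u0 u1 F W) y =
      (c ^ 2)⁻¹ * fF R z c u0 u1 F (iteratedDeriv 2 W) y) ∧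
    fderiv ℝ (fF R z c u0 u1 F W) x = fderiv ℝ (Zf R z W) x ∧
    (∃ M, ∀ y ∈ inside R, |fF R z c u0 u1 F W y| ≤ M) ∧
    Real.sqrt (∫ y in inside R, (fF R z c u0 u1 F W y) ^ 2) ≤
      ‖II R z W - ∑ μ ∈ F, zP c u0 u1 W μ‖ := by
  obtain ⟨hDo, hDb, -⟩ := inside_basic hR
  obtain ⟨n1, n2, n3, n4, -, -, -⟩ := zW_nice hR hc h hW hWc
  have hp : ∀ μ ∈ F, _ := fun μ hμ => zp_props (c := c) (W := W) hR (m0 μ (hF μ hμ).1 (hF μ hμ).2)
    (m1 μ (hF μ hμ).1 (hF μ hμ).2) hx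
  have hcont : Continuous (fF R z c u0 u1 F W) := by
    refine Continuous.sub n1 ?_
    exact continuous_finsetSum _ fun μ hμ => (hp μ hμ).1
  have hcc : c ^ 2 ≠ 0 := by positivity
  refine ⟨hcont, fun y hy => ?_, ?_, fun y hy => ?_, ?_, ?_, ?_⟩
  · have e1 : Zf R z W y = 0 := n2 y hy
    unfold fF
    rw [e1, Finset.sum_eq_zero fun μ hμ => (hp μ hμ).2.1 y hy, sub_zero]
  · exact (zl2_la_sub_sum hDo (f := Zf R z W) n3 (zp c u0 u1 W) F
      (fun μ hμ => (hp μ hμ).2.2.1) hx).1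
  · have e := (zl2_la_sub_sum hDo (f := Zf R z W) n3 (zp c u0 u1 W) F
      (fun μ hμ => (hp μ hμ).2.2.1) hy).2.1
    have e1 : la (Zf R z W) y = (c ^ 2)⁻¹ * Zf R z (iteratedDeriv 2 W) y := n4 y hy
    show la (fun y => Zf R z W y - ∑ μ ∈ F, zp c u0 u1 W μ y) y = _
    rw [e, e1]
    unfold fF
    rw [mul_sub, Finset.mul_sum]
    congr 1
    refine Finset.sum_congr rfl fun μ hμ => ?_
    rw [(hp μ hμ).2.2.2.1 y hy, zp_dd c hW hWc (hF μ hμ).1 (hF μ hμ).2]
    field_simp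
  · have e := (zl2_la_sub_sum hDo (f := Zf R z W) n3 (zp c u0 u1 W) F
      (fun μ hμ => (hp μ hμ).2.2.1) hx).2.2
    show fderiv ℝ (fun y => Zf R z W y - ∑ μ ∈ F, zp c u0 u1 W μ y) x = _
    rw [e, Finset.sum_eq_zero fun μ hμ => (hp μ hμ).2.2.2.2, sub_zero]
  · obtain ⟨M, hM⟩ := hDb.isCompact_closure.exists_bound_of_continuousOn hcont.continuousOn
    exact ⟨M, fun y hy => hM y (subset_closure hy)⟩
  · have hae : ((II R z W - ∑ μ ∈ F, zP c u0 u1 W μ : L2) : ℂ → ℝ) =ᵐ[volume]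
        fF R z c u0 u1 F W := by
      have k3 : ((∑ μ ∈ F, zP c u0 u1 W μ : L2) : ℂ → ℝ) =ᵐ[volume]
          fun y => ∑ μ ∈ F, zp c u0 u1 W μ y := by
        clear hcont hp
        classical
        induction F using Finset.induction_on with
        | empty =>
          simp only [Finset.sum_empty]
          exact Lp.coeFn_zero ℝ 2 volume
        | insert a F ha ih =>
          rw [Finset.sum_insert ha]
          have j1 := Lp.coeFn_add (zP c u0 u1 W a) (∑ μ ∈ F, zP c u0 u1 W μ)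
          have j2 := ih (fun μ hμ => hF μ (Finset.mem_insert_of_mem hμ))
          have hFa := hF a (Finset.mem_insert_self a F)
          have j3 := zP_coe (c := c) (W := W) (m0 a hFa.1 hFa.2) (m1 a hFa.1 hFa.2)
          filter_upwards [j1, j2, j3] with y y1 y2 y3
          rw [y1, Pi.add_apply, y2, y3, Finset.sum_insert ha]
      have k1 := Lp.coeFn_sub (II R z W) (∑ μ ∈ F, zP c u0 u1 W μ)
      have k2 := II_coe hR h hW.continuous hWc
      filter_upwards [k1, k2, k3] with y y1 y2 y3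
      rw [y1, Pi.sub_apply, y2, y3]
      rfl
    set G : L2 := II R z W - ∑ μ ∈ F, zP c u0 u1 W μ with hG
    have hint : Integrable (fun x => (G x) ^ 2) := (Lp.memLp G).integrable_sq
    have hint' : Integrable (fun x => (fF R z c u0 u1 F W x) ^ 2) := by
      refine hint.congr ?_
      filter_upwards [hae] with x hx
      rw [hx]
    apply Real.sqrt_le_iff.mpr
    refine ⟨norm_nonneg _, ?_⟩
    rw [L2_norm_sq]
    calc ∫ y in inside R, (fF R z c u0 u1 F W y) ^ 2 ≤ ∫ y, (fF R z c u0 u1 F W y) ^ 2 :=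
          setIntegral_le_integral hint' (Eventually.of_forall fun x => sq_nonneg _)
      _ = ∫ x, (G x) ^ 2 := by
          refine integral_congr_ae ?_
          filter_upwards [hae] with x hx
          rw [hx]

end

/-- TARGET: if the gradients of all modes vanish at a point then the gradient of the solution vanishes there at all times. -/
theorem grad_zero_of_modes {R : Set ℂ} {c : ℝ} {z : ℂ → ℝ → ℝ} {g : ℂ → ℝ → ℂ} (hR : IsCompact R)
    (hc : 0 < c) (h : DrumSolution R c z g) {x : ℂ} (hx : x ∈ inside R)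
    (hm : ∀ (lam : ℝ) (u : ℂ → ℝ), 0 < lam → Wat (inside R) lam u →
      (∀ y ∈ inside R, (∀ t, g y t = 0) → fderiv ℝ u y = 0) → fderiv ℝ u x = 0) :
    ∀ t, g x t = 0 := by
  obtain ⟨hDo, hDb, -⟩ := inside_basic hR
  obtain ⟨u0, m0⟩ : ∃ u0 : ℝ → ℂ → ℝ, ∀ μ, 0 < μ → μ < 1 → ZMode R z x μ 0 (u0 μ) := by
    have : ∀ μ : ℝ, ∃ u : ℂ → ℝ, 0 < μ → μ < 1 → ZMode R z x μ 0 u := by
      intro μ
      by_cases h0 : 0 < μ ∧ μ < 1
      · obtain ⟨u, hu⟩ := exists_zmode hR hc h hm h0.1 h0.2 0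
        exact ⟨u, fun _ _ => hu⟩
      · exact ⟨0, fun h1 h2 => absurd ⟨h1, h2⟩ h0⟩
    choose u hu using this
    exact ⟨u, hu⟩
  obtain ⟨u1, m1⟩ : ∃ u1 : ℝ → ℂ → ℝ, ∀ μ, 0 < μ → μ < 1 →
      ZMode R z x μ (Real.pi / (2 * (c * √(1 / μ - 1)))) (u1 μ) := by
    have : ∀ μ : ℝ, ∃ u : ℂ → ℝ, 0 < μ → μ < 1 →
        ZMode R z x μ (Real.pi / (2 * (c * √(1 / μ - 1)))) u := by
      intro μ
      by_cases h0 : 0 < μ ∧ μ < 1
      · obtain ⟨u, hu⟩ := exists_zmode hR hc h hm h0.1 h0.2 (Real.pi / (2 * (c * √(1 / μ - 1))))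
        exact ⟨u, fun _ _ => hu⟩
      · exact ⟨0, fun h1 h2 => absurd ⟨h1, h2⟩ h0⟩
    choose u hu using this
    exact ⟨u, hu⟩
  have hz : Continuous (zt R z) := (zc_cont hR h).1
  -- the tail is small
  have htail : ∀ V : ℝ → ℝ, ContDiff ℝ ∞ V → HasCompactSupport V → ∀ ε : ℝ, 0 < ε →
      ∃ F : Finset ℝ, (∀ μ ∈ F, 0 < μ ∧ μ < 1) ∧ ∀ F' : Finset ℝ, F ⊆ F' →
        (∀ μ ∈ F', 0 < μ ∧ μ < 1) → ‖II R z V - ∑ μ ∈ F', zP c u0 u1 V μ‖ < ε := by
    intro V hV hVc ε hε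
    refine tail_small (K (inside R)) (K_compact hDb) (K_symm _)
      (fun μ ψ hψ he => K_eig hDb hψ he) (II R z V) ?_ (zP c u0 u1 V) ?_ hε
    · intro w hw
      have h1 := wave_K hR hc h hV hVc
      have h2 : II R z V = ∫ t, V t • cl (fun x => zx R z x t) := rfl
      rw [h2, ← h1]
      have h3 := K_symm (inside R) w ((∫ t, V t • cl (fun x => zx R z x t)) -
        (c ^ 2)⁻¹ • ∫ t, iteratedDeriv 2 V t • cl (fun x => zx R z x t))
      simp only [ContinuousLinearMap.coe_coe] at h3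
      rw [← h3, hw, inner_zero_left]
    · intro μ h0 h1
      exact ⟨zP_eig (m0 μ h0 h1) (m1 μ h0 h1), fun ψ hψ =>
        zP_inner hR hc h hV hVc h0 h1 (m0 μ h0 h1) (m1 μ h0 h1) hψ⟩
  obtain ⟨C, hC0, hC⟩ := sup_est hDo hDb
  have hcc : (0 : ℝ) < (c ^ 2)⁻¹ := by positivity
  -- the sup estimate
  have hsup : ∀ (F : Finset ℝ), (∀ μ ∈ F, 0 < μ ∧ μ < 1) → ∀ V : ℝ → ℝ, ContDiff ℝ ∞ V →
      HasCompactSupport V → ∀ y, |fF R z c u0 u1 F V y| ≤ C * ((c ^ 2)⁻¹ *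
        ‖II R z (iteratedDeriv 2 V) - ∑ μ ∈ F, zP c u0 u1 (iteratedDeriv 2 V) μ‖) := by
    intro F hF V hV hVc y
    obtain ⟨hV2, hV2c⟩ := smooth_d2 hV hVc
    obtain ⟨k1, k2, k3, k4, -, -, -⟩ := fF_props hR hc h hx hF m0 m1 hV hVc
    obtain ⟨-, -, -, -, -, ⟨M, k5⟩, k6⟩ := fF_props hR hc h hx hF m0 m1 hV2 hV2c
    have h1 := hC _ k1 k2 k3 ⟨(c ^ 2)⁻¹ * M, fun y hy => by
      rw [k4 y hy, abs_mul, abs_of_pos hcc]
      exact mul_le_mul_of_nonneg_left (k5 y hy) hcc.le⟩ y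
    refine h1.trans (mul_le_mul_of_nonneg_left ?_ hC0)
    have h2 : ∫ y in inside R, la (fF R z c u0 u1 F V) y ^ 2
        = ((c ^ 2)⁻¹) ^ 2 * ∫ y in inside R, (fF R z c u0 u1 F (iteratedDeriv 2 V) y) ^ 2 := by
      rw [← integral_const_mul]
      refine setIntegral_congr_fun hDo.measurableSet fun y hy => ?_
      show la (fF R z c u0 u1 F V) y ^ 2 = _
      rw [k4 y hy]
      ring
    rw [h2, Real.sqrt_mul (by positivity), Real.sqrt_sq hcc.le]
    exact mul_le_mul_of_nonneg_left k6 hcc.le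
  -- the gradient of every superposition vanishes
  obtain ⟨r, hr, hball⟩ := Metric.isOpen_iff.1 hDo x hx
  have hgrad : ∀ W : ℝ → ℝ, ContDiff ℝ ∞ W → HasCompactSupport W →
      fderiv ℝ (Zf R z W) x = 0 := by
    intro W hW hWc
    obtain ⟨hW2, hW2c⟩ := smooth_d2 hW hWc
    obtain ⟨hW4, hW4c⟩ := smooth_d2 hW2 hW2c
    have hbound : ∀ ε > 0, ‖fderiv ℝ (Zf R z W) x‖ ≤
        8 * (C * ((c ^ 2)⁻¹ * ε) / r + (c ^ 2)⁻¹ * (C * ((c ^ 2)⁻¹ * ε)) * r) := by
      intro ε hε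
      obtain ⟨F1, hF1, hF1'⟩ := htail _ hW2 hW2c ε hε
      obtain ⟨F2, hF2, hF2'⟩ := htail _ hW4 hW4c ε hε
      have hF : ∀ μ ∈ F1 ∪ F2, 0 < μ ∧ μ < 1 := by
        intro μ hμ
        rcases Finset.mem_union.1 hμ with hμ | hμ
        · exact hF1 μ hμ
        · exact hF2 μ hμ
      have b1 := (hF1' _ Finset.subset_union_left hF).le
      have b2 := (hF2' _ Finset.subset_union_right hF).le
      obtain ⟨k1, k2, k3, k4, k5, -, -⟩ := fF_props hR hc h hx hF m0 m1 hW hWc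
      rw [← k5]
      refine grad_bd hr (k3.mono hball) (fun y hy => ?_) (fun y hy => ?_)
      · refine (hsup _ hF W hW hWc y).trans (mul_le_mul_of_nonneg_left ?_ hC0)
        exact mul_le_mul_of_nonneg_left b1 hcc.le
      · rw [k4 y (hball hy), abs_mul, abs_of_pos hcc]
        refine mul_le_mul_of_nonneg_left ?_ hcc.le
        refine (hsup _ hF _ hW2 hW2c y).trans (mul_le_mul_of_nonneg_left ?_ hC0)
        exact mul_le_mul_of_nonneg_left b2 hcc.le
    by_contra hne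
    have hpos : 0 < ‖fderiv ℝ (Zf R z W) x‖ := norm_pos_iff.2 hne
    set k := ‖fderiv ℝ (Zf R z W) x‖ with hk
    set D0 : ℝ := 8 * (C * (c ^ 2)⁻¹ / r + (c ^ 2)⁻¹ * (C * (c ^ 2)⁻¹) * r) with hD0
    have hD0' : 0 ≤ D0 := by positivity
    have h3 := hbound (k / (2 * (D0 + 1))) (by positivity)
    have h4 : 8 * (C * ((c ^ 2)⁻¹ * (k / (2 * (D0 + 1)))) / r +
        (c ^ 2)⁻¹ * (C * ((c ^ 2)⁻¹ * (k / (2 * (D0 + 1))))) * r) = D0 * (k / (2 * (D0 + 1))) := by
      rw [hD0]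
      ring
    rw [h4] at h3
    have h5 : D0 * (k / (2 * (D0 + 1))) ≤ (D0 + 1) * (k / (2 * (D0 + 1))) := by
      apply mul_le_mul_of_nonneg_right (by linarith) (by positivity)
    have h6 : (D0 + 1) * (k / (2 * (D0 + 1))) = k / 2 := by
      field_simp
    linarith
  -- the gradient of the solution
  have hgc : Continuous fun t => g x t := by
    have h1 : ContinuousOn (fun t : ℝ => (fun p : ℂ × ℝ => g p.1 p.2) (x, t)) univ :=
      h.grad_cont.comp (by fun_prop) fun t _ => ⟨Or.inl hx, mem_univ _⟩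
    exact continuousOn_univ.1 h1
  have hint : ∀ W : ℝ → ℝ, ContDiff ℝ ∞ W → HasCompactSupport W → ∀ v : ℂ,
      ∫ t, W t * (v.re * (g x t).re + v.im * (g x t).im) = 0 := by
    intro W hW hWc v
    have h1 := (zW_nice hR hc h hW hWc).2.2.2.2.1 x hx v
    rw [← h1]
    have h2 : fderiv ℝ (fun x => ∫ t, W t * zx R z x t) x = 0 := hgrad W hW hWc
    rw [h2]
    rfl
  have hzero : ∀ a : ℝ → ℝ, Continuous a → (∀ W : ℝ → ℝ, ContDiff ℝ ∞ W →
      HasCompactSupport W → ∫ t, W t * a t = 0) → ∀ t, a t = 0 := by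
    intro a ha hW t
    have h1 := ae_eq_zero_of_integral_contDiff_smul_eq_zero (μ := (volume : Measure ℝ))
      (f := a) ha.locallyIntegrable (fun g hg hgc => by
        simp only [smul_eq_mul]
        exact hW g hg hgc)
    have h2 : a = 0 := (Continuous.ae_eq_iff_eq volume ha continuous_zero).1 h1
    rw [h2]
    rfl
  intro t
  have hre := hzero (fun t => (g x t).re) (Complex.continuous_re.comp hgc) (fun W hW hWc => by
    have h1 := hint W hW hWc 1
    simpa using h1) t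
  have him := hzero (fun t => (g x t).im) (Complex.continuous_im.comp hgc) (fun W hW hWc => by
    have h1 := hint W hW hWc Complex.I
    simpa using h1) t
  exact Complex.ext hre him

end Pool.Agent.Helper327_Drum
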