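import Pool.Agent.Helper327_Drum.SDefs
import Pool.Agent.Helper327_Drum.Fin.AS3
import Pool.Agent.Helper327_Drum.Fin.ST2
import Pool.Agent.Helper327_Drum.Fin.ST3
import Pool.Agent.Helper327_Drum.Fin.ST4
import Pool.Agent.Helper327_Drum.Fin.ZL2

/-! The set of points at which the gradient vanishes at all times. -/

set_option autoImplicit false
open MeasureTheory Set Filter Topology ComplexConjugate
open scoped ContDiff InnerProductSpace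

namespace Pool.Agent.Helper327_Drum

open Pool.Agent.TH298.Sch (dd SC)
open Pool.Agent.R227.SA (la Wat Dat)

/-- An interior accumulation point lies on a closed curve of such points, isolated from the others. -/
theorem closed_curve {R : Set ℂ} {c : ℝ} {z : ℂ → ℝ → ℝ} {g : ℂ → ℝ → ℂ} (hR : SimpleClosedCurve R)
    (hc : 0 < c) (h : DrumSolution R c z g) {x₀ : ℂ} (hx₀ : x₀ ∈ inside R)
    (hacc : AccPt x₀ (𝓟 (still R g))) :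
    ∃ γ : Set ℂ, SimpleClosedCurve γ ∧ x₀ ∈ γ ∧ γ ⊆ inside R ∧ γ ⊆ still R g ∧
      ∃ O : Set ℂ, IsOpen O ∧ γ ⊆ O ∧ still R g ∩ O = γ := by
  obtain ⟨hRc, hRcon, hRinf⟩ := scc_basic hR
  obtain ⟨hDo, hDb, hfr, hcl, hdj⟩ := inside_basic hRc
  obtain ⟨hDc, -, -⟩ := inside_jordan hR ⟨x₀, hx₀⟩
  obtain ⟨lam, hlam, u, hm⟩ := mode_exists hRc hc h
  set A : Set ℂ := {x | x ∈ inside R ∧ ∀ t, g x t = 0} with hA
  have hAcc : AccPt x₀ (𝓟 A) := by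
    rw [accPt_iff_frequently] at hacc ⊢
    refine (hacc.and_eventually (hDo.mem_nhds hx₀)).mono ?_
    rintro y ⟨⟨h1, h2⟩, h3⟩
    exact ⟨h1, h3, h2.2⟩
  set crit : Set ℂ := {x | x ∈ inside R ∧ fderiv ℝ u x = 0} with hcrit
  have hAcrit : A ⊆ crit := fun x hx => ⟨hx.1, hm.crit x hx.1 hx.2⟩
  have hacc' : AccPt x₀ (𝓟 crit) := hAcc.mono (principal_mono.2 hAcrit)
  obtain ⟨Γ, hΓc, hΓcon, hx₀Γ, hΓD, hΓcr, hΓu, hloc⟩ :=
    crit_component hDo hDb hDc.isPreconnected hlam hm.wat hm.ne hx₀ hacc'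
  have hscc : SimpleClosedCurve Γ := by
    refine scc_of_graph hΓc hΓcon fun q hq => ?_
    obtain ⟨e, δ, ψ, h1, h2, h3, h4, h5, h6, h7, h8⟩ := hloc q hq
    exact ⟨e, δ, ψ, h1, h2, h3, h5, h6, fun t s ht hs => (h8 t s ht hs).2⟩
  have hloc' : ∀ q ∈ Γ, ∃ (e : ℂ) (δ : ℝ) (ψ : ℝ → ℝ), ‖e‖ = 1 ∧ 0 < δ ∧
      AnalyticAt ℝ ψ 0 ∧ ψ 0 = 0 ∧ ∀ t s : ℝ, |t| < δ → |s| < δ →
        ((q + (t + s * Complex.I) * e ∈ crit ↔ s = ψ t) ∧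
          (q + (t + s * Complex.I) * e ∈ Γ ↔ s = ψ t)) := by
    intro q hq
    obtain ⟨e, δ, ψ, h1, h2, h3, h4, h5, h6, h7, h8⟩ := hloc q hq
    refine ⟨e, δ, ψ, h1, h2, h4, h5, fun t s ht hs => ⟨?_, (h8 t s ht hs).2⟩⟩
    rw [← (h8 t s ht hs).1]
    exact ⟨fun hx => hx.2, fun hx => ⟨h7 ⟨t, s, ht, hs, rfl⟩, hx⟩⟩
  have hΓg : ∀ x ∈ Γ, ∀ t, g x t = 0 := by
    intro x hx
    refine grad_zero_of_modes hRc hc h (hΓD hx) fun lam' u' hlam' hu' hcr' => ?_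
    exact share_component hlam' hu' hΓcon hΓD hloc' hAcrit hx₀Γ hAcc
      (fun y hy => hcr' y hy.1 hy.2) x hx
  obtain ⟨O, hO, hΓO, hOe⟩ := component_isolated hloc'
  refine ⟨Γ, hscc, hx₀Γ, hΓD, fun x hx => ⟨Or.inl (hΓD hx), hΓg x hx⟩, O ∩ inside R,
    hO.inter hDo, fun x hx => ⟨hΓO hx, hΓD hx⟩, ?_⟩
  apply Subset.antisymm
  · rintro x ⟨h1, h2, h3⟩
    rw [← hOe]
    exact ⟨hAcrit ⟨h3, h1.2⟩, h2⟩
  · intro x hx
    exact ⟨⟨Or.inl (hΓD hx), hΓg x hx⟩, hΓO hx, hΓD hx⟩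

end Pool.Agent.Helper327_Drum
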