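import Pool.Agent.Helper327_Drum.Fin.M3a

/-! The frequency components of a drum solution. -/

set_option autoImplicit false
open MeasureTheory Set Filter Topology
open scoped ContDiff InnerProductSpace

namespace Pool.Agent.Helper327_Drum

open Pool.Agent.TH298.Sch (dd SC)
open Pool.Agent.R227.SA (la)

/-- the frequency component of the value at time `t₀` as a uniform limit of superpositions in time -/
theorem mode_limit2 {R : Set ℂ} {c : ℝ} {z : ℂ → ℝ → ℝ} {g : ℂ → ℝ → ℂ} (hR : IsCompact R)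
    (hc : 0 < c) (h : DrumSolution R c z g) {μ : ℝ} (h0 : 0 < μ) (h1 : μ < 1) (t₀ : ℝ) :
    ∃ u : ℂ → ℝ, Continuous u ∧ (∀ x, x ∉ inside R → u x = 0) ∧
      (cl u : ℂ → ℝ) =ᵐ[volume] u ∧ K (inside R) (cl u) = μ • cl u ∧
      (∀ ψ : L2, K (inside R) ψ = μ • ψ → ⟪ψ, cl u⟫_ℝ = ⟪ψ, cl (fun x => zx R z x t₀)⟫_ℝ) ∧
      ∃ W : ℕ → ℝ → ℝ, (∀ n, ContDiff ℝ ∞ (W n) ∧ HasCompactSupport (W n)) ∧
        TendstoUniformly (fun n x => ∫ t, W n t * zx R z x t) u atTop ∧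
        TendstoUniformly (fun n x => (c ^ 2)⁻¹ * ∫ t, iteratedDeriv 2 (W n) t * zx R z x t)
          (fun x => -((1 / μ - 1) * u x)) atTop := by
  have hlam : 0 < 1 / μ - 1 := by
    rw [sub_pos, lt_div_iff₀ h0]
    linarith
  obtain ⟨⟨M, hM0, hM⟩, hav⟩ := avg_shift hR hc h t₀
  obtain ⟨y, hy1, hy2, hy3⟩ := hav μ h0 h1
  obtain ⟨θ, hθ, hθc, hθ1⟩ := exists_theta
  obtain ⟨om, hom⟩ : ∃ om, om = c * √(1 / μ - 1) := ⟨_, rfl⟩
  have hom0 : 0 ≤ om := by rw [hom]; positivity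
  have hom2 : om ^ 2 = c ^ 2 * (1 / μ - 1) := by
    rw [hom, mul_pow, Real.sq_sqrt hlam.le]
  obtain ⟨B, hB0, hB⟩ := Vn_int hom0 t₀ hθ hθc
  obtain ⟨C, hC0, hC⟩ := Zf_sup hR hc h
  obtain ⟨hDo, hDb, -⟩ := inside_basic hR
  -- the sequences
  have hpos : ∀ n : ℕ, (0 : ℝ) < (n : ℝ) + 1 := fun n => by positivity
  have hge : ∀ n : ℕ, (1 : ℝ) ≤ (n : ℝ) + 1 := fun n => by
    have : (0 : ℝ) ≤ n := Nat.cast_nonneg n
    linarith
  have hWnice := fun n : ℕ => Wn_nice om t₀ hθ hθc (hpos n)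
  have hVnice := fun n : ℕ => Vn_nice om t₀ hθ hθc (hpos n)
  have hT : Tendsto (fun n : ℕ => (n : ℝ) + 1) atTop atTop :=
    tendsto_atTop_add_const_right _ _ tendsto_natCast_atTop_atTop
  have hlim : Tendsto (fun n : ℕ => II R z (Wn om t₀ θ ((n : ℝ) + 1))) atTop (𝓝 y) := by
    have := (hy3 θ hθ hθc hθ1).comp hT
    rw [← hom] at this
    exact this
  have hsmall : Tendsto (fun n : ℕ => M * (B / ((n : ℝ) + 1))) atTop (𝓝 0) := by
    have := (tendsto_const_nhds (x := B)).div_atTop hT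
    simpa using this.const_mul M
  have hVI : ∀ n : ℕ, ‖II R z (Vn om t₀ θ ((n : ℝ) + 1))‖ ≤ M * (B / ((n : ℝ) + 1)) := fun n =>
    (II_norm hM (hVnice n).1.continuous (hVnice n).2).trans
      (mul_le_mul_of_nonneg_left (hB _ (hge n)).1 hM0)
  have hVz : ∀ (n : ℕ) x, |Zf R z (Vn om t₀ θ ((n : ℝ) + 1)) x| ≤
      C * (M * (B / ((n : ℝ) + 1))) := fun n x => by
    refine (hC _ (hVnice n).1 (hVnice n).2 x).trans (mul_le_mul_of_nonneg_left ?_ hC0)
    obtain ⟨s1, s2⟩ := smooth_d2 (hVnice n).1 (hVnice n).2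
    exact (II_norm hM s1.continuous s2).trans (mul_le_mul_of_nonneg_left (hB _ (hge n)).2 hM0)
  have hdiff : ∀ (n m : ℕ) x, |Zf R z (Wn om t₀ θ ((n : ℝ) + 1)) x -
      Zf R z (Wn om t₀ θ ((m : ℝ) + 1)) x| ≤ C * (M * (B / ((n : ℝ) + 1)) +
        M * (B / ((m : ℝ) + 1)) + om ^ 2 * ‖II R z (Wn om t₀ θ ((n : ℝ) + 1)) -
          II R z (Wn om t₀ θ ((m : ℝ) + 1))‖) := fun n m x => by
    refine (Wn_diff hC0 hC hR h om t₀ hθ hθc (hpos n) (hpos m) x).trans
      (mul_le_mul_of_nonneg_left ?_ hC0)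
    have := hVI n
    have := hVI m
    linarith
  -- uniformly Cauchy
  have hcau : UniformCauchySeqOn (fun (n : ℕ) x => Zf R z (Wn om t₀ θ ((n : ℝ) + 1)) x) atTop
      univ := by
    rw [Metric.uniformCauchySeqOn_iff]
    intro ε hε
    have hε' : 0 < ε / (C * (2 + om ^ 2) + 1) := by positivity
    have hc1 := Metric.cauchySeq_iff.mp hlim.cauchySeq _ hε'
    obtain ⟨N1, hN1⟩ := hc1
    have hc2 := (Metric.tendsto_atTop.mp hsmall) _ hε'
    obtain ⟨N2, hN2⟩ := hc2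
    refine ⟨max N1 N2, fun m hm n hn x _ => ?_⟩
    have a1 := hN1 m (le_of_max_le_left hm) n (le_of_max_le_left hn)
    have a2 := hN2 m (le_of_max_le_right hm)
    have a3 := hN2 n (le_of_max_le_right hn)
    rw [dist_eq_norm] at a1
    rw [Real.dist_eq, sub_zero] at a2 a3
    have a2' := (le_abs_self _).trans a2.le
    have a3' := (le_abs_self _).trans a3.le
    rw [Real.dist_eq]
    refine (hdiff m n x).trans_lt ?_
    set η := ε / (C * (2 + om ^ 2) + 1) with hη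
    calc C * (M * (B / ((m : ℝ) + 1)) + M * (B / ((n : ℝ) + 1)) +
          om ^ 2 * ‖II R z (Wn om t₀ θ ((m : ℝ) + 1)) - II R z (Wn om t₀ θ ((n : ℝ) + 1))‖)
        ≤ C * (η + η + om ^ 2 * η) := by
          gcongr
      _ = (C * (2 + om ^ 2)) * η := by ring
      _ < (C * (2 + om ^ 2) + 1) * η := by
          apply mul_lt_mul_of_pos_right _ hε'
          linarith
      _ = ε := by
          rw [hη]
          field_simp
  have hpt : ∀ x, ∃ a, Tendsto (fun n : ℕ => Zf R z (Wn om t₀ θ ((n : ℝ) + 1)) x) atTop (𝓝 a) :=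
    fun x => cauchySeq_tendsto_of_complete (hcau.cauchySeq (mem_univ x))
  choose u hu using hpt
  have hunif : TendstoUniformly (fun (n : ℕ) x => Zf R z (Wn om t₀ θ ((n : ℝ) + 1)) x) u atTop := by
    rw [← tendstoUniformlyOn_univ]
    exact hcau.tendstoUniformlyOn_of_tendsto fun x _ => hu x
  have hWz := fun n : ℕ => zW_nice hR hc h (hWnice n).1 (hWnice n).2
  have hucont : Continuous u := hunif.continuous (Frequently.of_forall fun n => (hWz n).1)
  have hu0 : ∀ x, x ∉ inside R → u x = 0 := fun x hx => by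
    refine tendsto_nhds_unique (hu x) ?_
    have : (fun n : ℕ => Zf R z (Wn om t₀ θ ((n : ℝ) + 1)) x) = fun _ => 0 := by
      funext n
      exact (hWz n).2.1 x hx
    rw [this]
    exact tendsto_const_nhds
  have hucs : HasCompactSupport u := by
    refine HasCompactSupport.intro (K := closure (inside R)) hDb.isCompact_closure fun x hx => ?_
    exact hu0 x fun h' => hx (subset_closure h')
  have huL : MemLp u 2 (volume : Measure ℂ) := hucont.memLp_of_hasCompactSupport hucs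
  have hclu : (cl u : ℂ → ℝ) =ᵐ[volume] u := by
    unfold cl
    rw [dif_pos huL]
    exact huL.coeFn_toLp
  -- the class of u is y
  have hyu : y = cl u := by
    have h2 := tendstoInMeasure_of_tendsto_Lp hlim
    obtain ⟨ns, hns, hae⟩ := h2.exists_seq_tendsto_ae
    have hall : ∀ᵐ x, ∀ n : ℕ, (II R z (Wn om t₀ θ ((n : ℝ) + 1)) : ℂ → ℝ) x =
        Zf R z (Wn om t₀ θ ((n : ℝ) + 1)) x := by
      rw [ae_all_iff]
      intro n
      exact II_coe hR h (hWnice n).1.continuous (hWnice n).2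
    apply Lp.ext
    filter_upwards [hae, hall, hclu] with x hx1 hx2 hx3
    rw [hx3]
    refine tendsto_nhds_unique hx1 ?_
    have := (hu x).comp hns.tendsto_atTop
    refine this.congr fun i => ?_
    exact (hx2 (ns i)).symm
  refine ⟨u, hucont, hu0, hclu, ?_, ?_, fun n => Wn om t₀ θ ((n : ℝ) + 1), hWnice, hunif, ?_⟩
  · rw [← hyu]
    exact hy1
  · intro ψ hψ
    rw [← hyu, hy2 ψ hψ]
    rfl
  · -- the second limit
    have hcc : (0 : ℝ) < c ^ 2 := by positivity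
    have hexp : ∀ (n : ℕ) x, (c ^ 2)⁻¹ * ∫ t, iteratedDeriv 2 (Wn om t₀ θ ((n : ℝ) + 1)) t *
        zx R z x t = (c ^ 2)⁻¹ * Zf R z (Vn om t₀ θ ((n : ℝ) + 1)) x -
          (1 / μ - 1) * Zf R z (Wn om t₀ θ ((n : ℝ) + 1)) x := by
      intro n x
      have : ∫ t, iteratedDeriv 2 (Wn om t₀ θ ((n : ℝ) + 1)) t * zx R z x t =
          Zf R z (iteratedDeriv 2 (Wn om t₀ θ ((n : ℝ) + 1))) x := rfl
      rw [this, Wn_d2' om t₀ hθ, Zf_lin hR h (hVnice n).1.continuous (hVnice n).2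
        (hWnice n).1.continuous (hWnice n).2, hom2]
      field_simp
      ring
    rw [Metric.tendstoUniformly_iff]
    intro ε hε
    have e1 : 0 < ε / 2 / (1 / μ - 1) := by positivity
    have e2 : 0 < ε / 2 / ((c ^ 2)⁻¹ * C + 1) := by positivity
    filter_upwards [Metric.tendstoUniformly_iff.mp hunif _ e1,
      (Metric.tendsto_nhds.mp hsmall) _ e2] with n hn1 hn2 x
    rw [hexp, Real.dist_eq]
    have b1 := hn1 x
    rw [Real.dist_eq] at b1
    have b2 := hVz n x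
    rw [Real.dist_eq, sub_zero] at hn2
    have b3 := (le_abs_self _).trans hn2.le
    have e3 : -((1 / μ - 1) * u x) - ((c ^ 2)⁻¹ * Zf R z (Vn om t₀ θ ((n : ℝ) + 1)) x -
          (1 / μ - 1) * Zf R z (Wn om t₀ θ ((n : ℝ) + 1)) x) =
        -((1 / μ - 1) * (u x - Zf R z (Wn om t₀ θ ((n : ℝ) + 1)) x)) -
          (c ^ 2)⁻¹ * Zf R z (Vn om t₀ θ ((n : ℝ) + 1)) x := by ring
    rw [e3]
    refine (abs_sub _ _).trans_lt ?_
    rw [abs_neg, abs_mul, abs_mul, abs_of_pos hlam, abs_of_pos (inv_pos.mpr hcc)]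
    have f1 : (1 / μ - 1) * |u x - Zf R z (Wn om t₀ θ ((n : ℝ) + 1)) x| < ε / 2 := by
      rw [lt_div_iff₀ hlam] at b1
      linarith
    have f2 : (c ^ 2)⁻¹ * |Zf R z (Vn om t₀ θ ((n : ℝ) + 1)) x| ≤ ε / 2 := by
      calc (c ^ 2)⁻¹ * |Zf R z (Vn om t₀ θ ((n : ℝ) + 1)) x|
          ≤ (c ^ 2)⁻¹ * (C * (ε / 2 / ((c ^ 2)⁻¹ * C + 1))) := by
            refine mul_le_mul_of_nonneg_left (b2.trans ?_) (inv_pos.mpr hcc).le
            exact mul_le_mul_of_nonneg_left b3 hC0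
        _ = ((c ^ 2)⁻¹ * C) * (ε / 2 / ((c ^ 2)⁻¹ * C + 1)) := by ring
        _ ≤ ((c ^ 2)⁻¹ * C + 1) * (ε / 2 / ((c ^ 2)⁻¹ * C + 1)) := by
            apply mul_le_mul_of_nonneg_right _ e2.le
            linarith
        _ = ε / 2 := by
            field_simp
    linarith

end Pool.Agent.Helper327_Drum
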