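import Pool.Agent.Helper327_Drum.Fin.E4
import Pool.Agent.Helper327_Drum.Fin.E0

/-
JOB ST6a (owner helper327, problem MP_d92c84_an). All imports are on origin/main.
-/

set_option autoImplicit false
open MeasureTheory Set Filter Topology
open scoped ContDiff InnerProductSpace

namespace Pool.Agent.Helper327_Drum

open Pool.Agent.TH298.Sch (dd SC)
open Pool.Agent.R227.SA (la)

theorem mem_V2_sq_le (u v η : ℝ) (hη : 0 < η) :
    u ^ 2 ≤ (1 + η) * v ^ 2 + (1 + 1 / η) * (v - u) ^ 2 := by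
  have h1 : (1 + η) * v ^ 2 + (1 + 1 / η) * (v - u) ^ 2 - u ^ 2 =
      (η * v + (v - u)) ^ 2 / η := by
    field_simp
    ring
  have h2 : 0 ≤ (η * v + (v - u)) ^ 2 / η := by positivity
  linarith

/-- Step 0: the inequality for `C¹` test functions. -/
theorem mem_V2_weak {D : Set ℂ} (hDo : IsOpen D) {f : ℂ → ℝ} (hf1 : ContDiffOn ℝ 1 f D)
    {C : ℝ} (hC : 0 ≤ C)
    (hw : ∀ φ : ℂ → ℝ, SC φ → tsupport φ ⊆ D →
      |∫ x, (dd 1 f x * dd 1 φ x + dd Complex.I f x * dd Complex.I φ x)| ≤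
        C * √(∫ x, (φ x ^ 2 + dd 1 φ x ^ 2 + dd Complex.I φ x ^ 2)))
    {φ : ℂ → ℝ} (hφ : C1c D φ) :
    |∫ x, (dd 1 f x * dd 1 φ x + dd Complex.I f x * dd Complex.I φ x)| ≤
        C * √(∫ x, (φ x ^ 2 + dd 1 φ x ^ 2 + dd Complex.I φ x ^ 2)) := by
  obtain ⟨D', hD'o, hKD', hD'D, hD'c⟩ := exists_open_between_and_isCompact_closure
    hφ.2.1.isCompact hDo hφ.2.2
  have hφ' : C1c D' φ := ⟨hφ.1, hφ.2.1, hKD'⟩
  have hsub : D' ⊆ D := subset_closure.trans hD'D
  obtain ⟨C1, hC1⟩ := hD'c.exists_bound_of_continuousOn ((e4_ddc hDo hf1 1).mono hD'D)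
  obtain ⟨C2, hC2⟩ := hD'c.exists_bound_of_continuousOn ((e4_ddc hDo hf1 Complex.I).mono hD'D)
  set v : ℝ := (volume : Measure ℂ).real (closure D') with hv
  have hv0 : 0 ≤ v := measureReal_nonneg
  set Q : ℝ := (|C1| + |C2|) * v with hQ
  set N : ℝ := ∫ x, (φ x ^ 2 + dd 1 φ x ^ 2 + dd Complex.I φ x ^ 2) with hN
  have isq : ∀ {χ : ℂ → ℝ}, Continuous χ → HasCompactSupport χ → Integrable (fun x => χ x ^ 2) := by
    intro χ h1 h2
    have : Integrable (fun x => χ x * χ x) :=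
      (h1.mul h1).integrable_of_hasCompactSupport h2.mul_left
    simpa only [pow_two] using this
  have key : ∀ η : ℝ, 0 < η →
      |∫ x, (dd 1 f x * dd 1 φ x + dd Complex.I f x * dd Complex.I φ x)| ≤
        Q * η ^ 2 + C * √((1 + η) * N + 3 * (η ^ 2 + η)) := by
    intro η hη
    obtain ⟨ψ, hψ, hψs, h0, h1, q0, q1, q2⟩ := approx_sc hD'o hφ' (ε := η ^ 2) (by positivity)
    have hψ' : C1c D' ψ := e4_of_sc hψ hψs
    have hψD : C1c D ψ := e4_of_sc hψ (hψs.trans hsub)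
    have hwψ := hw ψ hψ (hψs.trans hsub)
    have i1 : ∀ h : ℂ, Integrable (fun x => dd h f x * dd h φ x) := fun h =>
      e4_prod_int hDo (e4_ddc hDo hf1 h) (e4_C1c_dd hφ h).1 (e4_C1c_dd hφ h).2.1 (e4_C1c_dd hφ h).2.2
    have i2 : ∀ h : ℂ, Integrable (fun x => dd h f x * dd h ψ x) := fun h =>
      e4_prod_int hDo (e4_ddc hDo hf1 h) (e4_C1c_dd hψD h).1 (e4_C1c_dd hψD h).2.1
        (e4_C1c_dd hψD h).2.2
    have e1 : (∫ x, (dd 1 f x * dd 1 φ x + dd Complex.I f x * dd Complex.I φ x)) -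
        ∫ x, (dd 1 f x * dd 1 ψ x + dd Complex.I f x * dd Complex.I ψ x) =
        ∫ x, (dd 1 f x * (dd 1 φ x - dd 1 ψ x) + dd Complex.I f x *
          (dd Complex.I φ x - dd Complex.I ψ x)) := by
      have j1 : Integrable (fun x => dd 1 f x * dd 1 φ x + dd Complex.I f x * dd Complex.I φ x) :=
        (i1 1).add (i1 Complex.I)
      have j2 : Integrable (fun x => dd 1 f x * dd 1 ψ x + dd Complex.I f x * dd Complex.I ψ x) :=
        (i2 1).add (i2 Complex.I)
      rw [← integral_sub j1 j2]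
      congr 1
      funext x
      ring
    have hb : ∀ x, ‖(dd 1 f x * (dd 1 φ x - dd 1 ψ x) + dd Complex.I f x *
          (dd Complex.I φ x - dd Complex.I ψ x))‖ ≤
        (closure D').indicator (fun _ => (|C1| + |C2|) * η ^ 2) x := by
      intro x
      by_cases hx : x ∈ closure D'
      · rw [indicator_of_mem hx, Real.norm_eq_abs]
        have b1 : |dd 1 f x| ≤ |C1| := (hC1 x hx).trans (le_abs_self _)
        have b2 : |dd Complex.I f x| ≤ |C2| := (hC2 x hx).trans (le_abs_self _)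
        have b3 : |dd 1 φ x - dd 1 ψ x| ≤ η ^ 2 := by simpa using h1 1 x
        have b4 : |dd Complex.I φ x - dd Complex.I ψ x| ≤ η ^ 2 := by simpa using h1 Complex.I x
        have c1 : |dd 1 f x * (dd 1 φ x - dd 1 ψ x)| ≤ |C1| * η ^ 2 := by
          rw [abs_mul]; exact mul_le_mul b1 b3 (abs_nonneg _) (abs_nonneg _)
        have c2 : |dd Complex.I f x * (dd Complex.I φ x - dd Complex.I ψ x)| ≤ |C2| * η ^ 2 := by
          rw [abs_mul]; exact mul_le_mul b2 b4 (abs_nonneg _) (abs_nonneg _)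
        calc _ ≤ |dd 1 f x * (dd 1 φ x - dd 1 ψ x)| +
              |dd Complex.I f x * (dd Complex.I φ x - dd Complex.I ψ x)| := abs_add_le _ _
          _ ≤ |C1| * η ^ 2 + |C2| * η ^ 2 := add_le_add c1 c2
          _ = (|C1| + |C2|) * η ^ 2 := by ring
      · rw [indicator_of_notMem hx]
        have hx1 : x ∉ tsupport φ := fun h => hx (subset_closure (hKD' h))
        have hx2 : x ∉ tsupport ψ := fun h => hx (subset_closure (hψs h))
        have z1 : ∀ h, dd h φ x = 0 := fun h => by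
          unfold dd; rw [fderiv_of_notMem_tsupport (𝕜 := ℝ) hx1]; rfl
        have z2 : ∀ h, dd h ψ x = 0 := fun h => by
          unfold dd; rw [fderiv_of_notMem_tsupport (𝕜 := ℝ) hx2]; rfl
        rw [z1, z2, z1, z2]
        simp
    have hint : Integrable ((closure D').indicator (fun _ : ℂ => (|C1| + |C2|) * η ^ 2)) := by
      rw [integrable_indicator_iff isClosed_closure.measurableSet]
      exact integrableOn_const hD'c.measure_lt_top.ne
    have hdiff := norm_integral_le_of_norm_le hint (Eventually.of_forall hb)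
    rw [← e1, Real.norm_eq_abs, integral_indicator isClosed_closure.measurableSet,
      setIntegral_const, smul_eq_mul] at hdiff
    have hdiff' : |(∫ x, (dd 1 f x * dd 1 φ x + dd Complex.I f x * dd Complex.I φ x)) -
        ∫ x, (dd 1 f x * dd 1 ψ x + dd Complex.I f x * dd Complex.I ψ x)| ≤ Q * η ^ 2 := by
      refine hdiff.trans (le_of_eq ?_)
      rw [hQ, hv]; ring
    -- norms
    have s0 := isq hφ.1.continuous hφ.2.1
    have s1 : ∀ h : ℂ, Integrable (fun x => dd h φ x ^ 2) := fun h =>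
      isq (e4_C1c_dd hφ h).1 (e4_C1c_dd hφ h).2.1
    have t0 := isq hψD.1.continuous hψD.2.1
    have t1 : ∀ h : ℂ, Integrable (fun x => dd h ψ x ^ 2) := fun h =>
      isq (e4_C1c_dd hψD h).1 (e4_C1c_dd hψD h).2.1
    have r0 : Integrable (fun x => (φ x - ψ x) ^ 2) :=
      isq (hφ.1.continuous.sub hψD.1.continuous) (hφ.2.1.sub hψD.2.1)
    have r1 : ∀ h : ℂ, Integrable (fun x => (dd h φ x - dd h ψ x) ^ 2) := fun h =>
      isq ((e4_C1c_dd hφ h).1.sub (e4_C1c_dd hψD h).1)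
        ((e4_C1c_dd hφ h).2.1.sub (e4_C1c_dd hψD h).2.1)
    have cmp : ∀ (a b : ℂ → ℝ), Integrable (fun x => a x ^ 2) → Integrable (fun x => b x ^ 2) →
        Integrable (fun x => (a x - b x) ^ 2) → ∫ x, (a x - b x) ^ 2 ≤ η ^ 2 →
        ∫ x, b x ^ 2 ≤ (1 + η) * (∫ x, a x ^ 2) + (η ^ 2 + η) := by
      intro a b ia ib iab hab
      calc ∫ x, b x ^ 2 ≤ ∫ x, ((1 + η) * a x ^ 2 + (1 + 1 / η) * (a x - b x) ^ 2) :=
            integral_mono ib ((ia.const_mul _).add (iab.const_mul _))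
              (fun x => mem_V2_sq_le (b x) (a x) η hη)
        _ = (1 + η) * (∫ x, a x ^ 2) + (1 + 1 / η) * ∫ x, (a x - b x) ^ 2 := by
            rw [integral_add (ia.const_mul _) (iab.const_mul _), integral_const_mul,
              integral_const_mul]
        _ ≤ (1 + η) * (∫ x, a x ^ 2) + (1 + 1 / η) * η ^ 2 := by
            gcongr
        _ = (1 + η) * (∫ x, a x ^ 2) + (η ^ 2 + η) := by
            field_simp
    have c0 := cmp φ ψ s0 t0 r0 q0
    have c1 := cmp (dd 1 φ) (dd 1 ψ) (s1 1) (t1 1) (r1 1) q1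
    have c2 := cmp (dd Complex.I φ) (dd Complex.I ψ) (s1 Complex.I) (t1 Complex.I) (r1 Complex.I) q2
    have eN : N = (∫ x, φ x ^ 2) + (∫ x, dd 1 φ x ^ 2) + ∫ x, dd Complex.I φ x ^ 2 := by
      have j3 : Integrable (fun x => φ x ^ 2 + dd 1 φ x ^ 2) := s0.add (s1 1)
      rw [hN, integral_add j3 (s1 Complex.I), integral_add s0 (s1 1)]
    have eN' : ∫ x, (ψ x ^ 2 + dd 1 ψ x ^ 2 + dd Complex.I ψ x ^ 2) =
        (∫ x, ψ x ^ 2) + (∫ x, dd 1 ψ x ^ 2) + ∫ x, dd Complex.I ψ x ^ 2 := by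
      have j3 : Integrable (fun x => ψ x ^ 2 + dd 1 ψ x ^ 2) := t0.add (t1 1)
      rw [integral_add j3 (t1 Complex.I), integral_add t0 (t1 1)]
    have hNle : ∫ x, (ψ x ^ 2 + dd 1 ψ x ^ 2 + dd Complex.I ψ x ^ 2) ≤
        (1 + η) * N + 3 * (η ^ 2 + η) := by
      rw [eN', eN]
      linarith
    have hfin := mul_le_mul_of_nonneg_left (Real.sqrt_le_sqrt hNle) hC
    have h3 := abs_le.1 hdiff'
    have h4 := abs_le.1 (hwψ.trans hfin)
    rw [abs_le]
    constructor <;> linarith [h3.1, h3.2, h4.1, h4.2]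
  have hlim : Tendsto (fun η : ℝ => Q * η ^ 2 + C * √((1 + η) * N + 3 * (η ^ 2 + η)))
      (𝓝[>] 0) (𝓝 (Q * 0 ^ 2 + C * √((1 + 0) * N + 3 * (0 ^ 2 + 0)))) := by
    apply Tendsto.mono_left _ nhdsWithin_le_nhds
    apply Continuous.tendsto
    fun_prop
  have hlim' : Tendsto (fun η : ℝ => Q * η ^ 2 + C * √((1 + η) * N + 3 * (η ^ 2 + η)))
      (𝓝[>] 0) (𝓝 (C * √N)) := by
    convert hlim using 2
    simp
  apply ge_of_tendsto hlim'
  filter_upwards [self_mem_nhdsWithin] with η hη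
  exact key η hη

/-- the energy of the truncated functions -/
theorem mem_V2_energy {D : Set ℂ} (hDo : IsOpen D) (hDb : Bornology.IsBounded D) {f : ℂ → ℝ}
    (hf : Continuous f) (hf0 : ∀ x, x ∉ D → f x = 0) (hf1 : ContDiffOn ℝ 1 f D) {C : ℝ} (hC : 0 ≤ C)
    (hw : ∀ φ : ℂ → ℝ, SC φ → tsupport φ ⊆ D →
      |∫ x, (dd 1 f x * dd 1 φ x + dd Complex.I f x * dd Complex.I φ x)| ≤
        C * √(∫ x, (φ x ^ 2 + dd 1 φ x ^ 2 + dd Complex.I φ x ^ 2)))
    {ε : ℝ} (hε : 0 < ε) :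
    Integrable (fun x => e4g ε (f x) * e4E f x) ∧
      ∫ x, e4g ε (f x) * e4E f x ≤ C ^ 2 + ∫ x, f x ^ 2 := by
  have hC1 := e4f_C1c hDo hDb hf hf0 hf1 hε
  have e1 : (fun x => e4g ε (f x) * e4E f x) = fun x => dd 1 f x * dd 1 (e4f f ε) x +
      dd Complex.I f x * dd Complex.I (e4f f ε) x := by
    funext x
    rw [e4f_dd hDo hf hf0 hf1 hε, e4f_dd hDo hf hf0 hf1 hε]
    unfold e4E
    ring
  have i1 : ∀ h : ℂ, Integrable (fun x => dd h f x * dd h (e4f f ε) x) := fun h =>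
    e4_prod_int hDo (e4_ddc hDo hf1 h) (e4_C1c_dd hC1 h).1 (e4_C1c_dd hC1 h).2.1
      (e4_C1c_dd hC1 h).2.2
  have hi : Integrable (fun x => e4g ε (f x) * e4E f x) := by
    rw [e1]
    exact (i1 1).add (i1 Complex.I)
  refine ⟨hi, ?_⟩
  have hmain := mem_V2_weak hDo hf1 hC hw hC1
  set X : ℝ := ∫ x, e4g ε (f x) * e4E f x with hX
  have hX0 : 0 ≤ X := integral_nonneg fun x => mul_nonneg (e4g_nn _ _) (e4E_nn f x)
  have hXe : ∫ x, (dd 1 f x * dd 1 (e4f f ε) x + dd Complex.I f x * dd Complex.I (e4f f ε) x) = X := by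
    rw [hX, e1]
  rw [hXe, abs_of_nonneg hX0] at hmain
  have if2 : Integrable (fun x => f x ^ 2) := by
    have : Integrable (fun x => f x * f x) :=
      (hf.mul hf).integrable_of_hasCompactSupport (e4_cs hDb hf0).mul_left
    simpa only [pow_two] using this
  set A : ℝ := ∫ x, f x ^ 2 with hA
  have hA0 : 0 ≤ A := integral_nonneg fun x => sq_nonneg _
  have hle : ∫ x, (e4f f ε x ^ 2 + dd 1 (e4f f ε) x ^ 2 + dd Complex.I (e4f f ε) x ^ 2) ≤ A + X := by
    rw [hA, hX, ← integral_add if2 hi]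
    apply integral_mono_of_nonneg
    · exact Eventually.of_forall fun x => by positivity
    · exact if2.add hi
    · refine Eventually.of_forall fun x => ?_
      show e4f f ε x ^ 2 + dd 1 (e4f f ε) x ^ 2 + dd Complex.I (e4f f ε) x ^ 2 ≤
        f x ^ 2 + e4g ε (f x) * e4E f x
      rw [e4f_dd hDo hf hf0 hf1 hε, e4f_dd hDo hf hf0 hf1 hε]
      have h1 : e4f f ε x ^ 2 ≤ f x ^ 2 := sq_le_sq.2 (e4F_abs hε (f x))
      have h2 : e4g ε (f x) ^ 2 ≤ e4g ε (f x) := by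
        have a1 := e4g_nn ε (f x)
        have a2 := e4g_le hε (f x)
        nlinarith
      have h3 := e4E_nn f x
      have h4 : (e4g ε (f x) * dd 1 f x) ^ 2 + (e4g ε (f x) * dd Complex.I f x) ^ 2 =
          e4g ε (f x) ^ 2 * e4E f x := by
        unfold e4E; ring
      have h5 := mul_le_mul_of_nonneg_right h2 h3
      linarith
  have h6 : X ≤ C * √(A + X) := hmain.trans (mul_le_mul_of_nonneg_left (Real.sqrt_le_sqrt hle) hC)
  have h7 : X ^ 2 ≤ C ^ 2 * (A + X) := by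
    have := pow_le_pow_left₀ hX0 h6 2
    rwa [mul_pow, Real.sq_sqrt (by positivity)] at this
  by_contra hcon
  push Not at hcon
  have h8 : (C ^ 2 + A) * X < X * X := by
    apply mul_lt_mul_of_pos_right hcon
    have : 0 ≤ C ^ 2 + A := by positivity
    linarith
  have h9 : A * (C ^ 2 + A) ≤ A * X := mul_le_mul_of_nonneg_left hcon.le hA0
  nlinarith [mul_nonneg hA0 hA0]

/-- Step 3: the gradient is square integrable on `f ≠ 0`. -/
theorem mem_V2_sq {D : Set ℂ} (hDo : IsOpen D) (hDb : Bornology.IsBounded D) {f : ℂ → ℝ}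
    (hf : Continuous f) (hf0 : ∀ x, x ∉ D → f x = 0) (hf1 : ContDiffOn ℝ 1 f D) {C : ℝ} (hC : 0 ≤ C)
    (hw : ∀ φ : ℂ → ℝ, SC φ → tsupport φ ⊆ D →
      |∫ x, (dd 1 f x * dd 1 φ x + dd Complex.I f x * dd Complex.I φ x)| ≤
        C * √(∫ x, (φ x ^ 2 + dd 1 φ x ^ 2 + dd Complex.I φ x ^ 2))) :
    Integrable ({x | f x ≠ 0}.indicator (e4E f)) := by
  have hSm : MeasurableSet {x | f x ≠ 0} := (isOpen_ne_fun hf continuous_const).measurableSet
  have hnn : ∀ x, 0 ≤ {x | f x ≠ 0}.indicator (e4E f) x := fun x =>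
    indicator_nonneg (fun _ _ => e4E_nn f _) x
  refine ⟨((e4E_m f).indicator hSm).aestronglyMeasurable, ?_⟩
  rw [hasFiniteIntegral_iff_ofReal (Eventually.of_forall hnn)]
  have h1 : ∀ x, ENNReal.ofReal ({x | f x ≠ 0}.indicator (e4E f) x) ≤
      liminf (fun n => ENNReal.ofReal (e4g (e4e n) (f x) * e4E f x)) atTop := by
    intro x
    by_cases hx : f x = 0
    · rw [indicator_of_notMem (by simpa using hx)]
      simp
    · rw [indicator_of_mem (by exact hx)]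
      have : Tendsto (fun n => ENNReal.ofReal (e4g (e4e n) (f x) * e4E f x)) atTop
          (𝓝 (ENNReal.ofReal (e4E f x))) := by
        refine tendsto_const_nhds.congr' ?_
        filter_upwards [e4g_ev hx] with n hn
        rw [hn, one_mul]
      rw [this.liminf_eq]
  refine lt_of_le_of_lt (lintegral_mono h1) ?_
  refine lt_of_le_of_lt (lintegral_liminf_le fun n =>
    (((e4g_m hf (e4e n)).mul (e4E_m f)).ennreal_ofReal)) ?_
  have h2 : ∀ n, ∫⁻ x, ENNReal.ofReal (e4g (e4e n) (f x) * e4E f x) ≤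
      ENNReal.ofReal (C ^ 2 + ∫ x, f x ^ 2) := by
    intro n
    obtain ⟨a, b⟩ := mem_V2_energy hDo hDb hf hf0 hf1 hC hw (e4e_pos n)
    rw [← ofReal_integral_eq_lintegral_ofReal a
      (Eventually.of_forall fun x => mul_nonneg (e4g_nn _ _) (e4E_nn f x))]
    exact ENNReal.ofReal_le_ofReal b
  refine lt_of_le_of_lt (liminf_le_of_frequently_le' (Frequently.of_forall h2)) ENNReal.ofReal_lt_top

/-- TARGET: functions with zero boundary values and weak Laplacian in the dual of `H¹₀(D)` belong to `H¹₀(D)`. -/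
theorem mem_V2 {D : Set ℂ} (hDo : IsOpen D) (hDb : Bornology.IsBounded D) {f : ℂ → ℝ}
    (hf : Continuous f) (hf0 : ∀ x, x ∉ D → f x = 0) (hf1 : ContDiffOn ℝ 1 f D) {C : ℝ} (hC : 0 ≤ C)
    (hw : ∀ φ : ℂ → ℝ, SC φ → tsupport φ ⊆ D →
      |∫ x, (dd 1 f x * dd 1 φ x + dd Complex.I f x * dd Complex.I φ x)| ≤
        C * √(∫ x, (φ x ^ 2 + dd 1 φ x ^ 2 + dd Complex.I φ x ^ 2))) :
    ∃ F : V D, F.1 0 =ᵐ[volume] f ∧ F.1 1 =ᵐ[volume] D.indicator (dd 1 f) ∧
      F.1 2 =ᵐ[volume] D.indicator (dd Complex.I f) := by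
  have hE := mem_V2_sq hDo hDb hf hf0 hf1 hC hw
  obtain ⟨F, hFV, hF⟩ := e4_mem hDo hDb hf hf0 hf1 hE
  exact ⟨⟨F, hFV⟩, hF 0, (hF 1).trans (e4_ind hDo hf hf0 hf1 hDb hE (Or.inl rfl)),
    (hF 2).trans (e4_ind hDo hf hf0 hf1 hDb hE (Or.inr rfl))⟩

end Pool.Agent.Helper327_Drum
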