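import Pool.Agent.Helper327_Drum.Fin.M4
import Pool.Agent.Helper327_Drum.Fin.ST6a

set_option autoImplicit false
open MeasureTheory Set Filter Topology
open scoped ContDiff InnerProductSpace

namespace Pool.Agent.Helper327_Drum

open Pool.Agent.TH298.Sch (dd SC)
open Pool.Agent.R227.SA (la)

/-! ### auxiliary lemmas -/

/-- a smooth cutoff function -/
theorem gl_cut {K U : Set ℂ} (hK : IsCompact K) (hU : IsOpen U) (hKU : K ⊆ U) :
    ∃ χ : ℂ → ℝ, SC χ ∧ tsupport χ ⊆ U ∧ ∀ x ∈ K, ∀ᶠ y in 𝓝 x, χ y = 1 := by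
  obtain ⟨L, hL, hKL, hLU⟩ := exists_compact_between hK hU hKU
  obtain ⟨f, h1, h2, -⟩ := exists_contMDiffMap_one_nhds_of_subset_interior
    (modelWithCornersSelf ℝ ℂ) (n := (⊤ : ℕ∞)) hK.isClosed hKL
  have hs : tsupport (f : ℂ → ℝ) ⊆ L := by
    refine closure_minimal ?_ hL.isClosed
    intro x hx
    by_contra h
    exact hx (h2 x h)
  refine ⟨f, ⟨f.contMDiff.contDiff, IsCompact.of_isClosed_subset hL (isClosed_tsupport _) hs⟩,
    hs.trans hLU, ?_⟩
  intro x hx
  rw [eventually_nhdsSet_iff_forall] at h1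
  exact h1 x hx

/-- Cauchy-Schwarz on a bounded set -/
theorem gl_cs {D : Set ℂ} (hDo : IsOpen D) (hDb : Bornology.IsBounded D) {s : ℂ → ℝ}
    (hs : Continuous s) (hsc : HasCompactSupport s) (hsD : ∀ x, x ∉ D → s x = 0) :
    ∫ x, |s x| ≤ √((volume D).toReal) * √(∫ x, s x ^ 2) := by
  have hDm : volume D < ⊤ :=
    lt_of_le_of_lt (measure_mono subset_closure) hDb.isCompact_closure.measure_lt_top
  have i1 : Integrable (fun x => |s x|) :=
    hs.abs.integrable_of_hasCompactSupport (hsc.comp_left (g := fun y : ℝ => |y|) (by simp))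
  have i2 : Integrable (fun x => s x ^ 2) :=
    (show Continuous fun x => s x ^ 2 from hs.pow 2).integrable_of_hasCompactSupport
      (hsc.comp_left (g := fun y : ℝ => y ^ 2) (by simp))
  have i3 : Integrable (D.indicator (fun _ : ℂ => (1 : ℝ))) := by
    rw [integrable_indicator_iff hDo.measurableSet]
    exact integrableOn_const hDm.ne
  obtain ⟨a, ha⟩ : ∃ a : ℝ, a = ∫ x, |s x| := ⟨_, rfl⟩
  obtain ⟨b, hb⟩ : ∃ b : ℝ, b = ∫ x, s x ^ 2 := ⟨_, rfl⟩
  obtain ⟨m, hm⟩ : ∃ m : ℝ, m = (volume D).toReal := ⟨_, rfl⟩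
  have ha0 : 0 ≤ a := by rw [ha]; exact integral_nonneg fun x => abs_nonneg _
  have hb0 : 0 ≤ b := by rw [hb]; exact integral_nonneg fun x => sq_nonneg _
  have hm0 : 0 ≤ m := by rw [hm]; exact ENNReal.toReal_nonneg
  have key : ∀ l : ℝ, 0 ≤ b - 2 * l * a + l ^ 2 * m := by
    intro l
    have e : ∫ x, (s x ^ 2 - (2 * l) * |s x| + l ^ 2 * D.indicator (fun _ : ℂ => (1 : ℝ)) x) =
        b - 2 * l * a + l ^ 2 * m := by
      have j1 : Integrable (fun x => s x ^ 2 - (2 * l) * |s x|) := i2.sub (i1.const_mul _)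
      have j2 : Integrable (fun x => l ^ 2 * D.indicator (fun _ : ℂ => (1 : ℝ)) x) :=
        i3.const_mul _
      rw [integral_add j1 j2, integral_sub i2 (i1.const_mul _),
        integral_const_mul, integral_const_mul, integral_indicator hDo.measurableSet,
        setIntegral_const, ← ha, ← hb, hm, smul_eq_mul, mul_one]
      rfl
    rw [← e]
    refine integral_nonneg fun x => ?_
    by_cases hx : x ∈ D
    · simp only [indicator_of_mem hx, Pi.zero_apply]
      have : s x ^ 2 = |s x| ^ 2 := (sq_abs _).symm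
      nlinarith [sq_nonneg (|s x| - l)]
    · simp only [indicator_of_notMem hx, hsD x hx, Pi.zero_apply]
      simp
  have h2 : a ^ 2 ≤ m * b := by
    rcases eq_or_lt_of_le hm0 with h0 | h0
    · rw [← h0] at key ⊢
      rw [zero_mul]
      by_contra hc
      push Not at hc
      have ha1 : 0 < a := by
        rcases eq_or_lt_of_le ha0 with h | h
        · rw [← h] at hc; norm_num at hc
        · exact h
      have := key ((b + 1) / (2 * a))
      have e : 2 * ((b + 1) / (2 * a)) * a = b + 1 := by field_simp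
      rw [e] at this
      linarith
    · have := key (a / m)
      have e1 : 2 * (a / m) * a = 2 * (a ^ 2 / m) := by ring
      have e2 : (a / m) ^ 2 * m = a ^ 2 / m := by field_simp
      rw [e1, e2] at this
      have h3 : a ^ 2 / m ≤ b := by linarith
      rw [div_le_iff₀ h0] at h3
      linarith
  rw [← ha, ← hb, ← hm, ← Real.sqrt_mul hm0]
  exact Real.le_sqrt_of_sq_le h2

theorem gl_sc_mul {χ ψ : ℂ → ℝ} (h1 : SC χ) (h2 : SC ψ) : SC (fun x => χ x * ψ x) :=
  ⟨h1.sm.mul h2.sm, h2.cs.mul_left⟩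

theorem gl_dd_mul {a b : ℂ → ℝ} {x : ℂ} (ha : DifferentiableAt ℝ a x) (hb : DifferentiableAt ℝ b x)
    (w : ℂ) : dd w (fun y => a y * b y) x = dd w a x * b x + a x * dd w b x := by
  unfold dd
  rw [fderiv_fun_mul ha hb]
  simp only [ContinuousLinearMap.add_apply, ContinuousLinearMap.smul_apply, smul_eq_mul]
  ring

/-- the derivatives of a superposition, cut off, belong to `H¹₀(D)` -/
theorem gl_mem {R : Set ℂ} {c : ℝ} {z : ℂ → ℝ → ℝ} {g : ℂ → ℝ → ℂ} (hR : IsCompact R)
    (hc : 0 < c) (h : DrumSolution R c z g)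
    (W : ℝ → ℝ) (hW : ContDiff ℝ ∞ W) (hWc : HasCompactSupport W) {χ : ℂ → ℝ} (hχ : SC χ)
    (hχg : ∀ x ∈ R, ∀ t, χ x ≠ 0 → g x t = 0) (v : ℂ) :
    ∃ G : V (inside R),
      G.1 0 =ᵐ[volume] (fun x => χ x *
        (inside R).indicator (dd v fun x => ∫ t, W t * zx R z x t) x) ∧
      G.1 1 =ᵐ[volume] (inside R).indicator (dd 1 fun x => χ x *
        (inside R).indicator (dd v fun x => ∫ t, W t * zx R z x t) x) ∧
      G.1 2 =ᵐ[volume] (inside R).indicator (dd Complex.I fun x => χ x *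
        (inside R).indicator (dd v fun x => ∫ t, W t * zx R z x t) x) := by
  obtain ⟨hDo, hDb, hfr, hcl, hdj⟩ := inside_basic hR
  have hW2 : ContDiff ℝ ∞ (iteratedDeriv 2 W) := by
    rw [iteratedDeriv_eq_iterate]
    exact hW.iterate_deriv 2
  have hW2c : HasCompactSupport (iteratedDeriv 2 W) := by
    rw [iteratedDeriv_eq_iterate]
    exact (hWc.deriv).deriv
  obtain ⟨f1, f2, f3, f4, f5, ⟨Mf, f6⟩, ⟨Mf', f7⟩⟩ := zW_nice hR hc h hW hWc
  obtain ⟨k1, k2, k3, k4, k5, ⟨Mk, k6⟩, ⟨Mk', k7⟩⟩ := zW_nice hR hc h hW2 hW2c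
  set D := inside R with hD
  set f : ℂ → ℝ := fun x => ∫ t, W t * zx R z x t with hf
  set k0 : ℂ → ℝ := fun x => ∫ t, iteratedDeriv 2 W t * zx R z x t with hk0
  set k : ℂ → ℝ := fun x => (c ^ 2)⁻¹ * k0 x with hk
  have hk2 : ContDiffOn ℝ 2 k D := contDiffOn_const.mul k3
  have hfk : ∀ x ∈ D, la f x = k x := f4
  have hc2 : 0 ≤ (c ^ 2)⁻¹ := by positivity
  have hfv1 : ContDiffOn ℝ 1 (dd v f) D := m4_smooth_dd hDo f3 v
  -- bounds
  have bf : ∀ x ∈ D, |dd v f x| ≤ |Mf'| * ‖v‖ := by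
    intro x hx
    have h1 := (fderiv ℝ f x).le_opNorm v
    rw [Real.norm_eq_abs] at h1
    exact h1.trans (mul_le_mul_of_nonneg_right ((f7 x hx).trans (le_abs_self _)) (norm_nonneg _))
  have bk : ∀ x ∈ D, |dd v k x| ≤ (c ^ 2)⁻¹ * (|Mk'| * ‖v‖) := by
    intro x hx
    have hd : DifferentiableAt ℝ k0 x :=
      (k3.differentiableOn (by norm_num)).differentiableAt (hDo.mem_nhds hx)
    have e1 : dd v k x = (c ^ 2)⁻¹ * fderiv ℝ k0 x v := by
      unfold dd
      rw [hk, fderiv_const_mul hd]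
      rfl
    rw [e1, abs_mul, abs_of_nonneg hc2]
    refine mul_le_mul_of_nonneg_left ?_ hc2
    have h1 := (fderiv ℝ k0 x).le_opNorm v
    rw [Real.norm_eq_abs] at h1
    exact h1.trans (mul_le_mul_of_nonneg_right ((k7 x hx).trans (le_abs_self _)) (norm_nonneg _))
  -- continuity
  have c1 : Continuous (fun x => χ x * D.indicator (dd v f) x) := by
    have hu : ContinuousOn (fun p : ℂ × ℝ => χ p.1 * (v.re * (g p.1 p.2).re + v.im * (g p.1 p.2).im))
        ((D ∪ R) ×ˢ univ) := by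
      have h1 := h.grad_cont
      exact (hχ.cont.comp continuous_fst).continuousOn.mul
        ((continuousOn_const.mul (Complex.continuous_re.comp_continuousOn h1)).add
        (continuousOn_const.mul (Complex.continuous_im.comp_continuousOn h1)))
    have h2 := m4_cont hfr hcl hu (fun x hx t => by
      by_cases h0 : χ x = 0
      · simp [h0]
      · simp [hχg x hx t h0]) hW.continuous hWc
    refine h2.congr fun x => ?_
    by_cases hx : x ∈ D
    · rw [indicator_of_mem hx, indicator_of_mem hx]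
      have e : dd v f x = ∫ t, W t * (v.re * (g x t).re + v.im * (g x t).im) := f5 x hx v
      rw [e, ← integral_const_mul]
      refine integral_congr_ae (Eventually.of_forall fun t => ?_)
      simp only
      ring
    · rw [indicator_of_notMem hx, indicator_of_notMem hx, mul_zero]
  have c2 : ∀ x, x ∉ D → χ x * D.indicator (dd v f) x = 0 := fun x hx => by
    rw [indicator_of_notMem hx, mul_zero]
  have c3 : ContDiffOn ℝ 1 (fun x => χ x * D.indicator (dd v f) x) D :=
    ((hχ.sm.of_le (by exact_mod_cast le_top)).contDiffOn.mul hfv1).congr fun x hx => by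
      rw [indicator_of_mem hx]
  -- the gradient in `D`
  have hloc : ∀ w : ℂ, ∀ x ∈ D, dd w (fun x => χ x * D.indicator (dd v f) x) x =
      dd w χ x * dd v f x + χ x * dd w (dd v f) x := by
    intro w x hx
    have e1 : (fun x => χ x * D.indicator (dd v f) x) =ᶠ[𝓝 x] fun x => χ x * dd v f x := by
      filter_upwards [hDo.mem_nhds hx] with y hy
      rw [indicator_of_mem hy]
    have e2 : dd w (fun x => χ x * D.indicator (dd v f) x) x = dd w (fun x => χ x * dd v f x) x := by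
      unfold dd at e1 ⊢
      rw [e1.fderiv_eq]
    rw [e2]
    exact gl_dd_mul (hχ.diff x)
      ((hfv1.differentiableOn (by norm_num)).differentiableAt (hDo.mem_nhds hx)) w
  -- the weak Laplacian
  obtain ⟨B, hB⟩ : ∃ B : ℝ, (∀ x, |χ x| ≤ B) ∧ (∀ x, |dd 1 χ x| ≤ B) ∧
      (∀ x, |dd Complex.I χ x| ≤ B) ∧ (∀ x, |dd 1 (dd 1 χ) x| ≤ B) ∧
      ∀ x, |dd Complex.I (dd Complex.I χ) x| ≤ B := by
    have hb : ∀ {a : ℂ → ℝ}, SC a → ∃ B : ℝ, ∀ x, |a x| ≤ B := by
      intro a ha
      obtain ⟨B, hB⟩ := ha.cont.bounded_above_of_compact_support ha.cs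
      exact ⟨B, fun x => by simpa [Real.norm_eq_abs] using hB x⟩
    have s1 : SC (dd 1 χ) := Pool.Agent.TH298.Sch.dd_sc hχ 1
    have s2 : SC (dd Complex.I χ) := Pool.Agent.TH298.Sch.dd_sc hχ Complex.I
    obtain ⟨B0, h0⟩ := hb hχ
    obtain ⟨B1, h1⟩ := hb s1
    obtain ⟨B2, h2⟩ := hb s2
    obtain ⟨B3, h3⟩ := hb (Pool.Agent.TH298.Sch.dd_sc s1 1)
    obtain ⟨B4, h4⟩ := hb (Pool.Agent.TH298.Sch.dd_sc s2 Complex.I)
    have p0 := (abs_nonneg _).trans (h0 0)
    have p1 := (abs_nonneg _).trans (h1 0)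
    have p2 := (abs_nonneg _).trans (h2 0)
    have p3 := (abs_nonneg _).trans (h3 0)
    have p4 := (abs_nonneg _).trans (h4 0)
    exact ⟨B0 + B1 + B2 + B3 + B4, fun x => (h0 x).trans (by linarith),
      fun x => (h1 x).trans (by linarith), fun x => (h2 x).trans (by linarith),
      fun x => (h3 x).trans (by linarith), fun x => (h4 x).trans (by linarith)⟩
  obtain ⟨hB0, hB1, hB2, hB3, hB4⟩ := hB
  have hBn : 0 ≤ B := (abs_nonneg _).trans (hB0 0)
  obtain ⟨A, hA⟩ : ∃ A : ℝ, A = |Mf'| * ‖v‖ + (c ^ 2)⁻¹ * (|Mk'| * ‖v‖) := ⟨_, rfl⟩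
  have hA1 : |Mf'| * ‖v‖ ≤ A := by
    rw [hA]
    have : 0 ≤ (c ^ 2)⁻¹ * (|Mk'| * ‖v‖) := by positivity
    linarith
  have hA2 : (c ^ 2)⁻¹ * (|Mk'| * ‖v‖) ≤ A := by
    rw [hA]
    have : 0 ≤ |Mf'| * ‖v‖ := by positivity
    linarith
  have hA0 : 0 ≤ A := by rw [hA]; positivity
  obtain ⟨C, hC⟩ : ∃ C : ℝ, C = A * B * (3 * (√((volume D).toReal) * 3)) := ⟨_, rfl⟩
  have hC0 : 0 ≤ C := by rw [hC]; positivity
  refine mem_V2 hDo hDb c1 c2 c3 (C := C) hC0 ?_
  intro ψ hψ hψD
  have sd : ∀ w, SC (dd w ψ) := fun w => Pool.Agent.TH298.Sch.dd_sc hψ w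
  have sχ : ∀ w, SC (dd w χ) := fun w => Pool.Agent.TH298.Sch.dd_sc hχ w
  have zψ : ∀ x, x ∉ D → ψ x = 0 := fun x hx => image_eq_zero_of_notMem_tsupport fun h' => hx (hψD h')
  have zd : ∀ w x, x ∉ D → dd w ψ x = 0 := fun w x hx =>
    image_eq_zero_of_notMem_tsupport fun h' => hx (hψD (dd_ts ψ w h'))
  -- integration by parts
  have hw1 : ∀ w : ℂ, Integrable (fun x => dd w (dd v f) x * (dd w χ x * ψ x)) ∧
      Integrable (fun x => dd v f x * dd w (fun y => dd w χ y * ψ y) x) ∧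
      ∫ x, dd w (dd v f) x * (dd w χ x * ψ x) =
        - ∫ x, dd v f x * dd w (fun y => dd w χ y * ψ y) x := by
    intro w
    have hs := gl_sc_mul (sχ w) hψ
    exact ibp hDo hfv1 (hs.sm.of_le (by exact_mod_cast le_top)) hs.cs
      ((tsupport_mul_subset_right).trans hψD) w
  have hχψ := gl_sc_mul hχ hψ
  have hweak := weak_of_deriv hDo f3 (hk2.of_le (by norm_num)) hfk v hχψ
    ((tsupport_mul_subset_right).trans hψD)
  have hJ : ∀ w : ℂ, Integrable (fun x => dd v f x * (dd w χ x * dd w ψ x)) := fun w =>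
    int_mul hDo (hfv1.of_le (by norm_num)) (((sχ w).sm.mul (sd w).sm).of_le (by simp))
      ((sd w).cs.mul_left) ((tsupport_mul_subset_right).trans ((dd_ts ψ w).trans hψD))
  have hI : ∀ w : ℂ, Integrable (fun x => dd w (dd v f) x * dd w (fun y => χ y * ψ y) x) := fun w =>
    int_mul hDo (dd_on hDo hfv1 (by norm_num) w)
      ((Pool.Agent.TH298.Sch.dd_sc hχψ w).sm.of_le (by simp)) (Pool.Agent.TH298.Sch.dd_sc hχψ w).cs
      ((dd_ts _ w).trans ((tsupport_mul_subset_right).trans hψD))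
  have hpt : ∀ w x, dd w (fun x => χ x * D.indicator (dd v f) x) x * dd w ψ x =
      dd w (dd v f) x * dd w (fun y => χ y * ψ y) x + dd v f x * (dd w χ x * dd w ψ x) -
        dd w (dd v f) x * (dd w χ x * ψ x) := by
    intro w x
    by_cases hx : x ∈ D
    · rw [hloc w x hx, gl_dd_mul (hχ.diff x) (hψ.diff x) w]
      ring
    · rw [gl_dd_mul (hχ.diff x) (hψ.diff x) w, zd w x hx, zψ x hx]
      ring
  have hId : ∀ w, Integrable (fun x => dd w (fun x => χ x * D.indicator (dd v f) x) x * dd w ψ x) := by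
    intro w
    refine (((hI w).add (hJ w)).sub (hw1 w).1).congr (Eventually.of_forall fun x => ?_)
    exact (hpt w x).symm
  have hint : ∀ w, ∫ x, dd w (fun x => χ x * D.indicator (dd v f) x) x * dd w ψ x =
      (∫ x, dd w (dd v f) x * dd w (fun y => χ y * ψ y) x) +
        (∫ x, dd v f x * (dd w χ x * dd w ψ x)) +
        (∫ x, dd v f x * dd w (fun y => dd w χ y * ψ y) x) := by
    intro w
    have e1 : ∫ x, dd w (fun x => χ x * D.indicator (dd v f) x) x * dd w ψ x =
        ∫ x, ((dd w (dd v f) x * dd w (fun y => χ y * ψ y) x + dd v f x * (dd w χ x * dd w ψ x)) -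
        dd w (dd v f) x * (dd w χ x * ψ x)) :=
      integral_congr_ae (Eventually.of_forall fun x => hpt w x)
    have j1 : Integrable (fun x => dd w (dd v f) x * dd w (fun y => χ y * ψ y) x +
      dd v f x * (dd w χ x * dd w ψ x)) := (hI w).add (hJ w)
    rw [e1, integral_sub j1 (hw1 w).1, integral_add (hI w) (hJ w), (hw1 w).2.2]
    ring
  -- the bounds
  have ib : ∀ {a : ℂ → ℝ}, SC a → Integrable (fun x => |a x|) := fun {a} ha =>
    ha.cont.abs.integrable_of_hasCompactSupport (ha.cs.comp_left (g := fun y : ℝ => |y|) (by simp))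
  have b0 : |∫ x, D.indicator (dd v k) x * (χ x * ψ x)| ≤ A * B * ∫ x, |ψ x| := by
    rw [← integral_const_mul, ← Real.norm_eq_abs]
    refine norm_integral_le_of_norm_le ((ib hψ).const_mul _) (Eventually.of_forall fun x => ?_)
    rw [Real.norm_eq_abs, abs_mul, abs_mul]
    by_cases hx : x ∈ D
    · rw [indicator_of_mem hx]
      have e1 := (bk x hx).trans hA2
      have e2 := hB0 x
      calc |dd v k x| * (|χ x| * |ψ x|) ≤ A * (B * |ψ x|) :=
            mul_le_mul e1 (mul_le_mul_of_nonneg_right e2 (abs_nonneg _)) (by positivity) hA0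
        _ = A * B * |ψ x| := by ring
    · rw [indicator_of_notMem hx, abs_zero, zero_mul]
      positivity
  have b1 : ∀ w, (∀ x, |dd w χ x| ≤ B) → |∫ x, dd v f x * (dd w χ x * dd w ψ x)| ≤
      A * B * ∫ x, |dd w ψ x| := by
    intro w hw
    rw [← integral_const_mul, ← Real.norm_eq_abs]
    refine norm_integral_le_of_norm_le ((ib (sd w)).const_mul _) (Eventually.of_forall fun x => ?_)
    rw [Real.norm_eq_abs, abs_mul, abs_mul]
    by_cases hx : x ∈ D
    · have e1 := (bf x hx).trans hA1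
      calc |dd v f x| * (|dd w χ x| * |dd w ψ x|) ≤ A * (B * |dd w ψ x|) :=
            mul_le_mul e1 (mul_le_mul_of_nonneg_right (hw x) (abs_nonneg _)) (by positivity) hA0
        _ = A * B * |dd w ψ x| := by ring
    · rw [zd w x hx, abs_zero, mul_zero, mul_zero]
      positivity
  have b2 : ∀ w, (∀ x, |dd w χ x| ≤ B) → (∀ x, |dd w (dd w χ) x| ≤ B) →
      |∫ x, dd v f x * dd w (fun y => dd w χ y * ψ y) x| ≤
      (A * B * ∫ x, |ψ x|) + (A * B * ∫ x, |dd w ψ x|) := by
    intro w hw hw'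
    rw [← integral_const_mul, ← integral_const_mul, ← integral_add ((ib hψ).const_mul _)
      ((ib (sd w)).const_mul _), ← Real.norm_eq_abs]
    refine norm_integral_le_of_norm_le (((ib hψ).const_mul _).add ((ib (sd w)).const_mul _))
      (Eventually.of_forall fun x => ?_)
    rw [Real.norm_eq_abs, abs_mul]
    by_cases hx : x ∈ D
    · have e1 := (bf x hx).trans hA1
      have e2 : |dd w (fun y => dd w χ y * ψ y) x| ≤ B * |ψ x| + B * |dd w ψ x| := by
        rw [gl_dd_mul ((sχ w).diff x) (hψ.diff x) w]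
        refine (abs_add_le _ _).trans ?_
        rw [abs_mul, abs_mul]
        exact add_le_add (mul_le_mul_of_nonneg_right (hw' x) (abs_nonneg _))
          (mul_le_mul_of_nonneg_right (hw x) (abs_nonneg _))
      calc |dd v f x| * |dd w (fun y => dd w χ y * ψ y) x| ≤ A * (B * |ψ x| + B * |dd w ψ x|) :=
            mul_le_mul e1 e2 (abs_nonneg _) hA0
        _ = A * B * |ψ x| + A * B * |dd w ψ x| := by ring
    · have hx' : x ∉ tsupport (fun y => dd w χ y * ψ y) := fun h' =>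
        hx (hψD (tsupport_mul_subset_right h'))
      have e2 : dd w (fun y => dd w χ y * ψ y) x = 0 :=
        image_eq_zero_of_notMem_tsupport fun h' => hx' (dd_ts _ w h')
      rw [e2, abs_zero, mul_zero]
      positivity
  have cs : ∀ {a : ℂ → ℝ}, SC a → (∀ x, x ∉ D → a x = 0) →
      ∫ x, |a x| ≤ √((volume D).toReal) * √(∫ x, a x ^ 2) := fun {a} ha h0 =>
    gl_cs hDo hDb ha.cont ha.cs h0
  have i2 : ∀ {a : ℂ → ℝ}, SC a → Integrable (fun x => a x ^ 2) := fun {a} ha =>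
    (show Continuous fun x => a x ^ 2 from ha.cont.pow 2).integrable_of_hasCompactSupport
      (ha.cs.comp_left (g := fun y : ℝ => y ^ 2) (by simp))
  obtain ⟨E, hE⟩ : ∃ E : ℝ, E = ∫ x, (ψ x ^ 2 + dd 1 ψ x ^ 2 + dd Complex.I ψ x ^ 2) := ⟨_, rfl⟩
  have q1 := i2 hψ
  have q2 := i2 (sd 1)
  have q3 := i2 (sd Complex.I)
  have q4 : Integrable (fun x => ψ x ^ 2 + dd 1 ψ x ^ 2) := q1.add q2
  have hE' : E = (∫ x, ψ x ^ 2) + (∫ x, dd 1 ψ x ^ 2) + (∫ x, dd Complex.I ψ x ^ 2) := by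
    rw [hE, integral_add q4 q3, integral_add q1 q2]
  have p1 : 0 ≤ ∫ x, ψ x ^ 2 := integral_nonneg fun x => sq_nonneg _
  have p2 : 0 ≤ ∫ x, dd 1 ψ x ^ 2 := integral_nonneg fun x => sq_nonneg _
  have p3 : 0 ≤ ∫ x, dd Complex.I ψ x ^ 2 := integral_nonneg fun x => sq_nonneg _
  obtain ⟨m, hm⟩ : ∃ m : ℝ, m = √((volume D).toReal) := ⟨_, rfl⟩
  have hm0 : 0 ≤ m := by rw [hm]; exact Real.sqrt_nonneg _
  have s1 : ∫ x, |ψ x| ≤ m * √E := by
    rw [hm]
    exact (cs hψ zψ).trans (mul_le_mul_of_nonneg_left (Real.sqrt_le_sqrt (by linarith))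
      (Real.sqrt_nonneg _))
  have s2 : ∫ x, |dd 1 ψ x| ≤ m * √E := by
    rw [hm]
    exact (cs (sd 1) (zd 1)).trans (mul_le_mul_of_nonneg_left (Real.sqrt_le_sqrt (by linarith))
      (Real.sqrt_nonneg _))
  have s3 : ∫ x, |dd Complex.I ψ x| ≤ m * √E := by
    rw [hm]
    exact (cs (sd Complex.I) (zd Complex.I)).trans (mul_le_mul_of_nonneg_left
      (Real.sqrt_le_sqrt (by linarith)) (Real.sqrt_nonneg _))
  have hsum : ∫ x, (dd 1 (fun x => χ x * D.indicator (dd v f) x) x * dd 1 ψ x +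
      dd Complex.I (fun x => χ x * D.indicator (dd v f) x) x * dd Complex.I ψ x) =
      (- ∫ x, D.indicator (dd v k) x * (χ x * ψ x)) +
      ((∫ x, dd v f x * (dd 1 χ x * dd 1 ψ x)) +
        ∫ x, dd v f x * dd 1 (fun y => dd 1 χ y * ψ y) x) +
      ((∫ x, dd v f x * (dd Complex.I χ x * dd Complex.I ψ x)) +
        ∫ x, dd v f x * dd Complex.I (fun y => dd Complex.I χ y * ψ y) x) := by
    rw [integral_add (hId 1) (hId Complex.I), hint 1, hint Complex.I, ← hweak,
      integral_add (hI 1) (hI Complex.I)]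
    ring
  rw [hsum, ← hE, hC, ← hm]
  have t1 := b1 1 hB1
  have t2 := b1 Complex.I hB2
  have t3 := b2 1 hB1 hB3
  have t4 := b2 Complex.I hB2 hB4
  have hAB : 0 ≤ A * B := by positivity
  have u1 := mul_le_mul_of_nonneg_left s1 hAB
  have u2 := mul_le_mul_of_nonneg_left s2 hAB
  have u3 := mul_le_mul_of_nonneg_left s3 hAB
  have hfin : A * B * (3 * (m * 3)) * √E = 9 * (A * B * (m * √E)) := by ring
  rw [hfin]
  have v0 := abs_le.1 b0
  have v1 := abs_le.1 t1
  have v2 := abs_le.1 t2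
  have v3 := abs_le.1 t3
  have v4 := abs_le.1 t4
  have hpos : 0 ≤ A * B * (m * √E) := by positivity
  rw [abs_le]
  constructor <;> linarith

/-- TARGET: if the gradient vanishes on a part of the boundary, superpositions solve the equation across this part. -/
theorem green_local {R : Set ℂ} {c : ℝ} {z : ℂ → ℝ → ℝ} {g : ℂ → ℝ → ℂ} (hR : IsCompact R)
    (hc : 0 < c) (h : DrumSolution R c z g) {q : ℂ} {r : ℝ}
    (hg : ∀ x ∈ R, x ∈ Metric.ball q r → ∀ t, g x t = 0)
    (W : ℝ → ℝ) (hW : ContDiff ℝ ∞ W) (hWc : HasCompactSupport W) (φ : ℂ → ℝ) (hφ : SC φ)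
    (hφs : tsupport φ ⊆ Metric.ball q r) :
    ∫ x, (∫ t, W t * zx R z x t) * la φ x =
      ∫ x, ((c ^ 2)⁻¹ * ∫ t, iteratedDeriv 2 W t * zx R z x t) * φ x := by
  obtain ⟨χ, hχ, hχs, hχ1⟩ := gl_cut hφ.cs Metric.isOpen_ball hφs
  have hχg : ∀ x ∈ R, ∀ t, χ x ≠ 0 → g x t = 0 := fun x hx t h0 =>
    hg x hx (hχs (subset_tsupport _ h0)) t
  obtain ⟨hDo, hDb, hfr, hcl, hdj⟩ := inside_basic hR
  have hW2 : ContDiff ℝ ∞ (iteratedDeriv 2 W) := by
    rw [iteratedDeriv_eq_iterate]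
    exact hW.iterate_deriv 2
  have hW2c : HasCompactSupport (iteratedDeriv 2 W) := by
    rw [iteratedDeriv_eq_iterate]
    exact (hWc.deriv).deriv
  obtain ⟨f1, f2, f3, f4, f5, ⟨Mf, f6⟩, ⟨Mf', f7⟩⟩ := zW_nice hR hc h hW hWc
  obtain ⟨k1, k2, k3, k4, k5, ⟨Mk, k6⟩, ⟨Mk', k7⟩⟩ := zW_nice hR hc h hW2 hW2c
  set D := inside R with hD
  set f : ℂ → ℝ := fun x => ∫ t, W t * zx R z x t with hf
  set k0 : ℂ → ℝ := fun x => ∫ t, iteratedDeriv 2 W t * zx R z x t with hk0
  set k : ℂ → ℝ := fun x => (c ^ 2)⁻¹ * k0 x with hk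
  have hkc : Continuous k := continuous_const.mul k1
  have hkz : ∀ x, x ∉ D → k x = 0 := fun x hx => by
    have : k0 x = 0 := k2 x hx
    simp only [hk, this, mul_zero]
  have hfk : ∀ x ∈ D, la f x = k x := f4
  have hc2 : 0 ≤ (c ^ 2)⁻¹ := by positivity
  -- the function itself
  have hkM : ∀ x, |k x| ≤ (c ^ 2)⁻¹ * |Mk| := by
    intro x
    by_cases hx : x ∈ D
    · simp only [hk, abs_mul, abs_of_nonneg hc2]
      exact mul_le_mul_of_nonneg_left ((k6 x hx).trans (le_abs_self _)) hc2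
    · rw [hkz x hx, abs_zero]; positivity
  have hfw : ∀ ψ : ℂ → ℝ, SC ψ → tsupport ψ ⊆ D →
      ∫ x, (dd 1 f x * dd 1 ψ x + dd Complex.I f x * dd Complex.I ψ x) = - ∫ x, k x * ψ x := by
    intro ψ hψ hψD
    have h1 : C1c D ψ := ⟨hψ.sm.of_le (by simp), hψ.cs, hψD⟩
    rw [weak_of_classical hDo f3 h1]
    congr 1
    refine integral_congr_ae (Eventually.of_forall fun x => ?_)
    by_cases hx : x ∈ D
    · simp only [indicator_of_mem hx, hfk x hx]
    · simp only [indicator_of_notMem hx, hkz x hx]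
  obtain ⟨F, F0, F1, F2, -, -⟩ := mem_V hDo hDb f1 f2 (f3.of_le (by norm_num)) hkc.measurable
    hkz hkM hfw
  obtain ⟨G, G0, G1, -⟩ := gl_mem hR hc h W hW hWc hχ hχg 1
  obtain ⟨H, H0, -, H2⟩ := gl_mem hR hc h W hW hWc hχ hχg Complex.I
  have hd1 : SC (dd 1 φ) := Pool.Agent.TH298.Sch.dd_sc hφ 1
  have hdI : SC (dd Complex.I φ) := Pool.Agent.TH298.Sch.dd_sc hφ Complex.I
  have hd11 : SC (dd 1 (dd 1 φ)) := Pool.Agent.TH298.Sch.dd_sc hd1 1
  have hdII : SC (dd Complex.I (dd Complex.I φ)) := Pool.Agent.TH298.Sch.dd_sc hdI Complex.I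
  have p1 := (V_ibp F hd1).1
  have p2 := (V_ibp F hdI).2
  have p3 := (V_ibp G hφ).1
  have p4 := (V_ibp H hφ).2
  have q : ∀ {a b : ℂ → ℝ} (ψ : ℂ → ℝ), a =ᵐ[volume] b → ∫ x, a x * ψ x = ∫ x, b x * ψ x := by
    intro a b ψ hab
    refine integral_congr_ae ?_
    filter_upwards [hab] with x hx
    rw [hx]
  rw [q _ F0, q _ F1] at p1
  rw [q _ F0, q _ F2] at p2
  rw [q _ G0, q _ G1] at p3
  rw [q _ H0, q _ H2] at p4
  -- the cutoff is invisible
  have r0 : ∀ v x, χ x * D.indicator (dd v f) x * dd v φ x = D.indicator (dd v f) x * dd v φ x := by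
    intro v x
    by_cases hx : x ∈ tsupport φ
    · rw [(hχ1 x hx).self_of_nhds, one_mul]
    · have : dd v φ x = 0 := image_eq_zero_of_notMem_tsupport fun h' => hx (dd_ts φ v h')
      rw [this, mul_zero, mul_zero]
  have r1 : ∀ v x, D.indicator (dd v fun x => χ x * D.indicator (dd v f) x) x * φ x =
      D.indicator (dd v (dd v f)) x * φ x := by
    intro v x
    by_cases hx : x ∈ tsupport φ
    · by_cases hxD : x ∈ D
      · rw [indicator_of_mem hxD, indicator_of_mem hxD]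
        have e : (fun x => χ x * D.indicator (dd v f) x) =ᶠ[𝓝 x] dd v f := by
          filter_upwards [hDo.mem_nhds hxD, hχ1 x hx] with y hy hy1
          rw [indicator_of_mem hy, hy1, one_mul]
        have e2 : dd v (fun x => χ x * D.indicator (dd v f) x) x = dd v (dd v f) x := by
          have e3 := e.fderiv_eq (𝕜 := ℝ)
          exact congrArg (fun L : ℂ →L[ℝ] ℝ => L v) e3
        rw [e2]
      · rw [indicator_of_notMem hxD, indicator_of_notMem hxD]
    · rw [image_eq_zero_of_notMem_tsupport hx, mul_zero, mul_zero]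
  have s0 : ∀ v, ∫ x, χ x * D.indicator (dd v f) x * dd v φ x =
      ∫ x, D.indicator (dd v f) x * dd v φ x := fun v =>
    integral_congr_ae (Eventually.of_forall fun x => r0 v x)
  have s1 : ∀ v, ∫ x, D.indicator (dd v fun x => χ x * D.indicator (dd v f) x) x * φ x =
      ∫ x, D.indicator (dd v (dd v f)) x * φ x := fun v =>
    integral_congr_ae (Eventually.of_forall fun x => r1 v x)
  rw [s0, s1] at p3 p4
  have i1 : Integrable (fun x => f x * dd 1 (dd 1 φ) x) :=
    (f1.mul hd11.cont).integrable_of_hasCompactSupport hd11.cs.mul_left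
  have i2 : Integrable (fun x => f x * dd Complex.I (dd Complex.I φ) x) :=
    (f1.mul hdII.cont).integrable_of_hasCompactSupport hdII.cs.mul_left
  have e1 : ∫ x, f x * la φ x = (∫ x, f x * dd 1 (dd 1 φ) x) +
      ∫ x, f x * dd Complex.I (dd Complex.I φ) x := by
    rw [← integral_add i1 i2]
    refine integral_congr_ae (Eventually.of_forall fun x => ?_)
    simp only [la, mul_add]
  have jm : ∀ u : L2, Integrable (fun x => u x * φ x) := by
    intro u
    exact (Lp.memLp u).integrable_mul (m4_memLp hφ)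
  have j1 : Integrable (fun x => D.indicator (dd 1 (dd 1 f)) x * φ x) := by
    refine (jm (G.1 1)).congr ?_
    filter_upwards [G1] with x hx
    rw [hx, r1]
  have j2 : Integrable (fun x => D.indicator (dd Complex.I (dd Complex.I f)) x * φ x) := by
    refine (jm (H.1 2)).congr ?_
    filter_upwards [H2] with x hx
    rw [hx, r1]
  have e2 : ∫ x, k x * φ x = (∫ x, D.indicator (dd 1 (dd 1 f)) x * φ x) +
      ∫ x, D.indicator (dd Complex.I (dd Complex.I f)) x * φ x := by
    rw [← integral_add j1 j2]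
    refine integral_congr_ae (Eventually.of_forall fun x => ?_)
    by_cases hx : x ∈ D
    · simp only [indicator_of_mem hx]
      rw [← hfk x hx, la, add_mul]
    · simp only [indicator_of_notMem hx, hkz x hx, zero_mul, add_zero]
  show ∫ x, f x * la φ x = ∫ x, k x * φ x
  rw [e1, e2]
  linarith

end Pool.Agent.Helper327_Drum
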