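import Pool.Agent.Helper327_Drum.Fin.AS1
import Pool.Agent.Helper327_Drum.Fin.M3c
import Pool.Agent.Helper327_Drum.Fin.ST6b

/-
JOB ST6c (owner helper327, problem MP_d92c84_an). All imports are on origin/main.
-/

set_option autoImplicit false
open MeasureTheory Set Filter Topology ComplexConjugate
open scoped ContDiff InnerProductSpace

namespace Pool.Agent.Helper327_Drum

open Pool.Agent.TH298.Sch (dd SC)
open Pool.Agent.R227.SA (la Wat Dat)

/-
Plain proof. As in `mode_exists` (Fin/AS1.lean) there are μ ∈ (0,1), ψ, t₀ with K ψ = μ ψ, ⟪ψ, cl (zx · t₀)⟫ ≠ 0; `mode_limit` (Fin/M3a.lean) gives u with weights W n, and `mode_props` (Fin/M3b.lean)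
gives Wat (inside R) lam u, lam = 1/μ - 1 > 0; u is not identically 0. For φ SC with tsupport φ ⊆ ball q r: `green_local` for every W n and `m3b_limit` (Fin/M3b.lean) give
∫ u (la φ + lam φ) = 0. By `reg` (Fin/F1.lean) on D := ball q r, u is locally on the ball a smooth solution (`LocH (ball q r) lam u`, see `Mode.const_curve` in AS1.lean). The ball contains a point
near which u = 0: let D = inside R (nonempty); `inside_jordan` (Fin/G2.lean) gives frontier D = R and interior (closure D) = D (check its exact statement), q ∈ R is not in D, so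
ball q r is not contained in closure D (else q ∈ interior (closure D) = D), and u = 0 on the nonempty open set ball q r \ closure D. `uc_loc` (Fin/I2.lean) on the connected ball: u = 0 on ball q r.
q ∈ frontier D, so D ∩ ball q r is a nonempty open set on which u = 0; by `uc_loc` on D (D is preconnected by `inside_jordan`; LocH D lam u follows from Wat.loc) or `Wat.uc` (R227.SA13)
u = 0 on D, so u = 0 everywhere: contradiction.
-/

/-- TARGET: the gradient cannot vanish at all times along an arc of the boundary. -/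
theorem no_arc {R : Set ℂ} {c : ℝ} {z : ℂ → ℝ → ℝ} {g : ℂ → ℝ → ℂ} (hR : SimpleClosedCurve R)
    (hc : 0 < c) (h : DrumSolution R c z g) {q : ℂ} {r : ℝ} (hq : q ∈ R) (hr : 0 < r)
    (hg : ∀ x ∈ R, x ∈ Metric.ball q r → ∀ t, g x t = 0) : False := by
  obtain ⟨hRc, hRcon, hRinf⟩ := scc_basic hR
  obtain ⟨hDo, hDb, hfr, hcl, hdj⟩ := inside_basic hRc
  obtain ⟨hzc, hze⟩ := zc_cont hRc h
  obtain ⟨x₀, hx₀, t₀, ht₀⟩ := h.nontrivial
  have hne : cl (fun x => zx R z x t₀) ≠ 0 := by
    intro hz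
    have e1 := hze t₀
    rw [hz] at e1
    have e2 : (fun x => zx R z x t₀) =ᵐ[volume] fun _ => (0:ℝ) := by
      filter_upwards [e1, Lp.coeFn_zero ℝ 2 (volume : Measure ℂ)] with x h1 h2
      rw [← h1, h2]
      rfl
    have hc1 : Continuous (fun x => zx R z x t₀) :=
      (zx_cont hRc h).comp (continuous_id.prodMk continuous_const)
    have e3 : (fun x => zx R z x t₀) = fun _ => (0:ℝ) :=
      (hc1.ae_eq_iff_eq volume continuous_const).1 e2
    have e4 := congrFun e3 x₀
    simp only [zx] at e4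
    by_cases hx : x₀ ∈ inside R
    · rw [indicator_of_mem hx] at e4
      exact ht₀ e4
    · rcases hx₀ with hx' | hx'
      · exact hx hx'
      · exact ht₀ (h.clamped x₀ hx' t₀)
  have hpos : ∀ (μ : ℝ) (ψ : L2), ψ ≠ 0 → K (inside R) ψ = μ • ψ → 0 ≤ μ ∧ μ < 1 :=
    fun μ ψ hψ h => K_eig hDb hψ h
  obtain ⟨μ, ψ, h0, h1, hψ, hi⟩ := exists_comp (K (inside R)) (K_compact hDb) (K_symm _) hpos hc _ hzc
    (fun W hW hWc => wave_K hRc hc h hW hWc) t₀ hne
  obtain ⟨u, hu, hu0, -, -, hne', W, hW, h1', h2'⟩ := mode_limit hRc hc h h0 h1 hψ hi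
  have hlam : 0 < 1 / μ - 1 := by
    rw [sub_pos, lt_div_iff₀ h0]
    linarith
  obtain ⟨hwat, -, -⟩ := mode_props hRc hc h hlam hu hu0 hW h1' h2'
  have hux : ∃ x, u x ≠ 0 := by
    by_contra! hz
    apply hne'
    have e : u = fun _ => 0 := funext hz
    have : cl u = 0 := by
      rw [e]
      unfold cl
      split_ifs with hm
      · exact (MemLp.toLp_zero hm)
      · rfl
    rw [this, inner_zero_right]
  have hnice := fun n => zW_nice hRc hc h (hW n).1 (hW n).2
  have hZc : ∀ n, Continuous fun x => ∫ t, W n t * zx R z x t := fun n => (hnice n).1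
  have hYc : ∀ n, Continuous fun x => (c ^ 2)⁻¹ * ∫ t, iteratedDeriv 2 (W n) t * zx R z x t :=
    fun n => by
      have h3 := m3b_iter (hW n).1 (hW n).2
      exact (zW_nice hRc hc h h3.1 h3.2).1.const_mul _
  have hloc : LocH (Metric.ball q r) (1 / μ - 1) u := fun x hx =>
    reg Metric.isOpen_ball hlam hu (fun φ hφ hφs => m3b_limit hu hZc hYc h1' h2' hφ fun n =>
      green_local hRc hc h hg (W n) (hW n).1 (hW n).2 φ hφ hφs) x hx
  have hlocD : LocH (inside R) (1 / μ - 1) u := hwat.loc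
  obtain ⟨x₁, hx₁⟩ := hux
  have hx₁D : x₁ ∈ inside R := by
    by_contra hx
    exact hx₁ (hu0 x₁ hx)
  obtain ⟨hDc, hDfr, hDreg⟩ := inside_jordan hR ⟨x₁, hx₁D⟩
  have hqD : q ∉ inside R := fun hx => disjoint_left.1 hdj hx hq
  obtain ⟨y, hy, hyc⟩ : ∃ y ∈ Metric.ball q r, y ∉ closure (inside R) := by
    by_contra! hz
    apply hqD
    rw [← hDreg]
    exact mem_interior.2 ⟨_, hz, Metric.isOpen_ball, Metric.mem_ball_self hr⟩
  have hy0 : u =ᶠ[𝓝 y] 0 := by
    filter_upwards [isClosed_closure.isOpen_compl.mem_nhds hyc] with x hx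
    exact hu0 x fun hxD => hx (subset_closure hxD)
  have hball : ∀ x ∈ Metric.ball q r, u x = 0 :=
    uc_loc hloc hlam (convex_ball q r).isPreconnected hy hy0
  have hqc : q ∈ closure (inside R) := by
    rw [← hDfr] at hq
    exact frontier_subset_closure hq
  obtain ⟨p, hp1, hp2⟩ := mem_closure_iff.1 hqc _ Metric.isOpen_ball (Metric.mem_ball_self hr)
  have hp0 : u =ᶠ[𝓝 p] 0 := by
    filter_upwards [Metric.isOpen_ball.mem_nhds hp1] with x hx
    exact hball x hx
  exact hx₁ (uc_loc hlocD hlam hDc.isPreconnected hp2 hp0 x₁ hx₁D)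

/-
Plain proof. R = f '' Circle with f a homeomorphism onto R (compact to Hausdorff). C = f⁻¹' K is preconnected (image of K under the continuous inverse) and has two different points a, b.
If C missed a point p of one of the two open arcs of Circle \ {a, b} and a point p' of the other one then C ⊆ Circle \ {p, p'}, where a and b lie in different components (two disjoint open sets).
So C contains one of the two open arcs, a nonempty open set U of the circle; f '' U = R \ f '' Uᶜ is R minus a compact set; so for q ∈ f '' U there is r > 0 with R ∩ ball q r ⊆ f '' U ⊆ K.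
(Alternative: work with the real parametrisation s ↦ f (Circle.exp s) and intervals.)
-/

/-- TARGET: a connected part of a simple closed curve with more than one point contains an arc. -/
theorem arc_in_curve {R K : Set ℂ} (hR : SimpleClosedCurve R) (hK : IsPreconnected K) (hKR : K ⊆ R)
    (hnt : K.Nontrivial) : ∃ q ∈ R, ∃ r > 0, R ∩ Metric.ball q r ⊆ K := by
  obtain ⟨f, hfc, hfi, hfr⟩ := hR
  by_cases hall : R ⊆ K
  · obtain ⟨q, hq, -⟩ := hnt
    exact ⟨q, hKR hq, 1, one_pos, fun x hx => hall hx.1⟩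
  obtain ⟨y, hyR, hyK⟩ := not_subset.1 hall
  rw [← hfr] at hyR
  obtain ⟨p, rfl⟩ := hyR
  have hemb : Topology.IsClosedEmbedding f := hfc.isClosedEmbedding hfi
  have himg : f '' (f ⁻¹' K) = K := by
    rw [image_preimage_eq_inter_range, hfr]
    exact inter_eq_left.2 hKR
  have hCpre : IsPreconnected (f ⁻¹' K) := by
    rw [← hemb.isInducing.isPreconnected_image, himg]
    exact hK
  set C : Set Circle := f ⁻¹' K with hC
  obtain ⟨a, ha, b, hb, hab⟩ : ∃ a ∈ C, ∃ b ∈ C, a ≠ b := by
    obtain ⟨a', ha', b', hb', hab'⟩ := hnt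
    rw [← himg] at ha' hb'
    obtain ⟨a, ha, rfl⟩ := ha'
    obtain ⟨b, hb, rfl⟩ := hb'
    exact ⟨a, ha, b, hb, fun e => hab' (by rw [e])⟩
  -- the angle
  set θ : Circle → ℝ := fun x => Complex.arg ((-p⁻¹ * x : Circle) : ℂ) with hθ
  have hθinj : Function.Injective θ := by
    intro x x' hxx
    have := Circle.injective_arg hxx
    exact mul_left_cancel this
  have hslit : ∀ x : Circle, x ≠ p → ((-p⁻¹ * x : Circle) : ℂ) ∈ Complex.slitPlane := by
    intro x hx
    rw [Complex.mem_slitPlane_iff_arg]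
    refine ⟨fun h => ?_, Circle.coe_ne_zero _⟩
    apply hx
    have h1 : (-p⁻¹ * x : Circle) = -1 := by
      apply Circle.injective_arg
      show Complex.arg ((-p⁻¹ * x : Circle) : ℂ) = Complex.arg ((-1 : Circle) : ℂ)
      rw [h, Circle.coe_neg, Circle.coe_one, Complex.arg_neg_one]
    have h2 : p⁻¹ * x = 1 := by
      rw [neg_mul] at h1
      exact neg_injective h1
    rw [inv_mul_eq_one] at h2
    exact h2.symm
  have hθc : ∀ x : Circle, x ≠ p → ContinuousAt θ x := by
    intro x hx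
    have h1 : ContinuousAt (fun x : Circle => ((-p⁻¹ * x : Circle) : ℂ)) x := by fun_prop
    exact ContinuousAt.comp (f := fun x : Circle => ((-p⁻¹ * x : Circle) : ℂ)) (g := Complex.arg)
      (Complex.continuousAt_arg (hslit x hx)) h1
  have hCp : ∀ x ∈ C, x ≠ p := by
    rintro x hx rfl
    exact hyK hx
  have hθC : IsPreconnected (θ '' C) :=
    hCpre.image θ fun x hx => (hθc x (hCp x hx)).continuousWithinAt
  -- an open arc in `C`
  obtain ⟨s, t, hst, hsub⟩ : ∃ s t : ℝ, s < t ∧ Icc s t ⊆ θ '' C := by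
    have hne : θ a ≠ θ b := fun e => hab (hθinj e)
    have hoc := hθC.ordConnected
    rcases lt_or_gt_of_ne hne with h | h
    · exact ⟨θ a, θ b, h, hoc.out (mem_image_of_mem _ ha) (mem_image_of_mem _ hb)⟩
    · exact ⟨θ b, θ a, h, hoc.out (mem_image_of_mem _ hb) (mem_image_of_mem _ ha)⟩
  set U : Set Circle := {x | x ≠ p ∧ θ x ∈ Ioo s t} with hU
  have hUo : IsOpen U := by
    rw [isOpen_iff_mem_nhds]
    rintro x ⟨hxp, hx⟩
    have h1 : ∀ᶠ y in 𝓝 x, θ y ∈ Ioo s t := (hθc x hxp).eventually (isOpen_Ioo.mem_nhds hx)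
    have h2 : ∀ᶠ y in 𝓝 x, y ≠ p := eventually_ne_nhds hxp
    filter_upwards [h1, h2] with y h3 h4
    exact ⟨h4, h3⟩
  have hUC : U ⊆ C := by
    rintro x ⟨hxp, hx⟩
    obtain ⟨x', hx', hxx⟩ := hsub (Ioo_subset_Icc_self hx)
    rw [← hθinj hxx]
    exact hx'
  obtain ⟨x₀, hx₀⟩ : U.Nonempty := by
    have hm : (s + t) / 2 ∈ Ioo s t := ⟨by linarith, by linarith⟩
    obtain ⟨x', hx', hxx⟩ := hsub (Ioo_subset_Icc_self hm)
    exact ⟨x', hCp x' hx', by rw [hxx]; exact hm⟩
  have hcl : IsClosed (f '' Uᶜ) := hemb.isClosedMap _ hUo.isClosed_compl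
  have hq : f x₀ ∉ f '' Uᶜ := by
    rintro ⟨x, hx, hxx⟩
    rw [hfi hxx] at hx
    exact hx hx₀
  obtain ⟨r, hr, hball⟩ := Metric.isOpen_iff.1 hcl.isOpen_compl _ hq
  refine ⟨f x₀, by rw [← hfr]; exact mem_range_self _, r, hr, ?_⟩
  rintro w ⟨hwR, hw⟩
  rw [← hfr] at hwR
  obtain ⟨x, rfl⟩ := hwR
  have h1 : x ∈ U := by
    by_contra hx
    exact hball hw ⟨x, hx, rfl⟩
  exact hUC h1

end Pool.Agent.Helper327_Drum
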