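import Pool.Agent.Helper327_Drum.Fin.AS4
import Pool.Agent.Helper327_Drum.Fin.ST6c

/-! Connected sets of points at which the gradient vanishes at all times. -/

set_option autoImplicit false
open MeasureTheory Set Filter Topology ComplexConjugate
open scoped ContDiff InnerProductSpace

namespace Pool.Agent.Helper327_Drum

open Pool.Agent.TH298.Sch (dd SC)
open Pool.Agent.R227.SA (la Wat Dat)

/-- A connected set of such points with more than one point lies on a closed curve of such points in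
the open region. -/
theorem closed_curve_of_connected {R : Set ℂ} {c : ℝ} {z : ℂ → ℝ → ℝ} {g : ℂ → ℝ → ℂ}
    (hR : SimpleClosedCurve R) (hc : 0 < c) (h : DrumSolution R c z g) {K : Set ℂ}
    (hK : IsPreconnected K) (hKS : K ⊆ still R g) (hnt : K.Nontrivial) :
    ∃ γ : Set ℂ, SimpleClosedCurve γ ∧ K ⊆ γ ∧ γ ⊆ inside R ∧ γ ⊆ still R g ∧
      ∃ O : Set ℂ, IsOpen O ∧ γ ⊆ O ∧ still R g ∩ O = γ := by
  by_cases hD : (K ∩ inside R).Nonempty
  · obtain ⟨x₀, hx₀K, hx₀D⟩ := hD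
    have hacc : AccPt x₀ (𝓟 (still R g)) :=
      (hK.preperfect_of_nontrivial hnt x₀ hx₀K).mono (principal_mono.2 hKS)
    obtain ⟨γ, h1, h2, h3, h4, O, h5, h6, h7⟩ := closed_curve hR hc h hx₀D hacc
    refine ⟨γ, h1, ?_, h3, h4, O, h5, h6, h7⟩
    have hcl : IsClosed γ := (scc_basic h1).1.isClosed
    intro x hx
    by_contra hxγ
    obtain ⟨y, hyK, hyO, hyγ⟩ := hK O γᶜ h5 hcl.isOpen_compl
      (fun y _ => (em (y ∈ γ)).imp (fun h => h6 h) id) ⟨x₀, hx₀K, h6 h2⟩ ⟨x, hx, hxγ⟩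
    exact hyγ (by rw [← h7]; exact ⟨hKS hyK, hyO⟩)
  · exfalso
    have hKR : K ⊆ R := by
      intro x hx
      rcases (hKS hx).1 with h1 | h1
      · exact absurd ⟨x, hx, h1⟩ hD
      · exact h1
    obtain ⟨q, hq, r, hr, hqr⟩ := arc_in_curve hR hK hKR hnt
    exact no_arc hR hc h hq hr fun x hx hxb t => (hKS (hqr ⟨hx, hxb⟩)).2 t

end Pool.Agent.Helper327_Drum
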