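import Pool.Agent.Helper327_Drum.Fin.AS2
import Pool.Agent.Helper327_Drum.Fin.N1
import Pool.Agent.Helper327_Drum.Fin.NC3
import Pool.Agent.Helper327_Drum.Fin.NC4
import Pool.Agent.Helper327_Drum.Fin.NC5
import Pool.Agent.Helper327_Drum.Fin.ST2
import Pool.Agent.Helper327_Drum.Fin.ST3
import Pool.Agent.Helper327_Drum.Fin.CV1

/-
JOB CV3 (owner helper327, problem MP_d92c84_an). All imports are on origin/main.
-/

set_option autoImplicit false
open MeasureTheory Set Filter Topology ComplexConjugate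
open scoped ContDiff InnerProductSpace

namespace Pool.Agent.Helper327_Drum

open Pool.Agent.TH298.Sch (dd SC Sol)
open Pool.Agent.R227.SA (la Wat Dat)

/-
Lemmas (see the imports): `crit_dat` (Fin/AS2.lean), `dat_green` (N1), `dat_area` (NC3), `near_circles` (use Q = ∅), `inside_small` (NC4), `wat_smul` (NC5), `scc_basic`, `inside_basic`,
`inside_compl`, `inside_sub` (G1), `inside_jordan` (G2), `crit_component` (ST2), `scc_of_graph` (ST3), `reg` (F1), `uc_loc`, `LocH` (I2). The proof of `near_unit` (Fin/NC6.lean) is similar in its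
first part, the end of `Mode.const_curve` (Fin/AS1.lean) shows how `reg` and `uc_loc` give v = 0 at the end.

Plain proof. Suppose not. With ε n = 1/(n+1) there are R n, γ n, lam n, k n, u n satisfying all hypotheses. Normalise max |u n| = 1 (u n is continuous with compact support, not 0; `wat_smul`).
`compact_modes_convex` (D n = inside (R n)) gives φ, l, v; l ≤ T. Write u n, γ n, ... for u (φ n), ... . Let C = {x ∈ K₀ : fderiv v x = 0}.
(1) C has no accumulation point in K₀: otherwise `crit_component` and `scc_of_graph` give a simple closed curve of critical points of v in K₀, contradicting hK (K₀ is convex, so preconnected).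
So C ∩ K is finite for every compact K ⊆ K₀, and C is countable.
(2) Let d(x) = infDist x K₀ᶜ, continuous, d > 0 exactly on K₀ (K₀ is open, K₀ᶜ nonempty); {d ≥ δ} is a compact convex subset of K₀ for δ > 0 (x, y ∈ {d ≥ δ}: ball x δ, ball y δ ⊆ K₀, so the ball of radius δ
about each convex combination is in K₀). Let δ > 0 with δ ∉ d '' C (all but countably many δ). For n large γ n ∩ {d = δ} = ∅: otherwise for infinitely many n there are points x n ∈ γ n with d = δ, a subsequence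
converges to x₀ ∈ K₀, d x₀ = δ, and by the convergence of the gradients fderiv v x₀ = 0 (fill the gaps in the sequence by x₀ as in the proof of `near_unit`), contradiction. So for n large the connected set
γ n lies in {d > δ} or in {d < δ}.
(3) It is not possible that γ n ⊆ {d > δ} for infinitely many n: P = C ∩ {d ≥ δ} is finite; as in `near_unit`, for every δ' > 0 all points of γ n are within δ' of P for n large (infinitely many n), so by
`near_circles` with Q = ∅ and η with π η² T < 3, γ n ⊆ ball p η, inside (γ n) ⊆ ball p η (`inside_small`), area ≤ π η², contradicting `dat_area` (3 ≤ lam n * area; the Dat structure from `crit_dat`).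
(4) So for every δ ∉ d '' C, γ n ⊆ {d < δ} for n large. The connected set {d ≥ δ} does not meet γ n, so it is contained in inside (γ n) or disjoint from it. If δ is small and n is large it cannot be disjoint
from it: inside (γ n) ⊆ inside (R n) ⊆ thickening (ε n) K₀ (`inside_sub`), and the area of thickening (ε n) K₀ \ {d ≥ δ} is less than 3/T for small δ and large n (it decreases to the area of the closure
of K₀ minus K₀, which is 0: `Convex.addHaar_frontier`), again contradicting `dat_area`. So {d ≥ δ} ⊆ inside (γ n) for n large.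
(5) k n → 0: v is uniformly continuous and 0 off K₀, so |v x| ≤ ω(d x) with ω(δ) → 0; for x ∈ γ n, |k n| = |u n x| ≤ sup|u n - v| + ω(δ).
(6) v n = (inside (γ n)).indicator (u n - k n) → v uniformly: on inside (γ n) |u n - k n - v| ≤ sup|u n - v| + |k n|, off inside (γ n) v n = 0 and d x < δ, |v x| ≤ ω(δ). `dat_green`: for SC φ,
∫ v n (la φ + lam n φ) = -(lam n k n ∫_{inside (γ n)} φ) → 0, so ∫ v (la φ + l φ) = 0 for all SC φ. By `reg isOpen_univ` v is a solution on the whole plane, and it vanishes far away, so v = 0 by `uc_loc`: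
contradiction.
-/

/-- distance to the complement -/
noncomputable def cvd (K₀ : Set ℂ) (x : ℂ) : ℝ := Metric.infDist x K₀ᶜ

theorem cvd_cont (K₀ : Set ℂ) : Continuous (cvd K₀) := Metric.continuous_infDist_pt _

theorem cv_ne {K₀ : Set ℂ} (hKb : Bornology.IsBounded K₀) : (K₀ᶜ).Nonempty := by
  rw [Set.nonempty_compl]
  rintro rfl
  exact NormedSpace.unbounded_univ ℝ ℂ hKb

theorem cvd_pos {K₀ : Set ℂ} (hKo : IsOpen K₀) (hKb : Bornology.IsBounded K₀) {x : ℂ} :
    0 < cvd K₀ x ↔ x ∈ K₀ := by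
  have := hKo.isClosed_compl.notMem_iff_infDist_pos (cv_ne hKb) (x := x)
  rw [notMem_compl_iff] at this
  exact this.symm

theorem cvd_ball {K₀ : Set ℂ} {x : ℂ} {δ : ℝ} (h : δ ≤ cvd K₀ x) : Metric.ball x δ ⊆ K₀ :=
  (Metric.ball_subset_ball h).trans Metric.ball_infDist_compl_subset

theorem cvd_ge {K₀ : Set ℂ} (hKb : Bornology.IsBounded K₀) {x : ℂ} {δ : ℝ}
    (h : Metric.ball x δ ⊆ K₀) : δ ≤ cvd K₀ x := by
  refine (Metric.le_infDist (cv_ne hKb)).2 fun {y} hy => ?_
  by_contra hlt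
  rw [not_le] at hlt
  exact hy (h (by rw [Metric.mem_ball']; exact hlt))

theorem cv_convex {K₀ : Set ℂ} (hKc : Convex ℝ K₀) (hKb : Bornology.IsBounded K₀) (δ : ℝ) :
    Convex ℝ {x | δ ≤ cvd K₀ x} := by
  intro x hx y hy a b ha hb hab
  refine cvd_ge hKb fun w hw => ?_
  have h1 := cvd_ball hx
  have h2 := cvd_ball hy
  set e : ℂ := w - (a • x + b • y) with he
  have hen : ‖e‖ < δ := by rw [he, ← dist_eq_norm]; exact hw
  have h3 : x + e ∈ K₀ := h1 (by rw [Metric.mem_ball, dist_eq_norm, add_sub_cancel_left]; exact hen)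
  have h4 : y + e ∈ K₀ := h2 (by rw [Metric.mem_ball, dist_eq_norm, add_sub_cancel_left]; exact hen)
  have h5 := hKc h3 h4 ha hb hab
  have h6 : w = a • (x + e) + b • (y + e) := by
    have : a • (x + e) + b • (y + e) = (a • x + b • y) + (a + b) • e := by
      simp only [smul_add, add_smul]; ring
    rw [this, hab, one_smul, he]
    ring
  rw [h6]
  exact h5

theorem cv_sub {K₀ : Set ℂ} (hKo : IsOpen K₀) (hKb : Bornology.IsBounded K₀) {δ : ℝ} (hδ : 0 < δ) :
    {x | δ ≤ cvd K₀ x} ⊆ K₀ := fun _ hx => (cvd_pos hKo hKb).1 (lt_of_lt_of_le hδ hx)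

theorem cv_compact {K₀ : Set ℂ} (hKo : IsOpen K₀) (hKb : Bornology.IsBounded K₀) {δ : ℝ}
    (hδ : 0 < δ) : IsCompact {x | δ ≤ cvd K₀ x} :=
  Metric.isCompact_of_isClosed_isBounded (isClosed_le continuous_const (cvd_cont K₀))
    (hKb.subset (cv_sub hKo hKb hδ))

/-- a small area near the boundary -/
theorem cv_area {K₀ : Set ℂ} (hKo : IsOpen K₀) (hKc : Convex ℝ K₀) (hKb : Bornology.IsBounded K₀)
    {a : ℝ} (ha : 0 < a) : ∃ δ > 0, ∀ ε δ' : ℝ, ε ≤ δ → 0 < δ' → δ' ≤ δ → ∀ S : Set ℂ,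
      S ⊆ Metric.thickening ε K₀ → Disjoint S {x | δ' ≤ cvd K₀ x} → volume.real S < a := by
  let A : ℕ → Set ℂ := fun m => Metric.thickening (1 / ((m : ℝ) + 1)) K₀ \
    {x | 1 / ((m : ℝ) + 1) ≤ cvd K₀ x}
  have hmono : ∀ m n : ℕ, m ≤ n → 1 / ((n : ℝ) + 1) ≤ 1 / ((m : ℝ) + 1) := by
    intro m n h
    apply one_div_le_one_div_of_le (by positivity)
    have : (m : ℝ) ≤ n := by exact_mod_cast h
    linarith
  have hA : Antitone A := by
    intro m n h
    have h1 := hmono m n h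
    rintro x ⟨hx1, hx2⟩
    exact ⟨Metric.thickening_mono h1 _ hx1, fun h3 => hx2 (h1.trans h3)⟩
  have hAm : ∀ m, MeasurableSet (A m) := fun m =>
    Metric.isOpen_thickening.measurableSet.diff
      (isClosed_le continuous_const (cvd_cont K₀)).measurableSet
  have hfin : ∀ m, volume (A m) ≠ ⊤ := fun m =>
    (((hKb.thickening).subset sdiff_subset).measure_lt_top).ne
  have hinter : ⋂ m, A m ⊆ frontier K₀ := by
    intro x hx
    rw [mem_iInter] at hx
    refine ⟨?_, ?_⟩
    · rw [Metric.closure_eq_iInter_thickening]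
      simp only [mem_iInter]
      intro δ hδ
      obtain ⟨n, hn⟩ := exists_nat_one_div_lt hδ
      exact Metric.thickening_mono hn.le _ (hx n).1
    · rw [hKo.interior_eq]
      intro hxK
      have := (cvd_pos hKo hKb).2 hxK
      obtain ⟨n, hn⟩ := exists_nat_one_div_lt this
      exact (hx n).2 hn.le
  have hzero : volume (⋂ m, A m) = 0 :=
    measure_mono_null hinter (hKc.addHaar_frontier volume)
  have hlim := tendsto_measure_iInter_atTop (μ := volume) (s := A)
    (fun m => (hAm m).nullMeasurableSet) hA ⟨0, hfin 0⟩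
  rw [hzero] at hlim
  have hev := hlim.eventually_lt_const (show (0 : ENNReal) < ENNReal.ofReal a by simpa using ha)
  obtain ⟨m, hm⟩ := hev.exists
  refine ⟨1 / ((m : ℝ) + 1), by positivity, fun ε δ' hε hδ' hδ'' S hS hd => ?_⟩
  have hSA : S ⊆ A m := fun x hx => ⟨Metric.thickening_mono hε _ (hS hx),
    fun h3 => disjoint_left.1 hd hx (hδ''.trans h3)⟩
  have h1 : volume S < ENNReal.ofReal a := lt_of_le_of_lt (measure_mono hSA) hm
  rw [Measure.real]
  exact (ENNReal.lt_ofReal_iff_toReal_lt (h1.trans ENNReal.ofReal_lt_top).ne).1 h1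

theorem cv_uc {K₀ : Set ℂ} (hKb : Bornology.IsBounded K₀) {v : ℂ → ℝ} (hv : Continuous v)
    (hout : ∀ x, x ∉ K₀ → v x = 0) {η : ℝ} (hη : 0 < η) :
    ∃ δ > 0, ∀ x, cvd K₀ x < δ → |v x| < η := by
  have hcs : HasCompactSupport v :=
    HasCompactSupport.intro (hKb.isCompact_closure) fun x hx =>
      hout x fun h => hx (subset_closure h)
  have huc : UniformContinuous v := hv.uniformContinuous_of_tendsto_cocompact
    hcs.is_zero_at_infty
  obtain ⟨δ, hδ, h⟩ := Metric.uniformContinuous_iff.1 huc η hη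
  refine ⟨δ, hδ, fun x hx => ?_⟩
  obtain ⟨y, hy, hxy⟩ := (Metric.infDist_lt_iff (cv_ne hKb)).1 hx
  have h1 := h hxy
  rw [hout y hy, Real.dist_eq, sub_zero] at h1
  exact h1

theorem cv_pick {C : Set ℝ} (hC : C.Countable) {a : ℝ} (ha : 0 < a) : ∃ δ, 0 < δ ∧ δ < a ∧ δ ∉ C := by
  have hd := hC.dense_compl ℝ
  obtain ⟨δ, h1, h2⟩ := hd.exists_between ha
  exact ⟨δ, h2.1, h2.2, h1⟩

/-- normalisation -/
theorem cv_norm {R γ : Set ℂ} {lam k : ℝ} {u : ℂ → ℝ} (hR : SimpleClosedCurve R)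
    (hγ : SimpleClosedCurve γ) (hu : Wat (inside R) lam u)
    (hsub : γ ⊆ inside R) (hk : k ≠ 0) (huk : ∀ x ∈ γ, u x = k)
    (hcr : ∀ x ∈ γ, fderiv ℝ u x = 0) :
    ∃ (k' : ℝ) (w : ℂ → ℝ), Wat (inside R) lam w ∧ k' ≠ 0 ∧ (∀ x ∈ γ, w x = k') ∧
      (∀ x ∈ γ, fderiv ℝ w x = 0) ∧ (∀ x, |w x| ≤ 1) ∧ ∃ x, |w x| = 1 := by
  obtain ⟨x₀, hx₀⟩ := (scc_basic hγ).2.2.nonempty
  obtain ⟨M, hout⟩ := (inside_basic (scc_basic hR).1).2.1.subset_closedBall 0
  have hcont : Continuous (fun x => |u x|) := hu.cont.abs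
  obtain ⟨z, hz, hmax⟩ := (isCompact_closedBall (0 : ℂ) M).exists_isMaxOn
    ⟨x₀, hout (hsub hx₀)⟩ hcont.continuousOn
  have hle : ∀ x, |u x| ≤ |u z| := by
    intro x
    by_cases hx : x ∈ inside R
    · exact hmax (hout hx)
    · rw [hu.out x hx, abs_zero]; exact abs_nonneg _
  have hs : 0 < |u z| := by
    refine lt_of_lt_of_le ?_ (hle x₀)
    rw [huk x₀ hx₀]
    exact abs_pos.mpr hk
  refine ⟨|u z|⁻¹ * k, fun x => |u z|⁻¹ * u x, wat_smul hu _, mul_ne_zero (inv_ne_zero hs.ne') hk,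
    fun x hx => by simp only [huk x hx], ?_, ?_, ?_⟩
  · intro x hx
    have hd : DifferentiableAt ℝ u x := (wat_smooth hu (hsub hx)).1.differentiableAt (by norm_num)
    have h1 := (hd.hasFDerivAt.const_mul (|u z|⁻¹)).fderiv
    rw [hcr x hx, smul_zero] at h1
    exact h1
  · intro x
    rw [abs_mul, abs_inv, abs_abs, inv_mul_le_iff₀ hs, mul_one]
    exact hle x
  · refine ⟨z, ?_⟩
    rw [abs_mul, abs_inv, abs_abs, inv_mul_cancel₀ hs.ne']

theorem cv_tendsto {ψ : ℕ → ℕ} (hψ : StrictMono ψ) {b : ℕ → ℂ} {x₀ : ℂ}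
    (hb : Tendsto b atTop (𝓝 x₀)) :
    ∃ y : ℕ → ℂ, (∀ m, y (ψ m) = b m) ∧ Tendsto y atTop (𝓝 x₀) := by
  refine ⟨Function.extend ψ b (fun _ => x₀), fun m => hψ.injective.extend_apply _ _ _, ?_⟩
  rw [Metric.tendsto_atTop] at hb ⊢
  intro ε hε
  obtain ⟨M, hM⟩ := hb ε hε
  refine ⟨ψ M, fun n hn => ?_⟩
  by_cases h : ∃ m, ψ m = n
  · obtain ⟨m, rfl⟩ := h
    rw [hψ.injective.extend_apply]
    exact hM m (hψ.le_iff_le.mp hn)
  · rw [Function.extend_apply' _ _ _ h, dist_self]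
    exact hε

theorem cv_ballarea (p : ℂ) {η : ℝ} (hη : 0 ≤ η) :
    volume.real (Metric.ball p η) = Real.pi * η ^ 2 := by
  rw [Measure.real, Complex.volume_ball, ENNReal.toReal_mul, ENNReal.toReal_pow,
    ENNReal.toReal_ofReal hη]
  simp [mul_comm]

/-- a preconnected set off `γ` which meets `inside γ` is contained in it -/
theorem cv_inside {γ L : Set ℂ} (hL : IsPreconnected L) (hd : Disjoint L γ) {x : ℂ} (hx : x ∈ L)
    (hxi : x ∈ inside γ) : L ⊆ inside γ := by
  intro y hy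
  have hLc : L ⊆ γᶜ := fun z hz hzγ => disjoint_left.1 hd hz hzγ
  have h1 : y ∈ connectedComponentIn γᶜ x := hL.subset_connectedComponentIn hx hLc hy
  refine ⟨hLc hy, ?_⟩
  rw [← connectedComponentIn_eq h1]
  exact hxi.2

/-- TARGET: near a convex domain whose eigenfunctions have no closed curves of critical points there are no such curves either, at bounded eigenvalue. -/
theorem near_convex {K₀ : Set ℂ} (hKo : IsOpen K₀) (hKc : Convex ℝ K₀)
    (hKb : Bornology.IsBounded K₀) (hKn : K₀.Nonempty) {T : ℝ} (hT : 0 < T)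
    (hK : ∀ (lam : ℝ) (v : ℂ → ℝ), 0 < lam → lam ≤ T → Wat K₀ lam v → (∃ x, v x ≠ 0) →
      ¬ ∃ γ : Set ℂ, SimpleClosedCurve γ ∧ γ ⊆ K₀ ∧ ∀ x ∈ γ, fderiv ℝ v x = 0) :
    ∃ ε : ℝ, 0 < ε ∧ ∀ (R γ : Set ℂ) (lam k : ℝ) (u : ℂ → ℝ), SimpleClosedCurve R →
      SimpleClosedCurve γ → {x | Metric.closedBall x ε ⊆ K₀} ⊆ inside R →
      inside R ⊆ Metric.thickening ε K₀ → 0 < lam → lam ≤ T → Wat (inside R) lam u →
      γ ⊆ inside R → k ≠ 0 → (∀ x ∈ γ, u x = k) → (∀ x ∈ γ, fderiv ℝ u x = 0) → False := by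
  by_contra hcon
  have hpi := Real.pi_pos
  have hex : ∀ n : ℕ, ∃ (R γ : Set ℂ) (lam k : ℝ) (u : ℂ → ℝ), SimpleClosedCurve R ∧
      SimpleClosedCurve γ ∧ {x | Metric.closedBall x (1 / ((n : ℝ) + 1)) ⊆ K₀} ⊆ inside R ∧
      inside R ⊆ Metric.thickening (1 / ((n : ℝ) + 1)) K₀ ∧ 0 < lam ∧ lam ≤ T ∧
      Wat (inside R) lam u ∧ γ ⊆ inside R ∧ k ≠ 0 ∧ (∀ x ∈ γ, u x = k) ∧
      (∀ x ∈ γ, fderiv ℝ u x = 0) ∧ (∀ x, |u x| ≤ 1) ∧ (∃ x, |u x| = 1) := by
    intro n
    by_contra hn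
    apply hcon
    refine ⟨1 / ((n : ℝ) + 1), by positivity, ?_⟩
    intro R γ lam k u hR hγ hin hout hlam hlamT hu hsub hk huk hcr
    obtain ⟨k', w, hw, hk', hwk, hwc, hw1, hw2⟩ := cv_norm hR hγ hu hsub hk huk hcr
    exact hn ⟨R, γ, lam, k', w, hR, hγ, hin, hout, hlam, hlamT, hw, hsub, hk', hwk, hwc, hw1, hw2⟩
  choose R γ lam k u hR hγ hin hout hlam hlamT hu hsub hk huk hcr hu1 hu2 using hex
  have hε : Tendsto (fun n : ℕ => 1 / ((n : ℝ) + 1)) atTop (𝓝 0) :=
    tendsto_one_div_add_atTop_nhds_zero_nat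
  have hDo : ∀ n, IsOpen (inside (R n)) := fun n => (inside_basic (scc_basic (hR n)).1).1
  obtain ⟨φ, l, v, hφ, hl, hlim, hv, hvne, hunif, hconv⟩ := compact_modes_convex hKo hKc hKb hKn
    (D := fun n => inside (R n)) (lam := lam) (ε := fun n : ℕ => 1 / ((n : ℝ) + 1)) (u := u)
    (T := T) hε (fun n => by positivity) hDo hin hout (fun n => ⟨hlam n, hlamT n⟩) hu hu1 hu2
  have hlT : l ≤ T := le_of_tendsto' hlim fun n => hlamT (φ n)
  have hε' : Tendsto (fun n : ℕ => 1 / (((φ n : ℕ) : ℝ) + 1)) atTop (𝓝 0) :=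
    hε.comp hφ.tendsto_atTop
  -- the critical points
  obtain ⟨C, hC⟩ : ∃ C : Set ℂ, C = {x | x ∈ K₀ ∧ fderiv ℝ v x = 0} := ⟨_, rfl⟩
  have hacc : ∀ x₀ ∈ K₀, ¬ AccPt x₀ (𝓟 C) := by
    intro x₀ hx₀ hacc
    rw [hC] at hacc
    obtain ⟨Γ, hΓc, hΓcon, -, hΓsub, hΓcr, -, hΓloc⟩ :=
      crit_component hKo hKb hKc.isPreconnected hl hv hvne hx₀ hacc
    refine hK l v hl hlT hv hvne ⟨Γ, scc_of_graph hΓc hΓcon ?_, hΓsub, hΓcr⟩
    intro q hq
    obtain ⟨e, δ, ψ, h1, h2, h3, -, h4, h5, -, h6⟩ := hΓloc q hq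
    exact ⟨e, δ, ψ, h1, h2, h3, h4, h5, fun t s ht hs => (h6 t s ht hs).2⟩
  have hCfin : ∀ δ : ℝ, 0 < δ → (C ∩ {x | δ ≤ cvd K₀ x}).Finite := by
    intro δ hδ
    by_contra hinf
    obtain ⟨x₀, hx₀, hx₀a⟩ := Set.Infinite.exists_accPt_of_subset_isCompact hinf
      (cv_compact hKo hKb hδ) inter_subset_right
    exact hacc x₀ (cv_sub hKo hKb hδ hx₀) (hx₀a.mono (principal_mono.2 inter_subset_left))
  have hCsub : C ⊆ K₀ := fun x hx => by rw [hC] at hx; exact hx.1
  have hCcount : C.Countable := by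
    have h1 : C ⊆ ⋃ n : ℕ, C ∩ {x | 1 / ((n : ℝ) + 1) ≤ cvd K₀ x} := by
      intro x hx
      obtain ⟨n, hn⟩ := exists_nat_one_div_lt ((cvd_pos hKo hKb).2 (hCsub hx))
      exact mem_iUnion.2 ⟨n, hx, hn.le⟩
    exact (countable_iUnion fun n => (hCfin _ (by positivity)).countable).mono h1
  have hdC : (cvd K₀ '' C).Countable := hCcount.image _
  -- limits of points of the curves are critical points
  have hcl : ∀ (ψ : ℕ → ℕ) (b : ℕ → ℂ) (x₀ : ℂ), StrictMono ψ → (∀ m, b m ∈ γ (φ (ψ m))) →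
      Tendsto b atTop (𝓝 x₀) → x₀ ∈ K₀ → x₀ ∈ C := by
    intro ψ b x₀ hψ hb hbl hx₀
    obtain ⟨y, hy, hylim⟩ := cv_tendsto hψ hbl
    have h2 := (hconv y x₀ hx₀ hylim).comp hψ.tendsto_atTop
    have h3 : (fun n => fderiv ℝ (u (φ n)) (y n)) ∘ ψ = fun _ => 0 := by
      funext m
      simp only [Function.comp_apply]
      rw [hy m]
      exact hcr _ _ (hb m)
    rw [h3] at h2
    rw [hC]
    exact ⟨hx₀, tendsto_nhds_unique h2 tendsto_const_nhds⟩
  -- compactness in `{δ ≤ d}`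
  have hcomp : ∀ (δ : ℝ), 0 < δ → ∀ S : Set ℂ, IsClosed S → (∀ x ∈ S, δ ≤ cvd K₀ x) →
      (∃ᶠ n in atTop, (γ (φ n) ∩ S).Nonempty) → (C ∩ S).Nonempty := by
    intro δ hδ S hS hSδ hfr
    obtain ⟨ψ₀, hψ₀, hbad⟩ := Filter.extraction_of_frequently_atTop hfr
    choose b hb using hbad
    obtain ⟨x₀, hx₀, ψ₁, hψ₁, hlim1⟩ := (cv_compact hKo hKb hδ).tendsto_subseq
      (fun m => hSδ _ (hb m).2)
    have hψ : StrictMono (ψ₀ ∘ ψ₁) := hψ₀.comp hψ₁
    refine ⟨x₀, hcl _ _ x₀ hψ (fun m => (hb (ψ₁ m)).1) hlim1 (cv_sub hKo hKb hδ hx₀), ?_⟩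
    exact hS.mem_of_tendsto hlim1 (Eventually.of_forall fun m => (hb (ψ₁ m)).2)
  -- the structure of the curves
  have hdat : ∀ n, (inside (γ n)).Nonempty ∧
      Dat (inside (γ n)) (lam n) (k n) ((inside (γ n)).indicator fun x => u n x - k n) :=
    fun n => crit_dat (hR n) (hγ n) (hlam n) (hu n) (hsub n) (hk n) (huk n) (hcr n)
  have hbas : ∀ n, IsOpen (inside (γ n)) ∧ Bornology.IsBounded (inside (γ n)) := fun n =>
    ⟨(inside_basic (scc_basic (hγ n)).1).1, (inside_basic (scc_basic (hγ n)).1).2.1⟩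
  have harea : ∀ n, 3 ≤ T * volume.real (inside (γ n)) := by
    intro n
    obtain ⟨hne, hdt⟩ := hdat n
    obtain ⟨hΩcon, -, hΩreg⟩ := inside_jordan (hγ n) hne
    refine (dat_area hdt (hbas n).1 (hbas n).2 hΩcon hΩreg (hlam n) (hk n)).trans ?_
    exact mul_le_mul_of_nonneg_right (hlamT n) measureReal_nonneg
  -- the curves are near the boundary
  have hnear : ∀ δ : ℝ, 0 < δ → δ ∉ cvd K₀ '' C → ∀ᶠ n in atTop, ∀ x ∈ γ (φ n), cvd K₀ x < δ := by
    intro δ hδ hδC
    have e1 : ∀ᶠ n in atTop, ∀ x ∈ γ (φ n), cvd K₀ x ≠ δ := by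
      by_contra hnot
      rw [Filter.not_eventually] at hnot
      obtain ⟨x, hx, hxd⟩ := hcomp δ hδ {x | cvd K₀ x = δ}
        (isClosed_eq (cvd_cont K₀) continuous_const) (fun x hx => le_of_eq (Eq.symm hx))
        (hnot.mono fun n hn => by
          push Not at hn
          obtain ⟨x, hx, hxd⟩ := hn
          exact ⟨x, hx, hxd⟩)
      exact hδC ⟨x, hx, hxd⟩
    obtain ⟨η, hη1, hη⟩ : ∃ η : ℝ, Real.pi * η ^ 2 * T < 3 ∧ 0 < η := by
      have e3 : ∀ᶠ η in 𝓝[>] (0 : ℝ), Real.pi * η ^ 2 * T < 3 := by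
        have h1 : Tendsto (fun η : ℝ => Real.pi * η ^ 2 * T) (𝓝[>] 0) (𝓝 (Real.pi * 0 ^ 2 * T)) := by
          have : Continuous (fun η : ℝ => Real.pi * η ^ 2 * T) := by fun_prop
          exact (this.tendsto 0).mono_left nhdsWithin_le_nhds
        refine h1.eventually_lt_const ?_
        norm_num
      obtain ⟨η, h1, h2⟩ := (e3.and self_mem_nhdsWithin).exists
      exact ⟨η, h1, h2⟩
    obtain ⟨P, hP⟩ : ∃ P : Finset ℂ, ∀ x, x ∈ P ↔ x ∈ C ∩ {x | δ ≤ cvd K₀ x} :=
      ⟨(hCfin δ hδ).toFinset, fun x => (hCfin δ hδ).mem_toFinset⟩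
    obtain ⟨δ', hδ', hnc⟩ := near_circles P ∅ hη
    have e2 : ∀ᶠ n in atTop, ∀ x ∈ γ (φ n), δ ≤ cvd K₀ x → ∃ p ∈ P, ‖x - p‖ < δ' := by
      by_contra hnot
      rw [Filter.not_eventually] at hnot
      obtain ⟨x, hx, hxd, hxP⟩ := hcomp δ hδ {x | δ ≤ cvd K₀ x ∧ ∀ p ∈ P, δ' ≤ ‖x - p‖} (by
          have h1 : {x | δ ≤ cvd K₀ x ∧ ∀ p ∈ P, δ' ≤ ‖x - p‖} =
              {x | δ ≤ cvd K₀ x} ∩ ⋂ p ∈ P, {x | δ' ≤ ‖x - p‖} := by
            ext x; simp
          rw [h1]
          refine (isClosed_le continuous_const (cvd_cont K₀)).inter ?_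
          exact isClosed_biInter fun p _ => isClosed_le continuous_const (by fun_prop))
        (fun x hx => hx.1)
        (hnot.mono fun n hn => by
          push Not at hn
          obtain ⟨x, hx, hxd, hxP⟩ := hn
          exact ⟨x, hx, hxd, hxP⟩)
      have h1 := hxP x ((hP x).2 ⟨hx, hxd⟩)
      rw [sub_self, norm_zero] at h1
      linarith
    filter_upwards [e1, e2] with n hn1 hn2
    have hcon' : IsConnected (γ (φ n)) := (scc_basic (hγ (φ n))).2.1
    by_contra hnot
    push Not at hnot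
    obtain ⟨x, hx, hxd⟩ := hnot
    have hxd' : δ < cvd K₀ x := lt_of_le_of_ne hxd (fun h => hn1 x hx h.symm)
    have hall : ∀ y ∈ γ (φ n), δ < cvd K₀ y := by
      intro y hy
      by_contra hyd
      rw [not_lt] at hyd
      have hyd' : cvd K₀ y < δ := lt_of_le_of_ne hyd (hn1 y hy)
      obtain ⟨z, hz, hzd⟩ := hcon'.isPreconnected.intermediate_value hy hx
        (cvd_cont K₀).continuousOn ⟨hyd'.le, hxd'.le⟩
      exact hn1 z hz hzd
    rcases hnc (γ (φ n)) hcon' (fun y hy => Or.inl (hn2 y hy (hall y hy).le)) with ⟨p, hp⟩ | ⟨ρ, hρ, -⟩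
    · have h1 := inside_small hp
      have h2 : volume.real (inside (γ (φ n))) ≤ volume.real (Metric.ball p η) :=
        measureReal_mono h1 measure_ball_lt_top.ne
      rw [cv_ballarea p hη.le] at h2
      have h3 := mul_le_mul_of_nonneg_left h2 hT.le
      have h4 := harea (φ n)
      linarith
    · simp at hρ
  -- the compact convex sets `{δ ≤ d}` are enclosed
  obtain ⟨δ₁, hδ₁, hsmall⟩ := cv_area hKo hKc hKb (show 0 < 3 / T by positivity)
  have hencl : ∀ δ : ℝ, 0 < δ → δ ≤ δ₁ → δ ∉ cvd K₀ '' C →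
      ∀ᶠ n in atTop, {x | δ ≤ cvd K₀ x} ⊆ inside (γ (φ n)) := by
    intro δ hδ hδδ hδC
    filter_upwards [hnear δ hδ hδC, hε'.eventually_lt_const hδ₁] with n hn1 hn2
    have hdj : Disjoint {x | δ ≤ cvd K₀ x} (γ (φ n)) := by
      rw [disjoint_left]
      intro x hx hxγ
      exact absurd (hn1 x hxγ) (not_lt.2 hx)
    by_cases hmeet : ∃ x ∈ {x | δ ≤ cvd K₀ x}, x ∈ inside (γ (φ n))
    · obtain ⟨x, hx, hxi⟩ := hmeet
      exact cv_inside (cv_convex hKc hKb δ).isPreconnected hdj hx hxi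
    · exfalso
      push Not at hmeet
      have h1 : Disjoint (inside (γ (φ n))) {x | δ ≤ cvd K₀ x} :=
        disjoint_right.2 fun x hx => hmeet x hx
      have h2 : inside (γ (φ n)) ⊆ Metric.thickening (1 / (((φ n : ℕ) : ℝ) + 1)) K₀ :=
        (inside_sub (scc_basic (hR (φ n))).1 (scc_basic (hR (φ n))).2.1 (hsub (φ n))).trans
          (hout (φ n))
      have h3 := hsmall _ δ hn2.le hδ hδδ _ h2 h1
      rw [lt_div_iff₀ hT] at h3
      have h4 := harea (φ n)
      linarith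
  -- the constants tend to zero
  have hk0 : Tendsto (fun n => k (φ n)) atTop (𝓝 0) := by
    rw [Metric.tendsto_nhds]
    intro η hη
    obtain ⟨δ₂, hδ₂, huc⟩ := cv_uc hKb hv.cont hv.out (show 0 < η / 2 by positivity)
    obtain ⟨δ, hδ, hδ2, hδC⟩ := cv_pick hdC hδ₂
    have hun := Metric.tendstoUniformly_iff.1 hunif (η / 2) (by positivity)
    filter_upwards [hnear δ hδ hδC, hun] with n hn1 hn2
    obtain ⟨x, hx⟩ := (scc_basic (hγ (φ n))).2.1.nonempty
    have h1 := huc x ((hn1 x hx).trans hδ2)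
    have h2 := hn2 x
    rw [Real.dist_eq] at h2 ⊢
    rw [sub_zero, ← huk (φ n) x hx]
    have h3 : u (φ n) x = v x - (v x - u (φ n) x) := by ring
    rw [h3]
    have h4 := abs_sub (v x) (v x - u (φ n) x)
    linarith
  have hkle : ∀ n, |k n| ≤ 1 := by
    intro n
    obtain ⟨x, hx⟩ := (scc_basic (hγ n)).2.1.nonempty
    rw [← huk n x hx]
    exact hu1 n x
  -- pointwise convergence
  have hpt : ∀ x, Tendsto (fun n => (inside (γ (φ n))).indicator (fun x => u (φ n) x - k (φ n)) x)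
      atTop (𝓝 (v x)) := by
    intro x
    have hux : Tendsto (fun n => u (φ n) x) atTop (𝓝 (v x)) := hunif.tendsto_at x
    have hux' : Tendsto (fun n => u (φ n) x - k (φ n)) atTop (𝓝 (v x)) := by
      have := hux.sub hk0
      rwa [sub_zero] at this
    by_cases hx : x ∈ K₀
    · obtain ⟨δ, hδ, hδ2, hδC⟩ := cv_pick hdC (lt_min ((cvd_pos hKo hKb).2 hx) hδ₁)
      have hev := hencl δ hδ (hδ2.le.trans (min_le_right _ _)) hδC
      refine hux'.congr' ?_
      filter_upwards [hev] with n hn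
      have : x ∈ inside (γ (φ n)) := hn (hδ2.le.trans (min_le_left _ _))
      rw [indicator_of_mem this]
    · have hvx : v x = 0 := hv.out x hx
      rw [hvx] at hux' ⊢
      refine squeeze_zero_norm (fun n => ?_) (by simpa using hux'.norm)
      exact norm_indicator_le_norm_self _ _
  have hweak : ∀ f : ℂ → ℝ, SC f → ∫ x, v x * (la f x + l * f x) = 0 := by
    intro f hf
    have hlaf : SC (la f) := Pool.Agent.R227.SA.la_sc hf
    have hI1 : Integrable (la f) := hlaf.sm.continuous.integrable_of_hasCompactSupport hlaf.cs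
    have hI2 : Integrable f := hf.sm.continuous.integrable_of_hasCompactSupport hf.cs
    have h1 : Tendsto (fun n => ∫ x, (inside (γ (φ n))).indicator (fun x => u (φ n) x - k (φ n)) x *
        (la f x + lam (φ n) * f x)) atTop (𝓝 (∫ x, v x * (la f x + l * f x))) := by
      refine tendsto_integral_of_dominated_convergence (fun x => 2 * (|la f x| + T * |f x|)) ?_ ?_ ?_ ?_
      · intro n
        have hc := ((hdat (φ n)).2.c1.continuous)
        exact (hc.mul (hlaf.sm.continuous.add (continuous_const.mul hf.sm.continuous))).aestronglyMeasurable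
      · exact (hI1.abs.add (hI2.abs.const_mul T)).const_mul 2
      · intro n
        refine Eventually.of_forall fun x => ?_
        rw [norm_mul, Real.norm_eq_abs, Real.norm_eq_abs]
        have a1 : |(inside (γ (φ n))).indicator (fun x => u (φ n) x - k (φ n)) x| ≤ 2 := by
          by_cases hx : x ∈ inside (γ (φ n))
          · rw [indicator_of_mem hx]
            have := abs_sub (u (φ n) x) (k (φ n))
            linarith [hu1 (φ n) x, hkle (φ n)]
          · rw [indicator_of_notMem hx, abs_zero]; norm_num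
        have a2 : |la f x + lam (φ n) * f x| ≤ |la f x| + T * |f x| := by
          refine (abs_add_le _ _).trans ?_
          rw [abs_mul, abs_of_pos (hlam (φ n))]
          have := mul_le_mul_of_nonneg_right (hlamT (φ n)) (abs_nonneg (f x))
          linarith
        exact mul_le_mul a1 a2 (abs_nonneg _) (by norm_num)
      · refine Eventually.of_forall fun x => ?_
        exact (hpt x).mul (tendsto_const_nhds.add (hlim.mul_const _))
    have h2 : Tendsto (fun n => ∫ x, (inside (γ (φ n))).indicator (fun x => u (φ n) x - k (φ n)) x *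
        (la f x + lam (φ n) * f x)) atTop (𝓝 0) := by
      have e1 : ∀ n, ∫ x, (inside (γ (φ n))).indicator (fun x => u (φ n) x - k (φ n)) x *
          (la f x + lam (φ n) * f x) =
          -(lam (φ n) * k (φ n) * ∫ x in inside (γ (φ n)), f x) := fun n =>
        dat_green (hdat (φ n)).2 (hbas (φ n)).1 (hbas (φ n)).2 hf
      simp_rw [e1]
      refine squeeze_zero_norm (a := fun n => T * |k (φ n)| * ∫ x, |f x|) (fun n => ?_) ?_
      · rw [norm_neg, norm_mul, norm_mul, Real.norm_eq_abs, Real.norm_eq_abs,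
          abs_of_pos (hlam (φ n))]
        have b1 : ‖∫ x in inside (γ (φ n)), f x‖ ≤ ∫ x, |f x| := by
          refine (norm_integral_le_integral_norm _).trans ?_
          exact setIntegral_le_integral hI2.norm (Eventually.of_forall fun x => norm_nonneg _)
        have b2 : lam (φ n) * |k (φ n)| ≤ T * |k (φ n)| :=
          mul_le_mul_of_nonneg_right (hlamT (φ n)) (abs_nonneg _)
        exact mul_le_mul b2 b1 (norm_nonneg _) (by positivity)
      · have := ((hk0.abs.const_mul T).mul_const (∫ x, |f x|))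
        simpa using this
    exact tendsto_nhds_unique h1 h2
  have hloc : LocH univ l v := fun x _ =>
    reg isOpen_univ hl hv.cont (fun f hf _ => hweak f hf) x (mem_univ x)
  obtain ⟨x, hx⟩ := hvne
  obtain ⟨M, hM⟩ := hKb.subset_closedBall 0
  have hfar : v =ᶠ[𝓝 ((M + |M| + 1 : ℝ) : ℂ)] 0 := by
    have hopen : IsOpen {y : ℂ | M < ‖y‖} := isOpen_lt continuous_const continuous_norm
    have hmem' : ((M + |M| + 1 : ℝ) : ℂ) ∈ {y : ℂ | M < ‖y‖} := by
      change M < ‖((M + |M| + 1 : ℝ) : ℂ)‖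
      rw [Complex.norm_real, Real.norm_eq_abs]
      have := le_abs_self (M + |M| + 1)
      have := abs_nonneg M
      linarith
    filter_upwards [hopen.mem_nhds hmem'] with y hy
    refine hv.out y fun hyD => ?_
    have := hM hyD
    rw [Metric.mem_closedBall, dist_zero_right] at this
    exact absurd hy (not_lt.2 this)
  exact hx (uc_loc hloc hl isPreconnected_univ (mem_univ _) hfar x (mem_univ x))

end Pool.Agent.Helper327_Drum
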