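import Pool.Agent.Helper327_Drum.ShDefs
import Pool.Agent.Helper327_Drum.Fin.CV3
import Pool.Agent.Helper327_Drum.Fin.SY6
import Pool.Agent.Helper327_Drum.Fin.AS6

/-! Drums near rectangles, special triangles and sectors. -/

set_option autoImplicit false
open MeasureTheory Set Filter Topology ComplexConjugate
open scoped ContDiff InnerProductSpace

namespace Pool.Agent.Helper327_Drum

open Pool.Agent.TH298.Sch (dd SC)
open Pool.Agent.R227.SA (la Wat Dat)

/-- no eigenfunction has a closed curve of critical points -/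
def NoCurve (K : Set ℂ) : Prop :=
  ∀ (lam : ℝ) (v : ℂ → ℝ), 0 < lam → Wat K lam v → (∃ x, v x ≠ 0) →
    ¬ ∃ γ : Set ℂ, SimpleClosedCurve γ ∧ γ ⊆ K ∧ ∀ x ∈ γ, fderiv ℝ v x = 0

/-- open, convex, bounded and not empty -/
def Nice (K : Set ℂ) : Prop := IsOpen K ∧ Convex ℝ K ∧ Bornology.IsBounded K ∧ K.Nonempty

theorem basic_nocurve {S : Set ℂ} (hS : Basic S) : NoCurve S := by
  intro lam v hlam hv hne
  rcases hS with ⟨a, b, ha, hb, rfl⟩ | rfl | rfl | rfl | ⟨N, hN, rfl⟩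
  · exact rect_nocurve ha hb hlam hv hne
  · exact tri_nocurve one_pos hlam hv hne
  · exact eq_nocurve one_pos hlam hv hne
  · exact hemi_nocurve one_pos hlam hv hne
  · exact sector_nocurve hN hlam hv hne

theorem halfspace_re (c : ℝ) : Convex ℝ {x : ℂ | x.re < c} := convex_halfSpace_re_lt c

theorem rect_nice {a b : ℝ} (ha : 0 < a) (hb : 0 < b) : Nice (rect a b) := by
  refine ⟨t5a_rect_open a b, ?_, ?_, ⟨⟨a / 2, b / 2⟩, ?_⟩⟩
  · have : rect a b = {x : ℂ | 0 < x.re} ∩ ({x : ℂ | x.re < a} ∩ ({x : ℂ | 0 < x.im} ∩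
        {x : ℂ | x.im < b})) := by
      ext x; simp [rect]
    rw [this]
    exact (convex_halfSpace_re_gt 0).inter ((convex_halfSpace_re_lt a).inter
      ((convex_halfSpace_im_gt 0).inter (convex_halfSpace_im_lt b)))
  · rw [isBounded_iff_forall_norm_le]
    refine ⟨a + b, fun x hx => (Complex.norm_le_abs_re_add_abs_im x).trans ?_⟩
    rw [abs_of_pos hx.1, abs_of_pos hx.2.2.1]
    linarith [hx.2.1, hx.2.2.2]
  · refine ⟨?_, ?_, ?_, ?_⟩ <;> simp <;> linarith

theorem tri_nice : Nice {x : ℂ | 0 < x.im ∧ x.im < x.re ∧ x.re < 1} := by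
  refine ⟨?_, ?_, ?_, ⟨⟨1 / 2, 1 / 4⟩, ?_⟩⟩
  · exact (isOpen_lt continuous_const Complex.continuous_im).inter
      ((isOpen_lt Complex.continuous_im Complex.continuous_re).inter
        (isOpen_lt Complex.continuous_re continuous_const))
  · have h2 : Convex ℝ {x : ℂ | x.im < x.re} := by
      intro x hx y hy s t hs ht hst
      simp only [mem_setOf_eq, Complex.add_im, Complex.add_re, Complex.smul_re, Complex.smul_im,
        smul_eq_mul] at hx hy ⊢
      rcases hs.eq_or_lt with rfl | hs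
      · have : t = 1 := by linarith
        subst this
        linarith
      · nlinarith [mul_lt_mul_of_pos_left hx hs, mul_le_mul_of_nonneg_left hy.le ht]
    exact (convex_halfSpace_im_gt 0).inter (h2.inter (convex_halfSpace_re_lt 1))
  · rw [isBounded_iff_forall_norm_le]
    refine ⟨2, fun x hx => (Complex.norm_le_abs_re_add_abs_im x).trans ?_⟩
    obtain ⟨h1, h2, h3⟩ := hx
    rw [abs_of_pos h1, abs_of_pos (h1.trans h2)]
    linarith
  · refine ⟨?_, ?_, ?_⟩ <;> norm_num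

theorem basic_nice {S : Set ℂ} (hS : Basic S) : Nice S := by
  rcases hS with ⟨a, b, ha, hb, rfl⟩ | rfl | rfl | rfl | ⟨N, hN, rfl⟩
  · exact rect_nice ha hb
  · exact tri_nice
  · exact (tri_open_convex one_pos).1
  · exact (tri_open_convex one_pos).2
  · exact sector_convex hN

theorem copy_inj (σ : ℂ ≃ᵢ ℂ) {a : ℝ} (ha : 0 < a) :
    Function.Injective (fun x : ℂ => σ (a * x)) := by
  intro x y hxy
  have ha' : (a : ℂ) ≠ 0 := by exact_mod_cast ha.ne'
  exact mul_left_cancel₀ ha' (σ.injective hxy)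

theorem copy_nocurve {S : Set ℂ} (hS : NoCurve S) (σ : ℂ ≃ᵢ ℂ) {a : ℝ} (ha : 0 < a) :
    NoCurve ((fun x : ℂ => σ (a * x)) '' S) := by
  rintro lam v hlam hv ⟨x, hx⟩ ⟨γ, hγ, hsub, hcr⟩
  have ha' : (a : ℂ) ≠ 0 := by exact_mod_cast ha.ne'
  have h1 := wat_aff (wat_isom σ hv) 0 ha
  have hpre : (fun x : ℂ => (0 : ℂ) + a * x) ⁻¹' (σ ⁻¹' ((fun x : ℂ => σ (a * x)) '' S)) = S := by
    have : (fun x : ℂ => (0 : ℂ) + a * x) ⁻¹' (σ ⁻¹' ((fun x : ℂ => σ (a * x)) '' S)) =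
        (fun x : ℂ => σ (a * x)) ⁻¹' ((fun x : ℂ => σ (a * x)) '' S) := by
      ext x
      simp only [mem_preimage, zero_add]
    rw [this, preimage_image_eq _ (copy_inj σ ha)]
  rw [hpre] at h1
  refine hS (lam * a ^ 2) _ (by positivity) h1 ?_ ⟨(fun x : ℂ => (0 : ℂ) + a * x) ⁻¹' (σ ⁻¹' γ),
    ?_, ?_, ?_⟩
  · refine ⟨(a : ℂ)⁻¹ * σ.symm x, ?_⟩
    simp only [zero_add]
    rw [mul_inv_cancel_left₀ ha', IsometryEquiv.apply_symm_apply]
    exact hx
  · refine scc_aff ?_ 0 ha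
    have h2 := scc_isom σ.symm hγ
    rwa [IsometryEquiv.image_symm] at h2
  · intro y hy
    rw [← hpre]
    exact hsub hy
  · intro y hy
    exact fderiv_aff (u := fun x => v (σ x)) 0 ha (fderiv_isom σ (hcr _ hy))

theorem copy_nice {S : Set ℂ} (hS : Nice S) (σ : ℂ ≃ᵢ ℂ) {a : ℝ} (ha : 0 < a) :
    Nice ((fun x : ℂ => σ (a * x)) '' S) := by
  obtain ⟨h1, h2, h3, h4⟩ := hS
  have ha' : (a : ℂ) ≠ 0 := by exact_mod_cast ha.ne'
  refine ⟨?_, ?_, ?_, h4.image _⟩
  · have : (fun x : ℂ => σ (a * x)) '' S = (fun x : ℂ => (a : ℂ)⁻¹ * σ.symm x) ⁻¹' S := by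
      ext x
      constructor
      · rintro ⟨y, hy, rfl⟩
        simp only [mem_preimage, IsometryEquiv.symm_apply_apply]
        rwa [inv_mul_cancel_left₀ ha']
      · intro hx
        refine ⟨(a : ℂ)⁻¹ * σ.symm x, hx, ?_⟩
        simp only
        rw [mul_inv_cancel_left₀ ha', IsometryEquiv.apply_symm_apply]
    rw [this]
    exact h1.preimage (continuous_const.mul σ.symm.continuous)
  · have h5 : (fun x : ℂ => σ (a * x)) = (σ.toRealAffineIsometryEquiv.toAffineEquiv.toAffineMap.comp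
        ((a • (LinearMap.id : ℂ →ₗ[ℝ] ℂ)).toAffineMap) : ℂ →ᵃ[ℝ] ℂ) := by
      funext x
      simp
    rw [h5]
    exact h2.affine_image _
  · have h6 : LipschitzWith (1 * ⟨a, ha.le⟩) (fun x : ℂ => σ (a * x)) := by
      refine σ.isometry.lipschitz.comp (LipschitzWith.of_dist_le_mul fun x y => ?_)
      rw [dist_eq_norm, dist_eq_norm, ← mul_sub, norm_mul, Complex.norm_real, Real.norm_of_nonneg ha.le]
      rfl
    exact h6.isBounded_image h3

/-- **Drums near a special shape.** -/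
theorem near_special {K : Set ℂ} (hK : Special K) {T : ℝ} (hT : 0 < T) :
    ∃ ε : ℝ, 0 < ε ∧ ∀ (R : Set ℂ) (c : ℝ) (z : ℂ → ℝ → ℝ) (g : ℂ → ℝ → ℂ) (lam : ℝ),
      SimpleClosedCurve R → 0 < c → DrumSolution R c z g →
      {x | Metric.closedBall x ε ⊆ K} ⊆ inside R → inside R ⊆ Metric.thickening ε K →
      Excites R z lam → lam ≤ T → ¬ NotDiscrete R g := by
  obtain ⟨S, hS, σ, a, ha, rfl⟩ := hK
  have h1 := copy_nocurve (basic_nocurve hS) σ ha
  obtain ⟨n1, n2, n3, n4⟩ := copy_nice (basic_nice hS) σ ha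
  obtain ⟨ε, hε, h2⟩ := near_convex n1 n2 n3 n4 hT fun lam v hlam _ hv hne => h1 lam v hlam hv hne
  refine ⟨ε, hε, fun R c z g lam hR hc hz hin hout hE hle hND => ?_⟩
  obtain ⟨γ, hγ, hsub, hcr⟩ := hND.curve hR hc hz
  obtain ⟨hlam, u, hm⟩ := mode_of_excites (scc_basic hR).1 hc hz hE
  obtain ⟨hsub', k, hk, huk⟩ := hm.const_curve hR hlam hγ (fun x hx => Or.inl (hsub hx)) hcr
  exact h2 R γ lam k u hR hγ hin hout hlam hle hm.wat hsub hk huk
    fun x hx => hm.crit x (hsub hx) (hcr x hx)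

end Pool.Agent.Helper327_Drum
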