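import Pool.Agent.Helper327_Drum.Fin.REF

/-
JOB EQ1 (owner helper327, problem MP_d92c84_an). All imports are on origin/main.
-/

set_option autoImplicit false
open MeasureTheory Set Filter Topology ComplexConjugate
open scoped ContDiff InnerProductSpace

namespace Pool.Agent.Helper327_Drum

open Pool.Agent.TH298.Sch (dd SC X)
open Pool.Agent.R227.SA (la Wat Dat)

/-- the open equilateral triangle with vertices `0`, `a` and `a e^{iπ/3}` -/
def eqtri (a : ℝ) : Set ℂ :=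
  {x | 0 < x.im ∧ x.im < √3 * x.re ∧ x.im < √3 * (a - x.re)}

/-- the cube root of unity -/
noncomputable def eqx_w : ℂ := ⟨-1 / 2, √3 / 2⟩

/-- the lattice vectors -/
noncomputable def eqx_l (a : ℝ) (p : ℤ × ℤ) : ℂ :=
  ⟨3 / 2 * a * p.2, √3 * a * p.1 - √3 / 2 * a * p.2⟩

/-- the finite box of indices -/
noncomputable def eqx_F (a ρ : ℝ) : Finset (ℤ × ℤ) :=
  Finset.Icc (-⌈2 * ρ / a⌉) ⌈2 * ρ / a⌉ ×ˢ Finset.Icc (-⌈2 * ρ / a⌉) ⌈2 * ρ / a⌉

/-- the odd reflection to the hexagon -/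
noncomputable def eqx_h (u : ℂ → ℝ) (x : ℂ) : ℝ :=
  ∑ j ∈ Finset.range 3, (u (eqx_w ^ j * x) - u (eqx_w ^ j * conj x))

/-- the periodic extension -/
noncomputable def eqx_f (a : ℝ) (u : ℂ → ℝ) (x : ℂ) : ℝ := ∑' p : ℤ × ℤ, eqx_h u (x - eqx_l a p)

/-- the periodization of a test function -/
noncomputable def eqx_P (a : ℝ) (φ : ℂ → ℝ) (x : ℂ) : ℝ := ∑' p : ℤ × ℤ, φ (x + eqx_l a p)

theorem eqx_sq3 : √3 * √3 = 3 := Real.mul_self_sqrt (by norm_num)

theorem eqx_s3 : 1 ≤ √3 := by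
  rw [Real.one_le_sqrt]
  norm_num

theorem eqx_w_norm : ‖eqx_w‖ = 1 := by
  have h : ‖eqx_w‖ ^ 2 = 1 := by
    rw [← Complex.normSq_eq_norm_sq, Complex.normSq_apply]
    change -1 / 2 * (-1 / 2 : ℝ) + √3 / 2 * (√3 / 2) = 1
    nlinarith [eqx_sq3]
  nlinarith [norm_nonneg eqx_w]

theorem eqx_w2 : eqx_w ^ 2 = conj eqx_w := by
  rw [pow_two]
  apply Complex.ext
  · rw [Complex.mul_re, Complex.conj_re]
    change -1 / 2 * (-1 / 2 : ℝ) - √3 / 2 * (√3 / 2) = -1 / 2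
    nlinarith [eqx_sq3]
  · rw [Complex.mul_im, Complex.conj_im]
    change -1 / 2 * (√3 / 2 : ℝ) + √3 / 2 * (-1 / 2) = -(√3 / 2)
    ring

theorem eqx_ww : eqx_w * conj eqx_w = 1 := by
  rw [Complex.mul_conj, Complex.normSq_eq_norm_sq, eqx_w_norm]
  simp

theorem eqx_l_add (a : ℝ) (p q : ℤ × ℤ) : eqx_l a (p + q) = eqx_l a p + eqx_l a q := by
  apply Complex.ext
  · rw [Complex.add_re]
    change 3 / 2 * a * ((p.2 + q.2 : ℤ) : ℝ) = 3 / 2 * a * (p.2 : ℝ) + 3 / 2 * a * (q.2 : ℝ)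
    push_cast
    ring
  · rw [Complex.add_im]
    change √3 * a * ((p.1 + q.1 : ℤ) : ℝ) - √3 / 2 * a * ((p.2 + q.2 : ℤ) : ℝ) =
      √3 * a * (p.1 : ℝ) - √3 / 2 * a * (p.2 : ℝ) + (√3 * a * (q.1 : ℝ) - √3 / 2 * a * (q.2 : ℝ))
    push_cast
    ring

theorem eqx_l_w (a : ℝ) (m n : ℤ) : eqx_w * eqx_l a (m, n) = eqx_l a (n - m, -m) := by
  have h3 := eqx_sq3
  apply Complex.ext
  · rw [Complex.mul_re]
    change -1 / 2 * (3 / 2 * a * (n : ℝ)) - √3 / 2 * (√3 * a * (m : ℝ) - √3 / 2 * a * (n : ℝ)) =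
      3 / 2 * a * ((-m : ℤ) : ℝ)
    push_cast
    linear_combination (-(a * m) / 2 + a * n / 4) * h3
  · rw [Complex.mul_im]
    change -1 / 2 * (√3 * a * (m : ℝ) - √3 / 2 * a * (n : ℝ)) + √3 / 2 * (3 / 2 * a * (n : ℝ)) =
      √3 * a * ((n - m : ℤ) : ℝ) - √3 / 2 * a * ((-m : ℤ) : ℝ)
    push_cast
    ring

theorem eqx_mem_F {a ρ : ℝ} (ha : 0 < a) {p : ℤ × ℤ} (h : ‖eqx_l a p‖ ≤ ρ) : p ∈ eqx_F a ρ := by
  have h1 : |3 / 2 * a * (p.2 : ℝ)| ≤ ρ := (Complex.abs_re_le_norm (eqx_l a p)).trans h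
  have h2 : |√3 * a * (p.1 : ℝ) - √3 / 2 * a * (p.2 : ℝ)| ≤ ρ :=
    (Complex.abs_im_le_norm (eqx_l a p)).trans h
  have h3 := eqx_s3
  have h4 := eqx_sq3
  rw [abs_le] at h1 h2
  have hρ : 0 ≤ ρ := (norm_nonneg _).trans h
  have k1 : a * (p.2 : ℝ) ≤ ρ := by nlinarith
  have k2 : -ρ ≤ a * (p.2 : ℝ) := by nlinarith
  have k3 : √3 * (a * (p.1 : ℝ)) ≤ √3 * (2 * ρ) := by nlinarith
  have k4 : √3 * (-(2 * ρ)) ≤ √3 * (a * (p.1 : ℝ)) := by nlinarith
  have hpos : 0 < √3 := by linarith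
  have k5 : a * (p.1 : ℝ) ≤ 2 * ρ := le_of_mul_le_mul_left k3 hpos
  have k6 : -(2 * ρ) ≤ a * (p.1 : ℝ) := le_of_mul_le_mul_left k4 hpos
  have c1 : ∀ k : ℤ, a * (k : ℝ) ≤ 2 * ρ → k ≤ ⌈2 * ρ / a⌉ := by
    intro k hk
    have : (k : ℝ) ≤ 2 * ρ / a := by
      rw [le_div_iff₀ ha]
      linarith
    exact_mod_cast this.trans (Int.le_ceil _)
  have c2 : ∀ k : ℤ, -(2 * ρ) ≤ a * (k : ℝ) → -⌈2 * ρ / a⌉ ≤ k := by
    intro k hk
    have := c1 (-k) (by push_cast; linarith)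
    linarith
  rw [eqx_F, Finset.mem_product, Finset.mem_Icc, Finset.mem_Icc]
  exact ⟨⟨c2 _ k6, c1 _ k5⟩, ⟨c2 _ (by linarith), c1 _ (by linarith)⟩⟩

theorem eqx_norm_lt {a : ℝ} {x : ℂ} (hx : x ∈ eqtri a) : ‖x‖ < a := by
  obtain ⟨h1, h2, h3⟩ := hx
  have h4 := eqx_sq3
  have h5 := eqx_s3
  obtain ⟨t, ht⟩ : ∃ t : ℝ, x.im = √3 * t := ⟨x.im / √3, by field_simp⟩
  have hpos : 0 < √3 := by linarith
  rw [ht] at h1 h2 h3
  have k1 : 0 < t := (mul_pos_iff_of_pos_left hpos).1 h1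
  have k2 : t < x.re := lt_of_mul_lt_mul_left h2 hpos.le
  have k3 : t < a - x.re := lt_of_mul_lt_mul_left h3 hpos.le
  have k4 : ‖x‖ ^ 2 < a ^ 2 := by
    rw [← Complex.normSq_eq_norm_sq, Complex.normSq_apply, ht]
    have : √3 * t * (√3 * t) = 3 * t ^ 2 := by linear_combination t ^ 2 * h4
    rw [this]
    nlinarith
  exact lt_of_pow_lt_pow_left₀ 2 (by linarith) k4

/-! ### the fundamental domain -/

/-- the second height -/
noncomputable def eqx_q (x : ℂ) : ℝ := (√3 * x.re - x.im) / 2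

theorem eqx_T_iff {a : ℝ} {x : ℂ} :
    x ∈ eqtri a ↔ 0 < x.im ∧ 0 < eqx_q x ∧ x.im + eqx_q x < √3 / 2 * a := by
  unfold eqx_q
  constructor
  · rintro ⟨h1, h2, h3⟩
    exact ⟨h1, by linarith, by linarith⟩
  · rintro ⟨h1, h2, h3⟩
    exact ⟨h1, by linarith, by linarith⟩

theorem eqx_im_w (x : ℂ) : (eqx_w * x).im = eqx_q x := by
  rw [Complex.mul_im]
  change -1 / 2 * x.im + √3 / 2 * x.re = (√3 * x.re - x.im) / 2
  ring

theorem eqx_q_w (x : ℂ) : eqx_q (eqx_w * x) = -x.im - eqx_q x := by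
  unfold eqx_q
  rw [Complex.mul_re, Complex.mul_im]
  change (√3 * (-1 / 2 * x.re - √3 / 2 * x.im) - (-1 / 2 * x.im + √3 / 2 * x.re)) / 2 = _
  linear_combination (-x.im / 4) * eqx_sq3

theorem eqx_q_conj (x : ℂ) : eqx_q (conj x) = x.im + eqx_q x := by
  unfold eqx_q
  rw [Complex.conj_re, Complex.conj_im]
  ring

theorem eqx_im_sub (a : ℝ) (x : ℂ) (m n : ℤ) :
    (x - eqx_l a (m, n)).im = x.im - √3 / 2 * a * ((2 * m - n : ℤ) : ℝ) := by
  rw [Complex.sub_im]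
  change x.im - (√3 * a * (m : ℝ) - √3 / 2 * a * (n : ℝ)) = _
  push_cast
  ring

theorem eqx_q_sub (a : ℝ) (x : ℂ) (m n : ℤ) :
    eqx_q (x - eqx_l a (m, n)) = eqx_q x - √3 / 2 * a * ((2 * n - m : ℤ) : ℝ) := by
  unfold eqx_q
  rw [Complex.sub_im, Complex.sub_re]
  change (√3 * (x.re - 3 / 2 * a * (n : ℝ)) - (x.im - (√3 * a * (m : ℝ) - √3 / 2 * a * (n : ℝ)))) / 2
    = _
  push_cast
  ring

theorem eqx_int {s : ℝ} (hs : 0 < s) {A c : ℤ} (h : s * (A : ℝ) < s * (c : ℝ)) : A < c := by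
  exact_mod_cast lt_of_mul_lt_mul_left h hs.le

/-- all other images of the triangle are disjoint from the triangle -/
theorem eqx_disj {a : ℝ} (ha : 0 < a) {x : ℂ} (hx : x ∈ eqtri a) (m n : ℤ) :
    (x - eqx_l a (m, n) ∈ eqtri a → m = 0 ∧ n = 0) ∧
    eqx_w * (x - eqx_l a (m, n)) ∉ eqtri a ∧
    eqx_w * (eqx_w * (x - eqx_l a (m, n))) ∉ eqtri a ∧
    conj (x - eqx_l a (m, n)) ∉ eqtri a ∧
    eqx_w * conj (x - eqx_l a (m, n)) ∉ eqtri a ∧
    eqx_w * (eqx_w * conj (x - eqx_l a (m, n))) ∉ eqtri a := by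
  have hs : 0 < √3 / 2 * a := by
    have := eqx_s3
    positivity
  rw [eqx_T_iff] at hx
  simp only [eqx_T_iff, eqx_im_w, eqx_q_w, eqx_q_conj, Complex.conj_im, eqx_im_sub, eqx_q_sub]
  set s : ℝ := √3 / 2 * a with hsd
  set p : ℝ := x.im
  set q : ℝ := eqx_q x
  set A : ℤ := 2 * m - n with hA
  set B : ℤ := 2 * n - m with hB
  obtain ⟨x1, x2, x3⟩ := hx
  have I := fun (C c : ℤ) (h : s * (C : ℝ) < s * (c : ℝ)) => eqx_int hs h
  refine ⟨?_, ?_, ?_, ?_, ?_, ?_⟩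
  · rintro ⟨h1, h2, h3⟩
    have a1 := I A 1 (by push_cast; linarith)
    have a2 := I (-1) A (by push_cast; linarith)
    have a3 := I B 1 (by push_cast; linarith)
    have a4 := I (-1) B (by push_cast; linarith)
    omega
  · rintro ⟨h1, h2, h3⟩
    have a1 := I B 1 (by push_cast; linarith)
    have a2 := I 0 (A + B) (by push_cast; linarith)
    have a3 := I A 2 (by push_cast; linarith)
    have a4 := I (-1) B (by push_cast; linarith)
    omega
  · rintro ⟨h1, h2, h3⟩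
    have a1 := I A 1 (by push_cast; linarith)
    have a2 := I (-1) A (by push_cast; linarith)
    have a3 := I 0 (A + B) (by push_cast; linarith)
    have a4 := I B 2 (by push_cast; linarith)
    omega
  · rintro ⟨h1, h2, h3⟩
    have a1 := I 0 A (by push_cast; linarith)
    have a2 := I (A + B) 1 (by push_cast; linarith)
    have a3 := I (-1) B (by push_cast; linarith)
    omega
  · rintro ⟨h1, h2, h3⟩
    have a1 := I 0 B (by push_cast; linarith)
    have a2 := I (A + B) 1 (by push_cast; linarith)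
    have a3 := I (-1) A (by push_cast; linarith)
    omega
  · rintro ⟨h1, h2, h3⟩
    have a1 := I 0 B (by push_cast; linarith)
    have a2 := I 0 A (by push_cast; linarith)
    have a3 := I (A + B) 2 (by push_cast; linarith)
    omega

theorem eqx_h_six (u : ℂ → ℝ) (x : ℂ) : eqx_h u x =
    (u x - u (conj x)) + (u (eqx_w * x) - u (eqx_w * conj x)) +
      (u (eqx_w * (eqx_w * x)) - u (eqx_w * (eqx_w * conj x))) := by
  unfold eqx_h
  rw [Finset.sum_range_succ, Finset.sum_range_succ, Finset.sum_range_succ, Finset.sum_range_zero]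
  simp only [pow_zero, one_mul, pow_one, pow_two, mul_assoc, zero_add]

/-- the extension is an extension -/
theorem eqx_f_on {a : ℝ} (ha : 0 < a) {u : ℂ → ℝ} (h0 : ∀ x, x ∉ eqtri a → u x = 0) {x : ℂ}
    (hx : x ∈ eqtri a) : eqx_f a u x = u x := by
  unfold eqx_f
  rw [tsum_eq_single (0, 0)]
  · obtain ⟨-, d1, d2, d3, d4, d5⟩ := eqx_disj ha hx 0 0
    rw [eqx_h_six, h0 _ d1, h0 _ d2, h0 _ d3, h0 _ d4, h0 _ d5]
    have : eqx_l a (0, 0) = 0 := by
      apply Complex.ext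
      · change 3 / 2 * a * ((0 : ℤ) : ℝ) = 0
        rw [Int.cast_zero, mul_zero]
      · change √3 * a * ((0 : ℤ) : ℝ) - √3 / 2 * a * ((0 : ℤ) : ℝ) = 0
        rw [Int.cast_zero, mul_zero, mul_zero, sub_zero]
    rw [this]
    simp only [sub_zero, add_zero]
  · rintro ⟨m, n⟩ hmn
    obtain ⟨d0, d1, d2, d3, d4, d5⟩ := eqx_disj ha hx m n
    have d0' : x - eqx_l a (m, n) ∉ eqtri a := by
      intro h
      obtain ⟨e1, e2⟩ := d0 h
      exact hmn (by rw [e1, e2])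
    rw [eqx_h_six, h0 _ d0', h0 _ d1, h0 _ d2, h0 _ d3, h0 _ d4, h0 _ d5]
    ring

theorem eqx_h_out {a : ℝ} {u : ℂ → ℝ} (h0 : ∀ x, x ∉ eqtri a → u x = 0) {x : ℂ} (hx : a ≤ ‖x‖) :
    eqx_h u x = 0 := by
  have h1 : ∀ y : ℂ, ‖y‖ = ‖x‖ → u y = 0 := by
    intro y hy
    refine h0 y (fun h => ?_)
    have := eqx_norm_lt h
    rw [hy] at this
    linarith
  unfold eqx_h
  refine Finset.sum_eq_zero (fun j _ => ?_)
  rw [h1, h1, sub_zero]
  · rw [norm_mul, norm_pow, eqx_w_norm, one_pow, one_mul, Complex.norm_conj]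
  · rw [norm_mul, norm_pow, eqx_w_norm, one_pow, one_mul]

theorem eqx_f_fin {a : ℝ} (ha : 0 < a) {u : ℂ → ℝ} (h0 : ∀ x, x ∉ eqtri a → u x = 0) {R : ℝ} {x : ℂ}
    (hx : ‖x‖ ≤ R) : eqx_f a u x = ∑ p ∈ eqx_F a (R + a), eqx_h u (x - eqx_l a p) := by
  unfold eqx_f
  refine tsum_eq_sum (fun p hp => ?_)
  refine eqx_h_out h0 ?_
  by_contra hcon
  apply hp
  refine eqx_mem_F ha ?_
  have h1 := norm_sub_norm_le (eqx_l a p) x
  rw [norm_sub_rev] at h1
  linarith

theorem eqx_P_fin {a : ℝ} (ha : 0 < a) {φ : ℂ → ℝ} {R : ℝ} (h0 : ∀ x, R < ‖x‖ → φ x = 0) {b : ℝ}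
    {x : ℂ} (hx : ‖x‖ ≤ b) : eqx_P a φ x = ∑ p ∈ eqx_F a (R + b), φ (x + eqx_l a p) := by
  unfold eqx_P
  refine tsum_eq_sum (fun p hp => ?_)
  refine h0 _ ?_
  by_contra hcon
  apply hp
  refine eqx_mem_F ha ?_
  have h1 := norm_sub_norm_le (eqx_l a p) (-x)
  rw [norm_neg, sub_neg_eq_add, add_comm (eqx_l a p)] at h1
  linarith

theorem eqx_f_per (a : ℝ) (u : ℂ → ℝ) (q : ℤ × ℤ) (x : ℂ) :
    eqx_f a u (x + eqx_l a q) = eqx_f a u x := by
  unfold eqx_f
  rw [← (Equiv.addRight q).tsum_eq (fun p => eqx_h u (x + eqx_l a q - eqx_l a p))]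
  refine tsum_congr (fun p => ?_)
  rw [Equiv.coe_addRight, eqx_l_add]
  congr 1
  ring

theorem eqx_P_per (a : ℝ) (φ : ℂ → ℝ) (q : ℤ × ℤ) (x : ℂ) :
    eqx_P a φ (x + eqx_l a q) = eqx_P a φ x := by
  unfold eqx_P
  rw [← (Equiv.addRight q).tsum_eq (fun p => φ (x + eqx_l a p))]
  refine tsum_congr (fun p => ?_)
  rw [Equiv.coe_addRight, eqx_l_add]
  congr 1
  ring

/-! ### sums of test functions and folding -/

theorem eqx_zero (x : ℂ) : la (fun _ : ℂ => (0 : ℝ)) x = 0 := by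
  have h1 : ∀ v, dd v (fun _ : ℂ => (0 : ℝ)) = fun _ => 0 := by
    intro v
    funext y
    unfold dd
    simp
  unfold la
  rw [h1, h1, h1, h1]
  simp

theorem eqx_sum {ι : Type} {f : ι → ℂ → ℝ} (hf : ∀ j, SC (f j)) (F : Finset ι) :
    SC (fun x => ∑ j ∈ F, f j x) ∧
      ∀ x, la (fun x => ∑ j ∈ F, f j x) x = ∑ j ∈ F, la (f j) x := by
  classical
  have hz : SC (fun _ : ℂ => (0 : ℝ)) := ⟨contDiff_const, HasCompactSupport.zero⟩
  induction F using Finset.induction_on with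
  | empty =>
    simp only [Finset.sum_empty]
    exact ⟨hz, eqx_zero⟩
  | insert i F hi ih =>
    simp only [Finset.sum_insert hi]
    refine ⟨(hf i).add ih.1, fun x => ?_⟩
    have hneg := tri_refl_sub hz ih.1
    have h1 := (tri_refl_sub (hf i) hneg.1).2 x
    rw [hneg.2, eqx_zero, ih.2] at h1
    have e : (fun x => f i x + ∑ j ∈ F, f j x) =
        fun x => f i x - (0 - ∑ j ∈ F, f j x) := by
      funext y
      ring
    rw [e, h1]
    ring

theorem eqx_fold {u : ℂ → ℝ} (hu : Continuous u) {φ : ℂ → ℝ} (hφ : SC φ) (lam : ℝ) {w : ℂ}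
    (hw1 : ‖w‖ = 1) (N : ℕ) :
    SC (fun x => ∑ j ∈ Finset.range N, (φ (conj (w ^ j) * x) - φ (w ^ j * conj x))) ∧
    ∫ x, (∑ j ∈ Finset.range N, (u (w ^ j * x) - u (w ^ j * conj x))) * (la φ x + lam * φ x) =
      ∫ x, u x * (la (fun x => ∑ j ∈ Finset.range N, (φ (conj (w ^ j) * x) - φ (w ^ j * conj x))) x +
        lam * ∑ j ∈ Finset.range N, (φ (conj (w ^ j) * x) - φ (w ^ j * conj x))) := by
  have hwj : ∀ j : ℕ, ‖w ^ j‖ = 1 := fun j => by rw [norm_pow, hw1, one_pow]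
  have hc1 : ∀ j : ℕ, Continuous fun x : ℂ => w ^ j * x := fun j => by fun_prop
  have hc2 : ∀ j : ℕ, Continuous fun x : ℂ => w ^ j * conj x := fun j => by fun_prop
  have hwc : ∀ j : ℕ, ‖(conj (w ^ j) : ℂ)‖ = 1 := fun j => by rw [Complex.norm_conj]; exact hwj j
  have p1 := fun j : ℕ => tri_refl_rot hφ (hwc j)
  have p2 := fun j : ℕ => tri_refl_rc hφ (hwj j)
  have p3 := fun j : ℕ => tri_refl_sub (p1 j).1 (p2 j).1
  obtain ⟨p4, p5⟩ := eqx_sum (fun j => (p3 j).1) (Finset.range N)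
  refine ⟨p4, ?_⟩
  have i1 : ∀ j : ℕ, Integrable (fun x => u (w ^ j * x) * (la φ x + lam * φ x)) :=
    fun j : ℕ => tri_refl_ig (hu.comp (hc1 j)) hφ lam
  have i2 : ∀ j : ℕ, Integrable (fun x => u (w ^ j * conj x) * (la φ x + lam * φ x)) :=
    fun j : ℕ => tri_refl_ig (hu.comp (hc2 j)) hφ lam
  have i3 := fun j : ℕ => tri_refl_ig hu (p1 j).1 lam
  have i4 := fun j : ℕ => tri_refl_ig hu (p2 j).1 lam
  have e1 : ∫ x, (∑ j ∈ Finset.range N, (u (w ^ j * x) - u (w ^ j * conj x))) *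
      (la φ x + lam * φ x) = ∑ j ∈ Finset.range N,
        ((∫ x, u (w ^ j * x) * (la φ x + lam * φ x)) -
          ∫ x, u (w ^ j * conj x) * (la φ x + lam * φ x)) := by
    have e2 : ∀ j ∈ Finset.range N, ((∫ x, u (w ^ j * x) * (la φ x + lam * φ x)) -
          ∫ x, u (w ^ j * conj x) * (la φ x + lam * φ x)) =
        ∫ x, (u (w ^ j * x) * (la φ x + lam * φ x) - u (w ^ j * conj x) * (la φ x + lam * φ x)) :=
      fun j _ => (integral_sub (i1 j) (i2 j)).symm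
    have i5 : ∀ j : ℕ, Integrable (fun x => u (w ^ j * x) * (la φ x + lam * φ x) -
        u (w ^ j * conj x) * (la φ x + lam * φ x)) := fun j => (i1 j).sub (i2 j)
    rw [Finset.sum_congr rfl e2, ← integral_finsetSum _ (fun j _ => i5 j)]
    refine integral_congr_ae (Eventually.of_forall fun x => ?_)
    simp only
    rw [Finset.sum_mul]
    refine Finset.sum_congr rfl (fun j _ => ?_)
    ring
  rw [e1]
  have e3 : ∀ j ∈ Finset.range N, ((∫ x, u (w ^ j * x) * (la φ x + lam * φ x)) -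
          ∫ x, u (w ^ j * conj x) * (la φ x + lam * φ x)) =
      ∫ x, (u x * (la (fun y => φ (conj (w ^ j) * y)) x + lam * φ (conj (w ^ j) * x)) -
        u x * (la (fun y => φ (w ^ j * conj y)) x + lam * φ (w ^ j * conj x))) := by
    intro j _
    rw [tri_refl_int1 hφ lam (hwj j), tri_refl_int2 hφ lam (hwj j), ← integral_sub (i3 j) (i4 j)]
  have i6 : ∀ j : ℕ, Integrable (fun x => u x * (la (fun y => φ (conj (w ^ j) * y)) x +
      lam * φ (conj (w ^ j) * x)) - u x * (la (fun y => φ (w ^ j * conj y)) x +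
      lam * φ (w ^ j * conj x))) := fun j => (i3 j).sub (i4 j)
  rw [Finset.sum_congr rfl e3, ← integral_finsetSum _ (fun j _ => i6 j)]
  refine integral_congr_ae (Eventually.of_forall fun x => ?_)
  simp only
  rw [p5, Finset.mul_sum, ← Finset.sum_add_distrib, Finset.mul_sum]
  refine Finset.sum_congr rfl (fun j _ => ?_)
  rw [(p3 j).2]
  ring

/-! ### the triangle -/

theorem eqx_open (a : ℝ) : IsOpen (eqtri a) := by
  have : eqtri a = {x : ℂ | 0 < x.im} ∩ ({x : ℂ | x.im < √3 * x.re} ∩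
      {x : ℂ | x.im < √3 * (a - x.re)}) := rfl
  rw [this]
  exact (isOpen_lt continuous_const Complex.continuous_im).inter
    ((isOpen_lt Complex.continuous_im (continuous_const.mul Complex.continuous_re)).inter
    (isOpen_lt Complex.continuous_im
      (continuous_const.mul (continuous_const.sub Complex.continuous_re))))

theorem eqx_front {a : ℝ} {x : ℂ} (hx : x ∈ frontier (eqtri a)) :
    ‖x‖ ≤ a ∧ (x.im = 0 ∨ x.im = √3 * x.re ∨ x.im = √3 * (a - x.re)) := by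
  have hcl : closure (eqtri a) ⊆ {x : ℂ | ‖x‖ ≤ a ∧ 0 ≤ x.im ∧ x.im ≤ √3 * x.re ∧
      x.im ≤ √3 * (a - x.re)} := by
    refine closure_minimal ?_ ?_
    · intro x hx
      exact ⟨(eqx_norm_lt hx).le, hx.1.le, hx.2.1.le, hx.2.2.le⟩
    · have : {x : ℂ | ‖x‖ ≤ a ∧ 0 ≤ x.im ∧ x.im ≤ √3 * x.re ∧ x.im ≤ √3 * (a - x.re)} =
          {x : ℂ | ‖x‖ ≤ a} ∩ ({x : ℂ | 0 ≤ x.im} ∩ ({x : ℂ | x.im ≤ √3 * x.re} ∩
            {x : ℂ | x.im ≤ √3 * (a - x.re)})) := rfl
      rw [this]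
      exact (isClosed_le continuous_norm continuous_const).inter
        ((isClosed_le continuous_const Complex.continuous_im).inter
        ((isClosed_le Complex.continuous_im (continuous_const.mul Complex.continuous_re)).inter
        (isClosed_le Complex.continuous_im
          (continuous_const.mul (continuous_const.sub Complex.continuous_re)))))
  have hx1 := hcl (frontier_subset_closure hx)
  have hx2 : x ∉ eqtri a := by
    intro h
    have := hx.2
    rw [(eqx_open a).interior_eq] at this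
    exact this h
  obtain ⟨a0, a1, a2, a3⟩ := hx1
  refine ⟨a0, ?_⟩
  by_contra hcon
  push Not at hcon
  exact hx2 ⟨lt_of_le_of_ne a1 (Ne.symm hcon.1), lt_of_le_of_ne a2 hcon.2.1,
    lt_of_le_of_ne a3 hcon.2.2⟩

/-- the folded periodization vanishes on the mirror lines -/
theorem eqx_mirror {a : ℝ} {Φ : ℂ → ℝ} (hΦ : ∀ (q : ℤ × ℤ) x, Φ (x + eqx_l a q) = Φ x) {x : ℂ}
    (hx : x.im = 0 ∨ x.im = √3 * x.re ∨ x.im = √3 * (a - x.re)) :
    ∑ j ∈ Finset.range 3, (Φ (conj (eqx_w ^ j) * x) - Φ (eqx_w ^ j * conj x)) = 0 := by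
  have hw2 := eqx_w2
  have hww := eqx_ww
  have hc0 : conj (eqx_w ^ 0) = 1 := by simp
  have hc1 : conj (eqx_w ^ 1) = eqx_w * eqx_w := by rw [pow_one, ← hw2, pow_two]
  have hc2 : conj (eqx_w ^ 2) = eqx_w := by rw [hw2, Complex.conj_conj]
  have h3 : eqx_w * (eqx_w * eqx_w) = 1 := by rw [← pow_two, hw2, hww]
  rw [Finset.sum_range_succ, Finset.sum_range_succ, Finset.sum_range_succ, Finset.sum_range_zero,
    hc0, hc1, hc2, pow_zero, pow_one, pow_two]
  rcases hx with h | h | h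
  · have hx' : conj x = x := Complex.conj_eq_iff_im.2 h
    rw [hx']
    ring
  · have hx' : eqx_w * conj x = x := by
      apply Complex.ext
      · rw [Complex.mul_re, Complex.conj_re, Complex.conj_im]
        change -1 / 2 * x.re - √3 / 2 * -x.im = x.re
        linear_combination (√3 / 2) * h + (x.re / 2) * eqx_sq3
      · rw [Complex.mul_im, Complex.conj_re, Complex.conj_im]
        change -1 / 2 * -x.im + √3 / 2 * x.re = x.im
        linear_combination (-1 / 2) * h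
    have hx2 : conj x = eqx_w * eqx_w * x := by
      calc conj x = eqx_w * (eqx_w * eqx_w) * conj x := by rw [h3, one_mul]
        _ = eqx_w * eqx_w * (eqx_w * conj x) := by ring
        _ = _ := by rw [hx']
    have hx3 : eqx_w * eqx_w * conj x = eqx_w * x := by
      rw [mul_assoc, hx']
    rw [hx3, hx', hx2, one_mul, one_mul]
    ring
  · have hx' : eqx_w * eqx_w * conj x + eqx_l a (1, 1) = x := by
      rw [← pow_two, hw2]
      apply Complex.ext
      · rw [Complex.add_re, Complex.mul_re, Complex.conj_re, Complex.conj_im, Complex.conj_re,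
          Complex.conj_im]
        change -1 / 2 * x.re - -(√3 / 2) * -x.im + 3 / 2 * a * ((1 : ℤ) : ℝ) = x.re
        push_cast
        linear_combination (-√3 / 2) * h + (-(a - x.re) / 2) * eqx_sq3
      · rw [Complex.add_im, Complex.mul_im, Complex.conj_re, Complex.conj_im, Complex.conj_re,
          Complex.conj_im]
        change -1 / 2 * -x.im + -(√3 / 2) * x.re + (√3 * a * ((1 : ℤ) : ℝ) -
          √3 / 2 * a * ((1 : ℤ) : ℝ)) = x.im
        push_cast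
        linear_combination (-1 / 2) * h
    have l1 : eqx_w * eqx_l a (1, 1) = eqx_l a (0, -1) := by
      rw [eqx_l_w]
      congr 1
    have l2 : eqx_w * (eqx_w * eqx_l a (1, 1)) = eqx_l a (-1, 0) := by
      rw [l1, eqx_l_w]
      congr 1
    have k0 : conj x + eqx_l a (0, -1) = eqx_w * x := by
      rw [← l1]
      calc conj x + eqx_w * eqx_l a (1, 1)
          = eqx_w * (eqx_w * eqx_w) * conj x + eqx_w * eqx_l a (1, 1) := by rw [h3, one_mul]
        _ = eqx_w * (eqx_w * eqx_w * conj x + eqx_l a (1, 1)) := by ring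
        _ = _ := by rw [hx']
    have k1 : eqx_w * conj x + eqx_l a (-1, 0) = eqx_w * eqx_w * x := by
      rw [← l2, l1, ← mul_add, k0, mul_assoc]
    have m0 : Φ (conj x) = Φ (eqx_w * x) := by rw [← k0, hΦ]
    have m1 : Φ (eqx_w * conj x) = Φ (eqx_w * eqx_w * x) := by rw [← k1, hΦ]
    have m2 : Φ (eqx_w * eqx_w * conj x) = Φ x := by
      conv_rhs => rw [← hx']
      rw [hΦ]
    rw [one_mul, one_mul, m0, m1, m2]
    ring

theorem eqx_h_cont {u : ℂ → ℝ} (hu : Continuous u) : Continuous (eqx_h u) := by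
  unfold eqx_h
  refine continuous_finsetSum _ (fun j _ => ?_)
  have hc1 : Continuous fun x : ℂ => eqx_w ^ j * x := by fun_prop
  have hc2 : Continuous fun x : ℂ => eqx_w ^ j * conj x := by fun_prop
  exact (hu.comp hc1).sub (hu.comp hc2)

theorem eqx_f_cont {a : ℝ} (ha : 0 < a) {u : ℂ → ℝ} (hu : Continuous u)
    (h0 : ∀ x, x ∉ eqtri a → u x = 0) : Continuous (eqx_f a u) := by
  rw [continuous_iff_continuousAt]
  intro x₀
  have h1 : eqx_f a u =ᶠ[𝓝 x₀] fun x => ∑ p ∈ eqx_F a (‖x₀‖ + 1 + a), eqx_h u (x - eqx_l a p) := by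
    filter_upwards [Metric.ball_mem_nhds x₀ one_pos] with x hx
    refine eqx_f_fin ha h0 ?_
    have h2 := norm_sub_norm_le x x₀
    rw [Metric.mem_ball, dist_eq_norm] at hx
    linarith
  have h2 : Continuous fun x => ∑ p ∈ eqx_F a (‖x₀‖ + 1 + a), eqx_h u (x - eqx_l a p) :=
    continuous_finsetSum _ (fun p _ => (eqx_h_cont hu).comp (continuous_id.sub continuous_const))
  exact h2.continuousAt.congr h1.symm

theorem eqx_weak {a lam : ℝ} (ha : 0 < a) {u : ℂ → ℝ} (hu : Wat (eqtri a) lam u) {φ : ℂ → ℝ}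
    (hφ : SC φ) : ∫ x, eqx_f a u x * (la φ x + lam * φ x) = 0 := by
  obtain ⟨R, hR⟩ := (hφ.cs.isCompact.isBounded).subset_closedBall 0
  have hφ0 : ∀ x, R < ‖x‖ → x ∉ tsupport φ := by
    intro x hx h
    have := hR h
    rw [mem_closedBall_zero_iff] at this
    linarith
  have hφ1 : ∀ x, R < ‖x‖ → φ x = 0 := fun x hx => image_eq_zero_of_notMem_tsupport (hφ0 x hx)
  have hla0 : ∀ x, R < ‖x‖ → la φ x = 0 := by
    intro x hx
    have h1 : φ =ᶠ[𝓝 x] fun _ => (0 : ℝ) := by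
      filter_upwards [(isClosed_tsupport φ).isOpen_compl.mem_nhds (hφ0 x hx)] with y hy
      exact image_eq_zero_of_notMem_tsupport hy
    rw [la_congr h1, eqx_zero]
  set F := eqx_F a (R + a) with hF
  have hφp : ∀ p : ℤ × ℤ, SC (fun x => φ (x + eqx_l a p)) := by
    intro p
    refine ⟨hφ.sm.comp (contDiff_id.add contDiff_const), ?_⟩
    exact hφ.cs.comp_homeomorph (Homeomorph.addRight (eqx_l a p))
  obtain ⟨hχ, hlaχ⟩ := eqx_sum hφp F
  have hhc := eqx_h_cont hu.cont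
  have s1 : ∫ x, eqx_f a u x * (la φ x + lam * φ x) =
      ∑ p ∈ F, ∫ x, eqx_h u (x - eqx_l a p) * (la φ x + lam * φ x) := by
    rw [← integral_finsetSum]
    · refine integral_congr_ae (Eventually.of_forall fun x => ?_)
      simp only
      rw [← Finset.sum_mul]
      by_cases hx : ‖x‖ ≤ R
      · rw [eqx_f_fin ha hu.out hx]
      · rw [not_le] at hx
        rw [hφ1 x hx, hla0 x hx, mul_zero, add_zero, mul_zero, mul_zero]
    · intro p _
      exact tri_refl_ig (hhc.comp (continuous_id.sub continuous_const)) hφ lam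
  have s2 : ∀ p : ℤ × ℤ, ∫ x, eqx_h u (x - eqx_l a p) * (la φ x + lam * φ x) =
      ∫ x, eqx_h u x * (la (fun x => φ (x + eqx_l a p)) x + lam * φ (x + eqx_l a p)) := by
    intro p
    rw [← integral_sub_right_eq_self (fun x => eqx_h u x *
      (la (fun x => φ (x + eqx_l a p)) x + lam * φ (x + eqx_l a p))) (eqx_l a p)]
    refine integral_congr_ae (Eventually.of_forall fun x => ?_)
    simp only
    rw [Pool.Agent.R227.SA.la_trans, sub_add_cancel]
  have s3 : ∑ p ∈ F, ∫ x, eqx_h u x * (la (fun x => φ (x + eqx_l a p)) x +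
      lam * φ (x + eqx_l a p)) = ∫ x, eqx_h u x * (la (fun x => ∑ p ∈ F, φ (x + eqx_l a p)) x +
        lam * ∑ p ∈ F, φ (x + eqx_l a p)) := by
    rw [← integral_finsetSum]
    · refine integral_congr_ae (Eventually.of_forall fun x => ?_)
      simp only
      rw [← Finset.mul_sum, Finset.sum_add_distrib, ← hlaχ, ← Finset.mul_sum]
    · intro p _
      exact tri_refl_ig hhc (hφp p) lam
  rw [s1, Finset.sum_congr rfl (fun p _ => s2 p), s3]
  obtain ⟨q1, q2⟩ := eqx_fold hu.cont hχ lam eqx_w_norm 3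
  have s4 : ∫ x, eqx_h u x * (la (fun x => ∑ p ∈ F, φ (x + eqx_l a p)) x +
      lam * ∑ p ∈ F, φ (x + eqx_l a p)) = _ := q2
  rw [s4]
  refine green_bdry (eqx_open a) ?_ hu q1 ?_
  · refine (Metric.isBounded_ball (x := (0 : ℂ)) (r := a)).subset ?_
    intro x hx
    rw [mem_ball_zero_iff]
    exact eqx_norm_lt hx
  · intro x hx
    obtain ⟨n1, n2⟩ := eqx_front hx
    have hP : ∀ y : ℂ, ‖y‖ = ‖x‖ → ∑ p ∈ F, φ (y + eqx_l a p) = eqx_P a φ y := by
      intro y hy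
      rw [eqx_P_fin ha hφ1 (b := a) (by rw [hy]; exact n1)]
    have hm := eqx_mirror (Φ := eqx_P a φ) (fun q x => eqx_P_per a φ q x) n2
    rw [← hm]
    refine Finset.sum_congr rfl (fun j _ => ?_)
    have hn : ‖eqx_w ^ j‖ = 1 := by rw [norm_pow, eqx_w_norm, one_pow]
    rw [hP, hP]
    · rw [norm_mul, hn, one_mul, Complex.norm_conj]
    · rw [norm_mul, Complex.norm_conj, hn, one_mul]

/-- TARGET: periodic extension of the eigenfunctions of an equilateral triangle. -/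
theorem eq_ext {a lam : ℝ} (ha : 0 < a) (hlam : 0 < lam) {u : ℂ → ℝ}
    (hu : Wat (eqtri a) lam u) :
    ∃ f : ℂ → ℝ, (∀ x ∈ eqtri a, f x = u x) ∧ ContDiff ℝ ∞ f ∧
      (∀ x, la f x = -(lam * f x)) ∧ (∀ x, f (x + √3 * a * Complex.I) = f x) ∧
      ∀ x, f (x + a * (3 / 2 - √3 / 2 * Complex.I)) = f x := by
  have hreg := reg isOpen_univ hlam (eqx_f_cont ha hu.cont hu.out)
    (fun φ hφ _ => eqx_weak ha hu hφ)
  have hloc : ∀ x₀ : ℂ, ∃ U : ℂ → ℝ, SC U ∧ eqx_f a u =ᶠ[𝓝 x₀] U ∧ la U x₀ = -(lam * U x₀) := by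
    intro x₀
    obtain ⟨r, hr, U, hU, -, h⟩ := hreg x₀ (mem_univ _)
    refine ⟨U, hU, ?_, (h x₀ (Metric.mem_ball_self hr)).2⟩
    filter_upwards [Metric.ball_mem_nhds x₀ hr] with x hx
    exact (h x hx).1
  refine ⟨eqx_f a u, fun x hx => eqx_f_on ha hu.out hx, ?_, ?_, ?_, ?_⟩
  · rw [contDiff_iff_contDiffAt]
    intro x₀
    obtain ⟨U, hU, h1, -⟩ := hloc x₀
    exact hU.sm.contDiffAt.congr_of_eventuallyEq h1
  · intro x₀
    obtain ⟨U, hU, h1, h2⟩ := hloc x₀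
    rw [la_congr h1, h2, h1.self_of_nhds]
  · intro x
    have h1 : (√3 * a * Complex.I : ℂ) = eqx_l a (1, 0) := by
      apply Complex.ext
      · simp [eqx_l]
      · simp [eqx_l]
    rw [h1, eqx_f_per]
  · intro x
    have h1 : (a * (3 / 2 - √3 / 2 * Complex.I) : ℂ) = eqx_l a (0, 1) := by
      apply Complex.ext
      · simp [eqx_l]
        ring
      · simp [eqx_l]
        ring
    rw [h1, eqx_f_per]

end Pool.Agent.Helper327_Drum
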