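import Pool.Agent.Helper327_Drum.BDefs
import Pool.Agent.R227.SA11
import Pool.Agent.R227.SA9

/-
JOB EQ2 (owner helper327, problem MP_d92c84_an). All imports are on origin/main.
-/

set_option autoImplicit false
open MeasureTheory Set Filter Topology ComplexConjugate
open scoped ContDiff InnerProductSpace

namespace Pool.Agent.Helper327_Drum

open Pool.Agent.TH298.Sch (dd SC X)
open Pool.Agent.R227.SA (la Wat Dat)

/-
`la f x = dd 1 (dd 1 f) x + dd I (dd I f) x` (the Laplacian), `dd h f x = fderiv ℝ f x h`, `ip x y` (BDefs.lean) the real inner product. `fourier_uniq` (R227/SA11.lean): uniqueness for Fourier series in one variable.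
Plain proof. k₁, k₂: the dual basis, ip l_i k_j = 2π if i = j, 0 otherwise. Put g (s, t) = f (s l₁ + t l₂), 1-periodic in s and t. For p ∈ ℤ² let e_p (x) = exp (-I ip x (p₁ k₁ + p₂ k₂)) and
c_p = ∫_0^1 ∫_0^1 g(s,t) exp (-2πI (p₁ s + p₂ t)) ds dt (this is f e_p averaged over a period cell). The Laplacian is a constant coefficient second order operator in s, t; integrating by parts twice over the periods (no boundary
terms) gives average of (la f) e_p = -‖p₁ k₁ + p₂ k₂‖² c_p, and it is also -lam c_p. So c_p = 0 unless ‖p₁ k₁ + p₂ k₂‖² = lam; F = the finite set of the p with equality (‖p₁k₁+p₂k₂‖² is a positive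
definite quadratic form). The continuous function g - Σ_{p ∈ F} c_p exp (2πI (p₁ s + p₂ t)) has all Fourier coefficients 0, so it vanishes (one variable at a time by `fourier_uniq` for real and imaginary parts, or Mathlib's Fourier
series on AddCircle). Take real parts: a p = Re c_p, b p = -Im c_p.
(An alternative to integrating by parts in two variables: for fixed unit periods use that ∫ over a period of a derivative of a periodic function is 0.)
-/

open Complex (I)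

lemma four1 {h : ℝ → ℂ} (hc : Continuous h) (hp : ∀ s, h (s + 1) = h s)
    (h0 : ∀ n : ℤ, ∫ s in (0 : ℝ)..1, h s * Complex.exp (-(2 * Real.pi * I * n * s)) = 0) :
    ∀ s, h s = 0 := by
  have hP : Function.Periodic h 1 := hp
  have : Fact ((0 : ℝ) < 1) := ⟨one_pos⟩
  let H : C(AddCircle (1 : ℝ), ℂ) := ⟨hP.lift, continuous_coinduced_dom.mpr hc⟩
  have hco : ∀ n : ℤ, fourierCoeff H n = 0 := by
    intro n
    rw [fourierCoeff_eq_intervalIntegral H n 0]
    have : ∀ s : ℝ, fourier (-n) (s : AddCircle (1 : ℝ)) • H s =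
        h s * Complex.exp (-(2 * Real.pi * I * n * s)) := by
      intro s
      rw [fourier_coe_apply, smul_eq_mul, mul_comm]
      congr 1
      congr 1
      push_cast
      ring
    simp only [this, zero_add, h0, smul_zero]
  have hs := has_pointwise_sum_fourier_series_of_summable (f := H)
    (by rw [funext hco]; exact summable_zero)
  intro s
  have h1 := hs (s : AddCircle (1 : ℝ))
  simp only [hco, zero_smul] at h1
  exact h1.unique hasSum_zero

/-- the double integral over the unit square -/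
noncomputable def JJ (G : ℝ → ℝ → ℂ) : ℂ := ∫ t in (0 : ℝ)..1, ∫ s in (0 : ℝ)..1, G s t

lemma JJ_cont {G : ℝ → ℝ → ℂ} (hG : Continuous fun p : ℝ × ℝ => G p.1 p.2) :
    Continuous (fun t => ∫ s in (0 : ℝ)..1, G s t) := by
  refine intervalIntegral.continuous_parametric_intervalIntegral_of_continuous'
    (f := fun t s => G s t) ?_ 0 1
  exact hG.comp (by fun_prop : Continuous fun p : ℝ × ℝ => (p.2, p.1))

lemma JJ_cont1 {G : ℝ → ℝ → ℂ} (hG : Continuous fun p : ℝ × ℝ => G p.1 p.2) (t : ℝ) :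
    Continuous (fun s => G s t) :=
  hG.comp (by fun_prop : Continuous fun s : ℝ => (s, t))

lemma JJ_mul (c : ℂ) (G : ℝ → ℝ → ℂ) : JJ (fun s t => c * G s t) = c * JJ G := by
  unfold JJ
  simp only [intervalIntegral.integral_const_mul]

lemma JJ_add {G H : ℝ → ℝ → ℂ} (hG : Continuous fun p : ℝ × ℝ => G p.1 p.2)
    (hH : Continuous fun p : ℝ × ℝ => H p.1 p.2) :
    JJ (fun s t => G s t + H s t) = JJ G + JJ H := by
  unfold JJ
  have e : ∀ t : ℝ, ∫ s in (0 : ℝ)..1, (G s t + H s t) =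
      (∫ s in (0 : ℝ)..1, G s t) + ∫ s in (0 : ℝ)..1, H s t := fun t =>
    intervalIntegral.integral_add ((JJ_cont1 hG t).intervalIntegrable _ _)
      ((JJ_cont1 hH t).intervalIntegrable _ _)
  simp only [e]
  exact intervalIntegral.integral_add ((JJ_cont hG).intervalIntegrable _ _)
      ((JJ_cont hH).intervalIntegrable _ _)

lemma JJ_sum {ι : Type} (F : Finset ι) (G : ι → ℝ → ℝ → ℂ)
    (hG : ∀ i, Continuous fun p : ℝ × ℝ => G i p.1 p.2) :
    JJ (fun s t => ∑ i ∈ F, G i s t) = ∑ i ∈ F, JJ (G i) := by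
  classical
  induction F using Finset.induction_on with
  | empty => simp [JJ]
  | insert a F ha ih =>
    simp only [Finset.sum_insert ha]
    rw [JJ_add (hG a) (by fun_prop), ih]

lemma JJ_swap {G : ℝ → ℝ → ℂ} (hG : Continuous fun p : ℝ × ℝ => G p.1 p.2) :
    JJ G = JJ (fun s t => G t s) := by
  unfold JJ
  refine intervalIntegral_intervalIntegral_swap (F := fun t s => G s t) ?_
  have hc : Continuous (fun p : ℝ × ℝ => G p.2 p.1) :=
    hG.comp (by fun_prop : Continuous fun p : ℝ × ℝ => (p.2, p.1))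
  have h1 : IntegrableOn (fun p : ℝ × ℝ => G p.2 p.1) (Icc 0 1 ×ˢ Icc 0 1) :=
    hc.continuousOn.integrableOn_compact (isCompact_Icc.prod isCompact_Icc)
  rw [uIoc_of_le zero_le_one]
  exact h1.mono_set (prod_mono Ioc_subset_Icc_self Ioc_subset_Icc_self)

/-- the character -/
noncomputable def ex (κ x : ℂ) : ℂ := Complex.exp (-(I * (ip x κ : ℝ)))

lemma ip_cont (κ : ℂ) : Continuous fun x => ip x κ := by
  unfold ip
  fun_prop

lemma ex_cont (κ : ℂ) : Continuous (ex κ) := by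
  unfold ex
  have := ip_cont κ
  fun_prop

lemma ip_lin (κ x y : ℂ) (s : ℝ) : ip (s * x + y) κ = s * ip x κ + ip y κ := by
  unfold ip
  simp
  ring

lemma ex_add (κ x y : ℂ) : ex κ (x + y) = ex κ x * ex κ y := by
  unfold ex
  rw [← Complex.exp_add]
  congr 1
  have := ip_lin κ x y 1
  simp only [Complex.ofReal_one, one_mul] at this
  rw [this]
  push_cast
  ring

lemma ibp1 {φ : ℂ → ℝ} (hφ : ContDiff ℝ ∞ φ) {l κ : ℂ} (hper : ∀ x, φ (x + l) = φ x)
    (hκ : ex κ l = 1) (y : ℂ) :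
    ∫ s in (0 : ℝ)..1, (dd l φ (s * l + y) : ℂ) * ex κ (s * l + y) =
      I * (ip l κ : ℝ) * ∫ s in (0 : ℝ)..1, (φ (s * l + y) : ℂ) * ex κ (s * l + y) := by
  have hdφ : Continuous (dd l φ) := by
    have h1 : ContDiff ℝ ∞ (fderiv ℝ φ) := hφ.fderiv_right (by simp)
    exact (h1.clm_apply contDiff_const).continuous
  have hcφ : Continuous φ := hφ.continuous
  have hex := ex_cont κ
  have hd : ∀ s : ℝ, HasDerivAt (fun s : ℝ => (φ (s * l + y) : ℂ) * ex κ (s * l + y))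
      ((dd l φ (s * l + y) : ℂ) * ex κ (s * l + y) -
        I * (ip l κ : ℝ) * ((φ (s * l + y) : ℂ) * ex κ (s * l + y))) s := by
    intro s
    have h1 : HasDerivAt (fun s : ℝ => (s : ℂ) * l + y) l s := by
      have := ((Complex.ofRealCLM.hasDerivAt (x := s)).mul_const l).add_const y
      simpa using this
    have h2 : HasDerivAt (fun s : ℝ => φ (s * l + y)) (dd l φ (s * l + y)) s :=
      (hφ.differentiable (by simp) _).hasFDerivAt.comp_hasDerivAt s h1
    have h3 := h2.ofReal_comp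
    have h4 : HasDerivAt (fun s : ℝ => ex κ (s * l + y))
        (ex κ (s * l + y) * (-(I * (ip l κ : ℝ)))) s := by
      have h5 : (fun s : ℝ => ex κ (s * l + y)) =
          fun s : ℝ => Complex.exp (-(I * ((s * ip l κ + ip y κ : ℝ) : ℂ))) := by
        funext s
        unfold ex
        rw [ip_lin]
      have h6 : HasDerivAt (fun s : ℝ => s * ip l κ + ip y κ) (ip l κ) s := by
        simpa using ((hasDerivAt_id s).mul_const (ip l κ)).add_const (ip y κ)
      rw [h5]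
      have h7 := (((h6.ofReal_comp).const_mul I).neg).cexp
      refine h7.congr_deriv ?_
      unfold ex
      rw [ip_lin]
      rfl
    refine (h3.mul h4).congr_deriv ?_
    ring
  have hi := intervalIntegral.integral_eq_sub_of_hasDerivAt (a := 0) (b := 1) (fun s _ => hd s)
    ((by fun_prop : Continuous fun s : ℝ => (dd l φ (s * l + y) : ℂ) * ex κ (s * l + y) -
        I * (ip l κ : ℝ) * ((φ (s * l + y) : ℂ) * ex κ (s * l + y))).intervalIntegrable _ _)
  rw [intervalIntegral.integral_sub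
    ((by fun_prop : Continuous fun s : ℝ =>
      (dd l φ (s * l + y) : ℂ) * ex κ (s * l + y)).intervalIntegrable _ _)
    ((by fun_prop : Continuous fun s : ℝ =>
      I * (ip l κ : ℝ) * ((φ (s * l + y) : ℂ) * ex κ (s * l + y))).intervalIntegrable _ _),
    intervalIntegral.integral_const_mul] at hi
  have e1 : (φ ((1 : ℝ) * l + y) : ℂ) * ex κ ((1 : ℝ) * l + y) =
      (φ ((0 : ℝ) * l + y) : ℂ) * ex κ ((0 : ℝ) * l + y) := by
    simp only [Complex.ofReal_one, one_mul, Complex.ofReal_zero, zero_mul, zero_add]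
    rw [ex_add, hκ, one_mul, add_comm l y, hper]
  rw [e1, sub_self] at hi
  exact sub_eq_zero.1 hi

/-- the Fourier coefficient over the period cell -/
noncomputable def eqcc (l₁ l₂ κ : ℂ) (φ : ℂ → ℝ) : ℂ :=
  JJ (fun s t => (φ (s * l₁ + t * l₂) : ℂ) * ex κ (s * l₁ + t * l₂))

lemma eqcc_cont {l₁ l₂ κ : ℂ} {φ : ℂ → ℝ} (hφ : Continuous φ) :
    Continuous fun p : ℝ × ℝ => (φ (p.1 * l₁ + p.2 * l₂) : ℂ) * ex κ (p.1 * l₁ + p.2 * l₂) := by
  have hex := ex_cont κ
  fun_prop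

lemma dd_sm {φ : ℂ → ℝ} (hφ : ContDiff ℝ ∞ φ) (v : ℂ) : ContDiff ℝ ∞ (dd v φ) := by
  have h1 : ContDiff ℝ ∞ (fderiv ℝ φ) := hφ.fderiv_right (by simp)
  exact h1.clm_apply contDiff_const

lemma dd_per {φ : ℂ → ℝ} {l : ℂ} (h : ∀ x, φ (x + l) = φ x) (v : ℂ) :
    ∀ x, dd v φ (x + l) = dd v φ x := by
  intro x
  unfold dd
  rw [← fderiv_comp_add_right]
  simp only [h]

lemma eqcc_dd1 {φ : ℂ → ℝ} (hφ : ContDiff ℝ ∞ φ) {l₁ l₂ κ : ℂ} (h1 : ∀ x, φ (x + l₁) = φ x)
    (hκ : ex κ l₁ = 1) : eqcc l₁ l₂ κ (dd l₁ φ) = I * (ip l₁ κ : ℝ) * eqcc l₁ l₂ κ φ := by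
  unfold eqcc JJ
  simp only [fun t : ℝ => ibp1 hφ h1 hκ (t * l₂)]
  rw [intervalIntegral.integral_const_mul]

lemma eqcc_swap {φ : ℂ → ℝ} (hφ : Continuous φ) (l₁ l₂ κ : ℂ) :
    eqcc l₁ l₂ κ φ = eqcc l₂ l₁ κ φ := by
  unfold eqcc
  rw [JJ_swap (eqcc_cont hφ)]
  congr 1
  funext s t
  rw [add_comm]

lemma eqcc_dd2 {φ : ℂ → ℝ} (hφ : ContDiff ℝ ∞ φ) {l₁ l₂ κ : ℂ} (h2 : ∀ x, φ (x + l₂) = φ x)
    (hκ : ex κ l₂ = 1) : eqcc l₁ l₂ κ (dd l₂ φ) = I * (ip l₂ κ : ℝ) * eqcc l₁ l₂ κ φ := by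
  rw [eqcc_swap (dd_sm hφ l₂).continuous, eqcc_dd1 hφ h2 hκ, eqcc_swap hφ.continuous l₁ l₂]

lemma eqcc_lin {φ ψ : ℂ → ℝ} (hφ : Continuous φ) (hψ : Continuous ψ) (l₁ l₂ κ : ℂ) (a b : ℝ) :
    eqcc l₁ l₂ κ (fun x => a * φ x + b * ψ x) = a * eqcc l₁ l₂ κ φ + b * eqcc l₁ l₂ κ ψ := by
  unfold eqcc
  rw [← JJ_mul, ← JJ_mul, ← JJ_add]
  · congr 1
    funext s t
    push_cast
    ring
  · exact continuous_const.mul (eqcc_cont hφ)
  · exact continuous_const.mul (eqcc_cont hψ)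

lemma eqcc_dd {φ : ℂ → ℝ} (hφ : ContDiff ℝ ∞ φ) {l₁ l₂ κ : ℂ} (h1 : ∀ x, φ (x + l₁) = φ x)
    (h2 : ∀ x, φ (x + l₂) = φ x) (hκ1 : ex κ l₁ = 1) (hκ2 : ex κ l₂ = 1) {v : ℂ} {a b : ℝ}
    (hv : v = a * l₁ + b * l₂) :
    eqcc l₁ l₂ κ (dd v φ) = I * (ip v κ : ℝ) * eqcc l₁ l₂ κ φ := by
  have e : dd v φ = fun x => a * dd l₁ φ x + b * dd l₂ φ x := by
    funext x
    unfold dd
    have : v = a • l₁ + b • l₂ := by
      rw [hv, Complex.real_smul, Complex.real_smul]
    rw [this, map_add, map_smul, map_smul, smul_eq_mul, smul_eq_mul]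
  rw [e, eqcc_lin (dd_sm hφ l₁).continuous (dd_sm hφ l₂).continuous, eqcc_dd1 hφ h1 hκ1,
    eqcc_dd2 hφ h2 hκ2, hv, ip_lin]
  have e2 : ip (b * l₂) κ = b * ip l₂ κ := by
    unfold ip
    simp
    ring
  rw [e2]
  push_cast
  ring

lemma eqcc_la {f : ℂ → ℝ} (hf : ContDiff ℝ ∞ f) {l₁ l₂ κ : ℂ} (h1 : ∀ x, f (x + l₁) = f x)
    (h2 : ∀ x, f (x + l₂) = f x) (hκ1 : ex κ l₁ = 1) (hκ2 : ex κ l₂ = 1)
    (hsp : ∀ v : ℂ, ∃ a b : ℝ, v = a * l₁ + b * l₂) :
    eqcc l₁ l₂ κ (la f) = -((‖κ‖ ^ 2 : ℝ) : ℂ) * eqcc l₁ l₂ κ f := by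
  have key : ∀ v : ℂ, eqcc l₁ l₂ κ (dd v (dd v f)) = -((ip v κ ^ 2 : ℝ) : ℂ) * eqcc l₁ l₂ κ f := by
    intro v
    obtain ⟨a, b, hv⟩ := hsp v
    rw [eqcc_dd (dd_sm hf v) (dd_per h1 v) (dd_per h2 v) hκ1 hκ2 hv, eqcc_dd hf h1 h2 hκ1 hκ2 hv]
    push_cast
    have : I * I = -1 := Complex.I_mul_I
    linear_combination ((ip v κ : ℝ) : ℂ) ^ 2 * eqcc l₁ l₂ κ f * this
  have e : la f = fun x => (1 : ℝ) * dd 1 (dd 1 f) x + (1 : ℝ) * dd I (dd I f) x := by
    funext x
    unfold la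
    ring
  rw [e, eqcc_lin (dd_sm (dd_sm hf _) _).continuous (dd_sm (dd_sm hf _) _).continuous, key, key]
  have e2 : ‖κ‖ ^ 2 = ip 1 κ ^ 2 + ip I κ ^ 2 := by
    rw [← Complex.normSq_eq_norm_sq, Complex.normSq_apply]
    unfold ip
    simp
    ring
  rw [e2]
  push_cast
  ring

/-- uniqueness on the square -/
lemma four2 {G : ℝ → ℝ → ℂ} (hG : Continuous fun p : ℝ × ℝ => G p.1 p.2)
    (h1 : ∀ s t, G (s + 1) t = G s t) (h2 : ∀ s t, G s (t + 1) = G s t)
    (h0 : ∀ m n : ℤ, JJ (fun s t => G s t *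
      (Complex.exp (-(2 * Real.pi * I * m * s)) * Complex.exp (-(2 * Real.pi * I * n * t)))) = 0) :
    ∀ s t, G s t = 0 := by
  have a1 : ∀ (m : ℤ) (t : ℝ), ∫ s in (0 : ℝ)..1,
      G s t * Complex.exp (-(2 * Real.pi * I * m * s)) = 0 := by
    intro m
    have hc : Continuous fun p : ℝ × ℝ =>
        G p.1 p.2 * Complex.exp (-(2 * Real.pi * I * m * p.1)) := by fun_prop
    refine four1 (h := fun t => ∫ s in (0 : ℝ)..1, G s t * Complex.exp (-(2 * Real.pi * I * m * s)))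
      (JJ_cont (G := fun s t => G s t * Complex.exp (-(2 * Real.pi * I * m * s))) hc) ?_ ?_
    · intro t
      simp only [h2]
    · intro n
      have := h0 m n
      unfold JJ at this
      rw [← this]
      congr 1
      funext t
      rw [← intervalIntegral.integral_mul_const]
      congr 1
      funext s
      ring
  intro s t
  exact four1 (h := fun s => G s t) (JJ_cont1 hG t) (fun s => h1 s t) (fun m => a1 m t) s

lemma int_E (m : ℤ) : ∫ s in (0 : ℝ)..1, Complex.exp (2 * Real.pi * I * m * s) =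
    if m = 0 then 1 else 0 := by
  split_ifs with h
  · subst h
    simp
  · have hne : (2 * Real.pi * I * m : ℂ) ≠ 0 := by
      have : (m : ℂ) ≠ 0 := by exact_mod_cast h
      have h2 : (2 * Real.pi * I : ℂ) ≠ 0 := Complex.two_pi_I_ne_zero
      exact mul_ne_zero h2 this
    rw [integral_exp_mul_complex hne]
    have e1 : Complex.exp (2 * Real.pi * I * m * (1 : ℝ)) = 1 := by
      have := Complex.exp_int_mul_two_pi_mul_I m
      rw [← this]
      congr 1
      push_cast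
      ring
    rw [e1]
    simp

lemma JJ_E (a b : ℤ) : JJ (fun s t => Complex.exp (2 * Real.pi * I * a * s) *
    Complex.exp (2 * Real.pi * I * b * t)) = if a = 0 ∧ b = 0 then 1 else 0 := by
  unfold JJ
  simp only [intervalIntegral.integral_mul_const, intervalIntegral.integral_const_mul, int_E]
  split_ifs with h1 h2 h3 h4 h5 <;> simp_all

/-- TARGET: doubly periodic solutions are finite sums of plane waves. -/
theorem periodic_modes {l₁ l₂ : ℂ} (hl : l₁.re * l₂.im - l₁.im * l₂.re ≠ 0) {f : ℂ → ℝ}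
    (hf : ContDiff ℝ ∞ f) {lam : ℝ} (hlam : 0 < lam) (hla : ∀ x, la f x = -(lam * f x))
    (h1 : ∀ x, f (x + l₁) = f x) (h2 : ∀ x, f (x + l₂) = f x) :
    ∃ (k₁ k₂ : ℂ) (F : Finset (ℤ × ℤ)) (a b : ℤ × ℤ → ℝ),
      k₁.re * k₂.im - k₁.im * k₂.re ≠ 0 ∧
      (∀ p ∈ F, ‖(p.1 : ℂ) * k₁ + (p.2 : ℂ) * k₂‖ ^ 2 = lam) ∧
      ∀ x, f x = ∑ p ∈ F, (a p * Real.cos (ip x ((p.1 : ℂ) * k₁ + (p.2 : ℂ) * k₂)) +
        b p * Real.sin (ip x ((p.1 : ℂ) * k₁ + (p.2 : ℂ) * k₂))) := by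
  classical
  have hpi := Real.pi_pos
  obtain ⟨D, hD⟩ : ∃ D, D = l₁.re * l₂.im - l₁.im * l₂.re := ⟨_, rfl⟩
  have hD0 : D ≠ 0 := by rw [hD]; exact hl
  obtain ⟨k₁, hk1⟩ : ∃ k₁ : ℂ, k₁ = ⟨2 * Real.pi / D * l₂.im, -(2 * Real.pi / D * l₂.re)⟩ := ⟨_, rfl⟩
  obtain ⟨k₂, hk2⟩ : ∃ k₂ : ℂ, k₂ = ⟨-(2 * Real.pi / D * l₁.im), 2 * Real.pi / D * l₁.re⟩ := ⟨_, rfl⟩
  have i11 : ip l₁ k₁ = 2 * Real.pi := by
    rw [hk1]
    unfold ip
    field_simp
    rw [hD]
    ring
  have i12 : ip l₁ k₂ = 0 := by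
    rw [hk2]
    unfold ip
    ring
  have i21 : ip l₂ k₁ = 0 := by
    rw [hk1]
    unfold ip
    ring
  have i22 : ip l₂ k₂ = 2 * Real.pi := by
    rw [hk2]
    unfold ip
    field_simp
    rw [hD]
    ring
  obtain ⟨κ, hκ⟩ : ∃ κ : ℤ × ℤ → ℂ, κ = fun p => (p.1 : ℂ) * k₁ + (p.2 : ℂ) * k₂ := ⟨_, rfl⟩
  have hκp : ∀ p : ℤ × ℤ, κ p = (p.1 : ℂ) * k₁ + (p.2 : ℂ) * k₂ := fun p => by rw [hκ]
  have jx : ∀ (x : ℂ) (p : ℤ × ℤ), ip x (κ p) = p.1 * ip x k₁ + p.2 * ip x k₂ := by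
    intro x p
    rw [hκp]
    unfold ip
    simp
    ring
  have j1 : ∀ p : ℤ × ℤ, ip l₁ (κ p) = 2 * Real.pi * p.1 := by
    intro p
    rw [jx, i11, i12]
    ring
  have j2 : ∀ p : ℤ × ℤ, ip l₂ (κ p) = 2 * Real.pi * p.2 := by
    intro p
    rw [jx, i21, i22]
    ring
  have jst : ∀ (s t : ℝ) (p : ℤ × ℤ), ip (s * l₁ + t * l₂) (κ p) =
      2 * Real.pi * p.1 * s + 2 * Real.pi * p.2 * t := by
    intro s t p
    have e2 : ip (t * l₂) (κ p) = t * ip l₂ (κ p) := by
      unfold ip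
      simp
      ring
    rw [ip_lin, e2, j1, j2]
    ring
  have hexst : ∀ (s t : ℝ) (p : ℤ × ℤ), ex (κ p) (s * l₁ + t * l₂) =
      Complex.exp (-(2 * Real.pi * I * p.1 * s)) * Complex.exp (-(2 * Real.pi * I * p.2 * t)) := by
    intro s t p
    unfold ex
    rw [jst, ← Complex.exp_add]
    congr 1
    push_cast
    ring
  have hex1 : ∀ p, ex (κ p) l₁ = 1 := by
    intro p
    unfold ex
    rw [j1]
    have := Complex.exp_int_mul_two_pi_mul_I (-p.1)
    rw [← this]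
    congr 1
    push_cast
    ring
  have hex2 : ∀ p, ex (κ p) l₂ = 1 := by
    intro p
    unfold ex
    rw [j2]
    have := Complex.exp_int_mul_two_pi_mul_I (-p.2)
    rw [← this]
    congr 1
    push_cast
    ring
  have hsp : ∀ v : ℂ, ∃ a b : ℝ, v = a * l₁ + b * l₂ := by
    intro v
    refine ⟨(v.re * l₂.im - v.im * l₂.re) / D, (l₁.re * v.im - l₁.im * v.re) / D, ?_⟩
    apply Complex.ext
    · simp
      field_simp
      rw [hD]
      ring
    · simp
      field_simp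
      rw [hD]
      ring
  have hcs : ∀ x y : ℂ, |ip x y| ≤ ‖x‖ * ‖y‖ := by
    intro x y
    have e : ip x y = (x * (starRingEnd ℂ) y).re := by
      unfold ip
      simp
    rw [e]
    calc |(x * (starRingEnd ℂ) y).re| ≤ ‖x * (starRingEnd ℂ) y‖ := Complex.abs_re_le_norm _
      _ = ‖x‖ * ‖y‖ := by rw [norm_mul, Complex.norm_conj]
  have hfin : {p : ℤ × ℤ | ‖κ p‖ ^ 2 = lam}.Finite := by
    have hb : ∀ (l : ℂ) (n : ℤ) (p : ℤ × ℤ), ip l (κ p) = 2 * Real.pi * n → ‖κ p‖ ^ 2 = lam →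
        |n| ≤ ⌈‖l‖ * Real.sqrt lam⌉ := by
      intro l n p h hp
      have e1 : ‖κ p‖ = Real.sqrt lam := by
        rw [← hp, Real.sqrt_sq (norm_nonneg _)]
      have e2 := hcs l (κ p)
      rw [h, e1, abs_mul, abs_of_pos (by positivity : (0 : ℝ) < 2 * Real.pi)] at e2
      have e3 : |(n : ℝ)| ≤ ‖l‖ * Real.sqrt lam := by
        have : (1 : ℝ) * |(n : ℝ)| ≤ 2 * Real.pi * |(n : ℝ)| := by
          apply mul_le_mul_of_nonneg_right _ (abs_nonneg _)
          linarith [Real.pi_gt_three]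
        linarith
      have e4 : ((|n| : ℤ) : ℝ) ≤ (⌈‖l‖ * Real.sqrt lam⌉ : ℝ) := by
        push_cast
        exact e3.trans (Int.le_ceil _)
      exact_mod_cast e4
    refine (Set.Finite.prod (Set.finite_Icc (-⌈‖l₁‖ * Real.sqrt lam⌉) ⌈‖l₁‖ * Real.sqrt lam⌉)
      (Set.finite_Icc (-⌈‖l₂‖ * Real.sqrt lam⌉) ⌈‖l₂‖ * Real.sqrt lam⌉)).subset ?_
    intro p hp
    exact ⟨abs_le.1 (hb l₁ p.1 p (j1 p) hp), abs_le.1 (hb l₂ p.2 p (j2 p) hp)⟩
  obtain ⟨F, hF⟩ : ∃ F : Finset (ℤ × ℤ), ∀ p, p ∈ F ↔ ‖κ p‖ ^ 2 = lam :=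
    ⟨hfin.toFinset, fun p => by simp⟩
  obtain ⟨c, hc⟩ : ∃ c : ℤ × ℤ → ℂ, ∀ p, c p = eqcc l₁ l₂ (κ p) f := ⟨_, fun p => rfl⟩
  have hc0 : ∀ p, p ∉ F → c p = 0 := by
    intro p hp
    have e1 := eqcc_la hf h1 h2 (hex1 p) (hex2 p) hsp
    have e2 : la f = fun x => (-lam) * f x + 0 * f x := by
      funext x
      rw [hla x]
      ring
    rw [e2, eqcc_lin hf.continuous hf.continuous, ← hc] at e1
    have e3 : ((‖κ p‖ ^ 2 - lam : ℝ) : ℂ) * c p = 0 := by
      push_cast at e1 ⊢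
      linear_combination e1
    rcases mul_eq_zero.1 e3 with h | h
    · exfalso
      apply hp
      rw [hF]
      have : ‖κ p‖ ^ 2 - lam = 0 := by exact_mod_cast h
      linarith
    · exact h
  -- the difference
  have hG := four2 (G := fun s t => (f (s * l₁ + t * l₂) : ℂ) - ∑ p ∈ F, c p *
    (Complex.exp (2 * Real.pi * I * p.1 * s) * Complex.exp (2 * Real.pi * I * p.2 * t)))
    (by
      have := hf.continuous
      fun_prop) ?_ ?_ ?_
  · refine ⟨k₁, k₂, F, fun p => (c p).re, fun p => -(c p).im, ?_, ?_, ?_⟩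
    · rw [hk1, hk2]
      simp only
      have : 2 * Real.pi / D * l₂.im * (2 * Real.pi / D * l₁.re) -
          -(2 * Real.pi / D * l₂.re) * -(2 * Real.pi / D * l₁.im) = (2 * Real.pi) ^ 2 / D := by
        field_simp
        rw [hD]
        ring
      rw [this]
      positivity
    · intro p hp
      rw [← hκp]
      exact (hF p).1 hp
    · intro x
      obtain ⟨s, t, hx⟩ := hsp x
      have e1 := hG s t
      have e2 : (f x : ℂ) = ∑ p ∈ F, c p * Complex.exp ((ip x (κ p) : ℝ) * I) := by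
        rw [← hx] at e1
        rw [sub_eq_zero.1 e1]
        refine Finset.sum_congr rfl fun p _ => ?_
        rw [hx, jst, ← Complex.exp_add]
        congr 2
        push_cast
        ring
      have e3 := congrArg Complex.re e2
      rw [Complex.ofReal_re, Complex.re_sum] at e3
      rw [e3]
      refine Finset.sum_congr rfl fun p _ => ?_
      rw [← hκp, Complex.mul_re, Complex.exp_ofReal_mul_I_re, Complex.exp_ofReal_mul_I_im]
      ring
  · intro s t
    have e1 : (((s + 1 : ℝ) : ℂ) * l₁ + t * l₂) = (s * l₁ + t * l₂) + l₁ := by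
      push_cast
      ring
    rw [e1, h1]
    congr 1
    refine Finset.sum_congr rfl fun p _ => ?_
    congr 2
    have : 2 * Real.pi * I * p.1 * ((s + 1 : ℝ) : ℂ) =
        2 * Real.pi * I * p.1 * s + p.1 * (2 * Real.pi * I) := by
      push_cast
      ring
    rw [this, Complex.exp_add, Complex.exp_int_mul_two_pi_mul_I, mul_one]
  · intro s t
    have e1 : ((s : ℂ) * l₁ + ((t + 1 : ℝ) : ℂ) * l₂) = (s * l₁ + t * l₂) + l₂ := by
      push_cast
      ring
    rw [e1, h2]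
    congr 1
    refine Finset.sum_congr rfl fun p _ => ?_
    congr 2
    have : 2 * Real.pi * I * p.2 * ((t + 1 : ℝ) : ℂ) =
        2 * Real.pi * I * p.2 * t + p.2 * (2 * Real.pi * I) := by
      push_cast
      ring
    rw [this, Complex.exp_add, Complex.exp_int_mul_two_pi_mul_I, mul_one]
  · intro m n
    have e0 : (fun s t : ℝ => ((f (s * l₁ + t * l₂) : ℂ) - ∑ p ∈ F, c p *
        (Complex.exp (2 * Real.pi * I * p.1 * s) * Complex.exp (2 * Real.pi * I * p.2 * t))) *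
        (Complex.exp (-(2 * Real.pi * I * m * s)) * Complex.exp (-(2 * Real.pi * I * n * t)))) =
        fun s t : ℝ => (f (s * l₁ + t * l₂) : ℂ) * ex (κ (m, n)) (s * l₁ + t * l₂) +
        ∑ p ∈ F, (-c p) * (Complex.exp (2 * Real.pi * I * ((p.1 - m : ℤ) : ℂ) * s) *
          Complex.exp (2 * Real.pi * I * ((p.2 - n : ℤ) : ℂ) * t)) := by
      funext s t
      rw [hexst, sub_mul, Finset.sum_mul, sub_eq_add_neg, ← Finset.sum_neg_distrib]
      congr 1
      refine Finset.sum_congr rfl fun p _ => ?_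
      have x1 : Complex.exp (2 * Real.pi * I * ((p.1 - m : ℤ) : ℂ) * s) =
          Complex.exp (2 * Real.pi * I * p.1 * s) * Complex.exp (-(2 * Real.pi * I * m * s)) := by
        rw [← Complex.exp_add]
        congr 1
        push_cast
        ring
      have x2 : Complex.exp (2 * Real.pi * I * ((p.2 - n : ℤ) : ℂ) * t) =
          Complex.exp (2 * Real.pi * I * p.2 * t) * Complex.exp (-(2 * Real.pi * I * n * t)) := by
        rw [← Complex.exp_add]
        congr 1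
        push_cast
        ring
      rw [x1, x2]
      ring
    rw [e0, JJ_add (eqcc_cont hf.continuous) (by fun_prop), JJ_sum F _ (fun p => by fun_prop)]
    have e1 : JJ (fun s t => (f (s * l₁ + t * l₂) : ℂ) * ex (κ (m, n)) (s * l₁ + t * l₂)) =
        c (m, n) := by
      rw [hc]
      rfl
    rw [e1]
    have e2 : ∀ p ∈ F, JJ (fun s t => (-c p) * (Complex.exp (2 * Real.pi * I * ((p.1 - m : ℤ) : ℂ) * s) *
          Complex.exp (2 * Real.pi * I * ((p.2 - n : ℤ) : ℂ) * t))) =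
          if p = (m, n) then -c p else 0 := by
      intro p _
      rw [JJ_mul, JJ_E]
      by_cases h : p = (m, n)
      · rw [if_pos h, if_pos ⟨by rw [h]; simp, by rw [h]; simp⟩, mul_one]
      · rw [if_neg h, if_neg, mul_zero]
        rintro ⟨ha, hb⟩
        apply h
        ext
        · simp only; omega
        · simp only; omega
    rw [Finset.sum_congr rfl e2, Finset.sum_ite_eq']
    split_ifs with h
    · ring
    · rw [hc0 _ h, add_zero]

end Pool.Agent.Helper327_Drum
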