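import Pool.Agent.Helper327_Drum.BDefs
import Pool.Agent.Helper327_Drum.Defs
import Pool.Agent.Helper327_Drum.Fin.H1
import Pool.Agent.Helper327_Drum.Fin.G1
import Pool.Agent.Helper327_Drum.Fin.G4

/-
JOB EQ3 (owner helper327, problem MP_d92c84_an). All imports are on origin/main.
-/

set_option autoImplicit false
open MeasureTheory Set Filter Topology ComplexConjugate
open scoped ContDiff InnerProductSpace

namespace Pool.Agent.Helper327_Drum

open Polynomial in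
/-- derivative in the direction `v`, as a polynomial -/
noncomputable def VC (N : ℕ) (E : Finset (ℤ × ℤ)) (c : ℤ × ℤ → ℂ) (v : ℝ × ℝ) : ℂ[X][X] :=
  ∑ ξ ∈ E, monomial (N + ξ.2).toNat (monomial (N + ξ.1).toNat (c ξ * ((pr v ξ : ℝ) : ℂ)))

open Polynomial in
theorem cf_VC {N : ℕ} {E : Finset (ℤ × ℤ)} (hN : ∀ p ∈ E, p.1.natAbs ≤ N ∧ p.2.natAbs ≤ N)
    (c : ℤ × ℤ → ℂ) (v : ℝ × ℝ) (q : ℕ × ℕ) :
    cf (VC N E c v) q = if ((q.1 : ℤ) - N, (q.2 : ℤ) - N) ∈ E then
      c ((q.1 : ℤ) - N, (q.2 : ℤ) - N) * ((pr v ((q.1 : ℤ) - N, (q.2 : ℤ) - N) : ℝ) : ℂ)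
      else 0 := by
  classical
  unfold cf VC
  rw [finsetSum_coeff, finsetSum_coeff]
  have h1 : ∀ ξ ∈ E, ((monomial (N + ξ.2).toNat (monomial (N + ξ.1).toNat
      (c ξ * ((pr v ξ : ℝ) : ℂ)))).coeff q.2).coeff q.1 =
      if ξ = ((q.1 : ℤ) - N, (q.2 : ℤ) - N) then c ξ * ((pr v ξ : ℝ) : ℂ) else 0 := by
    intro ξ hξ
    have h2 := hN _ hξ
    rw [coeff_monomial]
    by_cases h3 : ξ = ((q.1 : ℤ) - N, (q.2 : ℤ) - N)
    · rw [if_pos h3]
      have h4 : ξ.1 = (q.1 : ℤ) - N := by rw [h3]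
      have h5 : ξ.2 = (q.2 : ℤ) - N := by rw [h3]
      rw [if_pos (by omega), coeff_monomial, if_pos (by omega)]
    · rw [if_neg h3]
      split_ifs with h4
      · rw [coeff_monomial, if_neg]
        intro h5
        apply h3
        ext
        · simp only
          omega
        · simp only
          omega
      · rw [coeff_zero]
  rw [Finset.sum_congr rfl h1, Finset.sum_ite_eq']

open Polynomial in
theorem VC_lin (N : ℕ) (E : Finset (ℤ × ℤ)) (c : ℤ × ℤ → ℂ) (v : ℝ × ℝ) :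
    VC N E c v = C (C (v.1 : ℂ)) * VC N E c (1, 0) + C (C (v.2 : ℂ)) * VC N E c (0, 1) := by
  unfold VC
  rw [Finset.mul_sum, Finset.mul_sum, ← Finset.sum_add_distrib]
  apply Finset.sum_congr rfl
  intro ξ _
  rw [C_mul_monomial, C_mul_monomial, C_mul_monomial, C_mul_monomial, ← map_add, ← map_add]
  congr 2
  unfold pr
  push_cast
  ring

/-- three points of an ellipse are not on a line -/
theorem ell_line2 {k₁ k₂ : ℂ} (hk : k₁.re * k₂.im - k₁.im * k₂.re ≠ 0) {Λ M : ℝ} {e : ℝ × ℝ}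
    (he : e ≠ 0) {x y z : ℤ × ℤ} (hx : ‖(x.1 : ℂ) * k₁ + (x.2 : ℂ) * k₂‖ ^ 2 = Λ)
    (hy : ‖(y.1 : ℂ) * k₁ + (y.2 : ℂ) * k₂‖ ^ 2 = Λ)
    (hz : ‖(z.1 : ℂ) * k₁ + (z.2 : ℂ) * k₂‖ ^ 2 = Λ)
    (ex : pr e x = M) (ey : pr e y = M) (ez : pr e z = M)
    (hxy : y ≠ x) (hzx : z ≠ x) : z = y := by
  unfold pr at ex ey ez
  have hnorm : ∀ w : ℤ × ℤ, ‖(w.1 : ℂ) * k₁ + (w.2 : ℂ) * k₂‖ ^ 2 =
      ((w.1 : ℝ) * k₁.re + w.2 * k₂.re) ^ 2 + ((w.1 : ℝ) * k₁.im + w.2 * k₂.im) ^ 2 := by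
    intro w
    rw [← Complex.normSq_eq_norm_sq, Complex.normSq_apply]
    simp
    ring
  rw [hnorm] at hx hy hz
  have he2 : 0 < e.1 ^ 2 + e.2 ^ 2 := by
    have : e.1 ≠ 0 ∨ e.2 ≠ 0 := by
      by_contra hcon
      push Not at hcon
      exact he (Prod.ext hcon.1 hcon.2)
    rcases this with h | h
    · positivity
    · positivity
  have par : ∀ w : ℤ × ℤ, e.1 * w.1 + e.2 * w.2 = M → ∃ t : ℝ,
      (w.1 : ℝ) = x.1 - t * e.2 ∧ (w.2 : ℝ) = x.2 + t * e.1 := by
    intro w hw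
    refine ⟨(-(e.2 * (w.1 - x.1)) + e.1 * (w.2 - x.2)) / (e.1 ^ 2 + e.2 ^ 2), ?_, ?_⟩
    · field_simp
      linear_combination (e.1) * (hw - ex)
    · field_simp
      linear_combination (e.2) * (hw - ex)
  obtain ⟨s, hs1, hs2⟩ := par y ey
  obtain ⟨t, ht1, ht2⟩ := par z ez
  set d1 : ℝ := -(e.2 * k₁.re) + e.1 * k₂.re with hd1
  set d2 : ℝ := -(e.2 * k₁.im) + e.1 * k₂.im with hd2
  have hq : 0 < d1 ^ 2 + d2 ^ 2 := by
    have h0 : d1 ≠ 0 ∨ d2 ≠ 0 := by
      by_contra hcon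
      push Not at hcon
      obtain ⟨h1, h2⟩ := hcon
      rw [hd1] at h1
      rw [hd2] at h2
      have e1 : e.1 * (k₁.re * k₂.im - k₁.im * k₂.re) = 0 := by
        linear_combination k₁.re * h2 - k₁.im * h1
      have e2 : e.2 * (k₁.re * k₂.im - k₁.im * k₂.re) = 0 := by
        linear_combination k₂.re * h2 - k₂.im * h1
      apply he
      ext
      · exact (mul_eq_zero.mp e1).resolve_right hk
      · exact (mul_eq_zero.mp e2).resolve_right hk
    rcases h0 with h | h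
    · positivity
    · positivity
  have hs0 : s ≠ 0 := by
    rintro rfl
    apply hxy
    ext
    · exact_mod_cast (by linarith : (y.1 : ℝ) = x.1)
    · exact_mod_cast (by linarith : (y.2 : ℝ) = x.2)
  have ht0 : t ≠ 0 := by
    rintro rfl
    apply hzx
    ext
    · exact_mod_cast (by linarith : (z.1 : ℝ) = x.1)
    · exact_mod_cast (by linarith : (z.2 : ℝ) = x.2)
  set B : ℝ := ((x.1 : ℝ) * k₁.re + x.2 * k₂.re) * d1 + ((x.1 : ℝ) * k₁.im + x.2 * k₂.im) * d2
    with hB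
  have hs3 : s * (2 * B + s * (d1 ^ 2 + d2 ^ 2)) = 0 := by
    rw [hs1, hs2] at hy
    rw [hB, hd1, hd2]
    linear_combination hy - hx
  have ht3 : t * (2 * B + t * (d1 ^ 2 + d2 ^ 2)) = 0 := by
    rw [ht1, ht2] at hz
    rw [hB, hd1, hd2]
    linear_combination hz - hx
  have hs4 := (mul_eq_zero.mp hs3).resolve_left hs0
  have ht4 := (mul_eq_zero.mp ht3).resolve_left ht0
  have hst : s = t := by
    have : (s - t) * (d1 ^ 2 + d2 ^ 2) = 0 := by linarith
    rcases mul_eq_zero.mp this with h | h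
    · linarith
    · exact absurd h hq.ne'
  ext
  · exact_mod_cast (by rw [ht1, hs1, hst] : (z.1 : ℝ) = y.1)
  · exact_mod_cast (by rw [ht2, hs2, hst] : (z.2 : ℝ) = y.2)

/-- the key step: a common factor of the two derivatives has at most one monomial -/
theorem no_factor2 {k₁ k₂ : ℂ} (hk : k₁.re * k₂.im - k₁.im * k₂.re ≠ 0) {Λ : ℝ} {N : ℕ}
    {E : Finset (ℤ × ℤ)} (hN : ∀ p ∈ E, p.1.natAbs ≤ N ∧ p.2.natAbs ≤ N)
    (hΛ : ∀ p ∈ E, ‖(p.1 : ℂ) * k₁ + (p.2 : ℂ) * k₂‖ ^ 2 = Λ) {c : ℤ × ℤ → ℂ}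
    (hc : ∀ p ∈ E, c p ≠ 0) (hneg : ∀ p ∈ E, -p ∈ E)
    (hspan : ∃ x ∈ E, ∃ y ∈ E, x.1 * y.2 - x.2 * y.1 ≠ 0) {G : Polynomial (Polynomial ℂ)}
    (h1 : G ∣ VC N E c (1, 0)) (h2 : G ∣ VC N E c (0, 1)) : (sp G).card ≤ 1 := by
  classical
  by_contra hcon
  push Not at hcon
  obtain ⟨e, he, p, hp, p', hp', hpp', heq, hmax⟩ := exists_edge hcon
  obtain ⟨x0, hx0, y0, hy0, hdet⟩ := hspan
  have hEne : E.Nonempty := ⟨x0, hx0⟩
  obtain ⟨x, hx, hxmax⟩ := Finset.exists_max_image E (pr e) hEne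
  have hprneg : ∀ ξ : ℤ × ℤ, pr e (-ξ) = - pr e ξ := by
    intro ξ
    unfold pr
    rw [Prod.fst_neg, Prod.snd_neg]
    push_cast
    ring
  -- positivity of the maximum
  have hM : 0 < pr e x := by
    by_contra hnp
    push Not at hnp
    have hz : ∀ ξ ∈ E, pr e ξ = 0 := by
      intro ξ hξ
      have k1 := hxmax ξ hξ
      have k2 := hxmax (-ξ) (hneg ξ hξ)
      rw [hprneg] at k2
      linarith
    have e1 := hz x0 hx0
    have e2 := hz y0 hy0
    unfold pr at e1 e2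
    have hdet' : (x0.1 : ℝ) * y0.2 - x0.2 * y0.1 ≠ 0 := by exact_mod_cast hdet
    have f1 : e.1 * ((x0.1 : ℝ) * y0.2 - x0.2 * y0.1) = 0 := by
      linear_combination (y0.2 : ℝ) * e1 - (x0.2 : ℝ) * e2
    have f2 : e.2 * ((x0.1 : ℝ) * y0.2 - x0.2 * y0.1) = 0 := by
      linear_combination (x0.1 : ℝ) * e2 - (y0.1 : ℝ) * e1
    apply he
    ext
    · exact (mul_eq_zero.mp f1).resolve_right hdet'
    · exact (mul_eq_zero.mp f2).resolve_right hdet'
  -- the direction `v`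
  obtain ⟨v, hvx, hv⟩ : ∃ v : ℝ × ℝ, pr v x ≠ 0 ∧
      ∀ ξ ∈ E, pr e ξ = pr e x → pr v ξ ≠ 0 → ξ = x := by
    by_cases hex : ∃ y ∈ E, y ≠ x ∧ pr e y = pr e x
    · obtain ⟨y, hy, hyx, hye⟩ := hex
      refine ⟨(-(y.2 : ℝ), (y.1 : ℝ)), ?_, ?_⟩
      · intro h0
        unfold pr at h0 hye hM
        simp only at h0
        -- det = 0
        have hdet : (x.2 : ℝ) * y.1 = y.2 * x.1 := by linarith
        apply hyx
        have q1 : (e.1 * x.1 + e.2 * x.2) * y.1 = (e.1 * x.1 + e.2 * x.2) * (x.1 : ℝ) := by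
          calc (e.1 * x.1 + e.2 * x.2) * (y.1 : ℝ) = e.1 * x.1 * y.1 + e.2 * (x.2 * y.1) := by ring
            _ = e.1 * x.1 * y.1 + e.2 * (y.2 * x.1) := by rw [hdet]
            _ = (e.1 * y.1 + e.2 * y.2) * x.1 := by ring
            _ = _ := by rw [hye]
        have q2 : (e.1 * x.1 + e.2 * x.2) * y.2 = (e.1 * x.1 + e.2 * x.2) * (x.2 : ℝ) := by
          calc (e.1 * x.1 + e.2 * x.2) * (y.2 : ℝ) = e.1 * (y.2 * x.1) + e.2 * x.2 * y.2 := by ring
            _ = e.1 * (x.2 * y.1) + e.2 * x.2 * y.2 := by rw [hdet]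
            _ = (e.1 * y.1 + e.2 * y.2) * x.2 := by ring
            _ = _ := by rw [hye]
        ext
        · exact_mod_cast mul_left_cancel₀ hM.ne' q1
        · exact_mod_cast mul_left_cancel₀ hM.ne' q2
      · intro ξ hξ hξe hξv
        by_contra hne
        have := ell_line2 hk he (hΛ x hx) (hΛ y hy) (hΛ ξ hξ) rfl hye hξe hyx hne
        apply hξv
        rw [this]
        unfold pr
        simp only
        ring
    · push Not at hex
      refine ⟨((x.1 : ℝ), (x.2 : ℝ)), ?_, ?_⟩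
      · intro h0
        unfold pr at h0 hM
        simp only at h0
        have h5 : (x.1 : ℝ) = 0 := by nlinarith [mul_self_nonneg (x.1 : ℝ), mul_self_nonneg (x.2 : ℝ)]
        have h6 : (x.2 : ℝ) = 0 := by nlinarith [mul_self_nonneg (x.1 : ℝ), mul_self_nonneg (x.2 : ℝ)]
        rw [h5, h6] at hM
        simp at hM
      · intro ξ hξ hξe _
        by_contra hne
        exact hex ξ hξ hne hξe
  -- the divisor
  have hdvd : G ∣ VC N E c v := by
    rw [VC_lin]
    exact dvd_add (Dvd.dvd.mul_left h1 _) (Dvd.dvd.mul_left h2 _)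
  obtain ⟨H, hH⟩ := hdvd
  have hxb := hN _ hx
  -- the support of `VC`
  have hsup : ∀ q, q ∈ sp (VC N E c v) →
      ((q.1 : ℤ) - N, (q.2 : ℤ) - N) ∈ E ∧ pr v ((q.1 : ℤ) - N, (q.2 : ℤ) - N) ≠ 0 := by
    intro q hq
    rw [mem_sp, cf_VC hN] at hq
    split_ifs at hq with h3
    · refine ⟨h3, ?_⟩
      have h4 := right_ne_zero_of_mul hq
      exact_mod_cast h4
    · exact absurd rfl hq
  have hxsp : (((x.1 + N).toNat, (x.2 + N).toNat) : ℕ × ℕ) ∈ sp (VC N E c v) := by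
    rw [mem_sp, cf_VC hN]
    have h3 : (((((x.1 + N).toNat : ℕ) : ℤ) - N, (((x.2 + N).toNat : ℕ) : ℤ) - N) : ℤ × ℤ) = x := by
      ext
      · simp only
        omega
      · simp only
        omega
    simp only
    rw [h3, if_pos hx]
    refine mul_ne_zero (hc x hx) ?_
    exact_mod_cast hvx
  have hV0 : VC N E c v ≠ 0 := by
    intro h0
    rw [h0, mem_sp] at hxsp
    simp [cf] at hxsp
  have hH0 : H ≠ 0 := by
    rintro rfl
    rw [mul_zero] at hH
    exact hV0 hH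
  obtain ⟨r, r', hrr', hr, hr', hre, hrmax⟩ := two_max e hp hp' hpp' hmax heq hH0
  rw [← hH] at hr hr' hrmax
  have top : ∀ s, s ∈ sp (VC N E c v) → lf e s = lf e r →
      ((s.1 : ℤ) - N, (s.2 : ℤ) - N) = x := by
    intro s hs hse
    obtain ⟨hsE, hsv⟩ := hsup s hs
    apply hv _ hsE _ hsv
    apply le_antisymm (hxmax _ hsE)
    have h3 := hrmax _ hxsp
    rw [← hse, lf_shift N, lf_shift N] at h3
    have h4 : (((((x.1 + N).toNat : ℕ) : ℤ) - N, (((x.2 + N).toNat : ℕ) : ℤ) - N) : ℤ × ℤ) = x := by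
      ext
      · simp only
        omega
      · simp only
        omega
    simp only at h3
    rw [h4] at h3
    linarith
  have e1 := top r hr rfl
  have e2 := top r' hr' hre
  rw [← e2] at e1
  apply hrr'
  have e3 := congrArg Prod.fst e1
  have e4 := congrArg Prod.snd e1
  simp only at e3 e4
  ext
  · omega
  · omega

open Polynomial in
theorem eval_VC {N : ℕ} {E : Finset (ℤ × ℤ)} (hN : ∀ p ∈ E, p.1.natAbs ≤ N ∧ p.2.natAbs ≤ N)
    (c : ℤ × ℤ → ℂ) (v : ℝ × ℝ) (s t : ℝ) :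
    evalEval (Complex.exp (Complex.I * s)) (Complex.exp (Complex.I * t)) (VC N E c v) =
      Complex.exp (Complex.I * (N * s + N * t)) * ∑ ξ ∈ E, (c ξ * ((pr v ξ : ℝ) : ℂ)) *
        Complex.exp (Complex.I * (ξ.1 * s + ξ.2 * t)) := by
  unfold VC
  rw [evalEval_finsetSum, Finset.mul_sum]
  apply Finset.sum_congr rfl
  intro ξ hξ
  have h1 := hN _ hξ
  obtain ⟨k1, hk1⟩ : ∃ k : ℕ, (N : ℤ) + ξ.1 = k := ⟨((N : ℤ) + ξ.1).toNat, by omega⟩
  obtain ⟨k2, hk2⟩ : ∃ k : ℕ, (N : ℤ) + ξ.2 = k := ⟨((N : ℤ) + ξ.2).toNat, by omega⟩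
  rw [hk1, hk2, Int.toNat_natCast, Int.toNat_natCast]
  have hk1' : (N : ℂ) + ξ.1 = k1 := by exact_mod_cast hk1
  have hk2' : (N : ℂ) + ξ.2 = k2 := by exact_mod_cast hk2
  rw [evalEval, eval_monomial, eval_mul, eval_monomial, eval_pow, eval_C]
  have e : Complex.exp (Complex.I * s) ^ k1 * Complex.exp (Complex.I * t) ^ k2 =
      Complex.exp (Complex.I * (N * s + N * t)) * Complex.exp (Complex.I * (ξ.1 * s + ξ.2 * t)) := by
    rw [← Complex.exp_nat_mul, ← Complex.exp_nat_mul, ← Complex.exp_add, ← Complex.exp_add]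
    congr 1
    rw [← hk1', ← hk2']
    ring
  rw [mul_assoc, e]
  ring

open Polynomial in
/-- finitely many common zeros in the torus -/
theorem torus_finite {k₁ k₂ : ℂ} (hk : k₁.re * k₂.im - k₁.im * k₂.re ≠ 0) {Λ : ℝ} {N : ℕ}
    {E : Finset (ℤ × ℤ)} (hN : ∀ p ∈ E, p.1.natAbs ≤ N ∧ p.2.natAbs ≤ N)
    (hΛ : ∀ p ∈ E, ‖(p.1 : ℂ) * k₁ + (p.2 : ℂ) * k₂‖ ^ 2 = Λ) {c : ℤ × ℤ → ℂ}
    (hc : ∀ p ∈ E, c p ≠ 0) (hneg : ∀ p ∈ E, -p ∈ E)
    (hspan : ∃ x ∈ E, ∃ y ∈ E, x.1 * y.2 - x.2 * y.1 ≠ 0) :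
    {z : ℂ × ℂ | z.1 ≠ 0 ∧ z.2 ≠ 0 ∧ evalEval z.1 z.2 (VC N E c (1, 0)) = 0 ∧
      evalEval z.1 z.2 (VC N E c (0, 1)) = 0}.Finite := by
  classical
  have hP0 : VC N E c (1, 0) ≠ 0 := by
    obtain ⟨x0, hx0, y0, hy0, hdet⟩ := hspan
    obtain ⟨w, hw, hw1⟩ : ∃ w ∈ E, w.1 ≠ 0 := by
      by_cases h : x0.1 = 0
      · refine ⟨y0, hy0, fun h' => ?_⟩
        rw [h, h'] at hdet
        simp at hdet
      · exact ⟨x0, hx0, h⟩
    intro h0
    have hb := hN w hw
    have h1 := cf_VC hN c (1, 0) ((w.1 + N).toNat, (w.2 + N).toNat)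
    rw [h0] at h1
    have h2 : (((((w.1 + N).toNat : ℕ) : ℤ) - N, (((w.2 + N).toNat : ℕ) : ℤ) - N) : ℤ × ℤ) = w := by
      ext
      · simp only
        omega
      · simp only
        omega
    simp only at h1
    rw [h2, if_pos hw] at h1
    simp only [cf, coeff_zero, pr] at h1
    have h3 := (mul_eq_zero.mp h1.symm).resolve_left (hc w hw)
    have h4 : (1 : ℝ) * (w.1 : ℝ) + 0 * (w.2 : ℝ) = 0 := by exact_mod_cast h3
    apply hw1
    have h5 : (w.1 : ℝ) = 0 := by linarith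
    exact_mod_cast h5
  obtain ⟨P', Q', G, hrel, hGP, hGQ⟩ :=
    UniqueFactorizationMonoid.exists_reduced_factors _ hP0 (VC N E c (0, 1))
  have hP'0 : P' ≠ 0 := by
    rintro rfl
    rw [mul_zero] at hGP
    exact hP0 hGP.symm
  have hG0 : G ≠ 0 := by
    rintro rfl
    rw [zero_mul] at hGP
    exact hP0 hGP.symm
  have hfin := finite_zeros hP'0 hrel
  refine hfin.subset ?_
  rintro z ⟨hz1, hz2, hz3, hz4⟩
  have hcard := no_factor2 hk hN hΛ hc hneg hspan (Dvd.intro _ hGP) (Dvd.intro _ hGQ)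
  have hcard1 : (sp G).Nonempty := by
    by_contra hcon
    rw [Finset.not_nonempty_iff_eq_empty] at hcon
    apply hG0
    apply eq_of_cf
    intro q
    have : q ∉ sp G := by rw [hcon]; simp
    rw [mem_sp, not_not] at this
    rw [this]
    simp [cf]
  obtain ⟨q, hq⟩ := hcard1
  have hGmon : G = monomial q.2 (monomial q.1 (cf G q)) := by
    apply eq_of_cf
    intro r
    by_cases hr : r = q
    · rw [hr]
      simp [cf]
    · have h1 : cf G r = 0 := by
        by_contra hne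
        have h2 : r ∈ sp G := mem_sp.mpr hne
        exact hr (Finset.card_le_one.mp hcard _ h2 _ hq)
      rw [h1]
      unfold cf
      rw [coeff_monomial]
      split_ifs with h3
      · rw [coeff_monomial, if_neg]
        intro h4
        exact hr (Prod.ext h4.symm h3.symm)
      · rw [coeff_zero]
  have hzG : evalEval z.1 z.2 G ≠ 0 := by
    rw [hGmon, evalEval, eval_monomial, eval_mul, eval_monomial, eval_pow, eval_C]
    have h1 : cf G q ≠ 0 := mem_sp.mp hq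
    exact mul_ne_zero (mul_ne_zero h1 (pow_ne_zero _ hz1)) (pow_ne_zero _ hz2)
  rw [← hGP, evalEval_mul] at hz3
  rw [← hGQ, evalEval_mul] at hz4
  exact ⟨(mul_eq_zero.mp hz3).resolve_left hzG, (mul_eq_zero.mp hz4).resolve_left hzG⟩

/-- the set of angles with a given value of the exponential is countable -/
theorem exp_countable (c : ℂ) : {θ : ℝ | Complex.exp (Complex.I * θ) = c}.Countable := by
  rcases Set.eq_empty_or_nonempty {θ : ℝ | Complex.exp (Complex.I * θ) = c} with h | ⟨θ₀, h0⟩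
  · rw [h]
    exact Set.countable_empty
  · refine (Set.countable_range (fun n : ℤ => θ₀ + 2 * Real.pi * n)).mono ?_
    intro θ hθ
    have h0' : Complex.exp (Complex.I * θ₀) = c := h0
    have hθ' : Complex.exp (Complex.I * θ) = c := hθ
    rw [← h0', Complex.exp_eq_exp_iff_exists_int] at hθ'
    obtain ⟨n, hn⟩ := hθ'
    refine ⟨n, ?_⟩
    have h1 := congrArg Complex.im hn
    simp at h1
    show θ₀ + 2 * Real.pi * n = θ
    linarith

/-- the coefficients of the exponentials -/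
noncomputable def cq (F : Finset (ℤ × ℤ)) (a b : ℤ × ℤ → ℝ) (q : ℤ × ℤ) : ℂ :=
  (if q ∈ F then ((a q : ℂ) - Complex.I * b q) / 2 else 0) +
    (if -q ∈ F then ((a (-q) : ℂ) + Complex.I * b (-q)) / 2 else 0)

/-- the effective frequencies -/
noncomputable def Eq (F : Finset (ℤ × ℤ)) (a b : ℤ × ℤ → ℝ) : Finset (ℤ × ℤ) :=
  (F ∪ F.image (fun p => -p)).filter (fun q => cq F a b q ≠ 0)

theorem mem_FF2 {F : Finset (ℤ × ℤ)} {q : ℤ × ℤ} :
    q ∈ F ∪ F.image (fun p => -p) ↔ q ∈ F ∨ -q ∈ F := by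
  rw [Finset.mem_union, Finset.mem_image]
  constructor
  · rintro (h | ⟨p, hp, rfl⟩)
    · exact Or.inl h
    · right
      simpa using hp
  · rintro (h | h)
    · exact Or.inl h
    · exact Or.inr ⟨-q, h, by simp⟩

theorem cq_neg (F : Finset (ℤ × ℤ)) (a b : ℤ × ℤ → ℝ) (q : ℤ × ℤ) :
    cq F a b (-q) = conj (cq F a b q) := by
  unfold cq
  rw [neg_neg, map_add, add_comm]
  have h2 : conj (2 : ℂ) = 2 := map_ofNat _ 2
  congr 1
  · split_ifs
    · rw [map_div₀, map_sub, map_mul, Complex.conj_I, Complex.conj_ofReal, Complex.conj_ofReal, h2]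
      ring
    · simp
  · split_ifs
    · rw [map_div₀, map_add, map_mul, Complex.conj_I, Complex.conj_ofReal, Complex.conj_ofReal, h2]
      ring
    · simp

theorem sum_cq (F : Finset (ℤ × ℤ)) (a b : ℤ × ℤ → ℝ) (h : ℤ × ℤ → ℂ) :
    ∑ q ∈ Eq F a b, cq F a b q * h q =
      ∑ p ∈ F, (((a p : ℂ) - Complex.I * b p) / 2 * h p +
        ((a p : ℂ) + Complex.I * b p) / 2 * h (-p)) := by
  classical
  unfold Eq
  rw [Finset.sum_filter_of_ne (fun q _ hq => left_ne_zero_of_mul hq)]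
  have e1 : ∀ q, cq F a b q * h q = (if q ∈ F then ((a q : ℂ) - Complex.I * b q) / 2 * h q else 0)
      + (if -q ∈ F then ((a (-q) : ℂ) + Complex.I * b (-q)) / 2 * h q else 0) := by
    intro q
    unfold cq
    rw [add_mul, ite_mul, ite_mul, zero_mul]
  rw [Finset.sum_congr rfl (fun q _ => e1 q), Finset.sum_add_distrib, Finset.sum_add_distrib]
  congr 1
  · rw [← Finset.sum_filter]
    apply Finset.sum_congr
    · ext q
      rw [Finset.mem_filter, mem_FF2]
      tauto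
    · intro q _
      rfl
  · rw [← Finset.sum_filter]
    refine Finset.sum_bij' (fun q _ => -q) (fun p _ => -p) ?_ ?_ ?_ ?_ ?_
    · intro q hq
      exact (Finset.mem_filter.mp hq).2
    · intro p hp
      rw [Finset.mem_filter, mem_FF2, neg_neg]
      exact ⟨Or.inr hp, hp⟩
    · intro q _
      exact neg_neg q
    · intro q _
      exact neg_neg q
    · intro q _
      rw [neg_neg]

theorem ip_kap (x k₁ k₂ : ℂ) (p : ℤ × ℤ) :
    ip x ((p.1 : ℂ) * k₁ + (p.2 : ℂ) * k₂) = p.1 * ip x k₁ + p.2 * ip x k₂ := by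
  unfold ip
  simp
  ring

/-- the functional -/
noncomputable def Lk (κ : ℂ) : ℂ →L[ℝ] ℝ := κ.re • Complex.reCLM + κ.im • Complex.imCLM

theorem Lk_apply (κ w : ℂ) : Lk κ w = ip w κ := by
  unfold Lk ip
  simp
  ring

theorem hasFDeriv_ip (κ x : ℂ) : HasFDerivAt (fun x => ip x κ) (Lk κ) x := by
  have h : (fun x => ip x κ) = fun x => Lk κ x := funext fun x => (Lk_apply κ x).symm
  rw [h]
  exact (Lk κ).hasFDerivAt

theorem pr_neg2 (v : ℝ × ℝ) (ξ : ℤ × ℤ) : pr v (-ξ) = - pr v ξ := by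
  unfold pr
  rw [Prod.fst_neg, Prod.snd_neg]
  push_cast
  ring

/-- the derivative of `f`, complex form -/
theorem fderiv_cq {k₁ k₂ : ℂ} (F : Finset (ℤ × ℤ)) (a b : ℤ × ℤ → ℝ) {f : ℂ → ℝ}
    (hf : ∀ x, f x = ∑ p ∈ F, (a p * Real.cos (ip x ((p.1 : ℂ) * k₁ + (p.2 : ℂ) * k₂)) +
      b p * Real.sin (ip x ((p.1 : ℂ) * k₁ + (p.2 : ℂ) * k₂)))) (x w : ℂ) :
    ((fderiv ℝ f x w : ℝ) : ℂ) = Complex.I * ∑ q ∈ Eq F a b, (cq F a b q *
      ((pr (ip w k₁, ip w k₂) q : ℝ) : ℂ)) *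
        Complex.exp (Complex.I * (q.1 * (ip x k₁ : ℝ) + q.2 * (ip x k₂ : ℝ))) := by
  have hff : f = fun x => ∑ p ∈ F, (a p * Real.cos (ip x ((p.1 : ℂ) * k₁ + (p.2 : ℂ) * k₂)) +
      b p * Real.sin (ip x ((p.1 : ℂ) * k₁ + (p.2 : ℂ) * k₂))) := funext hf
  have hd : HasFDerivAt f (∑ p ∈ F,
      (a p • (-Real.sin (ip x ((p.1 : ℂ) * k₁ + (p.2 : ℂ) * k₂)) •
          Lk ((p.1 : ℂ) * k₁ + (p.2 : ℂ) * k₂)) +
        b p • (Real.cos (ip x ((p.1 : ℂ) * k₁ + (p.2 : ℂ) * k₂)) •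
          Lk ((p.1 : ℂ) * k₁ + (p.2 : ℂ) * k₂)))) x := by
    rw [hff]
    apply HasFDerivAt.fun_sum
    intro p _
    exact ((hasFDeriv_ip _ x).cos.const_mul (a p)).add ((hasFDeriv_ip _ x).sin.const_mul (b p))
  rw [hd.fderiv, sum_apply, Finset.mul_sum]
  have e0 : ∀ q ∈ Eq F a b, Complex.I * ((cq F a b q * ((pr (ip w k₁, ip w k₂) q : ℝ) : ℂ)) *
        Complex.exp (Complex.I * (q.1 * (ip x k₁ : ℝ) + q.2 * (ip x k₂ : ℝ)))) =
      cq F a b q * (Complex.I * ((pr (ip w k₁, ip w k₂) q : ℝ) : ℂ) *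
        Complex.exp (Complex.I * (q.1 * (ip x k₁ : ℝ) + q.2 * (ip x k₂ : ℝ)))) := by
    intro q _
    ring
  rw [Finset.sum_congr rfl e0, sum_cq, Complex.ofReal_sum]
  apply Finset.sum_congr rfl
  intro p _
  rw [pr_neg2]
  set θ : ℝ := ip x ((p.1 : ℂ) * k₁ + (p.2 : ℂ) * k₂) with hθ
  set θ' : ℝ := pr (ip w k₁, ip w k₂) p with hθ'
  have e1 : Lk ((p.1 : ℂ) * k₁ + (p.2 : ℂ) * k₂) w = θ' := by
    rw [Lk_apply, ip_kap, hθ']
    unfold pr
    ring
  have e2 : Complex.exp (Complex.I * (p.1 * (ip x k₁ : ℝ) + p.2 * (ip x k₂ : ℝ))) =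
      Complex.exp (θ * Complex.I) := by
    congr 1
    rw [hθ, ip_kap]
    push_cast
    ring
  have e3 : Complex.exp (Complex.I * (((-p).1 : ℤ) * (ip x k₁ : ℝ) + ((-p).2 : ℤ) * (ip x k₂ : ℝ))) =
      Complex.exp (-θ * Complex.I) := by
    congr 1
    rw [hθ, ip_kap, Prod.fst_neg, Prod.snd_neg]
    push_cast
    ring
  rw [e2, e3]
  simp only [add_apply, smul_apply, smul_eq_mul, e1]
  push_cast
  rw [Complex.cos, Complex.sin]
  linear_combination (θ' / 2 * b p * (Complex.exp (θ * Complex.I) + Complex.exp (-θ * Complex.I))) * Complex.I_sq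

theorem f_cq {k₁ k₂ : ℂ} (F : Finset (ℤ × ℤ)) (a b : ℤ × ℤ → ℝ) {f : ℂ → ℝ}
    (hf : ∀ x, f x = ∑ p ∈ F, (a p * Real.cos (ip x ((p.1 : ℂ) * k₁ + (p.2 : ℂ) * k₂)) +
      b p * Real.sin (ip x ((p.1 : ℂ) * k₁ + (p.2 : ℂ) * k₂)))) (x : ℂ) :
    (f x : ℂ) = ∑ q ∈ Eq F a b, cq F a b q *
        Complex.exp (Complex.I * (q.1 * (ip x k₁ : ℝ) + q.2 * (ip x k₂ : ℝ))) := by
  rw [hf, sum_cq, Complex.ofReal_sum]
  apply Finset.sum_congr rfl
  intro p _
  set θ : ℝ := ip x ((p.1 : ℂ) * k₁ + (p.2 : ℂ) * k₂) with hθ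
  have e2 : Complex.exp (Complex.I * (p.1 * (ip x k₁ : ℝ) + p.2 * (ip x k₂ : ℝ))) =
      Complex.exp (θ * Complex.I) := by
    congr 1
    rw [hθ, ip_kap]
    push_cast
    ring
  have e3 : Complex.exp (Complex.I * (((-p).1 : ℤ) * (ip x k₁ : ℝ) + ((-p).2 : ℤ) * (ip x k₂ : ℝ))) =
      Complex.exp (-θ * Complex.I) := by
    congr 1
    rw [hθ, ip_kap, Prod.fst_neg, Prod.snd_neg]
    push_cast
    ring
  rw [e2, e3]
  push_cast
  rw [Complex.cos, Complex.sin]
  ring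

/-- TARGET: finite sums of plane waves with frequencies on a circle and in a lattice have no closed curve of critical points. -/
theorem lattice_crit {k₁ k₂ : ℂ} (hk : k₁.re * k₂.im - k₁.im * k₂.re ≠ 0) (F : Finset (ℤ × ℤ))
    (a b : ℤ × ℤ → ℝ) {Λ : ℝ} (hΛ : 0 < Λ)
    (hF : ∀ p ∈ F, ‖(p.1 : ℂ) * k₁ + (p.2 : ℂ) * k₂‖ ^ 2 = Λ) {f : ℂ → ℝ}
    (hf : ∀ x, f x = ∑ p ∈ F, (a p * Real.cos (ip x ((p.1 : ℂ) * k₁ + (p.2 : ℂ) * k₂)) +
      b p * Real.sin (ip x ((p.1 : ℂ) * k₁ + (p.2 : ℂ) * k₂)))) (hne : ∃ x, f x ≠ 0) :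
    ¬ ∃ γ : Set ℂ, SimpleClosedCurve γ ∧ ∀ x ∈ γ, fderiv ℝ f x = 0 := by
  classical
  rintro ⟨γ, hγ, hcrit⟩
  obtain ⟨hγc, hγcon, hγinf⟩ := scc_basic hγ
  set E := Eq F a b with hE
  set c := cq F a b with hcdef
  have hEc : ∀ p ∈ E, c p ≠ 0 := fun p hp => (Finset.mem_filter.mp hp).2
  have hEneg : ∀ p ∈ E, -p ∈ E := by
    intro p hp
    rw [hE, Eq, Finset.mem_filter, mem_FF2] at hp ⊢
    rw [neg_neg]
    refine ⟨hp.1.symm, ?_⟩
    rw [cq_neg]
    intro h
    exact hp.2 ((map_eq_zero _).mp h)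
  have hnegnorm : ∀ p : ℤ × ℤ, ‖(((-p).1 : ℤ) : ℂ) * k₁ + (((-p).2 : ℤ) : ℂ) * k₂‖ =
      ‖(p.1 : ℂ) * k₁ + (p.2 : ℂ) * k₂‖ := by
    intro p
    rw [← norm_neg, Prod.fst_neg, Prod.snd_neg]
    congr 1
    push_cast
    ring
  have hEΛ : ∀ p ∈ E, ‖(p.1 : ℂ) * k₁ + (p.2 : ℂ) * k₂‖ ^ 2 = Λ := by
    intro p hp
    rw [hE, Eq, Finset.mem_filter, mem_FF2] at hp
    rcases hp.1 with h | h
    · exact hF p h
    · rw [← hF _ h, hnegnorm]
  obtain ⟨N, hN⟩ : ∃ N : ℕ, ∀ p ∈ E, p.1.natAbs ≤ N ∧ p.2.natAbs ≤ N := by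
    refine ⟨E.sup (fun p => p.1.natAbs + p.2.natAbs), fun p hp => ?_⟩
    have h1 : p.1.natAbs + p.2.natAbs ≤ E.sup (fun p => p.1.natAbs + p.2.natAbs) :=
      Finset.le_sup (f := fun p : ℤ × ℤ => p.1.natAbs + p.2.natAbs) hp
    omega
  -- the equations at a critical point
  have hsol : ∀ v : ℝ × ℝ, ∃ w : ℂ, (ip w k₁, ip w k₂) = v := by
    intro v
    refine ⟨⟨(v.1 * k₂.im - v.2 * k₁.im) / (k₁.re * k₂.im - k₁.im * k₂.re),
      (v.2 * k₁.re - v.1 * k₂.re) / (k₁.re * k₂.im - k₁.im * k₂.re)⟩, ?_⟩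
    ext
    · simp only [ip]
      rw [div_mul_eq_mul_div, div_mul_eq_mul_div, ← add_div, div_eq_iff hk]
      ring
    · simp only [ip]
      rw [div_mul_eq_mul_div, div_mul_eq_mul_div, ← add_div, div_eq_iff hk]
      ring
  have heqs : ∀ x ∈ γ, ∀ v : ℝ × ℝ, ∑ q ∈ E, (c q * ((pr v q : ℝ) : ℂ)) *
        Complex.exp (Complex.I * (q.1 * (ip x k₁ : ℝ) + q.2 * (ip x k₂ : ℝ))) = 0 := by
    intro x hx v
    obtain ⟨w, rfl⟩ := hsol v
    have h1 := fderiv_cq F a b hf x w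
    rw [hcrit x hx] at h1
    simp only [zero_apply, Complex.ofReal_zero] at h1
    exact (mul_eq_zero.mp h1.symm).resolve_left Complex.I_ne_zero
  by_cases hspan : ∃ x ∈ E, ∃ y ∈ E, x.1 * y.2 - x.2 * y.1 ≠ 0
  · -- the curve is countable
    have hfin := torus_finite hk hN hEΛ hEc hEneg hspan
    set Z := {z : ℂ × ℂ | z.1 ≠ 0 ∧ z.2 ≠ 0 ∧ Polynomial.evalEval z.1 z.2 (VC N E c (1, 0)) = 0 ∧
      Polynomial.evalEval z.1 z.2 (VC N E c (0, 1)) = 0} with hZ
    have hmem : ∀ x ∈ γ, (Complex.exp (Complex.I * (ip x k₁ : ℝ)),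
        Complex.exp (Complex.I * (ip x k₂ : ℝ))) ∈ Z := by
      intro x hx
      refine ⟨Complex.exp_ne_zero _, Complex.exp_ne_zero _, ?_, ?_⟩
      · rw [eval_VC hN, heqs x hx, mul_zero]
      · rw [eval_VC hN, heqs x hx, mul_zero]
    have hcount : γ.Countable := by
      have h1 : γ ⊆ (fun x : ℂ => (ip x k₁, ip x k₂)) ⁻¹' (⋃ z ∈ Z,
          {θ : ℝ | Complex.exp (Complex.I * θ) = z.1} ×ˢ
            {θ : ℝ | Complex.exp (Complex.I * θ) = z.2}) := by
        intro x hx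
        rw [Set.mem_preimage]
        simp only [Set.mem_iUnion]
        exact ⟨_, hmem x hx, rfl, rfl⟩
      refine (Set.Countable.preimage_of_injOn ?_ ?_).mono h1
      · exact hfin.countable.biUnion fun z _ => (exp_countable z.1).prod (exp_countable z.2)
      · intro x _ y _ hxy
        have h2 := congrArg Prod.fst hxy
        have h3 := congrArg Prod.snd hxy
        simp only [ip] at h2 h3
        have h4 : (x.re - y.re) * (k₁.re * k₂.im - k₁.im * k₂.re) = 0 := by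
          linear_combination k₂.im * h2 - k₁.im * h3
        have h5 : (x.im - y.im) * (k₁.re * k₂.im - k₁.im * k₂.re) = 0 := by
          linear_combination k₁.re * h3 - k₂.re * h2
        apply Complex.ext
        · exact sub_eq_zero.mp ((mul_eq_zero.mp h4).resolve_right hk)
        · exact sub_eq_zero.mp ((mul_eq_zero.mp h5).resolve_right hk)
    have h6 := hcount.isTotallyDisconnected γ subset_rfl hγcon.isPreconnected
    exact hγinf h6.finite
  · -- the function depends on one linear coordinate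
    push Not at hspan
    have hEne : E.Nonempty := by
      by_contra hemp
      rw [Finset.not_nonempty_iff_eq_empty] at hemp
      obtain ⟨x, hx⟩ := hne
      apply hx
      have h1 := f_cq F a b hf x
      rw [← hE, hemp, Finset.sum_empty] at h1
      exact_mod_cast h1
    obtain ⟨p, hp⟩ := hEne
    set κ : ℂ := (p.1 : ℂ) * k₁ + (p.2 : ℂ) * k₂ with hκ
    have hκ0 : κ ≠ 0 := by
      intro h
      have h1 := hEΛ p hp
      rw [← hκ, h, norm_zero] at h1
      norm_num at h1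
      linarith
    have hp0 : p ≠ 0 := by
      rintro rfl
      apply hκ0
      rw [hκ]
      simp
    have hpp : (0 : ℝ) < (p.1 : ℝ) ^ 2 + (p.2 : ℝ) ^ 2 := by
      have h0 : p.1 ≠ 0 ∨ p.2 ≠ 0 := by
        by_contra hcon
        push Not at hcon
        exact hp0 (Prod.ext hcon.1 hcon.2)
      rcases h0 with h | h
      · have : (p.1 : ℝ) ≠ 0 := by exact_mod_cast h
        positivity
      · have : (p.2 : ℝ) ≠ 0 := by exact_mod_cast h
        positivity
    have hpar : ∀ q ∈ E, q = p ∨ q = -p := by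
      intro q hq
      have h1 := hspan p hp q hq
      have h1' : (p.1 : ℝ) * q.2 - p.2 * q.1 = 0 := by exact_mod_cast h1
      set r : ℝ := ((p.1 : ℝ) * q.1 + p.2 * q.2) / ((p.1 : ℝ) ^ 2 + (p.2 : ℝ) ^ 2) with hr
      have e1 : (q.1 : ℝ) = r * p.1 := by
        rw [hr]
        field_simp
        linear_combination (-(p.2 : ℝ)) * h1'
      have e2 : (q.2 : ℝ) = r * p.2 := by
        rw [hr]
        field_simp
        linear_combination (p.1 : ℝ) * h1'
      have e3 : (q.1 : ℂ) * k₁ + (q.2 : ℂ) * k₂ = (r : ℂ) * κ := by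
        have f1 : (q.1 : ℂ) = (r : ℂ) * p.1 := by exact_mod_cast congrArg Complex.ofReal e1
        have f2 : (q.2 : ℂ) = (r : ℂ) * p.2 := by exact_mod_cast congrArg Complex.ofReal e2
        rw [f1, f2, hκ]
        ring
      have h2 := hEΛ q hq
      rw [e3, norm_mul, mul_pow, hEΛ p hp, Complex.norm_real, Real.norm_eq_abs, sq_abs] at h2
      have h3 : r ^ 2 = 1 := by
        have : (r ^ 2 - 1) * Λ = 0 := by linarith
        rcases mul_eq_zero.mp this with h | h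
        · linarith
        · exact absurd h hΛ.ne'
      rcases (show r = 1 ∨ r = -1 from by
        have h4 : (r - 1) * (r + 1) = 0 := by linear_combination h3
        rcases mul_eq_zero.mp h4 with h | h
        · left; linarith
        · right; linarith) with h | h
      · left
        ext
        · rw [h] at e1
          exact_mod_cast (by linarith : (q.1 : ℝ) = p.1)
        · rw [h] at e2
          exact_mod_cast (by linarith : (q.2 : ℝ) = p.2)
      · right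
        ext
        · rw [h] at e1
          rw [Prod.fst_neg]
          exact_mod_cast (by push_cast; linarith : (q.1 : ℝ) = ((-p.1 : ℤ) : ℝ))
        · rw [h] at e2
          rw [Prod.snd_neg]
          exact_mod_cast (by push_cast; linarith : (q.2 : ℝ) = ((-p.2 : ℤ) : ℝ))
    have hpneg : p ≠ -p := by
      intro h
      apply hp0
      have h1 := congrArg Prod.fst h
      have h2 := congrArg Prod.snd h
      rw [Prod.fst_neg] at h1
      rw [Prod.snd_neg] at h2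
      ext
      · show p.1 = 0
        omega
      · show p.2 = 0
        omega
    have hE2 : E = {p, -p} := by
      ext q
      rw [Finset.mem_insert, Finset.mem_singleton]
      constructor
      · exact hpar q
      · rintro (h | h)
        · rw [h]
          exact hp
        · rw [h]
          exact hEneg p hp
    have hang : ∀ x ∈ γ, Complex.exp (Complex.I * ((2 * ip x κ : ℝ) : ℂ)) = c (-p) / c p := by
      intro x hx
      have h1 := heqs x hx ((p.1 : ℝ), (p.2 : ℝ))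
      rw [hE2, Finset.sum_pair hpneg, pr_neg2] at h1
      have e2 : Complex.exp (Complex.I * (p.1 * (ip x k₁ : ℝ) + p.2 * (ip x k₂ : ℝ))) =
          Complex.exp (Complex.I * (ip x κ : ℝ)) := by
        congr 1
        rw [hκ, ip_kap]
        push_cast
        ring
      have e3 : Complex.exp (Complex.I * (((-p).1 : ℤ) * (ip x k₁ : ℝ) + ((-p).2 : ℤ) * (ip x k₂ : ℝ))) =
          Complex.exp (-(Complex.I * (ip x κ : ℝ))) := by
        congr 1
        rw [hκ, ip_kap, Prod.fst_neg, Prod.snd_neg]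
        push_cast
        ring
      rw [e2, e3] at h1
      have e4 : pr ((p.1 : ℝ), (p.2 : ℝ)) p = (p.1 : ℝ) ^ 2 + (p.2 : ℝ) ^ 2 := by
        unfold pr
        ring
      rw [e4] at h1
      have e5 : ((((p.1 : ℝ) ^ 2 + (p.2 : ℝ) ^ 2 : ℝ)) : ℂ) ≠ 0 := by
        exact_mod_cast hpp.ne'
      have e6 : ((((p.1 : ℝ) ^ 2 + (p.2 : ℝ) ^ 2 : ℝ)) : ℂ) *
          (c p * Complex.exp (Complex.I * (ip x κ : ℝ)) -
            c (-p) * Complex.exp (-(Complex.I * (ip x κ : ℝ)))) = 0 := by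
        rw [Complex.ofReal_neg] at h1
        linear_combination h1
      have e7 := (mul_eq_zero.mp e6).resolve_left e5
      have e8 : Complex.exp (Complex.I * ((2 * ip x κ : ℝ) : ℂ)) =
          Complex.exp (Complex.I * (ip x κ : ℝ)) * Complex.exp (Complex.I * (ip x κ : ℝ)) := by
        rw [← Complex.exp_add]
        congr 1
        push_cast
        ring
      have e9 : Complex.exp (-(Complex.I * (ip x κ : ℝ))) * Complex.exp (Complex.I * (ip x κ : ℝ)) = 1 := by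
        rw [← Complex.exp_add, neg_add_cancel, Complex.exp_zero]
      rw [eq_div_iff (hEc p hp), e8]
      linear_combination Complex.exp (Complex.I * (ip x κ : ℝ)) * e7 + c (-p) * e9
    have hcont : ∀ κ' : ℂ, Continuous (fun x : ℂ => ip x κ') := by
      intro κ'
      unfold ip
      exact (Complex.continuous_re.mul continuous_const).add
        (Complex.continuous_im.mul continuous_const)
    have hsub : ((fun x : ℂ => ip x κ) '' γ).Subsingleton := by
      have hc1 : ((fun x : ℂ => ip x κ) '' γ).Countable := by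
        have h2 : (fun x : ℂ => ip x κ) '' γ ⊆ (fun r : ℝ => 2 * r) ⁻¹'
            {θ : ℝ | Complex.exp (Complex.I * θ) = c (-p) / c p} := by
          rintro _ ⟨x, hx, rfl⟩
          exact hang x hx
        refine (Set.Countable.preimage_of_injOn (exp_countable _) ?_).mono h2
        intro r _ r' _ hrr
        exact mul_left_cancel₀ two_ne_zero hrr
      exact hc1.isTotallyDisconnected _ subset_rfl
        (hγcon.isPreconnected.image _ (hcont κ).continuousOn)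
    obtain ⟨g, hg1, hg2, hg3⟩ := hγ
    refine drum_no_inj (fun z => ip (g z) (Complex.I * κ)) ((hcont _).comp hg1) ?_
    intro z w hzw
    apply hg2
    have h1 : ip (g z) κ = ip (g w) κ := by
      apply hsub
      · exact ⟨g z, by rw [← hg3]; exact ⟨z, rfl⟩, rfl⟩
      · exact ⟨g w, by rw [← hg3]; exact ⟨w, rfl⟩, rfl⟩
    have hn : κ.re ^ 2 + κ.im ^ 2 ≠ 0 := by
      intro h
      apply hκ0
      have h2 : κ.re = 0 := by nlinarith [sq_nonneg κ.re, sq_nonneg κ.im]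
      have h3 : κ.im = 0 := by nlinarith [sq_nonneg κ.re, sq_nonneg κ.im]
      exact Complex.ext h2 h3
    simp only [ip] at h1 hzw
    have r1 : (Complex.I * κ).re = -κ.im := by simp
    have r2 : (Complex.I * κ).im = κ.re := by simp
    rw [r1, r2] at hzw
    have h4 : ((g z).re - (g w).re) * (κ.re ^ 2 + κ.im ^ 2) = 0 := by
      linear_combination κ.re * h1 - κ.im * hzw
    have h5 : ((g z).im - (g w).im) * (κ.re ^ 2 + κ.im ^ 2) = 0 := by
      linear_combination κ.im * h1 + κ.re * hzw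
    apply Complex.ext
    · exact sub_eq_zero.mp ((mul_eq_zero.mp h4).resolve_right hn)
    · exact sub_eq_zero.mp ((mul_eq_zero.mp h5).resolve_right hn)

end Pool.Agent.Helper327_Drum
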