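import Pool.Agent.Helper327_Drum.BDefs
import Pool.Agent.Helper327_Drum.Fin.REF
import Pool.Agent.Helper327_Drum.Fin.EQ1
import Pool.Agent.Helper327_Drum.Fin.EQ2
import Pool.Agent.Helper327_Drum.Fin.EQ3

/-
JOB EQ4 (owner helper327, problem MP_d92c84_an). All imports are on origin/main.
-/

set_option autoImplicit false
open MeasureTheory Set Filter Topology ComplexConjugate
open scoped ContDiff InnerProductSpace

namespace Pool.Agent.Helper327_Drum

open Pool.Agent.TH298.Sch (dd SC X)
open Pool.Agent.R227.SA (la Wat Dat)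

/-- the left half of this triangle: the open triangle with vertices `0`, `a / 2` and `a e^{iπ/3}` and angles 60°, 90°, 30° -/
def hemitri (a : ℝ) : Set ℂ := {x | 0 < x.im ∧ x.im < √3 * x.re ∧ x.re < a / 2}

theorem eqtri_open (a : ℝ) : IsOpen (eqtri a) := by
  have : eqtri a = {x : ℂ | 0 < x.im} ∩ ({x : ℂ | x.im < √3 * x.re} ∩
      {x : ℂ | x.im < √3 * (a - x.re)}) := rfl
  rw [this]
  exact (isOpen_lt continuous_const Complex.continuous_im).inter
    ((isOpen_lt Complex.continuous_im (continuous_const.mul Complex.continuous_re)).inter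
    (isOpen_lt Complex.continuous_im
      (continuous_const.mul (continuous_const.sub Complex.continuous_re))))

theorem hemitri_open (a : ℝ) : IsOpen (hemitri a) := by
  have : hemitri a = {x : ℂ | 0 < x.im} ∩ ({x : ℂ | x.im < √3 * x.re} ∩
      {x : ℂ | x.re < a / 2}) := rfl
  rw [this]
  exact (isOpen_lt continuous_const Complex.continuous_im).inter
    ((isOpen_lt Complex.continuous_im (continuous_const.mul Complex.continuous_re)).inter
    (isOpen_lt Complex.continuous_re continuous_const))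

theorem sqrt3_pos : (0 : ℝ) < √3 := Real.sqrt_pos.2 (by norm_num)

theorem sqrt3_lt : √3 < 2 := by
  rw [Real.sqrt_lt' (by norm_num)]
  norm_num

theorem sqrt3_gt : 1 < √3 := by
  rw [Real.lt_sqrt (by norm_num)]
  norm_num

theorem hemi_sub (a : ℝ) : hemitri a ⊆ eqtri a := by
  rintro x ⟨h1, h2, h3⟩
  refine ⟨h1, h2, h2.trans_le ?_⟩
  exact mul_le_mul_of_nonneg_left (by linarith) sqrt3_pos.le

theorem eqtri_bdd {a : ℝ} (ha : 0 < a) : Bornology.IsBounded (eqtri a) := by
  refine (Metric.isBounded_ball (x := (0 : ℂ)) (r := 4 * a)).subset ?_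
  intro x hx
  obtain ⟨h1, h2, h3⟩ := hx
  rw [mem_ball_zero_iff]
  have h4 := Complex.norm_le_abs_re_add_abs_im x
  have h5 : 0 < x.re := by
    have : 0 < √3 * x.re := h1.trans h2
    exact (mul_pos_iff_of_pos_left sqrt3_pos).1 this
  have h6 : 0 < a - x.re := by
    have : 0 < √3 * (a - x.re) := h1.trans h3
    exact (mul_pos_iff_of_pos_left sqrt3_pos).1 this
  have h7 : √3 * x.re ≤ 2 * x.re := mul_le_mul_of_nonneg_right sqrt3_lt.le h5.le
  rw [abs_of_pos h5, abs_of_pos h1] at h4
  linarith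

/-- TARGET 4 -/
theorem tri_open_convex {a : ℝ} (ha : 0 < a) :
    (IsOpen (eqtri a) ∧ Convex ℝ (eqtri a) ∧ Bornology.IsBounded (eqtri a) ∧
      (eqtri a).Nonempty) ∧
    (IsOpen (hemitri a) ∧ Convex ℝ (hemitri a) ∧ Bornology.IsBounded (hemitri a) ∧
      (hemitri a).Nonempty) := by
  have h3 := sqrt3_gt
  refine ⟨⟨eqtri_open a, ?_, eqtri_bdd ha, ⟨⟨a / 2, a / 4⟩, ?_, ?_, ?_⟩⟩,
    ⟨hemitri_open a, ?_, (eqtri_bdd ha).subset (hemi_sub a), ⟨⟨a / 4, a / 8⟩, ?_, ?_, ?_⟩⟩⟩
  · rw [convex_iff_forall_pos]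
    rintro x ⟨x1, x2, x3⟩ y ⟨y1, y2, y3⟩ s t hs ht hst
    refine ⟨?_, ?_, ?_⟩
    · simp only [Complex.add_im, Complex.real_smul, Complex.re_ofReal_mul, Complex.im_ofReal_mul]
      positivity
    · simp only [Complex.add_im, Complex.add_re, Complex.real_smul, Complex.re_ofReal_mul, Complex.im_ofReal_mul]
      have e1 := mul_lt_mul_of_pos_left x2 hs
      have e2 := mul_lt_mul_of_pos_left y2 ht
      linarith
    · simp only [Complex.add_im, Complex.add_re, Complex.real_smul, Complex.re_ofReal_mul, Complex.im_ofReal_mul]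
      have e1 := mul_lt_mul_of_pos_left x3 hs
      have e2 := mul_lt_mul_of_pos_left y3 ht
      have e3 : √3 * (a - (s * x.re + t * y.re)) = s * (√3 * (a - x.re)) + t * (√3 * (a - y.re)) := by
        have : t = 1 - s := by linarith
        rw [this]
        ring
      rw [e3]
      linarith
  · show 0 < a / 4
    positivity
  · show a / 4 < √3 * (a / 2)
    nlinarith
  · show a / 4 < √3 * (a - a / 2)
    nlinarith
  · rw [convex_iff_forall_pos]
    rintro x ⟨x1, x2, x3⟩ y ⟨y1, y2, y3⟩ s t hs ht hst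
    refine ⟨?_, ?_, ?_⟩
    · simp only [Complex.add_im, Complex.real_smul, Complex.re_ofReal_mul, Complex.im_ofReal_mul]
      positivity
    · simp only [Complex.add_im, Complex.add_re, Complex.real_smul, Complex.re_ofReal_mul, Complex.im_ofReal_mul]
      have e1 := mul_lt_mul_of_pos_left x2 hs
      have e2 := mul_lt_mul_of_pos_left y2 ht
      linarith
    · simp only [Complex.add_im, Complex.add_re, Complex.real_smul, Complex.re_ofReal_mul, Complex.im_ofReal_mul]
      have e1 := mul_lt_mul_of_pos_left x3 hs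
      have e2 := mul_lt_mul_of_pos_left y3 ht
      have e3 : s * (a / 2) + t * (a / 2) = a / 2 := by
        rw [← add_mul, hst, one_mul]
      linarith
  · show 0 < a / 8
    positivity
  · show a / 8 < √3 * (a / 4)
    nlinarith
  · show a / 4 < a / 2
    linarith

/-- TARGET 1 (from the given statements; fderiv v = fderiv f on the open triangle) -/
theorem eq_nocurve {a : ℝ} (ha : 0 < a) {lam : ℝ} (hlam : 0 < lam) {v : ℂ → ℝ}
    (hv : Wat (eqtri a) lam v) (hne : ∃ x, v x ≠ 0) :
    ¬ ∃ γ : Set ℂ, SimpleClosedCurve γ ∧ γ ⊆ eqtri a ∧ ∀ x ∈ γ, fderiv ℝ v x = 0 := by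
  rintro ⟨γ, hγ, hsub, hcrit⟩
  obtain ⟨f, hfv, hfs, hfla, hf1, hf2⟩ := eq_ext ha hlam hv
  obtain ⟨k₁, k₂, F, α, β, hk, hF, hf⟩ := periodic_modes
    (l₁ := √3 * a * Complex.I) (l₂ := a * (3 / 2 - √3 / 2 * Complex.I)) (by
      have h3 := sqrt3_pos
      have e1 : ((√3 * a * Complex.I : ℂ)).re = 0 := by simp
      have e2 : ((√3 * a * Complex.I : ℂ)).im = √3 * a := by simp
      have e3 : ((a * (3 / 2 - √3 / 2 * Complex.I) : ℂ)).re = a * (3 / 2) := by
        simp
      rw [e1, e2, e3]
      have : 0 < √3 * a * (a * (3 / 2)) := by positivity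
      intro h
      rw [zero_mul, zero_sub, neg_eq_zero] at h
      linarith) hfs hlam hfla hf1 hf2
  refine lattice_crit hk F α β hlam hF hf ?_ ⟨γ, hγ, fun x hx => ?_⟩
  · obtain ⟨x, hx⟩ := hne
    have hxm : x ∈ eqtri a := by
      by_contra h
      exact hx (hv.out x h)
    exact ⟨x, by rw [hfv x hxm]; exact hx⟩
  · have h1 : f =ᶠ[𝓝 x] v := by
      filter_upwards [(eqtri_open a).mem_nhds (hsub hx)] with y hy
      exact hfv y hy
    rw [h1.fderiv_eq]
    exact hcrit x hx

/-
Plain proof of TARGET 2. As `tri_refl` (Fin/REF.lean): u x - u (a - conj x), x ↦ a - conj x the reflection in the line re = a/2; test functions φ supported in eqtri a, ψ x = φ x - φ (a - conj x) vanishes on the line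
re = a/2 and near the other two sides of hemitri a, `green_bdry` and `reg`.
-/

theorem hemi_trans {φ : ℂ → ℝ} (hφ : SC φ) (c : ℂ) :
    SC (fun y => φ (y + c)) ∧ ∀ x, la (fun y => φ (y + c)) x = la φ (x + c) := by
  have hd : ∀ (χ : ℂ → ℝ) (v : ℂ), dd v (fun y => χ (y + c)) = fun y => dd v χ (y + c) := by
    intro χ v
    funext y
    unfold dd
    rw [fderiv_comp_add_right]
  refine ⟨⟨hφ.sm.comp (contDiff_id.add contDiff_const), ?_⟩, fun x => ?_⟩
  · exact hφ.cs.comp_homeomorph (Homeomorph.addRight c)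
  · unfold la
    rw [hd φ, hd φ, hd, hd]

theorem hemi_rc {φ : ℂ → ℝ} (hφ : SC φ) (a : ℝ) :
    SC (fun y => φ (a - conj y)) ∧ ∀ x, la (fun y => φ (a - conj y)) x = la φ (a - conj x) := by
  obtain ⟨h1, h2⟩ := hemi_trans hφ a
  have hm : ‖(-1 : ℂ)‖ = 1 := by simp
  obtain ⟨h3, h4⟩ := tri_refl_rc h1 hm
  have e : (fun y : ℂ => φ (-1 * conj y + a)) = fun y => φ (a - conj y) := by
    funext y
    congr 1
    ring
  rw [e] at h3 h4
  refine ⟨h3, fun x => ?_⟩
  rw [h4 x, h2]
  congr 1
  ring

theorem hemi_int {u φ : ℂ → ℝ} (hφ : SC φ) (lam a : ℝ) :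
    ∫ x, u (a - conj x) * (la φ x + lam * φ x) =
      ∫ x, u x * (la (fun y => φ (a - conj y)) x + lam * φ (a - conj x)) := by
  have hm : ‖(-1 : ℂ)‖ = 1 := by simp
  rw [← integral_add_right_eq_self
    (fun x => u x * (la (fun y => φ (a - conj y)) x + lam * φ (a - conj x))) (a : ℂ)]
  rw [← tri_refl_cv (Complex.conjLIE.trans (rotation ⟨-1, mem_sphere_zero_iff_norm.2 hm⟩))
    (fun x => u (x + a) * (la (fun y => φ (a - conj y)) (x + a) + lam * φ (a - conj (x + a))))]
  refine integral_congr_ae (Eventually.of_forall fun x => ?_)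
  simp only [LinearIsometryEquiv.trans_apply, Complex.conjLIE_apply]
  rw [(hemi_rc hφ a).2]
  change _ = u (-1 * conj x + a) * (la φ (a - conj (-1 * conj x + a)) +
    lam * φ (a - conj (-1 * conj x + a)))
  have e1 : (-1 : ℂ) * conj x + a = a - conj x := by ring
  have e2 : (a : ℂ) - conj (a - conj x) = x := by
    rw [map_sub, Complex.conj_conj, Complex.conj_ofReal]
    ring
  rw [e1, e2]

/-- TARGET 2: odd reflection of eigenfunctions of half the triangle. -/
theorem hemi_refl {a lam : ℝ} (ha : 0 < a) (hlam : 0 < lam) {u : ℂ → ℝ}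
    (hu : Wat (hemitri a) lam u) :
    Wat (eqtri a) lam (fun x => u x - u (a - conj x)) := by
  have hs : ∀ x : ℂ, ((a : ℂ) - conj x).re = a - x.re ∧ ((a : ℂ) - conj x).im = x.im := by
    intro x
    simp
  have hIc : Continuous fun x : ℂ => (a : ℂ) - conj x := by fun_prop
  have hout : ∀ x : ℂ, x ∉ eqtri a → u x = 0 := fun x hx => hu.out x fun h => hx (hemi_sub a h)
  have hswap : ∀ x : ℂ, x ∉ eqtri a → (a : ℂ) - conj x ∉ eqtri a := by
    intro x hx h
    apply hx
    obtain ⟨h1, h2, h3⟩ := h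
    rw [(hs x).2] at h1 h2 h3
    rw [(hs x).1] at h2 h3
    refine ⟨h1, ?_, h2⟩
    rwa [sub_sub_cancel] at h3
  have hDo := hemitri_open a
  have hDb : Bornology.IsBounded (hemitri a) := (eqtri_bdd ha).subset (hemi_sub a)
  have hcl : closure (hemitri a) ⊆ {x : ℂ | 0 ≤ x.im ∧ x.im ≤ √3 * x.re ∧ x.re ≤ a / 2} := by
    refine closure_minimal ?_ ?_
    · intro x hx
      exact ⟨hx.1.le, hx.2.1.le, hx.2.2.le⟩
    · have : {x : ℂ | 0 ≤ x.im ∧ x.im ≤ √3 * x.re ∧ x.re ≤ a / 2} =
          {x : ℂ | 0 ≤ x.im} ∩ ({x : ℂ | x.im ≤ √3 * x.re} ∩ {x : ℂ | x.re ≤ a / 2}) := rfl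
      rw [this]
      exact (isClosed_le continuous_const Complex.continuous_im).inter
        ((isClosed_le Complex.continuous_im (continuous_const.mul Complex.continuous_re)).inter
        (isClosed_le Complex.continuous_re continuous_const))
  have hcont : Continuous (fun x => u x - u (a - conj x)) :=
    hu.cont.sub (hu.cont.comp hIc)
  refine ⟨hcont, ?_, ?_⟩
  · intro x hx
    show u x - u (a - conj x) = 0
    rw [hout x hx, hout _ (hswap x hx), sub_zero]
  · refine reg (eqtri_open a) hlam hcont ?_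
    intro φ hφ hsu
    obtain ⟨q1, q2⟩ := hemi_rc hφ a
    obtain ⟨q3, q4⟩ := tri_refl_sub hφ q1
    have hφ0 : ∀ x, x ∉ eqtri a → φ x = 0 := fun x hx => by
      by_contra h
      exact hx (hsu (subset_tsupport _ h))
    have h0 : ∀ x ∈ frontier (hemitri a), φ x - φ (a - conj x) = 0 := by
      intro x hx
      have hx1 := hcl (frontier_subset_closure hx)
      have hx2 : x ∉ hemitri a := by
        intro h
        have := hx.2
        rw [hDo.interior_eq] at this
        exact this h
      obtain ⟨a1, a2, a3⟩ := hx1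
      have hcase : x.im = 0 ∨ x.im = √3 * x.re ∨ x.re = a / 2 := by
        by_contra hcon
        push Not at hcon
        exact hx2 ⟨lt_of_le_of_ne a1 (Ne.symm hcon.1), lt_of_le_of_ne a2 hcon.2.1,
          lt_of_le_of_ne a3 hcon.2.2⟩
      rcases hcase with h | h | h
      · have h1 : x ∉ eqtri a := fun hr => by
          have := hr.1
          rw [h] at this
          exact lt_irrefl _ this
        rw [hφ0 x h1, hφ0 _ (hswap x h1), sub_zero]
      · have h1 : x ∉ eqtri a := fun hr => by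
          have := hr.2.1
          rw [h] at this
          exact lt_irrefl _ this
        rw [hφ0 x h1, hφ0 _ (hswap x h1), sub_zero]
      · have h1 : (a : ℂ) - conj x = x := by
          apply Complex.ext
          · rw [(hs x).1, h]
            ring
          · rw [(hs x).2]
        rw [h1, sub_self]
    have hg := green_bdry hDo hDb hu q3 h0
    have i1 := tri_refl_ig hu.cont hφ lam
    have i2 : Integrable (fun x => u (a - conj x) * (la φ x + lam * φ x)) :=
      tri_refl_ig (hu.cont.comp hIc) hφ lam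
    have i3 := tri_refl_ig hu.cont q1 lam
    have e1 : ∫ x, (u x - u (a - conj x)) * (la φ x + lam * φ x) =
        (∫ x, u x * (la φ x + lam * φ x)) -
          ∫ x, u (a - conj x) * (la φ x + lam * φ x) := by
      rw [← integral_sub i1 i2]
      refine integral_congr_ae (Eventually.of_forall fun x => ?_)
      simp only
      ring
    rw [e1, hemi_int hφ lam a, ← integral_sub i1 i3, ← hg]
    refine integral_congr_ae (Eventually.of_forall fun x => ?_)
    simp only
    rw [q4]
    ring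

/-- TARGET 3 (from TARGETS 1 and 2) -/
theorem hemi_nocurve {a : ℝ} (ha : 0 < a) {lam : ℝ} (hlam : 0 < lam) {v : ℂ → ℝ}
    (hv : Wat (hemitri a) lam v) (hne : ∃ x, v x ≠ 0) :
    ¬ ∃ γ : Set ℂ, SimpleClosedCurve γ ∧ γ ⊆ hemitri a ∧ ∀ x ∈ γ, fderiv ℝ v x = 0 := by
  rintro ⟨γ, hγ, hsub, hcrit⟩
  have hr : ∀ x ∈ hemitri a, v (a - conj x) = 0 := by
    intro x hx
    apply hv.out
    intro h
    have h1 := h.2.2
    have h2 := hx.2.2
    have h3 : ((a : ℂ) - conj x).re = a - x.re := by simp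
    rw [h3] at h1
    linarith
  refine eq_nocurve ha hlam (hemi_refl ha hlam hv) ?_ ⟨γ, hγ, hsub.trans (hemi_sub a), ?_⟩
  · obtain ⟨x, hx⟩ := hne
    have hxm : x ∈ hemitri a := by
      by_contra h
      exact hx (hv.out x h)
    refine ⟨x, ?_⟩
    show v x - v (a - conj x) ≠ 0
    rw [hr x hxm, sub_zero]
    exact hx
  · intro x hx
    have h1 : (fun x => v x - v (a - conj x)) =ᶠ[𝓝 x] v := by
      filter_upwards [(hemitri_open a).mem_nhds (hsub hx)] with y hy
      rw [hr y hy, sub_zero]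
    rw [h1.fderiv_eq]
    exact hcrit x hx

end Pool.Agent.Helper327_Drum
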