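import Pool.Agent.Helper327_Drum.Fin.FM1
import Pool.Agent.Helper327_Drum.Fin.AS2
import Pool.Agent.Helper327_Drum.Fin.FQ1
import Pool.Agent.Helper327_Drum.Fin.FQ2

/-
JOB FQ3 (owner helper327, problem MP_d92c84_an). All imports are on origin/main. Prove only the TARGET; the lemmas marked given are proved in other jobs.
-/

set_option autoImplicit false
open MeasureTheory Set Filter Topology ComplexConjugate
open scoped ContDiff InnerProductSpace

namespace Pool.Agent.Helper327_Drum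

open Pool.Agent.TH298.Sch (dd SC)
open Pool.Agent.R227.SA (la Wat Dat)

/-
This generalises `family_index` (Fin/FM1.lean; the case m = 0), whose proof should be followed. There are now m + 1 eigenvalues ν 0 < ... < ν m =: lam, u is an eigenfunction of D for the largest one, and every region
Ω i carries `Dat` solutions v i j for all of them.
The functions used (index set Option of a sigma type): `none`: (D, u, ν m). For i ∉ M: the 3 functions x ↦ fderiv (v i m) x 1, fderiv (v i m) x I, fderiv (v i m) x (I * x) on Ω i, for the TOP eigenvalue ν m (as in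
family_index). For i ∈ M: the 5 functions of family_index made from v i 0 for the LOWEST eigenvalue ν 0 (∂₁, ∂_I on Ω i and the three pieces (G i j, indicator of x ↦ fderiv (v i 0) x (I * (x - p))) from `three_comps`),
and for each j with 1 ≤ j ≤ m the 3 functions fderiv (v i j) x 1, fderiv (v i j) x I, fderiv (v i j) x (I * x) on Ω i, for ν j. Number: 3 (l - |M|) + (5 + 3 m) |M| = 3 l + (3 m + 2) |M|.
Quadratic form hQ: for F with the stated properties write Σ a F = a_none F_none + Σ_i X_i, X_i ∈ V (Ω i). For i ∈ M: ‖X_i‖² ≤ (1+lam) ‖X_i 0‖² by `multi_le` with H = V (Ω i) (or W3 restricted to it), J the first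
component, P = the five functions (their Gram matrix as in index_family: the sets are nested or disjoint), E = the others (on the whole of Ω i). For i ∉ M: equality (three solutions on Ω i for lam; also
multi_le or directly). Mixed terms: ⟪F_none, X⟫ = (1+lam) ⟪F_none 0, X 0⟫ for all X ∈ V D (`V_mono` for V (Ω i) ≤ V D); for i ≠ i' the closures are disjoint: ⟪X_i, X_i'⟫ = 0 = ⟪X_i 0, X_i' 0⟫ (`orth` and `inner_W3`
in Fin/K1d.lean, as in index_family), or nested, say closure (Ω i) ⊆ Ω i', then i' ∉ M by hM, so X_i' is a combination of solutions on Ω i' for lam and X_i ∈ V (Ω i) ≤ V (Ω i'), so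
⟪X_i', X_i⟫ = (1+lam) ⟪X_i' 0, X_i 0⟫. Adding up: ‖S‖² - (1+lam)‖S 0‖² = Σ_i (‖X_i‖² - (1+lam)‖X_i 0‖²) ≤ 0.
Linear independence: as in family_index (well-founded induction on i, outermost regions first); on the open nonempty set O = Ω i \ (closures of the inner regions) the relation reduces to the functions of the index i.
For i ∉ M this is `family_key`. For i ∈ M (O = Ω i): f_0 + f_1 + ... + f_m = 0 on Ω i where f_0 is the combination of the five functions for ν 0 and f_j (j ≥ 1) the combination of the three for ν j;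
on each piece G i k (open) and also on Ω i minus the closures of the pieces f_0 is smooth with la f_0 = -ν 0 f_0 (`kill_wat`, `wat_smooth`); by `helm_sum_zero` on the open set G i k all f_j vanish there;
for j ≥ 1 f_j = fderiv (v i j) x (a + b I x) is in Wat (Ω i) (ν j) (`kill_wat`), so it vanishes on Ω i by unique continuation (`Wat.uc`), and then its three coefficients vanish because Ω i is not a disc
(`kill_disc` as in hnr in family_index); then f_0 = 0 on Ω i and `family_key` gives the five coefficients.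
-/

/-- a quadratic form estimate for a sum of pieces whose mixed terms cancel -/
theorem fq_quad {H L : Type*} [NormedAddCommGroup H] [InnerProductSpace ℝ H]
    [NormedAddCommGroup L] [InnerProductSpace ℝ L] (J : H →ₗ[ℝ] L) {ι : Type*} [Fintype ι]
    (lam : ℝ) (F0 : H) (a : ℝ) (X : ι → H)
    (h0 : ∀ i, ⟪F0, X i⟫_ℝ = (1 + lam) * ⟪J F0, J (X i)⟫_ℝ)
    (h00 : ⟪F0, F0⟫_ℝ = (1 + lam) * ⟪J F0, J F0⟫_ℝ)
    (hij : ∀ i j, i ≠ j → ⟪X i, X j⟫_ℝ = (1 + lam) * ⟪J (X i), J (X j)⟫_ℝ)
    (hii : ∀ i, ‖X i‖ ^ 2 ≤ (1 + lam) * ‖J (X i)‖ ^ 2) :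
    ‖a • F0 + ∑ i, X i‖ ^ 2 ≤ (1 + lam) * ‖J (a • F0 + ∑ i, X i)‖ ^ 2 := by
  classical
  have e1 : ‖a • F0 + ∑ i, X i‖ ^ 2 = a ^ 2 * ⟪F0, F0⟫_ℝ + 2 * a * ∑ i, ⟪F0, X i⟫_ℝ
      + ∑ i, ∑ j, ⟪X i, X j⟫_ℝ := by
    rw [← real_inner_self_eq_norm_sq, inner_add_left, inner_add_right, inner_add_right,
      real_inner_smul_left, real_inner_smul_right, real_inner_smul_left, real_inner_smul_right,
      real_inner_comm F0 (∑ i, X i), inner_sum, sum_inner]
    simp only [inner_sum]
    ring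
  have e2 : ‖J (a • F0 + ∑ i, X i)‖ ^ 2 = a ^ 2 * ⟪J F0, J F0⟫_ℝ
      + 2 * a * ∑ i, ⟪J F0, J (X i)⟫_ℝ + ∑ i, ∑ j, ⟪J (X i), J (X j)⟫_ℝ := by
    rw [map_add, map_smul, map_sum, ← real_inner_self_eq_norm_sq, inner_add_left, inner_add_right,
      inner_add_right, real_inner_smul_left, real_inner_smul_right, real_inner_smul_left,
      real_inner_smul_right, real_inner_comm (J F0) (∑ i, J (X i)), inner_sum, sum_inner]
    simp only [inner_sum]
    ring
  have e3 : ∑ i, ⟪F0, X i⟫_ℝ = (1 + lam) * ∑ i, ⟪J F0, J (X i)⟫_ℝ := by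
    rw [Finset.mul_sum]
    exact Finset.sum_congr rfl (fun i _ => h0 i)
  have e4 : ∑ i, ∑ j, ⟪X i, X j⟫_ℝ ≤ (1 + lam) * ∑ i, ∑ j, ⟪J (X i), J (X j)⟫_ℝ := by
    rw [Finset.mul_sum]
    refine Finset.sum_le_sum (fun i _ => ?_)
    rw [Finset.mul_sum]
    refine Finset.sum_le_sum (fun j _ => ?_)
    by_cases h : i = j
    · subst h
      rw [real_inner_self_eq_norm_sq, real_inner_self_eq_norm_sq]
      exact hii i
    · exact (hij i j h).le
  rw [e1, e2, e3, h00]
  linarith

/-- the functions belonging to one region and several eigenvalues are independent on large open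
subsets -/
theorem family_key_multi {Ω : Set ℂ} {lam c : ℝ} {v : ℂ → ℝ} (hv : Dat Ω lam c v) (hlam : 0 < lam)
    (hcon : IsPreconnected Ω)
    (hnr : ∀ (a : ℂ) (b : ℝ), a ≠ 0 ∨ b ≠ 0 → ∃ x, fderiv ℝ v x (a + b * Complex.I * x) ≠ 0)
    {m : ℕ} (hm : 0 < m) (p : ℂ) (G : Fin m → Set ℂ) (hGo : ∀ j, IsOpen (G j))
    (hGs : ∀ j, G j ⊆ Ω) (hGd : ∀ i j, i ≠ j → Disjoint (G i) (G j)) {O : Set ℂ} (hO : IsOpen O)
    (hGO : ∀ j, (G j ∩ O).Nonempty) {n : ℕ} (lam' c' : Fin n → ℝ) (v' : Fin n → ℂ → ℝ)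
    (hv' : ∀ j, Dat Ω (lam' j) (c' j) (v' j)) (hlam' : ∀ j, 0 < lam' j)
    (hne : ∀ j, lam' j ≠ lam) (hinj : Function.Injective lam')
    (hnr' : ∀ (j : Fin n) (a : ℂ) (b : ℝ), a ≠ 0 ∨ b ≠ 0 →
      ∃ x, fderiv ℝ (v' j) x (a + b * Complex.I * x) ≠ 0)
    (g : (Fin 2 ⊕ Fin m) ⊕ (Fin n × Fin 3) → ℝ)
    (hg : ∀ x ∈ O, ∑ k, g k * (Sum.elim (Sum.elim
      (fun (k : Fin 2) x => fderiv ℝ v x (![1, Complex.I] k))
      (fun j => (G j).indicator fun x => fderiv ℝ v x (Complex.I * (x - p))))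
      (fun jk x => fderiv ℝ (v' jk.1) x (![1, Complex.I, Complex.I * x] jk.2)) k : ℂ → ℝ) x = 0) :
    g = 0 := by
  classical
  set j0 : Fin m := ⟨0, hm⟩ with hj0
  obtain ⟨q, hqG, hqO⟩ := hGO j0
  set b : ℝ := g (Sum.inl (Sum.inr j0)) with hb
  set d₁ : ℝ := g (Sum.inl (Sum.inl 0)) with hd1
  set d₂ : ℝ := g (Sum.inl (Sum.inl 1)) with hd2
  have hform : ∀ x, fderiv ℝ v x ((d₁ + d₂ * Complex.I - b * Complex.I * p)
      + b * Complex.I * x) = b * fderiv ℝ v x (Complex.I * (x - p)) + d₁ * fderiv ℝ v x 1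
      + d₂ * fderiv ℝ v x Complex.I := by
    intro x
    have h1 : ((d₁ : ℂ) + d₂ * Complex.I - b * Complex.I * p) + b * Complex.I * x
        = b • (Complex.I * (x - p)) + d₁ • (1 : ℂ) + d₂ • Complex.I := by
      simp only [Complex.real_smul]
      ring
    rw [h1, map_add, map_add, map_smul, map_smul, map_smul]
    rfl
  have hext : ∀ (j : Fin n) (x : ℂ), ∑ k : Fin 3, g (Sum.inr (j, k)) *
      fderiv ℝ (v' j) x (![1, Complex.I, Complex.I * x] k) = fderiv ℝ (v' j) x
        (((g (Sum.inr (j, 0)) : ℂ) + g (Sum.inr (j, 1)) * Complex.I)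
          + g (Sum.inr (j, 2)) * Complex.I * x) := by
    intro j x
    have h1 : (((g (Sum.inr (j, 0)) : ℂ) + g (Sum.inr (j, 1)) * Complex.I)
          + g (Sum.inr (j, 2)) * Complex.I * x) = g (Sum.inr (j, 0)) • (1 : ℂ)
          + g (Sum.inr (j, 1)) • Complex.I + g (Sum.inr (j, 2)) • (Complex.I * x) := by
      simp only [Complex.real_smul]
      ring
    rw [h1, map_add, map_add, map_smul, map_smul, map_smul, Fin.sum_univ_three]
    rfl
  have hsplit : ∀ x, ∑ k, g k * (Sum.elim (Sum.elim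
      (fun (k : Fin 2) x => fderiv ℝ v x (![1, Complex.I] k))
      (fun j => (G j).indicator fun x => fderiv ℝ v x (Complex.I * (x - p))))
      (fun jk x => fderiv ℝ (v' jk.1) x (![1, Complex.I, Complex.I * x] jk.2)) k : ℂ → ℝ) x =
      (∑ k, g (Sum.inl k) * (Sum.elim (fun (k : Fin 2) x => fderiv ℝ v x (![1, Complex.I] k))
        (fun j => (G j).indicator fun x => fderiv ℝ v x (Complex.I * (x - p))) k : ℂ → ℝ) x) +
      ∑ j : Fin n, fderiv ℝ (v' j) x
        (((g (Sum.inr (j, 0)) : ℂ) + g (Sum.inr (j, 1)) * Complex.I)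
          + g (Sum.inr (j, 2)) * Complex.I * x) := by
    intro x
    rw [Fintype.sum_sum_type, Fintype.sum_prod_type]
    congr 1
    exact Finset.sum_congr rfl (fun j _ => hext j x)
  set Φ : Fin (n + 1) → ℂ → ℝ := Fin.cons
    (fun x => fderiv ℝ v x (((d₁ : ℂ) + d₂ * Complex.I - b * Complex.I * p) + b * Complex.I * x))
    (fun j x => fderiv ℝ (v' j) x
        (((g (Sum.inr (j, 0)) : ℂ) + g (Sum.inr (j, 1)) * Complex.I)
          + g (Sum.inr (j, 2)) * Complex.I * x)) with hΦ
  set μ : Fin (n + 1) → ℝ := Fin.cons lam lam' with hμ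
  have hμi : Function.Injective μ := by
    rw [hμ, Fin.cons_injective_iff]
    refine ⟨?_, hinj⟩
    rintro ⟨j, hj⟩
    exact hne j hj
  have hOo : IsOpen (G j0 ∩ O) := (hGo j0).inter hO
  have hW0 := kill_wat hv ((d₁ : ℂ) + d₂ * Complex.I - b * Complex.I * p) b
  have hWj := fun j : Fin n => kill_wat (hv' j)
    ((g (Sum.inr (j, 0)) : ℂ) + g (Sum.inr (j, 1)) * Complex.I) (g (Sum.inr (j, 2)))
  have hz := helm_sum_zero μ hμi Φ hOo (by
    intro i
    refine Fin.cases ?_ (fun j => ?_) i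
    · intro x hx
      exact wat_smooth hW0 (hGs j0 hx.1)
    · intro x hx
      exact wat_smooth (hWj j) (hGs j0 hx.1)) (by
    intro x hx
    have h1 := hg x hx.2
    rw [hsplit] at h1
    rw [Fin.sum_univ_succ]
    simp only [hΦ, Fin.cons_zero, Fin.cons_succ]
    rw [hform]
    rw [Fintype.sum_sum_type, Fin.sum_univ_two, Finset.sum_eq_single j0] at h1
    · simp only [Sum.elim_inl, Sum.elim_inr, indicator_of_mem hx.1, Matrix.cons_val_zero,
        Matrix.cons_val_one] at h1
      linarith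
    · intro k _ hk
      simp only [Sum.elim_inr]
      rw [indicator_of_notMem (fun h => (hGd k j0 hk).le_bot ⟨h, hx.1⟩), mul_zero]
    · intro h
      exact absurd (Finset.mem_univ j0) h)
  have hr : ∀ (j : Fin n) (k : Fin 3), g (Sum.inr (j, k)) = 0 := by
    intro j
    have hzj : ∀ x ∈ G j0 ∩ O, fderiv ℝ (v' j) x
        (((g (Sum.inr (j, 0)) : ℂ) + g (Sum.inr (j, 1)) * Complex.I)
          + g (Sum.inr (j, 2)) * Complex.I * x) = 0 := hz (Fin.succ j)
    have hall : ∀ x, fderiv ℝ (v' j) x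
        (((g (Sum.inr (j, 0)) : ℂ) + g (Sum.inr (j, 1)) * Complex.I)
          + g (Sum.inr (j, 2)) * Complex.I * x) = 0 := by
      refine (hWj j).uc (hlam' j) hcon (hGs j0 hqG) ?_
      filter_upwards [hOo.mem_nhds ⟨hqG, hqO⟩] with x hx using hzj x hx
    have h2 : ¬ (((g (Sum.inr (j, 0)) : ℂ) + g (Sum.inr (j, 1)) * Complex.I) ≠ 0 ∨
        g (Sum.inr (j, 2)) ≠ 0) := by
      intro h3
      obtain ⟨x, hx⟩ := hnr' j _ _ h3
      exact hx (hall x)
    push Not at h2
    obtain ⟨h4, h5⟩ := h2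
    have h6 := congrArg Complex.re h4
    have h7 := congrArg Complex.im h4
    simp at h6 h7
    intro k
    fin_cases k
    · exact h6
    · exact h7
    · exact h5
  have hbase : (fun k => g (Sum.inl k)) = 0 := by
    refine family_key hv hlam hcon hnr hm p G hGo hGs hGd hO hGO _ ?_
    intro x hx
    have h1 := hg x hx
    rw [hsplit] at h1
    rw [Finset.sum_eq_zero (s := (Finset.univ : Finset (Fin n))) (fun j _ => by
      rw [hr, hr, hr]
      simp), add_zero] at h1
    exact h1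
  funext k
  rcases k with k | ⟨j, k⟩
  · exact congrFun hbase k
  · exact hr j k

/-- TARGET: the index bound for a family of regions and several eigenvalues. -/
theorem family_index_multi {D : Set ℂ} {m : ℕ} (ν : Fin (m + 1) → ℝ) (hν : StrictMono ν)
    (hν0 : 0 < ν 0) {u : ℂ → ℝ} (hDo : IsOpen D) (hDb : Bornology.IsBounded D)
    (hDc : IsPreconnected D) (hu : Wat D (ν (Fin.last m)) u)
    (hu0 : ∃ x, u x ≠ 0) {l : ℕ} (hl : 1 ≤ l) (Ω : Fin l → Set ℂ)
    (v : Fin l → Fin (m + 1) → ℂ → ℝ) (c : Fin l → Fin (m + 1) → ℝ)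
    (hv : ∀ i j, Dat (Ω i) (ν j) (c i j) (v i j)) (hc : ∀ i j, c i j ≠ 0)
    (ho : ∀ i, IsOpen (Ω i)) (hcon : ∀ i, IsConnected (Ω i))
    (hreg : ∀ i, interior (closure (Ω i)) = Ω i) (hcc : ∀ i, IsPreconnected (Ω i)ᶜ)
    (hΩD : ∀ i, closure (Ω i) ⊆ D)
    (hrel : ∀ i j, i ≠ j → closure (Ω i) ⊆ Ω j ∨ closure (Ω j) ⊆ Ω i ∨
      Disjoint (closure (Ω i)) (closure (Ω j)))
    (hout : (D \ ⋃ i, closure (Ω i)).Nonempty)
    (hnd : ∀ i, ¬ ∃ (p : ℂ) (r : ℝ), 0 < r ∧ Ω i = Metric.ball p r)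
    (M : Finset (Fin l)) (hM : ∀ i ∈ M, ∀ j, j ≠ i → ¬ closure (Ω j) ⊆ Ω i) :
    dirichletEigenvalue (3 * l + (3 * m + 2) * M.card) D < ν (Fin.last m) := by
  classical
  have hb : ∀ i, Bornology.IsBounded (Ω i) := fun i => hDb.subset (subset_closure.trans (hΩD i))
  have hνp : ∀ j, 0 < ν j := fun j => hν0.trans_le (hν.monotone (Fin.zero_le j))
  have hνl : ∀ j, ν j ≤ ν (Fin.last m) := fun j => hν.monotone (Fin.le_last j)
  have hlam : 0 < ν (Fin.last m) := hνp _
  have hnr : ∀ i j (a : ℂ) (b : ℝ), a ≠ 0 ∨ b ≠ 0 →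
      ∃ x, fderiv ℝ (v i j) x (a + b * Complex.I * x) ≠ 0 := by
    intro i j a b hab
    by_contra hcon2
    push Not at hcon2
    exact hnd i (kill_disc (hv i j) (ho i) (hb i) (hcon i).nonempty (hcon i).isPreconnected
      (hreg i) (hcc i) (hνp j) (hc i j) hab hcon2)
  have hdata : ∀ i, ∃ (j₀ : Fin (m + 1)) (n : ℕ) (e : Fin n → Fin (m + 1)) (p : ℂ) (q : ℕ)
      (G : Fin q → Set ℂ), q = (if i ∈ M then 3 else 1) ∧ n = (if i ∈ M then m else 0) ∧
      (i ∉ M → j₀ = Fin.last m) ∧ Function.Injective e ∧ (∀ j, e j ≠ j₀) ∧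
      (∀ j, ν j₀ ≤ ν (e j)) ∧
      (∀ j, IsOpen (G j) ∧ (G j).Nonempty ∧ G j ⊆ Ω i) ∧
      (∀ j k, j ≠ k → Disjoint (G j) (G k)) ∧
      (∀ j, Wat (G j) (ν j₀)
        ((G j).indicator fun x => fderiv ℝ (v i j₀) x (Complex.I * (x - p)))) ∧
      (i ∉ M → ∀ j, G j = Ω i) := by
    intro i
    by_cases hi : i ∈ M
    · obtain ⟨p, G, hG, hGd, hGw⟩ := three_comps (hv i 0) (hb i) (hcon i).nonempty
        (hcon i).isPreconnected (hνp 0) (hc i 0) (hnr i 0)
      exact ⟨0, m, Fin.succ, p, 3, G, by simp [hi], by simp [hi], fun h => absurd hi h,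
        Fin.succ_injective m, fun j => Fin.succ_ne_zero j,
        fun j => hν.monotone (Fin.zero_le _), hG, hGd, hGw, fun h => absurd hi h⟩
    · refine ⟨Fin.last m, 0, Fin.elim0, 0, 1, fun _ => Ω i, by simp [hi], by simp [hi],
        fun _ => rfl, fun j => j.elim0, fun j => j.elim0, fun j => j.elim0,
        fun _ => ⟨ho i, (hcon i).nonempty, subset_rfl⟩,
        fun j k hjk => absurd (Subsingleton.elim j k) hjk, fun _ => ?_, fun _ _ => rfl⟩
      have h1 := kill_wat (hv i (Fin.last m)) 0 1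
      have h3 : ∀ x : ℂ, Complex.I * (x - 0) = 0 + ((1 : ℝ) : ℂ) * Complex.I * x := by
        intro x
        push_cast
        ring
      have h2 : (Ω i).indicator (fun x => fderiv ℝ (v i (Fin.last m)) x (Complex.I * (x - 0))) =
          fun x => fderiv ℝ (v i (Fin.last m)) x (0 + ((1 : ℝ) : ℂ) * Complex.I * x) := by
        funext x
        by_cases hx : x ∈ Ω i
        · rw [indicator_of_mem hx, h3]
        · rw [indicator_of_notMem hx]
          exact (h1.out x hx).symm
      rw [h2]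
      exact h1
  choose j₀ n e p q G hq hn hj₀ hei hej hel hG hGd hGw hGM using hdata
  have hqpos : ∀ i, 0 < q i := by
    intro i
    rw [hq i]
    split_ifs <;> norm_num
  have hn0 : ∀ i, i ∉ M → n i = 0 := by
    intro i hi
    rw [hn i, if_neg hi]
  set F : ∀ i : Fin l, (Fin 2 ⊕ Fin (q i)) ⊕ (Fin (n i) × Fin 3) → ℂ → ℝ := fun i =>
    Sum.elim (Sum.elim (fun (k : Fin 2) x => fderiv ℝ (v i (j₀ i)) x (![1, Complex.I] k))
      (fun j => (G i j).indicator fun x => fderiv ℝ (v i (j₀ i)) x (Complex.I * (x - p i))))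
      (fun jk x => fderiv ℝ (v i (e i jk.1)) x (![1, Complex.I, Complex.I * x] jk.2)) with hF
  set A : ∀ i : Fin l, (Fin 2 ⊕ Fin (q i)) ⊕ (Fin (n i) × Fin 3) → Set ℂ := fun i =>
    Sum.elim (Sum.elim (fun _ => Ω i) (G i)) (fun _ => Ω i) with hA
  set μ : ∀ i : Fin l, (Fin 2 ⊕ Fin (q i)) ⊕ (Fin (n i) × Fin 3) → ℝ := fun i =>
    Sum.elim (fun _ => ν (j₀ i)) (fun jk => ν (e i jk.1)) with hμ
  have hW1 : ∀ i j, Wat (Ω i) (ν j) (fun x => fderiv ℝ (v i j) x 1) := by
    intro i j
    have := kill_wat (hv i j) 1 0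
    simpa using this
  have hWI : ∀ i j, Wat (Ω i) (ν j) (fun x => fderiv ℝ (v i j) x Complex.I) := by
    intro i j
    have := kill_wat (hv i j) Complex.I 0
    simpa using this
  have hWx : ∀ i j, Wat (Ω i) (ν j) (fun x => fderiv ℝ (v i j) x (Complex.I * x)) := by
    intro i j
    have := kill_wat (hv i j) 0 1
    simpa using this
  have hAo : ∀ i k, IsOpen (A i k) ∧ A i k ⊆ Ω i := by
    intro i k
    rcases k with (k | j) | k
    · exact ⟨ho i, subset_rfl⟩
    · exact ⟨(hG i j).1, (hG i j).2.2⟩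
    · exact ⟨ho i, subset_rfl⟩
  have hFW : ∀ i k, Wat (A i k) (μ i k) (F i k) := by
    intro i k
    rcases k with (k | j) | ⟨j, k⟩
    · fin_cases k
      · exact hW1 i _
      · exact hWI i _
    · exact hGw i j
    · fin_cases k
      · exact hW1 i _
      · exact hWI i _
      · exact hWx i _
  have hFout : ∀ i k x, x ∉ Ω i → F i k x = 0 := fun i k x hx =>
    (hFW i k).out x (fun h => hx ((hAo i k).2 h))
  have hclD : ∀ i, Ω i ⊆ D := fun i => subset_closure.trans (hΩD i)
  have hcard : Fintype.card (Σ i, (Fin 2 ⊕ Fin (q i)) ⊕ (Fin (n i) × Fin 3)) =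
      3 * l + (3 * m + 2) * M.card := by
    rw [Fintype.card_sigma]
    have h1 : ∀ i, Fintype.card ((Fin 2 ⊕ Fin (q i)) ⊕ (Fin (n i) × Fin 3)) =
        3 + (3 * m + 2) * (if i ∈ M then 1 else 0) := by
      intro i
      rw [Fintype.card_sum, Fintype.card_sum, Fintype.card_prod, Fintype.card_fin,
        Fintype.card_fin, Fintype.card_fin, Fintype.card_fin, hq i, hn i]
      split_ifs
      · ring
      · norm_num
    rw [Finset.sum_congr rfl (fun i _ => h1 i), Finset.sum_add_distrib, ← Finset.mul_sum,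
      Finset.sum_boole]
    simp
    ring
  obtain ⟨a, haD, haΩ⟩ := hout
  have hanear : ∀ i, ∀ᶠ x in 𝓝 a, x ∉ Ω i := by
    intro i
    have h1 : (closure (Ω i))ᶜ ∈ 𝓝 a :=
      isClosed_closure.isOpen_compl.mem_nhds (fun h => haΩ (mem_iUnion.2 ⟨i, h⟩))
    filter_upwards [h1] with x hx hx2
    exact hx (subset_closure hx2)
  refine index_family_le_option hDo hDb hDc hlam (by omega) hcard
    (fun o => o.elim D (fun s => A s.1 s.2)) (fun o => o.elim u (fun s => F s.1 s.2))
    (fun o => o.elim (ν (Fin.last m)) (fun s => μ s.1 s.2)) ?_ ?_ ?_ rfl rfl ?_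
    ⟨a, haD, ?_⟩ ?_
  · rintro (_ | ⟨i, k⟩)
    · exact ⟨hDo, subset_rfl⟩
    · exact ⟨(hAo i k).1, (hAo i k).2.trans (hclD i)⟩
  · rintro (_ | ⟨i, k⟩)
    · exact hlam
    · rcases k with k | ⟨j, k⟩
      · exact hνp _
      · exact hνp _
  · rintro (_ | ⟨i, k⟩)
    · exact hu
    · exact hFW i k
  · -- the quadratic form
    intro Y hY a
    set X : Fin l → W3 := fun i => ∑ k, a (some ⟨i, k⟩) • Y (some ⟨i, k⟩) with hX
    have hS : ∑ o, a o • Y o = a none • Y none + ∑ i, X i := by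
      rw [Fintype.sum_option, Fintype.sum_sigma]
    have hYV : ∀ i k, Y (some ⟨i, k⟩) ∈ V (Ω i) := fun i k =>
      V_mono (hAo i k).2 (hY (some ⟨i, k⟩)).1
    have hXV : ∀ i, X i ∈ V (Ω i) := fun i =>
      Submodule.sum_mem _ (fun k _ => Submodule.smul_mem _ _ (hYV i k))
    have hXtop : ∀ i, i ∉ M → ∀ H ∈ V (Ω i),
        ⟪X i, H⟫_ℝ = (1 + ν (Fin.last m)) * ⟪X i 0, H 0⟫_ℝ := by
      intro i hi H hH
      have h1 : X i 0 = ∑ k, a (some ⟨i, k⟩) • (Y (some ⟨i, k⟩) 0) :=
        map_sum (PiLp.proj 2 (fun _ : Fin 3 => L2) (0 : Fin 3) : W3 →L[ℝ] L2)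
          (fun k => a (some ⟨i, k⟩) • Y (some ⟨i, k⟩)) Finset.univ
      rw [h1, hX]
      simp only
      rw [sum_inner, sum_inner, Finset.mul_sum]
      refine Finset.sum_congr rfl (fun k _ => ?_)
      rw [real_inner_smul_left, real_inner_smul_left]
      rcases k with k | ⟨j, k⟩
      · have h2 : H ∈ V (A i (Sum.inl k)) := by
          have h3 : A i (Sum.inl k) = Ω i := by
            rcases k with k | j
            · rfl
            · exact hGM i hi j
          rw [h3]
          exact hH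
        have h4 := (hY (some ⟨i, Sum.inl k⟩)).2.2 H h2
        have h5 : μ i (Sum.inl k) = ν (Fin.last m) := by
          change ν (j₀ i) = _
          rw [hj₀ i hi]
        change ⟪Y (some ⟨i, Sum.inl k⟩), H⟫_ℝ = (1 + μ i (Sum.inl k)) * _ at h4
        rw [h4, h5]
        ring
      · exfalso
        have h6 := j.2
        have h7 := hn0 i hi
        omega
    have hone : ∀ i j, i ≠ j → closure (Ω i) ⊆ Ω j →
        ⟪X j, X i⟫_ℝ = (1 + ν (Fin.last m)) * ⟪X j 0, X i 0⟫_ℝ := by
      intro i j hij h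
      exact hXtop j (fun hj => hM j hj i hij h) (X i) (V_mono (subset_closure.trans h) (hXV i))
    rw [hS]
    refine fq_quad (PiLp.proj 2 (fun _ : Fin 3 => L2) (0 : Fin 3) : W3 →L[ℝ] L2).toLinearMap
      (ν (Fin.last m)) (Y none) (a none) X ?_ ?_ ?_ ?_
    · intro i
      exact (hY none).2.2 (X i) (V_mono (hclD i) (hXV i))
    · exact (hY none).2.2 (Y none) (hY none).1
    · intro i j hij
      change ⟪X i, X j⟫_ℝ = (1 + ν (Fin.last m)) * ⟪X i 0, X j 0⟫_ℝ
      rcases hrel i j hij with h | h | h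
      · rw [real_inner_comm, hone i j hij h, real_inner_comm]
      · exact hone j i (Ne.symm hij) h
      · have hd : Disjoint (Ω i) (Ω j) := h.mono subset_closure subset_closure
        rw [inner_W3, orth hd (hXV i) (hXV j) 0, orth hd (hXV i) (hXV j) 1,
          orth hd (hXV i) (hXV j) 2]
        simp
    · intro i
      have hml := multi_le
        ((PiLp.proj 2 (fun _ : Fin 3 => L2) (0 : Fin 3) : W3 →L[ℝ] L2).toLinearMap.comp
          (V (Ω i)).subtype)
        (fun k : Fin 2 ⊕ Fin (q i) => (⟨Y (some ⟨i, Sum.inl k⟩), hYV i (Sum.inl k)⟩ : V (Ω i)))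
        (fun k : Fin (n i) × Fin 3 => (⟨Y (some ⟨i, Sum.inr k⟩), hYV i (Sum.inr k)⟩ : V (Ω i)))
        (ν₀ := ν (j₀ i)) (lam := ν (Fin.last m)) (fun k => ν (e i k.1)) (hνp _).le (hνl _)
        (fun k => ⟨hel i k.1, hνl _⟩) ?_ ?_ (fun k => a (some ⟨i, Sum.inl k⟩))
        (fun k => a (some ⟨i, Sum.inr k⟩))
      · have hXe : (((∑ k : Fin 2 ⊕ Fin (q i), a (some ⟨i, Sum.inl k⟩) •
            (⟨Y (some ⟨i, Sum.inl k⟩), hYV i (Sum.inl k)⟩ : V (Ω i))) +
            ∑ k : Fin (n i) × Fin 3, a (some ⟨i, Sum.inr k⟩) •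
            (⟨Y (some ⟨i, Sum.inr k⟩), hYV i (Sum.inr k)⟩ : V (Ω i)) : V (Ω i)) : W3) = X i := by
          rw [hX]
          simp only [Submodule.coe_add, Submodule.coe_sum, Submodule.coe_smul]
          exact (Fintype.sum_sum_type (fun k => a (some ⟨i, k⟩) • Y (some ⟨i, k⟩))).symm
        have h5 : ‖(((∑ k : Fin 2 ⊕ Fin (q i), a (some ⟨i, Sum.inl k⟩) •
            (⟨Y (some ⟨i, Sum.inl k⟩), hYV i (Sum.inl k)⟩ : V (Ω i))) +
            ∑ k : Fin (n i) × Fin 3, a (some ⟨i, Sum.inr k⟩) •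
            (⟨Y (some ⟨i, Sum.inr k⟩), hYV i (Sum.inr k)⟩ : V (Ω i)) : V (Ω i)) : W3)‖ ^ 2 ≤
            (1 + ν (Fin.last m)) *
            ‖(((∑ k : Fin 2 ⊕ Fin (q i), a (some ⟨i, Sum.inl k⟩) •
            (⟨Y (some ⟨i, Sum.inl k⟩), hYV i (Sum.inl k)⟩ : V (Ω i))) +
            ∑ k : Fin (n i) × Fin 3, a (some ⟨i, Sum.inr k⟩) •
            (⟨Y (some ⟨i, Sum.inr k⟩), hYV i (Sum.inr k)⟩ : V (Ω i)) : V (Ω i)) : W3) 0‖ ^ 2 := hml
        rw [hXe] at h5
        exact h5
      · intro k k'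
        change ⟪Y (some ⟨i, Sum.inl k⟩), Y (some ⟨i, Sum.inl k'⟩)⟫_ℝ =
          (1 + ν (j₀ i)) * ⟪Y (some ⟨i, Sum.inl k⟩) 0, Y (some ⟨i, Sum.inl k'⟩) 0⟫_ℝ
        have h1 : A i (Sum.inl k) ⊆ A i (Sum.inl k') →
            ⟪Y (some ⟨i, Sum.inl k⟩), Y (some ⟨i, Sum.inl k'⟩)⟫_ℝ =
            (1 + ν (j₀ i)) * ⟪Y (some ⟨i, Sum.inl k⟩) 0, Y (some ⟨i, Sum.inl k'⟩) 0⟫_ℝ := by
          intro h
          rw [real_inner_comm, real_inner_comm (Y (some ⟨i, Sum.inl k'⟩) 0)]
          exact (hY (some ⟨i, Sum.inl k'⟩)).2.2 (Y (some ⟨i, Sum.inl k⟩))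
            (V_mono h (hY (some ⟨i, Sum.inl k⟩)).1)
        have h2 : A i (Sum.inl k') ⊆ A i (Sum.inl k) →
            ⟪Y (some ⟨i, Sum.inl k⟩), Y (some ⟨i, Sum.inl k'⟩)⟫_ℝ =
            (1 + ν (j₀ i)) * ⟪Y (some ⟨i, Sum.inl k⟩) 0, Y (some ⟨i, Sum.inl k'⟩) 0⟫_ℝ := by
          intro h
          exact (hY (some ⟨i, Sum.inl k⟩)).2.2 (Y (some ⟨i, Sum.inl k'⟩))
            (V_mono h (hY (some ⟨i, Sum.inl k'⟩)).1)
        rcases k with k | j
        · exact h2 (hAo i (Sum.inl k')).2
        · rcases k' with k' | j'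
          · exact h1 (hAo i (Sum.inl (Sum.inr j))).2
          · by_cases hjj : j = j'
            · subst hjj
              exact h1 subset_rfl
            · have hd : Disjoint (G i j) (G i j') := hGd i j j' hjj
              have hm1 := (hY (some ⟨i, Sum.inl (Sum.inr j)⟩)).1
              have hm2 := (hY (some ⟨i, Sum.inl (Sum.inr j')⟩)).1
              change _ ∈ V (G i j) at hm1
              change _ ∈ V (G i j') at hm2
              rw [inner_W3, orth hd hm1 hm2 0, orth hd hm1 hm2 1, orth hd hm1 hm2 2]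
              simp
      · intro k H
        exact (hY (some ⟨i, Sum.inr k⟩)).2.2 H.1 H.2
  · rintro ⟨i, k⟩
    filter_upwards [hanear i] with x hx
    exact hFout i k x hx
  · rw [Fintype.linearIndependent_iff]
    intro g hg
    have hsum : ∀ x, g none * u x + ∑ i, ∑ k, g (some ⟨i, k⟩) * F i k x = 0 := by
      intro x
      have h1 := congrFun hg x
      rw [Finset.sum_apply, Fintype.sum_option, Fintype.sum_sigma] at h1
      exact h1
    have hg0 : g none = 0 := by
      by_contra h0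
      obtain ⟨y, hy⟩ := hu0
      apply hy
      refine hu.uc hlam hDc haD ?_ y
      have h2 : ∀ᶠ x in 𝓝 a, ∀ i, x ∉ Ω i := eventually_all.2 hanear
      filter_upwards [h2] with x hx
      have h1 := hsum x
      rw [Finset.sum_eq_zero (fun i _ => Finset.sum_eq_zero (fun k _ => by
        rw [hFout i k x (hx i), mul_zero])), add_zero] at h1
      exact (mul_eq_zero.1 h1).resolve_left h0
    have hcoef : ∀ i, (fun k => g (some ⟨i, k⟩)) = 0 := by
      have hwf : WellFounded (fun j i : Fin l => Ω i ⊂ Ω j) := by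
        have : IsTrans (Fin l) (fun j i : Fin l => Ω i ⊂ Ω j) :=
          ⟨fun a b c h1 h2 => h2.trans h1⟩
        have : Std.Irrefl (fun j i : Fin l => Ω i ⊂ Ω j) := ⟨fun a h => ssubset_irrefl _ h⟩
        exact Finite.wellFounded_of_trans_of_irrefl _
      intro i
      induction i using hwf.induction with
      | _ i ih =>
      have hstr : ∀ j, closure (Ω i) ⊆ Ω j → Ω i ⊂ Ω j := by
        intro j h
        refine ⟨subset_closure.trans h, fun h2 => ?_⟩
        refine not_closed_aux (ho i) (hcon i).nonempty (hb i) ?_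
        have : closure (Ω i) = Ω i := Subset.antisymm (h.trans h2) subset_closure
        rw [← this]
        exact isClosed_closure
      set K : Set ℂ := ⋃ j : {j // j ≠ i ∧ closure (Ω j) ⊆ Ω i}, closure (Ω j.1) with hK
      have hKc : IsClosed K := isClosed_iUnion_of_finite (fun _ => isClosed_closure)
      have hKs : K ⊆ Ω i := iUnion_subset (fun j => j.2.2)
      have hO : IsOpen (Ω i \ K) := (ho i).sdiff hKc
      have hOne : (Ω i \ K).Nonempty := by
        by_contra hE
        rw [not_nonempty_iff_eq_empty, sdiff_eq_empty] at hE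
        refine not_closed_aux (ho i) (hcon i).nonempty (hb i) ?_
        rw [Subset.antisymm hE hKs]
        exact hKc
      refine family_key_multi (hv i (j₀ i)) (hνp _) (hcon i).isPreconnected (hnr i (j₀ i))
        (hqpos i) (p i) (G i) (fun j => (hG i j).1) (fun j => (hG i j).2.2) (hGd i) hO ?_
        (fun j => ν (e i j)) (fun j => c i (e i j)) (fun j => v i (e i j))
        (fun j => hv i (e i j)) (fun j => hνp _)
        (fun j h => hej i j (hν.injective h)) (fun j j' h => hei i (hν.injective h))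
        (fun j => hnr i (e i j)) _ ?_
      · intro j
        by_cases hi : i ∈ M
        · have hKe : K = ∅ := by
            rw [hK, iUnion_eq_empty]
            rintro ⟨j, hj, hj2⟩
            exact absurd hj2 (hM i hi j hj)
          rw [hKe, sdiff_empty, inter_eq_self_of_subset_left (hG i j).2.2]
          exact (hG i j).2.1
        · rw [hGM i hi, inter_eq_self_of_subset_right sdiff_subset]
          exact hOne
      · rintro x ⟨hxi, hxK⟩
        have h1 := hsum x
        rw [hg0, zero_mul, zero_add, Finset.sum_eq_single i] at h1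
        · exact h1
        · intro j _ hj
          refine Finset.sum_eq_zero (fun k _ => ?_)
          rcases hrel i j (Ne.symm hj) with h | h | h
          · have h2 := congrFun (ih j (hstr j h)) k
            simp only [Pi.zero_apply] at h2
            rw [h2, zero_mul]
          · rw [hFout j k x, mul_zero]
            intro hx
            exact hxK (mem_iUnion.2 ⟨⟨j, hj, h⟩, subset_closure hx⟩)
          · rw [hFout j k x, mul_zero]
            intro hx
            exact h.le_bot ⟨subset_closure hxi, subset_closure hx⟩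
        · intro h
          exact absurd (Finset.mem_univ i) h
    rintro (_ | ⟨i, k⟩)
    · exact hg0
    · exact congrFun (hcoef i) k

end Pool.Agent.Helper327_Drum
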