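import Pool.Agent.Helper327_Drum.Fin.FQ3
import Pool.Agent.Helper327_Drum.Fin.GM1
import Pool.Agent.Helper327_Drum.Fin.GM2

/-
JOB GM4 (owner helper327, problem MP_d92c84_an). All imports are on origin/main. Prove only the TARGET; the lemmas marked given are proved in other jobs.
-/

set_option autoImplicit false
open MeasureTheory Set Filter Topology ComplexConjugate
open scoped ContDiff InnerProductSpace

namespace Pool.Agent.Helper327_Drum

open Pool.Agent.TH298.Sch (dd SC)
open Pool.Agent.R227.SA (la Wat Dat)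

/-- two solutions with different levels on the same region are orthogonal -/
theorem gm_orth_same {G : Set ℂ} (hG : IsOpen G) (hb : Bornology.IsBounded G) {lam μ : ℝ}
    (hne : lam ≠ μ) {f g : ℂ → ℝ} (hf : Wat G lam f) (hg : Wat G μ g) : ∫ x, f x * g x = 0 := by
  obtain ⟨F, hF, hF0, hFe⟩ := helm_V hG hb hf
  obtain ⟨H, hH, hH0, hHe⟩ := helm_V hG hb hg
  have h1 := hFe H hH
  have h2 := hHe F hF
  rw [real_inner_comm, real_inner_comm (F 0) (H 0)] at h2
  have h3 : (lam - μ) * ⟪F 0, H 0⟫_ℝ = 0 := by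
    have : (1 + lam) * ⟪F 0, H 0⟫_ℝ = (1 + μ) * ⟪F 0, H 0⟫_ℝ := by rw [← h1, ← h2]
    linarith
  have h4 : ⟪F 0, H 0⟫_ℝ = 0 := (mul_eq_zero.1 h3).resolve_left (sub_ne_zero.2 hne)
  rw [inner_L2] at h4
  rw [← h4]
  refine integral_congr_ae ?_
  filter_upwards [hF0, hH0] with x h5 h6
  rw [h5, h6]

/-- nested regions -/
theorem gm_orth_nested {Ω Ω' : Set ℂ} (ho' : IsOpen Ω') (hb' : Bornology.IsBounded Ω')
    (hsub : Ω' ⊆ Ω) {lam μ c c' c'' : ℝ} (hne : lam ≠ μ) {u u' : ℂ → ℝ}
    (h1 : Dat Ω' lam c'' (Ω'.indicator fun x => u x - c''))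
    (h2 : Dat Ω' μ c' (Ω'.indicator fun x => u' x - c')) (a a' : ℂ) (b b' : ℝ) :
    ∫ x, fderiv ℝ (Ω.indicator fun x => u x - c) x (a + b * Complex.I * x) *
      fderiv ℝ (Ω'.indicator fun x => u' x - c') x (a' + b' * Complex.I * x) = 0 := by
  rw [← gm_orth_same ho' hb' hne (kill_wat h1 a b) (kill_wat h2 a' b')]
  refine integral_congr_ae (Eventually.of_forall fun x => ?_)
  simp only
  by_cases hx : x ∈ Ω'
  · congr 1
    have he : (Ω.indicator fun x => u x - c) =ᶠ[𝓝 x]
        fun y => (Ω'.indicator fun x => u x - c'') y + (c'' - c) := by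
      filter_upwards [ho'.mem_nhds hx] with y hy
      rw [indicator_of_mem hy, indicator_of_mem (hsub hy)]
      ring
    rw [he.fderiv_eq, fderiv_add_const]
  · rw [h2.outd x hx]
    simp

/-- a region in the domain -/
theorem gm_orth_dom {Ω : Set ℂ} (ho : IsOpen Ω) (hb : Bornology.IsBounded Ω) {lam μ c c' : ℝ}
    (hne : lam ≠ μ) (hlam : 0 < lam) (hμ : 0 < μ) {u u' : ℂ → ℝ}
    (h1 : Dat Ω lam c (Ω.indicator fun x => u x - c))
    (h2 : Dat Ω μ c' (Ω.indicator fun x => u' x - c')) (a : ℂ) (b : ℝ) :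
    ∫ x, u x * fderiv ℝ (Ω.indicator fun x => u' x - c') x (a + b * Complex.I * x) = 0 := by
  rw [← level_orth ho hb hne hlam hμ h1 h2 a b]
  refine integral_congr_ae (Eventually.of_forall fun x => ?_)
  simp only
  by_cases hx : x ∈ Ω
  · rw [indicator_of_mem hx]
    ring
  · rw [h2.outd x hx]
    simp

/-- the relation of two members of the family, the second one on the smaller region -/
theorem gm_rel {A A' : Set ℂ} {lam μ : ℝ} {f g : ℂ → ℝ} {F H : W3} (hsub : A' ⊆ A)
    (hF : F 0 =ᵐ[volume] f) (hFe : ∀ K ∈ V A, ⟪F, K⟫_ℝ = (1 + lam) * ⟪F 0, K 0⟫_ℝ)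
    (hH : H ∈ V A') (hH0 : H 0 =ᵐ[volume] g) (h : μ ≤ lam ∨ ∫ x, f x * g x = 0) :
    ⟪F, H⟫_ℝ = (1 + max lam μ) * ⟪F 0, H 0⟫_ℝ := by
  rw [hFe H (V_mono hsub hH)]
  rcases h with h | h
  · rw [max_eq_left h]
  · have h4 : ⟪F 0, H 0⟫_ℝ = 0 := by
      rw [inner_L2, ← h]
      refine integral_congr_ae ?_
      filter_upwards [hF, hH0] with x h5 h6
      rw [h5, h6]
    rw [h4, mul_zero, mul_zero]

/-- TARGET: the index bound for a family of regions and several eigenvalues. -/
theorem family_index_all {D : Set ℂ} {m : ℕ} (ν : Fin (m + 1) → ℝ) (hν : StrictMono ν)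
    (hν0 : 0 < ν 0) {u : Fin (m + 1) → ℂ → ℝ} (hDo : IsOpen D) (hDb : Bornology.IsBounded D)
    (hDc : IsPreconnected D) (hu : ∀ j, Wat D (ν j) (u j)) (hu0 : ∀ j, ∃ x, u j x ≠ 0)
    {l : ℕ} (hl : 1 ≤ l) (Ω : Fin l → Set ℂ) (c : Fin l → Fin (m + 1) → ℝ)
    (hv : ∀ i j, Dat (Ω i) (ν j) (c i j) ((Ω i).indicator fun x => u j x - c i j))
    (hc : ∀ i j, c i j ≠ 0)
    (ho : ∀ i, IsOpen (Ω i)) (hcon : ∀ i, IsConnected (Ω i))
    (hreg : ∀ i, interior (closure (Ω i)) = Ω i) (hcc : ∀ i, IsPreconnected (Ω i)ᶜ)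
    (hΩD : ∀ i, closure (Ω i) ⊆ D)
    (hrel : ∀ i j, i ≠ j → closure (Ω i) ⊆ Ω j ∨ closure (Ω j) ⊆ Ω i ∨
      Disjoint (closure (Ω i)) (closure (Ω j)))
    (hout : (D \ ⋃ i, closure (Ω i)).Nonempty)
    (hnd : ∀ i, ¬ ∃ (p : ℂ) (r : ℝ), 0 < r ∧ Ω i = Metric.ball p r)
    (M : Finset (Fin l)) (hM : ∀ i ∈ M, ∀ j, j ≠ i → ¬ closure (Ω j) ⊆ Ω i) :
    dirichletEigenvalue (3 * l * (m + 1) + m + 2 * M.card) D < ν (Fin.last m) := by
  classical
  have hb : ∀ i, Bornology.IsBounded (Ω i) := fun i => hDb.subset (subset_closure.trans (hΩD i))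
  have hνp : ∀ j, 0 < ν j := fun j => hν0.trans_le (hν.monotone (Fin.zero_le j))
  have hν0l : ∀ j, ν 0 ≤ ν j := fun j => hν.monotone (Fin.zero_le j)
  have hνl : ∀ j, ν j ≤ ν (Fin.last m) := fun j => hν.monotone (Fin.le_last j)
  have hlam : 0 < ν (Fin.last m) := hνp _
  have hclD : ∀ i, Ω i ⊆ D := fun i => subset_closure.trans (hΩD i)
  obtain ⟨v, hvdef⟩ : ∃ v : Fin l → Fin (m + 1) → ℂ → ℝ,
      ∀ i j, v i j = (Ω i).indicator fun x => u j x - c i j := ⟨_, fun _ _ => rfl⟩
  have hv' : ∀ i j, Dat (Ω i) (ν j) (c i j) (v i j) := by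
    intro i j
    rw [hvdef]
    exact hv i j
  have hnr : ∀ i j (a : ℂ) (b : ℝ), a ≠ 0 ∨ b ≠ 0 →
      ∃ x, fderiv ℝ (v i j) x (a + b * Complex.I * x) ≠ 0 := by
    intro i j a b hab
    by_contra hcon2
    push Not at hcon2
    exact hnd i (kill_disc (hv' i j) (ho i) (hb i) (hcon i).nonempty (hcon i).isPreconnected
      (hreg i) (hcc i) (hνp j) (hc i j) hab hcon2)
  have hdata : ∀ i, ∃ (p : ℂ) (q : ℕ)
      (G : Fin q → Set ℂ), q = (if i ∈ M then 3 else 1) ∧
      (∀ j, IsOpen (G j) ∧ (G j).Nonempty ∧ G j ⊆ Ω i) ∧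
      (∀ j k, j ≠ k → Disjoint (G j) (G k)) ∧
      (∀ j, Wat (G j) (ν 0)
        ((G j).indicator fun x => fderiv ℝ (v i 0) x (Complex.I * (x - p)))) ∧
      (i ∉ M → ∀ j, G j = Ω i) := by
    intro i
    by_cases hi : i ∈ M
    · obtain ⟨p, G, hG, hGd, hGw⟩ := three_comps (hv' i 0) (hb i) (hcon i).nonempty
        (hcon i).isPreconnected (hνp 0) (hc i 0) (hnr i 0)
      exact ⟨p, 3, G, by simp [hi], hG, hGd, hGw, fun h => absurd hi h⟩
    · refine ⟨0, 1, fun _ => Ω i, by simp [hi],
        fun _ => ⟨ho i, (hcon i).nonempty, subset_rfl⟩,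
        fun j k hjk => absurd (Subsingleton.elim j k) hjk, fun _ => ?_, fun _ _ => rfl⟩
      have h1 := kill_wat (hv' i 0) 0 1
      have h3 : ∀ x : ℂ, Complex.I * (x - 0) = 0 + ((1 : ℝ) : ℂ) * Complex.I * x := by
        intro x
        push_cast
        ring
      have h2 : (Ω i).indicator (fun x => fderiv ℝ (v i 0) x (Complex.I * (x - 0))) =
          fun x => fderiv ℝ (v i 0) x (0 + ((1 : ℝ) : ℂ) * Complex.I * x) := by
        funext x
        by_cases hx : x ∈ Ω i
        · rw [indicator_of_mem hx, h3]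
        · rw [indicator_of_notMem hx]
          exact (h1.out x hx).symm
      rw [h2]
      exact h1
  choose p q G hq hG hGd hGw hGM using hdata
  have hqpos : ∀ i, 0 < q i := by
    intro i
    rw [hq i]
    split_ifs <;> norm_num
  set F : ∀ i : Fin l, (Fin 2 ⊕ Fin (q i)) ⊕ (Fin m × Fin 3) → ℂ → ℝ := fun i =>
    Sum.elim (Sum.elim (fun (k : Fin 2) x => fderiv ℝ (v i 0) x (![1, Complex.I] k))
      (fun j => (G i j).indicator fun x => fderiv ℝ (v i 0) x (Complex.I * (x - p i))))
      (fun jk x => fderiv ℝ (v i jk.1.succ) x (![1, Complex.I, Complex.I * x] jk.2)) with hF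
  set A : ∀ i : Fin l, (Fin 2 ⊕ Fin (q i)) ⊕ (Fin m × Fin 3) → Set ℂ := fun i =>
    Sum.elim (Sum.elim (fun _ => Ω i) (G i)) (fun _ => Ω i) with hA
  set μ : ∀ i : Fin l, (Fin 2 ⊕ Fin (q i)) ⊕ (Fin m × Fin 3) → ℝ := fun i =>
    Sum.elim (fun _ => ν 0) (fun jk => ν jk.1.succ) with hμ
  have hW1 : ∀ i j, Wat (Ω i) (ν j) (fun x => fderiv ℝ (v i j) x 1) := by
    intro i j
    have := kill_wat (hv' i j) 1 0
    simpa using this
  have hWI : ∀ i j, Wat (Ω i) (ν j) (fun x => fderiv ℝ (v i j) x Complex.I) := by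
    intro i j
    have := kill_wat (hv' i j) Complex.I 0
    simpa using this
  have hWx : ∀ i j, Wat (Ω i) (ν j) (fun x => fderiv ℝ (v i j) x (Complex.I * x)) := by
    intro i j
    have := kill_wat (hv' i j) 0 1
    simpa using this
  have hAo : ∀ i k, IsOpen (A i k) ∧ A i k ⊆ Ω i := by
    intro i k
    rcases k with (k | j) | k
    · exact ⟨ho i, subset_rfl⟩
    · exact ⟨(hG i j).1, (hG i j).2.2⟩
    · exact ⟨ho i, subset_rfl⟩
  have hFW : ∀ i k, Wat (A i k) (μ i k) (F i k) := by
    intro i k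
    rcases k with (k | j) | ⟨j, k⟩
    · fin_cases k
      · exact hW1 i _
      · exact hWI i _
    · exact hGw i j
    · fin_cases k
      · exact hW1 i _
      · exact hWI i _
      · exact hWx i _
  have hFout : ∀ i k x, x ∉ Ω i → F i k x = 0 := fun i k x hx =>
    (hFW i k).out x (fun h => hx ((hAo i k).2 h))
  -- the functions are of the form `K v`, except for the pieces
  have hKt : ∀ i k, (∃ (j : Fin (m + 1)) (a : ℂ) (b : ℝ), A i k = Ω i ∧ μ i k = ν j ∧
      F i k = fun x => fderiv ℝ (v i j) x (a + b * Complex.I * x)) ∨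
      (i ∈ M ∧ ∃ j, k = Sum.inl (Sum.inr j)) := by
    intro i k
    rcases k with (k | j) | ⟨j, k⟩
    · left
      fin_cases k
      · refine ⟨0, 1, 0, rfl, rfl, ?_⟩
        funext x
        change fderiv ℝ (v i 0) x 1 = _
        simp
      · refine ⟨0, Complex.I, 0, rfl, rfl, ?_⟩
        funext x
        change fderiv ℝ (v i 0) x Complex.I = _
        simp
    · by_cases hi : i ∈ M
      · exact Or.inr ⟨hi, j, rfl⟩
      · left
        refine ⟨0, -(Complex.I * p i), 1, hGM i hi j, rfl, ?_⟩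
        funext x
        change (G i j).indicator (fun x => fderiv ℝ (v i 0) x (Complex.I * (x - p i))) x = _
        rw [hGM i hi j]
        by_cases hx : x ∈ Ω i
        · rw [indicator_of_mem hx]
          congr 1
          push_cast
          ring
        · rw [indicator_of_notMem hx, (hv' i 0).outd x hx]
          simp
    · left
      fin_cases k
      · refine ⟨j.succ, 1, 0, rfl, rfl, ?_⟩
        funext x
        change fderiv ℝ (v i j.succ) x 1 = _
        simp
      · refine ⟨j.succ, Complex.I, 0, rfl, rfl, ?_⟩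
        funext x
        change fderiv ℝ (v i j.succ) x Complex.I = _
        simp
      · refine ⟨j.succ, 0, 1, rfl, rfl, ?_⟩
        funext x
        change fderiv ℝ (v i j.succ) x (Complex.I * x) = _
        simp
  have hμ0 : ∀ i k, ν 0 ≤ μ i k := by
    intro i k
    rcases k with k | k
    · exact le_rfl
    · exact hν0l _
  have hμl : ∀ i k, μ i k ≤ ν (Fin.last m) := by
    intro i k
    rcases k with k | k
    · exact hνl _
    · exact hνl _
  have hcard : Fintype.card (Fin m ⊕ Σ i, (Fin 2 ⊕ Fin (q i)) ⊕ (Fin m × Fin 3)) =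
      3 * l * (m + 1) + m + 2 * M.card := by
    rw [Fintype.card_sum, Fintype.card_sigma, Fintype.card_fin]
    have h1 : ∀ i, Fintype.card ((Fin 2 ⊕ Fin (q i)) ⊕ (Fin m × Fin 3)) =
        3 * (m + 1) + 2 * (if i ∈ M then 1 else 0) := by
      intro i
      rw [Fintype.card_sum, Fintype.card_sum, Fintype.card_prod, Fintype.card_fin,
        Fintype.card_fin, Fintype.card_fin, Fintype.card_fin, hq i]
      split_ifs
      · ring
      · ring
    have h2 : ∑ i : Fin l, 2 * (if i ∈ M then 1 else 0) = 2 * M.card := by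
      rw [← Finset.mul_sum]
      simp
    have h3 : ∑ _i : Fin l, 3 * (m + 1) = l * (3 * (m + 1)) := by simp
    rw [Finset.sum_congr rfl (fun i _ => h1 i), Finset.sum_add_distrib, h2, h3]
    ring
  set O : Set ℂ := D \ ⋃ i, closure (Ω i) with hOdef
  have hOo : IsOpen O := hDo.sdiff (isClosed_iUnion_of_finite fun _ => isClosed_closure)
  have hOF : ∀ i k, ∀ x ∈ O, F i k x = 0 := by
    intro i k x hx
    exact hFout i k x (fun h => hx.2 (mem_iUnion.2 ⟨i, subset_closure h⟩))
  set GG : Option (Fin m ⊕ Σ i, (Fin 2 ⊕ Fin (q i)) ⊕ (Fin m × Fin 3)) → Set ℂ := fun o =>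
    o.elim D (Sum.elim (fun _ => D) (fun s => A s.1 s.2)) with hGG
  set φ : Option (Fin m ⊕ Σ i, (Fin 2 ⊕ Fin (q i)) ⊕ (Fin m × Fin 3)) → ℂ → ℝ := fun o =>
    o.elim (u (Fin.last m)) (Sum.elim (fun j => u j.castSucc) (fun s => F s.1 s.2)) with hφ
  set νν : Option (Fin m ⊕ Σ i, (Fin 2 ⊕ Fin (q i)) ⊕ (Fin m × Fin 3)) → ℝ := fun o =>
    o.elim (ν (Fin.last m)) (Sum.elim (fun j => ν j.castSucc) (fun s => μ s.1 s.2)) with hνν
  have hkind : ∀ o, (∃ j, GG o = D ∧ φ o = u j ∧ νν o = ν j) ∨
      ∃ i k, o = some (Sum.inr ⟨i, k⟩) := by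
    rintro (_ | j | ⟨i, k⟩)
    · exact Or.inl ⟨Fin.last m, rfl, rfl, rfl⟩
    · exact Or.inl ⟨j.castSucc, rfl, rfl, rfl⟩
    · exact Or.inr ⟨i, k, rfl⟩
  have hGGo : ∀ o, IsOpen (GG o) ∧ GG o ⊆ D := by
    rintro (_ | j | ⟨i, k⟩)
    · exact ⟨hDo, subset_rfl⟩
    · exact ⟨hDo, subset_rfl⟩
    · exact ⟨(hAo i k).1, (hAo i k).2.trans (hclD i)⟩
  refine index_family_max hDo hDb hDc hlam (by nlinarith [Nat.zero_le M.card]) hcard GG φ νν
    hGGo ?_ ?_ rfl rfl ?_ ⟨O, hOo, hout, sdiff_subset, ?_⟩ ?_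
  · rintro (_ | j | ⟨i, k⟩)
    · exact ⟨hlam, le_rfl⟩
    · exact ⟨hνp _, hνl _⟩
    · exact ⟨hν0.trans_le (hμ0 i k), hμl i k⟩
  · rintro (_ | j | ⟨i, k⟩)
    · exact hu _
    · exact hu _
    · exact hFW i k
  · -- the relations
    intro Y hY
    have hsub : ∀ o o', GG o' ⊆ GG o → (νν o' ≤ νν o ∨ ∫ x, φ o x * φ o' x = 0) →
        ⟪Y o, Y o'⟫_ℝ = (1 + max (νν o) (νν o')) * ⟪Y o 0, Y o' 0⟫_ℝ := fun o o' h1 h2 =>
      gm_rel h1 (hY o).2.1 (hY o).2.2 (hY o').1 (hY o').2.1 h2
    have hsymm : ∀ o o', ⟪Y o, Y o'⟫_ℝ = (1 + max (νν o) (νν o')) * ⟪Y o 0, Y o' 0⟫_ℝ →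
        ⟪Y o', Y o⟫_ℝ = (1 + max (νν o') (νν o)) * ⟪Y o' 0, Y o 0⟫_ℝ := by
      intro o o' h
      rw [real_inner_comm, real_inner_comm (Y o 0), max_comm, h]
    have hdisj : ∀ o o', Disjoint (GG o) (GG o') →
        ⟪Y o, Y o'⟫_ℝ = (1 + max (νν o) (νν o')) * ⟪Y o 0, Y o' 0⟫_ℝ := by
      intro o o' hd
      have e := orth hd (hY o).1 (hY o').1
      rw [inner_W3, e 0, e 1, e 2]
      simp
    have hsame : ∀ o o', GG o = GG o' →
        ⟪Y o, Y o'⟫_ℝ = (1 + max (νν o) (νν o')) * ⟪Y o 0, Y o' 0⟫_ℝ := by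
      intro o o' h
      rcases le_total (νν o') (νν o) with h1 | h1
      · exact hsub o o' h.symm.le (Or.inl h1)
      · exact hsymm _ _ (hsub o' o h.le (Or.inl h1))
    have hDi : ∀ o i k j, GG o = D → φ o = u j → νν o = ν j →
        ⟪Y o, Y (some (Sum.inr ⟨i, k⟩))⟫_ℝ = (1 + max (νν o) (νν (some (Sum.inr ⟨i, k⟩)))) *
          ⟪Y o 0, Y (some (Sum.inr ⟨i, k⟩)) 0⟫_ℝ := by
      intro o i k j h1 h2 h3
      apply hsub o _ (by rw [h1]; exact (hGGo _).2)
      by_cases hle : νν (some (Sum.inr ⟨i, k⟩)) ≤ νν o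
      · exact Or.inl hle
      · right
        rcases hKt i k with ⟨j', a, b, hA', hμ', hF'⟩ | ⟨hi, j', rfl⟩
        · have hne : ν j ≠ ν j' := by
            intro h
            apply hle
            change μ i k ≤ νν o
            rw [hμ', h3, h]
          have h5 := gm_orth_dom (ho i) (hb i) hne (hνp j) (hνp j') (hv i j) (hv i j') a b
          rw [h2]
          change ∫ x, u j x * F i k x = 0
          rw [hF', hvdef]
          exact h5
        · exfalso
          apply hle
          change ν 0 ≤ νν o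
          rw [h3]
          exact hν0l _
    have hnest : ∀ i i' k k', i ≠ i' → closure (Ω i) ⊆ Ω i' →
        ⟪Y (some (Sum.inr ⟨i', k'⟩)), Y (some (Sum.inr ⟨i, k⟩))⟫_ℝ =
          (1 + max (νν (some (Sum.inr ⟨i', k'⟩))) (νν (some (Sum.inr ⟨i, k⟩)))) *
          ⟪Y (some (Sum.inr ⟨i', k'⟩)) 0, Y (some (Sum.inr ⟨i, k⟩)) 0⟫_ℝ := by
      intro i i' k k' hne hcl
      have hsubΩ : Ω i ⊆ Ω i' := subset_closure.trans hcl
      rcases hKt i' k' with ⟨j', a', b', hA', hμ', hF'⟩ | ⟨hi', -⟩
      · apply hsub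
        · change A i k ⊆ A i' k'
          rw [hA']
          exact (hAo i k).2.trans hsubΩ
        · by_cases hle : μ i k ≤ μ i' k'
          · exact Or.inl hle
          · right
            rcases hKt i k with ⟨j, a, b, hA1, hμ1, hF1⟩ | ⟨-, j, rfl⟩
            · have hne2 : ν j' ≠ ν j := by
                intro h
                apply hle
                rw [hμ', hμ1, h]
              have h5 := gm_orth_nested (ho i) (hb i) hsubΩ (c := c i' j') hne2 (hv i j')
                (hv i j) a' a b' b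
              change ∫ x, F i' k' x * F i k x = 0
              rw [hF', hF1, hvdef, hvdef]
              exact h5
            · exfalso
              exact hle (hμ0 i' k')
      · exact absurd hcl (hM i' hi' i hne)
    intro o o'
    rcases hkind o with ⟨j, h1, h2, h3⟩ | ⟨i, k, rfl⟩
    · rcases hkind o' with ⟨j', h1', h2', h3'⟩ | ⟨i', k', rfl⟩
      · exact hsame o o' (by rw [h1, h1'])
      · exact hDi o i' k' j h1 h2 h3
    · rcases hkind o' with ⟨j', h1', h2', h3'⟩ | ⟨i', k', rfl⟩
      · exact hsymm _ _ (hDi o' i k j' h1' h2' h3')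
      · by_cases hii : i = i'
        · subst hii
          rcases hKt i k with ⟨j, a, b, hA1, hμ1, -⟩ | ⟨hi, j, rfl⟩
          · rcases hKt i k' with ⟨j', a', b', hA2, -, -⟩ | ⟨hi, j', rfl⟩
            · apply hsame
              change A i k = A i k'
              rw [hA1, hA2]
            · apply hsub
              · change A i (Sum.inl (Sum.inr j')) ⊆ A i k
                rw [hA1]
                exact (hAo i _).2
              · exact Or.inl (hμ0 i k)
          · rcases hKt i k' with ⟨j', a', b', hA2, -, -⟩ | ⟨-, j', rfl⟩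
            · apply hsymm
              apply hsub
              · change A i (Sum.inl (Sum.inr j)) ⊆ A i k'
                rw [hA2]
                exact (hAo i _).2
              · exact Or.inl (hμ0 i k')
            · by_cases hjj : j = j'
              · subst hjj
                exact hsame _ _ rfl
              · exact hdisj _ _ (hGd i j j' hjj)
        · rcases hrel i i' hii with h | h | h
          · exact hsymm _ _ (hnest i i' k k' hii h)
          · exact hnest i' i k' k (Ne.symm hii) h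
          · apply hdisj
            exact (h.mono subset_closure subset_closure).mono (hAo i k).2 (hAo i' k').2
  · rintro (j | ⟨i, k⟩)
    · exact Or.inr ⟨rfl, hν (Fin.castSucc_lt_last j)⟩
    · exact Or.inl (hOF i k)
  · rw [Fintype.linearIndependent_iff]
    intro g hg
    have hsum : ∀ x, g none * u (Fin.last m) x + ((∑ j : Fin m, g (some (Sum.inl j)) *
        u j.castSucc x) + ∑ i, ∑ k, g (some (Sum.inr ⟨i, k⟩)) * F i k x) = 0 := by
      intro x
      have h1 := congrFun hg x
      rw [Finset.sum_apply, Fintype.sum_option, Fintype.sum_sum_type, Fintype.sum_sigma] at h1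
      exact h1
    obtain ⟨a, haO⟩ := hout
    -- the eigenfunctions of the domain
    set cf : Fin (m + 1) → ℝ := Fin.snoc (fun j => g (some (Sum.inl j))) (g none) with hcf
    have hcfW : ∀ j, Wat D (ν j) (fun x => cf j * u j x) := by
      intro j
      have h1 := wat_sub_smul (hu j) (hu j) (1 - cf j)
      have h2 : (fun x => u j x - (1 - cf j) * u j x) = fun x => cf j * u j x := by
        funext x
        ring
      rwa [h2] at h1
    have hcfs : ∀ x ∈ O, ∑ j, cf j * u j x = 0 := by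
      intro x hx
      have h1 := hsum x
      rw [Finset.sum_eq_zero (s := (Finset.univ : Finset (Fin l))) (fun i _ =>
        Finset.sum_eq_zero (fun k _ => by rw [hOF i k x hx, mul_zero])), add_zero] at h1
      rw [Fin.sum_univ_castSucc]
      simp only [hcf, Fin.snoc_castSucc, Fin.snoc_last]
      linarith
    have hcf0 : ∀ j, cf j = 0 := by
      intro j
      by_contra h0
      have h1 := helm_sum_zero ν hν.injective (fun j x => cf j * u j x) hOo
        (fun i x hx => wat_smooth (hcfW i) hx.1) hcfs j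
      obtain ⟨y, hy⟩ := hu0 j
      apply hy
      refine (hu j).uc (hνp j) hDc haO.1 ?_ y
      filter_upwards [hOo.mem_nhds haO] with x hx
      exact (mul_eq_zero.1 (h1 x hx)).resolve_left h0
    have hgn : g none = 0 := by
      have := hcf0 (Fin.last m)
      rwa [hcf, Fin.snoc_last] at this
    have hgj : ∀ j, g (some (Sum.inl j)) = 0 := by
      intro j
      have := hcf0 j.castSucc
      rwa [hcf, Fin.snoc_castSucc] at this
    have hcoef : ∀ i, (fun k => g (some (Sum.inr ⟨i, k⟩))) = 0 := by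
      have hwf : WellFounded (fun j i : Fin l => Ω i ⊂ Ω j) := by
        have : IsTrans (Fin l) (fun j i : Fin l => Ω i ⊂ Ω j) :=
          ⟨fun a b c h1 h2 => h2.trans h1⟩
        have : Std.Irrefl (fun j i : Fin l => Ω i ⊂ Ω j) := ⟨fun a h => ssubset_irrefl _ h⟩
        exact Finite.wellFounded_of_trans_of_irrefl _
      intro i
      induction i using hwf.induction with
      | _ i ih =>
      have hstr : ∀ j, closure (Ω i) ⊆ Ω j → Ω i ⊂ Ω j := by
        intro j h
        refine ⟨subset_closure.trans h, fun h2 => ?_⟩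
        refine not_closed_aux (ho i) (hcon i).nonempty (hb i) ?_
        have : closure (Ω i) = Ω i := Subset.antisymm (h.trans h2) subset_closure
        rw [← this]
        exact isClosed_closure
      set K : Set ℂ := ⋃ j : {j // j ≠ i ∧ closure (Ω j) ⊆ Ω i}, closure (Ω j.1) with hK
      have hKc : IsClosed K := isClosed_iUnion_of_finite (fun _ => isClosed_closure)
      have hKs : K ⊆ Ω i := iUnion_subset (fun j => j.2.2)
      have hO : IsOpen (Ω i \ K) := (ho i).sdiff hKc
      have hOne : (Ω i \ K).Nonempty := by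
        by_contra hE
        rw [not_nonempty_iff_eq_empty, sdiff_eq_empty] at hE
        refine not_closed_aux (ho i) (hcon i).nonempty (hb i) ?_
        rw [Subset.antisymm hE hKs]
        exact hKc
      refine family_key_multi (hv' i 0) (hνp _) (hcon i).isPreconnected (hnr i 0)
        (hqpos i) (p i) (G i) (fun j => (hG i j).1) (fun j => (hG i j).2.2) (hGd i) hO ?_
        (fun j => ν j.succ) (fun j => c i j.succ) (fun j => v i j.succ)
        (fun j => hv' i j.succ) (fun j => hνp _)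
        (fun j h => Fin.succ_ne_zero j (hν.injective h))
        (fun j j' h => Fin.succ_injective m (hν.injective h))
        (fun j => hnr i j.succ) _ ?_
      · intro j
        by_cases hi : i ∈ M
        · have hKe : K = ∅ := by
            rw [hK, iUnion_eq_empty]
            rintro ⟨j, hj, hj2⟩
            exact absurd hj2 (hM i hi j hj)
          rw [hKe, sdiff_empty, inter_eq_self_of_subset_left (hG i j).2.2]
          exact (hG i j).2.1
        · rw [hGM i hi, inter_eq_self_of_subset_right sdiff_subset]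
          exact hOne
      · rintro x ⟨hxi, hxK⟩
        have h1 := hsum x
        rw [hgn, zero_mul, zero_add, Finset.sum_eq_zero (s := (Finset.univ : Finset (Fin m)))
          (fun j _ => by rw [hgj, zero_mul]), zero_add, Finset.sum_eq_single i] at h1
        · exact h1
        · intro j _ hj
          refine Finset.sum_eq_zero (fun k _ => ?_)
          rcases hrel i j (Ne.symm hj) with h | h | h
          · have h2 := congrFun (ih j (hstr j h)) k
            simp only [Pi.zero_apply] at h2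
            rw [h2, zero_mul]
          · rw [hFout j k x, mul_zero]
            intro hx
            exact hxK (mem_iUnion.2 ⟨⟨j, hj, h⟩, subset_closure hx⟩)
          · rw [hFout j k x, mul_zero]
            intro hx
            exact h.le_bot ⟨subset_closure hxi, subset_closure hx⟩
        · intro h
          exact absurd (Finset.mem_univ i) h
    rintro (_ | j | ⟨i, k⟩)
    · exact hgn
    · exact hgj j
    · exact congrFun (hcoef i) k

end Pool.Agent.Helper327_Drum
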