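import Mathlib

set_option autoImplicit false
open MeasureTheory Set Filter Topology ComplexConjugate

namespace Pool.Agent.Helper327_Drum

/-- tail bound by integration by parts -/
theorem fres_tail (a : ℝ) (ha : 0 ≤ a) (K L : ℝ) (hK : 0 < K) (hL : K ≤ L) :
    ‖∫ y in K..L, Complex.exp (-(a - Complex.I / 2) * (y : ℂ) ^ 2)‖ ≤ 2 / K := by
  set c : ℂ := a - Complex.I / 2 with hc
  have hc0 : c ≠ 0 := by
    intro h
    have := congrArg Complex.im h
    simp [hc] at this
  have hcn : 1 / 2 ≤ ‖c‖ := by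
    have h1 := Complex.abs_im_le_norm c
    have h2 : c.im = -(1 / 2) := by simp [hc]
    rw [h2, abs_neg, abs_of_pos (by norm_num : (0 : ℝ) < 1 / 2)] at h1
    exact h1
  have hexp : ∀ y : ℝ, ‖Complex.exp (-c * (y : ℂ) ^ 2)‖ ≤ 1 := by
    intro y
    rw [Complex.norm_exp]
    have : (-c * (y : ℂ) ^ 2).re = -a * y ^ 2 := by
      rw [← Complex.ofReal_pow, Complex.re_mul_ofReal]
      simp [hc]
    rw [this]
    rw [Real.exp_le_one_iff]
    nlinarith [sq_nonneg y, mul_nonneg ha (sq_nonneg y)]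
  have hu : ∀ y ∈ uIcc K L, HasDerivAt (fun y : ℝ => (-(2 * c))⁻¹ * ((y : ℂ))⁻¹)
      ((2 * c)⁻¹ * ((y : ℂ) ^ 2)⁻¹) y := by
    intro y hy
    rw [uIcc_of_le hL] at hy
    have hy0 : (y : ℂ) ≠ 0 := by
      have : 0 < y := lt_of_lt_of_le hK hy.1
      exact_mod_cast this.ne'
    have h1 : HasDerivAt (fun y : ℝ => ((y : ℂ))⁻¹) (-1 / (y : ℂ) ^ 2) y := by
      have := (hasDerivAt_id (y : ℂ)).inv hy0
      exact this.comp_ofReal
    have h2 := h1.const_mul ((-(2 * c))⁻¹)
    have e : (-(2 * c))⁻¹ * (-1 / (y : ℂ) ^ 2) = (2 * c)⁻¹ * ((y : ℂ) ^ 2)⁻¹ := by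
      rw [inv_neg]
      ring
    rw [e] at h2
    exact h2
  have hv : ∀ y ∈ uIcc K L, HasDerivAt (fun y : ℝ => Complex.exp (-c * (y : ℂ) ^ 2))
      (-(2 * c) * y * Complex.exp (-c * (y : ℂ) ^ 2)) y := by
    intro y _
    have h1 : HasDerivAt (fun z : ℂ => Complex.exp (-c * z ^ 2))
        (Complex.exp (-c * (y : ℂ) ^ 2) * (-c * (2 * (y : ℂ)))) (y : ℂ) := by
      have h2 : HasDerivAt (fun z : ℂ => -c * z ^ 2) (-c * (2 * (y : ℂ))) (y : ℂ) := by
        have := (hasDerivAt_pow 2 (y : ℂ)).const_mul (-c)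
        simpa using this
      exact h2.cexp
    have h3 := h1.comp_ofReal
    convert h3 using 1
    ring
  have hne : ∀ y ∈ uIcc K L, (y : ℂ) ≠ 0 := by
    intro y hy
    rw [uIcc_of_le hL] at hy
    have : 0 < y := lt_of_lt_of_le hK hy.1
    exact_mod_cast this.ne'
  have hci : ContinuousOn (fun y : ℝ => ((y : ℂ) ^ 2)⁻¹) (uIcc K L) := by
    apply ContinuousOn.inv₀
    · fun_prop
    · intro y hy
      exact pow_ne_zero 2 (hne y hy)
  have hui : IntervalIntegrable (fun y : ℝ => (2 * c)⁻¹ * ((y : ℂ) ^ 2)⁻¹) volume K L :=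
    (continuousOn_const.mul hci).intervalIntegrable
  have hvi : IntervalIntegrable (fun y : ℝ => -(2 * c) * y * Complex.exp (-c * (y : ℂ) ^ 2))
      volume K L := by
    apply Continuous.intervalIntegrable
    fun_prop
  have hp := intervalIntegral.integral_mul_deriv_eq_deriv_mul hu hv hui hvi
  have he : ∫ y in K..L, (-(2 * c))⁻¹ * ((y : ℂ))⁻¹ * (-(2 * c) * y * Complex.exp (-c * (y : ℂ) ^ 2)) =
      ∫ y in K..L, Complex.exp (-c * (y : ℂ) ^ 2) := by
    apply intervalIntegral.integral_congr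
    intro y hy
    have := hne y hy
    show (-(2 * c))⁻¹ * ((y : ℂ))⁻¹ * (-(2 * c) * y * Complex.exp (-c * (y : ℂ) ^ 2)) = _
    field_simp
  rw [he] at hp
  rw [hp]
  have hL0 : 0 < L := lt_of_lt_of_le hK hL
  have n1 : ∀ y : ℝ, 0 < y → ‖(-(2 * c))⁻¹ * ((y : ℂ))⁻¹ * Complex.exp (-c * (y : ℂ) ^ 2)‖ ≤ 1 / y := by
    intro y hy
    rw [norm_mul, norm_mul, norm_inv, norm_neg, norm_mul, norm_inv, Complex.norm_real,
      Real.norm_of_nonneg hy.le]
    have h2 : ‖(2 : ℂ)‖ = 2 := by simp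
    rw [h2]
    have h3 : (2 * ‖c‖)⁻¹ ≤ 1 := inv_le_one_of_one_le₀ (by linarith)
    have h4 := hexp y
    calc (2 * ‖c‖)⁻¹ * y⁻¹ * ‖Complex.exp (-c * (y : ℂ) ^ 2)‖ ≤ 1 * y⁻¹ * 1 := by
          apply mul_le_mul _ h4 (norm_nonneg _) (by positivity)
          exact mul_le_mul_of_nonneg_right h3 (by positivity)
      _ = 1 / y := by rw [one_mul, mul_one, one_div]
  have n2 : ‖∫ y in K..L, (2 * c)⁻¹ * ((y : ℂ) ^ 2)⁻¹ * Complex.exp (-c * (y : ℂ) ^ 2)‖ ≤
      1 / K - 1 / L := by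
    have hint : ∫ y in K..L, (y ^ 2)⁻¹ = 1 / K - 1 / L := by
      have h5 : ∀ y ∈ uIcc K L, HasDerivAt (fun y : ℝ => -(y⁻¹)) ((y ^ 2)⁻¹) y := by
        intro y hy
        rw [uIcc_of_le hL] at hy
        have hy0 : y ≠ 0 := (lt_of_lt_of_le hK hy.1).ne'
        have := (hasDerivAt_inv hy0).fun_neg
        rw [neg_neg] at this
        exact this
      have h6 : IntervalIntegrable (fun y : ℝ => (y ^ 2)⁻¹) volume K L := by
        apply ContinuousOn.intervalIntegrable
        apply ContinuousOn.inv₀ (by fun_prop)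
        intro y hy
        rw [uIcc_of_le hL] at hy
        exact pow_ne_zero 2 (lt_of_lt_of_le hK hy.1).ne'
      rw [intervalIntegral.integral_eq_sub_of_hasDerivAt h5 h6]
      rw [one_div, one_div]; ring
    rw [← hint]
    apply intervalIntegral.norm_integral_le_of_norm_le hL
    · refine Eventually.of_forall fun y hy => ?_
      have hy0 : 0 < y := lt_trans hK hy.1
      rw [norm_mul, norm_mul, norm_inv, norm_mul, norm_inv, norm_pow, Complex.norm_real,
        Real.norm_of_nonneg hy0.le]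
      have h2 : ‖(2 : ℂ)‖ = 2 := by simp
      rw [h2]
      have h3 : (2 * ‖c‖)⁻¹ ≤ 1 := inv_le_one_of_one_le₀ (by linarith)
      have h4 := hexp y
      calc (2 * ‖c‖)⁻¹ * (y ^ 2)⁻¹ * ‖Complex.exp (-c * (y : ℂ) ^ 2)‖ ≤ 1 * (y ^ 2)⁻¹ * 1 := by
            apply mul_le_mul _ h4 (norm_nonneg _) (by positivity)
            exact mul_le_mul_of_nonneg_right h3 (by positivity)
        _ = (y ^ 2)⁻¹ := by ring
    · apply ContinuousOn.intervalIntegrable
      apply ContinuousOn.inv₀ (by fun_prop)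
      intro y hy
      rw [uIcc_of_le hL] at hy
      exact pow_ne_zero 2 (lt_of_lt_of_le hK hy.1).ne'
  have n3 := norm_sub_le ((-(2 * c))⁻¹ * ((L : ℂ))⁻¹ * Complex.exp (-c * (L : ℂ) ^ 2) -
    (-(2 * c))⁻¹ * ((K : ℂ))⁻¹ * Complex.exp (-c * (K : ℂ) ^ 2))
    (∫ y in K..L, (2 * c)⁻¹ * ((y : ℂ) ^ 2)⁻¹ * Complex.exp (-c * (y : ℂ) ^ 2))
  have n4 := norm_sub_le ((-(2 * c))⁻¹ * ((L : ℂ))⁻¹ * Complex.exp (-c * (L : ℂ) ^ 2))
    ((-(2 * c))⁻¹ * ((K : ℂ))⁻¹ * Complex.exp (-c * (K : ℂ) ^ 2))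
  have n5 := n1 L hL0
  have n6 := n1 K hK
  have : 2 / K = 1 / K + 1 / K := by ring
  rw [this]
  linarith

/-- TARGET 1: the Fresnel integral. -/
theorem fresnel : Tendsto (fun K : ℝ => ∫ y in (-K)..K, Complex.exp (Complex.I * ((y ^ 2 / 2 : ℝ) : ℂ)))
    atTop (𝓝 ((1 + Complex.I) * (√Real.pi : ℝ))) := by
  set E : ℝ → ℝ → ℂ := fun a y => Complex.exp (-(a - Complex.I / 2) * (y : ℂ) ^ 2) with hE
  have hcont : ∀ a, Continuous (E a) := by
    intro a
    simp only [hE]
    fun_prop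
  have heven : ∀ a y, E a (-y) = E a y := by
    intro a y
    simp only [hE]
    push_cast
    rw [neg_sq]
  have hneg : ∀ a K L, ∫ y in (-L)..(-K), E a y = ∫ y in K..L, E a y := by
    intro a K L
    rw [← intervalIntegral.integral_comp_neg]
    exact intervalIntegral.integral_congr fun y _ => heven a y
  have hdiff : ∀ a : ℝ, 0 ≤ a → ∀ K L : ℝ, 0 < K → K ≤ L →
      ‖(∫ y in (-L)..L, E a y) - ∫ y in (-K)..K, E a y‖ ≤ 4 / K := by
    intro a ha K L hK hL
    have hi : ∀ p q, IntervalIntegrable (E a) volume p q := fun p q =>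
      (hcont a).intervalIntegrable p q
    have h1 : (∫ y in (-L)..L, E a y) = (∫ y in (-L)..(-K), E a y) + (∫ y in (-K)..K, E a y) +
        ∫ y in K..L, E a y := by
      rw [intervalIntegral.integral_add_adjacent_intervals (hi _ _) (hi _ _),
        intervalIntegral.integral_add_adjacent_intervals (hi _ _) (hi _ _)]
    rw [h1, hneg]
    have h2 : (∫ y in K..L, E a y) + (∫ y in (-K)..K, E a y) + (∫ y in K..L, E a y) -
        (∫ y in (-K)..K, E a y) = (∫ y in K..L, E a y) + ∫ y in K..L, E a y := by ring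
    rw [h2]
    have h3 := fres_tail a ha K L hK hL
    have h4 := norm_add_le (∫ y in K..L, E a y) (∫ y in K..L, E a y)
    have : 4 / K = 2 / K + 2 / K := by ring
    rw [this]
    exact h4.trans (add_le_add h3 h3)
  have hF : ∀ a : ℝ, 0 < a → (∫ y : ℝ, E a y) = ((Real.pi : ℂ) / (a - Complex.I / 2)) ^ (1 / 2 : ℂ) := by
    intro a ha
    have := integral_gaussian_complex (b := (a : ℂ) - Complex.I / 2) (by simp [ha])
    exact this
  have hFK : ∀ a : ℝ, 0 < a → ∀ K : ℝ, 0 < K →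
      ‖((Real.pi : ℂ) / (a - Complex.I / 2)) ^ (1 / 2 : ℂ) - ∫ y in (-K)..K, E a y‖ ≤ 4 / K := by
    intro a ha K hK
    rw [← hF a ha]
    have hint : Integrable (E a) := by
      have := integrable_cexp_neg_mul_sq (b := (a : ℂ) - Complex.I / 2) (by simp [ha])
      exact this
    have ht := MeasureTheory.intervalIntegral_tendsto_integral hint tendsto_neg_atTop_atBot
      (tendsto_id (α := ℝ) (x := atTop))
    have ht2 := (ht.sub_const (∫ y in (-K)..K, E a y)).norm
    apply le_of_tendsto ht2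
    filter_upwards [eventually_ge_atTop K] with L hL
    exact hdiff a ha.le K L hK hL
  -- limit in `a`
  have hval : ((Real.pi : ℂ) / (((0 : ℝ) : ℂ) - Complex.I / 2)) ^ (1 / 2 : ℂ) =
      (1 + Complex.I) * (√Real.pi : ℝ) := by
    have h1 : (Real.pi : ℂ) / (((0 : ℝ) : ℂ) - Complex.I / 2) = ((2 * Real.pi : ℝ) : ℂ) * Complex.I := by
      rw [Complex.ofReal_zero, zero_sub]
      rw [div_eq_iff (by simp)]
      push_cast
      linear_combination (Real.pi : ℂ) * Complex.I_mul_I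
    rw [h1]
    set w : ℂ := (1 + Complex.I) * (√Real.pi : ℝ) with hw
    have hpi : ((√Real.pi : ℝ) : ℂ) ^ 2 = (Real.pi : ℂ) := by
      rw [← Complex.ofReal_pow, Real.sq_sqrt Real.pi_pos.le]
    have h2 : w ^ 2 = ((2 * Real.pi : ℝ) : ℂ) * Complex.I := by
      rw [hw, mul_pow, hpi]
      push_cast
      linear_combination (Real.pi : ℂ) * Complex.I_sq
    have hre : 0 < w.re := by
      have : w.re = √Real.pi := by
        rw [hw, Complex.re_mul_ofReal]; simp
      rw [this]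
      exact Real.sqrt_pos.mpr Real.pi_pos
    have harg : |w.arg| < Real.pi / 2 := Complex.abs_arg_lt_pi_div_two_iff.mpr (Or.inl hre)
    rw [abs_lt] at harg
    have h3 := Complex.pow_cpow_nat_inv (x := w) (n := 2) two_ne_zero
      (by push_cast; linarith [harg.1]) (by push_cast; linarith [harg.2])
    rw [h2] at h3
    rw [← h3]
    congr 1
    norm_num
  have hlim : Tendsto (fun a : ℝ => ((Real.pi : ℂ) / (a - Complex.I / 2)) ^ (1 / 2 : ℂ)) (𝓝[>] 0)
      (𝓝 ((1 + Complex.I) * (√Real.pi : ℝ))) := by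
    rw [← hval]
    have h1 : (Real.pi : ℂ) / (((0 : ℝ) : ℂ) - Complex.I / 2) = ((2 * Real.pi : ℝ) : ℂ) * Complex.I := by
      rw [Complex.ofReal_zero, zero_sub]
      rw [div_eq_iff (by simp)]
      push_cast
      linear_combination (Real.pi : ℂ) * Complex.I_mul_I
    have hs : (Real.pi : ℂ) / (((0 : ℝ) : ℂ) - Complex.I / 2) ∈ Complex.slitPlane := by
      rw [h1, Complex.mem_slitPlane_iff]
      right
      simp [Real.pi_ne_zero]
    have h2 : ContinuousAt (fun a : ℝ => ((Real.pi : ℂ) / (a - Complex.I / 2))) 0 := by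
      apply ContinuousAt.div
      · fun_prop
      · fun_prop
      · simp
    exact (h2.cpow continuousAt_const hs).tendsto.mono_left nhdsWithin_le_nhds
  have hEK : ∀ K : ℝ, Tendsto (fun a : ℝ => ∫ y in (-K)..K, E a y) (𝓝[>] 0)
      (𝓝 (∫ y in (-K)..K, E 0 y)) := by
    intro K
    have : Continuous (fun a : ℝ => ∫ y in (-K)..K, E a y) := by
      apply intervalIntegral.continuous_parametric_intervalIntegral_of_continuous'
      simp only [hE]
      fun_prop
    exact this.continuousAt.tendsto.mono_left nhdsWithin_le_nhds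
  have hmain : ∀ K : ℝ, 0 < K →
      ‖(1 + Complex.I) * (√Real.pi : ℝ) - ∫ y in (-K)..K, E 0 y‖ ≤ 4 / K := by
    intro K hK
    apply le_of_tendsto (hlim.sub (hEK K)).norm
    filter_upwards [self_mem_nhdsWithin] with a ha
    exact hFK a ha K hK
  have hE0 : ∀ y : ℝ, E 0 y = Complex.exp (Complex.I * ((y ^ 2 / 2 : ℝ) : ℂ)) := by
    intro y
    simp only [hE]
    congr 1
    push_cast
    ring
  rw [tendsto_iff_norm_sub_tendsto_zero]
  have h4 : Tendsto (fun K : ℝ => 4 / K) atTop (𝓝 0) := tendsto_const_nhds.div_atTop tendsto_id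
  refine squeeze_zero' (Eventually.of_forall fun _ => norm_nonneg _) ?_ h4
  filter_upwards [eventually_gt_atTop 0] with K hK
  have := hmain K hK
  rw [norm_sub_rev] at this
  have he : ∫ y in (-K)..K, Complex.exp (Complex.I * ((y ^ 2 / 2 : ℝ) : ℂ)) = ∫ y in (-K)..K, E 0 y :=
    intervalIntegral.integral_congr fun y _ => (hE0 y).symm
  rw [he]
  exact this

/-- van der Corput with the sign of `f''` given -/
theorem vdc_aux {α β m M M₁ ρ : ℝ} (hαβ : α ≤ β) {f g : ℝ → ℝ} (hf : ContDiff ℝ 2 f)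
    (hg : ContDiff ℝ 1 g) (hm : 0 < m) (hρ : 0 < ρ) (hf' : ∀ t ∈ Icc α β, m ≤ |deriv f t|)
    (s : ℝ) (hs : s = 1 ∨ s = -1) (hsign : ∀ t ∈ Ioo α β, 0 ≤ s * deriv (deriv f) t)
    (hM : ∀ t ∈ Icc α β, |g t| ≤ M) (hM₁ : ∀ t ∈ Icc α β, |deriv g t| ≤ M₁) :
    ‖∫ t in α..β, (g t : ℂ) * Complex.exp (Complex.I * ((ρ * f t : ℝ) : ℂ))‖ ≤
      (4 * M + M₁ * (β - α)) / (ρ * m) := by
  set φ := deriv f with hφ
  have hφc : ContDiff ℝ 1 φ := by
    have h2 : ContDiff ℝ (1 + 1) f := by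
      have : (2 : WithTop ℕ∞) = 1 + 1 := by norm_num
      rw [← this]; exact hf
    exact (contDiff_succ_iff_deriv.mp h2).2.2
  have hfd : ∀ t, HasDerivAt f (φ t) t := fun t =>
    (hf.differentiable (by norm_num) t).hasDerivAt
  have hφd : ∀ t, HasDerivAt φ (deriv φ t) t := fun t =>
    (hφc.differentiable (by norm_num) t).hasDerivAt
  have hgd : ∀ t, HasDerivAt g (deriv g t) t := fun t =>
    (hg.differentiable (by norm_num) t).hasDerivAt
  have cφ : Continuous φ := hφc.continuous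
  have cφ' : Continuous (deriv φ) := hφc.continuous_deriv (by norm_num)
  have cg : Continuous g := hg.continuous
  have cg' : Continuous (deriv g) := hg.continuous_deriv (by norm_num)
  have cf : Continuous f := hf.continuous
  have hφ0 : ∀ t ∈ Icc α β, φ t ≠ 0 := by
    intro t ht h0
    have := hf' t ht
    rw [h0, abs_zero] at this
    linarith
  have hα : α ∈ Icc α β := ⟨le_rfl, hαβ⟩
  have hβ : β ∈ Icc α β := ⟨hαβ, le_rfl⟩
  have hM0 : 0 ≤ M := (abs_nonneg _).trans (hM α hα)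
  have hM10 : 0 ≤ M₁ := (abs_nonneg _).trans (hM₁ α hα)
  set r : ℝ → ℝ := fun t => g t / (ρ * φ t) with hr
  set r' : ℝ → ℝ := fun t => deriv g t / (ρ * φ t) - g t * deriv φ t / (ρ * φ t ^ 2) with hr'
  have hrd : ∀ t ∈ Icc α β, HasDerivAt r (r' t) t := by
    intro t ht
    have h0 := hφ0 t ht
    have h1 := (hgd t).div ((hφd t).const_mul ρ) (mul_ne_zero hρ.ne' h0)
    have e : (deriv g t * (ρ * φ t) - g t * (ρ * deriv φ t)) / (ρ * φ t) ^ 2 = r' t := by
      simp only [hr']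
      field_simp
    rw [e] at h1
    exact h1
  set u : ℝ → ℂ := fun t => -Complex.I * (r t : ℂ) with hu
  set v : ℝ → ℂ := fun t => Complex.exp (Complex.I * ((ρ * f t : ℝ) : ℂ)) with hv
  have hud : ∀ t ∈ uIcc α β, HasDerivAt u (-Complex.I * (r' t : ℂ)) t := by
    intro t ht
    rw [uIcc_of_le hαβ] at ht
    exact ((hrd t ht).ofReal_comp).const_mul (-Complex.I)
  have hvd : ∀ t ∈ uIcc α β, HasDerivAt v
      (Complex.exp (Complex.I * ((ρ * f t : ℝ) : ℂ)) * (Complex.I * ((ρ * φ t : ℝ) : ℂ))) t := by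
    intro t _
    exact ((((hfd t).const_mul ρ).ofReal_comp).const_mul Complex.I).cexp
  have cr' : ContinuousOn r' (Icc α β) := by
    apply ContinuousOn.sub
    · apply ContinuousOn.div cg'.continuousOn (by fun_prop)
      intro t ht
      exact mul_ne_zero hρ.ne' (hφ0 t ht)
    · apply ContinuousOn.div (by fun_prop) (by fun_prop)
      intro t ht
      exact mul_ne_zero hρ.ne' (pow_ne_zero 2 (hφ0 t ht))
  have hui : IntervalIntegrable (fun t => -Complex.I * (r' t : ℂ)) volume α β := by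
    apply ContinuousOn.intervalIntegrable
    rw [uIcc_of_le hαβ]
    exact continuousOn_const.mul (Complex.continuous_ofReal.comp_continuousOn cr')
  have hvi : IntervalIntegrable (fun t => Complex.exp (Complex.I * ((ρ * f t : ℝ) : ℂ)) *
      (Complex.I * ((ρ * φ t : ℝ) : ℂ))) volume α β := by
    apply Continuous.intervalIntegrable
    have : Continuous fun t => ((ρ * f t : ℝ) : ℂ) := by fun_prop
    have : Continuous fun t => ((ρ * φ t : ℝ) : ℂ) := by fun_prop
    fun_prop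
  have hp := intervalIntegral.integral_mul_deriv_eq_deriv_mul hud hvd hui hvi
  have he : ∫ t in α..β, u t * (Complex.exp (Complex.I * ((ρ * f t : ℝ) : ℂ)) *
      (Complex.I * ((ρ * φ t : ℝ) : ℂ))) =
      ∫ t in α..β, (g t : ℂ) * Complex.exp (Complex.I * ((ρ * f t : ℝ) : ℂ)) := by
    apply intervalIntegral.integral_congr
    intro t ht
    rw [uIcc_of_le hαβ] at ht
    have h0 := hφ0 t ht
    have h1 : (r t : ℂ) * ((ρ * φ t : ℝ) : ℂ) = g t := by
      rw [← Complex.ofReal_mul]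
      congr 1
      simp only [hr]
      field_simp
    show u t * (Complex.exp (Complex.I * ((ρ * f t : ℝ) : ℂ)) *
      (Complex.I * ((ρ * φ t : ℝ) : ℂ))) = _
    simp only [hu]
    rw [← h1]
    linear_combination (-(r t : ℂ) * ((ρ * φ t : ℝ) : ℂ) *
      Complex.exp (Complex.I * ((ρ * f t : ℝ) : ℂ))) * Complex.I_mul_I
  rw [he] at hp
  rw [hp]
  have nv : ∀ t, ‖v t‖ = 1 := by
    intro t
    simp only [hv]
    rw [mul_comm, Complex.norm_exp_ofReal_mul_I]
  have nI : ‖-Complex.I‖ = 1 := by rw [norm_neg, Complex.norm_I]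
  have nr : ∀ t ∈ Icc α β, |r t| ≤ M / (ρ * m) := by
    intro t ht
    simp only [hr]
    rw [abs_div, abs_mul, abs_of_pos hρ]
    exact div_le_div₀ hM0 (hM t ht) (by positivity) (mul_le_mul_of_nonneg_left (hf' t ht) hρ.le)
  have nuv : ∀ t ∈ Icc α β, ‖u t * v t‖ ≤ M / (ρ * m) := by
    intro t ht
    rw [norm_mul, nv, mul_one]
    simp only [hu]
    rw [norm_mul, nI, one_mul, Complex.norm_real]
    exact nr t ht
  -- the integral term
  have hinvd : ∀ t ∈ uIcc α β, HasDerivAt (fun t => -(φ t)⁻¹) (deriv φ t / φ t ^ 2) t := by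
    intro t ht
    rw [uIcc_of_le hαβ] at ht
    have := ((hφd t).inv (hφ0 t ht)).fun_neg
    rw [neg_div, neg_neg] at this
    exact this
  have cq : ContinuousOn (fun t => deriv φ t / φ t ^ 2) (uIcc α β) := by
    rw [uIcc_of_le hαβ]
    apply ContinuousOn.div cφ'.continuousOn (by fun_prop)
    intro t ht
    exact pow_ne_zero 2 (hφ0 t ht)
  have hq := intervalIntegral.integral_eq_sub_of_hasDerivAt hinvd cq.intervalIntegrable
  have hinv : ∀ t ∈ Icc α β, |(φ t)⁻¹| ≤ m⁻¹ := by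
    intro t ht
    rw [abs_inv]
    exact inv_anti₀ hm (hf' t ht)
  have hb : ‖∫ t in α..β, -Complex.I * (r' t : ℂ) * v t‖ ≤
      ∫ t in α..β, (M₁ / (ρ * m) + M / ρ * (s * (deriv φ t / φ t ^ 2))) := by
    apply intervalIntegral.norm_integral_le_of_norm_le hαβ
    · have hne := Measure.ae_ne volume β
      filter_upwards [hne] with t htne ht
      have htI : t ∈ Ioo α β := ⟨ht.1, lt_of_le_of_ne ht.2 htne⟩
      have htc : t ∈ Icc α β := ⟨ht.1.le, ht.2⟩
      rw [norm_mul, nv, mul_one, norm_mul, nI, one_mul, Complex.norm_real]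
      have h0 := hφ0 t htc
      have h1 : ‖r' t‖ ≤ |deriv g t / (ρ * φ t)| + |g t * deriv φ t / (ρ * φ t ^ 2)| := by
        simp only [hr']
        exact abs_sub _ _
      have h2 : |deriv g t / (ρ * φ t)| ≤ M₁ / (ρ * m) := by
        rw [abs_div, abs_mul, abs_of_pos hρ]
        exact div_le_div₀ hM10 (hM₁ t htc) (by positivity)
          (mul_le_mul_of_nonneg_left (hf' t htc) hρ.le)
      have h3 : |g t * deriv φ t / (ρ * φ t ^ 2)| ≤ M / ρ * (s * (deriv φ t / φ t ^ 2)) := by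
        have h4 : |deriv φ t| = s * deriv φ t := by
          have h5 := hsign t htI
          rw [← abs_of_nonneg h5, abs_mul]
          rcases hs with h | h <;> simp [h]
        rw [abs_div, abs_mul, abs_mul, abs_of_pos hρ, h4, abs_of_nonneg (sq_nonneg (φ t))]
        have h6 : |g t| * (s * deriv φ t) / (ρ * φ t ^ 2) =
            |g t| / ρ * (s * (deriv φ t / φ t ^ 2)) := by
          field_simp
        rw [h6]
        apply mul_le_mul_of_nonneg_right
        · exact div_le_div_of_nonneg_right (hM t htc) hρ.le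
        · rw [← mul_div_assoc]
          exact div_nonneg (hsign t htI) (sq_nonneg _)
      linarith
    · apply IntervalIntegrable.add
      · exact intervalIntegrable_const
      · exact (cq.intervalIntegrable.const_mul s).const_mul (M / ρ)
  have hc : ∫ t in α..β, (M₁ / (ρ * m) + M / ρ * (s * (deriv φ t / φ t ^ 2))) =
      (β - α) * (M₁ / (ρ * m)) + M / ρ * (s * (-(φ β)⁻¹ - -(φ α)⁻¹)) := by
    rw [intervalIntegral.integral_add intervalIntegrable_const
      ((cq.intervalIntegrable.const_mul s).const_mul (M / ρ)),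
      intervalIntegral.integral_const, intervalIntegral.integral_const_mul,
      intervalIntegral.integral_const_mul, hq, smul_eq_mul]
  rw [hc] at hb
  have hsb : s * (-(φ β)⁻¹ - -(φ α)⁻¹) ≤ 2 * m⁻¹ := by
    have h1 := hinv α hα
    have h2 := hinv β hβ
    rw [abs_le] at h1 h2
    rcases hs with h | h <;> rw [h] <;> linarith [h1.1, h1.2, h2.1, h2.2]
  have hb2 : M / ρ * (s * (-(φ β)⁻¹ - -(φ α)⁻¹)) ≤ M / ρ * (2 * m⁻¹) :=
    mul_le_mul_of_nonneg_left hsb (by positivity)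
  have n3 := norm_sub_le (u β * v β - u α * v α) (∫ t in α..β, -Complex.I * (r' t : ℂ) * v t)
  have n4 := norm_sub_le (u β * v β) (u α * v α)
  have n5 := nuv α hα
  have n6 := nuv β hβ
  have e1 : (4 * M + M₁ * (β - α)) / (ρ * m) = M / (ρ * m) + M / (ρ * m) +
      ((β - α) * (M₁ / (ρ * m)) + M / ρ * (2 * m⁻¹)) := by
    field_simp
    ring
  rw [e1]
  linarith

/-- TARGET 2: van der Corput's first derivative test. -/
theorem vdc {α β m M M₁ ρ : ℝ} (hαβ : α ≤ β) {f g : ℝ → ℝ} (hf : ContDiff ℝ 2 f)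
    (hg : ContDiff ℝ 1 g) (hm : 0 < m) (hρ : 0 < ρ) (hf' : ∀ t ∈ Icc α β, m ≤ |deriv f t|)
    (hmono : MonotoneOn (deriv f) (Icc α β) ∨ AntitoneOn (deriv f) (Icc α β))
    (hM : ∀ t ∈ Icc α β, |g t| ≤ M) (hM₁ : ∀ t ∈ Icc α β, |deriv g t| ≤ M₁) :
    ‖∫ t in α..β, (g t : ℂ) * Complex.exp (Complex.I * ((ρ * f t : ℝ) : ℂ))‖ ≤
      (4 * M + M₁ * (β - α)) / (ρ * m) := by
  rcases hmono with h | h
  · refine vdc_aux hαβ hf hg hm hρ hf' 1 (Or.inl rfl) ?_ hM hM₁
    intro t ht
    have h1 : 0 ≤ derivWithin (deriv f) (Icc α β) t := h.derivWithin_nonneg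
    rw [derivWithin_of_mem_nhds (Icc_mem_nhds ht.1 ht.2)] at h1
    rw [one_mul]; exact h1
  · refine vdc_aux hαβ hf hg hm hρ hf' (-1) (Or.inr rfl) ?_ hM hM₁
    intro t ht
    have h1 : derivWithin (deriv f) (Icc α β) t ≤ 0 := h.derivWithin_nonpos
    rw [derivWithin_of_mem_nhds (Icc_mem_nhds ht.1 ht.2)] at h1
    linarith

end Pool.Agent.Helper327_Drum
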