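import Pool.Agent.Helper327_Drum.Fin.K1d
import Pool.Agent.Helper327_Drum.Fin.K2a
import Pool.Agent.Helper327_Drum.Fin.K2b

/-
JOB SY1 (owner helper327, problem MP_d92c84_an). All imports are on origin/main.
-/

set_option autoImplicit false
open MeasureTheory Set Filter Topology ComplexConjugate
open scoped ContDiff InnerProductSpace

namespace Pool.Agent.Helper327_Drum

open Pool.Agent.TH298.Sch (dd SC)
open Pool.Agent.R227.SA (la Wat Dat)

/-
This generalises `nonradial_index` (Fin/K2b.lean), whose proof can be copied: there the pieces come from `three_comps` and k = 3.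
Plain proof. Ω is not a disc, so by `kill_disc` (Fin/K2a.lean) no nontrivial infinitesimal motion annihilates v. With w(x) = fderiv v x (I (x - p)) apply `index_family` (Fin/K1d.lean) with n = k + 2 and the
k + 3 pairs (D, u), (G i, (G i).indicator w), (Ω, ∂₁v), (Ω, ∂_I v) (`kill_wat`). The sets are nested or disjoint; hex: a point of D \ closure Ω. Linear independence: on D \ closure Ω only u is not 0, so its
coefficient vanishes (`Wat.uc`). On G i (nonempty open): b_i w + d_1 ∂₁v + d_2 ∂_I v = 0; this combination is in Wat Ω lam (`kill_wat`), so it vanishes everywhere (`Wat.uc`), and no nontrivial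
infinitesimal motion annihilates v, so b_i = 0 and then d_1 = d_2 = 0 (k ≥ 1).
-/

/-- TARGET: the index bound with k nodal pieces. -/
theorem pieces_index {D Ω : Set ℂ} {lam c : ℝ} {u v : ℂ → ℝ} (hDo : IsOpen D)
    (hDb : Bornology.IsBounded D) (hDc : IsPreconnected D) (hu : Wat D lam u) (hu0 : ∃ x, u x ≠ 0)
    (hv : Dat Ω lam c v) (ho : IsOpen Ω) (hne : Ω.Nonempty) (hcon : IsPreconnected Ω)
    (hreg : interior (closure Ω) = Ω) (hcc : IsPreconnected Ωᶜ) (hΩD : Ω ⊆ D)
    (hout : (D \ closure Ω).Nonempty) (hlam : 0 < lam) (hc : c ≠ 0)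
    (hnd : ¬ ∃ (p : ℂ) (r : ℝ), 0 < r ∧ Ω = Metric.ball p r) {k : ℕ} (hk : 1 ≤ k) (p : ℂ)
    (G : Fin k → Set ℂ) (hG : ∀ i, IsOpen (G i) ∧ (G i).Nonempty ∧ G i ⊆ Ω)
    (hdj : ∀ i j, i ≠ j → Disjoint (G i) (G j))
    (hw : ∀ i, Wat (G i) lam ((G i).indicator fun x => fderiv ℝ v x (Complex.I * (x - p)))) :
    dirichletEigenvalue (k + 2) D < lam := by
  classical
  have hb : Bornology.IsBounded Ω := hDb.subset hΩD
  have hnr : ∀ (a : ℂ) (b : ℝ), a ≠ 0 ∨ b ≠ 0 →
      ∃ x, fderiv ℝ v x (a + b * Complex.I * x) ≠ 0 := by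
    intro a b hab
    by_contra hcon2
    push Not at hcon2
    exact hnd (kill_disc hv ho hb hne hcon hreg hcc hlam hc hab hcon2)
  set w : ℂ → ℝ := fun x => fderiv ℝ v x (Complex.I * (x - p)) with hwdef
  have hW1 : Wat Ω lam (fun x => fderiv ℝ v x 1) := by
    have := kill_wat hv 1 0
    simpa using this
  have hWI : Wat Ω lam (fun x => fderiv ℝ v x Complex.I) := by
    have := kill_wat hv Complex.I 0
    simpa using this
  obtain ⟨a, haD, haΩ⟩ := hout
  have hnear : ∀ᶠ x in 𝓝 a, x ∉ Ω := by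
    have h1 : (closure Ω)ᶜ ∈ 𝓝 a := isClosed_closure.isOpen_compl.mem_nhds haΩ
    filter_upwards [h1] with x hx hx2
    exact hx (subset_closure hx2)
  have hz1 : (fun x => fderiv ℝ v x 1) =ᶠ[𝓝 a] 0 := by
    filter_upwards [hnear] with x hx
    exact hW1.out x hx
  have hzI : (fun x => fderiv ℝ v x Complex.I) =ᶠ[𝓝 a] 0 := by
    filter_upwards [hnear] with x hx
    exact hWI.out x hx
  have hzG : ∀ i, (G i).indicator w =ᶠ[𝓝 a] 0 := by
    intro i
    filter_upwards [hnear] with x hx
    exact (hw i).out x (fun h => hx ((hG i).2.2 h))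
  have hs : ∀ i : Fin k, G i ⊆ Ω := fun i => (hG i).2.2
  have hsD : ∀ i : Fin k, G i ⊆ D := fun i => (hG i).2.2.trans hΩD
  let GG : Fin (k + 2 + 1) → Set ℂ :=
    Fin.cons D (Fin.snoc (Fin.snoc G Ω : Fin (k + 1) → Set ℂ) Ω : Fin (k + 2) → Set ℂ)
  let FF : Fin (k + 2 + 1) → ℂ → ℝ :=
    Fin.cons u (Fin.snoc (Fin.snoc (fun i => (G i).indicator w) (fun x => fderiv ℝ v x 1) :
      Fin (k + 1) → ℂ → ℝ) (fun x => fderiv ℝ v x Complex.I) : Fin (k + 2) → ℂ → ℝ)
  have G0 : GG 0 = D := by simp [GG]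
  have G1 : ∀ i : Fin k, GG i.castSucc.castSucc.succ = G i := by
    intro i; simp only [GG, Fin.cons_succ, Fin.snoc_castSucc]
  have G2 : GG (Fin.last k).castSucc.succ = Ω := by
    simp only [GG, Fin.cons_succ, Fin.snoc_castSucc, Fin.snoc_last]
  have G3 : GG (Fin.last (k + 1)).succ = Ω := by
    simp only [GG, Fin.cons_succ, Fin.snoc_last]
  have F0 : FF 0 = u := by simp [FF]
  have F1 : ∀ i : Fin k, FF i.castSucc.castSucc.succ = (G i).indicator w := by
    intro i; simp only [FF, Fin.cons_succ, Fin.snoc_castSucc]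
  have F2 : FF (Fin.last k).castSucc.succ = fun x => fderiv ℝ v x 1 := by
    simp only [FF, Fin.cons_succ, Fin.snoc_castSucc, Fin.snoc_last]
  have F3 : FF (Fin.last (k + 1)).succ = fun x => fderiv ℝ v x Complex.I := by
    simp only [FF, Fin.cons_succ, Fin.snoc_last]
  have hcases : ∀ (q : Fin (k + 2 + 1) → Prop), q 0 → (∀ i : Fin k, q i.castSucc.castSucc.succ) →
      q (Fin.last k).castSucc.succ → q (Fin.last (k + 1)).succ → ∀ i, q i := by
    intro q h0 h1 h2 h3 i
    refine Fin.cases h0 (fun i => ?_) i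
    refine Fin.lastCases h3 (fun i => ?_) i
    exact Fin.lastCases h2 (fun i => h1 i) i
  refine index_family hDo hDb hDc hlam (n := k + 2) (by omega) GG FF ?_ ?_ ?_ G0 ⟨a, haD, ?_⟩ ?_
  · refine hcases _ ?_ (fun i => ?_) ?_ ?_
    · rw [G0]; exact ⟨hDo, subset_rfl⟩
    · rw [G1]; exact ⟨(hG i).1, hsD i⟩
    · rw [G2]; exact ⟨ho, hΩD⟩
    · rw [G3]; exact ⟨ho, hΩD⟩
  · refine hcases _ ?_ (fun i => ?_) ?_ ?_
    · rw [G0, F0]; exact hu
    · rw [G1, F1]; exact hw i
    · rw [G2, F2]; exact hW1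
    · rw [G3, F3]; exact hWI
  · refine hcases _ ?_ (fun i => ?_) ?_ ?_
    · refine hcases _ ?_ (fun j => ?_) ?_ ?_
      · rw [G0]; exact Or.inl subset_rfl
      · rw [G0, G1]; exact Or.inr (Or.inl (hsD j))
      · rw [G0, G2]; exact Or.inr (Or.inl hΩD)
      · rw [G0, G3]; exact Or.inr (Or.inl hΩD)
    · refine hcases _ ?_ (fun j => ?_) ?_ ?_
      · rw [G0, G1]; exact Or.inl (hsD i)
      · rw [G1, G1]
        by_cases hij : i = j
        · rw [hij]; exact Or.inl subset_rfl
        · exact Or.inr (Or.inr (hdj i j hij))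
      · rw [G1, G2]; exact Or.inl (hs i)
      · rw [G1, G3]; exact Or.inl (hs i)
    · refine hcases _ ?_ (fun j => ?_) ?_ ?_
      · rw [G0, G2]; exact Or.inl hΩD
      · rw [G1, G2]; exact Or.inr (Or.inl (hs j))
      · rw [G2]; exact Or.inl subset_rfl
      · rw [G2, G3]; exact Or.inl subset_rfl
    · refine hcases _ ?_ (fun j => ?_) ?_ ?_
      · rw [G0, G3]; exact Or.inl hΩD
      · rw [G1, G3]; exact Or.inr (Or.inl (hs j))
      · rw [G2, G3]; exact Or.inl subset_rfl
      · rw [G3]; exact Or.inl subset_rfl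
  · refine hcases _ ?_ (fun i => ?_) ?_ ?_
    · exact fun h => absurd rfl h
    · rw [F1]; exact fun _ => hzG i
    · rw [F2]; exact fun _ => hz1
    · rw [F3]; exact fun _ => hzI
  · rw [Fintype.linearIndependent_iff]
    intro g hg
    set b : Fin k → ℝ := fun i => g i.castSucc.castSucc.succ with hbdef
    set d1 : ℝ := g (Fin.last k).castSucc.succ with hd1
    set d2 : ℝ := g (Fin.last (k + 1)).succ with hd2
    have hsum : ∀ x, g 0 * u x + ((∑ i, b i * (G i).indicator w x) + d1 * fderiv ℝ v x 1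
        + d2 * fderiv ℝ v x Complex.I) = 0 := by
      intro x
      have h1 := congrFun hg x
      rw [Finset.sum_apply, Fin.sum_univ_succ, Fin.sum_univ_castSucc, Fin.sum_univ_castSucc] at h1
      simp only [F0, F1, F2, F3, Pi.smul_apply, smul_eq_mul, Pi.zero_apply] at h1
      exact h1
    have hg0 : g 0 = 0 := by
      by_contra h0
      obtain ⟨y, hy⟩ := hu0
      apply hy
      refine hu.uc hlam hDc haD ?_ y
      have hzG' : ∀ᶠ x in 𝓝 a, ∀ i, (G i).indicator w x = (0 : ℂ → ℝ) x := by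
        rw [Filter.eventually_all]
        exact fun i => hzG i
      filter_upwards [hz1, hzI, hzG'] with x e1 e2 e3
      have h1 := hsum x
      have e1' : fderiv ℝ v x 1 = 0 := e1
      have e2' : fderiv ℝ v x Complex.I = 0 := e2
      rw [e1', e2', Finset.sum_eq_zero (fun i _ => by rw [e3 i]; simp)] at h1
      simp only [mul_zero, add_zero] at h1
      exact (mul_eq_zero.1 h1).resolve_left h0
    have key : ∀ (i : Fin k) (b : ℝ), (∀ x ∈ G i, b * w x + d1 * fderiv ℝ v x 1
        + d2 * fderiv ℝ v x Complex.I = 0) → b = 0 ∧ d1 = 0 ∧ d2 = 0 := by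
      intro i b hb0
      obtain ⟨q, hq⟩ := (hG i).2.1
      have hform : ∀ x, fderiv ℝ v x ((d1 + d2 * Complex.I - b * Complex.I * p)
          + b * Complex.I * x) = b * w x + d1 * fderiv ℝ v x 1
          + d2 * fderiv ℝ v x Complex.I := by
        intro x
        have h1 : ((d1 : ℂ) + d2 * Complex.I - b * Complex.I * p) + b * Complex.I * x
            = b • (Complex.I * (x - p)) + d1 • (1 : ℂ) + d2 • Complex.I := by
          simp only [Complex.real_smul]
          ring
        rw [h1, map_add, map_add, map_smul, map_smul, map_smul]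
        rfl
      have hWk := kill_wat hv ((d1 : ℂ) + d2 * Complex.I - b * Complex.I * p) b
      have hall : ∀ x, fderiv ℝ v x ((d1 + d2 * Complex.I - b * Complex.I * p)
          + b * Complex.I * x) = 0 := by
        refine hWk.uc hlam hcon ((hG i).2.2 hq) ?_
        filter_upwards [(hG i).1.mem_nhds hq] with x hx
        show fderiv ℝ v x _ = 0
        rw [hform, hb0 x hx]
      by_contra hne2
      have h2 : ((d1 : ℂ) + d2 * Complex.I - b * Complex.I * p) ≠ 0 ∨ b ≠ 0 := by
        by_contra h3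
        push Not at h3
        obtain ⟨h4, h5⟩ := h3
        apply hne2
        rw [h5] at h4
        simp only [Complex.ofReal_zero, zero_mul, sub_zero] at h4
        have h6 := congrArg Complex.re h4
        have h7 := congrArg Complex.im h4
        simp at h6 h7
        exact ⟨h5, h6, h7⟩
      obtain ⟨x, hx⟩ := hnr _ _ h2
      exact hx (hall x)
    have hkey : ∀ i : Fin k, b i = 0 ∧ d1 = 0 ∧ d2 = 0 := by
      intro i
      refine key i (b i) (fun x hx => ?_)
      have h1 := hsum x
      rw [hg0, Finset.sum_eq_single i (fun j _ hji => ?_) (fun h => absurd (Finset.mem_univ i) h),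
        Set.indicator_of_mem hx] at h1
      · linarith
      · rw [Set.indicator_of_notMem (fun h => (hdj j i hji).le_bot ⟨h, hx⟩), mul_zero]
    have hd := (hkey ⟨0, hk⟩).2
    exact hcases _ hg0 (fun i => (hkey i).1) hd.1 hd.2

end Pool.Agent.Helper327_Drum
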