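import Pool.Agent.Helper327_Drum.Fin.AS2
import Pool.Agent.Helper327_Drum.Fin.K1d
import Pool.Agent.Helper327_Drum.Fin.K2a
import Pool.Agent.Helper327_Drum.Fin.E3
import Pool.Agent.R227.SA18

/-
JOB WB (owner helper327, problem MP_d92c84_an). All imports are on origin/main.
-/

set_option autoImplicit false
open MeasureTheory Set Filter Topology ComplexConjugate
open scoped ContDiff InnerProductSpace

namespace Pool.Agent.Helper327_Drum

open Pool.Agent.TH298.Sch (dd SC)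
open Pool.Agent.R227.SA (la Wat Dat)

theorem wirt_ne {z : ℂ} {n : ℤ} (hn : n ≠ 0) {L : ℝ} (hL : 0 < L) :
    ‖1 / (-2 * (Real.pi : ℂ) * Complex.I * n) * (0 - (L : ℂ) * z)‖ ^ 2 ≤
      (L / (2 * Real.pi)) ^ 2 * ‖z‖ ^ 2 := by
  have hpi := Real.pi_pos
  have h1 : ‖1 / (-2 * (Real.pi : ℂ) * Complex.I * n) * (0 - (L : ℂ) * z)‖ =
      L / (2 * Real.pi * |(n : ℝ)|) * ‖z‖ := by
    simp only [norm_mul, norm_div, norm_one, zero_sub, norm_neg, Complex.norm_real,
      Real.norm_eq_abs, abs_of_pos hL, Complex.norm_I, abs_of_pos hpi, Complex.norm_intCast,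
      Complex.norm_ofNat, mul_one]
    ring
  have h2 : (1 : ℝ) ≤ |(n : ℝ)| := by
    rw [← Int.cast_abs]
    exact_mod_cast Int.one_le_abs hn
  have h3 : L / (2 * Real.pi * |(n : ℝ)|) ≤ L / (2 * Real.pi) := by
    apply div_le_div_of_nonneg_left hL.le (by positivity)
    nlinarith
  rw [h1, mul_pow]
  exact mul_le_mul_of_nonneg_right (pow_le_pow_left₀ (by positivity) h3 2) (sq_nonneg _)

/-- TARGET 1: Wirtinger's inequality for functions with mean 0 vanishing at the ends. -/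
theorem wirt {a b : ℝ} (hab : a < b) {p p' : ℝ → ℝ} (hp : ContinuousOn p (Icc a b))
    (hd : ∀ s ∈ Ioo a b, HasDerivAt p (p' s) s) (hi : IntegrableOn (fun s => p' s ^ 2) (Ioo a b))
    (hpa : p a = 0) (hpb : p b = 0) (h0 : ∫ s in a..b, p s = 0) :
    (2 * Real.pi / (b - a)) ^ 2 * ∫ s in a..b, p s ^ 2 ≤ ∫ s in a..b, p' s ^ 2 := by
  have hpi := Real.pi_pos
  have hL : 0 < b - a := sub_pos.2 hab
  have hu : uIcc a b = Icc a b := uIcc_of_le hab.le
  -- measurability of the derivative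
  have hm : AEStronglyMeasurable p' (volume.restrict (Ioo a b)) := by
    refine (measurable_deriv p).aestronglyMeasurable.congr ?_
    filter_upwards [ae_restrict_mem measurableSet_Ioo] with s hs
    exact (hd s hs).deriv
  have hL2' : MemLp (fun s => ((p' s : ℝ) : ℂ)) 2 (volume.restrict (Ioc a b)) := by
    have h1 : MemLp p' 2 (volume.restrict (Ioo a b)) :=
      (memLp_two_iff_integrable_sq hm).2 hi
    rw [Measure.restrict_congr_set Ioo_ae_eq_Ioc] at h1
    exact h1.ofReal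
  have hL2 : MemLp (fun s => ((p s : ℝ) : ℂ)) 2 (volume.restrict (Ioc a b)) := by
    have h1 : MemLp p 2 (volume.restrict (Icc a b)) := by
      have h2 : AEStronglyMeasurable p (volume.restrict (Icc a b)) :=
        hp.aestronglyMeasurable measurableSet_Icc
      refine (memLp_two_iff_integrable_sq h2).2 ?_
      exact (hp.pow 2).integrableOn_compact isCompact_Icc
    rw [← Measure.restrict_congr_set Ioc_ae_eq_Icc] at h1
    exact h1.ofReal
  have hii : IntervalIntegrable (fun s => ((p' s : ℝ) : ℂ)) volume a b := by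
    rw [intervalIntegrable_iff_integrableOn_Ioc_of_le hab.le]
    exact hL2'.integrable (by norm_num)
  have hP := hasSum_sq_fourierCoeffOn hab hL2
  have hP' := hasSum_sq_fourierCoeffOn hab hL2'
  have hle : ∀ n : ℤ, ‖fourierCoeffOn hab (fun s => ((p s : ℝ) : ℂ)) n‖ ^ 2 ≤
      ((b - a) / (2 * Real.pi)) ^ 2 *
        ‖fourierCoeffOn hab (fun s => ((p' s : ℝ) : ℂ)) n‖ ^ 2 := by
    intro n
    rcases eq_or_ne n 0 with rfl | hn
    · have h1 : fourierCoeffOn hab (fun s => ((p s : ℝ) : ℂ)) 0 = 0 := by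
        rw [fourierCoeffOn_eq_integral]
        simp only [neg_zero, fourier_zero, one_smul]
        rw [intervalIntegral.integral_ofReal, h0]
        simp
      rw [h1, norm_zero]
      have h2 := sq_nonneg ‖fourierCoeffOn hab (fun s => ((p' s : ℝ) : ℂ)) 0‖
      have h3 := sq_nonneg ((b - a) / (2 * Real.pi))
      have h4 := mul_nonneg h3 h2
      linarith
    · have h1 := fourierCoeffOn_of_hasDerivAt_Ioo hab (f := fun s => ((p s : ℝ) : ℂ))
        (f' := fun s => ((p' s : ℝ) : ℂ)) hn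
        (by
          rw [hu]
          exact Complex.continuous_ofReal.comp_continuousOn hp)
        (by
          intro x hx
          rw [min_eq_left hab.le, max_eq_right hab.le] at hx
          exact (hd x hx).ofReal_comp)
        hii
      rw [h1]
      simp only [hpa, hpb, sub_self, mul_zero]
      have h2 := wirt_ne (z := fourierCoeffOn hab (fun s => ((p' s : ℝ) : ℂ)) n) hn hL
      push_cast at h2 ⊢
      exact h2
  have hfin := hasSum_le hle hP (hP'.mul_left (((b - a) / (2 * Real.pi)) ^ 2))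
  rw [smul_eq_mul, smul_eq_mul] at hfin
  have e1 : ∀ q : ℝ → ℝ, (∫ x in a..b, ‖((q x : ℝ) : ℂ)‖ ^ 2) = ∫ x in a..b, q x ^ 2 := by
    intro q
    refine intervalIntegral.integral_congr fun x _ => ?_
    rw [Complex.norm_real, Real.norm_eq_abs, sq_abs]
  rw [e1, e1] at hfin
  have h5 : (∫ x in a..b, p x ^ 2) ≤ ((b - a) / (2 * Real.pi)) ^ 2 * ∫ x in a..b, p' x ^ 2 := by
    have h6 := mul_le_mul_of_nonneg_left hfin hL.le
    have h7 : (b - a) * ((b - a)⁻¹ * ∫ x in a..b, p x ^ 2) = ∫ x in a..b, p x ^ 2 := by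
      rw [← mul_assoc, mul_inv_cancel₀ hL.ne', one_mul]
    have h8 : (b - a) * (((b - a) / (2 * Real.pi)) ^ 2 * ((b - a)⁻¹ * ∫ x in a..b, p' x ^ 2)) =
        ((b - a) / (2 * Real.pi)) ^ 2 * ∫ x in a..b, p' x ^ 2 := by
      field_simp
    rwa [h7, h8] at h6
  calc (2 * Real.pi / (b - a)) ^ 2 * ∫ s in a..b, p s ^ 2
      ≤ (2 * Real.pi / (b - a)) ^ 2 * (((b - a) / (2 * Real.pi)) ^ 2 * ∫ x in a..b, p' x ^ 2) :=
        mul_le_mul_of_nonneg_left h5 (sq_nonneg _)
    _ = ∫ s in a..b, p' s ^ 2 := by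
        field_simp

theorem comp_Ioo {O : Set ℝ} (hO : IsOpen O) (hOb : Bornology.IsBounded O) {x : ℝ} (hx : x ∈ O) :
    ∃ a b, a < b ∧ connectedComponentIn O x = Ioo a b ∧ a ∉ O ∧ b ∉ O := by
  have hopen : IsOpen (connectedComponentIn O x) := hO.connectedComponentIn
  have hxC : x ∈ connectedComponentIn O x := mem_connectedComponentIn hx
  have hconn : IsConnected (connectedComponentIn O x) := ⟨⟨x, hxC⟩, isPreconnected_connectedComponentIn⟩
  have hbdd : Bornology.IsBounded (connectedComponentIn O x) :=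
    hOb.subset (connectedComponentIn_subset O x)
  have hb1 : BddBelow (connectedComponentIn O x) := (isBounded_iff_bddBelow_bddAbove.1 hbdd).1
  have hb2 : BddAbove (connectedComponentIn O x) := (isBounded_iff_bddBelow_bddAbove.1 hbdd).2
  have h1 := hconn.Ioo_csInf_csSup_subset hb1 hb2
  have h2 : connectedComponentIn O x ⊆
      Ioo (sInf (connectedComponentIn O x)) (sSup (connectedComponentIn O x)) := by
    rw [← interior_Icc]
    exact interior_maximal (subset_Icc_csInf_csSup hb1 hb2) hopen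
  have h3 := Subset.antisymm h2 h1
  generalize sInf (connectedComponentIn O x) = a at h1 h2 h3
  generalize sSup (connectedComponentIn O x) = b at h1 h2 h3
  have hxab : x ∈ Ioo a b := h2 hxC
  have hsub : Ioo a b ⊆ O := h1.trans (connectedComponentIn_subset O x)
  refine ⟨a, b, hxab.1.trans hxab.2, h3, fun ha => ?_, fun hb => ?_⟩
  · have h4 : Ico a b ⊆ connectedComponentIn O x := by
      refine isPreconnected_Ico.subset_connectedComponentIn ⟨hxab.1.le, hxab.2⟩ ?_
      intro y hy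
      rcases eq_or_lt_of_le hy.1 with h | h
      · rw [← h]; exact ha
      · exact hsub ⟨h, hy.2⟩
    have h5 := h2 (h4 ⟨le_rfl, hxab.1.trans hxab.2⟩)
    exact lt_irrefl _ h5.1
  · have h4 : Ioc a b ⊆ connectedComponentIn O x := by
      refine isPreconnected_Ioc.subset_connectedComponentIn ⟨hxab.1, hxab.2.le⟩ ?_
      intro y hy
      rcases eq_or_lt_of_le hy.2 with h | h
      · rw [h]; exact hb
      · exact hsub ⟨hy.1, h⟩
    have h5 := h2 (h4 ⟨hxab.1.trans hxab.2, le_rfl⟩)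
    exact lt_irrefl _ h5.2

theorem line_ineq {O : Set ℝ} (hO : IsOpen O) (hOb : Bornology.IsBounded O) {p p' q : ℝ → ℝ}
    {w : ℝ} (hp : Continuous p) (hp0 : ∀ s, s ∉ O → p s = 0)
    (hq : ∀ s, HasDerivAt q (p s) s) (hq0 : ∀ s, s ∉ O → q s = 0)
    (hd : ∀ s ∈ O, HasDerivAt p (p' s) s) (hi : IntegrableOn (fun s => p' s ^ 2) O)
    (hw : ∀ a b, a < b → Ioo a b ⊆ O → b - a ≤ w) :
    0 ≤ ∫ s in O, (p' s ^ 2 - (2 * Real.pi / w) ^ 2 * p s ^ 2) := by
  have hpi := Real.pi_pos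
  have hp2 : Integrable (fun s => p s ^ 2) := by
    refine (hp.pow 2).integrable_of_hasCompactSupport ?_
    refine HasCompactSupport.intro hOb.isCompact_closure ?_
    intro x hx
    change p x ^ 2 = 0
    rw [hp0 x (fun h => hx (subset_closure h)), zero_pow two_ne_zero]
  have hF : IntegrableOn (fun s => p' s ^ 2 - (2 * Real.pi / w) ^ 2 * p s ^ 2) O :=
    hi.sub ((hp2.const_mul _).integrableOn)
  let Cs : Set (Set ℝ) := (fun x => connectedComponentIn O x) '' O
  have hCs : ∀ C ∈ Cs, ∃ a b, a < b ∧ C = Ioo a b ∧ a ∉ O ∧ b ∉ O := by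
    rintro _ ⟨x, hx, rfl⟩
    exact comp_Ioo hO hOb hx
  have hdisj : Cs.PairwiseDisjoint id := by
    rintro _ ⟨x, hx, rfl⟩ _ ⟨y, hy, rfl⟩ hne
    change Disjoint (connectedComponentIn O x) (connectedComponentIn O y)
    by_contra h
    rw [Set.not_disjoint_iff] at h
    obtain ⟨z, hzx, hzy⟩ := h
    exact hne ((connectedComponentIn_eq hzx).trans (connectedComponentIn_eq hzy).symm)
  have hcount : Cs.Countable := by
    refine hdisj.countable_of_isOpen ?_ ?_
    · rintro _ ⟨x, hx, rfl⟩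
      exact hO.connectedComponentIn
    · rintro _ ⟨x, hx, rfl⟩
      exact ⟨x, mem_connectedComponentIn hx⟩
  have hcov : (⋃ C : Cs, (C : Set ℝ)) = O := by
    ext x
    rw [mem_iUnion]
    constructor
    · rintro ⟨⟨_, y, hy, rfl⟩, hx⟩
      exact connectedComponentIn_subset O y hx
    · intro hx
      exact ⟨⟨_, x, hx, rfl⟩, mem_connectedComponentIn hx⟩
  have : Countable Cs := hcount.to_subtype
  have hsum := integral_iUnion (μ := volume) (s := fun C : Cs => (C : Set ℝ))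
    (f := fun s => p' s ^ 2 - (2 * Real.pi / w) ^ 2 * p s ^ 2)
    (fun C => by
      obtain ⟨a, b, _, h, _⟩ := hCs C C.2
      rw [h]; exact measurableSet_Ioo)
    (fun C C' hCC' => hdisj C.2 C'.2 (fun h => hCC' (Subtype.ext h)))
    (by rw [hcov]; exact hF)
  rw [hcov] at hsum
  rw [hsum]
  refine tsum_nonneg fun C => ?_
  obtain ⟨a, b, hab, hC, ha, hb⟩ := hCs C C.2
  have hCO : (C : Set ℝ) ⊆ O := by
    rw [← hcov]; exact subset_iUnion (fun C : Cs => (C : Set ℝ)) C
  rw [hC] at hCO ⊢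
  have hba : b - a ≤ w := hw a b hab hCO
  have hL : 0 < b - a := sub_pos.2 hab
  have h0 : ∫ s in a..b, p s = 0 := by
    rw [intervalIntegral.integral_eq_sub_of_hasDerivAt (fun s _ => hq s)
      (hp.intervalIntegrable a b), hq0 a ha, hq0 b hb, sub_zero]
  have hW := wirt hab hp.continuousOn (fun s hs => hd s (hCO hs)) (hi.mono_set hCO)
    (hp0 a ha) (hp0 b hb) h0
  have hnn : 0 ≤ ∫ s in a..b, p s ^ 2 :=
    intervalIntegral.integral_nonneg hab.le fun s _ => sq_nonneg _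
  have hk : (2 * Real.pi / w) ^ 2 ≤ (2 * Real.pi / (b - a)) ^ 2 := by
    refine pow_le_pow_left₀ (div_nonneg (by positivity) (hL.le.trans hba)) ?_ 2
    exact div_le_div_of_nonneg_left (by positivity) hL hba
  have h7 : ∫ s in Ioo a b, (p' s ^ 2 - (2 * Real.pi / w) ^ 2 * p s ^ 2) =
      (∫ s in a..b, p' s ^ 2) - (2 * Real.pi / w) ^ 2 * ∫ s in a..b, p s ^ 2 := by
    rw [integral_sub (hi.mono_set hCO) ((hp2.const_mul _).integrableOn), integral_const_mul,
      intervalIntegral.integral_of_le hab.le, intervalIntegral.integral_of_le hab.le,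
      integral_Ioc_eq_integral_Ioo, integral_Ioc_eq_integral_Ioo]
  rw [h7]
  have h8 := mul_le_mul_of_nonneg_right hk hnn
  linarith

/-- the vertical line through `x` -/
theorem vline (x : ℝ) (y : ℝ) : HasDerivAt (fun y : ℝ => (⟨x, y⟩ : ℂ)) Complex.I y := by
  have h1 : (fun y : ℝ => (⟨x, y⟩ : ℂ)) = fun y : ℝ => (x : ℂ) + (y : ℂ) * Complex.I := by
    funext y
    exact Complex.mk_eq_add_mul_I x y
  rw [h1]
  have h2 : HasDerivAt (fun y : ℝ => (y : ℂ)) 1 y := Complex.ofRealCLM.hasDerivAt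
  have h3 := (h2.mul_const Complex.I).const_add (x : ℂ)
  rwa [one_mul] at h3

theorem vline_cont (x : ℝ) : Continuous (fun y : ℝ => (⟨x, y⟩ : ℂ)) :=
  continuous_iff_continuousAt.2 fun y => (vline x y).continuousAt

theorem plane_ineq {Ω : Set ℂ} (ho : IsOpen Ω) (hb : Bornology.IsBounded Ω) {g v : ℂ → ℝ} {w : ℝ}
    (hv : ContDiff ℝ 1 v) (hv0 : ∀ x, x ∉ Ω → v x = 0) (hg : ∀ x, g x = fderiv ℝ v x Complex.I)
    (hgc : Continuous g) (hg0 : ∀ x, x ∉ Ω → g x = 0) (hgd : ContDiffOn ℝ 1 g Ω)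
    (hi : Integrable (fun x => (Ω.indicator (dd Complex.I g) x) ^ 2))
    (hw : ∀ (x : ℂ) (a b : ℝ), a < b → (∀ s ∈ Ioo a b, x + s * Complex.I ∈ Ω) → b - a ≤ w) :
    (2 * Real.pi / w) ^ 2 * ∫ x, g x ^ 2 ≤ ∫ x, (Ω.indicator (dd Complex.I g) x) ^ 2 := by
  have hg2 : Integrable (fun x => g x ^ 2) := by
    refine (hgc.pow 2).integrable_of_hasCompactSupport ?_
    refine HasCompactSupport.intro hb.isCompact_closure ?_
    intro x hx
    change g x ^ 2 = 0
    rw [hg0 x (fun h => hx (subset_closure h)), zero_pow two_ne_zero]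
  set k : ℝ := (2 * Real.pi / w) ^ 2 with hk
  have hh : Integrable (fun x => (Ω.indicator (dd Complex.I g) x) ^ 2 - k * g x ^ 2) :=
    hi.sub (hg2.const_mul k)
  have hmp := Complex.volume_preserving_equiv_real_prod.symm
  have hcomp : Integrable (fun z : ℝ × ℝ =>
      (Ω.indicator (dd Complex.I g) (⟨z.1, z.2⟩ : ℂ)) ^ 2 - k * g ⟨z.1, z.2⟩ ^ 2)
      ((volume : Measure ℝ).prod volume) := by
    have h1 := (hmp.integrable_comp_emb (MeasurableEquiv.measurableEmbedding _)).2 hh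
    exact h1
  have hint : ∫ x, ((Ω.indicator (dd Complex.I g) x) ^ 2 - k * g x ^ 2) =
      ∫ x : ℝ, ∫ y : ℝ, ((Ω.indicator (dd Complex.I g) (⟨x, y⟩ : ℂ)) ^ 2 - k * g ⟨x, y⟩ ^ 2) := by
    rw [← hmp.integral_comp' (fun x => (Ω.indicator (dd Complex.I g) x) ^ 2 - k * g x ^ 2)]
    exact integral_prod _ hcomp
  have hnn : 0 ≤ ∫ x : ℝ, ∫ y : ℝ,
      ((Ω.indicator (dd Complex.I g) (⟨x, y⟩ : ℂ)) ^ 2 - k * g ⟨x, y⟩ ^ 2) := by
    refine integral_nonneg_of_ae ?_
    filter_upwards [hcomp.prod_right_ae] with x hx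
    change 0 ≤ ∫ y : ℝ, ((Ω.indicator (dd Complex.I g) (⟨x, y⟩ : ℂ)) ^ 2 - k * g ⟨x, y⟩ ^ 2)
    -- the slice
    set O : Set ℝ := {y | (⟨x, y⟩ : ℂ) ∈ Ω} with hOdef
    have hO : IsOpen O := ho.preimage (vline_cont x)
    have hOb : Bornology.IsBounded O := by
      obtain ⟨R, hR⟩ := hb.subset_closedBall 0
      refine (Metric.isBounded_closedBall (x := (0 : ℝ)) (r := R)).subset ?_
      intro y hy
      have h1 := hR hy
      rw [mem_closedBall_zero_iff] at h1 ⊢
      exact (Complex.abs_im_le_norm (⟨x, y⟩ : ℂ)).trans h1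
    have hpc : Continuous fun y : ℝ => g ⟨x, y⟩ := hgc.comp (vline_cont x)
    have hp0 : ∀ y, y ∉ O → g ⟨x, y⟩ = 0 := fun y hy => hg0 _ hy
    have hp2 : Integrable (fun y : ℝ => g ⟨x, y⟩ ^ 2) := by
      refine (hpc.pow 2).integrable_of_hasCompactSupport ?_
      refine HasCompactSupport.intro hOb.isCompact_closure ?_
      intro y hy
      change g ⟨x, y⟩ ^ 2 = 0
      rw [hp0 y (fun h => hy (subset_closure h)), zero_pow two_ne_zero]
    have hq : ∀ y : ℝ, HasDerivAt (fun y : ℝ => v ⟨x, y⟩) (g ⟨x, y⟩) y := by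
      intro y
      rw [hg]
      exact ((hv.differentiable (by norm_num)) (⟨x, y⟩ : ℂ)).hasFDerivAt.comp_hasDerivAt y (vline x y)
    have hd : ∀ y ∈ O, HasDerivAt (fun y : ℝ => g ⟨x, y⟩) (dd Complex.I g ⟨x, y⟩) y := by
      intro y hy
      have h1 : DifferentiableAt ℝ g (⟨x, y⟩ : ℂ) :=
        ((hgd _ hy).differentiableWithinAt (by norm_num)).differentiableAt (ho.mem_nhds hy)
      exact h1.hasFDerivAt.comp_hasDerivAt y (vline x y)
    have hind : ∀ y ∈ O, (Ω.indicator (dd Complex.I g) (⟨x, y⟩ : ℂ)) = dd Complex.I g ⟨x, y⟩ :=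
      fun y hy => indicator_of_mem (s := Ω) hy _
    have hi' : IntegrableOn (fun y : ℝ => dd Complex.I g ⟨x, y⟩ ^ 2) O := by
      have h1 : Integrable (fun y : ℝ => (Ω.indicator (dd Complex.I g) (⟨x, y⟩ : ℂ)) ^ 2) := by
        have h2 := hx.add (hp2.const_mul k)
        refine h2.congr (Eventually.of_forall fun y => ?_)
        change (Ω.indicator (dd Complex.I g) (⟨x, y⟩ : ℂ)) ^ 2 - k * g ⟨x, y⟩ ^ 2 +
          k * g ⟨x, y⟩ ^ 2 = _
        ring
      refine (h1.integrableOn (s := O)).congr_fun ?_ hO.measurableSet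
      intro y hy
      change (Ω.indicator (dd Complex.I g) (⟨x, y⟩ : ℂ)) ^ 2 = dd Complex.I g ⟨x, y⟩ ^ 2
      rw [hind y hy]
    have hfin := line_ineq (w := w) hO hOb hpc hp0 hq (fun y hy => hv0 _ hy) hd hi' (by
      intro a b hab hsub
      refine hw x a b hab fun s hs => ?_
      have h1 := hsub hs
      rw [hOdef] at h1
      change (⟨x, s⟩ : ℂ) ∈ Ω at h1
      rwa [Complex.mk_eq_add_mul_I] at h1)
    have heq : ∫ y : ℝ, ((Ω.indicator (dd Complex.I g) (⟨x, y⟩ : ℂ)) ^ 2 - k * g ⟨x, y⟩ ^ 2) =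
        ∫ y in O, (dd Complex.I g ⟨x, y⟩ ^ 2 - (2 * Real.pi / w) ^ 2 * g ⟨x, y⟩ ^ 2) := by
      rw [← setIntegral_eq_integral_of_forall_compl_eq_zero (s := O)]
      · refine setIntegral_congr_fun hO.measurableSet fun y hy => ?_
        change (Ω.indicator (dd Complex.I g) (⟨x, y⟩ : ℂ)) ^ 2 - k * g ⟨x, y⟩ ^ 2 = _
        rw [hind y hy]
      · intro y hy
        rw [indicator_of_notMem (s := Ω) hy, hp0 y hy]
        ring
    rw [heq]
    exact hfin
  rw [← hint, integral_sub hi (hg2.const_mul k), integral_const_mul] at hnn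
  linarith

/-- the solution is not constant on vertical lines -/
theorem width_ne {Ω : Set ℂ} {lam c : ℝ} {v : ℂ → ℝ} (D : Dat Ω lam c v)
    (hb : Bornology.IsBounded Ω) (hne : Ω.Nonempty) (hlam : 0 < lam) (hc : c ≠ 0) :
    ∃ x, fderiv ℝ v x Complex.I ≠ 0 := by
  by_contra hcon
  push Not at hcon
  have hv : ∀ z, v z = 0 := by
    intro z
    obtain ⟨R, hR⟩ := hb.subset_closedBall 0
    have hd : ∀ y : ℝ, HasDerivAt (fun y : ℝ => v ⟨z.re, y⟩) 0 y := by
      intro y
      have h1 := ((D.c1.differentiable (by norm_num)) (⟨z.re, y⟩ : ℂ)).hasFDerivAt.comp_hasDerivAt y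
        (vline z.re y)
      rwa [hcon] at h1
    have hconst := is_const_of_deriv_eq_zero (f := fun y : ℝ => v ⟨z.re, y⟩)
      (fun y => (hd y).differentiableAt) (fun y => (hd y).deriv) z.im (|R| + 1)
    change v z = v ⟨z.re, |R| + 1⟩ at hconst
    rw [hconst]
    refine D.out _ fun h => ?_
    have h1 := hR h
    rw [mem_closedBall_zero_iff] at h1
    have h2 := (Complex.abs_im_le_norm (⟨z.re, |R| + 1⟩ : ℂ)).trans h1
    change |(|R| + 1)| ≤ R at h2
    have h3 := le_abs_self R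
    have h4 := le_abs_self (|R| + 1)
    linarith
  obtain ⟨x₀, hx₀⟩ := hne
  obtain ⟨r, hr, U, hU, -, h⟩ := D.loc x₀ hx₀
  have hU1 : U =ᶠ[𝓝 x₀] fun _ => c := by
    filter_upwards [Metric.ball_mem_nhds x₀ hr] with y hy
    rw [← (h y hy).1, hv y, zero_add]
  have h1 := (h x₀ (Metric.mem_ball_self hr)).2
  rw [la_congr hU1, hU1.self_of_nhds] at h1
  have h2 : la (fun _ : ℂ => c) x₀ = 0 := by
    have h3 : ∀ (e : ℂ) (a : ℝ), dd e (fun _ : ℂ => a) = fun _ => 0 := by
      intro e a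
      funext x
      unfold Pool.Agent.TH298.Sch.dd
      rw [fderiv_fun_const]
      rfl
    unfold Pool.Agent.R227.SA.la
    rw [h3, h3, h3, h3, add_zero]
  rw [h2] at h1
  have h3 : lam * c ≠ 0 := mul_ne_zero hlam.ne' hc
  apply h3
  linarith

/-- TARGET 2: the chords of the region parallel to the imaginary axis cannot all be short. -/
theorem width_bound_I {Ω : Set ℂ} {lam c : ℝ} {v : ℂ → ℝ} (D : Dat Ω lam c v) (ho : IsOpen Ω)
    (hb : Bornology.IsBounded Ω) (hne : Ω.Nonempty) (hlam : 0 < lam) (hc : c ≠ 0) {w : ℝ}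
    (hw0 : 0 < w) (hw : ∀ (x : ℂ) (a b : ℝ), a < b →
      (∀ s ∈ Ioo a b, x + s * Complex.I ∈ Ω) → b - a ≤ w) : 4 * Real.pi ^ 2 / w ^ 2 < lam := by
  have hpi := Real.pi_pos
  set g : ℂ → ℝ := fun x => fderiv ℝ v x Complex.I with hg
  have hWat : Wat Ω lam g := by
    have h1 := kill_wat D Complex.I 0
    have h2 : (fun x => fderiv ℝ v x (Complex.I + ((0 : ℝ) : ℂ) * Complex.I * x)) = g := by
      funext x
      rw [hg]
      simp
    rwa [h2] at h1
  obtain ⟨M, hM⟩ := wat_bdd hb hWat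
  obtain ⟨F, h0, h1, h2, h3, -⟩ := mem_V ho hb (f := g) (k := fun x => -(lam * g x)) hWat.cont hWat.out
    ((wat_cd hWat).of_le (by norm_num)) (hWat.cont.measurable.const_mul lam).neg
    (fun x hx => by rw [hWat.out x hx]; simp) (M := |lam| * M)
    (fun x => by
      rw [abs_neg, abs_mul]
      exact mul_le_mul_of_nonneg_left (hM x) (abs_nonneg _)) (by
      intro φ hφ hs
      rw [weak_of_classical ho (wat_cd hWat) (φ := φ) ⟨hφ.sm.of_le (by exact_mod_cast le_top), hφ.cs, hs⟩]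
      congr 1
      refine integral_congr_ae (Eventually.of_forall fun x => ?_)
      change Ω.indicator (la g) x * φ x = -(lam * g x) * φ x
      by_cases hx : x ∈ Ω
      · rw [indicator_of_mem hx, wat_la hWat hx]
      · rw [indicator_of_notMem hx, hWat.out x hx]
        simp)
  have n0 := e4_norm h0
  have n1 := e4_norm h1
  have n2 := e4_norm h2
  -- the energy identity
  have hen : ‖F.1 0‖ ^ 2 + ‖F.1 1‖ ^ 2 + ‖F.1 2‖ ^ 2 = (1 + lam) * ‖F.1 0‖ ^ 2 := by
    have h4 := h3 F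
    rw [real_inner_self_eq_norm_sq] at h4
    have h5 : ‖F‖ ^ 2 = ‖F.1 0‖ ^ 2 + ‖F.1 1‖ ^ 2 + ‖F.1 2‖ ^ 2 := by
      have h6 : ‖F‖ = ‖F.1‖ := rfl
      rw [h6, PiLp.norm_sq_eq_of_L2, Fin.sum_univ_three]
    rw [← h5, h4, n0, ← integral_const_mul]
    refine integral_congr_ae ?_
    filter_upwards [h0] with x hx
    rw [hx]
    ring
  obtain ⟨C, hC, hP⟩ := poincare hb
  have hP' := hP F.1 F.2
  have hi : Integrable (fun x => (Ω.indicator (dd Complex.I g) x) ^ 2) := by
    have h4 : MemLp (Ω.indicator (dd Complex.I g)) 2 volume :=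
      (memLp_congr_ae h2).1 (Lp.memLp (F.1 2))
    exact h4.integrable_sq
  have hpl := plane_ineq ho hb D.c1 D.out (fun x => rfl) hWat.cont hWat.out
    ((wat_cd hWat).of_le (by norm_num)) hi hw
  rw [← n0, ← n2] at hpl
  have hpos : 0 < ‖F.1 0‖ ^ 2 := by
    rw [n0]
    obtain ⟨x, hx⟩ := width_ne D hb hne hlam hc
    refine (hWat.cont.pow 2).integral_pos_of_hasCompactSupport_nonneg_nonzero ?_
      (fun y => sq_nonneg _) (x := x) (pow_ne_zero 2 hx)
    refine HasCompactSupport.intro hb.isCompact_closure ?_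
    intro x hx
    change g x ^ 2 = 0
    rw [hWat.out x (fun h => hx (subset_closure h)), zero_pow two_ne_zero]
  have hk : (2 * Real.pi / w) ^ 2 = 4 * Real.pi ^ 2 / w ^ 2 := by
    rw [div_pow, mul_pow]; norm_num
  rw [hk] at hpl
  have h1pos : 0 < ‖F.1 1‖ ^ 2 := by
    by_contra hcon
    have h4 : ‖F.1 1‖ ^ 2 = 0 := le_antisymm (not_lt.1 hcon) (sq_nonneg _)
    rw [h4, mul_zero] at hP'
    linarith
  have hfin : 4 * Real.pi ^ 2 / w ^ 2 * ‖F.1 0‖ ^ 2 < lam * ‖F.1 0‖ ^ 2 := by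
    have : (1 + lam) * ‖F.1 0‖ ^ 2 = ‖F.1 0‖ ^ 2 + lam * ‖F.1 0‖ ^ 2 := by ring
    linarith
  exact lt_of_mul_lt_mul_right hfin hpos.le

/-- TARGET 3: the same for any direction. -/
theorem width_bound {Ω : Set ℂ} {lam c : ℝ} {v : ℂ → ℝ} (D : Dat Ω lam c v) (ho : IsOpen Ω)
    (hb : Bornology.IsBounded Ω) (hne : Ω.Nonempty) (hlam : 0 < lam) (hc : c ≠ 0) {e : ℂ}
    (he : ‖e‖ = 1) {w : ℝ} (hw0 : 0 < w) (hw : ∀ (x : ℂ) (a b : ℝ), a < b →
      (∀ s ∈ Ioo a b, x + s * e ∈ Ω) → b - a ≤ w) : 4 * Real.pi ^ 2 / w ^ 2 < lam := by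
  obtain ⟨t, ht⟩ : ∃ t : ℝ, Pool.Agent.TH298.Sch.er t = e * -Complex.I := by
    refine ⟨Complex.arg (e * -Complex.I), ?_⟩
    have h1 : ‖e * -Complex.I‖ = 1 := by rw [norm_mul, he, norm_neg, Complex.norm_I, one_mul]
    have h2 := Complex.norm_mul_cos_add_sin_mul_I (e * -Complex.I)
    rw [h1, Complex.ofReal_one, one_mul] at h2
    unfold Pool.Agent.TH298.Sch.er
    push_cast
    exact h2
  have htI : Pool.Agent.TH298.Sch.er t * Complex.I = e := by
    rw [ht]
    have h1 : e * -Complex.I * Complex.I = -(e * (Complex.I * Complex.I)) := by ring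
    rw [h1, Complex.I_mul_I]
    ring
  have hnorm : ∀ x : ℂ, ‖Pool.Agent.TH298.Sch.er t * x‖ = ‖x‖ := by
    intro x
    rw [ht, norm_mul, norm_mul, he, norm_neg, Complex.norm_I, one_mul, one_mul]
  have hne0 : Pool.Agent.TH298.Sch.er t ≠ 0 := by
    intro h
    have h1 := hnorm 1
    rw [h, zero_mul, norm_zero, norm_one] at h1
    norm_num at h1
  refine width_bound_I (D.rotG t) (ho.preimage (by fun_prop)) ?_ ?_ hlam hc hw0 ?_
  · obtain ⟨R, hR⟩ := hb.subset_closedBall 0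
    refine (Metric.isBounded_closedBall (x := (0 : ℂ)) (r := R)).subset ?_
    intro y hy
    have h1 := hR hy
    rw [mem_closedBall_zero_iff] at h1 ⊢
    rwa [hnorm] at h1
  · obtain ⟨x, hx⟩ := hne
    refine ⟨(Pool.Agent.TH298.Sch.er t)⁻¹ * x, ?_⟩
    change Pool.Agent.TH298.Sch.er t * ((Pool.Agent.TH298.Sch.er t)⁻¹ * x) ∈ Ω
    rwa [← mul_assoc, mul_inv_cancel₀ hne0, one_mul]
  · intro x a b hab h
    refine hw (Pool.Agent.TH298.Sch.er t * x) a b hab fun s hs => ?_
    have h1 := h s hs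
    change Pool.Agent.TH298.Sch.er t * (x + s * Complex.I) ∈ Ω at h1
    have h2 : Pool.Agent.TH298.Sch.er t * (x + s * Complex.I) =
        Pool.Agent.TH298.Sch.er t * x + s * (Pool.Agent.TH298.Sch.er t * Complex.I) := by ring
    rwa [h2, htI] at h1

end Pool.Agent.Helper327_Drum
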