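import Pool.Agent.Helper327_Drum.Fin.WB

-- width_bound2 done; the Dirichlet Wirtinger inequality was not in WB.lean, it is proved here (wb2_wirt)
/-
JOB WB2 (owner helper327, problem MP_d92c84_an). The import is on origin/main.
-/

set_option autoImplicit false
open MeasureTheory Set Filter Topology ComplexConjugate
open scoped ContDiff InnerProductSpace

namespace Pool.Agent.Helper327_Drum

open Pool.Agent.TH298.Sch (dd SC)
open Pool.Agent.R227.SA (la Wat Dat)

/-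
This improves `width_bound` (Fin/WB.lean) by the corresponding term for the orthogonal direction.
Plain proof: as for `width_bound_I`, with g = fderiv v · I and ‖F 1‖² + ‖F 2‖² = lam ‖g‖²: ‖F 2‖² ≥ (2π/w)² ‖g‖² from the chords parallel to I as there, and ‖F 1‖² ≥ (π/h)² ‖g‖² instead of `poincare`, by
the Dirichlet case of Wirtinger's inequality (p a = p b = 0 implies ∫ p'² ≥ (π/(b-a))² ∫ p²; it is proved as a lemma inside Fin/WB.lean) on the components of the horizontal sections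
{s : x + s ∈ Ω}, where g vanishes at the ends. Since g is not 0: lam ≥ 4π²/w² + π²/h². Then rotate (`Dat.rotG`) as in `width_bound`.
-/

/-- Wirtinger's inequality for functions vanishing at the ends, not optimal constant -/
theorem wb2_wirt_aux {a b : ℝ} (hab : a < b) {p p' : ℝ → ℝ} (hp : ContinuousOn p (Icc a b))
    (hd : ∀ s ∈ Ioo a b, HasDerivAt p (p' s) s) (hi : IntegrableOn (fun s => p' s ^ 2) (Ioo a b))
    (hpa : p a = 0) (hpb : p b = 0) {κ : ℝ} (hκ0 : 0 < κ) (hκ : κ * (b - a) < Real.pi) :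
    κ ^ 2 * ∫ s in a..b, p s ^ 2 ≤ ∫ s in a..b, p' s ^ 2 := by
  have hpi := Real.pi_pos
  have hL : 0 < b - a := sub_pos.2 hab
  have hu : uIcc a b = Icc a b := uIcc_of_le hab.le
  have hm : AEStronglyMeasurable p' (volume.restrict (Ioo a b)) := by
    refine (measurable_deriv p).aestronglyMeasurable.congr ?_
    filter_upwards [ae_restrict_mem measurableSet_Ioo] with s hs
    exact (hd s hs).deriv
  have hL2' : MemLp p' 2 (volume.restrict (Ioc a b)) := by
    have h1 : MemLp p' 2 (volume.restrict (Ioo a b)) :=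
      (memLp_two_iff_integrable_sq hm).2 hi
    rwa [Measure.restrict_congr_set Ioo_ae_eq_Ioc] at h1
  have hii : IntervalIntegrable p' volume a b := by
    rw [intervalIntegrable_iff_integrableOn_Ioc_of_le hab.le]
    exact hL2'.integrable (by norm_num)
  have hii2 : IntervalIntegrable (fun s => p' s ^ 2) volume a b := by
    rw [intervalIntegrable_iff_integrableOn_Ioc_of_le hab.le]
    exact hL2'.integrable_sq
  have harg : ∀ s ∈ Icc a b, -(Real.pi / 2) < κ * (s - (a + b) / 2) ∧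
      κ * (s - (a + b) / 2) < Real.pi / 2 := by
    intro s hs
    have h1 : κ * (s - (a + b) / 2) ≤ κ * ((b - a) / 2) :=
      mul_le_mul_of_nonneg_left (by linarith [hs.2]) hκ0.le
    have h2 : κ * (-((b - a) / 2)) ≤ κ * (s - (a + b) / 2) :=
      mul_le_mul_of_nonneg_left (by linarith [hs.1]) hκ0.le
    constructor <;> nlinarith
  have hcos : ∀ s ∈ Icc a b, 0 < Real.cos (κ * (s - (a + b) / 2)) := fun s hs =>
    Real.cos_pos_of_mem_Ioo ⟨(harg s hs).1, (harg s hs).2⟩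
  set ψ : ℝ → ℝ := fun s => κ * Real.tan (κ * (s - (a + b) / 2)) with hψ
  have hψd : ∀ s ∈ Icc a b, HasDerivAt ψ (κ ^ 2 + ψ s ^ 2) s := by
    intro s hs
    have h1 : HasDerivAt (fun s : ℝ => κ * (s - (a + b) / 2)) κ s := by
      have := ((hasDerivAt_id s).sub_const ((a + b) / 2)).const_mul κ
      simpa using this
    have h2 := ((Real.hasDerivAt_tan (hcos s hs).ne').comp s h1).const_mul κ
    refine h2.congr_deriv ?_
    rw [hψ]
    have h3 := (hcos s hs).ne'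
    change κ * (1 / Real.cos (κ * (s - (a + b) / 2)) ^ 2 * κ) =
      κ ^ 2 + (κ * Real.tan (κ * (s - (a + b) / 2))) ^ 2
    rw [Real.tan_eq_sin_div_cos]
    have h4 := Real.sin_sq_add_cos_sq (κ * (s - (a + b) / 2))
    generalize Real.cos (κ * (s - (a + b) / 2)) = C at h3 h4 ⊢
    generalize Real.sin (κ * (s - (a + b) / 2)) = S at h4 ⊢
    field_simp
    linarith
  have hψc : ContinuousOn ψ (Icc a b) := fun s hs => (hψd s hs).continuousAt.continuousWithinAt
  have hG : IntervalIntegrable (fun s => p' s * (2 * p s * ψ s) + p s ^ 2 * (κ ^ 2 + ψ s ^ 2))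
      volume a b := by
    refine (hii.mul_continuousOn ?_).add (ContinuousOn.intervalIntegrable ?_)
    · rw [hu]
      exact (continuousOn_const.mul hp).mul hψc
    · rw [hu]
      exact (hp.pow 2).mul (continuousOn_const.add (hψc.pow 2))
  have hF : ∫ s in a..b, (p' s * (2 * p s * ψ s) + p s ^ 2 * (κ ^ 2 + ψ s ^ 2)) = 0 := by
    rw [intervalIntegral.integral_eq_sub_of_hasDerivAt_of_le hab.le
      (f := fun s => p s ^ 2 * ψ s) ((hp.pow 2).mul hψc) ?_ hG]
    · simp [hpa, hpb]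
    · intro s hs
      have h1 := ((hd s hs).pow 2).mul (hψd s (Ioo_subset_Icc_self hs))
      refine h1.congr_deriv ?_
      simp only [Pi.pow_apply, Nat.cast_ofNat, Nat.add_one_sub_one, pow_one]
      ring
  have hp2 : IntervalIntegrable (fun s => κ ^ 2 * p s ^ 2) volume a b := by
    refine ContinuousOn.intervalIntegrable ?_
    rw [hu]
    exact continuousOn_const.mul (hp.pow 2)
  have hnn : 0 ≤ ∫ s in a..b, ((p' s ^ 2 + (p' s * (2 * p s * ψ s) +
      p s ^ 2 * (κ ^ 2 + ψ s ^ 2))) - κ ^ 2 * p s ^ 2) := by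
    refine intervalIntegral.integral_nonneg hab.le fun s _ => ?_
    have h1 : (p' s ^ 2 + (p' s * (2 * p s * ψ s) + p s ^ 2 * (κ ^ 2 + ψ s ^ 2))) -
        κ ^ 2 * p s ^ 2 = (p' s + p s * ψ s) ^ 2 := by ring
    rw [h1]
    exact sq_nonneg _
  rw [intervalIntegral.integral_sub (hii2.add hG) hp2, intervalIntegral.integral_add hii2 hG, hF,
    intervalIntegral.integral_const_mul, add_zero] at hnn
  linarith

/-- Wirtinger's inequality for functions vanishing at the ends -/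
theorem wb2_wirt {a b : ℝ} (hab : a < b) {p p' : ℝ → ℝ} (hp : ContinuousOn p (Icc a b))
    (hd : ∀ s ∈ Ioo a b, HasDerivAt p (p' s) s) (hi : IntegrableOn (fun s => p' s ^ 2) (Ioo a b))
    (hpa : p a = 0) (hpb : p b = 0) :
    (Real.pi / (b - a)) ^ 2 * ∫ s in a..b, p s ^ 2 ≤ ∫ s in a..b, p' s ^ 2 := by
  have hL : 0 < b - a := sub_pos.2 hab
  have hK : 0 < Real.pi / (b - a) := div_pos Real.pi_pos hL
  have ht : Tendsto (fun κ : ℝ => κ ^ 2 * ∫ s in a..b, p s ^ 2) (𝓝[<] (Real.pi / (b - a)))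
      (𝓝 ((Real.pi / (b - a)) ^ 2 * ∫ s in a..b, p s ^ 2)) :=
    (((continuous_id.pow 2).mul continuous_const).tendsto _).mono_left nhdsWithin_le_nhds
  refine le_of_tendsto ht ?_
  filter_upwards [Ioo_mem_nhdsLT hK] with κ hκ
  refine wb2_wirt_aux hab hp hd hi hpa hpb hκ.1 ?_
  have h1 := hκ.2
  rwa [lt_div_iff₀ hL] at h1

theorem wb2_line {O : Set ℝ} (hO : IsOpen O) (hOb : Bornology.IsBounded O) {p p' : ℝ → ℝ}
    {w : ℝ} (hp : Continuous p) (hp0 : ∀ s, s ∉ O → p s = 0)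
    (hd : ∀ s ∈ O, HasDerivAt p (p' s) s) (hi : IntegrableOn (fun s => p' s ^ 2) O)
    (hw : ∀ a b, a < b → Ioo a b ⊆ O → b - a ≤ w) :
    0 ≤ ∫ s in O, (p' s ^ 2 - (Real.pi / w) ^ 2 * p s ^ 2) := by
  have hpi := Real.pi_pos
  have hp2 : Integrable (fun s => p s ^ 2) := by
    refine (hp.pow 2).integrable_of_hasCompactSupport ?_
    refine HasCompactSupport.intro hOb.isCompact_closure ?_
    intro x hx
    change p x ^ 2 = 0
    rw [hp0 x (fun h => hx (subset_closure h)), zero_pow two_ne_zero]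
  have hF : IntegrableOn (fun s => p' s ^ 2 - (Real.pi / w) ^ 2 * p s ^ 2) O :=
    hi.sub ((hp2.const_mul _).integrableOn)
  let Cs : Set (Set ℝ) := (fun x => connectedComponentIn O x) '' O
  have hCs : ∀ C ∈ Cs, ∃ a b, a < b ∧ C = Ioo a b ∧ a ∉ O ∧ b ∉ O := by
    rintro _ ⟨x, hx, rfl⟩
    exact comp_Ioo hO hOb hx
  have hdisj : Cs.PairwiseDisjoint id := by
    rintro _ ⟨x, hx, rfl⟩ _ ⟨y, hy, rfl⟩ hne
    change Disjoint (connectedComponentIn O x) (connectedComponentIn O y)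
    by_contra h
    rw [Set.not_disjoint_iff] at h
    obtain ⟨z, hzx, hzy⟩ := h
    exact hne ((connectedComponentIn_eq hzx).trans (connectedComponentIn_eq hzy).symm)
  have hcount : Cs.Countable := by
    refine hdisj.countable_of_isOpen ?_ ?_
    · rintro _ ⟨x, hx, rfl⟩
      exact hO.connectedComponentIn
    · rintro _ ⟨x, hx, rfl⟩
      exact ⟨x, mem_connectedComponentIn hx⟩
  have hcov : (⋃ C : Cs, (C : Set ℝ)) = O := by
    ext x
    rw [mem_iUnion]
    constructor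
    · rintro ⟨⟨_, y, hy, rfl⟩, hx⟩
      exact connectedComponentIn_subset O y hx
    · intro hx
      exact ⟨⟨_, x, hx, rfl⟩, mem_connectedComponentIn hx⟩
  have : Countable Cs := hcount.to_subtype
  have hsum := integral_iUnion (μ := volume) (s := fun C : Cs => (C : Set ℝ))
    (f := fun s => p' s ^ 2 - (Real.pi / w) ^ 2 * p s ^ 2)
    (fun C => by
      obtain ⟨a, b, _, h, _⟩ := hCs C C.2
      rw [h]; exact measurableSet_Ioo)
    (fun C C' hCC' => hdisj C.2 C'.2 (fun h => hCC' (Subtype.ext h)))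
    (by rw [hcov]; exact hF)
  rw [hcov] at hsum
  rw [hsum]
  refine tsum_nonneg fun C => ?_
  obtain ⟨a, b, hab, hC, ha, hb⟩ := hCs C C.2
  have hCO : (C : Set ℝ) ⊆ O := by
    rw [← hcov]; exact subset_iUnion (fun C : Cs => (C : Set ℝ)) C
  rw [hC] at hCO ⊢
  have hba : b - a ≤ w := hw a b hab hCO
  have hL : 0 < b - a := sub_pos.2 hab
  have hW := wb2_wirt hab hp.continuousOn (fun s hs => hd s (hCO hs)) (hi.mono_set hCO)
    (hp0 a ha) (hp0 b hb)
  have hnn : 0 ≤ ∫ s in a..b, p s ^ 2 :=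
    intervalIntegral.integral_nonneg hab.le fun s _ => sq_nonneg _
  have hk : (Real.pi / w) ^ 2 ≤ (Real.pi / (b - a)) ^ 2 := by
    refine pow_le_pow_left₀ (div_nonneg (by positivity) (hL.le.trans hba)) ?_ 2
    exact div_le_div_of_nonneg_left (by positivity) hL hba
  have h7 : ∫ s in Ioo a b, (p' s ^ 2 - (Real.pi / w) ^ 2 * p s ^ 2) =
      (∫ s in a..b, p' s ^ 2) - (Real.pi / w) ^ 2 * ∫ s in a..b, p s ^ 2 := by
    rw [integral_sub (hi.mono_set hCO) ((hp2.const_mul _).integrableOn), integral_const_mul,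
      intervalIntegral.integral_of_le hab.le, intervalIntegral.integral_of_le hab.le,
      integral_Ioc_eq_integral_Ioo, integral_Ioc_eq_integral_Ioo]
  rw [h7]
  have h8 := mul_le_mul_of_nonneg_right hk hnn
  linarith

/-- the horizontal line through `y` -/
theorem wb2_hline (y : ℝ) (x : ℝ) : HasDerivAt (fun x : ℝ => (⟨x, y⟩ : ℂ)) 1 x := by
  have h1 : (fun x : ℝ => (⟨x, y⟩ : ℂ)) = fun x : ℝ => (x : ℂ) + (y : ℂ) * Complex.I := by
    funext x
    exact Complex.mk_eq_add_mul_I x y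
  rw [h1]
  have h2 : HasDerivAt (fun x : ℝ => (x : ℂ)) 1 x := Complex.ofRealCLM.hasDerivAt
  exact h2.add_const _

theorem wb2_hline_cont (y : ℝ) : Continuous (fun x : ℝ => (⟨x, y⟩ : ℂ)) :=
  continuous_iff_continuousAt.2 fun x => (wb2_hline y x).continuousAt

theorem wb2_plane {Ω : Set ℂ} (ho : IsOpen Ω) (hb : Bornology.IsBounded Ω) {g : ℂ → ℝ} {w : ℝ}
    (hgc : Continuous g) (hg0 : ∀ x, x ∉ Ω → g x = 0) (hgd : ContDiffOn ℝ 1 g Ω)
    (hi : Integrable (fun x => (Ω.indicator (dd 1 g) x) ^ 2))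
    (hw : ∀ (x : ℂ) (a b : ℝ), a < b → (∀ s ∈ Ioo a b, x + s ∈ Ω) → b - a ≤ w) :
    (Real.pi / w) ^ 2 * ∫ x, g x ^ 2 ≤ ∫ x, (Ω.indicator (dd 1 g) x) ^ 2 := by
  have hg2 : Integrable (fun x => g x ^ 2) := by
    refine (hgc.pow 2).integrable_of_hasCompactSupport ?_
    refine HasCompactSupport.intro hb.isCompact_closure ?_
    intro x hx
    change g x ^ 2 = 0
    rw [hg0 x (fun h => hx (subset_closure h)), zero_pow two_ne_zero]
  set k : ℝ := (Real.pi / w) ^ 2 with hk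
  have hh : Integrable (fun x => (Ω.indicator (dd 1 g) x) ^ 2 - k * g x ^ 2) :=
    hi.sub (hg2.const_mul k)
  have hmp := Complex.volume_preserving_equiv_real_prod.symm
  have hcomp : Integrable (fun z : ℝ × ℝ =>
      (Ω.indicator (dd 1 g) (⟨z.1, z.2⟩ : ℂ)) ^ 2 - k * g ⟨z.1, z.2⟩ ^ 2)
      ((volume : Measure ℝ).prod volume) := by
    have h1 := (hmp.integrable_comp_emb (MeasurableEquiv.measurableEmbedding _)).2 hh
    exact h1
  have hint : ∫ x, ((Ω.indicator (dd 1 g) x) ^ 2 - k * g x ^ 2) =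
      ∫ y : ℝ, ∫ x : ℝ, ((Ω.indicator (dd 1 g) (⟨x, y⟩ : ℂ)) ^ 2 - k * g ⟨x, y⟩ ^ 2) := by
    rw [← hmp.integral_comp' (fun x => (Ω.indicator (dd 1 g) x) ^ 2 - k * g x ^ 2)]
    exact integral_prod_symm _ hcomp
  have hnn : 0 ≤ ∫ y : ℝ, ∫ x : ℝ,
      ((Ω.indicator (dd 1 g) (⟨x, y⟩ : ℂ)) ^ 2 - k * g ⟨x, y⟩ ^ 2) := by
    refine integral_nonneg_of_ae ?_
    filter_upwards [hcomp.prod_left_ae] with y hx
    change 0 ≤ ∫ x : ℝ, ((Ω.indicator (dd 1 g) (⟨x, y⟩ : ℂ)) ^ 2 - k * g ⟨x, y⟩ ^ 2)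
    -- the slice
    set O : Set ℝ := {x | (⟨x, y⟩ : ℂ) ∈ Ω} with hOdef
    have hO : IsOpen O := ho.preimage (wb2_hline_cont y)
    have hOb : Bornology.IsBounded O := by
      obtain ⟨R, hR⟩ := hb.subset_closedBall 0
      refine (Metric.isBounded_closedBall (x := (0 : ℝ)) (r := R)).subset ?_
      intro x hx
      have h1 := hR hx
      rw [mem_closedBall_zero_iff] at h1 ⊢
      exact (Complex.abs_re_le_norm (⟨x, y⟩ : ℂ)).trans h1
    have hpc : Continuous fun x : ℝ => g ⟨x, y⟩ := hgc.comp (wb2_hline_cont y)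
    have hp0 : ∀ x, x ∉ O → g ⟨x, y⟩ = 0 := fun x hx => hg0 _ hx
    have hp2 : Integrable (fun x : ℝ => g ⟨x, y⟩ ^ 2) := by
      refine (hpc.pow 2).integrable_of_hasCompactSupport ?_
      refine HasCompactSupport.intro hOb.isCompact_closure ?_
      intro x hx
      change g ⟨x, y⟩ ^ 2 = 0
      rw [hp0 x (fun h => hx (subset_closure h)), zero_pow two_ne_zero]
    have hd : ∀ x ∈ O, HasDerivAt (fun x : ℝ => g ⟨x, y⟩) (dd 1 g ⟨x, y⟩) x := by
      intro x hx
      have h1 : DifferentiableAt ℝ g (⟨x, y⟩ : ℂ) :=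
        ((hgd _ hx).differentiableWithinAt (by norm_num)).differentiableAt (ho.mem_nhds hx)
      exact h1.hasFDerivAt.comp_hasDerivAt x (wb2_hline y x)
    have hind : ∀ x ∈ O, (Ω.indicator (dd 1 g) (⟨x, y⟩ : ℂ)) = dd 1 g ⟨x, y⟩ :=
      fun x hx => indicator_of_mem (s := Ω) hx _
    have hi' : IntegrableOn (fun x : ℝ => dd 1 g ⟨x, y⟩ ^ 2) O := by
      have h1 : Integrable (fun x : ℝ => (Ω.indicator (dd 1 g) (⟨x, y⟩ : ℂ)) ^ 2) := by
        have h2 := hx.add (hp2.const_mul k)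
        refine h2.congr (Eventually.of_forall fun x => ?_)
        change (Ω.indicator (dd 1 g) (⟨x, y⟩ : ℂ)) ^ 2 - k * g ⟨x, y⟩ ^ 2 +
          k * g ⟨x, y⟩ ^ 2 = _
        ring
      refine (h1.integrableOn (s := O)).congr_fun ?_ hO.measurableSet
      intro x hx
      change (Ω.indicator (dd 1 g) (⟨x, y⟩ : ℂ)) ^ 2 = dd 1 g ⟨x, y⟩ ^ 2
      rw [hind x hx]
    have hfin := wb2_line (w := w) hO hOb hpc hp0 hd hi' (by
      intro a b hab hsub
      refine hw ((y : ℂ) * Complex.I) a b hab fun s hs => ?_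
      have h1 := hsub hs
      rw [hOdef] at h1
      change (⟨s, y⟩ : ℂ) ∈ Ω at h1
      rwa [Complex.mk_eq_add_mul_I, add_comm] at h1)
    have heq : ∫ x : ℝ, ((Ω.indicator (dd 1 g) (⟨x, y⟩ : ℂ)) ^ 2 - k * g ⟨x, y⟩ ^ 2) =
        ∫ x in O, (dd 1 g ⟨x, y⟩ ^ 2 - (Real.pi / w) ^ 2 * g ⟨x, y⟩ ^ 2) := by
      rw [← setIntegral_eq_integral_of_forall_compl_eq_zero (s := O)]
      · refine setIntegral_congr_fun hO.measurableSet fun x hx => ?_
        rw [hind x hx]
      · intro x hx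
        rw [indicator_of_notMem (s := Ω) hx, hp0 x hx]
        ring
    rw [heq]
    exact hfin
  rw [← hint, integral_sub hi (hg2.const_mul k), integral_const_mul] at hnn
  linarith

/-- the case of the directions `I` and `1` -/
theorem wb2_I {Ω : Set ℂ} {lam c : ℝ} {v : ℂ → ℝ} (D : Dat Ω lam c v) (ho : IsOpen Ω)
    (hb : Bornology.IsBounded Ω) (hne : Ω.Nonempty) (hlam : 0 < lam) (hc : c ≠ 0) {w h : ℝ}
    (hw : ∀ (x : ℂ) (a b : ℝ), a < b →
      (∀ s ∈ Ioo a b, x + s * Complex.I ∈ Ω) → b - a ≤ w)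
    (hh : ∀ (x : ℂ) (a b : ℝ), a < b → (∀ s ∈ Ioo a b, x + s ∈ Ω) → b - a ≤ h) :
    4 * Real.pi ^ 2 / w ^ 2 + Real.pi ^ 2 / h ^ 2 ≤ lam := by
  have hpi := Real.pi_pos
  set g : ℂ → ℝ := fun x => fderiv ℝ v x Complex.I with hg
  have hWat : Wat Ω lam g := by
    have h1 := kill_wat D Complex.I 0
    have h2 : (fun x => fderiv ℝ v x (Complex.I + ((0 : ℝ) : ℂ) * Complex.I * x)) = g := by
      funext x
      rw [hg]
      simp
    rwa [h2] at h1
  obtain ⟨M, hM⟩ := wat_bdd hb hWat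
  obtain ⟨F, h0, h1, h2, h3, -⟩ := mem_V ho hb (f := g) (k := fun x => -(lam * g x)) hWat.cont hWat.out
    ((wat_cd hWat).of_le (by norm_num)) (hWat.cont.measurable.const_mul lam).neg
    (fun x hx => by rw [hWat.out x hx]; simp) (M := |lam| * M)
    (fun x => by
      rw [abs_neg, abs_mul]
      exact mul_le_mul_of_nonneg_left (hM x) (abs_nonneg _)) (by
      intro φ hφ hs
      rw [weak_of_classical ho (wat_cd hWat) (φ := φ) ⟨hφ.sm.of_le (by exact_mod_cast le_top), hφ.cs, hs⟩]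
      congr 1
      refine integral_congr_ae (Eventually.of_forall fun x => ?_)
      change Ω.indicator (la g) x * φ x = -(lam * g x) * φ x
      by_cases hx : x ∈ Ω
      · rw [indicator_of_mem hx, wat_la hWat hx]
      · rw [indicator_of_notMem hx, hWat.out x hx]
        simp)
  have n0 := e4_norm h0
  have n1 := e4_norm h1
  have n2 := e4_norm h2
  -- the energy identity
  have hen : ‖F.1 0‖ ^ 2 + ‖F.1 1‖ ^ 2 + ‖F.1 2‖ ^ 2 = (1 + lam) * ‖F.1 0‖ ^ 2 := by
    have h4 := h3 F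
    rw [real_inner_self_eq_norm_sq] at h4
    have h5 : ‖F‖ ^ 2 = ‖F.1 0‖ ^ 2 + ‖F.1 1‖ ^ 2 + ‖F.1 2‖ ^ 2 := by
      have h6 : ‖F‖ = ‖F.1‖ := rfl
      rw [h6, PiLp.norm_sq_eq_of_L2, Fin.sum_univ_three]
    rw [← h5, h4, n0, ← integral_const_mul]
    refine integral_congr_ae ?_
    filter_upwards [h0] with x hx
    rw [hx]
    ring
  have hi : Integrable (fun x => (Ω.indicator (dd Complex.I g) x) ^ 2) := by
    have h4 : MemLp (Ω.indicator (dd Complex.I g)) 2 volume :=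
      (memLp_congr_ae h2).1 (Lp.memLp (F.1 2))
    exact h4.integrable_sq
  have hi1 : Integrable (fun x => (Ω.indicator (dd 1 g) x) ^ 2) := by
    have h4 : MemLp (Ω.indicator (dd 1 g)) 2 volume :=
      (memLp_congr_ae h1).1 (Lp.memLp (F.1 1))
    exact h4.integrable_sq
  have hpl := plane_ineq ho hb D.c1 D.out (fun x => rfl) hWat.cont hWat.out
    ((wat_cd hWat).of_le (by norm_num)) hi hw
  have hpl1 := wb2_plane ho hb hWat.cont hWat.out
    ((wat_cd hWat).of_le (by norm_num)) hi1 hh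
  rw [← n0, ← n2] at hpl
  rw [← n0, ← n1] at hpl1
  have hpos : 0 < ‖F.1 0‖ ^ 2 := by
    rw [n0]
    obtain ⟨x, hx⟩ := width_ne D hb hne hlam hc
    refine (hWat.cont.pow 2).integral_pos_of_hasCompactSupport_nonneg_nonzero ?_
      (fun y => sq_nonneg _) (x := x) (pow_ne_zero 2 hx)
    refine HasCompactSupport.intro hb.isCompact_closure ?_
    intro x hx
    change g x ^ 2 = 0
    rw [hWat.out x (fun h => hx (subset_closure h)), zero_pow two_ne_zero]
  have hk : (2 * Real.pi / w) ^ 2 = 4 * Real.pi ^ 2 / w ^ 2 := by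
    rw [div_pow, mul_pow]; norm_num
  have hk1 : (Real.pi / h) ^ 2 = Real.pi ^ 2 / h ^ 2 := div_pow _ _ _
  rw [hk] at hpl
  rw [hk1] at hpl1
  have hfin : (4 * Real.pi ^ 2 / w ^ 2 + Real.pi ^ 2 / h ^ 2) * ‖F.1 0‖ ^ 2 ≤
      lam * ‖F.1 0‖ ^ 2 := by
    have h4 : (1 + lam) * ‖F.1 0‖ ^ 2 = ‖F.1 0‖ ^ 2 + lam * ‖F.1 0‖ ^ 2 := by ring
    have h5 : (4 * Real.pi ^ 2 / w ^ 2 + Real.pi ^ 2 / h ^ 2) * ‖F.1 0‖ ^ 2 =
      4 * Real.pi ^ 2 / w ^ 2 * ‖F.1 0‖ ^ 2 + Real.pi ^ 2 / h ^ 2 * ‖F.1 0‖ ^ 2 := by ring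
    linarith
  exact le_of_mul_le_mul_right hfin hpos

/-- TARGET: chords in two orthogonal directions. -/
theorem width_bound2 {Ω : Set ℂ} {lam c : ℝ} {v : ℂ → ℝ} (D : Dat Ω lam c v) (ho : IsOpen Ω)
    (hb : Bornology.IsBounded Ω) (hne : Ω.Nonempty) (hlam : 0 < lam) (hc : c ≠ 0) {e : ℂ}
    (he : ‖e‖ = 1) {w h : ℝ} (hw0 : 0 < w) (hh0 : 0 < h)
    (hw : ∀ (x : ℂ) (a b : ℝ), a < b → (∀ s ∈ Ioo a b, x + s * e ∈ Ω) → b - a ≤ w)
    (hh : ∀ (x : ℂ) (a b : ℝ), a < b → (∀ s ∈ Ioo a b, x + s * (Complex.I * e) ∈ Ω) →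
      b - a ≤ h) : 4 * Real.pi ^ 2 / w ^ 2 + Real.pi ^ 2 / h ^ 2 ≤ lam := by
  obtain ⟨t, ht⟩ : ∃ t : ℝ, Pool.Agent.TH298.Sch.er t = e * -Complex.I := by
    refine ⟨Complex.arg (e * -Complex.I), ?_⟩
    have h1 : ‖e * -Complex.I‖ = 1 := by rw [norm_mul, he, norm_neg, Complex.norm_I, one_mul]
    have h2 := Complex.norm_mul_cos_add_sin_mul_I (e * -Complex.I)
    rw [h1, Complex.ofReal_one, one_mul] at h2
    unfold Pool.Agent.TH298.Sch.er
    push_cast
    exact h2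
  have htI : Pool.Agent.TH298.Sch.er t * Complex.I = e := by
    rw [ht]
    have h1 : e * -Complex.I * Complex.I = -(e * (Complex.I * Complex.I)) := by ring
    rw [h1, Complex.I_mul_I]
    ring
  have ht1 : Pool.Agent.TH298.Sch.er t = -(Complex.I * e) := by
    rw [ht]
    ring
  have hnorm : ∀ x : ℂ, ‖Pool.Agent.TH298.Sch.er t * x‖ = ‖x‖ := by
    intro x
    rw [ht, norm_mul, norm_mul, he, norm_neg, Complex.norm_I, one_mul, one_mul]
  have hne0 : Pool.Agent.TH298.Sch.er t ≠ 0 := by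
    intro h
    have h1 := hnorm 1
    rw [h, zero_mul, norm_zero, norm_one] at h1
    norm_num at h1
  refine wb2_I (D.rotG t) (ho.preimage (by fun_prop)) ?_ ?_ hlam hc ?_ ?_
  · obtain ⟨R, hR⟩ := hb.subset_closedBall 0
    refine (Metric.isBounded_closedBall (x := (0 : ℂ)) (r := R)).subset ?_
    intro y hy
    have h1 := hR hy
    rw [mem_closedBall_zero_iff] at h1 ⊢
    rwa [hnorm] at h1
  · obtain ⟨x, hx⟩ := hne
    refine ⟨(Pool.Agent.TH298.Sch.er t)⁻¹ * x, ?_⟩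
    change Pool.Agent.TH298.Sch.er t * ((Pool.Agent.TH298.Sch.er t)⁻¹ * x) ∈ Ω
    rwa [← mul_assoc, mul_inv_cancel₀ hne0, one_mul]
  · intro x a b hab h
    refine hw (Pool.Agent.TH298.Sch.er t * x) a b hab fun s hs => ?_
    have h1 := h s hs
    change Pool.Agent.TH298.Sch.er t * (x + s * Complex.I) ∈ Ω at h1
    have h2 : Pool.Agent.TH298.Sch.er t * (x + s * Complex.I) =
        Pool.Agent.TH298.Sch.er t * x + s * (Pool.Agent.TH298.Sch.er t * Complex.I) := by ring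
    rwa [h2, htI] at h1
  · intro x a b hab h
    have h3 := hh (Pool.Agent.TH298.Sch.er t * x) (-b) (-a) (by linarith) fun s hs => ?_
    · linarith
    · have h1 := h (-s) ⟨by linarith [hs.2], by linarith [hs.1]⟩
      change Pool.Agent.TH298.Sch.er t * (x + ((-s : ℝ) : ℂ)) ∈ Ω at h1
      have h2 : Pool.Agent.TH298.Sch.er t * (x + ((-s : ℝ) : ℂ)) =
          Pool.Agent.TH298.Sch.er t * x + s * -(Pool.Agent.TH298.Sch.er t) := by
        push_cast
        ring
      rw [h2] at h1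
      nth_rewrite 2 [ht1] at h1
      rwa [neg_neg] at h1

end Pool.Agent.Helper327_Drum
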